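import Pool.Agent.MAT.T

/-!
# MAT, BLA: Blaschke products
-/

set_option autoImplicit false

open Polynomial Metric Set Filter Topology

noncomputable section

namespace Pool.Agent.MAT

namespace BLA_

/-- the Blaschke factor -/
def bf (α z : ℂ) : ℂ := (z - α) / (1 - (starRingEnd ℂ) α * z)

lemma den_ne {α z : ℂ} (hα : ‖α‖ < 1) (hz : ‖z‖ ≤ 1) : 1 - (starRingEnd ℂ) α * z ≠ 0 := by
  intro h
  have h1 : (starRingEnd ℂ) α * z = 1 := by linear_combination -h
  have h2 : ‖α‖ * ‖z‖ = 1 := by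
    rw [← RCLike.norm_conj α, ← norm_mul, h1, norm_one]
  have h3 := norm_nonneg α
  have h4 := norm_nonneg z
  nlinarith

lemma sq_id (α z : ℂ) : ‖1 - (starRingEnd ℂ) α * z‖ ^ 2 =
    ‖z - α‖ ^ 2 + (1 - ‖α‖ ^ 2) * (1 - ‖z‖ ^ 2) := by
  rw [← Complex.normSq_eq_norm_sq, ← Complex.normSq_eq_norm_sq, ← Complex.normSq_eq_norm_sq,
    ← Complex.normSq_eq_norm_sq]
  simp [Complex.normSq_apply]
  ring

lemma bf_lt {α z : ℂ} (hα : ‖α‖ < 1) (hz : ‖z‖ < 1) : ‖bf α z‖ < 1 := by
  have h0 : 0 < ‖1 - (starRingEnd ℂ) α * z‖ := norm_pos_iff.2 (den_ne hα hz.le)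
  rw [bf, norm_div, div_lt_one h0]
  have h1 := sq_id α z
  have h2 : 0 < (1 - ‖α‖ ^ 2) * (1 - ‖z‖ ^ 2) := by
    have := norm_nonneg α
    have := norm_nonneg z
    apply mul_pos <;> nlinarith
  exact lt_of_pow_lt_pow_left₀ 2 h0.le (by linarith)

lemma bf_eq {α z : ℂ} (hα : ‖α‖ < 1) (hz : ‖z‖ = 1) : ‖bf α z‖ = 1 := by
  have h0 : 0 < ‖1 - (starRingEnd ℂ) α * z‖ := norm_pos_iff.2 (den_ne hα hz.le)
  rw [bf, norm_div, div_eq_one_iff_eq h0.ne']
  have h1 := sq_id α z
  rw [hz] at h1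
  have h2 : ‖z - α‖ ^ 2 = ‖1 - (starRingEnd ℂ) α * z‖ ^ 2 := by rw [h1]; ring
  exact (pow_left_inj₀ (norm_nonneg _) h0.le two_ne_zero).1 h2

lemma bf_diff {α z : ℂ} (hα : ‖α‖ < 1) (hz : ‖z‖ ≤ 1) : DifferentiableAt ℂ (bf α) z := by
  unfold bf
  exact (differentiableAt_id.sub_const α).fun_div
    ((differentiableAt_const 1).fun_sub (differentiableAt_id.const_mul _)) (den_ne hα hz)

/-- the formula -/
def fm {n : ℕ} (c : ℂ) (α : Fin n → ℂ) (z : ℂ) : ℂ := c * ∏ i, bf (α i) z

/-- the open set where the denominators do not vanish -/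
def Um {n : ℕ} (α : Fin n → ℂ) : Set ℂ := {z | ∀ i, 1 - (starRingEnd ℂ) (α i) * z ≠ 0}

lemma Um_open {n : ℕ} (α : Fin n → ℂ) : IsOpen (Um α) := by
  have : Um α = ⋂ i, {z | 1 - (starRingEnd ℂ) (α i) * z ≠ 0} := by
    ext z; simp [Um]
  rw [this]
  refine isOpen_iInter_of_finite fun i => ?_
  exact isOpen_ne_fun (by fun_prop) continuous_const

lemma Um_sub {n : ℕ} {α : Fin n → ℂ} (hα : ∀ i, ‖α i‖ < 1) : closedBall (0 : ℂ) 1 ⊆ Um α := by
  intro z hz i
  rw [mem_closedBall_zero_iff] at hz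
  exact den_ne (hα i) hz

lemma fm_diff {n : ℕ} (c : ℂ) (α : Fin n → ℂ) : DifferentiableOn ℂ (fm c α) (Um α) := by
  intro z hz
  apply DifferentiableAt.differentiableWithinAt
  unfold fm
  refine DifferentiableAt.const_mul ?_ _
  refine DifferentiableAt.fun_finsetProd fun i _ => ?_
  unfold bf
  exact (differentiableAt_id.sub_const _).fun_div
    ((differentiableAt_const 1).fun_sub (differentiableAt_id.const_mul _)) (hz i)

/-- the derivative does not vanish on the circle -/
lemma deriv_ne {n : ℕ} {c : ℂ} {α : Fin n → ℂ} (hc : ‖c‖ = 1) (hα : ∀ i, ‖α i‖ < 1)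
    (hn : 0 < n) {z : ℂ} (hz : ‖z‖ = 1) : deriv (fm c α) z ≠ 0 := by
  have hc0 : c ≠ 0 := by
    intro h; rw [h, norm_zero] at hc; exact zero_ne_one hc
  have hz0 : z ≠ 0 := by
    intro h; rw [h, norm_zero] at hz; exact zero_ne_one hz
  have hb0 : ∀ i, bf (α i) z ≠ 0 := by
    intro i h
    have := bf_eq (hα i) hz
    rw [h, norm_zero] at this
    exact zero_ne_one this
  have hza : ∀ i, z - α i ≠ 0 := by
    intro i h
    apply hb0 i
    rw [bf, h, zero_div]
  have h1 : logDeriv (fm c α) z = ∑ i, logDeriv (bf (α i)) z := by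
    have h2 : logDeriv (fun z => c * ∏ i, bf (α i) z) z = logDeriv (fun z => ∏ i, bf (α i) z) z :=
      logDeriv_const_mul z c hc0
    have h3 : logDeriv (∏ i ∈ Finset.univ, bf (α i) ·) z = ∑ i ∈ Finset.univ, logDeriv (bf (α i)) z :=
      logDeriv_prod (fun i _ => hb0 i) (fun i _ => bf_diff (hα i) hz.le)
    exact h2.trans h3
  have h4 : ∀ i, z * logDeriv (bf (α i)) z = (((1 - ‖α i‖ ^ 2) / ‖z - α i‖ ^ 2 : ℝ) : ℂ) := by
    intro i
    have hd := den_ne (hα i) hz.le
    have h5 : logDeriv (bf (α i)) z = 1 / (z - α i) +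
        (starRingEnd ℂ) (α i) / (1 - (starRingEnd ℂ) (α i) * z) := by
      have h6 : logDeriv (fun w => (w - α i) / (1 - (starRingEnd ℂ) (α i) * w)) z =
          logDeriv (fun w => w - α i) z - logDeriv (fun w => 1 - (starRingEnd ℂ) (α i) * w) z :=
        logDeriv_div z (hza i) hd (by fun_prop) (by fun_prop)
      have h7 : deriv (fun w : ℂ => w - α i) z = 1 := by
        simp
      have h8 : deriv (fun w : ℂ => 1 - (starRingEnd ℂ) (α i) * w) z =
          -(starRingEnd ℂ) (α i) := by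
        have h9 : HasDerivAt (fun w : ℂ => 1 - (starRingEnd ℂ) (α i) * w)
            (0 - (starRingEnd ℂ) (α i) * 1) z :=
          (hasDerivAt_const z (1 : ℂ)).sub ((hasDerivAt_id z).const_mul _)
        rw [h9.deriv]; ring
      show logDeriv (fun w => (w - α i) / (1 - (starRingEnd ℂ) (α i) * w)) z = _
      rw [h6, logDeriv_apply, logDeriv_apply, h7, h8]
      ring
    have hzz : z * (starRingEnd ℂ) z = 1 := by
      rw [Complex.mul_conj, Complex.normSq_eq_norm_sq, hz]; norm_num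
    have haa : (α i) * (starRingEnd ℂ) (α i) = ((‖α i‖ ^ 2 : ℝ) : ℂ) := by
      rw [Complex.mul_conj, Complex.normSq_eq_norm_sq]
    have hbb : (z - α i) * (starRingEnd ℂ) (z - α i) = ((‖z - α i‖ ^ 2 : ℝ) : ℂ) := by
      rw [Complex.mul_conj, Complex.normSq_eq_norm_sq]
    have hcc : (starRingEnd ℂ) (z - α i) ≠ 0 := (_root_.map_ne_zero _).2 (hza i)
    have hd2 : 1 - (starRingEnd ℂ) (α i) * z = z * (starRingEnd ℂ) (z - α i) := by
      rw [map_sub]
      linear_combination -hzz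
    rw [h5, Complex.ofReal_div, ← hbb, Complex.ofReal_sub, ← haa, hd2, Complex.ofReal_one]
    have hza' := hza i
    field_simp
    rw [map_sub]
    linear_combination hzz
  intro h0
  have h5 : z * logDeriv (fm c α) z = 0 := by rw [logDeriv_apply, h0, zero_div, mul_zero]
  rw [h1, Finset.mul_sum, Finset.sum_congr rfl (fun i _ => h4 i), ← Complex.ofReal_sum,
    Complex.ofReal_eq_zero] at h5
  have h6 : 0 < ∑ i, (1 - ‖α i‖ ^ 2) / ‖z - α i‖ ^ 2 := by
    have : Nonempty (Fin n) := ⟨⟨0, hn⟩⟩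
    refine Finset.sum_pos (fun i _ => ?_) Finset.univ_nonempty
    have h7 : 0 < ‖z - α i‖ := norm_pos_iff.2 (hza i)
    have h8 := norm_nonneg (α i)
    have h9 := hα i
    apply div_pos (by nlinarith) (by positivity)
  exact h6.ne' h5

end BLA_

open BLA_

theorem p_BLA : T_BLA := by
  intro n A hn hA
  obtain ⟨c, α, hc, hα, ⟨i0, hi0⟩, hAf⟩ := hA
  have hAe : ∀ z ∈ closedBall (0 : ℂ) 1, A z = fm c α z := hAf
  set g : ℂ → ℂ := fun z => c * ∏ i ∈ Finset.univ.erase i0, bf (α i) z with hg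
  have hfg : ∀ z, fm c α z = z * g z := by
    intro z
    rw [hg, fm, ← Finset.mul_prod_erase Finset.univ (fun i => bf (α i) z) (Finset.mem_univ i0), hi0]
    simp only [bf, map_zero, zero_mul, sub_zero, div_one]
    ring
  have hAg : ∀ z ∈ closedBall (0 : ℂ) 1, A z = z * g z := fun z hz => by rw [hAe z hz, hfg]
  have hgc : ContinuousOn g (closedBall 0 1) := by
    intro z hz
    apply ContinuousAt.continuousWithinAt
    rw [mem_closedBall_zero_iff] at hz
    refine ContinuousAt.mul continuousAt_const ?_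
    exact tendsto_finsetProd _ fun i _ => (bf_diff (hα i) hz).continuousAt
  have hgd : ∀ z ∈ ball (0 : ℂ) 1, DifferentiableAt ℂ g z := by
    intro z hz
    rw [mem_ball_zero_iff] at hz
    refine DifferentiableAt.const_mul ?_ _
    exact DifferentiableAt.fun_finsetProd fun i _ => bf_diff (hα i) hz.le
  have hne : (Finset.univ.erase i0).Nonempty := by
    rw [← Finset.card_pos, Finset.card_erase_of_mem (Finset.mem_univ _), Finset.card_univ,
      Fintype.card_fin]
    omega
  have hg1 : ∀ z ∈ ball (0 : ℂ) 1, ‖g z‖ < 1 := by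
    intro z hz
    rw [mem_ball_zero_iff] at hz
    rw [hg]
    simp only
    rw [norm_mul, hc, one_mul, norm_prod]
    calc ∏ i ∈ Finset.univ.erase i0, ‖bf (α i) z‖
        < ∏ i ∈ Finset.univ.erase i0, (1 : ℝ) := by
          by_cases hz' : ∃ i ∈ Finset.univ.erase i0, ‖bf (α i) z‖ = 0
          · obtain ⟨i, hi, hi'⟩ := hz'
            rw [Finset.prod_eq_zero hi hi', Finset.prod_const_one]
            exact one_pos
          · push Not at hz'
            exact Finset.prod_lt_prod_of_nonempty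
              (fun i hi => lt_of_le_of_ne (norm_nonneg _) (Ne.symm (hz' i hi)))
              (fun i _ => bf_lt (hα i) hz) hne
      _ = 1 := Finset.prod_const_one
  have hA0 : A 0 = 0 := by rw [hAg 0 (by simp), zero_mul]
  have hUb : closedBall (0 : ℂ) 1 ⊆ Um α := Um_sub hα
  have hAcont : ContinuousOn A (closedBall 0 1) :=
    ((fm_diff c α).continuousOn.mono hUb).congr hAe
  have hlt : ∀ z ∈ ball (0 : ℂ) 1, z ≠ 0 → ‖A z‖ < ‖z‖ := by
    intro z hz hz0
    rw [hAg z (ball_subset_closedBall hz), norm_mul]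
    have h1 := hg1 z hz
    have h2 : 0 < ‖z‖ := norm_pos_iff.2 hz0
    nlinarith
  have hcirc : ∀ z ∈ closedBall (0 : ℂ) 1, ‖A z‖ = 1 ↔ ‖z‖ = 1 := by
    intro z hz
    constructor
    · intro h
      by_contra hn1
      have hz' : ‖z‖ < 1 := lt_of_le_of_ne (mem_closedBall_zero_iff.1 hz) hn1
      by_cases hz0 : z = 0
      · rw [hz0, hA0, norm_zero] at h
        exact zero_ne_one h
      · have := hlt z (mem_ball_zero_iff.2 hz') hz0
        linarith
    · intro h
      rw [hAe z hz, fm, norm_mul, hc, one_mul, norm_prod]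
      exact Finset.prod_eq_one fun i _ => bf_eq (hα i) h
  refine ⟨hA0, ?_, hAcont, hlt, hcirc, ?_, ?_, ?_, ?_⟩
  · exact ((fm_diff c α).mono (ball_subset_closedBall.trans hUb)).congr
      fun z hz => hAe z (ball_subset_closedBall hz)
  · intro z hz
    rw [mem_ball_zero_iff] at hz
    have hsub : closedBall (0 : ℂ) ‖z‖ ⊆ closedBall 0 1 := closedBall_subset_closedBall hz.le
    obtain ⟨x, hx, hmax⟩ := (isCompact_closedBall (0 : ℂ) ‖z‖).exists_isMaxOn
      ⟨0, by simp⟩ ((hgc.mono hsub).norm)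
    have hx1 : x ∈ ball (0 : ℂ) 1 := by
      rw [mem_closedBall_zero_iff] at hx
      rw [mem_ball_zero_iff]
      linarith
    set q := ‖g x‖ with hq
    have hq1 : q < 1 := hg1 x hx1
    have hq0 : 0 ≤ q := norm_nonneg _
    have key : ∀ m : ℕ, ‖A^[m] z‖ ≤ q ^ m * ‖z‖ := by
      intro m
      induction m with
      | zero => simp
      | succ m ih =>
        rw [Function.iterate_succ_apply']
        have h1 : ‖A^[m] z‖ ≤ ‖z‖ := ih.trans (by
          have := pow_le_one₀ hq0 hq1.le (n := m)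
          have := norm_nonneg z
          nlinarith)
        have h2 : A^[m] z ∈ closedBall (0 : ℂ) ‖z‖ := mem_closedBall_zero_iff.2 h1
        rw [hAg _ (hsub h2), norm_mul, pow_succ]
        have h3 : ‖g (A^[m] z)‖ ≤ q := hmax h2
        calc ‖A^[m] z‖ * ‖g (A^[m] z)‖ ≤ (q ^ m * ‖z‖) * q :=
              mul_le_mul ih h3 (norm_nonneg _) (by positivity)
          _ = q ^ m * q * ‖z‖ := by ring
    refine squeeze_zero_norm key ?_
    have := (tendsto_pow_atTop_nhds_zero_of_lt_one hq0 hq1).mul_const ‖z‖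
    rwa [zero_mul] at this
  · have h0 : (0 : ℂ) ∈ ball (0 : ℂ) 1 := by simp
    have h1 : A =ᶠ[𝓝 0] fun z => z * g z := by
      filter_upwards [isOpen_ball.mem_nhds h0] with z hz
      exact hAg z (ball_subset_closedBall hz)
    have h2 : HasDerivAt (fun z => z * g z) (1 * g 0 + 0 * deriv g 0) 0 :=
      (hasDerivAt_id (0 : ℂ)).mul (hgd 0 h0).hasDerivAt
    rw [h1.deriv_eq, h2.deriv, one_mul, zero_mul, add_zero]
    exact hg1 0 h0
  · intro r hr
    have hKc : IsCompact (closedBall (0 : ℂ) 1 ∩ {z | ‖A z‖ ≤ r}) := by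
      have h1 : IsClosed (closedBall (0 : ℂ) 1 ∩ {z | ‖A z‖ ≤ r}) :=
        hAcont.norm.preimage_isClosed_of_isClosed isClosed_closedBall isClosed_Iic
      exact (isCompact_closedBall (0 : ℂ) 1).of_isClosed_subset h1 inter_subset_left
    rcases (closedBall (0 : ℂ) 1 ∩ {z | ‖A z‖ ≤ r}).eq_empty_or_nonempty with he | hne'
    · refine ⟨0, one_pos, fun z hz hz' => ?_⟩
      exfalso
      have : z ∈ closedBall (0 : ℂ) 1 ∩ {z | ‖A z‖ ≤ r} := ⟨ball_subset_closedBall hz, hz'⟩
      rw [he] at this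
      exact this
    · obtain ⟨x, hx, hmax⟩ := hKc.exists_isMaxOn hne' continuous_norm.continuousOn
      refine ⟨‖x‖, ?_, fun z hz hz' => hmax ⟨ball_subset_closedBall hz, hz'⟩⟩
      refine lt_of_le_of_ne (mem_closedBall_zero_iff.1 hx.1) fun h => ?_
      have h1 := (hcirc x hx.1).2 h
      have h2 : ‖A x‖ ≤ r := hx.2
      linarith
  · have hdc : ContinuousOn (deriv (fm c α)) (closedBall 0 1) := by
      have h1 : DifferentiableOn ℂ (deriv (fm c α)) (Um α) := (fm_diff c α).deriv (Um_open α)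
      exact h1.continuousOn.mono hUb
    have hKc : IsCompact (closedBall (0 : ℂ) 1 ∩ {z | deriv (fm c α) z = 0}) := by
      have h1 : IsClosed (closedBall (0 : ℂ) 1 ∩ {z | deriv (fm c α) z = 0}) :=
        hdc.preimage_isClosed_of_isClosed isClosed_closedBall isClosed_singleton
      exact (isCompact_closedBall (0 : ℂ) 1).of_isClosed_subset h1 inter_subset_left
    have hder : ∀ z ∈ ball (0 : ℂ) 1, deriv A z = deriv (fm c α) z := by
      intro z hz
      apply Filter.EventuallyEq.deriv_eq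
      filter_upwards [isOpen_ball.mem_nhds hz] with w hw
      exact hAe w (ball_subset_closedBall hw)
    rcases (closedBall (0 : ℂ) 1 ∩ {z | deriv (fm c α) z = 0}).eq_empty_or_nonempty with he | hne'
    · refine ⟨1 / 2, by norm_num, by norm_num, fun z hz hz' => ?_⟩
      exfalso
      have : z ∈ closedBall (0 : ℂ) 1 ∩ {z | deriv (fm c α) z = 0} :=
        ⟨ball_subset_closedBall hz, (hder z hz).symm.trans hz'⟩
      rw [he] at this
      exact this
    · obtain ⟨x, hx, hmax⟩ := hKc.exists_isMaxOn hne' continuous_norm.continuousOn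
      refine ⟨max ‖x‖ (1 / 2), lt_max_of_lt_right (by norm_num), max_lt ?_ (by norm_num),
        fun z hz hz' => le_max_of_le_left (hmax ⟨ball_subset_closedBall hz,
          (hder z hz).symm.trans hz'⟩)⟩
      refine lt_of_le_of_ne (mem_closedBall_zero_iff.1 hx.1) fun h => ?_
      exact deriv_ne hc hα (by omega) h hx.2

end Pool.Agent.MAT
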