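import Pool.Agent.MAT.T

/-!
# MAT: ROOT (holomorphic branches of the roots of `N(z) = f(ζ) D(z)` over a convex set)

The curve `N(z) = w D(z)` is proper over the `w`-plane, and a local homeomorphism where the
`z`-derivative is not zero; so it is a covering of the set of good values, and the map `f` on the
convex set lifts.
-/

set_option autoImplicit false

open Polynomial Metric Set Filter Topology

noncomputable section

namespace Pool.Agent.MAT

namespace ROOT_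

/-- the curve `N(z) = w D(z)` -/
def EE (N D : ℂ[X]) : Set (ℂ × ℂ) := {x | N.eval x.2 = x.1 * D.eval x.2}

/-- the projection to the `w`-plane -/
def pp (N D : ℂ[X]) : EE N D → ℂ := fun x => x.1.1

/-- the map `(w, z) ↦ (w, N(z) - w D(z))` -/
def Psi (N D : ℂ[X]) (x : ℂ × ℂ) : ℂ × ℂ := (x.1, N.eval x.2 - x.1 * D.eval x.2)

/-- the good values -/
def GS (N D : ℂ[X]) : Set ℂ :=
  {w | ∀ z, N.eval z = w * D.eval z → (derivative N).eval z - w * (derivative D).eval z ≠ 0}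

theorem pp_cont (N D : ℂ[X]) : Continuous (pp N D) := continuous_fst.comp continuous_subtype_val

theorem EE_closed (N D : ℂ[X]) : IsClosed (EE N D) :=
  isClosed_eq (N.continuous.comp continuous_snd)
    (continuous_fst.mul (D.continuous.comp continuous_snd))

theorem root_bound {n : ℕ} {N D : ℂ[X]} (hN : N.Monic) (hn : N.natDegree = n)
    (hD : D.natDegree < n) (M : ℝ) :
    ∃ B : ℝ, ∀ w z : ℂ, ‖w‖ ≤ M → N.eval z = w * D.eval z → ‖z‖ ≤ B := by
  obtain ⟨m, rfl⟩ : ∃ m, n = m + 1 := ⟨n - 1, by omega⟩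
  set S : ℝ := ∑ i ∈ Finset.range (m + 1), (M * ‖D.coeff i‖ + ‖N.coeff i‖) with hS
  refine ⟨max 1 S, fun w z hw h => ?_⟩
  rcases le_or_gt ‖z‖ 1 with h1 | h1
  · exact h1.trans (le_max_left _ _)
  refine le_trans ?_ (le_max_right _ _)
  have hNe : N.eval z = z ^ (m + 1) + ∑ i ∈ Finset.range (m + 1), N.coeff i * z ^ i := by
    conv_lhs => rw [hN.as_sum, hn]
    rw [eval_add, eval_pow, eval_X, eval_finsetSum]
    simp only [eval_mul, eval_C, eval_pow, eval_X]
  have hDe : D.eval z = ∑ i ∈ Finset.range (m + 1), D.coeff i * z ^ i :=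
    eval_eq_sum_range' hD z
  have h2 : z ^ (m + 1) = ∑ i ∈ Finset.range (m + 1), (w * D.coeff i - N.coeff i) * z ^ i := by
    have h3 : z ^ (m + 1) = w * D.eval z - ∑ i ∈ Finset.range (m + 1), N.coeff i * z ^ i := by
      rw [← h, hNe]
      ring
    rw [h3, hDe, Finset.mul_sum, ← Finset.sum_sub_distrib]
    refine Finset.sum_congr rfl fun i _ => ?_
    ring
  have h4 : ‖z‖ ^ (m + 1) ≤ S * ‖z‖ ^ m := by
    rw [← norm_pow, h2, hS, Finset.sum_mul]
    refine norm_sum_le_of_le _ fun i hi => ?_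
    rw [norm_mul, norm_pow]
    have h5 : ‖z‖ ^ i ≤ ‖z‖ ^ m :=
      pow_le_pow_right₀ h1.le (by have := Finset.mem_range.mp hi; omega)
    have h6 : ‖w * D.coeff i - N.coeff i‖ ≤ M * ‖D.coeff i‖ + ‖N.coeff i‖ := by
      refine (norm_sub_le _ _).trans ?_
      rw [norm_mul]
      exact add_le_add (mul_le_mul_of_nonneg_right hw (norm_nonneg _)) le_rfl
    exact mul_le_mul h6 h5 (by positivity) ((norm_nonneg _).trans h6)
  have h7 : 0 < ‖z‖ ^ m := by positivity
  rw [pow_succ, mul_comm] at h4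
  exact le_of_mul_le_mul_right h4 h7

theorem pp_closed {n : ℕ} {N D : ℂ[X]} (hN : N.Monic) (hn : N.natDegree = n)
    (hD : D.natDegree < n) : IsClosedMap (pp N D) := by
  have : IsProperMap (pp N D) := by
    rw [isProperMap_iff_isCompact_preimage]
    refine ⟨pp_cont N D, fun K hK => ?_⟩
    rw [Subtype.isCompact_iff]
    obtain ⟨M, hM⟩ := hK.isBounded.exists_norm_le
    obtain ⟨B, hB⟩ := root_bound hN hn hD M
    have h1 : (Subtype.val '' (pp N D ⁻¹' K) : Set (ℂ × ℂ)) = EE N D ∩ (Prod.fst ⁻¹' K) := by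
      ext x
      constructor
      · rintro ⟨y, hy, rfl⟩
        exact ⟨y.2, hy⟩
      · rintro ⟨hx1, hx2⟩
        exact ⟨⟨x, hx1⟩, hx2, rfl⟩
    rw [h1]
    refine (hK.prod (isCompact_closedBall (0 : ℂ) B)).of_isClosed_subset
      ((EE_closed N D).inter (hK.isClosed.preimage continuous_fst)) ?_
    rintro x ⟨hx1, hx2⟩
    refine ⟨hx2, ?_⟩
    rw [mem_closedBall_zero_iff]
    exact hB x.1 x.2 (hM _ hx2) hx1
  exact this.isClosedMap

theorem pp_fin {n : ℕ} {N D : ℂ[X]} (_hN : N.Monic) (hn : N.natDegree = n)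
    (hD : D.natDegree < n) (w : ℂ) : (pp N D ⁻¹' {w}).Finite := by
  have hP : N - C w * D ≠ 0 := by
    intro h
    have h1 : N = C w * D := sub_eq_zero.mp h
    have h2 : N.natDegree ≤ D.natDegree := by
      rw [h1]
      exact natDegree_C_mul_le _ _
    omega
  refine Set.Finite.of_finite_image (f := fun x => x.1.2)
    ((N - C w * D).rootSet_finite ℂ |>.subset ?_) ?_
  · rintro z ⟨x, hx, rfl⟩
    have hx' : x.1.1 = w := hx
    rw [mem_rootSet]
    refine ⟨hP, ?_⟩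
    have h3 : N.eval x.1.2 = x.1.1 * D.eval x.1.2 := x.2
    simp only [map_sub, map_mul, aeval_C, coe_aeval_eq_eval]
    simp [h3, hx']
  · intro x hx y hy hxy
    have hx' : x.1.1 = w := hx
    have hy' : y.1.1 = w := hy
    exact Subtype.ext (Prod.ext (hx'.trans hy'.symm) hxy)

theorem Psi_strict (N D : ℂ[X]) (x : ℂ × ℂ)
    (hx : (derivative N).eval x.2 - x.1 * (derivative D).eval x.2 ≠ 0) :
    ∃ L : (ℂ × ℂ) ≃L[ℂ] (ℂ × ℂ), HasStrictFDerivAt (Psi N D) (L : (ℂ × ℂ) →L[ℂ] (ℂ × ℂ)) x := by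
  set α : ℂ := (derivative N).eval x.2 - x.1 * (derivative D).eval x.2 with hα
  set F : (ℂ × ℂ) →L[ℂ] (ℂ × ℂ) := (ContinuousLinearMap.fst ℂ ℂ ℂ).prod
    (α • ContinuousLinearMap.snd ℂ ℂ ℂ - D.eval x.2 • ContinuousLinearMap.fst ℂ ℂ ℂ) with hF
  set G : (ℂ × ℂ) →L[ℂ] (ℂ × ℂ) := (ContinuousLinearMap.fst ℂ ℂ ℂ).prod
    (α⁻¹ • (ContinuousLinearMap.snd ℂ ℂ ℂ + D.eval x.2 • ContinuousLinearMap.fst ℂ ℂ ℂ)) with hG
  have hGF : ∀ y, G (F y) = y := by
    intro y
    refine Prod.ext ?_ ?_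
    · simp [hF, hG]
    · simp only [hF, hG, ContinuousLinearMap.prod_apply, ContinuousLinearMap.coe_fst',
        smul_apply, add_apply,
        ContinuousLinearMap.coe_snd', sub_apply, smul_eq_mul]
      field_simp
      ring
  have hFG : ∀ y, F (G y) = y := by
    intro y
    refine Prod.ext ?_ ?_
    · simp [hF, hG]
    · simp only [hF, hG, ContinuousLinearMap.prod_apply, ContinuousLinearMap.coe_fst',
        smul_apply, add_apply,
        ContinuousLinearMap.coe_snd', sub_apply, smul_eq_mul]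
      field_simp
      ring
  refine ⟨ContinuousLinearEquiv.equivOfInverse F G hGF hFG, ?_⟩
  have h1 : HasStrictFDerivAt (fun y : ℂ × ℂ => y.1) (ContinuousLinearMap.fst ℂ ℂ ℂ) x :=
    hasStrictFDerivAt_fst
  have h2 : HasStrictFDerivAt (fun y : ℂ × ℂ => y.2) (ContinuousLinearMap.snd ℂ ℂ ℂ) x :=
    hasStrictFDerivAt_snd
  have h3 : HasStrictFDerivAt (fun y : ℂ × ℂ => N.eval y.2)
      ((derivative N).eval x.2 • ContinuousLinearMap.snd ℂ ℂ ℂ) x :=
    (N.hasStrictDerivAt x.2).comp_hasStrictFDerivAt x h2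
  have h4 : HasStrictFDerivAt (fun y : ℂ × ℂ => D.eval y.2)
      ((derivative D).eval x.2 • ContinuousLinearMap.snd ℂ ℂ ℂ) x :=
    (D.hasStrictDerivAt x.2).comp_hasStrictFDerivAt x h2
  have h5 := h1.prodMk (h3.sub (h1.mul h4))
  refine h5.congr_fderiv ?_
  refine ContinuousLinearMap.ext fun y => ?_
  refine Prod.ext ?_ ?_
  · simp [hF]
  · simp [hF, hα]
    ring

theorem pp_local {N D : ℂ[X]} (x : EE N D)
    (hx : (derivative N).eval x.1.2 - x.1.1 * (derivative D).eval x.1.2 ≠ 0) :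
    ∃ U ∈ 𝓝 x, IsOpenEmbedding (U.domRestrict (pp N D)) := by
  obtain ⟨L, hL⟩ := Psi_strict N D x.1 hx
  set e := hL.toOpenPartialHomeomorph (Psi N D) with he
  have hes : x.1 ∈ e.source := hL.mem_toOpenPartialHomeomorph_source
  have hec : ∀ y, e y = Psi N D y := fun y => by
    rw [he, hL.toOpenPartialHomeomorph_coe]
  have hE : ∀ y : EE N D, e y.1 = (y.1.1, 0) := fun y => by
    rw [hec]
    refine Prod.ext rfl ?_
    show N.eval y.1.2 - y.1.1 * D.eval y.1.2 = 0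
    exact sub_eq_zero.mpr y.2
  set U : Set (EE N D) := {y | y.1 ∈ e.source} with hU
  have hUo : IsOpen U := e.open_source.preimage continuous_subtype_val
  refine ⟨U, hUo.mem_nhds hes, ?_⟩
  refine IsOpenEmbedding.of_continuous_injective_isOpenMap
    ((pp_cont N D).comp continuous_subtype_val) ?_ ?_
  · intro y z hyz
    have h1 : y.1.1.1 = z.1.1.1 := hyz
    have h2 : e y.1.1 = e z.1.1 := by rw [hE, hE, h1]
    exact Subtype.ext (Subtype.ext (e.injOn y.2 z.2 h2))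
  · intro O hO
    obtain ⟨O1, hO1, rfl⟩ := isOpen_induced_iff.mp hO
    obtain ⟨O2, hO2, rfl⟩ := isOpen_induced_iff.mp hO1
    have h1 : IsOpen (e '' (e.source ∩ O2)) :=
      e.isOpen_image_of_subset_source (e.open_source.inter hO2) inter_subset_left
    have h2 : Continuous (fun w : ℂ => ((w, 0) : ℂ × ℂ)) := by fun_prop
    convert h1.preimage h2 using 1
    ext w
    constructor
    · rintro ⟨y, hy, rfl⟩
      exact ⟨y.1.1, ⟨y.2, hy⟩, hE y.1⟩
    · rintro ⟨y, ⟨hy1, hy2⟩, hy3⟩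
      rw [hec] at hy3
      have h3 : y.1 = w := congrArg Prod.fst hy3
      have h4 : N.eval y.2 - y.1 * D.eval y.2 = 0 := congrArg Prod.snd hy3
      exact ⟨⟨⟨y, sub_eq_zero.mp h4⟩, hy1⟩, hy2, h3⟩

theorem cover {n : ℕ} {N D : ℂ[X]} (hN : N.Monic) (hn : N.natDegree = n)
    (hD : D.natDegree < n) : IsCoveringMapOn (pp N D) (GS N D) := by
  refine IsClosedMap.isCoveringMapOn_of_isLocalHomeomorphOn (pp_closed hN hn hD)
    (fun w _ => pp_fin hN hn hD w) ?_
  rw [isLocalHomeomorphOn_iff_isOpenEmbedding_restrict]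
  intro x hx
  exact pp_local x (hx x.1.2 x.2)

end ROOT_

open ROOT_

theorem p_ROOT : T_ROOT := by
  intro n N D V f c z₀ h1n hN hn hD hV hVc hc hf hz hs
  have cov := cover hN hn hD
  have hcontr : ContractibleSpace V := hVc.contractibleSpace ⟨c, hc⟩
  have hlpc : LocallyPathConnectedSpace V := hV.locallyPathConnectedSpace
  let fV : C(V, ℂ) := ⟨fun ζ => f ζ.1, continuousOn_iff_continuous_domRestrict.mp hf.continuousOn⟩
  obtain ⟨Fl, ⟨hF0, hF⟩, -⟩ := cov.existsUnique_continuousMap_lifts fV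
    (a₀ := ⟨c, hc⟩) (e₀ := ⟨(f c, z₀), hz⟩) rfl (fun a => hs a.1 a.2)
  classical
  set h : ℂ → ℂ := fun ζ => if hζ : ζ ∈ V then (Fl ⟨ζ, hζ⟩).1.2 else 0 with hh
  have hv : ∀ (ζ : ℂ) (hζ : ζ ∈ V), h ζ = (Fl ⟨ζ, hζ⟩).1.2 := fun ζ hζ => by
    simp only [hh, dif_pos hζ]
  have hv1 : ∀ (ζ : ℂ) (hζ : ζ ∈ V), f ζ = (Fl ⟨ζ, hζ⟩).1.1 := fun ζ hζ =>
    (congrFun hF ⟨ζ, hζ⟩).symm
  have hcont : ContinuousOn h V := by
    rw [continuousOn_iff_continuous_domRestrict]
    have : V.domRestrict h = fun ζ : V => (Fl ζ).1.2 := by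
      funext ζ
      exact hv ζ.1 ζ.2
    rw [this]
    exact continuous_snd.comp (continuous_subtype_val.comp Fl.continuous)
  have heq : ∀ ζ ∈ V, N.eval (h ζ) = f ζ * D.eval (h ζ) := by
    intro ζ hζ
    rw [hv ζ hζ, hv1 ζ hζ]
    exact (Fl ⟨ζ, hζ⟩).2
  refine ⟨h, ?_, ?_, heq⟩
  · intro ζ hζ
    refine DifferentiableAt.differentiableWithinAt ?_
    have hVn : V ∈ 𝓝 ζ := hV.mem_nhds hζ
    have hfd : DifferentiableAt ℂ f ζ := hf.differentiableAt hVn
    have hha : ContinuousAt h ζ := hcont.continuousAt hVn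
    obtain ⟨L, hL⟩ := Psi_strict N D (f ζ, h ζ) (hs ζ hζ (h ζ) (heq ζ hζ))
    have hPsi : Psi N D (f ζ, h ζ) = (f ζ, 0) :=
      Prod.ext rfl (sub_eq_zero.mpr (heq ζ hζ))
    have hinv : DifferentiableAt ℂ (hL.localInverse (Psi N D) L (f ζ, h ζ)) (f ζ, 0) := by
      have := hL.to_localInverse.hasFDerivAt.differentiableAt
      rwa [hPsi] at this
    have hpair : DifferentiableAt ℂ (fun ξ : ℂ => ((f ξ, 0) : ℂ × ℂ)) ζ :=
      hfd.prodMk (differentiableAt_const _)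
    have hcomp : DifferentiableAt ℂ
        (fun ξ => (hL.localInverse (Psi N D) L (f ζ, h ζ) (f ξ, 0)).2) ζ :=
      (hinv.comp ζ hpair).snd
    refine hcomp.congr_of_eventuallyEq ?_
    have hcx : ContinuousAt (fun ξ => ((f ξ, h ξ) : ℂ × ℂ)) ζ := hfd.continuousAt.prodMk hha
    filter_upwards [hVn, hcx.eventually hL.eventually_left_inverse] with ξ hξ hξ2
    have hPξ : Psi N D (f ξ, h ξ) = (f ξ, 0) :=
      Prod.ext rfl (sub_eq_zero.mpr (heq ξ hξ))
    rw [hPξ] at hξ2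
    rw [hξ2]
  · rw [hv c hc, hF0]

end Pool.Agent.MAT
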