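import Pool.Agent.MAT.T

/-!
# MAT: the target XND
-/

set_option autoImplicit false

open Polynomial Metric Set Filter Topology

noncomputable section

namespace Pool.Agent.MAT

theorem XND_.degree_denP (n : ℕ) (v : Fin n → ℂ) : (denP n v).degree < n := by
  unfold denP
  refine (Polynomial.degree_sum_fin_lt v)

theorem XND_.numP_eq (n : ℕ) (u : Fin n → ℂ) : numP n u = X ^ n + denP n u := rfl

theorem XND_.monic_numP (n : ℕ) (u : Fin n → ℂ) : (numP n u).Monic := by
  rw [XND_.numP_eq]
  exact monic_X_pow_add (XND_.degree_denP n u)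

theorem XND_.natDegree_numP (n : ℕ) (u : Fin n → ℂ) : (numP n u).natDegree = n := by
  rw [XND_.numP_eq]
  have h : (denP n u).degree < ((X : ℂ[X]) ^ n).degree := by
    rw [degree_X_pow]
    exact XND_.degree_denP n u
  rw [natDegree_add_eq_left_of_degree_lt h, natDegree_X_pow]

theorem XND_.natDegree_denP (n : ℕ) (hn : 1 ≤ n) (v : Fin n → ℂ) : (denP n v).natDegree < n := by
  by_cases h : denP n v = 0
  · rw [h, natDegree_zero]
    exact hn
  · exact (natDegree_lt_iff_degree_lt h).2 (XND_.degree_denP n v)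

theorem p_XND : T_XND := by
  intro n x hn
  exact ⟨⟨XND_.monic_numP n _, XND_.natDegree_numP n _, XND_.natDegree_denP n hn _, x.2.2⟩,
    x.2.1⟩

end Pool.Agent.MAT
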