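import Pool.Agent.MAT.T
import Pool.Agent.PLim.PHIp

/-!
# MAT: the inverse of an injective holomorphic function (INVH)
-/

set_option autoImplicit false

open Polynomial Metric Set Filter Topology

noncomputable section

namespace Pool.Agent.MAT

theorem p_INVH : T_INVH := by
  intro V f hV hf hinj
  have hne : ∀ z ∈ V, deriv f z ≠ 0 := fun z hz =>
    Pool.Agent.PLim.PHIp_.deriv_ne_zero_of_injOn ((hf.analyticOnNhd hV) z hz)
      (hV.mem_nhds hz) hinj
  have hs : ∀ z ∈ V, HasStrictDerivAt f (deriv f z) z := fun z hz =>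
    ((hf.analyticOnNhd hV) z hz).hasStrictDerivAt
  have hmap : ∀ z ∈ V, ∀ W ∈ 𝓝 z, f '' W ∈ 𝓝 (f z) := by
    intro z hz W hW
    rw [← (hs z hz).map_nhds_eq (hne z hz)]
    exact image_mem_map hW
  have hopen : IsOpen (f '' V) := by
    rw [isOpen_iff_mem_nhds]
    rintro _ ⟨z, hz, rfl⟩
    exact hmap z hz V (hV.mem_nhds hz)
  have hl : ∀ w ∈ V, Function.invFunOn f V (f w) = w := fun w hw => hinj.leftInvOn_invFunOn hw
  refine ⟨hopen, Function.invFunOn f V, ?_, hl, hne⟩
  rintro _ ⟨z, hz, rfl⟩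
  have hcont : ContinuousAt (Function.invFunOn f V) (f z) := by
    intro W hW
    rw [hl z hz] at hW
    rw [mem_map]
    refine mem_of_superset (hmap z hz (W ∩ V) (inter_mem hW (hV.mem_nhds hz))) ?_
    rintro _ ⟨w, ⟨hwW, hwV⟩, rfl⟩
    rw [mem_preimage, hl w hwV]
    exact hwW
  have hd : HasDerivAt (Function.invFunOn f V) (deriv f z)⁻¹ (f z) := by
    refine HasDerivAt.of_local_left_inverse (f := f) hcont ?_ (hne z hz) ?_
    · rw [hl z hz]
      exact (hs z hz).hasDerivAt
    · filter_upwards [hopen.mem_nhds (mem_image_of_mem f hz)] with y hy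
      obtain ⟨w, hw, rfl⟩ := hy
      rw [hl w hw]
  exact hd.differentiableAt.differentiableWithinAt

end Pool.Agent.MAT
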