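import Pool.Agent.MAT.T

/-!
# MAT: limits of injective maps (HINJ)
-/

set_option autoImplicit false

open Polynomial Metric Set Filter Topology

noncomputable section

namespace Pool.Agent.MAT

namespace HINJ_

lemma sub_const {l : Filter ℕ} {f : ℕ → ℂ → ℂ} {g : ℂ → ℂ} {s : Set ℂ} {a : ℂ}
    (h : TendstoLocallyUniformlyOn f g l s) (ha : Tendsto (fun k => f k a) l (𝓝 (g a))) :
    TendstoLocallyUniformlyOn (fun k z => f k z - f k a) (fun z => g z - g a) l s := by
  rw [Metric.tendstoLocallyUniformlyOn_iff] at h ⊢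
  intro ε hε x hx
  obtain ⟨t, ht, h1⟩ := h (ε / 2) (by positivity) x hx
  refine ⟨t, ht, ?_⟩
  filter_upwards [h1, (Metric.tendsto_nhds.1 ha) (ε / 2) (by positivity)] with k h2 h3 y hy
  have h4 := h2 y hy
  rw [dist_eq_norm] at h3 h4 ⊢
  have h5 : g y - g a - (f k y - f k a) = (g y - f k y) + (f k a - g a) := by ring
  rw [h5]
  refine lt_of_le_of_lt (norm_add_le _ _) ?_
  linarith

end HINJ_

open HINJ_

theorem p_HINJ (hHUR : T_HUR) : T_HINJ := by
  intro l f g U hl hU hpre hg hlim hinj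
  by_contra hcon
  push Not at hcon
  obtain ⟨hni, a₀, ha₀, b₀, hb₀, hne⟩ := hcon
  have hex : ∃ a ∈ U, ∃ b ∈ U, g a = g b ∧ a ≠ b := by
    by_contra h
    push Not at h
    exact hni fun x hx y hy hxy => h x hx y hy hxy
  obtain ⟨a, ha, b, hb, hab, hab'⟩ := hex
  have han : AnalyticOnNhd ℂ g U := hg.analyticOnNhd hU
  have hnc : ¬ ∀ᶠ z in 𝓝 b, g z - g a = 0 := by
    intro h
    have h1 : g =ᶠ[𝓝 b] fun _ => g a := by
      filter_upwards [h] with z hz
      exact sub_eq_zero.1 hz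
    have h2 := han.eqOn_of_preconnected_of_eventuallyEq analyticOnNhd_const hpre hb h1
    exact hne ((h2 ha₀).trans (h2 hb₀).symm)
  obtain ⟨r, hr, hk⟩ := hinj a ha b hb
  obtain ⟨ρ, hρ, hρU⟩ := Metric.isOpen_iff.1 hU b hb
  obtain ⟨s, hs⟩ : ∃ s, s = min r (min (dist a b) ρ) := ⟨_, rfl⟩
  have hs0 : 0 < s := by
    rw [hs]
    exact lt_min hr (lt_min (dist_pos.2 hab') hρ)
  have hsr : s ≤ r := by rw [hs]; exact min_le_left _ _
  have hsd : s ≤ dist a b := by rw [hs]; exact (min_le_right _ _).trans (min_le_left _ _)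
  have hsρ : s ≤ ρ := by rw [hs]; exact (min_le_right _ _).trans (min_le_right _ _)
  have hsU : ball b s ⊆ U := (ball_subset_ball hsρ).trans hρU
  have hta : Tendsto (fun k => f k a) l (𝓝 (g a)) := hlim.tendsto_at ha
  have h1 := hHUR l (fun k z => f k z - f k a) (fun z => g z - g a) b s hs0
    ((hg.mono hsU).sub_const _)
    (by filter_upwards [hk] with k h
        exact (h.1.mono (ball_subset_ball hsr)).sub_const _)
    (sub_const (hlim.mono hsU) hta) (by simp [hab]) hnc s hs0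
  obtain ⟨k, ⟨z, hz, hz0⟩, h2⟩ := (h1.and hk).exists
  have h3 : z = a := h2.2 (mem_insert_of_mem _ (ball_subset_ball hsr hz)) (mem_insert _ _)
    (sub_eq_zero.1 hz0)
  rw [h3, mem_ball] at hz
  linarith

end Pool.Agent.MAT
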