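import Pool.Agent.MAT.T

/-!
# MAT-HUR: Hurwitz' theorem
-/

set_option autoImplicit false

open Polynomial Metric Set Filter Topology

noncomputable section

namespace Pool.Agent.MAT

namespace HUR_

theorem core {l : Filter ℕ} {f : ℕ → ℂ → ℂ} {g : ℂ → ℂ} {x : ℂ} {r : ℝ}
    (hg : DifferentiableOn ℂ g (ball x r)) (hf : ∀ᶠ k in l, DifferentiableOn ℂ (f k) (ball x r))
    (hlim : TendstoLocallyUniformlyOn f g l (ball x r)) (hgx : g x = 0)
    {s : ℝ} (hs : 0 < s) (hsr : s < r) (hne : ∀ z ∈ sphere x s, g z ≠ 0) :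
    ∀ᶠ k in l, ∃ z ∈ closedBall x s, f k z = 0 := by
  have hsub : closedBall x s ⊆ ball x r := closedBall_subset_ball hsr
  have hsph : sphere x s ⊆ ball x r := sphere_subset_closedBall.trans hsub
  -- minimum of `‖g‖` on the sphere
  have hcont : ContinuousOn (fun z => ‖g z‖) (sphere x s) := (hg.continuousOn.mono hsph).norm
  have hnon : (sphere x s).Nonempty := NormedSpace.sphere_nonempty.2 hs.le
  obtain ⟨z₀, hz₀, hmin⟩ := (isCompact_sphere x s).exists_isMinOn hnon hcont
  set m : ℝ := ‖g z₀‖ with hm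
  have hmpos : 0 < m := norm_pos_iff.2 (hne z₀ hz₀)
  have hunif : TendstoUniformlyOn f g l (closedBall x s) :=
    (tendstoLocallyUniformlyOn_iff_forall_isCompact isOpen_ball).1 hlim _ hsub
      (isCompact_closedBall x s)
  have hev := Metric.tendstoUniformlyOn_iff.1 hunif (m / 8) (by positivity)
  filter_upwards [hf, hev] with k hfk hk
  have hkx : ‖f k x‖ < m / 8 := by
    have := hk x (mem_closedBall_self hs.le)
    rwa [hgx, dist_zero_left] at this
  have hks : ∀ z ∈ sphere x s, 3 * m / 4 ≤ ‖f k z - f k x‖ := by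
    intro z hz
    have h1 := hk z (sphere_subset_closedBall hz)
    rw [dist_eq_norm] at h1
    have h2 : m ≤ ‖g z‖ := hmin hz
    have h3 : ‖g z‖ ≤ ‖g z - f k z‖ + ‖f k z - f k x‖ + ‖f k x‖ := by
      calc ‖g z‖ = ‖(g z - f k z) + (f k z - f k x) + f k x‖ := by congr 1; ring
        _ ≤ ‖(g z - f k z) + (f k z - f k x)‖ + ‖f k x‖ := norm_add_le _ _
        _ ≤ ‖g z - f k z‖ + ‖f k z - f k x‖ + ‖f k x‖ := by
            gcongr; exact norm_add_le _ _
    linarith
  have hdc : DiffContOnCl ℂ (f k) (ball x s) := by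
    refine ⟨hfk.mono (ball_subset_ball hsr.le), ?_⟩
    rw [closure_ball x hs.ne']
    exact hfk.continuousOn.mono hsub
  have hfr : ∃ᶠ z in 𝓝 x, f k z ≠ f k x := by
    intro hcon
    have hcon' : ∀ᶠ z in 𝓝 x, f k z = f k x := by
      filter_upwards [hcon] with z hz using not_not.1 hz
    have han : AnalyticOnNhd ℂ (f k) (ball x r) := hfk.analyticOnNhd isOpen_ball
    have hx : x ∈ ball x r := mem_ball_self (hs.trans hsr)
    have heq : EqOn (f k) (fun _ => f k x) (ball x r) :=
      han.eqOn_of_preconnected_of_eventuallyEq analyticOnNhd_const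
        (convex_ball x r).isPreconnected hx hcon'
    have := hks z₀ hz₀
    rw [heq (hsph hz₀), sub_self, norm_zero] at this
    linarith
  have himg := hdc.ball_subset_image_closedBall hs hks hfr
  have h0 : (0 : ℂ) ∈ ball (f k x) (3 * m / 4 / 2) := by
    rw [mem_ball, dist_zero_left]
    linarith
  obtain ⟨z, hz, hz0⟩ := himg h0
  exact ⟨z, hz, hz0⟩

end HUR_

theorem p_HUR : T_HUR := by
  intro l f g x r hr hg hf hlim hgx hnz ε hε
  have hx : x ∈ ball x r := mem_ball_self hr
  have han : AnalyticAt ℂ g x := hg.analyticAt (isOpen_ball.mem_nhds hx)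
  rcases han.eventually_eq_zero_or_eventually_ne_zero with h | h
  · exact absurd h hnz
  obtain ⟨δ, hδ, hδ'⟩ := Metric.mem_nhdsWithin_iff.1 h
  have hs : 0 < min (min δ r) ε / 2 := by positivity
  have h1 : min (min δ r) ε / 2 < δ := by
    have := min_le_left (min δ r) ε
    have := min_le_left δ r
    linarith
  have h2 : min (min δ r) ε / 2 < r := by
    have := min_le_left (min δ r) ε
    have := min_le_right δ r
    linarith
  have h3 : min (min δ r) ε / 2 < ε := by
    have := min_le_right (min δ r) ε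
    linarith
  have hne : ∀ z ∈ sphere x (min (min δ r) ε / 2), g z ≠ 0 := by
    intro z hz
    refine hδ' ⟨?_, ?_⟩
    · rw [mem_ball, mem_sphere.1 hz]; exact h1
    · intro hzx
      rw [mem_singleton_iff.1 hzx, mem_sphere, dist_self] at hz
      linarith
  filter_upwards [HUR_.core hg hf hlim hgx hs h2 hne] with k ⟨z, hz, hz0⟩
  exact ⟨z, closedBall_subset_ball h3 hz, hz0⟩

end Pool.Agent.MAT
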