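import Pool.Agent.MAT.T

/-!
# MAT: UL (Montel, along an ultrafilter), by helper76
-/

set_option autoImplicit false

open Polynomial Metric Set Filter Topology

noncomputable section

namespace Pool.Agent.MAT

namespace UL_

/-- Local Lipschitz estimate for bounded holomorphic functions. -/
lemma lip {F : ℂ → ℂ} {x : ℂ} {r C : ℝ} (hr : 0 < r) (hd : DifferentiableOn ℂ F (ball x r))
    (hC : ∀ y ∈ ball x r, ‖F y‖ ≤ C) {y : ℂ} (hy : y ∈ ball x (r / 2)) :
    ‖F y - F x‖ ≤ C / (r / 2) * ‖y - x‖ := by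
  have hρ : 0 < r / 2 := by positivity
  have hsub : ∀ w ∈ ball x (r / 2), closedBall w (r / 2) ⊆ ball x r := by
    intro w hw z hz
    rw [mem_ball] at hw ⊢
    rw [mem_closedBall] at hz
    have := dist_triangle z w x
    linarith
  apply Convex.norm_image_sub_le_of_norm_deriv_le (𝕜 := ℂ) (s := ball x (r / 2))
  · intro w hw
    exact hd.differentiableAt (isOpen_ball.mem_nhds (hsub w hw (mem_closedBall_self hρ.le)))
  · intro w hw
    apply Complex.norm_deriv_le_of_forall_mem_sphere_norm_le hρ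
    · apply DifferentiableOn.diffContOnCl
      rw [closure_ball _ hρ.ne']
      exact hd.mono (hsub w hw)
    · intro z hz
      exact hC z (hsub w hw (sphere_subset_closedBall hz))
  · exact convex_ball _ _
  · exact mem_ball_self hρ
  · exact hy

end UL_

open UL_ in
theorem p_UL : T_UL := by
  intro u U f _ h
  have hex : ∀ y : ℂ, ∃ w : ℂ, y ∈ U → Tendsto (fun k => f k y) (u : Filter ℕ) (𝓝 w) := by
    intro y
    by_cases hy : y ∈ U
    · obtain ⟨r, C, hr, _, hev⟩ := h y hy
      have h1 : ((u.map fun k => f k y : Ultrafilter ℂ) : Filter ℂ) ≤ 𝓟 (closedBall (0 : ℂ) C) := by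
        rw [Ultrafilter.coe_map, le_principal_iff, mem_map]
        filter_upwards [hev] with k hk
        exact mem_closedBall_zero_iff.2 (hk.2 y (mem_ball_self hr))
      obtain ⟨w, -, hw2⟩ := (isCompact_closedBall (0 : ℂ) C).ultrafilter_le_nhds _ h1
      rw [Ultrafilter.coe_map] at hw2
      exact ⟨w, fun _ => hw2⟩
    · exact ⟨0, fun h' => absurd h' hy⟩
  choose g hg using hex
  have hloc : TendstoLocallyUniformlyOn f g (u : Filter ℕ) U := by
    rw [Metric.tendstoLocallyUniformlyOn_iff]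
    intro ε hε x hx
    obtain ⟨r, C, hr, hsub, hev⟩ := h x hx
    have hC0 : 0 ≤ C := by
      obtain ⟨k, hk⟩ := hev.exists
      exact (norm_nonneg _).trans (hk.2 x (mem_ball_self hr))
    obtain ⟨L, hL⟩ : ∃ L : ℝ, L = C / (r / 2) := ⟨_, rfl⟩
    have hL0 : 0 ≤ L := by rw [hL]; positivity
    obtain ⟨δ, hδ⟩ : ∃ δ : ℝ, δ = min (r / 2) (ε / (4 * (L + 1))) := ⟨_, rfl⟩
    have hδpos : 0 < δ := by
      rw [hδ]; apply lt_min <;> positivity
    have hlip : ∀ᶠ k in (u : Filter ℕ), ∀ y ∈ ball x δ, ‖f k y - f k x‖ ≤ ε / 4 := by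
      filter_upwards [hev] with k hk y hy
      have hy1 : y ∈ ball x (r / 2) := ball_subset_ball (by rw [hδ]; exact min_le_left _ _) hy
      have h1 := lip hr hk.1 hk.2 hy1
      rw [← hL] at h1
      rw [mem_ball, dist_eq_norm] at hy
      have h2 : ‖y - x‖ ≤ ε / (4 * (L + 1)) := hy.le.trans (by rw [hδ]; exact min_le_right _ _)
      calc ‖f k y - f k x‖ ≤ L * ‖y - x‖ := h1
        _ ≤ L * (ε / (4 * (L + 1))) := mul_le_mul_of_nonneg_left h2 hL0
        _ ≤ ε / 4 := by
            rw [mul_div_assoc', div_le_div_iff₀ (by positivity) (by positivity)]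
            nlinarith
    have hsubU : ball x δ ⊆ U := (ball_subset_ball (by
      have : δ ≤ r / 2 := by rw [hδ]; exact min_le_left _ _
      linarith)).trans hsub
    have hlipG : ∀ y ∈ ball x δ, ‖g y - g x‖ ≤ ε / 4 := by
      intro y hy
      refine le_of_tendsto ((hg y (hsubU hy)).sub (hg x hx)).norm ?_
      filter_upwards [hlip] with k hk
      exact hk y hy
    refine ⟨ball x δ, mem_nhdsWithin_of_mem_nhds (ball_mem_nhds x hδpos), ?_⟩
    have h3 := (Metric.tendsto_nhds.mp (hg x hx)) (ε / 4) (by positivity)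
    filter_upwards [h3, hlip] with n hn hlipn y hy
    rw [dist_eq_norm] at hn ⊢
    have h4 := hlipn y hy
    have h5 := hlipG y hy
    calc ‖g y - f n y‖ = ‖(g y - g x) - (f n x - g x) - (f n y - f n x)‖ := by
          ring_nf
      _ ≤ ‖g y - g x‖ + ‖f n x - g x‖ + ‖f n y - f n x‖ := by
          refine (norm_sub_le _ _).trans ?_
          gcongr
          exact norm_sub_le _ _
      _ < ε := by linarith
  refine ⟨g, fun x hx => ?_, hloc⟩
  obtain ⟨r, C, hr, hsub, hev⟩ := h x hx
  have h1 : DifferentiableOn ℂ g (ball x r) :=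
    (hloc.mono hsub).differentiableOn (hev.mono fun k hk => hk.1) isOpen_ball
  exact (h1.differentiableAt (ball_mem_nhds x hr)).differentiableWithinAt

end Pool.Agent.MAT
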