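import Pool.Agent.MAT.T

/-!
# MAT: the target ANN
-/

set_option autoImplicit false

open Polynomial Metric Set Filter Topology

noncomputable section

namespace Pool.Agent.MAT

namespace ANN_

/-- the approximations of the extension, in the logarithmic coordinate -/
def Phi (n : ℕ) (A η : ℂ → ℂ) (m : ℕ) (u : ℂ) : ℂ := A^[m] (η (Complex.exp (u / (n : ℂ) ^ m)))

/-- the range where they are defined -/
def Va (n : ℕ) (L : ℝ) (m : ℕ) (u : ℂ) : Prop := L < u.re / (n : ℝ) ^ m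

theorem re_div_pow (n : ℕ) (m : ℕ) (u : ℂ) : (u / (n : ℂ) ^ m).re = u.re / (n : ℝ) ^ m := by
  have h : ((n : ℂ) ^ m) = (((n : ℝ) ^ m : ℝ) : ℂ) := by push_cast; rfl
  rw [h, Complex.div_ofReal_re]

theorem norm_exp_div (n : ℕ) (m : ℕ) (u : ℂ) :
    ‖Complex.exp (u / (n : ℂ) ^ m)‖ = Real.exp (u.re / (n : ℝ) ^ m) := by
  rw [Complex.norm_exp, re_div_pow]

section

variable {n : ℕ} {A η : ℂ → ℂ} {ρ : ℝ}

theorem Va_succ (hn : 2 ≤ n) {L : ℝ} {m : ℕ} {u : ℂ} (hu : u.re < 0) (h : Va n L m u) :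
    Va n L (m + 1) u := by
  have hn1 : (1 : ℝ) ≤ n := by exact_mod_cast (by omega : 1 ≤ n)
  have hn0 : (0 : ℝ) < (n : ℝ) ^ m := by positivity
  refine lt_of_lt_of_le h ?_
  rw [div_le_div_iff₀ hn0 (by positivity), pow_succ]
  have h1 : (n : ℝ) ^ m ≤ (n : ℝ) ^ m * n := le_mul_of_one_le_right hn0.le hn1
  exact mul_le_mul_of_nonpos_left h1 hu.le

theorem Va_mono (hn : 2 ≤ n) {L : ℝ} {m m' : ℕ} {u : ℂ} (hu : u.re < 0) (h : Va n L m u)
    (hm : m ≤ m') : Va n L m' u := by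
  induction hm with
  | refl => exact h
  | step _ ih => exact Va_succ hn hu ih

theorem Va_ex (hn : 2 ≤ n) {L : ℝ} (hL : L < 0) {u : ℂ} (hu : u.re < 0) : ∃ m, Va n L m u := by
  have hn1 : (1 : ℝ) < n := by exact_mod_cast (by omega : 1 < n)
  obtain ⟨m, hm⟩ := pow_unbounded_of_one_lt (u.re / L) hn1
  refine ⟨m, ?_⟩
  have hp : (0 : ℝ) < (n : ℝ) ^ m := by positivity
  show L < u.re / (n : ℝ) ^ m
  rw [lt_div_iff₀ hp]
  rw [div_lt_iff_of_neg hL] at hm
  linarith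

theorem Phi_succ (hn : 2 ≤ n) (hρ : 0 < ρ)
    (heq : ∀ ζ : ℂ, ρ < ‖ζ‖ ^ n → ‖ζ‖ < 1 → η (ζ ^ n) = A (η ζ)) {m : ℕ} {u : ℂ}
    (hu : u.re < 0) (h : Va n (Real.log ρ) m u) : Phi n A η (m + 1) u = Phi n A η m u := by
  have hn0 : (n : ℂ) ≠ 0 := by exact_mod_cast (by omega : n ≠ 0)
  have hnr : (0 : ℝ) < n := by exact_mod_cast (by omega : 0 < n)
  have h1 : Complex.exp (u / (n : ℂ) ^ (m + 1)) ^ n = Complex.exp (u / (n : ℂ) ^ m) := by
    rw [← Complex.exp_nat_mul]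
    congr 1
    rw [pow_succ]
    field_simp
  have h2 : ‖Complex.exp (u / (n : ℂ) ^ (m + 1))‖ < 1 := by
    rw [norm_exp_div, Real.exp_lt_one_iff]
    exact div_neg_of_neg_of_pos hu (by positivity)
  have h3 : ρ < ‖Complex.exp (u / (n : ℂ) ^ (m + 1))‖ ^ n := by
    rw [← norm_pow, h1, norm_exp_div]
    have : Real.log ρ < u.re / (n : ℝ) ^ m := h
    calc ρ = Real.exp (Real.log ρ) := (Real.exp_log hρ).symm
      _ < _ := Real.exp_lt_exp.2 this
  unfold Phi
  rw [Function.iterate_succ_apply, ← heq _ h3 h2, h1]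

theorem Phi_mono (hn : 2 ≤ n) (hρ : 0 < ρ)
    (heq : ∀ ζ : ℂ, ρ < ‖ζ‖ ^ n → ‖ζ‖ < 1 → η (ζ ^ n) = A (η ζ)) {m m' : ℕ} {u : ℂ}
    (hu : u.re < 0) (h : Va n (Real.log ρ) m u) (hm : m ≤ m') :
    Phi n A η m' u = Phi n A η m u := by
  induction hm with
  | refl => rfl
  | step hk ih => rw [Phi_succ hn hρ heq hu (Va_mono hn hu h hk), ih]

end

/-- the extension in the logarithmic coordinate -/
theorem ext_log {n : ℕ} {A η : ℂ → ℂ} {ρ : ℝ} (hn : 2 ≤ n) (hρ : 0 < ρ) (hρ1 : ρ < 1)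
    (hA : DifferentiableOn ℂ A (ball 0 1)) (hAm : MapsTo A (ball 0 1) (ball 0 1))
    (hη : DifferentiableOn ℂ η {ζ | ρ < ‖ζ‖ ∧ ‖ζ‖ < 1})
    (hη1 : ∀ ζ : ℂ, ρ < ‖ζ‖ → ‖ζ‖ < 1 → ‖η ζ‖ < 1)
    (heq : ∀ ζ : ℂ, ρ < ‖ζ‖ ^ n → ‖ζ‖ < 1 → η (ζ ^ n) = A (η ζ)) :
    ∃ G : ℂ → ℂ, DifferentiableOn ℂ G {u | u.re < 0} ∧ (∀ u : ℂ, u.re < 0 → ‖G u‖ < 1) ∧
      (∀ u : ℂ, Real.log ρ < u.re → u.re < 0 → G u = η (Complex.exp u)) ∧
      ∀ u : ℂ, u.re < 0 → G (n * u) = A (G u) := by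
  have hL : Real.log ρ < 0 := Real.log_neg hρ hρ1
  have hn0 : (n : ℂ) ≠ 0 := by exact_mod_cast (by omega : n ≠ 0)
  have hnr : (0 : ℝ) < n := by exact_mod_cast (by omega : 0 < n)
  have hex : ∀ u : ℂ, u.re < 0 → ∃ m, Va n (Real.log ρ) m u := fun u hu => Va_ex hn hL hu
  choose! mm hmm using hex
  have hG : ∀ (u : ℂ) (m : ℕ), u.re < 0 → Va n (Real.log ρ) m u →
      Phi n A η (mm u) u = Phi n A η m u := by
    intro u m hu hm
    rw [← Phi_mono hn hρ heq hu hm (le_max_left m (mm u)),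
      ← Phi_mono hn hρ heq hu (hmm u hu) (le_max_right m (mm u))]
  have hin : ∀ (u : ℂ) (m : ℕ), u.re < 0 → Va n (Real.log ρ) m u →
      ρ < ‖Complex.exp (u / (n : ℂ) ^ m)‖ ∧ ‖Complex.exp (u / (n : ℂ) ^ m)‖ < 1 := by
    intro u m hu hm
    rw [norm_exp_div]
    constructor
    · have : Real.log ρ < u.re / (n : ℝ) ^ m := hm
      calc ρ = Real.exp (Real.log ρ) := (Real.exp_log hρ).symm
        _ < _ := Real.exp_lt_exp.2 this
    · rw [Real.exp_lt_one_iff]
      exact div_neg_of_neg_of_pos hu (by positivity)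
  refine ⟨fun u => Phi n A η (mm u) u, ?_, ?_, ?_, ?_⟩
  · intro u0 hu0
    have hu0' : u0.re < 0 := hu0
    apply DifferentiableAt.differentiableWithinAt
    set m := mm u0 with hm
    have h1 : ∀ᶠ u in 𝓝 u0, Va n (Real.log ρ) m u ∧ u.re < 0 := by
      have hc : Continuous fun u : ℂ => u.re / (n : ℝ) ^ m := by fun_prop
      exact ((hc.continuousAt).eventually (lt_mem_nhds (hmm u0 hu0'))).and
        ((Complex.continuous_re.continuousAt).eventually (gt_mem_nhds hu0'))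
    have h2 : (fun u => Phi n A η (mm u) u) =ᶠ[𝓝 u0] fun u => Phi n A η m u := by
      filter_upwards [h1] with u hu
      exact hG u m hu.2 hu.1
    refine DifferentiableAt.congr_of_eventuallyEq ?_ h2
    have h3 := hin u0 m hu0' (hmm u0 hu0')
    have hopen : IsOpen {ζ : ℂ | ρ < ‖ζ‖ ∧ ‖ζ‖ < 1} :=
      (isOpen_lt continuous_const continuous_norm).inter
        (isOpen_lt continuous_norm continuous_const)
    have h4 : DifferentiableAt ℂ η (Complex.exp (u0 / (n : ℂ) ^ m)) :=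
      hη.differentiableAt (hopen.mem_nhds h3)
    have h5 : η (Complex.exp (u0 / (n : ℂ) ^ m)) ∈ ball (0 : ℂ) 1 := by
      rw [mem_ball_zero_iff]
      exact hη1 _ h3.1 h3.2
    have h6 : DifferentiableAt ℂ (A^[m]) (η (Complex.exp (u0 / (n : ℂ) ^ m))) :=
      (hA.iterate hAm m).differentiableAt (isOpen_ball.mem_nhds h5)
    have h7 : DifferentiableAt ℂ (fun u : ℂ => Complex.exp (u / (n : ℂ) ^ m)) u0 := by
      fun_prop
    exact (h6.comp u0 (h4.comp u0 h7) :)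
  · intro u hu
    have h3 := hin u (mm u) hu (hmm u hu)
    have h5 : η (Complex.exp (u / (n : ℂ) ^ (mm u))) ∈ ball (0 : ℂ) 1 := by
      rw [mem_ball_zero_iff]
      exact hη1 _ h3.1 h3.2
    have := hAm.iterate (mm u) h5
    rwa [mem_ball_zero_iff] at this
  · intro u hu1 hu2
    have h1 : Va n (Real.log ρ) 0 u := by
      show Real.log ρ < u.re / (n : ℝ) ^ 0
      simpa using hu1
    show Phi n A η (mm u) u = _
    rw [hG u 0 hu2 h1]
    simp [Phi]
  · intro u hu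
    have hm := hmm u hu
    have hnu : ((n : ℂ) * u).re < 0 := by
      rw [← Complex.ofReal_natCast, Complex.re_ofReal_mul]
      exact mul_neg_of_pos_of_neg hnr hu
    have h1 : Va n (Real.log ρ) (mm u + 1) (n * u) := by
      show Real.log ρ < ((n : ℂ) * u).re / (n : ℝ) ^ (mm u + 1)
      rw [← Complex.ofReal_natCast, Complex.re_ofReal_mul, pow_succ]
      have : (n : ℝ) * u.re / ((n : ℝ) ^ (mm u) * n) = u.re / (n : ℝ) ^ (mm u) := by
        field_simp
      rw [this]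
      exact hm
    show Phi n A η (mm (n * u)) (n * u) = A (Phi n A η (mm u) u)
    rw [hG _ _ hnu h1]
    unfold Phi
    rw [Function.iterate_succ_apply']
    congr 4
    rw [pow_succ]
    field_simp

/-- the extension is periodic -/
theorem periodic {G : ℂ → ℂ} {η : ℂ → ℂ} {L : ℝ} (hL : L < 0)
    (hG : DifferentiableOn ℂ G {u | u.re < 0})
    (hGη : ∀ u : ℂ, L < u.re → u.re < 0 → G u = η (Complex.exp u)) :
    ∀ (k : ℤ) (u : ℂ), u.re < 0 → G (u + k * (2 * Real.pi * Complex.I)) = G u := by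
  have hre : ∀ (k : ℤ) (u : ℂ), (u + k * (2 * Real.pi * Complex.I)).re = u.re := by
    intro k u
    simp
  have hopen : IsOpen {u : ℂ | u.re < 0} := isOpen_lt Complex.continuous_re continuous_const
  have hconv : Convex ℝ {u : ℂ | u.re < 0} := convex_halfSpace_re_lt 0
  have h1 : ∀ u : ℂ, u.re < 0 → G (u + 2 * Real.pi * Complex.I) = G u := by
    have hre1 : ∀ u : ℂ, (u + 2 * Real.pi * Complex.I).re = u.re := by
      intro u
      have := hre 1 u
      simpa using this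
    have hd2 : DifferentiableOn ℂ (fun u => G (u + 2 * Real.pi * Complex.I)) {u | u.re < 0} := by
      refine DifferentiableOn.comp (t := {u : ℂ | u.re < 0}) hG (by fun_prop) ?_
      intro u hu
      show (u + 2 * Real.pi * Complex.I).re < 0
      rw [hre1]
      exact hu
    have hz : ((L / 2 : ℝ) : ℂ) ∈ {u : ℂ | u.re < 0} := by
      show ((L / 2 : ℝ) : ℂ).re < 0
      rw [Complex.ofReal_re]
      linarith
    have hev : (fun u => G (u + 2 * Real.pi * Complex.I)) =ᶠ[𝓝 ((L / 2 : ℝ) : ℂ)] G := by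
      have h2 : ∀ᶠ u : ℂ in 𝓝 ((L / 2 : ℝ) : ℂ), L < u.re ∧ u.re < 0 := by
        refine ((Complex.continuous_re.continuousAt).eventually (lt_mem_nhds ?_)).and
          ((Complex.continuous_re.continuousAt).eventually (gt_mem_nhds ?_))
        · rw [Complex.ofReal_re]; linarith
        · rw [Complex.ofReal_re]; linarith
      filter_upwards [h2] with u hu
      rw [hGη u hu.1 hu.2, hGη _ (by rw [hre1]; exact hu.1) (by rw [hre1]; exact hu.2),
        Complex.exp_add, Complex.exp_two_pi_mul_I, mul_one]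
    have := AnalyticOnNhd.eqOn_of_preconnected_of_eventuallyEq (hd2.analyticOnNhd hopen)
      (hG.analyticOnNhd hopen) hconv.isPreconnected hz hev
    intro u hu
    exact this hu
  intro k
  induction k using Int.induction_on with
  | zero => intro u hu; simp
  | succ k ih =>
    intro u hu
    have h2 := h1 (u + k * (2 * Real.pi * Complex.I)) (by
      have := hre k u
      push_cast at this
      rw [this]; exact hu)
    have h3 := ih u hu
    push_cast at h3 ⊢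
    rw [← h3, ← h2]
    congr 1
    ring
  | pred k ih =>
    intro u hu
    have h2 := h1 (u + ((-(k : ℤ) - 1 : ℤ) : ℂ) * (2 * Real.pi * Complex.I)) (by
      rw [hre]; exact hu)
    have h3 := ih u hu
    rw [← h2, ← h3]
    congr 1
    push_cast
    ring

/-- the extension to the disk -/
theorem ext_disk {n : ℕ} {A η : ℂ → ℂ} {ρ : ℝ} (hn : 2 ≤ n) (hρ : 0 < ρ) (hρ1 : ρ < 1)
    (hA : DifferentiableOn ℂ A (ball 0 1)) (hAm : MapsTo A (ball 0 1) (ball 0 1))
    (hη : DifferentiableOn ℂ η {ζ | ρ < ‖ζ‖ ∧ ‖ζ‖ < 1})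
    (hη1 : ∀ ζ : ℂ, ρ < ‖ζ‖ → ‖ζ‖ < 1 → ‖η ζ‖ < 1)
    (heq : ∀ ζ : ℂ, ρ < ‖ζ‖ ^ n → ‖ζ‖ < 1 → η (ζ ^ n) = A (η ζ)) :
    ∃ F : ℂ → ℂ, DifferentiableOn ℂ F (ball 0 1) ∧
      (∀ z ∈ ball (0 : ℂ) 1, z ≠ 0 → ‖F z‖ < 1) ∧
      (∀ z : ℂ, ρ < ‖z‖ → ‖z‖ < 1 → F z = η z) ∧
      ∀ z ∈ ball (0 : ℂ) 1, z ≠ 0 → F (z ^ n) = A (F z) := by
  obtain ⟨G, hG, hG1, hGη, hGn⟩ := ext_log hn hρ hρ1 hA hAm hη hη1 heq
  have hL : Real.log ρ < 0 := Real.log_neg hρ hρ1
  have hper := periodic hL hG hGη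
  have hopen : IsOpen {u : ℂ | u.re < 0} := isOpen_lt Complex.continuous_re continuous_const
  have hlog : ∀ z : ℂ, z ≠ 0 → ‖z‖ < 1 → (Complex.log z).re < 0 := by
    intro z hz hz1
    rw [Complex.log_re]
    exact Real.log_neg (norm_pos_iff.2 hz) hz1
  have key : ∀ u z : ℂ, z ≠ 0 → ‖z‖ < 1 → Complex.exp u = z → G u = G (Complex.log z) := by
    intro u z hz hz1 hu
    have h1 : Complex.exp u = Complex.exp (Complex.log z) := by rw [hu, Complex.exp_log hz]
    obtain ⟨k, hk⟩ := Complex.exp_eq_exp_iff_exists_int.1 h1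
    rw [hk]
    exact hper k _ (hlog z hz hz1)
  have hd : DifferentiableOn ℂ (fun z => G (Complex.log z)) (ball 0 1 \ {0}) := by
    rintro z0 ⟨hz1, hz0⟩
    rw [mem_ball_zero_iff] at hz1
    have hz0' : z0 ≠ 0 := hz0
    apply DifferentiableAt.differentiableWithinAt
    have h1 : (fun z => G (Complex.log z)) =ᶠ[𝓝 z0]
        fun z => G (Complex.log (z / z0) + Complex.log z0) := by
      have h2 : ∀ᶠ z : ℂ in 𝓝 z0, z ≠ 0 ∧ ‖z‖ < 1 :=
        (eventually_ne_nhds hz0').and ((continuous_norm.continuousAt).eventually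
          (gt_mem_nhds hz1))
      filter_upwards [h2] with z hz
      refine (key _ z hz.1 hz.2 ?_).symm
      rw [Complex.exp_add, Complex.exp_log (div_ne_zero hz.1 hz0'), Complex.exp_log hz0',
        div_mul_cancel₀ _ hz0']
    refine DifferentiableAt.congr_of_eventuallyEq ?_ h1
    have h3 : DifferentiableAt ℂ (fun z : ℂ => Complex.log (z / z0) + Complex.log z0) z0 := by
      refine DifferentiableAt.add_const _ ?_
      refine DifferentiableAt.clog (by fun_prop) ?_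
      rw [div_self hz0']
      exact Complex.one_mem_slitPlane
    have h4 : DifferentiableAt ℂ G (Complex.log (z0 / z0) + Complex.log z0) := by
      rw [div_self hz0', Complex.log_one, zero_add]
      exact hG.differentiableAt (hopen.mem_nhds (hlog z0 hz0' hz1))
    exact (h4.comp z0 h3 :)
  have hb : BddAbove (norm ∘ (fun z => G (Complex.log z)) '' (ball 0 1 \ {0})) := by
    refine ⟨1, ?_⟩
    rintro x ⟨z, ⟨hz1, hz0⟩, rfl⟩
    rw [mem_ball_zero_iff] at hz1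
    exact (hG1 _ (hlog z hz0 hz1)).le
  have hF := Complex.differentiableOn_update_limUnder_of_bddAbove
    (ball_mem_nhds (0 : ℂ) one_pos) hd hb
  set F := Function.update (fun z => G (Complex.log z)) 0
    (limUnder (𝓝[≠] (0 : ℂ)) (fun z => G (Complex.log z))) with hFdef
  have hFz : ∀ z : ℂ, z ≠ 0 → F z = G (Complex.log z) := by
    intro z hz
    rw [hFdef, Function.update_of_ne hz]
  refine ⟨F, hF, ?_, ?_, ?_⟩
  · intro z hz hz0
    rw [mem_ball_zero_iff] at hz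
    rw [hFz z hz0]
    exact hG1 _ (hlog z hz0 hz)
  · intro z hz hz1
    have hz0 : z ≠ 0 := norm_pos_iff.1 (hρ.trans hz)
    rw [hFz z hz0, hGη _ ?_ (hlog z hz0 hz1), Complex.exp_log hz0]
    rw [Complex.log_re]
    exact Real.log_lt_log hρ hz
  · intro z hz hz0
    rw [mem_ball_zero_iff] at hz
    have hzn0 : z ^ n ≠ 0 := pow_ne_zero _ hz0
    have hzn1 : ‖z ^ n‖ < 1 := by
      rw [norm_pow]
      exact pow_lt_one₀ (norm_nonneg _) hz (by omega)
    rw [hFz z hz0, hFz _ hzn0, ← hGn _ (hlog z hz0 hz)]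
    refine (key _ _ hzn0 hzn1 ?_).symm
    rw [Complex.exp_nat_mul, Complex.exp_log hz0]

/-- iterating the functional equation -/
theorem iter_eq {n : ℕ} {A F : ℂ → ℂ} (hn : 2 ≤ n)
    (hF : ∀ z ∈ ball (0 : ℂ) 1, z ≠ 0 → F (z ^ n) = A (F z)) :
    ∀ (m : ℕ) (z : ℂ), z ∈ ball (0 : ℂ) 1 → z ≠ 0 → F (z ^ n ^ m) = A^[m] (F z) := by
  intro m
  induction m with
  | zero => intro z _ _; simp
  | succ m ih =>
    intro z hz hz0
    have h1 : z ^ n ^ m ∈ ball (0 : ℂ) 1 := by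
      rw [mem_ball_zero_iff] at hz ⊢
      rw [norm_pow]
      exact pow_lt_one₀ (norm_nonneg _) hz (by positivity)
    rw [pow_succ n m, pow_mul, hF _ h1 (pow_ne_zero _ hz0), ih z hz hz0,
      Function.iterate_succ_apply']

theorem tendsto_pow_pow {n : ℕ} (hn : 2 ≤ n) {z : ℂ} (hz : z ∈ ball (0 : ℂ) 1) :
    Tendsto (fun m : ℕ => z ^ n ^ m) atTop (𝓝 0) := by
  rw [mem_ball_zero_iff] at hz
  exact (tendsto_pow_atTop_nhds_zero_of_norm_lt_one hz).comp
    (tendsto_pow_atTop_atTop_of_one_lt (by omega))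

/-- a nonvanishing function whose absolute value tends to `1` at the circle is constant -/
theorem const_of_norm {h : ℂ → ℂ} (hd : DifferentiableOn ℂ h (ball 0 1))
    (h0 : ∀ z ∈ ball (0 : ℂ) 1, h z ≠ 0)
    (hε : ∀ ε : ℝ, 0 < ε → ∃ ρ' : ℝ, ρ' < 1 ∧ ∀ z : ℂ, ρ' < ‖z‖ → ‖z‖ < 1 →
      1 - ε < ‖h z‖ ∧ ‖h z‖ < 1 + ε) :
    ‖h 0‖ = 1 ∧ ∀ z ∈ ball (0 : ℂ) 1, h z = h 0 := by
  have hmax : ∀ (f : ℂ → ℂ) (r C : ℝ) (z : ℂ), DifferentiableOn ℂ f (ball 0 1) → r < 1 →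
      ‖z‖ < r → (∀ w : ℂ, ‖w‖ = r → ‖f w‖ ≤ C) → ‖f z‖ ≤ C := by
    intro f r C z hf hr hz hC
    have hr0 : 0 < r := (norm_nonneg z).trans_lt hz
    refine Complex.norm_le_of_forall_mem_frontier_norm_le (U := ball (0 : ℂ) r) isBounded_ball
      ?_ ?_ ?_
    · refine DifferentiableOn.diffContOnCl ?_
      refine hf.mono ?_
      rw [closure_ball _ hr0.ne']
      exact closedBall_subset_ball hr
    · intro w hw
      rw [frontier_ball _ hr0.ne', mem_sphere_zero_iff_norm] at hw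
      exact hC w hw
    · rw [closure_ball _ hr0.ne', mem_closedBall_zero_iff]
      exact hz.le
  have hone : ∀ z ∈ ball (0 : ℂ) 1, ‖h z‖ = 1 := by
    intro z hz
    rw [mem_ball_zero_iff] at hz
    apply le_antisymm
    · refine le_of_forall_pos_le_add ?_
      intro ε hε0
      obtain ⟨ρ', hρ', h1⟩ := hε ε hε0
      obtain ⟨r, hr1, hr2⟩ := exists_between (max_lt hz hρ')
      have hr3 := max_lt_iff.1 hr1
      refine hmax h r (1 + ε) z hd hr2 hr3.1 ?_
      intro w hw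
      exact (h1 w (by rw [hw]; exact hr3.2) (by rw [hw]; exact hr2)).2.le
    · refine le_of_forall_pos_le_add ?_
      intro ε hε0
      have hε1 : 0 < min ε (1 / 2) := by positivity
      obtain ⟨ρ', hρ', h1⟩ := hε (min ε (1 / 2)) hε1
      obtain ⟨r, hr1, hr2⟩ := exists_between (max_lt hz hρ')
      have hr3 := max_lt_iff.1 hr1
      have hhz : 0 < ‖h z‖ := norm_pos_iff.2 (h0 z (by rw [mem_ball_zero_iff]; exact hz))
      have hm1 : min ε (1 / 2) ≤ 1 / 2 := min_le_right _ _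
      have hm2 : min ε (1 / 2) ≤ ε := min_le_left _ _
      have h2 : ‖(fun w => (h w)⁻¹) z‖ ≤ (1 - min ε (1 / 2))⁻¹ := by
        refine hmax (fun w => (h w)⁻¹) r _ z (hd.inv h0) hr2 hr3.1 ?_
        intro w hw
        rw [norm_inv]
        refine inv_anti₀ (by linarith) ?_
        exact (h1 w (by rw [hw]; exact hr3.2) (by rw [hw]; exact hr2)).1.le
      have h3 : (‖h z‖)⁻¹ ≤ (1 - min ε (1 / 2))⁻¹ := by
        rw [← norm_inv]
        exact h2
      have h4 : 1 - min ε (1 / 2) ≤ ‖h z‖ := (inv_le_inv₀ hhz (by linarith)).1 h3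
      linarith
  have h00 : (0 : ℂ) ∈ ball (0 : ℂ) 1 := mem_ball_self one_pos
  refine ⟨hone 0 h00, ?_⟩
  have hmx : IsMaxOn (norm ∘ h) (ball (0 : ℂ) 1) 0 := by
    intro z hz
    show ‖h z‖ ≤ ‖h 0‖
    rw [hone z hz, hone 0 h00]
  exact Complex.eqOn_of_isPreconnected_of_isMaxOn_norm
    (convex_ball (0 : ℂ) 1).isPreconnected isOpen_ball hd h00 hmx

end ANN_

open ANN_ in
theorem p_ANN (hBLA : T_BLA) : T_ANN := by
  intro n A η ρ hn hB hρ hρ1 hη hη1 heq hbd
  obtain ⟨hA0, hA, -, hlt, -, hit, -⟩ := hBLA n A hn hB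
  have hAm : MapsTo A (ball 0 1) (ball 0 1) := by
    intro z hz
    by_cases hz0 : z = 0
    · rw [hz0, hA0]
      exact mem_ball_self one_pos
    · have h1 := hlt z hz hz0
      rw [mem_ball_zero_iff] at hz ⊢
      linarith
  obtain ⟨F, hF, hF1, hFη, hFn⟩ := ext_disk hn hρ hρ1 hA hAm hη hη1 heq
  have hball : ball (0 : ℂ) 1 ∈ 𝓝 (0 : ℂ) := ball_mem_nhds _ one_pos
  have hFan : AnalyticAt ℂ F 0 := hF.analyticAt hball
  have hiter := iter_eq hn hFn
  have hAi0 : ∀ m : ℕ, A^[m] 0 = 0 := by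
    intro m
    induction m with
    | zero => rfl
    | succ m ih => rw [Function.iterate_succ_apply', ih, hA0]
  -- `F 0 = 0`
  have hF0 : F 0 = 0 := by
    have hz : (1 / 2 : ℂ) ∈ ball (0 : ℂ) 1 := by
      rw [mem_ball_zero_iff]; norm_num
    have hz0 : (1 / 2 : ℂ) ≠ 0 := by norm_num
    have h1 : Tendsto (fun m : ℕ => F ((1 / 2 : ℂ) ^ n ^ m)) atTop (𝓝 (F 0)) :=
      hFan.continuousAt.tendsto.comp (tendsto_pow_pow hn hz)
    have h2 : Tendsto (fun m : ℕ => F ((1 / 2 : ℂ) ^ n ^ m)) atTop (𝓝 0) := by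
      have h3 := hit (F (1 / 2)) (by rw [mem_ball_zero_iff]; exact hF1 _ hz hz0)
      refine h3.congr ?_
      intro m
      exact (hiter m _ hz hz0).symm
    exact tendsto_nhds_unique h1 h2
  -- `F` is not zero
  obtain ⟨ζ₁, hζ1, hζ2, hζ3⟩ : ∃ ζ : ℂ, ρ < ‖ζ‖ ∧ ‖ζ‖ < 1 ∧ F ζ ≠ 0 := by
    obtain ⟨ρ', hρ', h1⟩ := hbd (1 / 2) (by norm_num)
    obtain ⟨r, hr1, hr2⟩ := exists_between (max_lt hρ1 hρ')
    have hr3 := max_lt_iff.1 hr1
    have hr : ‖(r : ℂ)‖ = r := by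
      rw [Complex.norm_real, Real.norm_eq_abs, abs_of_pos (hρ.trans hr3.1)]
    refine ⟨(r : ℂ), by rw [hr]; exact hr3.1, by rw [hr]; exact hr2, ?_⟩
    rw [hFη _ (by rw [hr]; exact hr3.1) (by rw [hr]; exact hr2)]
    have h2 := h1 (r : ℂ) (by rw [hr]; exact hr3.2) (by rw [hr]; exact hr2)
    intro h3
    rw [h3, norm_zero] at h2
    norm_num at h2
  have hnz : ¬ ∃ᶠ z in 𝓝[≠] (0 : ℂ), F z = 0 := by
    intro hfr
    have h1 := AnalyticOnNhd.eqOn_zero_of_preconnected_of_frequently_eq_zero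
      (hF.analyticOnNhd isOpen_ball) (convex_ball (0 : ℂ) 1).isPreconnected
      (mem_ball_self one_pos) hfr
    exact hζ3 (h1 (by rw [mem_ball_zero_iff]; exact hζ2))
  have hFne : ∀ z ∈ ball (0 : ℂ) 1, z ≠ 0 → F z ≠ 0 := by
    intro z hz hz0 hFz
    apply hnz
    have h1 : Tendsto (fun m : ℕ => z ^ n ^ m) atTop (𝓝[≠] (0 : ℂ)) := by
      refine tendsto_nhdsWithin_iff.2 ⟨tendsto_pow_pow hn hz, ?_⟩
      exact Eventually.of_forall fun m => pow_ne_zero _ hz0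
    have h2 : ∃ᶠ m : ℕ in atTop, F (z ^ n ^ m) = 0 := by
      refine Eventually.frequently ?_
      refine Eventually.of_forall fun m => ?_
      rw [hiter m z hz hz0, hFz, hAi0]
    exact h1.frequently h2
  -- the order of vanishing
  obtain ⟨d, g, hg, hg0, hgF⟩ := (hFan.exists_eventuallyEq_pow_smul_nonzero_iff).2 (by
    intro h
    apply hnz
    exact (h.filter_mono nhdsWithin_le_nhds).frequently)
  have hd : d ≠ 0 := by
    rintro rfl
    have h1 := hgF.self_of_nhds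
    simp only [sub_zero, pow_zero, one_smul] at h1
    rw [hF0] at h1
    exact hg0 h1.symm
  set h : ℂ → ℂ := Function.update (fun z => F z / z ^ d) 0 (g 0) with hh
  have hhz : ∀ z : ℂ, z ≠ 0 → h z = F z / z ^ d := by
    intro z hz
    rw [hh, Function.update_of_ne hz]
  have hh0 : h 0 = g 0 := by rw [hh, Function.update_self]
  have hhF : ∀ z : ℂ, F z = z ^ d * h z := by
    intro z
    by_cases hz : z = 0
    · rw [hz, hF0, zero_pow hd, zero_mul]
    · rw [hhz z hz]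
      field_simp
  have hhd : DifferentiableOn ℂ h (ball 0 1) := by
    intro z hz
    apply DifferentiableAt.differentiableWithinAt
    by_cases hz0 : z = 0
    · subst hz0
      have h1 : h =ᶠ[𝓝 0] g := by
        filter_upwards [hgF] with w hw
        by_cases hw0 : w = 0
        · rw [hw0, hh0]
        · rw [hhz w hw0, hw]
          simp only [sub_zero, smul_eq_mul]
          field_simp
      exact hg.differentiableAt.congr_of_eventuallyEq h1
    · have h1 : h =ᶠ[𝓝 z] fun z => F z / z ^ d := by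
        filter_upwards [eventually_ne_nhds hz0] with w hw
        exact hhz w hw
      refine DifferentiableAt.congr_of_eventuallyEq ?_ h1
      exact (hF.differentiableAt (isOpen_ball.mem_nhds hz)).div (by fun_prop)
        (pow_ne_zero _ hz0)
  have hhne : ∀ z ∈ ball (0 : ℂ) 1, h z ≠ 0 := by
    intro z hz
    by_cases hz0 : z = 0
    · rw [hz0, hh0]; exact hg0
    · rw [hhz z hz0]
      exact div_ne_zero (hFne z hz hz0) (pow_ne_zero _ hz0)
  have hhε : ∀ ε : ℝ, 0 < ε → ∃ ρ' : ℝ, ρ' < 1 ∧ ∀ z : ℂ, ρ' < ‖z‖ → ‖z‖ < 1 →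
      1 - ε < ‖h z‖ ∧ ‖h z‖ < 1 + ε := by
    intro ε hε
    obtain ⟨ρ₁, hρ₁, h1⟩ := hbd ε hε
    -- `r ^ d` is near `1`
    have h2 : ∀ᶠ r : ℝ in 𝓝[<] (1 : ℝ), 1 / (1 + ε) < r ^ d := by
      have hc : ContinuousAt (fun r : ℝ => r ^ d) 1 := by fun_prop
      have h3 : 1 / (1 + ε) < (1 : ℝ) ^ d := by
        rw [one_pow, div_lt_one (by linarith)]
        linarith
      exact (hc.eventually (lt_mem_nhds h3)).filter_mono nhdsWithin_le_nhds
    obtain ⟨ρ₂, hρ₂, h4⟩ := (mem_nhdsLT_iff_exists_Ioo_subset.1 h2)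
    refine ⟨max ρ₁ (max ρ₂ ρ), max_lt hρ₁ (max_lt hρ₂ hρ1), ?_⟩
    intro z hz hz1
    have ha : ρ₁ < ‖z‖ := (le_max_left _ _).trans_lt hz
    have hb : ρ₂ < ‖z‖ := ((le_max_left _ _).trans (le_max_right _ _)).trans_lt hz
    have hc : ρ < ‖z‖ := ((le_max_right _ _).trans (le_max_right _ _)).trans_lt hz
    have hz0 : 0 < ‖z‖ := hρ.trans hc
    have hz0' : z ≠ 0 := norm_pos_iff.1 hz0
    have hzb : z ∈ ball (0 : ℂ) 1 := by rw [mem_ball_zero_iff]; exact hz1
    have h5 : 1 / (1 + ε) < ‖z‖ ^ d := h4 ⟨hb, hz1⟩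
    have h6 : ‖z‖ ^ d ≤ 1 := pow_le_one₀ hz0.le hz1.le
    have h7 : 0 < ‖z‖ ^ d := by positivity
    have h8 : 1 - ε < ‖F z‖ := by
      rw [hFη z hc hz1]
      exact h1 z ha hz1
    have h9 : ‖F z‖ < 1 := hF1 z hzb hz0'
    have h10 : ‖h z‖ = ‖F z‖ / ‖z‖ ^ d := by rw [hhz z hz0', norm_div, norm_pow]
    rw [h10]
    constructor
    · refine h8.trans_le ?_
      rw [le_div_iff₀ h7]
      exact mul_le_of_le_one_right (norm_nonneg _) h6
    · rw [div_lt_iff₀ h7]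
      refine h9.trans ?_
      rw [div_lt_iff₀ (by linarith)] at h5
      linarith
  obtain ⟨hκ, hconst⟩ := const_of_norm hhd hhne hhε
  refine ⟨h 0, hκ, ?_⟩
  intro w hw
  by_cases hw0 : w = 0
  · rw [hw0, mul_zero, hA0, zero_pow (by omega), mul_zero]
  · obtain ⟨z, hz⟩ := IsAlgClosed.exists_pow_nat_eq w (Nat.pos_of_ne_zero hd)
    have hz0 : z ≠ 0 := by
      rintro rfl
      rw [zero_pow hd] at hz
      exact hw0 hz.symm
    have hz1 : z ∈ ball (0 : ℂ) 1 := by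
      rw [mem_ball_zero_iff] at hw ⊢
      rw [← hz, norm_pow] at hw
      exact (pow_lt_one_iff_of_nonneg (norm_nonneg _) hd).1 hw
    have hzn : z ^ n ∈ ball (0 : ℂ) 1 := by
      rw [mem_ball_zero_iff] at hz1 ⊢
      rw [norm_pow]
      exact pow_lt_one₀ (norm_nonneg _) hz1 (by omega)
    have h1 := hFn z hz1 hz0
    rw [hhF (z ^ n), hhF z, hconst _ hzn, hconst _ hz1, hz, ← pow_mul, mul_comm n d, pow_mul,
      hz] at h1
    rw [mul_comm (h 0) w, ← h1, mul_comm]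

end Pool.Agent.MAT
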