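import Pool.Agent.MAT.T

/-!
# MAT: BLC (a Blaschke product takes each value of the circle `n` times on the circle)
-/

set_option autoImplicit false

open Polynomial Metric Set Filter Topology

noncomputable section

namespace Pool.Agent.MAT

namespace BLC_

/-- derivative of a product of polynomials, evaluated -/
theorem deriv_prod {ι : Type} [DecidableEq ι] (s : Finset ι) (f : ι → ℂ[X]) (w : ℂ)
    (hf : ∀ i ∈ s, (f i).eval w ≠ 0) :
    (derivative (∏ i ∈ s, f i)).eval w =
      (∏ i ∈ s, (f i).eval w) * ∑ i ∈ s, (derivative (f i)).eval w / (f i).eval w := by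
  induction s using Finset.induction_on with
  | empty => simp
  | insert a s ha ih =>
    have h1 := hf a (Finset.mem_insert_self a s)
    have h2 := ih (fun i hi => hf i (Finset.mem_insert_of_mem hi))
    rw [Finset.prod_insert ha, derivative_mul, eval_add, eval_mul, eval_mul, h2,
      Finset.prod_insert ha, Finset.sum_insert ha, eval_prod]
    field_simp

/-- comparison of the two factors -/
theorem normSq_comp (α w : ℂ) :
    Complex.normSq (1 - (starRingEnd ℂ) α * w) - Complex.normSq (w - α) =
      (1 - Complex.normSq α) * (1 - Complex.normSq w) := by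
  simp only [Complex.normSq_apply, Complex.sub_re, Complex.sub_im, Complex.mul_re, Complex.mul_im,
    Complex.conj_re, Complex.conj_im, Complex.one_re, Complex.one_im]
  ring

theorem norm_lt_of_in {α w : ℂ} (hα : ‖α‖ < 1) (hw : ‖w‖ < 1) :
    ‖w - α‖ < ‖1 - (starRingEnd ℂ) α * w‖ := by
  have h := normSq_comp α w
  simp only [Complex.normSq_eq_norm_sq] at h
  have h1 : 0 < (1 - ‖α‖ ^ 2) * (1 - ‖w‖ ^ 2) := by
    have := norm_nonneg α
    have := norm_nonneg w
    apply mul_pos <;> nlinarith
  exact lt_of_pow_lt_pow_left₀ 2 (norm_nonneg _) (by linarith)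

theorem norm_lt_of_out {α w : ℂ} (hα : ‖α‖ < 1) (hw : 1 < ‖w‖) :
    ‖1 - (starRingEnd ℂ) α * w‖ < ‖w - α‖ := by
  have h := normSq_comp α w
  simp only [Complex.normSq_eq_norm_sq] at h
  have h1 : 0 < (1 - ‖α‖ ^ 2) * (‖w‖ ^ 2 - 1) := by
    have := norm_nonneg α
    have := norm_nonneg w
    apply mul_pos <;> nlinarith
  exact lt_of_pow_lt_pow_left₀ 2 (norm_nonneg _) (by linarith)

/-- the logarithmic derivative of one factor on the circle -/
theorem term_eq {α w : ℂ} (hα : ‖α‖ < 1) (hw : ‖w‖ = 1) :
    w * (1 / (w - α) - (-(starRingEnd ℂ) α) / (1 - (starRingEnd ℂ) α * w)) =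
      (((1 - ‖α‖ ^ 2) / ‖w - α‖ ^ 2 : ℝ) : ℂ) := by
  have hne : w - α ≠ 0 := by
    intro h
    have : w = α := by linear_combination h
    rw [this] at hw
    linarith
  have hc : (starRingEnd ℂ) (w - α) ≠ 0 := by
    intro h
    apply hne
    have := congrArg (starRingEnd ℂ) h
    simpa using this
  have hww : w * (starRingEnd ℂ) w = 1 := by
    rw [Complex.mul_conj, Complex.normSq_eq_norm_sq, hw]; simp
  have hw0 : w ≠ 0 := by
    intro h
    rw [h] at hw
    simp at hw
  have h1 : 1 - (starRingEnd ℂ) α * w = w * (starRingEnd ℂ) (w - α) := by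
    rw [map_sub, mul_sub, hww]; ring
  have h2 : (((1 - ‖α‖ ^ 2) / ‖w - α‖ ^ 2 : ℝ) : ℂ) =
      (1 - α * (starRingEnd ℂ) α) / ((w - α) * (starRingEnd ℂ) (w - α)) := by
    rw [Complex.mul_conj, Complex.mul_conj, Complex.normSq_eq_norm_sq, Complex.normSq_eq_norm_sq]
    push_cast
    ring
  rw [h1, h2]
  have h3 : (starRingEnd ℂ) (w - α) = (starRingEnd ℂ) w - (starRingEnd ℂ) α := map_sub _ _ _
  field_simp
  rw [h3]
  linear_combination hww

end BLC_

open BLC_ in
/-- BLC -/
theorem p_BLC : T_BLC := by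
  intro n A hn hA b hb
  obtain ⟨c, α, hc, hα, ⟨i₀, hi₀⟩, hAe⟩ := hA
  set N : ℂ[X] := ∏ i, (X - C (α i)) with hN
  set D : ℂ[X] := ∏ i, (1 - C ((starRingEnd ℂ) (α i)) * X) with hD
  set P : ℂ[X] := C c * N - C b * D with hP
  have hc0 : c ≠ 0 := by intro h; rw [h] at hc; simp at hc
  have hb0 : b ≠ 0 := by intro h; rw [h] at hb; simp at hb
  have hNm : N.Monic := monic_prod_of_monic _ _ (fun i _ => monic_X_sub_C (α i))
  have hNd : N.natDegree = n := by
    rw [hN, natDegree_prod_of_monic _ _ (fun i _ => monic_X_sub_C (α i))]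
    simp
  have hDd : D.natDegree < n := by
    have h1 : D.natDegree ≤ ∑ i : Fin n, (1 - C ((starRingEnd ℂ) (α i)) * X : ℂ[X]).natDegree :=
      natDegree_prod_le _ _
    have h2 : ∑ i : Fin n, (1 - C ((starRingEnd ℂ) (α i)) * X : ℂ[X]).natDegree <
        ∑ _i : Fin n, 1 := by
      apply Finset.sum_lt_sum
      · intro i _
        refine (natDegree_sub_le _ _).trans ?_
        refine max_le (by simp) ?_
        exact (natDegree_C_mul_le _ _).trans (by simp)
      · exact ⟨i₀, Finset.mem_univ _, by simp [hi₀]⟩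
    simp at h2
    omega
  have hdN : (C c * N).natDegree = n := by
    rw [natDegree_C_mul hc0, hNd]
  have hdD : (C b * D).natDegree < n := by
    rw [natDegree_C_mul hb0]; exact hDd
  have hPd : P.natDegree = n := by
    rw [hP, natDegree_sub_eq_left_of_natDegree_lt (by rw [hdN]; exact hdD), hdN]
  have hP0 : P ≠ 0 := by
    intro h
    rw [h] at hPd
    simp at hPd
    omega
  have heN : ∀ w, N.eval w = ∏ i, (w - α i) := by
    intro w; simp [hN, eval_prod]
  have heD : ∀ w, D.eval w = ∏ i, (1 - (starRingEnd ℂ) (α i) * w) := by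
    intro w; simp [hD, eval_prod]
  -- roots are on the circle
  have hroot : ∀ w, P.eval w = 0 → ‖w‖ = 1 := by
    intro w hw
    have h1 : c * ∏ i, (w - α i) = b * ∏ i, (1 - (starRingEnd ℂ) (α i) * w) := by
      have : P.eval w = c * N.eval w - b * D.eval w := by simp [hP]
      rw [this, heN, heD] at hw
      linear_combination hw
    have h2 : ∏ i, ‖w - α i‖ = ∏ i, ‖1 - (starRingEnd ℂ) (α i) * w‖ := by
      have := congrArg norm h1
      rw [norm_mul, norm_mul, hc, hb, one_mul, one_mul, norm_prod, norm_prod] at this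
      exact this
    rcases lt_trichotomy ‖w‖ 1 with h | h | h
    · exfalso
      have hlt : ∏ i, ‖w - α i‖ < ∏ i, ‖1 - (starRingEnd ℂ) (α i) * w‖ := by
        by_cases hz : ∃ i, w - α i = 0
        · obtain ⟨i, hi⟩ := hz
          rw [Finset.prod_eq_zero (Finset.mem_univ i) (by rw [hi, norm_zero])]
          apply Finset.prod_pos
          intro j _
          exact lt_of_le_of_lt (norm_nonneg _) (norm_lt_of_in (hα j) h)
        · push Not at hz
          apply Finset.prod_lt_prod
          · intro j _; exact norm_pos_iff.mpr (hz j)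
          · intro j _; exact (norm_lt_of_in (hα j) h).le
          · exact ⟨i₀, Finset.mem_univ _, norm_lt_of_in (hα i₀) h⟩
      exact absurd h2 hlt.ne
    · exact h
    · exfalso
      have hlt : ∏ i, ‖1 - (starRingEnd ℂ) (α i) * w‖ < ∏ i, ‖w - α i‖ := by
        by_cases hz : ∃ i, 1 - (starRingEnd ℂ) (α i) * w = 0
        · obtain ⟨i, hi⟩ := hz
          rw [Finset.prod_eq_zero (Finset.mem_univ i) (by rw [hi, norm_zero])]
          apply Finset.prod_pos
          intro j _
          exact lt_of_le_of_lt (norm_nonneg _) (norm_lt_of_out (hα j) h)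
        · push Not at hz
          apply Finset.prod_lt_prod
          · intro j _; exact norm_pos_iff.mpr (hz j)
          · intro j _; exact (norm_lt_of_out (hα j) h).le
          · exact ⟨i₀, Finset.mem_univ _, norm_lt_of_out (hα i₀) h⟩
      exact absurd h2 hlt.ne'
  have hne1 : ∀ w, ‖w‖ = 1 → ∀ i, w - α i ≠ 0 := by
    intro w hw i h
    have : w = α i := by linear_combination h
    have := hα i
    simp_all
  have hne2 : ∀ w, ‖w‖ = 1 → ∀ i, 1 - (starRingEnd ℂ) (α i) * w ≠ 0 := by
    intro w hw i h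
    have h1 : (starRingEnd ℂ) (α i) * w = 1 := by linear_combination -h
    have h2 := congrArg norm h1
    rw [norm_mul, hw, mul_one, RCLike.norm_conj, norm_one] at h2
    linarith [hα i]
  -- roots are simple
  have hsimple : ∀ w, P.eval w = 0 → (derivative P).eval w ≠ 0 := by
    intro w hw hd
    have hw1 := hroot w hw
    have hw0 : w ≠ 0 := by intro h; rw [h] at hw1; simp at hw1
    have hPe : c * N.eval w = b * D.eval w := by
      have : P.eval w = c * N.eval w - b * D.eval w := by simp [hP]
      rw [this] at hw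
      linear_combination hw
    have hdP : (derivative P).eval w = c * (derivative N).eval w - b * (derivative D).eval w := by
      simp [hP]
    have hdN' : (derivative N).eval w = N.eval w * ∑ i, 1 / (w - α i) := by
      rw [hN, deriv_prod _ _ _ (by intro i _; simpa using hne1 w hw1 i), eval_prod]
      simp
    have hdD' : (derivative D).eval w =
        D.eval w * ∑ i, (-(starRingEnd ℂ) (α i)) / (1 - (starRingEnd ℂ) (α i) * w) := by
      rw [hD, deriv_prod _ _ _ (by intro i _; simpa using hne2 w hw1 i), eval_prod]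
      simp
    have hNne : N.eval w ≠ 0 := by
      rw [heN]
      exact Finset.prod_ne_zero_iff.mpr (fun i _ => hne1 w hw1 i)
    have h1 : c * N.eval w * (∑ i, (1 / (w - α i) -
        (-(starRingEnd ℂ) (α i)) / (1 - (starRingEnd ℂ) (α i) * w))) = 0 := by
      rw [Finset.sum_sub_distrib, ← hd, hdP, hdN', hdD']
      linear_combination (-∑ i, (-(starRingEnd ℂ) (α i)) / (1 - (starRingEnd ℂ) (α i) * w)) * hPe
    have h2 : (∑ i, (1 / (w - α i) -
        (-(starRingEnd ℂ) (α i)) / (1 - (starRingEnd ℂ) (α i) * w))) = 0 := by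
      rcases mul_eq_zero.mp h1 with h | h
      · exact absurd h (mul_ne_zero hc0 hNne)
      · exact h
    have h3 : ((∑ i, (1 - ‖α i‖ ^ 2) / ‖w - α i‖ ^ 2 : ℝ) : ℂ) = 0 := by
      push_cast
      have : ∀ i, ((1 - (‖α i‖ : ℂ) ^ 2) / (‖w - α i‖ : ℂ) ^ 2) = w * (1 / (w - α i) -
        (-(starRingEnd ℂ) (α i)) / (1 - (starRingEnd ℂ) (α i) * w)) := by
        intro i
        rw [term_eq (hα i) hw1]
        push_cast
        rfl
      simp_rw [this]
      rw [← Finset.mul_sum, h2, mul_zero]
    have h4 : (∑ i, (1 - ‖α i‖ ^ 2) / ‖w - α i‖ ^ 2 : ℝ) = 0 := by exact_mod_cast h3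
    have h5 : (0 : ℝ) < ∑ i, (1 - ‖α i‖ ^ 2) / ‖w - α i‖ ^ 2 := by
      apply Finset.sum_pos
      · intro i _
        have h6 : 0 < ‖w - α i‖ := norm_pos_iff.mpr (hne1 w hw1 i)
        have h7 : 0 < 1 - ‖α i‖ ^ 2 := by
          have := norm_nonneg (α i)
          nlinarith [hα i]
        positivity
      · exact ⟨i₀, Finset.mem_univ _⟩
    linarith
  have hnodup : P.roots.Nodup := by
    rw [Multiset.nodup_iff_count_le_one]
    intro a
    rw [count_roots]
    by_contra hcon
    push Not at hcon
    rw [one_lt_rootMultiplicity_iff_isRoot hP0] at hcon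
    exact hsimple a hcon.1 hcon.2
  have hcard : P.roots.toFinset.card = n := by
    rw [Multiset.toFinset_card_of_nodup hnodup, IsAlgClosed.card_roots_eq_natDegree, hPd]
  let e := P.roots.toFinset.equivFinOfCardEq hcard
  refine ⟨fun i => (e.symm i : ℂ), fun i j hij => e.symm.injective (Subtype.ext hij), ?_⟩
  intro i
  have hr : P.eval (e.symm i : ℂ) = 0 := by
    have := (e.symm i).2
    rw [Multiset.mem_toFinset, mem_roots hP0] at this
    exact this
  have hw1 := hroot _ hr
  refine ⟨hw1, ?_⟩
  set w : ℂ := (e.symm i : ℂ)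
  rw [hAe w (by rw [mem_closedBall_zero_iff]; exact hw1.le), Finset.prod_div_distrib]
  have hDne : ∏ i, (1 - (starRingEnd ℂ) (α i) * w) ≠ 0 :=
    Finset.prod_ne_zero_iff.mpr (fun i _ => hne2 w hw1 i)
  have : P.eval w = c * N.eval w - b * D.eval w := by simp [hP]
  rw [this, heN, heD] at hr
  rw [← mul_div_assoc, div_eq_iff hDne]
  linear_combination hr

end Pool.Agent.MAT
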