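import Pool.Agent.MAT.T

/-!
# MAT: CLI, inverse branches of iterates (from ROOT, LAB)
-/

set_option autoImplicit false

open Polynomial Metric Set Filter Topology

noncomputable section

namespace Pool.Agent.MAT

/-- CLI: inverse branches of iterates. -/
theorem p_CLI (hROOT : T_ROOT) (hLAB : T_LAB) : T_CLI := by
  intro n A N D R ϕ y δ hn hA hND hS hδ hball hcrit
  obtain ⟨-, -, -, L4, L5, -, L7⟩ := hLAB n A N D R ϕ hn hA hND hS
  have hD : ∀ z, z ∉ Out ϕ → D.eval z ≠ 0 := fun z hz h0 => hz (L7 z h0)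
  intro m
  induction m with
  | zero =>
    intro z₀ _ h0
    refine ⟨fun ζ => ζ, differentiableOn_id, ?_, fun ζ hζ => ⟨hball ζ hζ, rfl⟩⟩
    exact h0.symm
  | succ m ih =>
    intro z₀ hz₀ h0
    have hD0 := hD z₀ hz₀
    have hz1 : rf N D z₀ ∉ Out ϕ := L4 z₀ hz₀ 1
    rw [Function.iterate_succ_apply] at h0
    obtain ⟨h₁, d1, e1, f1⟩ := ih (rf N D z₀) hz1 h0
    have hrf : ∀ z w : ℂ, D.eval z ≠ 0 → N.eval z = w * D.eval z → rf N D z = w := by
      intro z w hz h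
      rw [rf, h, mul_div_cancel_right₀ _ hz]
    have hstart : N.eval z₀ = h₁ y * D.eval z₀ := by
      rw [e1, rf, div_mul_cancel₀ _ hD0]
    have hsimple : ∀ ζ ∈ ball y δ, ∀ z, N.eval z = h₁ ζ * D.eval z →
        (derivative N).eval z - h₁ ζ * (derivative D).eval z ≠ 0 := by
      intro ζ hζ z hz h2
      have hzO : z ∉ Out ϕ := L5 z (h₁ ζ) (f1 ζ hζ).1 hz
      have hwr : (wr N D).eval z = 0 := by
        rw [wr, eval_sub, eval_mul, eval_mul, hz]
        linear_combination D.eval z * h2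
      apply hcrit z hwr hzO (m + 1) (Nat.succ_pos m)
      rw [Function.iterate_succ_apply, hrf z (h₁ ζ) (hD z hzO) hz, (f1 ζ hζ).2]
      exact hζ
    obtain ⟨h, d2, e2, f2⟩ := hROOT n N D (ball y δ) h₁ y z₀ (by omega) hND.monic hND.deg
      hND.dden isOpen_ball (convex_ball y δ) (mem_ball_self hδ) d1 hstart hsimple
    refine ⟨h, d2, e2, fun ζ hζ => ?_⟩
    have hO : h ζ ∉ Out ϕ := L5 (h ζ) (h₁ ζ) (f1 ζ hζ).1 (f2 ζ hζ)
    refine ⟨hO, ?_⟩
    rw [Function.iterate_succ_apply, hrf (h ζ) (h₁ ζ) (hD _ hO) (f2 ζ hζ)]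
    exact (f1 ζ hζ).2

end Pool.Agent.MAT
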