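import Pool.Agent.MAT.TA

/-! MAT, item COMP -/

set_option autoImplicit false

open Polynomial Metric Set Filter Topology

noncomputable section

namespace Pool.Agent.MAT

namespace COMP_

lemma isOpen_pre (P : ℂ[X]) {W : Set ℂ} (hW : IsOpen W) : IsOpen {z | P.eval z ∈ W} :=
  hW.preimage P.continuous

lemma open_image (P : ℂ[X]) (hP : 1 ≤ P.natDegree) {s : Set ℂ} (hs : IsOpen s) :
    IsOpen ((fun z => P.eval z) '' s) := by
  have han : AnalyticOnNhd ℂ (fun z => P.eval z) univ := by
    intro z _
    exact P.differentiable.analyticAt z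
  rcases han.is_constant_or_isOpen isPreconnected_univ with ⟨w, hw⟩ | h
  · exfalso
    have : P = C w := by
      apply Polynomial.funext
      intro z
      rw [eval_C]
      exact hw z (mem_univ z)
    rw [this, natDegree_C] at hP
    omega
  · exact h s (subset_univ s) hs

lemma compact_pre (P : ℂ[X]) (hP : 1 ≤ P.natDegree) (w : ℂ) :
    IsCompact {z | P.eval z ∈ closedBall w 1} := by
  have hdeg : 0 < P.degree := by
    rw [← Polynomial.natDegree_pos_iff_degree_pos]
    omega
  have ht : Tendsto (fun z => ‖P.eval z‖) (cocompact ℂ) atTop :=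
    P.tendsto_norm_atTop hdeg (tendsto_norm_cocompact_atTop (E := ℂ))
  have he := ht.eventually (eventually_gt_atTop (‖w‖ + 1))
  obtain ⟨K, hK, hKs⟩ := mem_cocompact.1 he
  refine hK.of_isClosed_subset (isClosed_closedBall.preimage P.continuous) ?_
  intro z hz
  by_contra hn
  have h1 : ‖w‖ + 1 < ‖P.eval z‖ := hKs hn
  have h2 : ‖P.eval z - w‖ ≤ 1 := by
    have : P.eval z ∈ closedBall w 1 := hz
    rwa [mem_closedBall, dist_eq_norm] at this
  have h3 : ‖P.eval z‖ ≤ ‖P.eval z - w‖ + ‖w‖ := by
    calc ‖P.eval z‖ = ‖(P.eval z - w) + w‖ := by rw [sub_add_cancel]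
      _ ≤ _ := norm_add_le _ _
  linarith

end COMP_

open COMP_ in
theorem p_COMP : T_COMP := by
  intro P hP W hW hWc x hx
  set F : Set ℂ := {z | P.eval z ∈ W} with hF
  have hFo : IsOpen F := isOpen_pre P hW
  set S := connectedComponentIn F x with hS
  have hSo : IsOpen S := hFo.connectedComponentIn
  have hSF : S ⊆ F := connectedComponentIn_subset F x
  have hxS : x ∈ S := mem_connectedComponentIn hx
  have hsub : (fun z => P.eval z) '' S ⊆ W := by
    rintro _ ⟨z, hz, rfl⟩
    exact hSF hz
  refine Subset.antisymm hsub ?_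
  refine hWc.subset_of_closure_inter_subset (open_image P hP hSo) ?_ ?_
  · exact ⟨P.eval x, hx, ⟨x, hxS, rfl⟩⟩
  · rintro w ⟨hw, hwW⟩
    have hK := compact_pre P hP w
    set K := {z | P.eval z ∈ closedBall w 1} with hKdef
    have h1 : w ∈ closure ((fun z => P.eval z) '' (S ∩ K)) := by
      rw [mem_closure_iff_nhds] at hw ⊢
      intro t ht
      obtain ⟨y, hy1, hy2⟩ := hw (t ∩ closedBall w 1)
        (inter_mem ht (closedBall_mem_nhds w one_pos))
      obtain ⟨z, hz, rfl⟩ := hy2
      exact ⟨P.eval z, hy1.1, ⟨z, ⟨hz, hy1.2⟩, rfl⟩⟩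
    have h2 : IsCompact (closure (S ∩ K)) := by
      refine hK.of_isClosed_subset isClosed_closure ?_
      exact closure_minimal inter_subset_right hK.isClosed
    have h3 : IsClosed ((fun z => P.eval z) '' closure (S ∩ K)) :=
      (h2.image P.continuous).isClosed
    have h4 : w ∈ (fun z => P.eval z) '' closure (S ∩ K) :=
      closure_minimal (image_mono subset_closure) h3 h1
    obtain ⟨z, hz, hzw⟩ := h4
    have hzF : z ∈ F := by
      have : P.eval z = w := hzw
      rw [hF, mem_ofPred_eq, this]
      exact hwW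
    have hzS : z ∈ closure S := closure_mono inter_subset_left hz
    have hn : connectedComponentIn F z ∈ 𝓝 z :=
      hFo.connectedComponentIn.mem_nhds (mem_connectedComponentIn hzF)
    obtain ⟨y, hy1, hy2⟩ := mem_closure_iff_nhds.1 hzS _ hn
    have e1 : connectedComponentIn F z = connectedComponentIn F y := connectedComponentIn_eq hy1
    have e2 : connectedComponentIn F x = connectedComponentIn F y := connectedComponentIn_eq hy2
    refine ⟨z, ?_, hzw⟩
    rw [hS, e2, ← e1]
    exact mem_connectedComponentIn hzF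

end Pool.Agent.MAT
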