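import Pool.Agent.MAT.T

/-!
# MAT: COOR, the coordinate `τ` and its limit
-/

set_option autoImplicit false

open Polynomial Metric Set Filter Topology

noncomputable section

namespace Pool.Agent.MAT

namespace COOR_

theorem kap_ne {S : ℝ} (hS : 0 < S) (k : ℕ) : kap S k ≠ 0 := by
  unfold kap
  intro h
  have := congrArg Complex.im h
  simp at this
  exact hS.ne' this

theorem ell_eq (S : ℝ) (k : ℕ) : ell S k = 2 * Real.pi * Complex.I / kap S k := rfl

theorem ell_mul_kap {S : ℝ} (hS : 0 < S) (k : ℕ) :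
    ell S k * kap S k = 2 * Real.pi * Complex.I := by
  rw [ell_eq, div_mul_cancel₀ _ (kap_ne hS k)]

theorem ell_ne {S : ℝ} (hS : 0 < S) (k : ℕ) : ell S k ≠ 0 := by
  rw [ell_eq]
  refine div_ne_zero ?_ (kap_ne hS k)
  have := Real.pi_ne_zero
  simp [this]

theorem ell_re {S : ℝ} (hS : 0 < S) (k : ℕ) : (ell S k).re < 0 := by
  have h1 : (0 : ℝ) < (k : ℝ) ^ 2 + S ^ 2 := by positivity
  have h2 : ((k : ℂ) - S * Complex.I) ≠ 0 := kap_ne hS k
  have h3 : ell S k = ((-(2 * Real.pi * S) / ((k : ℝ) ^ 2 + S ^ 2) : ℝ) : ℂ) +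
      ((2 * Real.pi * k / ((k : ℝ) ^ 2 + S ^ 2) : ℝ) : ℂ) * Complex.I := by
    unfold ell
    rw [div_eq_iff h2]
    have h4 : ((k : ℂ) ^ 2 + (S : ℂ) ^ 2) ≠ 0 := by exact_mod_cast h1.ne'
    push_cast
    field_simp
    ring_nf
    rw [Complex.I_sq]
    ring
  rw [h3]
  simp only [Complex.add_re, Complex.ofReal_re, Complex.mul_re, Complex.I_re, mul_zero,
    Complex.ofReal_im, Complex.I_im, zero_mul, sub_self, add_zero]
  rw [div_neg_iff]
  right
  exact ⟨by have := Real.pi_pos; nlinarith [mul_pos this hS], h1⟩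

theorem exp_ell_ne {S : ℝ} (hS : 0 < S) (k : ℕ) : Complex.exp (ell S k) ≠ 1 := by
  intro h
  have h1 : ‖Complex.exp (ell S k)‖ = 1 := by rw [h]; simp
  rw [Complex.norm_exp] at h1
  have := Real.exp_lt_exp.2 (ell_re hS k)
  rw [h1, Real.exp_zero] at this
  exact lt_irrefl _ this

theorem inv_kap_tendsto (S : ℝ) : Tendsto (fun k : ℕ => (kap S k)⁻¹) atTop (𝓝 0) := by
  have h : Tendsto (fun k : ℕ => ‖kap S k‖) atTop atTop := by
    have h0 : Tendsto (fun k : ℕ => (k : ℝ) - |S|) atTop atTop :=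
      tendsto_atTop_add_const_right _ _ tendsto_natCast_atTop_atTop
    refine tendsto_atTop_mono (fun k => ?_) h0
    have := norm_sub_norm_le (k : ℂ) (S * Complex.I)
    simpa [kap] using this
  rw [tendsto_zero_iff_norm_tendsto_zero]
  have h3 := h.inv_tendsto_atTop
  refine h3.congr (fun k => ?_)
  simp

theorem ell_tendsto (S : ℝ) : Tendsto (fun k : ℕ => ell S k) atTop (𝓝 0) := by
  have := (inv_kap_tendsto S).const_mul (2 * Real.pi * Complex.I)
  rw [mul_zero] at this
  exact this.congr (fun k => by rw [ell_eq, div_eq_mul_inv])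

/-- `k ell / (2 π) → i` -/
theorem k_ell {S : ℝ} (hS : 0 < S) :
    Tendsto (fun k : ℕ => (k : ℂ) * ell S k / (2 * Real.pi)) atTop (𝓝 Complex.I) := by
  have h1 : ∀ k : ℕ, (k : ℂ) * ell S k / (2 * Real.pi) =
      Complex.I + (S * Complex.I) * Complex.I * (kap S k)⁻¹ := by
    intro k
    have h2 := kap_ne hS k
    have h3 : (k : ℂ) = kap S k + S * Complex.I := by unfold kap; ring
    have h4 : (Real.pi : ℂ) ≠ 0 := by exact_mod_cast Real.pi_ne_zero
    rw [ell_eq, h3]
    field_simp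
  have h5 := ((inv_kap_tendsto S).const_mul ((S * Complex.I) * Complex.I)).const_add Complex.I
  rw [mul_zero, add_zero] at h5
  exact h5.congr (fun k => (h1 k).symm)

/-- difference quotient of `exp` at `0` -/
theorem exp_quot {l : Filter ℕ} {y : ℕ → ℂ} (hy : Tendsto y l (𝓝 0)) (hy0 : ∀ᶠ k in l, y k ≠ 0) :
    Tendsto (fun k => (1 - Complex.exp (y k)) / y k) l (𝓝 (-1)) := by
  have h1 : HasDerivAt Complex.exp 1 0 := by simpa using Complex.hasDerivAt_exp 0
  have h2 := (hasDerivAt_iff_tendsto_slope.1 h1).comp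
    (tendsto_nhdsWithin_iff.2 ⟨hy, hy0⟩)
  refine h2.neg.congr (fun k => ?_)
  simp only [Function.comp_apply, slope_def_field, Complex.exp_zero, sub_zero]
  rw [← neg_div, neg_sub]

/-- difference quotient of `log` at `1` -/
theorem log_quot {l : Filter ℕ} {x : ℕ → ℂ} (hx : Tendsto x l (𝓝 0)) (hx0 : ∀ᶠ k in l, x k ≠ 0) :
    Tendsto (fun k => Complex.log (1 - x k) / x k) l (𝓝 (-1)) := by
  have h1 : HasDerivAt (fun x : ℂ => Complex.log (1 - x)) (-1) 0 := by
    have h3 : HasDerivAt (fun x : ℂ => 1 - x) (-1) 0 := by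
      simpa using (hasDerivAt_id (0 : ℂ)).const_sub 1
    have := h3.clog (by simp [Complex.slitPlane])
    simpa using this
  have h2 := (hasDerivAt_iff_tendsto_slope.1 h1).comp
    (tendsto_nhdsWithin_iff.2 ⟨hx, hx0⟩)
  refine h2.congr (fun k => ?_)
  simp only [Function.comp_apply, slope_def_field, Complex.log_one, sub_zero]

section

variable {e : ℂ → ℂ} {r S : ℝ} {l : Filter ℕ} {ek : ℕ → ℂ → ℂ} {pk : ℕ → ℂ}

theorem ell_l (h : PD l S r e ek pk) : Tendsto (fun k : ℕ => ell S k) l (𝓝 0) :=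
  (ell_tendsto S).mono_left h.hl

theorem pk_ne (h : PD l S r e ek pk) : ∀ᶠ k in l, pk k ≠ 0 := by
  filter_upwards [h.mult] with k hk h0
  rw [h0, zero_mul, sub_zero] at hk
  exact exp_ell_ne h.hS k hk.symm

/-- the three estimates of RESA, eventually, for every `ε` -/
theorem res (hRESA : T_RESA) (h : PD l S r e ek pk) : ∃ C : ℝ, 0 < C ∧ ∀ ε : ℝ, 0 < ε →
    ∀ᶠ k in l, ‖rhoc (ell S k) (pk k) (ek k) - (1 - deriv e 0)‖ ≤ C * (‖pk k‖ + ε) ∧
      ‖pk k + ell S k‖ ≤ C * ‖ell S k‖ * (‖ell S k‖ + ε) := by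
  obtain ⟨C, δ, hC, hδ, H⟩ := hRESA e r h.hr h.e_hol h.e_zero
  refine ⟨C, hC, fun ε hε => ?_⟩
  have h1 : ∀ᶠ k in l, ‖ell S k‖ ≤ δ := by
    have := (tendsto_zero_iff_norm_tendsto_zero.1 (ell_l h))
    filter_upwards [this.eventually (gt_mem_nhds hδ)] with k hk using hk.le
  have h2 : ∀ᶠ k in l, ‖pk k‖ ≤ δ := by
    have := (tendsto_zero_iff_norm_tendsto_zero.1 h.pk_lim)
    filter_upwards [this.eventually (gt_mem_nhds hδ)] with k hk using hk.le
  have h3 := (Metric.tendstoUniformlyOn_iff.1 h.ek_lim) (min ε δ) (lt_min hε hδ)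
  filter_upwards [h1, h2, h3, h.ek_hol, h.mult, pk_ne h] with k k1 k2 k3 k4 k5 k6
  have k7 : ∀ z ∈ ball (0 : ℂ) r, ‖ek k z - e z‖ ≤ min ε δ := by
    intro z hz
    have := (k3 z hz).le
    rwa [dist_eq_norm, norm_sub_rev] at this
  obtain ⟨a1, a2, -⟩ := H (pk k) (ell S k) (ek k) (min ε δ) k4 k7 (min_le_right _ _) k6 k1 k2
    k5.symm
  refine ⟨a1.trans ?_, a2.trans ?_⟩
  · exact mul_le_mul_of_nonneg_left (by linarith [min_le_left ε δ]) hC.le
  · exact mul_le_mul_of_nonneg_left (by linarith [min_le_left ε δ]) (by positivity)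

theorem rho_lim (hRESA : T_RESA) (h : PD l S r e ek pk) :
    Tendsto (fun k => rhoc (ell S k) (pk k) (ek k)) l (𝓝 (1 - deriv e 0)) := by
  obtain ⟨C, hC, H⟩ := res hRESA h
  rw [Metric.tendsto_nhds]
  intro ε hε
  have h2 := (tendsto_zero_iff_norm_tendsto_zero.1 h.pk_lim).eventually
    (gt_mem_nhds (show (0 : ℝ) < ε / (4 * C) by positivity))
  filter_upwards [H (ε / (4 * C)) (by positivity), h2] with k k1 k2
  rw [dist_eq_norm]
  have h3 : C * (‖pk k‖ + ε / (4 * C)) < ε := by
    have : C * (‖pk k‖ + ε / (4 * C)) < C * (ε / (4 * C) + ε / (4 * C)) :=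
      mul_lt_mul_of_pos_left (by linarith) hC
    have h4 : C * (ε / (4 * C) + ε / (4 * C)) = ε / 2 := by field_simp; ring
    linarith
  exact lt_of_le_of_lt k1.1 h3

theorem p_ell (hRESA : T_RESA) (h : PD l S r e ek pk) :
    Tendsto (fun k => pk k / ell S k) l (𝓝 (-1)) := by
  obtain ⟨C, hC, H⟩ := res hRESA h
  rw [Metric.tendsto_nhds]
  intro ε hε
  have h2 := (tendsto_zero_iff_norm_tendsto_zero.1 (ell_l h)).eventually
    (gt_mem_nhds (show (0 : ℝ) < ε / (4 * C) by positivity))
  filter_upwards [H (ε / (4 * C)) (by positivity), h2] with k k1 k2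
  rw [dist_eq_norm]
  have h3 : C * (‖ell S k‖ + ε / (4 * C)) < ε := by
    have : C * (‖ell S k‖ + ε / (4 * C)) < C * (ε / (4 * C) + ε / (4 * C)) :=
      mul_lt_mul_of_pos_left (by linarith) hC
    have h4 : C * (ε / (4 * C) + ε / (4 * C)) = ε / 2 := by field_simp; ring
    linarith
  have hl := ell_ne h.hS k
  have hl' : 0 < ‖ell S k‖ := norm_pos_iff.2 hl
  have h5 : pk k / ell S k - -1 = (pk k + ell S k) / ell S k := by field_simp; ring
  rw [h5, norm_div, div_lt_iff₀ hl']
  calc ‖pk k + ell S k‖ ≤ C * ‖ell S k‖ * (‖ell S k‖ + ε / (4 * C)) := k1.2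
    _ = (C * (‖ell S k‖ + ε / (4 * C))) * ‖ell S k‖ := by ring
    _ < ε * ‖ell S k‖ := mul_lt_mul_of_pos_right h3 hl'

end

end COOR_

open COOR_ in
theorem p_COOR (hRESA : T_RESA) : T_COOR := by
  intro e r S l ek pk h
  have hrho := rho_lim hRESA h
  have hpe := p_ell hRESA h
  have hell := ell_l h
  have hpn := pk_ne h
  refine ⟨?_, ?_, ?_, ?_⟩
  · intro zk z hz z0
    have hzn : ∀ᶠ k in l, zk k ≠ 0 := hz.eventually_ne z0
    have hx : Tendsto (fun k => pk k / zk k) l (𝓝 0) := by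
      have := h.pk_lim.div hz z0
      rwa [zero_div] at this
    have hx0 : ∀ᶠ k in l, pk k / zk k ≠ 0 := by
      filter_upwards [hpn, hzn] with k k1 k2 using div_ne_zero k1 k2
    have hx1 : ∀ᶠ k in l, 1 - pk k / zk k ≠ 0 := by
      have : Tendsto (fun k => 1 - pk k / zk k) l (𝓝 (1 - 0)) := hx.const_sub 1
      exact this.eventually_ne (by simp)
    refine ⟨fun k => -(Complex.log (1 - pk k / zk k)) / ell S k, ?_, ?_⟩
    · filter_upwards [hpn, hzn, hx1] with k k1 k2 k3
      unfold Zc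
      have e1 : -(ell S k * (-(Complex.log (1 - pk k / zk k)) / ell S k)) =
          Complex.log (1 - pk k / zk k) := by
        have := ell_ne h.hS k
        field_simp
      rw [e1, Complex.exp_log k3, sub_sub_cancel]
      field_simp
    · have h1 := (log_quot hx hx0).neg
      have h2 := (hpe.div hz z0)
      have h3 := h1.mul h2
      have h4 : - -1 * (-1 / z) = -1 / z := by ring
      rw [h4] at h3
      refine h3.congr' ?_
      filter_upwards [hpn, hzn] with k k1 k2
      have := ell_ne h.hS k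
      simp only [Pi.div_apply]
      field_simp
  · intro τk τ hτ τ0
    have hτn : ∀ᶠ k in l, τk k ≠ 0 := hτ.eventually_ne τ0
    refine ⟨?_, ?_⟩
    · have hy : Tendsto (fun k => -(ell S k * τk k)) l (𝓝 0) := by
        have := (hell.mul hτ).neg
        simpa using this
      have hy0 : ∀ᶠ k in l, -(ell S k * τk k) ≠ 0 := by
        filter_upwards [hτn] with k k1
        exact neg_ne_zero.2 (mul_ne_zero (ell_ne h.hS k) k1)
      have h1 := exp_quot hy hy0
      have h2 := (hpe.div hτ τ0).neg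
      have h3 := h2.div h1 (by norm_num)
      have h4 : -(-1 / τ) / -1 = -1 / τ := by ring
      rw [h4] at h3
      refine h3.congr' ?_
      filter_upwards [hτn] with k k1
      have k2 := ell_ne h.hS k
      unfold Zc
      simp only [Pi.div_apply]
      field_simp
    · refine Eventually.of_forall (fun k => ?_)
      unfold Zc
      have h1 : -(ell S k * (τk k + kap S k)) = -(ell S k * τk k) - 2 * Real.pi * Complex.I := by
        rw [mul_add, ell_mul_kap h.hS]; ring
      rw [h1, Complex.exp_sub, Complex.exp_two_pi_mul_I, div_one]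
  · intro τk τ hτ hs
    have τ0 : τ ≠ 0 := by
      rintro rfl
      simp at hs
    have hτn : ∀ᶠ k in l, τk k ≠ 0 := hτ.eventually_ne τ0
    refine ⟨?_, ?_⟩
    · have hy : Tendsto (fun k => ell S k * τk k) l (𝓝 0) := by
        have := hell.mul hτ
        simpa using this
      have hy0 : ∀ᶠ k in l, ell S k * τk k ≠ 0 := by
        filter_upwards [hτn] with k k1
        exact mul_ne_zero (ell_ne h.hS k) k1
      have h1 := exp_quot hy hy0
      have h2 := (h1.mul hτ).mul ((k_ell h.hS).mono_left h.hl)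
      have h4 : -1 * τ * Complex.I = -(Complex.I * τ) := by ring
      rw [h4] at h2
      have h5 := hτ.sub (hrho.mul (h2.clog hs))
      refine h5.congr' ?_
      have hk0 : ∀ᶠ k in l, k ≠ 0 := h.hl (eventually_ne_atTop 0)
      filter_upwards [hτn, hy0, hk0, h2.eventually_ne (Complex.slitPlane_ne_zero hs)] with
        k k1 k2 k3 k4
      have hkp : (0 : ℝ) < 2 * Real.pi / k := by
        have : (0 : ℝ) < k := by exact_mod_cast Nat.pos_of_ne_zero k3
        positivity
      have hpi : (Real.pi : ℂ) ≠ 0 := by exact_mod_cast Real.pi_ne_zero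
      have hkc : (k : ℂ) ≠ 0 := by exact_mod_cast k3
      have e1 : 1 - Complex.exp (ell S k * τk k) = ((2 * Real.pi / k : ℝ) : ℂ) *
          ((1 - Complex.exp (ell S k * τk k)) / (ell S k * τk k) * τk k *
            ((k : ℂ) * ell S k / (2 * Real.pi))) := by
        have := ell_ne h.hS k
        push_cast
        field_simp
      have e2 : Complex.log (1 - Complex.exp (ell S k * τk k)) = Real.log (2 * Real.pi / k) +
          Complex.log ((1 - Complex.exp (ell S k * τk k)) / (ell S k * τk k) * τk k *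
            ((k : ℂ) * ell S k / (2 * Real.pi))) := by
        rw [← Complex.log_ofReal_mul hkp k4, ← e1]
      unfold Omc
      rw [e2]
      ring
    · refine Eventually.of_forall (fun k => ?_)
      unfold Omc
      have h1 : ell S k * (τk k + kap S k) = ell S k * τk k + 2 * Real.pi * Complex.I := by
        rw [mul_add, ell_mul_kap h.hS]
      rw [h1, Complex.exp_add, Complex.exp_two_pi_mul_I, mul_one]
      ring
  · refine ⟨‖1 - deriv e 0‖ + 1, ?_⟩
    filter_upwards [hrho.norm.eventually (gt_mem_nhds (lt_add_one ‖1 - deriv e 0‖))] with k hk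
      using hk.le

end Pool.Agent.MAT
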