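import Pool.Agent.MAT.T

/-!
# MAT, target CRA: the derivative of the iterates is small compared with the distance
-/

set_option autoImplicit false

open Polynomial Metric Set Filter Topology

noncomputable section

namespace Pool.Agent.MAT

namespace CRA_

/-- comparison of two real sequences -/
theorem comp (ρ σ x : ℕ → ℝ) (β C : ℝ) (hβ : 0 < β) (hC : 0 < C) (hρ : ∀ m, 0 ≤ ρ m)
    (hσ : ∀ m, 0 < σ m) (hx : ∀ m, 0 ≤ x m) (hx0 : Tendsto x atTop (𝓝 0))
    (hσ0 : Tendsto σ atTop (𝓝 0))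
    (h1 : ∀ᶠ m in atTop, ρ (m + 1) ≤ ρ m * (1 - β * x m))
    (h2 : ∀ᶠ m in atTop, σ m * (1 - C * x m) ≤ σ (m + 1)) :
    Tendsto ρ atTop (𝓝 0) := by
  obtain ⟨k, hk⟩ := exists_nat_ge (2 * C / β)
  have hkβ : 2 * C ≤ k * β := by rwa [div_le_iff₀ hβ] at hk
  have hk0 : k ≠ 0 := by
    rintro rfl
    simp at hkβ
    linarith
  have h3 : ∀ᶠ m in atTop, C * x m < 1 / 2 := by
    have : Tendsto (fun m => C * x m) atTop (𝓝 (C * 0)) := hx0.const_mul C
    rw [mul_zero] at this
    exact this.eventually (gt_mem_nhds (by norm_num))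
  have h4 : ∀ᶠ m in atTop, β * x m < 1 := by
    have : Tendsto (fun m => β * x m) atTop (𝓝 (β * 0)) := hx0.const_mul β
    rw [mul_zero] at this
    exact this.eventually (gt_mem_nhds (by norm_num))
  obtain ⟨M, hM⟩ := eventually_atTop.1 (h1.and (h2.and (h3.and h4)))
  have hstep : ∀ m, M ≤ m → ρ m ^ k * σ M ≤ ρ M ^ k * σ m := by
    intro m hm
    induction m, hm using Nat.le_induction with
    | base => exact le_rfl
    | succ m hm ih =>
      obtain ⟨a1, a2, a3, a4⟩ := hM m hm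
      have b0 : 0 ≤ 1 - β * x m := by linarith
      have bx : 0 ≤ β * x m := mul_nonneg hβ.le (hx m)
      have cx : 0 ≤ C * x m := mul_nonneg hC.le (hx m)
      have b1 : (1 - β * x m) ^ k ≤ 1 - C * x m := by
        have e1 : 1 + (k : ℝ) * (β * x m) ≤ (1 + β * x m) ^ k :=
          one_add_mul_le_pow (by linarith) k
        have e2 : (1 - β * x m) ^ k * (1 + β * x m) ^ k ≤ 1 := by
          rw [← mul_pow]
          refine pow_le_one₀ ?_ ?_
          · exact mul_nonneg b0 (by linarith)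
          · nlinarith
        have e3 : (1 - β * x m) ^ k * (1 + 2 * (C * x m)) ≤ 1 := by
          have e4 : 1 + 2 * (C * x m) ≤ 1 + (k : ℝ) * (β * x m) := by
            have := mul_le_mul_of_nonneg_right hkβ (hx m)
            linarith
          calc (1 - β * x m) ^ k * (1 + 2 * (C * x m))
              ≤ (1 - β * x m) ^ k * (1 + β * x m) ^ k :=
                mul_le_mul_of_nonneg_left (e4.trans e1) (pow_nonneg b0 k)
            _ ≤ 1 := e2
        have e5 : 1 ≤ (1 - C * x m) * (1 + 2 * (C * x m)) := by nlinarith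
        have e6 : 0 < 1 + 2 * (C * x m) := by linarith
        exact le_of_mul_le_mul_right (e3.trans e5) e6
      have b2 : ρ (m + 1) ^ k ≤ (ρ m * (1 - β * x m)) ^ k := pow_le_pow_left₀ (hρ _) a1 k
      calc ρ (m + 1) ^ k * σ M ≤ (ρ m * (1 - β * x m)) ^ k * σ M :=
            mul_le_mul_of_nonneg_right b2 (hσ M).le
        _ = (ρ m ^ k * σ M) * (1 - β * x m) ^ k := by rw [mul_pow]; ring
        _ ≤ (ρ M ^ k * σ m) * (1 - C * x m) := by
            refine mul_le_mul ih b1 (pow_nonneg b0 k) ?_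
            exact mul_nonneg (pow_nonneg (hρ M) k) (hσ m).le
        _ = ρ M ^ k * (σ m * (1 - C * x m)) := by ring
        _ ≤ ρ M ^ k * σ (m + 1) := mul_le_mul_of_nonneg_left a2 (pow_nonneg (hρ M) k)
  rw [Metric.tendsto_atTop]
  intro δ hδ
  have hlim : Tendsto (fun m => ρ M ^ k * σ m / σ M) atTop (𝓝 0) := by
    have h := (hσ0.const_mul (ρ M ^ k)).div_const (σ M)
    rw [mul_zero, zero_div] at h
    exact h
  obtain ⟨M', hM'⟩ := eventually_atTop.1 (hlim.eventually (gt_mem_nhds (pow_pos hδ k)))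
  refine ⟨max M M', fun m hm => ?_⟩
  have c1 := hM' m (le_of_max_le_right hm)
  have c2 := hstep m (le_of_max_le_left hm)
  rw [Real.dist_eq, sub_zero, abs_of_nonneg (hρ m)]
  have c3 : ρ m ^ k ≤ ρ M ^ k * σ m / σ M := by
    rw [le_div_iff₀ (hσ M)]
    exact c2
  exact lt_of_pow_lt_pow_left₀ k hδ.le (c3.trans_lt c1)

/-- the formula of `N / D` -/
theorem rf_eq {N D P : ℂ[X]} {p : ℂ} {ν : ℕ} (h : N - X * D = (X - C p) ^ (ν + 1) * P) {z : ℂ}
    (hz : D.eval z ≠ 0) : rf N D z = z + (z - p) ^ (ν + 1) * rf P D z := by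
  have h1 := congrArg (Polynomial.eval z) h
  simp only [eval_sub, eval_mul, eval_X, eval_pow, eval_C] at h1
  unfold rf
  field_simp
  linear_combination h1

theorem rf_diff (P D : ℂ[X]) : DifferentiableOn ℂ (rf P D) {w | D.eval w ≠ 0} := by
  intro w hw
  exact ((P.differentiable w).div (D.differentiable w) hw).differentiableWithinAt

theorem isOpen_ne (D : ℂ[X]) : IsOpen {w : ℂ | D.eval w ≠ 0} :=
  isOpen_ne_fun D.continuous continuous_const

/-- the derivative of `N / D` -/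
theorem rf_der {N D P : ℂ[X]} {p : ℂ} {ν : ℕ} (h : N - X * D = (X - C p) ^ (ν + 1) * P) {z : ℂ}
    (hz : D.eval z ≠ 0) : HasDerivAt (rf N D) (1 + ((ν + 1 : ℕ) * (z - p) ^ ν * rf P D z +
      (z - p) ^ (ν + 1) * deriv (rf P D) z)) z := by
  have h1 : HasDerivAt (rf P D) (deriv (rf P D) z) z :=
    ((rf_diff P D).differentiableAt ((isOpen_ne D).mem_nhds hz)).hasDerivAt
  have h2 : HasDerivAt (fun w : ℂ => (w - p) ^ (ν + 1)) ((ν + 1 : ℕ) * (z - p) ^ ν) z := by
    have := ((hasDerivAt_id z).sub_const p).fun_pow (ν + 1)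
    simpa using this
  have h3 := (hasDerivAt_id z).add (h2.mul h1)
  refine h3.congr_of_eventuallyEq ?_
  filter_upwards [(isOpen_ne D).mem_nhds hz] with w hw
  rw [rf_eq h hw]
  rfl

end CRA_

open CRA_ in
theorem p_CRA (hCSE : T_CSE) : T_CRA := by
  intro n ν N D P p ε hdeg hν hP hPp hDp hε ha
  obtain ⟨r, c, hr, -, hS, hT, -⟩ := hCSE n ν N D P p ε hdeg hν hP hPp hDp hε ha
  refine ⟨r, hr, fun z hz => ?_⟩
  have hε0 : ε ≠ 0 := by
    rintro rfl
    simp at hε
  have hne : ∀ w ∈ Sect p ε ν r, w ≠ p := by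
    rintro w ⟨t, rfl, ht, -⟩ h
    have : ε * t = 0 := by linear_combination h
    rcases mul_eq_zero.1 this with h | h
    · exact hε0 h
    · exact ht h
  set g : ℂ → ℂ := rf N D with hg
  have hmem : ∀ m : ℕ, g^[m] z ∈ Sect p ε ν r := by
    intro m
    induction m with
    | zero => exact hz
    | succ m ih =>
      rw [Function.iterate_succ_apply']
      exact (hS _ ih).2
  obtain ⟨hlim, hdir⟩ := hT z hz
  -- the quantities
  set q : ℂ → ℂ := rf P D with hq
  set q' : ℂ → ℂ := deriv (rf P D) with hq'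
  set g' : ℂ → ℂ := fun w => 1 + ((ν + 1 : ℕ) * (w - p) ^ ν * q w + (w - p) ^ (ν + 1) * q' w)
    with hg'
  have hderg : ∀ m : ℕ, HasDerivAt g (g' (g^[m] z)) (g^[m] z) := fun m =>
    rf_der hP (hS _ (hmem m)).1
  have hder : ∀ m : ℕ, HasDerivAt (g^[m]) (∏ j ∈ Finset.range m, g' (g^[j] z)) z := by
    intro m
    induction m with
    | zero =>
      simp only [Finset.range_zero, Finset.prod_empty]
      exact hasDerivAt_id z
    | succ m ih =>
      rw [Finset.prod_range_succ, mul_comm, Function.iterate_succ']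
      exact (hderg m).comp z ih
  set s : ℕ → ℂ := fun m => g^[m] z - p with hs
  have hs0 : ∀ m, s m ≠ 0 := fun m => sub_ne_zero.2 (hne _ (hmem m))
  have hσ : ∀ m, 0 < ‖s m‖ := fun m => norm_pos_iff.2 (hs0 m)
  have hsucc : ∀ m, s (m + 1) = s m * (1 + s m ^ ν * q (g^[m] z)) := by
    intro m
    have h1 := rf_eq hP (hS _ (hmem m)).1
    simp only [hs, Function.iterate_succ_apply']
    rw [hg, h1, ← hg]
    ring
  have hfac : ∀ m, (1 + s m ^ ν * q (g^[m] z)) ≠ 0 := by
    intro m h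
    apply hs0 (m + 1)
    rw [hsucc, h, mul_zero]
  -- the quotient function
  set W : ℂ → ℂ := fun w => (ν * q w + (w - p) * q' w) / (1 + (w - p) ^ ν * q w) with hW
  have hqa : AnalyticAt ℂ q p := (rf_diff P D).analyticAt ((isOpen_ne D).mem_nhds hDp)
  have hqc : ContinuousAt q p := hqa.continuousAt
  have hqc' : ContinuousAt q' p := hqa.deriv.continuousAt
  have hν0 : ν ≠ 0 := by omega
  have hWc : ContinuousAt W p := by
    refine ContinuousAt.div ?_ ?_ ?_
    · exact (continuousAt_const.mul hqc).add ((continuousAt_id.sub continuousAt_const).mul hqc')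
    · exact continuousAt_const.add
        (((continuousAt_id.sub continuousAt_const).pow ν).mul hqc)
    · simp [hν0]
  have hWp : W p = ν * q p := by simp [hW, hν0]
  have hlim' : Tendsto (fun m : ℕ => g^[m] z) atTop (𝓝 p) := hlim
  have hWlim : Tendsto (fun m : ℕ => W (g^[m] z)) atTop (𝓝 (ν * q p)) := by
    rw [← hWp]
    exact hWc.tendsto.comp hlim'
  have hqlim : Tendsto (fun m : ℕ => q (g^[m] z)) atTop (𝓝 (q p)) := hqc.tendsto.comp hlim'
  have hslim : Tendsto (fun m : ℕ => ‖s m‖) atTop (𝓝 0) := by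
    have := (hlim'.sub_const p).norm
    simpa using this
  have hdir' : Tendsto (fun m : ℕ => s m / (‖s m‖ : ℂ)) atTop (𝓝 ε) := by
    refine hdir.congr (fun m => ?_)
    simp only [hs]
  set b : ℝ := ν * ‖q p‖ with hb
  have hqp : q p ≠ 0 := div_ne_zero hPp hDp
  have hb0 : 0 < b := by
    have : (0 : ℝ) < ν := by exact_mod_cast (by omega : 0 < ν)
    exact mul_pos this (norm_pos_iff.2 hqp)
  have hwlim : Tendsto (fun m : ℕ => (s m / (‖s m‖ : ℂ)) ^ ν * W (g^[m] z)) atTop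
      (𝓝 (-(b : ℂ))) := by
    have h := (hdir'.pow ν).mul hWlim
    have h2 : ε ^ ν * (ν * q p) = -(b : ℂ) := by
      have h3 : q p * ε ^ ν = -(‖q p‖ : ℝ) := ha
      calc ε ^ ν * (ν * q p) = ν * (q p * ε ^ ν) := by ring
        _ = -(b : ℂ) := by rw [h3, hb]; push_cast; ring
    rw [h2] at h
    exact h
  -- the eventual inequalities
  have hx0 : Tendsto (fun m : ℕ => ‖s m‖ ^ ν) atTop (𝓝 0) := by
    have := hslim.pow ν
    rwa [zero_pow hν0] at this
  have hquot : ∀ m : ℕ, g' (g^[m] z) * s m / s (m + 1) =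
      1 + (‖s m‖ ^ ν : ℝ) * ((s m / (‖s m‖ : ℂ)) ^ ν * W (g^[m] z)) := by
    intro m
    have h1 := hfac m
    have h2 := hs0 m
    have h3 : (‖s m‖ : ℂ) ≠ 0 := by
      exact_mod_cast (hσ m).ne'
    have h4 : ((‖s m‖ ^ ν : ℝ) : ℂ) * ((s m / (‖s m‖ : ℂ)) ^ ν * W (g^[m] z)) =
        s m ^ ν * W (g^[m] z) := by
      rw [div_pow]
      push_cast
      field_simp
    rw [h4, hsucc m]
    have h5 : g^[m] z - p = s m := rfl
    simp only [hg', hW, h5]
    rw [div_eq_iff (mul_ne_zero h2 h1)]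
    field_simp
    push_cast
    ring
  have hmain := comp (fun m => ‖deriv (g^[m]) z‖ / ‖s m‖) (fun m => ‖s m‖)
    (fun m => ‖s m‖ ^ ν) (b / 2) (‖q p‖ + 1) (by positivity) (by positivity)
    (fun m => by positivity) hσ (fun m => by positivity) hx0 hslim ?_ ?_
  · exact hmain
  · have e1 : ∀ᶠ m in atTop, ‖(s m / (‖s m‖ : ℂ)) ^ ν * W (g^[m] z) + b‖ < b / 2 := by
      have h := (hwlim.add_const (b : ℂ)).norm
      rw [neg_add_cancel, norm_zero] at h
      exact h.eventually (gt_mem_nhds (by positivity))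
    have e2 : ∀ᶠ m in atTop, ‖s m‖ ^ ν * b < 1 := by
      have h := hx0.mul_const b
      rw [zero_mul] at h
      exact h.eventually (gt_mem_nhds (by norm_num))
    filter_upwards [e1, e2] with m h1 h2
    have h3 : ‖g' (g^[m] z) * s m / s (m + 1)‖ ≤ 1 - b / 2 * ‖s m‖ ^ ν := by
      rw [hquot m]
      set w : ℂ := (s m / (‖s m‖ : ℂ)) ^ ν * W (g^[m] z) with hw
      set x : ℝ := ‖s m‖ ^ ν with hx
      have hx1 : 0 ≤ x := by positivity
      have h4 : (1 : ℂ) + (x : ℂ) * w = ((1 - x * b : ℝ) : ℂ) + (x : ℂ) * (w + b) := by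
        push_cast
        ring
      rw [h4]
      refine (norm_add_le _ _).trans ?_
      rw [Complex.norm_real, norm_mul, Complex.norm_real, Real.norm_of_nonneg (by linarith),
        Real.norm_of_nonneg hx1]
      have h5 : x * ‖w + b‖ ≤ x * (b / 2) := mul_le_mul_of_nonneg_left h1.le hx1
      linarith
    have h6 : deriv (g^[m + 1]) z = g' (g^[m] z) * deriv (g^[m]) z := by
      rw [(hder (m + 1)).deriv, (hder m).deriv, Finset.prod_range_succ, mul_comm]
    show ‖deriv (g^[m + 1]) z‖ / ‖s (m + 1)‖ ≤ ‖deriv (g^[m]) z‖ / ‖s m‖ *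
      (1 - b / 2 * ‖s m‖ ^ ν)
    have h7 : ‖deriv (g^[m + 1]) z‖ / ‖s (m + 1)‖ = ‖deriv (g^[m]) z‖ / ‖s m‖ *
        ‖g' (g^[m] z) * s m / s (m + 1)‖ := by
      rw [h6, norm_div, norm_mul, norm_mul]
      have := (hσ m).ne'
      have := (hσ (m + 1)).ne'
      field_simp
    rw [h7]
    exact mul_le_mul_of_nonneg_left h3 (by positivity)
  · have e1 : ∀ᶠ m in atTop, ‖q (g^[m] z)‖ < ‖q p‖ + 1 :=
      hqlim.norm.eventually (gt_mem_nhds (by linarith))
    filter_upwards [e1] with m h1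
    show ‖s m‖ * (1 - (‖q p‖ + 1) * ‖s m‖ ^ ν) ≤ ‖s (m + 1)‖
    rw [hsucc m, norm_mul]
    refine mul_le_mul_of_nonneg_left ?_ (norm_nonneg _)
    have h2 : ‖(1 : ℂ)‖ - ‖s m ^ ν * q (g^[m] z)‖ ≤ ‖1 + s m ^ ν * q (g^[m] z)‖ := by
      have := norm_sub_norm_le (1 : ℂ) (-(s m ^ ν * q (g^[m] z)))
      rw [norm_neg, sub_neg_eq_add] at this
      exact this
    refine le_trans ?_ h2
    rw [norm_one, norm_mul, norm_pow]
    have h3 : ‖s m‖ ^ ν * ‖q (g^[m] z)‖ ≤ ‖s m‖ ^ ν * (‖q p‖ + 1) :=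
      mul_le_mul_of_nonneg_left h1.le (by positivity)
    linarith

end Pool.Agent.MAT
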