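import Pool.Agent.MAT.T

set_option autoImplicit false

open Polynomial Metric Set Filter Topology

noncomputable section

namespace Pool.Agent.MAT

namespace CSE_

lemma arg_pow_of_lt (t : ℂ) (n : ℕ) (h : |(n : ℝ) * Complex.arg t| < Real.pi) :
    Complex.arg (t ^ n) = n * Complex.arg t := by
  have h1 : ((Complex.arg (t ^ n) : ℝ) : Real.Angle) =
      (((n : ℝ) * Complex.arg t : ℝ) : Real.Angle) := by
    rw [Complex.arg_pow_coe_angle, ← Real.Angle.coe_nsmul, nsmul_eq_mul]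
  have h2 := congrArg Real.Angle.toReal h1
  rw [Complex.arg_coe_angle_toReal_eq_arg, Real.Angle.toReal_coe_eq_self_iff_mem_Ioc.2] at h2
  · exact h2
  · exact ⟨(abs_lt.1 h).1, (abs_lt.1 h).2.le⟩

/-- the number `tan (π / 8)` -/
def kt : ℝ := Real.tan (Real.pi / 8)

lemma kt_gt : (1 : ℝ) / 4 < kt := by
  have h1 := Real.pi_gt_three
  have h2 := Real.lt_tan (x := Real.pi / 8) (by linarith) (by linarith)
  unfold kt
  linarith

lemma kt_lt : kt < 1 := by
  have h1 := Real.pi_gt_three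
  have h2 : Real.tan (Real.pi / 8) < Real.tan (Real.pi / 4) :=
    Real.tan_lt_tan_of_lt_of_lt_pi_div_two (by linarith) (by linarith) (by linarith)
  rw [Real.tan_pi_div_four] at h2
  exact h2

/-- the sector `|arg w| < π / 8` in coordinates -/
def SecU (w : ℂ) : Prop := |w.im| < kt * w.re

lemma SecU.re_pos {w : ℂ} (h : SecU w) : 0 < w.re := by
  have h1 : 0 < kt * w.re := lt_of_le_of_lt (abs_nonneg _) h
  have h2 : 0 < kt := by linarith [kt_gt]
  exact (pos_iff_pos_of_mul_pos h1).1 h2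

lemma abs_tan {x : ℝ} (h : |x| < Real.pi / 2) : |Real.tan x| = Real.tan |x| := by
  rcases le_total 0 x with hx | hx
  · rw [abs_of_nonneg hx] at h ⊢
    exact abs_of_nonneg (Real.tan_nonneg_of_nonneg_of_le_pi_div_two hx h.le)
  · rw [abs_of_nonpos hx] at h ⊢
    rw [Real.tan_neg]
    refine abs_of_nonpos ?_
    have := Real.tan_nonneg_of_nonneg_of_le_pi_div_two (x := -x) (by linarith) h.le
    rw [Real.tan_neg] at this
    linarith

lemma secU_iff {w : ℂ} (hw : w ≠ 0) : |Complex.arg w| < Real.pi / 8 ↔ SecU w := by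
  have hpi := Real.pi_gt_three
  have key : 0 < w.re → (Real.tan |Complex.arg w| = |w.im| / w.re) := by
    intro hre
    have h1 : |Complex.arg w| < Real.pi / 2 := Complex.abs_arg_lt_pi_div_two_iff.2 (Or.inl hre)
    rw [← abs_tan h1, Complex.tan_arg, abs_div, abs_of_pos hre]
  constructor
  · intro h
    have hre : 0 < w.re := by
      have h1 : |Complex.arg w| < Real.pi / 2 := by linarith
      rcases Complex.abs_arg_lt_pi_div_two_iff.1 h1 with h2 | h2
      · exact h2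
      · exact absurd h2 hw
    have h2 : Real.tan |Complex.arg w| < Real.tan (Real.pi / 8) :=
      Real.tan_lt_tan_of_lt_of_lt_pi_div_two (by linarith [abs_nonneg (Complex.arg w)])
        (by linarith) h
    rw [key hre, div_lt_iff₀ hre] at h2
    exact h2
  · intro h
    have hre := h.re_pos
    by_contra hcon
    push Not at hcon
    have h1 : |Complex.arg w| < Real.pi / 2 := Complex.abs_arg_lt_pi_div_two_iff.2 (Or.inl hre)
    have h2 : Real.tan (Real.pi / 8) ≤ Real.tan |Complex.arg w| := by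
      rcases hcon.eq_or_lt with h3 | h3
      · rw [← h3]
      · exact (Real.tan_lt_tan_of_lt_of_lt_pi_div_two (by linarith) h1 h3).le
    rw [key hre, le_div_iff₀ hre] at h2
    exact absurd h (not_lt.2 h2)

lemma secU_inv {w : ℂ} (hw : w ≠ 0) : SecU w⁻¹ ↔ SecU w := by
  have h1 : 0 < Complex.normSq w := Complex.normSq_pos.2 hw
  unfold SecU
  rw [Complex.inv_im, Complex.inv_re, abs_div, abs_neg, abs_of_pos h1, mul_div_assoc',
    div_lt_div_iff_of_pos_right h1]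

lemma secU_mul {w : ℂ} {b : ℝ} (hb : 0 < b) : SecU ((b : ℂ) * w) ↔ SecU w := by
  unfold SecU
  rw [Complex.re_ofReal_mul, Complex.im_ofReal_mul, abs_mul, abs_of_pos hb,
    show kt * (b * w.re) = b * (kt * w.re) by ring]
  exact mul_lt_mul_iff_right₀ hb

lemma secU_step {T e : ℂ} (h : SecU T) (he : ‖e‖ ≤ 1 / 100) : SecU (T + 1 + e) := by
  have h1 : |e.re| ≤ 1 / 100 := (Complex.abs_re_le_norm e).trans he
  have h2 : |e.im| ≤ 1 / 100 := (Complex.abs_im_le_norm e).trans he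
  have h3 := kt_gt
  unfold SecU at h ⊢
  simp only [Complex.add_re, Complex.add_im, Complex.one_re, Complex.one_im, add_zero]
  have h4 : |T.im + e.im| ≤ |T.im| + |e.im| := abs_add_le _ _
  have h5 : -(1 / 100) ≤ e.re := (abs_le.1 h1).1
  have h6 : kt * (99 / 100) ≤ kt * (1 + e.re) :=
    mul_le_mul_of_nonneg_left (by linarith) (by linarith)
  have h7 : kt * (T.re + 1 + e.re) = kt * T.re + kt * (1 + e.re) := by ring
  rw [h7]
  linarith

lemma norm_step {T e : ℂ} (h : SecU T) (he : ‖e‖ ≤ 1 / 100) : ‖T‖ ≤ ‖T + 1 + e‖ := by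
  have h1 : |e.re| ≤ 1 / 100 := (Complex.abs_re_le_norm e).trans he
  have h2 : |e.im| ≤ 1 / 100 := (Complex.abs_im_le_norm e).trans he
  have h0 := h.re_pos
  have h3 := kt_lt
  have h4 : |T.im| < T.re := by
    unfold SecU at h
    nlinarith
  have h5 : -(1 / 100) ≤ e.re := (abs_le.1 h1).1
  have h6 : |T.im * e.im| ≤ T.re * (1 / 100) := by
    rw [abs_mul]
    exact mul_le_mul h4.le h2 (abs_nonneg _) h0.le
  have h7 := (abs_le.1 h6).1
  refine (pow_le_pow_iff_left₀ (norm_nonneg _) (norm_nonneg _) two_ne_zero).1 ?_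
  rw [← Complex.normSq_eq_norm_sq, ← Complex.normSq_eq_norm_sq, Complex.normSq_apply,
    Complex.normSq_apply]
  simp only [Complex.add_re, Complex.add_im, Complex.one_re, Complex.one_im, add_zero]
  nlinarith [sq_nonneg (1 + e.re), sq_nonneg e.im, mul_nonneg h0.le (by linarith : (0:ℝ) ≤ e.re + 1 / 100)]

lemma asym (ν : ℕ) (hν : 1 ≤ ν) (α : ℝ) (hα : 0 < α) (ψ : ℂ → ℂ)
    (hψ : Tendsto ψ (𝓝 0) (𝓝 (-(α : ℂ)))) :
    Tendsto (fun t : ℂ => (((ν * α : ℝ) : ℂ) * (t * (1 + t ^ ν * ψ t)) ^ ν)⁻¹ -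
      (((ν * α : ℝ) : ℂ) * t ^ ν)⁻¹ - 1) (𝓝[≠] 0) (𝓝 0) := by
  set f : ℂ → ℂ := fun x => ((1 + x) ^ ν)⁻¹ with hf
  have hd : HasDerivAt f (-(ν : ℂ)) 0 := by
    have h1 : HasDerivAt (fun x : ℂ => 1 + x) 1 0 := by
      simpa using (hasDerivAt_id (0 : ℂ)).const_add 1
    have h2 := h1.pow ν
    have h3 := h2.inv (by simp)
    refine h3.congr_deriv ?_
    simp
  have hc : ContinuousAt (dslope f 0) 0 := continuousAt_dslope_same.2 hd.differentiableAt
  have hν0 : (ν : ℂ) ≠ 0 := by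
    have : ν ≠ 0 := by omega
    exact_mod_cast this
  have hα0 : (α : ℂ) ≠ 0 := by exact_mod_cast hα.ne'
  have hx : Tendsto (fun t : ℂ => t ^ ν * ψ t) (𝓝 0) (𝓝 0) := by
    have h1 : Tendsto (fun t : ℂ => t ^ ν) (𝓝 0) (𝓝 ((0 : ℂ) ^ ν)) :=
      (continuous_pow ν).tendsto 0
    have h2 := h1.mul hψ
    rw [zero_pow (by omega), zero_mul] at h2
    exact h2
  have hG : Tendsto (fun t : ℂ => dslope f 0 (t ^ ν * ψ t)) (𝓝 0) (𝓝 (-(ν : ℂ))) := by
    have h1 : Tendsto (dslope f 0) (𝓝 0) (𝓝 (-(ν : ℂ))) := by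
      have h2 := hc.tendsto
      rw [dslope_same, hd.deriv] at h2
      exact h2
    exact h1.comp hx
  have hlim : Tendsto (fun t : ℂ => (((ν * α : ℝ) : ℂ))⁻¹ * (ψ t * dslope f 0 (t ^ ν * ψ t)) - 1)
      (𝓝 0) (𝓝 ((((ν * α : ℝ) : ℂ))⁻¹ * (-(α : ℂ) * (-(ν : ℂ))) - 1)) :=
    ((hψ.mul hG).const_mul _).sub_const 1
  have hval : (((ν * α : ℝ) : ℂ))⁻¹ * (-(α : ℂ) * (-(ν : ℂ))) - 1 = 0 := by
    push_cast
    field_simp
    ring
  rw [hval] at hlim
  refine (hlim.mono_left nhdsWithin_le_nhds).congr' ?_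
  filter_upwards [self_mem_nhdsWithin] with t ht
  have ht0 : t ≠ 0 := ht
  have h1 := sub_smul_dslope f 0 (t ^ ν * ψ t)
  have h2 : f (t ^ ν * ψ t) - f 0 = ((1 + t ^ ν * ψ t) ^ ν)⁻¹ - 1 := by simp [hf]
  rw [h2, smul_eq_mul, sub_zero] at h1
  have h3 : (((ν * α : ℝ) : ℂ) * (t * (1 + t ^ ν * ψ t)) ^ ν)⁻¹ - (((ν * α : ℝ) : ℂ) * t ^ ν)⁻¹ =
      (((ν * α : ℝ) : ℂ))⁻¹ * (t ^ ν)⁻¹ * (((1 + t ^ ν * ψ t) ^ ν)⁻¹ - 1) := by
    rw [mul_pow, mul_inv, mul_inv, mul_inv]
    ring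
  rw [h3, ← h1]
  have h4 : (t ^ ν)⁻¹ * (t ^ ν * ψ t * dslope f 0 (t ^ ν * ψ t)) =
      ψ t * dslope f 0 (t ^ ν * ψ t) := by
    have h5 : t ^ ν ≠ 0 := pow_ne_zero _ ht0
    rw [mul_assoc, ← mul_assoc, inv_mul_cancel₀ h5, one_mul]
  rw [mul_assoc, h4]

/-- the `T` coordinate -/
def TC (ν : ℕ) (α : ℝ) (t : ℂ) : ℂ := (((ν * α : ℝ) : ℂ) * t ^ ν)⁻¹

/-- the dynamics in the coordinate `t` -/
def ft (ν : ℕ) (ψ : ℂ → ℂ) (t : ℂ) : ℂ := t * (1 + t ^ ν * ψ t)

/-- the sector in the coordinate `t` -/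
def St (ν : ℕ) (r : ℝ) : Set ℂ := {t | t ≠ 0 ∧ ‖t‖ < r ∧ |Complex.arg t| < Real.pi / (8 * ν)}

lemma small_arg {ν : ℕ} (hν : 1 ≤ ν) {t : ℂ} (h : |Complex.arg t| < Real.pi / 2 / ν) :
    Complex.arg (t ^ ν) = ν * Complex.arg t := by
  have hν' : (0 : ℝ) < ν := by exact_mod_cast (by omega : 0 < ν)
  apply arg_pow_of_lt
  rw [abs_mul, abs_of_pos hν']
  rw [lt_div_iff₀ hν'] at h
  have := Real.pi_pos
  nlinarith

lemma arg_iff_TC {ν : ℕ} (hν : 1 ≤ ν) {α : ℝ} (hα : 0 < α) {t : ℂ} (ht : t ≠ 0)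
    (h : |Complex.arg t| < Real.pi / 2 / ν) :
    |Complex.arg t| < Real.pi / (8 * ν) ↔ SecU (TC ν α t) := by
  have hν' : (0 : ℝ) < ν := by exact_mod_cast (by omega : 0 < ν)
  have hb : 0 < (ν : ℝ) * α := mul_pos hν' hα
  have hb' : ((ν * α : ℝ) : ℂ) ≠ 0 := by exact_mod_cast hb.ne'
  unfold TC
  rw [secU_inv (mul_ne_zero hb' (pow_ne_zero _ ht)), secU_mul hb, ← secU_iff (pow_ne_zero _ ht),
    small_arg hν h, abs_mul, abs_of_pos hν', lt_div_iff₀ (by positivity)]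
  constructor
  · intro h1
    linarith
  · intro h1
    linarith

lemma arg_TC {ν : ℕ} (hν : 1 ≤ ν) {α : ℝ} (hα : 0 < α) {t : ℂ}
    (h : |Complex.arg t| < Real.pi / 2 / ν) :
    Complex.arg (TC ν α t) = -(ν * Complex.arg t) := by
  have hν' : (0 : ℝ) < ν := by exact_mod_cast (by omega : 0 < ν)
  have hb : 0 < (ν : ℝ) * α := mul_pos hν' hα
  have h1 : Complex.arg (((ν * α : ℝ) : ℂ) * t ^ ν) = ν * Complex.arg t := by
    rw [Complex.arg_real_mul _ hb, small_arg hν h]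
  unfold TC
  rw [Complex.arg_inv, h1, if_neg]
  intro h2
  rw [lt_div_iff₀ hν'] at h
  have h3 := le_abs_self (Complex.arg t)
  have := Real.pi_pos
  nlinarith

lemma step (ν : ℕ) (hν : 1 ≤ ν) (α : ℝ) (hα : 0 < α) (ψ : ℂ → ℂ)
    (hψ : Tendsto ψ (𝓝 0) (𝓝 (-(α : ℂ)))) :
    ∃ r₀ : ℝ, 0 < r₀ ∧ ∀ r : ℝ, r ≤ r₀ → ∀ t ∈ St ν r, ft ν ψ t ∈ St ν r ∧
      ‖TC ν α (ft ν ψ t) - TC ν α t - 1‖ ≤ 1 / 100 := by
  have hν' : (0 : ℝ) < ν := by exact_mod_cast (by omega : 0 < ν)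
  have hb : 0 < (ν : ℝ) * α := mul_pos hν' hα
  have hpi := Real.pi_pos
  have hA := asym ν hν α hα ψ hψ
  have hx : Tendsto (fun t : ℂ => 1 + t ^ ν * ψ t) (𝓝 0) (𝓝 1) := by
    have h1 : Tendsto (fun t : ℂ => t ^ ν) (𝓝 0) (𝓝 ((0 : ℂ) ^ ν)) :=
      (continuous_pow ν).tendsto 0
    have h2 := (h1.mul hψ).const_add 1
    rw [zero_pow (by omega), zero_mul, add_zero] at h2
    exact h2
  have hq : Tendsto (fun t : ℂ => Complex.arg (1 + t ^ ν * ψ t)) (𝓝 0) (𝓝 0) := by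
    have h1 : ContinuousAt Complex.arg 1 := Complex.continuousAt_arg (by simp)
    have h2 := h1.tendsto.comp hx
    rw [Complex.arg_one] at h2
    exact h2
  have e1 : ∀ᶠ t : ℂ in 𝓝[≠] 0, ‖TC ν α (ft ν ψ t) - TC ν α t - 1‖ ≤ 1 / 100 := by
    have h1 := hA.norm
    rw [norm_zero] at h1
    exact h1.eventually (Iic_mem_nhds (by norm_num))
  have e2 : ∀ᶠ t : ℂ in 𝓝[≠] 0, |Complex.arg (1 + t ^ ν * ψ t)| < Real.pi / (8 * ν) := by
    have h1 := (Tendsto.mono_left hq (nhdsWithin_le_nhds (s := {(0 : ℂ)}ᶜ))).abs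
    rw [abs_zero] at h1
    exact h1.eventually (Iio_mem_nhds (by positivity))
  have e3 : ∀ᶠ t : ℂ in 𝓝[≠] 0, 1 + t ^ ν * ψ t ≠ 0 := by
    have h1 : Tendsto (fun t : ℂ => 1 + t ^ ν * ψ t) (𝓝[≠] 0) (𝓝 1) :=
      hx.mono_left nhdsWithin_le_nhds
    exact h1.eventually_ne one_ne_zero
  have e := e1.and (e2.and e3)
  rw [eventually_nhdsWithin_iff, Metric.eventually_nhds_iff] at e
  obtain ⟨r₀, hr₀, h⟩ := e
  refine ⟨r₀, hr₀, ?_⟩
  intro r hr t ht
  obtain ⟨ht0, htr, hta⟩ := ht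
  obtain ⟨k1, k2, k3⟩ := h (by rw [dist_zero_right]; linarith) ht0
  have hft0 : ft ν ψ t ≠ 0 := mul_ne_zero ht0 k3
  have hpi8 : Real.pi / (8 * ν) ≤ Real.pi / 8 := by
    apply div_le_div_of_nonneg_left hpi.le (by norm_num)
    have : (1 : ℝ) ≤ ν := by exact_mod_cast hν
    linarith
  have hfarg : Complex.arg (ft ν ψ t) = Complex.arg t + Complex.arg (1 + t ^ ν * ψ t) := by
    unfold ft
    apply Complex.arg_mul ht0 k3
    have h1 := abs_lt.1 hta
    have h2 := abs_lt.1 k2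
    constructor
    · linarith
    · linarith
  have hfarg2 : |Complex.arg (ft ν ψ t)| < Real.pi / 2 / ν := by
    rw [hfarg]
    have h1 := abs_add_le (Complex.arg t) (Complex.arg (1 + t ^ ν * ψ t))
    have h2 : Real.pi / 2 / ν = Real.pi / (8 * ν) * 4 := by
      field_simp
      ring
    rw [h2]
    have h3 : 0 < Real.pi / (8 * ν) := by positivity
    linarith
  have htarg2 : |Complex.arg t| < Real.pi / 2 / ν := by
    have h2 : Real.pi / 2 / ν = Real.pi / (8 * ν) * 4 := by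
      field_simp
      ring
    rw [h2]
    have h3 : 0 < Real.pi / (8 * ν) := by positivity
    linarith
  have hsec : SecU (TC ν α t) := (arg_iff_TC hν hα ht0 htarg2).1 hta
  have hTeq : TC ν α (ft ν ψ t) = TC ν α t + 1 + (TC ν α (ft ν ψ t) - TC ν α t - 1) := by ring
  have hsec' : SecU (TC ν α (ft ν ψ t)) := by
    rw [hTeq]
    exact secU_step hsec k1
  have hnorm : ‖TC ν α t‖ ≤ ‖TC ν α (ft ν ψ t)‖ := by
    rw [hTeq]
    exact norm_step hsec k1
  refine ⟨⟨hft0, ?_, (arg_iff_TC hν hα hft0 hfarg2).2 hsec'⟩, k1⟩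
  have h1 : ‖ft ν ψ t‖ ^ ν ≤ ‖t‖ ^ ν := by
    unfold TC at hnorm
    rw [norm_inv, norm_inv, norm_mul, norm_mul, norm_pow, norm_pow, Complex.norm_real,
      Real.norm_of_nonneg hb.le] at hnorm
    have h2 : 0 < ‖t‖ := norm_pos_iff.2 ht0
    have h3 : 0 < ‖ft ν ψ t‖ := norm_pos_iff.2 hft0
    rw [inv_le_inv₀ (by positivity) (by positivity)] at hnorm
    exact le_of_mul_le_mul_left hnorm hb
  have h2 : ‖ft ν ψ t‖ ≤ ‖t‖ :=
    (pow_le_pow_iff_left₀ (norm_nonneg _) (norm_nonneg _) (by omega)).1 h1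
  linarith

lemma iter (ν : ℕ) (hν : 1 ≤ ν) (α : ℝ) (hα : 0 < α) (ψ : ℂ → ℂ)
    (hψ : Tendsto ψ (𝓝 0) (𝓝 (-(α : ℂ)))) (r : ℝ)
    (hr : ∀ t ∈ St ν r, ft ν ψ t ∈ St ν r ∧ ‖TC ν α (ft ν ψ t) - TC ν α t - 1‖ ≤ 1 / 100)
    (t : ℂ) (ht : t ∈ St ν r) :
    (∀ m : ℕ, (ft ν ψ)^[m] t ∈ St ν r) ∧ Tendsto (fun m : ℕ => (ft ν ψ)^[m] t) atTop (𝓝 0) ∧
    Tendsto (fun m : ℕ => Complex.arg ((ft ν ψ)^[m] t)) atTop (𝓝 0) := by
  have hν' : (0 : ℝ) < ν := by exact_mod_cast (by omega : 0 < ν)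
  have hb : 0 < (ν : ℝ) * α := mul_pos hν' hα
  have hpi := Real.pi_pos
  have hmem : ∀ m : ℕ, (ft ν ψ)^[m] t ∈ St ν r := by
    intro m
    induction m with
    | zero => exact ht
    | succ m ih =>
      rw [Function.iterate_succ_apply']
      exact (hr _ ih).1
  set s : ℕ → ℂ := fun m => (ft ν ψ)^[m] t with hs
  set T : ℕ → ℂ := fun m => TC ν α (s m) with hT
  set e : ℕ → ℂ := fun m => T (m + 1) - T m - 1 with he
  have hs1 : ∀ m, s (m + 1) = ft ν ψ (s m) := fun m => Function.iterate_succ_apply' _ _ _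
  have he1 : ∀ m, ‖e m‖ ≤ 1 / 100 := by
    intro m
    have h1 := (hr _ (hmem m)).2
    have h2 : e m = TC ν α (ft ν ψ (s m)) - TC ν α (s m) - 1 := by
      simp only [he, hT, hs1]
    rw [h2]
    exact h1
  have hsum : ∀ m : ℕ, T m = T 0 + m + ∑ j ∈ Finset.range m, e j := by
    intro m
    induction m with
    | zero => simp
    | succ m ih =>
      rw [Finset.sum_range_succ]
      have h1 : T (m + 1) = T m + 1 + e m := by
        simp only [he]
        ring
      rw [h1, ih]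
      push_cast
      ring
  have hre : ∀ m : ℕ, (T 0).re + (99 / 100) * m ≤ (T m).re := by
    intro m
    rw [hsum m, Complex.add_re, Complex.add_re, Complex.natCast_re, Complex.re_sum]
    have h1 : ∑ j ∈ Finset.range m, -(1 / 100 : ℝ) ≤ ∑ j ∈ Finset.range m, (e j).re := by
      apply Finset.sum_le_sum
      intro j _
      have h2 := (Complex.abs_re_le_norm (e j)).trans (he1 j)
      exact (abs_le.1 h2).1
    rw [Finset.sum_const, Finset.card_range, nsmul_eq_mul] at h1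
    linarith
  have hTnorm : Tendsto (fun m => ‖T m‖) atTop atTop := by
    apply tendsto_atTop_mono (f := fun m : ℕ => (T 0).re + (99 / 100) * m)
    · intro m
      exact (hre m).trans (Complex.re_le_norm _)
    · apply tendsto_atTop_add_const_left
      exact tendsto_natCast_atTop_atTop.const_mul_atTop (by norm_num)
  have hs0 : ∀ m, s m ≠ 0 := fun m => (hmem m).1
  have hspow : Tendsto (fun m => ‖s m‖ ^ ν) atTop (𝓝 0) := by
    have h1 : ∀ m, ‖s m‖ ^ ν = (ν * α)⁻¹ * (‖T m‖)⁻¹ := by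
      intro m
      simp only [hT, TC]
      rw [norm_inv, norm_mul, norm_pow, Complex.norm_real, Real.norm_of_nonneg hb.le, inv_inv,
        ← mul_assoc, inv_mul_cancel₀ hb.ne', one_mul]
    simp_rw [h1]
    have h2 := (tendsto_inv_atTop_zero.comp hTnorm).const_mul (ν * α)⁻¹
    rw [mul_zero] at h2
    exact h2
  have hst : Tendsto s atTop (𝓝 0) := by
    rw [tendsto_zero_iff_norm_tendsto_zero]
    rw [Metric.tendsto_atTop] at hspow ⊢
    intro ε hε
    obtain ⟨M, hM⟩ := hspow (ε ^ ν) (by positivity)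
    refine ⟨M, fun m hm => ?_⟩
    have h1 := hM m hm
    rw [dist_zero_right, Real.norm_of_nonneg (by positivity)] at h1 ⊢
    exact lt_of_pow_lt_pow_left₀ ν hε.le h1
  have het : Tendsto e atTop (𝓝 0) := by
    have h1 := asym ν hν α hα ψ hψ
    have h2 : Tendsto s atTop (𝓝[≠] 0) := by
      rw [tendsto_nhdsWithin_iff]
      exact ⟨hst, Eventually.of_forall hs0⟩
    have h3 := h1.comp h2
    refine h3.congr ?_
    intro m
    simp only [he, hT, hs1, TC, ft, Function.comp]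
  have hces : Tendsto (fun m : ℕ => ((m : ℝ)⁻¹ : ℝ) • T m) atTop (𝓝 1) := by
    have h1 := het.cesaro_smul
    have h2 : Tendsto (fun m : ℕ => ((m : ℝ)⁻¹ : ℝ) • T 0) atTop (𝓝 0) := by
      have h3 := (tendsto_inv_atTop_zero.comp
        (tendsto_natCast_atTop_atTop (R := ℝ))).smul_const (T 0)
      rw [zero_smul] at h3
      exact h3
    have h3 := (h2.add_const 1).add h1
    rw [zero_add, add_zero] at h3
    refine h3.congr' ?_
    filter_upwards [eventually_gt_atTop 0] with m hm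
    rw [hsum m, smul_add, smul_add]
    have h4 : ((m : ℝ)⁻¹ : ℝ) • (m : ℂ) = 1 := by
      rw [Complex.real_smul]
      push_cast
      exact inv_mul_cancel₀ (by exact_mod_cast hm.ne')
    rw [h4]
  have hargT : Tendsto (fun m : ℕ => Complex.arg (T m)) atTop (𝓝 0) := by
    have h1 : ContinuousAt Complex.arg 1 := Complex.continuousAt_arg (by simp)
    have h2 := h1.tendsto.comp hces
    rw [Complex.arg_one] at h2
    refine h2.congr' ?_
    filter_upwards [eventually_gt_atTop 0] with m hm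
    simp only [Function.comp]
    rw [Complex.real_smul, Complex.arg_real_mul]
    have : (0 : ℝ) < m := by exact_mod_cast hm
    positivity
  refine ⟨hmem, hst, ?_⟩
  have h1 : ∀ m, Complex.arg (s m) = -(ν : ℝ)⁻¹ * Complex.arg (T m) := by
    intro m
    have h2 : |Complex.arg (s m)| < Real.pi / 2 / ν := by
      have h3 := (hmem m).2.2
      have h4 : Real.pi / 2 / ν = Real.pi / (8 * ν) * 4 := by
        field_simp
        ring
      rw [h4]
      have h5 : 0 < Real.pi / (8 * ν) := by positivity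
      linarith
    simp only [hT]
    rw [arg_TC hν hα h2]
    field_simp
  have h2 := hargT.const_mul (-(ν : ℝ)⁻¹)
  rw [mul_zero] at h2
  exact h2.congr fun m => (h1 m).symm

lemma div_norm (t : ℂ) (ht : t ≠ 0) :
    t / (‖t‖ : ℂ) = Complex.exp (Complex.arg t * Complex.I) := by
  have h1 := Complex.norm_mul_exp_arg_mul_I t
  have h2 : ((‖t‖ : ℝ) : ℂ) ≠ 0 := by exact_mod_cast (norm_pos_iff.2 ht).ne'
  rw [div_eq_iff h2, mul_comm]
  exact h1.symm

lemma rf_eq (ν : ℕ) (N D P : ℂ[X]) (p ε t : ℂ) (hP : N - X * D = (X - C p) ^ (ν + 1) * P)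
    (hD : D.eval (p + ε * t) ≠ 0) :
    rf N D (p + ε * t) = p + ε * ft ν (fun s => ε ^ ν * (P.eval (p + ε * s) /
      D.eval (p + ε * s))) t := by
  have h1 := congrArg (fun Q : ℂ[X] => Q.eval (p + ε * t)) hP
  simp only [eval_sub, eval_mul, eval_X, eval_pow, eval_C] at h1
  have h2 : N.eval (p + ε * t) = (p + ε * t) * D.eval (p + ε * t) +
      (p + ε * t - p) ^ (ν + 1) * P.eval (p + ε * t) := by
    linear_combination h1
  unfold rf ft
  rw [h2, add_sub_cancel_left]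
  field_simp
  ring

end CSE_

open CSE_ in
/-- CSE (the sector of an attracting direction) -/
theorem p_CSE : T_CSE := by
  intro n ν N D P p ε _ hν hP hPp hDp hε hdir
  have hν' : (0 : ℝ) < ν := by exact_mod_cast (by omega : 0 < ν)
  have hpi := Real.pi_pos
  set α : ℝ := ‖P.eval p / D.eval p‖ with hα
  have hα0 : 0 < α := norm_pos_iff.2 (div_ne_zero hPp hDp)
  have hε0 : ε ≠ 0 := by
    intro h
    rw [h, norm_zero] at hε
    exact zero_ne_one hε
  set ψ : ℂ → ℂ := fun s => ε ^ ν * (P.eval (p + ε * s) / D.eval (p + ε * s)) with hψd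
  have hlin : Tendsto (fun s : ℂ => p + ε * s) (𝓝 0) (𝓝 p) := by
    have : Continuous (fun s : ℂ => p + ε * s) := by fun_prop
    have h1 := this.tendsto 0
    simpa using h1
  have hψ : Tendsto ψ (𝓝 0) (𝓝 (-(α : ℂ))) := by
    have h1 : Tendsto (fun s : ℂ => P.eval (p + ε * s)) (𝓝 0) (𝓝 (P.eval p)) :=
      (P.continuous.tendsto p).comp hlin
    have h2 : Tendsto (fun s : ℂ => D.eval (p + ε * s)) (𝓝 0) (𝓝 (D.eval p)) :=
      (D.continuous.tendsto p).comp hlin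
    have h3 := (h1.div h2 hDp).const_mul (ε ^ ν)
    have h4 : ε ^ ν * (P.eval p / D.eval p) = -(α : ℂ) := by
      rw [mul_comm]
      exact hdir
    rw [h4] at h3
    exact h3
  obtain ⟨r₀, hr₀, hstep⟩ := step ν hν α hα0 ψ hψ
  have hDev : ∀ᶠ s : ℂ in 𝓝 0, D.eval (p + ε * s) ≠ 0 :=
    ((D.continuous.tendsto p).comp hlin).eventually_ne hDp
  rw [Metric.eventually_nhds_iff] at hDev
  obtain ⟨r₁, hr₁, hDev⟩ := hDev
  set r := min r₀ r₁ with hr
  have hr0 : 0 < r := lt_min hr₀ hr₁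
  have hst := hstep r (min_le_left _ _)
  have hsect : ∀ z, z ∈ Sect p ε ν r ↔ ∃ t ∈ St ν r, z = p + ε * t := by
    intro z
    constructor
    · rintro ⟨t, h1, h2, h3, h4⟩
      exact ⟨t, ⟨h2, h3, h4⟩, h1⟩
    · rintro ⟨t, ⟨h2, h3, h4⟩, h1⟩
      exact ⟨t, h1, h2, h3, h4⟩
  have hDne : ∀ t ∈ St ν r, D.eval (p + ε * t) ≠ 0 := by
    intro t ht
    apply hDev
    rw [dist_zero_right]
    exact lt_of_lt_of_le ht.2.1 (min_le_right _ _)
  have hrf : ∀ t ∈ St ν r, rf N D (p + ε * t) = p + ε * ft ν ψ t := fun t ht =>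
    rf_eq ν N D P p ε t hP (hDne t ht)
  have hiter : ∀ t ∈ St ν r, ∀ m : ℕ, (rf N D)^[m] (p + ε * t) = p + ε * (ft ν ψ)^[m] t := by
    intro t ht m
    have hm := (iter ν hν α hα0 ψ hψ r hst t ht).1
    induction m with
    | zero => rfl
    | succ m ih =>
      rw [Function.iterate_succ_apply', ih, hrf _ (hm m), Function.iterate_succ_apply']
  -- the constant `c`
  have hcont : ContinuousAt Complex.arg 1 := Complex.continuousAt_arg (by simp)
  have hcev : ∀ᶠ x : ℂ in 𝓝 1, |Complex.arg x| < Real.pi / (16 * ν) := by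
    have h1 := hcont.tendsto.abs
    rw [Complex.arg_one, abs_zero] at h1
    exact h1.eventually (Iio_mem_nhds (by positivity))
  rw [Metric.eventually_nhds_iff] at hcev
  obtain ⟨c₀, hc₀, hcev⟩ := hcev
  set c := min c₀ (1 / 2) with hc
  have hc0 : 0 < c := lt_min hc₀ (by norm_num)
  refine ⟨r, c, hr0, hc0, ?_, ?_, ?_⟩
  · intro z hz
    obtain ⟨t, ht, rfl⟩ := (hsect z).1 hz
    refine ⟨hDne t ht, ?_⟩
    rw [hrf t ht]
    exact (hsect _).2 ⟨_, (hst t ht).1, rfl⟩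
  · intro z hz
    obtain ⟨t, ht, rfl⟩ := (hsect z).1 hz
    obtain ⟨hm, h0, ha⟩ := iter ν hν α hα0 ψ hψ r hst t ht
    constructor
    · have h1 := (h0.const_mul ε).const_add p
      rw [mul_zero, add_zero] at h1
      exact h1.congr fun m => (hiter t ht m).symm
    · have h1 : Tendsto (fun m : ℕ => ε * Complex.exp (Complex.arg ((ft ν ψ)^[m] t) * Complex.I))
          atTop (𝓝 (ε * Complex.exp (((0 : ℝ) : ℂ) * Complex.I))) := by
        have h2 : Continuous (fun x : ℝ => ε * Complex.exp ((x : ℂ) * Complex.I)) := by fun_prop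
        exact (h2.tendsto 0).comp ha
      have h3 : ε * Complex.exp (((0 : ℝ) : ℂ) * Complex.I) = ε := by simp
      rw [h3] at h1
      refine h1.congr ?_
      intro m
      rw [hiter t ht m, add_sub_cancel_left, norm_mul, hε, one_mul, mul_div_assoc,
        div_norm _ (hm m).1]
  · intro z hz
    obtain ⟨t, ht, rfl⟩ := (hsect z).1 hz
    obtain ⟨hm, h0, ha⟩ := iter ν hν α hα0 ψ hψ r hst t ht
    have e1 : ∀ᶠ m : ℕ in atTop, ‖(ft ν ψ)^[m] t‖ < r / 2 := by
      have h1 := h0.norm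
      rw [norm_zero] at h1
      exact h1.eventually (Iio_mem_nhds (by positivity))
    have e2 : ∀ᶠ m : ℕ in atTop, |Complex.arg ((ft ν ψ)^[m] t)| < Real.pi / (16 * ν) := by
      have h1 := ha.abs
      rw [abs_zero] at h1
      exact h1.eventually (Iio_mem_nhds (by positivity))
    obtain ⟨M, hM⟩ := eventually_atTop.1 (e1.and e2)
    refine ⟨M, fun m hmM => ?_⟩
    obtain ⟨k1, k2⟩ := hM m hmM
    intro y hy
    rw [mem_ball, hiter t ht m] at hy
    set s := (ft ν ψ)^[m] t with hs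
    have hs0 : s ≠ 0 := (hm m).1
    have hsn : 0 < ‖s‖ := norm_pos_iff.2 hs0
    rw [add_sub_cancel_left, norm_mul, hε, one_mul, dist_eq_norm] at hy
    -- `y = p + ε * s * (1 + δ)`
    set δ : ℂ := (y - (p + ε * s)) / (ε * s) with hδ
    have hεs : ε * s ≠ 0 := mul_ne_zero hε0 hs0
    have hδn : ‖δ‖ < c := by
      rw [hδ, norm_div, norm_mul, hε, one_mul, div_lt_iff₀ hsn]
      exact hy
    have hyeq : y = p + ε * (s * (1 + δ)) := by
      rw [hδ]
      field_simp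
      ring
    have hδ2 : ‖δ‖ < 1 / 2 := lt_of_lt_of_le hδn (min_le_right _ _)
    have h1δ : 1 + δ ≠ 0 := by
      intro h
      have h1 : δ = -1 := by linear_combination h
      rw [h1, norm_neg, norm_one] at hδ2
      norm_num at hδ2
    have hargδ : |Complex.arg (1 + δ)| < Real.pi / (16 * ν) := by
      apply hcev
      rw [dist_eq_norm, add_sub_cancel_left]
      exact lt_of_lt_of_le hδn (min_le_left _ _)
    have hpi16 : Real.pi / (16 * ν) ≤ Real.pi / 16 := by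
      apply div_le_div_of_nonneg_left hpi.le (by norm_num)
      have : (1 : ℝ) ≤ ν := by exact_mod_cast hν
      linarith
    rw [hsect]
    refine ⟨s * (1 + δ), ⟨mul_ne_zero hs0 h1δ, ?_, ?_⟩, hyeq⟩
    · rw [norm_mul]
      have h1 : ‖1 + δ‖ ≤ 1 + ‖δ‖ := by
        have := norm_add_le (1 : ℂ) δ
        rwa [norm_one] at this
      nlinarith [norm_nonneg δ]
    · rw [Complex.arg_mul hs0 h1δ]
      · have h1 := abs_add_le (Complex.arg s) (Complex.arg (1 + δ))
        have h2 : Real.pi / (8 * ν) = Real.pi / (16 * ν) * 2 := by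
          field_simp
          ring
        rw [h2]
        linarith
      · have h1 := abs_lt.1 k2
        have h2 := abs_lt.1 hargδ
        constructor
        · linarith
        · linarith

end Pool.Agent.MAT
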