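import Pool.Agent.MAT.T

/-!
# MAT: EUNI, uniqueness of the outgoing parametrisation
-/

set_option autoImplicit false

open Polynomial Metric Set Filter Topology

noncomputable section

namespace Pool.Agent.MAT

namespace EUNI_

/-- third derivative at `0` of `z + z² e(z)` -/
theorem third (f e : ℂ → ℂ) (r : ℝ) (hr : 0 < r) (he : DifferentiableOn ℂ e (ball 0 r))
    (hf : ∀ z ∈ ball (0 : ℂ) r, f z = z + z ^ 2 * e z) :
    iteratedDeriv 3 f 0 = 6 * deriv e 0 := by
  have ho : IsOpen (ball (0 : ℂ) r) := isOpen_ball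
  have he1 : DifferentiableOn ℂ (deriv e) (ball 0 r) := he.deriv ho
  have he2 : DifferentiableOn ℂ (deriv (deriv e)) (ball 0 r) := he1.deriv ho
  have d0 : ∀ z ∈ ball (0 : ℂ) r, HasDerivAt e (deriv e z) z := fun z hz =>
    (he.differentiableAt (ho.mem_nhds hz)).hasDerivAt
  have d1 : ∀ z ∈ ball (0 : ℂ) r, HasDerivAt (deriv e) (deriv (deriv e) z) z := fun z hz =>
    (he1.differentiableAt (ho.mem_nhds hz)).hasDerivAt
  have d2 : ∀ z ∈ ball (0 : ℂ) r, HasDerivAt (deriv (deriv e)) (deriv (deriv (deriv e)) z) z :=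
    fun z hz => (he2.differentiableAt (ho.mem_nhds hz)).hasDerivAt
  have h1 : ∀ z ∈ ball (0 : ℂ) r, deriv f z = 1 + (2 * z * e z + z ^ 2 * deriv e z) := by
    intro z hz
    have h : HasDerivAt (fun z : ℂ => z + z ^ 2 * e z)
        (1 + (2 * z * e z + z ^ 2 * deriv e z)) z := by
      exact ((hasDerivAt_id' z).fun_add ((hasDerivAt_pow 2 z).fun_mul (d0 z hz))).congr_deriv
        (by push_cast; ring)
    have heq : f =ᶠ[𝓝 z] fun z : ℂ => z + z ^ 2 * e z := by
      filter_upwards [ho.mem_nhds hz] with y hy using hf y hy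
    rw [heq.deriv_eq, h.deriv]
  have h2 : ∀ z ∈ ball (0 : ℂ) r, deriv (deriv f) z =
      2 * e z + 4 * z * deriv e z + z ^ 2 * deriv (deriv e) z := by
    intro z hz
    have h : HasDerivAt (fun z : ℂ => 1 + (2 * z * e z + z ^ 2 * deriv e z))
        (2 * e z + 4 * z * deriv e z + z ^ 2 * deriv (deriv e) z) z := by
      have a1 : HasDerivAt (fun z : ℂ => 2 * z * e z) (2 * e z + 2 * z * deriv e z) z := by
        exact (((hasDerivAt_id' z).const_mul (2 : ℂ)).fun_mul (d0 z hz)).congr_deriv (by ring)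
      have a2 : HasDerivAt (fun z : ℂ => z ^ 2 * deriv e z)
          (2 * z * deriv e z + z ^ 2 * deriv (deriv e) z) z := by
        exact ((hasDerivAt_pow 2 z).fun_mul (d1 z hz)).congr_deriv (by push_cast; ring)
      exact ((hasDerivAt_const z (1 : ℂ)).fun_add (a1.fun_add a2)).congr_deriv (by ring)
    have heq : deriv f =ᶠ[𝓝 z] fun z : ℂ => 1 + (2 * z * e z + z ^ 2 * deriv e z) := by
      filter_upwards [ho.mem_nhds hz] with y hy using h1 y hy
    rw [heq.deriv_eq, h.deriv]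
  have h0 : (0 : ℂ) ∈ ball (0 : ℂ) r := mem_ball_self hr
  have h3 : deriv (deriv (deriv f)) 0 = 6 * deriv e 0 := by
    have h : HasDerivAt (fun z : ℂ => 2 * e z + 4 * z * deriv e z + z ^ 2 * deriv (deriv e) z)
        (6 * deriv e 0) 0 := by
      have a1 := (d0 0 h0).const_mul (2 : ℂ)
      have a2 : HasDerivAt (fun z : ℂ => 4 * z * deriv e z)
          (4 * deriv e 0 + 4 * 0 * deriv (deriv e) 0) 0 := by
        exact (((hasDerivAt_id' (0 : ℂ)).const_mul (4 : ℂ)).fun_mul (d1 0 h0)).congr_deriv (by ring)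
      have a3 : HasDerivAt (fun z : ℂ => z ^ 2 * deriv (deriv e) z)
          (2 * 0 * deriv (deriv e) 0 + 0 ^ 2 * deriv (deriv (deriv e)) 0) 0 := by
        exact ((hasDerivAt_pow 2 (0 : ℂ)).fun_mul (d2 0 h0)).congr_deriv (by push_cast; ring)
      exact ((a1.fun_add a2).fun_add a3).congr_deriv (by ring)
    have heq : deriv (deriv f) =ᶠ[𝓝 0]
        fun z : ℂ => 2 * e z + 4 * z * deriv e z + z ^ 2 * deriv (deriv e) z := by
      filter_upwards [ho.mem_nhds h0] with y hy using h2 y hy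
    rw [heq.deriv_eq, h.deriv]
  rw [iteratedDeriv_eq_iterate]
  exact h3

/-- local injectivity -/
theorem inj_near (f : ℂ → ℂ) (hf : AnalyticAt ℂ f 0) (hd : deriv f 0 = 1) :
    ∃ r' : ℝ, 0 < r' ∧ InjOn f (ball 0 r') := by
  have hs : HasStrictDerivAt f 1 0 := by
    have := hf.hasStrictDerivAt
    rwa [hd] at this
  have h1 : HasStrictFDerivAt f
      ((ContinuousLinearEquiv.unitsEquivAut ℂ (Units.mk0 1 one_ne_zero) : ℂ ≃L[ℂ] ℂ) : ℂ →L[ℂ] ℂ)
      0 := by
    simpa using hs.hasStrictFDerivAt_equiv one_ne_zero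
  set Φ := h1.toOpenPartialHomeomorph f
  have hm : (0 : ℂ) ∈ Φ.source := h1.mem_toOpenPartialHomeomorph_source
  obtain ⟨r', hr', hsub⟩ := Metric.isOpen_iff.1 Φ.open_source 0 hm
  refine ⟨r', hr', ?_⟩
  have hi := Φ.injOn
  rw [h1.toOpenPartialHomeomorph_coe] at hi
  exact hi.mono hsub

/-- lower bound for `om` on the outgoing side -/
theorem om_half (ω : ℂ) (h : 1 < -ω.re + |ω.im|) : 1 / 2 < ‖ω‖ := by
  have h1 := Complex.abs_re_le_norm ω
  have h2 := Complex.abs_im_le_norm ω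
  have h3 := neg_abs_le ω.re
  linarith

/-- bound of `Lout` on bounded sets -/
theorem lout_le (β ω : ℂ) (M : ℝ) (h1 : 1 / 2 < ‖ω‖) (h2 : ‖ω‖ ≤ M) :
    ‖Lout β ω‖ ≤ M + ‖β‖ * (2 + M + 2 * Real.pi) := by
  unfold Lout
  have hpos : 0 < ‖ω‖ := by linarith
  have hl : ‖Complex.log (-ω)‖ ≤ (2 + M) + Real.pi := by
    have e1 : Complex.log (-ω) = (Real.log ‖-ω‖ : ℂ) + Complex.arg (-ω) * Complex.I := rfl
    rw [e1]
    refine (norm_add_le _ _).trans ?_
    have e2 : ‖(Complex.arg (-ω) * Complex.I : ℂ)‖ ≤ Real.pi := by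
      rw [norm_mul, Complex.norm_I, mul_one, Complex.norm_real, Real.norm_eq_abs]
      exact Complex.abs_arg_le_pi _
    have e3 : ‖(Real.log ‖-ω‖ : ℂ)‖ ≤ 2 + M := by
      rw [Complex.norm_real, Real.norm_eq_abs, norm_neg, abs_le]
      constructor
      · have := Real.one_sub_inv_le_log_of_pos hpos
        have h4 : ‖ω‖⁻¹ ≤ 2 := by
          rw [inv_le_comm₀ hpos (by norm_num)]
          linarith
        linarith
      · have := Real.log_le_sub_one_of_pos hpos
        linarith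
    linarith
  calc ‖ω - β * (Complex.log (-ω) + Real.pi * Complex.I)‖
      ≤ ‖ω‖ + ‖β * (Complex.log (-ω) + Real.pi * Complex.I)‖ := norm_sub_le _ _
    _ ≤ M + ‖β‖ * (2 + M + 2 * Real.pi) := by
        rw [norm_mul]
        have h5 : ‖Complex.log (-ω) + Real.pi * Complex.I‖ ≤ 2 + M + 2 * Real.pi := by
          refine (norm_add_le _ _).trans ?_
          have : ‖(Real.pi * Complex.I : ℂ)‖ = Real.pi := by
            rw [norm_mul, Complex.norm_I, mul_one, Complex.norm_real, Real.norm_eq_abs,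
              abs_of_pos Real.pi_pos]
          rw [this]
          linarith
        have := mul_le_mul_of_nonneg_left h5 (norm_nonneg β)
        linarith

theorem norm_om (z : ℂ) : 1 / ‖omc 1 0 z‖ = ‖z‖ := by
  unfold omc
  rw [one_mul, sub_zero, norm_div, norm_neg, norm_one, one_div_one_div]

end EUNI_

open EUNI_ in
theorem p_EUNI : T_EUNI := by
  intro f h e r K Rp R C Po Eo hr he he0 hf hO
  have hβ : K.β = 1 - deriv e 0 := by
    have h1 := K.hβ
    rw [third f e r hr he hf] at h1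
    have h2 : (6 : ℂ) * (deriv e 0 - (1 - K.β)) = 0 := by
      rw [mul_sub, h1]; ring
    have h3 : deriv e 0 - (1 - K.β) = 0 := by
      rcases mul_eq_zero.1 h2 with h4 | h4
      · norm_num at h4
      · exact h4
    linear_combination h3
  refine ⟨hβ, ?_⟩
  intro w hw
  obtain ⟨r', hr', hinj⟩ := inj_near f K.g_an K.g_der
  -- the backward orbit
  set z := Eo w with hz
  have hzQ : z ∈ QoutS Rp := hO.Eo_mem w hw
  set y : ℕ → ℂ := fun m => h^[m] z with hy
  have yS : ∀ m, y (m + 1) = h (y m) := fun m => by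
    simp only [hy]; rw [Function.iterate_succ_apply']
  have yQ : ∀ m, y m ∈ QoutS Rp := by
    intro m
    induction m with
    | zero => exact hzQ
    | succ m ih => rw [yS]; exact hO.map _ ih
  have yf : ∀ m, f (y (m + 1)) = y m := fun m => by rw [yS]; exact hO.inv _ (yQ m)
  have yne : ∀ m, y m ≠ 0 := fun m => (yQ m).1
  have yl : Tendsto y atTop (𝓝 0) := hO.conv z hzQ
  have yP : ∀ m : ℕ, Po (y m) = w - m := by
    intro m
    induction m with
    | zero => simp only [Nat.cast_zero, sub_zero]; exact hO.Eo_inv w hw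
    | succ m ih => rw [yS, hO.Po_map _ (yQ m), ih]; push_cast; ring
  -- far left, `K.E` is near `0`
  obtain ⟨X, hXR, hX⟩ : ∃ X : ℝ, K.R ≤ X ∧ ∀ w' : ℂ, w'.re < -X → ‖K.E w'‖ < r' := by
    set B := 1 / r' + ‖K.β‖ * (2 + 1 / r' + 2 * Real.pi) with hB
    refine ⟨max K.R (B + 2 * K.C), le_max_left _ _, ?_⟩
    intro w' hw'
    have hx1 : w'.re < -K.R := lt_of_lt_of_le hw' (neg_le_neg (le_max_left _ _))
    have hx2 : w'.re < -(B + 2 * K.C) := lt_of_lt_of_le hw' (neg_le_neg (le_max_right _ _))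
    have hl := om_half _ (K.E_loc w' hx1)
    have ha := K.E_asy w' hx1
    have hpos : 0 < ‖omc 1 0 (K.E w')‖ := by linarith
    have hc : K.C / ‖omc 1 0 (K.E w')‖ ≤ 2 * K.C := by
      rw [div_le_iff₀ hpos]
      nlinarith [K.hC]
    by_contra hcon
    push Not at hcon
    have hM : ‖omc 1 0 (K.E w')‖ ≤ 1 / r' := by
      have h1 := norm_om (K.E w')
      rw [le_div_iff₀ hr']
      calc ‖omc 1 0 (K.E w')‖ * r' ≤ ‖omc 1 0 (K.E w')‖ * ‖K.E w'‖ :=
            mul_le_mul_of_nonneg_left hcon (norm_nonneg _)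
        _ = 1 := by rw [← h1]; field_simp
    have hL := lout_le K.β _ _ hl hM
    have h2 : ‖w'‖ ≤ ‖Lout K.β (omc 1 0 (K.E w'))‖ + ‖Lout K.β (omc 1 0 (K.E w')) - w'‖ := by
      have := norm_sub_le (Lout K.β (omc 1 0 (K.E w'))) (Lout K.β (omc 1 0 (K.E w')) - w')
      rwa [sub_sub_cancel] at this
    have h3 := Complex.abs_re_le_norm w'
    have h4 := neg_abs_le w'.re
    linarith
  -- small points of the orbit
  obtain ⟨m₁, hm₁⟩ : ∃ m₁ : ℕ, ∀ m, m₁ ≤ m → ‖y m‖ < r' := by
    have := Metric.tendsto_atTop.1 yl r' hr'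
    obtain ⟨N, hN⟩ := this
    exact ⟨N, fun m hm => by simpa [dist_eq_norm] using hN m hm⟩
  obtain ⟨m, w'', hw'', hE⟩ := K.E_surj (fun m => y (m + m₁))
    (fun m => by
      have := yf (m + m₁)
      rwa [show m + m₁ + 1 = m + 1 + m₁ by ring] at this)
    (fun m => yne _) (yl.comp (tendsto_add_atTop_nat m₁)) X
  set m₂ := m + m₁ with hm₂
  have hE' : K.E w'' = y m₂ := hE
  have key : ∀ j : ℕ, K.E (w'' - j) = y (m₂ + j) := by
    intro j
    induction j with
    | zero => simpa using hE'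
    | succ j ih =>
      have b1 : K.E (w'' - ((j + 1 : ℕ) : ℂ)) ∈ ball (0 : ℂ) r' := by
        rw [mem_ball_zero_iff]
        apply hX
        have : (w'' - ((j + 1 : ℕ) : ℂ)).re = w''.re - ((j : ℝ) + 1) := by
          simp
        rw [this]
        have hj : (0 : ℝ) ≤ j := Nat.cast_nonneg j
        linarith
      have b2 : y (m₂ + (j + 1)) ∈ ball (0 : ℂ) r' := by
        rw [mem_ball_zero_iff]
        exact hm₁ _ (by omega)
      apply hinj b1 b2
      rw [← K.E_add]
      have e1 : w'' - ((j + 1 : ℕ) : ℂ) + 1 = w'' - (j : ℂ) := by push_cast; ring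
      rw [e1, ih]
      exact (yf (m₂ + j)).symm
  -- comparison of the asymptotics
  have hcmp : ∀ j : ℕ, ‖w'' - (w - m₂)‖ ≤ (K.C + C) * ‖y (m₂ + j)‖ := by
    intro j
    have hre : (w'' - (j : ℂ)).re < -K.R := by
      have : (w'' - (j : ℂ)).re = w''.re - (j : ℝ) := by simp
      rw [this]
      have hj : (0 : ℝ) ≤ j := Nat.cast_nonneg j
      linarith
    have a1 := K.E_asy _ hre
    rw [key j] at a1
    have a2 := hO.Po_asy _ (yQ (m₂ + j))
    rw [yP, ← hβ] at a2
    have n1 := norm_om (y (m₂ + j))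
    have c1 : K.C / ‖omc 1 0 (y (m₂ + j))‖ = K.C * ‖y (m₂ + j)‖ := by
      rw [← n1]; ring
    have c2 : C / ‖omc 1 0 (y (m₂ + j))‖ = C * ‖y (m₂ + j)‖ := by
      rw [← n1]; ring
    rw [c1] at a1
    rw [c2] at a2
    have e1 : w'' - (w - m₂) = (w - ((m₂ + j : ℕ) : ℂ) - Lout K.β (omc 1 0 (y (m₂ + j)))) * (-1)
        - (Lout K.β (omc 1 0 (y (m₂ + j))) - (w'' - (j : ℂ))) := by
      push_cast; ring
    rw [e1]
    refine (norm_sub_le _ _).trans ?_
    rw [norm_mul, norm_neg, norm_one, mul_one]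
    linarith
  have hzero : ‖w'' - (w - m₂)‖ = 0 := by
    have hlim : Tendsto (fun j : ℕ => (K.C + C) * ‖y (m₂ + j)‖) atTop (𝓝 0) := by
      have h1 : Tendsto (fun j : ℕ => y (m₂ + j)) atTop (𝓝 0) := by
        have := yl.comp (tendsto_add_atTop_nat m₂)
        refine this.congr ?_
        intro j; simp [add_comm]
      have := (h1.norm).const_mul (K.C + C)
      simpa using this
    have := ge_of_tendsto' hlim hcmp
    exact le_antisymm this (norm_nonneg _)
  have hww : w'' = w - m₂ := by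
    rw [norm_eq_zero, sub_eq_zero] at hzero
    exact hzero
  -- going forward
  have hfw : ∀ j : ℕ, j ≤ m₂ → K.E (w - m₂ + j) = y (m₂ - j) := by
    intro j
    induction j with
    | zero => intro _; simpa [← hww] using hE'
    | succ j ih =>
      intro hj
      have e1 : w - (m₂ : ℂ) + ((j + 1 : ℕ) : ℂ) = (w - m₂ + j) + 1 := by push_cast; ring
      rw [e1, K.E_add, ih (by omega)]
      have e2 : m₂ - j = (m₂ - (j + 1)) + 1 := by omega
      rw [e2]
      exact yf _
  have := hfw m₂ le_rfl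
  rw [Nat.sub_self, sub_add_cancel] at this
  exact this

end Pool.Agent.MAT
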