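import Pool.Agent.MAT.T
import Pool.Agent.MAT.P_HUR

/-!
# MAT-FACT: factorisation of the perturbed germs
-/

set_option autoImplicit false

open Polynomial Metric Set Filter Topology

noncomputable section

namespace Pool.Agent.MAT

namespace FACT_

/-- maximum principle on a closed ball -/
theorem maxball {g : ℂ → ℂ} {ρ r C : ℝ} (hρ : 0 < ρ) (hr : ρ < r)
    (hg : DifferentiableOn ℂ g (ball 0 r)) (hC : ∀ z : ℂ, ‖z‖ = ρ → ‖g z‖ ≤ C) :
    ∀ z ∈ closedBall (0 : ℂ) ρ, ‖g z‖ ≤ C := by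
  intro z hz
  have hd : DiffContOnCl ℂ g (ball 0 ρ) :=
    DifferentiableOn.diffContOnCl_ball hg (closedBall_subset_ball hr)
  refine Complex.norm_le_of_forall_mem_frontier_norm_le isBounded_ball hd ?_ ?_
  · intro w hw
    rw [frontier_ball _ hρ.ne'] at hw
    exact hC w (by simpa using hw)
  · rw [closure_ball _ hρ.ne']
    exact hz

end FACT_

open FACT_ in
theorem p_FACT : T_FACT := by
  intro S r l f e fk hl hS hr he he0 hf hfk hlim hmul
  -- the radius
  have hce : ContinuousAt e 0 :=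
    (he.differentiableAt (ball_mem_nhds 0 hr)).continuousAt
  obtain ⟨δ, hδ, hδ'⟩ := Metric.continuousAt_iff.1 hce (1 / 2) (by norm_num)
  obtain ⟨ρ, hρ0, hρδ, hρr⟩ : ∃ ρ : ℝ, 0 < ρ ∧ ρ < δ ∧ ρ < r :=
    ⟨min δ r / 2, by positivity, by
      have := min_le_left δ r
      have h0 : 0 < min δ r := lt_min hδ hr
      linarith, by
      have := min_le_right δ r
      have h0 : 0 < min δ r := lt_min hδ hr
      linarith⟩
  have hcb : closedBall (0 : ℂ) ρ ⊆ ball 0 r := closedBall_subset_ball hρr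
  have hbb : ball (0 : ℂ) ρ ⊆ ball 0 r := ball_subset_ball hρr.le
  have heb : ∀ z : ℂ, ‖z‖ ≤ ρ → ‖e z - 1‖ ≤ 1 / 2 := by
    intro z hz
    have := hδ' (x := z) (by simpa using lt_of_le_of_lt hz hρδ)
    rw [he0, dist_eq_norm] at this
    exact this.le
  have he1 : ∀ z : ℂ, ‖z‖ ≤ ρ → 1 / 2 ≤ ‖e z‖ := by
    intro z hz
    have h1 := heb z hz
    have h2 := norm_sub_norm_le (1 : ℂ) (1 - e z)
    have h3 : (1 : ℂ) - (1 - e z) = e z := by ring
    rw [h3, norm_sub_rev 1 (e z), norm_one] at h2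
    linarith
  have he2 : ∀ z : ℂ, ‖z‖ ≤ ρ → ‖e z‖ ≤ 3 / 2 := by
    intro z hz
    have h1 := heb z hz
    have h2 := norm_add_le (e z - 1) (1 : ℂ)
    have h3 : (e z - 1) + (1 : ℂ) = e z := by ring
    rw [h3, norm_one] at h2
    linarith
  -- the functions `h_k`
  set hk : ℕ → ℂ → ℂ := fun k z => dslope (fk k) 0 z - 1 with hhk
  set h : ℂ → ℂ := fun z => z * e z with hh
  have hd_h : DifferentiableOn ℂ h (ball 0 r) := differentiableOn_id.mul he
  have hd_hk : ∀ᶠ k in l, DifferentiableOn ℂ (hk k) (ball 0 r) := by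
    filter_upwards [hfk] with k hk1
    exact ((Complex.differentiableOn_dslope (ball_mem_nhds 0 hr)).2 hk1).sub_const 1
  have hfac : ∀ᶠ k in l, ∀ z : ℂ, fk k z = z + z * hk k z := by
    filter_upwards [hmul] with k hk1 z
    have h1 := sub_smul_dslope (fk k) 0 z
    rw [hk1.1, sub_zero, sub_zero, smul_eq_mul] at h1
    simp only [hhk]
    rw [← h1]
    ring
  have hA : ∀ ε : ℝ, 0 < ε → ∀ᶠ k in l, ∀ z ∈ closedBall (0 : ℂ) ρ, ‖hk k z - h z‖ ≤ ε := by
    intro ε hε
    have h1 := Metric.tendstoUniformlyOn_iff.1 hlim (ε * ρ) (by positivity)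
    filter_upwards [h1, hd_hk, hfac] with k hk1 hk2 hk3
    refine maxball hρ0 hρr (hk2.sub hd_h) ?_
    intro z hz
    have hz0 : z ≠ 0 := by
      intro h0
      rw [h0, norm_zero] at hz
      exact hρ0.ne hz
    have hzr : z ∈ ball (0 : ℂ) r := by simpa [hz] using hρr
    have h2 := hk1 z hzr
    rw [hf z hzr, hk3 z, dist_eq_norm] at h2
    have h3 : z + z ^ 2 * e z - (z + z * hk k z) = - (z * (hk k z - h z)) := by
      simp only [hh]; ring
    rw [h3, norm_neg, norm_mul, hz] at h2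
    have h4 : ρ * ‖hk k z - h z‖ < ρ * ε := by linarith
    have h5 := lt_of_mul_lt_mul_left h4 hρ0.le
    simpa using h5.le
  -- zeros
  have hB : ∀ᶠ k in l, ∃ z ∈ ball (0 : ℂ) ρ, hk k z = 0 := by
    refine p_HUR l hk h 0 ρ hρ0 (hd_h.mono hbb) ?_ ?_ (by simp [hh]) ?_ ρ hρ0
    · filter_upwards [hd_hk] with k hk1
      exact hk1.mono hbb
    · refine TendstoUniformlyOn.tendstoLocallyUniformlyOn ?_
      rw [Metric.tendstoUniformlyOn_iff]
      intro ε hε
      filter_upwards [hA (ε / 2) (by positivity)] with k hk1 z hz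
      have := hk1 z (ball_subset_closedBall hz)
      rw [dist_comm, dist_eq_norm]
      linarith
    · intro hcon
      obtain ⟨η, hη, hη'⟩ := Metric.eventually_nhds_iff.1 hcon
      set t : ℝ := min η ρ / 2 with ht
      have hm : 0 < min η ρ := lt_min hη hρ0
      have ht0 : 0 < t := by positivity
      have htη : t < η := by have := min_le_left η ρ; linarith
      have htρ : t ≤ ρ := by have := min_le_right η ρ; linarith
      have hnt : ‖(t : ℂ)‖ = t := by
        rw [Complex.norm_real, Real.norm_of_nonneg ht0.le]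
      have h1 := hη' (y := (t : ℂ)) (by rw [dist_eq_norm, sub_zero, hnt]; exact htη)
      have h2 := he1 (t : ℂ) (by rw [hnt]; exact htρ)
      simp only [hh] at h1
      rcases mul_eq_zero.1 h1 with h3 | h3
      · rw [h3, norm_zero] at hnt
        exact ht0.ne hnt
      · rw [h3, norm_zero] at h2
        norm_num at h2
  classical
  set pk : ℕ → ℂ := fun k => if hx : ∃ z ∈ ball (0 : ℂ) ρ, hk k z = 0 then hx.choose else 0
    with hpk
  have hpk1 : ∀ᶠ k in l, pk k ∈ ball (0 : ℂ) ρ ∧ hk k (pk k) = 0 := by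
    filter_upwards [hB] with k hk1
    have : pk k = hk1.choose := by simp only [hpk]; rw [dif_pos hk1]
    rw [this]
    exact hk1.choose_spec
  have hpk2 : ∀ ε : ℝ, 0 < ε → ∀ᶠ k in l, ‖pk k‖ ≤ ε := by
    intro ε hε
    filter_upwards [hpk1, hA (ε / 2) (by positivity)] with k hk1 hk2
    have h1 := hk2 (pk k) (ball_subset_closedBall hk1.1)
    rw [hk1.2, zero_sub, norm_neg] at h1
    simp only [hh, norm_mul] at h1
    have h2 := he1 (pk k) (by have h5 := hk1.1; rw [mem_ball_zero_iff] at h5; exact h5.le)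
    nlinarith [norm_nonneg (pk k)]
  set ek : ℕ → ℂ → ℂ := fun k => dslope (hk k) (pk k) with hek
  have hek1 : ∀ᶠ k in l, ∀ z : ℂ, hk k z = (z - pk k) * ek k z := by
    filter_upwards [hpk1] with k hk1 z
    have h1 := sub_smul_dslope (hk k) (pk k) z
    rw [hk1.2, sub_zero, smul_eq_mul] at h1
    exact h1.symm
  have hd_ek : ∀ᶠ k in l, DifferentiableOn ℂ (ek k) (ball 0 r) := by
    filter_upwards [hpk1, hd_hk] with k hk1 hk2
    exact (Complex.differentiableOn_dslope (isOpen_ball.mem_nhds (hbb hk1.1))).2 hk2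
  have hlim2 : ∀ ε : ℝ, 0 < ε → ∀ᶠ k in l, ∀ z ∈ closedBall (0 : ℂ) ρ, ‖ek k z - e z‖ ≤ ε := by
    intro ε hε
    filter_upwards [hpk2 (ρ / 2) (by positivity), hpk2 (ε * ρ / 6) (by positivity),
      hA (ε * ρ / 4) (by positivity), hek1, hd_ek] with k hk1 hk2 hk3 hk4 hk5
    refine maxball hρ0 hρr (hk5.sub he) ?_
    intro z hz
    have hzp : ρ / 2 ≤ ‖z - pk k‖ := by
      have := norm_sub_norm_le z (pk k)
      rw [hz] at this
      linarith
    have h1 := hk3 z (by simp [hz])
    have h2 : (z - pk k) * (ek k z - e z) = (hk k z - h z) + pk k * e z := by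
      rw [hk4 z]; simp only [hh]; ring
    have h3 : ‖z - pk k‖ * ‖ek k z - e z‖ ≤ ε * ρ / 4 + (ε * ρ / 6) * (3 / 2) := by
      rw [← norm_mul, h2]
      refine (norm_add_le _ _).trans (add_le_add h1 ?_)
      rw [norm_mul]
      exact mul_le_mul hk2 (he2 z hz.le) (norm_nonneg _) (by positivity)
    have h4 : ρ / 2 * ‖ek k z - e z‖ ≤ ρ / 2 * ε := by
      have := mul_le_mul_of_nonneg_right hzp (norm_nonneg (ek k z - e z))
      linarith
    have h5 := le_of_mul_le_mul_left h4 (by positivity)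
    simpa using h5
  refine ⟨ρ, ek, pk, hρr.le, ⟨hl, hS, hρ0, he.mono hbb, he0, ?_, ?_, ?_, ?_⟩, ?_⟩
  · filter_upwards [hd_ek] with k hk1
    exact hk1.mono hbb
  · rw [Metric.tendstoUniformlyOn_iff]
    intro ε hε
    filter_upwards [hlim2 (ε / 2) (by positivity)] with k hk1 z hz
    have := hk1 z (ball_subset_closedBall hz)
    rw [dist_comm, dist_eq_norm]
    linarith
  · rw [Metric.tendsto_nhds]
    intro ε hε
    filter_upwards [hpk2 (ε / 2) (by positivity)] with k hk1
    rw [dist_eq_norm, sub_zero]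
    linarith
  · filter_upwards [hmul, hek1] with k hk1 hk2
    have h1 := hk2 0
    have h2 : hk k 0 = Complex.exp (ell S k) - 1 := by
      simp only [hhk]
      rw [dslope_same, hk1.2]
    rw [h2] at h1
    linear_combination -h1
  · filter_upwards [hfac, hek1] with k hk1 hk2 z _
    rw [hk1 z, hk2 z]
    ring

end Pool.Agent.MAT
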