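import Pool.Agent.MAT.T

/-!
# MAT: FEST (the map in the `ω`-plane), by helper38
-/

set_option autoImplicit false

open Polynomial Metric Set Filter Topology

noncomputable section

namespace Pool.Agent.MAT

namespace FEST_

/-- second order expansion with bounds -/
lemma expand {e : ℂ → ℂ} {r : ℝ} (hr : 0 < r) (he : DifferentiableOn ℂ e (ball 0 r))
    (h0 : e 0 = 1) : ∃ (K : ℝ) (e₁ e₂ : ℂ → ℂ), 0 ≤ K ∧ ∀ z ∈ closedBall (0 : ℂ) (r / 2),
      e z = 1 + z * e₁ z ∧ e₁ z = deriv e 0 + z * e₂ z ∧ ‖e z‖ ≤ K ∧ ‖e₁ z‖ ≤ K ∧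
      ‖e₂ z‖ ≤ K := by
  have hn : ball (0 : ℂ) r ∈ 𝓝 (0 : ℂ) := isOpen_ball.mem_nhds (mem_ball_self hr)
  have h1 : DifferentiableOn ℂ (dslope e 0) (ball 0 r) :=
    (Complex.differentiableOn_dslope hn).2 he
  have h2 : DifferentiableOn ℂ (dslope (dslope e 0) 0) (ball 0 r) :=
    (Complex.differentiableOn_dslope hn).2 h1
  have hsub : closedBall (0 : ℂ) (r / 2) ⊆ ball 0 r := closedBall_subset_ball (by linarith)
  have hc : IsCompact (closedBall (0 : ℂ) (r / 2)) := isCompact_closedBall _ _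
  obtain ⟨K0, hK0⟩ := hc.exists_bound_of_continuousOn (he.continuousOn.mono hsub)
  obtain ⟨K1, hK1⟩ := hc.exists_bound_of_continuousOn (h1.continuousOn.mono hsub)
  obtain ⟨K2, hK2⟩ := hc.exists_bound_of_continuousOn (h2.continuousOn.mono hsub)
  refine ⟨max 0 (max K0 (max K1 K2)), dslope e 0, dslope (dslope e 0) 0, le_max_left _ _,
    fun z hz => ⟨?_, ?_, ?_, ?_, ?_⟩⟩
  · have := sub_smul_dslope e 0 z
    rw [sub_zero, smul_eq_mul, h0] at this
    rw [this]; ring
  · have := sub_smul_dslope (dslope e 0) 0 z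
    rw [sub_zero, smul_eq_mul, dslope_same] at this
    rw [this]; ring
  · exact (hK0 z hz).trans ((le_max_left _ _).trans (le_max_right _ _))
  · exact (hK1 z hz).trans ((le_max_left _ _).trans ((le_max_right _ _).trans (le_max_right _ _)))
  · exact (hK2 z hz).trans ((le_max_right _ _).trans ((le_max_right _ _).trans (le_max_right _ _)))

end FEST_

theorem p_FEST : T_FEST := by
  intro e r hr he h0
  obtain ⟨K, e₁, e₂, hK, hexp⟩ := FEST_.expand hr he h0
  have hkey : ∀ ω : ℂ, 1 + 2 / r + 2 * K < ‖ω‖ → ω ≠ 0 ∧ -1 / ω ∈ closedBall (0 : ℂ) (r / 2) ∧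
      ‖-1 / ω‖ * K ≤ 1 / 2 ∧ ‖-1 / ω‖ = 1 / ‖ω‖ := by
    intro ω hω
    have hr2 : 0 < 2 / r := by positivity
    have hpos : 0 < ‖ω‖ := by linarith
    have hnz : ω ≠ 0 := norm_pos_iff.1 hpos
    have hn : ‖-1 / ω‖ = 1 / ‖ω‖ := by rw [norm_div, norm_neg, norm_one]
    refine ⟨hnz, ?_, ?_, hn⟩
    · rw [mem_closedBall, dist_zero_right, hn, div_le_iff₀ hpos]
      have : 2 / r ≤ ‖ω‖ := by linarith
      rw [div_le_iff₀ hr] at this
      linarith
    · rw [hn, one_div, inv_mul_le_iff₀ hpos]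
      linarith
  have hne : ∀ z ∈ closedBall (0 : ℂ) (r / 2), ‖z‖ * K ≤ 1 / 2 →
      ‖z * e z‖ ≤ 1 / 2 ∧ 1 / 2 ≤ ‖1 + z * e z‖ := by
    intro z hz hzK
    obtain ⟨-, -, h3, -, -⟩ := hexp z hz
    have h4 : ‖z * e z‖ ≤ 1 / 2 := by
      rw [norm_mul]
      exact (mul_le_mul_of_nonneg_left h3 (norm_nonneg _)).trans hzK
    refine ⟨h4, ?_⟩
    have := norm_sub_norm_le (1 : ℂ) (-(z * e z))
    rw [norm_one, norm_neg, sub_neg_eq_add] at this
    linarith
  refine ⟨1 + 2 / r + 2 * K, K + K * (1 + K) + 2 * K ^ 3, ?_, ?_, ?_, ?_⟩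
  · have : 0 < 2 / r := by positivity
    linarith
  · positivity
  · intro ω hω
    obtain ⟨hnz, hb, hzK, hn⟩ := hkey ω hω
    have hden : (-1 / ω) + (-1 / ω) ^ 2 * e (-1 / ω) ≠ 0 := by
      have h1 : (-1 / ω) + (-1 / ω) ^ 2 * e (-1 / ω) = (-1 / ω) * (1 + (-1 / ω) * e (-1 / ω)) := by
        ring
      rw [h1]
      refine mul_ne_zero (div_ne_zero (by norm_num) hnz) ?_
      have := (hne _ hb hzK).2
      intro h
      rw [h, norm_zero] at this
      norm_num at this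
    have hin : DifferentiableAt ℂ (fun ω : ℂ => -1 / ω) ω :=
      (differentiableAt_const _).div differentiableAt_id hnz
    have hmem : -1 / ω ∈ ball (0 : ℂ) r := closedBall_subset_ball (by linarith) hb
    have he' : DifferentiableAt ℂ (fun ω : ℂ => e (-1 / ω)) ω :=
      DifferentiableAt.comp (g := e) (f := fun ω : ℂ => -1 / ω) ω
        (he.differentiableAt (isOpen_ball.mem_nhds hmem)) hin
    exact ((differentiableAt_const _).div (hin.add ((hin.pow 2).mul he'))
      hden).differentiableWithinAt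
  · intro ω hω
    obtain ⟨hnz, hb, hzK, hn⟩ := hkey ω hω
    obtain ⟨h1, h2, h3, h4, h5⟩ := hexp _ hb
    obtain ⟨h6, h7⟩ := hne _ hb hzK
    set z : ℂ := -1 / ω with hz
    have hz0 : z ≠ 0 := div_ne_zero (by norm_num) hnz
    have hω' : ω = -1 / z := by rw [hz]; field_simp
    have hu0 : 1 + z * e z ≠ 0 := by
      intro h
      rw [h, norm_zero] at h7
      norm_num at h7
    have hden : z + z ^ 2 * e z ≠ 0 := by
      have : z + z ^ 2 * e z = z * (1 + z * e z) := by ring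
      rw [this]
      exact mul_ne_zero hz0 hu0
    have hid : -1 / (z + z ^ 2 * e z) - ω - 1 - (1 - deriv e 0) / ω =
        z ^ 2 * (e₂ z - e₁ z * (1 + e z) + e z ^ 3 / (1 + z * e z)) := by
      have hE : deriv e 0 = e₁ z - z * e₂ z := by rw [h2]; ring
      have hdiv : (1 - deriv e 0) / ω = -(1 - deriv e 0) * z := by
        rw [hω']; field_simp
      have hsplit : -1 / (z + z ^ 2 * e z) = ω / (1 + z * e z) := by
        rw [hω']
        have : z + z ^ 2 * e z = z * (1 + z * e z) := by ring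
        rw [this]
        field_simp
      have hω2 : ω / (1 + z * e z) - ω = e z / (1 + z * e z) := by
        rw [hω']
        field_simp
        ring
      rw [hsplit, hdiv, hE]
      have h8 : ω / (1 + z * e z) - ω - 1 - -(1 - (e₁ z - z * e₂ z)) * z =
        e z / (1 + z * e z) - 1 + (1 - (e₁ z - z * e₂ z)) * z := by rw [← hω2]; ring
      rw [h8]
      have h9 : e z / (1 + z * e z) = e z - z * e z ^ 2 + z ^ 2 * (e z ^ 3 / (1 + z * e z)) := by
        have h10 : e z ^ 3 / (1 + z * e z) * (1 + z * e z) = e z ^ 3 := div_mul_cancel₀ _ hu0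
        rw [div_eq_iff hu0]
        linear_combination (-z ^ 2) * h10
      rw [h9]
      linear_combination (1 - z * (1 + e z)) * h1
    rw [hid, norm_mul, norm_pow]
    have hzω : ‖z‖ ^ 2 = 1 / ‖ω‖ ^ 2 := by rw [hn]; simp
    rw [hzω, div_mul_eq_mul_div, one_mul]
    refine div_le_div_of_nonneg_right ?_ (by positivity)
    have hb1 : ‖e₁ z * (1 + e z)‖ ≤ K * (1 + K) := by
      rw [norm_mul]
      refine mul_le_mul h4 ((norm_add_le _ _).trans ?_) (norm_nonneg _) hK
      rw [norm_one]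
      linarith
    have hb2 : ‖e z ^ 3 / (1 + z * e z)‖ ≤ 2 * K ^ 3 := by
      rw [norm_div, norm_pow, div_le_iff₀ (by linarith)]
      have : ‖e z‖ ^ 3 ≤ K ^ 3 := pow_le_pow_left₀ (norm_nonneg _) h3 3
      nlinarith [pow_nonneg hK 3]
    calc ‖e₂ z - e₁ z * (1 + e z) + e z ^ 3 / (1 + z * e z)‖
        ≤ ‖e₂ z - e₁ z * (1 + e z)‖ + ‖e z ^ 3 / (1 + z * e z)‖ := norm_add_le _ _
      _ ≤ (‖e₂ z‖ + ‖e₁ z * (1 + e z)‖) + ‖e z ^ 3 / (1 + z * e z)‖ := by
          gcongr
          exact norm_sub_le _ _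
      _ ≤ K + K * (1 + K) + 2 * K ^ 3 := by linarith

end Pool.Agent.MAT
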