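import Pool.Agent.MAT.T

/-!
# MAT: the incoming Fatou coordinate in the `ω`-plane (FINC)
-/

set_option autoImplicit false

open Polynomial Metric Set Filter Topology

noncomputable section

namespace Pool.Agent.MAT

namespace FINC_

theorem isOpen_PR (R : ℝ) : IsOpen (PR R) := by
  unfold PR
  exact isOpen_lt continuous_const (Complex.continuous_re.add Complex.continuous_im.abs)

theorem PR_norm {R : ℝ} {ω : ℂ} (h : ω ∈ PR R) : R < 2 * ‖ω‖ := by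
  have h1 : R < ω.re + |ω.im| := h
  have h2 := Complex.abs_re_le_norm ω
  have h3 := Complex.abs_im_le_norm ω
  have h4 := le_abs_self ω.re
  linarith

theorem PR_slit {R : ℝ} (hR : 0 ≤ R) {ω : ℂ} (h : ω ∈ PR R) : ω ∈ Complex.slitPlane := by
  have h1 : R < ω.re + |ω.im| := h
  rw [Complex.mem_slitPlane_iff]
  by_cases h2 : ω.im = 0
  · left
    rw [h2, abs_zero] at h1
    linarith
  · right
    exact h2

/-- the argument on the region -/
theorem arg_lt {ω : ℂ} (h : 0 < ω.re + |ω.im|) : |Complex.arg ω| < 3 * Real.pi / 4 := by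
  by_contra hc
  push Not at hc
  have hpi := Real.pi_pos
  have hω : ω ≠ 0 := by
    rintro rfl
    simp at h
  have hn : 0 < ‖ω‖ := norm_pos_iff.2 hω
  have hle : |Complex.arg ω| ≤ Real.pi := Complex.abs_arg_le_pi ω
  have h1 : Real.cos |Complex.arg ω| ≤ Real.cos (3 * Real.pi / 4) :=
    Real.cos_le_cos_of_nonneg_of_le_pi (by positivity) hle hc
  have h2 : Real.cos (3 * Real.pi / 4) = -(√2 / 2) := by
    have : 3 * Real.pi / 4 = Real.pi - Real.pi / 4 := by ring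
    rw [this, Real.cos_pi_sub, Real.cos_pi_div_four]
  have h3 : Real.cos |Complex.arg ω| = ω.re / ‖ω‖ := by
    rw [Real.cos_abs, Complex.cos_arg hω]
  have h4 : ω.re ≤ -(√2 / 2) * ‖ω‖ := by
    rw [h2, h3, div_le_iff₀ hn] at h1
    exact h1
  have h5 : ‖ω‖ ^ 2 = ω.re ^ 2 + ω.im ^ 2 := by
    rw [← Complex.normSq_eq_norm_sq, Complex.normSq_apply]
    ring
  have h6 : √2 ^ 2 = 2 := Real.sq_sqrt (by norm_num)
  have h7 : 0 < √2 := Real.sqrt_pos.2 (by norm_num)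
  have h8 : 0 ≤ √2 / 2 * ‖ω‖ := by positivity
  -- `re ^ 2 ≥ ‖ω‖ ^ 2 / 2`
  have h9 : ‖ω‖ ^ 2 / 2 ≤ ω.re ^ 2 := by
    have : (√2 / 2 * ‖ω‖) ^ 2 ≤ (-ω.re) ^ 2 := pow_le_pow_left₀ h8 (by linarith) 2
    have h10 : (√2 / 2 * ‖ω‖) ^ 2 = ‖ω‖ ^ 2 / 2 := by
      rw [mul_pow, div_pow, h6]
      ring
    rw [h10] at this
    nlinarith
  have h11 : |ω.im| ^ 2 ≤ (-ω.re) ^ 2 := by
    rw [sq_abs]
    nlinarith
  have h12 : |ω.im| ≤ -ω.re := by
    have h13 : 0 ≤ -ω.re := by linarith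
    exact (pow_le_pow_iff_left₀ (abs_nonneg _) h13 two_ne_zero).1 h11
  linarith

/-- the logarithm of a product -/
theorem log_mul {ω u : ℂ} (h : 0 < ω.re + |ω.im|) (hu : ‖u‖ ≤ 1 / 2) :
    Complex.log (ω * (1 + u)) = Complex.log ω + Complex.log (1 + u) ∧
      ‖Complex.log (1 + u) - u‖ ≤ ‖u‖ ^ 2 := by
  have hω : ω ≠ 0 := by
    rintro rfl
    simp at h
  have hu1 : ‖u‖ < 1 := by linarith
  have h1u : (1 : ℂ) + u ≠ 0 := by
    intro h0
    have : u = -1 := by linear_combination h0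
    rw [this, norm_neg, norm_one] at hu1
    exact lt_irrefl _ hu1
  have hb : ‖Complex.log (1 + u) - u‖ ≤ ‖u‖ ^ 2 := by
    have h2 := Complex.norm_log_one_add_sub_self_le hu1
    have h3 : (1 - ‖u‖)⁻¹ ≤ 2 := by
      rw [inv_le_comm₀ (by linarith) (by norm_num)]
      linarith
    calc ‖Complex.log (1 + u) - u‖ ≤ ‖u‖ ^ 2 * (1 - ‖u‖)⁻¹ / 2 := h2
      _ ≤ ‖u‖ ^ 2 * 2 / 2 := by gcongr
      _ = ‖u‖ ^ 2 := by ring
  refine ⟨?_, hb⟩
  rw [Complex.log_mul_eq_add_log_iff hω h1u]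
  have h4 := arg_lt h
  have h5 : |Complex.arg (1 + u)| ≤ 3 / 4 := by
    have h6 : |(Complex.log (1 + u)).im| ≤ ‖Complex.log (1 + u)‖ := Complex.abs_im_le_norm _
    rw [Complex.log_im] at h6
    have h7 : ‖Complex.log (1 + u)‖ ≤ ‖Complex.log (1 + u) - u‖ + ‖u‖ := by
      calc ‖Complex.log (1 + u)‖ = ‖(Complex.log (1 + u) - u) + u‖ := by rw [sub_add_cancel]
        _ ≤ _ := norm_add_le _ _
    have h8 : ‖u‖ ^ 2 ≤ (1 / 2 : ℝ) ^ 2 := pow_le_pow_left₀ (norm_nonneg _) hu 2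
    linarith
  have hpi := Real.pi_gt_d2
  rw [abs_lt] at h4
  rw [abs_le] at h5
  constructor <;> linarith [h4.1, h4.2, h5.1, h5.2]

/-- the sum of `1 / (r + m) ^ 2` -/
theorem sum_le {r : ℝ} (hr : 1 ≤ r) (n : ℕ) :
    ∑ m ∈ Finset.range n, 1 / (r + m) ^ 2 ≤ 1 / (r - 1 / 2) - 1 / (r + n - 1 / 2) := by
  induction n with
  | zero => simp
  | succ n ih =>
    rw [Finset.sum_range_succ]
    have hn : (0 : ℝ) ≤ n := Nat.cast_nonneg n
    have h1 : 0 < r + n - 1 / 2 := by linarith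
    have h2 : 0 < r + n + 1 / 2 := by linarith
    have h3 : 1 / (r + n) ^ 2 ≤ 1 / (r + n - 1 / 2) - 1 / (r + n + 1 / 2) := by
      rw [div_sub_div _ _ h1.ne' h2.ne', div_le_div_iff₀ (by positivity) (by positivity)]
      nlinarith
    have h4 : r + ((n + 1 : ℕ) : ℝ) - 1 / 2 = r + n + 1 / 2 := by push_cast; ring
    rw [h4]
    linarith

theorem tsum_le {r : ℝ} (hr : 1 ≤ r) : ∑' m : ℕ, 1 / (r + m) ^ 2 ≤ 2 / r := by
  refine Real.tsum_le_of_sum_range_le (fun n => by positivity) (fun n => ?_)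
  refine (sum_le hr n).trans ?_
  have hn : (0 : ℝ) ≤ n := Nat.cast_nonneg n
  have h1 : 0 < r + n - 1 / 2 := by linarith
  have h2 : 0 < r - 1 / 2 := by linarith
  have h3 : 1 / (r - 1 / 2) ≤ 2 / r := by
    rw [div_le_div_iff₀ h2 (by linarith)]
    linarith
  have h4 : 0 ≤ 1 / (r + n - 1 / 2) := by positivity
  linarith

theorem summable' {r : ℝ} (hr : 1 ≤ r) : Summable (fun m : ℕ => 1 / (r + m) ^ 2) := by
  refine summable_of_sum_range_le (c := 2 / r) (fun n => by positivity) (fun n => ?_)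
  refine (sum_le hr n).trans ?_
  have hn : (0 : ℝ) ≤ n := Nat.cast_nonneg n
  have h1 : 0 < r + n - 1 / 2 := by linarith
  have h2 : 0 < r - 1 / 2 := by linarith
  have h3 : 1 / (r - 1 / 2) ≤ 2 / r := by
    rw [div_le_div_iff₀ h2 (by linarith)]
    linarith
  have h4 : 0 ≤ 1 / (r + n - 1 / 2) := by positivity
  linarith

/-- one step of the approximate coordinate -/
theorem step {F : ℂ → ℂ} {β : ℂ} {R₀ C₀ : ℝ} (P : PF F β R₀ C₀) {ω : ℂ}
    (h0 : 0 < ω.re + |ω.im|) (h1 : R₀ < ‖ω‖) (h2 : 2 * (1 + ‖β‖ + C₀) ≤ ‖ω‖) :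
    ‖Lin β (F ω) - Lin β ω - 1‖ ≤
      (C₀ + ‖β‖ * ((1 + ‖β‖ + C₀) ^ 2 + (1 + ‖β‖ + C₀))) / ‖ω‖ ^ 2 := by
  set K := 1 + ‖β‖ + C₀ with hK
  have hC := P.hC
  have hβ := norm_nonneg β
  have hK1 : 1 ≤ K := by rw [hK]; linarith
  have hn1 : 1 ≤ ‖ω‖ := by linarith
  have hn0 : 0 < ‖ω‖ := by linarith
  have hω : ω ≠ 0 := norm_pos_iff.1 hn0
  have e0 := P.est ω h1
  -- `‖F ω - ω - 1‖ ≤ K / ‖ω‖`
  have e1 : ‖F ω - ω - 1‖ ≤ K / ‖ω‖ := by
    have s1 : F ω - ω - 1 = (F ω - ω - 1 - β / ω) + β / ω := by ring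
    have s2 : C₀ / ‖ω‖ ^ 2 ≤ C₀ / ‖ω‖ := by
      apply div_le_div_of_nonneg_left hC hn0
      nlinarith
    calc ‖F ω - ω - 1‖ = ‖(F ω - ω - 1 - β / ω) + β / ω‖ := by rw [← s1]
      _ ≤ ‖F ω - ω - 1 - β / ω‖ + ‖β / ω‖ := norm_add_le _ _
      _ ≤ C₀ / ‖ω‖ + ‖β‖ / ‖ω‖ := by
          rw [norm_div]
          linarith
      _ = (C₀ + ‖β‖) / ‖ω‖ := by ring
      _ ≤ K / ‖ω‖ := by
          apply div_le_div_of_nonneg_right _ hn0.le
          rw [hK]; linarith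
  have e2 : ‖F ω - ω‖ ≤ K := by
    have s1 : F ω - ω = (F ω - ω - 1 - β / ω) + (1 + β / ω) := by ring
    have s2 : C₀ / ‖ω‖ ^ 2 ≤ C₀ := by
      apply div_le_self hC
      nlinarith
    have s3 : ‖β‖ / ‖ω‖ ≤ ‖β‖ := div_le_self hβ hn1
    calc ‖F ω - ω‖ = ‖(F ω - ω - 1 - β / ω) + (1 + β / ω)‖ := by rw [← s1]
      _ ≤ ‖F ω - ω - 1 - β / ω‖ + ‖1 + β / ω‖ := norm_add_le _ _
      _ ≤ ‖F ω - ω - 1 - β / ω‖ + (‖(1 : ℂ)‖ + ‖β / ω‖) := by
          gcongr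
          exact norm_add_le _ _
      _ ≤ C₀ + (1 + ‖β‖) := by
          rw [norm_div, norm_one]
          linarith
      _ = K := by rw [hK]; ring
  set u : ℂ := (F ω - ω) / ω with hu
  have hu1 : ‖u‖ ≤ K / ‖ω‖ := by
    rw [hu, norm_div]
    exact div_le_div_of_nonneg_right e2 hn0.le
  have hu2 : ‖u‖ ≤ 1 / 2 := by
    refine hu1.trans ?_
    rw [div_le_div_iff₀ hn0 (by norm_num)]
    linarith
  have hF : F ω = ω * (1 + u) := by
    rw [hu]
    field_simp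
    ring
  obtain ⟨l1, l2⟩ := log_mul h0 hu2
  have l3 : Lin β (F ω) - Lin β ω - 1 =
      (F ω - ω - 1 - β / ω) - β * ((Complex.log (1 + u) - u) + (F ω - ω - 1) / ω) := by
    unfold Lin
    rw [show Complex.log (F ω) = Complex.log ω + Complex.log (1 + u) by
      rw [← l1, ← hF]]
    have : u = 1 / ω + (F ω - ω - 1) / ω := by
      rw [hu]
      field_simp
      ring
    rw [show (F ω - ω - 1) / ω = u - 1 / ω by rw [this]; ring]
    ring
  have l4 : ‖u‖ ^ 2 ≤ K ^ 2 / ‖ω‖ ^ 2 := by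
    rw [← div_pow]
    exact pow_le_pow_left₀ (norm_nonneg _) hu1 2
  have l5 : ‖(F ω - ω - 1) / ω‖ ≤ K / ‖ω‖ ^ 2 := by
    rw [norm_div, pow_two, ← div_div]
    exact div_le_div_of_nonneg_right e1 hn0.le
  calc ‖Lin β (F ω) - Lin β ω - 1‖
      ≤ ‖F ω - ω - 1 - β / ω‖ + ‖β * ((Complex.log (1 + u) - u) + (F ω - ω - 1) / ω)‖ := by
        rw [l3]
        exact norm_sub_le _ _
    _ ≤ C₀ / ‖ω‖ ^ 2 + ‖β‖ * (K ^ 2 / ‖ω‖ ^ 2 + K / ‖ω‖ ^ 2) := by
        rw [norm_mul]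
        gcongr
        refine (norm_add_le _ _).trans ?_
        exact add_le_add (l2.trans l4) l5
    _ = (C₀ + ‖β‖ * (K ^ 2 + K)) / ‖ω‖ ^ 2 := by ring

end FINC_

open FINC_ in
/-- FINC: the incoming Fatou coordinate -/
theorem p_FINC (hFORB : T_FORB) : T_FINC := by
  intro F β R₀ C₀ P
  obtain ⟨R₁', hR₁', hF⟩ := hFORB F β R₀ C₀ P
  have hR0 := P.hR
  have hC := P.hC
  have hβ := norm_nonneg β
  set K := 1 + ‖β‖ + C₀ with hK
  have hK1 : 1 ≤ K := by rw [hK]; linarith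
  set D := C₀ + ‖β‖ * (K ^ 2 + K) with hD
  have hD0 : 0 ≤ D := by rw [hD]; positivity
  set R₁ := max R₁' (4 * K) with hR₁
  have hRa : R₁' ≤ R₁ := le_max_left _ _
  have hRb : 4 * K ≤ R₁ := le_max_right _ _
  have hRp : 0 ≤ R₁ := by linarith
  -- basic facts
  have hin : ∀ ω ∈ PR R₁, R₀ < ‖ω‖ := fun ω hω => (hF R₁ hRa ω hω).1
  have hmap : ∀ ω ∈ PR R₁, F ω ∈ PR R₁ := fun ω hω => (hF R₁ hRa ω hω).2.1
  have hiter : ∀ m : ℕ, ∀ ω ∈ PR R₁, F^[m] ω ∈ PR R₁ := by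
    intro m
    induction m with
    | zero => intro ω hω; simpa using hω
    | succ m ih =>
      intro ω hω
      rw [Function.iterate_succ_apply']
      exact hmap _ (ih ω hω)
  have horb : ∀ ω ∈ PR R₁, ∀ m : ℕ, ‖ω‖ + m ≤ 4 * ‖F^[m] ω‖ := fun ω hω m =>
    ((hF R₁ hRa ω hω).2.2 m).2
  have hn1 : ∀ ω ∈ PR R₁, 1 ≤ ‖ω‖ := fun ω hω => hR0.trans (hin ω hω).le
  have hstep : ∀ ω ∈ PR R₁, ‖Lin β (F ω) - Lin β ω - 1‖ ≤ D / ‖ω‖ ^ 2 := by
    intro ω hω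
    have h1 := PR_norm hω
    have h2 : R₁ < ω.re + |ω.im| := hω
    exact step P (by linarith) (hin ω hω) (by linarith)
  -- differentiability
  have hopen := isOpen_PR R₁
  have hFd : DifferentiableOn ℂ F (PR R₁) := P.hol.mono (fun ω hω => hin ω hω)
  have hitd : ∀ m : ℕ, DifferentiableOn ℂ (F^[m]) (PR R₁) := by
    intro m
    induction m with
    | zero => simpa using differentiableOn_id
    | succ m ih =>
      rw [Function.iterate_succ']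
      exact hFd.comp ih (fun ω hω => hiter m ω hω)
  have hLd : DifferentiableOn ℂ (Lin β) (PR R₁) := by
    intro ω hω
    have : DifferentiableAt ℂ (Lin β) ω := by
      unfold Lin
      exact differentiableAt_id.sub
        ((Complex.differentiableAt_log (PR_slit hRp hω)).const_mul β)
    exact this.differentiableWithinAt
  set d : ℕ → ℂ → ℂ := fun m ω => Lin β (F^[m + 1] ω) - Lin β (F^[m] ω) - 1 with hd
  have hdd : ∀ m : ℕ, DifferentiableOn ℂ (d m) (PR R₁) := by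
    intro m
    have h1 : DifferentiableOn ℂ (fun ω => Lin β (F^[m + 1] ω)) (PR R₁) :=
      hLd.comp (hitd (m + 1)) (fun ω hω => hiter (m + 1) ω hω)
    have h2 : DifferentiableOn ℂ (fun ω => Lin β (F^[m] ω)) (PR R₁) :=
      hLd.comp (hitd m) (fun ω hω => hiter m ω hω)
    exact (h1.sub h2).sub (differentiableOn_const _)
  have hdb : ∀ m : ℕ, ∀ ω ∈ PR R₁, ‖d m ω‖ ≤ 16 * D * (1 / (‖ω‖ + m) ^ 2) := by
    intro m ω hω
    have h1 := hstep _ (hiter m ω hω)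
    have h2 := horb ω hω m
    have h3 := hn1 ω hω
    have hm : (0 : ℝ) ≤ m := Nat.cast_nonneg m
    have h4 : 0 < ‖ω‖ + m := by linarith
    have h5 : (‖ω‖ + m) ^ 2 ≤ 16 * ‖F^[m] ω‖ ^ 2 := by
      calc (‖ω‖ + m) ^ 2 ≤ (4 * ‖F^[m] ω‖) ^ 2 := pow_le_pow_left₀ h4.le h2 2
        _ = 16 * ‖F^[m] ω‖ ^ 2 := by ring
    have h6 : 0 < ‖F^[m] ω‖ ^ 2 := by
      have : 0 < (‖ω‖ + m) ^ 2 := by positivity
      nlinarith
    have h7 : d m ω = Lin β (F (F^[m] ω)) - Lin β (F^[m] ω) - 1 := by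
      simp only [hd, Function.iterate_succ_apply']
    rw [h7]
    refine h1.trans ?_
    rw [mul_one_div, div_le_div_iff₀ h6 (by positivity)]
    nlinarith [mul_le_mul_of_nonneg_left h5 hD0]
  have hdb1 : ∀ m : ℕ, ∀ ω ∈ PR R₁, ‖d m ω‖ ≤ 16 * D * (1 / ((1 : ℝ) + m) ^ 2) := by
    intro m ω hω
    refine (hdb m ω hω).trans ?_
    have h3 := hn1 ω hω
    have hm : (0 : ℝ) ≤ m := Nat.cast_nonneg m
    have h8 : (0 : ℝ) < 1 + m := by linarith
    gcongr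
  have hsum1 : Summable (fun m : ℕ => 16 * D * (1 / ((1 : ℝ) + m) ^ 2)) :=
    (summable' le_rfl).mul_left _
  have hsd : ∀ ω ∈ PR R₁, Summable (fun m => d m ω) := fun ω hω =>
    Summable.of_norm_bounded hsum1 (fun m => hdb1 m ω hω)
  have hS : DifferentiableOn ℂ (fun ω => ∑' m, d m ω) (PR R₁) :=
    Complex.differentiableOn_tsum_of_summable_norm hsum1 hdd hopen hdb1
  refine ⟨R₁, 32 * D, fun ω => Lin β ω + ∑' m, d m ω, hR₁'.trans hRa, by positivity,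
    hLd.add hS, ?_⟩
  intro ω hω
  constructor
  · have h1 : ∀ m : ℕ, d m (F ω) = d (m + 1) ω := by
      intro m
      simp only [hd, Function.iterate_succ_apply]
    have h2 : ∑' m, d m ω = d 0 ω + ∑' m, d (m + 1) ω := (hsd ω hω).tsum_eq_zero_add
    have h3 : d 0 ω = Lin β (F ω) - Lin β ω - 1 := by
      simp only [hd, zero_add, Function.iterate_one, Function.iterate_zero, id]
    show Lin β (F ω) + ∑' m, d m (F ω) = Lin β ω + ∑' m, d m ω + 1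
    simp only [h1]
    rw [h2, h3]
    ring
  · show ‖Lin β ω + ∑' m, d m ω - Lin β ω‖ ≤ 32 * D / ‖ω‖
    rw [add_sub_cancel_left]
    have h3 := hn1 ω hω
    have hs : Summable (fun m : ℕ => 16 * D * (1 / (‖ω‖ + m) ^ 2)) := (summable' h3).mul_left _
    have h4 : ‖∑' m, d m ω‖ ≤ ∑' m : ℕ, 16 * D * (1 / (‖ω‖ + m) ^ 2) :=
      tsum_of_norm_bounded hs.hasSum (fun m => hdb m ω hω)
    refine h4.trans ?_
    rw [tsum_mul_left]
    have h5 := tsum_le h3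
    calc 16 * D * ∑' m : ℕ, 1 / (‖ω‖ + m) ^ 2 ≤ 16 * D * (2 / ‖ω‖) :=
          mul_le_mul_of_nonneg_left h5 (by positivity)
      _ = 32 * D / ‖ω‖ := by ring

end Pool.Agent.MAT
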