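import Pool.Agent.MAT.T

/-!
# MAT: FINJ (injectivity in the `ω`-plane)
-/

set_option autoImplicit false

open Polynomial Metric Set Filter Topology

noncomputable section

namespace Pool.Agent.MAT

/-- points of `PR R` have modulus `> R / 2` -/
lemma FINJ_norm {R : ℝ} {w : ℂ} (hw : w ∈ PR R) : R / 2 < ‖w‖ := by
  have h : R < w.re + |w.im| := hw
  have h1 := Complex.abs_re_le_norm w
  have h2 := Complex.abs_im_le_norm w
  have h3 := le_abs_self w.re
  linarith

/-- derivative estimate from a sup bound on balls of radius one -/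
lemma FINJ_deriv {G : ℂ → ℂ} {U : Set ℂ} (hU : IsOpen U) (hG : DifferentiableOn ℂ G U) {ε : ℝ}
    {w : ℂ} (hw : closedBall w 1 ⊆ U) (hb : ∀ z ∈ closedBall w 1, ‖G z‖ ≤ ε) :
    ‖deriv G w‖ ≤ ε := by
  have hd : DiffContOnCl ℂ G (ball w 1) := by
    apply DifferentiableOn.diffContOnCl
    rw [closure_ball w one_ne_zero]
    exact hG.mono hw
  have := Complex.norm_deriv_le_of_forall_mem_sphere_norm_le (c := w) one_pos hd
    (fun z hz => hb z (sphere_subset_closedBall hz))
  simpa using this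

/-- injectivity of `F` far out -/
lemma FINJ_F {F : ℂ → ℂ} {β : ℂ} {R₀ C₀ : ℝ} (h : PF F β R₀ C₀) :
    ∃ A : ℝ, R₀ ≤ A ∧ InjOn F {ω | A < ‖ω‖} := by
  have hR := h.hR
  have hC := h.hC
  have hβ := norm_nonneg β
  set K : ℝ := ‖β‖ + C₀ with hK
  have hK0 : 0 ≤ K := by positivity
  set A₀ : ℝ := R₀ + 16 * K with hA₀
  have hA1 : 1 ≤ A₀ := by nlinarith
  have hU : IsOpen {ω : ℂ | R₀ < ‖ω‖} := isOpen_lt continuous_const continuous_norm
  have hest : ∀ w : ℂ, A₀ < ‖w‖ → ‖F w - w - 1‖ ≤ 1 / 16 := by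
    intro w hw
    have hw1 : 1 < ‖w‖ := by linarith
    have hw0 : 0 < ‖w‖ := by linarith
    have h1 := h.est w (by nlinarith)
    have h2 : F w - w - 1 = (F w - w - 1 - β / w) + β / w := by ring
    have h3 : ‖β / w‖ = ‖β‖ / ‖w‖ := norm_div _ _
    have h4 : C₀ / ‖w‖ ^ 2 ≤ C₀ / ‖w‖ := by
      apply div_le_div_of_nonneg_left hC hw0
      nlinarith
    have h5 : K / ‖w‖ ≤ 1 / 16 := by
      rw [div_le_div_iff₀ hw0 (by norm_num)]
      nlinarith
    have h6 : K / ‖w‖ = ‖β‖ / ‖w‖ + C₀ / ‖w‖ := by rw [hK, add_div]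
    rw [h2]
    calc ‖(F w - w - 1 - β / w) + β / w‖ ≤ ‖F w - w - 1 - β / w‖ + ‖β / w‖ := norm_add_le _ _
      _ ≤ 1 / 16 := by rw [h3]; linarith
  refine ⟨A₀ + 2, by nlinarith, ?_⟩
  intro w hw w' hw' hFF
  simp only [mem_setOf_eq] at hw hw'
  have hclose : ‖w - w'‖ ≤ 1 / 8 := by
    have e : w - w' = (F w' - w' - 1) - (F w - w - 1) := by rw [hFF]; ring
    rw [e]
    have := norm_sub_le (F w' - w' - 1) (F w - w - 1)
    have h1 := hest w (by linarith)
    have h2 := hest w' (by linarith)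
    linarith
  have hsub : ∀ z ∈ ball w 1, closedBall z 1 ⊆ {ω : ℂ | A₀ < ‖ω‖} := by
    intro z hz y hy
    simp only [mem_ball, mem_closedBall, dist_eq_norm, mem_setOf_eq] at *
    have h1 : ‖w‖ ≤ ‖y‖ + ‖y - z‖ + ‖z - w‖ := by
      have e : w = y - (y - z) - (z - w) := by ring
      calc ‖w‖ = ‖y - (y - z) - (z - w)‖ := by rw [← e]
        _ ≤ ‖y - (y - z)‖ + ‖z - w‖ := norm_sub_le _ _
        _ ≤ ‖y‖ + ‖y - z‖ + ‖z - w‖ := by
            have := norm_sub_le y (y - z)
            linarith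
    linarith
  have hGd : DifferentiableOn ℂ (fun z => F z - z - 1) {ω : ℂ | R₀ < ‖ω‖} :=
    (h.hol.sub differentiableOn_id).sub (differentiableOn_const _)
  have hsub2 : {ω : ℂ | A₀ < ‖ω‖} ⊆ {ω : ℂ | R₀ < ‖ω‖} := by
    intro y hy
    simp only [mem_setOf_eq] at *
    nlinarith
  have hlip := (convex_ball w 1).norm_image_sub_le_of_norm_deriv_le
    (f := fun z => F z - z - 1) (C := 1 / 16) (x := w') (y := w)
    (fun z hz => (hGd z (hsub2 (hsub z hz (mem_closedBall_self zero_le_one)))).differentiableAt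
      (hU.mem_nhds (hsub2 (hsub z hz (mem_closedBall_self zero_le_one)))))
    (fun z hz => FINJ_deriv hU hGd ((hsub z hz).trans hsub2)
      (fun y hy => hest y (hsub z hz hy)))
    (by
      rw [mem_ball, dist_eq_norm, norm_sub_rev]
      linarith)
    (mem_ball_self one_pos)
  have e : (F w - w - 1) - (F w' - w' - 1) = -(w - w') := by rw [hFF]; ring
  rw [e, norm_neg] at hlip
  have h0 : ‖w - w'‖ = 0 := by
    have := norm_nonneg (w - w')
    linarith
  exact sub_eq_zero.1 (norm_eq_zero.1 h0)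

/-- injectivity of the coordinate in a right half plane -/
lemma FINJ_half {β : ℂ} {R₁ C : ℝ} {Φ : ℂ → ℂ} (hR : 1 ≤ R₁) (hC : 0 ≤ C)
    (hΦ : DifferentiableOn ℂ Φ (PR R₁)) (hL : ∀ ω ∈ PR R₁, ‖Φ ω - Lin β ω‖ ≤ C / ‖ω‖) :
    ∃ X : ℝ, R₁ ≤ X ∧ InjOn Φ {w | X < w.re} := by
  have hβ := norm_nonneg β
  set X : ℝ := R₁ + 1 + 4 * C + 4 * ‖β‖ with hX
  have hU : IsOpen {w : ℂ | R₁ < w.re} := isOpen_lt continuous_const Complex.continuous_re
  have hUP : {w : ℂ | R₁ < w.re} ⊆ PR R₁ := by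
    intro w hw
    have : R₁ < w.re := hw
    have h2 := abs_nonneg w.im
    show R₁ < w.re + |w.im|
    linarith
  have hslit : {w : ℂ | R₁ < w.re} ⊆ Complex.slitPlane := by
    intro w hw
    have : R₁ < w.re := hw
    exact Or.inl (by linarith)
  have hlogd : DifferentiableOn ℂ (fun z : ℂ => Lin β z) {w : ℂ | R₁ < w.re} := by
    unfold Lin
    exact differentiableOn_id.sub ((differentiableOn_const _).mul
      (fun z hz => (Complex.differentiableAt_log (hslit hz)).differentiableWithinAt))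
  have hEd : DifferentiableOn ℂ (fun z => Φ z - Lin β z) {w : ℂ | R₁ < w.re} :=
    (hΦ.mono hUP).sub hlogd
  have hsub : ∀ z : ℂ, X < z.re → closedBall z 1 ⊆ {w : ℂ | R₁ + 4 * C < w.re} := by
    intro z hz y hy
    simp only [mem_closedBall, dist_eq_norm, mem_setOf_eq] at *
    have h1 := Complex.abs_re_le_norm (y - z)
    have h2 := neg_abs_le (y - z).re
    rw [Complex.sub_re] at h1 h2
    linarith
  have hsub2 : {w : ℂ | R₁ + 4 * C < w.re} ⊆ {w : ℂ | R₁ < w.re} := by
    intro y hy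
    simp only [mem_setOf_eq] at *
    linarith
  have hE : ∀ z : ℂ, X < z.re → ‖deriv (fun z => Φ z - Lin β z) z‖ ≤ 1 / 4 := by
    intro z hz
    refine FINJ_deriv hU hEd ((hsub z hz).trans hsub2) ?_
    intro y hy
    have hy' := hsub z hz hy
    have h1 : R₁ + 4 * C < y.re := hy'
    have h2 : y.re ≤ ‖y‖ := (le_abs_self _).trans (Complex.abs_re_le_norm y)
    have h3 := hL y (hUP (hsub2 hy'))
    have h4 : C / ‖y‖ ≤ 1 / 4 := by
      rw [div_le_div_iff₀ (by linarith) (by norm_num)]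
      linarith
    exact h3.trans h4
  have hderL : ∀ z : ℂ, X < z.re → HasDerivAt (fun z : ℂ => β * Complex.log z) (β * z⁻¹) z := by
    intro z hz
    exact (Complex.hasDerivAt_log (hslit (by show R₁ < z.re; linarith))).const_mul β
  have hder : ∀ z : ℂ, X < z.re → HasDerivWithinAt (fun z => Φ z - z)
      (deriv (fun z => Φ z - Lin β z) z - β * z⁻¹) {w : ℂ | X < w.re} z := by
    intro z hz
    have hz1 : z ∈ {w : ℂ | R₁ < w.re} := by show R₁ < z.re; linarith
    have h1 : HasDerivAt (fun z => Φ z - Lin β z) (deriv (fun z => Φ z - Lin β z) z) z :=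
      ((hEd z hz1).differentiableAt (hU.mem_nhds hz1)).hasDerivAt
    have h2 := (h1.sub (hderL z hz)).hasDerivWithinAt (s := {w : ℂ | X < w.re})
    refine h2.congr_of_mem ?_ (by exact hz)
    intro y _
    simp only [Lin, Pi.sub_apply]
    ring
  have hbd : ∀ z : ℂ, X < z.re → ‖deriv (fun z => Φ z - Lin β z) z - β * z⁻¹‖ ≤ 1 / 2 := by
    intro z hz
    have h1 := hE z hz
    have h2 : z.re ≤ ‖z‖ := (le_abs_self _).trans (Complex.abs_re_le_norm z)
    have h3 : ‖β * z⁻¹‖ ≤ 1 / 4 := by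
      rw [norm_mul, norm_inv, ← div_eq_mul_inv, div_le_div_iff₀ (by linarith) (by norm_num)]
      linarith
    have h4 := norm_sub_le (deriv (fun z => Φ z - Lin β z) z) (β * z⁻¹)
    linarith
  have hconv : Convex ℝ {w : ℂ | X < w.re} := convex_halfSpace_re_gt X
  refine ⟨X, by linarith, ?_⟩
  intro w hw w' hw' hΦΦ
  have hlip := hconv.norm_image_sub_le_of_norm_hasDerivWithin_le (𝕜 := ℂ)
    (f := fun z => Φ z - z) (C := 1 / 2) (fun z hz => hder z hz) (fun z hz => hbd z hz) hw' hw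
  have hlip2 : ‖(Φ w - w) - (Φ w' - w')‖ ≤ 1 / 2 * ‖w - w'‖ := hlip
  have e : (Φ w - w) - (Φ w' - w') = -(w - w') := by rw [hΦΦ]; ring
  rw [e, norm_neg] at hlip2
  have h0 : ‖w - w'‖ = 0 := by
    have := norm_nonneg (w - w')
    linarith
  exact sub_eq_zero.1 (norm_eq_zero.1 h0)

theorem p_FINJ (hORB : T_FORB) : T_FINJ := by
  intro F β R₀ C₀ hPF R₁ C Φ hR1 hC hΦ hΦ2
  have hR0 := hPF.hR
  obtain ⟨Ro, _, hO⟩ := hORB F β R₀ C₀ hPF
  obtain ⟨A, hA, hFinj⟩ := FINJ_F hPF
  obtain ⟨X, hX, hΦinj⟩ := FINJ_half (β := β) (by linarith) hC hΦ (fun ω hω => (hΦ2 ω hω).2)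
  set R₂ : ℝ := max (max R₁ Ro) (2 * A) with hR2
  have h21 : R₁ ≤ R₂ := (le_max_left _ _).trans (le_max_left _ _)
  have h2o : Ro ≤ R₂ := (le_max_right _ _).trans (le_max_left _ _)
  have h2A : 2 * A ≤ R₂ := le_max_right _ _
  have hA0 : 0 ≤ A := by linarith
  refine ⟨R₂, h21, hFinj.mono (fun w hw => ?_), ?_⟩
  · have : R₂ < ‖w‖ := hw
    show A < ‖w‖
    linarith
  have hsub : PR R₂ ⊆ PR R₁ := by
    intro w hw
    have : R₂ < w.re + |w.im| := hw
    show R₁ < w.re + |w.im|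
    linarith
  have horb : ∀ w ∈ PR R₂, ∀ m : ℕ, F^[m] w ∈ PR R₂ := by
    intro w hw m
    induction m with
    | zero => exact hw
    | succ m ih =>
      rw [Function.iterate_succ_apply']
      exact (hO R₂ h2o _ ih).2.1
  have hΦm : ∀ w ∈ PR R₂, ∀ m : ℕ, Φ (F^[m] w) = Φ w + m := by
    intro w hw m
    induction m with
    | zero => simp
    | succ m ih =>
      rw [Function.iterate_succ_apply', (hΦ2 _ (hsub (horb w hw m))).1, ih]
      push_cast
      ring
  have hback : ∀ m : ℕ, ∀ w ∈ PR R₂, ∀ w' ∈ PR R₂, F^[m] w = F^[m] w' → w = w' := by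
    intro m
    induction m with
    | zero => intro w _ w' _ h; simpa using h
    | succ m ih =>
      intro w hw w' hw' h
      rw [Function.iterate_succ_apply', Function.iterate_succ_apply'] at h
      apply ih w hw w' hw'
      refine hFinj ?_ ?_ h
      · have := FINJ_norm (horb w hw m)
        show A < _
        linarith
      · have := FINJ_norm (horb w' hw' m)
        show A < _
        linarith
  intro w hw w' hw' hΦΦ
  obtain ⟨m, hm⟩ := exists_nat_gt (2 * (|X| + ‖w‖ + ‖w'‖))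
  have hre : ∀ v ∈ PR R₂, ‖v‖ ≤ ‖w‖ + ‖w'‖ → X < (F^[m] v).re := by
    intro v hv hvn
    have h1 := ((hO R₂ h2o v hv).2.2 m).1
    have h2 := (Complex.abs_re_le_norm (F^[m] v - (v + m))).trans h1
    have h3 := neg_abs_le (F^[m] v - (v + m)).re
    have h4 : (F^[m] v - (v + m)).re = (F^[m] v).re - v.re - m := by
      simp only [Complex.sub_re, Complex.add_re, Complex.natCast_re]
      ring
    rw [h4] at h2 h3
    have h5 := (neg_abs_le v.re)
    have h6 := Complex.abs_re_le_norm v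
    have h7 := le_abs_self X
    have h8 : (0 : ℝ) ≤ m := Nat.cast_nonneg m
    have h9 := norm_nonneg w
    have h10 := norm_nonneg w'
    have h11 := abs_nonneg X
    linarith
  apply hback m w hw w' hw'
  apply hΦinj
  · exact hre w hw (by linarith [norm_nonneg w'])
  · exact hre w' hw' (by linarith [norm_nonneg w])
  · rw [hΦm w hw m, hΦm w' hw' m, hΦΦ]

end Pool.Agent.MAT
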