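import Pool.Agent.MAT.T

/-!
# MAT, FORB: orbits in the `ω`-plane
-/

set_option autoImplicit false

open Polynomial Metric Set Filter Topology

noncomputable section

namespace Pool.Agent.MAT

namespace FORB_

lemma norm_lb {R : ℝ} {ω : ℂ} (h : ω ∈ PR R) : R / 2 < ‖ω‖ := by
  have h1 : R < ω.re + |ω.im| := h
  have h2 := Complex.re_le_norm ω
  have h3 := Complex.abs_im_le_norm ω
  linarith

lemma re_lb {R : ℝ} (hR : 0 ≤ R) {ω : ℂ} (h : ω ∈ PR R) : -(3 / 4 * ‖ω‖) ≤ ω.re := by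
  have h1 : R < ω.re + |ω.im| := h
  have hn := norm_nonneg ω
  rcases le_or_gt 0 ω.re with h2 | h2
  · linarith
  · have h3 : -ω.re < |ω.im| := by linarith
    have h4 : ω.re ^ 2 < ω.im ^ 2 := by
      rw [← sq_abs ω.im]
      nlinarith
    have h5 : ‖ω‖ ^ 2 = ω.re ^ 2 + ω.im ^ 2 := by
      rw [Complex.sq_norm, Complex.normSq_apply]
      ring
    nlinarith

/-- the distance to the translated point -/
lemma add_lb {R : ℝ} (hR : 0 ≤ R) {ω : ℂ} (h : ω ∈ PR R) (m : ℕ) :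
    5 / 16 * (‖ω‖ + m) ≤ ‖ω + m‖ := by
  have h1 := re_lb hR h
  have hn := norm_nonneg ω
  have hm : (0 : ℝ) ≤ m := Nat.cast_nonneg m
  have h5 : ‖ω‖ ^ 2 = ω.re ^ 2 + ω.im ^ 2 := by
    rw [Complex.sq_norm, Complex.normSq_apply]
    ring
  have h6 : ‖ω + m‖ ^ 2 = (ω.re + m) ^ 2 + ω.im ^ 2 := by
    rw [Complex.sq_norm, Complex.normSq_apply]
    simp
    ring
  have h7 : (5 / 16 * (‖ω‖ + m)) ^ 2 ≤ ‖ω + m‖ ^ 2 := by
    have h8 : 0 ≤ (m : ℝ) * (3 / 4 * ‖ω‖ + ω.re) := mul_nonneg hm (by linarith)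
    have h9 : 0 ≤ ‖ω‖ * m := mul_nonneg hn hm
    nlinarith [sq_nonneg (‖ω‖ - m)]
  exact le_of_sq_le_sq h7 (norm_nonneg _)

end FORB_

open FORB_ in
/-- FORB -/
theorem p_FORB : T_FORB := by
  intro F β R₀ C₀ hF
  have hR0 := hF.hR
  have hC0 := hF.hC
  have hβ := norm_nonneg β
  refine ⟨2 * R₀ + 64 * (‖β‖ + C₀ + 1), by linarith, ?_⟩
  intro R hR
  have hstep : ∀ ω ∈ PR R, R₀ < ‖ω‖ ∧ ‖F ω - ω - 1‖ ≤ 1 / 16 ∧ F ω ∈ PR R := by
    intro ω hω
    have h1 := norm_lb hω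
    have h2 : R₀ < ‖ω‖ := by linarith
    have h3 : 32 * (‖β‖ + C₀ + 1) < ‖ω‖ := by linarith
    have h4 : 1 ≤ ‖ω‖ := by linarith
    have h5 : 0 < ‖ω‖ := by linarith
    have h6 := hF.est ω h2
    have h7 : ‖β / ω‖ ≤ 1 / 32 := by
      rw [norm_div, div_le_iff₀ h5]
      linarith
    have h8 : C₀ / ‖ω‖ ^ 2 ≤ 1 / 32 := by
      rw [div_le_iff₀ (by positivity)]
      nlinarith
    have h9 : ‖F ω - ω - 1‖ ≤ 1 / 16 := by
      have h10 : F ω - ω - 1 = (F ω - ω - 1 - β / ω) + β / ω := by ring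
      rw [h10]
      refine (norm_add_le _ _).trans ?_
      linarith
    refine ⟨h2, h9, ?_⟩
    have hω' : R < ω.re + |ω.im| := hω
    have h11 := Complex.abs_re_le_norm (F ω - ω - 1)
    have h12 := Complex.abs_im_le_norm (F ω - ω - 1)
    have h13 : (F ω - ω - 1).re = (F ω).re - ω.re - 1 := by simp
    have h14 : (F ω - ω - 1).im = (F ω).im - ω.im := by simp
    rw [h13] at h11
    rw [h14] at h12
    have h15 := (abs_le.mp (h11.trans h9)).1
    have h16 : |ω.im| - |(F ω).im| ≤ 1 / 16 := by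
      refine (abs_sub_abs_le_abs_sub _ _).trans ?_
      rw [abs_sub_comm]
      exact h12.trans h9
    show R < (F ω).re + |(F ω).im|
    linarith
  intro ω hω
  have hiter : ∀ m : ℕ, F^[m] ω ∈ PR R ∧ ‖F^[m] ω - (ω + m)‖ ≤ m / 16 := by
    intro m
    induction m with
    | zero =>
      refine ⟨hω, ?_⟩
      simp
    | succ m ih =>
      rw [Function.iterate_succ_apply']
      obtain ⟨-, h1, h2⟩ := hstep _ ih.1
      refine ⟨h2, ?_⟩
      have h3 : F (F^[m] ω) - (ω + ((m + 1 : ℕ) : ℂ)) =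
          (F (F^[m] ω) - F^[m] ω - 1) + (F^[m] ω - (ω + m)) := by
        push_cast
        ring
      rw [h3]
      refine (norm_add_le _ _).trans ?_
      have h4 := ih.2
      push_cast
      linarith
  refine ⟨(hstep ω hω).1, (hstep ω hω).2.2, fun m => ⟨(hiter m).2, ?_⟩⟩
  have h1 := add_lb (by linarith : 0 ≤ R) hω m
  have h2 := (hiter m).2
  have h3 : ‖ω + m‖ ≤ ‖F^[m] ω‖ + ‖F^[m] ω - (ω + m)‖ := by
    have h4 : ω + m = F^[m] ω - (F^[m] ω - (ω + m)) := by ring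
    calc ‖ω + m‖ = ‖F^[m] ω - (F^[m] ω - (ω + m))‖ := by rw [← h4]
      _ ≤ _ := norm_sub_le _ _
  have hn := norm_nonneg ω
  linarith

end Pool.Agent.MAT
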