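import Pool.Agent.MAT.T

/-!
# MAT: FSUR (inverse of the Fatou coordinate on a right half plane)
-/

set_option autoImplicit false

open Polynomial Metric Set Filter Topology

noncomputable section

namespace Pool.Agent.MAT

namespace FSUR_

theorem pr_open (R : ℝ) : IsOpen (PR R) := by
  have h : Continuous fun ω : ℂ => ω.re + |ω.im| := by fun_prop
  exact isOpen_lt continuous_const h

theorem log_norm (x : ℂ) (hx : 1 ≤ ‖x‖) : ‖Complex.log x‖ ≤ Real.log ‖x‖ + Real.pi := by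
  rw [Complex.log]
  refine (norm_add_le _ _).trans ?_
  have h1 : ‖((Real.log ‖x‖ : ℝ) : ℂ)‖ = Real.log ‖x‖ := by
    rw [Complex.norm_real, Real.norm_eq_abs, abs_of_nonneg (Real.log_nonneg hx)]
  have h2 : ‖(Complex.arg x : ℂ) * Complex.I‖ ≤ Real.pi := by
    rw [norm_mul, Complex.norm_I, mul_one, Complex.norm_real, Real.norm_eq_abs]
    exact Complex.abs_arg_le_pi x
  linarith

theorem big (b C : ℝ) (hb : 0 ≤ b) : ∃ T : ℝ, ∀ t : ℝ, T ≤ t →
    b * (Real.log (2 * t) + Real.pi) + C < t / 32 := by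
  have h1 : ∀ᶠ x : ℝ in atTop, ‖Real.log x‖ ≤ (1 / (256 * (b + 1))) * ‖x‖ :=
    Real.isLittleO_log_id_atTop.bound (by positivity)
  have h2 : Tendsto (fun t : ℝ => 2 * t) atTop atTop :=
    tendsto_id.const_mul_atTop (by norm_num)
  have h3 := h2.eventually h1
  obtain ⟨T, hT⟩ := eventually_atTop.mp h3
  refine ⟨max (max T 1) (64 * (b * Real.pi + |C| + 1)), fun t ht => ?_⟩
  have hT1 : T ≤ t := le_trans (le_trans (le_max_left _ _) (le_max_left _ _)) ht
  have ht1 : 1 ≤ t := le_trans (le_trans (le_max_right _ _) (le_max_left _ _)) ht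
  have ht2 : 64 * (b * Real.pi + |C| + 1) ≤ t := le_trans (le_max_right _ _) ht
  have h4 := hT t hT1
  rw [Real.norm_eq_abs, Real.norm_eq_abs, abs_of_nonneg (by linarith : (0 : ℝ) ≤ 2 * t)] at h4
  have h5 : Real.log (2 * t) ≤ 1 / (256 * (b + 1)) * (2 * t) := (le_abs_self _).trans h4
  have h6 : b * Real.log (2 * t) ≤ t / 128 := by
    calc b * Real.log (2 * t) ≤ b * (1 / (256 * (b + 1)) * (2 * t)) :=
          mul_le_mul_of_nonneg_left h5 hb
      _ = (b / (b + 1)) * (t / 128) := by field_simp; ring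
      _ ≤ 1 * (t / 128) := by
          apply mul_le_mul_of_nonneg_right _ (by positivity)
          rw [div_le_one (by positivity)]
          linarith
      _ = t / 128 := one_mul _
  have h7 : C ≤ |C| := le_abs_self C
  nlinarith

/-- Surjectivity onto a right half plane. -/
theorem surj (β : ℂ) (R₁ C : ℝ) (Φ : ℂ → ℂ) (hR : 1 ≤ R₁) (hC : 0 ≤ C)
    (hd : DifferentiableOn ℂ Φ (PR R₁)) (hi : InjOn Φ (PR R₁))
    (ha : ∀ ω ∈ PR R₁, ‖Φ ω - Lin β ω‖ ≤ C / ‖ω‖) :
    ∃ R₂ : ℝ, R₁ ≤ R₂ ∧ ∀ w : ℂ, R₂ < w.re → ∃ x ∈ PR R₁, Φ x = w := by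
  obtain ⟨T, hT⟩ := big ‖β‖ C (norm_nonneg _)
  refine ⟨max T (2 * R₁), le_trans (by linarith) (le_max_right _ _), fun w hw => ?_⟩
  have hw1 : T < w.re := lt_of_le_of_lt (le_max_left _ _) hw
  have hw2 : 2 * R₁ < w.re := lt_of_le_of_lt (le_max_right _ _) hw
  have hwn : w.re ≤ ‖w‖ := Complex.re_le_norm w
  have hw3 : 2 < ‖w‖ := by linarith
  have hB := hT ‖w‖ (by linarith)
  -- the closed ball is in the region
  have hball : closedBall w (‖w‖ / 8) ⊆ PR R₁ := by
    intro x hx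
    rw [mem_closedBall, dist_eq_norm] at hx
    have h1 : |(x - w).re| ≤ ‖x - w‖ := Complex.abs_re_le_norm _
    have h2 : |(x - w).im| ≤ ‖x - w‖ := Complex.abs_im_le_norm _
    have h3 : ‖w‖ ≤ |w.re| + |w.im| := Complex.norm_le_abs_re_add_abs_im w
    rw [abs_of_pos (by linarith : 0 < w.re)] at h3
    rw [Complex.sub_re] at h1
    rw [Complex.sub_im] at h2
    have h4 : |w.im| ≤ |x.im| + |x.im - w.im| := by
      have := abs_sub_abs_le_abs_sub w.im x.im
      rw [abs_sub_comm w.im x.im] at this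
      linarith
    have h5 := neg_abs_le (x.re - w.re)
    show R₁ < x.re + |x.im|
    linarith
  have hbd : ∀ x ∈ closedBall w (‖w‖ / 8), ‖Φ x - x‖ < ‖w‖ / 32 := by
    intro x hx
    have hxP := hball hx
    rw [mem_closedBall, dist_eq_norm] at hx
    have h1 : ‖x‖ ≤ 2 * ‖w‖ := by
      have := norm_le_norm_add_norm_sub' x w
      linarith
    have h2 : 1 ≤ ‖x‖ := by
      have := norm_le_norm_add_norm_sub' w x
      rw [norm_sub_rev] at this
      linarith
    have h3 := ha x hxP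
    have h4 : C / ‖x‖ ≤ C := div_le_self hC h2
    have h5 := log_norm x h2
    have h6 : Real.log ‖x‖ ≤ Real.log (2 * ‖w‖) := Real.log_le_log (by linarith) h1
    have h7 : Φ x - x = (Φ x - Lin β x) - β * Complex.log x := by
      rw [Lin]; ring
    rw [h7]
    calc ‖(Φ x - Lin β x) - β * Complex.log x‖ ≤ ‖Φ x - Lin β x‖ + ‖β * Complex.log x‖ :=
          norm_sub_le _ _
      _ ≤ C + ‖β‖ * (Real.log (2 * ‖w‖) + Real.pi) := by
          rw [norm_mul]
          have := mul_le_mul_of_nonneg_left (h5.trans (by linarith :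
            Real.log ‖x‖ + Real.pi ≤ Real.log (2 * ‖w‖) + Real.pi)) (norm_nonneg β)
          linarith
      _ < ‖w‖ / 32 := by linarith
  have hr : 0 < ‖w‖ / 8 := by linarith
  have hdc : DiffContOnCl ℂ Φ (ball w (‖w‖ / 8)) := by
    apply DifferentiableOn.diffContOnCl
    exact hd.mono (closure_ball_subset_closedBall.trans hball)
  have hwc : w ∈ closedBall w (‖w‖ / 8) := mem_closedBall_self hr.le
  have hs : ∀ z ∈ sphere w (‖w‖ / 8), ‖w‖ / 16 ≤ ‖Φ z - Φ w‖ := by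
    intro z hz
    have h1 := hbd z (sphere_subset_closedBall hz)
    have h2 := hbd w hwc
    rw [mem_sphere, dist_eq_norm] at hz
    have h3 : z - w = (Φ z - Φ w) - (Φ z - z) + (Φ w - w) := by ring
    have h4 : ‖z - w‖ ≤ ‖Φ z - Φ w‖ + ‖Φ z - z‖ + ‖Φ w - w‖ := by
      rw [h3]
      exact (norm_add_le _ _).trans (add_le_add (norm_sub_le _ _) le_rfl)
    linarith
  have hf : ∃ᶠ z in 𝓝 w, Φ z ≠ Φ w := by
    have h1 : ∀ᶠ z in 𝓝[≠] w, Φ z ≠ Φ w := by
      have h2 : ∀ᶠ z in 𝓝[≠] w, z ∈ PR R₁ :=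
        mem_nhdsWithin_of_mem_nhds ((pr_open R₁).mem_nhds (hball hwc))
      filter_upwards [h2, self_mem_nhdsWithin] with z hz1 hz2 h
      exact hz2 (hi hz1 (hball hwc) h)
    exact h1.frequently.filter_mono nhdsWithin_le_nhds
  have hsub := hdc.ball_subset_image_closedBall hr hs hf
  have hwb : w ∈ ball (Φ w) (‖w‖ / 16 / 2) := by
    rw [mem_ball, dist_eq_norm, norm_sub_rev]
    have := hbd w hwc
    linarith
  obtain ⟨x, hx, hxw⟩ := hsub hwb
  exact ⟨x, hball hx, hxw⟩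

end FSUR_

/-- FSUR (inverse of the coordinate on a right half plane) -/
theorem p_FSUR (hI : T_INVH) : T_FSUR := by
  intro β R₁ C Φ hR hC hd hi ha
  obtain ⟨R₂, hR₂, hs⟩ := FSUR_.surj β R₁ C Φ hR hC hd hi ha
  obtain ⟨_, h, hh, hl⟩ := hI (PR R₁) Φ (FSUR_.pr_open R₁) hd hi
  refine ⟨R₂, h, hR₂, hh.mono ?_, fun w hw => ?_⟩
  · intro w hw
    obtain ⟨x, hx, hxw⟩ := hs w hw
    exact ⟨x, hx, hxw⟩
  · obtain ⟨x, hx, rfl⟩ := hs w hw
    rw [(hl.1 x hx)]
    exact ⟨hx, rfl⟩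

end Pool.Agent.MAT
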