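import Pool.Agent.MAT.T

/-! MAT: FV, the local inverse of a parabolic germ -/

set_option autoImplicit false

open Polynomial Metric Set Filter Topology

noncomputable section

namespace Pool.Agent.MAT.FV_

/-- local inverse of an analytic function with derivative one -/
lemma loc_inv {f : ℂ → ℂ} (hf : AnalyticAt ℂ f 0) (h0 : f 0 = 0) (h1 : HasDerivAt f 1 0) :
    ∃ h : ℂ → ℂ, AnalyticAt ℂ h 0 ∧ h 0 = 0 ∧ HasDerivAt h 1 0 ∧
      (∀ᶠ z in 𝓝 (0 : ℂ), f (h z) = z) ∧ ∀ᶠ z in 𝓝 (0 : ℂ), h (f z) = z := by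
  have hc : ContDiffAt ℂ 1 f 0 := hf.contDiffAt
  have hd : HasFDerivAt f
      (((ContinuousLinearEquiv.refl ℂ ℂ) : ℂ ≃L[ℂ] ℂ) : ℂ →L[ℂ] ℂ) 0 := by
    have h2 := h1.hasFDerivAt
    have h3 : (((ContinuousLinearEquiv.refl ℂ ℂ) : ℂ ≃L[ℂ] ℂ) : ℂ →L[ℂ] ℂ) =
        ContinuousLinearMap.toSpanSingleton ℂ (1 : ℂ) := by
      ext
      simp
    rw [h3]
    exact h2
  have hst := hc.hasStrictFDerivAt' hd one_ne_zero
  have hcc := hc.to_localInverse hd one_ne_zero
  have hi := hc.localInverse_apply_image hd one_ne_zero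
  have hr : ∀ᶠ z in 𝓝 (f 0), f (hc.localInverse hd one_ne_zero z) = z :=
    hst.eventually_right_inverse
  have hl : ∀ᶠ z in 𝓝 (0 : ℂ), hc.localInverse hd one_ne_zero (f z) = z :=
    hst.eventually_left_inverse
  rw [h0] at hcc hr hi
  have han : AnalyticAt ℂ (hc.localInverse hd one_ne_zero) 0 := by
    rw [Complex.analyticAt_iff_eventually_differentiableAt]
    exact (hcc.eventually (by simp)).mono fun y hy => hy.differentiableAt one_ne_zero
  refine ⟨hc.localInverse hd one_ne_zero, han, hi, ?_, hr, hl⟩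
  have h3 := han.differentiableAt.hasDerivAt
  have h4 : HasDerivAt (fun z => f (hc.localInverse hd one_ne_zero z))
      (1 * deriv (hc.localInverse hd one_ne_zero) 0) 0 :=
    HasDerivAt.comp (h₂ := f) (0 : ℂ) (by rw [hi]; exact h1) h3
  have h5 : HasDerivAt (fun z => f (hc.localInverse hd one_ne_zero z)) 1 0 :=
    (hasDerivAt_id (0 : ℂ)).congr_of_eventuallyEq hr
  have h6 := h4.unique h5
  rw [one_mul] at h6
  rwa [h6] at h3

end Pool.Agent.MAT.FV_

namespace Pool.Agent.MAT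

open FV_

theorem p_FV : T_FV := by
  intro e r hr he he0
  have hmem : ball (0 : ℂ) r ∈ 𝓝 (0 : ℂ) := ball_mem_nhds 0 hr
  have hean : AnalyticAt ℂ e 0 := he.analyticAt hmem
  have hed : HasDerivAt e (deriv e 0) 0 := hean.differentiableAt.hasDerivAt
  -- the germ
  have hfan : AnalyticAt ℂ (fun z => z + z ^ 2 * e z) 0 :=
    analyticAt_id.add ((analyticAt_id.pow 2).mul hean)
  have hf1 : HasDerivAt (fun z => z + z ^ 2 * e z) 1 0 := by
    have h1 : HasDerivAt (fun z : ℂ => z + z ^ 2 * e z)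
        (1 + (((2 : ℕ) : ℂ) * 0 ^ (2 - 1) * 1 * e 0 + 0 ^ 2 * deriv e 0)) 0 :=
      (hasDerivAt_id' (0 : ℂ)).add (((hasDerivAt_id' (0 : ℂ)).pow 2).mul hed)
    exact h1.congr_deriv (by simp)
  obtain ⟨h, han, h0, hd, hfh, hhf⟩ := loc_inv hfan (by simp) hf1
  -- the function `E`
  have hk0 : dslope h 0 0 = 1 := by rw [dslope_same, hd.deriv]
  obtain ⟨E, hE⟩ : ∃ E : ℂ → ℂ, E = fun z => -dslope (dslope h 0) 0 z := ⟨_, rfl⟩
  have hid : ∀ z : ℂ, h z = z - z ^ 2 * E z := by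
    intro z
    have h1 := sub_smul_dslope h 0 z
    have h2 := sub_smul_dslope (dslope h 0) 0 z
    rw [hk0] at h2
    rw [h0] at h1
    simp only [sub_zero, smul_eq_mul] at h1 h2
    have h3 : dslope h 0 z = 1 + z * dslope (dslope h 0) 0 z := by
      rw [h2]
      ring
    rw [← h1, h3, hE]
    ring
  have hdiff : ∀ᶠ z in 𝓝 (0 : ℂ), DifferentiableAt ℂ h z :=
    han.eventually_analyticAt.mono fun z hz => hz.differentiableAt
  have hEdiff : ∀ ρ : ℝ, 0 < ρ → DifferentiableOn ℂ h (ball 0 ρ) →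
      DifferentiableOn ℂ E (ball 0 ρ) := by
    intro ρ hρ h1
    have h2 : ball (0 : ℂ) ρ ∈ 𝓝 (0 : ℂ) := ball_mem_nhds 0 hρ
    rw [hE]
    exact ((Complex.differentiableOn_dslope h2).mpr
      ((Complex.differentiableOn_dslope h2).mpr h1)).neg
  obtain ⟨ρ, hρ, hρ'⟩ := Metric.eventually_nhds_iff_ball.mp hdiff
  have hEan : AnalyticAt ℂ E 0 :=
    (hEdiff ρ hρ fun z hz => (hρ' z hz).differentiableWithinAt).analyticAt (ball_mem_nhds 0 hρ)
  have hEd : HasDerivAt E (deriv E 0) 0 := hEan.differentiableAt.hasDerivAt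
  -- the equation for `E`
  have hhc : HasDerivAt (fun z => e (h z)) (deriv e 0 * 1) 0 :=
    HasDerivAt.comp (h₂ := e) (0 : ℂ) (by rw [h0]; exact hed) hd
  have hFd : HasDerivAt (fun z => (1 - z * E z) ^ 2 * e (h z) - E z)
      (-(2 * E 0) * e 0 + deriv e 0 - deriv E 0) 0 := by
    have h1 := ((((hasDerivAt_id' (0 : ℂ)).mul hEd).const_sub 1).pow 2).mul hhc |>.sub hEd
    refine HasDerivAt.congr_deriv (f' := _) h1 ?_
    simp [h0]
  have heq : ∀ᶠ z in 𝓝[≠] (0 : ℂ), (1 - z * E z) ^ 2 * e (h z) - E z = 0 := by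
    filter_upwards [hfh.filter_mono nhdsWithin_le_nhds, self_mem_nhdsWithin] with z hz hz0
    have h1 : z ^ 2 * ((1 - z * E z) ^ 2 * e (h z) - E z) = 0 := by
      have h2 : h z + h z ^ 2 * e (h z) = z := hz
      have h3 : h z ^ 2 = z ^ 2 * (1 - z * E z) ^ 2 := by
        rw [hid z]
        ring
      rw [h3] at h2
      have h4 := hid z
      linear_combination h2 - h4
    rcases mul_eq_zero.mp h1 with h2 | h2
    · exact absurd (pow_eq_zero_iff (two_ne_zero)|>.mp h2) hz0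
    · exact h2
  have heq0 : (1 - 0 * E 0) ^ 2 * e (h 0) - E 0 = 0 := by
    have h1 : Tendsto (fun z => (1 - z * E z) ^ 2 * e (h z) - E z) (𝓝[≠] (0 : ℂ))
        (𝓝 ((1 - 0 * E 0) ^ 2 * e (h 0) - E 0)) :=
      hFd.continuousAt.tendsto.mono_left nhdsWithin_le_nhds
    have h2 : Tendsto (fun z => (1 - z * E z) ^ 2 * e (h z) - E z) (𝓝[≠] (0 : ℂ)) (𝓝 0) :=
      tendsto_const_nhds.congr' (heq.mono fun z hz => hz.symm)
    exact tendsto_nhds_unique h1 h2
  have hE0 : E 0 = 1 := by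
    rw [h0, he0] at heq0
    linear_combination -heq0
  have heq' : ∀ᶠ z in 𝓝 (0 : ℂ), (1 - z * E z) ^ 2 * e (h z) - E z = 0 := by
    rw [eventually_nhdsWithin_iff] at heq
    filter_upwards [heq] with z hz
    by_cases hz0 : z = 0
    · rw [hz0]
      exact heq0
    · exact hz hz0
  have hE1 : deriv E 0 = deriv e 0 - 2 := by
    have h1 : HasDerivAt (fun z => (1 - z * E z) ^ 2 * e (h z) - E z) 0 0 :=
      (hasDerivAt_const (0 : ℂ) (0 : ℂ)).congr_of_eventuallyEq heq'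
    have h2 := hFd.unique h1
    rw [hE0, he0] at h2
    linear_combination -h2
  -- the radii
  have hev2 : ∀ᶠ z in 𝓝 (0 : ℂ), DifferentiableAt ℂ h z ∧ h z + h z ^ 2 * e (h z) = z ∧
      h z ∈ ball (0 : ℂ) r := by
    refine hdiff.and (hfh.and ?_)
    have h1 : Tendsto h (𝓝 0) (𝓝 (h 0)) := hd.continuousAt
    rw [h0] at h1
    exact h1.eventually (ball_mem_nhds 0 hr)
  obtain ⟨r₂, hr₂, hb₂⟩ := Metric.eventually_nhds_iff_ball.mp hev2
  have hev1 : ∀ᶠ z in 𝓝 (0 : ℂ), z + z ^ 2 * e z ∈ ball (0 : ℂ) r₂ ∧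
      h (z + z ^ 2 * e z) = z := by
    refine Eventually.and ?_ hhf
    have h1 : Tendsto (fun z => z + z ^ 2 * e z) (𝓝 0) (𝓝 (0 + 0 ^ 2 * e 0)) :=
      hf1.continuousAt
    have h2 : (0 : ℂ) + 0 ^ 2 * e 0 = 0 := by ring
    rw [h2] at h1
    exact h1.eventually (ball_mem_nhds 0 hr₂)
  obtain ⟨r₃, hr₃, hb₃⟩ := Metric.eventually_nhds_iff_ball.mp hev1
  refine ⟨fun y => E (-y), min r₃ (min r₂ r), r₂, lt_min hr₃ (lt_min hr₂ hr),
    (min_le_right _ _).trans (min_le_left _ _), (min_le_right _ _).trans (min_le_right _ _),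
    ?_, ?_, ?_, ?_⟩
  · have h1 : DifferentiableOn ℂ E (ball 0 r₂) :=
      hEdiff r₂ hr₂ fun z hz => (hb₂ z hz).1.differentiableWithinAt
    refine h1.comp differentiable_neg.differentiableOn fun y hy => ?_
    rw [mem_ball_zero_iff] at hy ⊢
    rwa [norm_neg]
  · simp [hE0]
  · have h1 : HasDerivAt (fun y : ℂ => E (-y)) (deriv E 0 * -1) 0 :=
      HasDerivAt.comp (h₂ := E) (0 : ℂ) (by rw [neg_zero]; exact hEd) (hasDerivAt_neg' (0 : ℂ))
    rw [h1.deriv, hE1]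
    ring
  · intro z hz
    have hz3 : z ∈ ball (0 : ℂ) r₃ := ball_subset_ball (min_le_left _ _) hz
    have hz2 : z ∈ ball (0 : ℂ) r₂ :=
      ball_subset_ball ((min_le_right _ _).trans (min_le_left _ _)) hz
    obtain ⟨_, h1, h2⟩ := hb₂ z hz2
    obtain ⟨h3, h4⟩ := hb₃ z hz3
    have h5 : z - z ^ 2 * E (- -z) = h z := by
      rw [neg_neg]
      exact (hid z).symm
    refine ⟨⟨?_, ?_⟩, h3, ?_⟩
    · show z - z ^ 2 * E (- -z) ∈ ball (0 : ℂ) r
      rw [h5]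
      exact h2
    · show z - z ^ 2 * E (- -z) + (z - z ^ 2 * E (- -z)) ^ 2 * e (z - z ^ 2 * E (- -z)) = z
      rw [h5]
      exact h1
    · show (z + z ^ 2 * e z) - (z + z ^ 2 * e z) ^ 2 * E (- -(z + z ^ 2 * e z)) = z
      rw [neg_neg, ← hid]
      exact h4

end Pool.Agent.MAT
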