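import Pool.Agent.MAT.T

/-!
# MAT: target GAB (orbits converging to the parabolic point enter the basin)
-/

set_option autoImplicit false

open Polynomial Metric Set Filter Topology

noncomputable section

namespace Pool.Agent.MAT

namespace GAB_

/-- a polynomial with `P 1 = 1`, `P' 1 = 1`, `P'' 1 = 2 A` -/
theorem expand (P : ℂ[X]) (A : ℂ) (h0 : P.eval 1 = 1) (h1 : (derivative P).eval 1 = 1)
    (h2 : (derivative (derivative P)).eval 1 = 2 * A) :
    ∃ R : ℂ[X], R.eval 0 = A ∧ ∀ z : ℂ, P.eval (1 + z) = 1 + z + z ^ 2 * R.eval z := by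
  set T : ℂ[X] := taylor 1 P with hT
  have c0 : T.coeff 0 = 1 := by rw [hT, taylor_coeff_zero, h0]
  have c1 : T.coeff 1 = 1 := by rw [hT, taylor_coeff_one, h1]
  have c2 : T.coeff 2 = A := by
    have h3 := congrFun (factorial_smul_hasseDeriv (R := ℂ) 2) P
    have h4 : (Nat.factorial 2) • (hasseDeriv 2 P) = derivative (derivative P) := by
      simpa using h3
    have h5 := congrArg (Polynomial.eval (1 : ℂ)) h4
    rw [h2] at h5
    rw [hT, taylor_coeff]
    have h6 : (2 : ℂ) * (hasseDeriv 2 P).eval 1 = 2 * A := by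
      rw [← h5]
      simp [Nat.factorial]
    exact mul_left_cancel₀ two_ne_zero h6
  refine ⟨divX (divX T), ?_, fun z => ?_⟩
  · rw [← coeff_zero_eq_eval_zero, coeff_divX, coeff_divX]
    exact c2
  · have e1 : T.eval z = P.eval (1 + z) := by
      rw [hT, taylor_eval, add_comm]
    have e2 : T.eval z = (divX T).eval z * z + 1 := by
      conv_lhs => rw [← divX_mul_X_add T]
      simp [c0]
    have e3 : (divX T).eval z = (divX (divX T)).eval z * z + 1 := by
      conv_lhs => rw [← divX_mul_X_add (divX T)]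
      have : (divX T).coeff 0 = 1 := by rw [coeff_divX]; exact c1
      simp [this]
    rw [← e1, e2, e3]
    ring

/-- the step of `- 1 / (A z)` -/
theorem step {A z r : ℂ} (hA : A ≠ 0) (hz : z ≠ 0) (hz' : z + z ^ 2 * r ≠ 0) :
    -1 / (A * (z + z ^ 2 * r)) - -1 / (A * z) = (r / A) / (1 + z * r) := by
  have h1 : 1 + z * r ≠ 0 := by
    intro h
    apply hz'
    calc z + z ^ 2 * r = z * (1 + z * r) := by ring
      _ = 0 := by rw [h, mul_zero]
  have h2 : z + z ^ 2 * r = z * (1 + z * r) := by ring
  rw [h2]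
  field_simp
  ring

/-- a real sequence with increments tending to one tends to infinity -/
theorem real_inf {x : ℕ → ℝ} (h : Tendsto (fun m => x (m + 1) - x m) atTop (𝓝 1)) :
    Tendsto x atTop atTop := by
  have h1 : ∀ᶠ m in atTop, 1 / 2 < x (m + 1) - x m :=
    h.eventually (lt_mem_nhds (by norm_num))
  obtain ⟨M, hM⟩ := eventually_atTop.1 h1
  have h2 : ∀ j : ℕ, x M + j / 2 ≤ x (M + j) := by
    intro j
    induction j with
    | zero => simp
    | succ j ih =>
      have h3 := hM (M + j) (Nat.le_add_right _ _)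
      have h4 : M + (j + 1) = M + j + 1 := by ring
      rw [h4]
      push_cast
      linarith
  have h3 : Tendsto (fun j : ℕ => x (j + M)) atTop atTop := by
    refine tendsto_atTop_mono (fun j => ?_)
      (tendsto_atTop_add_const_left atTop (x M)
        ((tendsto_natCast_atTop_atTop (R := ℝ)).atTop_div_const (by norm_num : (0 : ℝ) < 2)))
    rw [add_comm j M]
    exact h2 j
  exact (tendsto_add_atTop_iff_nat M).1 h3

/-- points with large coordinate are in the unit disk -/
theorem inside {A : ℝ} (hA : 0 < A) {z : ℂ} (hz : z ≠ 0)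
    (h : 1 / (2 * A) < (-1 / ((A : ℂ) * z)).re) : ‖1 + z‖ < 1 := by
  have hz2 : 0 < Complex.normSq z := Complex.normSq_pos.2 hz
  have h1 : (-1 / ((A : ℂ) * z)) = ((-1 / A : ℝ) : ℂ) * z⁻¹ := by
    have : (A : ℂ) ≠ 0 := by exact_mod_cast hA.ne'
    push_cast
    field_simp
  rw [h1, Complex.re_ofReal_mul, Complex.inv_re] at h
  have h2 : Complex.normSq z < -2 * z.re := by
    have h3 : 1 / (2 * A) * (2 * A * Complex.normSq z) <
        -1 / A * (z.re / Complex.normSq z) * (2 * A * Complex.normSq z) := by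
      apply mul_lt_mul_of_pos_right h
      positivity
    have h4 : 1 / (2 * A) * (2 * A * Complex.normSq z) = Complex.normSq z := by
      field_simp
    have h5 : -1 / A * (z.re / Complex.normSq z) * (2 * A * Complex.normSq z) = -2 * z.re := by
      field_simp
    rw [h4, h5] at h3
    exact h3
  have h6 : ‖1 + z‖ ^ 2 < 1 := by
    rw [← Complex.normSq_eq_norm_sq, Complex.normSq_apply]
    rw [Complex.normSq_apply] at h2
    simp only [Complex.add_re, Complex.one_re, Complex.add_im, Complex.one_im]
    nlinarith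
  nlinarith [norm_nonneg (1 + z)]

end GAB_

open GAB_ in
theorem p_GAB (hGEL : T_GEL) : T_GAB := by
  intro n e hn he he2 v hv hne
  obtain ⟨g1, gd, -, -, g2, -, hA, ⟨P, -, hP, -⟩, -⟩ := hGEL n e hn he he2
  have hfun : GG n e = fun v => P.eval v := by
    funext w; exact (hP w).symm
  have hd : deriv (GG n e) = fun w => (derivative P).eval w := by
    rw [hfun]; funext w; simp
  have d1 : (derivative P).eval 1 = 1 := by
    have h1 := (gd 1).deriv
    rw [hd] at h1
    simp only [one_pow, one_mul] at h1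
    rw [h1]
    have : (1 : ℂ) + e ≠ 0 := by
      intro h
      have := congrArg Complex.re h
      simp at this
      linarith
    exact div_self this
  have d2 : (derivative (derivative P)).eval 1 = 2 * (cA n e : ℂ) := by
    rw [← g2, iteratedDeriv_succ, iteratedDeriv_one, hd]
    simp
  obtain ⟨R, hR0, hR⟩ := expand P (cA n e : ℂ) (by rw [hP, g1]) d1 d2
  set A : ℝ := cA n e with hAdef
  have hAc : (A : ℂ) ≠ 0 := by exact_mod_cast hA.ne'
  set z : ℕ → ℂ := fun m => (GG n e)^[m] v - 1 with hz
  have hz0 : ∀ m, z m ≠ 0 := fun m h => hne m (sub_eq_zero.1 h)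
  have hzt : Tendsto z atTop (𝓝 0) := by
    have := hv.sub_const 1
    simpa [hz] using this
  have hzs : ∀ m, z (m + 1) = z m + z m ^ 2 * R.eval (z m) := by
    intro m
    simp only [hz]
    rw [Function.iterate_succ_apply', ← hP]
    have h1 : (GG n e)^[m] v = 1 + ((GG n e)^[m] v - 1) := by ring
    have h2 := hR ((GG n e)^[m] v - 1)
    rw [← h1] at h2
    rw [h2]
    ring
  have hRt : Tendsto (fun m => R.eval (z m)) atTop (𝓝 (A : ℂ)) := by
    rw [← hR0]
    exact (R.continuous.tendsto 0).comp hzt
  have hinc : Tendsto (fun m => -1 / ((A : ℂ) * z (m + 1)) - -1 / ((A : ℂ) * z m)) atTop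
      (𝓝 1) := by
    have h1 : ∀ m, -1 / ((A : ℂ) * z (m + 1)) - -1 / ((A : ℂ) * z m) =
        (R.eval (z m) / A) / (1 + z m * R.eval (z m)) := by
      intro m
      rw [hzs m]
      exact step hAc (hz0 m) (by rw [← hzs m]; exact hz0 (m + 1))
    simp_rw [h1]
    have h2 : Tendsto (fun m => (R.eval (z m) / A) / (1 + z m * R.eval (z m))) atTop
        (𝓝 (((A : ℂ) / A) / (1 + 0 * (A : ℂ)))) := by
      refine (hRt.div_const _).div ((hzt.mul hRt).const_add 1) ?_
      simp
    simpa [div_self hAc] using h2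
  have hre : Tendsto (fun m => (-1 / ((A : ℂ) * z (m + 1))).re - (-1 / ((A : ℂ) * z m)).re)
      atTop (𝓝 1) := by
    have h1 := (Complex.continuous_re.tendsto 1).comp hinc
    rw [Complex.one_re] at h1
    refine h1.congr (fun m => ?_)
    simp only [Function.comp_apply, Complex.sub_re]
  have hinf := real_inf (x := fun m => (-1 / ((A : ℂ) * z m)).re) hre
  obtain ⟨m, hm⟩ := (hinf.eventually (eventually_gt_atTop (1 / (2 * A)))).exists
  refine ⟨m, ?_⟩
  have := inside hA (hz0 m) hm
  simpa [hz] using this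

end Pool.Agent.MAT
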