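import Pool.Agent.MAT.T

/-!
# MAT: GAT, points of large height are attracted
-/

set_option autoImplicit false

open Polynomial Metric Set Filter Topology

noncomputable section

namespace Pool.Agent.MAT

namespace GAT_

theorem kap_ne (S : ℝ) (hS : 0 < S) (k : ℕ) : (k : ℂ) - S * Complex.I ≠ 0 := by
  intro h
  have := congrArg Complex.im h
  simp at this
  exact hS.ne' this

theorem ell_ne (S : ℝ) (hS : 0 < S) (k : ℕ) : ell S k ≠ 0 := by
  unfold ell
  refine div_ne_zero ?_ (kap_ne S hS k)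
  refine mul_ne_zero (mul_ne_zero two_ne_zero ?_) Complex.I_ne_zero
  exact_mod_cast Real.pi_ne_zero

theorem ell_re (S : ℝ) (hS : 0 < S) (k : ℕ) : (ell S k).re < 0 := by
  have h1 : ell S k = 2 * Real.pi * (Complex.I * (k + S * Complex.I)) / ((k : ℝ) ^ 2 + S ^ 2 : ℝ) := by
    unfold ell
    have hk := kap_ne S hS k
    have h2 : (((k : ℝ) ^ 2 + S ^ 2 : ℝ) : ℂ) = ((k : ℂ) - S * Complex.I) * (k + S * Complex.I) := by
      push_cast
      have : Complex.I ^ 2 = -1 := Complex.I_sq
      linear_combination ((S : ℂ) ^ 2) * this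
    have h3 : (k : ℂ) + S * Complex.I ≠ 0 := by
      intro h
      have := congrArg Complex.im h
      simp at this
      exact hS.ne' this
    rw [h2, div_eq_div_iff hk (mul_ne_zero hk h3)]
    ring
  rw [h1, Complex.div_ofReal_re]
  apply div_neg_of_neg_of_pos
  · simp
    positivity
  · positivity

theorem mu_ne (S : ℝ) (hS : 0 < S) (k : ℕ) : Complex.exp (ell S k) ≠ 1 := by
  intro h
  have h1 : ‖Complex.exp (ell S k)‖ = 1 := by rw [h, norm_one]
  rw [Complex.norm_exp] at h1
  have := ell_re S hS k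
  have h2 : Real.exp (ell S k).re < 1 := by
    rw [← Real.exp_zero]; exact Real.exp_lt_exp.2 this
  linarith

/-- `k * ell S k → 2 π i` -/
theorem k_ell (S : ℝ) (hS : 0 < S) :
    Tendsto (fun k : ℕ => (k : ℂ) * ell S k) atTop (𝓝 (2 * Real.pi * Complex.I)) := by
  have h1 : Tendsto (fun k : ℕ => (S * Complex.I : ℂ) / k) atTop (𝓝 0) :=
    tendsto_const_div_atTop_nhds_zero_nat (S * Complex.I : ℂ)
  have h2 : Tendsto (fun k : ℕ => (2 * Real.pi * Complex.I : ℂ) / (1 - (S * Complex.I : ℂ) / k))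
      atTop (𝓝 ((2 * Real.pi * Complex.I : ℂ) / (1 - 0))) :=
    Tendsto.div tendsto_const_nhds (tendsto_const_nhds.sub h1) (by simp)
  rw [sub_zero, div_one] at h2
  refine h2.congr' ?_
  filter_upwards [eventually_ge_atTop 1] with k hk
  have hk0 : (k : ℂ) ≠ 0 := by
    have : k ≠ 0 := by omega
    exact_mod_cast this
  have hkap := kap_ne S hS k
  unfold ell
  have h3 : (1 - (S * Complex.I : ℂ) / k) = ((k : ℂ) - S * Complex.I) / k := by
    field_simp
  rw [h3]
  field_simp

theorem ell_lim (S : ℝ) (hS : 0 < S) : Tendsto (fun k : ℕ => ell S k) atTop (𝓝 0) := by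
  have h1 := k_ell S hS
  have h2 : Tendsto (fun k : ℕ => (1 : ℂ) / k) atTop (𝓝 0) :=
    tendsto_const_div_atTop_nhds_zero_nat (1 : ℂ)
  have h3 := h1.mul h2
  rw [mul_zero] at h3
  refine h3.congr' ?_
  filter_upwards [eventually_ge_atTop 1] with k hk
  have hk0 : (k : ℂ) ≠ 0 := by
    have : k ≠ 0 := by omega
    exact_mod_cast this
  field_simp

/-- `k (exp (- ell) - 1) → - 2 π i` -/
theorem k_exp (S : ℝ) (hS : 0 < S) :
    Tendsto (fun k : ℕ => (k : ℂ) * (Complex.exp (-(ell S k)) - 1)) atTop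
      (𝓝 (-(2 * Real.pi * Complex.I))) := by
  have hd : HasDerivAt Complex.exp 1 0 := by
    simpa using Complex.hasDerivAt_exp 0
  have hs := hd.tendsto_slope
  have hl : Tendsto (fun k : ℕ => -(ell S k)) atTop (𝓝[≠] 0) := by
    rw [tendsto_nhdsWithin_iff]
    refine ⟨by simpa using (ell_lim S hS).neg, Eventually.of_forall fun k => ?_⟩
    simpa using ell_ne S hS k
  have h1 := hs.comp hl
  have h2 := (k_ell S hS).neg.mul h1
  rw [mul_one] at h2
  refine h2.congr fun k => ?_
  simp only [Function.comp, slope_def_field, sub_zero, Complex.exp_zero]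
  have := ell_ne S hS k
  field_simp
  
/-- the second fixed point -/
theorem k_p (n : ℕ) (e : ℝ) (Q : ℂ[X]) (A : ℂ) (hA : A ≠ 0)
    (hQ : ∀ v : ℂ, 1 - GG n e v = (1 - v) * Q.eval v) (hQ1 : Q.eval 1 = 1)
    (hQd : (derivative Q).eval 1 = A) (S : ℝ) (hS : 0 < S) (p : ℕ → ℂ)
    (hp : Tendsto p atTop (𝓝 1))
    (hf : ∀ᶠ k : ℕ in atTop, p k ≠ 1 ∧ GF n e (Complex.exp (ell S k)) (p k) = p k) :
    Tendsto (fun k : ℕ => (k : ℂ) * (p k - 1)) atTop (𝓝 (-(2 * Real.pi * Complex.I) / A)) := by
  have hd : HasDerivAt (fun v => Q.eval v) A 1 := by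
    rw [← hQd]; exact Q.hasDerivAt 1
  have hs := hd.tendsto_slope
  have hl : Tendsto p atTop (𝓝[≠] 1) := by
    rw [tendsto_nhdsWithin_iff]
    exact ⟨hp, hf.mono fun k hk => hk.1⟩
  have h1 := hs.comp hl
  have h2 := (k_exp S hS).div h1 hA
  refine h2.congr' ?_
  filter_upwards [hf] with k hk
  obtain ⟨hk1, hk2⟩ := hk
  have hpk : p k - 1 ≠ 0 := sub_ne_zero.2 hk1
  have hμQ : Complex.exp (ell S k) * Q.eval (p k) = 1 := by
    unfold GF at hk2
    have h3 : (1 - p k) * (1 - Complex.exp (ell S k) * Q.eval (p k)) = 0 := by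
      have h4 := hQ (p k)
      have h5 : (1 - p k) = Complex.exp (ell S k) * (1 - GG n e (p k)) := by
        linear_combination hk2
      rw [h4] at h5
      linear_combination h5
    rcases mul_eq_zero.1 h3 with h6 | h6
    · exact absurd (sub_eq_zero.1 h6).symm hk1
    · linear_combination -h6
  have hQp : Q.eval (p k) = Complex.exp (-(ell S k)) := by
    rw [Complex.exp_neg]
    exact eq_inv_of_mul_eq_one_right hμQ
  have hE : Complex.exp (-(ell S k)) - 1 ≠ 0 := by
    intro h
    apply mu_ne S hS k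
    have h3 : Complex.exp (-(ell S k)) = 1 := sub_eq_zero.1 h
    rw [Complex.exp_neg] at h3
    exact inv_eq_one.1 h3
  simp only [Pi.div_apply, Function.comp, slope_def_field, hQ1, hQp]
  field_simp

theorem gg_cont (hGEL : T_GEL) (n : ℕ) (e : ℝ) (hn : 3 ≤ n) (he : 0 < e) (he2 : e ≤ 1 / 2) :
    Differentiable ℂ (GG n e) := fun v => ((hGEL n e hn he he2).2.1 v).differentiableAt

end GAT_

open GAT_ in
theorem p_GAT (hGEL : T_GEL) (hGQ : T_GQ) (hGFP : T_GFP) (hGUP : T_GUP) (hLTM : T_LTM)
    (hGTA : T_GTA) : T_GAT := by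
  intro n e hn he he2 K C₁
  obtain ⟨S₁, Y, hY, hU⟩ := hGUP n e hn he he2
  have hβ : K.β.im = 0 := (hGTA n e hn he he2 K).1
  have hE := hGEL n e hn he he2
  have hA : 0 < cA n e := hE.2.2.2.2.2.2.1
  have hAne : (cA n e : ℂ) ≠ 0 := by exact_mod_cast hA.ne'
  obtain ⟨Q, hQ, hQ1, hQd, -, -, -⟩ := hGQ n e hn he he2
  refine ⟨max 1 (max S₁ (C₁ + 2 * Real.pi * |K.β.re| + 2 * K.C + Y + 1)),
    lt_of_lt_of_le one_pos (le_max_left _ _), ?_⟩
  intro S hS l xk x hl hx hxU
  have hS1 : 1 ≤ S := le_trans (le_max_left _ _) hS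
  have hS2 : S₁ ≤ S := le_trans (le_trans (le_max_left _ _) (le_max_right _ _)) hS
  have hS3 : C₁ + 2 * Real.pi * |K.β.re| + 2 * K.C + Y + 1 ≤ S :=
    le_trans (le_trans (le_max_right _ _) (le_max_right _ _)) hS
  have hS0 : 0 < S := by linarith
  obtain ⟨-, w, hw, hwC⟩ := hxU
  have hGd : Differentiable ℂ (GG n e) := gg_cont hGEL n e hn he he2
  have hμ : Tendsto (fun k : ℕ => Complex.exp (ell S k)) atTop (𝓝 1) := by
    have := (Complex.continuous_exp.tendsto 0).comp (ell_lim S hS0)
    rw [Complex.exp_zero] at this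
    exact this
  -- the second fixed point
  obtain ⟨p, hp, hpf⟩ := hGFP n e hn he he2 (fun k => Complex.exp (ell S k)) hμ
    (fun k => mu_ne S hS0 k)
  have hkp := k_p n e Q (cA n e : ℂ) hAne hQ hQ1 hQd S hS0 p hp hpf
  have hUk := hU S hS2 p hp hpf
  -- the passage
  have hGF1 : ∀ μ : ℂ, GF n e μ 1 = 1 := by
    intro μ; unfold GF; rw [hE.1]; ring
  have hGFd : ∀ μ : ℂ, Differentiable ℂ (GF n e μ) := by
    intro μ
    unfold GF
    exact (differentiable_const _).add ((differentiable_const _).mul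
      (hGd.sub (differentiable_const _)))
  obtain ⟨M₀, hM₀⟩ := hLTM (GG n e) 1 (cA n e) K 1 one_pos hGd.differentiableOn S l
    (fun k => GF n e (Complex.exp (ell S k))) (fun _ => 1) xk x w hl hS0
    (Eventually.of_forall fun k => (hGFd _).differentiableOn)
    (by
      rw [Metric.tendstoUniformlyOn_iff]
      intro ε hε
      obtain ⟨B, hB⟩ := (isCompact_closedBall (1 : ℂ) 1).exists_bound_of_continuousOn
        (f := fun v => GG n e v - 1) ((hGd.continuous.sub continuous_const).continuousOn)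
      have hB' : 0 < |B| + 1 := by positivity
      have h1 : ∀ᶠ k : ℕ in l, ‖Complex.exp (ell S k) - 1‖ < ε / (|B| + 1) := by
        have := (Metric.tendsto_nhds.1 hμ (ε / (|B| + 1)) (by positivity)).filter_mono hl
        simpa [dist_eq_norm] using this
      filter_upwards [h1] with k hk v hv
      rw [dist_eq_norm]
      have h2 : GG n e v - GF n e (Complex.exp (ell S k)) v =
          -((Complex.exp (ell S k) - 1) * (GG n e v - 1)) := by
        unfold GF; ring
      rw [h2, norm_neg, norm_mul]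
      have h3 := hB v (ball_subset_closedBall hv)
      have h4 : ‖GG n e v - 1‖ < |B| + 1 := lt_of_le_of_lt h3
        (lt_of_le_of_lt (le_abs_self B) (lt_add_one _))
      calc ‖Complex.exp (ell S k) - 1‖ * ‖GG n e v - 1‖
          ≤ ‖Complex.exp (ell S k) - 1‖ * (|B| + 1) :=
            mul_le_mul_of_nonneg_left h4.le (norm_nonneg _)
        _ < ε / (|B| + 1) * (|B| + 1) := mul_lt_mul_of_pos_right hk hB'
        _ = ε := by field_simp)
    (Eventually.of_forall fun k => by
      refine ⟨hGF1 _, ?_⟩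
      have h1 : HasDerivAt (GF n e (Complex.exp (ell S k))) (Complex.exp (ell S k)) 1 := by
        have h2 := hE.2.1 1
        have h3 : (1 : ℂ) ^ (n - 2) * (1 + e) / (1 + e) = 1 := by
          rw [one_pow, one_mul]
          apply div_self
          have : (1 : ℝ) + e ≠ 0 := by linarith
          exact_mod_cast this
        rw [h3] at h2
        have h4 := ((h2.sub_const 1).const_mul (Complex.exp (ell S k))).const_add 1
        rw [mul_one] at h4
        exact h4
      exact h1.deriv)
    tendsto_const_nhds hx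
    (by
      intro m yk hyk
      show Tendsto (fun k => GF n e (Complex.exp (ell S k)) (yk k)) l _
      unfold GF
      have h1 := (hGd.continuous.tendsto _).comp hyk
      have h2 := (hμ.mono_left hl).mul (h1.sub_const 1)
      have h3 := h2.const_add 1
      rw [one_mul, add_sub_cancel] at h3
      exact h3)
    hw
  -- choose `M`
  obtain ⟨M, hMM, hMre⟩ : ∃ M : ℕ, M₀ ≤ M ∧ (w + S * Complex.I - M).re < -K.R := by
    obtain ⟨N, hN⟩ := exists_nat_gt (w.re + K.R)
    refine ⟨max M₀ N, le_max_left _ _, ?_⟩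
    have h1 : (N : ℝ) ≤ (max M₀ N : ℕ) := by exact_mod_cast le_max_right _ _
    simp
    push_cast at h1
    linarith
  have hv := hM₀ M hMM
  set W := w + S * Complex.I - M with hWd
  set vs := K.E W with hvs
  have hvne : vs ≠ 1 := K.E_ne W hMre
  have hvne' : vs - 1 ≠ 0 := sub_ne_zero.2 hvne
  set om := omc (cA n e) 1 vs with hom
  have hloc := K.E_loc W hMre
  have hasy := K.E_asy W hMre
  rw [← hvs, ← hom] at hloc hasy
  have hom2 : 1 / 2 < ‖om‖ := by
    have h1 := Complex.abs_re_le_norm om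
    have h2 := Complex.abs_im_le_norm om
    have h3 := neg_abs_le om.re
    linarith
  have homY : Y < om.im := by
    have hc : K.C / ‖om‖ ≤ 2 * K.C := by
      have hpos : 0 < ‖om‖ := by linarith
      rw [div_le_iff₀ hpos]
      nlinarith [K.hC]
    have h1 : |(Lout K.β om - W).im| ≤ 2 * K.C :=
      (Complex.abs_im_le_norm _).trans (hasy.trans hc)
    have h2 : (Lout K.β om).im = om.im - K.β.re * (Complex.arg (-om) + Real.pi) := by
      unfold Lout
      rw [Complex.sub_im, Complex.mul_im, hβ]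
      simp [Complex.log_im]
    have h3 : W.im = w.im + S := by
      rw [hWd]; simp
    rw [Complex.sub_im, h2, h3, abs_le] at h1
    have h4 : |K.β.re * (Complex.arg (-om) + Real.pi)| ≤ |K.β.re| * (2 * Real.pi) := by
      rw [abs_mul]
      apply mul_le_mul_of_nonneg_left _ (abs_nonneg _)
      rw [abs_le]
      have h5 := Complex.neg_pi_lt_arg (-om)
      have h6 := Complex.arg_le_pi (-om)
      constructor <;> linarith [Real.pi_pos]
    have h5 := (abs_le.1 h4).1
    nlinarith
  -- the limit of the heights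
  set vk : ℕ → ℂ := fun k => (GF n e (Complex.exp (ell S k)))^[k - M] (xk k) with hvk
  have hvk1 : ∀ᶠ k in l, vk k ≠ 1 := hv.eventually_ne hvne
  have hδ : Tendsto (fun k : ℕ => (k : ℂ) * (-(p k - 1) / (vk k - 1))) l
      (𝓝 (-(2 * Real.pi * Complex.I) * om)) := by
    have h1 := ((hkp.mono_left hl).neg).div (hv.sub_const 1) hvne'
    have h2 : -(-(2 * Real.pi * Complex.I) / (cA n e : ℂ)) / (vs - 1) =
        -(2 * Real.pi * Complex.I) * om := by
      rw [hom]; unfold omc
      field_simp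
    rw [h2] at h1
    refine h1.congr fun k => ?_
    simp only [Pi.div_apply]
    ring
  set t : ℕ → ℝ := fun k => (-(p k - 1) / (vk k - 1)).re with ht
  have hkt : Tendsto (fun k : ℕ => (k : ℝ) * t k) l (𝓝 (2 * Real.pi * om.im)) := by
    have h1 := (Complex.continuous_re.tendsto _).comp hδ
    have h2 : (-(2 * Real.pi * Complex.I) * om).re = 2 * Real.pi * om.im := by
      simp
    rw [h2] at h1
    refine h1.congr fun k => ?_
    simp [ht]
  have ht0 : Tendsto t l (𝓝 0) := by
    have h1 : Tendsto (fun k => -(p k - 1) / (vk k - 1)) l (𝓝 (-(1 - 1) / (vs - 1))) :=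
      (((hp.mono_left hl).sub_const 1).neg).div (hv.sub_const 1) hvne'
    have h2 := (Complex.continuous_re.tendsto _).comp h1
    have h3 : (-(1 - 1) / (vs - 1)).re = 0 := by
      rw [sub_self, neg_zero, zero_div, Complex.zero_re]
    rw [h3] at h2
    exact h2
  have hfin : ∀ᶠ k : ℕ in l, 2 * Real.pi * Y < (k : ℝ) * t k / (1 + t k) := by
    have h1 : Tendsto (fun k : ℕ => (k : ℝ) * t k / (1 + t k)) l
        (𝓝 (2 * Real.pi * om.im / (1 + 0))) :=
      hkt.div (tendsto_const_nhds.add ht0) (by norm_num)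
    rw [add_zero, div_one] at h1
    apply h1.eventually_const_lt
    have := Real.pi_pos
    nlinarith
  have hpos : ∀ᶠ k : ℕ in l, 0 < 1 + t k := by
    have h1 : Tendsto (fun k => 1 + t k) l (𝓝 (1 + 0)) := tendsto_const_nhds.add ht0
    apply h1.eventually_const_lt
    norm_num
  have hk1 : ∀ᶠ k : ℕ in l, 1 ≤ k := (eventually_ge_atTop 1).filter_mono hl
  filter_upwards [hfin, hpos, hk1, hvk1, hUk.filter_mono hl] with k h1 h2 h3 h4 h5
  have hkpos : (0 : ℝ) < k := by exact_mod_cast h3
  have hvB : vk k ∈ Bas n e (Complex.exp (ell S k)) := by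
    apply h5 _ h4
    have h6 : (vk k - p k) / (vk k - 1) = 1 + (-(p k - 1) / (vk k - 1)) := by
      have : vk k - 1 ≠ 0 := sub_ne_zero.2 h4
      field_simp
      ring
    rw [h6]
    have h7 : 1 + t k ≤ ‖1 + (-(p k - 1) / (vk k - 1))‖ := by
      have := Complex.re_le_norm (1 + (-(p k - 1) / (vk k - 1)))
      rw [Complex.add_re, Complex.one_re] at this
      exact this
    have h8 : Real.log (1 + t k) ≤ Real.log ‖1 + (-(p k - 1) / (vk k - 1))‖ :=
      Real.log_le_log h2 h7
    have h9 := Real.one_sub_inv_le_log_of_pos h2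
    have h10 : 2 * Real.pi * Y / k ≤ 1 - (1 + t k)⁻¹ := by
      rw [div_le_iff₀ hkpos]
      have h11 : (1 - (1 + t k)⁻¹) * k = k * t k / (1 + t k) := by
        field_simp
        ring
      rw [h11]
      exact h1.le
    linarith
  -- back to `xk`
  have h6 : Tendsto (fun m : ℕ => (GF n e (Complex.exp (ell S k)))^[m + (k - M)] (xk k)) atTop
      (𝓝 1) := by
    refine (show Tendsto (fun m : ℕ => (GF n e (Complex.exp (ell S k)))^[m] (vk k)) atTop (𝓝 1)
      from hvB).congr fun m => ?_
    rw [hvk, Function.iterate_add_apply]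
  exact (tendsto_add_atTop_iff_nat (k - M)).1 h6

end Pool.Agent.MAT
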