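import Pool.Agent.MAT.T

/-!
# MAT: GBA (the parabolic basin of the explicit polynomial)
-/

set_option autoImplicit false

open Polynomial Metric Set Filter Topology

noncomputable section

namespace Pool.Agent.MAT

namespace GBA_

/-- growth of orbits outside a disk -/
theorem grow {f : ℂ → ℂ} {R : ℝ} (hR : 2 ≤ R) (h : ∀ v : ℂ, R ≤ ‖v‖ → 2 * ‖v‖ ≤ ‖f v‖)
    {v : ℂ} (hv : R ≤ ‖v‖) (m : ℕ) : 2 ^ m * ‖v‖ ≤ ‖f^[m] v‖ := by
  induction m with
  | zero => simp
  | succ m ih =>
    rw [Function.iterate_succ_apply', pow_succ]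
    have h1 : R ≤ ‖f^[m] v‖ := by
      have : (1 : ℝ) ≤ 2 ^ m := one_le_pow₀ (by norm_num)
      nlinarith [norm_nonneg v]
    have := h _ h1
    nlinarith

/-- the sublevel sets of the iterates are preconnected -/
theorem precon {f : ℂ → ℂ} {P : ℂ[X]} (hCOMP : T_COMP) (hP : 1 ≤ P.natDegree)
    (he : ∀ v, P.eval v = f v) (hc : Continuous f) (hball : ∀ v : ℂ, ‖v‖ < 1 → ‖f v‖ < 1)
    (h0 : ∀ v : ℂ, f v = f 0 → ‖v‖ < 1) (m : ℕ) :
    IsPreconnected {v : ℂ | ‖f^[m] v‖ < 1} := by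
  have hit : ∀ (m : ℕ) (v : ℂ), ‖v‖ < 1 → ‖f^[m] v‖ < 1 := by
    intro m
    induction m with
    | zero => intro v hv; simpa using hv
    | succ m ih => intro v hv; rw [Function.iterate_succ_apply]; exact ih _ (hball v hv)
  induction m with
  | zero =>
    have : {v : ℂ | ‖f^[0] v‖ < 1} = ball (0 : ℂ) 1 := by
      ext v; simp
    rw [this]
    exact (convex_ball _ _).isPreconnected
  | succ m ih =>
    have hopen : IsOpen {v : ℂ | ‖f^[m] v‖ < 1} :=
      isOpen_lt (hc.iterate m).norm continuous_const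
    have hset : {v : ℂ | ‖f^[m + 1] v‖ < 1} = {z | P.eval z ∈ {v : ℂ | ‖f^[m] v‖ < 1}} := by
      ext v
      simp only [mem_setOf_eq, Function.iterate_succ_apply, he]
    set F : Set ℂ := {v : ℂ | ‖f^[m + 1] v‖ < 1} with hF
    have hD : ball (0 : ℂ) 1 ⊆ F := by
      intro v hv
      rw [mem_ball_zero_iff] at hv
      exact hit (m + 1) v hv
    have hDp : IsPreconnected (ball (0 : ℂ) 1) := (convex_ball _ _).isPreconnected
    have h0D : (0 : ℂ) ∈ ball (0 : ℂ) 1 := by simp
    have key : F = connectedComponentIn F 0 := by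
      apply Subset.antisymm _ (connectedComponentIn_subset F 0)
      intro x hx
      have hx' : P.eval x ∈ {v : ℂ | ‖f^[m] v‖ < 1} := by
        have : x ∈ {z | P.eval z ∈ {v : ℂ | ‖f^[m] v‖ < 1}} := by rw [← hset]; exact hx
        exact this
      have himg := hCOMP P hP _ hopen ih x hx'
      rw [← hset] at himg
      have hf0 : f 0 ∈ {v : ℂ | ‖f^[m] v‖ < 1} := hit m _ (hball 0 (by simp))
      rw [← himg] at hf0
      obtain ⟨z, hz, hzf⟩ := hf0
      have hz1 : ‖z‖ < 1 := h0 z (by rw [← he]; exact hzf)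
      have hzD : z ∈ ball (0 : ℂ) 1 := by rw [mem_ball_zero_iff]; exact hz1
      have h1 : connectedComponentIn F x = connectedComponentIn F z := connectedComponentIn_eq hz
      have h2 : ball (0 : ℂ) 1 ⊆ connectedComponentIn F 0 :=
        hDp.subset_connectedComponentIn h0D hD
      have h3 : connectedComponentIn F 0 = connectedComponentIn F z := connectedComponentIn_eq (h2 hzD)
      rw [h3, ← h1]
      exact mem_connectedComponentIn hx
    rw [key]
    exact isPreconnected_connectedComponentIn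

/-- orbits in the unit disk converge to the parabolic point -/
theorem conv {f : ℂ → ℂ} {Q : ℂ[X]} (hc : Continuous f) (hball : ∀ v : ℂ, ‖v‖ < 1 → ‖f v‖ < 1)
    (hQ : ∀ v : ℂ, 1 - f v = (1 - v) * Q.eval v) (hQ1 : ∀ v : ℂ, ‖v‖ ≤ 1 → ‖Q.eval v‖ ≤ 1)
    (hQ2 : ∀ v : ℂ, ‖v‖ ≤ 1 → v ≠ 1 → ‖Q.eval v‖ < 1) {v : ℂ} (hv : ‖v‖ < 1) :
    Tendsto (fun m : ℕ => f^[m] v) atTop (𝓝 1) := by
  have hit : ∀ m : ℕ, ‖f^[m] v‖ < 1 := by
    intro m
    induction m with
    | zero => simpa using hv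
    | succ m ih => rw [Function.iterate_succ_apply']; exact hball _ ih
  have hanti : Antitone (fun m : ℕ => ‖1 - f^[m] v‖) := by
    apply antitone_nat_of_succ_le
    intro m
    rw [Function.iterate_succ_apply', hQ, norm_mul]
    have := hQ1 _ (hit m).le
    have h2 := norm_nonneg (1 - f^[m] v)
    nlinarith
  have hbdd : BddBelow (range (fun m : ℕ => ‖1 - f^[m] v‖)) := ⟨0, by
    rintro _ ⟨m, rfl⟩; exact norm_nonneg _⟩
  have hlim : Tendsto (fun m : ℕ => ‖1 - f^[m] v‖) atTop (𝓝 (⨅ m, ‖1 - f^[m] v‖)) :=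
    tendsto_atTop_ciInf hanti hbdd
  set d : ℝ := ⨅ m, ‖1 - f^[m] v‖ with hd
  rw [tendsto_iff_ultrafilter]
  intro u hu
  have hmem : (closedBall (0 : ℂ) 1) ∈ Ultrafilter.map (fun m : ℕ => f^[m] v) u := by
    rw [Ultrafilter.mem_map]
    apply Filter.univ_mem'
    intro m
    simp only [mem_preimage, mem_closedBall_zero_iff]
    exact (hit m).le
  obtain ⟨w, hw, hwl⟩ := (isCompact_closedBall (0 : ℂ) 1).ultrafilter_le_nhds'
    (Ultrafilter.map (fun m : ℕ => f^[m] v) u) hmem
  have hwl' : Tendsto (fun m : ℕ => f^[m] v) u (𝓝 w) := hwl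
  have h1 : Tendsto (fun m : ℕ => ‖1 - f^[m] v‖) u (𝓝 ‖1 - w‖) :=
    (tendsto_const_nhds.sub hwl').norm
  have h2 : ‖1 - w‖ = d := tendsto_nhds_unique h1 (hlim.mono_left hu)
  have h3 : Tendsto (fun m : ℕ => ‖1 - f^[m + 1] v‖) u (𝓝 ‖1 - f w‖) := by
    simp_rw [Function.iterate_succ_apply']
    exact (tendsto_const_nhds.sub ((hc.tendsto w).comp hwl')).norm
  have h4 : ‖1 - f w‖ = d :=
    tendsto_nhds_unique h3 (((tendsto_add_atTop_iff_nat 1).mpr hlim).mono_left hu)
  rw [mem_closedBall_zero_iff] at hw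
  have h5 : w = 1 := by
    by_contra hne
    have h6 := hQ2 w hw hne
    have h7 : 0 < ‖1 - w‖ := norm_pos_iff.mpr (sub_ne_zero.mpr (Ne.symm hne))
    rw [hQ, norm_mul, h2] at h4
    rw [h2] at h7
    nlinarith
  rw [h5] at hwl'
  exact hwl'

end GBA_

open GBA_ in
/-- GBA -/
theorem p_GBA (hGEL : T_GEL) (hGQ : T_GQ) (hCOMP : T_COMP) : T_GBA := by
  intro n e hn he0 he1
  obtain ⟨hG1, hGd, hGconj, hGb, -, -, -, ⟨P, hPn, hPe, -⟩, ⟨R, hR2, hR⟩, hG0, hG00⟩ :=
    hGEL n e hn he0 he1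
  obtain ⟨Q, hQ, -, -, -, hQ1, hQ2⟩ := hGQ n e hn he0 he1
  have hc : Continuous (GG n e) := by
    rw [continuous_iff_continuousAt]
    intro v
    exact (hGd v).continuousAt
  have hball : ∀ v : ℂ, ‖v‖ < 1 → ‖GG n e v‖ < 1 := by
    intro v hv
    apply hGb v hv.le
    rintro rfl
    simp at hv
  have hstep : ∀ (m : ℕ) (v : ℂ), ‖(GG n e)^[m] v‖ < 1 → ∀ k : ℕ, m ≤ k →
      ‖(GG n e)^[k] v‖ < 1 := by
    intro m v hm k hk
    induction k, hk using Nat.le_induction with
    | base => exact hm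
    | succ k _ ih => rw [Function.iterate_succ_apply']; exact hball _ ih
  have hone : ∀ m : ℕ, (GG n e)^[m] 1 = 1 := fun m => Function.iterate_fixed hG1 m
  have hUopen : IsOpen (UG n e) := by
    have : UG n e = ⋃ m : ℕ, {v : ℂ | ‖(GG n e)^[m] v‖ < 1} := by
      ext v; simp [UG]
    rw [this]
    exact isOpen_iUnion (fun m => isOpen_lt (hc.iterate m).norm continuous_const)
  have h0small : ∀ v : ℂ, GG n e v = GG n e 0 → ‖v‖ < 1 := by
    intro v hv
    rcases hG0 v hv with h | h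
    · rw [h]; simp
    · rw [h]
      have hn1 : (0 : ℝ) < (n : ℝ) - 1 := by
        have : (3 : ℝ) ≤ n := by exact_mod_cast hn
        linarith
      have h3 : (3 : ℝ) ≤ n := by exact_mod_cast hn
      have h2 : ‖(((-(e * n / (n - 1)) : ℝ)) : ℂ)‖ < 1 := by
        rw [Complex.norm_real, Real.norm_eq_abs, abs_neg, abs_of_nonneg (by positivity),
          div_lt_one hn1]
        nlinarith
      simpa using h2
  have hUpre : IsPreconnected (UG n e) := by
    have hU : UG n e = ⋃ m : ℕ, {v : ℂ | ‖(GG n e)^[m] v‖ < 1} := by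
      ext v; simp [UG]
    rw [hU]
    apply isPreconnected_iUnion
    · refine ⟨0, ?_⟩
      rw [mem_iInter]
      intro m
      exact hstep 0 0 (by simp) m (Nat.zero_le m)
    · intro m
      exact precon hCOMP (by rw [hPn]; omega) hPe hc hball h0small m
  have hconv : ∀ v ∈ UG n e, Tendsto (fun m : ℕ => (GG n e)^[m] v) atTop (𝓝 1) := by
    rintro v ⟨m, hm⟩
    have h1 := conv hc hball hQ hQ1 hQ2 hm
    have h2 : Tendsto (fun k : ℕ => (GG n e)^[k + m] v) atTop (𝓝 1) := by
      simpa only [Function.iterate_add_apply] using h1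
    exact (tendsto_add_atTop_iff_nat m).mp h2
  have hKb : ∀ v ∈ KG n e, ‖v‖ ≤ R := by
    rintro v ⟨B, hB⟩
    by_contra hcon
    push Not at hcon
    have h1 := fun m => grow hR2 hR hcon.le m
    have hvpos : 0 < ‖v‖ := by linarith
    obtain ⟨m, hm⟩ := pow_unbounded_of_one_lt (B / ‖v‖) (one_lt_two : (1 : ℝ) < 2)
    rw [div_lt_iff₀ hvpos] at hm
    have := h1 m
    have := hB m
    linarith
  have hKinv : ∀ v : ℂ, GG n e v ∈ KG n e ↔ v ∈ KG n e := by
    intro v
    constructor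
    · rintro ⟨B, hB⟩
      refine ⟨max B ‖v‖, fun m => ?_⟩
      cases m with
      | zero => simp
      | succ m => rw [Function.iterate_succ_apply]; exact (hB m).trans (le_max_left _ _)
    · rintro ⟨B, hB⟩
      refine ⟨B, fun m => ?_⟩
      have := hB (m + 1)
      rwa [Function.iterate_succ_apply] at this
  have hKit : ∀ (m : ℕ) (v : ℂ), v ∈ KG n e → (GG n e)^[m] v ∈ KG n e := by
    intro m
    induction m with
    | zero => intro v hv; simpa using hv
    | succ m ih =>
      intro v hv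
      rw [Function.iterate_succ_apply]
      exact ih _ ((hKinv v).mpr hv)
  refine ⟨hUopen, hUpre, ?_, ?_, ?_, ⟨R, hKb⟩, ?_, ?_, ?_, ?_, hKinv, ?_, ?_⟩
  · intro v hv
    rw [mem_ball_zero_iff] at hv
    exact ⟨0, by simpa using hv⟩
  · intro v
    constructor
    · rintro ⟨m, hm⟩
      exact ⟨m + 1, by rw [Function.iterate_succ_apply]; exact hm⟩
    · rintro ⟨m, hm⟩
      refine ⟨m, ?_⟩
      rw [← Function.iterate_succ_apply]
      exact hstep m v hm (m + 1) (Nat.le_succ m)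
  · intro v hv
    refine ⟨hconv v hv, ?_⟩
    obtain ⟨k, hk⟩ := hv
    intro m hm
    have h1 : (GG n e)^[max k m] v = 1 := by
      obtain ⟨j, hj⟩ := Nat.exists_eq_add_of_le (le_max_right k m)
      rw [hj, add_comm, Function.iterate_add_apply, hm, hone]
    have h2 := hstep k v hk (max k m) (le_max_left _ _)
    rw [h1] at h2
    simp at h2
  · intro v hv
    have h1 := (hconv v hv).norm.bddAbove_range
    obtain ⟨B, hB⟩ := h1
    exact ⟨B, fun m => hB ⟨m, rfl⟩⟩
  · rintro ⟨m, hm⟩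
    rw [hone] at hm
    simp at hm
  · rintro v ⟨m, hm⟩
    refine ⟨m, ?_⟩
    have h1 : ∀ m : ℕ, (GG n e)^[m] ((starRingEnd ℂ) v) = (starRingEnd ℂ) ((GG n e)^[m] v) := by
      intro m
      induction m with
      | zero => simp
      | succ m ih => rw [Function.iterate_succ_apply', Function.iterate_succ_apply', ih, hGconj]
    rw [h1, RCLike.norm_conj]
    exact hm
  · have : KG n e = ⋂ m : ℕ, {v : ℂ | ‖(GG n e)^[m] v‖ ≤ R} := by
      ext v
      rw [mem_iInter]
      constructor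
      · intro hv m
        exact hKb _ (hKit m v hv)
      · intro hv
        exact ⟨R, hv⟩
    rw [this]
    exact isClosed_iInter (fun m => isClosed_le (hc.iterate m).norm continuous_const)
  · exact ⟨0, by simp⟩
  · refine ⟨0, ?_⟩
    have : ‖(-(e : ℂ))‖ < 1 := by
      rw [norm_neg, Complex.norm_real, Real.norm_eq_abs, abs_of_pos he0]
      linarith
    simpa using this

end Pool.Agent.MAT
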