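import Pool.Agent.MAT.T

/-!
# MAT: GBR (inverse branches on half planes)
-/

set_option autoImplicit false

open Polynomial Metric Set Filter Topology

noncomputable section

namespace Pool.Agent.MAT.GBR_

open Pool.Agent.MAT

lemma Hs_open (σ : ℝ) : IsOpen (Hs σ) := by
  unfold Hs
  exact isOpen_lt continuous_const (continuous_const.mul Complex.continuous_im)

lemma Hs_convex (σ : ℝ) : Convex ℝ (Hs σ) := by
  intro x hx y hy a b ha hb hab
  simp only [Hs, mem_ofPred_eq] at hx hy ⊢
  simp only [Complex.add_im, Complex.smul_im, smul_eq_mul]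
  rcases ha.eq_or_lt with h | h
  · have hb1 : b = 1 := by linarith
    subst hb1
    rw [← h]
    simpa using hy
  · nlinarith [mul_pos h hx, mul_nonneg hb hy.le]

lemma im_ne {σ : ℝ} {z : ℂ} (hz : z ∈ Hs σ) : z.im ≠ 0 := by
  intro h
  simp only [Hs, mem_ofPred_eq] at hz
  rw [h] at hz
  simp at hz

end Pool.Agent.MAT.GBR_

namespace Pool.Agent.MAT

open GBR_

theorem p_GBR (hGEL : T_GEL) (hROOT : T_ROOT) : T_GBR := by
  intro n e hn he he2 σ hσ
  obtain ⟨-, hder, hconj, -, -, -, -, ⟨P, hPd, hPe, hPc, -, -⟩, -, -, -⟩ := hGEL n e hn he he2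
  have he1 : (1 : ℂ) + e ≠ 0 := by
    have : ((1 + e : ℝ) : ℂ) ≠ 0 := by
      rw [Ne, Complex.ofReal_eq_zero]; linarith
    simpa using this
  have hn0 : (n : ℂ) ≠ 0 := by
    rw [Ne, Nat.cast_eq_zero]; omega
  -- the leading coefficient
  set lc : ℂ := 1 / ((n : ℂ) * (1 + e)) with hlc
  have hlc0 : lc ≠ 0 := by
    rw [hlc]
    exact one_div_ne_zero (mul_ne_zero hn0 he1)
  have hreal : ∀ v : ℂ, v.im = 0 → (GG n e v).im = 0 := by
    intro v hv
    have h1 : (starRingEnd ℂ) v = v := Complex.conj_eq_iff_im.mpr hv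
    have h2 := hconj v
    rw [h1] at h2
    exact Complex.conj_eq_iff_im.mp h2.symm
  have hPder : ∀ v : ℂ, (derivative P).eval v = v ^ (n - 2) * (v + e) / (1 + e) := by
    intro v
    have h1 : HasDerivAt (fun z => P.eval z) ((derivative P).eval v) v := P.hasDerivAt v
    have h2 : (fun z => P.eval z) = GG n e := funext hPe
    rw [h2] at h1
    exact h1.unique (hder v)
  intro m
  induction m with
  | zero =>
    intro x y hx hy
    have hxy : y = x := by simpa using hy
    subst hxy
    refine ⟨id, differentiableOn_id, rfl, fun z _ => rfl, fun z hz => ?_⟩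
    simp only [Hs, mem_ofPred_eq] at hx hz
    have h1 : 0 < (σ * z.im) * (σ * y.im) := mul_pos hz hx
    have h2 : (σ * z.im) * (σ * y.im) = σ ^ 2 * (z.im * y.im) := by ring
    rw [h2] at h1
    exact (pos_iff_pos_of_mul_pos h1).mp (by positivity)
  | succ m ih =>
    intro x y hx hy
    rw [Function.iterate_succ_apply] at hy
    obtain ⟨h1, h1d, h1x, h1i, h1s⟩ := ih x (GG n e y) hx hy
    have h1ne : ∀ z ∈ Hs σ, (h1 z).im ≠ 0 := by
      intro z hz h0
      have := h1s z hz
      rw [h0] at this
      simp at this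
    set N : ℂ[X] := C (1 / lc) * P with hN
    set D : ℂ[X] := C (1 / lc) with hD
    have hil : (1 : ℂ) / lc ≠ 0 := one_div_ne_zero hlc0
    have hNd : N.natDegree = n := by
      rw [hN, natDegree_C_mul hil, hPd]
    have hNm : N.Monic := by
      unfold Polynomial.Monic Polynomial.leadingCoeff
      rw [hNd, hN, coeff_C_mul, hPc]
      exact one_div_mul_cancel hlc0
    have hDd : D.natDegree < n := by
      rw [hD, natDegree_C]; omega
    have hNe : ∀ z w : ℂ, N.eval z = w * D.eval z ↔ GG n e z = w := by
      intro z w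
      rw [hN, hD, eval_mul, eval_C, hPe, mul_comm w]
      exact ⟨fun h => mul_left_cancel₀ hil h, fun h => by rw [h]⟩
    obtain ⟨h, hd, hhx, hhe⟩ := hROOT n N D (Hs σ) h1 x y (by omega) hNm hNd hDd
      (Hs_open σ) (Hs_convex σ) hx h1d ((hNe y (h1 x)).mpr h1x.symm) (by
        intro ζ hζ z hz h0
        rw [hNe] at hz
        rw [hN, hD, derivative_C_mul, derivative_C, eval_mul, eval_C, hPder, eval_zero,
          mul_zero, sub_zero] at h0
        have h2 : z ^ (n - 2) * (z + e) / (1 + e) = 0 := (mul_eq_zero.mp h0).resolve_left hil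
        have h3 : z ^ (n - 2) * (z + e) = 0 := by
          rcases div_eq_zero_iff.mp h2 with h | h
          · exact h
          · exact absurd h he1
        have hzim : z.im = 0 := by
          rcases mul_eq_zero.mp h3 with h | h
          · have : z = 0 := (pow_eq_zero_iff (by omega)).mp h
            rw [this]; simp
          · have : z = -(e : ℂ) := eq_neg_of_add_eq_zero_left h
            rw [this]; simp
        have := hreal z hzim
        rw [hz] at this
        exact h1ne ζ hζ this)
    have hhe' : ∀ ζ ∈ Hs σ, GG n e (h ζ) = h1 ζ := fun ζ hζ => (hNe _ _).mp (hhe ζ hζ)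
    have hne : ∀ z ∈ Hs σ, (h z).im ≠ 0 := by
      intro z hz h0
      have := hreal (h z) h0
      rw [hhe' z hz] at this
      exact h1ne z hz this
    have hyne : y.im ≠ 0 := by
      rw [← hhx]; exact hne x hx
    refine ⟨h, hd, hhx, fun z hz => ?_, fun z hz => ?_⟩
    · rw [Function.iterate_succ_apply, hhe' z hz]
      exact h1i z hz
    · by_contra hcon
      push Not at hcon
      have hcont : ContinuousOn (fun z : ℂ => (h z).im * y.im) (Hs σ) :=
        (Complex.continuous_im.comp_continuousOn hd.continuousOn).mul continuousOn_const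
      have hpre : IsPreconnected (Hs σ) := (Hs_convex σ).isPreconnected
      have hsub := hpre.intermediate_value hz hx hcont
      have h0 : (0 : ℝ) ∈ Icc ((h z).im * y.im) ((h x).im * y.im) := by
        refine ⟨hcon, ?_⟩
        rw [hhx]
        exact mul_self_nonneg _
      obtain ⟨w, hw, hw0⟩ := hsub h0
      rcases mul_eq_zero.mp hw0 with h | h
      · exact hne w hw h
      · exact hyne h

end Pool.Agent.MAT
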