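import Pool.Agent.MAT.T

/-!
# MAT: proof of target GEL
-/

set_option autoImplicit false

open Polynomial Metric Set Filter Topology

noncomputable section

namespace Pool.Agent.MAT.GEL_

/-- leading coefficient -/
def aa (m : ℕ) (e : ℝ) : ℝ := 1 / (((m : ℝ) + 3) * (1 + e))

/-- second coefficient -/
def bb (m : ℕ) (e : ℝ) : ℝ := e / (((m : ℝ) + 2) * (1 + e))

theorem aa_pos (m : ℕ) {e : ℝ} (he : 0 < e) : 0 < aa m e := by
  unfold aa; positivity

theorem bb_pos (m : ℕ) {e : ℝ} (he : 0 < e) : 0 < bb m e := by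
  unfold bb; positivity

theorem ab_lt (m : ℕ) {e : ℝ} (he : 0 < e) : aa m e + bb m e < 1 := by
  unfold aa bb
  have hm : (0 : ℝ) ≤ m := Nat.cast_nonneg m
  have h1 : 1 / (((m : ℝ) + 3) * (1 + e)) ≤ 1 / (((m : ℝ) + 2) * (1 + e)) := by
    apply one_div_le_one_div_of_le (by positivity)
    nlinarith
  have h2 : 1 / (((m : ℝ) + 2) * (1 + e)) + e / (((m : ℝ) + 2) * (1 + e)) = 1 / ((m : ℝ) + 2) := by
    field_simp
  have h3 : 1 / ((m : ℝ) + 2) < 1 := by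
    rw [div_lt_one (by positivity)]
    linarith
  linarith

theorem one_add_ne {e : ℝ} (he : 0 < e) : (1 + (e : ℂ)) ≠ 0 := by
  have : ((1 + e : ℝ) : ℂ) ≠ 0 := by
    rw [Complex.ofReal_ne_zero]; positivity
  simpa using this

theorem cast_ne2 (m : ℕ) : ((m : ℂ) + 2) ≠ 0 := by
  have : ((m + 2 : ℕ) : ℂ) ≠ 0 := Nat.cast_ne_zero.2 (by omega)
  simpa using this

theorem cast_ne3 (m : ℕ) : ((m : ℂ) + 3) ≠ 0 := by
  have : ((m + 3 : ℕ) : ℂ) ≠ 0 := Nat.cast_ne_zero.2 (by omega)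
  simpa using this

theorem aa_cast (m : ℕ) (e : ℝ) : ((aa m e : ℝ) : ℂ) = 1 / (((m : ℂ) + 3) * (1 + e)) := by
  unfold aa; push_cast; rfl

theorem bb_cast (m : ℕ) (e : ℝ) : ((bb m e : ℝ) : ℂ) = e / (((m : ℂ) + 2) * (1 + e)) := by
  unfold bb; push_cast; rfl

/-- the normal form of `GG` -/
theorem gg_eq (m : ℕ) {e : ℝ} (he : 0 < e) (v : ℂ) :
    GG (m + 3) e v = ((1 - aa m e - bb m e : ℝ) : ℂ) + (aa m e : ℂ) * v ^ (m + 3) +
      (bb m e : ℂ) * v ^ (m + 2) := by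
  have h1 := one_add_ne he
  have h2 := cast_ne2 m
  have h3 := cast_ne3 m
  unfold GG
  have e1 : m + 3 - 1 = m + 2 := rfl
  have e2 : ((m + 3 : ℕ) : ℂ) - 1 = (m : ℂ) + 2 := by push_cast; ring
  rw [e1, e2]
  push_cast
  rw [aa_cast, bb_cast]
  field_simp
  ring

theorem gg_one (m : ℕ) {e : ℝ} : GG (m + 3) e 1 = 1 := by
  unfold GG; simp

theorem gg_der (m : ℕ) {e : ℝ} (he : 0 < e) (v : ℂ) :
    HasDerivAt (GG (m + 3) e) (v ^ (m + 1) * (v + e) / (1 + e)) v := by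
  have h1 := one_add_ne he
  have h2 := cast_ne2 m
  have h3 := cast_ne3 m
  have hf : GG (m + 3) e = fun v => ((1 - aa m e - bb m e : ℝ) : ℂ) +
      (aa m e : ℂ) * v ^ (m + 3) + (bb m e : ℂ) * v ^ (m + 2) := funext (gg_eq m he)
  rw [hf]
  have h := (((hasDerivAt_pow (m + 3) v).const_mul (aa m e : ℂ)).const_add
    ((1 - aa m e - bb m e : ℝ) : ℂ)).add ((hasDerivAt_pow (m + 2) v).const_mul (bb m e : ℂ))
  refine h.congr_deriv ?_
  rw [aa_cast, bb_cast]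
  have e1 : m + 3 - 1 = m + 2 := rfl
  have e2 : m + 2 - 1 = m + 1 := rfl
  rw [e1, e2]
  push_cast
  field_simp
  ring

theorem gg_conj (m : ℕ) {e : ℝ} (he : 0 < e) (v : ℂ) :
    GG (m + 3) e ((starRingEnd ℂ) v) = (starRingEnd ℂ) (GG (m + 3) e v) := by
  rw [gg_eq m he, gg_eq m he]
  simp only [map_add, map_mul, map_pow, Complex.conj_ofReal]

/-- strict convexity -/
theorem eq_one_of (c a : ℝ) (X : ℂ) (hc : 0 < c) (ha : 0 < a) (hX : ‖X‖ ≤ 1)
    (h : c + a ≤ ‖(c : ℂ) + (a : ℂ) * X‖) : X = 1 := by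
  have h1 : (c + a) ^ 2 ≤ ‖(c : ℂ) + (a : ℂ) * X‖ ^ 2 := by
    apply pow_le_pow_left₀ (by positivity) h
  have h2 : ‖(c : ℂ) + (a : ℂ) * X‖ ^ 2 = (c + a * X.re) ^ 2 + (a * X.im) ^ 2 := by
    rw [← Complex.normSq_eq_norm_sq, Complex.normSq_apply]
    simp
    ring
  have h3 : X.re ^ 2 + X.im ^ 2 ≤ 1 := by
    have : ‖X‖ ^ 2 = X.re ^ 2 + X.im ^ 2 := by
      rw [← Complex.normSq_eq_norm_sq, Complex.normSq_apply]; ring
    rw [← this]
    exact pow_le_one₀ (norm_nonneg _) hX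
  rw [h2] at h1
  have h4 : c * a * (1 - X.re) ≤ 0 := by nlinarith [mul_pos hc ha, mul_pos ha ha]
  have h5 : 1 ≤ X.re := by
    by_contra h6
    have : 0 < c * a * (1 - X.re) := mul_pos (mul_pos hc ha) (by linarith)
    linarith
  have h6 : X.im = 0 := by
    have : X.im ^ 2 ≤ 0 := by nlinarith
    exact pow_eq_zero_iff (two_ne_zero) |>.1 (le_antisymm this (sq_nonneg _))
  have h7 : X.re = 1 := by
    have : X.re ≤ 1 := by nlinarith
    linarith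
  apply Complex.ext
  · simpa using h7
  · simpa using h6

theorem gg_lt (m : ℕ) {e : ℝ} (he : 0 < e) (v : ℂ) (hv : ‖v‖ ≤ 1) (hv1 : v ≠ 1) :
    ‖GG (m + 3) e v‖ < 1 := by
  by_contra hcon
  push Not at hcon
  rw [gg_eq m he] at hcon
  have ha := aa_pos m he
  have hb := bb_pos m he
  have hab := ab_lt m he
  set a := aa m e
  set b := bb m e
  have hX : ‖v ^ (m + 3)‖ ≤ 1 := by rw [norm_pow]; exact pow_le_one₀ (norm_nonneg _) hv
  have hY : ‖v ^ (m + 2)‖ ≤ 1 := by rw [norm_pow]; exact pow_le_one₀ (norm_nonneg _) hv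
  have hX1 : v ^ (m + 3) = 1 := by
    apply eq_one_of (1 - a - b) a _ (by linarith) ha hX
    have h1 := norm_add_le (((1 - a - b : ℝ) : ℂ) + (a : ℂ) * v ^ (m + 3))
      ((b : ℂ) * v ^ (m + 2))
    have h2 : ‖(b : ℂ) * v ^ (m + 2)‖ ≤ b := by
      rw [norm_mul, Complex.norm_real, Real.norm_eq_abs, abs_of_pos hb]
      nlinarith [norm_nonneg (v ^ (m + 2))]
    linarith
  have hY1 : v ^ (m + 2) = 1 := by
    apply eq_one_of (1 - a - b) b _ (by linarith) hb hY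
    have h1 := norm_add_le (((1 - a - b : ℝ) : ℂ) + (b : ℂ) * v ^ (m + 2))
      ((a : ℂ) * v ^ (m + 3))
    have h2 : ‖(a : ℂ) * v ^ (m + 3)‖ ≤ a := by
      rw [norm_mul, Complex.norm_real, Real.norm_eq_abs, abs_of_pos ha]
      nlinarith [norm_nonneg (v ^ (m + 3))]
    have h3 : ((1 - a - b : ℝ) : ℂ) + (a : ℂ) * v ^ (m + 3) + (b : ℂ) * v ^ (m + 2) =
      ((1 - a - b : ℝ) : ℂ) + (b : ℂ) * v ^ (m + 2) + (a : ℂ) * v ^ (m + 3) := by ring
    rw [h3] at hcon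
    linarith
  apply hv1
  have h4 : v ^ (m + 3) = v * v ^ (m + 2) := by ring
  rw [h4, hY1, mul_one] at hX1
  exact hX1

theorem der1 (m : ℕ) {e : ℝ} (he : 0 < e) :
    deriv (GG (m + 3) e) = fun v : ℂ => v ^ (m + 1) * (v + e) / (1 + e) :=
  funext fun v => (gg_der m he v).deriv

theorem der2 (m : ℕ) {e : ℝ} (_he : 0 < e) (v : ℂ) :
    HasDerivAt (fun v : ℂ => v ^ (m + 1) * (v + e) / (1 + e))
      ((((m : ℂ) + 1) * v ^ m * (v + e) + v ^ (m + 1)) / (1 + e)) v := by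
  have h := ((hasDerivAt_pow (m + 1) v).mul ((hasDerivAt_id v).add_const (e : ℂ))).div_const
    (1 + (e : ℂ))
  refine h.congr_deriv ?_
  have e1 : m + 1 - 1 = m := rfl
  rw [e1]
  simp

theorem der3 (m : ℕ) {e : ℝ} (_he : 0 < e) (v : ℂ) :
    HasDerivAt (fun v : ℂ => (((m : ℂ) + 1) * v ^ m * (v + e) + v ^ (m + 1)) / (1 + e))
      ((((m : ℂ) + 1) * (m * v ^ (m - 1)) * (v + e) + ((m : ℂ) + 1) * v ^ m * 1 +
        ((m + 1 : ℕ) : ℂ) * v ^ (m + 1 - 1)) / (1 + e)) v := by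
  have h := ((((hasDerivAt_pow m v).const_mul ((m : ℂ) + 1)).mul
    ((hasDerivAt_id v).add_const (e : ℂ))).add (hasDerivAt_pow (m + 1) v)).div_const
    (1 + (e : ℂ))
  exact h

theorem itd2 (m : ℕ) {e : ℝ} (he : 0 < e) :
    iteratedDeriv 2 (GG (m + 3) e) =
      fun v : ℂ => (((m : ℂ) + 1) * v ^ m * (v + e) + v ^ (m + 1)) / (1 + e) := by
  rw [iteratedDeriv_succ, iteratedDeriv_one, der1 m he]
  exact funext fun v => (der2 m he v).deriv

theorem itd3 (m : ℕ) {e : ℝ} (he : 0 < e) :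
    iteratedDeriv 3 (GG (m + 3) e) 1 =
      (((m : ℂ) + 1) * (m * 1 ^ (m - 1)) * (1 + e) + ((m : ℂ) + 1) * 1 ^ m * 1 +
        ((m + 1 : ℕ) : ℂ) * 1 ^ (m + 1 - 1)) / (1 + e) := by
  rw [iteratedDeriv_succ, itd2 m he]
  exact (der3 m he 1).deriv

theorem main (m : ℕ) (e : ℝ) (he : 0 < e) :
  GG (m + 3) e 1 = 1 ∧
  (∀ v : ℂ, HasDerivAt (GG (m + 3) e) (v ^ (m + 3 - 2) * (v + e) / (1 + e)) v) ∧
  (∀ v : ℂ, GG (m + 3) e ((starRingEnd ℂ) v) = (starRingEnd ℂ) (GG (m + 3) e v)) ∧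
  (∀ v : ℂ, ‖v‖ ≤ 1 → v ≠ 1 → ‖GG (m + 3) e v‖ < 1) ∧
  iteratedDeriv 2 (GG (m + 3) e) 1 = 2 * (cA (m + 3) e : ℂ) ∧
  (iteratedDeriv 3 (GG (m + 3) e) 1).im = 0 ∧
  0 < cA (m + 3) e ∧
  (∃ P : ℂ[X], P.natDegree = m + 3 ∧ (∀ v, P.eval v = GG (m + 3) e v) ∧
    P.coeff (m + 3) = 1 / (((m + 3 : ℕ) : ℂ) * (1 + e)) ∧
    P.coeff (m + 3 - 1) = e / ((((m + 3 : ℕ) : ℂ) - 1) * (1 + e)) ∧
    P.coeff (m + 3 - 2) = 0) ∧
  (∃ R : ℝ, 2 ≤ R ∧ ∀ v : ℂ, R ≤ ‖v‖ → 2 * ‖v‖ ≤ ‖GG (m + 3) e v‖) ∧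
  (∀ v : ℂ, GG (m + 3) e v = GG (m + 3) e 0 → v = 0 ∨
    v = -(e * (m + 3 : ℕ) / ((m + 3 : ℕ) - 1) : ℝ)) ∧
  ‖GG (m + 3) e 0‖ < 1 := by
  have h1 := one_add_ne he
  have h2 := cast_ne2 m
  have h3 := cast_ne3 m
  have ha := aa_pos m he
  have hb := bb_pos m he
  have hab := ab_lt m he
  have hm : (0 : ℝ) ≤ m := Nat.cast_nonneg m
  refine ⟨gg_one m, gg_der m he, gg_conj m he, gg_lt m he, ?_, ?_, ?_, ?_, ?_, ?_, ?_⟩
  · rw [itd2 m he]
    unfold cA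
    push_cast
    field_simp
    ring
  · rw [itd3 m he]
    have : ((((m : ℂ) + 1) * (m * 1 ^ (m - 1)) * (1 + e) + ((m : ℂ) + 1) * 1 ^ m * 1 +
        ((m + 1 : ℕ) : ℂ) * 1 ^ (m + 1 - 1)) / (1 + e)) =
        (((((m : ℝ) + 1) * m * (1 + e) + ((m : ℝ) + 1) + ((m : ℝ) + 1)) / (1 + e) : ℝ) : ℂ) := by
      push_cast
      simp
    rw [this, Complex.ofReal_im]
  · unfold cA
    push_cast
    apply div_pos _ (by positivity)
    nlinarith
  · set P : ℂ[X] := C ((1 - aa m e - bb m e : ℝ) : ℂ) + C (aa m e : ℂ) * X ^ (m + 3) +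
      C (bb m e : ℂ) * X ^ (m + 2) with hP
    have hcoef : ∀ i, P.coeff i = (if i = 0 then ((1 - aa m e - bb m e : ℝ) : ℂ) else 0) +
        (if i = m + 3 then (aa m e : ℂ) else 0) + (if i = m + 2 then (bb m e : ℂ) else 0) := by
      intro i
      rw [hP, coeff_add, coeff_add, coeff_C, coeff_C_mul, coeff_C_mul, coeff_X_pow, coeff_X_pow]
      simp only [mul_ite, mul_one, mul_zero]
    refine ⟨P, ?_, ?_, ?_, ?_, ?_⟩
    · apply natDegree_eq_of_le_of_coeff_ne_zero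
      · rw [natDegree_le_iff_coeff_eq_zero]
        intro N hN
        rw [hcoef, if_neg (by omega), if_neg (by omega), if_neg (by omega)]
        simp
      · rw [hcoef, if_neg (by omega), if_pos rfl, if_neg (by omega)]
        simpa using ha.ne'
    · intro v
      rw [gg_eq m he, hP]
      simp
    · rw [hcoef, if_neg (by omega), if_pos rfl, if_neg (by omega), aa_cast]
      push_cast
      ring
    · have e1 : m + 3 - 1 = m + 2 := rfl
      rw [e1, hcoef, if_neg (by omega), if_neg (by omega), if_pos rfl, bb_cast]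
      push_cast
      ring
    · have e1 : m + 3 - 2 = m + 1 := rfl
      rw [e1, hcoef, if_neg (by omega), if_neg (by omega), if_neg (by omega)]
      simp
  · refine ⟨2 + (3 + bb m e) / aa m e, ?_, ?_⟩
    · have : 0 < (3 + bb m e) / aa m e := by positivity
      linarith
    · intro v hv
      have h0 : 0 < (3 + bb m e) / aa m e := by positivity
      have hv2 : 2 ≤ ‖v‖ := by linarith
      have hv3 : 3 + bb m e ≤ aa m e * ‖v‖ := by
        have : (3 + bb m e) / aa m e ≤ ‖v‖ := by linarith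
        rw [div_le_iff₀ ha] at this
        linarith
      rw [gg_eq m he]
      have i1 : ‖(aa m e : ℂ) * v ^ (m + 3)‖ = aa m e * ‖v‖ * ‖v‖ ^ (m + 2) := by
        rw [norm_mul, Complex.norm_real, Real.norm_eq_abs, abs_of_pos ha, norm_pow]
        ring
      have i2 : ‖(bb m e : ℂ) * v ^ (m + 2)‖ = bb m e * ‖v‖ ^ (m + 2) := by
        rw [norm_mul, Complex.norm_real, Real.norm_eq_abs, abs_of_pos hb, norm_pow]
      have i3 : ‖((1 - aa m e - bb m e : ℝ) : ℂ)‖ ≤ 1 := by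
        rw [Complex.norm_real, Real.norm_eq_abs, abs_le]
        constructor <;> linarith
      have i4 : ‖(aa m e : ℂ) * v ^ (m + 3)‖ ≤
          ‖((1 - aa m e - bb m e : ℝ) : ℂ) + (aa m e : ℂ) * v ^ (m + 3) +
            (bb m e : ℂ) * v ^ (m + 2)‖ + ‖((1 - aa m e - bb m e : ℝ) : ℂ)‖ +
            ‖(bb m e : ℂ) * v ^ (m + 2)‖ := by
        have : (aa m e : ℂ) * v ^ (m + 3) = (((1 - aa m e - bb m e : ℝ) : ℂ) +
          (aa m e : ℂ) * v ^ (m + 3) + (bb m e : ℂ) * v ^ (m + 2)) -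
          ((1 - aa m e - bb m e : ℝ) : ℂ) - (bb m e : ℂ) * v ^ (m + 2) := by ring
        calc ‖(aa m e : ℂ) * v ^ (m + 3)‖ = ‖(((1 - aa m e - bb m e : ℝ) : ℂ) +
          (aa m e : ℂ) * v ^ (m + 3) + (bb m e : ℂ) * v ^ (m + 2)) -
          ((1 - aa m e - bb m e : ℝ) : ℂ) - (bb m e : ℂ) * v ^ (m + 2)‖ := by rw [← this]
          _ ≤ _ := (norm_sub_le _ _).trans (by gcongr; exact norm_sub_le _ _)
      have i5 : ‖v‖ ≤ ‖v‖ ^ (m + 2) := by
        have := pow_le_pow_right₀ (by linarith : (1 : ℝ) ≤ ‖v‖) (by omega : 1 ≤ m + 2)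
        simpa using this
      have i6 : 3 * ‖v‖ ^ (m + 2) ≤ (aa m e * ‖v‖ - bb m e) * ‖v‖ ^ (m + 2) := by
        apply mul_le_mul_of_nonneg_right _ (by positivity)
        linarith
      rw [i1, i2] at i4
      nlinarith
  · intro v hv
    rw [gg_eq m he, gg_eq m he] at hv
    rw [zero_pow (by omega), zero_pow (by omega), mul_zero, mul_zero, add_zero, add_zero] at hv
    have hv' : v ^ (m + 2) * ((aa m e : ℂ) * v + (bb m e : ℂ)) = 0 := by
      have : ((aa m e : ℝ) : ℂ) * v ^ (m + 3) + ((bb m e : ℝ) : ℂ) * v ^ (m + 2) = 0 := by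
        rw [add_assoc] at hv
        exact left_eq_add.1 hv.symm
      rw [← this]
      ring
    rcases mul_eq_zero.1 hv' with h | h
    · left
      exact pow_eq_zero_iff (by omega) |>.1 h
    · right
      rw [aa_cast, bb_cast] at h
      have hv2 : v = -((e : ℂ) * ((m : ℂ) + 3) / ((m : ℂ) + 2)) := by
        field_simp at h ⊢
        linear_combination h
      rw [hv2]
      push_cast
      congr 2
      ring
  · exact gg_lt m he 0 (by simp) (by norm_num)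

end Pool.Agent.MAT.GEL_

namespace Pool.Agent.MAT

/-- GEL -/
theorem p_GEL : T_GEL := by
  intro n e hn he _
  obtain ⟨m, rfl⟩ : ∃ m, n = m + 3 := ⟨n - 3, by omega⟩
  exact GEL_.main m e he

end Pool.Agent.MAT
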