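import Pool.Agent.MAT.T

/-!
# MAT: GEN (`K.E w → p` as `Re w → -∞`)
-/

set_option autoImplicit false

open Polynomial Metric Set Filter Topology

noncomputable section

namespace Pool.Agent.MAT

namespace GEN_

theorem abs_log_le (t : ℝ) (ht : 0 < t) : |Real.log t| ≤ t + 1 / t := by
  have h1 : Real.log t ≤ t - 1 := Real.log_le_sub_one_of_pos ht
  have h2 : Real.log (1 / t) ≤ 1 / t - 1 := Real.log_le_sub_one_of_pos (by positivity)
  rw [one_div, Real.log_inv] at h2
  have h3 : 0 < t⁻¹ := by positivity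
  rw [one_div, abs_le]
  constructor <;> linarith

theorem norm_log_le (z : ℂ) (hz : z ≠ 0) : ‖Complex.log z‖ ≤ ‖z‖ + 1 / ‖z‖ + Real.pi := by
  have h1 : ‖Complex.log z‖ ≤ |(Complex.log z).re| + |(Complex.log z).im| :=
    Complex.norm_le_abs_re_add_abs_im _
  rw [Complex.log_re, Complex.log_im] at h1
  have h2 := abs_log_le ‖z‖ (norm_pos_iff.2 hz)
  have h3 := Complex.abs_arg_le_pi z
  linarith

end GEN_

open GEN_ in
/-- GEN -/
theorem p_GEN : T_GEN := by
  intro g p a K ε hε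
  have hna : 0 < ‖a‖ := norm_pos_iff.2 K.a_ne
  set B : ℝ := 1 / (‖a‖ * ε) with hB
  have hBpos : 0 < B := by positivity
  have hpi := Real.pi_pos
  refine ⟨max K.R (B + ‖K.β‖ * (B + 2 + 2 * Real.pi) + 2 * K.C), le_max_left _ _, ?_⟩
  intro w hw
  have hw1 : w.re < -K.R := lt_of_lt_of_le hw (neg_le_neg (le_max_left _ _))
  have hw2 : B + ‖K.β‖ * (B + 2 + 2 * Real.pi) + 2 * K.C < ‖w‖ := by
    have h1 : -w.re ≤ ‖w‖ := (neg_le_abs _).trans (Complex.abs_re_le_norm w)
    have h2 := le_max_right K.R (B + ‖K.β‖ * (B + 2 + 2 * Real.pi) + 2 * K.C)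
    linarith
  have hne := K.E_ne w hw1
  have hzp : 0 < ‖K.E w - p‖ := norm_pos_iff.2 (sub_ne_zero.2 hne)
  set om : ℂ := omc a p (K.E w) with hom
  have hnorm : ‖om‖ = 1 / (‖a‖ * ‖K.E w - p‖) := by
    rw [hom, omc, norm_div, norm_neg, norm_one, norm_mul]
  have hompos : 0 < ‖om‖ := by rw [hnorm]; positivity
  have homne : om ≠ 0 := norm_pos_iff.1 hompos
  have hhalf : 1 / 2 < ‖om‖ := by
    have h1 := K.E_loc w hw1
    have h2 : -om.re ≤ ‖om‖ := (neg_le_abs _).trans (Complex.abs_re_le_norm om)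
    have h3 : |om.im| ≤ ‖om‖ := Complex.abs_im_le_norm om
    linarith
  have hasy := K.E_asy w hw1
  have hinv : 1 / ‖om‖ ≤ 2 := by
    rw [div_le_iff₀ hompos]
    linarith
  have hC : K.C / ‖om‖ ≤ 2 * K.C := by
    have := mul_le_mul_of_nonneg_left hinv K.hC
    calc K.C / ‖om‖ = K.C * (1 / ‖om‖) := by ring
      _ ≤ K.C * 2 := this
      _ = 2 * K.C := by ring
  have hbig : B < ‖om‖ := by
    by_contra hcon
    push Not at hcon
    have h1 : ‖w‖ ≤ ‖Lout K.β om‖ + ‖Lout K.β om - w‖ := by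
      have := norm_sub_le (Lout K.β om) (Lout K.β om - w)
      simpa using this
    have h2 : ‖Lout K.β om‖ ≤ ‖om‖ + ‖K.β‖ * (‖Complex.log (-om)‖ + Real.pi) := by
      unfold Lout
      refine (norm_sub_le _ _).trans ?_
      have h3 : ‖K.β * (Complex.log (-om) + Real.pi * Complex.I)‖ ≤
          ‖K.β‖ * (‖Complex.log (-om)‖ + Real.pi) := by
        rw [norm_mul]
        refine mul_le_mul_of_nonneg_left ?_ (norm_nonneg _)
        refine (norm_add_le _ _).trans ?_
        rw [norm_mul, Complex.norm_I, mul_one, Complex.norm_real, Real.norm_eq_abs,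
          abs_of_pos hpi]
      linarith
    have h4 := norm_log_le (-om) (neg_ne_zero.2 homne)
    rw [norm_neg] at h4
    have h5 : ‖Complex.log (-om)‖ + Real.pi ≤ B + 2 + 2 * Real.pi := by linarith
    have h6 := mul_le_mul_of_nonneg_left h5 (norm_nonneg K.β)
    linarith
  rw [hnorm, hB] at hbig
  have h7 : ‖a‖ * ‖K.E w - p‖ < ‖a‖ * ε := by
    have h8 := (div_lt_div_iff₀ (by positivity) (by positivity)).1 hbig
    linarith
  exact lt_of_mul_lt_mul_left h7 hna.le

end Pool.Agent.MAT
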