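import Pool.Agent.MAT.T

/-!
# MAT: target GFP (the second fixed point of the perturbation)
-/

set_option autoImplicit false

open Polynomial Metric Set Filter Topology

noncomputable section

namespace Pool.Agent.MAT

namespace GFP_

theorem cA_pos {n : ℕ} {e : ℝ} (hn : 3 ≤ n) (he : 0 < e) : 0 < cA n e := by
  unfold cA
  have h1 : (3 : ℝ) ≤ n := by exact_mod_cast hn
  have h2 : 0 < (n : ℝ) - 2 := by linarith
  positivity

/-- a polynomial with `Q 1 = 1`, `Q' 1 ≠ 0` takes the values close to one close to one -/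
theorem inv (Q : ℂ[X]) (A : ℂ) (hA : A ≠ 0) (h1 : Q.eval 1 = 1)
    (h2 : (derivative Q).eval 1 = A) :
    ∃ g : ℂ → ℂ, Tendsto g (𝓝 1) (𝓝 1) ∧ ∀ᶠ y in 𝓝 (1 : ℂ), Q.eval (g y) = y := by
  have hs : HasStrictDerivAt (fun z => Q.eval z) A 1 := by
    rw [← h2]; exact Q.hasStrictDerivAt 1
  have hs' := hs.hasStrictFDerivAt_equiv hA
  refine ⟨hs'.localInverse _ _ _, ?_, ?_⟩
  · have h3 := hs'.localInverse_continuousAt
    have h4 := hs'.localInverse_apply_image
    unfold ContinuousAt at h3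
    rw [h4] at h3
    simp only [h1] at h3
    exact h3
  · have h3 := hs'.eventually_right_inverse
    simp only [h1] at h3
    exact h3

end GFP_

open GFP_ in
theorem p_GFP (hGQ : T_GQ) : T_GFP := by
  intro n e hn he he2 μ hμ hμ1
  obtain ⟨Q, hQ, hQ1, hQ2, -⟩ := hGQ n e hn he he2
  have hA := cA_pos hn he
  have hAc : (cA n e : ℂ) ≠ 0 := by exact_mod_cast hA.ne'
  obtain ⟨g, hg1, hg2⟩ := inv Q (cA n e : ℂ) hAc hQ1 hQ2
  have hinv : Tendsto (fun k => 1 / μ k) atTop (𝓝 (1 : ℂ)) := by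
    have h := (hμ.inv₀ one_ne_zero)
    simpa using h
  refine ⟨fun k => g (1 / μ k), hg1.comp hinv, ?_⟩
  have hne : ∀ᶠ k in atTop, μ k ≠ 0 := hμ.eventually_ne one_ne_zero
  filter_upwards [hinv.eventually hg2, hne] with k hk hk0
  refine ⟨fun h => ?_, ?_⟩
  · rw [h, hQ1] at hk
    apply hμ1 k
    field_simp at hk
    exact hk
  · have h1 := hQ (g (1 / μ k))
    unfold GF
    have h2 : GG n e (g (1 / μ k)) - 1 = -((1 - g (1 / μ k)) * (1 / μ k)) := by
      rw [hk] at h1
      rw [← h1]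
      ring
    rw [h2]
    field_simp
    ring

end Pool.Agent.MAT
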