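import Pool.Agent.MAT.T

/-!
# MAT: GHC (the horocyclic perturbations)
-/

set_option autoImplicit false

open Polynomial Metric Set Filter Topology

noncomputable section

namespace Pool.Agent.MAT.GHC_

open Pool.Agent.MAT

lemma GF_cont (n : ℕ) (e : ℝ) (μ : ℂ) : Continuous (GF n e μ) := by
  unfold GF GG
  fun_prop

lemma ell_lim (S : ℝ) : Tendsto (fun k : ℕ => ell S k) atTop (𝓝 0) := by
  have h1 : Tendsto (fun k : ℕ => ‖(k : ℂ) - S * Complex.I‖) atTop atTop := by
    have h2 : Tendsto (fun k : ℕ => (k : ℝ) + (-|S|)) atTop atTop :=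
      tendsto_atTop_add_const_right _ _ tendsto_natCast_atTop_atTop
    refine tendsto_atTop_mono (fun k => ?_) h2
    have h3 := norm_sub_norm_le (k : ℂ) (S * Complex.I)
    rw [norm_mul, Complex.norm_I, mul_one, Complex.norm_real, Real.norm_eq_abs,
      Complex.norm_natCast] at h3
    linarith
  rw [tendsto_zero_iff_norm_tendsto_zero]
  have h4 : ∀ k : ℕ, ‖ell S k‖ = ‖2 * (Real.pi : ℂ) * Complex.I‖ / ‖(k : ℂ) - S * Complex.I‖ := by
    intro k
    unfold ell
    rw [norm_div]
  simp_rw [h4]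
  exact h1.const_div_atTop _

lemma US_mono {n : ℕ} {e : ℝ} (K : PK (GG n e) 1 (cA n e)) {C C' : ℝ} (h : C ≤ C') :
    US K C ⊆ US K C' := by
  rintro x ⟨hx, w, hw, hi⟩
  exact ⟨hx, w, hw, by linarith⟩

lemma Bas_it {n : ℕ} {e : ℝ} {μ v : ℂ} (h : v ∈ Bas n e μ) (m : ℕ) :
    (GF n e μ)^[m] v ∈ Bas n e μ := by
  have h1 : Tendsto (fun j : ℕ => (GF n e μ)^[j] v) atTop (𝓝 1) := h
  have h2 := h1.comp (tendsto_add_atTop_nat m)
  show Tendsto (fun j : ℕ => (GF n e μ)^[j] ((GF n e μ)^[m] v)) atTop (𝓝 1)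
  refine h2.congr fun j => ?_
  rw [Function.comp_apply, Function.iterate_add_apply]

lemma part2 {n : ℕ} {e : ℝ} {μ : ℂ} {E : Set ℂ} (hE : IsPreconnected E) (h0 : (0 : ℂ) ∈ E)
    (hF : GF n e μ 0 ∈ E) (hB : E ⊆ Bas n e μ) (h1 : GG n e 1 = 1) :
    E ⊆ connectedComponentIn (Bas n e μ) 1 := by
  set F := GF n e μ with hFd
  set V : Set ℂ := ⋃ m : ℕ, (F^[m]) '' E with hV
  have hVpre : IsPreconnected V := by
    apply IsPreconnected.iUnion_of_chain
    · intro m
      exact hE.image _ ((GF_cont n e μ).iterate m).continuousOn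
    · intro m
      refine ⟨F^[m] (F 0), ⟨F 0, hF, rfl⟩, ⟨0, h0, ?_⟩⟩
      show F^[Order.succ m] 0 = F^[m] (F 0)
      rw [Nat.succ_eq_succ, Nat.succ_eq_add_one, Function.iterate_succ_apply]
  have hVB : V ⊆ Bas n e μ := by
    intro v hv
    obtain ⟨m, x, hx, rfl⟩ := mem_iUnion.mp hv
    exact Bas_it (hB hx) m
  have hfix : F 1 = 1 := by
    rw [hFd]; unfold GF; rw [h1]; ring
  have h1B : (1 : ℂ) ∈ Bas n e μ := by
    have hit : ∀ m : ℕ, F^[m] 1 = 1 := fun m => Function.iterate_fixed hfix m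
    show Tendsto (fun m : ℕ => F^[m] 1) atTop (𝓝 1)
    simp only [hit]
    exact tendsto_const_nhds
  have hcl : (1 : ℂ) ∈ closure V := by
    have ht : Tendsto (fun m : ℕ => F^[m] 0) atTop (𝓝 1) := hB h0
    refine mem_closure_of_tendsto ht (Eventually.of_forall fun m => ?_)
    exact mem_iUnion.mpr ⟨m, 0, h0, rfl⟩
  have hpre : IsPreconnected (insert (1 : ℂ) V) := by
    apply hVpre.subset_closure (subset_insert _ _)
    exact insert_subset hcl subset_closure
  have hsub := hpre.subset_connectedComponentIn (mem_insert _ _)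
    (insert_subset h1B hVB)
  intro x hx
  apply hsub
  exact mem_insert_of_mem _ (mem_iUnion.mpr ⟨0, x, hx, rfl⟩)

end Pool.Agent.MAT.GHC_

namespace Pool.Agent.MAT

open GHC_

theorem p_GHC (hGAT : T_GAT) (hHUS : T_HUS) (hGBA : T_GBA) (hGEL : T_GEL) : T_GHC := by
  intro n e hn he he2 K C₁
  obtain ⟨-, -, hballU, -, -, -, -, -, -, -, -, -, -⟩ := hGBA n e hn he he2
  obtain ⟨hG1, -, -, -, -, -, -, -, -, -, hG0⟩ := hGEL n e hn he he2
  -- the compact set
  set ρ : ℝ := max (3 / 4) ((1 + ‖GG n e 0‖) / 2) with hρ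
  have hρ1 : ρ < 1 := by
    rw [hρ]
    exact max_lt (by norm_num) (by linarith)
  have hρ2 : 3 / 4 ≤ ρ := le_max_left _ _
  have hρ3 : ‖GG n e 0‖ < ρ := lt_of_lt_of_le (by linarith) (le_max_right _ _)
  set E : Set ℂ := closedBall 0 ρ with hE
  have hEU : E ⊆ UG n e := by
    intro x hx
    apply hballU
    rw [mem_ball_zero_iff]
    have : ‖x‖ ≤ ρ := mem_closedBall_zero_iff.mp hx
    linarith
  have hEc : IsCompact E := isCompact_closedBall _ _
  have hex : ∃ C₂ : ℝ, E ⊆ US K C₂ := by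
    have hcov : E ⊆ ⋃ j : ℕ, US K (j : ℝ) := by
      intro x hx
      obtain ⟨w, hw⟩ := (hHUS n e hn he he2 K 0).2.2.2.2.2.1 x (hEU hx)
      obtain ⟨j, hj⟩ := exists_nat_gt (-w.im)
      exact mem_iUnion.mpr ⟨j, hEU hx, w, hw, by linarith⟩
    obtain ⟨j, hj⟩ := hEc.elim_directed_cover (fun j : ℕ => US K (j : ℝ))
      (fun j => (hHUS n e hn he he2 K j).1) hcov
      (directed_of_isDirected_le fun i j hij => US_mono K (by exact_mod_cast hij))
    exact ⟨j, hj⟩
  obtain ⟨C₂, hC₂⟩ := hex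
  obtain ⟨S₀, hS₀, hS⟩ := hGAT n e hn he he2 K (max C₁ C₂)
  refine ⟨S₀, hS₀, fun S hSS => ?_⟩
  -- local uniformity
  have loc : ∀ x ∈ US K (max C₁ C₂), ∃ r : ℝ, 0 < r ∧
      ∀ᶠ k : ℕ in atTop, ball x r ⊆ Bas n e (Complex.exp (ell S k)) := by
    intro x hx
    by_contra hcon
    push Not at hcon
    have hfr : ∀ j : ℕ, ∃ᶠ k : ℕ in atTop, ∃ y ∈ ball x (1 / ((j : ℝ) + 1)),
        y ∉ Bas n e (Complex.exp (ell S k)) := by
      intro j
      have h1 := hcon (1 / ((j : ℝ) + 1)) (by positivity)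
      refine h1.mono fun k hk => ?_
      exact not_subset.mp hk
    obtain ⟨φ, hφ, hy⟩ := extraction_forall_of_frequently hfr
    choose y hy1 hy2 using hy
    set xk : ℕ → ℂ := fun k => y (Function.invFun φ k) with hxk
    have hxφ : ∀ j, xk (φ j) = y j := by
      intro j
      rw [hxk]
      show y (Function.invFun φ (φ j)) = y j
      rw [Function.leftInverse_invFun hφ.injective j]
    have hl : map φ atTop ≤ (atTop : Filter ℕ) := hφ.tendsto_atTop
    have hylim : Tendsto y atTop (𝓝 x) := by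
      rw [tendsto_iff_dist_tendsto_zero]
      refine squeeze_zero (fun _ => dist_nonneg) (fun j => (mem_ball.mp (hy1 j)).le) ?_
      exact tendsto_one_div_add_atTop_nhds_zero_nat
    have hxlim : Tendsto xk (map φ atTop) (𝓝 x) := by
      rw [tendsto_map'_iff]
      refine hylim.congr fun j => ?_
      exact (hxφ j).symm
    have h2 := hS S hSS (map φ atTop) xk x hl hxlim hx
    rw [eventually_map] at h2
    obtain ⟨j, hj⟩ := h2.exists
    rw [hxφ j] at hj
    exact hy2 j hj
  refine ⟨fun x hx => ?_, ?_⟩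
  · obtain ⟨r, hr, hk⟩ := loc x (US_mono K (le_max_left _ _) hx)
    obtain ⟨r', hr', hsub⟩ := Metric.isOpen_iff.mp (hHUS n e hn he he2 K C₁).1 x hx
    refine ⟨min r r', lt_min hr hr', (ball_subset_ball (min_le_right _ _)).trans hsub, ?_⟩
    filter_upwards [hk] with k hk
    exact (ball_subset_ball (min_le_left _ _)).trans hk
  · have hEB : ∀ᶠ k : ℕ in atTop, E ⊆ Bas n e (Complex.exp (ell S k)) := by
      refine hEc.induction_on (p := fun s => ∀ᶠ k : ℕ in atTop,
        s ⊆ Bas n e (Complex.exp (ell S k))) ?_ ?_ ?_ ?_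
      · exact Eventually.of_forall fun k => empty_subset _
      · intro s t hst ht
        filter_upwards [ht] with k hk
        exact hst.trans hk
      · intro s t hs ht
        filter_upwards [hs, ht] with k h1 h2
        exact union_subset h1 h2
      · intro x hx
        obtain ⟨r, hr, hk⟩ := loc x (US_mono K (le_max_right _ _) (hC₂ hx))
        exact ⟨ball x r, mem_nhdsWithin_of_mem_nhds (ball_mem_nhds x hr), hk⟩
    have hF0 : ∀ᶠ k : ℕ in atTop, GF n e (Complex.exp (ell S k)) 0 ∈ E := by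
      have h1 : Tendsto (fun k : ℕ => Complex.exp (ell S k)) atTop (𝓝 1) := by
        have := (Complex.continuous_exp.tendsto 0).comp (ell_lim S)
        rwa [Complex.exp_zero] at this
      have h2 : Tendsto (fun k : ℕ => GF n e (Complex.exp (ell S k)) 0) atTop
          (𝓝 (GG n e 0)) := by
        have h3 : Tendsto (fun k : ℕ => 1 + Complex.exp (ell S k) * (GG n e 0 - 1)) atTop
            (𝓝 (1 + 1 * (GG n e 0 - 1))) := (h1.mul_const _).const_add 1
        rw [show (1 : ℂ) + 1 * (GG n e 0 - 1) = GG n e 0 by ring] at h3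
        exact h3
      have h4 : E ∈ 𝓝 (GG n e 0) := by
        apply mem_of_superset (isOpen_ball.mem_nhds (mem_ball_zero_iff.mpr hρ3))
        exact ball_subset_closedBall
      exact h2 h4
    have hEpre : IsPreconnected E := (convex_closedBall 0 ρ).isPreconnected
    have h0E : (0 : ℂ) ∈ E := mem_closedBall_self (by linarith)
    have heE : (-(e : ℂ)) ∈ E := by
      rw [hE, mem_closedBall_zero_iff, norm_neg, Complex.norm_real, Real.norm_eq_abs,
        abs_of_pos he]
      linarith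
    filter_upwards [hEB, hF0] with k h1 h2
    have := part2 hEpre h0E h2 h1 hG1
    exact ⟨this h0E, this heE⟩

end Pool.Agent.MAT
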