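import Pool.Agent.MAT.T

/-!
# MAT: GIR, the difference of the critical orbits is irrational for some `e`
-/

set_option autoImplicit false

open Polynomial Metric Set Filter Topology

noncomputable section

namespace Pool.Agent.MAT

namespace GIR_

/-- averages of powers -/
def q (m : ℕ) (v : ℝ) : ℝ := (∑ i ∈ Finset.range m, v ^ i) / m

/-- the quotient `(1 - q) / (1 - v)` -/
def p (m : ℕ) (v : ℝ) : ℝ := (∑ i ∈ Finset.range m, ∑ j ∈ Finset.range i, v ^ j) / m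

/-- real version of `G` -/
def gr (n : ℕ) (e v : ℝ) : ℝ :=
  1 + ((v ^ n - 1) / n + e * (v ^ (n - 1) - 1) / ((n : ℝ) - 1)) / (1 + e)

/-- `(1 - G) / (1 - v)` -/
def Q (n : ℕ) (e v : ℝ) : ℝ := (q n v + e * q (n - 1) v) / (1 + e)

/-- `(1 - Q) / (1 - v)` -/
def P (n : ℕ) (e v : ℝ) : ℝ := (p n v + e * p (n - 1) v) / (1 + e)

lemma one_sub_pow (v : ℝ) (m : ℕ) : 1 - v ^ m = (1 - v) * ∑ i ∈ Finset.range m, v ^ i := by
  have := geom_sum_mul v m
  linarith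

lemma one_sub_q {m : ℕ} (hm : 0 < m) (v : ℝ) : 1 - q m v = (1 - v) * p m v := by
  have hm' : (0 : ℝ) < m := by exact_mod_cast hm
  have h : (m : ℝ) - ∑ i ∈ Finset.range m, v ^ i =
      (1 - v) * ∑ i ∈ Finset.range m, ∑ j ∈ Finset.range i, v ^ j := by
    rw [Finset.mul_sum]
    have : (m : ℝ) = ∑ i ∈ Finset.range m, (1 : ℝ) := by simp
    rw [this, ← Finset.sum_sub_distrib]
    exact Finset.sum_congr rfl fun i _ => one_sub_pow v i
  unfold q p
  field_simp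
  linarith

lemma cast_pred {n : ℕ} (hn : 3 ≤ n) : ((n - 1 : ℕ) : ℝ) = (n : ℝ) - 1 := by
  rw [Nat.cast_sub (by omega)]
  simp

lemma one_sub_gr {n : ℕ} (hn : 3 ≤ n) {e : ℝ} (he : 0 ≤ e) (v : ℝ) :
    1 - gr n e v = (1 - v) * Q n e v := by
  have h1 := one_sub_pow v n
  have h2 := one_sub_pow v (n - 1)
  have hn' : (3 : ℝ) ≤ n := by exact_mod_cast hn
  have he' : 0 < 1 + e := by linarith
  have hn1 : (n : ℝ) - 1 ≠ 0 := by
    have : (0 : ℝ) < (n : ℝ) - 1 := by linarith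
    exact this.ne'
  have hn0 : (n : ℝ) ≠ 0 := by
    have : (0 : ℝ) < (n : ℝ) := by linarith
    exact this.ne'
  have e1 : v ^ n = 1 - (1 - v) * ∑ i ∈ Finset.range n, v ^ i := by linarith
  have e2 : v ^ (n - 1) = 1 - (1 - v) * ∑ i ∈ Finset.range (n - 1), v ^ i := by linarith
  unfold gr Q q
  rw [cast_pred hn, e1, e2]
  field_simp
  ring

lemma one_sub_Q {n : ℕ} (hn : 3 ≤ n) {e : ℝ} (he : 0 ≤ e) (v : ℝ) :
    1 - Q n e v = (1 - v) * P n e v := by
  have h1 := one_sub_q (m := n) (by omega) v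
  have h2 := one_sub_q (m := n - 1) (by omega) v
  have he' : 0 < 1 + e := by linarith
  unfold Q P
  field_simp
  linear_combination h1 + e * h2

lemma q_le {m : ℕ} (hm : 0 < m) {v : ℝ} (h0 : 0 ≤ v) (h1 : v ≤ 1) : q m v ≤ 1 := by
  have hm' : (0 : ℝ) < m := by exact_mod_cast hm
  unfold q
  rw [div_le_one hm']
  calc ∑ i ∈ Finset.range m, v ^ i ≤ ∑ i ∈ Finset.range m, (1 : ℝ) :=
        Finset.sum_le_sum fun i _ => pow_le_one₀ h0 h1
    _ = m := by simp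

lemma le_q {m : ℕ} (hm : 0 < m) {v : ℝ} (h0 : 0 ≤ v) : 1 / (m : ℝ) ≤ q m v := by
  unfold q
  have hm' : (0 : ℝ) < m := by exact_mod_cast hm
  gcongr
  calc (1 : ℝ) = v ^ 0 := by simp
    _ ≤ ∑ i ∈ Finset.range m, v ^ i :=
        Finset.single_le_sum (f := fun i => v ^ i) (fun i _ => pow_nonneg h0 i)
          (Finset.mem_range.mpr hm)

lemma p_nonneg {m : ℕ} {v : ℝ} (h0 : 0 ≤ v) : 0 ≤ p m v := by
  unfold p
  exact div_nonneg (Finset.sum_nonneg fun i _ => Finset.sum_nonneg fun j _ => pow_nonneg h0 j)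
    (Nat.cast_nonneg m)

lemma p_le {m : ℕ} (hm : 0 < m) {v : ℝ} (h0 : 0 ≤ v) (h1 : v ≤ 1) : p m v ≤ m := by
  have hm' : (0 : ℝ) < m := by exact_mod_cast hm
  unfold p
  rw [div_le_iff₀ hm']
  calc ∑ i ∈ Finset.range m, ∑ j ∈ Finset.range i, v ^ j
      ≤ ∑ i ∈ Finset.range m, (m : ℝ) := by
        refine Finset.sum_le_sum fun i hi => ?_
        calc ∑ j ∈ Finset.range i, v ^ j ≤ ∑ j ∈ Finset.range i, (1 : ℝ) :=
              Finset.sum_le_sum fun j _ => pow_le_one₀ h0 h1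
          _ = i := by simp
          _ ≤ m := by exact_mod_cast (Finset.mem_range.mp hi).le
    _ = m * m := by simp

lemma le_p {m : ℕ} (hm : 2 ≤ m) {v : ℝ} (h0 : 0 ≤ v) : 1 / (m : ℝ) ≤ p m v := by
  have hm' : (0 : ℝ) < m := by
    have : 0 < m := by omega
    exact_mod_cast this
  unfold p
  gcongr
  calc (1 : ℝ) = ∑ j ∈ Finset.range 1, v ^ j := by simp
    _ ≤ ∑ i ∈ Finset.range m, ∑ j ∈ Finset.range i, v ^ j :=
        Finset.single_le_sum (f := fun i => ∑ j ∈ Finset.range i, v ^ j)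
          (fun i _ => Finset.sum_nonneg fun j _ => pow_nonneg h0 j)
          (Finset.mem_range.mpr (by omega : 1 < m))

lemma pow_lip {v w : ℝ} (hv0 : 0 ≤ v) (hv1 : v ≤ 1) (hw0 : 0 ≤ w) (hw1 : w ≤ 1) (i : ℕ) :
    |v ^ i - w ^ i| ≤ i * |v - w| := by
  induction i with
  | zero => simp
  | succ k ih =>
    have e : v ^ (k + 1) - w ^ (k + 1) = v * (v ^ k - w ^ k) + w ^ k * (v - w) := by ring
    rw [e]
    calc |v * (v ^ k - w ^ k) + w ^ k * (v - w)|
        ≤ |v * (v ^ k - w ^ k)| + |w ^ k * (v - w)| := abs_add_le _ _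
      _ = v * |v ^ k - w ^ k| + w ^ k * |v - w| := by
          rw [abs_mul, abs_mul, abs_of_nonneg hv0, abs_of_nonneg (pow_nonneg hw0 k)]
      _ ≤ 1 * (k * |v - w|) + 1 * |v - w| := by
          gcongr
          exact pow_le_one₀ hw0 hw1
      _ = ((k + 1 : ℕ) : ℝ) * |v - w| := by push_cast; ring

lemma q_lip {m : ℕ} (hm : 0 < m) {v w : ℝ} (hv0 : 0 ≤ v) (hv1 : v ≤ 1) (hw0 : 0 ≤ w)
    (hw1 : w ≤ 1) : |q m v - q m w| ≤ m * |v - w| := by
  have hm' : (0 : ℝ) < m := by exact_mod_cast hm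
  unfold q
  rw [← sub_div, abs_div, abs_of_pos hm', div_le_iff₀ hm', ← Finset.sum_sub_distrib]
  calc |∑ i ∈ Finset.range m, (v ^ i - w ^ i)| ≤ ∑ i ∈ Finset.range m, |v ^ i - w ^ i| :=
        Finset.abs_sum_le_sum_abs _ _
    _ ≤ ∑ i ∈ Finset.range m, (m * |v - w|) := by
        refine Finset.sum_le_sum fun i hi => (pow_lip hv0 hv1 hw0 hw1 i).trans ?_
        have : (i : ℝ) ≤ m := by exact_mod_cast (Finset.mem_range.mp hi).le
        gcongr
    _ = m * |v - w| * m := by simp; ring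

lemma p_lip {m : ℕ} (hm : 0 < m) {v w : ℝ} (hv0 : 0 ≤ v) (hv1 : v ≤ 1) (hw0 : 0 ≤ w)
    (hw1 : w ≤ 1) : |p m v - p m w| ≤ m ^ 2 * |v - w| := by
  have hm' : (0 : ℝ) < m := by exact_mod_cast hm
  unfold p
  rw [← sub_div, abs_div, abs_of_pos hm', div_le_iff₀ hm', ← Finset.sum_sub_distrib]
  calc |∑ i ∈ Finset.range m, (∑ j ∈ Finset.range i, v ^ j - ∑ j ∈ Finset.range i, w ^ j)|
      ≤ ∑ i ∈ Finset.range m, |∑ j ∈ Finset.range i, v ^ j - ∑ j ∈ Finset.range i, w ^ j| :=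
        Finset.abs_sum_le_sum_abs _ _
    _ ≤ ∑ i ∈ Finset.range m, (m ^ 2 * |v - w|) := by
        refine Finset.sum_le_sum fun i hi => ?_
        have him : (i : ℝ) ≤ m := by exact_mod_cast (Finset.mem_range.mp hi).le
        rw [← Finset.sum_sub_distrib]
        calc |∑ j ∈ Finset.range i, (v ^ j - w ^ j)| ≤ ∑ j ∈ Finset.range i, |v ^ j - w ^ j| :=
              Finset.abs_sum_le_sum_abs _ _
          _ ≤ ∑ j ∈ Finset.range i, (m * |v - w|) := by
              refine Finset.sum_le_sum fun j hj => (pow_lip hv0 hv1 hw0 hw1 j).trans ?_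
              have : (j : ℝ) ≤ m := by
                have := (Finset.mem_range.mp hj).le.trans (Finset.mem_range.mp hi).le
                exact_mod_cast this
              gcongr
          _ = i * (m * |v - w|) := by simp
          _ ≤ m * (m * |v - w|) := by gcongr
          _ = m ^ 2 * |v - w| := by ring
    _ = m ^ 2 * |v - w| * m := by simp; ring

/-! ### bounds for `Q`, `P`, `A` -/

lemma Q_bd {n : ℕ} (hn : 3 ≤ n) {e : ℝ} (he : 0 ≤ e) {v : ℝ} (h0 : 0 ≤ v) (h1 : v ≤ 1) :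
    1 / (n : ℝ) ≤ Q n e v ∧ Q n e v ≤ 1 := by
  have he' : 0 < 1 + e := by linarith
  have hn' : (3 : ℝ) ≤ n := by exact_mod_cast hn
  have a1 := q_le (m := n) (by omega) h0 h1
  have a2 := q_le (m := n - 1) (by omega) h0 h1
  have b1 := le_q (m := n) (by omega) h0
  have b2 := le_q (m := n - 1) (by omega) h0
  have b3 : 1 / (n : ℝ) ≤ 1 / ((n - 1 : ℕ) : ℝ) := by
    rw [cast_pred hn]
    exact one_div_le_one_div_of_le (by linarith) (by linarith)
  unfold Q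
  constructor
  · rw [le_div_iff₀ he']
    nlinarith
  · rw [div_le_one he']
    nlinarith

lemma P_bd {n : ℕ} (hn : 3 ≤ n) {e : ℝ} (he : 0 ≤ e) {v : ℝ} (h0 : 0 ≤ v) (h1 : v ≤ 1) :
    1 / (n : ℝ) ≤ P n e v ∧ P n e v ≤ n := by
  have he' : 0 < 1 + e := by linarith
  have hn' : (3 : ℝ) ≤ n := by exact_mod_cast hn
  have a1 := p_le (m := n) (by omega) h0 h1
  have a2 := p_le (m := n - 1) (by omega) h0 h1
  have b1 := le_p (m := n) (by omega) h0
  have b2 := le_p (m := n - 1) (by omega) h0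
  have b3 : 1 / (n : ℝ) ≤ 1 / ((n - 1 : ℕ) : ℝ) := by
    rw [cast_pred hn]
    exact one_div_le_one_div_of_le (by linarith) (by linarith)
  rw [cast_pred hn] at a2
  unfold P
  constructor
  · rw [le_div_iff₀ he']
    nlinarith
  · rw [div_le_iff₀ he']
    nlinarith

lemma Q_lip {n : ℕ} (hn : 3 ≤ n) {e : ℝ} (he : 0 ≤ e) {v w : ℝ} (hv0 : 0 ≤ v) (hv1 : v ≤ 1)
    (hw0 : 0 ≤ w) (hw1 : w ≤ 1) : |Q n e v - Q n e w| ≤ n * |v - w| := by
  have he' : 0 < 1 + e := by linarith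
  have hn' : (3 : ℝ) ≤ n := by exact_mod_cast hn
  have a1 := q_lip (m := n) (by omega) hv0 hv1 hw0 hw1
  have a2 := q_lip (m := n - 1) (by omega) hv0 hv1 hw0 hw1
  rw [cast_pred hn] at a2
  have a3 : |q (n - 1) v - q (n - 1) w| ≤ n * |v - w| := by
    refine a2.trans ?_
    have := abs_nonneg (v - w)
    nlinarith
  unfold Q
  rw [← sub_div, abs_div, abs_of_pos he', div_le_iff₀ he']
  have e1 : q n v + e * q (n - 1) v - (q n w + e * q (n - 1) w) =
      (q n v - q n w) + e * (q (n - 1) v - q (n - 1) w) := by ring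
  rw [e1]
  calc |(q n v - q n w) + e * (q (n - 1) v - q (n - 1) w)|
      ≤ |q n v - q n w| + |e * (q (n - 1) v - q (n - 1) w)| := abs_add_le _ _
    _ = |q n v - q n w| + e * |q (n - 1) v - q (n - 1) w| := by
        rw [abs_mul, abs_of_nonneg he]
    _ ≤ n * |v - w| + e * (n * |v - w|) := by gcongr
    _ = n * |v - w| * (1 + e) := by ring

lemma P_lip {n : ℕ} (hn : 3 ≤ n) {e : ℝ} (he : 0 ≤ e) {v w : ℝ} (hv0 : 0 ≤ v) (hv1 : v ≤ 1)
    (hw0 : 0 ≤ w) (hw1 : w ≤ 1) : |P n e v - P n e w| ≤ n ^ 2 * |v - w| := by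
  have he' : 0 < 1 + e := by linarith
  have hn' : (3 : ℝ) ≤ n := by exact_mod_cast hn
  have a1 := p_lip (m := n) (by omega) hv0 hv1 hw0 hw1
  have a2 := p_lip (m := n - 1) (by omega) hv0 hv1 hw0 hw1
  rw [cast_pred hn] at a2
  have a3 : |p (n - 1) v - p (n - 1) w| ≤ n ^ 2 * |v - w| := by
    refine a2.trans ?_
    have h3 := abs_nonneg (v - w)
    have h4 : ((n : ℝ) - 1) ^ 2 ≤ (n : ℝ) ^ 2 := by nlinarith
    gcongr
  unfold P
  rw [← sub_div, abs_div, abs_of_pos he', div_le_iff₀ he']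
  have e1 : p n v + e * p (n - 1) v - (p n w + e * p (n - 1) w) =
      (p n v - p n w) + e * (p (n - 1) v - p (n - 1) w) := by ring
  rw [e1]
  calc |(p n v - p n w) + e * (p (n - 1) v - p (n - 1) w)|
      ≤ |p n v - p n w| + |e * (p (n - 1) v - p (n - 1) w)| := abs_add_le _ _
    _ = |p n v - p n w| + e * |p (n - 1) v - p (n - 1) w| := by
        rw [abs_mul, abs_of_nonneg he]
    _ ≤ n ^ 2 * |v - w| + e * (n ^ 2 * |v - w|) := by gcongr
    _ = n ^ 2 * |v - w| * (1 + e) := by ring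

lemma A_bd {n : ℕ} (hn : 3 ≤ n) {e : ℝ} (he : 0 ≤ e) : 1 / 2 ≤ cA n e ∧ cA n e ≤ n := by
  have he' : 0 < 1 + e := by linarith
  have hn' : (3 : ℝ) ≤ n := by exact_mod_cast hn
  unfold cA
  constructor
  · rw [le_div_iff₀ (by positivity)]
    nlinarith
  · rw [div_le_iff₀ (by positivity)]
    nlinarith

/-- the coordinate -/
def nu (n : ℕ) (e v : ℝ) : ℝ := 1 / (cA n e * (1 - v))

/-- the increment of the coordinate -/
def hh (n : ℕ) (e v : ℝ) : ℝ := P n e v / (cA n e * Q n e v)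

lemma nu_gr {n : ℕ} (hn : 3 ≤ n) {e : ℝ} (he : 0 ≤ e) {v : ℝ} (h0 : 0 ≤ v) (h1 : v < 1) :
    nu n e (gr n e v) = nu n e v + hh n e v := by
  have hn' : (3 : ℝ) ≤ n := by exact_mod_cast hn
  have hA := (A_bd hn he).1
  have hQ := (Q_bd hn he h0 h1.le).1
  have hQ' : 0 < Q n e v := lt_of_lt_of_le (by positivity) hQ
  have hA' : 0 < cA n e := by linarith
  have hv : 0 < 1 - v := by linarith
  have e1 := one_sub_gr hn he v
  have e2 := one_sub_Q hn he v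
  unfold nu hh
  rw [e1]
  field_simp
  linarith

lemma hh_low {n : ℕ} (hn : 3 ≤ n) {e : ℝ} (he : 0 ≤ e) {v : ℝ} (h0 : 0 ≤ v) (h1 : v ≤ 1) :
    1 / (n : ℝ) ^ 2 ≤ hh n e v := by
  have hn' : (3 : ℝ) ≤ n := by exact_mod_cast hn
  obtain ⟨A1, A2⟩ := A_bd hn he
  obtain ⟨Q1, Q2⟩ := Q_bd hn he h0 h1
  obtain ⟨P1, P2⟩ := P_bd hn he h0 h1
  have hQ' : 0 < Q n e v := lt_of_lt_of_le (by positivity) Q1
  unfold hh
  have hAQ : cA n e * Q n e v ≤ n := by nlinarith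
  calc 1 / (n : ℝ) ^ 2 = (1 / (n : ℝ)) / n := by field_simp
    _ ≤ P n e v / n := by gcongr
    _ ≤ P n e v / (cA n e * Q n e v) := by
        apply div_le_div_of_nonneg_left _ (by positivity) hAQ
        exact le_trans (by positivity) P1

lemma hh_lip {n : ℕ} (hn : 3 ≤ n) {e : ℝ} (he : 0 ≤ e) {v w : ℝ} (hv0 : 0 ≤ v) (hv1 : v < 1)
    (hw0 : 0 ≤ w) (hw1 : w < 1) :
    |hh n e v - hh n e w| ≤ 2 * n ^ 4 * (1 - v) * (1 - w) * |nu n e v - nu n e w| := by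
  have hn' : (3 : ℝ) ≤ n := by exact_mod_cast hn
  have hn0 : (0 : ℝ) < n := by linarith
  obtain ⟨A1, A2⟩ := A_bd hn he
  obtain ⟨Qv1, Qv2⟩ := Q_bd hn he hv0 hv1.le
  obtain ⟨Qw1, Qw2⟩ := Q_bd hn he hw0 hw1.le
  obtain ⟨Pw1, Pw2⟩ := P_bd hn he hw0 hw1.le
  have lP := P_lip hn he hv0 hv1.le hw0 hw1.le
  have lQ := Q_lip hn he hv0 hv1.le hw0 hw1.le
  have hA' : 0 < cA n e := by linarith
  have hQv : 0 < Q n e v := lt_of_lt_of_le (by positivity) Qv1
  have hQw : 0 < Q n e w := lt_of_lt_of_le (by positivity) Qw1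
  have hPw : 0 < P n e w := lt_of_lt_of_le (by positivity) Pw1
  have hv : 0 < 1 - v := by linarith
  have hw : 0 < 1 - w := by linarith
  have hnu : |nu n e v - nu n e w| = |v - w| / (cA n e * (1 - v) * (1 - w)) := by
    have : nu n e v - nu n e w = (v - w) / (cA n e * (1 - v) * (1 - w)) := by
      unfold nu
      field_simp
      ring
    rw [this, abs_div, abs_of_pos (show 0 < cA n e * (1 - v) * (1 - w) by positivity)]
  have hnum : |(P n e v - P n e w) * Q n e w + P n e w * (Q n e w - Q n e v)| ≤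
      2 * n ^ 2 * |v - w| := by
    calc |(P n e v - P n e w) * Q n e w + P n e w * (Q n e w - Q n e v)|
        ≤ |(P n e v - P n e w) * Q n e w| + |P n e w * (Q n e w - Q n e v)| := abs_add_le _ _
      _ = |P n e v - P n e w| * Q n e w + P n e w * |Q n e v - Q n e w| := by
          rw [abs_mul, abs_mul, abs_of_pos hQw, abs_of_pos hPw, abs_sub_comm (Q n e w)]
      _ ≤ (n ^ 2 * |v - w|) * 1 + n * (n * |v - w|) := by gcongr
      _ = 2 * n ^ 2 * |v - w| := by ring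
  have hdiff : hh n e v - hh n e w =
      ((P n e v - P n e w) * Q n e w + P n e w * (Q n e w - Q n e v)) /
        (cA n e * Q n e v * Q n e w) := by
    unfold hh
    field_simp
    ring
  have hden : cA n e / n ^ 2 ≤ cA n e * Q n e v * Q n e w := by
    calc cA n e / n ^ 2 = cA n e * (1 / n) * (1 / n) := by field_simp
      _ ≤ cA n e * Q n e v * Q n e w := by gcongr
  rw [hdiff, abs_div, abs_of_pos (show 0 < cA n e * Q n e v * Q n e w by positivity), hnu]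
  calc |(P n e v - P n e w) * Q n e w + P n e w * (Q n e w - Q n e v)| /
        (cA n e * Q n e v * Q n e w)
      ≤ 2 * n ^ 2 * |v - w| / (cA n e / n ^ 2) := by
        apply div_le_div₀ (by positivity) hnum (by positivity) hden
    _ = 2 * n ^ 4 * (1 - v) * (1 - w) * (|v - w| / (cA n e * (1 - v) * (1 - w))) := by
        field_simp

/-! ### an abstract lemma on slowly varying sequences -/

lemma absl {D : ℕ → ℝ} {K : ℝ} (hK : 0 < K)
    (h : ∀ j : ℕ, |D (j + 1) - D j| ≤ K / (4 * K + j + 1) ^ 2 * |D j|) :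
    ∀ j : ℕ, |D j - D 0| ≤ 2 * |D 0| * K * (1 / (4 * K) - 1 / (4 * K + j)) := by
  intro j
  induction j with
  | zero => simp
  | succ j ih =>
    have hj : (0 : ℝ) ≤ j := Nat.cast_nonneg j
    have h1 : 0 < 1 / (4 * K + j) := by positivity
    have h2 : |D j| ≤ 2 * |D 0| := by
      have h3 : |D j| ≤ |D j - D 0| + |D 0| := by
        have := abs_add_le (D j - D 0) (D 0)
        simpa using this
      have h4 : 2 * |D 0| * K * (1 / (4 * K) - 1 / (4 * K + j)) ≤ 2 * |D 0| * K * (1 / (4 * K)) := by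
        have : 0 ≤ 2 * |D 0| * K := by positivity
        nlinarith
      have h5 : 2 * |D 0| * K * (1 / (4 * K)) = |D 0| / 2 := by
        field_simp
        ring
      have := abs_nonneg (D 0)
      linarith
    have h3 : |D (j + 1) - D 0| ≤ |D (j + 1) - D j| + |D j - D 0| := by
      have := abs_add_le (D (j + 1) - D j) (D j - D 0)
      simpa using this
    have h4 : K / (4 * K + j + 1) ^ 2 * |D j| ≤ K / (4 * K + j + 1) ^ 2 * (2 * |D 0|) := by gcongr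
    have h5 : 1 / (4 * K + j + 1) ^ 2 ≤ 1 / (4 * K + j) - 1 / (4 * K + j + 1) := by
      have : 1 / (4 * K + j) - 1 / (4 * K + j + 1) = 1 / ((4 * K + j) * (4 * K + j + 1)) := by
        field_simp
        ring
      rw [this]
      apply one_div_le_one_div_of_le (by positivity)
      nlinarith
    push_cast
    have h6 : K / (4 * K + j + 1) ^ 2 * (2 * |D 0|) =
        2 * |D 0| * K * (1 / (4 * K + j + 1) ^ 2) := by ring
    have h7 : 2 * |D 0| * K * (1 / (4 * K + j + 1) ^ 2) ≤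
        2 * |D 0| * K * (1 / (4 * K + j) - 1 / (4 * K + j + 1)) := by gcongr
    rw [show 4 * K + ((j : ℝ) + 1) = 4 * K + j + 1 by ring]
    have := h j
    linarith

lemma absl2 {D : ℕ → ℝ} {K : ℝ} (hK : 0 < K)
    (h : ∀ j : ℕ, |D (j + 1) - D j| ≤ K / (4 * K + j + 1) ^ 2 * |D j|) :
    (∀ j : ℕ, |D j - D 0| ≤ |D 0| / 2) ∧
    ∀ j : ℕ, |D (j + 1) - D j| ≤ K / ((j : ℝ) + 1) ^ 2 * (2 * |D 0|) := by
  have h0 := absl hK h
  have h1 : ∀ j : ℕ, |D j - D 0| ≤ |D 0| / 2 := by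
    intro j
    have hj : (0 : ℝ) ≤ j := Nat.cast_nonneg j
    have h1 : 0 < 1 / (4 * K + j) := by positivity
    have h4 : 2 * |D 0| * K * (1 / (4 * K) - 1 / (4 * K + j)) ≤ 2 * |D 0| * K * (1 / (4 * K)) := by
      have : 0 ≤ 2 * |D 0| * K := by positivity
      nlinarith
    have h5 : 2 * |D 0| * K * (1 / (4 * K)) = |D 0| / 2 := by
      field_simp
      ring
    linarith [h0 j]
  refine ⟨h1, fun j => ?_⟩
  have hj : (0 : ℝ) ≤ j := Nat.cast_nonneg j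
  have h2 : |D j| ≤ 2 * |D 0| := by
    have h3 : |D j| ≤ |D j - D 0| + |D 0| := by
      have := abs_add_le (D j - D 0) (D 0)
      simpa using this
    have := h1 j
    have := abs_nonneg (D 0)
    linarith
  refine (h j).trans ?_
  have h3 : K / (4 * K + j + 1) ^ 2 ≤ K / ((j : ℝ) + 1) ^ 2 := by
    apply div_le_div_of_nonneg_left hK.le (by positivity)
    apply pow_le_pow_left₀ (by positivity)
    linarith
  gcongr

/-! ### orbits -/

lemma gr_mem {n : ℕ} (hn : 3 ≤ n) {e : ℝ} (he : 0 ≤ e) {v : ℝ} (h0 : 0 ≤ v) (h1 : v < 1) :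
    0 ≤ gr n e v ∧ gr n e v < 1 := by
  have hn' : (3 : ℝ) ≤ n := by exact_mod_cast hn
  have e1 := one_sub_gr hn he v
  obtain ⟨Q1, Q2⟩ := Q_bd hn he h0 h1.le
  have hQ' : 0 < Q n e v := lt_of_lt_of_le (by positivity) Q1
  have h2 : 0 < (1 - v) * Q n e v := mul_pos (by linarith) hQ'
  have h3 : (1 - v) * Q n e v ≤ 1 := by nlinarith
  constructor <;> linarith

lemma gr_mono {n : ℕ} (hn : 3 ≤ n) {e : ℝ} (he : 0 ≤ e) {v w : ℝ} (h0 : 0 ≤ v) (h : v < w) :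
    gr n e v < gr n e w := by
  have hn' : (3 : ℝ) ≤ n := by exact_mod_cast hn
  have he' : 0 < 1 + e := by linarith
  have hn1 : 0 < (n : ℝ) - 1 := by linarith
  have a1 : v ^ n < w ^ n := pow_lt_pow_left₀ h h0 (by omega)
  have a2 : v ^ (n - 1) < w ^ (n - 1) := pow_lt_pow_left₀ h h0 (by omega)
  unfold gr
  have b1 : (v ^ n - 1) / n < (w ^ n - 1) / n := by
    apply div_lt_div_of_pos_right _ (by linarith)
    linarith
  have b2 : e * (v ^ (n - 1) - 1) / ((n : ℝ) - 1) ≤ e * (w ^ (n - 1) - 1) / ((n : ℝ) - 1) := by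
    apply div_le_div_of_nonneg_right _ hn1.le
    nlinarith
  have b3 : ((v ^ n - 1) / n + e * (v ^ (n - 1) - 1) / ((n : ℝ) - 1)) / (1 + e) <
      ((w ^ n - 1) / n + e * (w ^ (n - 1) - 1) / ((n : ℝ) - 1)) / (1 + e) := by
    apply div_lt_div_of_pos_right _ he'
    linarith
  linarith

lemma gr_cont {n : ℕ} {f : ℝ → ℝ} (hf : ContinuousOn f (Icc 0 (1 / 2))) :
    ContinuousOn (fun e => gr n e (f e)) (Icc 0 (1 / 2)) := by
  unfold gr
  refine continuousOn_const.add (ContinuousOn.div ?_ (by fun_prop) ?_)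
  · fun_prop
  · intro e he
    have := he.1
    linarith

/-- the orbits -/
def xs (n : ℕ) (e v : ℝ) (m : ℕ) : ℝ := (gr n e)^[m] v

lemma xs_succ (n : ℕ) (e v : ℝ) (m : ℕ) : xs n e v (m + 1) = gr n e (xs n e v m) := by
  unfold xs
  rw [Function.iterate_succ_apply']

lemma xs_mem {n : ℕ} (hn : 3 ≤ n) {e : ℝ} (he : 0 ≤ e) {v : ℝ}
    (h1 : 0 ≤ xs n e v 1 ∧ xs n e v 1 < 1) (m : ℕ) :
    0 ≤ xs n e v (m + 1) ∧ xs n e v (m + 1) < 1 := by
  induction m with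
  | zero => exact h1
  | succ m ih =>
    rw [xs_succ]
    exact gr_mem hn he ih.1 ih.2

lemma xs_nu {n : ℕ} (hn : 3 ≤ n) {e : ℝ} (he : 0 ≤ e) {v : ℝ}
    (h1 : 0 ≤ xs n e v 1 ∧ xs n e v 1 < 1) (m : ℕ) :
    ((m : ℝ) + 1) / (n : ℝ) ^ 2 ≤ nu n e (xs n e v (m + 1)) := by
  have hn' : (3 : ℝ) ≤ n := by exact_mod_cast hn
  obtain ⟨A1, A2⟩ := A_bd hn he
  induction m with
  | zero =>
    have h2 : cA n e * (1 - xs n e v 1) ≤ n := by nlinarith [h1.1, h1.2]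
    have h3 : 0 < cA n e * (1 - xs n e v 1) := mul_pos (by linarith) (by linarith [h1.2])
    unfold nu
    simp only [Nat.cast_zero, zero_add]
    apply one_div_le_one_div_of_le h3
    nlinarith
  | succ m ih =>
    obtain ⟨m1, m2⟩ := xs_mem hn he h1 m
    rw [xs_succ, nu_gr hn he m1 m2]
    have := hh_low hn he m1 m2.le
    push_cast
    have e1 : ((m : ℝ) + 1 + 1) / (n : ℝ) ^ 2 = ((m : ℝ) + 1) / (n : ℝ) ^ 2 + 1 / (n : ℝ) ^ 2 := by
      ring
    rw [e1]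
    linarith

lemma xs_one_sub {n : ℕ} (hn : 3 ≤ n) {e : ℝ} (he : 0 ≤ e) {v : ℝ}
    (h1 : 0 ≤ xs n e v 1 ∧ xs n e v 1 < 1) (m : ℕ) :
    1 - xs n e v (m + 1) ≤ 2 * n ^ 2 / ((m : ℝ) + 1) := by
  have hn' : (3 : ℝ) ≤ n := by exact_mod_cast hn
  obtain ⟨A1, A2⟩ := A_bd hn he
  obtain ⟨m1, m2⟩ := xs_mem hn he h1 m
  have h2 := xs_nu hn he h1 m
  have hm : (0 : ℝ) < (m : ℝ) + 1 := by positivity
  have hx : 0 < 1 - xs n e v (m + 1) := by linarith
  have hAx : 0 < cA n e * (1 - xs n e v (m + 1)) := mul_pos (by linarith) hx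
  unfold nu at h2
  rw [div_le_div_iff₀ (by positivity) hAx] at h2
  rw [le_div_iff₀ hm]
  have h3 : ((m : ℝ) + 1) * ((1 / 2) * (1 - xs n e v (m + 1))) ≤
      ((m : ℝ) + 1) * (cA n e * (1 - xs n e v (m + 1))) := by gcongr
  nlinarith

/-- the difference -/
def dd (n : ℕ) (e : ℝ) (m : ℕ) : ℝ := nu n e (xs n e 0 m) - nu n e (xs n e (-e) m)

lemma x1_mem {n : ℕ} (hn : 3 ≤ n) {e : ℝ} (he : 0 ≤ e) :
    0 ≤ xs n e 0 1 ∧ xs n e 0 1 < 1 := by
  have : xs n e 0 1 = gr n e 0 := rfl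
  rw [this]
  exact gr_mem hn he le_rfl one_pos

lemma pow_bd {e : ℝ} (he : 0 ≤ e) (he2 : e ≤ 1 / 2) {m : ℕ} (hm : 2 ≤ m) :
    |(-e) ^ m| ≤ 1 / 4 := by
  rw [abs_pow, abs_neg, abs_of_nonneg he]
  calc e ^ m ≤ (1 / 2) ^ m := pow_le_pow_left₀ he he2 m
    _ ≤ (1 / 2) ^ 2 := pow_le_pow_of_le_one (by norm_num) (by norm_num) hm
    _ = 1 / 4 := by norm_num

lemma y1_mem {n : ℕ} (hn : 3 ≤ n) {e : ℝ} (he : 0 ≤ e) (he2 : e ≤ 1 / 2) :
    0 ≤ xs n e (-e) 1 ∧ xs n e (-e) 1 < 1 := by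
  have e1 : xs n e (-e) 1 = gr n e (-e) := rfl
  rw [e1]
  have hn' : (3 : ℝ) ≤ n := by exact_mod_cast hn
  have he' : 0 < 1 + e := by linarith
  have hn1 : 0 < (n : ℝ) - 1 := by linarith
  have a1 := abs_le.mp (pow_bd he he2 (m := n) (by omega))
  have a2 := abs_le.mp (pow_bd he he2 (m := n - 1) (by omega))
  have b1 : ((-e) ^ n - 1) / n < 0 := div_neg_of_neg_of_pos (by linarith [a1.2]) (by linarith)
  have b2 : e * ((-e) ^ (n - 1) - 1) / ((n : ℝ) - 1) ≤ 0 := by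
    apply div_nonpos_of_nonpos_of_nonneg _ hn1.le
    nlinarith [a2.2]
  have b3 : -(5 / 12) ≤ ((-e) ^ n - 1) / n := by
    rw [le_div_iff₀ (by linarith)]
    nlinarith [a1.1]
  have b4 : -(5 / 16) ≤ e * ((-e) ^ (n - 1) - 1) / ((n : ℝ) - 1) := by
    rw [le_div_iff₀ hn1]
    have h1 : -(5 / 4) ≤ (-e) ^ (n - 1) - 1 := by linarith [a2.1]
    have h2 : -(5 / 8) ≤ e * ((-e) ^ (n - 1) - 1) := by nlinarith [a2.2]
    nlinarith
  unfold gr
  constructor
  · have : -1 ≤ (((-e) ^ n - 1) / n + e * ((-e) ^ (n - 1) - 1) / ((n : ℝ) - 1)) / (1 + e) := by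
      rw [le_div_iff₀ he']
      linarith
    linarith
  · have : (((-e) ^ n - 1) / n + e * ((-e) ^ (n - 1) - 1) / ((n : ℝ) - 1)) / (1 + e) < 0 :=
      div_neg_of_neg_of_pos (by linarith) he'
    linarith

lemma xy_ne {n : ℕ} (hn : 3 ≤ n) : xs n (1 / 2) 0 1 ≠ xs n (1 / 2) (-(1 / 2)) 1 := by
  have hn' : (3 : ℝ) ≤ n := by exact_mod_cast hn
  obtain ⟨k, rfl⟩ : ∃ k, n = k + 1 := ⟨n - 1, by omega⟩
  have hk : 2 ≤ k := by omega
  have hk' : (2 : ℝ) ≤ k := by exact_mod_cast hk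
  intro h
  have h0 : gr (k + 1) (1 / 2) 0 = gr (k + 1) (1 / 2) (-(1 / 2)) := h
  unfold gr at h0
  simp only [Nat.add_sub_cancel] at h0
  rw [zero_pow (by omega), zero_pow (by omega)] at h0
  have h1 : (-(1 / 2) : ℝ) ^ (k + 1) / ((k + 1 : ℕ) : ℝ) +
      1 / 2 * (-(1 / 2) : ℝ) ^ k / (((k + 1 : ℕ) : ℝ) - 1) = 0 := by
    have h2 : ∀ a b : ℝ, 1 + a / (1 + 1 / 2) = 1 + b / (1 + 1 / 2) → a = b := by
      intro a b hab
      have h3 : a / (1 + 1 / 2) = b / (1 + 1 / 2) := by linarith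
      exact (div_left_inj' (by norm_num)).mp h3
    have h3 := h2 _ _ h0
    have e1 : ((0 : ℝ) - 1) / ((k + 1 : ℕ) : ℝ) + 1 / 2 * (0 - 1) / (((k + 1 : ℕ) : ℝ) - 1) =
        -(1 / ((k + 1 : ℕ) : ℝ)) - 1 / 2 / (((k + 1 : ℕ) : ℝ) - 1) := by ring
    have e2 : ((-(1 / 2) : ℝ) ^ (k + 1) - 1) / ((k + 1 : ℕ) : ℝ) +
        1 / 2 * ((-(1 / 2) : ℝ) ^ k - 1) / (((k + 1 : ℕ) : ℝ) - 1) =
        ((-(1 / 2) : ℝ) ^ (k + 1) / ((k + 1 : ℕ) : ℝ) +
          1 / 2 * (-(1 / 2) : ℝ) ^ k / (((k + 1 : ℕ) : ℝ) - 1)) +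
        (-(1 / ((k + 1 : ℕ) : ℝ)) - 1 / 2 / (((k + 1 : ℕ) : ℝ) - 1)) := by ring
    rw [e1, e2] at h3
    linarith
  have h4 : (-(1 / 2) : ℝ) ^ k ≠ 0 := pow_ne_zero _ (by norm_num)
  have h5 : (-(1 / 2) : ℝ) ^ (k + 1) / ((k + 1 : ℕ) : ℝ) +
      1 / 2 * (-(1 / 2) : ℝ) ^ k / (((k + 1 : ℕ) : ℝ) - 1) =
      (-(1 / 2) : ℝ) ^ k * (1 / 2 * (1 / (k : ℝ) - 1 / ((k : ℝ) + 1))) := by
    push_cast
    rw [pow_succ]
    ring_nf
  rw [h5] at h1
  have h6 : 1 / (k : ℝ) - 1 / ((k : ℝ) + 1) ≠ 0 := by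
    have : 1 / (k : ℝ) - 1 / ((k : ℝ) + 1) = 1 / ((k : ℝ) * (k + 1)) := by
      field_simp
      ring
    rw [this]
    positivity
  rcases mul_eq_zero.mp h1 with h | h
  · exact h4 h
  · rcases mul_eq_zero.mp h with h | h
    · norm_num at h
    · exact h6 h

lemma dd_step {n : ℕ} (hn : 3 ≤ n) {e : ℝ} (he : 0 ≤ e) (he2 : e ≤ 1 / 2) (m : ℕ) :
    |dd n e (m + 2) - dd n e (m + 1)| ≤ 8 * n ^ 8 / ((m : ℝ) + 1) ^ 2 * |dd n e (m + 1)| := by
  have hn' : (3 : ℝ) ≤ n := by exact_mod_cast hn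
  have hx1 := x1_mem hn he
  have hy1 := y1_mem hn he he2
  obtain ⟨x1, x2⟩ := xs_mem hn he hx1 m
  obtain ⟨y1, y2⟩ := xs_mem hn he hy1 m
  have hx3 := xs_one_sub hn he hx1 m
  have hy3 := xs_one_sub hn he hy1 m
  have h1 := hh_lip hn he x1 x2 y1 y2
  have e1 : dd n e (m + 2) - dd n e (m + 1) =
      hh n e (xs n e 0 (m + 1)) - hh n e (xs n e (-e) (m + 1)) := by
    unfold dd
    rw [show m + 2 = (m + 1) + 1 by rfl, xs_succ n e 0 (m + 1), xs_succ n e (-e) (m + 1),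
      nu_gr hn he x1 x2, nu_gr hn he y1 y2]
    ring
  rw [e1]
  refine h1.trans ?_
  have hx4 : 0 ≤ 1 - xs n e 0 (m + 1) := by linarith
  have hy4 : 0 ≤ 1 - xs n e (-e) (m + 1) := by linarith
  have hm : (0 : ℝ) < (m : ℝ) + 1 := by positivity
  calc 2 * (n : ℝ) ^ 4 * (1 - xs n e 0 (m + 1)) * (1 - xs n e (-e) (m + 1)) *
        |nu n e (xs n e 0 (m + 1)) - nu n e (xs n e (-e) (m + 1))|
      ≤ 2 * (n : ℝ) ^ 4 * (2 * n ^ 2 / ((m : ℝ) + 1)) * (2 * n ^ 2 / ((m : ℝ) + 1)) *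
        |nu n e (xs n e 0 (m + 1)) - nu n e (xs n e (-e) (m + 1))| := by gcongr
    _ = 8 * n ^ 8 / ((m : ℝ) + 1) ^ 2 * |dd n e (m + 1)| := by
        unfold dd
        field_simp
        ring

lemma xs_cont {n : ℕ} {f : ℝ → ℝ} (hf : ContinuousOn f (Icc 0 (1 / 2))) (m : ℕ) :
    ContinuousOn (fun e => xs n e (f e) m) (Icc 0 (1 / 2)) := by
  induction m with
  | zero => exact hf
  | succ m ih =>
    have : (fun e => xs n e (f e) (m + 1)) = fun e => gr n e (xs n e (f e) m) := by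
      funext e
      exact xs_succ n e (f e) m
    rw [this]
    exact gr_cont ih

lemma cA_cont (n : ℕ) : ContinuousOn (fun e => cA n e) (Icc 0 (1 / 2)) := by
  unfold cA
  refine ContinuousOn.div (by fun_prop) (by fun_prop) ?_
  intro e he
  have := he.1
  have : 0 < 2 * (1 + e) := by linarith
  exact this.ne'

lemma nu_cont {n : ℕ} (hn : 3 ≤ n) {f : ℝ → ℝ} (hf : ContinuousOn f (Icc 0 (1 / 2)))
    (h1 : ∀ e ∈ Icc (0 : ℝ) (1 / 2), f e < 1) :
    ContinuousOn (fun e => nu n e (f e)) (Icc 0 (1 / 2)) := by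
  unfold nu
  refine ContinuousOn.div continuousOn_const ((cA_cont n).mul (continuousOn_const.sub hf)) ?_
  intro e he
  have h2 := (A_bd hn he.1).1
  have h3 := h1 e he
  exact (mul_pos (by linarith) (by linarith)).ne'

lemma dd_cont {n : ℕ} (hn : 3 ≤ n) (m : ℕ) :
    ContinuousOn (fun e => dd n e (m + 1)) (Icc 0 (1 / 2)) := by
  unfold dd
  refine ContinuousOn.sub ?_ ?_
  · exact nu_cont hn (xs_cont continuousOn_const (m + 1)) fun e he =>
      (xs_mem hn he.1 (x1_mem hn he.1) m).2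
  · exact nu_cont hn (xs_cont (f := fun e => -e) (by fun_prop) (m + 1)) fun e he =>
      (xs_mem hn he.1 (y1_mem hn he.1 he.2) m).2

lemma dd_zero {n : ℕ} (m : ℕ) : dd n 0 m = 0 := by
  unfold dd
  simp

lemma xs_inj {n : ℕ} (hn : 3 ≤ n) {e : ℝ} (he : 0 ≤ e) {v w : ℝ}
    (hv : 0 ≤ xs n e v 1 ∧ xs n e v 1 < 1) (hw : 0 ≤ xs n e w 1 ∧ xs n e w 1 < 1)
    (h : xs n e v 1 ≠ xs n e w 1) (m : ℕ) : xs n e v (m + 1) ≠ xs n e w (m + 1) := by
  induction m with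
  | zero => exact h
  | succ m ih =>
    rw [xs_succ n e v (m + 1), xs_succ n e w (m + 1)]
    have v1 := xs_mem hn he hv m
    have w1 := xs_mem hn he hw m
    rcases lt_or_gt_of_ne ih with h | h
    · exact (gr_mono hn he v1.1 h).ne
    · exact (gr_mono hn he w1.1 h).ne'

lemma dd_half {n : ℕ} (hn : 3 ≤ n) (m : ℕ) : dd n (1 / 2) (m + 1) ≠ 0 := by
  have he : (0 : ℝ) ≤ 1 / 2 := by norm_num
  have hx := x1_mem hn he
  have hy := y1_mem hn he le_rfl
  have h1 := xs_inj hn he hx hy (xy_ne hn) m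
  have x1 := xs_mem hn he hx m
  have y1 := xs_mem hn he hy m
  have hA := (A_bd hn he).1
  unfold dd nu
  intro h2
  apply h1
  have hx' : cA n (1 / 2) * (1 - xs n (1 / 2) 0 (m + 1)) ≠ 0 :=
    (mul_pos (by linarith) (by linarith [x1.2])).ne'
  have hy' : cA n (1 / 2) * (1 - xs n (1 / 2) (-(1 / 2)) (m + 1)) ≠ 0 :=
    (mul_pos (by linarith) (by linarith [y1.2])).ne'
  have h3 : 1 / (cA n (1 / 2) * (1 - xs n (1 / 2) 0 (m + 1))) =
      1 / (cA n (1 / 2) * (1 - xs n (1 / 2) (-(1 / 2)) (m + 1))) := by linarith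
  rw [div_eq_div_iff hx' hy', one_mul, one_mul] at h3
  have h4 : cA n (1 / 2) ≠ 0 := by linarith
  have h5 := mul_left_cancel₀ h4 h3
  linarith

/-- the limit function -/
theorem exists_u {n : ℕ} (hn : 3 ≤ n) : ∃ u : ℝ → ℝ, ContinuousOn u (Icc 0 (1 / 2)) ∧
    (∀ e ∈ Icc (0 : ℝ) (1 / 2), Tendsto (fun m => dd n e m) atTop (𝓝 (u e))) ∧ u 0 = 0 ∧
    u (1 / 2) ≠ 0 := by
  have hn' : (3 : ℝ) ≤ n := by exact_mod_cast hn
  set K : ℝ := 8 * (n : ℝ) ^ 8 with hK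
  have hK0 : 0 < K := by positivity
  set L : ℕ := 32 * n ^ 8 with hL
  have hLK : (L : ℝ) = 4 * K := by rw [hL, hK]; push_cast; ring
  set D : ℝ → ℕ → ℝ := fun e j => dd n e (L + j + 1) with hD
  have hstep : ∀ e ∈ Icc (0 : ℝ) (1 / 2), ∀ j : ℕ,
      |D e (j + 1) - D e j| ≤ K / (4 * K + j + 1) ^ 2 * |D e j| := by
    intro e he j
    have := dd_step hn he.1 he.2 (L + j)
    rw [← hLK]
    simp only [hD]
    push_cast at this
    exact this
  have hb := fun e he => absl2 hK0 (hstep e he)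
  have hc0 : ContinuousOn (fun e => D e 0) (Icc 0 (1 / 2)) := dd_cont hn (L + 0)
  obtain ⟨B, hB⟩ := isCompact_Icc.exists_bound_of_continuousOn hc0
  have hB0 : 0 ≤ B := (norm_nonneg _).trans (hB 0 ⟨le_rfl, by norm_num⟩)
  have hsum : Summable fun j : ℕ => K / ((j : ℝ) + 1) ^ 2 * (2 * B) := by
    have h1 : Summable fun j : ℕ => 1 / ((j : ℝ) + 1) ^ 2 := by
      have := (summable_nat_add_iff 1).mpr (Real.summable_one_div_nat_pow.mpr one_lt_two)
      simpa using this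
    have := (h1.mul_left K).mul_right (2 * B)
    refine this.congr fun j => ?_
    ring
  set u : ℝ → ℝ := fun e => D e 0 + ∑' j : ℕ, (D e (j + 1) - D e j) with hu
  have hbd : ∀ (j : ℕ), ∀ e ∈ Icc (0 : ℝ) (1 / 2),
      ‖D e (j + 1) - D e j‖ ≤ K / ((j : ℝ) + 1) ^ 2 * (2 * B) := by
    intro j e he
    have h1 := (hb e he).2 j
    have h2 := hB e he
    rw [Real.norm_eq_abs] at h2 ⊢
    refine h1.trans ?_
    gcongr
  have hlim : ∀ e ∈ Icc (0 : ℝ) (1 / 2), Tendsto (fun j => D e j) atTop (𝓝 (u e)) := by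
    intro e he
    have hs : Summable fun j : ℕ => D e (j + 1) - D e j :=
      Summable.of_norm_bounded hsum fun j => hbd j e he
    have h1 := hs.hasSum.tendsto_sum_nat
    have h2 : (fun j => D e j) = fun j => D e 0 + ∑ i ∈ Finset.range j, (D e (i + 1) - D e i) := by
      funext j
      rw [Finset.sum_range_sub]
      ring
    rw [h2]
    exact tendsto_const_nhds.add h1
  refine ⟨u, ?_, ?_, ?_, ?_⟩
  · refine hc0.add (continuousOn_tsum (fun j => ?_) hsum hbd)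
    exact (dd_cont hn (L + (j + 1))).sub (dd_cont hn (L + j))
  · intro e he
    have h1 := hlim e he
    have h2 : (fun j => D e j) = fun j => dd n e (j + (L + 1)) := by
      funext j
      simp only [hD]
      congr 1
      ring
    rw [h2, tendsto_add_atTop_iff_nat (f := fun m => dd n e m) (L + 1)] at h1
    exact h1
  · simp only [hu, hD, dd_zero]
    simp
  · have he : (1 / 2 : ℝ) ∈ Icc (0 : ℝ) (1 / 2) := ⟨by norm_num, le_rfl⟩
    have h1 := hlim _ he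
    have h2 := (hb _ he).1
    have h3 : |u (1 / 2) - D (1 / 2) 0| ≤ |D (1 / 2) 0| / 2 :=
      le_of_tendsto ((h1.sub_const _).abs) (Eventually.of_forall h2)
    have h4 : D (1 / 2) 0 ≠ 0 := dd_half hn (L + 0)
    have h5 := abs_pos.mpr h4
    intro h6
    rw [h6, zero_sub, abs_neg] at h3
    linarith

lemma GG_real (n : ℕ) (e v : ℝ) : GG n e (v : ℂ) = (gr n e v : ℂ) := by
  unfold GG gr
  push_cast
  ring

lemma GG_iter (n : ℕ) (e v : ℝ) (m : ℕ) : (GG n e)^[m] (v : ℂ) = (xs n e v m : ℂ) := by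
  induction m with
  | zero => rfl
  | succ m ih => rw [Function.iterate_succ_apply', ih, GG_real, ← xs_succ]

lemma omc_real (a x : ℝ) : omc (a : ℂ) 1 (x : ℂ) = ((1 / (a * (1 - x)) : ℝ) : ℂ) := by
  unfold omc
  push_cast
  rw [show (a : ℂ) * ((x : ℂ) - 1) = -(a * (1 - x)) by ring, neg_div_neg_eq]

end GIR_

open GIR_ in
theorem p_GIR : T_GIR := by
  intro n hn
  obtain ⟨u, hc, hlim, h0, h1⟩ := exists_u hn
  have hivt := intermediate_value_uIcc (f := u) (a := 0) (b := 1 / 2)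
    (by rwa [uIcc_of_le (by norm_num : (0 : ℝ) ≤ 1 / 2)])
  rw [h0] at hivt
  have hirr : ∃ s : ℝ, Irrational s ∧ s ∈ uIcc 0 (u (1 / 2)) ∧ s ≠ 0 := by
    rcases lt_or_gt_of_ne h1 with h | h
    · obtain ⟨s, hs, a, b⟩ := exists_irrational_btwn h
      refine ⟨s, hs, ?_, b.ne⟩
      rw [uIcc_of_ge h.le]
      exact ⟨a.le, b.le⟩
    · obtain ⟨s, hs, a, b⟩ := exists_irrational_btwn h
      refine ⟨s, hs, ?_, a.ne'⟩
      rw [uIcc_of_le h.le]
      exact ⟨a.le, b.le⟩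
  obtain ⟨s, hs, hmem, hs0⟩ := hirr
  obtain ⟨e, he, hes⟩ := hivt hmem
  rw [uIcc_of_le (by norm_num : (0 : ℝ) ≤ 1 / 2)] at he
  have he0 : e ≠ 0 := by
    rintro rfl
    exact hs0 (hes.symm.trans h0)
  refine ⟨e, s, lt_of_le_of_ne he.1 (Ne.symm he0), he.2, hs, ?_⟩
  have h2 := (Complex.continuous_ofReal.tendsto (u e)).comp (hlim e he)
  rw [hes] at h2
  refine h2.congr fun m => ?_
  have e1 := GG_iter n e 0 m
  have e2 := GG_iter n e (-e) m
  simp only [Function.comp_apply, dd, nu]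
  rw [show ((0 : ℝ) : ℂ) = 0 by simp] at e1
  rw [show ((-e : ℝ) : ℂ) = -(e : ℂ) by simp] at e2
  rw [e1, e2, omc_real, omc_real]
  push_cast
  ring

end Pool.Agent.MAT
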