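import Pool.Agent.MAT.T

/-!
# MAT, GIU: the difference of the Fatou coordinates of the critical points
-/

set_option autoImplicit false

open Polynomial Metric Set Filter Topology

noncomputable section

namespace Pool.Agent.MAT

namespace GIU_

/-- real orbits stay real and in the unit interval -/
lemma real_orb {n : ℕ} {e : ℝ}
    (hconj : ∀ v : ℂ, GG n e ((starRingEnd ℂ) v) = (starRingEnd ℂ) (GG n e v))
    (hlt : ∀ v : ℂ, ‖v‖ ≤ 1 → v ≠ 1 → ‖GG n e v‖ < 1) (v : ℝ) (hv : |v| < 1) (m : ℕ) :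
    ∃ x : ℝ, (GG n e)^[m] (v : ℂ) = x ∧ |x| < 1 := by
  induction m with
  | zero => exact ⟨v, rfl, hv⟩
  | succ m ih =>
    obtain ⟨x, hx, hx1⟩ := ih
    rw [Function.iterate_succ_apply', hx]
    have h1 : (starRingEnd ℂ) (GG n e x) = GG n e x := by
      rw [← hconj, Complex.conj_ofReal]
    obtain ⟨r, hr⟩ := Complex.conj_eq_iff_real.1 h1
    refine ⟨r, hr, ?_⟩
    have h2 : ‖GG n e (x : ℂ)‖ < 1 := by
      refine hlt _ ?_ ?_
      · rw [Complex.norm_real, Real.norm_eq_abs]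
        exact hx1.le
      · intro h
        have h3 : x = 1 := by exact_mod_cast h
        rw [h3] at hx1
        simp at hx1
    rw [hr, Complex.norm_real, Real.norm_eq_abs] at h2
    exact h2

/-- the coordinate of a real point -/
lemma omc_real (a x : ℝ) : omc (a : ℂ) 1 (x : ℂ) = ((1 / (a * (1 - x)) : ℝ) : ℂ) := by
  unfold omc
  push_cast
  rw [← neg_sub (1 : ℂ) (x : ℂ), mul_neg, neg_div_neg_eq]

lemma Lin_real (β : ℂ) (hβ : β.im = 0) (X : ℝ) (hX : 0 ≤ X) :
    Lin β (X : ℂ) = ((X - β.re * Real.log X : ℝ) : ℂ) := by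
  unfold Lin
  have h1 : β = (β.re : ℂ) := by
    apply Complex.ext <;> simp [hβ]
  rw [← Complex.ofReal_log hX]
  conv_lhs => rw [h1]
  push_cast
  ring

/-- limits of real sequences are real -/
lemma lim_real {f : ℕ → ℝ} {w : ℂ} (h : Tendsto (fun m => (f m : ℂ)) atTop (𝓝 w)) :
    w = (w.re : ℂ) ∧ Tendsto f atTop (𝓝 w.re) := by
  have h1 : Tendsto (fun m => (f m : ℂ).im) atTop (𝓝 w.im) :=
    (Complex.continuous_im.tendsto w).comp h
  have h2 : Tendsto (fun m => (f m : ℂ).re) atTop (𝓝 w.re) :=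
    (Complex.continuous_re.tendsto w).comp h
  simp only [Complex.ofReal_im, Complex.ofReal_re] at h1 h2
  have h3 : w.im = 0 := tendsto_nhds_unique h1 tendsto_const_nhds
  exact ⟨by apply Complex.ext <;> simp [h3], h2⟩

/-- the coordinates of a real orbit converging to `1` -/
lemma coords {n : ℕ} {e : ℝ} (hA : 0 < cA n e)
    (hconj : ∀ v : ℂ, GG n e ((starRingEnd ℂ) v) = (starRingEnd ℂ) (GG n e v))
    (hlt : ∀ v : ℂ, ‖v‖ ≤ 1 → v ≠ 1 → ‖GG n e v‖ < 1) (v : ℝ) (hv : |v| < 1)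
    (hlim : Tendsto (fun m : ℕ => (GG n e)^[m] (v : ℂ)) atTop (𝓝 1)) :
    ∃ X : ℕ → ℝ, (∀ m, omc (cA n e) 1 ((GG n e)^[m] (v : ℂ)) = X m) ∧ (∀ m, 0 < X m) ∧
      Tendsto X atTop atTop := by
  choose x hx hx1 using real_orb hconj hlt v hv
  refine ⟨fun m => 1 / (cA n e * (1 - x m)), fun m => ?_, fun m => ?_, ?_⟩
  · rw [hx m]
    exact omc_real _ _
  · have := (abs_lt.1 (hx1 m)).2
    have h2 : 0 < 1 - x m := by linarith
    positivity
  · have h1 : Tendsto x atTop (𝓝 1) := by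
      have h2 : Tendsto (fun m => (x m : ℂ)) atTop (𝓝 1) := by
        simpa only [hx] using hlim
      simpa using (lim_real h2).2
    have h3 : Tendsto (fun m => cA n e * (1 - x m)) atTop (𝓝[>] 0) := by
      refine tendsto_nhdsWithin_iff.2 ⟨?_, Eventually.of_forall fun m => ?_⟩
      · have h4 : Tendsto (fun m => cA n e * (1 - x m)) atTop (𝓝 (cA n e * (1 - 1))) :=
          (tendsto_const_nhds.sub h1).const_mul _
        simpa using h4
      · have := (abs_lt.1 (hx1 m)).2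
        have h2 : 0 < 1 - x m := by linarith
        exact mul_pos hA h2
    have h5 := h3.inv_tendsto_nhdsGT_zero
    simp only [one_div]
    exact h5

end GIU_

open GIU_ in
/-- GIU; GEL and GBA give the elementary facts on the real orbits -/
theorem p_GIU (hGEL : T_GEL) (hGBA : T_GBA) (hHPB : T_HPB) : T_GIU := by
  intro n e u hn he he2 hu K
  obtain ⟨-, -, hconj, hlt, hd2, hd3, hA, -, -, -, -⟩ := hGEL n e hn he he2
  obtain ⟨-, -, -, -, hconv, -, -, -, -, -, -, h0, hme⟩ := hGBA n e hn he he2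
  obtain ⟨-, -, hex, hlin, -⟩ := hHPB (GG n e) 1 (cA n e) K
  have hβ : K.β.im = 0 := by
    have h1 := K.hβ
    have h2 : (iteratedDeriv 3 (GG n e) 1).im = 6 * cA n e ^ 2 * (-K.β.im) := by
      rw [h1]
      have h3 : (6 * (cA n e : ℂ) ^ 2 * (1 - K.β)) = ((6 * cA n e ^ 2 : ℝ) : ℂ) * (1 - K.β) := by
        push_cast
        ring
      rw [h3, Complex.im_ofReal_mul]
      simp
    rw [hd3] at h2
    have h4 : 0 < 6 * cA n e ^ 2 := by positivity
    nlinarith
  have conv0 := (hconv 0 h0).1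
  have ne0 := (hconv 0 h0).2
  have conve := (hconv _ hme).1
  have nee := (hconv _ hme).2
  obtain ⟨w₁, hw₁⟩ := hex 0 conv0 ne0
  obtain ⟨w₂, hw₂⟩ := hex _ conve nee
  have c0 : ((0 : ℝ) : ℂ) = 0 := by simp
  have ce : ((-e : ℝ) : ℂ) = -(e : ℂ) := by push_cast; ring
  obtain ⟨X, hX, hXp, hXt⟩ := coords hA hconj hlt 0 (by simp) (by rw [c0]; exact conv0)
  obtain ⟨Y, hY, hYp, hYt⟩ := coords hA hconj hlt (-e) (by
    rw [abs_neg, abs_of_pos he]; linarith) (by rw [ce]; exact conve)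
  rw [c0] at hX
  rw [ce] at hY
  have t1 := (hlin _ _ hw₁).2.2
  have t2 := (hlin _ _ hw₂).2.2
  have t1' : Tendsto (fun m : ℕ => ((X m - K.β.re * Real.log (X m) - m : ℝ) : ℂ)) atTop
      (𝓝 w₁) := by
    refine t1.congr fun m => ?_
    rw [hX m, Lin_real _ hβ _ (hXp m).le]
    push_cast
    ring
  have t2' : Tendsto (fun m : ℕ => ((Y m - K.β.re * Real.log (Y m) - m : ℝ) : ℂ)) atTop
      (𝓝 w₂) := by
    refine t2.congr fun m => ?_
    rw [hY m, Lin_real _ hβ _ (hYp m).le]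
    push_cast
    ring
  obtain ⟨r1, s1⟩ := lim_real t1'
  obtain ⟨r2, s2⟩ := lim_real t2'
  refine ⟨w₁.re, w₂.re, by rw [← r1]; exact hw₁, by rw [← r2]; exact hw₂, ?_⟩
  have d1 : Tendsto (fun m => X m - Y m) atTop (𝓝 u) := by
    have h1 : Tendsto (fun m => ((X m - Y m : ℝ) : ℂ)) atTop (𝓝 (u : ℂ)) := by
      refine hu.congr fun m => ?_
      rw [hX m, hY m]
      push_cast
      ring
    simpa using (lim_real h1).2
  have q1 : Tendsto (fun m => X m / Y m) atTop (𝓝 1) := by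
    have h1 : Tendsto (fun m => 1 + (X m - Y m) / Y m) atTop (𝓝 (1 + 0)) :=
      (d1.div_atTop hYt).const_add 1
    rw [add_zero] at h1
    refine h1.congr fun m => ?_
    have := (hYp m).ne'
    field_simp
    ring
  have q2 : Tendsto (fun m => Real.log (X m) - Real.log (Y m)) atTop (𝓝 0) := by
    have h1 : Tendsto (fun m => Real.log (X m / Y m)) atTop (𝓝 (Real.log 1)) :=
      q1.log one_ne_zero
    rw [Real.log_one] at h1
    refine h1.congr fun m => ?_
    rw [Real.log_div (hXp m).ne' (hYp m).ne']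
  have f1 : Tendsto (fun m => (X m - Y m) - K.β.re * (Real.log (X m) - Real.log (Y m))) atTop
      (𝓝 (u - K.β.re * 0)) := d1.sub (q2.const_mul _)
  have f2 := s1.sub s2
  rw [mul_zero, sub_zero] at f1
  refine tendsto_nhds_unique f2 (f1.congr fun m => ?_)
  ring

end Pool.Agent.MAT
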