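import Pool.Agent.MAT.T

/-!
# MAT: GNF (normal form of the perturbations at `1`, from GQ)
-/

set_option autoImplicit false

open Polynomial Metric Set Filter Topology

noncomputable section

namespace Pool.Agent.MAT

namespace GNF_

/-- the divided difference of the polynomial `P` -/
def D (P : ℂ[X]) (p z : ℂ) : ℂ :=
  ∑ i ∈ Finset.range P.natDegree, P.coeff (i + 1) *
    ∑ j ∈ Finset.range (i + 1), z ^ j * p ^ (i + 1 - 1 - j)

theorem D_mul (P : ℂ[X]) (p z : ℂ) : (z - p) * D P p z = P.eval z - P.eval p := by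
  rw [Polynomial.eval_eq_sum_range, Polynomial.eval_eq_sum_range, Finset.sum_range_succ',
    Finset.sum_range_succ' (fun i => P.coeff i * p ^ i)]
  unfold D
  rw [Finset.mul_sum]
  simp only [pow_zero, mul_one, add_sub_add_right_eq_sub]
  rw [← Finset.sum_sub_distrib]
  refine Finset.sum_congr rfl (fun i _ => ?_)
  have h := (Commute.all z p).geom_sum₂_mul (i + 1)
  rw [← mul_sub, ← h]
  ring

theorem D_zero (P : ℂ[X]) (z : ℂ) :
    D P 0 z = ∑ i ∈ Finset.range P.natDegree, P.coeff (i + 1) * z ^ i := by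
  unfold D
  refine Finset.sum_congr rfl (fun i _ => ?_)
  congr 1
  rw [Finset.sum_eq_single_of_mem i (Finset.mem_range.2 (Nat.lt_succ_self i))]
  · simp
  · intro j hj hji
    have h1 : j < i := lt_of_le_of_ne (Nat.lt_succ_iff.1 (Finset.mem_range.1 hj)) hji
    rw [zero_pow (by omega), mul_zero]

theorem D_zero_zero (P : ℂ[X]) : D P 0 0 = (derivative P).eval 0 := by
  rw [D_zero]
  have h1 : (derivative P).eval 0 = P.coeff 1 := by
    rw [← Polynomial.coeff_zero_eq_eval_zero, Polynomial.coeff_derivative]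
    simp
  rw [h1]
  rcases Nat.eq_zero_or_pos P.natDegree with h | h
  · rw [h, Finset.sum_range_zero, Polynomial.coeff_eq_zero_of_natDegree_lt (by omega)]
  · rw [Finset.sum_eq_single_of_mem 0 (Finset.mem_range.2 h)]
    · simp
    · intro j _ hj
      rw [zero_pow hj, mul_zero]

theorem D_conj (P : ℂ[X]) (hP : ∀ i, (P.coeff i).im = 0) (z : ℂ) :
    D P 0 ((starRingEnd ℂ) z) = (starRingEnd ℂ) (D P 0 z) := by
  rw [D_zero, D_zero, map_sum]
  refine Finset.sum_congr rfl (fun i _ => ?_)
  rw [map_mul, map_pow, Complex.conj_eq_iff_im.2 (hP (i + 1))]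

theorem D_diff (P : ℂ[X]) (p a : ℂ) (s : Set ℂ) :
    DifferentiableOn ℂ (fun y => D P p (y / a)) s := by
  unfold D
  fun_prop

theorem coeff_comp_real (Q : ℂ[X]) (hQ : ∀ i, (Q.coeff i).im = 0) (i : ℕ) :
    ((Q.comp (X + 1)).coeff i).im = 0 := by
  have h1 : ∃ Q0 : Polynomial ℝ, Q0.map Complex.ofRealHom = Q := by
    have : Q ∈ Polynomial.lifts Complex.ofRealHom := by
      rw [Polynomial.lifts_iff_coeff_lifts]
      intro n
      exact ⟨(Q.coeff n).re, Complex.ext (by simp) (by simp [hQ n])⟩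
    exact (Polynomial.mem_lifts Q).1 this
  obtain ⟨Q0, rfl⟩ := h1
  have h2 : (Q0.map Complex.ofRealHom).comp (X + 1) = (Q0.comp (X + 1)).map Complex.ofRealHom := by
    rw [Polynomial.map_comp]
    simp
  rw [h2, Polynomial.coeff_map]
  simp

theorem contDiff_quot (P : ℂ[X]) (a : ℂ) (ha : a ≠ 0) (h0 : P.eval 0 = 1) :
    ContDiffAt ℂ 1 (fun x : ℂ × ℂ => D P x.1 (x.2 / a) / (a * P.eval x.1)) (0, 0) := by
  have h1 : ContDiff ℂ 1 (fun x : ℂ × ℂ => D P x.1 (x.2 / a)) := by
    unfold D
    refine ContDiff.sum (fun i _ => contDiff_const.mul (ContDiff.sum (fun j _ => ?_)))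
    exact ((contDiff_snd.div_const a).pow j).mul (contDiff_fst.pow _)
  have h2 : ContDiff ℂ 1 (fun x : ℂ × ℂ => a * P.eval x.1) := by
    have h3 : ContDiff ℂ 1 (fun x : ℂ => P.eval x) := by
      have := P.contDiff_aeval (𝕜 := ℂ) 1
      simpa using this
    exact contDiff_const.mul (h3.comp contDiff_fst)
  refine h1.contDiffAt.div h2.contDiffAt ?_
  simp [h0, ha]

theorem cA_pos (n : ℕ) (e : ℝ) (hn : 3 ≤ n) (he : 0 < e) : 0 < cA n e := by
  unfold cA
  have h1 : (3 : ℝ) ≤ n := by exact_mod_cast hn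
  have h2 : 0 ≤ ((n : ℝ) - 2) * (1 + e) := mul_nonneg (by linarith) (by linarith)
  positivity

end GNF_

open GNF_ in
/-- GNF -/
theorem p_GNF (hGQ : T_GQ) : T_GNF := by
  intro n e hn he he2
  obtain ⟨Q, hQ, hQ1, hQ', hQr, -, -⟩ := hGQ n e hn he he2
  set A : ℝ := cA n e with hA
  have hApos : 0 < A := cA_pos n e hn he
  have hA0 : (A : ℂ) ≠ 0 := by exact_mod_cast hApos.ne'
  set P : ℂ[X] := Q.comp (X + 1) with hP
  have hPe : ∀ z : ℂ, P.eval z = Q.eval (z + 1) := by
    intro z
    rw [hP, Polynomial.eval_comp]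
    simp
  have hP0 : P.eval 0 = 1 := by rw [hPe, zero_add, hQ1]
  have hP' : (derivative P).eval 0 = A := by
    rw [hP, Polynomial.derivative_comp]
    simp [hQ']
  have hPr : ∀ i, (P.coeff i).im = 0 := fun i => coeff_comp_real Q hQr i
  have hGF : ∀ μ z : ℂ, GF n e μ (1 + z) - 1 = μ * (z * P.eval z) := by
    intro μ z
    have h := hQ (1 + z)
    rw [GF, hPe, add_comm z 1]
    linear_combination -μ * h
  obtain ⟨K, t, ht, hK⟩ := (contDiff_quot P A hA0 hP0).exists_lipschitzOnWith
  obtain ⟨ρ, hρ, hball⟩ := Metric.mem_nhds_iff.1 ht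
  refine ⟨fun y => D P 0 (y / A) / (A * P.eval 0), ρ, K + 1, ρ, hρ, by positivity, hρ,
    (D_diff P 0 A _).div_const _, ?_, ?_, ?_⟩
  · simp only [zero_div, hP0, mul_one, D_zero_zero, hP']
    exact div_self hA0
  · have hfun : (fun y => D P 0 (y / A) / (A * P.eval 0)) =
        (starRingEnd ℂ) ∘ (fun y : ℂ => D P 0 (y / A) / (A * P.eval 0)) ∘ (starRingEnd ℂ) := by
      funext y
      simp only [Function.comp_apply, hP0, mul_one, map_div₀, Complex.conj_ofReal]
      congr 1
      have h1 : (starRingEnd ℂ) y / (A : ℂ) = (starRingEnd ℂ) (y / A) := by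
        rw [map_div₀, Complex.conj_ofReal]
      rw [h1, D_conj P hPr, Complex.conj_conj]
    have h2 : deriv (fun y : ℂ => D P 0 (y / A) / (A * P.eval 0)) 0 =
        (starRingEnd ℂ) (deriv (fun y : ℂ => D P 0 (y / A) / (A * P.eval 0)) 0) := by
      conv_lhs => rw [hfun]
      rw [deriv_conj_conj]
      simp
    exact Complex.conj_eq_iff_im.1 h2.symm
  · intro μ p hμ hfix hp1 hpδ
    set p' : ℂ := p - 1 with hp'
    have hp'0 : p' ≠ 0 := sub_ne_zero.2 hp1
    have hμP : μ * P.eval p' = 1 := by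
      have h := hGF μ p'
      have h3 : 1 + p' = p := by rw [hp']; ring
      rw [h3, hfix] at h
      have h4 : p' * (μ * P.eval p' - 1) = 0 := by
        rw [mul_sub, mul_one]
        rw [← hp'] at h
        linear_combination -h
      rcases mul_eq_zero.1 h4 with h5 | h5
      · exact absurd h5 hp'0
      · exact sub_eq_zero.1 h5
    have hPne : P.eval p' ≠ 0 := right_ne_zero_of_mul (by rw [hμP]; exact one_ne_zero)
    have hμe : μ = 1 / P.eval p' := by
      rw [eq_div_iff hPne]
      exact hμP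
    refine ⟨fun y => D P p' (y / A) / (A * P.eval p'), (D_diff P p' A _).div_const _, ?_, ?_, ?_⟩
    · intro y hy
      rw [mem_ball_zero_iff] at hy
      have hx1 : ((p', y) : ℂ × ℂ) ∈ t := by
        apply hball
        rw [mem_ball, Prod.dist_eq, max_lt_iff]
        simp only [dist_zero_right]
        exact ⟨hpδ, hy⟩
      have hx2 : ((0, y) : ℂ × ℂ) ∈ t := by
        apply hball
        rw [mem_ball, Prod.dist_eq, max_lt_iff]
        simp only [dist_zero_right, norm_zero]
        exact ⟨hρ, hy⟩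
      have h := hK.dist_le_mul _ hx1 _ hx2
      rw [dist_eq_norm, Prod.dist_eq, dist_self, dist_zero_right,
        max_eq_left (norm_nonneg _)] at h
      refine h.trans ?_
      have := norm_nonneg p'
      nlinarith
    · intro y _
      rw [hGF, hμe]
      have h1 := D_mul P p' (y / A)
      have h2 : P.eval (y / A) = P.eval p' + (y / A - p') * D P p' (y / A) := by
        rw [h1]
        ring
      rw [h2]
      field_simp
    · have h1 := D_mul P p' 0
      rw [hP0] at h1
      simp only [zero_div]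
      rw [hμe]
      field_simp
      linear_combination h1

end Pool.Agent.MAT
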