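import Pool.Agent.MAT.T

/-!
# MAT, target GNW: the filled Julia set is the closure of the parabolic basin
-/

set_option autoImplicit false

open Polynomial Metric Set Filter Topology

noncomputable section

namespace Pool.Agent.MAT

namespace GNW_

theorem iter_mem {X : Type*} {G : X → X} {U : Set X} (h : ∀ v, G v ∈ U ↔ v ∈ U) (m : ℕ)
    (v : X) : G^[m] v ∈ U ↔ v ∈ U := by
  induction m generalizing v with
  | zero => rfl
  | succ m ih => rw [Function.iterate_succ_apply, ih, h]

theorem clos_back {G : ℂ → ℂ} {U : Set ℂ} (ho : ∀ s : Set ℂ, IsOpen s → IsOpen (G '' s))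
    (h : ∀ v, G v ∈ U ↔ v ∈ U) (v : ℂ) (hv : G v ∈ closure U) : v ∈ closure U := by
  rw [_root_.mem_closure_iff] at hv ⊢
  intro o ho' hvo
  obtain ⟨w, hw1, hw2⟩ := hv (G '' o) (ho o ho') (mem_image_of_mem G hvo)
  obtain ⟨x, hx, rfl⟩ := hw1
  exact ⟨x, hx, (h x).1 hw2⟩

theorem clos_back_iter {G : ℂ → ℂ} {U : Set ℂ} (ho : ∀ s : Set ℂ, IsOpen s → IsOpen (G '' s))
    (h : ∀ v, G v ∈ U ↔ v ∈ U) (m : ℕ) (v : ℂ) (hv : G^[m] v ∈ closure U) :
    v ∈ closure U := by
  induction m generalizing v with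
  | zero => exact hv
  | succ m ih =>
    rw [Function.iterate_succ_apply] at hv
    exact clos_back ho h v (ih _ hv)

theorem real_cluster (hGBA : T_GBA) (hGBR : T_GBR) (hGSH : T_GSH) (n : ℕ) (e : ℝ) (hn : 3 ≤ n)
    (he : 0 < e) (he2 : e ≤ 1 / 2) (y : ℂ) (hy : y ∉ closure (UG n e)) (u : Ultrafilter ℕ)
    (hu : (u : Filter ℕ) ≤ atTop) (c : ℂ)
    (hc : Tendsto (fun m => (GG n e)^[m] y) u (𝓝 c)) : c.im = 0 := by
  by_contra him
  obtain ⟨hUo, hUp, hball, hinv, -, -, -, -, -, -, -, -, -⟩ := hGBA n e hn he he2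
  have hcH : c ∈ Hs c.im := by
    show 0 < c.im * c.im
    exact mul_self_pos.2 him
  have hHo : IsOpen (Hs c.im) := by
    have : Hs c.im = (fun z : ℂ => c.im * z.im) ⁻¹' Ioi 0 := rfl
    rw [this]
    exact isOpen_Ioi.preimage (by fun_prop)
  have hev : ∀ᶠ m in (u : Filter ℕ), (GG n e)^[m] y ∈ Hs c.im := hc (hHo.mem_nhds hcH)
  have hex : ∀ m : ℕ, ∃ h : ℂ → ℂ, (GG n e)^[m] y ∈ Hs c.im →
      DifferentiableOn ℂ h (Hs c.im) ∧ h ((GG n e)^[m] y) = y ∧
        ∀ z ∈ Hs c.im, (GG n e)^[m] (h z) = z := by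
    intro m
    by_cases hm : (GG n e)^[m] y ∈ Hs c.im
    · obtain ⟨h, h1, h2, h3, h4⟩ := hGBR n e hn he he2 c.im him m _ y hm rfl
      exact ⟨h, fun _ => ⟨h1, h2, h3⟩⟩
    · exact ⟨fun _ => 0, fun h => absurd h hm⟩
  choose h hh using hex
  obtain ⟨d, hd⟩ := hGSH n e hn he he2 c.im u id h him (tendsto_id'.2 hu) (by
    filter_upwards [hev] with m hm
    exact ⟨(hh m hm).1, (hh m hm).2.2⟩)
  have h1 : Tendsto (fun m => h m ((GG n e)^[m] y)) u (𝓝 d) := by
    refine hd.tendsto_comp (x := c) continuousWithinAt_const hcH ?_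
    exact tendsto_nhdsWithin_iff.2 ⟨hc, hev⟩
  have h2 : Tendsto (fun _ : ℕ => y) u (𝓝 d) := by
    refine h1.congr' ?_
    filter_upwards [hev] with m hm
    exact (hh m hm).2.1
  have hyd : y = d := tendsto_nhds_unique tendsto_const_nhds h2
  -- a point of the basin in the half plane
  set u0 : ℂ := ((c.im / (2 * |c.im|) : ℝ) : ℂ) * Complex.I with hu0
  have habs : 0 < |c.im| := abs_pos.2 him
  have hu0im : u0.im = c.im / (2 * |c.im|) := by
    rw [hu0, Complex.im_ofReal_mul, Complex.I_im, mul_one]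
  have hu0H : u0 ∈ Hs c.im := by
    show 0 < c.im * u0.im
    rw [hu0im, ← mul_div_assoc]
    exact div_pos (mul_self_pos.2 him) (by positivity)
  have hu0n : ‖u0‖ < 1 := by
    rw [hu0, norm_mul, Complex.norm_I, mul_one, Complex.norm_real, Real.norm_eq_abs, abs_div,
      abs_mul, abs_abs, abs_of_pos (two_pos : (0 : ℝ) < 2)]
    rw [div_lt_one (by positivity)]
    linarith
  have hu0U : u0 ∈ UG n e := hball (by simpa using hu0n)
  have h3 : Tendsto (fun m => h m u0) u (𝓝 d) := by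
    refine hd.tendsto_comp (x := u0) continuousWithinAt_const hu0H ?_
    exact tendsto_nhdsWithin_iff.2 ⟨tendsto_const_nhds, Eventually.of_forall fun _ => hu0H⟩
  apply hy
  rw [hyd]
  refine mem_closure_of_tendsto h3 ?_
  filter_upwards [hev] with m hm
  have h4 := (hh m hm).2.2 u0 hu0H
  rw [← iter_mem hinv m, h4]
  exact hu0U

/-- a sequence with finite cluster set and steps tending to `0` converges -/
theorem conv_of_steps (x : ℕ → ℂ) (F : Set ℂ) (hF : F.Finite)
    (hcl : ∀ u : Ultrafilter ℕ, (u : Filter ℕ) ≤ atTop → ∃ c ∈ F, Tendsto x u (𝓝 c))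
    (hst : Tendsto (fun m => x (m + 1) - x m) atTop (𝓝 0)) :
    ∃ c ∈ F, Tendsto x atTop (𝓝 c) := by
  obtain ⟨c, hcF, hc⟩ := hcl (Ultrafilter.of atTop) (Ultrafilter.of_le _)
  refine ⟨c, hcF, ?_⟩
  -- separation
  have hsep : ∃ δ : ℝ, 0 < δ ∧ ∀ f ∈ F, f ≠ c → 3 * δ ≤ dist f c := by
    have hcl2 : IsClosed (F \ {c}) := (hF.subset sdiff_subset).isClosed
    have hnot : c ∈ (F \ {c})ᶜ := by simp
    obtain ⟨ε, hε, hb⟩ := Metric.isOpen_iff.1 hcl2.isOpen_compl c hnot
    refine ⟨ε / 3, by positivity, fun f hf hfc => ?_⟩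
    by_contra hlt
    push Not at hlt
    exact hb (show f ∈ ball c ε by rw [mem_ball]; linarith) ⟨hf, hfc⟩
  obtain ⟨δ, hδ, hsep⟩ := hsep
  -- all late points are close to F
  have hclose : ∀ᶠ m in atTop, ∃ f ∈ F, dist (x m) f < δ := by
    by_contra hne
    rw [Filter.not_eventually] at hne
    have hne2 : (atTop ⊓ 𝓟 {m : ℕ | ¬ ∃ f ∈ F, dist (x m) f < δ}).NeBot := by
      rw [← frequently_mem_iff_neBot]
      exact hne
    set u := Ultrafilter.of (atTop ⊓ 𝓟 {m : ℕ | ¬ ∃ f ∈ F, dist (x m) f < δ})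
    have hu : (u : Filter ℕ) ≤ atTop ⊓ 𝓟 {m : ℕ | ¬ ∃ f ∈ F, dist (x m) f < δ} :=
      Ultrafilter.of_le _
    obtain ⟨f, hfF, hf⟩ := hcl u (hu.trans inf_le_left)
    have h1 : ∀ᶠ m in (u : Filter ℕ), dist (x m) f < δ := hf (ball_mem_nhds f hδ)
    have h2 : ∀ᶠ m in (u : Filter ℕ), ¬ ∃ f ∈ F, dist (x m) f < δ :=
      (hu.trans inf_le_right) (mem_principal_self _)
    obtain ⟨m, hm1, hm2⟩ := (h1.and h2).exists
    exact hm2 ⟨f, hfF, hm1⟩
  have hstep : ∀ᶠ m in atTop, dist (x (m + 1)) (x m) < δ := by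
    have := hst (ball_mem_nhds 0 hδ)
    filter_upwards [this] with m hm
    rw [mem_preimage, mem_ball, dist_zero_right] at hm
    rw [dist_eq_norm]
    exact hm
  obtain ⟨M, hM⟩ := eventually_atTop.1 (hclose.and hstep)
  have hex : ∃ m₀, M ≤ m₀ ∧ dist (x m₀) c < δ := by
    have h1 : ∀ᶠ m in (Ultrafilter.of (atTop : Filter ℕ) : Filter ℕ), dist (x m) c < δ :=
      hc (ball_mem_nhds c hδ)
    have h2 : ∀ᶠ m in (Ultrafilter.of (atTop : Filter ℕ) : Filter ℕ), M ≤ m :=
      (Ultrafilter.of_le _) (eventually_ge_atTop M)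
    obtain ⟨m, hm1, hm2⟩ := (h1.and h2).exists
    exact ⟨m, hm2, hm1⟩
  obtain ⟨m₀, hm₀, hm₁⟩ := hex
  have hall : ∀ k : ℕ, dist (x (m₀ + k)) c < δ := by
    intro k
    induction k with
    | zero => simpa using hm₁
    | succ k ih =>
      have h1 := (hM (m₀ + k) (by omega)).2
      obtain ⟨f, hfF, hf⟩ := (hM (m₀ + k + 1) (by omega)).1
      by_cases hfc : f = c
      · rw [← hfc]
        exact hf
      · exfalso
        have h2 := hsep f hfF hfc
        have h3 : dist f c ≤ dist f (x (m₀ + k + 1)) + dist (x (m₀ + k + 1)) (x (m₀ + k)) +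
            dist (x (m₀ + k)) c := by
          refine (dist_triangle _ (x (m₀ + k)) _).trans ?_
          gcongr
          exact dist_triangle _ _ _
        rw [dist_comm f (x (m₀ + k + 1))] at h3
        linarith
  rw [tendsto_iff_ultrafilter]
  intro u hu
  obtain ⟨f, hfF, hf⟩ := hcl u hu
  have hfc : f = c := by
    by_contra hfc
    have h1 := hsep f hfF hfc
    have h2 : ∀ᶠ m in (u : Filter ℕ), dist (x m) f < δ := hf (ball_mem_nhds f hδ)
    have h3 : ∀ᶠ m in (u : Filter ℕ), m₀ ≤ m := hu (eventually_ge_atTop m₀)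
    obtain ⟨m, hm2, hm3⟩ := (h2.and h3).exists
    have h4 := hall (m - m₀)
    rw [Nat.add_sub_cancel' hm3] at h4
    have h5 := dist_triangle f (x m) c
    rw [dist_comm f (x m)] at h5
    linarith
  rw [← hfc]
  exact hf

/-- an orbit cannot converge to a repelling fixed point without hitting it -/
theorem repel {G : ℂ → ℂ} {c : ℂ} (hd : DifferentiableAt ℂ G c) (hfix : G c = c)
    (hrep : 1 < ‖deriv G c‖) (y : ℂ) (hy : Tendsto (fun m : ℕ => G^[m] y) atTop (𝓝 c)) :
    ∃ m : ℕ, G^[m] y = c := by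
  by_contra hne
  push Not at hne
  -- expansion near `c`
  have hexp : ∀ᶠ v in 𝓝 c, ‖v - c‖ ≤ ‖G v - c‖ := by
    have h1 := hd.hasDerivAt.isLittleO
    have h2 := h1.bound (show 0 < ‖deriv G c‖ - 1 by linarith)
    filter_upwards [h2] with v hv
    rw [hfix] at hv
    have h3 : ‖(v - c) • deriv G c‖ = ‖deriv G c‖ * ‖v - c‖ := by
      rw [norm_smul, mul_comm]
    have h4 : ‖(v - c) • deriv G c‖ ≤ ‖G v - c‖ + ‖G v - c - (v - c) • deriv G c‖ := by
      have : (v - c) • deriv G c = (G v - c) - (G v - c - (v - c) • deriv G c) := by ring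
      calc ‖(v - c) • deriv G c‖ = ‖(G v - c) - (G v - c - (v - c) • deriv G c)‖ := by
            rw [← this]
        _ ≤ _ := norm_sub_le _ _
    rw [h3] at h4
    nlinarith
  obtain ⟨M, hM⟩ := eventually_atTop.1 (hy.eventually hexp)
  have hmono : ∀ k : ℕ, ‖G^[M] y - c‖ ≤ ‖G^[M + k] y - c‖ := by
    intro k
    induction k with
    | zero => exact le_rfl
    | succ k ih =>
      refine ih.trans ?_
      have h1 := hM (M + k) (by omega)
      rw [← Function.iterate_succ_apply' G] at h1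
      exact h1
  have hpos : 0 < ‖G^[M] y - c‖ := norm_pos_iff.2 (sub_ne_zero.2 (hne M))
  have h2 := hy (ball_mem_nhds c hpos)
  obtain ⟨M', hM'⟩ := eventually_atTop.1 h2
  have h3 := hM' (M + M') (by omega)
  rw [mem_ball, dist_eq_norm] at h3
  exact absurd (hmono M') (not_le.2 h3)

end GNW_

open GNW_ in
/-- GNW -/
theorem p_GNW (hGEL : T_GEL) (hGBA : T_GBA) (hGAB : T_GAB) (hGRE : T_GRE) (hGBR : T_GBR)
    (hGSH : T_GSH) : T_GNW := by
  intro n e hn he he2
  obtain ⟨hG1, hGd, -, -, -, -, -, ⟨P, hPdeg, hPev, -, -, -⟩, -, -, hG0⟩ := hGEL n e hn he he2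
  obtain ⟨hUo, hUp, hball, hinv, hUconv, ⟨R, hR⟩, hUK, h1U, -, hKc, hKinv, h0U, -⟩ :=
    hGBA n e hn he he2
  have hGdiff : Differentiable ℂ (GG n e) := fun v => (hGd v).differentiableAt
  have hGcont : Continuous (GG n e) := hGdiff.continuous
  -- open map
  have hopen : ∀ s : Set ℂ, IsOpen s → IsOpen (GG n e '' s) := by
    have han : AnalyticOnNhd ℂ (GG n e) univ :=
      (Complex.analyticOnNhd_univ_iff_differentiable).2 hGdiff
    rcases han.is_constant_or_isOpen isPreconnected_univ with ⟨w, hw⟩ | h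
    · exfalso
      have h1 := hw 1 (mem_univ _)
      have h2 := hw 0 (mem_univ _)
      rw [h2, ← h1, hG1] at hG0
      simp at hG0
    · exact fun s hs => h s (subset_univ _) hs
  apply Subset.antisymm
  · intro y hy
    by_contra hyc
    have hyU : y ∉ UG n e := fun h => hyc (subset_closure h)
    -- compactness
    have hyK : ∀ m : ℕ, (GG n e)^[m] y ∈ KG n e := fun m => (iter_mem hKinv m y).2 hy
    have hcomp : IsCompact (closedBall (0 : ℂ) R) := isCompact_closedBall 0 R
    have hlim : ∀ u : Ultrafilter ℕ, (u : Filter ℕ) ≤ atTop →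
        ∃ c, Tendsto (fun m => (GG n e)^[m] y) u (𝓝 c) := by
      intro u hu
      have hmem : closedBall (0 : ℂ) R ∈ u.map (fun m => (GG n e)^[m] y) := by
        rw [Ultrafilter.mem_map]
        refine univ_mem' fun m => ?_
        simpa using hR _ (hyK m)
      obtain ⟨c, hc, hcu⟩ := hcomp.ultrafilter_le_nhds (u.map (fun m => (GG n e)^[m] y))
        (le_principal_iff.2 hmem)
      exact ⟨c, hcu⟩
    -- properties of the cluster points
    have hprop : ∀ (u : Ultrafilter ℕ) (c : ℂ), (u : Filter ℕ) ≤ atTop →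
        Tendsto (fun m => (GG n e)^[m] y) u (𝓝 c) →
        (c = 1 ∨ GG n e c = 1 ∨ (GG n e c = c ∧ 1 < ‖deriv (GG n e) c‖)) ∧
          c ∈ closure (UG n e) := by
      intro u c hu hc
      have him := real_cluster hGBA hGBR hGSH n e hn he he2 y hyc u hu c hc
      have hcK : c ∈ KG n e := hKc.mem_of_tendsto hc (Eventually.of_forall hyK)
      have hcU : c ∉ UG n e := by
        intro hcU
        have h1 : ∀ᶠ m in (u : Filter ℕ), (GG n e)^[m] y ∈ UG n e := hc (hUo.mem_nhds hcU)
        obtain ⟨m, hm⟩ := h1.exists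
        exact hyU ((iter_mem hinv m y).1 hm)
      have hcre : c = ((c.re : ℝ) : ℂ) := Complex.ext (by simp) (by simp [him])
      have h2 := hGRE n e hn he he2 c.re (by rw [← hcre]; exact hcK) (by rw [← hcre]; exact hcU)
      rw [← hcre] at h2
      exact h2.2
    have hfix : ∀ (u : Ultrafilter ℕ) (c : ℂ), (u : Filter ℕ) ≤ atTop →
        Tendsto (fun m => (GG n e)^[m] y) u (𝓝 c) →
        GG n e c = c ∧ (c = 1 ∨ 1 < ‖deriv (GG n e) c‖) ∧ c ∈ closure (UG n e) := by
      intro u c hu hc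
      obtain ⟨h1, h2⟩ := hprop u c hu hc
      rcases h1 with h1 | h1 | ⟨h1, h1'⟩
      · exact ⟨by rw [h1, hG1], Or.inl h1, h2⟩
      · by_cases hc1 : c = 1
        · exact ⟨by rw [hc1, hG1], Or.inl hc1, h2⟩
        exfalso
        set u' : Ultrafilter ℕ := u.map (fun m => m - 1) with hu'
        have hu'le : (u' : Filter ℕ) ≤ atTop := by
          rw [hu', Ultrafilter.coe_map]
          exact (tendsto_sub_atTop_nat 1).mono_left hu
        obtain ⟨c', hc'⟩ := hlim u' hu'le
        have h3 : Tendsto (fun m => (GG n e)^[m - 1] y) u (𝓝 c') := by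
          rw [hu', Ultrafilter.coe_map] at hc'
          exact hc'
        have h4 : Tendsto (fun m => GG n e ((GG n e)^[m - 1] y)) u (𝓝 (GG n e c')) :=
          (hGcont.tendsto c').comp h3
        have h5 : GG n e c' = c := by
          refine tendsto_nhds_unique (h4.congr' ?_) hc
          filter_upwards [hu (eventually_ge_atTop 1)] with m hm
          rw [← Function.iterate_succ_apply' (GG n e)]
          congr 2
          omega
        obtain ⟨h6, -⟩ := hprop u' c' hu'le hc'
        rcases h6 with h6 | h6 | ⟨h6, -⟩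
        · apply hc1
          rw [← h5, h6, hG1]
        · exact hc1 (h5.symm.trans h6)
        · have h7 : c' = c := h6.symm.trans h5
          rw [h7] at h5
          exact hc1 (h5.symm.trans h1)
      · exact ⟨h1, Or.inr h1', h2⟩
    -- the steps tend to zero
    have hst : Tendsto (fun m => (GG n e)^[m + 1] y - (GG n e)^[m] y) atTop (𝓝 0) := by
      rw [tendsto_iff_ultrafilter]
      intro u hu
      obtain ⟨c, hc⟩ := hlim u hu
      have h1 := (hfix u c hu hc).1
      have h2 : Tendsto (fun m => GG n e ((GG n e)^[m] y)) u (𝓝 (GG n e c)) :=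
        (hGcont.tendsto c).comp hc
      rw [h1] at h2
      have h3 := h2.sub hc
      rw [sub_self] at h3
      refine h3.congr fun m => ?_
      rw [Function.iterate_succ_apply' (GG n e)]
    have hPX : P - X ≠ 0 := by
      intro h
      have h1 : P = X := sub_eq_zero.1 h
      have h2 : P.natDegree = 1 := by rw [h1, natDegree_X]
      omega
    have hfin : {c : ℂ | GG n e c = c}.Finite := by
      refine ((P - X).roots.toFinset.finite_toSet).subset fun c hc => ?_
      rw [mem_ofPred_eq] at hc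
      rw [Finset.mem_coe, Multiset.mem_toFinset, mem_roots hPX, IsRoot.def, eval_sub, eval_X,
        hPev, hc, sub_self]
    obtain ⟨c, hcF, hc⟩ := conv_of_steps (fun m => (GG n e)^[m] y) {c : ℂ | GG n e c = c} hfin
      (fun u hu => by
        obtain ⟨c, hc⟩ := hlim u hu
        exact ⟨c, (hfix u c hu hc).1, hc⟩) hst
    obtain ⟨h1, h2, h3⟩ := hfix (Ultrafilter.of atTop) c (Ultrafilter.of_le _)
      (hc.mono_left (Ultrafilter.of_le _))
    have hhit : ∀ m : ℕ, (GG n e)^[m] y ≠ c := by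
      intro m hm
      apply hyc
      refine clos_back_iter hopen hinv m y ?_
      rw [hm]
      exact h3
    rcases h2 with h2 | h2
    · rw [h2] at hc hhit
      exact hyU (hGAB n e hn he he2 y hc hhit)
    · obtain ⟨m, hm⟩ := repel hGdiff.differentiableAt h1 h2 y hc
      exact hhit m hm
  · exact closure_minimal hUK hKc

end Pool.Agent.MAT
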