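import Pool.Agent.MAT.T

/-!
# MAT: GPR (preimages in the upper half plane)
-/

set_option autoImplicit false

open Polynomial Metric Set Filter Topology

noncomputable section

namespace Pool.Agent.MAT

namespace GPR_

theorem esymm_one (s : Multiset ℂ) : s.esymm 1 = s.sum := by
  simp [Multiset.esymm, Multiset.powersetCard_one]

theorem esymm_two_cons (a : ℂ) (s : Multiset ℂ) :
    (a ::ₘ s).esymm 2 = s.esymm 2 + a * s.sum := by
  rw [← esymm_one]
  simp only [Multiset.esymm, Multiset.powersetCard_cons, Multiset.map_add, Multiset.sum_add,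
    Multiset.map_map, Function.comp, Multiset.prod_cons]
  rw [Multiset.sum_map_mul_left]

theorem sq_sum (s : Multiset ℂ) : (s.map fun v => v ^ 2).sum = s.sum ^ 2 - 2 * s.esymm 2 := by
  induction s using Multiset.induction with
  | empty =>
    have h : Multiset.powersetCard 2 (0 : Multiset ℂ) = 0 :=
      Multiset.powersetCard_zero_right 1
    simp [Multiset.esymm, h]
  | cons a s ih =>
    rw [esymm_two_cons, Multiset.map_cons, Multiset.sum_cons, Multiset.sum_cons, ih]
    ring

theorem im_sum (s : Multiset ℂ) : s.sum.im = (s.map fun v => v.im).sum := by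
  induction s using Multiset.induction with
  | empty => simp
  | cons a s ih => simp [ih]

theorem re_sum (s : Multiset ℂ) : s.sum.re = (s.map fun v => v.re).sum := by
  induction s using Multiset.induction with
  | empty => simp
  | cons a s ih => simp [ih]

theorem all_zero (s : Multiset ℂ) (h : ∀ v ∈ s, v.im ≤ 0)
    (h0 : (s.map fun v : ℂ => v.im).sum = 0) : ∀ v ∈ s, v.im = 0 := by
  intro v hv
  obtain ⟨t, rfl⟩ := Multiset.exists_cons_of_mem hv
  rw [Multiset.map_cons, Multiset.sum_cons] at h0
  have h1 : (t.map fun v : ℂ => v.im).sum ≤ 0 := by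
    apply Multiset.sum_induction (fun x : ℝ => x ≤ 0)
    · intro a b ha hb; linarith
    · exact le_rfl
    · intro x hx
      rw [Multiset.mem_map] at hx
      obtain ⟨w, hw, rfl⟩ := hx
      exact h w (Multiset.mem_cons_of_mem hw)
  have h2 := h v (Multiset.mem_cons_self v t)
  linarith

theorem le_sum (s : Multiset ℂ) (v : ℂ) (hv : v ∈ s) :
    v.re ^ 2 ≤ (s.map fun v : ℂ => v.re ^ 2).sum := by
  obtain ⟨t, rfl⟩ := Multiset.exists_cons_of_mem hv
  rw [Multiset.map_cons, Multiset.sum_cons]
  have h1 : 0 ≤ (t.map fun v : ℂ => v.re ^ 2).sum := by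
    apply Multiset.sum_nonneg
    intro x hx
    rw [Multiset.mem_map] at hx
    obtain ⟨w, hw, rfl⟩ := hx
    positivity
  linarith

end GPR_

open GPR_ in
/-- GPR (preimages in the upper half plane) -/
theorem p_GPR (hE : T_GEL) (hB : T_GBA) : T_GPR := by
  intro n e hn he he2 y hy
  obtain ⟨-, -, -, -, -, -, -, ⟨P, hPd, hPe, hP1, hP2, hP3⟩, -⟩ := hE n e hn he he2
  obtain ⟨-, -, hball, hinv, -⟩ := hB n e hn he he2
  by_contra hno
  push Not at hno
  have hno1 : ∀ v : ℂ, GG n e v = y → v.im ≤ 0 := by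
    intro v hv
    by_contra h
    exact hno 1 v (not_le.mp h) (by simpa using hv)
  have hn' : (3 : ℝ) ≤ n := by exact_mod_cast hn
  have hnc : (n : ℂ) ≠ 0 := by
    have : n ≠ 0 := by omega
    exact_mod_cast this
  have hn1c : (n : ℂ) - 1 ≠ 0 := by
    have h : ((n : ℝ) - 1) ≠ 0 := by linarith
    intro h'
    apply h
    have := congrArg Complex.re h'
    simpa using this
  have hec : (1 : ℂ) + e ≠ 0 := by
    intro h'
    have := congrArg Complex.re h'
    simp at this
    linarith
  set q : ℂ[X] := P - C y with hq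
  have hqd : q.natDegree = n := by
    rw [hq, natDegree_sub_C, hPd]
  have hqn : q.coeff n = 1 / ((n : ℂ) * (1 + e)) := by
    rw [hq, coeff_sub, coeff_C, if_neg (by omega), sub_zero, hP1]
  have hq1 : q.coeff (n - 1) = e / (((n : ℂ) - 1) * (1 + e)) := by
    rw [hq, coeff_sub, coeff_C, if_neg (by omega), sub_zero, hP2]
  have hq2 : q.coeff (n - 2) = 0 := by
    rw [hq, coeff_sub, coeff_C, if_neg (by omega), sub_zero, hP3]
  have hlc : q.leadingCoeff = 1 / ((n : ℂ) * (1 + e)) := by
    rw [leadingCoeff, hqd, hqn]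
  have hl0 : (1 / ((n : ℂ) * (1 + e)) : ℂ) ≠ 0 := one_div_ne_zero (mul_ne_zero hnc hec)
  have hq0 : q ≠ 0 := by
    intro h
    rw [h, natDegree_zero] at hqd
    omega
  have hcard : Multiset.card q.roots = q.natDegree :=
    (splits_iff_card_roots.mp (IsAlgClosed.splits q))
  have hc1 := coeff_eq_esymm_roots_of_card hcard (k := n - 1) (by omega)
  have hc2 := coeff_eq_esymm_roots_of_card hcard (k := n - 2) (by omega)
  rw [hqd, hq1, hlc, show n - (n - 1) = 1 by omega, esymm_one] at hc1
  rw [hqd, hq2, hlc, show n - (n - 2) = 2 by omega] at hc2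
  have hes2 : q.roots.esymm 2 = 0 := by
    by_contra h
    have : (1 / ((n : ℂ) * (1 + e)) * (-1) ^ 2 * q.roots.esymm 2 : ℂ) ≠ 0 :=
      mul_ne_zero (mul_ne_zero hl0 (by norm_num)) h
    exact this hc2.symm
  have hsum : q.roots.sum = ((-(e * n / (n - 1)) : ℝ) : ℂ) := by
    push_cast
    field_simp at hc1 ⊢
    linear_combination hc1
  have hroot : ∀ v ∈ q.roots, GG n e v = y := by
    intro v hv
    rw [mem_roots hq0, IsRoot, hq, eval_sub, eval_C, hPe] at hv
    exact sub_eq_zero.mp hv
  have him : ∀ v ∈ q.roots, v.im = 0 := by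
    apply all_zero _ (fun v hv => hno1 v (hroot v hv))
    rw [← im_sum, hsum, Complex.ofReal_im]
  have hsq := sq_sum q.roots
  rw [hes2, hsum, mul_zero, sub_zero] at hsq
  have hsq2 : (q.roots.map fun v : ℂ => v.re ^ 2).sum = (e * n / (n - 1)) ^ 2 := by
    have h1 : (q.roots.map fun v : ℂ => v ^ 2).sum.re =
        (q.roots.map fun v : ℂ => v.re ^ 2).sum := by
      rw [re_sum, Multiset.map_map]
      congr 1
      apply Multiset.map_congr rfl
      intro v hv
      simp only [Function.comp]
      rw [sq, Complex.mul_re, him v hv]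
      ring
    rw [← h1, hsq, ← Complex.ofReal_pow, Complex.ofReal_re]
    ring
  have hne : ∃ v, v ∈ q.roots := by
    apply Multiset.exists_mem_of_ne_zero
    intro h
    rw [h, Multiset.card_zero, hqd] at hcard
    omega
  obtain ⟨v, hv⟩ := hne
  have hv1 := le_sum _ v hv
  rw [hsq2] at hv1
  have hs0 : 0 ≤ e * n / (n - 1) := by
    apply div_nonneg (by positivity) (by linarith)
  have hs1 : e * n / (n - 1) ≤ 3 / 4 := by
    rw [div_le_iff₀ (by linarith)]
    nlinarith
  have hv2 : v ∈ ball (0 : ℂ) 1 := by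
    rw [mem_ball_zero_iff]
    have h1 : ‖v‖ = |v.re| := by
      rw [← Complex.re_add_im v, him v hv]
      simp
    rw [h1, abs_lt]
    constructor <;> nlinarith
  have h3 := (hinv v).mpr (hball hv2)
  rw [hroot v hv] at h3
  exact hy h3

end Pool.Agent.MAT
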