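import Pool.Agent.MAT.T

/-!
# MAT: GRA, speed of the critical orbits
-/

set_option autoImplicit false

open Polynomial Metric Set Filter Topology

noncomputable section

namespace Pool.Agent.MAT

namespace GRA_

/-- the real version of `G` -/
def gr (n : ℕ) (e t : ℝ) : ℝ :=
  1 + ((t ^ n - 1) / n + e * (t ^ (n - 1) - 1) / ((n : ℝ) - 1)) / (1 + e)

theorem GG_real (n : ℕ) (e t : ℝ) : GG n e (t : ℂ) = (gr n e t : ℝ) := by
  unfold GG gr
  push_cast
  rfl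

theorem iter_real (n : ℕ) (e t : ℝ) (m : ℕ) : (GG n e)^[m] (t : ℂ) = ((gr n e)^[m] t : ℝ) := by
  induction m with
  | zero => simp
  | succ m ih => rw [Function.iterate_succ_apply', Function.iterate_succ_apply', ih, GG_real]

/-- `1 - gr` -/
theorem one_sub (n : ℕ) (e t : ℝ) : 1 - gr n e t =
    ((1 - t ^ n) / n + e * ((1 - t ^ (n - 1)) / ((n : ℝ) - 1))) / (1 + e) := by
  unfold gr
  ring

theorem pow_up {t : ℝ} (h0 : 0 ≤ t) (h1 : t ≤ 1) (k : ℕ) (hk : 1 ≤ k) :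
    1 - t ^ k ≤ (1 - t) * (1 + ((k : ℝ) - 1) * t) := by
  induction k, hk using Nat.le_induction with
  | base => simp
  | succ k hk ih =>
    have h2 : t ^ k ≤ t := pow_le_of_le_one h0 h1 (by omega)
    have h3 : 1 - t ^ (k + 1) = (1 - t ^ k) + t ^ k * (1 - t) := by ring
    rw [h3]
    push_cast
    nlinarith [mul_le_mul_of_nonneg_right h2 (sub_nonneg.2 h1)]

theorem pow_low {t : ℝ} (h0 : 0 ≤ t) (h1 : t ≤ 1) (k : ℕ) :
    (k : ℝ) * (1 - t) - (k : ℝ) ^ 2 * (1 - t) ^ 2 ≤ 1 - t ^ k := by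
  induction k with
  | zero => simp
  | succ k ih =>
    have h2 : 1 - (k : ℝ) * (1 - t) ≤ t ^ k := by
      have := one_add_mul_le_pow (show (-2 : ℝ) ≤ t - 1 by linarith) k
      have h4 : 1 + (t - 1) = t := by ring
      rw [h4] at this
      linarith
    have h3 : 1 - t ^ (k + 1) = (1 - t ^ k) + t ^ k * (1 - t) := by ring
    rw [h3]
    push_cast
    have h5 := mul_le_mul_of_nonneg_right h2 (sub_nonneg.2 h1)
    have hk : (0 : ℝ) ≤ k := by positivity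
    nlinarith [mul_nonneg hk (sq_nonneg (1 - t)), sq_nonneg (1 - t)]

section

variable {n : ℕ} {e : ℝ}

theorem n_facts (hn : 3 ≤ n) : (3 : ℝ) ≤ n ∧ (0 : ℝ) < (n : ℝ) - 1 ∧ ((n - 1 : ℕ) : ℝ) = n - 1 := by
  have h : (3 : ℝ) ≤ n := by exact_mod_cast hn
  refine ⟨h, by linarith, ?_⟩
  rw [Nat.cast_sub (by omega)]
  simp

/-- upper bound for `1 - gr` -/
theorem up (hn : 3 ≤ n) (he : 0 < e) {t : ℝ} (h0 : 0 ≤ t) (h1 : t ≤ 1) :
    1 - gr n e t ≤ (1 - t) - (1 - t) ^ 2 / 2 := by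
  obtain ⟨a1, a2, a3⟩ := n_facts hn
  rw [one_sub, div_le_iff₀ (by linarith)]
  have b1 : (1 - t ^ n) / n ≤ (1 - t) - (1 - t) ^ 2 / 2 := by
    rw [div_le_iff₀ (by linarith)]
    refine (pow_up h0 h1 n (by omega)).trans ?_
    nlinarith [sq_nonneg (1 - t), mul_nonneg (sq_nonneg (1 - t)) (sub_nonneg.2 a1)]
  have b2 : (1 - t ^ (n - 1)) / ((n : ℝ) - 1) ≤ (1 - t) - (1 - t) ^ 2 / 2 := by
    rw [div_le_iff₀ a2]
    have := pow_up h0 h1 (n - 1) (by omega)
    rw [a3] at this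
    refine this.trans ?_
    nlinarith [sq_nonneg (1 - t), mul_nonneg (sq_nonneg (1 - t)) (sub_nonneg.2 a1)]
  nlinarith [mul_le_mul_of_nonneg_left b2 he.le]

theorem low (hn : 3 ≤ n) (he : 0 < e) {t : ℝ} (h0 : 0 ≤ t) (h1 : t ≤ 1) :
    (1 - t) - n * (1 - t) ^ 2 ≤ 1 - gr n e t := by
  obtain ⟨a1, a2, a3⟩ := n_facts hn
  rw [one_sub, le_div_iff₀ (by linarith)]
  have b1 : (1 - t) - n * (1 - t) ^ 2 ≤ (1 - t ^ n) / n := by
    rw [le_div_iff₀ (by linarith)]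
    refine le_trans ?_ (pow_low h0 h1 n)
    nlinarith
  have b2 : (1 - t) - n * (1 - t) ^ 2 ≤ (1 - t ^ (n - 1)) / ((n : ℝ) - 1) := by
    rw [le_div_iff₀ a2]
    have := pow_low h0 h1 (n - 1)
    rw [a3] at this
    refine le_trans ?_ this
    nlinarith [sq_nonneg (1 - t), mul_nonneg (sq_nonneg (1 - t)) a2.le]
  nlinarith [mul_le_mul_of_nonneg_left b2 he.le]

theorem low2 (hn : 3 ≤ n) (he : 0 < e) {t : ℝ} (h0 : 0 ≤ t) (h1 : t ≤ 1) :
    (1 - t) / n ≤ 1 - gr n e t := by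
  obtain ⟨a1, a2, a3⟩ := n_facts hn
  rw [one_sub, le_div_iff₀ (by linarith)]
  have c1 : t ^ n ≤ t := pow_le_of_le_one h0 h1 (by omega)
  have c2 : t ^ (n - 1) ≤ t := pow_le_of_le_one h0 h1 (by omega)
  have b1 : (1 - t) / n ≤ (1 - t ^ n) / n := by
    apply div_le_div_of_nonneg_right (by linarith) (by linarith)
  have b2 : (1 - t) / n ≤ (1 - t ^ (n - 1)) / ((n : ℝ) - 1) := by
    refine le_trans ?_ (div_le_div_of_nonneg_right (show 1 - t ≤ 1 - t ^ (n - 1) by linarith)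
      a2.le)
    exact div_le_div_of_nonneg_left (by linarith) a2 (by linarith)
  nlinarith [mul_le_mul_of_nonneg_left b2 he.le]

theorem mem (hn : 3 ≤ n) (he : 0 < e) {t : ℝ} (h0 : 0 ≤ t) (h1 : t < 1) :
    0 < gr n e t ∧ gr n e t < 1 := by
  obtain ⟨a1, a2, a3⟩ := n_facts hn
  have h2 := up hn he h0 h1.le
  have h3 := low2 hn he h0 h1.le
  refine ⟨?_, ?_⟩
  · nlinarith [sq_nonneg t]
  · have : 0 < (1 - t) / n := div_pos (by linarith) (by linarith)
    linarith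

theorem incr (hn : 3 ≤ n) (he : 0 < e) {t : ℝ} (h0 : 0 ≤ t) (h1 : t < 1) :
    1 / (1 - t) + 1 / 2 ≤ 1 / (1 - gr n e t) := by
  have h2 := up hn he h0 h1.le
  have h3 : 0 < 1 - gr n e t := by linarith [(mem hn he h0 h1).2]
  have h4 : 0 < 1 - t := by linarith
  rw [div_add_div _ _ h4.ne' (by norm_num), div_le_div_iff₀ (by positivity) h3]
  have h5 : (1 * 2 + (1 - t) * 1) * (1 - gr n e t) ≤
      (1 * 2 + (1 - t) * 1) * ((1 - t) - (1 - t) ^ 2 / 2) :=
    mul_le_mul_of_nonneg_left h2 (by linarith)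
  refine h5.trans ?_
  nlinarith [mul_pos h4 h4, mul_pos (mul_pos h4 h4) h4]

theorem incr_le (hn : 3 ≤ n) (he : 0 < e) {t : ℝ} (h0 : 0 ≤ t) (h1 : t < 1) :
    1 / (1 - gr n e t) ≤ 1 / (1 - t) + (n : ℝ) ^ 2 := by
  obtain ⟨a1, a2, a3⟩ := n_facts hn
  have h2 := low hn he h0 h1.le
  have h2' := low2 hn he h0 h1.le
  have h3 : 0 < 1 - gr n e t := by linarith [(mem hn he h0 h1).2]
  have h4 : 0 < 1 - t := by linarith
  have h5 : 1 / (1 - gr n e t) - 1 / (1 - t) = ((1 - t) - (1 - gr n e t)) /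
      ((1 - t) * (1 - gr n e t)) := by
    rw [div_sub_div _ _ h3.ne' h4.ne']
    congr 1
    · ring
    · ring
  have h6 : ((1 - t) - (1 - gr n e t)) / ((1 - t) * (1 - gr n e t)) ≤ (n : ℝ) ^ 2 := by
    rw [div_le_iff₀ (mul_pos h4 h3)]
    have h7 : (n : ℝ) * (1 - t) ^ 2 = (n : ℝ) ^ 2 * ((1 - t) * ((1 - t) / n)) := by
      field_simp
    have h8 : (n : ℝ) ^ 2 * ((1 - t) * ((1 - t) / n)) ≤
        (n : ℝ) ^ 2 * ((1 - t) * (1 - gr n e t)) :=
      mul_le_mul_of_nonneg_left (mul_le_mul_of_nonneg_left h2' h4.le) (by positivity)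
    linarith
  linarith

theorem mono (hn : 3 ≤ n) (he : 0 < e) {s t : ℝ} (h0 : 0 ≤ s) (h1 : s ≤ t) :
    gr n e s ≤ gr n e t := by
  obtain ⟨a1, a2, a3⟩ := n_facts hn
  unfold gr
  have c1 : s ^ n ≤ t ^ n := pow_le_pow_left₀ h0 h1 n
  have c2 : s ^ (n - 1) ≤ t ^ (n - 1) := pow_le_pow_left₀ h0 h1 (n - 1)
  have b1 : (s ^ n - 1) / n ≤ (t ^ n - 1) / n :=
    div_le_div_of_nonneg_right (by linarith) (by linarith)
  have b2 : e * (s ^ (n - 1) - 1) / ((n : ℝ) - 1) ≤ e * (t ^ (n - 1) - 1) / ((n : ℝ) - 1) :=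
    div_le_div_of_nonneg_right (mul_le_mul_of_nonneg_left (by linarith) he.le) a2.le
  have b3 := div_le_div_of_nonneg_right (add_le_add b1 b2) (show (0 : ℝ) ≤ 1 + e by linarith)
  linarith

theorem iter_mem (hn : 3 ≤ n) (he : 0 < e) {t : ℝ} (h0 : 0 < t) (h1 : t < 1) (m : ℕ) :
    0 < (gr n e)^[m] t ∧ (gr n e)^[m] t < 1 := by
  induction m with
  | zero => exact ⟨h0, h1⟩
  | succ m ih =>
    rw [Function.iterate_succ_apply']
    exact mem hn he ih.1.le ih.2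

theorem iter_mono (hn : 3 ≤ n) (he : 0 < e) {s t : ℝ} (h0 : 0 < s) (hs : s < 1)
    (h1 : s ≤ t) (m : ℕ) : (gr n e)^[m] s ≤ (gr n e)^[m] t := by
  induction m with
  | zero => exact h1
  | succ m ih =>
    rw [Function.iterate_succ_apply', Function.iterate_succ_apply']
    exact mono hn he (iter_mem hn he h0 hs m).1.le ih

theorem iter_incr (hn : 3 ≤ n) (he : 0 < e) {t : ℝ} (h0 : 0 < t) (h1 : t < 1) (m : ℕ) :
    1 + (m : ℝ) / 2 ≤ 1 / (1 - (gr n e)^[m] t) := by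
  induction m with
  | zero =>
    simp only [Nat.cast_zero, zero_div, add_zero, Function.iterate_zero, id_eq]
    rw [le_div_iff₀ (by linarith)]
    linarith
  | succ m ih =>
    rw [Function.iterate_succ_apply']
    have h2 := iter_mem hn he h0 h1 m
    have := incr hn he h2.1.le h2.2
    push_cast
    linarith

theorem iter_incr_le (hn : 3 ≤ n) (he : 0 < e) {t : ℝ} (h0 : 0 < t) (h1 : t < 1) (m : ℕ) :
    1 / (1 - (gr n e)^[m] t) ≤ 1 / (1 - t) + m * (n : ℝ) ^ 2 := by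
  induction m with
  | zero => simp
  | succ m ih =>
    rw [Function.iterate_succ_apply']
    have h2 := iter_mem hn he h0 h1 m
    have := incr_le hn he h2.1.le h2.2
    push_cast
    linarith

/-- one orbit does not run away from another one -/
theorem compare (hn : 3 ≤ n) (he : 0 < e) {s t : ℝ} (h0 : 0 < s) (hs : s < 1) (h1 : 0 < t)
    (ht : t < 1) : ∃ C : ℝ, 0 ≤ C ∧ ∀ m : ℕ,
      1 / (1 - (gr n e)^[m] t) ≤ 1 / (1 - (gr n e)^[m] s) + C := by
  obtain ⟨j, hj⟩ := exists_nat_gt (2 * (1 / (1 - t)))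
  have h2 : t ≤ (gr n e)^[j] s := by
    have h3 := iter_incr hn he h0 hs j
    have h4 := iter_mem hn he h0 hs j
    have h5 : 1 / (1 - t) ≤ 1 / (1 - (gr n e)^[j] s) := by linarith
    have h6 := (one_div_le_one_div (by linarith) (by linarith)).1 h5
    linarith
  refine ⟨j * (n : ℝ) ^ 2, by positivity, fun m => ?_⟩
  have h4 := iter_mem hn he h0 hs j
  have h5 := iter_mono hn he h1 ht h2 m
  rw [← Function.iterate_add_apply, add_comm, Function.iterate_add_apply] at h5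
  have h6 := iter_mem hn he h0 hs m
  have h7 := iter_incr_le hn he h6.1 h6.2 j
  have h8 := iter_mem hn he h6.1 h6.2 j
  refine le_trans ?_ h7
  exact one_div_le_one_div_of_le (by linarith [h8.2]) (by linarith)

theorem mem_neg (hn : 3 ≤ n) (he : 0 < e) (he2 : e ≤ 1 / 2) :
    0 < gr n e (-e) ∧ gr n e (-e) < 1 := by
  obtain ⟨a1, a2, a3⟩ := n_facts hn
  have habs : |(-e)| ≤ 1 / 2 := by rw [abs_neg, abs_of_pos he]; exact he2
  have hp : ∀ k : ℕ, 1 ≤ k → |(-e) ^ k| ≤ 1 / 2 := by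
    intro k hk
    rw [abs_pow]
    calc |(-e)| ^ k ≤ |(-e)| := pow_le_of_le_one (abs_nonneg _) (by linarith) (by omega)
      _ ≤ 1 / 2 := habs
  have p1 := abs_le.1 (hp n (by omega))
  have p2 := abs_le.1 (hp (n - 1) (by omega))
  have h3 := one_sub n e (-e)
  have b1 : 0 < (1 - (-e) ^ n) / n := div_pos (by linarith [p1.2]) (by linarith)
  have b2 : (1 - (-e) ^ n) / n ≤ 1 / 2 := by
    rw [div_le_iff₀ (by linarith)]; linarith [p1.1]
  have b3 : 0 < (1 - (-e) ^ (n - 1)) / ((n : ℝ) - 1) := div_pos (by linarith [p2.2]) a2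
  have b4 : (1 - (-e) ^ (n - 1)) / ((n : ℝ) - 1) ≤ 3 / 4 := by
    rw [div_le_iff₀ a2]; linarith [p2.1]
  have h1e : 0 < 1 + e := by linarith
  refine ⟨?_, ?_⟩
  · have : ((1 - (-e) ^ n) / n + e * ((1 - (-e) ^ (n - 1)) / ((n : ℝ) - 1))) / (1 + e) < 1 := by
      rw [div_lt_one h1e]
      nlinarith [mul_le_mul_of_nonneg_left b4 he.le]
    linarith
  · have : 0 < ((1 - (-e) ^ n) / n + e * ((1 - (-e) ^ (n - 1)) / ((n : ℝ) - 1))) / (1 + e) :=
      div_pos (add_pos b1 (mul_pos he b3)) h1e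
    linarith

end

end GRA_

open GRA_ in
theorem p_GRA : T_GRA := by
  intro n e hn he he2
  have hx := mem hn he le_rfl (zero_lt_one' ℝ)
  have hy := mem_neg hn he he2
  obtain ⟨C₁, hC₁, H₁⟩ := compare hn he hx.1 hx.2 hy.1 hy.2
  obtain ⟨C₂, hC₂, H₂⟩ := compare hn he hy.1 hy.2 hx.1 hx.2
  refine ⟨C₁ + C₂ + 2, by linarith, fun m hm => ?_⟩
  obtain ⟨k, rfl⟩ : ∃ k, m = k + 1 := ⟨m - 1, by omega⟩
  refine ⟨(gr n e)^[k] (gr n e 0), (gr n e)^[k] (gr n e (-e)), ?_, ?_, ?_⟩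
  · have := iter_real n e 0 (k + 1)
    rw [Function.iterate_succ_apply (gr n e)] at this
    rw [← this]
    simp
  · have := iter_real n e (-e) (k + 1)
    rw [Function.iterate_succ_apply (gr n e)] at this
    rw [← this]
    simp
  have a1 := iter_mem hn he hx.1 hx.2 k
  have a2 := iter_mem hn he hy.1 hy.2 k
  have b1 := iter_incr hn he hx.1 hx.2 k
  have b2 := iter_incr hn he hy.1 hy.2 k
  have c1 := H₁ k
  have c2 := H₂ k
  have hk : (0 : ℝ) ≤ k := Nat.cast_nonneg k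
  refine ⟨a1.1, a1.2, a2.1, a2.2, ?_, ?_, ?_⟩
  · rw [div_eq_mul_one_div]
    push_cast
    nlinarith [mul_nonneg (add_nonneg hC₁ hC₂)
      (show (0 : ℝ) ≤ 1 / (1 - (gr n e)^[k] (gr n e 0)) by linarith)]
  · rw [div_eq_mul_one_div]
    push_cast
    nlinarith [mul_nonneg (add_nonneg hC₁ hC₂)
      (show (0 : ℝ) ≤ 1 / (1 - (gr n e)^[k] (gr n e (-e))) by linarith)]
  · rw [abs_le]
    constructor <;> linarith

end Pool.Agent.MAT
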