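import Pool.Agent.MAT.T

/-!
# MAT: GRE (real points of the filled Julia set of `G`), by helper76
-/

set_option autoImplicit false

open Polynomial Metric Set Filter Topology

noncomputable section

namespace Pool.Agent.MAT

namespace GRE_

/-- the real restriction of `G` -/
def gr (n : ℕ) (e x : ℝ) : ℝ :=
  1 + ((x ^ n - 1) / n + e * (x ^ (n - 1) - 1) / ((n : ℝ) - 1)) / (1 + e)

lemma gr_cast (n : ℕ) (e x : ℝ) : GG n e (x : ℂ) = ((gr n e x : ℝ) : ℂ) := by
  unfold GG gr
  push_cast
  ring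

lemma gr_iter (n : ℕ) (e x : ℝ) (m : ℕ) :
    (GG n e)^[m] (x : ℂ) = (((gr n e)^[m] x : ℝ) : ℂ) := by
  induction m with
  | zero => rfl
  | succ m ih =>
    rw [Function.iterate_succ_apply', ih, gr_cast, Function.iterate_succ_apply' (gr n e)]

/-- the value of the derivative at `-s` up to sign -/
def kd (n : ℕ) (e s : ℝ) : ℝ := s ^ (n - 2) * (s - e) / (1 + e)

lemma kd_mono {n : ℕ} {e s t : ℝ} (he : 0 < e) (he2 : e ≤ 1 / 2) (hs : 1 ≤ s) (hst : s ≤ t) :
    kd n e s ≤ kd n e t := by
  unfold kd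
  have h1 : s ^ (n - 2) ≤ t ^ (n - 2) := pow_le_pow_left₀ (by linarith) hst _
  have h2 : 0 ≤ s ^ (n - 2) := by positivity
  have h3 : s ^ (n - 2) * (s - e) ≤ t ^ (n - 2) * (t - e) :=
    mul_le_mul h1 (by linarith) (by linarith) (h2.trans h1)
  exact div_le_div_of_nonneg_right h3 (by linarith)

lemma kd_pos {n : ℕ} {e s : ℝ} (he : 0 < e) (he2 : e ≤ 1 / 2) (hs : 1 ≤ s) : 0 < kd n e s := by
  unfold kd
  have h1 : 0 < s ^ (n - 2) := by positivity
  have h2 : 0 < s - e := by linarith
  positivity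

/-- the growth of powers -/
lemma pow_ge (x : ℝ) (hx : 1 ≤ x) (n : ℕ) (hn : 2 ≤ n) : n * ((x ^ 2 - 1) / 2) ≤ x ^ n - 1 := by
  induction n, hn using Nat.le_induction with
  | base => push_cast; linarith
  | succ n hn ih =>
    have h1 : x ^ (n + 1) - 1 = x * (x ^ n - 1) + (x - 1) := by ring
    have h2 : x * (n * ((x ^ 2 - 1) / 2)) ≤ x * (x ^ n - 1) :=
      mul_le_mul_of_nonneg_left ih (by linarith)
    have h3 : (0 : ℝ) ≤ (x - 1) ^ 2 / 2 * (n * (x + 1) - 1) := by
      have hn' : (2 : ℝ) ≤ n := by exact_mod_cast hn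
      have : (0 : ℝ) ≤ n * (x + 1) - 1 := by nlinarith
      positivity
    rw [h1]
    push_cast
    nlinarith

/-- `G x - 1 ≥ (x ^ 2 - 1) / 2` -/
lemma gr_ge {n : ℕ} {e x : ℝ} (hn : 3 ≤ n) (he : 0 < e) (hx : 1 ≤ x) :
    (x ^ 2 - 1) / 2 ≤ gr n e x - 1 := by
  have hnR : (3 : ℝ) ≤ n := by exact_mod_cast hn
  have h1 : (x ^ 2 - 1) / 2 ≤ (x ^ n - 1) / n := by
    rw [le_div_iff₀ (by linarith)]
    have := pow_ge x hx n (by omega)
    linarith
  have h2 : (x ^ 2 - 1) / 2 ≤ (x ^ (n - 1) - 1) / ((n : ℝ) - 1) := by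
    rw [le_div_iff₀ (by linarith)]
    have := pow_ge x hx (n - 1) (by omega)
    rw [Nat.cast_sub (by omega : 1 ≤ n)] at this
    push_cast at this
    linarith
  have h3 : e * ((x ^ 2 - 1) / 2) ≤ e * (x ^ (n - 1) - 1) / ((n : ℝ) - 1) := by
    rw [mul_div_assoc]
    exact mul_le_mul_of_nonneg_left h2 he.le
  unfold gr
  have h4 : (x ^ 2 - 1) / 2 ≤
      ((x ^ n - 1) / n + e * (x ^ (n - 1) - 1) / ((n : ℝ) - 1)) / (1 + e) := by
    rw [le_div_iff₀ (by linarith)]
    linarith
  linarith

/-- a real number larger than one escapes -/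
lemma escape {n : ℕ} {e x : ℝ} (hn : 3 ≤ n) (he : 0 < e) (hx : 1 < x) :
    (x : ℂ) ∉ KG n e := by
  rintro ⟨R, hR⟩
  have hinc : ∀ y : ℝ, x ≤ y → y + (x - 1) ^ 2 / 2 ≤ gr n e y := by
    intro y hy
    have h1 := gr_ge hn he (le_of_lt (hx.trans_le hy))
    nlinarith
  have hit : ∀ m : ℕ, x + m * ((x - 1) ^ 2 / 2) ≤ (gr n e)^[m] x := by
    intro m
    induction m with
    | zero => simp
    | succ m ih =>
      rw [Function.iterate_succ_apply']
      have h0 : (0 : ℝ) ≤ m * ((x - 1) ^ 2 / 2) := by positivity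
      have h1 := hinc _ (by linarith : x ≤ (gr n e)^[m] x)
      push_cast
      linarith
  obtain ⟨m, hm⟩ := exists_nat_gt ((R - x) / ((x - 1) ^ 2 / 2))
  have hc : 0 < (x - 1) ^ 2 / 2 := by
    have : 0 < x - 1 := by linarith
    positivity
  rw [div_lt_iff₀ hc] at hm
  have h1 := hR m
  rw [gr_iter, Complex.norm_real, Real.norm_eq_abs] at h1
  have h2 := le_abs_self ((gr n e)^[m] x)
  have h3 := hit m
  linarith

/-- `φ (s) = - G (- s) - s` -/
def ph (n : ℕ) (e s : ℝ) : ℝ := -gr n e (-s) - s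

section main

variable {n : ℕ} {e : ℝ}

lemma gr_deriv (hGEL : T_GEL) (hn : 3 ≤ n) (he : 0 < e) (he2 : e ≤ 1 / 2) (x : ℝ) :
    HasDerivAt (gr n e) (x ^ (n - 2) * (x + e) / (1 + e)) x := by
  have h := ((hGEL n e hn he he2).2.1 (x : ℂ)).real_of_complex
  have e1 : (fun x : ℝ => (GG n e (x : ℂ)).re) = gr n e := by
    funext y
    rw [gr_cast, Complex.ofReal_re]
  have e2 : ((x : ℂ) ^ (n - 2) * ((x : ℂ) + (e : ℂ)) / (1 + (e : ℂ))).re =
      x ^ (n - 2) * (x + e) / (1 + e) := by
    have : ((x : ℂ) ^ (n - 2) * ((x : ℂ) + (e : ℂ)) / (1 + (e : ℂ))) =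
        ((x ^ (n - 2) * (x + e) / (1 + e) : ℝ) : ℂ) := by push_cast; ring
    rw [this, Complex.ofReal_re]
  rw [e1, e2] at h
  exact h

/-- the derivative of `s ↦ G (-s)`, even case -/
lemma even_deriv (hGEL : T_GEL) (hn : 3 ≤ n) (he : 0 < e) (he2 : e ≤ 1 / 2) (hev : Even n)
    (s : ℝ) : HasDerivAt (fun s => gr n e (-s)) (kd n e s) s := by
  have h1 := (gr_deriv hGEL hn he he2 (-s)).scomp s (hasDerivAt_neg s)
  have h2 : Even (n - 2) := by
    obtain ⟨m, hm⟩ := hev
    exact ⟨m - 1, by omega⟩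
  convert! h1 using 1
  unfold kd
  rw [h2.neg_pow, smul_eq_mul]
  ring

/-- the derivative of `φ`, odd case -/
lemma odd_deriv (hGEL : T_GEL) (hn : 3 ≤ n) (he : 0 < e) (he2 : e ≤ 1 / 2) (hodd : Odd n)
    (s : ℝ) : HasDerivAt (ph n e) (kd n e s - 1) s := by
  have h1 := ((gr_deriv hGEL hn he he2 (-s)).scomp s (hasDerivAt_neg s)).neg.sub (hasDerivAt_id s)
  have h2 : Odd (n - 2) := by
    obtain ⟨m, hm⟩ := hodd
    exact ⟨m - 1, by omega⟩
  convert! h1 using 1
  unfold kd
  rw [h2.neg_pow, smul_eq_mul]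
  ring

/-- if `φ s ≥ 0` then the derivative is larger than one -/
lemma kd_gt (hn : 3 ≤ n) (he : 0 < e) (hodd : Odd n) {s : ℝ} (hs : 1 ≤ s)
    (hph : 0 ≤ ph n e s) : 1 < kd n e s := by
  by_contra hcon
  push Not at hcon
  have hnR : (3 : ℝ) ≤ n := by exact_mod_cast hn
  have he1 : 0 < 1 + e := by linarith
  unfold kd at hcon
  rw [div_le_one he1] at hcon
  have p1 : s ^ n = s ^ (n - 2) * s * s := by
    have : n = n - 2 + 1 + 1 := by omega
    conv_lhs => rw [this]
    rw [pow_succ, pow_succ]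
  have p2 : s ^ (n - 1) = s ^ (n - 2) * s := by
    have : n - 1 = n - 2 + 1 := by omega
    rw [this, pow_succ]
  have hev : Even (n - 1) := by
    obtain ⟨m, hm⟩ := hodd
    exact ⟨m, by omega⟩
  have h1 : (1 + e) * (ph n e s + s + 1) = (s ^ n + 1) / n - e * (s ^ (n - 1) - 1) / (n - 1) := by
    unfold ph gr
    rw [hodd.neg_pow, hev.neg_pow]
    field_simp
    ring
  have h2 : s * (s ^ (n - 2) * (s - e)) ≤ s * (1 + e) :=
    mul_le_mul_of_nonneg_left hcon (by linarith)
  have h3 : s ^ n - e * s ^ (n - 1) ≤ s * (1 + e) := by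
    rw [p1, p2]
    linarith
  have hn1 : (0 : ℝ) < (n : ℝ) - 1 := by linarith
  have h4 : e * s ^ (n - 1) / n ≤ e * s ^ (n - 1) / (n - 1) := by
    apply div_le_div_of_nonneg_left (by positivity) hn1 (by linarith)
  have h5 : (s ^ n + 1) / n - e * (s ^ (n - 1) - 1) / (n - 1) ≤
      (s ^ n - e * s ^ (n - 1)) / n + 1 / n + e / (n - 1) := by
    have e1 : (s ^ n + 1) / n - e * (s ^ (n - 1) - 1) / (n - 1) =
        s ^ n / n + 1 / n - e * s ^ (n - 1) / (n - 1) + e / (n - 1) := by ring
    have e2 : (s ^ n - e * s ^ (n - 1)) / n = s ^ n / n - e * s ^ (n - 1) / n := by ring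
    rw [e1, e2]
    linarith
  have h6 : (s ^ n - e * s ^ (n - 1)) / n ≤ s * (1 + e) / n :=
    div_le_div_of_nonneg_right h3 (by linarith)
  have hse : 0 < s * (1 + e) := by positivity
  have h7 : s * (1 + e) / n < s * (1 + e) := div_lt_self hse (by linarith)
  have h8 : (1 : ℝ) / n ≤ 1 := by
    rw [div_le_one (by linarith)]
    linarith
  have h9 : e / ((n : ℝ) - 1) ≤ e := div_le_self he.le (by linarith)
  have h10 : (1 + e) * (s + 1) ≤ (1 + e) * (ph n e s + s + 1) :=
    mul_le_mul_of_nonneg_left (by linarith) he1.le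
  rw [h1] at h10
  linarith

/-- the key monotonicity -/
lemma ph_mono (hGEL : T_GEL) (hn : 3 ≤ n) (he : 0 < e) (he2 : e ≤ 1 / 2) (hodd : Odd n)
    {s t : ℝ} (hs : 1 ≤ s) (hph : 0 ≤ ph n e s) (hst : s < t) : ph n e s < ph n e t := by
  have hk := kd_gt hn he hodd hs hph
  have hm : StrictMonoOn (ph n e) (Ici s) := by
    refine strictMonoOn_of_deriv_pos (convex_Ici s) ?_ ?_
    · exact fun x _ => (odd_deriv hGEL hn he he2 hodd x).continuousAt.continuousWithinAt
    · intro x hx
      rw [interior_Ici] at hx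
      rw [(odd_deriv hGEL hn he he2 hodd x).deriv]
      have := kd_mono (n := n) he he2 hs (le_of_lt hx)
      linarith
  exact hm (mem_Ici.2 le_rfl) (mem_Ici.2 hst.le) hst

/-- in the odd case `-G (-s)` is increasing -/
lemma odd_mono (hGEL : T_GEL) (hn : 3 ≤ n) (he : 0 < e) (he2 : e ≤ 1 / 2) (hodd : Odd n)
    {s : ℝ} (hs : 1 ≤ s) : gr n e (-s) ≤ gr n e (-1) := by
  have hm : MonotoneOn (fun s => ph n e s + s) (Ici 1) := by
    refine monotoneOn_of_deriv_nonneg (convex_Ici 1) ?_ ?_ ?_
    · exact fun x _ => ((odd_deriv hGEL hn he he2 hodd x).add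
        (hasDerivAt_id x)).continuousAt.continuousWithinAt
    · exact fun x _ => ((odd_deriv hGEL hn he he2 hodd x).add
        (hasDerivAt_id x)).differentiableAt.differentiableWithinAt
    · intro x hx
      rw [interior_Ici] at hx
      have h1 := ((odd_deriv hGEL hn he he2 hodd x).add (hasDerivAt_id x)).deriv
      have h2 : deriv (fun s => ph n e s + s) x = kd n e x - 1 + 1 := h1
      rw [h2]
      have := kd_pos (n := n) he he2 (le_of_lt hx)
      linarith
  have h := hm (mem_Ici.2 le_rfl) (mem_Ici.2 hs) hs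
  simp only [ph] at h
  linarith

/-- in the even case `G (-s)` is increasing -/
lemma even_mono (hGEL : T_GEL) (hn : 3 ≤ n) (he : 0 < e) (he2 : e ≤ 1 / 2) (hev : Even n) :
    StrictMonoOn (fun s => gr n e (-s)) (Ici 1) := by
  refine strictMonoOn_of_deriv_pos (convex_Ici 1) ?_ ?_
  · exact fun x _ => (even_deriv hGEL hn he he2 hev x).continuousAt.continuousWithinAt
  · intro x hx
    rw [interior_Ici] at hx
    rw [(even_deriv hGEL hn he he2 hev x).deriv]
    exact kd_pos he he2 (le_of_lt hx)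

/-- the value at `-1` -/
lemma gr_neg_one (hGEL : T_GEL) (hn : 3 ≤ n) (he : 0 < e) (he2 : e ≤ 1 / 2) :
    |gr n e (-1)| < 1 := by
  have h := (hGEL n e hn he he2).2.2.2.1 ((-1 : ℝ) : ℂ) (by simp) (by
    intro h
    have := Complex.ofReal_injective (h.trans Complex.ofReal_one.symm)
    norm_num at this)
  rwa [gr_cast, Complex.norm_real, Real.norm_eq_abs] at h

/-- real numbers of modulus less than one are in the basin -/
lemma small_mem {x : ℝ} (hx : |x| < 1) : (x : ℂ) ∈ UG n e :=
  ⟨0, by simpa using hx⟩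

/-- case `φ s > 0` -/
lemma odd_escape (hGEL : T_GEL) (hn : 3 ≤ n) (he : 0 < e) (he2 : e ≤ 1 / 2) (hodd : Odd n)
    {s : ℝ} (hs : 1 ≤ s) (hph : 0 < ph n e s) : ((-s : ℝ) : ℂ) ∉ KG n e := by
  rintro ⟨R, hR⟩
  have hit : ∀ m : ℕ, (gr n e)^[m] (-s) ≤ -(s + m * ph n e s) := by
    intro m
    induction m with
    | zero => simp
    | succ m ih =>
      rw [Function.iterate_succ_apply']
      have h0 : (0 : ℝ) ≤ m * ph n e s := by positivity
      obtain ⟨x, hx⟩ : ∃ x : ℝ, x = (gr n e)^[m] (-s) := ⟨_, rfl⟩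
      rw [← hx] at ih ⊢
      have h1 : s ≤ -x := by linarith
      have h2 : ph n e s ≤ ph n e (-x) := by
        rcases eq_or_lt_of_le h1 with h | h
        · rw [h]
        · exact (ph_mono hGEL hn he he2 hodd hs hph.le h).le
      have h3 : ph n e (-x) = -gr n e x + x := by
        unfold ph
        rw [neg_neg]
        ring
      push_cast
      linarith
  obtain ⟨m, hm⟩ := exists_nat_gt ((R - s) / ph n e s)
  rw [div_lt_iff₀ hph] at hm
  have h1 := hR m
  rw [gr_iter, Complex.norm_real, Real.norm_eq_abs] at h1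
  have h2 := neg_le_abs ((gr n e)^[m] (-s))
  have h3 := hit m
  linarith

/-- case `φ s < 0` -/
lemma odd_basin (hGEL : T_GEL) (hGBA : T_GBA) (hn : 3 ≤ n) (he : 0 < e) (he2 : e ≤ 1 / 2)
    (hodd : Odd n) {s₀ : ℝ} (hs₀ : 1 ≤ s₀) (hph : ph n e s₀ < 0) :
    ((-s₀ : ℝ) : ℂ) ∈ UG n e := by
  have hinv := (hGBA n e hn he he2).2.2.2.1
  have h1 := gr_neg_one hGEL hn he he2
  rw [abs_lt] at h1
  have hneg : ∀ s ∈ Icc (1 : ℝ) s₀, ph n e s < 0 := by
    intro s hs
    by_contra hcon
    push Not at hcon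
    rcases eq_or_lt_of_le hs.2 with h | h
    · rw [h] at hcon
      linarith
    · have := ph_mono hGEL hn he he2 hodd hs.1 hcon h
      linarith
  have hcont : ContinuousOn (ph n e) (Icc 1 s₀) := fun x _ =>
    (odd_deriv hGEL hn he he2 hodd x).continuousAt.continuousWithinAt
  obtain ⟨z, hz, hmax⟩ := isCompact_Icc.exists_isMaxOn ⟨1, left_mem_Icc.2 hs₀⟩ hcont
  obtain ⟨c, hc⟩ : ∃ c : ℝ, c = -ph n e z := ⟨_, rfl⟩
  have hc0 : 0 < c := by
    have := hneg z hz
    linarith
  have hle : ∀ s ∈ Icc (1 : ℝ) s₀, ph n e s ≤ -c := by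
    intro s hs
    rw [hc, neg_neg]
    exact hmax hs
  have key : ∀ N : ℕ, ∀ s ∈ Icc (1 : ℝ) s₀, s ≤ 1 + N * c → ((-s : ℝ) : ℂ) ∈ UG n e := by
    intro N
    induction N with
    | zero =>
      intro s hs hsN
      rw [← hinv, gr_cast]
      apply small_mem
      have h2 := odd_mono hGEL hn he he2 hodd hs.1
      have h3 := hle s hs
      unfold ph at h3
      push_cast at hsN
      rw [abs_lt]
      constructor <;> linarith
    | succ N ih =>
      intro s hs hsN
      rw [← hinv, gr_cast]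
      have h2 := odd_mono hGEL hn he he2 hodd hs.1
      have h3 := hle s hs
      unfold ph at h3
      push_cast at hsN
      rcases lt_or_ge (-1) (gr n e (-s)) with h | h
      · apply small_mem
        rw [abs_lt]
        constructor <;> linarith
      · have h4 := ih (-gr n e (-s)) ⟨by linarith, by linarith [hs.2]⟩ (by linarith)
        rwa [neg_neg] at h4
  obtain ⟨N, hN⟩ := exists_nat_gt ((s₀ - 1) / c)
  rw [div_lt_iff₀ hc0] at hN
  exact key N s₀ ⟨hs₀, le_rfl⟩ (by linarith)

end main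

end GRE_

open GRE_ in
theorem p_GRE (hGEL : T_GEL) (hGBA : T_GBA) : T_GRE := by
  intro n e hn he he2 y hyK hyU
  have hinv := (hGBA n e hn he he2).2.2.2.1
  have hinvK := (hGBA n e hn he he2).2.2.2.2.2.2.2.2.2.2.1
  have h1 := gr_neg_one hGEL hn he he2
  rw [abs_lt] at h1
  have habs : 1 ≤ |y| := by
    by_contra hcon
    exact hyU (small_mem (not_le.1 hcon))
  refine ⟨habs, ?_⟩
  rcases le_or_gt 0 y with hy0 | hy0
  · -- positive points
    rw [abs_of_nonneg hy0] at habs
    have hy1 : y = 1 := by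
      rcases eq_or_lt_of_le habs with h | h
      · exact h.symm
      · exact absurd hyK (escape hn he h)
    rw [hy1]
    refine ⟨Or.inl (by simp), ?_⟩
    have h2 : (1 : ℂ) ∈ closure (ball (0 : ℂ) 1) := by
      rw [closure_ball (0 : ℂ) one_ne_zero]
      simp
    have h3 := closure_mono (hGBA n e hn he he2).2.2.1 h2
    simpa using h3
  · rw [abs_of_neg hy0] at habs
    obtain ⟨s, hs⟩ : ∃ s : ℝ, s = -y := ⟨_, rfl⟩
    have hys : y = -s := by rw [hs]; ring
    rw [← hs] at habs
    rcases Nat.even_or_odd n with hev | hodd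
    · -- even case
      have hmono := even_mono hGEL hn he he2 hev
      have hle : gr n e (-1) ≤ gr n e (-s) :=
        hmono.monotoneOn (mem_Ici.2 le_rfl) (mem_Ici.2 habs) habs
      have hGK : ((gr n e (-s) : ℝ) : ℂ) ∈ KG n e := by
        rw [← gr_cast, hinvK, ← hys]
        exact hyK
      have hGU : ((gr n e (-s) : ℝ) : ℂ) ∉ UG n e := by
        rw [← gr_cast, hinv, ← hys]
        exact hyU
      have hG1 : gr n e (-s) = 1 := by
        have h2 : 1 ≤ gr n e (-s) := by
          by_contra hcon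
          push Not at hcon
          exact hGU (small_mem (abs_lt.2 ⟨by linarith, hcon⟩))
        rcases eq_or_lt_of_le h2 with h | h
        · exact h.symm
        · exact absurd hGK (escape hn he h)
      refine ⟨Or.inr (Or.inl ?_), ?_⟩
      · rw [gr_cast, hys, hG1]
        simp
      · have hs1 : 1 < s := by
          rcases eq_or_lt_of_le habs with h | h
          · rw [← h] at hG1
            linarith
          · exact h
        have hcl : y ∈ closure (Ioo y (-1)) := by
          rw [closure_Ioo (by rw [hys]; intro h; linarith)]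
          exact ⟨le_rfl, by linarith⟩
        refine map_mem_closure Complex.continuous_ofReal hcl ?_
        rintro t ⟨ht1, ht2⟩
        have ht : t = -(-t) := by ring
        rw [← hinv, gr_cast]
        apply small_mem
        rw [ht]
        have h2 : gr n e (-1) ≤ gr n e (- -t) :=
          hmono.monotoneOn (mem_Ici.2 le_rfl) (mem_Ici.2 (by linarith)) (by linarith)
        have h3 : gr n e (- -t) < gr n e (-s) :=
          hmono (mem_Ici.2 (by linarith)) (mem_Ici.2 habs) (by linarith)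
        rw [abs_lt]
        constructor <;> linarith
    · -- odd case
      have hph : ph n e s = 0 := by
        rcases lt_trichotomy (ph n e s) 0 with h | h | h
        · have := odd_basin hGEL hGBA hn he he2 hodd habs h
          rw [← hys] at this
          exact absurd this hyU
        · exact h
        · have := odd_escape hGEL hn he he2 hodd habs h
          rw [← hys] at this
          exact absurd hyK this
      have hfix : gr n e y = y := by
        unfold ph at hph
        rw [← hys] at hph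
        linarith
      have hk := kd_gt hn he hodd habs hph.ge
      refine ⟨Or.inr (Or.inr ⟨?_, ?_⟩), ?_⟩
      · rw [gr_cast, hfix]
      · rw [((hGEL n e hn he he2).2.1 (y : ℂ)).deriv]
        have e1 : ((y : ℂ) ^ (n - 2) * ((y : ℂ) + (e : ℂ)) / (1 + (e : ℂ))) =
            ((y ^ (n - 2) * (y + e) / (1 + e) : ℝ) : ℂ) := by push_cast; ring
        rw [e1, Complex.norm_real, Real.norm_eq_abs]
        have h2 : Odd (n - 2) := by
          obtain ⟨m, hm⟩ := hodd
          exact ⟨m - 1, by omega⟩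
        have e2 : y ^ (n - 2) * (y + e) / (1 + e) = kd n e s := by
          unfold kd
          rw [hys, h2.neg_pow]
          ring
        rw [e2]
        exact hk.trans_le (le_abs_self _)
      · have hs1 : 1 < s := by
          rcases eq_or_lt_of_le habs with h | h
          · rw [← h] at hph
            unfold ph at hph
            linarith
          · exact h
        have hcl : y ∈ closure (Ioo y (-1)) := by
          rw [closure_Ioo (by rw [hys]; intro h; linarith)]
          exact ⟨le_rfl, by linarith⟩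
        refine map_mem_closure Complex.continuous_ofReal hcl ?_
        rintro t ⟨ht1, ht2⟩
        have ht : t = -(-t) := by ring
        rw [ht]
        refine odd_basin hGEL hGBA hn he he2 hodd (by linarith) ?_
        by_contra hcon
        push Not at hcon
        have := ph_mono hGEL hn he he2 hodd (by linarith) hcon (by linarith : -t < s)
        linarith

end Pool.Agent.MAT
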