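import Pool.Agent.MAT.T

/-! # MAT: proof of the target GRM (real orbits move slowly) -/

set_option autoImplicit false

open Polynomial Metric Set Filter Topology

noncomputable section

namespace Pool.Agent.MAT

namespace GRM_

/-- the real quotient -/
def q (n : ℕ) (e v : ℝ) : ℝ :=
  ((∑ i ∈ Finset.range n, v ^ i) / n + e * ((∑ i ∈ Finset.range (n - 1), v ^ i) /
    ((n : ℝ) - 1))) / (1 + e)

/-- the real map -/
def g (n : ℕ) (e v : ℝ) : ℝ :=
  1 + ((v ^ n - 1) / n + e * (v ^ (n - 1) - 1) / ((n : ℝ) - 1)) / (1 + e)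

theorem GG_ofReal (n : ℕ) (e v : ℝ) : GG n e (v : ℂ) = ((g n e v : ℝ) : ℂ) := by
  unfold GG g
  push_cast
  rfl

theorem one_sub_g (n : ℕ) (e v : ℝ) : 1 - g n e v = (1 - v) * q n e v := by
  unfold g q
  have h1 : v ^ n - 1 = (∑ i ∈ Finset.range n, v ^ i) * (v - 1) := (geom_sum_mul v n).symm
  have h2 : v ^ (n - 1) - 1 = (∑ i ∈ Finset.range (n - 1), v ^ i) * (v - 1) :=
    (geom_sum_mul v (n - 1)).symm
  rw [h1, h2]
  ring

theorem sum_le {v : ℝ} (h0 : 0 ≤ v) (h1 : v ≤ 1) (m : ℕ) :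
    ∑ i ∈ Finset.range m, v ^ i ≤ m := by
  calc ∑ i ∈ Finset.range m, v ^ i ≤ ∑ i ∈ Finset.range m, (1 : ℝ) :=
        Finset.sum_le_sum fun i _ => pow_le_one₀ h0 h1
    _ = m := by simp

theorem sum_pos {v : ℝ} (h0 : 0 ≤ v) {m : ℕ} (hm : 1 ≤ m) :
    0 < ∑ i ∈ Finset.range m, v ^ i := by
  have h : v ^ 0 ≤ ∑ i ∈ Finset.range m, v ^ i :=
    Finset.single_le_sum (f := fun i => v ^ i) (fun i _ => by positivity)
      (Finset.mem_range.2 (by omega))
  simp only [pow_zero] at h
  linarith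

theorem sum_lt {v : ℝ} (h0 : 0 ≤ v) (h1 : v < 1) {m : ℕ} (hm : 2 ≤ m) :
    ∑ i ∈ Finset.range m, v ^ i < m := by
  calc ∑ i ∈ Finset.range m, v ^ i < ∑ i ∈ Finset.range m, (1 : ℝ) :=
        Finset.sum_lt_sum (fun i _ => pow_le_one₀ h0 h1.le)
          ⟨1, Finset.mem_range.2 (by omega), by simpa using h1⟩
    _ = m := by simp

theorem q_pos {n : ℕ} {e v : ℝ} (hn : 3 ≤ n) (he : 0 < e) (h0 : 0 ≤ v) : 0 < q n e v := by
  unfold q
  have hn' : (3 : ℝ) ≤ n := by exact_mod_cast hn
  have h1 := sum_pos h0 (m := n) (by omega)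
  have h2 := sum_pos h0 (m := n - 1) (by omega)
  have h3 : (0 : ℝ) < (n : ℝ) - 1 := by linarith
  positivity

theorem q_le {n : ℕ} {e v : ℝ} (hn : 3 ≤ n) (he : 0 < e) (h0 : 0 ≤ v) (h1 : v ≤ 1) :
    q n e v ≤ 1 := by
  unfold q
  have hn' : (3 : ℝ) ≤ n := by exact_mod_cast hn
  have h2 := sum_le h0 h1 n
  have h3 := sum_le h0 h1 (n - 1)
  have h4 : ((n - 1 : ℕ) : ℝ) = (n : ℝ) - 1 := by
    rw [Nat.cast_sub (by omega)]
    simp
  rw [h4] at h3
  have h5 : (∑ i ∈ Finset.range n, v ^ i) / n ≤ 1 := by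
    rw [div_le_one (by linarith)]
    exact h2
  have h6 : (∑ i ∈ Finset.range (n - 1), v ^ i) / ((n : ℝ) - 1) ≤ 1 := by
    rw [div_le_one (by linarith)]
    exact h3
  rw [div_le_one (by linarith)]
  nlinarith

theorem q_lt {n : ℕ} {e v : ℝ} (hn : 3 ≤ n) (he : 0 < e) (h0 : 0 ≤ v) (h1 : v < 1) :
    q n e v < 1 := by
  unfold q
  have hn' : (3 : ℝ) ≤ n := by exact_mod_cast hn
  have h2 := sum_lt h0 h1 (m := n) (by omega)
  have h3 := sum_le h0 h1.le (n - 1)
  have h4 : ((n - 1 : ℕ) : ℝ) = (n : ℝ) - 1 := by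
    rw [Nat.cast_sub (by omega)]
    simp
  rw [h4] at h3
  have h5 : (∑ i ∈ Finset.range n, v ^ i) / n < 1 := by
    rw [div_lt_one (by linarith)]
    exact h2
  have h6 : (∑ i ∈ Finset.range (n - 1), v ^ i) / ((n : ℝ) - 1) ≤ 1 := by
    rw [div_le_one (by linarith)]
    exact h3
  rw [div_lt_one (by linarith)]
  nlinarith

theorem g_mem {n : ℕ} {e v : ℝ} (hn : 3 ≤ n) (he : 0 < e) (h0 : 0 ≤ v) (h1 : v < 1) :
    0 ≤ g n e v ∧ g n e v < 1 := by
  have h2 := one_sub_g n e v
  have h3 := q_pos hn he h0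
  have h4 := q_le hn he h0 h1.le
  have h5 : 0 < (1 - v) * q n e v := mul_pos (by linarith) h3
  have h6 : (1 - v) * q n e v ≤ 1 := by nlinarith
  constructor <;> linarith

theorem continuous_g (n : ℕ) (e : ℝ) : Continuous (g n e) := by
  unfold g
  fun_prop

theorem continuous_q (n : ℕ) (e : ℝ) : Continuous (q n e) := by
  unfold q
  fun_prop

end GRM_

open GRM_ in
theorem p_GRM : T_GRM := by
  intro n e hn he he' v hv0 hv1
  refine ⟨fun m => (g n e)^[m] v, ?_, ?_, ?_⟩
  · intro m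
    induction m with
    | zero => simp
    | succ m ih =>
      simp only [Function.iterate_succ_apply', ih, GG_ofReal]
  · intro m
    induction m with
    | zero => exact ⟨hv0, hv1⟩
    | succ m ih =>
      simp only [Function.iterate_succ_apply']
      exact g_mem hn he ih.1 ih.2
  · have hmem : ∀ m : ℕ, 0 ≤ (g n e)^[m] v ∧ (g n e)^[m] v < 1 := by
      intro m
      induction m with
      | zero => exact ⟨hv0, hv1⟩
      | succ m ih =>
        simp only [Function.iterate_succ_apply']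
        exact g_mem hn he ih.1 ih.2
    have hmono : Monotone (fun m => (g n e)^[m] v) := by
      refine monotone_nat_of_le_succ ?_
      intro m
      simp only [Function.iterate_succ_apply']
      have h1 := one_sub_g n e ((g n e)^[m] v)
      have h2 := q_le hn he (hmem m).1 (hmem m).2.le
      nlinarith [(hmem m).2]
    have hbdd : BddAbove (range fun m => (g n e)^[m] v) :=
      ⟨1, by rintro _ ⟨m, rfl⟩; exact (hmem m).2.le⟩
    obtain ⟨L, hL⟩ : ∃ L : ℝ, Tendsto (fun m => (g n e)^[m] v) atTop (𝓝 L) :=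
      ⟨_, tendsto_atTop_ciSup hmono hbdd⟩
    have hL0 : 0 ≤ L := ge_of_tendsto' hL fun m => (hmem m).1
    have hL1 : L ≤ 1 := le_of_tendsto' hL fun m => (hmem m).2.le
    have hfix : g n e L = L := by
      have h1 : Tendsto (fun m => (g n e)^[m + 1] v) atTop (𝓝 L) :=
        hL.comp (tendsto_add_atTop_nat 1)
      have h2 : Tendsto (fun m => (g n e)^[m + 1] v) atTop (𝓝 (g n e L)) := by
        simp only [Function.iterate_succ_apply']
        exact ((continuous_g n e).tendsto L).comp hL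
      exact tendsto_nhds_unique h2 h1
    have hL' : L = 1 := by
      by_contra hne
      have hlt : L < 1 := lt_of_le_of_ne hL1 hne
      have h1 := one_sub_g n e L
      have h2 := q_lt hn he hL0 hlt
      rw [hfix] at h1
      nlinarith
    subst hL'
    have hq1 : q n e 1 = 1 := by
      unfold q
      have hn' : (3 : ℝ) ≤ n := by exact_mod_cast hn
      have h4 : ((n - 1 : ℕ) : ℝ) = (n : ℝ) - 1 := by
        rw [Nat.cast_sub (by omega)]
        simp
      simp only [one_pow, Finset.sum_const, Finset.card_range, nsmul_eq_mul, mul_one, h4]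
      have h5 : (n : ℝ) ≠ 0 := by linarith
      have h6 : (n : ℝ) - 1 ≠ 0 := by linarith
      have h7 : 1 + e ≠ 0 := by linarith
      rw [div_self h5, div_self h6, mul_one, div_self h7]
    have hq : Tendsto (fun m => q n e ((g n e)^[m] v)) atTop (𝓝 1) := by
      have h := ((continuous_q n e).tendsto 1).comp hL
      rw [hq1] at h
      exact h
    have hlim : Tendsto (fun m => (1 - q n e ((g n e)^[m] v)) / q n e ((g n e)^[m] v)) atTop
        (𝓝 0) := by
      have h := (hq.const_sub 1).div hq one_ne_zero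
      rw [sub_self, zero_div] at h
      exact h
    refine hlim.congr ?_
    intro m
    have h1 := one_sub_g n e ((g n e)^[m] v)
    have h2 := q_pos hn he (hmem m).1
    have h3 : 0 < 1 - (g n e)^[m] v := by linarith [(hmem m).2]
    simp only [Function.iterate_succ_apply']
    have h4 : g n e ((g n e)^[m] v) - (g n e)^[m] v =
        (1 - (g n e)^[m] v) * (1 - q n e ((g n e)^[m] v)) := by
      linear_combination -h1
    rw [h4, h1, mul_div_mul_left _ _ h3.ne']

end Pool.Agent.MAT
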