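import Pool.Agent.MAT.TA
import Pool.Agent.PLim.KOEB

/-!
# MAT, GROW: growth of nonvanishing univalent functions
-/

set_option autoImplicit false

open Polynomial Metric Set Filter Topology

noncomputable section

namespace Pool.Agent.MAT

namespace GROW_

/-- Koebe's inequality inside the unit ball -/
lemma koebe {g : ℂ → ℂ} (hd : DifferentiableOn ℂ g (ball 0 1)) (hi : InjOn g (ball 0 1))
    (h0 : ∀ z ∈ ball (0 : ℂ) 1, g z ≠ 0) {a : ℂ} (ha : ‖a‖ < 1) :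
    ‖deriv g a‖ * (1 - ‖a‖) ≤ 64 * ‖g a‖ := by
  have hsub : ball a (1 - ‖a‖) ⊆ ball (0 : ℂ) 1 := by
    intro x hx
    rw [mem_ball_iff_norm] at hx
    rw [mem_ball_zero_iff]
    have h := norm_add_le (x - a) a
    rw [sub_add_cancel] at h
    linarith
  exact Pool.Agent.PLim.p_KOEB a (1 - ‖a‖) g (by linarith) (hd.mono hsub) (hi.mono hsub)
    fun x hx => h0 x (hsub hx)

end GROW_

open GROW_ in
theorem p_GROW : T_GROW := by
  intro g hd hi h0 z hz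
  have hz1 : ‖z‖ < 1 := mem_ball_zero_iff.1 hz
  have hz0 : 0 ≤ ‖z‖ := norm_nonneg z
  have hnorm : ∀ t ∈ Icc (0 : ℝ) 1, ‖(t : ℂ) * z‖ = t * ‖z‖ := by
    intro t ht
    rw [norm_mul, Complex.norm_real, Real.norm_eq_abs, abs_of_nonneg ht.1]
  have hs : ∀ t ∈ Icc (0 : ℝ) 1, 0 < 1 - t * ‖z‖ := by
    intro t ht
    have : t * ‖z‖ ≤ 1 * ‖z‖ := mul_le_mul_of_nonneg_right ht.2 hz0
    linarith
  set u : ℝ → ℝ := fun t => ‖g ((t : ℂ) * z)‖ ^ 2 * (1 - t * ‖z‖) ^ 128 with hu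
  have hder : ∀ t ∈ Icc (0 : ℝ) 1, HasDerivAt u
      (2 * inner ℝ (g ((t : ℂ) * z)) (deriv g ((t : ℂ) * z) * z) * (1 - t * ‖z‖) ^ 128 +
        ‖g ((t : ℂ) * z)‖ ^ 2 * (128 * (1 - t * ‖z‖) ^ 127 * (-‖z‖))) t := by
    intro t ht
    have hb : (t : ℂ) * z ∈ ball (0 : ℂ) 1 := by
      rw [mem_ball_zero_iff, hnorm t ht]
      have := hs t ht
      linarith
    have h1 : HasDerivAt g (deriv g ((t : ℂ) * z)) ((t : ℂ) * z) :=
      (hd.differentiableAt (isOpen_ball.mem_nhds hb)).hasDerivAt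
    have h2 : HasDerivAt (fun w : ℂ => w * z) z (t : ℂ) := by
      simpa using (hasDerivAt_id (t : ℂ)).mul_const z
    have h3 : HasDerivAt (fun w : ℂ => g (w * z)) (deriv g ((t : ℂ) * z) * z) (t : ℂ) :=
      HasDerivAt.comp (t : ℂ) h1 h2
    have h4 : HasDerivAt (fun s : ℝ => g ((s : ℂ) * z)) (deriv g ((t : ℂ) * z) * z) t :=
      h3.comp_ofReal
    have h5 := h4.norm_sq
    have h6 : HasDerivAt (fun s : ℝ => 1 - s * ‖z‖) (-‖z‖) t := by
      simpa using ((hasDerivAt_id t).mul_const ‖z‖).const_sub 1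
    have h7 := h6.pow 128
    have h8 := h5.mul h7
    refine h8.congr_deriv ?_
    rw [Nat.cast_ofNat, Pi.pow_apply, show 128 - 1 = 127 from rfl]
  have hle : ∀ t ∈ Icc (0 : ℝ) 1,
      2 * inner ℝ (g ((t : ℂ) * z)) (deriv g ((t : ℂ) * z) * z) * (1 - t * ‖z‖) ^ 128 +
        ‖g ((t : ℂ) * z)‖ ^ 2 * (128 * (1 - t * ‖z‖) ^ 127 * (-‖z‖)) ≤ 0 := by
    intro t ht
    have hst := hs t ht
    have hk := koebe hd hi h0 (a := (t : ℂ) * z) (by rw [hnorm t ht]; linarith)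
    rw [hnorm t ht] at hk
    set G : ℝ := ‖g ((t : ℂ) * z)‖ with hG
    set D : ℝ := ‖deriv g ((t : ℂ) * z)‖ with hD
    set s : ℝ := 1 - t * ‖z‖ with hsdef
    have hG0 : 0 ≤ G := norm_nonneg _
    have hin : inner ℝ (g ((t : ℂ) * z)) (deriv g ((t : ℂ) * z) * z) ≤ G * (D * ‖z‖) := by
      have h := real_inner_le_norm (g ((t : ℂ) * z)) (deriv g ((t : ℂ) * z) * z)
      rwa [norm_mul] at h
    obtain ⟨P, hP⟩ : ∃ P : ℝ, s ^ 127 = P := ⟨_, rfl⟩
    have hP0 : 0 ≤ P := hP ▸ pow_nonneg hst.le 127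
    have hP2 : s ^ 128 = P * s := by rw [← hP]; exact pow_succ s 127
    rw [hP, hP2]
    have hPs : 0 ≤ P * s := mul_nonneg hP0 hst.le
    have e1 : 2 * inner ℝ (g ((t : ℂ) * z)) (deriv g ((t : ℂ) * z) * z) * (P * s) ≤
        2 * (G * (D * ‖z‖)) * (P * s) :=
      mul_le_mul_of_nonneg_right (mul_le_mul_of_nonneg_left hin (by norm_num)) hPs
    have e2 : 2 * G * ‖z‖ * P * (D * s) ≤ 2 * G * ‖z‖ * P * (64 * G) :=
      mul_le_mul_of_nonneg_left hk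
        (mul_nonneg (mul_nonneg (mul_nonneg (by norm_num) hG0) hz0) hP0)
    have e3 : 2 * (G * (D * ‖z‖)) * (P * s) = 2 * G * ‖z‖ * P * (D * s) := by ring
    have e4 : 2 * G * ‖z‖ * P * (64 * G) + G ^ 2 * (128 * P * (-‖z‖)) = 0 := by ring
    linarith
  have hanti : AntitoneOn u (Icc 0 1) := by
    refine antitoneOn_of_deriv_nonpos (convex_Icc 0 1) ?_ ?_ ?_
    · exact fun t ht => (hder t ht).continuousAt.continuousWithinAt
    · rw [interior_Icc]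
      exact fun t ht => (hder t (Ioo_subset_Icc_self ht)).differentiableAt.differentiableWithinAt
    · rw [interior_Icc]
      intro t ht
      rw [(hder t (Ioo_subset_Icc_self ht)).deriv]
      exact hle t (Ioo_subset_Icc_self ht)
  have h := hanti (left_mem_Icc.2 zero_le_one) (right_mem_Icc.2 zero_le_one) zero_le_one
  simp only [hu, Complex.ofReal_one, Complex.ofReal_zero, one_mul, zero_mul, sub_zero, one_pow,
    mul_one] at h
  have h2 : (‖g z‖ * (1 - ‖z‖) ^ 64) ^ 2 ≤ ‖g 0‖ ^ 2 := by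
    calc (‖g z‖ * (1 - ‖z‖) ^ 64) ^ 2 = ‖g z‖ ^ 2 * (1 - ‖z‖) ^ 128 := by
          rw [mul_pow, ← pow_mul]
      _ ≤ _ := h
  have h3 : 0 ≤ ‖g z‖ * (1 - ‖z‖) ^ 64 := by
    have : 0 ≤ 1 - ‖z‖ := by linarith
    exact mul_nonneg (norm_nonneg _) (pow_nonneg this 64)
  exact (sq_le_sq₀ h3 (norm_nonneg _)).1 h2

end Pool.Agent.MAT
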