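import Pool.Agent.MAT.T

/-!
# MAT, GRP: periodic points are repelling
-/

set_option autoImplicit false

open Polynomial Metric Set Filter Topology

noncomputable section

namespace Pool.Agent.MAT

namespace GRP_

lemma isOpen_Hs (σ : ℝ) : IsOpen (Hs σ) :=
  isOpen_lt continuous_const (continuous_const.mul Complex.continuous_im)

/-- iterates of a self map of an open set -/
lemma iter_props {U : Set ℂ} {h : ℂ → ℂ} {g : ℂ → ℂ} (hd : DifferentiableOn ℂ h U)
    (hm : ∀ z ∈ U, h z ∈ U) (N : ℕ) (hg : ∀ z ∈ U, g^[N] (h z) = z) (j : ℕ) :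
    DifferentiableOn ℂ (h^[j]) U ∧ (∀ z ∈ U, h^[j] z ∈ U) ∧
      ∀ z ∈ U, g^[N * j] (h^[j] z) = z := by
  induction j with
  | zero => exact ⟨differentiableOn_id, fun z hz => hz, fun z _ => rfl⟩
  | succ j ih =>
    obtain ⟨h1, h2, h3⟩ := ih
    refine ⟨?_, ?_, ?_⟩
    · rw [Function.iterate_succ']
      exact hd.comp h1 h2
    · intro z hz
      rw [Function.iterate_succ_apply']
      exact hm _ (h2 z hz)
    · intro z hz
      rw [Function.iterate_succ_apply', Nat.mul_succ, Function.iterate_add_apply,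
        hg _ (h2 z hz)]
      exact h3 z hz

lemma lt_one_of_pow {u : Ultrafilter ℕ} {a : ℂ}
    (h : Tendsto (fun i : ℕ => a ^ i) (u : Filter ℕ) (𝓝 0)) : ‖a‖ < 1 := by
  by_contra hn
  have hn' : 1 ≤ ‖a‖ := not_lt.mp hn
  have h1 : Tendsto (fun i : ℕ => ‖a ^ i‖) (u : Filter ℕ) (𝓝 0) := by
    have := h.norm
    rwa [norm_zero] at this
  have h2 : (1 : ℝ) ≤ 0 := by
    refine ge_of_tendsto h1 (Eventually.of_forall fun i => ?_)
    rw [norm_pow]
    exact one_le_pow₀ hn'
  linarith

end GRP_

open GRP_ in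
/-- GRP -/
theorem p_GRP (hGEL : T_GEL) (hGRE : T_GRE) (hGBR : T_GBR) (hGSH : T_GSH) : T_GRP := by
  intro n e hn he he2 y N hK hU hy1 hN hper
  obtain ⟨hG1, hGd, -⟩ := hGEL n e hn he he2
  by_cases hy : y.im = 0
  · -- real periodic points are fixed
    have hyr : ((y.re : ℝ) : ℂ) = y := by
      apply Complex.ext
      · simp
      · simp [hy]
    obtain ⟨-, h2, -⟩ := hGRE n e hn he he2 y.re (by rwa [hyr]) (by rwa [hyr])
    rw [hyr] at h2
    rcases h2 with h2 | h2 | ⟨h2, h3⟩
    · exact absurd h2 hy1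
    · exfalso
      apply hy1
      obtain ⟨M, rfl⟩ : ∃ M, N = M + 1 := ⟨N - 1, by omega⟩
      rw [Function.iterate_succ_apply, h2] at hper
      rw [← hper]
      exact Function.iterate_fixed hG1 M
    · have h4 : HasDerivAt (GG n e) (deriv (GG n e) y) y :=
        (hGd y).differentiableAt.hasDerivAt
      have h5 := (HasDerivAt.iterate _ h4 h2 N).deriv
      rw [h5, norm_pow]
      exact one_lt_pow₀ h3 (by omega)
  · -- nonreal periodic points
    have hyH : y ∈ Hs y.im := by
      show 0 < y.im * y.im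
      exact mul_self_pos.mpr hy
    obtain ⟨h, hd, hfix, hinv, hsgn⟩ := hGBR n e hn he he2 y.im hy N y y hyH hper
    have hmaps : ∀ z ∈ Hs y.im, h z ∈ Hs y.im := by
      intro z hz
      show 0 < y.im * (h z).im
      rw [mul_comm]
      exact hsgn z hz
    have hit := iter_props hd hmaps N hinv
    have hut : Tendsto (fun i : ℕ => N * i) ((hyperfilter ℕ : Ultrafilter ℕ) : Filter ℕ)
        atTop := by
      have h1 : Tendsto (fun i : ℕ => N * i) atTop atTop :=
        tendsto_id.const_mul_atTop' (by omega)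
      refine h1.mono_left ?_
      rw [← Nat.cofinite_eq_atTop]
      exact hyperfilter_le_cofinite
    obtain ⟨c, hc⟩ := hGSH n e hn he he2 y.im (hyperfilter ℕ) (fun i => N * i)
      (fun i => h^[i]) hy hut (Eventually.of_forall fun i => ⟨(hit i).1, (hit i).2.2⟩)
    have hder := hc.deriv (Eventually.of_forall fun i => (hit i).1) (isOpen_Hs y.im)
    have hder' := hder.tendsto_at hyH
    have hh : HasDerivAt h (deriv h y) y :=
      (hd.differentiableAt ((isOpen_Hs y.im).mem_nhds hyH)).hasDerivAt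
    have hpow : Tendsto (fun i : ℕ => deriv h y ^ i)
        ((hyperfilter ℕ : Ultrafilter ℕ) : Filter ℕ) (𝓝 0) := by
      have h1 : ∀ i : ℕ, (deriv ∘ fun i => h^[i]) i y = deriv h y ^ i := fun i =>
        (HasDerivAt.iterate _ hh hfix i).deriv
      simp only [h1] at hder'
      simpa using hder'
    have hlt := lt_one_of_pow hpow
    have hGN : Differentiable ℂ ((GG n e)^[N]) :=
      Differentiable.iterate (fun v => (hGd v).differentiableAt) N
    have h1 : HasDerivAt (fun z => (GG n e)^[N] (h z)) (deriv ((GG n e)^[N]) y * deriv h y) y := by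
      have h2 : HasDerivAt ((GG n e)^[N]) (deriv ((GG n e)^[N]) y) (h y) := by
        rw [hfix]
        exact (hGN y).hasDerivAt
      exact h2.comp y hh
    have h2 : HasDerivAt (fun z : ℂ => z) (1 : ℂ) y := hasDerivAt_id y
    have h3 : (fun z => (GG n e)^[N] (h z)) =ᶠ[𝓝 y] fun z => z := by
      filter_upwards [(isOpen_Hs y.im).mem_nhds hyH] with z hz
      exact hinv z hz
    have h4 : deriv ((GG n e)^[N]) y * deriv h y = 1 :=
      h1.unique (h2.congr_of_eventuallyEq h3)
    have h5 : ‖deriv ((GG n e)^[N]) y‖ * ‖deriv h y‖ = 1 := by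
      rw [← norm_mul, h4, norm_one]
    by_contra hn1
    have h6 : ‖deriv ((GG n e)^[N]) y‖ ≤ 1 := not_lt.mp hn1
    have h7 := norm_nonneg (deriv h y)
    nlinarith

end Pool.Agent.MAT
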