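import Pool.Agent.MAT.T

/-!
# MAT, GSH: inverse branches of the explicit polynomial shrink
-/

set_option autoImplicit false

open Polynomial Metric Set Filter Topology

noncomputable section

namespace Pool.Agent.MAT

namespace GSH_

lemma esc {G : ℂ → ℂ} {R : ℝ} (hR : ∀ v : ℂ, R ≤ ‖v‖ → 2 * ‖v‖ ≤ ‖G v‖) {v : ℂ}
    (hv : R ≤ ‖v‖) (j : ℕ) : (2 : ℝ) ^ j * ‖v‖ ≤ ‖G^[j] v‖ := by
  induction j with
  | zero => simp
  | succ j ih =>
    rw [Function.iterate_succ_apply']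
    have h1 : ‖v‖ ≤ (2 : ℝ) ^ j * ‖v‖ :=
      le_mul_of_one_le_left (norm_nonneg _) (one_le_pow₀ (by norm_num))
    have h2 := hR (G^[j] v) (hv.trans (h1.trans ih))
    calc (2 : ℝ) ^ (j + 1) * ‖v‖ = 2 * ((2 : ℝ) ^ j * ‖v‖) := by ring
      _ ≤ 2 * ‖G^[j] v‖ := by linarith
      _ ≤ _ := h2

lemma Hs_open (σ : ℝ) : IsOpen (Hs σ) := by
  unfold Hs
  exact isOpen_lt continuous_const (continuous_const.mul Complex.continuous_im)

lemma Hs_convex (σ : ℝ) : Convex ℝ (Hs σ) := by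
  intro x hx y hy a b ha hb hab
  simp only [Hs, mem_ofPred_eq] at hx hy ⊢
  have : σ * (a • x + b • y).im = a * (σ * x.im) + b * (σ * y.im) := by
    simp only [Complex.add_im, Complex.real_smul, Complex.mul_im, Complex.ofReal_re,
      Complex.ofReal_im]
    ring
  rw [this]
  rcases ha.eq_or_lt with rfl | ha'
  · have hb1 : b = 1 := by linarith
    rw [hb1]
    linarith
  · have h1 := mul_pos ha' hx
    have h2 := mul_nonneg hb hy.le
    linarith

end GSH_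

theorem p_GSH (hGEL : T_GEL) (hUL : T_UL) (hHUR : T_HUR) : T_GSH := by
  intro n e hn he he2 σ u m h hσ hm hh
  obtain ⟨-, -, -, -, -, -, -, -, ⟨R, hR2, hR⟩, -⟩ := hGEL n e hn he he2
  set G : ℂ → ℂ := GG n e with hG
  have hop := GSH_.Hs_open σ
  -- the bound
  have hbd : ∀ᶠ i in (u : Filter ℕ), ∀ z ∈ Hs σ, ‖h i z‖ ≤ max R ‖z‖ := by
    filter_upwards [hh] with i hi z hz
    by_contra hcon
    push Not at hcon
    have h1 : R ≤ ‖h i z‖ := ((le_max_left _ _).trans_lt hcon).le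
    have h2 := GSH_.esc hR h1 (m i)
    rw [hi.2 z hz] at h2
    have h3 : ‖h i z‖ ≤ (2 : ℝ) ^ (m i) * ‖h i z‖ :=
      le_mul_of_one_le_left (norm_nonneg _) (one_le_pow₀ (by norm_num))
    have h4 := (le_max_right R ‖z‖).trans_lt hcon
    linarith
  obtain ⟨H, hH, hlim⟩ := hUL u (Hs σ) h hop (by
    intro x hx
    obtain ⟨r, hr, hrs⟩ := Metric.isOpen_iff.1 hop x hx
    refine ⟨r, max R (‖x‖ + r), hr, hrs, ?_⟩
    filter_upwards [hh, hbd] with i hi hb
    refine ⟨hi.1.mono hrs, fun y hy => (hb y (hrs hy)).trans ?_⟩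
    have h1 : ‖y‖ ≤ ‖x‖ + r := by
      have h2 : ‖y - x‖ < r := by rwa [mem_ball, dist_eq_norm] at hy
      have h3 : ‖y‖ ≤ ‖x‖ + ‖y - x‖ := by
        calc ‖y‖ = ‖x + (y - x)‖ := by rw [add_sub_cancel]
          _ ≤ _ := norm_add_le _ _
      linarith
    exact max_le_max le_rfl h1)
  by_cases hc : ∃ c, ∀ z ∈ Hs σ, H z = c
  · obtain ⟨c, hc⟩ := hc
    exact ⟨c, hlim.congr_right hc⟩
  exfalso
  have han : AnalyticOnNhd ℂ H (Hs σ) := hH.analyticOnNhd hop
  have hpre : IsPreconnected (Hs σ) := (GSH_.Hs_convex σ).isPreconnected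
  have hopen : ∀ s ⊆ Hs σ, IsOpen s → IsOpen (H '' s) := by
    rcases han.is_constant_or_isOpen hpre with h1 | h1
    · exact absurd h1 hc
    · exact h1
  -- a point of large norm
  have hσ' : 0 < |σ| := abs_pos.2 hσ
  set z1 : ℂ := ⟨0, R / |σ| * σ⟩ with hz1
  have hR0 : 0 < R := by linarith
  have hz1m : z1 ∈ Hs σ := by
    simp only [Hs, mem_ofPred_eq, hz1]
    have : σ * (R / |σ| * σ) = R * (|σ| ^ 2 / |σ|) := by
      rw [sq_abs]
      field_simp
    rw [this]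
    positivity
  have hz1n : ‖z1‖ = R := by
    have h1 : z1 = ((R / |σ| * σ : ℝ) : ℂ) * Complex.I := by
      apply Complex.ext <;> simp [hz1]
    rw [h1, norm_mul, Complex.norm_I, mul_one, Complex.norm_real, Real.norm_eq_abs, abs_mul,
      abs_div, abs_abs, abs_of_pos hR0]
    field_simp
  have hs : ball z1 1 ∩ Hs σ ⊆ Hs σ := inter_subset_right
  have hso : IsOpen (ball z1 1 ∩ Hs σ) := isOpen_ball.inter hop
  have himg := hopen _ hs hso
  have hmem : H z1 ∈ H '' (ball z1 1 ∩ Hs σ) := ⟨z1, ⟨mem_ball_self one_pos, hz1m⟩, rfl⟩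
  have hpt : Tendsto (fun i => h i z1) (u : Filter ℕ) (𝓝 (H z1)) := hlim.tendsto_at hz1m
  have hev : ∀ᶠ i in (u : Filter ℕ), h i z1 ∈ H '' (ball z1 1 ∩ Hs σ) :=
    hpt.eventually_mem (himg.mem_nhds hmem)
  obtain ⟨j, ⟨z', ⟨hz'b, hz'⟩, hz'w⟩, hj⟩ := (hev.and hh).exists
  set w : ℂ := h j z1 with hw
  have hw1 : G^[m j] w = z1 := hj.2 z1 hz1m
  obtain ⟨r, hr, hrs⟩ := Metric.isOpen_iff.1 hop z' hz'
  have hne : ¬ ∀ᶠ z in 𝓝 z', H z - w = 0 := by
    intro hev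
    apply hc
    refine ⟨w, ?_⟩
    have h1 : H =ᶠ[𝓝 z'] fun _ => w := by
      filter_upwards [hev] with z hz using sub_eq_zero.1 hz
    exact han.eqOn_of_preconnected_of_eventuallyEq
      (analyticOnNhd_const) hpre hz' h1
  have hball : ∀ᶠ i in (u : Filter ℕ), ∃ z ∈ ball z' (min r 1), h i z - w = 0 := by
    refine hHUR (u : Filter ℕ) (fun i z => h i z - w) (fun z => H z - w) z' r hr
      ((hH.mono hrs).sub_const w) ?_ ?_ (by rw [hz'w, sub_self]) hne (min r 1)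
      (lt_min hr one_pos)
    · filter_upwards [hh] with i hi
      exact (hi.1.mono hrs).sub_const w
    · have h1 := hlim.mono hrs
      rw [Metric.tendstoLocallyUniformlyOn_iff] at h1 ⊢
      intro ε hε x hx
      obtain ⟨t, ht, h2⟩ := h1 ε hε x hx
      refine ⟨t, ht, ?_⟩
      filter_upwards [h2] with i hi y hy
      rw [dist_sub_right]
      exact hi y hy
  have hbig : ∀ᶠ i in (u : Filter ℕ), m j + 2 ≤ m i := hm.eventually_ge_atTop _
  obtain ⟨i, ⟨z'', hz'', hzw⟩, hi2, hi⟩ := (hball.and (hbig.and hh)).exists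
  have hz''s : z'' ∈ Hs σ := hrs (ball_subset_ball (min_le_left _ _) hz'')
  have e1 : h i z'' = w := sub_eq_zero.1 hzw
  have e2 : G^[m i] w = z'' := by
    rw [← e1]
    exact hi.2 z'' hz''s
  obtain ⟨t, ht⟩ := Nat.exists_eq_add_of_le hi2
  have e3 : G^[m i] w = G^[t + 2] z1 := by
    rw [ht, ← hw1, ← Function.iterate_add_apply]
    congr 1
    omega
  have e4 := GSH_.esc hR (le_of_eq hz1n.symm) (t + 2)
  rw [← e3, e2, hz1n] at e4
  have e5 : (4 : ℝ) ≤ 2 ^ (t + 2) := by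
    have : (1 : ℝ) ≤ 2 ^ t := one_le_pow₀ (by norm_num)
    rw [pow_add]
    linarith
  have e6 : ‖z''‖ < R + 2 := by
    have h1 : ‖z'' - z'‖ < 1 := by
      have := ball_subset_ball (min_le_right r 1) hz''
      rwa [mem_ball, dist_eq_norm] at this
    have h2 : ‖z' - z1‖ < 1 := by rwa [mem_ball, dist_eq_norm] at hz'b
    calc ‖z''‖ = ‖(z'' - z') + (z' - z1) + z1‖ := by ring_nf
      _ ≤ ‖(z'' - z') + (z' - z1)‖ + ‖z1‖ := norm_add_le _ _
      _ ≤ ‖z'' - z'‖ + ‖z' - z1‖ + ‖z1‖ := by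
        have := norm_add_le (z'' - z') (z' - z1)
        linarith
      _ < R + 2 := by rw [hz1n]; linarith
  nlinarith

end Pool.Agent.MAT
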