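import Pool.Agent.MAT.T

/-!
# MAT: the inverse branch at the parabolic point (GTA)
-/

set_option autoImplicit false

open Polynomial Metric Set Filter Topology

noncomputable section

namespace Pool.Agent.MAT

namespace GTA_

lemma isOpen_Hs : IsOpen (Hs 1) := by
  unfold Hs
  exact isOpen_lt continuous_const (continuous_const.mul Complex.continuous_im)

lemma mem_Hs {z : ℂ} : z ∈ Hs 1 ↔ 0 < z.im := by
  unfold Hs
  simp

lemma convex_Hs : Convex ℝ (Hs 1) := by
  have : Hs 1 = {z : ℂ | 0 < z.im} := by ext z; exact mem_Hs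
  rw [this]
  exact convex_halfSpace_im_gt 0

/-- a disk around `1` on which `G` is close to the identity -/
lemma exists_disk (n : ℕ) (e : ℝ) (he : 0 < e)
    (hd : ∀ v : ℂ, HasDerivAt (GG n e) (v ^ (n - 2) * (v + e) / (1 + e)) v) :
    ∃ r : ℝ, 0 < r ∧ ∀ v ∈ closedBall (1 : ℂ) r, ∀ v' ∈ closedBall (1 : ℂ) r,
      ‖(GG n e v - v) - (GG n e v' - v')‖ ≤ 1 / 2 * ‖v - v'‖ := by
  have he' : (1 + (e : ℂ)) ≠ 0 := by
    intro h
    have := congrArg Complex.re h
    simp at this
    linarith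
  have hc : Continuous fun v : ℂ => v ^ (n - 2) * (v + e) / (1 + e) - 1 := by fun_prop
  have h0 : ((1 : ℂ) ^ (n - 2) * (1 + e) / (1 + e) - 1) = 0 := by
    rw [one_pow, one_mul, div_self he', sub_self]
  have hev : ∀ᶠ v : ℂ in 𝓝 1, ‖v ^ (n - 2) * (v + e) / (1 + e) - 1‖ < 1 / 2 := by
    have := hc.norm.tendsto (1 : ℂ)
    simp only [h0, norm_zero] at this
    exact this.eventually (gt_mem_nhds (by norm_num))
  obtain ⟨r, hr, hb⟩ := Metric.eventually_nhds_iff_ball.1 hev
  refine ⟨r / 2, by positivity, fun v hv v' hv' => ?_⟩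
  have hder : ∀ x ∈ closedBall (1 : ℂ) (r / 2), HasDerivWithinAt (fun v => GG n e v - v)
      (x ^ (n - 2) * (x + e) / (1 + e) - 1) (closedBall (1 : ℂ) (r / 2)) x := fun x _ =>
    ((hd x).sub (hasDerivAt_id x)).hasDerivWithinAt
  have hbd : ∀ x ∈ closedBall (1 : ℂ) (r / 2),
      ‖x ^ (n - 2) * (x + e) / (1 + e) - 1‖ ≤ 1 / 2 := fun x hx =>
    (hb x (closedBall_subset_ball (by linarith) hx)).le
  exact (convex_closedBall (1 : ℂ) (r / 2)).norm_image_sub_le_of_norm_hasDerivWithin_le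
    hder hbd hv' hv

end GTA_

open GTA_ in
theorem p_GTA (hGEL : T_GEL) (hGBR : T_GBR) (hGSH : T_GSH) (hGEN : T_GEN) : T_GTA := by
  intro n e hn he he2 K
  obtain ⟨hG1, hGd, -, -, -, hi3, hA, -⟩ := hGEL n e hn he he2
  have hA0 : ((cA n e : ℝ) : ℂ) ≠ 0 := by exact_mod_cast hA.ne'
  have hβ : K.β.im = 0 := by
    have h := K.hβ
    have h2 : (6 * ((cA n e : ℝ) : ℂ) ^ 2 * (1 - K.β)).im = 0 := by rw [← h]; exact hi3
    have h3 : (6 * ((cA n e : ℝ) : ℂ) ^ 2 * (1 - K.β)).im = -(6 * (cA n e) ^ 2 * K.β.im) := by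
      have : (6 * ((cA n e : ℝ) : ℂ) ^ 2 * (1 - K.β)) =
          ((6 * (cA n e) ^ 2 : ℝ) : ℂ) * (1 - K.β) := by
        push_cast; ring
      rw [this, Complex.im_ofReal_mul]
      simp
    rw [h3] at h2
    have h4 : 0 < 6 * (cA n e) ^ 2 := by positivity
    have h5 : 6 * (cA n e) ^ 2 * K.β.im = 0 := by linarith
    exact (mul_eq_zero.1 h5).resolve_left h4.ne'
  refine ⟨hβ, ?_⟩
  obtain ⟨r, hr, hL⟩ := exists_disk n e he hGd
  have h1r : (1 : ℂ) ∈ closedBall (1 : ℂ) r := mem_closedBall_self hr.le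
  -- `G` moves points near `1` by at most half of the distance
  have hmove : ∀ v ∈ closedBall (1 : ℂ) r, ‖GG n e v - v‖ ≤ 1 / 2 * ‖v - 1‖ := by
    intro v hv
    have := hL v hv 1 h1r
    rwa [hG1, sub_self, sub_zero] at this
  have hinj : ∀ v ∈ closedBall (1 : ℂ) r, ∀ v' ∈ closedBall (1 : ℂ) r, GG n e v = GG n e v' →
      v = v' := by
    intro v hv v' hv' h
    have h1 := hL v hv v' hv'
    rw [h] at h1
    have h2 : ‖GG n e v' - v - (GG n e v' - v')‖ = ‖v - v'‖ := by
      rw [show GG n e v' - v - (GG n e v' - v') = -(v - v') by ring, norm_neg]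
    rw [h2] at h1
    have h3 : ‖v - v'‖ = 0 := by linarith [norm_nonneg (v - v')]
    exact sub_eq_zero.1 (norm_eq_zero.1 h3)
  -- a point near `1` in the upper half plane and the inverse branch
  set t : ℝ := r / 4 with ht
  have ht0 : 0 < t := by positivity
  set y : ℂ := 1 + t * Complex.I with hy
  have hy1 : ‖y - 1‖ = t := by
    rw [hy, add_sub_cancel_left, norm_mul, Complex.norm_I, mul_one, Complex.norm_real,
      Real.norm_of_nonneg ht0.le]
  have hyr : y ∈ closedBall (1 : ℂ) r := by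
    rw [mem_closedBall, dist_eq_norm, hy1]; linarith
  have hyim : y.im = t := by rw [hy]; simp
  set z1 : ℂ := GG n e y with hz1
  have hz1y : ‖z1 - y‖ ≤ 1 / 2 * t := by
    have := hmove y hyr
    rwa [hy1] at this
  have hz1im : 0 < z1.im := by
    have h1 : |(z1 - y).im| ≤ 1 / 2 * t := (Complex.abs_im_le_norm _).trans hz1y
    rw [Complex.sub_im, hyim] at h1
    have := (abs_le.1 h1).1
    linarith
  have hz1ball : ‖z1 - 1‖ < r / 2 := by
    calc ‖z1 - 1‖ = ‖(z1 - y) + (y - 1)‖ := by ring_nf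
      _ ≤ ‖z1 - y‖ + ‖y - 1‖ := norm_add_le _ _
      _ ≤ 1 / 2 * t + t := by rw [hy1]; linarith
      _ < r / 2 := by rw [ht]; linarith
  obtain ⟨τ, hτd, hτ1, hτG, hτim⟩ := hGBR n e hn he he2 1 one_ne_zero 1 z1 y (mem_Hs.2 hz1im)
    (by rw [Function.iterate_one])
  have hτH : ∀ z ∈ Hs 1, τ z ∈ Hs 1 := by
    intro z hz
    have h1 := hτim z hz
    rw [hyim] at h1
    exact mem_Hs.2 (pos_of_mul_pos_left h1 ht0.le)
  have hτG' : ∀ z ∈ Hs 1, GG n e (τ z) = z := by
    intro z hz
    have := hτG z hz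
    rwa [Function.iterate_one] at this
  -- near `1` the branch stays near `1`
  have hnear : ∀ z ∈ Hs 1 ∩ ball (1 : ℂ) (r / 2), τ z ∈ ball (1 : ℂ) r := by
    have hconv : IsPreconnected (Hs 1 ∩ ball (1 : ℂ) (r / 2)) :=
      (convex_Hs.inter (convex_ball _ _)).isPreconnected
    have hcont : ContinuousOn τ (Hs 1 ∩ ball (1 : ℂ) (r / 2)) :=
      hτd.continuousOn.mono inter_subset_left
    have himg : IsPreconnected (τ '' (Hs 1 ∩ ball (1 : ℂ) (r / 2))) := hconv.image _ hcont
    have hcov : τ '' (Hs 1 ∩ ball (1 : ℂ) (r / 2)) ⊆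
        ball (1 : ℂ) r ∪ (closedBall (1 : ℂ) r)ᶜ := by
      rintro _ ⟨z, ⟨hz, hzb⟩, rfl⟩
      rcases lt_trichotomy (dist (τ z) 1) r with h | h | h
      · exact Or.inl h
      · exfalso
        have hm : τ z ∈ closedBall (1 : ℂ) r := by rw [mem_closedBall, h]
        have h1 := hmove _ hm
        rw [hτG' z hz, ← dist_eq_norm, ← dist_eq_norm, h] at h1
        have h2 : dist z 1 < r / 2 := hzb
        have h3 := dist_triangle (τ z) z 1
        rw [h, dist_comm (τ z) z] at h3
        linarith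
      · right
        simp only [mem_compl_iff, mem_closedBall, not_le]
        exact h
    have hsub := himg.subset_left_of_subset_union isOpen_ball isClosed_closedBall.isOpen_compl
      (disjoint_compl_right.mono_left ball_subset_closedBall) hcov
      ⟨τ z1, ⟨z1, ⟨mem_Hs.2 hz1im, by rw [mem_ball, dist_eq_norm]; exact hz1ball⟩, rfl⟩, by
        rw [hτ1, mem_ball, dist_eq_norm, hy1, ht]; linarith⟩
    intro z hz
    exact hsub ⟨z, hz, rfl⟩
  obtain ⟨X₁, hX₁, hE1⟩ := hGEN (GG n e) 1 (cA n e) K (r / 2) (by positivity)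
  have hstep : ∀ w : ℂ, w.re < -X₁ → K.E w ∈ Hs 1 →
      K.E (w - 1) ∈ Hs 1 ∧ τ (K.E w) = K.E (w - 1) := by
    intro w hw hEw
    have h1 : ‖K.E w - 1‖ < r / 2 := hE1 w hw
    have h2 : ‖K.E (w - 1) - 1‖ < r / 2 := hE1 (w - 1) (by
      rw [Complex.sub_re, Complex.one_re]; linarith)
    have h3 : GG n e (K.E (w - 1)) = K.E w := by
      rw [← K.E_add, sub_add_cancel]
    have h4 : τ (K.E w) ∈ ball (1 : ℂ) r := hnear _ ⟨hEw, by
      rw [mem_ball, dist_eq_norm]; exact h1⟩
    have h5 : τ (K.E w) = K.E (w - 1) := by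
      refine hinj _ (ball_subset_closedBall h4) _ ?_ (by rw [hτG' _ hEw, h3])
      rw [mem_closedBall, dist_eq_norm]
      linarith
    refine ⟨?_, h5⟩
    rw [← h5]
    exact hτH _ hEw
  -- large height
  set Y₁ : ℝ := 2 * K.C + 2 * Real.pi * |K.β.re| with hY₁
  have hup : ∀ w : ℂ, w.re < -X₁ → Y₁ < w.im → K.E w ∈ Hs 1 := by
    intro w hw hwi
    have hwR : w.re < -K.R := by linarith
    have hne := K.E_ne w hwR
    have hloc := K.E_loc w hwR
    have hasy := K.E_asy w hwR
    set ω : ℂ := omc (cA n e) 1 (K.E w) with hω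
    have hωn : 1 / 2 ≤ ‖ω‖ := by
      have h1 := Complex.abs_re_le_norm ω
      have h2 := Complex.abs_im_le_norm ω
      have h3 := neg_abs_le ω.re
      linarith
    have hωpos : 0 < ‖ω‖ := by linarith
    have hbd : ‖Lout K.β ω - w‖ ≤ 2 * K.C := by
      refine hasy.trans ?_
      rw [div_le_iff₀ hωpos]
      have := K.hC
      nlinarith
    have him : (Lout K.β ω).im = ω.im - K.β.re * (Complex.arg (-ω) + Real.pi) := by
      unfold Lout
      have hb : K.β = ((K.β.re : ℝ) : ℂ) := by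
        apply Complex.ext
        · simp
        · simp [hβ]
      rw [hb]
      simp [Complex.log_im]
    have h1 : |(Lout K.β ω - w).im| ≤ 2 * K.C := (Complex.abs_im_le_norm _).trans hbd
    rw [Complex.sub_im, him] at h1
    have h2 := (abs_le.1 h1).1
    have h3 : |K.β.re * (Complex.arg (-ω) + Real.pi)| ≤ 2 * Real.pi * |K.β.re| := by
      rw [abs_mul, mul_comm]
      refine mul_le_mul_of_nonneg_right ?_ (abs_nonneg _)
      have h4 := Complex.neg_pi_lt_arg (-ω)
      have h5 := Complex.arg_le_pi (-ω)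
      rw [abs_of_nonneg (by linarith)]
      linarith
    have h4 := (abs_le.1 h3).1
    have h5 : 0 < ω.im := by linarith
    rw [mem_Hs]
    have hz0 : K.E w - 1 ≠ 0 := sub_ne_zero.2 hne
    have h6 : ω.im * (cA n e * Complex.normSq (K.E w - 1)) = (K.E w).im := by
      have h7 : ω = ((1 / cA n e : ℝ) : ℂ) * (-(K.E w - 1)⁻¹) := by
        rw [hω]
        unfold omc
        push_cast
        field_simp
      rw [h7, Complex.im_ofReal_mul, Complex.neg_im, Complex.inv_im, Complex.sub_im,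
        Complex.one_im, sub_zero]
      have h8 : Complex.normSq (K.E w - 1) ≠ 0 := by
        rw [Ne, Complex.normSq_eq_zero]; exact hz0
      have h9 := hA.ne'
      field_simp
    rw [← h6]
    have h8 : 0 < Complex.normSq (K.E w - 1) := Complex.normSq_pos.2 hz0
    positivity
  refine ⟨τ, X₁, Y₁, hX₁, hτd, fun z hz => ⟨hτH z hz, hτG' z hz⟩, ?_, hstep, hup⟩
  -- convergence
  have hitH : ∀ m : ℕ, ∀ z ∈ Hs 1, τ^[m] z ∈ Hs 1 := by
    intro m
    induction m with
    | zero => intro z hz; exact hz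
    | succ m ih => intro z hz; rw [Function.iterate_succ_apply']; exact hτH _ (ih z hz)
  have hitd : ∀ m : ℕ, DifferentiableOn ℂ (τ^[m]) (Hs 1) := by
    intro m
    induction m with
    | zero => rw [Function.iterate_zero]; exact differentiableOn_id
    | succ m ih =>
      rw [Function.iterate_succ']
      exact hτd.comp ih (fun z hz => hitH m z hz)
  have hitG : ∀ m : ℕ, ∀ z ∈ Hs 1, (GG n e)^[m] (τ^[m] z) = z := by
    intro m
    induction m with
    | zero => intro z _; rfl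
    | succ m ih =>
      intro z hz
      rw [Function.iterate_succ_apply, Function.iterate_succ_apply', hτG' _ (hitH m z hz)]
      exact ih z hz
  -- a base point
  set w0 : ℂ := ((-X₁ - 1 : ℝ) : ℂ) + ((Y₁ + 1 : ℝ) : ℂ) * Complex.I with hw0
  have hw0re : w0.re = -X₁ - 1 := by rw [hw0]; simp
  have hw0im : w0.im = Y₁ + 1 := by rw [hw0]; simp
  have hbase : ∀ m : ℕ, τ^[m] (K.E w0) = K.E (w0 - m) := by
    intro m
    induction m with
    | zero => simp
    | succ m ih =>
      rw [Function.iterate_succ_apply', ih]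
      have hre : (w0 - (m : ℂ)).re < -X₁ := by
        rw [Complex.sub_re, hw0re, Complex.natCast_re]
        have : (0 : ℝ) ≤ m := Nat.cast_nonneg m
        linarith
      have him : Y₁ < (w0 - (m : ℂ)).im := by
        rw [Complex.sub_im, hw0im, Complex.natCast_im]; linarith
      rw [(hstep _ hre (hup _ hre him)).2]
      congr 1
      push_cast
      ring
  have hz0H : K.E w0 ∈ Hs 1 := hup w0 (by rw [hw0re]; linarith) (by rw [hw0im]; linarith)
  have hlim0 : Tendsto (fun m : ℕ => τ^[m] (K.E w0)) atTop (𝓝 1) := by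
    have := K.E_conv w0
    exact this.congr (fun m => (hbase m).symm)
  intro z hz
  rw [tendsto_iff_ultrafilter]
  intro u hu
  obtain ⟨c, hc⟩ := hGSH n e hn he he2 1 u (fun i => i) (fun i => τ^[i]) one_ne_zero hu
    (Filter.Eventually.of_forall fun i => ⟨hitd i, hitG i⟩)
  have h1 : Tendsto (fun i : ℕ => τ^[i] (K.E w0)) (u : Filter ℕ) (𝓝 c) := hc.tendsto_at hz0H
  have h2 : Tendsto (fun i : ℕ => τ^[i] (K.E w0)) (u : Filter ℕ) (𝓝 1) := hlim0.mono_left hu
  have h3 : c = 1 := tendsto_nhds_unique h1 h2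
  have h4 : Tendsto (fun i : ℕ => τ^[i] z) (u : Filter ℕ) (𝓝 c) := hc.tendsto_at hz
  rw [h3] at h4
  exact h4

end Pool.Agent.MAT
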