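import Pool.Agent.MAT.T

/-!
# MAT: the upper half of the basin is connected (GUH)
-/

set_option autoImplicit false

open Polynomial Metric Set Filter Topology

noncomputable section

namespace Pool.Agent.MAT

namespace GUH_

/-- reflect to the closed upper half plane -/
def up (z : ℂ) : ℂ := z.re + |z.im| * Complex.I

lemma up_cont : Continuous up := by
  unfold up
  exact (Complex.continuous_ofReal.comp Complex.continuous_re).add
    ((Complex.continuous_ofReal.comp (continuous_abs.comp Complex.continuous_im)).mul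
      continuous_const)

lemma up_im (z : ℂ) : (up z).im = |z.im| := by simp [up]

lemma up_eq (z : ℂ) (h : 0 ≤ z.im) : up z = z := by
  unfold up
  rw [abs_of_nonneg h]
  exact Complex.re_add_im z

lemma up_mem {U : Set ℂ} (hc : ∀ v ∈ U, (starRingEnd ℂ) v ∈ U) {z : ℂ} (hz : z ∈ U) :
    up z ∈ U := by
  rcases le_total 0 z.im with h | h
  · rw [up_eq z h]
    exact hz
  · have h1 : up z = (starRingEnd ℂ) z := by
      apply Complex.ext
      · simp [up]
      · simp [up, abs_of_nonpos h]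
    rw [h1]
    exact hc z hz

theorem main {U : Set ℂ} (hU : IsOpen U) (hp : IsPreconnected U)
    (hc : ∀ v ∈ U, (starRingEnd ℂ) v ∈ U) : IsPreconnected (U ∩ Hs 1) := by
  refine isPreconnected_of_forall_pair fun x hx y hy => ?_
  obtain ⟨hxU, hx0⟩ := hx
  obtain ⟨hyU, hy0⟩ := hy
  have hx1 : 0 < x.im := by simpa [Hs] using hx0
  have hy1 : 0 < y.im := by simpa [Hs] using hy0
  have hpc : IsPathConnected U := hU.isConnected_iff_isPathConnected.1 ⟨⟨x, hxU⟩, hp⟩
  obtain ⟨γ, hγ⟩ := hpc.joinedIn x hxU y hyU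
  obtain ⟨K, hK⟩ : ∃ K : Set ℂ, K = range fun t => up (γ t) := ⟨_, rfl⟩
  have hgc : Continuous fun t => up (γ t) := up_cont.comp γ.continuous
  have hKc : IsCompact K := by rw [hK]; exact isCompact_range hgc
  have hKU : K ⊆ U := by
    rw [hK]
    rintro _ ⟨t, rfl⟩
    exact up_mem hc (hγ t)
  obtain ⟨δ, hδ, hδU⟩ := hKc.exists_thickening_subset_open hU hKU
  have hxK : x ∈ K := by
    rw [hK]
    exact ⟨0, by simp only [γ.source]; exact up_eq x hx1.le⟩
  have hyK : y ∈ K := by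
    rw [hK]
    exact ⟨1, by simp only [γ.target]; exact up_eq y hy1.le⟩
  have key : ∀ z ∈ K, ∀ s : ℝ, 0 ≤ s → s ≤ δ / 2 → z + s * Complex.I ∈ U := by
    intro z hz s hs0 hs1
    refine hδU (mem_thickening_iff.2 ⟨z, hz, ?_⟩)
    rw [dist_eq_norm, add_sub_cancel_left, norm_mul, Complex.norm_I, mul_one,
      Complex.norm_real, Real.norm_eq_abs, abs_of_nonneg hs0]
    linarith
  have hseg : ∀ z ∈ K, 0 < z.im →
      (fun s : ℝ => z + s * Complex.I) '' Icc 0 (δ / 2) ⊆ U ∩ Hs 1 := by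
    rintro z hz hz0 _ ⟨s, ⟨hs0, hs1⟩, rfl⟩
    refine ⟨key z hz s hs0 hs1, ?_⟩
    simp only [Hs, mem_ofPred_eq, one_mul, Complex.add_im, Complex.mul_im, Complex.ofReal_re,
      Complex.I_im, mul_one, Complex.ofReal_im, Complex.I_re, mul_zero, add_zero]
    linarith
  have hsc : ∀ z : ℂ, IsPreconnected ((fun s : ℝ => z + s * Complex.I) '' Icc 0 (δ / 2)) :=
    fun z => isPreconnected_Icc.image _ (by fun_prop)
  have hmid : (fun t => up (γ t) + ((δ / 2 : ℝ) : ℂ) * Complex.I) '' univ ⊆ U ∩ Hs 1 := by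
    rintro _ ⟨t, -, rfl⟩
    refine ⟨key _ (by rw [hK]; exact ⟨t, rfl⟩) _ (by positivity) le_rfl, ?_⟩
    simp only [Hs, mem_ofPred_eq, one_mul, Complex.add_im, Complex.mul_im, Complex.ofReal_re,
      Complex.I_im, mul_one, Complex.ofReal_im, Complex.I_re, mul_zero, add_zero, up_im]
    have := abs_nonneg (γ t).im
    linarith
  have hmc : IsPreconnected
      ((fun t => up (γ t) + ((δ / 2 : ℝ) : ℂ) * Complex.I) '' univ) :=
    isPreconnected_univ.image _ (hgc.add continuous_const).continuousOn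
  have hend : δ / 2 ∈ Icc (0 : ℝ) (δ / 2) := ⟨by positivity, le_rfl⟩
  have h0 : (0 : ℝ) ∈ Icc (0 : ℝ) (δ / 2) := ⟨le_rfl, by positivity⟩
  have m1 : x + ((δ / 2 : ℝ) : ℂ) * Complex.I ∈
      (fun s : ℝ => x + s * Complex.I) '' Icc 0 (δ / 2) := ⟨δ / 2, hend, rfl⟩
  have m2 : x + ((δ / 2 : ℝ) : ℂ) * Complex.I ∈
      (fun t => up (γ t) + ((δ / 2 : ℝ) : ℂ) * Complex.I) '' univ :=
    ⟨0, mem_univ _, by simp only [γ.source, up_eq x hx1.le]⟩
  have m3 : y + ((δ / 2 : ℝ) : ℂ) * Complex.I ∈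
      (fun t => up (γ t) + ((δ / 2 : ℝ) : ℂ) * Complex.I) '' univ :=
    ⟨1, mem_univ _, by simp only [γ.target, up_eq y hy1.le]⟩
  have m4 : y + ((δ / 2 : ℝ) : ℂ) * Complex.I ∈
      (fun s : ℝ => y + s * Complex.I) '' Icc 0 (δ / 2) := ⟨δ / 2, hend, rfl⟩
  have h12 := IsPreconnected.union _ m1 m2 (hsc x) hmc
  have h123 := IsPreconnected.union _ (mem_union_right _ m3) m4 h12 (hsc y)
  refine ⟨_, union_subset (union_subset (hseg x hxK hx1) hmid) (hseg y hyK hy1), ?_, ?_, h123⟩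
  · exact Or.inl (Or.inl ⟨0, h0, by simp⟩)
  · exact Or.inr ⟨0, h0, by simp⟩

end GUH_

theorem p_GUH (hGBA : T_GBA) : T_GUH := by
  intro n e hn he he2
  obtain ⟨h1, h2, -, -, -, -, -, -, h3, -⟩ := hGBA n e hn he he2
  exact GUH_.main h1 h2 h3

end Pool.Agent.MAT
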