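import Pool.Agent.MAT.T

/-!
# MAT: GUP (high points are attracted), from GNF and UPI
-/

set_option autoImplicit false

open Polynomial Metric Set Filter Topology

noncomputable section

namespace Pool.Agent.MAT

namespace GUP_

/-- the argument of `p / (p - z)` when `|(z - p) / z| > 1` -/
lemma arg_le {p z : ℂ} (h : 0 < Real.log ‖(z - p) / z‖) :
    |Complex.arg (p / (p - z))| ≤ Real.pi / 2 := by
  have h1 : 1 < ‖(z - p) / z‖ := by
    by_contra hc
    push Not at hc
    have := Real.log_nonpos (norm_nonneg _) hc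
    linarith
  have hz : z ≠ 0 := by
    rintro rfl
    simp at h
  have hzp : z - p ≠ 0 := by
    intro hc
    rw [hc] at h
    simp at h
  rw [Complex.abs_arg_le_pi_div_two_iff]
  have h2 : p / (p - z) = 1 - z / (z - p) := by
    have : p - z ≠ 0 := by
      intro hc
      apply hzp
      linear_combination -hc
    field_simp
    ring
  have h3 : ‖z / (z - p)‖ < 1 := by
    rw [norm_div] at h1 ⊢
    have hz' : 0 < ‖z‖ := norm_pos_iff.mpr hz
    have hzp' : 0 < ‖z - p‖ := norm_pos_iff.mpr hzp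
    rw [lt_div_iff₀ hz'] at h1
    rw [div_lt_one hzp']
    linarith
  have h4 : (z / (z - p)).re ≤ ‖z / (z - p)‖ := Complex.re_le_norm _
  rw [h2, Complex.sub_re, Complex.one_re]
  linarith

lemma ell_norm (S : ℝ) (k : ℕ) (hk : 7 ≤ k) : ‖Complex.exp (ell S k) - 1‖ ≤ 4 * Real.pi / k := by
  have hk0 : (7 : ℝ) ≤ (k : ℝ) := by exact_mod_cast hk
  have h1 : (k : ℝ) ≤ ‖(k : ℂ) - S * Complex.I‖ := by
    have := Complex.abs_re_le_norm ((k : ℂ) - S * Complex.I)
    have h2 : ((k : ℂ) - S * Complex.I).re = k := by simp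
    rw [h2] at this
    exact le_trans (le_abs_self _) this
  have h2 : ‖ell S k‖ ≤ 2 * Real.pi / k := by
    unfold ell
    rw [norm_div]
    have h3 : ‖(2 : ℂ) * (Real.pi : ℂ) * Complex.I‖ = 2 * Real.pi := by
      rw [norm_mul, norm_mul, Complex.norm_I, mul_one, Complex.norm_real, Complex.norm_ofNat,
        Real.norm_eq_abs, abs_of_pos Real.pi_pos]
    rw [h3]
    apply div_le_div_of_nonneg_left (by positivity) (by linarith) h1
  have h3 : 2 * Real.pi / k ≤ 1 := by
    rw [div_le_one (by linarith)]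
    have := Real.pi_lt_d2
    linarith
  have h4 := Complex.norm_exp_sub_one_le (le_trans h2 h3)
  calc ‖Complex.exp (ell S k) - 1‖ ≤ 2 * ‖ell S k‖ := h4
    _ ≤ 2 * (2 * Real.pi / k) := by linarith
    _ = 4 * Real.pi / k := by ring

lemma cA_pos {n : ℕ} {e : ℝ} (hn : 3 ≤ n) (he : 0 < e) : 0 < cA n e := by
  have hn' : (3 : ℝ) ≤ (n : ℝ) := by exact_mod_cast hn
  unfold cA
  have h1 : 0 ≤ ((n : ℝ) - 2) * (1 + e) := mul_nonneg (by linarith) (by linarith)
  exact div_pos (by linarith) (by linarith)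

end GUP_

open GUP_ in
theorem p_GUP (hGNF : T_GNF) (hUPI : T_UPI) : T_GUP := by
  intro n e hn he0 he1
  obtain ⟨ε, r, B, δ, hr, hB, hδ, hεd, hε0, hεi, hnf⟩ := hGNF n e hn he0 he1
  set A : ℝ := cA n e with hAdef
  have hA : 0 < A := cA_pos hn he0
  have hAC : (A : ℂ) ≠ 0 := by exact_mod_cast hA.ne'
  obtain ⟨S₀, Y, hY, hup⟩ := hUPI ε r (B * (8 * Real.pi) / A) hr hεd hε0 hεi
  set c : ℝ := 2 - (deriv ε 0).re with hcdef
  refine ⟨S₀, Y + |c| * Real.pi, by positivity, ?_⟩
  intro S hS p hp hfix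
  obtain ⟨k₀, hk₀⟩ := hup S hS
  have hd1 : ∀ᶠ k : ℕ in atTop, ‖p k - 1‖ < δ := by
    have := hp.eventually (Metric.ball_mem_nhds (1 : ℂ) hδ)
    simpa [dist_eq_norm] using this
  have hd2 : ∀ᶠ k : ℕ in atTop, ‖p k - 1‖ < 1 / (2 * B) := by
    have := hp.eventually (Metric.ball_mem_nhds (1 : ℂ) (show (0 : ℝ) < 1 / (2 * B) by positivity))
    simpa [dist_eq_norm] using this
  filter_upwards [hfix, hd1, hd2, eventually_ge_atTop k₀, eventually_ge_atTop 7]
    with k hk1 hk2 hk3 hk4 hk5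
  obtain ⟨hpne, hpfix⟩ := hk1
  have hkpos : (0 : ℝ) < (k : ℝ) := by
    have : (7 : ℝ) ≤ (k : ℝ) := by exact_mod_cast hk5
    linarith
  set μ : ℂ := Complex.exp (ell S k) with hμdef
  have hμ0 : μ ≠ 0 := Complex.exp_ne_zero _
  obtain ⟨ek, hekd, hek1, hek2, hek3⟩ := hnf μ (p k) hμ0 hpfix hpne hk2
  have h0r : (0 : ℂ) ∈ ball (0 : ℂ) r := mem_ball_self hr
  have hB2 : B * ‖p k - 1‖ ≤ 1 / 2 := by
    rw [lt_div_iff₀ (by positivity)] at hk3
    nlinarith
  have hek0 : 1 / 2 ≤ ‖ek 0‖ := by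
    have h1 := hek1 0 h0r
    rw [hε0] at h1
    have h2 : ‖(1 : ℂ)‖ ≤ ‖ek 0‖ + ‖ek 0 - 1‖ := by
      have h3 : (1 : ℂ) = ek 0 - (ek 0 - 1) := by ring
      calc ‖(1 : ℂ)‖ = ‖ek 0 - (ek 0 - 1)‖ := by rw [← h3]
        _ ≤ _ := norm_sub_le _ _
    rw [norm_one] at h2
    linarith
  have hpk : ‖p k - 1‖ ≤ 8 * Real.pi / (A * k) := by
    have h1 : (A : ℂ) * (p k - 1) * ek 0 = 1 - μ := by linear_combination -hek3
    have h2 : A * ‖p k - 1‖ * ‖ek 0‖ = ‖μ - 1‖ := by
      rw [norm_sub_rev μ 1, ← h1, norm_mul, norm_mul, Complex.norm_real, Real.norm_eq_abs,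
        abs_of_pos hA]
    have h3 := ell_norm S k hk5
    rw [← hμdef, ← h2] at h3
    have h4 : A * ‖p k - 1‖ * (1 / 2) ≤ A * ‖p k - 1‖ * ‖ek 0‖ := by
      apply mul_le_mul_of_nonneg_left hek0
      positivity
    have h5 : A * ‖p k - 1‖ ≤ 8 * Real.pi / k := by
      have : 8 * Real.pi / k = 2 * (4 * Real.pi / k) := by ring
      rw [this]
      linarith
    rw [le_div_iff₀ (by positivity)]
    rw [le_div_iff₀ hkpos] at h5
    linarith
  have hekB : ∀ z ∈ ball (0 : ℂ) r, ‖ek z - ε z‖ ≤ (B * (8 * Real.pi) / A) / k := by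
    intro z hz
    refine le_trans (hek1 z hz) ?_
    calc B * ‖p k - 1‖ ≤ B * (8 * Real.pi / (A * k)) := by
          apply mul_le_mul_of_nonneg_left hpk hB.le
      _ = (B * (8 * Real.pi) / A) / k := by
          field_simp
  set P : ℂ := (A : ℂ) * (p k - 1) with hPdef
  have hmain := hk₀ k hk4 P ek hekd hekB hek3
  intro v hv hlog
  -- the orbit in the coordinate y
  set F : ℂ → ℂ := GF n e μ with hFdef
  set y : ℕ → ℂ := fun m => (A : ℂ) * (F^[m] v - 1) with hydef
  have hys : ∀ m, y m = (A : ℂ) * (F^[m] v - 1) := fun m => rfl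
  have hy1 : ∀ m, F^[m] v = 1 + y m / A := by
    intro m
    rw [hys]
    field_simp
    ring
  have hstep : ∀ m, ‖y m‖ < r → y (m + 1) = y m + y m * (y m - P) * ek (y m) := by
    intro m hm
    have h1 := hek2 (y m) (by simpa using hm)
    rw [hys (m + 1), Function.iterate_succ_apply', hy1 m]
    exact h1
  have hy0 : y 0 ≠ 0 := by
    rw [hys]
    simp only [Function.iterate_zero, id_eq]
    exact mul_ne_zero hAC (sub_ne_zero.mpr hv)
  have hs0 : (y 0 - P) / y 0 = (v - p k) / (v - 1) := by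
    rw [hys]
    simp only [Function.iterate_zero, id_eq, hPdef]
    have h1 : v - 1 ≠ 0 := sub_ne_zero.mpr hv
    field_simp
    ring
  -- the altitude
  set a : ℂ → ℝ := fun z => k / (2 * Real.pi) * Real.log ‖(z - P) / z‖ -
    c * Complex.arg (P / (P - z)) with hadef
  have hcarg : ∀ z : ℂ, |Complex.arg (P / (P - z))| ≤ Real.pi / 2 →
      |c * Complex.arg (P / (P - z))| ≤ |c| * (Real.pi / 2) := by
    intro z hz
    rw [abs_mul]
    exact mul_le_mul_of_nonneg_left hz (abs_nonneg _)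
  have hpi : (0 : ℝ) < 2 * Real.pi := by positivity
  have hconv : ∀ (x L : ℝ), x ≤ k / (2 * Real.pi) * L ↔ 2 * Real.pi * x / k ≤ L := by
    intro x L
    rw [div_le_iff₀ hkpos]
    constructor
    · intro h
      have h1 := mul_le_mul_of_nonneg_left h hpi.le
      have h2 : 2 * Real.pi * (k / (2 * Real.pi) * L) = L * k := by
        field_simp
      linarith
    · intro h
      rw [div_mul_eq_mul_div, le_div_iff₀ hpi]
      linarith
  have hL0 : Y + |c| * Real.pi ≤ k / (2 * Real.pi) * Real.log ‖(y 0 - P) / y 0‖ := by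
    rw [hconv, hs0]
    exact hlog
  have hcp : 0 ≤ |c| * Real.pi := by positivity
  have key : ∀ m : ℕ, y m ≠ 0 ∧ Y + m / k ≤ k / (2 * Real.pi) * Real.log ‖(y m - P) / y m‖ ∧
      a (y 0) + m / k ≤ a (y m) := by
    intro m
    induction m with
    | zero =>
      refine ⟨hy0, ?_, ?_⟩
      · simp only [Nat.cast_zero, zero_div, add_zero]
        linarith
      · simp
    | succ m ih =>
      obtain ⟨ih1, ih2, ih3⟩ := ih
      have hmk : (0 : ℝ) ≤ (m : ℝ) / k := by positivity
      have h1 : 2 * Real.pi * Y / k ≤ Real.log ‖(y m - P) / y m‖ := by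
        rw [← hconv]
        linarith
      obtain ⟨g1, g2, g3⟩ := hmain (y m) ih1 h1
      obtain ⟨g4, g5, g6, g7⟩ := g3 (y (m + 1)) (hstep m g1)
      have h2 : a (y m) + 1 / k ≤ a (y (m + 1)) := g6
      have h3 : a (y 0) + ((m + 1 : ℕ) : ℝ) / k ≤ a (y (m + 1)) := by
        push_cast
        rw [add_div]
        linarith
      refine ⟨g4, ?_, h3⟩
      have h4 := hcarg _ (arg_le g5)
      have hp0 : 0 < Real.log ‖(y 0 - P) / y 0‖ := by
        have h5 : 2 * Real.pi * (Y + |c| * Real.pi) / k ≤ Real.log ‖(y 0 - P) / y 0‖ := by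
          rw [← hconv]
          exact hL0
        have h6 : 0 < 2 * Real.pi * (Y + |c| * Real.pi) / k := by positivity
        linarith
      have h5 := hcarg _ (arg_le hp0)
      rw [abs_le] at h4 h5
      simp only [hadef] at h3
      linarith [h4.1, h4.2, h5.1, h5.2]
  -- the orbit converges
  have hlogm : ∀ m : ℕ, 2 * Real.pi * (Y + m / k) / k ≤ Real.log ‖(y m - P) / y m‖ := by
    intro m
    rw [← hconv]
    exact (key m).2.1
  have hlogT : Tendsto (fun m : ℕ => Real.log ‖(y m - P) / y m‖) atTop atTop := by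
    refine tendsto_atTop_mono hlogm ?_
    have h1 : Tendsto (fun m : ℕ => (2 * Real.pi / (k * k)) * (m : ℝ) + 2 * Real.pi * Y / k)
        atTop atTop := by
      apply tendsto_atTop_add_const_right
      exact Tendsto.const_mul_atTop (by positivity) tendsto_natCast_atTop_atTop
    refine h1.congr ?_
    intro m
    field_simp
    ring
  have hpos : ∀ m, 0 < Real.log ‖(y m - P) / y m‖ := by
    intro m
    have h1 := hlogm m
    have h2 : 0 < 2 * Real.pi * (Y + m / k) / k := by positivity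
    linarith
  have hgt : ∀ m, 1 < ‖(y m - P) / y m‖ := by
    intro m
    by_contra hc
    push Not at hc
    have h1 := Real.log_nonpos (norm_nonneg _) hc
    have h2 := hpos m
    linarith
  have hnT : Tendsto (fun m : ℕ => ‖(y m - P) / y m‖) atTop atTop := by
    refine (Real.tendsto_exp_atTop.comp hlogT).congr ?_
    intro m
    simp only [Function.comp_apply]
    exact Real.exp_log (by linarith [hgt m])
  have hyb : ∀ m, ‖y m‖ ≤ ‖P‖ / (‖(y m - P) / y m‖ - 1) := by
    intro m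
    have h1 := hgt m
    rw [le_div_iff₀ (by linarith)]
    have h2 : y m * (1 - (y m - P) / y m) = P := by
      have := (key m).1
      field_simp
      ring
    have h3 : ‖y m‖ * ‖1 - (y m - P) / y m‖ = ‖P‖ := by rw [← norm_mul, h2]
    have h4 : ‖(y m - P) / y m‖ - 1 ≤ ‖1 - (y m - P) / y m‖ := by
      have := norm_sub_norm_le ((y m - P) / y m) 1
      rw [norm_one, norm_sub_rev] at this
      exact this
    rw [← h3]
    exact mul_le_mul_of_nonneg_left h4 (norm_nonneg _)
  have hyT : Tendsto y atTop (𝓝 0) := by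
    rw [tendsto_zero_iff_norm_tendsto_zero]
    refine squeeze_zero (fun m => norm_nonneg _) hyb ?_
    apply Tendsto.const_div_atTop
    exact tendsto_atTop_add_const_right _ (-1) hnT
  show Tendsto (fun m : ℕ => F^[m] v) atTop (𝓝 1)
  have h1 : Tendsto (fun m : ℕ => 1 + y m / A) atTop (𝓝 (1 + 0 / A)) :=
    tendsto_const_nhds.add (hyT.div_const _)
  rw [zero_div, add_zero] at h1
  exact h1.congr (fun m => (hy1 m).symm)

end Pool.Agent.MAT
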