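import Pool.Agent.MAT.T

/-!
# MAT: HC (the two horn maps agree), by helper76
-/

set_option autoImplicit false

open Polynomial Metric Set Filter Topology

noncomputable section

namespace Pool.Agent.MAT

namespace HC_

/-- the variable `q` -/
def qq (w : ℂ) : ℂ := Complex.exp (2 * Real.pi * Complex.I * w)

lemma qq_eq (w : ℂ) : qq w = Function.Periodic.qParam 1 w := by
  unfold qq Function.Periodic.qParam
  simp

lemma norm_qq (w : ℂ) : ‖qq w‖ = Real.exp (-(2 * Real.pi * w.im)) := by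
  rw [qq_eq, Function.Periodic.norm_qParam]
  congr 1
  ring

lemma qq_add (w w' : ℂ) : qq (w + w') = qq w * qq w' := by
  unfold qq
  rw [mul_add, Complex.exp_add]

lemma qq_lip {t : ℝ} {w w' : ℂ} (hw : t ≤ w.im) (hw' : t ≤ w'.im) :
    ‖qq w - qq w'‖ ≤ 2 * Real.pi * Real.exp (-(2 * Real.pi * t)) * ‖w - w'‖ := by
  have hd : ∀ x : ℂ, HasDerivAt qq (qq x * (2 * Real.pi * Complex.I)) x := by
    intro x
    have h1 := ((hasDerivAt_id x).const_mul (2 * Real.pi * Complex.I : ℂ)).cexp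
    rw [mul_one] at h1
    exact h1
  refine Convex.norm_image_sub_le_of_norm_deriv_le (𝕜 := ℂ) (s := {z : ℂ | t ≤ z.im})
    (fun x _ => (hd x).differentiableAt) ?_ (convex_halfSpace_im_ge t) hw' hw
  intro x hx
  have hpi := Real.pi_pos
  have h2 : ‖(2 * Real.pi * Complex.I : ℂ)‖ = 2 * Real.pi := by
    simp [abs_of_pos hpi]
  rw [(hd x).deriv, norm_mul, norm_qq, h2, mul_comm]
  refine mul_le_mul_of_nonneg_left (Real.exp_le_exp.2 ?_) (by positivity)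
  have h3 : t ≤ x.im := hx
  have := mul_le_mul_of_nonneg_left h3 (by positivity : 0 ≤ 2 * Real.pi)
  linarith

lemma exists_height {r : ℝ} (hr : 0 < r) : ∃ Y : ℝ, ∀ w : ℂ, Y ≤ w.im → ‖qq w‖ < r := by
  have hpi := Real.pi_pos
  refine ⟨(1 - Real.log r) / (2 * Real.pi), fun w hw => ?_⟩
  rw [norm_qq, ← Real.lt_log_iff_exp_lt hr]
  rw [div_le_iff₀ (by positivity)] at hw
  linarith

/-- the expansion at the upper end -/
lemma qexp {f : ℂ → ℂ} {Y₀ : ℝ} (hd : DifferentiableOn ℂ f {w | Y₀ < w.im})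
    (hp : ∀ w : ℂ, Y₀ < w.im → f (w + 1) = f w)
    (hl : ∀ ε : ℝ, 0 < ε → ∃ Y : ℝ, ∀ w : ℂ, Y < w.im → ‖f w‖ < ε) :
    ∃ g : ℂ → ℂ, AnalyticAt ℂ g 0 ∧ g 0 = 0 ∧ ∀ w : ℂ, Y₀ < w.im → f w = g (qq w) := by
  classical
  obtain ⟨f', hf'⟩ : ∃ f' : ℂ → ℂ, f' = fun w => if Y₀ < w.im then f w else 0 := ⟨_, rfl⟩
  have hf1 : ∀ w : ℂ, Y₀ < w.im → f' w = f w := by
    intro w hw
    rw [hf']
    exact if_pos hw
  have hper : Function.Periodic f' ((1 : ℝ) : ℂ) := by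
    intro w
    rw [hf']
    simp only [Complex.ofReal_one, Complex.add_im, Complex.one_im, add_zero]
    split_ifs with h
    · exact hp w h
    · rfl
  have hev : ∀ Y : ℝ, ∀ᶠ z in comap Complex.im atTop, Y < z.im := fun Y =>
    (eventually_gt_atTop Y).comap Complex.im
  have hzero : ZeroAtFilter (comap Complex.im atTop) f' := by
    unfold ZeroAtFilter
    rw [Metric.tendsto_nhds]
    intro ε hε
    obtain ⟨Y, hY⟩ := hl ε hε
    filter_upwards [hev Y, hev Y₀] with z hz hz0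
    rw [dist_zero_right, hf1 z hz0]
    exact hY z hz
  have hhol : ∀ᶠ z in comap Complex.im atTop, DifferentiableAt ℂ f' z := by
    filter_upwards [hev Y₀] with z hz
    have hop : {w : ℂ | Y₀ < w.im} ∈ 𝓝 z :=
      (isOpen_lt continuous_const Complex.continuous_im).mem_nhds hz
    refine (hd.differentiableAt hop).congr_of_eventuallyEq ?_
    filter_upwards [hop] with w hw
    exact hf1 w hw
  refine ⟨Function.Periodic.cuspFunction 1 f', ?_, ?_, ?_⟩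
  · rw [Complex.analyticAt_iff_eventually_differentiableAt]
    have h1 := Function.Periodic.eventually_differentiableAt_cuspFunction_nhds_ne_zero
      one_pos hper hhol
    have h2 := Function.Periodic.differentiableAt_cuspFunction_zero one_pos hper hhol
      hzero.boundedAtFilter
    rw [eventually_nhdsWithin_iff] at h1
    filter_upwards [h1] with q hq
    by_cases h : q = 0
    · rw [h]
      exact h2
    · exact hq h
  · exact Function.Periodic.cuspFunction_zero_of_zero_at_inf one_pos hzero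
  · intro w hw
    rw [qq_eq, Function.Periodic.eq_cuspFunction one_ne_zero hper, hf1 w hw]

/-- the leading term -/
lemma leading {g : ℂ → ℂ} (hg : AnalyticAt ℂ g 0) (h0 : g 0 = 0)
    (hne : ¬ ∀ᶠ q in 𝓝 (0 : ℂ), g q = 0) :
    ∃ (m : ℕ) (k : ℂ) (C r : ℝ), 1 ≤ m ∧ k ≠ 0 ∧ 0 ≤ C ∧ 0 < r ∧
      ∀ q : ℂ, ‖q‖ < r → ‖g q - k * q ^ m‖ ≤ C * ‖q‖ ^ (m + 1) := by
  obtain ⟨m, h, hh, hh0, heq⟩ := hg.exists_eventuallyEq_pow_smul_nonzero_iff.2 hne
  have hm : 1 ≤ m := by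
    by_contra hcon
    have hm0 : m = 0 := by omega
    have h1 := heq.self_of_nhds
    rw [h0, hm0, pow_zero, one_smul] at h1
    exact hh0 h1.symm
  obtain ⟨C, hC⟩ := hh.differentiableAt.isBigO_sub.bound
  obtain ⟨r, hr, hball⟩ := Metric.eventually_nhds_iff_ball.1 (heq.and hC)
  refine ⟨m, h 0, max C 0, r, hm, hh0, le_max_right _ _, hr, fun q hq => ?_⟩
  obtain ⟨h1, h2⟩ := hball q (by rwa [mem_ball_zero_iff])
  rw [sub_zero] at h1 h2
  rw [h1, smul_eq_mul]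
  have e : q ^ m * h q - h 0 * q ^ m = q ^ m * (h q - h 0) := by ring
  rw [e, norm_mul, norm_pow, pow_succ]
  have h3 : ‖h q - h 0‖ ≤ max C 0 * ‖q‖ :=
    h2.trans (mul_le_mul_of_nonneg_right (le_max_left _ _) (norm_nonneg _))
  calc ‖q‖ ^ m * ‖h q - h 0‖ ≤ ‖q‖ ^ m * (max C 0 * ‖q‖) :=
        mul_le_mul_of_nonneg_left h3 (by positivity)
    _ = max C 0 * (‖q‖ ^ m * ‖q‖) := by ring

lemma lipschitz {g : ℂ → ℂ} (hg : AnalyticAt ℂ g 0) :
    ∃ C r : ℝ, 0 ≤ C ∧ 0 < r ∧ ∀ q q' : ℂ, ‖q‖ < r → ‖q'‖ < r → ‖g q - g q'‖ ≤ C * ‖q - q'‖ := by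
  obtain ⟨K, s, hs, hlip⟩ := hg.hasStrictFDerivAt.exists_lipschitzOnWith
  obtain ⟨r, hr, hball⟩ := Metric.mem_nhds_iff.1 hs
  refine ⟨K, r, K.2, hr, fun q q' hq hq' => ?_⟩
  have h1 := hlip.dist_le_mul q (hball (by rwa [mem_ball_zero_iff])) q'
    (hball (by rwa [mem_ball_zero_iff]))
  rwa [dist_eq_norm, dist_eq_norm] at h1

lemma exp_small : Real.exp (-(2 * Real.pi * (0 + 1))) ≤ 1 / 2 := by
  have h1 : Real.exp (-(2 * Real.pi * (0 + 1))) ≤ Real.exp (-1) := by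
    apply Real.exp_le_exp.2
    have := Real.pi_gt_three
    linarith
  have h2 : Real.exp (-1) ≤ 1 / 2 := by
    rw [Real.exp_neg, inv_eq_one_div]
    have := Real.exp_one_gt_d9
    exact one_div_le_one_div_of_le (by norm_num) (by linarith)
  exact h1.trans h2

lemma int_period {δ : ℂ → ℂ} {Y : ℝ} (h : ∀ w : ℂ, Y < w.im → δ (w + 1) = δ w) (n : ℤ)
    (w : ℂ) (hw : Y < w.im) : δ (w + n) = δ w := by
  induction n using Int.induction_on with
  | zero => simp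
  | succ i ih =>
    have h1 := h (w + (i : ℤ)) (by simpa using hw)
    push_cast at h1 ih ⊢
    rw [← add_assoc, h1, ih]
  | pred i ih =>
    have h1 := h (w + ((-i - 1 : ℤ) : ℂ)) (by simpa using hw)
    push_cast at h1 ih ⊢
    rw [← h1, ← ih]
    congr 1
    ring

/-- the bounds for `δ = τ - id` -/
lemma delta_bounds (hPER : T_PER) (hUC : T_UC) {τ : ℂ → ℂ} {w₁ d : ℝ}
    (hd : DifferentiableOn ℂ τ {w | -3 < w.im}) (hi : InjOn τ {w | -3 < w.im})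
    (ht : ∀ w : ℂ, -3 < w.im → τ (w + 1) = τ w + 1) (hw : ‖τ w₁ - w₁‖ ≤ d) :
    ∃ (c₀ : ℂ) (M : ℝ), 0 ≤ M ∧ M ≤ 4 * (d + 130) ∧ ‖c₀‖ ≤ 3 * (d + 130) ∧
      (∀ w : ℂ, -1 ≤ w.im → ‖τ w - w - c₀‖ ≤ M * Real.exp (-(2 * Real.pi * (w.im + 1)))) ∧
      ∀ M' : ℝ, (∀ w : ℂ, w.im = -1 → ‖τ w - w - c₀‖ ≤ M') → M ≤ M' := by
  have hd0 : 0 ≤ d := (norm_nonneg _).trans hw
  obtain ⟨δ, hδ⟩ : ∃ δ : ℂ → ℂ, δ = fun w => τ w - w := ⟨_, rfl⟩
  have hδa : ∀ w, τ w - w = δ w := fun w => by rw [hδ]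
  have hopen : ∀ Y : ℝ, IsOpen {w : ℂ | Y < w.im} := fun Y =>
    isOpen_lt continuous_const Complex.continuous_im
  have hτd : ∀ w : ℂ, -3 < w.im → DifferentiableAt ℂ τ w := fun w hw =>
    hd.differentiableAt ((hopen (-3)).mem_nhds hw)
  have hδd : ∀ w : ℂ, -3 < w.im → DifferentiableAt ℂ δ w := fun w hw => by
    rw [hδ]
    exact (hτd w hw).sub differentiableAt_id
  have hder : ∀ w : ℂ, -2 ≤ w.im → ‖deriv δ w‖ ≤ 65 := by
    intro w hw
    have h1 : HasDerivAt δ (deriv τ w - 1) w := by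
      rw [hδ]
      exact (hτd w (by linarith)).hasDerivAt.sub (hasDerivAt_id w)
    rw [h1.deriv]
    have h2 := hUC τ (-3) hd hi ht w (by linarith)
    calc ‖deriv τ w - 1‖ ≤ ‖deriv τ w‖ + ‖(1 : ℂ)‖ := norm_sub_le _ _
      _ ≤ 65 := by rw [norm_one]; linarith
  have hper : ∀ w : ℂ, -3 < w.im → δ (w + 1) = δ w := by
    intro w hw
    rw [← hδa, ← hδa, ht w hw]
    ring
  obtain ⟨c₀, hc₀⟩ := hPER δ (-2)
    (fun w hw => (hδd w (by have : -2 < w.im := hw; linarith)).differentiableWithinAt)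
    (fun w hw => hper w (by linarith)) ⟨65, fun w hw => hder w hw.le⟩
  -- the line
  have hline : ∀ w : ℂ, w.im = -1 → ‖δ w‖ ≤ d + 130 := by
    intro w hwim
    obtain ⟨w', hw'⟩ : ∃ w' : ℂ, w' = w + ((-⌊w.re - w₁⌋ : ℤ) : ℂ) := ⟨_, rfl⟩
    have h1 : δ w' = δ w := by
      rw [hw']
      exact int_period hper _ w (by linarith)
    have him : w'.im = -1 := by
      rw [hw']
      simp [hwim]
    have hre : w'.re = w.re - ⌊w.re - w₁⌋ := by
      rw [hw']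
      push_cast
      simp
      ring
    have h2 : ‖w' - w₁‖ ≤ 2 := by
      refine (Complex.norm_le_abs_re_add_abs_im _).trans ?_
      have h3 : (w' - w₁).re = Int.fract (w.re - w₁) := by
        rw [Complex.sub_re, hre, Complex.ofReal_re, Int.fract]
        ring
      have h4 : (w' - w₁).im = -1 := by simp [him]
      rw [h3, h4, abs_of_nonneg (Int.fract_nonneg _)]
      have := Int.fract_lt_one (w.re - w₁)
      norm_num
      linarith
    have h5 : ‖δ w' - δ w₁‖ ≤ 65 * ‖w' - w₁‖ := by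
      refine Convex.norm_image_sub_le_of_norm_deriv_le (𝕜 := ℂ) (s := {z : ℂ | -2 ≤ z.im})
        (fun x hx => hδd x (by have : -2 ≤ x.im := hx; linarith)) hder
        (convex_halfSpace_im_ge _) ?_ ?_
      · show -2 ≤ ((w₁ : ℝ) : ℂ).im
        simp
      · show -2 ≤ w'.im
        rw [him]
        norm_num
    have h6 : ‖δ w₁‖ ≤ d := by rw [← hδa]; exact hw
    rw [← h1]
    calc ‖δ w'‖ = ‖(δ w' - δ w₁) + δ w₁‖ := by ring_nf
      _ ≤ ‖δ w' - δ w₁‖ + ‖δ w₁‖ := norm_add_le _ _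
      _ ≤ d + 130 := by linarith
  obtain ⟨T, hT⟩ : ∃ T : Set ℝ, T = {x | ∃ w : ℂ, w.im = -1 ∧ x = ‖δ w - c₀‖} := ⟨_, rfl⟩
  have hbound : ∀ x ∈ T, x ≤ d + 130 + ‖c₀‖ := by
    intro x hx
    rw [hT] at hx
    obtain ⟨w, hw1, rfl⟩ := hx
    have := hline w hw1
    exact (norm_sub_le _ _).trans (by linarith)
  have hne : T.Nonempty := by
    rw [hT]
    exact ⟨_, -Complex.I, by simp, rfl⟩
  have hbdd : BddAbove T := ⟨_, hbound⟩
  have hM1 : ∀ w : ℂ, w.im = -1 → ‖δ w - c₀‖ ≤ sSup T := by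
    intro w hw1
    refine le_csSup hbdd ?_
    rw [hT]
    exact ⟨w, hw1, rfl⟩
  have hM0 : 0 ≤ sSup T := (norm_nonneg _).trans (hM1 (-Complex.I) (by simp))
  have hM2 : sSup T ≤ d + 130 + ‖c₀‖ := csSup_le hne hbound
  have hdec := hc₀ (-1) (sSup T) (by norm_num) hM1
  have hc0b : ‖c₀‖ ≤ 3 * (d + 130) := by
    have h1 := hdec w₁ (by simp)
    have h2 : (((w₁ : ℝ) : ℂ).im - -1) = 0 + 1 := by simp
    rw [h2] at h1
    have h3 : sSup T * Real.exp (-(2 * Real.pi * (0 + 1))) ≤ sSup T * (1 / 2) :=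
      mul_le_mul_of_nonneg_left exp_small hM0
    have h4 : ‖c₀‖ ≤ ‖δ w₁‖ + ‖δ w₁ - c₀‖ := by
      calc ‖c₀‖ = ‖δ w₁ - (δ w₁ - c₀)‖ := by ring_nf
        _ ≤ _ := norm_sub_le _ _
    have h6 : ‖δ w₁‖ ≤ d := by rw [← hδa]; exact hw
    have h7 := h1.trans h3
    clear h1 h3
    linarith
  refine ⟨c₀, sSup T, hM0, by linarith, hc0b, fun w hw1 => ?_, fun M' hM' => ?_⟩
  · have h1 := hdec w hw1
    rw [hδa]
    have e : w.im - -1 = w.im + 1 := by ring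
    rwa [e] at h1
  · refine csSup_le hne fun x hx => ?_
    rw [hT] at hx
    obtain ⟨w, hw1, rfl⟩ := hx
    have := hM' w hw1
    rwa [hδa] at this

/-- the functional equation for one value of `S` -/
lemma one_step {HG HA τ : ℂ → ℂ} {Y₀ ys S CL C2 M : ℝ} {c₀ : ℂ} (hys : Y₀ < ys)
    (ha : ∀ w : ℂ, ys ≤ w.im → ‖HG w - w‖ ≤ 1)
    (hb : ∀ (t : ℝ) (w w' : ℂ), ys ≤ t → t ≤ w.im → t ≤ w'.im →
      ‖(HG w - w) - (HG w' - w')‖ ≤ CL * Real.exp (-(2 * Real.pi * t)) * ‖w - w'‖)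
    (hC2 : 0 ≤ C2) (hM : 0 ≤ M) (hS1 : 1 ≤ S) (hS2 : ys + 1 + C2 ≤ S)
    (hdec : ∀ w : ℂ, -1 ≤ w.im → ‖τ w - w - c₀‖ ≤ M * Real.exp (-(2 * Real.pi * (w.im + 1))))
    (hδ : ∀ w : ℂ, -1 ≤ w.im → ‖τ w - w‖ ≤ C2)
    (heq : ∀ w : ℂ, -3 < w.im → Y₀ < w.im + S → Y₀ < (τ w).im + S →
      -3 < (HG (w + S * Complex.I)).im → τ (HG (w + S * Complex.I)) = HA (τ w + S * Complex.I))
    (w : ℂ) (hw : -1 ≤ w.im) :
    S - 1 - C2 ≤ (τ w + S * Complex.I).im ∧
    ∃ a b : ℂ, τ w - w = a + b - (HA (τ w + S * Complex.I) - HG (τ w + S * Complex.I)) ∧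
      ‖a - c₀‖ ≤ M * Real.exp (-(2 * Real.pi * (S - 1 - C2))) ∧
      ‖b‖ ≤ CL * Real.exp (-(2 * Real.pi * (S - 1 - C2))) * ‖τ w - w‖ := by
  have hpi := Real.pi_pos
  have hSI : (S * Complex.I : ℂ).im = S := by simp
  have him1 : (w + S * Complex.I).im = w.im + S := by rw [Complex.add_im, hSI]
  have him2 : (τ w + S * Complex.I).im = (τ w).im + S := by rw [Complex.add_im, hSI]
  have hτim : -1 - C2 ≤ (τ w).im := by
    have h1 := (abs_le.1 ((Complex.abs_im_le_norm (τ w - w)).trans (hδ w hw))).1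
    rw [Complex.sub_im] at h1
    linarith
  have hu : S - 1 - C2 ≤ (τ w + S * Complex.I).im := by rw [him2]; linarith
  refine ⟨hu, ?_⟩
  have hy1 : ys ≤ (w + S * Complex.I).im := by rw [him1]; linarith
  have hvim : w.im + S - 1 ≤ (HG (w + S * Complex.I)).im := by
    have h1 := (abs_le.1 ((Complex.abs_im_le_norm _).trans (ha _ hy1))).1
    rw [Complex.sub_im, him1] at h1
    linarith
  have h0 := heq w (by linarith) (by linarith) (by linarith) (by linarith)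
  refine ⟨τ (HG (w + S * Complex.I)) - HG (w + S * Complex.I),
    (HG (w + S * Complex.I) - (w + S * Complex.I)) -
      (HG (τ w + S * Complex.I) - (τ w + S * Complex.I)), ?_, ?_, ?_⟩
  · rw [h0]
    ring
  · refine (hdec _ (by linarith)).trans (mul_le_mul_of_nonneg_left ?_ hM)
    apply Real.exp_le_exp.2
    have h1 : S - 1 - C2 ≤ (HG (w + S * Complex.I)).im + 1 := by linarith
    have := mul_le_mul_of_nonneg_left h1 (by positivity : 0 ≤ 2 * Real.pi)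
    linarith
  · have h1 := hb (S - 1 - C2) (w + S * Complex.I) (τ w + S * Complex.I) (by linarith)
      (by rw [him1]; linarith) hu
    have e : w + S * Complex.I - (τ w + S * Complex.I) = -(τ w - w) := by ring
    rw [e, norm_neg] at h1
    exact h1

lemma qq_ne {w₁ w₂ : ℝ} (h : Irrational (w₁ - w₂)) {m : ℕ} (hm : 1 ≤ m) :
    qq w₁ ^ m ≠ qq w₂ ^ m := by
  intro heq
  unfold qq at heq
  rw [← Complex.exp_nat_mul, ← Complex.exp_nat_mul, Complex.exp_eq_exp_iff_exists_int] at heq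
  obtain ⟨n, hn⟩ := heq
  have hpi : (2 * Real.pi * Complex.I : ℂ) ≠ 0 := by
    simp [Real.pi_ne_zero]
  have h1 : (2 * Real.pi * Complex.I : ℂ) * (m * w₁) =
      (2 * Real.pi * Complex.I : ℂ) * (m * w₂ + n) := by linear_combination hn
  have h2 := mul_left_cancel₀ hpi h1
  have h3 : (m : ℝ) * w₁ = m * w₂ + n := by exact_mod_cast h2
  have hm0 : (m : ℝ) ≠ 0 := by
    have : m ≠ 0 := by omega
    exact_mod_cast this
  apply h
  refine ⟨(n : ℚ) / m, ?_⟩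
  push_cast
  rw [div_eq_iff hm0]
  linarith

lemma small (c ε : ℝ) (hε : 0 < ε) :
    ∀ᶠ S : ℝ in atTop, c * Real.exp (-(2 * Real.pi * S)) < ε := by
  have hpi := Real.pi_pos
  have h1 : Tendsto (fun S : ℝ => 2 * Real.pi * S) atTop atTop :=
    tendsto_id.const_mul_atTop (by positivity)
  have h2 : Tendsto (fun S : ℝ => c * Real.exp (-(2 * Real.pi * S))) atTop (𝓝 (c * 0)) :=
    (Real.tendsto_exp_neg_atTop_nhds_zero.comp h1).const_mul c
  rw [mul_zero] at h2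
  exact h2.eventually_lt_const hε

end HC_

open HC_ in
theorem p_HC (hPER : T_PER) (hUC : T_UC) : T_HC := by
  intro HG HA Y₀ w₁ w₂ hG hA hGp hAp hGl hAl hirr hτ
  have hpi := Real.pi_pos
  -- expansions
  obtain ⟨gK, hgK, hgK0, hK⟩ := qexp (f := fun w => HA w - HG w) (Y₀ := Y₀) (hA.sub hG)
    (fun w hw => by
      show HA (w + 1) - HG (w + 1) = HA w - HG w
      rw [hAp w hw, hGp w hw]
      ring)
    (fun ε hε => by
      obtain ⟨Y1, h1⟩ := hGl (ε / 2) (by positivity)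
      obtain ⟨Y2, h2⟩ := hAl (ε / 2) (by positivity)
      refine ⟨max Y1 Y2, fun w hw => ?_⟩
      have h3 := h1 w ((le_max_left _ _).trans_lt hw)
      have h4 := h2 w ((le_max_right _ _).trans_lt hw)
      calc ‖HA w - HG w‖ = ‖(HA w - w) - (HG w - w)‖ := by ring_nf
        _ ≤ ‖HA w - w‖ + ‖HG w - w‖ := norm_sub_le _ _
        _ < ε := by linarith)
  by_cases hev : ∀ᶠ q in 𝓝 (0 : ℂ), gK q = 0
  · obtain ⟨r, hr, hball⟩ := Metric.eventually_nhds_iff_ball.1 hev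
    obtain ⟨Y, hY⟩ := exists_height hr
    refine ⟨max Y Y₀, le_max_right _ _, fun w hw => ?_⟩
    have h1 := hK w ((le_max_right _ _).trans_lt hw)
    rw [hball _ (by
      rw [mem_ball_zero_iff]
      exact hY w ((le_max_left _ _).trans hw.le))] at h1
    exact (sub_eq_zero.1 h1).symm
  exfalso
  obtain ⟨m, k, CK, r1, hm, hk, hCK, hr1, hlead⟩ := leading hgK hgK0 hev
  obtain ⟨gE, hgE, hgE0, hE⟩ := qexp (f := fun w => HG w - w) (Y₀ := Y₀)
    (hG.sub differentiableOn_id)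
    (fun w hw => by
      show HG (w + 1) - (w + 1) = HG w - w
      rw [hGp w hw]
      ring) hGl
  obtain ⟨CE, r2, hCE, hr2, hlip⟩ := lipschitz hgE
  obtain ⟨Y1, hY1⟩ := exists_height hr1
  obtain ⟨Y2, hY2⟩ := exists_height hr2
  obtain ⟨Y3, hY3⟩ := hGl 1 one_pos
  obtain ⟨ys, hys⟩ : ∃ ys : ℝ, ys = max (max Y1 Y2) (max (Y3 + 1) (Y₀ + 1)) := ⟨_, rfl⟩
  have hys1 : Y1 ≤ ys := by rw [hys]; exact (le_max_left _ _).trans (le_max_left _ _)
  have hys2 : Y2 ≤ ys := by rw [hys]; exact (le_max_right _ _).trans (le_max_left _ _)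
  have hys3 : Y3 + 1 ≤ ys := by rw [hys]; exact (le_max_left _ _).trans (le_max_right _ _)
  have hys0 : Y₀ + 1 ≤ ys := by rw [hys]; exact (le_max_right _ _).trans (le_max_right _ _)
  have ha : ∀ w : ℂ, ys ≤ w.im → ‖HG w - w‖ ≤ 1 := fun w hw => (hY3 w (by linarith)).le
  obtain ⟨CL, hCLd⟩ : ∃ CL : ℝ, CL = CE * (2 * Real.pi) := ⟨_, rfl⟩
  have hCL : 0 ≤ CL := by rw [hCLd]; positivity
  have hb : ∀ (t : ℝ) (w w' : ℂ), ys ≤ t → t ≤ w.im → t ≤ w'.im →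
      ‖(HG w - w) - (HG w' - w')‖ ≤ CL * Real.exp (-(2 * Real.pi * t)) * ‖w - w'‖ := by
    intro t w w' ht hw hw'
    have e1 : HG w - w = gE (qq w) := hE w (by linarith)
    have e2 : HG w' - w' = gE (qq w') := hE w' (by linarith)
    rw [e1, e2]
    refine (hlip _ _ (hY2 w (by linarith)) (hY2 w' (by linarith))).trans ?_
    calc CE * ‖qq w - qq w'‖
        ≤ CE * (2 * Real.pi * Real.exp (-(2 * Real.pi * t)) * ‖w - w'‖) :=
          mul_le_mul_of_nonneg_left (qq_lip hw hw') hCE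
      _ = CL * Real.exp (-(2 * Real.pi * t)) * ‖w - w'‖ := by rw [hCLd]; ring
  have hc : ∀ w : ℂ, ys ≤ w.im → ‖(HA w - HG w) - k * qq w ^ m‖ ≤ CK * ‖qq w‖ ^ (m + 1) := by
    intro w hw
    have e1 : HA w - HG w = gK (qq w) := hK w (by linarith)
    rw [e1]
    exact hlead _ (hY1 w (by linarith))
  -- constants
  obtain ⟨S₀, hS₀⟩ := hτ
  have hw12 : w₁ - w₂ ≠ 0 := hirr.ne_zero
  obtain ⟨d, hdd⟩ : ∃ d : ℝ, d = |w₁ - w₂| := ⟨_, rfl⟩
  have hd : 0 < d := by rw [hdd]; exact abs_pos.2 hw12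
  obtain ⟨C1, hC1d⟩ : ∃ C1 : ℝ, C1 = d + 130 := ⟨_, rfl⟩
  have hC1 : 0 < C1 := by rw [hC1d]; linarith
  obtain ⟨A1, hA1d⟩ : ∃ A1 : ℝ, A1 = ‖k‖ + CK := ⟨_, rfl⟩
  have hA1 : 0 ≤ A1 := by rw [hA1d]; positivity
  obtain ⟨P, hPd⟩ : ∃ P : ℝ, P = Real.exp (2 * Real.pi * (1 + 7 * C1)) := ⟨_, rfl⟩
  have hP : 0 < P := by rw [hPd]; exact Real.exp_pos _
  have hD : 0 < ‖k‖ * ‖qq w₁ ^ m - qq w₂ ^ m‖ :=
    mul_pos (norm_pos_iff.2 hk) (norm_pos_iff.2 (sub_ne_zero.2 (qq_ne hirr hm)))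
  obtain ⟨S, ⟨⟨⟨⟨⟨⟨hs1, hs2⟩, hs3⟩, hs4⟩, hs5⟩, hs6⟩, hs7⟩⟩ :=
    ((((((eventually_ge_atTop S₀).and (eventually_ge_atTop 1)).and
      (eventually_ge_atTop (ys + 1 + 7 * C1))).and (small P 1 one_pos)).and
      (small ((1 + 2 * CL) * P) (1 / 2) (by norm_num))).and
      (small ((4 * C1 + 7 * CL * C1 + A1) * P) d hd)).and
      (small (4 * A1 * P ^ (m + 1) + 2 * CK) _ hD) |>.exists
  obtain ⟨Q, hQd⟩ : ∃ Q : ℝ, Q = Real.exp (-(2 * Real.pi * S)) := ⟨_, rfl⟩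
  have hQ : 0 < Q := by rw [hQd]; exact Real.exp_pos _
  rw [← hQd] at hs4 hs5 hs6 hs7
  obtain ⟨x, hxd⟩ : ∃ x : ℝ, x = P * Q := ⟨_, rfl⟩
  have hx : 0 < x := by rw [hxd]; positivity
  have hx1 : x ≤ 1 := by rw [hxd]; exact hs4.le
  have hxe : Real.exp (-(2 * Real.pi * (S - 1 - 7 * C1))) = x := by
    rw [hxd, hPd, hQd, ← Real.exp_add]
    congr 1
    ring
  obtain ⟨τ, hτd, hτi, hτp, hcase, heq⟩ := hS₀ S hs1
  have hτw : ‖τ w₁ - w₁‖ ≤ d := by
    rcases hcase with ⟨h1, -⟩ | ⟨h1, -⟩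
    · rw [h1, sub_self, norm_zero]
      exact hd.le
    · rw [h1, hdd, ← Complex.ofReal_sub, Complex.norm_real, Real.norm_eq_abs, abs_sub_comm]
  obtain ⟨c₀, M, hM0, hM1, hc0, hdec, hsup⟩ := delta_bounds hPER hUC hτd hτi hτp hτw
  rw [← hC1d] at hM1 hc0
  -- the bound for `δ`
  have hδM : ∀ w : ℂ, -1 ≤ w.im → ‖τ w - w - c₀‖ ≤ M := by
    intro w hw
    refine (hdec w hw).trans ?_
    have h1 : Real.exp (-(2 * Real.pi * (w.im + 1))) ≤ 1 := by
      rw [Real.exp_le_one_iff]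
      have : 0 ≤ 2 * Real.pi * (w.im + 1) := mul_nonneg (by positivity) (by linarith)
      linarith
    calc M * Real.exp (-(2 * Real.pi * (w.im + 1))) ≤ M * 1 :=
          mul_le_mul_of_nonneg_left h1 hM0
      _ = M := mul_one M
  have hδc : ∀ w : ℂ, -1 ≤ w.im → ‖τ w - w‖ ≤ ‖c₀‖ + M := by
    intro w hw
    calc ‖τ w - w‖ = ‖c₀ + (τ w - w - c₀)‖ := by ring_nf
      _ ≤ ‖c₀‖ + ‖τ w - w - c₀‖ := norm_add_le _ _
      _ ≤ ‖c₀‖ + M := by linarith [hδM w hw]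
  have hδ : ∀ w : ℂ, -1 ≤ w.im → ‖τ w - w‖ ≤ 7 * C1 := fun w hw => by
    linarith [hδc w hw]
  have hstep := one_step (c₀ := c₀) (by linarith : Y₀ < ys) ha hb
    (by positivity : 0 ≤ 7 * C1) hM0 hs2 hs3 hdec hδ heq
  rw [hxe] at hstep
  -- the bound for `K`
  have hKb : ∀ u : ℂ, S - 1 - 7 * C1 ≤ u.im → ‖HA u - HG u‖ ≤ A1 * x ^ m := by
    intro u hu
    have h1 := hc u (by linarith)
    have h2 : ‖qq u‖ ≤ x := by
      rw [norm_qq, ← hxe]
      apply Real.exp_le_exp.2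
      have := mul_le_mul_of_nonneg_left hu (by positivity : 0 ≤ 2 * Real.pi)
      linarith
    have h3 : ‖qq u‖ ^ m ≤ x ^ m := pow_le_pow_left₀ (norm_nonneg _) h2 m
    have h4 : ‖qq u‖ ^ (m + 1) ≤ x ^ m := by
      rw [pow_succ]
      calc ‖qq u‖ ^ m * ‖qq u‖ ≤ x ^ m * 1 :=
            mul_le_mul h3 (h2.trans hx1) (norm_nonneg _) (by positivity)
        _ = x ^ m := mul_one _
    calc ‖HA u - HG u‖ = ‖k * qq u ^ m + ((HA u - HG u) - k * qq u ^ m)‖ := by ring_nf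
      _ ≤ ‖k * qq u ^ m‖ + ‖(HA u - HG u) - k * qq u ^ m‖ := norm_add_le _ _
      _ ≤ ‖k‖ * x ^ m + CK * x ^ m := by
          rw [norm_mul, norm_pow]
          have h5 := mul_le_mul_of_nonneg_left h3 (norm_nonneg k)
          have h6 := mul_le_mul_of_nonneg_left h4 hCK
          linarith
      _ = A1 * x ^ m := by rw [hA1d]; ring
  -- the main estimate
  have hE1 : ∀ w : ℂ, -1 ≤ w.im →
      ‖τ w - w - c₀‖ ≤ M * x + CL * x * ‖τ w - w‖ + A1 * x ^ m := by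
    intro w hw
    obtain ⟨hu, a, b, hab, h1, h2⟩ := hstep w hw
    have h3 := hKb _ hu
    calc ‖τ w - w - c₀‖ = ‖(a - c₀) + b - (HA (τ w + S * Complex.I) -
          HG (τ w + S * Complex.I))‖ := by rw [hab]; ring_nf
      _ ≤ ‖(a - c₀) + b‖ + ‖HA (τ w + S * Complex.I) - HG (τ w + S * Complex.I)‖ :=
          norm_sub_le _ _
      _ ≤ ‖a - c₀‖ + ‖b‖ + ‖HA (τ w + S * Complex.I) - HG (τ w + S * Complex.I)‖ := by
          linarith [norm_add_le (a - c₀) b]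
      _ ≤ _ := by linarith
  have hE2 : M ≤ M * x + CL * x * (‖c₀‖ + M) + A1 * x ^ m := by
    refine hsup _ fun w hw => (hE1 w hw.ge).trans ?_
    have h1 := mul_le_mul_of_nonneg_left (hδc w hw.ge) (by positivity : 0 ≤ CL * x)
    linarith
  rcases hcase with ⟨h1, h2⟩ | ⟨h1, h2⟩
  · -- fixed points
    have hcM : ‖c₀‖ ≤ M := by
      have h3 := hδM w₁ (by simp)
      rw [h1, sub_self, zero_sub, norm_neg] at h3
      exact h3
    have hMx : M ≤ 2 * A1 * x ^ m := by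
      have h4 : CL * x * (‖c₀‖ + M) ≤ CL * x * (2 * M) :=
        mul_le_mul_of_nonneg_left (by linarith) (by positivity)
      have h5 : (1 + 2 * CL) * x ≤ 1 / 2 := by
        rw [hxd, ← mul_assoc]
        exact hs5.le
      have h6 : M * ((1 + 2 * CL) * x) ≤ M * (1 / 2) := mul_le_mul_of_nonneg_left h5 hM0
      have h7 : M * x + CL * x * (2 * M) = M * ((1 + 2 * CL) * x) := by ring
      linarith
    have hKj : ∀ v : ℝ, τ v = v →
        ‖(HA (v + S * Complex.I) - HG (v + S * Complex.I)) - c₀‖ ≤ M * x ∧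
        ‖(HA (v + S * Complex.I) - HG (v + S * Complex.I)) - k * (qq v * qq (S * Complex.I)) ^ m‖
          ≤ CK * Q ^ (m + 1) := by
      intro v hv
      obtain ⟨hu, a, b, hab, h3, h4⟩ := hstep v (by simp)
      rw [hv, sub_self, norm_zero, mul_zero] at h4
      have hb0 : b = 0 := norm_le_zero_iff.1 h4
      rw [hv, sub_self, hb0, add_zero] at hab
      rw [hv] at hu
      have e : HA (v + S * Complex.I) - HG (v + S * Complex.I) = a := (sub_eq_zero.1 hab.symm).symm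
      refine ⟨by rw [e]; exact h3, ?_⟩
      have h5 := hc (v + S * Complex.I) (by linarith)
      have h6 : ‖qq (v + S * Complex.I)‖ = Q := by
        rw [norm_qq, hQd]
        simp
      rw [h6, qq_add] at h5
      exact h5
    obtain ⟨g1, g2⟩ := hKj w₁ h1
    obtain ⟨g3, g4⟩ := hKj w₂ h2
    have hqS : ‖qq (S * Complex.I)‖ = Q := by
      rw [norm_qq, hQd]
      simp
    have hfin : ‖k‖ * ‖qq w₁ ^ m - qq w₂ ^ m‖ * Q ^ m ≤ 2 * (M * x) + 2 * (CK * Q ^ (m + 1)) := by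
      have e1 : ‖k‖ * ‖qq w₁ ^ m - qq w₂ ^ m‖ * Q ^ m =
          ‖k * (qq w₁ * qq (S * Complex.I)) ^ m - k * (qq w₂ * qq (S * Complex.I)) ^ m‖ := by
        rw [← hqS, ← norm_pow, ← norm_mul, ← norm_mul]
        congr 1
        rw [mul_pow, mul_pow]
        ring
      rw [e1]
      obtain ⟨K1, hK1⟩ : ∃ K1 : ℂ, K1 = HA (w₁ + S * Complex.I) - HG (w₁ + S * Complex.I) :=
        ⟨_, rfl⟩
      obtain ⟨K2, hK2⟩ : ∃ K2 : ℂ, K2 = HA (w₂ + S * Complex.I) - HG (w₂ + S * Complex.I) :=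
        ⟨_, rfl⟩
      rw [← hK1] at g1 g2
      rw [← hK2] at g3 g4
      obtain ⟨X1, hX1⟩ : ∃ X1 : ℂ, X1 = k * (qq w₁ * qq (S * Complex.I)) ^ m := ⟨_, rfl⟩
      obtain ⟨X2, hX2⟩ : ∃ X2 : ℂ, X2 = k * (qq w₂ * qq (S * Complex.I)) ^ m := ⟨_, rfl⟩
      rw [← hX1] at g2 ⊢
      rw [← hX2] at g4 ⊢
      have e2 : X1 - X2 = ((K1 - c₀) - (K2 - c₀)) - ((K1 - X1) - (K2 - X2)) := by ring
      rw [e2]
      have q1 := norm_sub_le ((K1 - c₀) - (K2 - c₀)) ((K1 - X1) - (K2 - X2))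
      have q2 := norm_sub_le (K1 - c₀) (K2 - c₀)
      have q3 := norm_sub_le (K1 - X1) (K2 - X2)
      linarith
    have hMx2 : M * x ≤ 2 * A1 * x ^ m * x := mul_le_mul_of_nonneg_right hMx hx.le
    have e3 : 2 * (2 * A1 * x ^ m * x) + 2 * (CK * Q ^ (m + 1)) =
        (4 * A1 * P ^ (m + 1) + 2 * CK) * Q * Q ^ m := by
      rw [hxd]
      ring
    have h8 : ‖k‖ * ‖qq w₁ ^ m - qq w₂ ^ m‖ * Q ^ m ≤
        (4 * A1 * P ^ (m + 1) + 2 * CK) * Q * Q ^ m := by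
      rw [← e3]
      linarith
    have h9 := le_of_mul_le_mul_right h8 (by positivity : 0 < Q ^ m)
    linarith
  · -- exchanged points
    have h3 := hδM w₁ (by simp)
    have h4 := hδM w₂ (by simp)
    rw [h1] at h3
    rw [h2] at h4
    have h5 : ‖((w₂ : ℂ) - w₁ - c₀) - ((w₁ : ℂ) - w₂ - c₀)‖ = 2 * d := by
      have e : ((w₂ : ℂ) - w₁ - c₀) - ((w₁ : ℂ) - w₂ - c₀) = ((2 * (w₂ - w₁) : ℝ) : ℂ) := by
        push_cast
        ring
      rw [e, Complex.norm_real, Real.norm_eq_abs, abs_mul, abs_two, hdd, abs_sub_comm]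
    have h6 : d ≤ M := by
      have h7 := norm_sub_le ((w₂ : ℂ) - w₁ - c₀) ((w₁ : ℂ) - w₂ - c₀)
      rw [h5] at h7
      linarith
    have hxm : x ^ m ≤ x := by
      calc x ^ m ≤ x ^ 1 := pow_le_pow_of_le_one hx.le hx1 hm
        _ = x := pow_one x
    have h7 : M * x ≤ 4 * C1 * x := mul_le_mul_of_nonneg_right hM1 hx.le
    have h8 : CL * x * (‖c₀‖ + M) ≤ CL * x * (7 * C1) :=
      mul_le_mul_of_nonneg_left (by linarith) (by positivity)
    have h9 : A1 * x ^ m ≤ A1 * x := mul_le_mul_of_nonneg_left hxm hA1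
    have h10 : d ≤ (4 * C1 + 7 * CL * C1 + A1) * x := by
      calc d ≤ M := h6
        _ ≤ M * x + CL * x * (‖c₀‖ + M) + A1 * x ^ m := hE2
        _ ≤ 4 * C1 * x + CL * x * (7 * C1) + A1 * x := by linarith
        _ = (4 * C1 + 7 * CL * C1 + A1) * x := by ring
    rw [hxd, ← mul_assoc] at h10
    linarith

end Pool.Agent.MAT
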