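import Pool.Agent.MAT.T
import Pool.Agent.PLim.KOEB

/-!
# MAT: HKA, the map `χ` respects the Fatou coordinates
-/

set_option autoImplicit false

open Polynomial Metric Set Filter Topology

noncomputable section

namespace Pool.Agent.MAT

namespace HKA_

/-- an injective entire function which commutes with the translation by one is a translation -/
lemma transl {T : ℂ → ℂ} (hT : Differentiable ℂ T) (hinj : Function.Injective T)
    (h1 : ∀ w, T (w + 1) = T w + 1) : ∀ w, T w = w + T 0 := by
  have hb : ∀ a : ℂ, ‖deriv T a‖ ≤ 64 := by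
    intro a
    have h := Pool.Agent.PLim.p_KOEB a 1 (fun w => T w - T (a + 1)) one_pos
      (hT.sub_const _).differentiableOn (fun x _ y _ hxy => hinj (sub_left_injective hxy)) ?_
    · rw [deriv_sub_const, h1] at h
      have h2 : T a - (T a + 1) = -1 := by ring
      rw [h2, norm_neg, norm_one, mul_one, mul_one] at h
      exact h
    · intro x hx h0
      have h2 : T x = T (a + 1) := sub_eq_zero.mp h0
      have h3 := hinj h2
      rw [h3, mem_ball_iff_norm, add_sub_cancel_left, norm_one] at hx
      exact lt_irrefl _ hx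
  have hd : Differentiable ℂ (deriv T) := by
    have h := (hT.differentiableOn (s := univ)).deriv isOpen_univ
    exact differentiableOn_univ.mp h
  have hbd : Bornology.IsBounded (range (deriv T)) := by
    rw [isBounded_iff_forall_norm_le]
    refine ⟨64, ?_⟩
    rintro _ ⟨a, rfl⟩
    exact hb a
  have hc : ∀ w, deriv T w = deriv T 0 := fun w => hd.apply_eq_apply_of_bounded hbd w 0
  have hconst : ∀ w, T w - deriv T 0 * w = T 0 := by
    intro w
    have hdd : Differentiable ℂ fun w => T w - deriv T 0 * w :=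
      hT.sub (differentiable_id.const_mul _)
    have hz : ∀ x, deriv (fun w => T w - deriv T 0 * w) x = 0 := by
      intro x
      have h : HasDerivAt (fun w => T w - deriv T 0 * w) (deriv T x - deriv T 0 * 1) x :=
        (hT x).hasDerivAt.sub ((hasDerivAt_id x).const_mul _)
      rw [h.deriv, hc x, mul_one, sub_self]
    have := is_const_of_deriv_eq_zero hdd hz w 0
    simpa using this
  have h2 := hconst 1
  have h3 := h1 0
  rw [zero_add] at h3
  have h4 : deriv T 0 = 1 := by
    linear_combination h3 - h2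
  intro w
  have h5 := hconst w
  rw [h4, one_mul] at h5
  linear_combination h5

end HKA_

open HKA_ in
theorem p_HKA (hPB : T_HPB) (hPH : T_HPH) (hGBA : T_GBA) (hGAB : T_GAB) (hLAB : T_LAB) :
    T_HKA := by
  intro n e A N D R ϕ χ p a hn he he2 hA hR K L
  obtain ⟨uOpen, uConn, -, uInv, uConv, -, -, u1, -, -, -, u0, ue⟩ := hGBA n e hn he he2
  obtain ⟨-, -, -, -, -, -, labD⟩ := hLAB n A N D R ϕ (by omega) hA hR.deg hR.aside
  obtain ⟨-, -, -, k4, -, k6, k7, -, k9, k10⟩ := hPB (GG n e) 1 (cA n e) K
  obtain ⟨l1, l2, l3, -, l5, -, -, -, -, -⟩ := hPB (rf N D) p a L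
  -- the semiconjugacy
  have hD : ∀ v ∈ UG n e, D.eval (χ v) ≠ 0 := fun v hv h0 => hR.cross v hv (labD _ h0)
  have hcj : ∀ v ∈ UG n e, rf N D (χ v) = χ (GG n e v) := by
    intro v hv
    unfold rf
    rw [div_eq_iff (hD v hv)]
    exact hR.conj v hv
  have hmem : ∀ v ∈ UG n e, ∀ m : ℕ, (GG n e)^[m] v ∈ UG n e := by
    intro v hv m
    induction m with
    | zero => exact hv
    | succ m ih =>
      rw [Function.iterate_succ_apply']
      exact (uInv _).mpr ih
  have hit : ∀ v ∈ UG n e, ∀ m : ℕ, (rf N D)^[m] (χ v) = χ ((GG n e)^[m] v) := by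
    intro v hv m
    induction m with
    | zero => rfl
    | succ m ih =>
      rw [Function.iterate_succ_apply', Function.iterate_succ_apply', ih, hcj _ (hmem v hv m)]
  have hgp : rf N D p = p := by
    unfold rf
    rw [div_eq_iff hR.denp]
    exact hR.fixp
  have hnep : ∀ v ∈ UG n e, χ v ≠ p := by
    intro v hv h
    have h2 : χ (GG n e v) = χ v := by rw [← hcj v hv, h, hgp]
    have h3 : GG n e v = v := hR.inj ((uInv v).mpr hv) hv h2
    have h4 : ∀ m : ℕ, (GG n e)^[m] v = v := fun m => Function.iterate_fixed h3 m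
    have h5 := (uConv v hv).1
    simp only [h4] at h5
    have h6 : v = 1 := tendsto_nhds_unique tendsto_const_nhds h5
    rw [h6] at hv
    exact u1 hv
  have hex : ∀ v ∈ UG n e, ∃ w : ℂ, L.HasPhi (χ v) w := by
    intro v hv
    apply l3
    · simp only [hit v hv]
      exact hR.conv v hv
    · intro m
      rw [hit v hv]
      exact hnep _ (hmem v hv m)
  -- the image of the basin is open
  have hopen : IsOpen (χ '' UG n e) := by
    have han : AnalyticOnNhd ℂ χ (UG n e) := hR.hol.analyticOnNhd uOpen
    rcases han.is_constant_or_isOpen uConn with ⟨w, hw⟩ | h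
    · exfalso
      have h1 : χ 0 = χ (-(e : ℂ)) := by rw [hw 0 u0, hw _ ue]
      have h2 := hR.inj u0 ue h1
      have h3 : (e : ℂ) = 0 := by linear_combination h2
      exact he.ne' (by exact_mod_cast h3)
    · exact h _ subset_rfl uOpen
  -- the coordinate on the image
  have hex2 : ∀ y : ℂ, ∃ w : ℂ, y ∈ χ '' UG n e → L.HasPhi y w := by
    intro y
    by_cases hy : y ∈ χ '' UG n e
    · obtain ⟨v, hv, rfl⟩ := hy
      obtain ⟨w, hw⟩ := hex v hv
      exact ⟨w, fun _ => hw⟩
    · exact ⟨0, fun h => absurd h hy⟩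
  choose Φ hΦ using hex2
  have hΦd : DifferentiableOn ℂ Φ (χ '' UG n e) := by
    refine hPH (rf N D) p a L (χ '' UG n e) Φ hopen ?_ ?_ hΦ
    · rintro _ ⟨v, hv, rfl⟩
      unfold rf
      exact ((N.differentiable _).div (D.differentiable _) (hD v hv)).differentiableWithinAt
    · rintro _ ⟨v, hv, rfl⟩
      exact ⟨GG n e v, (uInv v).mpr hv, (hcj v hv).symm⟩
  -- the inverse incoming coordinate of `G`
  have hEi : ∀ w : ℂ, K.R < w.re → K.Ei w ∈ UG n e := by
    intro w hw
    obtain ⟨h1, h2, -⟩ := k4 _ _ (k6 w hw)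
    exact hGAB n e hn he he2 _ h1 h2
  set T0 : ℂ → ℂ := fun w => Φ (χ (K.Ei w)) with hT0
  have hT0p : ∀ w : ℂ, K.R < w.re → L.HasPhi (χ (K.Ei w)) (T0 w) := fun w hw =>
    hΦ _ ⟨_, hEi w hw, rfl⟩
  have hT0d : DifferentiableOn ℂ T0 {w | K.R < w.re} := by
    have h1 : DifferentiableOn ℂ (fun w => χ (K.Ei w)) {w | K.R < w.re} :=
      hR.hol.comp K.Ei_hol fun w hw => hEi w hw
    exact hΦd.comp h1 fun w hw => ⟨_, hEi w hw, rfl⟩
  have hT01 : ∀ w : ℂ, K.R < w.re → T0 (w + 1) = T0 w + 1 := by
    intro w hw
    have hw1 : K.R < (w + 1).re := by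
      rw [Complex.add_re, Complex.one_re]
      linarith
    have h1 := hT0p (w + 1) hw1
    rw [k7 w hw, ← hcj _ (hEi w hw)] at h1
    have h2 := (l2 _ _).mpr (hT0p w hw)
    exact l1 _ _ _ h1 h2
  have hT0m : ∀ (m : ℕ) (w : ℂ), K.R < w.re → T0 (w + m) = T0 w + m := by
    intro m
    induction m with
    | zero =>
      intro w _
      simp
    | succ m ih =>
      intro w hw
      have hw1 : K.R < (w + m).re := by
        rw [Complex.add_re, Complex.natCast_re]
        have : (0 : ℝ) ≤ m := m.cast_nonneg
        linarith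
      have e1 : w + ((m + 1 : ℕ) : ℂ) = (w + m) + 1 := by
        push_cast
        ring
      rw [e1, hT01 _ hw1, ih w hw]
      push_cast
      ring
  -- the entire function
  have hM : ∀ w : ℂ, ∃ m : ℕ, K.R < w.re + m := by
    intro w
    obtain ⟨m, hm⟩ := exists_nat_gt (K.R - w.re)
    exact ⟨m, by linarith⟩
  choose M hM using hM
  set T : ℂ → ℂ := fun w => T0 (w + M w) - M w with hT
  have hre : ∀ (w : ℂ) (m : ℕ), K.R < w.re + m → K.R < (w + m).re := by
    intro w m h
    rwa [Complex.add_re, Complex.natCast_re]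
  have hTm : ∀ (w : ℂ) (m : ℕ), K.R < w.re + m → T w = T0 (w + m) - m := by
    intro w m hm
    have h1 := hT0m m (w + M w) (hre w _ (hM w))
    have h2 := hT0m (M w) (w + m) (hre w _ hm)
    have e1 : w + (M w : ℂ) + (m : ℂ) = w + (m : ℂ) + (M w : ℂ) := by ring
    rw [e1, h2] at h1
    simp only [hT]
    linear_combination -h1
  have hTd : Differentiable ℂ T := by
    intro w0
    have hm := hM w0
    set m := M w0
    have hev : T =ᶠ[𝓝 w0] fun w => T0 (w + m) - m := by
      have ho : IsOpen {w : ℂ | K.R < w.re + m} :=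
        isOpen_lt continuous_const (Complex.continuous_re.add continuous_const)
      filter_upwards [ho.mem_nhds hm] with w hw
      exact hTm w m hw
    refine DifferentiableAt.congr_of_eventuallyEq ?_ hev
    have hd : DifferentiableAt ℂ T0 (w0 + m) :=
      hT0d.differentiableAt ((isOpen_lt continuous_const Complex.continuous_re).mem_nhds
        (hre w0 m hm))
    have hd2 : DifferentiableAt ℂ (fun w => T0 (w + m)) w0 :=
      DifferentiableAt.comp (f := fun w : ℂ => w + (m : ℂ)) (g := T0) w0 hd
        (differentiableAt_id.add_const _)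
    exact hd2.sub_const _
  have hT1 : ∀ w, T (w + 1) = T w + 1 := by
    intro w
    have hm := hM w
    set m := M w
    have h1 : K.R < (w + 1).re + m := by
      rw [Complex.add_re, Complex.one_re]
      linarith
    rw [hTm _ m h1, hTm w m hm]
    have e1 : w + 1 + (m : ℂ) = w + m + 1 := by ring
    rw [e1, hT01 _ (hre w m hm)]
    ring
  -- iterates of `Ei`
  have hEim : ∀ (m : ℕ) (w : ℂ), K.R < w.re → (GG n e)^[m] (K.Ei w) = K.Ei (w + m) := by
    intro m
    induction m with
    | zero =>
      intro w _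
      simp
    | succ m ih =>
      intro w hw
      have hw1 : K.R < (w + m).re := by
        rw [Complex.add_re, Complex.natCast_re]
        have : (0 : ℝ) ≤ m := m.cast_nonneg
        linarith
      have e1 : w + ((m + 1 : ℕ) : ℂ) = (w + m) + 1 := by
        push_cast
        ring
      rw [Function.iterate_succ_apply', ih w hw, e1, k7 _ hw1]
  have hTinj : Function.Injective T := by
    intro w w' h
    set m := M w + M w' with hmd
    have hm1 : K.R < w.re + m := by
      have := hM w
      rw [hmd]
      push_cast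
      have : (0 : ℝ) ≤ M w' := (M w').cast_nonneg
      linarith
    have hm2 : K.R < w'.re + m := by
      have := hM w'
      rw [hmd]
      push_cast
      have : (0 : ℝ) ≤ M w := (M w).cast_nonneg
      linarith
    rw [hTm w m hm1, hTm w' m hm2] at h
    have h' : T0 (w + m) = T0 (w' + m) := sub_left_injective h
    have r1 := hre w m hm1
    have r2 := hre w' m hm2
    have p1 := hT0p _ r1
    have p2 := hT0p _ r2
    rw [← h'] at p2
    obtain ⟨j, hj⟩ := l5 _ _ _ p1 p2
    have hj' := hj j le_rfl
    rw [hit _ (hEi _ r1), hit _ (hEi _ r2), hEim j _ r1, hEim j _ r2] at hj'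
    have r3 : K.R < (w + m + j).re := by
      rw [Complex.add_re (w + m), Complex.natCast_re]
      have : (0 : ℝ) ≤ j := j.cast_nonneg
      linarith
    have r4 : K.R < (w' + m + j).re := by
      rw [Complex.add_re (w' + m), Complex.natCast_re]
      have : (0 : ℝ) ≤ j := j.cast_nonneg
      linarith
    have h5 := hR.inj (hEi _ r3) (hEi _ r4) hj'
    have h6 := k10 r3 r4 h5
    linear_combination h6
  have hfin := transl hTd hTinj hT1
  refine ⟨T 0, ?_⟩
  intro x hx w hw
  obtain ⟨m, hm⟩ := k9 x w hw
  obtain ⟨hm1, hm2⟩ := hm m le_rfl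
  have h1 := hT0p (w + m) (hre w m hm1)
  have h2 := hTm w m hm1
  rw [hfin w] at h2
  have h3 : T0 (w + m) = (w + T 0) + m := by linear_combination -h2
  rw [h3, ← hm2, ← hit x hx m] at h1
  -- go back
  have hback : ∀ (m : ℕ) (y t : ℂ), L.HasPhi ((rf N D)^[m] y) (t + m) → L.HasPhi y t := by
    intro m
    induction m with
    | zero =>
      intro y t h
      simpa using h
    | succ m ih =>
      intro y t h
      apply ih
      rw [Function.iterate_succ_apply'] at h
      apply (l2 _ _).mp
      have e1 : t + ((m + 1 : ℕ) : ℂ) = t + m + 1 := by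
        push_cast
        ring
      rwa [e1] at h
  exact hback m _ _ h1

end Pool.Agent.MAT
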