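import Pool.Agent.MAT.T

/-!
# MAT: the limit of the conjugacies along a horocyclic sequence (HOA)
-/

set_option autoImplicit false

open Polynomial Metric Set Filter Topology

noncomputable section

namespace Pool.Agent.MAT

namespace HOA_

lemma ell_tendsto (S : ℝ) : Tendsto (fun k : ℕ => ell S k) atTop (𝓝 0) := by
  have h1 : Tendsto (fun k : ℕ => 2 * Real.pi / (k : ℝ)) atTop (𝓝 0) :=
    tendsto_const_nhds.div_atTop tendsto_natCast_atTop_atTop
  refine squeeze_zero_norm' ?_ h1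
  filter_upwards [eventually_gt_atTop 0] with k hk
  have hk' : (0 : ℝ) < k := by exact_mod_cast hk
  have h2 : (k : ℝ) ≤ ‖(k : ℂ) - S * Complex.I‖ := by
    have h3 := Complex.abs_re_le_norm ((k : ℂ) - S * Complex.I)
    simpa using h3
  unfold ell
  rw [norm_div]
  have h4 : ‖2 * (Real.pi : ℂ) * Complex.I‖ = 2 * Real.pi := by
    rw [norm_mul, norm_mul, Complex.norm_I, Complex.norm_real, Real.norm_eq_abs,
      abs_of_pos Real.pi_pos]
    simp
  rw [h4]
  exact div_le_div_of_nonneg_left (by positivity) hk' h2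

lemma mu_tendsto (S : ℝ) : Tendsto (fun k : ℕ => Complex.exp (ell S k)) atTop (𝓝 1) := by
  have h := (Complex.continuous_exp.tendsto 0).comp (ell_tendsto S)
  rw [Complex.exp_zero] at h
  exact h

lemma GF_tendsto (n : ℕ) (e S : ℝ) (x : ℂ) :
    Tendsto (fun k : ℕ => GF n e (Complex.exp (ell S k)) x) atTop (𝓝 (GG n e x)) := by
  have h := ((mu_tendsto S).mul_const (GG n e x - 1)).const_add 1
  have h2 : (1 : ℂ) + 1 * (GG n e x - 1) = GG n e x := by ring
  rw [h2] at h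
  exact h

lemma eval_tendsto (hPCE : T_PCE) {l : Filter ℕ} {d : ℕ} {Pk : ℕ → ℂ[X]} {P : ℂ[X]}
    (h : PConv l d Pk P) {yk : ℕ → ℂ} {y : ℂ} (hy : Tendsto yk l (𝓝 y)) :
    Tendsto (fun k => (Pk k).eval (yk k)) l (𝓝 (P.eval y)) := by
  have h1 := hPCE l d Pk P h
  refine h1.tendsto_comp (P.continuous.continuousWithinAt) (mem_univ _) ?_
  rw [nhdsWithin_univ]
  exact hy

lemma coprime_ne {N D : ℂ[X]} (h : IsCoprime N D) {z : ℂ} (hN : N.eval z = 0) :
    D.eval z ≠ 0 := by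
  intro hD
  obtain ⟨a, b, hab⟩ := h
  have h1 := congrArg (fun P => P.eval z) hab
  simp only [eval_add, eval_mul, hN, hD, mul_zero, add_zero, eval_one] at h1
  exact zero_ne_one h1

end HOA_

open HOA_

theorem p_HOA (hUL : T_UL) (hPCE : T_PCE) (hPCW : T_PCW) (hLPM : T_LPM) : T_HOA := by
  intro n e A ρ R S N D u Nk Dk ϕk χk U hn he he2 hA hND hH hU hinv hball
  have hpair := hH.pair
  have hfac : ∀ᶠ k in (u : Filter ℕ),
      (wr (Nk k) (Dk k)).eval (χk k 0) = 0 ∧ (wr (Nk k) (Dk k)).eval (χk k (-(e : ℂ))) = 0 ∧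
      ∀ v ∈ Bas n e (Complex.exp (ell S k)), ‖χk k v‖ < R := by
    filter_upwards [hpair] with k hk
    obtain ⟨-, -, h3, h4, -, h6⟩ := hLPM n e A ρ _ _ _ R _ _ hn he he2 hA hk
    exact ⟨h3, h4, h6⟩
  obtain ⟨χS, hol, hlim⟩ := hUL u U χk hU (fun x hx => by
    obtain ⟨r, hr, hrU, hrB⟩ := hball x hx
    refine ⟨r, R, hr, hrU, ?_⟩
    filter_upwards [hpair, hfac, hH.hu hrB] with k h1 h2 h3
    exact ⟨h1.hol.mono h3, fun y hy => (h2.2.2 y (h3 hy)).le⟩)
  have hpt : ∀ x ∈ U, Tendsto (fun k => χk k x) (u : Filter ℕ) (𝓝 (χS x)) :=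
    fun x hx => hlim.tendsto_at hx
  have hxB : ∀ x ∈ U, ∀ᶠ k in (u : Filter ℕ), x ∈ Bas n e (Complex.exp (ell S k)) := by
    intro x hx
    obtain ⟨r, hr, -, hrB⟩ := hball x hx
    filter_upwards [hH.hu hrB] with k h3
    exact h3 (mem_ball_self hr)
  have hconj : ∀ x ∈ U, N.eval (χS x) = χS (GG n e x) * D.eval (χS x) := by
    intro x hx
    have h1 := eval_tendsto hPCE hH.cN (hpt x hx)
    have h2 := eval_tendsto hPCE hH.cD (hpt x hx)
    have h3 : Tendsto (fun k => χk k (GF n e (Complex.exp (ell S k)) x)) (u : Filter ℕ)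
        (𝓝 (χS (GG n e x))) := by
      refine hlim.tendsto_comp (hol.continuousOn _ (hinv x hx)) (hinv x hx) ?_
      rw [hU.nhdsWithin_eq (hinv x hx)]
      exact (GF_tendsto n e S x).mono_left hH.hu
    have h4 : Tendsto (fun k => (Nk k).eval (χk k x)) (u : Filter ℕ)
        (𝓝 (χS (GG n e x) * D.eval (χS x))) := by
      refine (h3.mul h2).congr' ?_
      filter_upwards [hpair, hxB x hx] with k h5 h6
      exact (h5.conj x h6).symm
    exact tendsto_nhds_unique h1 h4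
  have hwr : ∀ x ∈ U, (∀ᶠ k in (u : Filter ℕ), (wr (Nk k) (Dk k)).eval (χk k x) = 0) →
      (wr N D).eval (χS x) = 0 := by
    intro x hx h0
    have h1 := eval_tendsto hPCE (hPCW u n Nk Dk N D hH.cN hH.cD).1 (hpt x hx)
    refine tendsto_nhds_unique h1 (tendsto_const_nhds.congr' ?_)
    filter_upwards [h0] with k hk
    exact hk.symm
  refine ⟨χS, hol, hlim, fun x hx => ⟨fun h0 => ?_, hconj x hx⟩, fun h0 => ?_, fun h0 => ?_, ?_⟩
  · have h1 := hconj x hx
    rw [h0, mul_zero] at h1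
    exact coprime_ne hND.cop h1 h0
  · exact hwr 0 h0 (hfac.mono fun k hk => hk.1)
  · exact hwr _ h0 (hfac.mono fun k hk => hk.2.1)
  · intro x hx
    refine le_of_tendsto (hpt x hx).norm ?_
    filter_upwards [hfac, hxB x hx] with k h1 h2
    exact (h1.2.2 x h2).le

end Pool.Agent.MAT
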