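import Pool.Agent.MAT.T

/-!
# MAT: HOC (the limit avoids the outer component), by helper76
-/

set_option autoImplicit false

open Polynomial Metric Set Filter Topology

noncomputable section

namespace Pool.Agent.MAT

namespace HOC_

/-- the orbit of `χS x` -/
lemma orbit {n : ℕ} {e : ℝ} {N D : ℂ[X]} {χS : ℂ → ℂ} {U : Set ℂ}
    (hU : ∀ x ∈ U, GG n e x ∈ U)
    (hc : ∀ x ∈ U, D.eval (χS x) ≠ 0 ∧ N.eval (χS x) = χS (GG n e x) * D.eval (χS x))
    {x : ℂ} (hx : x ∈ U) (m : ℕ) :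
    (GG n e)^[m] x ∈ U ∧ (rf N D)^[m] (χS x) = χS ((GG n e)^[m] x) := by
  induction m with
  | zero => exact ⟨hx, rfl⟩
  | succ m ih =>
    obtain ⟨h1, h2⟩ := ih
    rw [Function.iterate_succ_apply', Function.iterate_succ_apply', h2]
    refine ⟨hU _ h1, ?_⟩
    obtain ⟨h3, h4⟩ := hc _ h1
    unfold rf
    rw [h4, mul_div_assoc, div_self h3, mul_one]

end HOC_

open HOC_ in
theorem p_HOC (hLAB : T_LAB) : T_HOC := by
  intro n e A N D R R' ϕ χ χS p U hn he he2 hA hRad hU hc hb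
  have hout : ∀ x ∈ U, χS x ∉ Out ϕ := by
    intro x hx hxO
    obtain ⟨-, -, -, -, -, h6, -⟩ := hLAB n A N D R' ϕ (by omega) hA hRad.deg hRad.aside
    have h1 := h6 (χS x) hxO (fun m => by
      rw [(orbit hU hc hx m).2]
      exact (hc _ (orbit hU hc hx m).1).1)
    obtain ⟨m, hm⟩ := (h1.eventually_gt_atTop R).exists
    rw [(orbit hU hc hx m).2] at hm
    exact absurd (hb _ (orbit hU hc hx m).1) (not_le.2 hm)
  refine ⟨hout, fun h0 hw => ?_, fun h0 hw => ?_⟩
  · rcases hRad.crit _ hw with h | h | h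
    · exact absurd h (hout _ h0)
    · exact Or.inl h
    · exact Or.inr h
  · rcases hRad.crit _ hw with h | h | h
    · exact absurd h (hout _ h0)
    · exact Or.inl h
    · exact Or.inr h

end Pool.Agent.MAT
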