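import Pool.Agent.MAT.T

/-!
# MAT: HOE, the limit of the passage is respected
-/

set_option autoImplicit false

open Polynomial Metric Set Filter Topology

noncomputable section

namespace Pool.Agent.MAT

namespace HOE_

lemma GG_diff (n : ℕ) (e : ℝ) : Differentiable ℂ (GG n e) := by
  unfold GG
  fun_prop

lemma GG_cont (n : ℕ) (e : ℝ) : Continuous (GG n e) := (GG_diff n e).continuous

lemma GF_diff (n : ℕ) (e : ℝ) (μ : ℂ) : Differentiable ℂ (GF n e μ) := by
  unfold GF
  have := GG_diff n e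
  fun_prop

lemma ell_tendsto (S : ℝ) : Tendsto (fun k : ℕ => ell S k) atTop (𝓝 0) := by
  rw [tendsto_zero_iff_norm_tendsto_zero]
  have h1 : Tendsto (fun k : ℕ => 2 * Real.pi / (k : ℝ)) atTop (𝓝 0) :=
    tendsto_const_nhds.div_atTop tendsto_natCast_atTop_atTop
  refine squeeze_zero' (Eventually.of_forall fun k => norm_nonneg _) ?_ h1
  filter_upwards [eventually_ge_atTop 1] with k hk
  have hk' : (0 : ℝ) < k := by exact_mod_cast hk
  unfold ell
  rw [norm_div]
  have h2 : ‖2 * (Real.pi : ℂ) * Complex.I‖ = 2 * Real.pi := by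
    rw [norm_mul, norm_mul, Complex.norm_I, Complex.norm_real, Real.norm_eq_abs,
      abs_of_pos Real.pi_pos]
    simp
  rw [h2]
  have h3 : (k : ℝ) ≤ ‖(k : ℂ) - S * Complex.I‖ := by
    calc (k : ℝ) = |((k : ℂ) - S * Complex.I).re| := by simp
      _ ≤ ‖(k : ℂ) - S * Complex.I‖ := Complex.abs_re_le_norm _
  have := Real.pi_pos
  gcongr

lemma mu_tendsto (S : ℝ) : Tendsto (fun k : ℕ => Complex.exp (ell S k)) atTop (𝓝 1) := by
  have := (Complex.continuous_exp.tendsto 0).comp (ell_tendsto S)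
  rw [Complex.exp_zero] at this
  exact this

/-- the basin is invariant -/
lemma bas_inv {n : ℕ} {e : ℝ} {μ v : ℂ} (h : v ∈ Bas n e μ) : GF n e μ v ∈ Bas n e μ := by
  unfold Bas at h ⊢
  have h1 : Tendsto (fun m : ℕ => (GF n e μ)^[m] v) atTop (𝓝 1) := h
  have h2 := (tendsto_add_atTop_iff_nat (f := fun m : ℕ => (GF n e μ)^[m] v) 1).mpr h1
  change Tendsto (fun m : ℕ => (GF n e μ)^[m] (GF n e μ v)) atTop (𝓝 1)
  refine h2.congr fun m => ?_
  rw [Function.iterate_succ_apply]

lemma conj_iter {n : ℕ} {e : ℝ} {A : ℂ → ℂ} {ρ : ℝ} {μ : ℂ} {N D : ℂ[X]} {R : ℝ} {ϕ χ : ℂ → ℂ}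
    (hP : Pair n e A ρ μ N D R ϕ χ) (hD : ∀ v ∈ Bas n e μ, D.eval (χ v) ≠ 0) :
    ∀ (j : ℕ) (v : ℂ), v ∈ Bas n e μ → (rf N D)^[j] (χ v) = χ ((GF n e μ)^[j] v) := by
  intro j
  induction j with
  | zero => intro v _; rfl
  | succ j ih =>
    intro v hv
    rw [Function.iterate_succ_apply, Function.iterate_succ_apply]
    have h1 : rf N D (χ v) = χ (GF n e μ v) := by
      unfold rf
      rw [div_eq_iff (hD v hv)]
      exact hP.conj v hv
    rw [h1]
    exact ih _ (bas_inv hv)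

end HOE_

open HOE_ in
theorem p_HOE (hLTF : T_LTF) (hHOQ : T_HOQ) (hHOX : T_HOX) (hHUS : T_HUS) (hLPM : T_LPM)
    (hGEL : T_GEL) : T_HOE := by
  intro n e A N D R' ϕ χ p a hn he he2 hA hRad K L
  obtain ⟨Y₁, hY₁⟩ := hLTF (GG n e) 1 (cA n e) K 1 one_pos (GG_diff n e).differentiableOn
  obtain ⟨hX1, hX2⟩ := hHOX N D
  obtain ⟨r, hr, hdiff, hunif⟩ := hX2 p hRad.denp
  obtain ⟨Y₂, hY₂⟩ := hLTF (rf N D) p a L r hr hdiff
  refine ⟨max Y₁ Y₂, ?_⟩
  intro ρ R S C₁ u Nk Dk ϕk χk χS hH hBas hconv hhol hconj x w w' hx hw hw' hY hY' hE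
  obtain ⟨hopen, hinv, -⟩ := hHUS n e hn he he2 K C₁
  have hu := hH.hu
  have hμ : Tendsto (fun k : ℕ => Complex.exp (ell S k)) (u : Filter ℕ) (𝓝 1) :=
    (mu_tendsto S).mono_left hu
  obtain ⟨hG1, hGd, -⟩ := hGEL n e hn he he2
  -- the passage for `G`
  have hlimG : Tendsto (fun k => (GF n e (Complex.exp (ell S k)))^[k] x) (u : Filter ℕ)
      (𝓝 (K.E (w + S * Complex.I))) := by
    refine hY₁ S u (fun k => GF n e (Complex.exp (ell S k))) (fun _ => 1) (fun _ => x) x w hu
      hH.hS ?_ ?_ ?_ tendsto_const_nhds tendsto_const_nhds ?_ hw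
      (lt_of_le_of_lt (le_max_left _ _) hY)
    · exact Eventually.of_forall fun k => (GF_diff n e _).differentiableOn
    · have hb : ∃ B : ℝ, ∀ v ∈ closedBall (1 : ℂ) 1, ‖GG n e v - 1‖ ≤ B :=
        (isCompact_closedBall (1 : ℂ) 1).exists_bound_of_continuousOn
          ((GG_cont n e).sub continuous_const).continuousOn
      obtain ⟨B, hB⟩ := hb
      have hB0 : 0 ≤ B := (norm_nonneg _).trans (hB 1 (mem_closedBall_self zero_le_one))
      rw [Metric.tendstoUniformlyOn_iff]
      intro ε hε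
      have h1 := (Metric.tendsto_nhds.mp hμ) (ε / (B + 1)) (by positivity)
      filter_upwards [h1] with k hk v hv
      rw [dist_comm, dist_eq_norm]
      have e1 : GF n e (Complex.exp (ell S k)) v - GG n e v =
          (Complex.exp (ell S k) - 1) * (GG n e v - 1) := by
        unfold GF
        ring
      rw [e1, norm_mul]
      rw [dist_eq_norm] at hk
      have h2 := hB v (ball_subset_closedBall hv)
      calc ‖Complex.exp (ell S k) - 1‖ * ‖GG n e v - 1‖
          ≤ ‖Complex.exp (ell S k) - 1‖ * (B + 1) := by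
            gcongr
            linarith
        _ < ε / (B + 1) * (B + 1) := by gcongr
        _ = ε := by field_simp
    · refine Eventually.of_forall fun k => ⟨?_, ?_⟩
      · unfold GF
        rw [hG1]
        ring
      · have h1 := hGd 1
        have h2 : HasDerivAt (GF n e (Complex.exp (ell S k)))
            (Complex.exp (ell S k) * ((1 : ℂ) ^ (n - 2) * (1 + e) / (1 + e))) 1 := by
          have h3 := (((h1.sub_const 1).const_mul (Complex.exp (ell S k))).const_add 1)
          exact h3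
        change deriv (GF n e (Complex.exp (ell S k))) 1 = Complex.exp (ell S k)
        rw [h2.deriv]
        have h4 : (1 : ℂ) + e ≠ 0 := by
          have : (1 : ℝ) + e ≠ 0 := by linarith
          exact_mod_cast this
        rw [one_pow, one_mul, div_self h4, mul_one]
    · intro m yk hyk
      have h1 : Tendsto (fun k => GG n e (yk k)) (u : Filter ℕ)
          (𝓝 (GG n e ((GG n e)^[m] x))) := ((GG_cont n e).tendsto _).comp hyk
      have h2 := (hμ.mul (h1.sub_const 1)).const_add 1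
      have e1 : (1 : ℂ) + 1 * (GG n e ((GG n e)^[m] x) - 1) = GG n e ((GG n e)^[m] x) := by ring
      rw [e1] at h2
      exact h2
  have hcont : ContinuousWithinAt χS (US K C₁) (K.E (w + S * Complex.I)) :=
    (hhol.continuousOn) _ hE
  have hlim1 : Tendsto (fun k => χk k ((GF n e (Complex.exp (ell S k)))^[k] x)) (u : Filter ℕ)
      (𝓝 (χS (K.E (w + S * Complex.I)))) := by
    refine hconv.tendsto_comp hcont hE ?_
    rw [hopen.nhdsWithin_eq hE]
    exact hlimG
  -- the passage for the rational maps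
  have hxB : ∀ᶠ k in (u : Filter ℕ), x ∈ Bas n e (Complex.exp (ell S k)) := by
    obtain ⟨r', hr', -, h2⟩ := hBas x hx
    filter_upwards [h2.filter_mono hu] with k hk
    exact hk (mem_ball_self hr')
  have hiter : ∀ m : ℕ, (GG n e)^[m] x ∈ US K C₁ ∧ (rf N D)^[m] (χS x) = χS ((GG n e)^[m] x) := by
    intro m
    induction m with
    | zero => exact ⟨hx, rfl⟩
    | succ m ih =>
      obtain ⟨i1, i2⟩ := ih
      rw [Function.iterate_succ_apply', Function.iterate_succ_apply']
      refine ⟨hinv _ i1, ?_⟩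
      rw [i2]
      obtain ⟨c1, c2⟩ := hconj _ i1
      unfold rf
      rw [div_eq_iff c1]
      exact c2
  have hxS : Tendsto (fun k => χk k x) (u : Filter ℕ) (𝓝 (χS x)) := by
    refine hconv.tendsto_comp ((hhol.continuousOn) _ hx) hx ?_
    rw [hopen.nhdsWithin_eq hx]
    exact tendsto_const_nhds
  obtain ⟨hQ1, hQ2⟩ := hHOQ n e A ρ R R' S N D u Nk Dk ϕk χk ϕ χ p hn he he2 hA hRad hH
  obtain ⟨hU1, hU2⟩ := hunif n u Nk Dk hH.cN hH.cD
  have hlim2 : Tendsto (fun k => (rf (Nk k) (Dk k))^[k] (χk k x)) (u : Filter ℕ)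
      (𝓝 (L.E (w' + S * Complex.I))) := by
    refine hY₂ S u (fun k => rf (Nk k) (Dk k)) (fun k => χk k 1) (fun k => χk k x) (χS x) w' hu
      hH.hS hU1 hU2 hQ2 hQ1 hxS ?_ hw' (lt_of_le_of_lt (le_max_right _ _) hY')
    intro m
    obtain ⟨i1, i2⟩ := hiter m
    rw [i2]
    exact hX1 n u Nk Dk hH.cN hH.cD _ (hconj _ i1).1
  refine tendsto_nhds_unique (hlim1.congr' ?_) hlim2
  filter_upwards [hH.pair, hxB] with k hk hxk
  obtain ⟨-, -, -, -, h5, -⟩ := hLPM n e A ρ _ _ _ R _ _ hn he he2 hA hk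
  exact (conj_iter hk h5 k x hxk).symm

end Pool.Agent.MAT
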