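import Pool.Agent.MAT.T

/-!
# MAT: the limit is injective or constant on the incoming side (HOI)
-/

set_option autoImplicit false

open Polynomial Metric Set Filter Topology

noncomputable section

namespace Pool.Agent.MAT

namespace HOI_

lemma strip_open (R C : ℝ) : IsOpen {w : ℂ | R < w.re ∧ -C < w.im} :=
  (isOpen_lt continuous_const Complex.continuous_re).inter
    (isOpen_lt continuous_const Complex.continuous_im)

lemma strip_convex (R C : ℝ) : Convex ℝ {w : ℂ | R < w.re ∧ -C < w.im} :=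
  (convex_halfSpace_re_gt R).inter (convex_halfSpace_im_gt (-C))

end HOI_

open HOI_

theorem p_HOI (hHINJ : T_HINJ) (hHPB : T_HPB) (hHUS : T_HUS) : T_HOI := by
  intro n e hn he he2 K C₁ S u χk χS hu hball hk hχS hlim
  obtain ⟨_, _, hEiUS, _, _, _, _⟩ := hHUS n e hn he he2 K C₁
  obtain ⟨_, _, _, _, _, _, _, _, _, hEinj⟩ := hHPB (GG n e) 1 (cA n e) K
  have hVo := strip_open K.R C₁
  have hVR : {w : ℂ | K.R < w.re ∧ -C₁ < w.im} ⊆ {w : ℂ | K.R < w.re} := fun w hw => hw.1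
  have hEd : DifferentiableOn ℂ K.Ei {w : ℂ | K.R < w.re ∧ -C₁ < w.im} := K.Ei_hol.mono hVR
  have hmaps : MapsTo K.Ei {w : ℂ | K.R < w.re ∧ -C₁ < w.im} (US K C₁) :=
    fun w hw => hEiUS w hw.1 hw.2
  have h := hHINJ (u : Filter ℕ) (fun k w => χk k (K.Ei w)) (fun w => χS (K.Ei w))
    {w : ℂ | K.R < w.re ∧ -C₁ < w.im} inferInstance hVo (strip_convex K.R C₁).isPreconnected
    (hχS.comp hEd hmaps) (hlim.comp K.Ei hmaps hEd.continuousOn) ?_
  · rcases h with h | h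
    · exact Or.inl h
    · exact Or.inr fun w h1 h2 w' h3 h4 => h w ⟨h1, h2⟩ w' ⟨h3, h4⟩
  · intro a ha b hb
    obtain ⟨ra, hra, _, hea⟩ := hball _ (hmaps ha)
    obtain ⟨rb, hrb, _, heb⟩ := hball _ (hmaps hb)
    have hcont : ContinuousAt K.Ei b := (hEd b hb).continuousWithinAt.continuousAt (hVo.mem_nhds hb)
    obtain ⟨s₁, hs₁, hs₁'⟩ := Metric.continuousAt_iff.1 hcont rb hrb
    obtain ⟨s₂, hs₂, hs₂'⟩ := Metric.isOpen_iff.1 hVo b hb
    refine ⟨min s₁ s₂, lt_min hs₁ hs₂, ?_⟩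
    filter_upwards [hu hea, hu heb, hk] with k h1 h2 h3
    obtain ⟨h3d, h3i⟩ := h3
    have hsV : ball b (min s₁ s₂) ⊆ {w : ℂ | K.R < w.re ∧ -C₁ < w.im} :=
      (ball_subset_ball (min_le_right _ _)).trans hs₂'
    have hm : MapsTo K.Ei (ball b (min s₁ s₂)) (Bas n e (Complex.exp (ell S k))) := by
      intro w hw
      refine h2 (mem_ball.2 (hs₁' ?_))
      exact lt_of_lt_of_le (mem_ball.1 hw) (min_le_left _ _)
    have hma : K.Ei a ∈ Bas n e (Complex.exp (ell S k)) := h1 (mem_ball_self hra)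
    refine ⟨h3d.comp (hEd.mono hsV) hm, ?_⟩
    intro x hx y hy hxy
    have hx' : K.Ei x ∈ Bas n e (Complex.exp (ell S k)) ∧
        x ∈ {w : ℂ | K.R < w.re} := by
      rcases hx with rfl | hx
      · exact ⟨hma, hVR ha⟩
      · exact ⟨hm hx, hVR (hsV hx)⟩
    have hy' : K.Ei y ∈ Bas n e (Complex.exp (ell S k)) ∧
        y ∈ {w : ℂ | K.R < w.re} := by
      rcases hy with rfl | hy
      · exact ⟨hma, hVR ha⟩
      · exact ⟨hm hy, hVR (hsV hy)⟩
    exact hEinj hx'.2 hy'.2 (h3i hx'.1 hy'.1 hxy)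

end Pool.Agent.MAT
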