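import Pool.Agent.MAT.T

/-!
# MAT: HOM (convergence to `p` along the horocyclic limit)
-/

set_option autoImplicit false

open Polynomial Metric Set Filter Topology

noncomputable section

namespace Pool.Agent.MAT

namespace HOM_

/-- the conjugacy, iterated -/
lemma iter_chi {N D : ℂ[X]} {n : ℕ} {e : ℝ} {U : Set ℂ} {χ : ℂ → ℂ}
    (hG : ∀ x ∈ U, GG n e x ∈ U)
    (hc : ∀ x ∈ U, D.eval (χ x) ≠ 0 ∧ N.eval (χ x) = χ (GG n e x) * D.eval (χ x)) {x : ℂ}
    (hx : x ∈ U) (m : ℕ) :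
    (GG n e)^[m] x ∈ U ∧ (rf N D)^[m] (χ x) = χ ((GG n e)^[m] x) := by
  induction m with
  | zero => exact ⟨hx, rfl⟩
  | succ m ih =>
    obtain ⟨h1, h2⟩ := ih
    rw [Function.iterate_succ_apply', Function.iterate_succ_apply', h2]
    refine ⟨hG _ h1, ?_⟩
    obtain ⟨h3, h4⟩ := hc _ h1
    unfold rf
    rw [h4, mul_div_assoc, div_self h3, mul_one]

/-- the points near `b`, shifted far to the right, are in the half strip -/
lemma shift {X C₁ : ℝ} {b : ℂ} (hb : -C₁ < b.im) : ∃ r : ℝ, 0 < r ∧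
    ball b r ⊆ {w : ℂ | -C₁ < w.im} ∧
    ∀ᶠ m : ℕ in atTop, ∀ y ∈ ball b r, X < (y + m).re ∧ -C₁ < (y + m).im := by
  obtain ⟨r, hr, hr2⟩ := Metric.isOpen_iff.1 (isOpen_lt continuous_const Complex.continuous_im) b hb
  refine ⟨r, hr, hr2, ?_⟩
  have h1 : Tendsto (fun m : ℕ => (m : ℝ)) atTop atTop := tendsto_natCast_atTop_atTop
  filter_upwards [h1.eventually_gt_atTop (X - b.re + r)] with m hm
  intro y hy
  have h2 := hr2 hy
  have h3 : |(y - b).re| < r := (Complex.abs_re_le_norm _).trans_lt (by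
    rwa [mem_ball_iff_norm] at hy)
  rw [Complex.sub_re, abs_lt] at h3
  refine ⟨?_, ?_⟩
  · rw [Complex.add_re, Complex.natCast_re]
    linarith [h3.1]
  · rw [Complex.add_im, Complex.natCast_im, add_zero]
    exact h2

end HOM_

open HOM_ in
theorem p_HOM (hUL : T_UL) (hHINJ : T_HINJ) (hHPB : T_HPB) (hHUS : T_HUS) (hGBA : T_GBA)
    (hLAB : T_LAB) : T_HOM := by
  intro n e A N D R R' C₁ ϕ χ χS p hn he he2 hA hRad hC₁ K hw₁ hL
  obtain ⟨w₁, hw₁⟩ := hw₁
  obtain ⟨-, -, -, hGU, hGconv, -, -, hone, -, -, -, h0U, heU⟩ := hGBA n e hn he he2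
  obtain ⟨-, hUSG, hUSE, -, -, -, -⟩ := hHUS n e hn he he2 K C₁
  obtain ⟨-, -, -, -, -, -, -, -, hHP9, -⟩ := hHPB _ _ _ K
  obtain ⟨-, -, -, -, -, -, hLD⟩ := hLAB n A N D R' ϕ (by omega) hA hRad.deg hRad.aside
  -- the two conjugacies
  have hcχ : ∀ x ∈ UG n e, D.eval (χ x) ≠ 0 ∧ N.eval (χ x) = χ (GG n e x) * D.eval (χ x) := by
    intro x hx
    exact ⟨fun h => hRad.cross x hx (hLD _ h), hRad.conj x hx⟩
  have h0S : (0 : ℂ) ∈ US K C₁ := ⟨h0U, w₁, hw₁, by rw [Complex.ofReal_im]; linarith⟩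
  -- the orbit of the critical point
  obtain ⟨z₀, hz₀, hχ₀⟩ : ∃ z₀ : ℂ, z₀ ∈ UG n e ∧ χS 0 = χ z₀ := by
    rcases hL.crit0 with h | h
    · exact ⟨0, h0U, h⟩
    · exact ⟨_, heU, h⟩
  obtain ⟨m₀, hm₀⟩ := hHP9 0 w₁ hw₁
  have key : ∀ m : ℕ, m₀ ≤ m → χS (K.Ei (w₁ + m)) = χ ((GG n e)^[m] z₀) := by
    intro m hm
    have h1 := (iter_chi (fun x hx => hUSG x hx) hL.conj h0S m).2
    have h2 := (iter_chi (fun x hx => (hGU x).2 hx) hcχ hz₀ m).2
    rw [← (hm₀ m hm).2, ← h1, hχ₀, h2]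
  have hkeyS : ∀ m : ℕ, m₀ ≤ m → K.R < ((w₁ : ℂ) + m).re ∧ -C₁ < ((w₁ : ℂ) + m).im := by
    intro m hm
    refine ⟨?_, ?_⟩
    · rw [Complex.add_re, Complex.natCast_re]
      exact (hm₀ m hm).1
    · rw [Complex.add_im, Complex.natCast_im, Complex.ofReal_im]
      linarith
  -- injectivity
  have hinj : InjOn (fun w => χS (K.Ei w)) {w | K.R < w.re ∧ -C₁ < w.im} := by
    rcases hL.dich with h | h
    · exact h
    · exfalso
      have h1 := h _ (hkeyS m₀ le_rfl).1 (hkeyS m₀ le_rfl).2 _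
        (hkeyS (m₀ + 1) (Nat.le_succ _)).1 (hkeyS (m₀ + 1) (Nat.le_succ _)).2
      rw [key m₀ le_rfl, key (m₀ + 1) (Nat.le_succ _)] at h1
      have h2 : ∀ m : ℕ, (GG n e)^[m] z₀ ∈ UG n e := fun m =>
        (iter_chi (fun x hx => (hGU x).2 hx) hcχ hz₀ m).1
      have h3 := hRad.inj (h2 _) (h2 _) h1
      rw [Function.iterate_succ_apply'] at h3
      have h4 : ∀ j : ℕ, (GG n e)^[j] ((GG n e)^[m₀] z₀) = (GG n e)^[m₀] z₀ := fun j =>
        Function.iterate_fixed h3.symm j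
      have h5 := (hGconv _ (h2 m₀)).1
      have h6 : Tendsto (fun _ : ℕ => (GG n e)^[m₀] z₀) atTop (𝓝 1) :=
        h5.congr fun j => h4 j
      have h7 : (GG n e)^[m₀] z₀ = 1 := tendsto_nhds_unique tendsto_const_nhds h6
      exact (hGconv _ hz₀).2 m₀ h7
  refine ⟨hinj, ?_⟩
  -- holomorphy
  have hol : DifferentiableOn ℂ (fun w => χS (K.Ei w)) {w | K.R < w.re ∧ -C₁ < w.im} := by
    refine hL.hol.comp (K.Ei_hol.mono fun w hw => hw.1) ?_
    exact fun w hw => hUSE w hw.1 hw.2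
  have hbd : ∀ w ∈ {w : ℂ | K.R < w.re ∧ -C₁ < w.im}, ‖χS (K.Ei w)‖ ≤ R := fun w hw =>
    hL.bdd _ (hUSE w hw.1 hw.2)
  have hbase : Tendsto (fun m : ℕ => χS (K.Ei (w₁ + m))) atTop (𝓝 p) := by
    refine (hRad.conv z₀ hz₀).congr' ?_
    filter_upwards [eventually_ge_atTop m₀] with m hm
    exact (key m hm).symm
  have hbase1 : Tendsto (fun m : ℕ => χS (K.Ei (((w₁ : ℂ) + 1) + m))) atTop (𝓝 p) := by
    refine (hbase.comp (tendsto_add_atTop_nat 1)).congr fun m => ?_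
    simp only [Function.comp_apply]
    congr 2
    push_cast
    ring
  intro w hw
  rw [tendsto_iff_ultrafilter]
  intro v hv
  set U : Set ℂ := {w : ℂ | -C₁ < w.im} with hU
  have hUo : IsOpen U := isOpen_lt continuous_const Complex.continuous_im
  have hUc : IsPreconnected U := (convex_halfSpace_im_gt (-C₁)).isPreconnected
  obtain ⟨h, hh, hlu⟩ := hUL v U (fun m w => χS (K.Ei (w + m))) hUo (by
    intro x hx
    obtain ⟨r, hr, hr2, hev⟩ := shift (X := K.R) hx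
    refine ⟨r, R, hr, hr2, hv ?_⟩
    filter_upwards [hev] with m hm
    refine ⟨?_, fun y hy => hbd _ (hm y hy)⟩
    exact hol.comp (by fun_prop) fun y hy => hm y hy)
  have hdich := hHINJ v (fun m w => χS (K.Ei (w + m))) h U inferInstance hUo hUc hh hlu (by
    intro a ha b hb
    obtain ⟨r, hr, hr2, hev⟩ := shift (X := K.R) hb
    obtain ⟨r', hr', -, hev'⟩ := shift (X := K.R) ha
    refine ⟨r, hr, hv ?_⟩
    filter_upwards [hev, hev'] with m hm hm'
    refine ⟨hol.comp (by fun_prop) fun y hy => hm y hy, ?_⟩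
    have hall : ∀ y ∈ insert a (ball b r), K.R < (y + m).re ∧ -C₁ < (y + m).im := by
      rintro y (rfl | hy)
      · exact hm' y (mem_ball_self hr')
      · exact hm y hy
    intro y hy y' hy' hyy
    exact add_right_cancel (hinj (hall y hy) (hall y' hy') hyy))
  have hw₁U : (w₁ : ℂ) ∈ U := by
    change -C₁ < (w₁ : ℂ).im
    rw [Complex.ofReal_im]
    linarith
  have hw₁U' : (w₁ : ℂ) + 1 ∈ U := by
    change -C₁ < ((w₁ : ℂ) + 1).im
    rw [Complex.add_im, Complex.ofReal_im, Complex.one_im]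
    linarith
  have hv1 : h w₁ = p := tendsto_nhds_unique (hlu.tendsto_at hw₁U) (hbase.mono_left hv)
  have hv2 : h (w₁ + 1) = p := tendsto_nhds_unique (hlu.tendsto_at hw₁U') (hbase1.mono_left hv)
  have hconst : ∀ a ∈ U, ∀ b ∈ U, h a = h b := by
    rcases hdich with h1 | h1
    · exfalso
      have h2 := h1 hw₁U hw₁U' (hv1.trans hv2.symm)
      have h3 : (1 : ℂ) = 0 := by
        have := (left_eq_add.1 h2)
        exact this
      exact one_ne_zero h3
    · exact h1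
  have hwv : h w = p := by rw [← hv1]; exact hconst w hw _ hw₁U
  rw [← hwv]
  exact hlu.tendsto_at hw

end Pool.Agent.MAT
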