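import Pool.Agent.MAT.T

/-!
# MAT: target HOQ (the attracting fixed points converge to `p`)
-/

set_option autoImplicit false

open Polynomial Metric Set Filter Topology

noncomputable section

namespace Pool.Agent.MAT

namespace HOQ_

/-- convergence at moving points -/
theorem evalc (hPCE : T_PCE) {l : Filter ℕ} {d : ℕ} {Pk : ℕ → ℂ[X]} {P : ℂ[X]}
    (h : PConv l d Pk P) {q : ℕ → ℂ} {q' : ℂ} (hq : Tendsto q l (𝓝 q')) :
    Tendsto (fun k => (Pk k).eval (q k)) l (𝓝 (P.eval q')) := by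
  have h1 := hPCE l d Pk P h
  have h2 := h1.tendsto_comp (P.continuous.continuousWithinAt (s := univ) (x := q'))
    (mem_univ q') (g := q) (by rw [nhdsWithin_univ]; exact hq)
  exact h2

/-- the multipliers tend to one -/
theorem exp_ell (S : ℝ) : Tendsto (fun k : ℕ => Complex.exp (ell S k)) atTop (𝓝 1) := by
  have h1 : Tendsto (fun k : ℕ => ell S k) atTop (𝓝 0) := by
    unfold ell
    have h2 : Tendsto (fun k : ℕ => ‖(k : ℂ) - S * Complex.I‖) atTop atTop := by
      refine tendsto_atTop_mono (fun k => ?_) tendsto_natCast_atTop_atTop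
      have h3 := Complex.re_le_norm ((k : ℂ) - S * Complex.I)
      simpa using h3
    have h4 := (tendsto_norm_atTop_iff_cobounded.1 h2)
    have h5 := (tendsto_inv₀_cobounded (α := ℂ)).comp h4
    have h6 := h5.const_mul (2 * (Real.pi : ℂ) * Complex.I)
    rw [mul_zero] at h6
    refine h6.congr (fun k => ?_)
    simp [div_eq_mul_inv]
  have h2 := (Complex.continuous_exp.tendsto 0).comp h1
  rw [Complex.exp_zero] at h2
  exact h2

theorem GF_one (n : ℕ) (e : ℝ) (μ : ℂ) : GF n e μ 1 = 1 := by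
  unfold GF GG
  simp

theorem one_mem_Bas (n : ℕ) (e : ℝ) (μ : ℂ) : (1 : ℂ) ∈ Bas n e μ := by
  have h : ∀ m : ℕ, (GF n e μ)^[m] 1 = 1 := fun m => Function.iterate_fixed (GF_one n e μ) m
  show Tendsto (fun m : ℕ => (GF n e μ)^[m] 1) atTop (𝓝 1)
  simp_rw [h]
  exact tendsto_const_nhds

/-- derivative of a rational function -/
theorem deriv_rf {N D : ℂ[X]} {z : ℂ} (hD : D.eval z ≠ 0) :
    HasDerivAt (rf N D) ((wr N D).eval z / D.eval z ^ 2) z := by
  have h := (N.hasDerivAt z).div (D.hasDerivAt z) hD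
  have h1 : (wr N D).eval z = (derivative N).eval z * D.eval z -
      N.eval z * (derivative D).eval z := by
    simp [wr]
  rw [h1]
  exact h

end HOQ_

open HOQ_ in
theorem p_HOQ (hLPM : T_LPM) (hPCE : T_PCE) (hPCW : T_PCW) : T_HOQ := by
  intro n e A ρ R R' S N D u Nk Dk ϕk χk ϕ χ p hn he he2 hA hRad hH
  have hμ : Tendsto (fun k : ℕ => Complex.exp (ell S k)) (u : Filter ℕ) (𝓝 1) :=
    (exp_ell S).mono_left hH.hu
  have hl := hH.pair.mono (fun k hk => hLPM n e A ρ _ (Nk k) (Dk k) R (ϕk k) (χk k) hn he he2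
    hA hk)
  -- limit
  have hb : ∀ᶠ k in (u : Filter ℕ), χk k 1 ∈ closedBall (0 : ℂ) R := by
    filter_upwards [hl] with k hk
    rw [mem_closedBall_zero_iff]
    exact (hk.2.2.2.2.2 1 (one_mem_Bas n e _)).le
  obtain ⟨q', -, hq'⟩ := (isCompact_iff_ultrafilter_le_nhds.1 (isCompact_closedBall (0 : ℂ) R))
    (u.map (fun k => χk k 1)) (by
      rw [Ultrafilter.coe_map, le_principal_iff, mem_map]
      exact hb)
  have hq : Tendsto (fun k => χk k 1) (u : Filter ℕ) (𝓝 q') := by
    rw [Ultrafilter.coe_map] at hq'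
    exact hq'
  have hNq := evalc hPCE hH.cN hq
  have hDq := evalc hPCE hH.cD hq
  have hWq := evalc hPCE (hPCW u n Nk Dk N D hH.cN hH.cD).1 hq
  have e1 : N.eval q' = q' * D.eval q' := by
    refine tendsto_nhds_unique hNq ((hq.mul hDq).congr' ?_)
    filter_upwards [hl] with k hk
    exact hk.2.1.symm
  have e2 : (wr N D).eval q' = D.eval q' ^ 2 := by
    have h1 := hμ.mul (hDq.pow 2)
    rw [one_mul] at h1
    refine tendsto_nhds_unique hWq (h1.congr' ?_)
    filter_upwards [hl] with k hk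
    exact hk.1.symm
  have hqp : q' = p := hRad.uniq q' e1 e2
  refine ⟨by rw [← hqp]; exact hq, ?_⟩
  filter_upwards [hl] with k hk
  have hD := hk.2.2.2.2.1 1 (one_mem_Bas n e _)
  refine ⟨?_, ?_⟩
  · unfold rf
    rw [hk.2.1]
    field_simp
  · rw [(deriv_rf hD).deriv, hk.1]
    field_simp

end Pool.Agent.MAT
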