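import Pool.Agent.MAT.T

/-!
# MAT: HORN (the upper horn map)
-/

set_option autoImplicit false

open Polynomial Metric Set Filter Topology

noncomputable section

namespace Pool.Agent.MAT

namespace HORN_

lemma omc_eq (z : ℂ) : omc 1 0 z = -1 / z := by unfold omc; simp

lemma norm_eq (z : ℂ) : ‖z‖ = 1 / ‖omc 1 0 z‖ := by
  rw [omc_eq, norm_div, norm_neg, norm_one, one_div_one_div]

lemma Q_lower {z : ℂ} {r : ℝ} (hr : 1 ≤ r) (hz : z ∈ QoutS r) : 1 / 2 ≤ ‖omc 1 0 z‖ := by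
  obtain ⟨_, h⟩ := hz
  have h1 := Complex.abs_re_le_norm (omc 1 0 z)
  have h2 := Complex.abs_im_le_norm (omc 1 0 z)
  have h3 := neg_abs_le (omc 1 0 z).re
  linarith

lemma log_norm (z : ℂ) : ‖Complex.log z‖ ≤ |Real.log ‖z‖| + 7 / 2 := by
  have h : Complex.log z = (Real.log ‖z‖ : ℂ) + (Complex.arg z : ℂ) * Complex.I := rfl
  rw [h]
  refine (norm_add_le _ _).trans ?_
  rw [norm_mul, Complex.norm_I, mul_one, Complex.norm_real, Complex.norm_real,
    Real.norm_eq_abs, Real.norm_eq_abs]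
  have h1 := Complex.abs_arg_le_pi z
  have h2 := Real.pi_lt_d2
  linarith

lemma abs_log_le {ε t : ℝ} (hε : 0 < ε) (ht : 1 / 2 ≤ t) :
    |Real.log t| ≤ ε * t + (|Real.log ε| + 1) := by
  have ht0 : 0 < t := by linarith
  rw [abs_le]
  constructor
  · have h1 : Real.log (1 / 2) ≤ Real.log t := Real.log_le_log (by norm_num) ht
    have h2 : Real.log (1 / 2) = -Real.log 2 := by
      rw [one_div, Real.log_inv]
    have h3 := Real.log_two_lt_d9
    have h4 : 0 ≤ ε * t := by positivity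
    have h5 := abs_nonneg (Real.log ε)
    linarith
  · have h1 : Real.log (ε * t) ≤ ε * t - 1 := Real.log_le_sub_one_of_pos (by positivity)
    rw [Real.log_mul hε.ne' ht0.ne'] at h1
    have h2 := neg_abs_le (Real.log ε)
    linarith

lemma close (β : ℂ) (c : ℝ) (hc : 0 ≤ c) : ∃ K : ℝ, 0 ≤ K ∧ ∀ ω w : ℂ, 1 / 2 ≤ ‖ω‖ →
    ‖w - Lout β ω‖ ≤ c / ‖ω‖ → ‖w - ω‖ ≤ ‖w‖ / 4 + K := by
  set ε : ℝ := 1 / (5 * (1 + ‖β‖)) with hε
  have hβ := norm_nonneg β
  have hε0 : 0 < ε := by positivity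
  have hβε : ‖β‖ * ε ≤ 1 / 5 := by
    rw [hε, mul_one_div, div_le_div_iff₀ (by positivity) (by norm_num)]
    linarith
  set K' : ℝ := ‖β‖ * (|Real.log ε| + 1 + 7) + 2 * c with hK'
  have hK'0 : 0 ≤ K' := by positivity
  refine ⟨5 / 4 * K', by positivity, fun ω w hω h => ?_⟩
  have hω0 : 0 < ‖ω‖ := by linarith
  have h1 : w - ω = (w - Lout β ω) - β * (Complex.log (-ω) + Real.pi * Complex.I) := by
    unfold Lout; ring
  have h2 : ‖Complex.log (-ω) + Real.pi * Complex.I‖ ≤ |Real.log ‖ω‖| + 7 := by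
    refine (norm_add_le _ _).trans ?_
    have h3 := log_norm (-ω)
    rw [norm_neg] at h3
    have h4 : ‖(Real.pi : ℂ) * Complex.I‖ = Real.pi := by
      rw [norm_mul, Complex.norm_I, mul_one, Complex.norm_real, Real.norm_eq_abs,
        abs_of_pos Real.pi_pos]
    rw [h4]
    have h5 := Real.pi_lt_d2
    linarith
  have h3 : c / ‖ω‖ ≤ 2 * c := by
    rw [div_le_iff₀ hω0]
    nlinarith
  have h4 : ‖w - ω‖ ≤ 2 * c + ‖β‖ * (|Real.log ‖ω‖| + 7) := by
    rw [h1]
    refine (norm_sub_le _ _).trans ?_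
    rw [norm_mul]
    exact add_le_add (h.trans h3) (mul_le_mul_of_nonneg_left h2 hβ)
  have h5 := abs_log_le hε0 hω
  have h6 : ‖β‖ * |Real.log ‖ω‖| ≤ 1 / 5 * ‖ω‖ + ‖β‖ * (|Real.log ε| + 1) := by
    calc ‖β‖ * |Real.log ‖ω‖| ≤ ‖β‖ * (ε * ‖ω‖ + (|Real.log ε| + 1)) :=
          mul_le_mul_of_nonneg_left h5 hβ
      _ = ‖β‖ * ε * ‖ω‖ + ‖β‖ * (|Real.log ε| + 1) := by ring
      _ ≤ _ := by nlinarith
  have h7 : ‖ω‖ ≤ ‖w‖ + ‖w - ω‖ := by
    have : ω = w - (w - ω) := by ring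
    calc ‖ω‖ = ‖w - (w - ω)‖ := by rw [← this]
      _ ≤ _ := norm_sub_le _ _
  have h8 : ‖w - ω‖ ≤ 1 / 5 * ‖ω‖ + K' := by rw [hK']; nlinarith
  linarith

lemma Lin_eq_Lout (β : ℂ) {ω : ℂ} (h : 0 < ω.im) : Lin β ω = Lout β ω := by
  have h1 : Complex.log ω = Complex.log (-ω) + Real.pi * Complex.I := by
    have e1 : Complex.log ω = (Real.log ‖ω‖ : ℂ) + (Complex.arg ω : ℂ) * Complex.I := rfl
    have e2 : Complex.log (-ω) = (Real.log ‖-ω‖ : ℂ) + (Complex.arg (-ω) : ℂ) * Complex.I := rfl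
    rw [e1, e2, norm_neg, Complex.arg_neg_eq_arg_sub_pi_of_im_pos h]
    push_cast
    ring
  unfold Lin Lout
  rw [h1]

lemma PinS_open (R : ℝ) : IsOpen (PinS 1 0 R) := by
  rw [isOpen_iff_mem_nhds]
  rintro z ⟨hz, h⟩
  have hc : ContinuousAt (fun z : ℂ => (omc 1 0 z).re + |(omc 1 0 z).im|) z := by
    have h1 : ContinuousAt (fun z : ℂ => omc 1 0 z) z := by
      have : (fun z : ℂ => omc 1 0 z) = fun z => -1 / z := by
        funext z; exact omc_eq z
      rw [this]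
      exact continuousAt_const.div continuousAt_id hz
    exact (Complex.continuous_re.continuousAt.comp h1).add
      ((Complex.continuous_im.continuousAt.comp h1).abs)
  have h2 : ∀ᶠ y in 𝓝 z, R < (omc 1 0 y).re + |(omc 1 0 y).im| := hc.eventually_const_lt h
  have h3 : ∀ᶠ y in 𝓝 z, y ≠ 0 := isOpen_ne.mem_nhds hz
  filter_upwards [h2, h3] with y hy1 hy2
  exact ⟨hy2, hy1⟩

/-- the number of steps -/
def jj (R' : ℝ) (w : ℂ) : ℕ := ⌈w.re + R' + 1⌉₊

lemma jj_lt (R' : ℝ) (w : ℂ) : (w - (jj R' w : ℂ)).re < -R' := by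
  have := Nat.le_ceil (w.re + R' + 1)
  simp only [Complex.sub_re, Complex.natCast_re]
  unfold jj
  linarith

lemma jj_lt' (R' : ℝ) (w : ℂ) : (w - (jj R' w : ℂ)).re ≤ -R' - 1 := by
  have := Nat.le_ceil (w.re + R' + 1)
  simp only [Complex.sub_re, Complex.natCast_re]
  unfold jj
  linarith

lemma jj_ge {R' : ℝ} {w : ℂ} (h : -R' - 2 ≤ w.re) : -R' - 2 ≤ (w - (jj R' w : ℂ)).re := by
  simp only [Complex.sub_re, Complex.natCast_re]
  unfold jj
  rcases le_or_gt 0 (w.re + R' + 1) with h1 | h1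
  · have := Nat.ceil_lt_add_one h1
    linarith
  · rw [Nat.ceil_eq_zero.mpr h1.le]
    simpa using h

lemma sub_add_one (w : ℂ) (i : ℕ) : w - ((i + 1 : ℕ) : ℂ) = (w - i) - 1 := by
  push_cast; ring

lemma iter_diff {f : ℂ → ℂ} {U : Set ℂ} (hf : DifferentiableOn ℂ f U) (hm : MapsTo f U U) :
    ∀ j : ℕ, DifferentiableOn ℂ (f^[j]) U := by
  intro j
  induction j with
  | zero => exact differentiableOn_id
  | succ n ih => exact ih.comp hf hm

section
variable {f h Fi Ei Po Eo : ℂ → ℂ} {β : ℂ} {Rp R C Rp' R' C' : ℝ}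

lemma shift (hO : OutP f h β Rp' R' C' Po Eo) {w : ℂ} (hw : w.re < -R') :
    f (Eo (w - 1)) = Eo w := by
  have hw1 : (w - 1).re < -R' := by simp only [Complex.sub_re, Complex.one_re]; linarith
  have h1 := hO.Eo_mem w hw
  have h2 := hO.map _ h1
  have h3 : Po (h (Eo w)) = w - 1 := by rw [hO.Po_map _ h1, hO.Eo_inv w hw]
  have h4 : Eo (w - 1) = h (Eo w) :=
    hO.Po_inj (hO.Eo_mem _ hw1) h2 (by rw [hO.Eo_inv _ hw1, h3])
  rw [h4, hO.inv _ h1]

lemma iter_shift (hO : OutP f h β Rp' R' C' Po Eo) {w : ℂ} {j : ℕ}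
    (hw : (w - (j : ℂ)).re < -R') : ∀ i : ℕ, f^[j + i] (Eo (w - ((j + i : ℕ) : ℂ))) =
      f^[j] (Eo (w - j)) := by
  intro i
  induction i with
  | zero => simp
  | succ n ih =>
    rw [← ih, ← add_assoc, Function.iterate_succ_apply, sub_add_one, shift hO]
    have : (w - ((j + n : ℕ) : ℂ)).re = (w - (j : ℂ)).re - n := by
      push_cast
      simp only [Complex.sub_re, Complex.add_re, Complex.natCast_re]; ring
    rw [this]
    have : (0 : ℝ) ≤ n := Nat.cast_nonneg n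
    linarith

/-- the extended parametrisation -/
def EE (f Eo : ℂ → ℂ) (R' : ℝ) (w : ℂ) : ℂ := f^[jj R' w] (Eo (w - (jj R' w : ℂ)))

lemma EE_eq (hO : OutP f h β Rp' R' C' Po Eo) (w : ℂ) (j : ℕ) (hw : (w - (j : ℂ)).re < -R') :
    EE f Eo R' w = f^[j] (Eo (w - j)) := by
  unfold EE
  rcases le_total j (jj R' w) with hj | hj
  · obtain ⟨i, hi⟩ := Nat.exists_eq_add_of_le hj
    rw [hi]
    exact iter_shift hO hw i
  · obtain ⟨i, hi⟩ := Nat.exists_eq_add_of_le hj
    rw [hi]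
    exact (iter_shift hO (jj_lt R' w) i).symm

lemma EE_add (hO : OutP f h β Rp' R' C' Po Eo) (w : ℂ) :
    EE f Eo R' (w + 1) = f (EE f Eo R' w) := by
  have h1 := jj_lt R' w
  rw [EE_eq hO w _ h1, EE_eq hO (w + 1) (jj R' w + 1) ?_, Function.iterate_succ_apply']
  · congr 3
    push_cast; ring
  · have : w + 1 - ((jj R' w + 1 : ℕ) : ℂ) = w - (jj R' w : ℂ) := by push_cast; ring
    rw [this]; exact h1

lemma EE_iter (hO : OutP f h β Rp' R' C' Po Eo) (w : ℂ) (i : ℕ) :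
    EE f Eo R' (w + i) = f^[i] (EE f Eo R' w) := by
  induction i with
  | zero => simp
  | succ n ih =>
    rw [Function.iterate_succ_apply', ← ih, ← EE_add hO]
    congr 1
    push_cast; ring

lemma EE_low (hO : OutP f h β Rp' R' C' Po Eo) {w : ℂ} (hw : w.re < -R') :
    EE f Eo R' w = Eo w := by
  have := EE_eq hO w 0 (by simpa using hw)
  simpa using this

lemma Eo_close (hO : OutP f h β Rp' R' C' Po Eo) : ∃ K : ℝ, 0 ≤ K ∧ ∀ w : ℂ, w.re < -R' →
    1 / 2 ≤ ‖omc 1 0 (Eo w)‖ ∧ ‖w - omc 1 0 (Eo w)‖ ≤ ‖w‖ / 4 + K := by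
  obtain ⟨K, hK, h1⟩ := close β C' hO.hC
  refine ⟨K, hK, fun w hw => ?_⟩
  have h2 := hO.Eo_mem w hw
  have h3 := Q_lower hO.hRp h2
  refine ⟨h3, h1 _ _ h3 ?_⟩
  have h4 := hO.Po_asy _ h2
  rwa [hO.Eo_inv w hw] at h4

lemma Eo_small (hO : OutP f h β Rp' R' C' Po Eo) : ∀ ε : ℝ, 0 < ε → ∃ M : ℝ, ∀ w : ℂ,
    w.re < -R' → M < ‖w‖ → ‖Eo w‖ < ε := by
  obtain ⟨K, hK, h1⟩ := Eo_close hO
  intro ε hε
  refine ⟨2 * (K + 1 / ε), fun w hw hM => ?_⟩
  obtain ⟨h2, h3⟩ := h1 w hw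
  have h4 : ‖w‖ ≤ ‖omc 1 0 (Eo w)‖ + ‖w - omc 1 0 (Eo w)‖ := by
    calc ‖w‖ = ‖omc 1 0 (Eo w) + (w - omc 1 0 (Eo w))‖ := by congr 1; ring
      _ ≤ _ := norm_add_le _ _
  have h5 : 0 ≤ 1 / ε := by positivity
  have h6 : 1 / ε < ‖omc 1 0 (Eo w)‖ := by linarith
  rw [norm_eq (Eo w), div_lt_iff₀ (by linarith)]
  rw [div_lt_iff₀ hε] at h6
  linarith

/-- the strip -/
lemma strip (hI : InP f β Rp R C Fi Ei) (hO : OutP f h β Rp' R' C' Po Eo) : ∃ Y : ℝ, 0 < Y ∧
    ∀ x : ℂ, x.re < -R' → -R' - 3 ≤ x.re → Y < x.im →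
      Eo x ∈ PinS 1 0 Rp ∧ 0 < (omc 1 0 (Eo x)).im ∧ x.im / 2 ≤ ‖omc 1 0 (Eo x)‖ := by
  obtain ⟨K, hK, h1⟩ := Eo_close hO
  have hR' : 1 ≤ R' := hO.hRp.trans hO.hR
  have hRp := hI.hRp
  set K₂ : ℝ := R' + 3 + K with hK₂
  refine ⟨4 * K₂ + 2 * (Rp + 2 * K₂ + R' + 3), by positivity, fun x hx1 hx2 hY => ?_⟩
  obtain ⟨h2, h3⟩ := h1 x hx1
  set ω := omc 1 0 (Eo x) with hω
  have hxn : ‖x‖ ≤ x.im + R' + 3 := by
    have h4 := Complex.norm_le_abs_re_add_abs_im x
    have h5 : |x.re| ≤ R' + 3 := by rw [abs_le]; constructor <;> linarith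
    have h6 : |x.im| = x.im := abs_of_pos (by nlinarith)
    linarith
  have h4 : ‖x - ω‖ ≤ x.im / 4 + K₂ := by linarith
  have h5 : |x.im - ω.im| ≤ ‖x - ω‖ := by
    have := Complex.abs_im_le_norm (x - ω)
    rwa [Complex.sub_im] at this
  have h6 : |x.re - ω.re| ≤ ‖x - ω‖ := by
    have := Complex.abs_re_le_norm (x - ω)
    rwa [Complex.sub_re] at this
  have h7 := (abs_le.mp h5).2
  have h8 := (abs_le.mp h6).2
  have h9 : 3 / 4 * x.im - K₂ ≤ ω.im := by linarith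
  have h10 : x.im / 2 ≤ ω.im := by linarith
  have h11 : 0 < ω.im := by linarith
  refine ⟨⟨?_, ?_⟩, h11, ?_⟩
  · intro h0
    have : ω = 0 := by rw [hω, omc_eq, h0]; simp
    rw [this] at h11
    simp at h11
  · rw [← hω, abs_of_pos h11]
    linarith
  · have h12 := Complex.abs_im_le_norm ω
    rw [abs_of_pos h11] at h12
    linarith

end

end HORN_

open HORN_ in
theorem p_HORN : T_HORN := by
  intro f h β Rp R C Rp' R' C' Fi Ei Po Eo hI hO
  obtain ⟨Y, hY0, hY⟩ := strip hI hO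
  have hR' : 1 ≤ R' := hO.hRp.trans hO.hR
  set E : ℂ → ℂ := EE f Eo R' with hE
  -- points of the upper region, not too far to the left
  have hmem : ∀ w : ℂ, Y < w.im → -R' - 2 ≤ w.re → E w ∈ PinS 1 0 Rp ∧
      w.im / 8 ≤ ‖omc 1 0 (E w)‖ := by
    intro w hw1 hw2
    have hx1 := jj_lt R' w
    have hx2 := jj_ge hw2
    obtain ⟨h1, h2, h3⟩ := hY (w - (jj R' w : ℂ)) hx1 (by linarith) (by simpa using hw1)
    have h4 : ∀ j : ℕ, ∀ z ∈ PinS 1 0 Rp, f^[j] z ∈ PinS 1 0 Rp := by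
      intro j z hz
      exact (MapsTo.iterate (fun z hz => hI.map z hz) j) hz
    refine ⟨h4 _ _ h1, ?_⟩
    have h5 := hI.orb _ h1 (jj R' w)
    have h6 : (w - (jj R' w : ℂ)).im = w.im := by simp
    rw [h6] at h3
    have h7 : E w = f^[jj R' w] (Eo (w - (jj R' w : ℂ))) := rfl
    rw [h7]
    linarith
  -- holomorphy of `E`
  have hEd : DifferentiableOn ℂ E {w | Y < w.im} := by
    intro w₀ hw₀
    apply DifferentiableAt.differentiableWithinAt
    replace hw₀ : Y < w₀.im := hw₀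
    rcases lt_or_ge w₀.re (-R') with hc | hc
    · have ho : IsOpen {w : ℂ | w.re < -R'} := isOpen_lt Complex.continuous_re continuous_const
      have h1 : DifferentiableAt ℂ Eo w₀ := (hO.Eo_hol).differentiableAt (ho.mem_nhds hc)
      refine h1.congr_of_eventuallyEq ?_
      filter_upwards [ho.mem_nhds hc] with w hw
      exact EE_low hO hw
    · set j := jj R' w₀ with hj
      have hx1 := jj_lt' R' w₀
      have hx2 := jj_ge (R' := R') (w := w₀) (by linarith)
      rw [← hj] at hx1 hx2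
      set U : Set ℂ := {w : ℂ | Y < w.im ∧ (w - (j : ℂ)).re < -R' ∧ -R' - 3 < (w - (j : ℂ)).re}
        with hU
      have hUe : U = {w : ℂ | Y < w.im} ∩ ({w : ℂ | (w - (j : ℂ)).re < -R'} ∩
          {w : ℂ | -R' - 3 < (w - (j : ℂ)).re}) := by
        ext w; exact Iff.rfl
      have hre : Continuous fun w : ℂ => (w - (j : ℂ)).re :=
        Complex.continuous_re.comp (continuous_id.sub continuous_const)
      have hUo : IsOpen U := by
        rw [hUe]
        exact (isOpen_lt continuous_const Complex.continuous_im).inter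
          ((isOpen_lt hre continuous_const).inter (isOpen_lt continuous_const hre))
      have hw₀U : w₀ ∈ U := ⟨hw₀, by linarith, by linarith⟩
      have hd : DifferentiableOn ℂ (fun w => f^[j] (Eo (w - (j : ℂ)))) U := by
        have h1 : DifferentiableOn ℂ (fun w : ℂ => Eo (w - (j : ℂ))) U := by
          refine hO.Eo_hol.comp (differentiableOn_id.sub_const _) ?_
          intro w hw
          exact hw.2.1
        refine (iter_diff hI.hol (fun z hz => hI.map z hz) j).comp h1 ?_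
        intro w hw
        obtain ⟨h2, -, -⟩ := hY (w - (j : ℂ)) hw.2.1 hw.2.2.le (by simpa using hw.1)
        exact h2
      have h1 := hd.differentiableAt (hUo.mem_nhds hw₀U)
      refine h1.congr_of_eventuallyEq ?_
      filter_upwards [hUo.mem_nhds hw₀U] with w hw
      exact EE_eq hO w j hw.2.1
  -- the horn map
  set H : ℂ → ℂ := fun w => Fi (E (w + (⌈-w.re⌉₊ : ℂ))) - (⌈-w.re⌉₊ : ℂ) with hH
  have hHi : ∀ w : ℂ, Y < w.im → ∀ i : ℕ, -R' - 2 ≤ (w + (i : ℂ)).re → ∀ k : ℕ,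
      Fi (E (w + ((i + k : ℕ) : ℂ))) - ((i + k : ℕ) : ℂ) = Fi (E (w + i)) - i := by
    intro w hw i hi k
    induction k with
    | zero => simp
    | succ n ih =>
      rw [← ih]
      have h1 : w + ((i + (n + 1) : ℕ) : ℂ) = (w + ((i + n : ℕ) : ℂ)) + 1 := by push_cast; ring
      have h2 : E (w + ((i + n : ℕ) : ℂ)) ∈ PinS 1 0 Rp := by
        refine (hmem _ (by simpa using hw) ?_).1
        have h3 : (w + ((i + n : ℕ) : ℂ)).re = (w + (i : ℂ)).re + n := by
          push_cast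
          simp only [Complex.add_re, Complex.natCast_re]; ring
        rw [h3]
        have : (0 : ℝ) ≤ n := Nat.cast_nonneg n
        linarith
      rw [h1, show E (w + ((i + n : ℕ) : ℂ) + 1) = f (E (w + ((i + n : ℕ) : ℂ))) from
        EE_add hO _, hI.Fi_map _ h2]
      push_cast
      ring
  have hceil : ∀ w : ℂ, -R' - 2 ≤ (w + (⌈-w.re⌉₊ : ℂ)).re := by
    intro w
    have := Nat.le_ceil (-w.re)
    simp only [Complex.add_re, Complex.natCast_re]
    linarith
  have hHe : ∀ w : ℂ, Y < w.im → ∀ i : ℕ, -R' - 2 ≤ (w + (i : ℂ)).re →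
      H w = Fi (E (w + i)) - i := by
    intro w hw i hi
    rcases le_total i ⌈-w.re⌉₊ with hle | hle
    · obtain ⟨k, hk⟩ := Nat.exists_eq_add_of_le hle
      have := hHi w hw i hi k
      rw [← hk] at this
      exact this
    · obtain ⟨k, hk⟩ := Nat.exists_eq_add_of_le hle
      have := hHi w hw _ (hceil w) k
      rw [← hk] at this
      exact this.symm
  have hHadd : ∀ w : ℂ, Y < w.im → H (w + 1) = H w + 1 := by
    intro w hw
    have h1 := hceil w
    rw [hHe (w + 1) (by simpa using hw) ⌈-w.re⌉₊ (by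
      have : (w + 1 + (⌈-w.re⌉₊ : ℂ)).re = (w + (⌈-w.re⌉₊ : ℂ)).re + 1 := by
        simp only [Complex.add_re, Complex.one_re]; ring
      rw [this]; linarith)]
    rw [hHe w hw (⌈-w.re⌉₊ + 1) (by
      have : (w + ((⌈-w.re⌉₊ + 1 : ℕ) : ℂ)).re = (w + (⌈-w.re⌉₊ : ℂ)).re + 1 := by
        push_cast
        simp only [Complex.add_re, Complex.one_re]; ring
      rw [this]; linarith)]
    have h2 : w + ((⌈-w.re⌉₊ + 1 : ℕ) : ℂ) = w + 1 + (⌈-w.re⌉₊ : ℂ) := by push_cast; ring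
    rw [h2]
    push_cast
    ring
  have hHper : ∀ w : ℂ, Y < w.im → ∀ i : ℕ, H (w + i) - (w + i) = H w - w := by
    intro w hw i
    induction i with
    | zero => simp
    | succ n ih =>
      rw [← ih]
      have h1 : w + ((n + 1 : ℕ) : ℂ) = (w + n) + 1 := by push_cast; ring
      rw [h1, hHadd _ (by simpa using hw)]
      ring
  -- in the strip
  have hstrip : ∀ x : ℂ, x.re < -R' → -R' - 2 ≤ x.re → Y < x.im →
      ‖H x - x‖ ≤ 2 * (C + C') / x.im := by
    intro x hx1 hx2 hx3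
    obtain ⟨h1, h2, h3⟩ := hY x hx1 (by linarith) hx3
    have h4 := hHe x hx3 0 (by simpa using hx2)
    have h5 : H x = Fi (Eo x) := by
      rw [h4]
      simp only [Nat.cast_zero, add_zero, sub_zero]
      rw [hE, EE_low hO hx1]
    have h6 := hI.Fi_asy _ h1
    have h7 := hO.Po_asy _ (hO.Eo_mem x hx1)
    rw [hO.Eo_inv x hx1] at h7
    rw [Lin_eq_Lout β h2] at h6
    set ω := omc 1 0 (Eo x) with hω
    have h8 : ‖H x - x‖ ≤ C / ‖ω‖ + C' / ‖ω‖ := by
      have : H x - x = (Fi (Eo x) - Lout β ω) - (x - Lout β ω) := by rw [h5]; ring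
      rw [this]
      exact (norm_sub_le _ _).trans (add_le_add h6 h7)
    have hx0 : 0 < x.im := hY0.trans hx3
    have hω0 : 0 < ‖ω‖ := by linarith
    have h9 : 0 ≤ C + C' := add_nonneg hI.hC hO.hC
    calc ‖H x - x‖ ≤ (C + C') / ‖ω‖ := by rw [add_div]; exact h8
      _ ≤ (C + C') / (x.im / 2) := div_le_div_of_nonneg_left h9 (by positivity) h3
      _ = 2 * (C + C') / x.im := by field_simp
  have hall : ∀ w : ℂ, Y < w.im → ‖H w - w‖ ≤ 2 * (C + C') / w.im := by
    intro w hw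
    rcases lt_or_ge w.re (-R' - 2) with hc | hc
    · set i : ℕ := ⌈-R' - 1 - w.re⌉₊ with hi
      have h1 := Nat.le_ceil (-R' - 1 - w.re)
      have h2 := Nat.ceil_lt_add_one (a := -R' - 1 - w.re) (by linarith)
      rw [← hi] at h1 h2
      have h3 : (w + (i : ℂ)).re = w.re + i := by simp
      have h4 : (w + (i : ℂ)).im = w.im := by simp
      have h5 := hstrip (w + i) (by rw [h3]; linarith) (by rw [h3]; linarith) (by rw [h4]; exact hw)
      rw [hHper w hw i, h4] at h5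
      exact h5
    · have h1 := jj_lt R' w
      have h2 := jj_ge hc
      have h4 : (w - (jj R' w : ℂ)).im = w.im := by simp
      have h5 := hstrip _ h1 h2 (by rw [h4]; exact hw)
      have h6 := hHper (w - (jj R' w : ℂ)) (by rw [h4]; exact hw) (jj R' w)
      rw [sub_add_cancel] at h6
      rw [← h6, h4] at h5
      exact h5
  have hYlim : ∀ a ε : ℝ, 0 ≤ a → 0 < ε → ∃ Z : ℝ, Y ≤ Z ∧ 0 < Z ∧ ∀ y : ℝ, Z < y → a / y < ε := by
    intro a ε ha hε
    refine ⟨max Y (a / ε), le_max_left _ _, lt_max_of_lt_left hY0, fun y hy => ?_⟩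
    have h1 : a / ε < y := (le_max_right _ _).trans_lt hy
    have h2 : 0 < y := hY0.trans ((le_max_left _ _).trans_lt hy)
    rw [div_lt_iff₀ hε] at h1
    rw [div_lt_iff₀ h2]
    linarith
  refine ⟨max (max R R') Y, E, H, (le_max_left _ _).trans (le_max_left _ _),
    (le_max_right _ _).trans (le_max_left _ _), fun w => EE_add hO w,
    fun w hw => EE_low hO hw, ?_, ?_, ?_, ?_, ?_, ?_, ?_⟩
  · exact hEd.mono fun w hw => show Y < w.im from (le_max_right _ _).trans_lt hw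
  · intro ε hε
    obtain ⟨M, hM⟩ := Eo_small hO ε hε
    obtain ⟨Z, hZ1, hZ2, hZ3⟩ := hYlim 8 ε (by norm_num) hε
    refine ⟨max Z M, fun w hw => ?_⟩
    have hw1 : Z < w.im := (le_max_left _ _).trans_lt hw
    have hw2 : M < w.im := (le_max_right _ _).trans_lt hw
    rcases lt_or_ge w.re (-R') with hc | hc
    · have h1 : E w = Eo w := EE_low hO hc
      rw [h1]
      refine hM w hc (hw2.trans_le ?_)
      exact (le_abs_self _).trans (Complex.abs_im_le_norm w)
    · obtain ⟨-, h2⟩ := hmem w (hZ1.trans_lt hw1) (by linarith)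
      have hw0 : 0 < w.im := hZ2.trans hw1
      rw [norm_eq (E w)]
      refine lt_of_le_of_lt ?_ (hZ3 _ hw1)
      calc 1 / ‖omc 1 0 (E w)‖ ≤ 1 / (w.im / 8) := one_div_le_one_div_of_le (by positivity) h2
        _ = 8 / w.im := by field_simp
  · intro w
    rw [tendsto_zero_iff_norm_tendsto_zero, Metric.tendsto_atTop]
    intro ε hε
    obtain ⟨M, hM⟩ := Eo_small hO ε hε
    obtain ⟨m₀, hm₀⟩ := exists_nat_gt (max (w.re + R') (‖w‖ + M))
    refine ⟨m₀, fun m hm => ?_⟩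
    have hm' : (m₀ : ℝ) ≤ m := by exact_mod_cast hm
    have h1 : w.re + R' < m := (le_max_left _ _).trans_lt (hm₀.trans_le hm')
    have h2 : ‖w‖ + M < m := (le_max_right _ _).trans_lt (hm₀.trans_le hm')
    have h3 : (w - (m : ℂ)).re < -R' := by
      simp only [Complex.sub_re, Complex.natCast_re]; linarith
    have h4 : E (w - m) = Eo (w - m) := EE_low hO h3
    rw [Real.dist_eq, sub_zero, abs_of_nonneg (norm_nonneg _), h4]
    refine hM _ h3 ?_
    have h5 : (m : ℝ) ≤ ‖w - m‖ + ‖w‖ := by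
      calc (m : ℝ) = ‖(m : ℂ)‖ := by simp
        _ = ‖w - (w - (m : ℂ))‖ := by congr 1; ring
        _ ≤ ‖w‖ + ‖w - m‖ := norm_sub_le _ _
        _ = ‖w - m‖ + ‖w‖ := add_comm _ _
    linarith
  · intro w₀ hw₀
    apply DifferentiableAt.differentiableWithinAt
    have hw₀' : Y < w₀.im := (le_max_right _ _).trans_lt hw₀
    set i : ℕ := ⌈-w₀.re⌉₊ with hi
    have hi1 := Nat.le_ceil (-w₀.re)
    rw [← hi] at hi1
    set U : Set ℂ := {w : ℂ | Y < w.im ∧ -R' - 2 < (w + (i : ℂ)).re} with hU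
    have hUe : U = {w : ℂ | Y < w.im} ∩ {w : ℂ | -R' - 2 < (w + (i : ℂ)).re} := by
      ext w; exact Iff.rfl
    have hUo : IsOpen U := by
      rw [hUe]
      exact (isOpen_lt continuous_const Complex.continuous_im).inter
        (isOpen_lt continuous_const
          (Complex.continuous_re.comp (continuous_id.add continuous_const)))
    have hw₀U : w₀ ∈ U := by
      refine ⟨hw₀', ?_⟩
      simp only [Complex.add_re, Complex.natCast_re]
      linarith
    have h1 : DifferentiableOn ℂ (fun w : ℂ => E (w + (i : ℂ))) U := by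
      refine hEd.comp (differentiableOn_id.add_const _) ?_
      intro w hw
      simpa using hw.1
    have h2 : DifferentiableOn ℂ (fun w : ℂ => Fi (E (w + (i : ℂ))) - i) U := by
      refine DifferentiableOn.sub_const ?_ _
      refine hI.Fi_hol.comp h1 ?_
      intro w hw
      exact (hmem _ (by simpa using hw.1) hw.2.le).1
    have h3 := h2.differentiableAt (hUo.mem_nhds hw₀U)
    refine h3.congr_of_eventuallyEq ?_
    filter_upwards [hUo.mem_nhds hw₀U] with w hw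
    exact hHe w hw.1 i hw.2.le
  · intro w hw
    exact hHadd w ((le_max_right _ _).trans_lt hw)
  · intro ε hε
    obtain ⟨Z, hZ1, hZ2, hZ3⟩ := hYlim (2 * (C + C')) ε
      (mul_nonneg (by norm_num) (add_nonneg hI.hC hO.hC)) hε
    exact ⟨Z, fun w hw => (hall w (hZ1.trans_lt hw)).trans_lt (hZ3 _ hw)⟩
  · intro w hw
    have hw' : Y < w.im := (le_max_right _ _).trans_lt hw
    refine ⟨⌈-w.re⌉₊, ?_, ?_⟩
    · rw [← EE_iter hO]
      exact (hmem _ (by simpa using hw') (hceil w)).1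
    · rw [← EE_iter hO, hH]
      simp only
      rw [sub_add_cancel]

end Pool.Agent.MAT
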