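import Pool.Agent.MAT.T

/-!
# MAT-HOT: the map `τ` between the cylinders
-/

set_option autoImplicit false

open Polynomial Metric Set Filter Topology

noncomputable section

namespace Pool.Agent.MAT

namespace HOT_

/-- a function on a right half strip commuting with the translation by one extends -/
theorem extend {Rr Cc : ℝ} {F : ℂ → ℂ}
    (hF : DifferentiableOn ℂ F {w : ℂ | Rr < w.re ∧ -Cc < w.im})
    (hinj : InjOn F {w : ℂ | Rr < w.re ∧ -Cc < w.im})
    (hadd : ∀ w : ℂ, Rr < w.re → -Cc < w.im → F (w + 1) = F w + 1) (κ : ℂ) :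
    ∃ τ : ℂ → ℂ, DifferentiableOn ℂ τ {w | -Cc < w.im} ∧ InjOn τ {w | -Cc < w.im} ∧
      (∀ w : ℂ, -Cc < w.im → τ (w + 1) = τ w + 1) ∧
      ∀ (w : ℂ) (m : ℕ), -Cc < w.im → Rr < w.re + m → F (w + m) = τ w + κ + m := by
  have haddn : ∀ (j : ℕ) (w : ℂ), Rr < w.re → -Cc < w.im → F (w + j) = F w + j := by
    intro j
    induction j with
    | zero => intro w _ _; simp
    | succ j ih =>
      intro w h1 h2
      have h3 := hadd (w + j) (by simp; have : (0 : ℝ) ≤ j := Nat.cast_nonneg j; linarith)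
        (by simpa using h2)
      rw [ih w h1 h2] at h3
      push_cast
      rw [← add_assoc, h3]
      ring
  have hindep : ∀ (w : ℂ) (m m' : ℕ), -Cc < w.im → Rr < w.re + m → m ≤ m' →
      F (w + m') - m' = F (w + m) - m := by
    intro w m m' h1 h2 h3
    obtain ⟨j, rfl⟩ := Nat.exists_eq_add_of_le h3
    have := haddn j (w + m) (by simpa using h2) (by simpa using h1)
    push_cast
    rw [← add_assoc, this]
    ring
  have hindep' : ∀ (w : ℂ) (m m' : ℕ), -Cc < w.im → Rr < w.re + m → Rr < w.re + m' →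
      F (w + m') - m' = F (w + m) - m := by
    intro w m m' h1 h2 h3
    rcases le_total m m' with h | h
    · exact hindep w m m' h1 h2 h
    · exact (hindep w m' m h1 h3 h).symm
  have hex : ∀ w : ℂ, ∃ m : ℕ, Rr < w.re + m := by
    intro w
    obtain ⟨m, hm⟩ := exists_nat_gt (Rr - w.re)
    exact ⟨m, by linarith⟩
  choose M hM using hex
  set τ : ℂ → ℂ := fun w => F (w + M w) - M w - κ with hτ
  have key : ∀ (w : ℂ) (m : ℕ), -Cc < w.im → Rr < w.re + m → F (w + m) = τ w + κ + m := by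
    intro w m h1 h2
    have := hindep' w (M w) m h1 (hM w) h2
    simp only [hτ]
    linear_combination this
  have key' : ∀ (w : ℂ) (m : ℕ), -Cc < w.im → Rr < w.re + m → τ w = F (w + m) - m - κ := by
    intro w m h1 h2
    rw [key w m h1 h2]
    ring
  refine ⟨τ, ?_, ?_, ?_, key⟩
  · intro w₀ hw₀
    have hw₀' : -Cc < w₀.im := hw₀
    have hopen : IsOpen {w : ℂ | Rr < w.re + M w₀ ∧ -Cc < w.im} := by
      apply IsOpen.inter
      · exact isOpen_lt continuous_const (Complex.continuous_re.add continuous_const)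
      · exact isOpen_lt continuous_const Complex.continuous_im
    have hmem : w₀ ∈ {w : ℂ | Rr < w.re + M w₀ ∧ -Cc < w.im} := ⟨hM w₀, hw₀'⟩
    have hS : IsOpen {w : ℂ | Rr < w.re ∧ -Cc < w.im} := by
      apply IsOpen.inter
      · exact isOpen_lt continuous_const Complex.continuous_re
      · exact isOpen_lt continuous_const Complex.continuous_im
    have hmem' : w₀ + M w₀ ∈ {w : ℂ | Rr < w.re ∧ -Cc < w.im} := by
      refine ⟨?_, ?_⟩
      · simpa using hM w₀
      · simpa using hw₀'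
    have hd : DifferentiableAt ℂ F (w₀ + M w₀) := hF.differentiableAt (hS.mem_nhds hmem')
    have hd2 : DifferentiableAt ℂ (fun w : ℂ => F (w + M w₀) - M w₀ - κ) w₀ := by
      have h3 : DifferentiableAt ℂ (fun w : ℂ => w + (M w₀ : ℂ)) w₀ :=
        differentiableAt_id.add_const _
      exact ((DifferentiableAt.comp w₀ hd h3).sub_const _).sub_const _
    refine (hd2.congr_of_eventuallyEq ?_).differentiableWithinAt
    filter_upwards [hopen.mem_nhds hmem] with w hw
    exact key' w (M w₀) hw.2 hw.1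
  · intro w hw w' hw' heq
    have hw1 : -Cc < w.im := hw
    have hw1' : -Cc < w'.im := hw'
    have h1 : Rr < w.re + ((M w + M w' : ℕ) : ℝ) := by
      have := hM w
      have h0 : (0 : ℝ) ≤ M w' := Nat.cast_nonneg _
      push_cast
      linarith
    have h2 : Rr < w'.re + ((M w + M w' : ℕ) : ℝ) := by
      have := hM w'
      have h0 : (0 : ℝ) ≤ M w := Nat.cast_nonneg _
      push_cast
      linarith
    have h3 := key w _ hw1 h1
    have h4 := key w' _ hw1' h2
    rw [heq, ← h4] at h3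
    have h5 := hinj (x₁ := w + ((M w + M w' : ℕ) : ℂ)) (x₂ := w' + ((M w + M w' : ℕ) : ℂ))
      ⟨by simpa using h1, by simpa using hw1⟩ ⟨by simpa using h2, by simpa using hw1'⟩ h3
    exact add_right_cancel h5
  · intro w hw
    have h1 : Rr < w.re + ((M w + 1 : ℕ) : ℝ) := by
      have := hM w
      push_cast
      linarith
    have h2 : Rr < (w + 1).re + (M w : ℝ) := by
      have := hM w
      simp
      linarith
    have h3 := key w _ hw h1
    have h4 := key (w + 1) (M w) (by simpa using hw) h2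
    push_cast at h3
    have h5 : w + 1 + (M w : ℂ) = w + ((M w : ℂ) + 1) := by ring
    rw [h5, h3] at h4
    linear_combination -h4

end HOT_

theorem p_HOT (hHOM : T_HOM) (hHPB : T_HPB) (hHPH : T_HPH) (hHUS : T_HUS) : T_HOT := by
  intro n e A N D R R' C₁ ϕ χ χS p a κ w₁ w₂ hn he he2 hA hRad hC₁ K L hK1 hK2 hne hκ hH
  obtain ⟨hSinj, hSlim⟩ := hHOM n e A N D R R' C₁ ϕ χ χS p hn he he2 hA hRad hC₁ K ⟨w₁, hK1⟩ hH
  obtain ⟨hUSo, hUSG, hUSEi, -, -, -, hUSmem⟩ := hHUS n e hn he he2 K C₁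
  obtain ⟨-, -, -, -, -, kphi, kadd, -, kev, -⟩ := hHPB _ _ _ K
  obtain ⟨luni, lshift, lex, -, leq, -, -, -, -, -⟩ := hHPB _ _ _ L
  -- shift by `m`
  have lshiftm : ∀ (m : ℕ) (x w : ℂ), L.HasPhi ((rf N D)^[m] x) (w + m) ↔ L.HasPhi x w := by
    intro m
    induction m with
    | zero => intro x w; simp
    | succ m ih =>
      intro x w
      rw [Function.iterate_succ_apply']
      push_cast
      rw [← add_assoc, lshift, ih]
  -- conjugacy
  have conj1 : ∀ x ∈ US K C₁, rf N D (χS x) = χS (GG n e x) := by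
    intro x hx
    obtain ⟨h1, h2⟩ := hH.conj x hx
    rw [rf, h2, mul_div_assoc, div_self h1, mul_one]
  have USm : ∀ (m : ℕ), ∀ x ∈ US K C₁, (GG n e)^[m] x ∈ US K C₁ := by
    intro m
    induction m with
    | zero => intro x hx; simpa using hx
    | succ m ih => intro x hx; rw [Function.iterate_succ_apply']; exact hUSG _ (ih x hx)
  have conjm : ∀ (m : ℕ), ∀ x ∈ US K C₁, (rf N D)^[m] (χS x) = χS ((GG n e)^[m] x) := by
    intro m
    induction m with
    | zero => intro x hx; simp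
    | succ m ih =>
      intro x hx
      rw [Function.iterate_succ_apply', Function.iterate_succ_apply', ih x hx,
        conj1 _ (USm m x hx)]
  set S : Set ℂ := {w : ℂ | K.R < w.re ∧ -C₁ < w.im} with hSdef
  have hSo : IsOpen S := by
    apply IsOpen.inter
    · exact isOpen_lt continuous_const Complex.continuous_re
    · exact isOpen_lt continuous_const Complex.continuous_im
  have hSadd : ∀ w ∈ S, w + 1 ∈ S := by
    intro w hw
    have h1 : K.R < w.re := hw.1
    have h2 : -C₁ < w.im := hw.2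
    refine ⟨?_, ?_⟩
    · simp; linarith
    · simpa using h2
  have hSaddm : ∀ w ∈ S, ∀ m : ℕ, w + m ∈ S := by
    intro w hw m
    have h1 : K.R < w.re := hw.1
    have h2 : -C₁ < w.im := hw.2
    have h0 : (0 : ℝ) ≤ m := Nat.cast_nonneg _
    refine ⟨?_, ?_⟩
    · simp; linarith
    · simpa using h2
  have hEiUS : ∀ w ∈ S, K.Ei w ∈ US K C₁ := fun w hw => hUSEi w hw.1 hw.2
  -- `q = χS ∘ Ei`
  set q : ℂ → ℂ := fun w => χS (K.Ei w) with hq
  have hqinj : InjOn q S := hSinj
  have hqadd : ∀ w ∈ S, rf N D (q w) = q (w + 1) := by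
    intro w hw
    simp only [hq]
    rw [conj1 _ (hEiUS w hw), kadd w hw.1]
  have hqaddm : ∀ (m : ℕ), ∀ w ∈ S, (rf N D)^[m] (q w) = q (w + m) := by
    intro m
    induction m with
    | zero => intro w hw; simp
    | succ m ih =>
      intro w hw
      rw [Function.iterate_succ_apply', ih w hw, hqadd _ (hSaddm w hw m)]
      push_cast
      rw [add_assoc]
  have hqhol : DifferentiableOn ℂ q S :=
    hH.hol.comp (K.Ei_hol.mono fun w hw => hw.1) hEiUS
  have hgp : rf N D p = p := by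
    rw [rf, hRad.fixp, mul_div_assoc, div_self hRad.denp, mul_one]
  have hqne : ∀ w ∈ S, q w ≠ p := by
    intro w hw h
    have h1 : q (w + 1) = p := by rw [← hqadd w hw, h, hgp]
    have h2 := hqinj hw (hSadd w hw) (h.trans h1.symm)
    have h3 : (1 : ℂ) = 0 := by linear_combination -h2
    exact one_ne_zero h3
  have hqphi : ∀ w ∈ S, ∃ t : ℂ, L.HasPhi (q w) t := by
    intro w hw
    apply lex
    · have h1 := hSlim w hw.2
      refine h1.congr fun m => ?_
      rw [hqaddm m w hw]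
    · intro m
      rw [hqaddm m w hw]
      exact hqne _ (hSaddm w hw m)
  -- the open image
  have hSconv : Convex ℝ S := by
    have h1 : Convex ℝ {w : ℂ | K.R < w.re} := convex_halfSpace_re_gt _
    have h2 : Convex ℝ {w : ℂ | -C₁ < w.im} := convex_halfSpace_im_gt _
    exact h1.inter h2
  have hVo : IsOpen (q '' S) := by
    rcases (hqhol.analyticOnNhd hSo).is_constant_or_isOpen hSconv.isPreconnected with h | h
    · exfalso
      obtain ⟨c, hc⟩ := h
      have hw : ((K.R + 1 : ℝ) : ℂ) ∈ S := by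
        refine ⟨?_, ?_⟩
        · simp
        · simpa using hC₁
      have h2 := hqinj hw (hSadd _ hw) ((hc _ hw).trans (hc _ (hSadd _ hw)).symm)
      have h3 : (1 : ℂ) = 0 := by linear_combination -h2
      exact one_ne_zero h3
    · exact h S subset_rfl hSo
  have hgV : DifferentiableOn ℂ (rf N D) (q '' S) := by
    rintro y ⟨w, hw, rfl⟩
    have hD : D.eval (q w) ≠ 0 := (hH.conj _ (hEiUS w hw)).1
    have : DifferentiableAt ℂ (rf N D) (q w) :=
      (N.differentiable _).div (D.differentiable _) hD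
    exact this.differentiableWithinAt
  have hmapV : MapsTo (rf N D) (q '' S) (q '' S) := by
    rintro y ⟨w, hw, rfl⟩
    exact ⟨w + 1, hSadd w hw, (hqadd w hw).symm⟩
  have hVphi : ∀ y ∈ q '' S, ∃ t : ℂ, L.HasPhi y t := by
    rintro y ⟨w, hw, rfl⟩
    exact hqphi w hw
  classical
  set Φ : ℂ → ℂ := fun y => if h : ∃ t : ℂ, L.HasPhi y t then h.choose else 0 with hΦ
  have hΦs : ∀ y ∈ q '' S, L.HasPhi y (Φ y) := by
    intro y hy
    have h := hVphi y hy
    simp only [hΦ, dif_pos h]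
    exact h.choose_spec
  have hΦhol : DifferentiableOn ℂ Φ (q '' S) := hHPH _ _ _ L _ Φ hVo hgV hmapV hΦs
  set F : ℂ → ℂ := fun w => Φ (q w) with hF
  have hFhol : DifferentiableOn ℂ F S := hΦhol.comp hqhol fun w hw => mem_image_of_mem q hw
  have hFs : ∀ w ∈ S, L.HasPhi (q w) (F w) := fun w hw => hΦs _ (mem_image_of_mem q hw)
  have hFadd : ∀ w : ℂ, K.R < w.re → -C₁ < w.im → F (w + 1) = F w + 1 := by
    intro w h1 h2
    have hw : w ∈ S := ⟨h1, h2⟩
    have h3 := hFs _ (hSadd w hw)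
    rw [← hqadd w hw] at h3
    have h4 := (lshift (q w) (F w)).2 (hFs w hw)
    exact luni _ _ _ h3 h4
  have hFinj : InjOn F S := by
    intro w hw w' hw' heq
    have h1 := hFs w hw
    have h2 := hFs w' hw'
    rw [heq] at h1
    obtain ⟨m₀, hm₀⟩ := leq _ _ _ h1 h2
    have h3 := hm₀ m₀ le_rfl
    rw [hqaddm m₀ w hw, hqaddm m₀ w' hw'] at h3
    exact add_right_cancel (hqinj (hSaddm w hw m₀) (hSaddm w' hw' m₀) h3)
  obtain ⟨τ, hτhol, hτinj, hτadd, hτF⟩ := HOT_.extend hFhol hFinj hFadd κ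
  have hfin : ∀ x w : ℂ, -C₁ < w.im → K.HasPhi x w → L.HasPhi (χS x) (τ w + κ) := by
    intro x w hw hxw
    have hxU : x ∈ US K C₁ := ⟨hUSmem x w hxw, w, hxw, hw⟩
    obtain ⟨m₀, hm₀⟩ := kev x w hxw
    obtain ⟨h1, h2⟩ := hm₀ m₀ le_rfl
    have hwS : w + m₀ ∈ S := ⟨by simpa using h1, by simpa using hw⟩
    have h3 := hFs _ hwS
    rw [hτF w m₀ hw h1] at h3
    have h4 : q (w + m₀) = (rf N D)^[m₀] (χS x) := by
      rw [conjm m₀ x hxU, h2]
    rw [h4] at h3
    exact (lshiftm m₀ _ _).1 h3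
  refine ⟨τ, hτhol, hτinj, hτadd, ?_, hfin⟩
  have him1 : -C₁ < (w₁ : ℂ).im := by simpa using hC₁
  have him2 : -C₁ < (w₂ : ℂ).im := by simpa using hC₁
  have e1 : L.HasPhi (χ 0) (w₁ + κ) := hκ 0 (hUSmem _ _ hK1) _ hK1
  have e2 : L.HasPhi (χ (-(e : ℂ))) (w₂ + κ) := hκ _ (hUSmem _ _ hK2) _ hK2
  have t1 : τ w₁ = w₁ ∨ τ w₁ = w₂ := by
    have h1 := hfin 0 w₁ him1 hK1
    rcases hH.crit0 with h | h
    · rw [h] at h1
      exact Or.inl (add_right_cancel (luni _ _ _ h1 e1))
    · rw [h] at h1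
      exact Or.inr (add_right_cancel (luni _ _ _ h1 e2))
  have t2 : τ w₂ = w₁ ∨ τ w₂ = w₂ := by
    have h1 := hfin _ w₂ him2 hK2
    rcases hH.crite with h | h
    · rw [h] at h1
      exact Or.inl (add_right_cancel (luni _ _ _ h1 e1))
    · rw [h] at h1
      exact Or.inr (add_right_cancel (luni _ _ _ h1 e2))
  have hne' : (w₁ : ℂ) ≠ w₂ := by exact_mod_cast hne
  have hτne : τ w₁ ≠ τ w₂ := fun h => hne' (hτinj him1 him2 h)
  rcases t1 with t1 | t1 <;> rcases t2 with t2 | t2
  · exact absurd (t1.trans t2.symm) hτne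
  · exact Or.inl ⟨t1, t2⟩
  · exact Or.inr ⟨t1, t2⟩
  · exact absurd (t1.trans t2.symm) hτne

end Pool.Agent.MAT
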