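import Pool.Agent.MAT.T

/-!
# MAT: HOX (local uniform convergence of the rational maps)
-/

set_option autoImplicit false

open Polynomial Metric Set Filter Topology

noncomputable section

namespace Pool.Agent.MAT

namespace HOX_

/-- the difference of two quotients -/
lemma quot {a b c d : ℂ} {m M δ : ℝ} (hm : 0 < m) (ha : ‖a‖ ≤ M) (hb : m < ‖b‖)
    (hac : ‖a - c‖ ≤ δ) (hbd : ‖b - d‖ ≤ δ) (hδ : δ ≤ m / 2) :
    ‖a / b - c / d‖ ≤ 2 * δ * (M + m) / m ^ 2 := by
  have hδ0 : 0 ≤ δ := (norm_nonneg _).trans hac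
  have hM0 : 0 ≤ M := (norm_nonneg _).trans ha
  have hd : m / 2 ≤ ‖d‖ := by
    have h1 := norm_sub_norm_le b d
    linarith
  have hb0 : 0 < ‖b‖ := hm.trans hb
  have hd0 : 0 < ‖d‖ := lt_of_lt_of_le (by positivity) hd
  have hbne : b ≠ 0 := norm_pos_iff.1 hb0
  have hdne : d ≠ 0 := norm_pos_iff.1 hd0
  have h1 : a / b - c / d = (a * (d - b)) / (b * d) + (a - c) / d := by
    field_simp
    ring
  rw [h1]
  have h2 : ‖a * (d - b) / (b * d)‖ ≤ M * δ / (m * (m / 2)) := by
    rw [norm_div, norm_mul, norm_mul]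
    have h3 : ‖d - b‖ ≤ δ := by rw [norm_sub_rev]; exact hbd
    exact div_le_div₀ (by positivity) (mul_le_mul ha h3 (norm_nonneg _) hM0) (by positivity)
      (mul_le_mul hb.le hd (by positivity) (norm_nonneg _))
  have h4 : ‖(a - c) / d‖ ≤ δ / (m / 2) := by
    rw [norm_div]
    exact div_le_div₀ hδ0 hac (by positivity) hd
  refine (norm_add_le _ _).trans ((add_le_add h2 h4).trans (le_of_eq ?_))
  field_simp

end HOX_

theorem p_HOX (hPCE : T_PCE) : T_HOX := by
  intro N D
  refine ⟨?_, ?_⟩
  · intro n l Nk Dk hN hD y hy yk hyk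
    have hyk' : Tendsto yk l (𝓝[univ] y) := by rwa [nhdsWithin_univ]
    have h1 : Tendsto (fun k => (Nk k).eval (yk k)) l (𝓝 (N.eval y)) :=
      (hPCE l n Nk N hN).tendsto_comp N.continuous.continuousWithinAt (mem_univ y) hyk'
    have h2 : Tendsto (fun k => (Dk k).eval (yk k)) l (𝓝 (D.eval y)) :=
      (hPCE l n Dk D hD).tendsto_comp D.continuous.continuousWithinAt (mem_univ y) hyk'
    exact h1.div h2 hy
  · intro p hp
    obtain ⟨m, hm⟩ : ∃ m : ℝ, m = ‖D.eval p‖ / 2 := ⟨_, rfl⟩
    have hp0 : 0 < ‖D.eval p‖ := norm_pos_iff.2 hp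
    have hm0 : 0 < m := by rw [hm]; positivity
    have h1 : ∀ᶠ z in 𝓝 p, m < ‖D.eval z‖ :=
      D.continuous.norm.continuousAt.eventually (lt_mem_nhds (by rw [hm]; linarith))
    obtain ⟨r, hr, hr2⟩ := Metric.eventually_nhds_iff_ball.1 h1
    have hcl : ∀ z ∈ closedBall p (r / 2), m < ‖D.eval z‖ := fun z hz => hr2 z
      (closedBall_subset_ball (by linarith) hz)
    refine ⟨r / 2, by positivity, ?_, ?_⟩
    · refine N.differentiable.differentiableOn.div D.differentiable.differentiableOn ?_
      intro z hz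
      exact norm_pos_iff.1 (hm0.trans (hcl z (ball_subset_closedBall hz)))
    · intro n l Nk Dk hN hD
      have hK : IsCompact (closedBall p (r / 2)) := isCompact_closedBall _ _
      have huN : TendstoUniformlyOn (fun k z => (Nk k).eval z) (fun z => N.eval z) l
          (closedBall p (r / 2)) :=
        (tendstoLocallyUniformlyOn_iff_tendstoUniformlyOn_of_compact hK).1
          ((hPCE l n Nk N hN).mono (subset_univ _))
      have huD : TendstoUniformlyOn (fun k z => (Dk k).eval z) (fun z => D.eval z) l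
          (closedBall p (r / 2)) :=
        (tendstoLocallyUniformlyOn_iff_tendstoUniformlyOn_of_compact hK).1
          ((hPCE l n Dk D hD).mono (subset_univ _))
      rw [Metric.tendstoUniformlyOn_iff] at huN huD
      obtain ⟨M, hM⟩ := hK.exists_bound_of_continuousOn (f := fun z => N.eval z)
        N.continuous.continuousOn
      have hM0 : 0 ≤ M := (norm_nonneg _).trans (hM p (mem_closedBall_self (by positivity)))
      refine ⟨?_, ?_⟩
      · filter_upwards [huD m hm0] with k hk
        refine (Nk k).differentiable.differentiableOn.div (Dk k).differentiable.differentiableOn ?_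
        intro z hz h0
        have hz' := ball_subset_closedBall hz
        have h2 := hk z hz'
        have h3 := hcl z hz'
        rw [dist_eq_norm] at h2
        simp only [h0, sub_zero] at h2
        linarith
      · rw [Metric.tendstoUniformlyOn_iff]
        intro ε hε
        obtain ⟨δ, hδ⟩ : ∃ δ : ℝ, δ = min (m / 2) (ε * m ^ 2 / (4 * (M + m))) := ⟨_, rfl⟩
        have hMm : 0 < M + m := by linarith
        have hδ0 : 0 < δ := by
          rw [hδ]
          exact lt_min (by positivity) (by positivity)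
        have hδ1 : δ ≤ m / 2 := by rw [hδ]; exact min_le_left _ _
        have hδ2 : δ ≤ ε * m ^ 2 / (4 * (M + m)) := by rw [hδ]; exact min_le_right _ _
        filter_upwards [huN δ hδ0, huD δ hδ0] with k hkN hkD
        intro z hz
        have hz' := ball_subset_closedBall hz
        have h2 := hkN z hz'
        have h3 := hkD z hz'
        rw [dist_eq_norm] at h2 h3 ⊢
        have h4 := HOX_.quot hm0 (hM z hz') (hcl z hz') h2.le h3.le hδ1
        have h5 : 2 * δ * (M + m) / m ^ 2 ≤ ε / 2 := by
          rw [div_le_iff₀ (by positivity)]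
          have h6 : δ * (4 * (M + m)) ≤ ε * m ^ 2 := by
            rwa [le_div_iff₀ (by positivity)] at hδ2
          linarith
        have h7 : ‖rf N D z - rf (Nk k) (Dk k) z‖ ≤ 2 * δ * (M + m) / m ^ 2 := h4
        linarith

end Pool.Agent.MAT
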