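import Pool.Agent.MAT.T

/-!
# MAT: HPH, the Fatou coordinate is holomorphic
-/

set_option autoImplicit false

open Polynomial Metric Set Filter Topology

noncomputable section

namespace Pool.Agent.MAT

namespace HPH_

/-- the petal is open -/
lemma isOpen_PinS {a : ℂ} (ha : a ≠ 0) (p : ℂ) (R : ℝ) : IsOpen (PinS a p R) := by
  have h1 : IsOpen {z : ℂ | z ≠ p} := isOpen_ne
  have hc : ContinuousOn (fun z => (omc a p z).re + |(omc a p z).im|) {z : ℂ | z ≠ p} := by
    have h2 : ContinuousOn (fun z => omc a p z) {z : ℂ | z ≠ p} := by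
      unfold omc
      refine ContinuousOn.div continuousOn_const ?_ ?_
      · exact (continuous_const.mul (continuous_id.sub continuous_const)).continuousOn
      · intro z hz
        exact mul_ne_zero ha (sub_ne_zero.2 hz)
    exact (Complex.continuous_re.comp_continuousOn h2).add
      (Complex.continuous_im.comp_continuousOn h2).abs
  exact hc.isOpen_inter_preimage h1 isOpen_Ioi

variable {g : ℂ → ℂ} {p a : ℂ} (K : PK g p a)

/-- later iterates -/
lemma iter {x w : ℂ} {m : ℕ} (h : g^[m] x ∈ PinS a p K.Rp) (hw : K.Fi (g^[m] x) = w + m) :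
    ∀ j : ℕ, g^[m + j] x ∈ PinS a p K.Rp ∧ K.Fi (g^[m + j] x) = w + (m + j : ℕ) := by
  intro j
  induction j with
  | zero => exact ⟨h, by simpa using hw⟩
  | succ j ih =>
    obtain ⟨h1, h2⟩ := ih
    have e : g^[m + (j + 1)] x = g (g^[m + j] x) := by
      rw [← add_assoc, Function.iterate_succ_apply']
    refine ⟨?_, ?_⟩
    · rw [e]; exact K.in_map _ h1
    · rw [e, K.Fi_map _ h1, h2]
      push_cast
      ring

/-- the coordinate is unique -/
lemma uniq {x w w' : ℂ} (h : K.HasPhi x w) (h' : K.HasPhi x w') : w = w' := by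
  obtain ⟨m, h1, h2⟩ := h
  obtain ⟨m', h3, h4⟩ := h'
  have e1 := (iter K h1 h2 m').2
  have e2 := (iter K h3 h4 m).2
  rw [add_comm m' m] at e2
  rw [e1] at e2
  exact add_right_cancel e2

/-- iterates of a holomorphic self map -/
lemma iter_diff {U : Set ℂ} (hg : DifferentiableOn ℂ g U) (hm : MapsTo g U U) :
    ∀ m : ℕ, DifferentiableOn ℂ g^[m] U ∧ MapsTo g^[m] U U := by
  intro m
  induction m with
  | zero => exact ⟨differentiableOn_id, fun x hx => hx⟩
  | succ m ih =>
    obtain ⟨h1, h2⟩ := ih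
    rw [Function.iterate_succ']
    exact ⟨hg.comp h1 h2, hm.comp h2⟩

end HPH_

open HPH_ in
theorem p_HPH : T_HPH := by
  intro g p a K U Φ hU hg hm hΦ x0 hx0
  obtain ⟨m, h1, h2⟩ := hΦ x0 hx0
  have hP : IsOpen (PinS a p K.Rp) := isOpen_PinS K.a_ne p K.Rp
  obtain ⟨hd, hmm⟩ := iter_diff hg hm m
  have hUn : U ∈ 𝓝 x0 := hU.mem_nhds hx0
  have hdx : DifferentiableAt ℂ g^[m] x0 := hd.differentiableAt hUn
  have hev : ∀ᶠ x in 𝓝 x0, g^[m] x ∈ PinS a p K.Rp :=
    hdx.continuousAt.eventually_mem (hP.mem_nhds h1)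
  have heq : Φ =ᶠ[𝓝 x0] fun x => K.Fi (g^[m] x) - m := by
    filter_upwards [hev, hUn] with x hx hxU
    refine uniq K (hΦ x hxU) ⟨m, hx, ?_⟩
    ring
  have hF : DifferentiableAt ℂ K.Fi (g^[m] x0) := K.Fi_hol.differentiableAt (hP.mem_nhds h1)
  have hc : DifferentiableAt ℂ (fun x => K.Fi (g^[m] x) - m) x0 :=
    (DifferentiableAt.comp x0 hF hdx).sub_const _
  exact (heq.differentiableAt_iff.2 hc).differentiableWithinAt

end Pool.Agent.MAT
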