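import Pool.Agent.MAT.T

/-!
# MAT: HRE (the relation between the horn maps)
-/

set_option autoImplicit false

open Polynomial Metric Set Filter Topology

noncomputable section

namespace Pool.Agent.MAT

namespace HRE_

/-- commuting with the translation by one gives commuting with the translation by `m` -/
theorem add_nat {H : ℂ → ℂ} {Y : ℝ} (h : ∀ w : ℂ, Y < w.im → H (w + 1) = H w + 1) :
    ∀ (m : ℕ) (w : ℂ), Y < w.im → H (w + m) = H w + m := by
  intro m
  induction m with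
  | zero => intro w _; simp
  | succ m ih =>
    intro w hw
    have h1 : w + ((m + 1 : ℕ) : ℂ) = (w + m) + 1 := by push_cast; ring
    rw [h1, h _ (by simpa using hw), ih w hw]
    push_cast
    ring

end HRE_

open HRE_ in
theorem p_HRE (hHC : T_HC) (hHOA : T_HOA) (hHOC : T_HOC) (hHOI : T_HOI) (hHOT : T_HOT)
    (hHOE : T_HOE) (hHUS : T_HUS) (hHPB : T_HPB) (hGHC : T_GHC) (hGIU : T_GIU) : T_HRE := by
  intro n e u A N D R' ρ ϕ χ p a κ hn he he2 hA hRad hIrr hlim K L hκ hS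
  obtain ⟨w₁, w₂, hw1, hw2, hw12⟩ := hGIU n e u hn he he2 hlim K
  obtain ⟨YE, hYE⟩ := hHOE n e A N D R' ϕ χ p a hn he he2 hA hRad K L
  obtain ⟨S₁, hS₁⟩ := hS
  obtain ⟨S₂, hS₂, hGS⟩ := hGHC n e hn he he2 K 3
  obtain ⟨hUo, hUinv, hUEi, hUE, hUEH, hUex, hUG⟩ := hHUS n e hn he he2 K 3
  obtain ⟨kP1, kP2, kP3, kP4, kP5, kP6, kP7, kP8, kP9, kP10⟩ := hHPB _ _ _ K
  obtain ⟨lP1, lP2, lP3, lP4, lP5, lP6, lP7, lP8, lP9, lP10⟩ := hHPB _ _ _ L
  have hKR : 1 ≤ K.R := K.hRp.trans K.hR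
  have hLR : 1 ≤ L.R := L.hRp.trans L.hR
  have hκi : |κ.im| ≤ ‖κ‖ := Complex.abs_im_le_norm κ
  have hκ1 := abs_le.mp hκi
  have hκ0 := norm_nonneg κ
  have hYEa := le_abs_self YE
  have hYE0 := abs_nonneg YE
  set Y₀ : ℝ := K.R + |YE| + L.R + ‖κ‖ + 3 with hY₀
  have hw12' : Irrational (w₁ - w₂) := by rwa [hw12]
  have hne : w₁ ≠ w₂ := by
    intro h
    rw [h, sub_self] at hw12'
    exact not_irrational_zero hw12'
  have h0U : (0 : ℂ) ∈ US K 3 := by
    refine ⟨hUG 0 _ hw1, w₁, hw1, ?_⟩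
    simp
  have heU : (-(e : ℂ)) ∈ US K 3 := by
    refine ⟨hUG _ _ hw2, w₂, hw2, ?_⟩
    simp
  have hmain : ∀ S : ℝ, max S₁ S₂ ≤ S → ∃ τ : ℂ → ℂ, DifferentiableOn ℂ τ {w | -3 < w.im} ∧
    InjOn τ {w | -3 < w.im} ∧ (∀ w : ℂ, -3 < w.im → τ (w + 1) = τ w + 1) ∧
    ((τ w₁ = w₁ ∧ τ w₂ = w₂) ∨ (τ w₁ = w₂ ∧ τ w₂ = w₁)) ∧
    ∀ w : ℂ, -3 < w.im → Y₀ < w.im + S → Y₀ < (τ w).im + S →
      -3 < (K.H (w + S * Complex.I)).im →
      τ (K.H (w + S * Complex.I)) = (fun w => L.H (w + κ) - κ) (τ w + S * Complex.I) := by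
    intro S hS
    obtain ⟨v, Nk, Dk, ϕk, χk, R'', hHor⟩ := hS₁ S ((le_max_left _ _).trans hS)
    obtain ⟨hBas, -⟩ := hGS S ((le_max_right _ _).trans hS)
    obtain ⟨χS, hχd, hχl, hχc, hχ0, hχe, hχb⟩ := hHOA n e A ρ R'' S N D v Nk Dk ϕk χk (US K 3)
      hn he he2 hA hRad.deg hHor hUo hUinv hBas
    obtain ⟨-, hc0, hce⟩ := hHOC n e A N D R'' R' ϕ χ χS p (US K 3) hn he he2 hA hRad hUinv
      hχc hχb
    have hdich := hHOI n e hn he he2 K 3 S v χk χS hHor.hu hBas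
      (hHor.pair.mono fun k hk => ⟨hk.hol, hk.inj⟩) hχd hχl
    have hL : HorL n e N D R'' χ K 3 χS :=
      ⟨hχd, hχc, hχb, hdich, hc0 h0U (hχ0 h0U), hce heU (hχe heU)⟩
    obtain ⟨τ, hτd, hτi, hτa, hτw, hτφ⟩ := hHOT n e A N D R'' R' 3 ϕ χ χS p a κ w₁ w₂ hn he he2
      hA hRad (by norm_num) K L hw1 hw2 hne hκ hL
    refine ⟨τ, hτd, hτi, hτa, hτw, ?_⟩
    intro w hw hwS hτS hH
    obtain ⟨m, hm⟩ := exists_nat_gt (K.R - w.re)
    have hre : K.R < (w + m).re := by simp; linarith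
    have him : (w + m).im = w.im := by simp
    have hxU : K.Ei (w + m) ∈ US K 3 := hUEi _ hre (by rw [him]; exact hw)
    have hxφ : K.HasPhi (K.Ei (w + m)) (w + m) := kP6 _ hre
    have hτm : τ (w + m) = τ w + m := add_nat (Y := -3) hτa m w hw
    have hxL : L.HasPhi (χS (K.Ei (w + m))) (τ w + m + κ) := by
      have h1 := hτφ _ (w + m) (by rw [him]; exact hw) hxφ
      rwa [hτm] at h1
    have hSI : ∀ z : ℂ, (z + S * Complex.I).im = z.im + S := by intro z; simp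
    have hwI : K.R < (w + S * Complex.I).im := by rw [hSI]; linarith
    have hHm : K.H (w + m + S * Complex.I) = K.H (w + S * Complex.I) + m := by
      have h1 : w + m + S * Complex.I = (w + S * Complex.I) + m := by ring
      rw [h1]
      exact add_nat K.H_add m _ hwI
    have hwmI : K.R < (w + m + S * Complex.I).im := by rw [hSI, him]; linarith
    have hHim : -3 < (K.H (w + m + S * Complex.I)).im := by
      rw [hHm]; simpa using hH
    have hEU : K.E (w + m + S * Complex.I) ∈ US K 3 := hUEH _ hwmI hHim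
    have him2 : (τ w + m + κ).im = (τ w).im + κ.im := by simp
    have hEq := hYE ρ R'' S 3 v Nk Dk ϕk χk χS hHor hBas hχl hχd hχc (K.Ei (w + m)) (w + m)
      (τ w + m + κ) hxU hxφ hxL (by rw [him]; linarith) (by rw [him2]; linarith) hEU
    have h1 : K.HasPhi (K.E (w + m + S * Complex.I)) (K.H (w + m + S * Complex.I)) :=
      kP8 _ hwmI
    have h2 := hτφ _ _ hHim h1
    rw [hEq, hHm] at h2
    have h3 : L.R < (τ w + m + κ + S * Complex.I).im := by rw [hSI, him2]; linarith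
    have h4 := lP1 _ _ _ h2 (lP8 _ h3)
    have h5 : τ (K.H (w + S * Complex.I) + m) = τ (K.H (w + S * Complex.I)) + m :=
      add_nat (Y := -3) hτa m _ hH
    have h6 : L.H (τ w + m + κ + S * Complex.I) = L.H (τ w + S * Complex.I + κ) + m := by
      have h7 : τ w + m + κ + S * Complex.I = (τ w + S * Complex.I + κ) + m := by ring
      rw [h7]
      refine add_nat L.H_add m _ ?_
      rw [h7] at h3
      simpa using h3
    rw [h5, h6] at h4
    show _ = L.H (τ w + S * Complex.I + κ) - κ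
    linear_combination h4
  obtain ⟨Y₁, hY₁, hfin⟩ := hHC K.H (fun w => L.H (w + κ) - κ) Y₀ w₁ w₂
    (K.H_hol.mono fun w hw => by
      have : Y₀ < w.im := hw
      show K.R < w.im
      linarith)
    (by
      refine DifferentiableOn.sub_const ?_ κ
      refine L.H_hol.comp (differentiableOn_id.add_const κ) ?_
      intro w hw
      have : Y₀ < w.im := hw
      show L.R < (w + κ).im
      rw [Complex.add_im]
      linarith)
    (fun w hw => K.H_add w (by linarith))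
    (fun w hw => by
      show L.H (w + 1 + κ) - κ = L.H (w + κ) - κ + 1
      have h1 : w + 1 + κ = (w + κ) + 1 := by ring
      rw [h1, L.H_add _ (by rw [Complex.add_im]; linarith)]
      ring)
    K.H_lim
    (fun ε hε => by
      obtain ⟨Y, hY⟩ := L.H_lim ε hε
      refine ⟨Y + ‖κ‖, fun w hw => ?_⟩
      have h1 := hY (w + κ) (by rw [Complex.add_im]; linarith)
      have h2 : L.H (w + κ) - κ - w = L.H (w + κ) - (w + κ) := by ring
      show ‖L.H (w + κ) - κ - w‖ < ε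
      rwa [h2])
    hw12' ⟨max S₁ S₂, hmain⟩
  refine ⟨Y₁, fun w hw => ?_⟩
  have h1 := hfin w hw
  rw [h1]
  ring

end Pool.Agent.MAT
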