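import Pool.Agent.MAT.T

/-!
# MAT: the target HUS
-/

set_option autoImplicit false

open Polynomial Metric Set Filter Topology

noncomputable section

namespace Pool.Agent.MAT

theorem HUS_.diff_GG (n : ℕ) (e : ℝ) : Differentiable ℂ (GG n e) := by
  unfold GG
  fun_prop

theorem p_HUS (hHPB : T_HPB) (hHPH : T_HPH) (hGBA : T_GBA) (hGAB : T_GAB) : T_HUS := by
  intro n e hn he he2 K C₁
  obtain ⟨b1, b2, b3, b4, -, b6, -, b8, -, -⟩ := hHPB (GG n e) 1 (cA n e) K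
  obtain ⟨hopen, -, -, hinv, hconv, -⟩ := hGBA n e hn he he2
  have h7 : ∀ x w : ℂ, K.HasPhi x w → x ∈ UG n e := fun x w h =>
    hGAB n e hn he he2 x (b4 x w h).1 (b4 x w h).2.1
  have h6 : ∀ x ∈ UG n e, ∃ w : ℂ, K.HasPhi x w := fun x hx =>
    b3 x (hconv x hx).1 (hconv x hx).2
  refine ⟨?_, ?_, ?_, ?_, ?_, h6, h7⟩
  · choose! Φ hΦ using h6
    have hd : DifferentiableOn ℂ Φ (UG n e) := by
      refine hHPH (GG n e) 1 (cA n e) K (UG n e) Φ hopen
        (HUS_.diff_GG n e).differentiableOn ?_ hΦ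
      intro x hx
      exact (hinv x).2 hx
    have hUS : US K C₁ = UG n e ∩ Φ ⁻¹' {w | -C₁ < w.im} := by
      ext x
      constructor
      · rintro ⟨hx, w, hw, hw2⟩
        refine ⟨hx, ?_⟩
        show -C₁ < (Φ x).im
        rw [b1 x _ w (hΦ x hx) hw]
        exact hw2
      · rintro ⟨hx, hx2⟩
        exact ⟨hx, Φ x, hΦ x hx, hx2⟩
    rw [hUS]
    exact hd.continuousOn.isOpen_inter_preimage hopen
      (isOpen_lt continuous_const Complex.continuous_im)
  · rintro x ⟨hx, w, hw, hw2⟩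
    refine ⟨(hinv x).2 hx, w + 1, (b2 x w).2 hw, ?_⟩
    simpa using hw2
  · intro w hw hw2
    exact ⟨h7 _ _ (b6 w hw), w, b6 w hw, hw2⟩
  · intro w hw
    exact h7 _ _ (b8 w hw)
  · intro w hw hw2
    exact ⟨h7 _ _ (b8 w hw), _, b8 w hw, hw2⟩

end Pool.Agent.MAT
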