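import Pool.Agent.MAT.T

/-!
# MAT: INAB (absorption by the petal), by helper58
-/

set_option autoImplicit false

open Polynomial Metric Set Filter Topology

noncomputable section

namespace Pool.Agent.MAT

namespace INAB_

/-- A real sequence with increments tending to one tends to infinity. -/
lemma real_tendsto (x : ℕ → ℝ) (h : Tendsto (fun m => x (m + 1) - x m) atTop (𝓝 1)) :
    Tendsto x atTop atTop := by
  have h1 : ∀ᶠ m in atTop, (1 / 2 : ℝ) < x (m + 1) - x m :=
    h.eventually (lt_mem_nhds (by norm_num))
  obtain ⟨m₀, hm₀⟩ := eventually_atTop.1 h1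
  have h2 : ∀ k : ℕ, x m₀ + (k : ℝ) * (1 / 2) ≤ x (k + m₀) := by
    intro k
    induction k with
    | zero => simp
    | succ k ih =>
      have h3 := hm₀ (k + m₀) (by omega)
      have h4 : k + 1 + m₀ = k + m₀ + 1 := by omega
      rw [h4]
      push_cast
      linarith
  have h5 : Tendsto (fun k : ℕ => x (k + m₀)) atTop atTop := by
    refine tendsto_atTop_mono h2 ?_
    refine tendsto_atTop_add_const_left _ _ ?_
    exact tendsto_natCast_atTop_atTop.atTop_mul_const (by norm_num)
  exact (tendsto_add_atTop_iff_nat m₀).1 h5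

end INAB_

open INAB_ in
theorem p_INAB : T_INAB := by
  intro f e r Rp hr he he0 hf y hy hne hlim
  have hec : Tendsto (fun m => e (y m)) atTop (𝓝 1) := by
    have h1 : ContinuousAt e 0 :=
      (he.differentiableAt (isOpen_ball.mem_nhds (mem_ball_self hr))).continuousAt
    have h2 := h1.tendsto.comp hlim
    rwa [he0] at h2
  have hball : ∀ᶠ m in atTop, y m ∈ ball (0 : ℂ) r :=
    hlim.eventually (isOpen_ball.mem_nhds (mem_ball_self hr))
  have hT : Tendsto (fun m => e (y m) / (1 + y m * e (y m))) atTop (𝓝 1) := by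
    have h1 : Tendsto (fun m => 1 + y m * e (y m)) atTop (𝓝 (1 + 0 * 1)) :=
      tendsto_const_nhds.add (hlim.mul hec)
    have h2 := hec.div h1 (by norm_num)
    rw [zero_mul, add_zero, div_one] at h2
    exact h2
  have hinc : Tendsto (fun m => omc 1 0 (y (m + 1)) - omc 1 0 (y m)) atTop (𝓝 1) := by
    refine hT.congr' ?_
    filter_upwards [hball] with m hm
    have h1 : y (m + 1) = y m * (1 + y m * e (y m)) := by
      rw [hy m, hf (y m) hm]; ring
    have h2 : (1 + y m * e (y m)) ≠ 0 := by
      intro h0
      apply hne (m + 1)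
      rw [h1, h0, mul_zero]
    have h3 := hne m
    rw [h1]
    unfold omc
    rw [sub_zero, sub_zero, one_mul, one_mul]
    generalize hE : (1 + y m * e (y m)) = E at h2
    have h4 : y m * e (y m) = E - 1 := by rw [← hE]; ring
    have h5 : e (y m) = (E - 1) / y m := by rw [← h4]; field_simp
    rw [h5]
    field_simp
    ring
  have hre : Tendsto (fun m => (omc 1 0 (y m)).re) atTop atTop := by
    apply real_tendsto
    have h1 := (Complex.continuous_re.tendsto (1 : ℂ)).comp hinc
    simpa [Function.comp_def] using h1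
  obtain ⟨m₀, hm₀⟩ := eventually_atTop.1 (hre.eventually (eventually_gt_atTop Rp))
  refine ⟨m₀, fun m hm => ⟨hne m, ?_⟩⟩
  have h1 := hm₀ m hm
  have h2 := abs_nonneg (omc 1 0 (y m)).im
  linarith

end Pool.Agent.MAT
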