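import Pool.Agent.MAT.TP

set_option autoImplicit false

open Polynomial Metric Set Filter Topology

noncomputable section

namespace Pool.Agent.MAT

namespace INP_

theorem om_eq (z : ℂ) : omc 1 0 z = -1 / z := by simp [omc]

theorem inv2 (z : ℂ) : -1 / (-1 / z) = z := by
  by_cases h : z = 0
  · simp [h]
  · field_simp

theorem lt_norm {R : ℝ} {ω : ℂ} (h : ω ∈ PR R) : R < 2 * ‖ω‖ := by
  have h1 : R < ω.re + |ω.im| := h
  have h2 := Complex.re_le_norm ω
  have h3 := Complex.abs_im_le_norm ω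
  linarith

theorem mem_iff {R : ℝ} {z : ℂ} : z ∈ PinS 1 0 R ↔ z ≠ 0 ∧ -1 / z ∈ PR R := by
  unfold PinS PR
  simp only [Set.mem_ofPred_eq, om_eq]

end INP_

open INP_ in
theorem p_INP (hFEST : T_FEST) (hFORB : T_FORB) (hFINC : T_FINC) (hFINJ : T_FINJ)
    (hFSUR : T_FSUR) : T_INP := by
  intro f e r X hr he he0 hf
  obtain ⟨R₀, C₀, hPF⟩ := hFEST e r hr he he0
  set F : ℂ → ℂ := fun ω => -1 / ((-1 / ω) + (-1 / ω) ^ 2 * e (-1 / ω)) with hF
  set β : ℂ := 1 - deriv e 0 with hβ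
  obtain ⟨Ra, hRa, hA⟩ := hFORB F β R₀ C₀ hPF
  obtain ⟨Rb, C, Φ, hRb, hC, hΦd, hΦ⟩ := hFINC F β R₀ C₀ hPF
  obtain ⟨Rc, hRc, -, hΦi⟩ := hFINJ F β R₀ C₀ hPF Rb C Φ hRb hC hΦd hΦ
  have hR0 := hPF.hR
  set Rp : ℝ := max (max X Ra) (max Rc (2 / r + 1)) with hRp
  have hXp : X ≤ Rp := le_trans (le_max_left _ _) (le_max_left _ _)
  have hap : Ra ≤ Rp := le_trans (le_max_right _ _) (le_max_left _ _)
  have hcp : Rc ≤ Rp := le_trans (le_max_left _ _) (le_max_right _ _)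
  have hrp : 2 / r + 1 ≤ Rp := le_trans (le_max_right _ _) (le_max_right _ _)
  have h2r : 0 < 2 / r := by positivity
  have h1p : 1 ≤ Rp := by linarith
  have hbp : Rb ≤ Rp := hRc.trans hcp
  have hsubb : PR Rp ⊆ PR Rb := fun ω h => lt_of_le_of_lt hbp h
  have hsubc : PR Rp ⊆ PR Rc := fun ω h => lt_of_le_of_lt hcp h
  obtain ⟨Rd, Ψ, hRd, hΨd, hΨ⟩ := hFSUR β Rp C Φ h1p hC (hΦd.mono hsubb) (hΦi.mono hsubc)
    (fun ω h => (hΦ ω (hsubb h)).2)
  have hne : ∀ ω ∈ PR Rp, ω ≠ 0 := by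
    rintro ω h rfl
    have := lt_norm h
    simp at this
    linarith
  have hball : ∀ z ∈ PinS 1 0 Rp, z ∈ ball (0 : ℂ) r := by
    intro z hz
    obtain ⟨hz0, hz1⟩ := mem_iff.1 hz
    have h1 := lt_norm hz1
    rw [norm_div, norm_neg, norm_one] at h1
    have hz2 : 0 < ‖z‖ := norm_pos_iff.2 hz0
    rw [mem_ball_zero_iff]
    by_contra hcon
    push Not at hcon
    have h3 : 1 / ‖z‖ ≤ 1 / r := one_div_le_one_div_of_le hr hcon
    have h4 : 2 / r = 2 * (1 / r) := by ring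
    linarith
  have hFf : ∀ z ∈ PinS 1 0 Rp, F (-1 / z) = -1 / f z := by
    intro z hz
    have h1 := hf z (hball z hz)
    simp only [hF, inv2, h1]
  have hmap : ∀ z ∈ PinS 1 0 Rp, f z ∈ PinS 1 0 Rp := by
    intro z hz
    obtain ⟨hz0, hz1⟩ := mem_iff.1 hz
    have h1 := (hA Rp hap _ hz1).2.1
    rw [hFf z hz] at h1
    refine mem_iff.2 ⟨?_, h1⟩
    intro h0
    have := hne _ h1
    rw [h0] at this
    simp at this
  have hit : ∀ z ∈ PinS 1 0 Rp, ∀ m : ℕ, f^[m] z ∈ PinS 1 0 Rp ∧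
      F^[m] (-1 / z) = -1 / f^[m] z := by
    intro z hz m
    induction m with
    | zero => exact ⟨hz, rfl⟩
    | succ m ih =>
      rw [Function.iterate_succ_apply', Function.iterate_succ_apply']
      exact ⟨hmap _ ih.1, by rw [ih.2, hFf _ ih.1]⟩
  refine ⟨Rp, Rd, C, fun z => Φ (-1 / z), fun w => -1 / Ψ w, hXp, by linarith, ?_⟩
  have hinvd : DifferentiableOn ℂ (fun z : ℂ => -1 / z) (PinS 1 0 Rp) := by
    intro z hz
    have hz0 := (mem_iff.1 hz).1
    exact ((differentiableAt_const _).div differentiableAt_id hz0).differentiableWithinAt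
  constructor
  · exact h1p
  · exact hRd
  · exact hC
  · have h1 : DifferentiableOn ℂ (fun z => z + z ^ 2 * e z) (ball (0 : ℂ) r) :=
      differentiableOn_id.add ((differentiableOn_id.pow 2).mul he)
    exact (h1.mono hball).congr (fun z hz => hf z (hball z hz))
  · exact hmap
  · intro z hz
    obtain ⟨hz0, hz1⟩ := mem_iff.1 hz
    rw [tendsto_zero_iff_norm_tendsto_zero]
    have hlim : Tendsto (fun m : ℕ => 4 / (m : ℝ)) atTop (𝓝 0) :=
      tendsto_const_nhds.div_atTop tendsto_natCast_atTop_atTop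
    refine squeeze_zero' (Eventually.of_forall fun m => norm_nonneg _) ?_ hlim
    filter_upwards [eventually_gt_atTop 0] with m hm
    have h1 := ((hA Rp hap _ hz1).2.2 m).2
    rw [(hit z hz m).2] at h1
    obtain ⟨hw0, -⟩ := mem_iff.1 (hit z hz m).1
    rw [norm_div, norm_div, norm_neg, norm_one] at h1
    have h2 : 0 < ‖f^[m] z‖ := norm_pos_iff.2 hw0
    have h3 : (0 : ℝ) < m := by exact_mod_cast hm
    have h4 : 0 ≤ 1 / ‖z‖ := by positivity
    have h5 : (m : ℝ) ≤ 4 * (1 / ‖f^[m] z‖) := by linarith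
    rw [mul_one_div, le_div_iff₀ h2] at h5
    rw [le_div_iff₀ h3]
    linarith
  · intro z hz m
    obtain ⟨hz0, hz1⟩ := mem_iff.1 hz
    have h1 := ((hA Rp hap _ hz1).2.2 m).2
    rw [(hit z hz m).2] at h1
    rw [om_eq, om_eq]
    have h3 : (0 : ℝ) ≤ m := Nat.cast_nonneg m
    linarith
  · exact (hΦd.mono hsubb).comp hinvd (fun z hz => (mem_iff.1 hz).2)
  · intro z hz w hw h
    have h1 := hΦi (hsubc (mem_iff.1 hz).2) (hsubc (mem_iff.1 hw).2) h
    have h2 := congrArg (fun x : ℂ => -1 / x) h1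
    simpa only [inv2] using h2
  · intro z hz
    have h1 := (hΦ _ (hsubb (mem_iff.1 hz).2)).1
    rw [hFf z hz] at h1
    exact h1
  · intro z hz
    rw [om_eq]
    exact (hΦ _ (hsubb (mem_iff.1 hz).2)).2
  · intro w hw
    have h1 := hΨ w hw
    have h2 : DifferentiableWithinAt ℂ Ψ {w | Rd < w.re} w := hΨd w hw
    exact (differentiableWithinAt_const _).div h2 (hne _ h1.1)
  · intro w hw
    have h1 := hΨ w hw
    refine mem_iff.2 ⟨?_, by rw [inv2]; exact h1.1⟩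
    exact div_ne_zero (by norm_num) (hne _ h1.1)
  · intro w hw
    show Φ (-1 / (-1 / Ψ w)) = w
    rw [inv2]
    exact (hΨ w hw).2

end Pool.Agent.MAT
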