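import Pool.Agent.MAT.T

/-!
# MAT, LAB: basic facts on `ASide`
-/

set_option autoImplicit false

open Polynomial Metric Set Filter Topology

noncomputable section

namespace Pool.Agent.MAT

namespace LAB_

lemma isOpen_out (hINVH : T_INVH) {ϕ : ℂ → ℂ} (hol : DifferentiableOn ℂ ϕ (ball 0 1))
    (inj : InjOn ϕ (ball 0 1)) : IsOpen (Out ϕ) := by
  obtain ⟨hopen, -⟩ := hINVH (ball 0 1) ϕ isOpen_ball hol inj
  have h : Out ϕ = {z : ℂ | z ≠ 0} ∩ (fun z : ℂ => z⁻¹) ⁻¹' (ϕ '' ball 0 1) := by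
    ext z
    constructor
    · rintro ⟨ζ, hζ, h⟩
      have hz : z ≠ 0 := by
        rintro rfl
        simp at h
      exact ⟨hz, ⟨ζ, hζ, eq_inv_of_mul_eq_one_left h⟩⟩
    · rintro ⟨hz, ⟨ζ, hζ, h⟩⟩
      refine ⟨ζ, hζ, ?_⟩
      rw [h]
      exact inv_mul_cancel₀ hz
  rw [h]
  have hc : ContinuousOn (fun z : ℂ => z⁻¹) {z : ℂ | z ≠ 0} := fun z hz =>
    (continuousAt_inv₀ hz).continuousWithinAt
  exact hc.isOpen_inter_preimage isOpen_ne hopen

lemma zero_notin (ϕ : ℂ → ℂ) : (0 : ℂ) ∉ Out ϕ := by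
  rintro ⟨ζ, -, h⟩
  simp at h

lemma A_mem (hBLA : T_BLA) {n : ℕ} {A : ℂ → ℂ} (hn : 2 ≤ n) (hA : IsBlaschke n A) {ζ : ℂ}
    (hζ : ζ ∈ ball (0 : ℂ) 1) : A ζ ∈ ball (0 : ℂ) 1 := by
  obtain ⟨h0, -, -, hlt, -⟩ := hBLA n A hn hA
  by_cases h : ζ = 0
  · rw [h, h0]
    simp
  · have h1 := hlt ζ hζ h
    rw [mem_ball_zero_iff] at hζ ⊢
    exact h1.trans hζ

end LAB_

open LAB_ in
/-- LAB (basic facts on `ASide`) -/
theorem p_LAB (hBLA : T_BLA) (hINVH : T_INVH) : T_LAB := by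
  intro n A N D R ϕ hn hA hdeg hS
  obtain ⟨h0, -, -, -, -, hlim, -⟩ := hBLA n A hn hA
  refine ⟨isOpen_out hINVH hS.hol hS.inj, zero_notin ϕ, ?_, ?_, ?_, ?_, ?_⟩
  · intro z hz
    by_contra h
    exact hz (hS.esc z (not_lt.mp h))
  · intro z hz m
    induction m with
    | zero => exact hz
    | succ m ih =>
      rw [Function.iterate_succ_apply']
      exact (hS.back _ ih).2
  · rintro z w hw hN ⟨ζ, hζ, h⟩
    have hc := hS.conj ζ hζ z h
    have hD : D.eval z ≠ 0 := by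
      intro hD
      obtain ⟨a, b, hab⟩ := hdeg.cop
      have h1 := congrArg (Polynomial.eval z) hab
      rw [eval_add, eval_mul, eval_mul, hN, hD, eval_one] at h1
      simp at h1
    apply hw
    refine ⟨A ζ, A_mem hBLA hn hA hζ, ?_⟩
    rw [hN] at hc
    have h2 : D.eval z * (ϕ (A ζ) * w) = D.eval z * 1 := by
      rw [mul_one]
      calc D.eval z * (ϕ (A ζ) * w) = w * D.eval z * ϕ (A ζ) := by ring
        _ = D.eval z := hc
    exact mul_left_cancel₀ hD h2
  · rintro z ⟨ζ, hζ, h⟩ hD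
    have key : ∀ m : ℕ, A^[m] ζ ∈ ball (0 : ℂ) 1 ∧ ϕ (A^[m] ζ) * (rf N D)^[m] z = 1 := by
      intro m
      induction m with
      | zero => exact ⟨hζ, h⟩
      | succ m ih =>
        rw [Function.iterate_succ_apply', Function.iterate_succ_apply']
        refine ⟨A_mem hBLA hn hA ih.1, ?_⟩
        have hc := hS.conj _ ih.1 _ ih.2
        unfold rf
        have hDm := hD m
        unfold rf at hDm hc
        rw [mul_div_assoc', div_eq_one_iff_eq hDm, mul_comm]
        exact hc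
    have hcont : ContinuousAt ϕ 0 :=
      (hS.hol.continuousOn).continuousAt (isOpen_ball.mem_nhds (by simp))
    have ht : Tendsto (fun m : ℕ => ϕ (A^[m] ζ)) atTop (𝓝 0) := by
      have := hcont.tendsto.comp (hlim ζ hζ)
      rw [hS.zero] at this
      exact this
    have hne : ∀ m : ℕ, ϕ (A^[m] ζ) ≠ 0 := fun m hm => by
      have := (key m).2
      rw [hm, zero_mul] at this
      exact zero_ne_one this
    have ht' : Tendsto (fun m : ℕ => ϕ (A^[m] ζ)) atTop (𝓝[≠] 0) :=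
      tendsto_nhdsWithin_iff.mpr ⟨ht, Eventually.of_forall hne⟩
    have h3 := (tendsto_norm_inv_nhdsNE_zero_atTop (α := ℂ)).comp ht'
    refine h3.congr fun m => ?_
    simp only [Function.comp]
    rw [inv_eq_of_mul_eq_one_right (key m).2]
  · intro z hz
    by_contra h
    exact (hS.back z h).1 hz

end Pool.Agent.MAT
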