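import Pool.Agent.MAT.Core

/-!
# MAT: targets L (limits along the radial sequence)
-/

set_option autoImplicit false

open Polynomial Metric Set Filter Topology

noncomputable section

namespace Pool.Agent.MAT

/-- LAB (basic facts on `ASide`; from BLA) -/
def T_LAB : Prop := ∀ (n : ℕ) (A : ℂ → ℂ) (N D : ℂ[X]) (R : ℝ) (ϕ : ℂ → ℂ), 2 ≤ n →
  IsBlaschke n A → NDeg n N D → ASide A N D R ϕ →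
  IsOpen (Out ϕ) ∧ (0 : ℂ) ∉ Out ϕ ∧ (∀ z, z ∉ Out ϕ → ‖z‖ < R) ∧
  (∀ z, z ∉ Out ϕ → ∀ m : ℕ, (rf N D)^[m] z ∉ Out ϕ) ∧
  (∀ z w, w ∉ Out ϕ → N.eval z = w * D.eval z → z ∉ Out ϕ) ∧
  (∀ z ∈ Out ϕ, (∀ m : ℕ, D.eval ((rf N D)^[m] z) ≠ 0) →
    Tendsto (fun m : ℕ => ‖(rf N D)^[m] z‖) atTop atTop) ∧
  (∀ z, D.eval z = 0 → z ∈ Out ϕ)

/-- LAL (limit of the `A`-sides, first part; from UL, HINJ, INVH, GROW, BLA, PCE) -/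
def T_LAL : Prop := ∀ (n : ℕ) (A : ℂ → ℂ) (u : Ultrafilter ℕ) (Nk Dk : ℕ → ℂ[X]) (N D : ℂ[X])
  (R : ℝ) (ϕk : ℕ → ℂ → ℂ) (yk : ℕ → ℂ) (y : ℂ), 2 ≤ n → IsBlaschke n A →
  (∀ᶠ k in (u : Filter ℕ), ASide A (Nk k) (Dk k) R (ϕk k)) →
  PConv (u : Filter ℕ) n Nk N → PConv (u : Filter ℕ) n Dk D →
  (∀ᶠ k in (u : Filter ℕ), yk k ∉ Out (ϕk k)) → Tendsto yk (u : Filter ℕ) (𝓝 y) → y ≠ 0 →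
  ∃ ϕ : ℂ → ℂ, TendstoLocallyUniformlyOn ϕk ϕ (u : Filter ℕ) (ball 0 1) ∧
    DifferentiableOn ℂ ϕ (ball 0 1) ∧ InjOn ϕ (ball 0 1) ∧ ϕ 0 = 0 ∧
    (∀ ζ ∈ ball (0 : ℂ) 1, ∀ z, ϕ ζ * z = 1 → N.eval z * ϕ (A ζ) = D.eval z) ∧
    (∀ z, 2 * R ≤ ‖z‖ → z ∈ Out ϕ) ∧
    ∀ᶠ k in (u : Filter ℕ), ∀ t : ℂ, ‖t‖ < 1 / R → ∃ ζ : ℂ, ‖ζ‖ ≤ R * ‖t‖ ∧ ϕk k ζ = t

/-- LAM (limit of the `A`-sides; from LAL, BLA, HUR) -/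
def T_LAM : Prop := ∀ (n : ℕ) (A : ℂ → ℂ) (u : Ultrafilter ℕ) (Nk Dk : ℕ → ℂ[X]) (N D : ℂ[X])
  (R : ℝ) (ϕk : ℕ → ℂ → ℂ) (yk : ℕ → ℂ) (y : ℂ), 2 ≤ n → IsBlaschke n A → NDeg n N D →
  (∀ᶠ k in (u : Filter ℕ), ASide A (Nk k) (Dk k) R (ϕk k)) →
  PConv (u : Filter ℕ) n Nk N → PConv (u : Filter ℕ) n Dk D →
  (∀ᶠ k in (u : Filter ℕ), yk k ∉ Out (ϕk k)) → Tendsto yk (u : Filter ℕ) (𝓝 y) → y ≠ 0 →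
  ∃ ϕ : ℂ → ℂ, TendstoLocallyUniformlyOn ϕk ϕ (u : Filter ℕ) (ball 0 1) ∧
    ASide A N D (2 * R) ϕ

/-- LYR (a nonzero root of `N_k` with nonzero limit; from PCR) -/
def T_LYR : Prop := ∀ (n : ℕ) (u : Ultrafilter ℕ) (Nk Dk : ℕ → ℂ[X]) (N D : ℂ[X]), 2 ≤ n →
  NDeg n N D → PConv (u : Filter ℕ) n Nk N → PConv (u : Filter ℕ) n Dk D →
  (∀ᶠ k in (u : Filter ℕ), NDeg n (Nk k) (Dk k) ∧ (Nk k).eval 0 = 0 ∧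
    1 ≤ ‖(derivative (Nk k)).eval 0 / (Dk k).eval 0‖) →
  ∃ (yk : ℕ → ℂ) (y : ℂ), y ≠ 0 ∧ Tendsto yk (u : Filter ℕ) (𝓝 y) ∧
    ∀ᶠ k in (u : Filter ℕ), (Nk k).eval (yk k) = 0

/-- LPM (derivative along the conjugacy; for a pair) -/
def T_LPM : Prop := ∀ (n : ℕ) (e : ℝ) (A : ℂ → ℂ) (ρ : ℝ) (μ : ℂ) (N D : ℂ[X]) (R : ℝ)
  (ϕ χ : ℂ → ℂ), 3 ≤ n → 0 < e → e ≤ 1 / 2 → IsBlaschke n A →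
  Pair n e A ρ μ N D R ϕ χ →
  (wr N D).eval (χ 1) = μ * D.eval (χ 1) ^ 2 ∧ N.eval (χ 1) = χ 1 * D.eval (χ 1) ∧
  (wr N D).eval (χ 0) = 0 ∧ (wr N D).eval (χ (-(e : ℂ))) = 0 ∧
  (∀ v ∈ Bas n e μ, D.eval (χ v) ≠ 0) ∧ (∀ v ∈ Bas n e μ, ‖χ v‖ < R)

/-- LRP (the radial limit, first step; from UL, HINJ, HUR, PCE, PCW, PCR, LAM, LYR, LPM, GBS,
GBA, BLA) -/
def T_LRP : Prop := ∀ (n : ℕ) (e : ℝ) (A : ℂ → ℂ) (ρ R : ℝ) (N D : ℂ[X]) (u : Ultrafilter ℕ)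
  (Nk Dk : ℕ → ℂ[X]) (ϕk χk : ℕ → ℂ → ℂ), 3 ≤ n → 0 < e → e ≤ 1 / 2 → IsBlaschke n A →
  ρ < 1 → NDeg n N D → (u : Filter ℕ) ≤ atTop → PConv (u : Filter ℕ) n Nk N →
  PConv (u : Filter ℕ) n Dk D →
  (∀ᶠ k : ℕ in (u : Filter ℕ), Pair n e A ρ ((1 - 1 / ((k : ℝ) + 2) : ℝ) : ℂ) (Nk k) (Dk k) R
    (ϕk k) (χk k)) →
  ∃ (ϕ χ : ℂ → ℂ) (q : ℂ), RadPre n e A N D (2 * R) ϕ χ q

/-- LRC (orbits converge; from UL, LAB, GRM, GBA) -/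
def T_LRC : Prop := ∀ (n : ℕ) (e : ℝ) (A : ℂ → ℂ) (N D : ℂ[X]) (R : ℝ) (ϕ χ : ℂ → ℂ) (q : ℂ),
  3 ≤ n → 0 < e → e ≤ 1 / 2 → IsBlaschke n A → RadPre n e A N D R ϕ χ q →
  ∃ c : ℂ, N.eval c = c * D.eval c ∧
    ∀ v ∈ UG n e, Tendsto (fun m : ℕ => χ ((GG n e)^[m] v)) atTop (𝓝 c)

/-- CSE (the sector of an attracting direction) -/
def T_CSE : Prop := ∀ (n ν : ℕ) (N D P : ℂ[X]) (p ε : ℂ), NDeg n N D → 1 ≤ ν →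
  N - X * D = (X - C p) ^ (ν + 1) * P → P.eval p ≠ 0 → D.eval p ≠ 0 → ‖ε‖ = 1 →
  P.eval p / D.eval p * ε ^ ν = -(‖P.eval p / D.eval p‖ : ℝ) →
  ∃ r c : ℝ, 0 < r ∧ 0 < c ∧ (∀ z ∈ Sect p ε ν r, D.eval z ≠ 0 ∧ rf N D z ∈ Sect p ε ν r) ∧
    (∀ z ∈ Sect p ε ν r, Tendsto (fun m : ℕ => (rf N D)^[m] z) atTop (𝓝 p) ∧
      Tendsto (fun m : ℕ => ((rf N D)^[m] z - p) / ‖(rf N D)^[m] z - p‖) atTop (𝓝 ε)) ∧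
    ∀ z ∈ Sect p ε ν r, ∃ M : ℕ, ∀ m : ℕ, M ≤ m →
      ball ((rf N D)^[m] z) (c * ‖(rf N D)^[m] z - p‖) ⊆ Sect p ε ν r

/-- CRA (the derivative of the iterates is small compared with the distance; from CSE) -/
def T_CRA : Prop := ∀ (n ν : ℕ) (N D P : ℂ[X]) (p ε : ℂ), NDeg n N D → 1 ≤ ν →
  N - X * D = (X - C p) ^ (ν + 1) * P → P.eval p ≠ 0 → D.eval p ≠ 0 → ‖ε‖ = 1 →
  P.eval p / D.eval p * ε ^ ν = -(‖P.eval p / D.eval p‖ : ℝ) →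
  ∃ r : ℝ, 0 < r ∧ ∀ z ∈ Sect p ε ν r,
    Tendsto (fun m : ℕ => ‖deriv ((rf N D)^[m]) z‖ / ‖(rf N D)^[m] z - p‖) atTop (𝓝 0)

/-- CLI (inverse branches of iterates; from ROOT, LAB) -/
def T_CLI : Prop := ∀ (n : ℕ) (A : ℂ → ℂ) (N D : ℂ[X]) (R : ℝ) (ϕ : ℂ → ℂ) (y : ℂ) (δ : ℝ),
  2 ≤ n → IsBlaschke n A → NDeg n N D → ASide A N D R ϕ → 0 < δ →
  (∀ z ∈ ball y δ, z ∉ Out ϕ) →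
  (∀ z, (wr N D).eval z = 0 → z ∉ Out ϕ → ∀ j : ℕ, 1 ≤ j → (rf N D)^[j] z ∉ ball y δ) →
  ∀ (m : ℕ) (z₀ : ℂ), z₀ ∉ Out ϕ → (rf N D)^[m] z₀ = y →
  ∃ h : ℂ → ℂ, DifferentiableOn ℂ h (ball y δ) ∧ h y = z₀ ∧
    ∀ ζ ∈ ball y δ, h ζ ∉ Out ϕ ∧ (rf N D)^[m] (h ζ) = ζ

/-- CPA (a parabolic direction attracts a critical point; from CSE, CRA, CLI, LAB) -/
def T_CPA : Prop := ∀ (n ν : ℕ) (A : ℂ → ℂ) (N D P : ℂ[X]) (R : ℝ) (ϕ : ℂ → ℂ) (p ε : ℂ),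
  2 ≤ n → IsBlaschke n A → NDeg n N D → ASide A N D R ϕ → 1 ≤ ν →
  N - X * D = (X - C p) ^ (ν + 1) * P → P.eval p ≠ 0 → D.eval p ≠ 0 → ‖ε‖ = 1 →
  P.eval p / D.eval p * ε ^ ν = -(‖P.eval p / D.eval p‖ : ℝ) →
  ∃ z : ℂ, (wr N D).eval z = 0 ∧ z ∉ Out ϕ ∧ (∀ m : ℕ, (rf N D)^[m] z ≠ p) ∧
    Tendsto (fun m : ℕ => (rf N D)^[m] z) atTop (𝓝 p) ∧
    Tendsto (fun m : ℕ => ((rf N D)^[m] z - p) / ‖(rf N D)^[m] z - p‖) atTop (𝓝 ε)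

/-- LDI (both critical orbits have the same direction; from GRA, LAB) -/
def T_LDI : Prop := ∀ (n ν : ℕ) (e : ℝ) (A : ℂ → ℂ) (N D P : ℂ[X]) (R : ℝ) (ϕ χ : ℂ → ℂ)
  (q p ε₁ ε₂ : ℂ), 3 ≤ n → 0 < e → e ≤ 1 / 2 → IsBlaschke n A →
  RadPre n e A N D R ϕ χ q → 2 ≤ ν → N - X * D = (X - C p) ^ (ν + 1) * P → P.eval p ≠ 0 →
  D.eval p ≠ 0 →
  (∀ m : ℕ, χ ((GG n e)^[m] 0) ≠ p) →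
  Tendsto (fun m : ℕ => χ ((GG n e)^[m] 0)) atTop (𝓝 p) →
  Tendsto (fun m : ℕ => (χ ((GG n e)^[m] 0) - p) / ‖χ ((GG n e)^[m] 0) - p‖) atTop (𝓝 ε₁) →
  Tendsto (fun m : ℕ => (χ ((GG n e)^[m] (-(e : ℂ))) - p) /
    ‖χ ((GG n e)^[m] (-(e : ℂ))) - p‖) atTop (𝓝 ε₂) → ε₁ = ε₂

/-- LRA (the radial limit; from LRC, CPA, LDI, LAB, GBA) -/
def T_LRA : Prop := ∀ (n : ℕ) (e : ℝ) (A : ℂ → ℂ) (N D : ℂ[X]) (R : ℝ) (ϕ χ : ℂ → ℂ) (q : ℂ),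
  3 ≤ n → 0 < e → e ≤ 1 / 2 → IsBlaschke n A → RadPre n e A N D R ϕ χ q →
  ∃ p : ℂ, Rad n e A N D R ϕ χ p

/-- LGS (the complement of the filled Julia set of `G`; from LAB, BLA) -/
def T_LGS : Prop := ∀ (n : ℕ) (e : ℝ) (x : RatMap n) (R : ℝ) (ϕ : ℂ → ℂ), 3 ≤ n → 0 < e →
  e ≤ 1 / 2 → XR n e 1 1 x → ASide (fun z => z ^ n) x.num x.den R ϕ →
  GSide n e (fun ζ => 1 + 1 / ϕ ζ)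

end Pool.Agent.MAT
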