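import Pool.Agent.MAT.TA
import Pool.Agent.MAT.TL

/-!
# MAT: LAL (limit of the `A`-sides, first part)
-/

set_option autoImplicit false

open Polynomial Metric Set Filter Topology

noncomputable section

namespace Pool.Agent.MAT

namespace LAL_

/-- The last claim: small values are taken at small points. -/
lemma small (hINVH : T_INVH) {A : ℂ → ℂ} {N D : ℂ[X]} {R : ℝ} {ϕ : ℂ → ℂ}
    (h : ASide A N D R ϕ) (t : ℂ) (ht : ‖t‖ < 1 / R) : ∃ ζ : ℂ, ‖ζ‖ ≤ R * ‖t‖ ∧ ϕ ζ = t := by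
  have hR0 : 0 < R := lt_of_lt_of_le one_pos h.hR
  obtain ⟨-, g, hg, hgi, -⟩ := hINVH (ball 0 1) ϕ isOpen_ball h.hol h.inj
  have hsurj : ∀ s ∈ ball (0 : ℂ) (1 / R), ∃ ζ ∈ ball (0 : ℂ) 1, ϕ ζ = s := by
    intro s hs
    rw [mem_ball_zero_iff] at hs
    by_cases h0 : s = 0
    · exact ⟨0, by simp, by rw [h0, h.zero]⟩
    · have h1 : R ≤ ‖s⁻¹‖ := by
        rw [norm_inv]
        have h2 : 0 < ‖s‖ := norm_pos_iff.mpr h0
        rw [le_inv_comm₀ hR0 h2, ← one_div]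
        exact hs.le
      obtain ⟨ζ, hζ, hz⟩ := h.esc _ h1
      refine ⟨ζ, hζ, ?_⟩
      calc ϕ ζ = ϕ ζ * s⁻¹ * s := by rw [mul_assoc, inv_mul_cancel₀ h0, mul_one]
        _ = s := by rw [hz, one_mul]
  have hsub : ball (0 : ℂ) (1 / R) ⊆ ϕ '' ball 0 1 := by
    intro s hs
    obtain ⟨ζ, hζ, hz⟩ := hsurj s hs
    exact ⟨ζ, hζ, hz⟩
  have hg0 : g 0 = 0 := by
    have := hgi 0 (by simp)
    rwa [h.zero] at this
  have hmaps : MapsTo g (ball (0 : ℂ) (1 / R)) (closedBall (g 0) 1) := by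
    intro s hs
    obtain ⟨ζ, hζ, hz⟩ := hsurj s hs
    rw [hg0, mem_closedBall_zero_iff, ← hz, hgi ζ hζ]
    exact (mem_ball_zero_iff.mp hζ).le
  have htb : t ∈ ball (0 : ℂ) (1 / R) := by rwa [mem_ball_zero_iff]
  have hd := Complex.dist_le_div_mul_dist_of_mapsTo_ball (hg.mono hsub) hmaps htb
  rw [hg0, dist_zero_right, dist_zero_right] at hd
  have h3 : (1 : ℝ) / (1 / R) = R := by field_simp
  rw [h3] at hd
  obtain ⟨ζ, hζ, hz⟩ := hsurj t htb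
  refine ⟨g t, hd, ?_⟩
  rw [← hz, hgi ζ hζ]

/-- The bound. -/
lemma bound (hGROW : T_GROW) {A : ℂ → ℂ} {N D : ℂ[X]} {R : ℝ} {ϕ : ℂ → ℂ}
    (h : ASide A N D R ϕ) {y : ℂ} (hy : y ∉ Out ϕ) (hy0 : y ≠ 0) {r : ℝ} (hr : 0 < r) (z : ℂ)
    (hz : ‖z‖ < 1 - r) : ‖ϕ z‖ ≤ (1 + 1 / r ^ 64) / ‖y‖ := by
  have hzb : z ∈ ball (0 : ℂ) 1 := by rw [mem_ball_zero_iff]; linarith
  have hyn : 0 < ‖y‖ := norm_pos_iff.mpr hy0
  have h1 := hGROW (fun ζ => ϕ ζ * y - 1) ((h.hol.mul_const y).sub_const 1) (by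
      intro a ha b hb hab
      have h2 : ϕ a * y = ϕ b * y := by
        have : ϕ a * y - 1 = ϕ b * y - 1 := hab
        linear_combination this
      exact h.inj ha hb (mul_right_cancel₀ hy0 h2)) (by
      intro ζ hζ h2
      exact hy ⟨ζ, hζ, by linear_combination h2⟩) z hzb
  simp only [h.zero, zero_mul, zero_sub, norm_neg, norm_one] at h1
  have h3 : r ^ 64 ≤ (1 - ‖z‖) ^ 64 := pow_le_pow_left₀ hr.le (by linarith) 64
  have hr64 : 0 < r ^ 64 := by positivity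
  have h4 : ‖ϕ z * y - 1‖ * r ^ 64 ≤ 1 :=
    (mul_le_mul_of_nonneg_left h3 (norm_nonneg _)).trans h1
  have h5 : ‖ϕ z * y - 1‖ ≤ 1 / r ^ 64 := by rwa [le_div_iff₀ hr64]
  rw [le_div_iff₀ hyn, ← norm_mul]
  calc ‖ϕ z * y‖ = ‖1 + (ϕ z * y - 1)‖ := by ring_nf
    _ ≤ ‖(1 : ℂ)‖ + ‖ϕ z * y - 1‖ := norm_add_le _ _
    _ ≤ 1 + 1 / r ^ 64 := by rw [norm_one]; linarith

end LAL_

open LAL_ in
theorem p_LAL (hUL : T_UL) (hHINJ : T_HINJ) (hINVH : T_INVH) (hGROW : T_GROW) (hBLA : T_BLA)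
    (hPCE : T_PCE) : T_LAL := by
  intro n A u Nk Dk N D R ϕk yk y hn hA hAS hN hD hy hyl hy0
  have hlast : ∀ᶠ k in (u : Filter ℕ), ∀ t : ℂ, ‖t‖ < 1 / R →
      ∃ ζ : ℂ, ‖ζ‖ ≤ R * ‖t‖ ∧ ϕk k ζ = t := by
    filter_upwards [hAS] with k hk t ht
    exact small hINVH hk t ht
  have hR1 : 1 ≤ R := by
    obtain ⟨k, hk⟩ := hAS.exists
    exact hk.hR
  have hR0 : 0 < R := lt_of_lt_of_le one_pos hR1
  have hyn : 0 < ‖y‖ := norm_pos_iff.mpr hy0
  have hyk : ∀ᶠ k in (u : Filter ℕ), ‖y‖ / 2 < ‖yk k‖ :=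
    hyl.norm.eventually (lt_mem_nhds (by linarith))
  -- the limit function
  have hex := hUL u (ball 0 1) ϕk isOpen_ball (by
    intro x hx
    rw [mem_ball_zero_iff] at hx
    have hr : 0 < (1 - ‖x‖) / 2 := by linarith
    have hnorm : ∀ z ∈ ball x ((1 - ‖x‖) / 2), ‖z‖ < 1 - (1 - ‖x‖) / 2 := by
      intro z hz
      rw [mem_ball, dist_eq_norm] at hz
      calc ‖z‖ = ‖(z - x) + x‖ := by ring_nf
        _ ≤ ‖z - x‖ + ‖x‖ := norm_add_le _ _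
        _ < 1 - (1 - ‖x‖) / 2 := by linarith
    have hsub : ball x ((1 - ‖x‖) / 2) ⊆ ball 0 1 := by
      intro z hz
      rw [mem_ball_zero_iff]
      have := hnorm z hz
      linarith
    refine ⟨(1 - ‖x‖) / 2, (1 + 1 / ((1 - ‖x‖) / 2) ^ 64) / (‖y‖ / 2), hr, hsub, ?_⟩
    filter_upwards [hAS, hy, hyk] with k hk hkO hkn
    refine ⟨hk.hol.mono hsub, ?_⟩
    intro z hz
    have hyk0 : yk k ≠ 0 := by
      intro h0
      rw [h0, norm_zero] at hkn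
      linarith
    refine (bound hGROW hk hkO hyk0 hr z (hnorm z hz)).trans ?_
    apply div_le_div_of_nonneg_left _ (by linarith) hkn.le
    positivity)
  obtain ⟨ϕ, hϕ, hlim⟩ := hex
  have hAb : ∀ ζ ∈ ball (0 : ℂ) 1, A ζ ∈ ball (0 : ℂ) 1 := by
    intro ζ hζ
    obtain ⟨hA0, -, -, hAs, -⟩ := hBLA n A hn hA
    by_cases h0 : ζ = 0
    · rw [h0, hA0]; simp
    · have h1 := hAs ζ hζ h0
      rw [mem_ball_zero_iff] at hζ ⊢
      linarith
  have hpt : ∀ ζ ∈ ball (0 : ℂ) 1, Tendsto (fun k => ϕk k ζ) (u : Filter ℕ) (𝓝 (ϕ ζ)) := by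
    intro ζ hζ
    exact hlim.tendsto_comp (hϕ.continuousOn ζ hζ) hζ
      (tendsto_nhdsWithin_iff.mpr ⟨tendsto_const_nhds, Eventually.of_forall fun _ => hζ⟩)
  have hz0 : ϕ 0 = 0 := by
    have h1 := hpt 0 (by simp)
    refine tendsto_nhds_unique h1 ?_
    refine (tendsto_congr' ?_).mpr tendsto_const_nhds
    filter_upwards [hAS] with k hk
    exact hk.zero
  -- escape
  have hesc : ∀ z, 2 * R ≤ ‖z‖ → z ∈ Out ϕ := by
    intro z hz
    have hz0' : 0 < ‖z‖ := by linarith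
    have hzne : z ≠ 0 := norm_pos_iff.mp hz0'
    have ht : ‖z⁻¹‖ ≤ 1 / (2 * R) := by
      rw [norm_inv, ← one_div]
      exact one_div_le_one_div_of_le (by positivity) hz
    have ht2 : ‖z⁻¹‖ < 1 / R := by
      refine lt_of_le_of_lt ht ?_
      apply one_div_lt_one_div_of_lt hR0
      linarith
    have hz1 : ∀ k : ℕ, ∃ ζ : ℂ, (∃ ξ : ℂ, ‖ξ‖ ≤ R * ‖z⁻¹‖ ∧ ϕk k ξ = z⁻¹) →
        ‖ζ‖ ≤ R * ‖z⁻¹‖ ∧ ϕk k ζ = z⁻¹ := by
      intro k
      by_cases h : ∃ ξ : ℂ, ‖ξ‖ ≤ R * ‖z⁻¹‖ ∧ ϕk k ξ = z⁻¹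
      · obtain ⟨ξ, hξ⟩ := h
        exact ⟨ξ, fun _ => hξ⟩
      · exact ⟨0, fun h' => absurd h' h⟩
    choose ζ hζ using hz1
    have hζ2 : ∀ᶠ k in (u : Filter ℕ), ‖ζ k‖ ≤ 1 / 2 ∧ ϕk k (ζ k) = z⁻¹ := by
      filter_upwards [hlast] with k hk
      obtain ⟨h1, h2⟩ := hζ k (hk _ ht2)
      refine ⟨h1.trans ?_, h2⟩
      calc R * ‖z⁻¹‖ ≤ R * (1 / (2 * R)) := mul_le_mul_of_nonneg_left ht hR0.le
        _ = 1 / 2 := by field_simp
    have hcomp : IsCompact (closedBall (0 : ℂ) (1 / 2)) := isCompact_closedBall _ _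
    have hmap : (u.map ζ : Filter ℂ) ≤ 𝓟 (closedBall (0 : ℂ) (1 / 2)) := by
      rw [le_principal_iff]
      have : ∀ᶠ k in (u : Filter ℕ), ζ k ∈ closedBall (0 : ℂ) (1 / 2) := by
        filter_upwards [hζ2] with k hk
        rw [mem_closedBall_zero_iff]
        exact hk.1
      exact this
    obtain ⟨ζs, hζs, hconv⟩ := hcomp.ultrafilter_le_nhds (u.map ζ) hmap
    have hconv' : Tendsto ζ (u : Filter ℕ) (𝓝 ζs) := hconv
    have hζb : ζs ∈ ball (0 : ℂ) 1 := by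
      rw [mem_closedBall_zero_iff] at hζs
      rw [mem_ball_zero_iff]
      linarith
    have h1 := hlim.tendsto_comp (hϕ.continuousOn ζs hζb) hζb
      (tendsto_nhdsWithin_iff.mpr ⟨hconv', by
        filter_upwards [hζ2] with k hk
        rw [mem_ball_zero_iff]
        linarith [hk.1]⟩)
    have h2 : ϕ ζs = z⁻¹ := by
      refine tendsto_nhds_unique h1 ?_
      refine (tendsto_congr' ?_).mpr tendsto_const_nhds
      filter_upwards [hζ2] with k hk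
      exact hk.2
    exact ⟨ζs, hζb, by rw [h2, inv_mul_cancel₀ hzne]⟩
  -- injectivity
  have hinj : InjOn ϕ (ball 0 1) := by
    rcases hHINJ (u : Filter ℕ) ϕk ϕ (ball 0 1) u.neBot isOpen_ball
      (convex_ball (0 : ℂ) 1).isPreconnected hϕ hlim (by
        intro a ha b hb
        have hb' := mem_ball_zero_iff.mp hb
        have hsub : ball b (1 - ‖b‖) ⊆ ball 0 1 := by
          intro z hz
          rw [mem_ball, dist_eq_norm] at hz
          rw [mem_ball_zero_iff]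
          calc ‖z‖ = ‖(z - b) + b‖ := by ring_nf
            _ ≤ ‖z - b‖ + ‖b‖ := norm_add_le _ _
            _ < 1 := by linarith
        refine ⟨1 - ‖b‖, by linarith, ?_⟩
        filter_upwards [hAS] with k hk
        refine ⟨hk.hol.mono hsub, hk.inj.mono ?_⟩
        intro z hz
        rcases hz with h | h
        · rw [h]; exact ha
        · exact hsub h) with h | h
    · exact h
    · exfalso
      obtain ⟨ζ, hζ, hz⟩ := hesc ((2 * R : ℝ) : ℂ) (by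
        rw [Complex.norm_real, Real.norm_eq_abs, abs_of_pos (by linarith)])
      rw [h ζ hζ 0 (by simp), hz0, zero_mul] at hz
      exact zero_ne_one hz
  refine ⟨ϕ, hlim, hϕ, hinj, hz0, ?_, hesc, hlast⟩
  -- the conjugacy
  intro ζ hζ z hz
  have hϕζ : ϕ ζ ≠ 0 := by
    intro h0
    rw [h0, zero_mul] at hz
    exact zero_ne_one hz
  have hzi : z = (ϕ ζ)⁻¹ := eq_inv_of_mul_eq_one_right hz
  have h1 := hpt ζ hζ
  have h1i : Tendsto (fun k => (ϕk k ζ)⁻¹) (u : Filter ℕ) (𝓝 z) := by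
    rw [hzi]
    exact h1.inv₀ hϕζ
  have h1n : ∀ᶠ k in (u : Filter ℕ), ϕk k ζ ≠ 0 := h1.eventually_ne hϕζ
  have h2 := hpt (A ζ) (hAb ζ hζ)
  have hpol : ∀ (Pk : ℕ → ℂ[X]) (P : ℂ[X]), PConv (u : Filter ℕ) n Pk P →
      Tendsto (fun k => (Pk k).eval (ϕk k ζ)⁻¹) (u : Filter ℕ) (𝓝 (P.eval z)) := by
    intro Pk P hP
    have h3 := hPCE (u : Filter ℕ) n Pk P hP
    exact h3.tendsto_comp (f := fun z => P.eval z) (P.continuous.continuousWithinAt) (mem_univ z)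
      (by rw [nhdsWithin_univ]; exact h1i)
  have h4 := (hpol Nk N hN).mul h2
  have h5 := hpol Dk D hD
  refine tendsto_nhds_unique h4 ((tendsto_congr' ?_).mpr h5)
  filter_upwards [hAS, h1n] with k hk hkn
  exact hk.conj ζ hζ _ (mul_inv_cancel₀ hkn)

end Pool.Agent.MAT
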