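import Pool.Agent.MAT.T

set_option autoImplicit false

open Polynomial Metric Set Filter Topology

noncomputable section

namespace Pool.Agent.MAT

namespace LAM_

/-- pointwise convergence of the evaluations -/
theorem ev (hPCE : T_PCE) {l : Filter ℕ} {d : ℕ} {Pk : ℕ → ℂ[X]} {P : ℂ[X]}
    (h : PConv l d Pk P) (z : ℂ) : Tendsto (fun k => (Pk k).eval z) l (𝓝 (P.eval z)) :=
  (hPCE l d Pk P h).tendsto_at (mem_univ z)

theorem A_lt {n : ℕ} {A : ℂ → ℂ} (hBLA : T_BLA) (hn : 2 ≤ n) (hA : IsBlaschke n A) {ζ : ℂ}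
    (hζ : ζ ∈ ball (0 : ℂ) 1) : A ζ ∈ ball (0 : ℂ) 1 := by
  obtain ⟨h0, -, -, h1, -⟩ := hBLA n A hn hA
  rw [mem_ball_zero_iff] at hζ ⊢
  by_cases h : ζ = 0
  · subst h
    rw [h0]; simp
  · exact (h1 ζ (by simpa using hζ) h).trans hζ

/-- compactness along an ultrafilter -/
theorem lim_ultra {u : Ultrafilter ℕ} {ζk : ℕ → ℂ} {r : ℝ}
    (h : ∀ᶠ k in (u : Filter ℕ), ‖ζk k‖ ≤ r) :
    ∃ ζ : ℂ, ‖ζ‖ ≤ r ∧ Tendsto ζk (u : Filter ℕ) (𝓝 ζ) := by
  have hc : IsCompact (closedBall (0 : ℂ) r) := isCompact_closedBall 0 r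
  have hm : ((u.map ζk : Ultrafilter ℂ) : Filter ℂ) ≤ 𝓟 (closedBall (0 : ℂ) r) := by
    rw [le_principal_iff, Ultrafilter.coe_map, mem_map]
    filter_upwards [h] with k hk
    simpa using hk
  obtain ⟨ζ, hζ, hl⟩ := hc.ultrafilter_le_nhds (u.map ζk) hm
  refine ⟨ζ, by simpa using hζ, ?_⟩
  rw [Ultrafilter.coe_map] at hl
  exact hl

/-- the key step: points `ζ_k` of a compact part of the disk -/
theorem mem_out {u : Ultrafilter ℕ} {ϕk : ℕ → ℂ → ℂ} {ϕ : ℂ → ℂ} {ζk : ℕ → ℂ} {r : ℝ} {z : ℂ}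
    (hr : r < 1) (hloc : TendstoLocallyUniformlyOn ϕk ϕ (u : Filter ℕ) (ball 0 1))
    (hd : DifferentiableOn ℂ ϕ (ball 0 1))
    (h : ∀ᶠ k in (u : Filter ℕ), ‖ζk k‖ ≤ r) (he : ∀ᶠ k in (u : Filter ℕ), ϕk k (ζk k) * z = 1) :
    z ∈ Out ϕ := by
  obtain ⟨ζ, hζ, hl⟩ := lim_ultra h
  have hζ1 : ζ ∈ ball (0 : ℂ) 1 := by
    rw [mem_ball_zero_iff]; exact lt_of_le_of_lt hζ hr
  refine ⟨ζ, hζ1, ?_⟩
  have hl' : Tendsto ζk (u : Filter ℕ) (𝓝[ball 0 1] ζ) := by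
    rw [tendsto_nhdsWithin_iff]
    refine ⟨hl, ?_⟩
    filter_upwards [h] with k hk
    rw [mem_ball_zero_iff]; exact lt_of_le_of_lt hk hr
  have h1 : Tendsto (fun k => ϕk k (ζk k)) (u : Filter ℕ) (𝓝 (ϕ ζ)) :=
    hloc.tendsto_comp (hd.continuousOn ζ hζ1) hζ1 hl'
  have h2 : Tendsto (fun k => ϕk k (ζk k) * z) (u : Filter ℕ) (𝓝 (ϕ ζ * z)) := h1.mul_const z
  have h3 : Tendsto (fun k => ϕk k (ζk k) * z) (u : Filter ℕ) (𝓝 1) :=
    (tendsto_const_nhds (x := (1 : ℂ))).congr' (by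
      filter_upwards [he] with k hk
      exact hk.symm)
  exact tendsto_nhds_unique h2 h3

end LAM_

open LAM_ in
theorem p_LAM (hLAL : T_LAL) (hBLA : T_BLA) (hHUR : T_HUR) (hPCE : T_PCE) : T_LAM := by
  intro n A u Nk Dk N D R ϕk yk y hn hA hND hside hN hD hy hyl hy0
  obtain ⟨ϕ, hloc, hhol, hinj, h0, hconj, hesc, hlast⟩ :=
    hLAL n A u Nk Dk N D R ϕk yk y hn hA hside hN hD hy hyl hy0
  obtain ⟨-, -, -, -, -, -, -, hprop, -⟩ := hBLA n A hn hA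
  obtain ⟨k₀, hk₀⟩ := hside.exists
  have hR1 : 1 ≤ R := hk₀.hR
  have hR0 : 0 < R := by linarith
  have evN := fun z => ev hPCE hN z
  have evD := fun z => ev hPCE hD z
  refine ⟨ϕ, hloc, ⟨by linarith, hhol, hinj, h0, hconj, hesc, ?_⟩⟩
  intro z hz
  have hDz : D.eval z ≠ 0 := by
    intro hDz
    apply hz
    have hNz : N.eval z ≠ 0 := by
      intro hNz
      obtain ⟨a, b, hab⟩ := hND.cop
      have := congrArg (Polynomial.eval z) hab
      simp [hNz, hDz] at this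
    have hNk0 : ∀ᶠ k in (u : Filter ℕ), (Nk k).eval z ≠ 0 := (evN z).eventually_ne hNz
    have htk : Tendsto (fun k => (Dk k).eval z / (Nk k).eval z) (u : Filter ℕ) (𝓝 0) := by
      have := (evD z).div (evN z) hNz
      rwa [hDz, zero_div] at this
    have hnorm : Tendsto (fun k => ‖(Dk k).eval z / (Nk k).eval z‖) (u : Filter ℕ) (𝓝 0) := by
      simpa using htk.norm
    have hsm : ∀ᶠ k in (u : Filter ℕ), ‖(Dk k).eval z / (Nk k).eval z‖ < 1 / (2 * R) :=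
      hnorm.eventually_lt_const (by positivity)
    have hlt : 1 / (2 * R) < 1 / R := by
      apply one_div_lt_one_div_of_lt hR0; linarith
    -- `z` is in `Out_k`
    have hzk : ∀ᶠ k in (u : Filter ℕ), z ∈ Out (ϕk k) := by
      filter_upwards [hside, hNk0, hsm] with k hk hNk hs
      by_contra hnot
      obtain ⟨hb1, hb2⟩ := hk.back z hnot
      apply hb2
      apply hk.esc
      unfold rf
      have h1 : ‖(Nk k).eval z / (Dk k).eval z‖ = 1 / ‖(Dk k).eval z / (Nk k).eval z‖ := by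
        rw [norm_div, norm_div]
        rw [one_div_div]
      rw [h1, le_div_iff₀ (by rw [norm_pos_iff]; exact div_ne_zero hb1 hNk)]
      have : R * ‖(Dk k).eval z / (Nk k).eval z‖ ≤ R * (1 / (2 * R)) := by gcongr
      refine this.trans ?_
      rw [mul_one_div, div_le_one (by positivity)]; linarith
    obtain ⟨r', hr', hpr⟩ := hprop (1 / 2) (by norm_num)
    -- choose `ζ_k`
    have hch : ∀ᶠ k in (u : Filter ℕ), ∃ ζ : ℂ, ‖ζ‖ ≤ r' ∧ ϕk k ζ * z = 1 := by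
      filter_upwards [hside, hNk0, hsm, hzk, hlast] with k hk hNk hs hzk hla
      obtain ⟨ζ, hζ, hζz⟩ := hzk
      refine ⟨ζ, ?_, hζz⟩
      have hc := hk.conj ζ hζ z hζz
      have hc' : ϕk k (A ζ) = (Dk k).eval z / (Nk k).eval z := by
        rw [eq_div_iff hNk, mul_comm]; exact hc
      obtain ⟨ζ', hζ', hζ'2⟩ := hla _ (hs.trans hlt)
      have hb : ‖ζ'‖ ≤ 1 / 2 := by
        refine hζ'.trans ?_
        have : R * ‖(Dk k).eval z / (Nk k).eval z‖ ≤ R * (1 / (2 * R)) := by gcongr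
        refine this.trans (le_of_eq ?_)
        field_simp
      have hζ'1 : ζ' ∈ ball (0 : ℂ) 1 := by
        rw [mem_ball_zero_iff]; linarith
      have hAz := A_lt hBLA hn hA hζ
      have : A ζ = ζ' := hk.inj hAz hζ'1 (by rw [hc', hζ'2])
      exact hpr ζ hζ (by rw [this]; exact hb)
    choose! ζk hζk using fun k (hk : ∃ ζ : ℂ, ‖ζ‖ ≤ r' ∧ ϕk k ζ * z = 1) => hk
    exact mem_out hr' hloc hhol (hch.mono fun k hk => (hζk k hk).1)
      (hch.mono fun k hk => (hζk k hk).2)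
  refine ⟨hDz, ?_⟩
  rintro ⟨ζ₀, hζ₀, hw⟩
  apply hz
  have hw0 : rf N D z ≠ 0 := by
    intro h; rw [h, mul_zero] at hw; exact zero_ne_one hw
  have hDk0 : ∀ᶠ k in (u : Filter ℕ), (Dk k).eval z ≠ 0 := (evD z).eventually_ne hDz
  have hwk : Tendsto (fun k => rf (Nk k) (Dk k) z) (u : Filter ℕ) (𝓝 (rf N D z)) :=
    (evN z).div (evD z) hDz
  have hwk0 : ∀ᶠ k in (u : Filter ℕ), rf (Nk k) (Dk k) z ≠ 0 := hwk.eventually_ne hw0
  have hwi : Tendsto (fun k => (rf (Nk k) (Dk k) z)⁻¹) (u : Filter ℕ) (𝓝 (rf N D z)⁻¹) :=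
    hwk.inv₀ hw0
  have hζ₀' : ‖ζ₀‖ < 1 := by simpa using hζ₀
  set r : ℝ := (1 - ‖ζ₀‖) / 2 with hrdef
  have hr0 : 0 < r := by rw [hrdef]; linarith
  have hsub : ball ζ₀ r ⊆ ball (0 : ℂ) 1 := by
    apply ball_subset_ball'
    rw [dist_zero_right]; rw [hrdef]; linarith
  have hfl : TendstoLocallyUniformlyOn (fun k ζ => ϕk k ζ - (rf (Nk k) (Dk k) z)⁻¹)
      (fun ζ => ϕ ζ - (rf N D z)⁻¹) (u : Filter ℕ) (ball ζ₀ r) := by
    have h1 : TendstoLocallyUniformlyOn ϕk ϕ (u : Filter ℕ) (ball ζ₀ r) := hloc.mono hsub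
    have h2 : TendstoLocallyUniformlyOn (fun k (_ : ℂ) => (rf (Nk k) (Dk k) z)⁻¹)
        (fun _ => (rf N D z)⁻¹) (u : Filter ℕ) (ball ζ₀ r) := by
      apply TendstoUniformlyOn.tendstoLocallyUniformlyOn
      rw [Metric.tendstoUniformlyOn_iff]
      intro ε hε
      filter_upwards [(Metric.tendsto_nhds.1 hwi) ε hε] with k hk x hx
      rw [dist_comm]; exact hk
    exact h1.sub h2
  have hH := hHUR (u : Filter ℕ) (fun k ζ => ϕk k ζ - (rf (Nk k) (Dk k) z)⁻¹)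
    (fun ζ => ϕ ζ - (rf N D z)⁻¹) ζ₀ r hr0 ((hhol.mono hsub).sub_const _)
    (by
      filter_upwards [hside] with k hk
      exact (hk.hol.mono hsub).sub_const _) hfl
    (by
      have : ϕ ζ₀ = (rf N D z)⁻¹ := eq_inv_of_mul_eq_one_left hw
      rw [this, sub_self])
    (by
      intro hev
      -- `ϕ` would be locally constant
      have h1 : ∀ᶠ ζ in 𝓝 ζ₀, ζ ∈ ball (0 : ℂ) 1 := isOpen_ball.mem_nhds hζ₀
      obtain ⟨ε, hε, hball⟩ := Metric.eventually_nhds_iff_ball.1 (hev.and h1)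
      have hp : ζ₀ + ((ε / 2 : ℝ) : ℂ) ∈ ball ζ₀ ε := by
        rw [mem_ball, dist_eq_norm, add_sub_cancel_left, Complex.norm_real, Real.norm_eq_abs,
          abs_of_pos (by positivity)]
        linarith
      have hA1 := hball _ hp
      have hA2 := hball _ (mem_ball_self hε)
      have := hinj hA1.2 hA2.2 ((sub_eq_zero.1 hA1.1).trans (sub_eq_zero.1 hA2.1).symm)
      have h3 : ((ε / 2 : ℝ) : ℂ) = 0 := by simpa using this
      have h4 : (ε / 2 : ℝ) = 0 := by exact_mod_cast h3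
      linarith)
    r hr0
  set r1 : ℝ := ‖ζ₀‖ + r with hr1
  have hr1' : r1 < 1 := by rw [hr1, hrdef]; linarith
  obtain ⟨r', hr', hpr⟩ := hprop r1 hr1'
  have hch : ∀ᶠ k in (u : Filter ℕ), ∃ ζ : ℂ, ‖ζ‖ ≤ r' ∧ ϕk k ζ * z = 1 := by
    filter_upwards [hside, hDk0, hwk0, hH] with k hk hDk hwk0 hex
    obtain ⟨ζ', hζ', hz'⟩ := hex
    have hζ'b : ζ' ∈ ball (0 : ℂ) 1 := hsub hζ'
    have hζ'n : ‖ζ'‖ ≤ r1 := by
      have : dist ζ' ζ₀ < r := hζ'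
      rw [dist_eq_norm] at this
      calc ‖ζ'‖ = ‖(ζ' - ζ₀) + ζ₀‖ := by ring_nf
        _ ≤ ‖ζ' - ζ₀‖ + ‖ζ₀‖ := norm_add_le _ _
        _ ≤ r1 := by rw [hr1]; linarith
    have hϕ' : ϕk k ζ' = (rf (Nk k) (Dk k) z)⁻¹ := sub_eq_zero.1 hz'
    have hmul : ϕk k ζ' * rf (Nk k) (Dk k) z = 1 := by
      rw [hϕ', inv_mul_cancel₀ hwk0]
    have hzin : z ∈ Out (ϕk k) := by
      by_contra hnot
      exact (hk.back z hnot).2 ⟨ζ', hζ'b, hmul⟩
    obtain ⟨ζ, hζ, hζz⟩ := hzin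
    refine ⟨ζ, ?_, hζz⟩
    have hc := hk.conj ζ hζ z hζz
    have hc' : ϕk k (A ζ) * rf (Nk k) (Dk k) z = 1 := by
      unfold rf
      rw [mul_div_assoc', div_eq_one_iff_eq hDk, mul_comm]; exact hc
    have hAz := A_lt hBLA hn hA hζ
    have hEq : A ζ = ζ' := hk.inj hAz hζ'b (mul_right_cancel₀ hwk0 (hc'.trans hmul.symm))
    exact hpr ζ hζ (by rw [hEq]; exact hζ'n)
  choose! ζk hζk using fun k (hk : ∃ ζ : ℂ, ‖ζ‖ ≤ r' ∧ ϕk k ζ * z = 1) => hk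
  exact mem_out hr' hloc hhol (hch.mono fun k hk => (hζk k hk).1)
    (hch.mono fun k hk => (hζk k hk).2)

end Pool.Agent.MAT
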