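import Pool.Agent.MAT.T

/-!
# MAT, LDI: both critical orbits have the same direction
-/

set_option autoImplicit false

open Polynomial Metric Set Filter Topology

noncomputable section

namespace Pool.Agent.MAT

namespace LDI_

/-- The recursion `s' = s + O (s ^ 3)`. -/
lemma rec_bound {s : ℕ → ℂ} {K : ℝ} (hK : 0 < K) (M : ℕ) (hne : ∀ m, s m ≠ 0)
    (h : ∀ m, M ≤ m → K * ‖s m‖ ^ 2 ≤ 1 / 4 ∧ ‖s (m + 1) - s m‖ ≤ K * ‖s m‖ ^ 3) (m : ℕ) :
    1 / ‖s (M + m)‖ ^ 2 ≤ 1 / ‖s M‖ ^ 2 + 4 * K * m := by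
  induction m with
  | zero => simp
  | succ m ih =>
    obtain ⟨h1, h2⟩ := h (M + m) (by omega)
    have ha0 : 0 < ‖s (M + m)‖ := norm_pos_iff.2 (hne _)
    have hb0 : 0 < ‖s (M + m + 1)‖ := norm_pos_iff.2 (hne _)
    have h3 : ‖s (M + m)‖ - ‖s (M + m + 1)‖ ≤ ‖s (M + m + 1) - s (M + m)‖ := by
      rw [norm_sub_rev]; exact norm_sub_norm_le _ _
    generalize ‖s (M + m)‖ = a at *
    rw [show M + (m + 1) = M + m + 1 from rfl]
    generalize ‖s (M + m + 1)‖ = b at *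
    have h4 : a * (1 - K * a ^ 2) ≤ b := by nlinarith
    have h5 : 0 ≤ a * (1 - K * a ^ 2) := by
      apply mul_nonneg ha0.le; linarith
    have h6 : (a * (1 - K * a ^ 2)) ^ 2 ≤ b ^ 2 := pow_le_pow_left₀ h5 h4 2
    have ht0 : 0 ≤ K * a ^ 2 := by positivity
    have h7 : 1 ≤ (1 + 4 * (K * a ^ 2)) * (1 - K * a ^ 2) ^ 2 := by
      generalize K * a ^ 2 = t at *
      nlinarith [mul_nonneg ht0 (by nlinarith : (0 : ℝ) ≤ 2 - 7 * t + 4 * t ^ 2)]
    have h8 : 1 / b ^ 2 ≤ 1 / a ^ 2 + 4 * K := by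
      rw [div_add' _ _ _ (by positivity), div_le_div_iff₀ (by positivity) (by positivity)]
      calc 1 * a ^ 2 ≤ ((1 + 4 * (K * a ^ 2)) * (1 - K * a ^ 2) ^ 2) * a ^ 2 :=
            mul_le_mul_of_nonneg_right h7 (by positivity)
        _ = (1 + 4 * (K * a ^ 2)) * (a * (1 - K * a ^ 2)) ^ 2 := by ring
        _ ≤ (1 + 4 * (K * a ^ 2)) * b ^ 2 := mul_le_mul_of_nonneg_left h6 (by positivity)
        _ = (1 + 4 * K * a ^ 2) * b ^ 2 := by ring
    push_cast
    linarith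

/-- Both directions agree if the distance is small compared with the distance to the limit. -/
lemma dir_eq {s t : ℕ → ℂ} {ε₁ ε₂ : ℂ} (hne : ∀ m, s m ≠ 0)
    (h1 : Tendsto (fun m => s m / (‖s m‖ : ℂ)) atTop (𝓝 ε₁))
    (h2 : Tendsto (fun m => t m / (‖t m‖ : ℂ)) atTop (𝓝 ε₂))
    (h3 : Tendsto (fun m => (t m - s m) / (‖s m‖ : ℂ)) atTop (𝓝 0)) : ε₁ = ε₂ := by
  have e1 : ‖ε₁‖ = 1 := by
    have h := h1.norm
    have h' : (fun m => ‖s m / (‖s m‖ : ℂ)‖) = fun _ => (1 : ℝ) := by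
      funext m
      rw [norm_div, Complex.norm_real, norm_norm, div_self (norm_ne_zero_iff.2 (hne m))]
    rw [h'] at h
    exact tendsto_nhds_unique h tendsto_const_nhds
  have h4 : Tendsto (fun m => t m / (‖s m‖ : ℂ)) atTop (𝓝 ε₁) := by
    have h := h1.add h3
    rw [add_zero] at h
    refine h.congr fun m => ?_
    rw [← add_div]; congr 1; ring
  have h5 : Tendsto (fun m => ((‖t m / (‖s m‖ : ℂ)‖ : ℝ) : ℂ)) atTop (𝓝 ((‖ε₁‖ : ℝ) : ℂ)) :=
    (Complex.continuous_ofReal.tendsto _).comp h4.norm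
  rw [e1] at h5
  have h6 := h4.div h5 (by norm_num)
  rw [Complex.ofReal_one, div_one] at h6
  refine tendsto_nhds_unique h6 (h2.congr fun m => ?_)
  have hs : (‖s m‖ : ℂ) ≠ 0 := by
    rw [Ne, Complex.ofReal_eq_zero]; exact norm_ne_zero_iff.2 (hne m)
  simp only [Pi.div_apply]
  rw [norm_div, Complex.norm_real, norm_norm, Complex.ofReal_div]
  by_cases ht : t m = 0
  · simp [ht]
  · have ht' : (‖t m‖ : ℂ) ≠ 0 := by
      rw [Ne, Complex.ofReal_eq_zero]; exact norm_ne_zero_iff.2 ht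
    field_simp

/-- Derivative bound at a real point. -/
lemma deriv_bound {χ : ℂ → ℂ} {R : ℝ} (hχ : DifferentiableOn ℂ χ (ball 0 1))
    (hR : ∀ v ∈ ball (0 : ℂ) 1, ‖χ v‖ ≤ R) {x : ℝ} (h0 : 0 < x) (h1 : x < 1) :
    ‖deriv χ x‖ ≤ 2 * R / (1 - x) := by
  have hr : 0 < (1 - x) / 2 := by linarith
  have hsub : closedBall (x : ℂ) ((1 - x) / 2) ⊆ ball 0 1 := by
    intro z hz
    rw [mem_closedBall, dist_eq_norm] at hz
    rw [mem_ball_zero_iff]
    calc ‖z‖ = ‖(z - x) + x‖ := by rw [sub_add_cancel]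
      _ ≤ ‖z - x‖ + ‖(x : ℂ)‖ := norm_add_le _ _
      _ ≤ (1 - x) / 2 + x := by
          rw [Complex.norm_real, Real.norm_of_nonneg h0.le]; linarith
      _ < 1 := by linarith
  have h := Complex.norm_deriv_le_of_forall_mem_sphere_norm_le (f := χ) (c := (x : ℂ)) (C := R) hr
    ?_ ?_
  · refine h.trans (le_of_eq ?_)
    rw [div_div_eq_mul_div]; ring
  · refine DifferentiableOn.diffContOnCl ?_
    rw [closure_ball _ hr.ne']
    exact hχ.mono hsub
  · intro z hz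
    exact hR z (hsub (sphere_subset_closedBall hz))

/-- The distance between the images of two real points. -/
lemma dist_bound {χ : ℂ → ℂ} {R : ℝ} (hχ : DifferentiableOn ℂ χ (ball 0 1)) (hR0 : 0 ≤ R)
    (hR : ∀ v ∈ ball (0 : ℂ) 1, ‖χ v‖ ≤ R) {x y b : ℝ} (hx : 0 < x) (hy : 0 < y)
    (hxb : x ≤ b) (hyb : y ≤ b) (hb : b < 1) :
    ‖χ x - χ y‖ ≤ 2 * R / (1 - b) * |x - y| := by
  have hd : ∀ z ∈ Icc (min x y) b, HasDerivWithinAt (fun t : ℝ => χ t) (deriv χ z)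
      (Icc (min x y) b) z := by
    intro z hz
    have hz0 : 0 < z := lt_of_lt_of_le (lt_min hx hy) hz.1
    have hz1 : z < 1 := hz.2.trans_lt hb
    have hmem : (z : ℂ) ∈ ball (0 : ℂ) 1 := by
      rw [mem_ball_zero_iff, Complex.norm_real, Real.norm_of_nonneg hz0.le]; exact hz1
    have hdz : HasDerivAt χ (deriv χ z) (z : ℂ) :=
      (hχ.differentiableAt (isOpen_ball.mem_nhds hmem)).hasDerivAt
    exact hdz.comp_ofReal.hasDerivWithinAt
  have hbd : ∀ z ∈ Icc (min x y) b, ‖deriv χ (z : ℂ)‖ ≤ 2 * R / (1 - b) := by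
    intro z hz
    have hz0 : 0 < z := lt_of_lt_of_le (lt_min hx hy) hz.1
    have hz1 : z < 1 := hz.2.trans_lt hb
    refine (deriv_bound hχ hR hz0 hz1).trans ?_
    apply div_le_div_of_nonneg_left (by linarith) (by linarith)
    linarith [hz.2]
  have h := (convex_Icc (min x y) b).norm_image_sub_le_of_norm_hasDerivWithin_le
    (f := fun t : ℝ => χ t) hd hbd (x := y) (y := x) ⟨min_le_right _ _, hyb⟩
    ⟨min_le_left _ _, hxb⟩
  simpa [Real.norm_eq_abs] using h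

end LDI_

open LDI_ in
theorem p_LDI (hGRA : T_GRA) (hLAB : T_LAB) (hGBA : T_GBA) : T_LDI := by
  intro n ν e A N D P R ϕ χ q p ε₁ ε₂ hn he he2 hA hPre hν hfac hP hD hne hlim h1 h2
  obtain ⟨-, -, hball, hUiff, -, -, -, -, -, -, -, h0U, heU⟩ := hGBA n e hn he he2
  obtain ⟨-, -, hOb, -⟩ := hLAB n A N D R ϕ (by omega) hA hPre.deg hPre.aside
  obtain ⟨C, hC, hrate⟩ := hGRA n e hn he he2
  have hbnd : ∀ v ∈ UG n e, ‖χ v‖ ≤ R := fun v hv => (hOb _ (hPre.cross v hv)).le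
  have hR0 : 0 ≤ R := (norm_nonneg _).trans (hbnd 0 h0U)
  have hχ : DifferentiableOn ℂ χ (ball 0 1) := hPre.hol.mono hball
  have hχb : ∀ v ∈ ball (0 : ℂ) 1, ‖χ v‖ ≤ R := fun v hv => hbnd v (hball hv)
  have hU : ∀ m : ℕ, (GG n e)^[m] 0 ∈ UG n e := by
    intro m
    induction m with
    | zero => exact h0U
    | succ m ih => rw [Function.iterate_succ_apply']; exact (hUiff _).2 ih
  set s : ℕ → ℂ := fun m => χ ((GG n e)^[m] 0) - p with hs
  set t : ℕ → ℂ := fun m => χ ((GG n e)^[m] (-(e : ℂ))) - p with ht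
  have hsne : ∀ m, s m ≠ 0 := fun m => sub_ne_zero.2 (hne m)
  have hs0 : Tendsto s atTop (𝓝 0) := by
    have := hlim.sub_const p
    rwa [sub_self] at this
  -- the recursion
  have hrec : ∀ m, s (m + 1) - s m =
      s m ^ (ν + 1) * (P.eval (χ ((GG n e)^[m] 0)) / D.eval (χ ((GG n e)^[m] 0))) := by
    intro m
    set z := χ ((GG n e)^[m] 0) with hz
    have hDz : D.eval z ≠ 0 := (hPre.aside.back z (hPre.cross _ (hU m))).1
    have hc := hPre.conj _ (hU m)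
    have hf := congrArg (Polynomial.eval z) hfac
    rw [eval_sub, eval_mul, eval_X, eval_mul, eval_pow, eval_sub, eval_X, eval_C] at hf
    have e1 : s (m + 1) = χ (GG n e ((GG n e)^[m] 0)) - p := by
      simp only [hs]; rw [Function.iterate_succ_apply']
    have e2 : s m = z - p := rfl
    rw [e1, e2, ← mul_div_assoc, ← hf, eq_div_iff hDz]
    rw [← hz] at hc
    linear_combination -hc
  -- constants
  obtain ⟨K, hK, hev⟩ : ∃ K : ℝ, 0 < K ∧ ∀ᶠ m in atTop,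
      ‖P.eval (χ ((GG n e)^[m] 0)) / D.eval (χ ((GG n e)^[m] 0))‖ ≤ K := by
    have hcont : Tendsto (fun m => P.eval (χ ((GG n e)^[m] 0)) / D.eval (χ ((GG n e)^[m] 0)))
        atTop (𝓝 (P.eval p / D.eval p)) :=
      ((P.continuous.tendsto p).comp hlim).div ((D.continuous.tendsto p).comp hlim) hD
    refine ⟨‖P.eval p / D.eval p‖ + 1, by positivity, ?_⟩
    filter_upwards [hcont.norm.eventually (gt_mem_nhds (lt_add_one _))] with m hm using hm.le
  have hsn : Tendsto (fun m => ‖s m‖) atTop (𝓝 0) := by simpa using hs0.norm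
  have hev2 : ∀ᶠ m in atTop, K * ‖s m‖ ^ 2 ≤ 1 / 4 := by
    have h : Tendsto (fun m => K * ‖s m‖ ^ 2) atTop (𝓝 (K * 0 ^ 2)) :=
      (hsn.pow 2).const_mul K
    rw [show K * (0 : ℝ) ^ 2 = 0 by ring] at h
    exact (h.eventually (gt_mem_nhds (by norm_num : (0 : ℝ) < 1 / 4))).mono fun m hm => hm.le
  have hev3 : ∀ᶠ m in atTop, ‖s m‖ ≤ 1 :=
    (hsn.eventually (gt_mem_nhds one_pos)).mono fun m hm => hm.le
  obtain ⟨M, hM⟩ := eventually_atTop.1 ((hev.and hev2).and hev3)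
  have hR1 : ∀ m, M ≤ m → K * ‖s m‖ ^ 2 ≤ 1 / 4 ∧ ‖s (m + 1) - s m‖ ≤ K * ‖s m‖ ^ 3 := by
    intro m hm
    obtain ⟨⟨k1, k2⟩, k3⟩ := hM m hm
    refine ⟨k2, ?_⟩
    rw [hrec m, norm_mul, norm_pow]
    have k4 : ‖s m‖ ^ (ν + 1) ≤ ‖s m‖ ^ 3 :=
      pow_le_pow_of_le_one (norm_nonneg _) k3 (by omega)
    calc ‖s m‖ ^ (ν + 1) * ‖P.eval (χ ((GG n e)^[m] 0)) / D.eval (χ ((GG n e)^[m] 0))‖
        ≤ ‖s m‖ ^ 3 * K := mul_le_mul k4 k1 (norm_nonneg _) (by positivity)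
      _ = K * ‖s m‖ ^ 3 := mul_comm _ _
  have hinv := rec_bound hK M hsne hR1
  -- the bound `1 / ‖s m‖ ^ 2 ≤ C' * m`
  obtain ⟨C', hC', hlow⟩ : ∃ C' : ℝ, 0 < C' ∧ ∀ m, M + 1 ≤ m → 1 / ‖s m‖ ^ 2 ≤ C' * m := by
    refine ⟨1 / ‖s M‖ ^ 2 + 4 * K, by positivity, fun m hm => ?_⟩
    obtain ⟨j, rfl⟩ := Nat.exists_eq_add_of_le (show M ≤ m by omega)
    refine (hinv j).trans ?_
    have hj : (j : ℝ) ≤ ((M + j : ℕ) : ℝ) := by push_cast; linarith [(Nat.cast_nonneg M : (0:ℝ) ≤ M)]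
    have hj1 : (1 : ℝ) ≤ ((M + j : ℕ) : ℝ) := by exact_mod_cast (by omega : 1 ≤ M + j)
    have hq : 0 ≤ 1 / ‖s M‖ ^ 2 := by positivity
    nlinarith [mul_le_mul_of_nonneg_left hj1 hq, mul_le_mul_of_nonneg_left hj hK.le]
  -- the distance of the two orbits
  have hdist : ∀ m, 1 ≤ m → ‖t m - s m‖ ≤ 2 * R * C ^ 2 / m := by
    intro m hm
    obtain ⟨x, y, hx, hy, x0, x1, y0, y1, hxm, hym, hxy⟩ := hrate m hm
    have hm0 : (0 : ℝ) < m := by exact_mod_cast hm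
    have e1 : t m - s m = χ y - χ x := by
      simp only [hs, ht]; rw [hx, hy]; ring
    rw [e1]
    have hb1 : max x y < 1 := max_lt x1 y1
    have h := dist_bound hχ hR0 hχb y0 x0 (le_max_right x y) (le_max_left x y) hb1
    refine h.trans ?_
    have a1 : 0 < 1 - x := by linarith
    have a2 : 0 < 1 - y := by linarith
    have e2 : |y - x| = |1 / (1 - x) - 1 / (1 - y)| * ((1 - x) * (1 - y)) := by
      rw [← abs_of_pos (mul_pos a1 a2), ← abs_mul]
      rw [abs_sub_comm]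
      congr 1
      have a1' := a1.ne'
      have a2' := a2.ne'
      field_simp
      ring
    have e3 : (1 - x) * (1 - y) = (1 - max x y) * (1 - min x y) := by
      rcases le_total x y with hle | hle
      · rw [max_eq_right hle, min_eq_left hle]; ring
      · rw [max_eq_left hle, min_eq_right hle]
    have a3 : 0 < 1 - max x y := by linarith
    have a4 : 1 - min x y ≤ C / m := by
      rw [le_div_iff₀ hm0]
      rw [le_div_iff₀ a1] at hxm
      rw [le_div_iff₀ a2] at hym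
      rcases min_choice x y with hc | hc <;> rw [hc] <;> linarith
    rw [e2, e3]
    have a5 : 0 ≤ 1 - min x y := by linarith [min_le_left x y]
    calc 2 * R / (1 - max x y) * (|1 / (1 - x) - 1 / (1 - y)| *
          ((1 - max x y) * (1 - min x y)))
        = 2 * R * |1 / (1 - x) - 1 / (1 - y)| * (1 - min x y) := by field_simp
      _ ≤ 2 * R * C * (C / m) := by
          apply mul_le_mul _ a4 a5 (by positivity)
          exact mul_le_mul_of_nonneg_left hxy (by positivity)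
      _ = 2 * R * C ^ 2 / m := by ring
  -- conclusion
  refine dir_eq hsne h1 h2 ?_
  rw [tendsto_zero_iff_norm_tendsto_zero]
  have hsq : Tendsto (fun m : ℕ => Real.sqrt ((2 * R * C ^ 2) ^ 2 * C' / m)) atTop (𝓝 0) := by
    have h : Tendsto (fun m : ℕ => (2 * R * C ^ 2) ^ 2 * C' / (m : ℝ)) atTop (𝓝 0) :=
      tendsto_const_div_atTop_nhds_zero_nat _
    have h' := (Real.continuous_sqrt.tendsto 0).comp h
    rwa [Real.sqrt_zero] at h'
  refine squeeze_zero' (Eventually.of_forall fun m => norm_nonneg _) ?_ hsq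
  filter_upwards [eventually_ge_atTop (M + 1)] with m hm
  apply Real.le_sqrt_of_sq_le
  have hm0 : (0 : ℝ) < m := by exact_mod_cast (by omega : 0 < m)
  have hsp : 0 < ‖s m‖ := norm_pos_iff.2 (hsne m)
  rw [norm_div, Complex.norm_real, norm_norm, div_pow]
  have b1 := hdist m (by omega)
  have b2 := hlow m hm
  have b3 : ‖t m - s m‖ ^ 2 ≤ (2 * R * C ^ 2 / m) ^ 2 := pow_le_pow_left₀ (norm_nonneg _) b1 2
  calc ‖t m - s m‖ ^ 2 / ‖s m‖ ^ 2 = ‖t m - s m‖ ^ 2 * (1 / ‖s m‖ ^ 2) := by ring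
    _ ≤ (2 * R * C ^ 2 / m) ^ 2 * (C' * m) := mul_le_mul b3 b2 (by positivity) (by positivity)
    _ = (2 * R * C ^ 2) ^ 2 * C' / m := by field_simp

end Pool.Agent.MAT
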