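import Pool.Agent.MAT.T

/-!
# MAT: LGS (the complement of the filled Julia set of `G`)
-/

set_option autoImplicit false

open Polynomial Metric Set Filter Topology

noncomputable section

namespace Pool.Agent.MAT

namespace LGS_

theorem open_img (hI : T_INVH) {ϕ : ℂ → ℂ} (hd : DifferentiableOn ℂ ϕ (ball 0 1))
    (hi : InjOn ϕ (ball 0 1)) {V : Set ℂ} (hV : IsOpen V) (hs : V ⊆ ball 0 1) :
    IsOpen (ϕ '' V) := (hI V ϕ hV (hd.mono hs) (hi.mono hs)).1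

theorem near (hI : T_INVH) {ϕ : ℂ → ℂ} (hd : DifferentiableOn ℂ ϕ (ball 0 1))
    (hi : InjOn ϕ (ball 0 1)) (h0 : ϕ 0 = 0) (W : Set ℂ) (hW : IsOpen W)
    (hc : ∀ v : ℂ, v ∉ W → ∃ ζ ∈ ball (0 : ℂ) 1 \ {0}, 1 + 1 / ϕ ζ = v) :
    ∃ ρ : ℝ, 0 < ρ ∧ ρ < 1 ∧ ∀ ζ : ℂ, ρ < ‖ζ‖ → ‖ζ‖ < 1 → 1 + 1 / ϕ ζ ∈ W := by
  have ho := open_img hI hd hi (isOpen_ball : IsOpen (ball (0 : ℂ) (1 / 2)))
    (ball_subset_ball (by norm_num))
  have h0m : (0 : ℂ) ∈ ϕ '' ball 0 (1 / 2) := ⟨0, mem_ball_self (by norm_num), h0⟩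
  obtain ⟨s, hs, hsub⟩ := Metric.isOpen_iff.mp ho 0 h0m
  have hbound : ∀ ζ ∈ ball (0 : ℂ) 1, 1 / 2 ≤ ‖ζ‖ → ‖1 / ϕ ζ‖ ≤ 1 / s := by
    intro ζ hζ h12
    have h1 : s ≤ ‖ϕ ζ‖ := by
      by_contra hlt
      push Not at hlt
      have h2 : ϕ ζ ∈ ball (0 : ℂ) s := by rwa [mem_ball_zero_iff]
      obtain ⟨ζ', hζ', he⟩ := hsub h2
      have h3 := hi (ball_subset_ball (by norm_num) hζ') hζ he
      subst h3
      rw [mem_ball_zero_iff] at hζ'
      linarith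
    rw [norm_div, norm_one]
    exact one_div_le_one_div_of_le hs h1
  by_contra hno
  push Not at hno
  have hseq : ∀ j : ℕ, ∃ ζ : ℂ, 1 - 1 / ((j : ℝ) + 2) < ‖ζ‖ ∧ ‖ζ‖ < 1 ∧ 1 + 1 / ϕ ζ ∉ W := by
    intro j
    have hj : (0 : ℝ) ≤ j := Nat.cast_nonneg j
    have h1 : 1 / ((j : ℝ) + 2) < 1 := by
      rw [div_lt_one (by positivity)]
      linarith
    have h2 : 0 < 1 / ((j : ℝ) + 2) := by positivity
    exact hno _ (by linarith) (by linarith)
  choose ζ h1 h2 h3 using hseq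
  have hin : ∀ j, 1 / ϕ (ζ j) ∈ closedBall (0 : ℂ) (1 / s) := by
    intro j
    rw [mem_closedBall_zero_iff]
    apply hbound _ (by rw [mem_ball_zero_iff]; exact h2 j)
    have hj : (0 : ℝ) ≤ j := Nat.cast_nonneg j
    have h4 : 1 / ((j : ℝ) + 2) ≤ 1 / 2 := one_div_le_one_div_of_le (by norm_num) (by linarith)
    have := h1 j
    linarith
  obtain ⟨z, hz, k, hk, hlim⟩ := (isCompact_closedBall (0 : ℂ) (1 / s)).tendsto_subseq hin
  have hzW : 1 + z ∉ W := by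
    have hcl : IsClosed Wᶜ := hW.isClosed_compl
    exact hcl.mem_of_tendsto (tendsto_const_nhds.add hlim)
      (Eventually.of_forall fun j => h3 (k j))
  obtain ⟨ζ', ⟨hζ', h0'⟩, he⟩ := hc _ hzW
  rw [mem_singleton_iff] at h0'
  have he' : 1 / ϕ ζ' = z := add_left_cancel he
  have hne : ϕ ζ' ≠ 0 := by
    intro h
    exact h0' (hi hζ' (mem_ball_self one_pos) (h.trans h0.symm))
  have hzne : z ≠ 0 := by
    rw [← he']
    exact one_div_ne_zero hne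
  have hlim2 : Tendsto (fun j => ϕ (ζ (k j))) atTop (𝓝 (ϕ ζ')) := by
    have h4 := hlim.inv₀ hzne
    have h5 : z⁻¹ = ϕ ζ' := by rw [← he']; simp
    rw [h5] at h4
    refine h4.congr fun j => ?_
    simp
  rw [mem_ball_zero_iff] at hζ'
  have hδ : 0 < (1 - ‖ζ'‖) / 2 := by linarith
  have hsubδ : ball ζ' ((1 - ‖ζ'‖) / 2) ⊆ ball (0 : ℂ) 1 := by
    intro y hy
    rw [mem_ball_zero_iff]
    rw [mem_ball, dist_eq_norm] at hy
    have := norm_le_norm_add_norm_sub' y ζ'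
    linarith
  have hoδ := open_img hI hd hi (isOpen_ball : IsOpen (ball ζ' ((1 - ‖ζ'‖) / 2))) hsubδ
  have hev : ∀ᶠ j in atTop, ϕ (ζ (k j)) ∈ ϕ '' ball ζ' ((1 - ‖ζ'‖) / 2) :=
    hlim2 (hoδ.mem_nhds ⟨ζ', mem_ball_self hδ, rfl⟩)
  have hev2 : ∀ᶠ j : ℕ in atTop, 2 / (1 - ‖ζ'‖) ≤ (j : ℝ) :=
    tendsto_natCast_atTop_atTop.eventually_ge_atTop _
  obtain ⟨j, hj1, hj2⟩ := (hev.and hev2).exists
  obtain ⟨y, hy, hye⟩ := hj1
  have h6 := hi (hsubδ hy) (by rw [mem_ball_zero_iff]; exact h2 (k j)) hye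
  rw [h6, mem_ball, dist_eq_norm] at hy
  have h7 := norm_le_norm_add_norm_sub' (ζ (k j)) ζ'
  have h8 := h1 (k j)
  have h9 : (j : ℝ) ≤ (k j : ℝ) := by exact_mod_cast hk.le_apply
  have h10 : 1 / ((k j : ℝ) + 2) ≤ (1 - ‖ζ'‖) / 2 := by
    rw [div_le_div_iff₀ (by positivity) (by norm_num)]
    rw [div_le_iff₀ (by linarith)] at hj2
    nlinarith
  linarith

end LGS_

/-- LGS (the complement of the filled Julia set of `G`) -/
theorem p_LGS (hL : T_LAB) (hI : T_INVH) (hN : T_XND) (hP : T_XPW) : T_LGS := by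
  intro n e x R ϕ hn he he2 hX hA
  obtain ⟨hdeg, -⟩ := hN n x (by omega)
  obtain ⟨hBl, -⟩ := hP n (by omega)
  obtain ⟨-, -, hbd, hfw, -, hesc, -⟩ := hL n (fun z => z ^ n) x.num x.den R ϕ (by omega) hBl
    hdeg hA
  obtain ⟨-, hden, hrf⟩ := hX
  have hrf' : ∀ z, rf x.num x.den z = GG n e (1 + z) - 1 := by
    intro z
    rw [hrf z, GF]
    ring
  have hit : ∀ (m : ℕ) (z : ℂ), (GG n e)^[m] (1 + z) = 1 + (rf x.num x.den)^[m] z := by
    intro m
    induction m with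
    | zero => intro z; rfl
    | succ m ih =>
      intro z
      rw [Function.iterate_succ_apply, Function.iterate_succ_apply, ← ih, hrf',
        add_sub_cancel]
  have hne : ∀ ζ ∈ ball (0 : ℂ) 1 \ {0}, ϕ ζ ≠ 0 := by
    rintro ζ ⟨hζ, h0⟩ h
    exact h0 (hA.inj hζ (mem_ball_self one_pos) (h.trans hA.zero.symm))
  have himg : (fun ζ => 1 + 1 / ϕ ζ) '' (ball 0 1 \ {0}) = (KG n e)ᶜ := by
    ext v
    constructor
    · rintro ⟨ζ, hζ, rfl⟩ ⟨C, hC⟩
      have hz : 1 / ϕ ζ ∈ Out ϕ := ⟨ζ, hζ.1, mul_one_div_cancel (hne ζ hζ)⟩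
      have ht := hesc _ hz (fun m => hden _)
      obtain ⟨m, hm⟩ := (ht.eventually_gt_atTop (C + 1)).exists
      have h1 := hC m
      simp only [hit] at h1
      have h2 := norm_sub_norm_le ((rf x.num x.den)^[m] (1 / ϕ ζ)) (-1)
      rw [norm_neg, norm_one, sub_neg_eq_add, add_comm _ (1 : ℂ)] at h2
      linarith
    · intro hv
      by_contra hno
      apply hv
      refine ⟨1 + R, fun m => ?_⟩
      have hz : v - 1 ∉ Out ϕ := by
        rintro ⟨ζ, hζ, h⟩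
        have hne' : ϕ ζ ≠ 0 := left_ne_zero_of_mul_eq_one h
        apply hno
        refine ⟨ζ, ⟨hζ, ?_⟩, ?_⟩
        · intro h'
          rw [mem_singleton_iff] at h'
          rw [h', hA.zero] at hne'
          exact hne' rfl
        · show 1 + 1 / ϕ ζ = v
          have h' : v - 1 = 1 / ϕ ζ := (eq_div_iff hne').mpr (by linear_combination h)
          rw [← h']
          ring
      have h1 := hbd _ (hfw _ hz m)
      have h2 := hit m (v - 1)
      rw [add_sub_cancel] at h2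
      rw [h2]
      refine (norm_add_le _ _).trans ?_
      rw [norm_one]
      linarith
  refine ⟨?_, ?_, ?_, himg, ?_, ?_⟩
  · intro ζ hζ
    have h1 : DifferentiableWithinAt ℂ ϕ (ball 0 1 \ {0}) ζ :=
      (hA.hol ζ hζ.1).mono sdiff_subset
    exact (differentiableWithinAt_const _).add
      ((differentiableWithinAt_const _).div h1 (hne ζ hζ))
  · intro ζ hζ ζ' hζ' h
    have h1 : 1 / ϕ ζ = 1 / ϕ ζ' := add_left_cancel h
    apply hA.inj hζ.1 hζ'.1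
    have h2 := hne ζ hζ
    have h3 := hne ζ' hζ'
    field_simp at h1
    exact h1.symm
  · intro ζ hζ
    have hc := hA.conj ζ hζ.1 (1 / ϕ ζ) (mul_one_div_cancel (hne ζ hζ))
    have h1 := hrf' (1 / ϕ ζ)
    have hd := hden (1 / ϕ ζ)
    have hp : ϕ (ζ ^ n) ≠ 0 := by
      intro h
      apply hd
      rw [← hc]
      show _ * ϕ (ζ ^ n) = 0
      rw [h, mul_zero]
    have h2 : rf x.num x.den (1 / ϕ ζ) = 1 / ϕ (ζ ^ n) := by
      rw [rf, ← hc]
      show _ / (_ * ϕ (ζ ^ n)) = _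
      have hn0 : x.num.eval (1 / ϕ ζ) ≠ 0 := by
        intro h
        apply hd
        rw [← hc, h, zero_mul]
      field_simp
    show GG n e (1 + 1 / ϕ ζ) = 1 + 1 / ϕ (ζ ^ n)
    rw [← h2, h1]
    ring
  · have hcont : Tendsto ϕ (𝓝[≠] 0) (𝓝[≠] 0) := by
      apply tendsto_nhdsWithin_of_tendsto_nhds_of_eventually_within
      · have h1 : ContinuousAt ϕ 0 :=
          (hA.hol.differentiableAt (ball_mem_nhds 0 one_pos)).continuousAt
        have h2 := h1.tendsto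
        rw [hA.zero] at h2
        exact h2.mono_left nhdsWithin_le_nhds
      · have h3 : ∀ᶠ ζ in 𝓝[≠] (0 : ℂ), ζ ∈ ball (0 : ℂ) 1 :=
          mem_nhdsWithin_of_mem_nhds (ball_mem_nhds 0 one_pos)
        filter_upwards [h3, self_mem_nhdsWithin] with ζ h4 h5
        exact hne ζ ⟨h4, h5⟩
    have h6 : Tendsto (fun ζ => ‖(ϕ ζ)⁻¹‖) (𝓝[≠] 0) atTop :=
      tendsto_norm_inv_nhdsNE_zero_atTop.comp hcont
    refine tendsto_atTop_mono (fun ζ => ?_) (tendsto_atTop_add_const_right _ (-1) h6)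
    have h7 := norm_sub_norm_le (1 / ϕ ζ) (-1)
    rw [norm_neg, norm_one, sub_neg_eq_add, add_comm _ (1 : ℂ), one_div] at h7
    rw [one_div]
    linarith
  · intro W hW hKW
    apply LGS_.near hI hA.hol hA.inj hA.zero W hW
    intro v hv
    have h1 : v ∈ (fun ζ => 1 + 1 / ϕ ζ) '' (ball 0 1 \ {0}) := by
      rw [himg]
      exact fun h => hv (hKW h)
    obtain ⟨ζ, hζ, h⟩ := h1
    exact ⟨ζ, hζ, h⟩

end Pool.Agent.MAT
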