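import Pool.Agent.MAT.T
import Pool.Agent.PLim.PHIp

/-!
# MAT: LPM (derivative along the conjugacy)
-/

set_option autoImplicit false

open Polynomial Metric Set Filter Topology

noncomputable section

namespace Pool.Agent.MAT

namespace LPM_

lemma GG_one (n : ℕ) (e : ℝ) : GG n e 1 = 1 := by
  simp [GG]

lemma GF_one (n : ℕ) (e : ℝ) (μ : ℂ) : GF n e μ 1 = 1 := by
  simp [GF, GG_one]

lemma one_mem (n : ℕ) (e : ℝ) (μ : ℂ) : (1 : ℂ) ∈ Bas n e μ := by
  have h : ∀ m : ℕ, (GF n e μ)^[m] 1 = 1 := fun m => by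
    induction m with
    | zero => rfl
    | succ m ih => rw [Function.iterate_succ_apply, GF_one, ih]
  simp only [Bas, mem_setOf_eq]
  simp only [h]
  exact tendsto_const_nhds

lemma map_mem {n : ℕ} {e : ℝ} {μ v : ℂ} (hv : v ∈ Bas n e μ) : GF n e μ v ∈ Bas n e μ := by
  simp only [Bas, mem_setOf_eq] at hv ⊢
  have h : (fun m : ℕ => (GF n e μ)^[m] (GF n e μ v)) = fun m : ℕ => (GF n e μ)^[m + 1] v := by
    funext m
    rw [Function.iterate_succ_apply]
  rw [h]
  exact (tendsto_add_atTop_iff_nat (f := fun m : ℕ => (GF n e μ)^[m] v) 1).2 hv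

lemma hasDerivAt_GF (n : ℕ) (hn : 3 ≤ n) (e : ℝ) (he : 0 < e) (μ v : ℂ) :
    HasDerivAt (GF n e μ) (μ * (v ^ (n - 2) * (v + e) / (1 + e))) v := by
  have hn0 : (n : ℂ) ≠ 0 := by
    have : n ≠ 0 := by omega
    exact_mod_cast this
  have hn1 : ((n : ℂ) - 1) ≠ 0 := by
    intro h
    have h1 : (n : ℂ) = 1 := by linear_combination h
    have h2 : n = 1 := by exact_mod_cast h1
    omega
  have hcast : ((n - 1 : ℕ) : ℂ) = (n : ℂ) - 1 := by
    rw [Nat.cast_sub (by omega)]; simp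
  have he1 : (1 : ℂ) + (e : ℂ) ≠ 0 := by
    have : (1 : ℝ) + e ≠ 0 := by linarith
    exact_mod_cast this
  have h1 : HasDerivAt (fun v : ℂ => v ^ n) ((n : ℂ) * v ^ (n - 1)) v := hasDerivAt_pow n v
  have h2 : HasDerivAt (fun v : ℂ => v ^ (n - 1)) (((n - 1 : ℕ) : ℂ) * v ^ (n - 1 - 1)) v :=
    hasDerivAt_pow (n - 1) v
  have h3 := (((((((h1.sub_const 1).div_const (n : ℂ)).add
    (((h2.sub_const 1).const_mul (e : ℂ)).div_const ((n : ℂ) - 1))).div_const
      (1 + (e : ℂ))).const_add 1).sub_const 1).const_mul μ).const_add 1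
  have h4 : (μ * (v ^ (n - 2) * (v + e) / (1 + e))) =
      μ * (((n : ℂ) * v ^ (n - 1) / n + (e : ℂ) * (((n - 1 : ℕ) : ℂ) * v ^ (n - 1 - 1)) /
        ((n : ℂ) - 1)) / (1 + e)) := by
    rw [hcast]
    obtain ⟨k, rfl⟩ : ∃ k, n = k + 2 := ⟨n - 2, by omega⟩
    have e1 : k + 2 - 1 = k + 1 := by omega
    have e2 : k + 1 - 1 = k := by omega
    have e3 : k + 2 - 2 = k := by omega
    rw [e1, e2, e3]
    field_simp
    ring
  rw [h4]
  exact h3

end LPM_

open LPM_ in
/-- LPM -/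
theorem p_LPM : T_LPM := by
  intro n e A ρ μ N D R ϕ χ hn he he2 hA hP
  have hD : ∀ v ∈ Bas n e μ, D.eval (χ v) ≠ 0 := fun v hv =>
    (hP.aside.back (χ v) (hP.cross v hv)).1
  have hR : ∀ v ∈ Bas n e μ, ‖χ v‖ < R := by
    intro v hv
    by_contra h
    exact hP.cross v hv (hP.aside.esc (χ v) (not_lt.mp h))
  -- the derivative
  have hder : ∀ v ∈ Bas n e μ, deriv χ v ≠ 0 := by
    intro v hv
    exact PLim.PHIp_.deriv_ne_zero_of_injOn (hP.hol.analyticAt (hP.opn.mem_nhds hv))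
      (hP.opn.mem_nhds hv) hP.inj
  have key : ∀ v ∈ Bas n e μ, (wr N D).eval (χ v) * deriv χ v =
      deriv χ (GF n e μ v) * (μ * (v ^ (n - 2) * (v + e) / (1 + e))) * D.eval (χ v) ^ 2 := by
    intro v hv
    have hχ : HasDerivAt χ (deriv χ v) v :=
      (hP.hol.differentiableAt (hP.opn.mem_nhds hv)).hasDerivAt
    have hχF : HasDerivAt χ (deriv χ (GF n e μ v)) (GF n e μ v) :=
      (hP.hol.differentiableAt (hP.opn.mem_nhds (map_mem hv))).hasDerivAt
    have hF := hasDerivAt_GF n hn e he μ v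
    have h1 : HasDerivAt (fun v => N.eval (χ v)) ((derivative N).eval (χ v) * deriv χ v) v :=
      (N.hasDerivAt (χ v)).comp v hχ
    have h2 : HasDerivAt (fun v => D.eval (χ v)) ((derivative D).eval (χ v) * deriv χ v) v :=
      (D.hasDerivAt (χ v)).comp v hχ
    have h3 : HasDerivAt (fun v => χ (GF n e μ v))
        (deriv χ (GF n e μ v) * (μ * (v ^ (n - 2) * (v + e) / (1 + e)))) v :=
      hχF.comp v hF
    have h4 := h3.mul h2
    have h5 : (fun v => N.eval (χ v)) =ᶠ[𝓝 v] fun v => χ (GF n e μ v) * D.eval (χ v) := by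
      filter_upwards [hP.opn.mem_nhds hv] with w hw using hP.conj w hw
    have h6 := (h4.congr_of_eventuallyEq h5).unique h1
    have h7 := hP.conj v hv
    simp only [wr, eval_sub, eval_mul]
    linear_combination (-D.eval (χ v)) * h6 - (eval (χ v) (derivative D)) * (deriv χ v) * h7
  have h0 : (2 : ℕ) < n := by omega
  have hz : n - 2 ≠ 0 := by omega
  refine ⟨?_, ?_, ?_, ?_, hD, hR⟩
  · have h1 := key 1 (one_mem n e μ)
    rw [GF_one] at h1
    have he1 : (1 : ℂ) + (e : ℂ) ≠ 0 := by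
      have : (1 : ℝ) + e ≠ 0 := by linarith
      exact_mod_cast this
    rw [one_pow, one_mul, div_self he1, mul_one] at h1
    have h2 := hder 1 (one_mem n e μ)
    apply mul_right_cancel₀ h2
    linear_combination h1
  · have := hP.conj 1 (one_mem n e μ)
    rwa [GF_one] at this
  · have h1 := key 0 hP.mem0
    rw [zero_pow hz] at h1
    simp only [zero_mul, mul_zero, zero_div] at h1
    exact (mul_eq_zero.mp h1).resolve_right (hder 0 hP.mem0)
  · have h1 := key (-(e : ℂ)) hP.meme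
    rw [neg_add_cancel] at h1
    simp only [zero_mul, mul_zero, zero_div] at h1
    exact (mul_eq_zero.mp h1).resolve_right (hder _ hP.meme)

end Pool.Agent.MAT
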