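import Pool.Agent.MAT.T

/-!
# MAT: LRA (the radial limit)
-/

set_option autoImplicit false

open Polynomial Metric Set Filter Topology

noncomputable section

namespace Pool.Agent.MAT.LRA_

open Pool.Agent.MAT

lemma cop_ne {N D : ℂ[X]} (h : IsCoprime N D) (z : ℂ) (hN : N.eval z = 0) : D.eval z ≠ 0 := by
  intro hD
  obtain ⟨a, b, hab⟩ := h
  have := congrArg (fun P : ℂ[X] => P.eval z) hab
  simp only [eval_add, eval_mul, hN, hD, mul_zero, add_zero, eval_one] at this
  exact zero_ne_one this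

lemma den_ne {N D : ℂ[X]} (h : IsCoprime N D) {z w : ℂ} (hz : N.eval z = w * D.eval z) :
    D.eval z ≠ 0 := by
  intro hD
  refine cop_ne h z ?_ hD
  rw [hz, hD, mul_zero]

/-- the factorisation at a fixed point with multiplier one -/
lemma fac {n : ℕ} {N D : ℂ[X]} (hn : 3 ≤ n) (h : NDeg n N D) (q : ℂ)
    (hq : N.eval q = q * D.eval q) (hw : (wr N D).eval q = D.eval q ^ 2) :
    ∃ (ν : ℕ) (P : ℂ[X]), 1 ≤ ν ∧ N - X * D = (X - C q) ^ (ν + 1) * P ∧ P.eval q ≠ 0 := by
  have hD : D.eval q ≠ 0 := den_ne h.cop hq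
  have hne : N - X * D ≠ 0 := by
    intro h0
    have h1 : N = X * D := sub_eq_zero.mp h0
    have h2 : D ∣ N := ⟨X, by rw [h1, mul_comm]⟩
    have h3 : IsUnit D := h.cop.isUnit_of_dvd' h2 dvd_rfl
    have h4 : D.natDegree = 0 := natDegree_eq_zero_of_isUnit h3
    have h5 : N.natDegree ≤ (X : ℂ[X]).natDegree + D.natDegree := by
      rw [h1]; exact natDegree_mul_le
    rw [h.deg, h4, natDegree_X] at h5
    omega
  obtain ⟨P, hP, hdvd⟩ := exists_eq_pow_rootMultiplicity_mul_and_not_dvd (N - X * D) hne q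
  have hPq : P.eval q ≠ 0 := by
    intro h0
    exact hdvd (dvd_iff_isRoot.mpr h0)
  set k := rootMultiplicity q (N - X * D) with hk
  have e0 : (N - X * D).eval q = 0 := by
    simp [hq]
  have hw' : (derivative N).eval q - q * (derivative D).eval q = D.eval q := by
    unfold wr at hw
    simp only [eval_sub, eval_mul] at hw
    rw [hq] at hw
    have h1 : D.eval q * ((derivative N).eval q - q * (derivative D).eval q) =
        D.eval q * D.eval q := by
      linear_combination hw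
    exact mul_left_cancel₀ hD h1
  have e1 : (derivative (N - X * D)).eval q = 0 := by
    simp only [derivative_sub, derivative_mul, derivative_X, one_mul, eval_sub, eval_add, eval_mul,
      eval_X]
    linear_combination hw'
  have hk2 : 2 ≤ k := by
    by_contra hlt
    push Not at hlt
    interval_cases hk' : k
    · rw [hP] at e0
      simp only [pow_zero, one_mul] at e0
      exact hPq e0
    · rw [hP] at e1
      simp only [pow_one, derivative_mul, derivative_sub, derivative_X, derivative_C, sub_zero,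
        one_mul, eval_add, eval_mul, eval_sub, eval_X, eval_C, sub_self, zero_mul, add_zero] at e1
      exact hPq e1
  refine ⟨k - 1, P, by omega, ?_, hPq⟩
  rw [show k - 1 + 1 = k by omega]
  exact hP

/-- second derivative -/
lemma second {N D P : ℂ[X]} {p : ℂ} (hD : D.eval p ≠ 0) (hp : N.eval p = p * D.eval p)
    (hw : (wr N D).eval p = D.eval p ^ 2) (hP : N - X * D = (X - C p) ^ 2 * P)
    (hPp : P.eval p ≠ 0) : iteratedDeriv 2 (rf N D) p ≠ 0 := by
  have hder : ∀ z : ℂ, D.eval z ≠ 0 →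
      HasDerivAt (rf N D) ((wr N D).eval z / D.eval z ^ 2) z := by
    intro z hz
    have h := (N.hasDerivAt z).div (D.hasDerivAt z) hz
    unfold wr
    simp only [eval_sub, eval_mul]
    exact h
  have hopen : ∀ᶠ z in 𝓝 p, D.eval z ≠ 0 :=
    (D.continuous.continuousAt).eventually_ne hD
  have hev : deriv (rf N D) =ᶠ[𝓝 p] fun z => (wr N D).eval z / D.eval z ^ 2 := by
    filter_upwards [hopen] with z hz
    exact (hder z hz).deriv
  have h2 : HasDerivAt (fun z => (wr N D).eval z / D.eval z ^ 2)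
      (((derivative (wr N D)).eval p * D.eval p ^ 2 -
        (wr N D).eval p * (2 * D.eval p * (derivative D).eval p)) / (D.eval p ^ 2) ^ 2) p := by
    have h3 : HasDerivAt (fun z => D.eval z ^ 2) (2 * D.eval p * (derivative D).eval p) p := by
      have := (D.hasDerivAt p).pow 2
      refine HasDerivAt.congr_deriv this ?_
      simp
    exact ((wr N D).hasDerivAt p).div h3 (pow_ne_zero 2 hD)
  have h4 : iteratedDeriv 2 (rf N D) p = ((derivative (wr N D)).eval p * D.eval p ^ 2 -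
        (wr N D).eval p * (2 * D.eval p * (derivative D).eval p)) / (D.eval p ^ 2) ^ 2 := by
    rw [iteratedDeriv_succ, iteratedDeriv_one, hev.deriv_eq, h2.deriv]
  -- second derivative of the factorisation
  have h5 : (derivative (derivative N)).eval p - 2 * (derivative D).eval p -
      p * (derivative (derivative D)).eval p = 2 * P.eval p := by
    have h6 := congrArg (fun Q : ℂ[X] => (derivative (derivative Q)).eval p) hP
    simp only [derivative_sub, derivative_mul, derivative_X, one_mul, derivative_add, eval_sub,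
      eval_add, eval_mul, eval_X, derivative_pow, derivative_C, sub_zero, eval_pow, eval_C,
      sub_self, Nat.cast_ofNat, mul_one, map_ofNat, derivative_ofNat, zero_mul, zero_add,
      eval_ofNat, Nat.add_one_sub_one, pow_one, mul_zero, add_zero] at h6
    simp at h6
    linear_combination h6
  have h7 : (derivative (wr N D)).eval p =
      D.eval p * (2 * P.eval p + 2 * (derivative D).eval p) := by
    unfold wr
    simp only [derivative_sub, derivative_mul, eval_sub, eval_add, eval_mul]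
    rw [hp]
    linear_combination D.eval p * h5
  rw [h4, h7, hw]
  have h8 : (D.eval p * (2 * P.eval p + 2 * (derivative D).eval p) * D.eval p ^ 2 -
      D.eval p ^ 2 * (2 * D.eval p * (derivative D).eval p)) / (D.eval p ^ 2) ^ 2 =
      2 * P.eval p / D.eval p := by
    field_simp
    ring
  rw [h8]
  exact div_ne_zero (mul_ne_zero two_ne_zero hPp) hD

/-- unit solutions -/
lemma unit_root (a : ℂ) (ha : a ≠ 0) (ν : ℕ) (hν : 1 ≤ ν) :
    ∃ ε : ℂ, ‖ε‖ = 1 ∧ a * ε ^ ν = -(‖a‖ : ℝ) := by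
  obtain ⟨ε, hε⟩ := IsAlgClosed.exists_pow_nat_eq (-(‖a‖ : ℂ) / a) (show 0 < ν by omega)
  have hna : ‖a‖ ≠ 0 := norm_ne_zero_iff.mpr ha
  refine ⟨ε, ?_, ?_⟩
  · have h1 : ‖ε‖ ^ ν = 1 := by
      rw [← norm_pow, hε, norm_div, norm_neg, Complex.norm_real, norm_norm, div_self hna]
    exact (pow_eq_one_iff_of_nonneg (norm_nonneg _) (by omega)).mp h1
  · rw [hε]
    field_simp

lemma unit_root2 (a : ℂ) (ha : a ≠ 0) (ν : ℕ) (hν : 2 ≤ ν) :
    ∃ ε₁ ε₂ : ℂ, ε₁ ≠ ε₂ ∧ ‖ε₁‖ = 1 ∧ ‖ε₂‖ = 1 ∧ a * ε₁ ^ ν = -(‖a‖ : ℝ) ∧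
      a * ε₂ ^ ν = -(‖a‖ : ℝ) := by
  obtain ⟨ε, h1, h2⟩ := unit_root a ha ν (by omega)
  have hpr := Complex.isPrimitiveRoot_exp ν (by omega)
  set ω := Complex.exp (2 * Real.pi * Complex.I / ν) with hω
  have hω1 : ω ^ ν = 1 := hpr.pow_eq_one
  have hωne : ω ≠ 1 := hpr.ne_one (by omega)
  have hωn : ‖ω‖ = 1 := by
    have : ‖ω‖ ^ ν = 1 := by rw [← norm_pow, hω1, norm_one]
    exact (pow_eq_one_iff_of_nonneg (norm_nonneg _) (by omega)).mp this
  have hε0 : ε ≠ 0 := by
    intro h; rw [h] at h1; simp at h1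
  refine ⟨ε, ε * ω, ?_, h1, by rw [norm_mul, h1, hωn, one_mul], h2, ?_⟩
  · intro h
    apply hωne
    have : ε * ω = ε * 1 := by rw [mul_one]; exact h.symm
    exact mul_left_cancel₀ hε0 this
  · rw [mul_pow, hω1, mul_one, h2]

end Pool.Agent.MAT.LRA_

namespace Pool.Agent.MAT

open LRA_

theorem p_LRA (hLRC : T_LRC) (hCPA : T_CPA) (hLDI : T_LDI) (hGBA : T_GBA) : T_LRA := by
  intro n e A N D R ϕ χ q hn he he2 hA H
  obtain ⟨-, -, -, hinv, -, -, -, -, -, -, -, h0U, heU⟩ := hGBA n e hn he he2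
  obtain ⟨c, hc, hcv⟩ := hLRC n e A N D R ϕ χ q hn he he2 hA H
  -- iterates
  have hUit : ∀ v ∈ UG n e, ∀ m : ℕ, (GG n e)^[m] v ∈ UG n e := by
    intro v hv m
    induction m with
    | zero => simpa using hv
    | succ m ih =>
      rw [Function.iterate_succ_apply']
      exact (hinv _).mpr ih
  have hstep : ∀ v ∈ UG n e, rf N D (χ v) = χ (GG n e v) := by
    intro v hv
    have h1 := H.conj v hv
    have h2 := den_ne H.deg.cop h1
    unfold rf
    rw [h1, mul_div_assoc, div_self h2, mul_one]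
  have hit : ∀ v ∈ UG n e, ∀ m : ℕ, (rf N D)^[m] (χ v) = χ ((GG n e)^[m] v) := by
    intro v hv m
    induction m with
    | zero => simp
    | succ m ih =>
      rw [Function.iterate_succ_apply', ih, hstep _ (hUit v hv m), Function.iterate_succ_apply']
  -- CPA in our situation
  have key : ∀ (ν : ℕ) (P : ℂ[X]) (q' ε : ℂ), 1 ≤ ν → N - X * D = (X - C q') ^ (ν + 1) * P →
      P.eval q' ≠ 0 → D.eval q' ≠ 0 → ‖ε‖ = 1 →
      P.eval q' / D.eval q' * ε ^ ν = -(‖P.eval q' / D.eval q'‖ : ℝ) →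
      ∃ v : ℂ, (v = 0 ∨ v = -(e : ℂ)) ∧ v ∈ UG n e ∧
        (∀ m : ℕ, χ ((GG n e)^[m] v) ≠ q') ∧
        Tendsto (fun m : ℕ => χ ((GG n e)^[m] v)) atTop (𝓝 q') ∧
        Tendsto (fun m : ℕ => (χ ((GG n e)^[m] v) - q') / ‖χ ((GG n e)^[m] v) - q'‖) atTop
          (𝓝 ε) := by
    intro ν P q' ε hν hP hPq hDq hε hε2
    obtain ⟨z, hz1, hz2, hz3, hz4, hz5⟩ := hCPA n ν A N D P R ϕ q' ε (by omega) hA H.deg H.aside
      hν hP hPq hDq hε hε2
    have hz : ∃ v : ℂ, (v = 0 ∨ v = -(e : ℂ)) ∧ v ∈ UG n e ∧ z = χ v := by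
      rcases H.crit z hz1 with h | h | h
      · exact absurd h hz2
      · exact ⟨0, Or.inl rfl, h0U, h⟩
      · exact ⟨-(e : ℂ), Or.inr rfl, heU, h⟩
    obtain ⟨v, hv, hvU, rfl⟩ := hz
    have hi := hit v hvU
    refine ⟨v, hv, hvU, fun m => ?_, ?_, ?_⟩
    · rw [← hi m]; exact hz3 m
    · simpa only [hi] using hz4
    · simpa only [hi] using hz5
  have lem : ∀ q' : ℂ, N.eval q' = q' * D.eval q' → (wr N D).eval q' = D.eval q' ^ 2 →
      q' = c := by
    intro q' h1 h2
    have hD := den_ne H.deg.cop h1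
    obtain ⟨ν, P, hν, hP, hPq⟩ := fac hn H.deg q' h1 h2
    obtain ⟨ε, hε, hε2⟩ := unit_root (P.eval q' / D.eval q') (div_ne_zero hPq hD) ν hν
    obtain ⟨v, -, hvU, -, hv4, -⟩ := key ν P q' ε hν hP hPq hD hε hε2
    exact tendsto_nhds_unique hv4 (hcv v hvU)
  have hqc : q = c := lem q H.fixq H.mulq
  have hDc : D.eval c ≠ 0 := den_ne H.deg.cop hc
  have hmul : (wr N D).eval c = D.eval c ^ 2 := by rw [← hqc]; exact H.mulq
  obtain ⟨ν, P, hν, hP, hPc⟩ := fac hn H.deg c hc hmul
  have ha : P.eval c / D.eval c ≠ 0 := div_ne_zero hPc hDc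
  have hinj : InjOn χ (UG n e) := by
    rcases H.dich with h | h
    · exact h
    · exfalso
      obtain ⟨ε, hε, hε2⟩ := unit_root (P.eval c / D.eval c) ha ν hν
      obtain ⟨v, -, hvU, hv3, hv4, -⟩ := key ν P c ε hν hP hPc hDc hε hε2
      have h1 : ∀ m : ℕ, χ ((GG n e)^[m] v) = χ v := fun m => h _ (hUit v hvU m) _ hvU
      have h2 : Tendsto (fun m : ℕ => χ ((GG n e)^[m] v)) atTop (𝓝 (χ v)) := by
        simp only [h1]
        exact tendsto_const_nhds
      have h3 := tendsto_nhds_unique h2 hv4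
      exact hv3 0 (by simpa using h3)
  have hν1 : ν = 1 := by
    by_contra hne
    have hν2 : 2 ≤ ν := by omega
    obtain ⟨ε₁, ε₂, hd, h1, h2, h3, h4⟩ := unit_root2 (P.eval c / D.eval c) ha ν hν2
    obtain ⟨v, hv, hvU, hv3, hv4, hv5⟩ := key ν P c ε₁ hν hP hPc hDc h1 h3
    obtain ⟨w, hw, hwU, hw3, hw4, hw5⟩ := key ν P c ε₂ hν hP hPc hDc h2 h4
    rcases hv with rfl | rfl <;> rcases hw with rfl | rfl
    · exact hd (tendsto_nhds_unique hv5 hw5)
    · exact hd (hLDI n ν e A N D P R ϕ χ q c ε₁ ε₂ hn he he2 hA H hν2 hP hPc hDc hv3 hv4 hv5 hw5)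
    · exact hd (hLDI n ν e A N D P R ϕ χ q c ε₂ ε₁ hn he he2 hA H hν2 hP hPc hDc hw3 hw4 hw5
        hv5).symm
    · exact hd (tendsto_nhds_unique hv5 hw5)
  subst hν1
  refine ⟨c, ?_⟩
  exact {
    deg := H.deg
    aside := H.aside
    hol := H.hol
    inj := hinj
    conj := H.conj
    back := H.back hinj
    cross := H.cross
    crit := H.crit
    conv := hcv
    fixp := hc
    denp := hDc
    mult := hmul
    nondeg := second hDc hc hmul hP hPc
    uniq := lem }

end Pool.Agent.MAT
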