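import Pool.Agent.MAT.T

/-!
# MAT: LRC (orbits converge)
-/

set_option autoImplicit false

open Polynomial Metric Set Filter Topology

noncomputable section

namespace Pool.Agent.MAT

namespace LRC_

/-- points of a finite set are separated -/
lemma sep (Z : Finset ℂ) :
    ∃ δ : ℝ, 0 < δ ∧ ∀ c ∈ Z, ∀ c' ∈ Z, dist c c' < δ → c = c' := by
  classical
  set S : Finset (ℂ × ℂ) := (Z ×ˢ Z).filter (fun p => p.1 ≠ p.2) with hS
  by_cases hne : S.Nonempty
  · obtain ⟨p, hp, hmin⟩ := S.exists_min_image (fun p => dist p.1 p.2) hne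
    have hp' : p.1 ≠ p.2 := (Finset.mem_filter.1 hp).2
    refine ⟨dist p.1 p.2, dist_pos.2 hp', fun c hc c' hc' hlt => ?_⟩
    by_contra hcc
    have h1 : (c, c') ∈ S := Finset.mem_filter.2 ⟨Finset.mem_product.2 ⟨hc, hc'⟩, hcc⟩
    exact absurd (hmin _ h1) (not_le.2 hlt)
  · refine ⟨1, one_pos, fun c hc c' hc' _ => ?_⟩
    by_contra hcc
    exact hne ⟨(c, c'), Finset.mem_filter.2 ⟨Finset.mem_product.2 ⟨hc, hc'⟩, hcc⟩⟩

/-- a sequence with small steps which approaches a finite set converges -/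
lemma conv (Z : Finset ℂ) (a : ℕ → ℂ)
    (hZ : ∀ ε : ℝ, 0 < ε → ∀ᶠ m in atTop, ∃ c ∈ Z, dist (a m) c < ε)
    (hst : Tendsto (fun m => dist (a (m + 1)) (a m)) atTop (𝓝 0)) :
    ∃ c ∈ Z, Tendsto a atTop (𝓝 c) := by
  obtain ⟨δ, hδ, hsep⟩ := sep Z
  have h4 : 0 < δ / 4 := by positivity
  have h1 := hZ (δ / 4) h4
  have h2 : ∀ᶠ m in atTop, dist (a (m + 1)) (a m) < δ / 4 := hst.eventually (gt_mem_nhds h4)
  obtain ⟨M, hM⟩ := eventually_atTop.1 (h1.and h2)
  obtain ⟨c, hc, hcM⟩ := (hM M le_rfl).1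
  have key : ∀ m, M ≤ m → dist (a m) c < δ / 4 := by
    intro m hm
    induction m, hm using Nat.le_induction with
    | base => exact hcM
    | succ m hm ih =>
      obtain ⟨c', hc', h3⟩ := (hM (m + 1) (by omega)).1
      have h5 := (hM m hm).2
      have h6 : dist c' c < δ := by
        calc dist c' c ≤ dist c' (a (m + 1)) + dist (a (m + 1)) (a m) + dist (a m) c :=
              dist_triangle4 _ _ _ _
          _ < δ / 4 + δ / 4 + δ / 4 := by
              rw [dist_comm c']
              linarith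
          _ < δ := by linarith
      rw [← hsep c' hc' c hc h6]
      exact h3
  refine ⟨c, hc, ?_⟩
  rw [Metric.tendsto_atTop]
  intro ε hε
  obtain ⟨M', hM'⟩ := eventually_atTop.1 (hZ (min ε (δ / 4)) (lt_min hε h4))
  refine ⟨max M M', fun m hm => ?_⟩
  obtain ⟨c', hc', h3⟩ := hM' m (le_trans (le_max_right _ _) hm)
  have h5 := key m (le_trans (le_max_left _ _) hm)
  have h6 : dist c' c < δ := by
    calc dist c' c ≤ dist c' (a m) + dist (a m) c := dist_triangle _ _ _
      _ < δ / 4 + δ / 4 := by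
          rw [dist_comm c']
          have := lt_of_lt_of_le h3 (min_le_right _ _)
          linarith
      _ < δ := by linarith
  rw [← hsep c' hc' c hc h6]
  exact lt_of_lt_of_le h3 (min_le_left _ _)

/-- small values of a polynomial are taken near the roots -/
lemma near_root (P : ℂ[X]) (R : ℝ) (a : ℕ → ℂ) (ha : ∀ m, ‖a m‖ ≤ R)
    (hP : P ≠ 0) (h0 : Tendsto (fun m => P.eval (a m)) atTop (𝓝 0)) {ε : ℝ} (hε : 0 < ε) :
    ∀ᶠ m in atTop, ∃ c ∈ P.roots.toFinset, dist (a m) c < ε := by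
  set K : Set ℂ := closedBall 0 R \ ⋃ c ∈ P.roots.toFinset, ball c ε with hK
  have hKc : IsCompact K := (isCompact_closedBall _ _).diff
    (isOpen_biUnion fun c _ => isOpen_ball)
  have hout : ∀ m, a m ∉ K → ∃ c ∈ P.roots.toFinset, dist (a m) c < ε := by
    intro m hm
    by_contra hcon
    push Not at hcon
    apply hm
    refine ⟨mem_closedBall_zero_iff.2 (ha m), ?_⟩
    simp only [mem_iUnion, mem_ball, not_exists, not_lt]
    exact fun c hc => hcon c hc
  rcases K.eq_empty_or_nonempty with h | hne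
  · exact Eventually.of_forall fun m => hout m (by rw [h]; exact notMem_empty _)
  · obtain ⟨b, hb, hmin⟩ := hKc.exists_isMinOn hne
      (f := fun z => ‖P.eval z‖) P.continuous.norm.continuousOn
    have hb0 : P.eval b ≠ 0 := by
      intro h1
      apply hb.2
      simp only [mem_iUnion]
      refine ⟨b, ?_, mem_ball_self hε⟩
      rw [Multiset.mem_toFinset, mem_roots hP]
      exact h1
    have hpos : 0 < ‖P.eval b‖ := norm_pos_iff.2 hb0
    have h1 : ∀ᶠ m in atTop, ‖P.eval (a m)‖ < ‖P.eval b‖ := by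
      have := h0.norm
      rw [norm_zero] at this
      exact this.eventually (gt_mem_nhds hpos)
    filter_upwards [h1] with m hm
    refine hout m fun hmK => ?_
    exact absurd (hmin hmK) (not_le.2 hm)

lemma P_ne {n : ℕ} {N D : ℂ[X]} (hn : 3 ≤ n) (h : NDeg n N D) : N - X * D ≠ 0 := by
  intro h0
  have h1 : N = X * D := sub_eq_zero.mp h0
  have h2 : D ∣ N := ⟨X, by rw [h1, mul_comm]⟩
  have h3 : IsUnit D := h.cop.isUnit_of_dvd' h2 dvd_rfl
  have h4 : D.natDegree = 0 := natDegree_eq_zero_of_isUnit h3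
  have h5 : N.natDegree ≤ (X : ℂ[X]).natDegree + D.natDegree := by
    rw [h1]; exact natDegree_mul_le
  rw [h.deg, h4, natDegree_X] at h5
  omega

lemma GG_diff (n : ℕ) (e : ℝ) : Differentiable ℂ (GG n e) := by
  unfold GG
  fun_prop

lemma iter_diff (n : ℕ) (e : ℝ) (m : ℕ) : Differentiable ℂ ((GG n e)^[m]) := by
  induction m with
  | zero => exact differentiable_id
  | succ m ih =>
    rw [Function.iterate_succ]
    exact ih.comp (GG_diff n e)

/-- small steps -/
lemma steps {χ : ℂ → ℂ} {R : ℝ} (hd : DifferentiableOn ℂ χ (ball 0 1))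
    (hR : ∀ v ∈ ball (0 : ℂ) 1, ‖χ v‖ < R) {x : ℕ → ℝ} (hx : ∀ m, 0 ≤ x m ∧ x m < 1)
    (ht : Tendsto (fun m => (x (m + 1) - x m) / (1 - x (m + 1))) atTop (𝓝 0)) :
    Tendsto (fun m => dist (χ (x (m + 1))) (χ (x m))) atTop (𝓝 0) := by
  have hR0 : 0 < R := lt_of_le_of_lt (norm_nonneg _) (hR 0 (mem_ball_self one_pos))
  have ht' : Tendsto (fun m => 2 * R * |(x (m + 1) - x m) / (1 - x (m + 1))|) atTop (𝓝 0) := by
    have := (ht.abs).const_mul (2 * R)
    simpa using this
  have hev : ∀ᶠ m in atTop, |(x (m + 1) - x m) / (1 - x (m + 1))| < 1 := by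
    have := ht.abs
    rw [abs_zero] at this
    exact this.eventually (gt_mem_nhds one_pos)
  refine squeeze_zero' (Eventually.of_forall fun m => dist_nonneg) ?_ ht'
  filter_upwards [hev] with m hm
  have h1 := hx (m + 1)
  have hs : 0 < 1 - x (m + 1) := by linarith
  have hsub : ball ((x (m + 1) : ℝ) : ℂ) (1 - x (m + 1)) ⊆ ball 0 1 := by
    intro z hz
    rw [mem_ball_iff_norm] at hz
    rw [mem_ball_zero_iff]
    calc ‖z‖ = ‖(z - ((x (m + 1) : ℝ) : ℂ)) + ((x (m + 1) : ℝ) : ℂ)‖ := by ring_nf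
      _ ≤ ‖z - ((x (m + 1) : ℝ) : ℂ)‖ + ‖((x (m + 1) : ℝ) : ℂ)‖ := norm_add_le _ _
      _ < (1 - x (m + 1)) + x (m + 1) := by
          rw [Complex.norm_real, Real.norm_eq_abs, abs_of_nonneg h1.1]
          linarith
      _ = 1 := by ring
  have hdist : dist ((x m : ℝ) : ℂ) ((x (m + 1) : ℝ) : ℂ) = |x (m + 1) - x m| := by
    rw [dist_comm, dist_eq_norm, ← Complex.ofReal_sub, Complex.norm_real, Real.norm_eq_abs]
  rw [abs_div, abs_of_pos hs] at hm ⊢
  have hmem : ((x m : ℝ) : ℂ) ∈ ball ((x (m + 1) : ℝ) : ℂ) (1 - x (m + 1)) := by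
    rw [mem_ball, hdist]
    rwa [div_lt_one hs] at hm
  have hmaps : MapsTo χ (ball ((x (m + 1) : ℝ) : ℂ) (1 - x (m + 1)))
      (ball (χ ((x (m + 1) : ℝ) : ℂ)) (2 * R)) := by
    intro z hz
    rw [mem_ball_iff_norm]
    have h2 := hR z (hsub hz)
    have h3 := hR _ (hsub (mem_ball_self hs))
    calc ‖χ z - χ ((x (m + 1) : ℝ) : ℂ)‖ ≤ ‖χ z‖ + ‖χ ((x (m + 1) : ℝ) : ℂ)‖ := norm_sub_le _ _
      _ < 2 * R := by linarith
  have h4 := Complex.dist_le_div_mul_dist_of_mapsTo_ball (hd.mono hsub)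
    (hmaps.mono_right ball_subset_closedBall) hmem
  rw [dist_comm, hdist] at h4
  calc dist (χ ((x (m + 1) : ℝ) : ℂ)) (χ ((x m : ℝ) : ℂ)) ≤
      2 * R / (1 - x (m + 1)) * |x (m + 1) - x m| := h4
    _ = 2 * R * (|x (m + 1) - x m| / (1 - x (m + 1))) := by ring

end LRC_

open LRC_

theorem p_LRC (hUL : T_UL) (hLAB : T_LAB) (hGRM : T_GRM) (hGBA : T_GBA) : T_LRC := by
  intro n e A N D R ϕ χ q hn he he2 hA H
  obtain ⟨hUo, hUc, hball, hinv, -, -, -, -, -, -, -, h0U, -⟩ := hGBA n e hn he he2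
  obtain ⟨-, -, hbd, -, -, -, -⟩ := hLAB n A N D R ϕ (by omega) hA H.deg H.aside
  have hχR : ∀ v ∈ UG n e, ‖χ v‖ < R := fun v hv => hbd _ (H.cross v hv)
  have hUit : ∀ v ∈ UG n e, ∀ m : ℕ, (GG n e)^[m] v ∈ UG n e := by
    intro v hv m
    induction m with
    | zero => simpa using hv
    | succ m ih =>
      rw [Function.iterate_succ_apply']
      exact (hinv _).mpr ih
  set P : ℂ[X] := N - X * D with hP
  have hP0 : P ≠ 0 := P_ne hn H.deg
  obtain ⟨B, hB⟩ : ∃ B : ℝ, ∀ z ∈ closedBall (0 : ℂ) R, ‖D.eval z‖ ≤ B :=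
    (isCompact_closedBall (0 : ℂ) R).exists_bound_of_continuousOn D.continuous.continuousOn
  -- real orbits converge to roots
  have hreal : ∀ v : ℝ, 0 ≤ v → v < 1 →
      ∃ c ∈ P.roots.toFinset, Tendsto (fun m : ℕ => χ ((GG n e)^[m] (v : ℂ))) atTop (𝓝 c) := by
    intro v hv0 hv1
    obtain ⟨x, hx, hx1, hx2⟩ := hGRM n e hn he he2 v hv0 hv1
    have hvU : (v : ℂ) ∈ UG n e := hball (by
      rw [mem_ball_zero_iff, Complex.norm_real, Real.norm_eq_abs, abs_of_nonneg hv0]
      exact hv1)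
    have hst := steps (H.hol.mono hball) (fun w hw => hχR w (hball hw)) hx1 hx2
    have hst' : Tendsto (fun m => dist (χ ((GG n e)^[m + 1] (v : ℂ)))
        (χ ((GG n e)^[m] (v : ℂ)))) atTop (𝓝 0) := by
      simpa only [hx] using hst
    refine conv _ _ (fun ε hε => near_root P R _ (fun m => (hχR _ (hUit _ hvU m)).le) hP0 ?_ hε)
      hst'
    have hval : ∀ m : ℕ, P.eval (χ ((GG n e)^[m] (v : ℂ))) =
        (χ ((GG n e)^[m + 1] (v : ℂ)) - χ ((GG n e)^[m] (v : ℂ))) *
          D.eval (χ ((GG n e)^[m] (v : ℂ))) := by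
      intro m
      rw [hP, eval_sub, eval_mul, eval_X, H.conj _ (hUit _ hvU m), Function.iterate_succ_apply']
      ring
    have hb : Tendsto (fun m => dist (χ ((GG n e)^[m + 1] (v : ℂ)))
        (χ ((GG n e)^[m] (v : ℂ))) * B) atTop (𝓝 0) := by
      simpa using hst'.mul_const B
    refine squeeze_zero_norm (fun m => ?_) hb
    rw [hval m, norm_mul, dist_eq_norm]
    exact mul_le_mul_of_nonneg_left
      (hB _ (mem_closedBall_zero_iff.2 (hχR _ (hUit _ hvU m)).le)) (norm_nonneg _)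
  obtain ⟨c, hcZ, hc⟩ := hreal 0 le_rfl one_pos
  rw [Complex.ofReal_zero] at hc
  refine ⟨c, ?_, ?_⟩
  · rw [Multiset.mem_toFinset, mem_roots hP0] at hcZ
    have h1 : P.eval c = 0 := hcZ
    rw [hP, eval_sub, eval_mul, eval_X] at h1
    linear_combination h1
  · -- all ultrafilter limits
    have main : ∀ w : Ultrafilter ℕ, (w : Filter ℕ) ≤ atTop → ∀ v ∈ UG n e,
        Tendsto (fun m : ℕ => χ ((GG n e)^[m] v)) (w : Filter ℕ) (𝓝 c) := by
      intro w hw
      obtain ⟨g, hg1, hg2⟩ := hUL w (UG n e) (fun m v => χ ((GG n e)^[m] v)) hUo (by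
        intro x hx
        obtain ⟨r, hr, hrU⟩ := Metric.isOpen_iff.1 hUo x hx
        refine ⟨r, R, hr, hrU, Eventually.of_forall fun k => ⟨?_, fun y hy =>
          (hχR _ (hUit _ (hrU hy) k)).le⟩⟩
        exact H.hol.comp (iter_diff n e k).differentiableOn fun y hy => hUit _ (hrU hy) k)
      have hlim : ∀ v ∈ UG n e,
          Tendsto (fun m : ℕ => χ ((GG n e)^[m] v)) (w : Filter ℕ) (𝓝 (g v)) :=
        fun v hv => hg2.tendsto_at hv
      -- values on the real segment
      set S : Set ℂ := (fun t : ℝ => (t : ℂ)) '' Ico (0 : ℝ) 1 with hS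
      have hSc : IsPreconnected S :=
        isPreconnected_Ico.image _ Complex.continuous_ofReal.continuousOn
      have hSU : S ⊆ UG n e := by
        rintro _ ⟨t, ht, rfl⟩
        apply hball
        rw [mem_ball_zero_iff, Complex.norm_real, Real.norm_eq_abs, abs_of_nonneg ht.1]
        exact ht.2
      have hmaps : MapsTo g S (P.roots.toFinset : Set ℂ) := by
        rintro _ ⟨t, ht, rfl⟩
        obtain ⟨c', hc', hc2⟩ := hreal t ht.1 ht.2
        have h1 := tendsto_nhds_unique (hlim _ (hSU ⟨t, ht, rfl⟩)) (hc2.mono_left hw)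
        show g ((t : ℝ) : ℂ) ∈ (P.roots.toFinset : Set ℂ)
        rw [h1]
        exact hc'
      have h0S : (0 : ℂ) ∈ S := ⟨0, ⟨le_rfl, one_pos⟩, Complex.ofReal_zero⟩
      have hg0 : g 0 = c := tendsto_nhds_unique (hlim 0 h0U) (hc.mono_left hw)
      have hconst : ∀ z ∈ S, g z = c := by
        intro z hz
        rw [← hg0]
        exact hSc.constant_of_mapsTo (P.roots.toFinset.finite_toSet.isDiscrete)
          (hg1.continuousOn.mono hSU) hmaps hz h0S
      -- identity theorem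
      have hgan : AnalyticOnNhd ℂ g (UG n e) := hg1.analyticOnNhd hUo
      have hfr : ∃ᶠ z in 𝓝[≠] (0 : ℂ), g z = (fun _ => c) z := by
        have ht : Tendsto (fun k : ℕ => ((1 / ((k : ℝ) + 2) : ℝ) : ℂ)) atTop (𝓝[≠] (0 : ℂ)) := by
          rw [tendsto_nhdsWithin_iff]
          constructor
          · have h1 : Tendsto (fun k : ℕ => (1 / ((k : ℝ) + 2) : ℝ)) atTop (𝓝 0) := by
              have h2 : Tendsto (fun k : ℕ => ((k : ℝ) + 2)) atTop atTop :=
                tendsto_atTop_add_const_right _ _ tendsto_natCast_atTop_atTop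
              exact h2.inv_tendsto_atTop.congr fun k => by simp
            have h3 := (Complex.continuous_ofReal.tendsto 0).comp h1
            rw [Complex.ofReal_zero] at h3
            exact h3
          · refine Eventually.of_forall fun k => ?_
            simp only [Set.mem_compl_iff, Set.mem_singleton_iff]
            have : (0 : ℝ) < 1 / ((k : ℝ) + 2) := by positivity
            exact_mod_cast this.ne'
        refine ht.frequently (Eventually.frequently (Eventually.of_forall fun k => ?_))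
        refine hconst _ ⟨1 / ((k : ℝ) + 2), ⟨by positivity, ?_⟩, rfl⟩
        rw [div_lt_one (by positivity)]
        have : (0 : ℝ) ≤ k := Nat.cast_nonneg k
        linarith
      have heq := hgan.eqOn_of_preconnected_of_frequently_eq analyticOnNhd_const hUc h0U hfr
      intro v hv
      have h1 := hlim v hv
      rw [heq hv] at h1
      exact h1
    intro v hv
    rw [tendsto_iff_ultrafilter]
    exact fun w hw => main w hw v hv

end Pool.Agent.MAT
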