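import Pool.Agent.MAT.T

/-!
# MAT: the radial limit, first step (LRP)
-/

set_option autoImplicit false

open Polynomial Metric Set Filter Topology

noncomputable section

namespace Pool.Agent.MAT

namespace LRP_

/-- choose a sequence converging to `z` -/
lemma diag {α : Type*} [PseudoMetricSpace α] (u : Filter ℕ) (hu : u ≤ atTop) (z : α)
    (Q : ℕ → α → Prop)
    (h : ∀ ε : ℝ, 0 < ε → ∀ᶠ k in u, ∃ z' ∈ ball z ε, Q k z') :
    ∃ zk : ℕ → α, Tendsto zk u (𝓝 z) ∧ ∀ᶠ k in u, Q k (zk k) := by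
  classical
  set P : ℕ → ℕ → Prop := fun k m => ∃ z' ∈ ball z (1 / ((m : ℝ) + 1)), Q k z' with hP
  set mk : ℕ → ℕ := fun k => Nat.findGreatest (P k) k with hmk
  set zk : ℕ → α := fun k => if h : P k (mk k) then h.choose else z with hzk
  have key : ∀ M : ℕ, ∀ᶠ k in u, P k (mk k) ∧ M ≤ mk k := by
    intro M
    have h1 := h (1 / ((M : ℝ) + 1)) (by positivity)
    have h2 : ∀ᶠ k in u, M ≤ k := hu (eventually_ge_atTop M)
    filter_upwards [h1, h2] with k hk1 hk2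
    exact ⟨Nat.findGreatest_spec (P := P k) hk2 hk1, Nat.le_findGreatest hk2 hk1⟩
  have hspec : ∀ k, P k (mk k) → zk k ∈ ball z (1 / ((mk k : ℝ) + 1)) ∧ Q k (zk k) := by
    intro k hk
    have h1 : zk k = hk.choose := by rw [hzk]; exact dif_pos hk
    rw [h1]
    exact hk.choose_spec
  refine ⟨zk, ?_, (key 0).mono fun k hk => (hspec k hk.1).2⟩
  rw [Metric.tendsto_nhds]
  intro ε hε
  obtain ⟨M, hM⟩ := exists_nat_one_div_lt hε
  filter_upwards [key M] with k hk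
  have h1 := (hspec k hk.1).1
  rw [mem_ball] at h1
  refine h1.trans (lt_of_le_of_lt ?_ hM)
  refine one_div_le_one_div_of_le (by positivity) ?_
  have : (M : ℝ) ≤ mk k := by exact_mod_cast hk.2
  linarith

/-- values of converging polynomials -/
lemma evalLim (hPCE : T_PCE) {l : Filter ℕ} {d : ℕ} {Pk : ℕ → ℂ[X]} {P : ℂ[X]}
    (h : PConv l d Pk P) {zk : ℕ → ℂ} {z : ℂ} (hz : Tendsto zk l (𝓝 z)) :
    Tendsto (fun k => (Pk k).eval (zk k)) l (𝓝 (P.eval z)) := by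
  have h1 := hPCE l d Pk P h
  refine h1.tendsto_comp (P.continuous.continuousWithinAt) (mem_univ z) ?_
  rw [nhdsWithin_univ]
  exact hz

/-- Hurwitz: converging functions take converging values -/
lemma hurw (hHUR : T_HUR) {l : Filter ℕ} {f : ℕ → ℂ → ℂ} {g : ℂ → ℂ} {U : Set ℂ} {x : ℂ}
    {wk : ℕ → ℂ} {r : ℝ} (hr : 0 < r) (hrU : ball x r ⊆ U)
    (hg : DifferentiableOn ℂ g U) (hf : ∀ᶠ k in l, DifferentiableOn ℂ (f k) (ball x r))
    (hlim : TendstoLocallyUniformlyOn f g l U) (hw : Tendsto wk l (𝓝 (g x)))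
    (hnc : ¬ ∀ᶠ z in 𝓝 x, g z = g x) :
    ∀ ε : ℝ, 0 < ε → ∀ᶠ k in l, ∃ z ∈ ball x ε, f k z = wk k := by
  intro ε hε
  have hconst : TendstoLocallyUniformlyOn (fun (k : ℕ) (_ : ℂ) => wk k) (fun _ => g x) l
      (ball x r) := by
    rw [Metric.tendstoLocallyUniformlyOn_iff]
    intro δ hδ y hy
    refine ⟨ball x r, self_mem_nhdsWithin, ?_⟩
    filter_upwards [(Metric.tendsto_nhds.1 hw) δ hδ] with k hk z _
    rw [dist_comm]
    exact hk
  have h1 := hHUR l (fun k z => f k z - wk k) (fun z => g z - g x) x r hr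
    ((hg.mono hrU).sub (differentiableOn_const _))
    (hf.mono fun k hk => hk.sub (differentiableOn_const _))
    ((hlim.mono hrU).sub hconst) (sub_self _)
    (fun h => hnc (h.mono fun z hz => sub_eq_zero.1 hz)) ε hε
  exact h1.mono fun k ⟨z, hz, hz2⟩ => ⟨z, hz, sub_eq_zero.1 hz2⟩

/-- an injective function is not locally constant -/
lemma not_const {g : ℂ → ℂ} {U : Set ℂ} {x : ℂ} (hU : IsOpen U) (hx : x ∈ U) (hg : InjOn g U) :
    ¬ ∀ᶠ z in 𝓝 x, g z = g x := by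
  intro h
  have h1 : ∀ᶠ z in 𝓝[≠] x, g z = g x := h.filter_mono nhdsWithin_le_nhds
  have h2 : ∀ᶠ z in 𝓝[≠] x, z ∈ U := (hU.mem_nhds hx) |> mem_nhdsWithin_of_mem_nhds
  have h3 : ∀ᶠ z in 𝓝[≠] x, z ≠ x := self_mem_nhdsWithin
  obtain ⟨z, hz1, hz2, hz3⟩ := (h1.and (h2.and h3)).exists
  exact hz3 (hg hz2 hx hz1)

/-- the Wronskian is not zero -/
lemma wr_ne {n : ℕ} {N D : ℂ[X]} (hn : 1 ≤ n) (h : NDeg n N D) : wr N D ≠ 0 := by
  intro h0
  unfold wr at h0
  have h1 : derivative N * D = N * derivative D := sub_eq_zero.1 h0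
  have h2 : N ∣ derivative N * D := ⟨_, h1⟩
  have h3 : N ∣ derivative N := h.cop.dvd_of_dvd_mul_right h2
  have hN0 : N.natDegree ≠ 0 := by rw [h.deg]; omega
  have h4 : derivative N ≠ 0 := by
    intro h5
    exact hN0 (derivative_eq_zero.1 h5)
  have h5 := natDegree_le_of_dvd h3 h4
  have h6 := natDegree_derivative_lt hN0
  omega

end LRP_

open LRP_ in
theorem p_LRP (hUL : T_UL) (hHINJ : T_HINJ) (hHUR : T_HUR) (hPCE : T_PCE) (hPCW : T_PCW)
    (hPCR : T_PCR) (hLAM : T_LAM) (hLYR : T_LYR) (hLPM : T_LPM) (hGBS : T_GBS) (hGBA : T_GBA)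
    (hGEL : T_GEL) : T_LRP := by
  intro n e A ρ R N D u Nk Dk ϕk χk hn he he2 hA hρ hND hu hN hD hP
  have hn2 : 2 ≤ n := by omega
  set μ : ℕ → ℂ := fun k => ((1 - 1 / ((k : ℝ) + 2) : ℝ) : ℂ) with hμ
  have hμ1 : Tendsto μ (u : Filter ℕ) (𝓝 1) := by
    have h1 : Tendsto (fun k : ℕ => (1 - 1 / ((k : ℝ) + 2) : ℝ)) atTop (𝓝 (1 - 0)) := by
      refine tendsto_const_nhds.sub ?_
      have := tendsto_one_div_add_atTop_nhds_zero_nat (𝕜 := ℝ)
      have h2 := (tendsto_add_atTop_iff_nat 1).2 this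
      refine h2.congr fun k => ?_
      push_cast
      ring
    rw [sub_zero] at h1
    have h2 := (Complex.continuous_ofReal.tendsto 1).comp h1
    rw [Complex.ofReal_one] at h2
    exact h2.mono_left hu
  obtain ⟨hUo, hUc, -, hUinv, -, -, -, -, -, -, -, hU0, hUe⟩ := hGBA n e hn he he2
  obtain ⟨-, hBS⟩ := hGBS n e hn he he2
  have hBS' : ∀ x ∈ UG n e, ∃ r : ℝ, 0 < r ∧ ball x r ⊆ UG n e ∧
      ∀ᶠ k : ℕ in (u : Filter ℕ), ball x r ⊆ Bas n e (μ k) := by
    intro x hx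
    obtain ⟨r, hr, hr1, hr2⟩ := hBS x hx
    exact ⟨r, hr, hr1, hu hr2⟩
  obtain ⟨hG1, hGd, -, -, -, -, -, -, ⟨R₀, hR₀, hGR⟩, -, -⟩ := hGEL n e hn he he2
  have hGc : Continuous (GG n e) :=
    continuous_iff_continuousAt.2 fun v => (hGd v).continuousAt
  have hL : ∀ᶠ k in (u : Filter ℕ),
      (wr (Nk k) (Dk k)).eval (χk k 1) = μ k * (Dk k).eval (χk k 1) ^ 2 ∧
      (Nk k).eval (χk k 1) = χk k 1 * (Dk k).eval (χk k 1) ∧
      (wr (Nk k) (Dk k)).eval (χk k 0) = 0 ∧ (wr (Nk k) (Dk k)).eval (χk k (-(e : ℂ))) = 0 ∧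
      (∀ v ∈ Bas n e (μ k), (Dk k).eval (χk k v) ≠ 0) ∧ (∀ v ∈ Bas n e (μ k), ‖χk k v‖ < R) :=
    hP.mono fun k hk => hLPM n e A ρ (μ k) (Nk k) (Dk k) R (ϕk k) (χk k) hn he he2 hA hk
  -- the side of `A`
  obtain ⟨yk, y, hy0, hyk, hyr⟩ := hLYR n u Nk Dk N D hn2 hND hN hD
    (hP.mono fun k hk => ⟨hk.deg, hk.zero, hk.rep⟩)
  have hyout : ∀ᶠ k in (u : Filter ℕ), yk k ∉ Out (ϕk k) := by
    filter_upwards [hP, hyr] with k hk hk2 hmem
    obtain ⟨ζ, hζ, hζ2⟩ := hmem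
    have h1 := hk.aside.conj ζ hζ (yk k) hζ2
    rw [hk2, zero_mul] at h1
    obtain ⟨a, b, hab⟩ := hk.deg.cop
    have h2 := congrArg (Polynomial.eval (yk k)) hab
    rw [eval_add, eval_mul, eval_mul, hk2, ← h1, mul_zero, mul_zero, add_zero, eval_one] at h2
    exact zero_ne_one h2
  obtain ⟨ϕ, hϕlim, hϕ⟩ := hLAM n A u Nk Dk N D R ϕk yk y hn2 hA hND
    (hP.mono fun k hk => hk.aside) hN hD hyout hyk hy0
  -- the side of the basin
  obtain ⟨χ, hχd, hχlim⟩ := hUL u (UG n e) χk hUo (fun x hx => by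
    obtain ⟨r, hr, hr1, hr2⟩ := hBS' x hx
    refine ⟨r, R, hr, hr1, ?_⟩
    filter_upwards [hr2, hP, hL] with k hk1 hk2 hk3
    exact ⟨hk2.hol.mono hk1, fun y hy => (hk3.2.2.2.2.2 y (hk1 hy)).le⟩)
  have hmemB : ∀ x ∈ UG n e, ∀ᶠ k in (u : Filter ℕ), x ∈ Bas n e (μ k) := by
    intro x hx
    obtain ⟨r, hr, -, hr2⟩ := hBS' x hx
    exact hr2.mono fun k hk => hk (mem_ball_self hr)
  -- convergence of values
  have hχcomp : ∀ x ∈ UG n e, ∀ xk : ℕ → ℂ, Tendsto xk (u : Filter ℕ) (𝓝 x) →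
      Tendsto (fun k => χk k (xk k)) (u : Filter ℕ) (𝓝 (χ x)) := by
    intro x hx xk hxk
    refine hχlim.tendsto_comp (hχd.continuousOn x hx) hx ?_
    rw [hUo.nhdsWithin_eq hx]
    exact hxk
  have hFlim : ∀ (x : ℂ) (xk : ℕ → ℂ), Tendsto xk (u : Filter ℕ) (𝓝 x) →
      Tendsto (fun k => GF n e (μ k) (xk k)) (u : Filter ℕ) (𝓝 (GG n e x)) := by
    intro x xk hxk
    have h1 : Tendsto (fun k => GG n e (xk k)) (u : Filter ℕ) (𝓝 (GG n e x)) :=
      (hGc.tendsto x).comp hxk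
    have h2 : Tendsto (fun k => 1 + μ k * (GG n e (xk k) - 1)) (u : Filter ℕ)
        (𝓝 (1 + 1 * (GG n e x - 1))) :=
      tendsto_const_nhds.add (hμ1.mul (h1.sub tendsto_const_nhds))
    rw [one_mul, add_sub_cancel] at h2
    exact h2
  have hW := (hPCW (u : Filter ℕ) n Nk Dk N D hN hD).1
  -- the point `q`
  have h1B : ∀ k, (1 : ℂ) ∈ Bas n e (μ k) := by
    intro k
    have h1 : GF n e (μ k) 1 = 1 := by unfold GF; rw [hG1]; ring
    have h2 : ∀ m : ℕ, (GF n e (μ k))^[m] 1 = 1 := fun m => Function.iterate_fixed h1 m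
    unfold Bas
    simp only [mem_ofPred_eq, h2]
    exact tendsto_const_nhds
  obtain ⟨q, -, hq⟩ : ∃ q ∈ closedBall (0 : ℂ) R,
      Tendsto (fun k => χk k 1) (u : Filter ℕ) (𝓝 q) := by
    have hc : IsCompact (closedBall (0 : ℂ) R) := isCompact_closedBall _ _
    have h1 : ((u.map fun k => χk k 1 : Ultrafilter ℂ) : Filter ℂ) ≤ 𝓟 (closedBall (0 : ℂ) R) := by
      rw [le_principal_iff]
      change ∀ᶠ k in (u : Filter ℕ), χk k 1 ∈ closedBall (0 : ℂ) R
      filter_upwards [hL] with k hk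
      rw [mem_closedBall_zero_iff]
      exact (hk.2.2.2.2.2 1 (h1B k)).le
    obtain ⟨q, hq1, hq2⟩ := hc.ultrafilter_le_nhds _ h1
    exact ⟨q, hq1, hq2⟩
  refine ⟨ϕ, χ, q, ?_⟩
  refine ⟨hND, hϕ, hχd, ?_, ?_, ?_, ?_, ?_, ?_, ?_, ?_⟩
  · -- dich
    refine hHINJ (u : Filter ℕ) χk χ (UG n e) inferInstance hUo hUc hχd hχlim ?_
    intro a ha b hb
    obtain ⟨r, hr, -, hr2⟩ := hBS' b hb
    refine ⟨r, hr, ?_⟩
    filter_upwards [hr2, hP, hmemB a ha] with k hk1 hk2 hk3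
    exact ⟨hk2.hol.mono hk1, hk2.inj.mono (insert_subset hk3 hk1)⟩
  · -- conj
    intro v hv
    have h1 : Tendsto (fun k => χk k v) (u : Filter ℕ) (𝓝 (χ v)) :=
      hχcomp v hv _ tendsto_const_nhds
    have h2 : Tendsto (fun k => χk k (GF n e (μ k) v)) (u : Filter ℕ) (𝓝 (χ (GG n e v))) :=
      hχcomp _ ((hUinv v).2 hv) _ (hFlim v _ tendsto_const_nhds)
    have h3 := evalLim hPCE hN h1
    have h4 := h2.mul (evalLim hPCE hD h1)
    refine tendsto_nhds_unique h3 (h4.congr' ?_)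
    filter_upwards [hP, hmemB v hv] with k hk1 hk2
    exact (hk1.conj v hk2).symm
  · -- back
    intro hinj v hv z hz
    have hDz : D.eval z ≠ 0 := by
      intro h0
      rw [h0, mul_zero] at hz
      obtain ⟨a, b, hab⟩ := hND.cop
      have h2 := congrArg (Polynomial.eval z) hab
      rw [eval_add, eval_mul, eval_mul, hz, h0, mul_zero, mul_zero, add_zero, eval_one] at h2
      exact zero_ne_one h2
    have hNz := evalLim hPCE hN (tendsto_const_nhds (x := z) (f := (u : Filter ℕ)))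
    have hDzk := evalLim hPCE hD (tendsto_const_nhds (x := z) (f := (u : Filter ℕ)))
    have hwk : Tendsto (fun k => (Nk k).eval z / (Dk k).eval z) (u : Filter ℕ) (𝓝 (χ v)) := by
      have h1 := hNz.div hDzk hDz
      rwa [hz, mul_div_assoc, div_self hDz, mul_one] at h1
    have hDk0 : ∀ᶠ k in (u : Filter ℕ), (Dk k).eval z ≠ 0 := hDzk.eventually_ne hDz
    obtain ⟨r, hr, hr1, hr2⟩ := hBS' v hv
    have hval := hurw hHUR hr hr1 hχd (by
      filter_upwards [hr2, hP] with k hk1 hk2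
      exact hk2.hol.mono hk1) hχlim hwk (not_const hUo hv hinj)
    obtain ⟨vk, hvk, hvk2⟩ := diag (u : Filter ℕ) hu v
      (fun k z' => χk k z' = (Nk k).eval z / (Dk k).eval z) hval
    have hvkB : ∀ᶠ k in (u : Filter ℕ), vk k ∈ Bas n e (μ k) := by
      filter_upwards [hr2, hvk (ball_mem_nhds v hr)] with k hk1 hk2
      exact hk1 hk2
    have hex : ∀ᶠ k in (u : Filter ℕ), ∃ v' ∈ Bas n e (μ k), GF n e (μ k) v' = vk k ∧
        χk k v' = z := by
      filter_upwards [hP, hvkB, hvk2, hDk0] with k hk1 hk2 hk3 hk4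
      refine hk1.back (vk k) hk2 z ?_
      rw [hk3, div_mul_cancel₀ _ hk4]
    classical
    set v' : ℕ → ℂ := fun k => if h : ∃ v' ∈ Bas n e (μ k), GF n e (μ k) v' = vk k ∧
        χk k v' = z then h.choose else 0 with hv'
    have hv'1 : ∀ᶠ k in (u : Filter ℕ), GF n e (μ k) (v' k) = vk k ∧ χk k (v' k) = z := by
      filter_upwards [hex] with k hk
      have h1 : v' k = hk.choose := by rw [hv']; exact dif_pos hk
      rw [h1]
      exact hk.choose_spec.2
    -- boundedness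
    have hbdd : ∀ᶠ k in (u : Filter ℕ), v' k ∈ closedBall (0 : ℂ) (R₀ + ‖v‖ + 2) := by
      have h1 : ∀ᶠ k in (u : Filter ℕ), 1 / 2 < ‖μ k‖ := by
        have := hμ1.norm
        rw [norm_one] at this
        exact this.eventually (lt_mem_nhds (by norm_num))
      have h2 : ∀ᶠ k in (u : Filter ℕ), ‖1 - μ k‖ < 1 := by
        have := (tendsto_const_nhds (x := (1 : ℂ))).sub hμ1
        rw [sub_self] at this
        have h3 := this.norm
        rw [norm_zero] at h3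
        exact h3.eventually (gt_mem_nhds one_pos)
      have h3 : ∀ᶠ k in (u : Filter ℕ), ‖vk k‖ < ‖v‖ + 1 :=
        hvk.norm.eventually (gt_mem_nhds (by linarith))
      filter_upwards [h1, h2, h3, hv'1] with k hk1 hk2 hk3 hk4
      rw [mem_closedBall_zero_iff]
      by_contra hcon
      push Not at hcon
      have h4 : R₀ ≤ ‖v' k‖ := by linarith [norm_nonneg v]
      have h5 := hGR (v' k) h4
      have h6 : vk k = μ k * GG n e (v' k) + (1 - μ k) := by
        rw [← hk4.1]; unfold GF; ring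
      have h7 : ‖μ k * GG n e (v' k)‖ ≤ ‖vk k‖ + ‖1 - μ k‖ := by
        have : μ k * GG n e (v' k) = vk k - (1 - μ k) := by rw [h6]; ring
        rw [this]
        exact norm_sub_le _ _
      rw [norm_mul] at h7
      have h8 : 1 / 2 * (2 * ‖v' k‖) ≤ ‖μ k‖ * ‖GG n e (v' k)‖ :=
        mul_le_mul hk1.le h5 (by positivity) (norm_nonneg _)
      linarith
    obtain ⟨v₁, hv₁⟩ : ∃ v₁ : ℂ, Tendsto v' (u : Filter ℕ) (𝓝 v₁) := by
      have hc : IsCompact (closedBall (0 : ℂ) (R₀ + ‖v‖ + 2)) := isCompact_closedBall _ _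
      have h1 : ((u.map v' : Ultrafilter ℂ) : Filter ℂ) ≤
          𝓟 (closedBall (0 : ℂ) (R₀ + ‖v‖ + 2)) := by
        rw [le_principal_iff]
        exact hbdd
      obtain ⟨q, hq1, hq2⟩ := hc.ultrafilter_le_nhds _ h1
      exact ⟨q, hq2⟩
    have hGv : GG n e v₁ = v := by
      refine tendsto_nhds_unique ((hFlim v₁ v' hv₁).congr' ?_) hvk
      filter_upwards [hv'1] with k hk
      exact hk.1
    have hv₁U : v₁ ∈ UG n e := (hUinv v₁).1 (by rw [hGv]; exact hv)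
    refine ⟨v₁, hv₁U, hGv, ?_⟩
    refine tendsto_nhds_unique ((hχcomp v₁ hv₁U v' hv₁).congr' ?_) tendsto_const_nhds
    filter_upwards [hv'1] with k hk
    exact hk.2
  · -- cross
    intro v hv hmem
    obtain ⟨ζ, hζ, hζ2⟩ := hmem
    have hχv : χ v ≠ 0 := by
      intro h0
      rw [h0, mul_zero] at hζ2
      exact zero_ne_one hζ2
    have h1 : Tendsto (fun k => χk k v) (u : Filter ℕ) (𝓝 (χ v)) :=
      hχcomp v hv _ tendsto_const_nhds
    have hw : Tendsto (fun k => (χk k v)⁻¹) (u : Filter ℕ) (𝓝 (ϕ ζ)) := by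
      rw [eq_inv_of_mul_eq_one_left hζ2]
      exact h1.inv₀ hχv
    have hr : 0 < 1 - ‖ζ‖ := by
      have := mem_ball_zero_iff.1 hζ
      linarith
    have hrU : ball ζ (1 - ‖ζ‖) ⊆ ball (0 : ℂ) 1 := by
      intro x hx
      rw [mem_ball_zero_iff]
      rw [mem_ball, dist_eq_norm] at hx
      calc ‖x‖ = ‖(x - ζ) + ζ‖ := by ring_nf
        _ ≤ ‖x - ζ‖ + ‖ζ‖ := norm_add_le _ _
        _ < 1 := by linarith
    have hval := hurw hHUR hr hrU hϕ.hol (hP.mono fun k hk => hk.aside.hol.mono hrU) hϕlim hw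
      (not_const isOpen_ball hζ hϕ.inj) (1 - ‖ζ‖) hr
    obtain ⟨k, ⟨ζ', hζ', hζ'2⟩, hk2, hk3, hk4⟩ := (hval.and (hP.and ((hmemB v hv).and
      (h1.eventually_ne hχv)))).exists
    refine hk2.cross v hk3 ⟨ζ', hrU hζ', ?_⟩
    rw [hζ'2, inv_mul_cancel₀ hk4]
  · -- crit
    intro z hz
    have hroots := hPCR (u : Filter ℕ) (2 * n) _ (wr N D) z hW (wr_ne (by omega) hND) hz
    obtain ⟨zk, hzk, hzk2⟩ := diag (u : Filter ℕ) hu z
      (fun k z' => (wr (Nk k) (Dk k)).eval z' = 0) hroots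
    have htri : ∀ᶠ k in (u : Filter ℕ), (∃ ζ, ‖ζ‖ ≤ ρ ∧ ϕk k ζ * zk k = 1) ∨
        zk k = χk k 0 ∨ zk k = χk k (-(e : ℂ)) := by
      filter_upwards [hP, hzk2] with k hk1 hk2
      exact hk1.crit _ hk2
    rcases Ultrafilter.eventually_or.1 htri with h | h
    · left
      classical
      set ζk : ℕ → ℂ := fun k => if h : ∃ ζ, ‖ζ‖ ≤ ρ ∧ ϕk k ζ * zk k = 1 then h.choose else 0
        with hζk
      have hζ1 : ∀ᶠ k in (u : Filter ℕ), ‖ζk k‖ ≤ ρ ∧ ϕk k (ζk k) * zk k = 1 := by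
        filter_upwards [h] with k hk
        have h1 : ζk k = hk.choose := by rw [hζk]; exact dif_pos hk
        rw [h1]
        exact hk.choose_spec
      have hc : IsCompact (closedBall (0 : ℂ) ρ) := isCompact_closedBall _ _
      have h1 : ((u.map ζk : Ultrafilter ℂ) : Filter ℂ) ≤ 𝓟 (closedBall (0 : ℂ) ρ) := by
        rw [le_principal_iff]
        change ∀ᶠ k in (u : Filter ℕ), ζk k ∈ closedBall (0 : ℂ) ρ
        filter_upwards [hζ1] with k hk
        rw [mem_closedBall_zero_iff]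
        exact hk.1
      obtain ⟨ζ, hζ, hζ2⟩ := hc.ultrafilter_le_nhds _ h1
      have hζball : ζ ∈ ball (0 : ℂ) 1 := by
        rw [mem_ball_zero_iff]
        rw [mem_closedBall_zero_iff] at hζ
        linarith
      refine ⟨ζ, hζball, ?_⟩
      have h2 : Tendsto (fun k => ϕk k (ζk k)) (u : Filter ℕ) (𝓝 (ϕ ζ)) := by
        refine hϕlim.tendsto_comp (hϕ.hol.continuousOn ζ hζball) hζball ?_
        rw [isOpen_ball.nhdsWithin_eq hζball]
        exact hζ2
      refine tendsto_nhds_unique (h2.mul hzk) (tendsto_const_nhds.congr' ?_)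
      filter_upwards [hζ1] with k hk
      exact hk.2.symm
    · right
      rcases Ultrafilter.eventually_or.1 h with h | h
      · left
        exact tendsto_nhds_unique hzk ((hχcomp 0 hU0 _ tendsto_const_nhds).congr' (h.mono
          fun k hk => hk.symm))
      · right
        exact tendsto_nhds_unique hzk ((hχcomp _ hUe _ tendsto_const_nhds).congr' (h.mono
          fun k hk => hk.symm))
  · -- crit0
    have h1 := evalLim hPCE hW (hχcomp 0 hU0 _ tendsto_const_nhds)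
    refine tendsto_nhds_unique (h1.congr' ?_) tendsto_const_nhds
    filter_upwards [hL] with k hk
    exact hk.2.2.1
  · -- fixq
    have h1 := evalLim hPCE hN hq
    have h2 := hq.mul (evalLim hPCE hD hq)
    refine tendsto_nhds_unique h1 (h2.congr' ?_)
    filter_upwards [hL] with k hk
    exact hk.2.1.symm
  · -- mulq
    have h1 := evalLim hPCE hW hq
    have h2 := hμ1.mul ((evalLim hPCE hD hq).pow 2)
    rw [one_mul] at h2
    refine tendsto_nhds_unique h1 (h2.congr' ?_)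
    filter_upwards [hL] with k hk
    exact hk.1.symm

end Pool.Agent.MAT
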