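import Pool.Agent.MAT.T

/-!
# MAT: LSQ, no branch jump of the logarithm in the strip (from ZZ)
-/

set_option autoImplicit false

open Polynomial Metric Set Filter Topology

noncomputable section

namespace Pool.Agent.MAT

namespace LSQ_

lemma kap_norm (S : ℝ) (k : ℕ) : (k : ℝ) ≤ ‖kap S k‖ := by
  have h := Complex.abs_re_le_norm (kap S k)
  have h1 : (kap S k).re = k := by simp [kap]
  rw [h1, abs_of_nonneg (Nat.cast_nonneg k)] at h
  exact h

lemma ell_eq (S : ℝ) (k : ℕ) : ell S k = 2 * Real.pi * Complex.I / kap S k := rfl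

/-- the logarithm is evaluated in the slit plane -/
lemma slit (t : ℂ) (h0 : 0 < t.re) (h1 : t.re < 1) :
    1 - Complex.exp (2 * Real.pi * Complex.I * t) ∈ Complex.slitPlane := by
  have hre : (2 * (Real.pi : ℂ) * Complex.I * t).re = -(2 * Real.pi * t.im) := by
    simp
  have him : (2 * (Real.pi : ℂ) * Complex.I * t).im = 2 * Real.pi * t.re := by
    simp
  have hpi := Real.pi_pos
  have e1 : (1 - Complex.exp (2 * Real.pi * Complex.I * t)).re =
      1 - Real.exp (-(2 * Real.pi * t.im)) * Real.cos (2 * Real.pi * t.re) := by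
    rw [Complex.sub_re, Complex.exp_re, hre, him, Complex.one_re]
  have e2 : (1 - Complex.exp (2 * Real.pi * Complex.I * t)).im =
      -(Real.exp (-(2 * Real.pi * t.im)) * Real.sin (2 * Real.pi * t.re)) := by
    rw [Complex.sub_im, Complex.exp_im, hre, him, Complex.one_im, zero_sub]
  have hE := Real.exp_pos (-(2 * Real.pi * t.im))
  rw [Complex.mem_slitPlane_iff]
  rcases lt_trichotomy (2 * Real.pi * t.re) Real.pi with h | h | h
  · right
    rw [e2]
    have hs := Real.sin_pos_of_pos_of_lt_pi (by positivity) h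
    have := mul_pos hE hs
    exact ne_of_lt (by linarith)
  · left
    rw [e1, h, Real.cos_pi]
    linarith
  · right
    rw [e2]
    have hs : Real.sin (2 * Real.pi * t.re) < 0 := by
      have h2 : 2 * Real.pi * t.re - 2 * Real.pi < 0 := by nlinarith
      have h3 : -Real.pi < 2 * Real.pi * t.re - 2 * Real.pi := by linarith
      have h4 := Real.sin_neg_of_neg_of_neg_pi_lt h2 h3
      rwa [Real.sin_sub_two_pi] at h4
    have := mul_neg_of_pos_of_neg hE hs
    exact ne_of_gt (by linarith)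

lemma lin (κ : ℂ) : IsLinearMap ℝ (fun σ : ℂ => (σ / κ).re) where
  map_add x y := by rw [add_div, Complex.add_re]
  map_smul c x := by
    rw [Complex.real_smul, mul_div_assoc, Complex.re_ofReal_mul, smul_eq_mul]

end LSQ_

open LSQ_ in
/-- LSQ: no branch jump of the logarithm in the strip. -/
theorem p_LSQ (hZ : T_ZZ) : T_LSQ := by
  obtain ⟨C, hC, hZ⟩ := hZ
  refine ⟨24 * C, by positivity, fun S hS => ?_⟩
  obtain ⟨k₀, hk₀⟩ := hZ S hS
  refine ⟨max k₀ 1, fun k hk τ τ' h1 h2 h3 h4 h5 h6 h7 => ?_⟩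
  have hk0 : k₀ ≤ k := le_trans (le_max_left _ _) hk
  have hk1 : 1 ≤ k := le_trans (le_max_right _ _) hk
  have hkr : (0 : ℝ) < k := by exact_mod_cast hk1
  set κ := kap S k with hκdef
  have hκ : (k : ℝ) ≤ ‖κ‖ := kap_norm S k
  have hκ0 : κ ≠ 0 := by
    intro h
    rw [h, norm_zero] at hκ
    linarith
  have hell : ell S k = 2 * Real.pi * Complex.I / κ := ell_eq S k
  have hln : ‖ell S k‖ ≤ 2 * Real.pi / k := by
    rw [hell, norm_div]
    have h8 : ‖(2 * (Real.pi : ℂ) * Complex.I)‖ = 2 * Real.pi := by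
      simp [abs_of_pos Real.pi_pos]
    rw [h8]
    exact div_le_div_of_nonneg_left (by positivity) hkr hκ
  set s : Set ℂ := ({σ : ℂ | 0 < (σ / κ).re} ∩ {σ : ℂ | (σ / κ).re < 1}) ∩ closedBall τ 2
    with hs
  have hconv : Convex ℝ s :=
    ((convex_halfSpace_gt (lin κ) 0).inter (convex_halfSpace_lt (lin κ) 1)).inter
      (convex_closedBall τ 2)
  have hτs : τ ∈ s := ⟨⟨h1, h2⟩, mem_closedBall_self (by norm_num)⟩
  have hτs' : τ' ∈ s := ⟨⟨h3, h4⟩, by rwa [mem_closedBall_iff_norm]⟩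
  have hmul : ∀ σ : ℂ, ell S k * σ = 2 * Real.pi * Complex.I * (σ / κ) := by
    intro σ
    rw [hell]
    ring
  have hder : ∀ σ ∈ s, HasDerivWithinAt
      (fun σ : ℂ => Complex.log (1 - Complex.exp (ell S k * σ)))
      (-(Complex.exp (ell S k * σ) * ell S k) / (1 - Complex.exp (ell S k * σ))) s σ := by
    intro σ hσ
    have hsl : 1 - Complex.exp (ell S k * σ) ∈ Complex.slitPlane := by
      rw [hmul σ]
      exact slit _ hσ.1.1 hσ.1.2
    have d1 : HasDerivAt (fun σ : ℂ => ell S k * σ) (ell S k) σ := by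
      simpa using (hasDerivAt_id σ).const_mul (ell S k)
    have d2 : HasDerivAt (fun σ : ℂ => 1 - Complex.exp (ell S k * σ))
        (-(Complex.exp (ell S k * σ) * ell S k)) σ := d1.cexp.const_sub 1
    exact (d2.clog hsl).hasDerivWithinAt
  have hbd : ∀ σ ∈ s,
      ‖-(Complex.exp (ell S k * σ) * ell S k) / (1 - Complex.exp (ell S k * σ))‖ ≤
        12 * C * (1 / k + 1 / ‖τ‖ + 1 / ‖τ - κ‖) := by
    intro σ hσ
    have hd : ‖σ - τ‖ ≤ 2 := by
      have := hσ.2
      rwa [mem_closedBall_iff_norm] at this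
    have n1 : 3 / 4 * ‖τ‖ ≤ ‖σ‖ := by
      have h8 : ‖τ‖ ≤ ‖σ‖ + ‖σ - τ‖ := by
        have := norm_sub_le σ (σ - τ)
        rwa [sub_sub_cancel] at this
      linarith
    have n2 : 3 / 4 * ‖τ - κ‖ ≤ ‖σ - κ‖ := by
      have h8 : ‖τ - κ‖ ≤ ‖σ - κ‖ + ‖σ - τ‖ := by
        have := norm_sub_le (σ - κ) (σ - τ)
        rwa [sub_sub_sub_cancel_left] at this
      linarith
    have p1 : 0 < ‖σ‖ := by linarith
    have p2 : 0 < ‖σ - κ‖ := by linarith
    have p3 : 0 < ‖τ‖ := by linarith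
    have p4 : 0 < ‖τ - κ‖ := by linarith
    have hσ0 : σ ≠ 0 := norm_pos_iff.mp p1
    have hσκ : σ ≠ κ := sub_ne_zero.mp (norm_pos_iff.mp p2)
    obtain ⟨z1, z2, -⟩ := hk₀ k hk0 σ hσ.1.1.le hσ.1.2.le hσ0 hσκ
    have hEne : Complex.exp (ell S k * σ) ≠ 0 := Complex.exp_ne_zero _
    have hne1 : 1 - Complex.exp (ell S k * σ) ≠ 0 := by
      intro h9
      apply z1
      rw [Complex.exp_neg, ← sub_eq_zero.mp h9, inv_one]
    have heq : -(Complex.exp (ell S k * σ) * ell S k) / (1 - Complex.exp (ell S k * σ)) =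
        ell S k * (1 / (1 - Complex.exp (-(ell S k * σ)))) := by
      have hne2 : 1 - (Complex.exp (ell S k * σ))⁻¹ ≠ 0 := by
        rw [← Complex.exp_neg]
        exact sub_ne_zero.mpr z1.symm
      rw [Complex.exp_neg]
      rw [div_eq_iff hne1, mul_one_div, div_mul_eq_mul_div, eq_div_iff hne2]
      field_simp
      ring
    rw [heq, norm_mul]
    have b1 : (k : ℝ) / ‖σ‖ ≤ 4 / 3 * (k / ‖τ‖) := by
      rw [div_le_iff₀ p1]
      have : (k : ℝ) / ‖τ‖ * ‖τ‖ = k := div_mul_cancel₀ _ p3.ne'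
      have h9 : 0 ≤ (k : ℝ) / ‖τ‖ := by positivity
      nlinarith
    have b2 : (k : ℝ) / ‖σ - κ‖ ≤ 4 / 3 * (k / ‖τ - κ‖) := by
      rw [div_le_iff₀ p2]
      have : (k : ℝ) / ‖τ - κ‖ * ‖τ - κ‖ = k := div_mul_cancel₀ _ p4.ne'
      have h9 : 0 ≤ (k : ℝ) / ‖τ - κ‖ := by positivity
      nlinarith
    have hX : ‖1 / (1 - Complex.exp (-(ell S k * σ)))‖ ≤
        C * (4 / 3 * (1 + k / ‖τ‖ + k / ‖τ - κ‖)) :=
      le_trans z2 (mul_le_mul_of_nonneg_left (by linarith) hC.le)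
    have hY : 0 ≤ C * (4 / 3 * (1 + k / ‖τ‖ + k / ‖τ - κ‖)) := by positivity
    calc ‖ell S k‖ * ‖1 / (1 - Complex.exp (-(ell S k * σ)))‖
        ≤ (2 * Real.pi / k) * (C * (4 / 3 * (1 + k / ‖τ‖ + k / ‖τ - κ‖))) :=
          mul_le_mul hln hX (norm_nonneg _) (by positivity)
      _ = (8 / 3 * Real.pi) * (C * (1 / k + 1 / ‖τ‖ + 1 / ‖τ - κ‖)) := by
          field_simp
          ring
      _ ≤ 12 * (C * (1 / k + 1 / ‖τ‖ + 1 / ‖τ - κ‖)) := by
          apply mul_le_mul_of_nonneg_right _ (by positivity)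
          have := Real.pi_le_four
          linarith
      _ = 12 * C * (1 / k + 1 / ‖τ‖ + 1 / ‖τ - κ‖) := by ring
  have hfin := hconv.norm_image_sub_le_of_norm_hasDerivWithin_le hder hbd hτs hτs'
  refine le_trans hfin ?_
  have hpos : 0 ≤ 12 * C * (1 / k + 1 / ‖τ‖ + 1 / ‖τ - κ‖) := by positivity
  calc 12 * C * (1 / k + 1 / ‖τ‖ + 1 / ‖τ - κ‖) * ‖τ' - τ‖
      ≤ 12 * C * (1 / k + 1 / ‖τ‖ + 1 / ‖τ - κ‖) * 2 := mul_le_mul_of_nonneg_left h5 hpos
    _ = 24 * C * (1 / k + 1 / ‖τ‖ + 1 / ‖τ - κ‖) := by ring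

end Pool.Agent.MAT
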