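import Pool.Agent.MAT.T

/-! # MAT: proof of the target LTF (the full passage) -/

set_option autoImplicit false

open Polynomial Metric Set Filter Topology

noncomputable section

namespace Pool.Agent.MAT

namespace LTF_

theorem cc_ball {l : Filter ℕ} {gk : ℕ → ℂ → ℂ} {g : ℂ → ℂ} {p : ℂ} {r : ℝ}
    (hg : DifferentiableOn ℂ g (ball p r)) (hu : TendstoUniformlyOn gk g l (ball p r))
    {y : ℂ} (hy : y ∈ ball p r) : CC l gk g y := by
  intro yk hyk
  have hcont : ContinuousAt g y :=
    (hg.continuousOn).continuousAt (isOpen_ball.mem_nhds hy)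
  refine tendsto_comp_of_locally_uniform_limit hcont hyk ?_
  intro u hu'
  exact ⟨ball p r, isOpen_ball.mem_nhds hy, hu u hu'⟩

end LTF_

theorem p_LTF (h : T_LTM) : T_LTF := by
  intro g p a K r hr hg
  obtain ⟨Y, hY⟩ := K.E_up (r / 2) (by positivity)
  refine ⟨Y, ?_⟩
  intro S l gk qk xk x w hl hS hd hu hm hq hx hc hp hw
  obtain ⟨M, hM⟩ := h g p a K r hr hg S l gk qk xk x w hl hS hd hu hm hq hx hc hp
  have h0 := hM M le_rfl
  have key : ∀ j : ℕ, Tendsto (fun k => (gk k)^[j] ((gk k)^[k - M] (xk k))) l
      (𝓝 (K.E (w + S * Complex.I - M + j))) := by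
    intro j
    induction j with
    | zero => simpa using h0
    | succ j ih =>
      have hin : K.E (w + S * Complex.I - M + j) ∈ ball p r := by
        have h1 : ‖K.E (w + S * Complex.I - M + j) - p‖ < r / 2 := by
          apply hY
          simp
          linarith
        rw [mem_ball, dist_eq_norm]
        linarith
      have h2 := LTF_.cc_ball hg hu hin _ ih
      have h3 : g (K.E (w + S * Complex.I - M + j)) =
          K.E (w + S * Complex.I - M + ((j + 1 : ℕ) : ℂ)) := by
        rw [← K.E_add]
        congr 1
        push_cast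
        ring
      rw [h3] at h2
      refine h2.congr ?_
      intro k
      rw [Function.iterate_succ_apply']
  have h4 := key M
  have h5 : w + S * Complex.I - M + M = w + S * Complex.I := by ring
  rw [h5] at h4
  refine h4.congr' ?_
  have h6 : ∀ᶠ k in l, M ≤ k := hl (eventually_ge_atTop M)
  filter_upwards [h6] with k hk
  rw [← Function.iterate_add_apply]
  congr 1
  rw [Nat.add_sub_cancel' hk]

end Pool.Agent.MAT
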