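import Pool.Agent.MAT.T

/-!
# MAT: LTM (the limit of the passage, general; from LTN, FACT, PKT)
-/

set_option autoImplicit false

open Polynomial Metric Set Filter Topology

noncomputable section

namespace Pool.Agent.MAT

namespace LTM_

/-- second order expansion at a parabolic fixed point -/
theorem expand (f : ℂ → ℂ) (r : ℝ) (hr : 0 < r) (hf : DifferentiableOn ℂ f (ball 0 r))
    (h0 : f 0 = 0) (h1 : deriv f 0 = 1) (h2 : iteratedDeriv 2 f 0 = 2) :
    ∃ e : ℂ → ℂ, DifferentiableOn ℂ e (ball 0 r) ∧ e 0 = 1 ∧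
      ∀ z : ℂ, f z = z + z ^ 2 * e z := by
  have hnhds : ball (0 : ℂ) r ∈ 𝓝 (0 : ℂ) := ball_mem_nhds 0 hr
  set h : ℂ → ℂ := fun z => f z - z with hh
  have hhd : DifferentiableOn ℂ h (ball 0 r) := hf.sub differentiableOn_id
  have hh0 : h 0 = 0 := by simp [hh, h0]
  have hfd : DifferentiableAt ℂ f 0 := hf.differentiableAt hnhds
  have hh1 : deriv h 0 = 0 := by
    have h' : HasDerivAt h (deriv f 0 - 1) 0 := hfd.hasDerivAt.sub (hasDerivAt_id 0)
    rw [h'.deriv, h1, sub_self]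
  set h' : ℂ → ℂ := dslope h 0 with hh'
  have hh'd : DifferentiableOn ℂ h' (ball 0 r) :=
    (Complex.differentiableOn_dslope hnhds).2 hhd
  have hh'0 : h' 0 = 0 := by rw [hh', dslope_same, hh1]
  set e : ℂ → ℂ := dslope h' 0 with he
  have hed : DifferentiableOn ℂ e (ball 0 r) :=
    (Complex.differentiableOn_dslope hnhds).2 hh'd
  have hex : ∀ z : ℂ, f z = z + z ^ 2 * e z := by
    intro z
    have e1 : (z - 0) • dslope h 0 z = h z - h 0 := sub_smul_dslope h 0 z
    have e2 : (z - 0) • dslope h' 0 z = h' z - h' 0 := sub_smul_dslope h' 0 z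
    rw [sub_zero, smul_eq_mul] at e1 e2
    rw [← hh', hh0, sub_zero] at e1
    rw [← he, hh'0, sub_zero] at e2
    have e3 : f z = z + h z := by simp [hh]
    rw [e3, ← e1, ← e2]
    ring
  refine ⟨e, hed, ?_, hex⟩
  -- the value of `e` at `0`
  have hea : AnalyticAt ℂ e 0 := hed.analyticAt hnhds
  have hd1 : ∀ z ∈ ball (0 : ℂ) r, deriv f z = 1 + (2 * z * e z + z ^ 2 * deriv e z) := by
    intro z hz
    have hez : HasDerivAt e (deriv e z) z :=
      (hed.differentiableAt (isOpen_ball.mem_nhds hz)).hasDerivAt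
    have h3 : HasDerivAt (fun z : ℂ => z + z ^ 2 * e z)
        (1 + (((2 : ℕ) : ℂ) * z ^ (2 - 1) * 1 * e z + z ^ 2 * deriv e z)) z :=
      (hasDerivAt_id z).add (((hasDerivAt_id z).pow 2).mul hez)
    have h4 : f = fun z : ℂ => z + z ^ 2 * e z := funext hex
    rw [h4, h3.deriv]
    norm_num
  have hde : HasDerivAt (deriv e) (deriv (deriv e) 0) 0 :=
    hea.deriv.differentiableAt.hasDerivAt
  have he0 : HasDerivAt e (deriv e 0) 0 := hea.differentiableAt.hasDerivAt
  have h5 : HasDerivAt (fun z : ℂ => 1 + (2 * z * e z + z ^ 2 * deriv e z))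
      (((2 * 1) * e 0 + 2 * (0 : ℂ) * deriv e 0) +
        ((((2 : ℕ) : ℂ) * (0 : ℂ) ^ (2 - 1) * 1) * deriv e 0 +
          (0 : ℂ) ^ 2 * deriv (deriv e) 0)) 0 := by
    have a1 : HasDerivAt (fun z : ℂ => 2 * z) (2 * 1) 0 := (hasDerivAt_id (0 : ℂ)).const_mul 2
    have a2 := a1.mul he0
    have a3 := ((hasDerivAt_id (0 : ℂ)).pow 2).mul hde
    exact (a2.add a3).const_add 1
  have h6 : deriv f =ᶠ[𝓝 (0 : ℂ)] fun z : ℂ => 1 + (2 * z * e z + z ^ 2 * deriv e z) :=
    Filter.eventually_of_mem hnhds hd1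
  have h7 : iteratedDeriv 2 f 0 = deriv (deriv f) 0 := by
    rw [iteratedDeriv_succ, iteratedDeriv_one]
  rw [h7, h6.deriv_eq, h5.deriv] at h2
  have h8 : (2 : ℂ) * e 0 = 2 := by
    refine Eq.trans ?_ h2
    push_cast; ring
  have h9 : (2 : ℂ) ≠ 0 := two_ne_zero
  exact mul_left_cancel₀ h9 (by rw [h8, mul_one])

/-- conjugacy by an affine map, iterated -/
theorem conj_iter (g : ℂ → ℂ) (p a : ℂ) (ha : a ≠ 0) (j : ℕ) (z : ℂ) :
    (fun y => a * (g (p + y / a) - p))^[j] (a * (z - p)) = a * (g^[j] z - p) := by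
  induction j generalizing z with
  | zero => simp
  | succ j ih =>
    rw [Function.iterate_succ_apply, Function.iterate_succ_apply]
    have h1 : p + a * (z - p) / a = z := by
      rw [mul_div_cancel_left₀ _ ha]; ring
    show (fun y => a * (g (p + y / a) - p))^[j] (a * (g (p + a * (z - p) / a) - p)) = _
    rw [h1, ih]

/-- continuous convergence of the iterates -/
theorem cc_iter (l : Filter ℕ) (gk : ℕ → ℂ → ℂ) (g : ℂ → ℂ) (x : ℂ) (xk : ℕ → ℂ)
    (hx : Tendsto xk l (𝓝 x)) (hcc : ∀ m : ℕ, CC l gk g (g^[m] x)) (m : ℕ) :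
    Tendsto (fun k => (gk k)^[m] (xk k)) l (𝓝 (g^[m] x)) := by
  induction m with
  | zero => simpa using hx
  | succ m ih =>
    have h1 := hcc m _ ih
    simpa only [Function.iterate_succ_apply'] using h1

/-- uniform convergence of the conjugated maps -/
theorem unif (g : ℂ → ℂ) (p a : ℂ) (ha : a ≠ 0) (r : ℝ) (hr : 0 < r)
    (hg : ContinuousOn g (ball p r)) (l : Filter ℕ) (gk : ℕ → ℂ → ℂ) (qk : ℕ → ℂ)
    (hu : TendstoUniformlyOn gk g l (ball p r)) (hq : Tendsto qk l (𝓝 p)) :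
    TendstoUniformlyOn (fun k y => a * (gk k (qk k + y / a) - qk k))
      (fun y => a * (g (p + y / a) - p)) l (ball 0 (‖a‖ * r / 2)) := by
  have ha' : 0 < ‖a‖ := norm_pos_iff.2 ha
  have hcpt : IsCompact (closedBall p (3 * r / 4)) := isCompact_closedBall _ _
  have hsub : closedBall p (3 * r / 4) ⊆ ball p r := closedBall_subset_ball (by linarith)
  have huc : UniformContinuousOn g (closedBall p (3 * r / 4)) :=
    hcpt.uniformContinuousOn_of_continuous (hg.mono hsub)
  rw [Metric.tendstoUniformlyOn_iff]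
  intro ε hε
  rw [Metric.tendstoUniformlyOn_iff] at hu
  rw [Metric.uniformContinuousOn_iff] at huc
  have hε' : 0 < ε / (3 * ‖a‖) := by positivity
  obtain ⟨δ, hδ, hδ'⟩ := huc _ hε'
  have h1 := hu _ hε'
  rw [Metric.tendsto_nhds] at hq
  have h2 := hq δ hδ
  have h3 := hq (r / 4) (by linarith)
  have h4 := hq _ hε'
  filter_upwards [h1, h2, h3, h4] with k k1 k2 k3 k4 y hy
  have hy' : ‖y / a‖ < r / 2 := by
    rw [mem_ball, dist_zero_right] at hy
    rw [norm_div, div_lt_iff₀ ha']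
    linarith
  have hin1 : qk k + y / a ∈ closedBall p (3 * r / 4) := by
    rw [mem_closedBall, dist_eq_norm]
    have : qk k + y / a - p = (qk k - p) + y / a := by ring
    rw [this]
    rw [dist_eq_norm] at k3
    calc ‖(qk k - p) + y / a‖ ≤ ‖qk k - p‖ + ‖y / a‖ := norm_add_le _ _
      _ ≤ r / 4 + r / 2 := by linarith
      _ = 3 * r / 4 := by ring
  have hin2 : p + y / a ∈ closedBall p (3 * r / 4) := by
    rw [mem_closedBall, dist_eq_norm]
    have : p + y / a - p = y / a := by ring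
    rw [this]
    linarith
  have b1 := k1 _ (hsub hin1)
  have b2 : dist (g (p + y / a)) (g (qk k + y / a)) < ε / (3 * ‖a‖) := by
    apply hδ' _ hin2 _ hin1
    rw [dist_comm, dist_add_right]
    exact k2
  rw [dist_eq_norm] at b1 b2 k4 ⊢
  have e1 : a * (g (p + y / a) - p) - a * (gk k (qk k + y / a) - qk k) =
      a * (((g (p + y / a) - g (qk k + y / a)) + (g (qk k + y / a) - gk k (qk k + y / a))) +
        (qk k - p)) := by ring
  rw [e1, norm_mul]
  have e2 : ‖((g (p + y / a) - g (qk k + y / a)) + (g (qk k + y / a) - gk k (qk k + y / a))) +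
        (qk k - p)‖ < ε / (3 * ‖a‖) + ε / (3 * ‖a‖) + ε / (3 * ‖a‖) := by
    refine lt_of_le_of_lt (norm_add_le _ _) ?_
    have := norm_add_le (g (p + y / a) - g (qk k + y / a))
      (g (qk k + y / a) - gk k (qk k + y / a))
    linarith
  calc ‖a‖ * _ < ‖a‖ * (ε / (3 * ‖a‖) + ε / (3 * ‖a‖) + ε / (3 * ‖a‖)) :=
        mul_lt_mul_of_pos_left e2 ha'
    _ = ε := by field_simp; ring

end LTM_

open LTM_ in
theorem p_LTM (hLTN : T_LTN) (hFACT : T_FACT) (hPKT : T_PKT) : T_LTM := by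
  intro g p a K r hr hg S l gk qk xk x w hl hS hgk hgu hfix hq hx hcc hphi
  have ha : a ≠ 0 := K.a_ne
  have ha' : 0 < ‖a‖ := norm_pos_iff.2 ha
  obtain ⟨f, hf⟩ : ∃ f : ℂ → ℂ, f = fun y => a * (g (p + y / a) - p) := ⟨_, rfl⟩
  have hKT : ∃ K' : PK f 0 1, K'.β = K.β ∧ K'.Rp = K.Rp ∧ K'.R = K.R ∧
      K'.C = K.C ∧ (∀ y, K'.Fi y = K.Fi (p + y / a)) ∧ (∀ w, K'.E w = a * (K.E w - p)) ∧
      ∀ y : ℂ, y ∈ PinS 1 0 K'.Rp ↔ p + y / a ∈ PinS a p K.Rp := by
    rw [hf]; exact hPKT g p a K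
  obtain ⟨K', hβ, hRp, hR, hC, hFi, hE, hPin⟩ := hKT
  set r₁ : ℝ := ‖a‖ * r / 2 with hr₁
  have hr₁pos : 0 < r₁ := by positivity
  -- `f` is holomorphic on the small ball
  have hmaps : ∀ y ∈ ball (0 : ℂ) r₁, ‖y / a‖ < r / 2 := by
    intro y hy
    rw [mem_ball, dist_zero_right] at hy
    rw [norm_div, div_lt_iff₀ ha']
    rw [hr₁] at hy
    linarith
  have hfd : DifferentiableOn ℂ f (ball 0 r₁) := by
    have h1 : DifferentiableOn ℂ (fun y : ℂ => g (p + y / a)) (ball 0 r₁) := by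
      apply hg.comp (t := ball p r) (f := fun y : ℂ => p + y / a)
      · exact ((differentiable_id.div_const a).const_add p).differentiableOn
      · intro y hy
        have := hmaps y hy
        rw [mem_ball, dist_eq_norm]
        have e1 : p + y / a - p = y / a := by ring
        rw [e1]; linarith
    rw [hf]
    exact (h1.sub_const p).const_mul a
  have hf0 : f 0 = 0 := K'.g_fix
  have hf1 : deriv f 0 = 1 := K'.g_der
  have hf2 : iteratedDeriv 2 f 0 = 2 := by
    have := K'.ha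
    rw [this]; norm_num
  obtain ⟨e, he, he0, hfe⟩ := expand f r₁ hr₁pos hfd hf0 hf1 hf2
  -- the perturbed germs
  set fk : ℕ → ℂ → ℂ := fun k y => a * (gk k (qk k + y / a) - qk k) with hfk
  have hqball : ∀ᶠ k in l, ‖qk k - p‖ < r / 4 := by
    have := (Metric.tendsto_nhds.1 hq) (r / 4) (by linarith)
    filter_upwards [this] with k hk
    rwa [dist_eq_norm] at hk
  have hfkd : ∀ᶠ k in l, DifferentiableOn ℂ (fk k) (ball 0 r₁) := by
    filter_upwards [hgk, hqball] with k k1 k2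
    have h1 : DifferentiableOn ℂ (fun y : ℂ => gk k (qk k + y / a)) (ball 0 r₁) := by
      apply k1.comp (t := ball p r) (f := fun y : ℂ => qk k + y / a)
      · exact ((differentiable_id.div_const a).const_add (qk k)).differentiableOn
      · intro y hy
        have := hmaps y hy
        rw [mem_ball, dist_eq_norm]
        have e1 : qk k + y / a - p = (qk k - p) + y / a := by ring
        rw [e1]
        have := norm_add_le (qk k - p) (y / a)
        linarith
    exact (h1.sub_const (qk k)).const_mul a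
  have hfku : TendstoUniformlyOn fk f l (ball 0 r₁) := by
    rw [hf]
    exact unif g p a ha r hr hg.continuousOn l gk qk hgu hq
  have hfk0 : ∀ᶠ k in l, fk k 0 = 0 ∧ deriv (fk k) 0 = Complex.exp (ell S k) := by
    filter_upwards [hgk, hqball, hfix] with k k1 k2 k3
    have e0 : qk k + 0 / a = qk k := by simp
    refine ⟨?_, ?_⟩
    · show a * (gk k (qk k + 0 / a) - qk k) = 0
      rw [e0, k3.1]; ring
    · have hqin : qk k ∈ ball p r := by
        rw [mem_ball, dist_eq_norm]; linarith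
      have d1 : HasDerivAt (gk k) (deriv (gk k) (qk k)) (qk k + 0 / a) := by
        rw [e0]
        exact (k1.differentiableAt (isOpen_ball.mem_nhds hqin)).hasDerivAt
      have d2 : HasDerivAt (fun y : ℂ => qk k + y / a) (1 / a) 0 :=
        ((hasDerivAt_id (0 : ℂ)).div_const a).const_add (qk k)
      have d3 : HasDerivAt (fun y : ℂ => gk k (qk k + y / a))
          (deriv (gk k) (qk k) * (1 / a)) 0 := HasDerivAt.comp (0 : ℂ) d1 d2
      have d4 : HasDerivAt (fk k) (a * (deriv (gk k) (qk k) * (1 / a))) 0 :=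
        (d3.sub_const (qk k)).const_mul a
      rw [d4.deriv, k3.2]
      field_simp
  obtain ⟨r', ek, pk, hr', hPD, hfac⟩ := hFACT S r₁ l f e fk hl hS hr₁pos he he0
    (fun z _ => hfe z) hfkd hfku hfk0
  -- enter the petal
  obtain ⟨m1, hm1, hm1'⟩ := hphi
  have hpet : ∀ j : ℕ, g^[j] (g^[m1] x) ∈ PinS a p K.Rp ∧
      K.Fi (g^[j] (g^[m1] x)) = w + m1 + j := by
    intro j
    induction j with
    | zero => exact ⟨hm1, by simpa using hm1'⟩
    | succ j ih =>
      rw [Function.iterate_succ_apply']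
      refine ⟨K.in_map _ ih.1, ?_⟩
      rw [K.Fi_map _ ih.1, ih.2]
      push_cast; ring
  have hconv := K.in_conv _ hm1
  have hr'pos : 0 < r' := hPD.hr
  have hev : ∀ᶠ j : ℕ in atTop, ‖a * (g^[j] (g^[m1] x) - p)‖ < r' := by
    have h1 : Tendsto (fun j : ℕ => ‖a * (g^[j] (g^[m1] x) - p)‖) atTop
        (𝓝 ‖a * (p - p)‖) := ((hconv.sub_const p).const_mul a).norm
    rw [sub_self, mul_zero, norm_zero] at h1
    exact h1.eventually (gt_mem_nhds hr'pos)
  obtain ⟨j0, hj0⟩ := eventually_atTop.1 hev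
  set m0 : ℕ := j0 + m1 with hm0
  have hx0 : g^[m0] x = g^[j0] (g^[m1] x) := by
    rw [hm0, Function.iterate_add_apply]
  set y : ℂ := a * (g^[m0] x - p) with hy
  have horb : ∀ m : ℕ, ‖f^[m] y‖ < r' := by
    intro m
    rw [hy, hf, conj_iter g p a ha, hx0, ← Function.iterate_add_apply]
    exact hj0 _ (by omega)
  have hpy : p + y / a = g^[m0] x := by
    rw [hy, mul_div_cancel_left₀ _ ha]; ring
  have hyP : y ∈ PinS 1 0 K'.Rp := by
    rw [hPin, hpy, hx0]
    exact (hpet j0).1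
  have hyF : K'.Fi y = w + m0 := by
    rw [hFi, hpy, hx0, (hpet j0).2, hm0]
    push_cast; ring
  -- the starting points
  have hyk : Tendsto (fun k => a * ((gk k)^[m0] (xk k) - qk k)) l (𝓝 y) :=
    ((cc_iter l gk g x xk hx hcc m0).sub hq).const_mul a
  obtain ⟨M₁, hM₁⟩ := hLTN f e r' K' (fun z _ => hfe z) S l ek pk hPD fk hfac
    (fun k => a * ((gk k)^[m0] (xk k) - qk k)) y (w + m0) hyk horb hyP hyF
  refine ⟨M₁, fun M hM => ?_⟩
  have h1 := hM₁ (M + m0) (by omega)
  have h2 : Tendsto (fun k => qk k + (fk k)^[k - (M + m0)]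
      (a * ((gk k)^[m0] (xk k) - qk k)) / a) l
      (𝓝 (p + K'.E (w + m0 + S * Complex.I - ((M + m0 : ℕ) : ℂ)) / a)) :=
    hq.add (h1.div_const a)
  have h3 : p + K'.E (w + m0 + S * Complex.I - ((M + m0 : ℕ) : ℂ)) / a =
      K.E (w + S * Complex.I - M) := by
    rw [hE, mul_div_cancel_left₀ _ ha]
    have : w + (m0 : ℂ) + S * Complex.I - ((M + m0 : ℕ) : ℂ) = w + S * Complex.I - M := by
      push_cast; ring
    rw [this]; ring
  rw [h3] at h2
  refine h2.congr' ?_
  have h4 : ∀ᶠ k in l, M + m0 ≤ k := hl (eventually_ge_atTop (M + m0))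
  filter_upwards [h4] with k hk
  rw [hfk]
  show qk k + (fun y => a * (gk k (qk k + y / a) - qk k))^[k - (M + m0)]
      (a * ((gk k)^[m0] (xk k) - qk k)) / a = (gk k)^[k - M] (xk k)
  rw [conj_iter (gk k) (qk k) a ha, mul_div_cancel_left₀ _ ha, ← Function.iterate_add_apply]
  have h5 : k - (M + m0) + m0 = k - M := by omega
  rw [h5]
  ring

end Pool.Agent.MAT
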