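import Pool.Agent.MAT.T

/-!
# MAT: target LTN (the limit of the passage, normalised)
-/

set_option autoImplicit false

open Polynomial Metric Set Filter Topology

noncomputable section

namespace Pool.Agent.MAT

namespace LTN_

/-- a perturbation along a finer filter -/
theorem PD_mono {l l' : Filter ℕ} {S r : ℝ} {e : ℂ → ℂ} {ek : ℕ → ℂ → ℂ} {pk : ℕ → ℂ}
    (h : PD l S r e ek pk) (hl : l' ≤ l) : PD l' S r e ek pk where
  hl := hl.trans h.hl
  hS := h.hS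
  hr := h.hr
  e_hol := h.e_hol
  e_zero := h.e_zero
  ek_hol := h.ek_hol.filter_mono hl
  ek_lim := fun u hu => (h.ek_lim u hu).filter_mono hl
  pk_lim := h.pk_lim.mono_left hl
  mult := h.mult.filter_mono hl

/-- one step of the perturbed maps in the limit -/
theorem step_lim {l : Filter ℕ} {S r : ℝ} {e : ℂ → ℂ} {ek : ℕ → ℂ → ℂ} {pk : ℕ → ℂ}
    (h : PD l S r e ek pk) {f : ℂ → ℂ} {fk : ℕ → ℂ → ℂ}
    (hf : ∀ z ∈ ball (0 : ℂ) r, f z = z + z ^ 2 * e z)
    (hfk : ∀ᶠ k in l, ∀ z ∈ ball (0 : ℂ) r, fk k z = z + z * (z - pk k) * ek k z)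
    {zk : ℕ → ℂ} {z : ℂ} (hz : Tendsto zk l (𝓝 z)) (hzr : z ∈ ball (0 : ℂ) r) :
    Tendsto (fun k => fk k (zk k)) l (𝓝 (f z)) := by
  have hev : ∀ᶠ k in l, zk k ∈ ball (0 : ℂ) r := hz.eventually (isOpen_ball.mem_nhds hzr)
  have he : Tendsto (fun k => ek k (zk k)) l (𝓝 (e z)) := by
    refine h.ek_lim.tendstoLocallyUniformlyOn.tendsto_comp ?_ hzr ?_
    · exact (h.e_hol.continuousOn z hzr)
    · exact tendsto_nhdsWithin_iff.2 ⟨hz, hev⟩
  have h1 : Tendsto (fun k => zk k + zk k * (zk k - pk k) * ek k (zk k)) l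
      (𝓝 (z + z * (z - 0) * e z)) :=
    hz.add ((hz.mul (hz.sub h.pk_lim)).mul he)
  have h2 : z + z * (z - 0) * e z = f z := by rw [hf z hzr]; ring
  rw [h2] at h1
  refine h1.congr' ?_
  filter_upwards [hev, hfk] with k hk hk'
  exact (hk' _ hk).symm

/-- finitely many steps of the perturbed maps in the limit -/
theorem iter_lim {l : Filter ℕ} {S r : ℝ} {e : ℂ → ℂ} {ek : ℕ → ℂ → ℂ} {pk : ℕ → ℂ}
    (h : PD l S r e ek pk) {f : ℂ → ℂ} {fk : ℕ → ℂ → ℂ}
    (hf : ∀ z ∈ ball (0 : ℂ) r, f z = z + z ^ 2 * e z)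
    (hfk : ∀ᶠ k in l, ∀ z ∈ ball (0 : ℂ) r, fk k z = z + z * (z - pk k) * ek k z)
    {zk : ℕ → ℂ} {z : ℂ} (hz : Tendsto zk l (𝓝 z)) :
    ∀ q : ℕ, (∀ i : ℕ, i < q → f^[i] z ∈ ball (0 : ℂ) r) →
      Tendsto (fun k => (fk k)^[q] (zk k)) l (𝓝 (f^[q] z)) := by
  intro q
  induction q with
  | zero => intro _; simpa using hz
  | succ q ih =>
    intro hq
    have h1 := ih (fun i hi => hq i (by omega))
    have h2 := step_lim h hf hfk h1 (hq q (by omega))
    simpa [Function.iterate_succ_apply'] using h2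

/-- the real part of the coordinate gets large along orbits converging to the fixed point -/
theorem om_up {f e : ℂ → ℂ} {r : ℝ} (hr : 0 < r) (he : ContinuousAt e 0) (he0 : e 0 = 1)
    (hf : ∀ z ∈ ball (0 : ℂ) r, f z = z + z ^ 2 * e z) {z : ℕ → ℂ}
    (hz : ∀ j, z (j + 1) = f (z j)) (hn : ∀ j, z j ≠ 0) (hlim : Tendsto z atTop (𝓝 0))
    (D : ℝ) : ∃ J : ℕ, D < (omc 1 0 (z J)).re := by
  have hg : ContinuousAt (fun y : ℂ => e y / (1 + y * e y)) 0 := by
    refine he.div (continuousAt_const.add (continuousAt_id.mul he)) ?_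
    simp
  have hg0 : e 0 / (1 + 0 * e 0) = 1 := by simp [he0]
  have h1 : Tendsto (fun j => e (z j) / (1 + z j * e (z j))) atTop (𝓝 1) := by
    have := hg.tendsto.comp hlim
    rw [hg0] at this
    exact this
  have h2 : Tendsto (fun j => (e (z j) / (1 + z j * e (z j))).re) atTop (𝓝 (1 : ℂ).re) :=
    (Complex.continuous_re.tendsto _).comp h1
  have h3 : ∀ᶠ j in atTop, (1 / 2 : ℝ) < (e (z j) / (1 + z j * e (z j))).re :=
    h2.eventually (lt_mem_nhds (by norm_num [Complex.one_re]))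
  have h4 : ∀ᶠ j in atTop, z j ∈ ball (0 : ℂ) r :=
    hlim.eventually (isOpen_ball.mem_nhds (mem_ball_self hr))
  obtain ⟨N, hN⟩ := eventually_atTop.1 (h3.and h4)
  have hstep : ∀ j, N ≤ j → (omc 1 0 (z j)).re + 1 / 2 ≤ (omc 1 0 (z (j + 1))).re := by
    intro j hj
    obtain ⟨ha, hb⟩ := hN j hj
    have hne : z j ≠ 0 := hn j
    have hne1 : z (j + 1) ≠ 0 := hn (j + 1)
    have heq : z (j + 1) = z j * (1 + z j * e (z j)) := by
      rw [hz j, hf _ hb]; ring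
    have hne2 : 1 + z j * e (z j) ≠ 0 := by
      intro h0
      rw [heq, h0, mul_zero] at hne1
      exact hne1 rfl
    have hid : omc 1 0 (z (j + 1)) = omc 1 0 (z j) + e (z j) / (1 + z j * e (z j)) := by
      unfold omc
      rw [heq]
      field_simp
      ring
    rw [hid, Complex.add_re]
    linarith
  have hind : ∀ i : ℕ, (omc 1 0 (z N)).re + i / 2 ≤ (omc 1 0 (z (N + i))).re := by
    intro i
    induction i with
    | zero => simp
    | succ i ih =>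
      have := hstep (N + i) (by omega)
      have h5 : N + (i + 1) = N + i + 1 := by ring
      rw [h5]
      push_cast
      linarith
  obtain ⟨i, hi⟩ := exists_nat_gt (2 * (D - (omc 1 0 (z N)).re))
  refine ⟨N + i, lt_of_lt_of_le ?_ (hind i)⟩
  linarith

/-- the outgoing petal is inside the ball -/
theorem Qout_ball {r R : ℝ} (hr : 0 < r) (hR : 2 / r < R) {z : ℂ} (hz : z ∈ QoutS R) :
    z ∈ ball (0 : ℂ) r := by
  obtain ⟨hne, hlt⟩ := hz
  have hpos : 0 < ‖z‖ := norm_pos_iff.2 hne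
  have h1 : ‖omc 1 0 z‖ = 1 / ‖z‖ := by
    unfold omc
    simp
  have h2 : -(omc 1 0 z).re ≤ ‖omc 1 0 z‖ :=
    (neg_le_abs _).trans (Complex.abs_re_le_norm _)
  have h3 : |(omc 1 0 z).im| ≤ ‖omc 1 0 z‖ := Complex.abs_im_le_norm _
  rw [h1] at h2 h3
  have h4 : 2 / r < 2 / ‖z‖ := by
    have h5 : (2 : ℝ) / ‖z‖ = 1 / ‖z‖ + 1 / ‖z‖ := by ring
    rw [h5]
    linarith
  have h6 : ‖z‖ < r := by
    rw [div_lt_div_iff₀ hr hpos] at h4
    linarith
  simpa using h6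

theorem log_right {z : ℂ} (hz : 0 < z.re) :
    Complex.log (-(Complex.I * z)) = Complex.log z - Real.pi / 2 * Complex.I := by
  have hne : z ≠ 0 := by
    rintro rfl
    simp at hz
  have h1 : -(Complex.I * z) = (-Complex.I) * z := by ring
  have h2 : |Complex.arg z| < Real.pi / 2 :=
    Complex.abs_arg_lt_pi_div_two_iff.2 (Or.inl hz)
  have h3 := abs_lt.1 h2
  rw [h1, Complex.log_mul (neg_ne_zero.2 Complex.I_ne_zero) hne, Complex.log_neg_I]
  · ring
  · rw [Complex.arg_neg_I]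
    constructor
    · linarith [h3.1]
    · linarith [h3.2, Real.pi_pos]

theorem log_left {z : ℂ} (hz : z.re < 0) :
    Complex.log (-(Complex.I * z)) = Complex.log (-z) + Real.pi / 2 * Complex.I := by
  have hne : -z ≠ 0 := by
    intro h
    have : z = 0 := neg_eq_zero.1 h
    rw [this] at hz
    simp at hz
  have h1 : -(Complex.I * z) = Complex.I * (-z) := by ring
  have h2 : |Complex.arg (-z)| < Real.pi / 2 :=
    Complex.abs_arg_lt_pi_div_two_iff.2 (Or.inl (by simpa using hz))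
  have h3 := abs_lt.1 h2
  rw [h1, Complex.log_mul Complex.I_ne_zero hne, Complex.log_I]
  · ring
  · rw [Complex.arg_I]
    constructor
    · linarith [h3.1, Real.pi_pos]
    · linarith [h3.2]

theorem out_in {β t o : ℂ} (ht : t.re < 0) (ho : 0 < o.re) :
    (t - β * Complex.log (-(Complex.I * t))) - (o - β * Complex.log (-(Complex.I * o))) =
      Lout β t - Lin β o := by
  rw [log_left ht, log_right ho]
  unfold Lout Lin
  ring

theorem slit_of_re {z : ℂ} (hz : z.re ≠ 0) : -(Complex.I * z) ∈ Complex.slitPlane := by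
  refine Complex.mem_slitPlane_iff.2 (Or.inr ?_)
  simpa using hz

/-- the orbit of `T` is the orbit of the perturbed map -/
theorem orb_eq {S r D₀ : ℝ} {k M : ℕ} {p : ℂ} {ek fk T : ℂ → ℂ} {τ₀ y : ℂ}
    (hfk : ∀ z ∈ ball (0 : ℂ) r, fk z = z + z * (z - p) * ek z)
    (hT : ∀ τ : ℂ, 0 ≤ (τ / kap S k).re → (τ / kap S k).re ≤ 1 → D₀ ≤ ‖τ‖ →
      D₀ ≤ ‖τ - kap S k‖ → Zc (ell S k) p τ ∈ ball (0 : ℂ) r ∧
      Zc (ell S k) p (T τ) = Zc (ell S k) p τ + Zc (ell S k) p τ * (Zc (ell S k) p τ - p) *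
        ek (Zc (ell S k) p τ))
    (h0 : Zc (ell S k) p τ₀ = y)
    (hin : ∀ m : ℕ, m + M ≤ k → 0 < (T^[m] τ₀ / kap S k).re ∧ (T^[m] τ₀ / kap S k).re < 1 ∧
      D₀ ≤ ‖T^[m] τ₀‖ ∧ D₀ ≤ ‖T^[m] τ₀ - kap S k‖) :
    ∀ m : ℕ, m + M ≤ k → Zc (ell S k) p (T^[m] τ₀) = fk^[m] y := by
  intro m
  induction m with
  | zero => intro _; simpa using h0
  | succ m ih =>
    intro hm
    have h1 := ih (by omega)
    obtain ⟨ha, hb, hc, hd⟩ := hin m (by omega)
    obtain ⟨h2, h3⟩ := hT _ ha.le hb.le hc hd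
    rw [Function.iterate_succ_apply', Function.iterate_succ_apply', h3, ← h1, hfk _ h2]

/-- the passage through the gate, in the limit -/
theorem gate (hSTEP : T_STEP) (hPASS : T_PASS) (hCOOR : T_COOR) {e : ℂ → ℂ} {r S : ℝ}
    {v : Ultrafilter ℕ} {ek : ℕ → ℂ → ℂ} {pk : ℕ → ℂ} (hP : PD (v : Filter ℕ) S r e ek pk)
    {fk : ℕ → ℂ → ℂ}
    (hfk : ∀ᶠ k in (v : Filter ℕ), ∀ z ∈ ball (0 : ℂ) r,
      fk k z = z + z * (z - pk k) * ek k z) {ε : ℝ} (hε : 0 < ε) (X : ℝ) :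
    ∃ D : ℝ, X ≤ D ∧ 1 ≤ D ∧ ∀ (yk : ℕ → ℂ) (y : ℂ), Tendsto yk (v : Filter ℕ) (𝓝 y) →
      y ≠ 0 → D < (omc 1 0 y).re → ∃ M₁ : ℕ, ∀ M' : ℕ, M₁ ≤ M' → ∃ t : ℂ, t.re ≤ -D ∧
      Tendsto (fun k => (fk k)^[k - M'] (yk k)) (v : Filter ℕ) (𝓝 (-1 / t)) ∧
      ‖Lout (1 - deriv e 0) t - Lin (1 - deriv e 0) (omc 1 0 y) + M' - S * Complex.I‖ ≤ ε := by
  obtain ⟨D₀, C, T, hD₀, hC, hT⟩ := hSTEP e r S v ek pk hP
  obtain ⟨hc1, hc2, hc3, B, hB⟩ := hCOOR e r S v ek pk hP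
  obtain ⟨D₁, hD₁, hPA⟩ := hPASS S (max B 0) C D₀ ε hP.hS (le_max_right _ _) hC hD₀ hε
  refine ⟨max D₁ (max X 1), (le_max_left _ _).trans (le_max_right _ _),
    (le_max_right _ _).trans (le_max_right _ _), ?_⟩
  intro yk y hy hy0 hD
  set D : ℝ := max D₁ (max X 1) with hDdef
  have hD1 : (1 : ℝ) ≤ D := (le_max_right _ _).trans (le_max_right _ _)
  obtain ⟨τk, hτ1, hτ2⟩ := hc1 yk y hy hy0
  have hom : -1 / y = omc 1 0 y := by unfold omc; simp
  rw [hom] at hτ2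
  obtain ⟨M₁, hM₁⟩ := hPA D (‖omc 1 0 y‖ + 1) (le_max_left _ _)
  refine ⟨M₁, ?_⟩
  intro M' hM'
  obtain ⟨Y', k₀, hk₀⟩ := hM₁ M' hM'
  -- eventual conditions on `τk`
  have hτre : ∀ᶠ k in (v : Filter ℕ), D ≤ (τk k).re := by
    have h1 : Tendsto (fun k => (τk k).re) (v : Filter ℕ) (𝓝 (omc 1 0 y).re) :=
      (Complex.continuous_re.tendsto _).comp hτ2
    filter_upwards [h1.eventually (lt_mem_nhds hD)] with k hk
    exact hk.le
  have hτn : ∀ᶠ k in (v : Filter ℕ), ‖τk k‖ ≤ ‖omc 1 0 y‖ + 1 := by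
    have h1 : Tendsto (fun k => ‖τk k‖) (v : Filter ℕ) (𝓝 ‖omc 1 0 y‖) := hτ2.norm
    filter_upwards [h1.eventually (gt_mem_nhds (lt_add_one _))] with k hk
    exact hk.le
  have hkbig : ∀ᶠ k in (v : Filter ℕ), max k₀ M' ≤ k := hP.hl (eventually_ge_atTop _)
  -- all facts at once
  have hall : ∀ᶠ k in (v : Filter ℕ),
      Zc (ell S k) (pk k) ((T k)^[k - M'] (τk k)) = (fk k)^[k - M'] (yk k) ∧
      ‖(T k)^[k - M'] (τk k) - kap S k‖ ≤ Y' ∧
      D ≤ k - ((T k)^[k - M'] (τk k)).re ∧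
      ‖Omc (ell S k) (rhoc (ell S k) (pk k) (ek k)) ((T k)^[k - M'] (τk k)) -
        Omc (ell S k) (rhoc (ell S k) (pk k) (ek k)) (τk k) - ((k - M' : ℕ) : ℂ)‖ ≤ ε ∧
      M' ≤ k := by
    filter_upwards [hT, hB, hfk, hτ1, hτre, hτn, hkbig] with k hTk hBk hfkk hk1 hk2 hk3 hk4
    have hk5 : k₀ ≤ k := (le_max_left _ _).trans hk4
    have hk6 : M' ≤ k := (le_max_right _ _).trans hk4
    obtain ⟨hA, hY⟩ := hk₀ k hk5 (rhoc (ell S k) (pk k) (ek k)) (T k)
      (hBk.trans (le_max_left _ _))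
      (fun τ h1 h2 h3 h4 => ⟨(hTk τ h1 h2 h3 h4).2.2.1, (hTk τ h1 h2 h3 h4).2.2.2⟩)
      (τk k) hk2 hk3
    have hm : (k - M') + M' ≤ k := by omega
    refine ⟨?_, hY, (hA _ hm).2.2.2.2.1, (hA _ hm).2.2.2.2.2, hk6⟩
    exact orb_eq (M := M') (D₀ := D₀) hfkk
      (fun τ h1 h2 h3 h4 => ⟨(hTk τ h1 h2 h3 h4).1, (hTk τ h1 h2 h3 h4).2.1⟩) hk1
      (fun m hm' => ⟨(hA m hm').1, (hA m hm').2.1, (hA m hm').2.2.1, (hA m hm').2.2.2.1⟩) _ hm
  -- the limit of the exit points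
  set tk : ℕ → ℂ := fun k => (T k)^[k - M'] (τk k) - kap S k with htk
  have hball : ∀ᶠ k in (v : Filter ℕ), tk k ∈ closedBall (0 : ℂ) Y' := by
    filter_upwards [hall] with k hk
    simpa [htk] using hk.2.1
  obtain ⟨t, ht1, ht⟩ := (isCompact_closedBall (0 : ℂ) Y').ultrafilter_le_nhds
    (v.map tk) (by
      rw [le_principal_iff]
      exact hball)
  have htl : Tendsto tk (v : Filter ℕ) (𝓝 t) := ht
  have htre : t.re ≤ -D := by
    have h1 : Tendsto (fun k => (tk k).re) (v : Filter ℕ) (𝓝 t.re) :=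
      (Complex.continuous_re.tendsto _).comp htl
    refine le_of_tendsto h1 ?_
    filter_upwards [hall] with k hk
    have h2 := hk.2.2.1
    have h3 : (tk k).re = ((T k)^[k - M'] (τk k)).re - k := by
      simp [htk, kap]
    rw [h3]
    linarith
  have htneg : t.re < 0 := by linarith
  have ht0 : t ≠ 0 := by
    rintro rfl
    simp at htneg
  obtain ⟨hz1, hz2⟩ := hc2 tk t htl ht0
  refine ⟨t, htre, ?_, ?_⟩
  · refine hz1.congr' ?_
    filter_upwards [hall, hz2] with k hk hk'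
    rw [← hk.1, ← hk']
    simp [htk]
  · obtain ⟨ho1, -⟩ := hc3 τk (omc 1 0 y) hτ2 (slit_of_re (by linarith))
    obtain ⟨ho2, ho3⟩ := hc3 tk t htl (slit_of_re (ne_of_lt htneg))
    have hd := (ho2.sub ho1).add_const ((M' : ℂ) - S * Complex.I)
    rw [out_in htneg (by linarith)] at hd
    have hgoal : Lout (1 - deriv e 0) t - Lin (1 - deriv e 0) (omc 1 0 y) + M' -
        S * Complex.I = Lout (1 - deriv e 0) t - Lin (1 - deriv e 0) (omc 1 0 y) +
        ((M' : ℂ) - S * Complex.I) := by ring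
    rw [hgoal]
    refine le_of_tendsto hd.norm ?_
    filter_upwards [hall, ho3] with k hk hk'
    have h1 := hk.2.2.2.1
    have h2 : (T k)^[k - M'] (τk k) = tk k + kap S k := by simp [htk]
    rw [h2, hk'] at h1
    refine le_trans (le_of_eq ?_) h1
    congr 1
    rw [Nat.cast_sub hk.2.2.2.2]
    unfold kap
    ring

/-- the incoming coordinate along the orbit -/
theorem Fi_iter {f : ℂ → ℂ} (K : PK f 0 1) {x : ℂ} (hx : x ∈ PinS 1 0 K.Rp) :
    ∀ j : ℕ, f^[j] x ∈ PinS 1 0 K.Rp ∧ K.Fi (f^[j] x) = K.Fi x + j := by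
  intro j
  induction j with
  | zero => exact ⟨by simpa using hx, by simp⟩
  | succ j ih =>
    rw [Function.iterate_succ_apply']
    refine ⟨K.in_map _ ih.1, ?_⟩
    rw [K.Fi_map _ ih.1, ih.2]
    push_cast
    ring

theorem E_iter {f : ℂ → ℂ} (K : PK f 0 1) (w : ℂ) : ∀ j : ℕ, f^[j] (K.E w) = K.E (w + j) := by
  intro j
  induction j with
  | zero => simp
  | succ j ih =>
    rw [Function.iterate_succ_apply', ih, ← K.E_add]
    congr 1
    push_cast
    ring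

/-- the limit up to `3 ε` -/
theorem core (hSTEP : T_STEP) (hPASS : T_PASS) (hCOOR : T_COOR) {f e h : ℂ → ℂ} {r : ℝ}
    (K : PK f 0 1) (hf : ∀ z ∈ ball (0 : ℂ) r, f z = z + z ^ 2 * e z) {S : ℝ}
    {v : Ultrafilter ℕ} {ek : ℕ → ℂ → ℂ} {pk : ℕ → ℂ}
    (hP : PD (v : Filter ℕ) S r e ek pk) {fk : ℕ → ℂ → ℂ}
    (hfk : ∀ᶠ k in (v : Filter ℕ), ∀ z ∈ ball (0 : ℂ) r,
      fk k z = z + z * (z - pk k) * ek k z)
    {xk : ℕ → ℂ} {x w : ℂ} (hx : Tendsto xk (v : Filter ℕ) (𝓝 x))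
    (horb : ∀ m : ℕ, ‖f^[m] x‖ < r) (hxP : x ∈ PinS 1 0 K.Rp) (hw : K.Fi x = w)
    {Rp' R' C' : ℝ} {Po Eo : ℂ → ℂ} (hO : OutP f h (1 - deriv e 0) Rp' R' C' Po Eo)
    (h2r : 2 / r < Rp') (hβ : K.β = 1 - deriv e 0)
    (hE : ∀ w : ℂ, w.re < -R' → K.E w = Eo w) {M : ℕ}
    (hM : (w + S * Complex.I - M).re < -R' - 2) {ε : ℝ} (hε : 0 < ε) (hε' : ε ≤ 1 / 2) :
    ∃ w' : ℂ, ‖w' - (w + S * Complex.I - M)‖ ≤ 3 * ε ∧
      Tendsto (fun k => (fk k)^[k - M] (xk k)) (v : Filter ℕ) (𝓝 (K.E w')) := by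
  have hr : 0 < r := hP.hr
  obtain ⟨D, hXD, hD1, hgate⟩ := gate hSTEP hPASS hCOOR hP hfk hε
    (max (C' / ε) (max (K.C / ε) (Rp' + 1)))
  have hDC' : C' / ε ≤ D := (le_max_left _ _).trans hXD
  have hDC : K.C / ε ≤ D := (le_max_left _ _).trans ((le_max_right _ _).trans hXD)
  have hDR : Rp' + 1 ≤ D := (le_max_right _ _).trans ((le_max_right _ _).trans hXD)
  have hDpos : 0 < D := by linarith
  -- the entrance point
  have hne : ∀ j : ℕ, f^[j] x ≠ 0 := fun j => (Fi_iter K hxP j).1.1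
  have hball : ∀ j : ℕ, f^[j] x ∈ ball (0 : ℂ) r := fun j => by simpa using horb j
  have hec : ContinuousAt e 0 :=
    (hP.e_hol.differentiableAt (isOpen_ball.mem_nhds (mem_ball_self hr))).continuousAt
  obtain ⟨J, hJ⟩ := om_up (z := fun j => f^[j] x) hr hec hP.e_zero hf
    (fun j => Function.iterate_succ_apply' f j x) hne (K.in_conv x hxP) D
  have hyk : Tendsto (fun k => (fk k)^[J] (xk k)) (v : Filter ℕ) (𝓝 (f^[J] x)) :=
    iter_lim hP hf hfk hx J (fun i _ => hball i)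
  obtain ⟨M₁, hM₁⟩ := hgate _ _ hyk (hne J) hJ
  set M' : ℕ := max M₁ (J + M) with hM'
  obtain ⟨t, ht1, ht2, ht3⟩ := hM₁ M' (le_max_left _ _)
  have hJM : J + M ≤ M' := le_max_right _ _
  have htneg : t.re < 0 := by linarith
  have ht0 : t ≠ 0 := by
    rintro rfl
    simp at htneg
  have htn : D ≤ ‖t‖ := by
    have h1 : -t.re ≤ ‖t‖ := (neg_le_abs _).trans (Complex.abs_re_le_norm _)
    linarith
  have hon : D ≤ ‖omc 1 0 (f^[J] x)‖ :=
    hJ.le.trans ((le_abs_self _).trans (Complex.abs_re_le_norm _))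
  -- the exit point
  have homz : omc 1 0 (-1 / t) = t := by
    unfold omc
    field_simp
    ring
  have hzQ : -1 / t ∈ QoutS Rp' := by
    refine ⟨div_ne_zero (by norm_num) ht0, ?_⟩
    rw [homz]
    have := abs_nonneg t.im
    linarith
  have hPo : ‖Po (-1 / t) - Lout (1 - deriv e 0) t‖ ≤ ε := by
    have h1 := hO.Po_asy _ hzQ
    rw [homz] at h1
    refine h1.trans ?_
    rw [div_le_iff₀ (lt_of_lt_of_le hDpos htn)]
    have h2 : C' ≤ D * ε := (div_le_iff₀ hε).1 hDC'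
    have h3 : D * ε ≤ ‖t‖ * ε := mul_le_mul_of_nonneg_right htn hε.le
    linarith
  obtain ⟨hJP, hJF⟩ := Fi_iter K hxP J
  have hLin : ‖(w + J) - Lin (1 - deriv e 0) (omc 1 0 (f^[J] x))‖ ≤ ε := by
    have h1 := K.Fi_asy _ hJP
    rw [hJF, hw, hβ] at h1
    refine h1.trans ?_
    rw [div_le_iff₀ (lt_of_lt_of_le hDpos hon)]
    have h2 : K.C ≤ D * ε := (div_le_iff₀ hε).1 hDC
    have h3 : D * ε ≤ ‖omc 1 0 (f^[J] x)‖ * ε := mul_le_mul_of_nonneg_right hon hε.le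
    linarith
  set w₁ : ℂ := Po (-1 / t) with hw₁
  have hclose : ‖w₁ - (w + J - M' + S * Complex.I)‖ ≤ 3 * ε := by
    have h1 : w₁ - (w + J - M' + S * Complex.I) =
        (w₁ - Lout (1 - deriv e 0) t) +
        (Lout (1 - deriv e 0) t - Lin (1 - deriv e 0) (omc 1 0 (f^[J] x)) + M' -
          S * Complex.I) -
        ((w + J) - Lin (1 - deriv e 0) (omc 1 0 (f^[J] x))) := by ring
    rw [h1]
    refine (norm_sub_le _ _).trans ?_
    have h2 := norm_add_le (w₁ - Lout (1 - deriv e 0) t)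
      (Lout (1 - deriv e 0) t - Lin (1 - deriv e 0) (omc 1 0 (f^[J] x)) + M' -
          S * Complex.I)
    linarith
  obtain ⟨q, hq⟩ : ∃ q : ℕ, M' = J + M + q := ⟨M' - (J + M), by omega⟩
  have hwq : w₁ + q - (w + S * Complex.I - M) = w₁ - (w + J - M' + S * Complex.I) := by
    rw [hq]
    push_cast
    ring
  have hre : ∀ i : ℕ, i ≤ q → (w₁ + i).re < -R' := by
    intro i hi
    have h1 : |(w₁ + q - (w + S * Complex.I - M)).re| ≤ 3 * ε := by
      rw [hwq]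
      exact (Complex.abs_re_le_norm _).trans hclose
    have h2 := (abs_le.1 h1).2
    have h3 : (w₁ + q - (w + S * Complex.I - M)).re =
        w₁.re + q - (w + S * Complex.I - M).re := by
      simp
    have h4 : (w₁ + i).re = w₁.re + i := by simp
    have h5 : (i : ℝ) ≤ q := by exact_mod_cast hi
    rw [h3] at h2
    rw [h4]
    linarith
  have hEi : ∀ i : ℕ, i ≤ q → K.E (w₁ + i) ∈ QoutS Rp' := by
    intro i hi
    rw [hE _ (hre i hi)]
    exact hO.Eo_mem _ (hre i hi)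
  have hE0 : K.E w₁ = -1 / t := by
    have h1 : w₁.re < -R' := by simpa using hre 0 (Nat.zero_le _)
    rw [hE _ h1]
    exact hO.Po_inj (hO.Eo_mem _ h1) hzQ (by rw [hO.Eo_inv _ h1])
  refine ⟨w₁ + q, by rw [hwq]; exact hclose, ?_⟩
  rw [← hE0] at ht2
  have h1 := iter_lim hP hf hfk ht2 q (fun i hi => by
    rw [E_iter K w₁ i]
    exact Qout_ball hr h2r (hEi i hi.le))
  rw [E_iter K w₁ q] at h1
  refine h1.congr' ?_
  have hkbig : ∀ᶠ k in (v : Filter ℕ), M' ≤ k := hP.hl (eventually_ge_atTop _)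
  filter_upwards [hkbig] with k hk
  rw [← Function.iterate_add_apply, ← Function.iterate_add_apply]
  congr 1
  omega

end LTN_

/-- target LTN -/
theorem p_LTN (hSTEP : T_STEP) (hPASS : T_PASS) (hCOOR : T_COOR) (hOUTP : T_OUTP)
    (hEUNI : T_EUNI) : T_LTN := by
  intro f e r K hf S l ek pk hP fk hfk xk x w hx horb hxP hw
  obtain ⟨h, Rp', R', C', Po, Eo, -, h2r, hO, -⟩ :=
    hOUTP f e r 1 hP.hr hP.e_hol hP.e_zero hf
  obtain ⟨hβ, hE⟩ := hEUNI f h e r K Rp' R' C' Po Eo hP.hr hP.e_hol hP.e_zero hf hO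
  obtain ⟨M₀, hM₀⟩ := exists_nat_gt (w.re + max K.R R' + 2)
  refine ⟨M₀, ?_⟩
  intro M hM
  have hMr : (M₀ : ℝ) ≤ M := by exact_mod_cast hM
  have hre : (w + S * Complex.I - M).re = w.re - M := by simp
  have hlt : (w + S * Complex.I - M).re < -(max K.R R') - 2 := by
    rw [hre]
    linarith
  have hlt1 : (w + S * Complex.I - M).re < -R' - 2 := by
    have := le_max_right K.R R'
    linarith
  have hlt2 : (w + S * Complex.I - M).re < -K.R := by
    have := le_max_left K.R R'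
    linarith
  rw [tendsto_iff_ultrafilter]
  intro v hv
  have hPv : PD (v : Filter ℕ) S r e ek pk := LTN_.PD_mono hP hv
  have hfkv := hfk.filter_mono hv
  have hxv : Tendsto xk (v : Filter ℕ) (𝓝 x) := hx.mono_left hv
  have hstep : ∀ n : ℕ, ∃ w' : ℂ, ‖w' - (w + S * Complex.I - M)‖ ≤
      3 * (1 / ((n : ℝ) + 2)) ∧
      Tendsto (fun k => (fk k)^[k - M] (xk k)) (v : Filter ℕ) (𝓝 (K.E w')) := by
    intro n
    refine LTN_.core hSTEP hPASS hCOOR K hf hPv hfkv hxv horb hxP hw hO h2r hβ hE hlt1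
      (by positivity) ?_
    rw [div_le_div_iff₀ (by positivity) (by norm_num)]
    have : (0 : ℝ) ≤ n := Nat.cast_nonneg n
    linarith
  choose wn hwn1 hwn2 using hstep
  have hconst : ∀ n, K.E (wn n) = K.E (wn 0) := fun n =>
    tendsto_nhds_unique (hwn2 n) (hwn2 0)
  have hwlim : Tendsto wn atTop (𝓝 (w + S * Complex.I - M)) := by
    rw [tendsto_iff_norm_sub_tendsto_zero]
    refine squeeze_zero (fun n => norm_nonneg _) hwn1 ?_
    have h1 : Tendsto (fun n : ℕ => (n : ℝ) + 2) atTop atTop :=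
      tendsto_atTop_add_const_right _ _ tendsto_natCast_atTop_atTop
    have h2 : Tendsto (fun n : ℕ => 1 / ((n : ℝ) + 2)) atTop (𝓝 0) :=
      tendsto_const_nhds.div_atTop h1
    simpa using h2.const_mul 3
  have hopen : IsOpen {z : ℂ | z.re < -K.R} := isOpen_lt Complex.continuous_re continuous_const
  have hcont : ContinuousAt K.E (w + S * Complex.I - M) :=
    (K.E_hol.differentiableAt (hopen.mem_nhds hlt2)).continuousAt
  have h1 : Tendsto (fun n => K.E (wn n)) atTop (𝓝 (K.E (w + S * Complex.I - M))) :=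
    hcont.tendsto.comp hwlim
  have h2 : Tendsto (fun n => K.E (wn n)) atTop (𝓝 (K.E (wn 0))) := by
    simp_rw [hconst]
    exact tendsto_const_nhds
  rw [tendsto_nhds_unique h1 h2]
  exact hwn2 0

end Pool.Agent.MAT
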