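import Pool.Agent.MAT.T

/-!
# MAT: LYR (a nonzero root of `N_k` with nonzero limit)
-/

set_option autoImplicit false

open Polynomial Metric Set Filter Topology

noncomputable section

namespace Pool.Agent.MAT

/-- a polynomial with a vanishing constant term and a nonvanishing linear term, of degree at
least two, has a nonzero root -/
theorem LYR_root (N : ℂ[X]) (n : ℕ) (hn : 2 ≤ n) (hd : N.natDegree = n) (h0 : N.coeff 0 = 0)
    (h1 : N.coeff 1 ≠ 0) : ∃ y : ℂ, y ≠ 0 ∧ N.eval y = 0 := by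
  have hN : N.divX * X + C (N.coeff 0) = N := N.divX_mul_X_add
  have hdeg : N.divX.natDegree = n - 1 := by rw [Polynomial.natDegree_divX_eq_natDegree_tsub_one, hd]
  have hdeg' : N.divX.degree ≠ 0 := by
    intro h
    have h2 : N.divX.natDegree = 0 := Polynomial.natDegree_eq_zero_iff_degree_le_zero.2 h.le
    omega
  obtain ⟨y, hy⟩ := IsAlgClosed.exists_root N.divX hdeg'
  refine ⟨y, ?_, ?_⟩
  · rintro rfl
    apply h1
    rw [Polynomial.IsRoot.def, ← Polynomial.coeff_zero_eq_eval_zero, Polynomial.coeff_divX] at hy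
    simpa using hy
  · rw [← hN, h0]
    simp [Polynomial.IsRoot.def.1 hy]

/-- roots closest to a limit root -/
theorem LYR_choose (u : Ultrafilter ℕ) (Nk : ℕ → ℂ[X]) (y : ℂ)
    (hne : ∀ᶠ k in (u : Filter ℕ), Nk k ≠ 0)
    (hr : ∀ ε : ℝ, 0 < ε → ∀ᶠ k in (u : Filter ℕ), ∃ z ∈ ball y ε, (Nk k).eval z = 0) :
    ∃ yk : ℕ → ℂ, Tendsto yk (u : Filter ℕ) (𝓝 y) ∧
      ∀ᶠ k in (u : Filter ℕ), (Nk k).eval (yk k) = 0 := by
  classical
  have hex : ∀ k : ℕ, ∃ w : ℂ, (∃ z : ℂ, Nk k ≠ 0 ∧ (Nk k).eval z = 0) →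
      (Nk k).eval w = 0 ∧ ∀ z : ℂ, (Nk k).eval z = 0 → dist w y ≤ dist z y := by
    intro k
    by_cases h : ∃ z : ℂ, Nk k ≠ 0 ∧ (Nk k).eval z = 0
    · obtain ⟨z, hz0, hz⟩ := h
      have hne : (Nk k).roots.toFinset.Nonempty :=
        ⟨z, by rw [Multiset.mem_toFinset, Polynomial.mem_roots hz0]; exact hz⟩
      obtain ⟨w, hw, hmin⟩ := Finset.exists_min_image (Nk k).roots.toFinset
        (fun z => dist z y) hne
      refine ⟨w, fun _ => ⟨?_, ?_⟩⟩
      · rw [Multiset.mem_toFinset, Polynomial.mem_roots hz0] at hw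
        exact hw
      · intro z' hz'
        apply hmin
        rw [Multiset.mem_toFinset, Polynomial.mem_roots hz0]
        exact hz'
    · exact ⟨0, fun h' => absurd h' h⟩
  choose yk hyk using hex
  refine ⟨yk, ?_, ?_⟩
  · rw [Metric.tendsto_nhds]
    intro ε hε
    filter_upwards [hne, hr ε hε] with k hk1 hk2
    obtain ⟨z, hz, hz0⟩ := hk2
    exact lt_of_le_of_lt ((hyk k ⟨z, hk1, hz0⟩).2 z hz0) (mem_ball.1 hz)
  · filter_upwards [hne, hr 1 one_pos] with k hk1 hk2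
    obtain ⟨z, hz, hz0⟩ := hk2
    exact (hyk k ⟨z, hk1, hz0⟩).1

theorem p_LYR (hPCR : T_PCR) : T_LYR := by
  intro n u Nk Dk N D hn hND hN hD hk
  have hc0 : N.coeff 0 = 0 := by
    have h1 : Tendsto (fun k => (Nk k).coeff 0) (u : Filter ℕ) (𝓝 (N.coeff 0)) := hN.2.2 0
    have h2 : Tendsto (fun k => (Nk k).coeff 0) (u : Filter ℕ) (𝓝 0) := by
      refine Tendsto.congr' ?_ tendsto_const_nhds
      filter_upwards [hk] with k hk
      rw [Polynomial.coeff_zero_eq_eval_zero, hk.2.1]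
    exact tendsto_nhds_unique h1 h2
  have hD0 : D.coeff 0 ≠ 0 := by
    intro h
    have hN0 : N.eval 0 = 0 := by rw [← Polynomial.coeff_zero_eq_eval_zero, hc0]
    have hDe : D.eval 0 = 0 := by rw [← Polynomial.coeff_zero_eq_eval_zero, h]
    obtain ⟨a, b, hab⟩ := hND.cop
    have := congrArg (Polynomial.eval 0) hab
    simp [hN0, hDe] at this
  have hc1 : N.coeff 1 ≠ 0 := by
    intro h
    have h1 : Tendsto (fun k => (Nk k).coeff 1) (u : Filter ℕ) (𝓝 (N.coeff 1)) := hN.2.2 1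
    have h2 : Tendsto (fun k => (Dk k).coeff 0) (u : Filter ℕ) (𝓝 (D.coeff 0)) := hD.2.2 0
    have h3 : Tendsto (fun k => ‖(Nk k).coeff 1 / (Dk k).coeff 0‖) (u : Filter ℕ)
        (𝓝 ‖N.coeff 1 / D.coeff 0‖) := (h1.div h2 hD0).norm
    have h4 : (1 : ℝ) ≤ ‖N.coeff 1 / D.coeff 0‖ := by
      refine ge_of_tendsto h3 ?_
      filter_upwards [hk] with k hk
      have h5 := hk.2.2
      rwa [← Polynomial.coeff_zero_eq_eval_zero, ← Polynomial.coeff_zero_eq_eval_zero,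
        Polynomial.coeff_derivative, zero_add, Nat.cast_zero, zero_add, mul_one] at h5
    rw [h, zero_div, norm_zero] at h4
    linarith
  obtain ⟨y, hy, hyN⟩ := LYR_root N n hn hND.deg hc0 hc1
  have hN0 : N ≠ 0 := hND.monic.ne_zero
  obtain ⟨yk, hyk, hyk0⟩ := LYR_choose u Nk y
    (hk.mono fun k hk => hk.1.monic.ne_zero) (hPCR (u : Filter ℕ) n Nk N y hN hN0 hyN)
  exact ⟨yk, y, hy, hyk, hyk0⟩

end Pool.Agent.MAT
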