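import Pool.Agent.MAT.T

/-!
# MAT: NPK, the package of a normalised parabolic germ
-/

set_option autoImplicit false

open Polynomial Metric Set Filter Topology

noncomputable section

namespace Pool.Agent.MAT.NPK_

/-- The derivatives of `z + z² e(z)`. -/
lemma taylor {f e : ℂ → ℂ} {r : ℝ} (hr : 0 < r) (he : DifferentiableOn ℂ e (ball 0 r))
    (hf : ∀ z ∈ ball (0 : ℂ) r, f z = z + z ^ 2 * e z) :
    AnalyticAt ℂ f 0 ∧ f 0 = 0 ∧ deriv f 0 = 1 ∧ iteratedDeriv 2 f 0 = 2 * e 0 ∧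
      iteratedDeriv 3 f 0 = 6 * deriv e 0 := by
  have h0 : (0 : ℂ) ∈ ball (0 : ℂ) r := mem_ball_self hr
  have hnh : ball (0 : ℂ) r ∈ 𝓝 (0 : ℂ) := isOpen_ball.mem_nhds h0
  have ea : AnalyticOnNhd ℂ e (ball 0 r) := he.analyticOnNhd isOpen_ball
  have ea1 : AnalyticOnNhd ℂ (deriv e) (ball 0 r) := ea.deriv
  have ea2 : AnalyticOnNhd ℂ (deriv (deriv e)) (ball 0 r) := ea1.deriv
  have hev : f =ᶠ[𝓝 0] fun z => z + z ^ 2 * e z := by
    filter_upwards [hnh] with z hz using hf z hz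
  have hA : AnalyticAt ℂ f 0 := by
    have h1 : AnalyticAt ℂ (fun z : ℂ => z + z ^ 2 * e z) 0 :=
      analyticAt_id.add ((analyticAt_id.pow 2).mul (ea 0 h0))
    exact h1.congr hev.symm
  have d1 : ∀ z ∈ ball (0 : ℂ) r,
      HasDerivAt (fun z : ℂ => z + z ^ 2 * e z) (1 + 2 * z * e z + z ^ 2 * deriv e z) z := by
    intro z hz
    have h := (hasDerivAt_id z).add
      (((hasDerivAt_id z).pow 2).mul (ea z hz).differentiableAt.hasDerivAt)
    refine h.congr_deriv ?_
    simp only [Pi.pow_apply, id]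
    push_cast
    ring
  have d2 : ∀ z ∈ ball (0 : ℂ) r,
      HasDerivAt (fun z : ℂ => 1 + 2 * z * e z + z ^ 2 * deriv e z)
        (2 * e z + 4 * z * deriv e z + z ^ 2 * deriv (deriv e) z) z := by
    intro z hz
    have h := (((hasDerivAt_id z).const_mul (2 : ℂ)).mul
      (ea z hz).differentiableAt.hasDerivAt).const_add 1 |>.add
      (((hasDerivAt_id z).pow 2).mul (ea1 z hz).differentiableAt.hasDerivAt)
    refine h.congr_deriv ?_
    simp only [Pi.pow_apply, id]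
    push_cast
    ring
  have d3 : HasDerivAt (fun z : ℂ => 2 * e z + 4 * z * deriv e z + z ^ 2 * deriv (deriv e) z)
        (6 * deriv e 0) 0 := by
    have h := ((ea 0 h0).differentiableAt.hasDerivAt.const_mul (2 : ℂ)).add
      (((hasDerivAt_id (0 : ℂ)).const_mul (4 : ℂ)).mul
        (ea1 0 h0).differentiableAt.hasDerivAt) |>.add
      (((hasDerivAt_id (0 : ℂ)).pow 2).mul (ea2 0 h0).differentiableAt.hasDerivAt)
    refine h.congr_deriv ?_
    simp only [Pi.pow_apply, id]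
    push_cast
    ring
  have e1 : deriv f =ᶠ[𝓝 0] fun z => 1 + 2 * z * e z + z ^ 2 * deriv e z := by
    refine hev.deriv.trans ?_
    filter_upwards [hnh] with z hz using (d1 z hz).deriv
  have e2 : deriv (deriv f) =ᶠ[𝓝 0]
      fun z => 2 * e z + 4 * z * deriv e z + z ^ 2 * deriv (deriv e) z := by
    refine e1.deriv.trans ?_
    filter_upwards [hnh] with z hz using (d2 z hz).deriv
  refine ⟨hA, ?_, ?_, ?_, ?_⟩
  · rw [hf 0 h0]; simp
  · rw [e1.self_of_nhds]; simp
  · rw [iteratedDeriv_succ, iteratedDeriv_one, e2.self_of_nhds]; simp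
  · rw [iteratedDeriv_succ, iteratedDeriv_succ, iteratedDeriv_one, e2.deriv_eq, d3.deriv]

end Pool.Agent.MAT.NPK_

namespace Pool.Agent.MAT

open NPK_

theorem p_NPK (hINP : T_INP) (hOUTP : T_OUTP) (hINAB : T_INAB) (hHORN : T_HORN) : T_NPK := by
  intro f e r hr he he0 hf
  obtain ⟨tA, t0, t1, t2, t3⟩ := taylor hr he hf
  obtain ⟨Rp, R, C, Fi, Ei, -, -, hI⟩ := hINP f e r 1 hr he he0 hf
  obtain ⟨h, Rp', R', C', Po, Eo, -, -, hO, hS⟩ := hOUTP f e r 1 hr he he0 hf
  obtain ⟨R₂, E, H, hR2, hR2', hadd, hEo, hhol, hup, hconv, Hhol, Hadd, Hlim, Hspec⟩ :=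
    hHORN f h (1 - deriv e 0) Rp R C Rp' R' C' Fi Ei Po Eo hI hO
  have lt : ∀ w : ℂ, w.re < -R₂ → w.re < -R' := fun w hw => by linarith
  refine ⟨{
    β := 1 - deriv e 0
    Rp := Rp
    R := R₂
    C := max C C'
    Fi := Fi
    Ei := Ei
    E := E
    H := H
    a_ne := one_ne_zero
    hRp := hI.hRp
    hR := hI.hR.trans hR2
    hC := hI.hC.trans (le_max_left _ _)
    g_an := tA
    g_fix := t0
    g_der := t1
    ha := by rw [t2, he0]
    hβ := by rw [t3]; ring
    in_hol := hI.hol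
    in_map := hI.map
    in_conv := hI.conv
    in_orb := hI.orb
    in_abs := ?_
    Fi_hol := hI.Fi_hol
    Fi_inj := hI.Fi_inj
    Fi_map := hI.Fi_map
    Fi_asy := ?_
    Ei_hol := hI.Ei_hol.mono fun w hw => lt_of_le_of_lt hR2 hw
    Ei_mem := fun w hw => hI.Ei_mem w (lt_of_le_of_lt hR2 hw)
    Ei_inv := fun w hw => hI.Ei_inv w (lt_of_le_of_lt hR2 hw)
    E_add := hadd
    E_hol := ?_
    E_inj := ?_
    E_ne := ?_
    E_loc := ?_
    E_asy := ?_
    E_conv := hconv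
    E_surj := ?_
    E_hol2 := hhol
    E_up := ?_
    H_hol := Hhol
    H_add := Hadd
    H_lim := Hlim
    H_spec := Hspec }⟩
  · -- in_abs
    intro z hz hne
    obtain ⟨m₀, hm⟩ := hINAB f e r Rp hr he he0 hf (fun m => f^[m] z)
      (fun m => Function.iterate_succ_apply' f m z) hne hz
    exact ⟨m₀, hm m₀ le_rfl⟩
  · -- Fi_asy
    intro z hz
    exact (hI.Fi_asy z hz).trans
      (div_le_div_of_nonneg_right (le_max_left _ _) (norm_nonneg _))
  · -- E_hol
    refine (hO.Eo_hol.mono fun w hw => lt w hw).congr fun w hw => hEo w (lt w hw)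
  · -- E_inj
    intro w hw w' hw' heq
    rw [hEo w (lt w hw), hEo w' (lt w' hw')] at heq
    rw [← hO.Eo_inv w (lt w hw), ← hO.Eo_inv w' (lt w' hw'), heq]
  · -- E_ne
    intro w hw
    rw [hEo w (lt w hw)]
    exact (hO.Eo_mem w (lt w hw)).1
  · -- E_loc
    intro w hw
    rw [hEo w (lt w hw)]
    exact lt_of_le_of_lt hO.hRp (hO.Eo_mem w (lt w hw)).2
  · -- E_asy
    intro w hw
    rw [hEo w (lt w hw)]
    have h1 := hO.Po_asy (Eo w) (hO.Eo_mem w (lt w hw))
    rw [hO.Eo_inv w (lt w hw), norm_sub_rev] at h1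
    exact h1.trans (div_le_div_of_nonneg_right (le_max_right _ _) (norm_nonneg _))
  · -- E_surj
    intro y hy hyne hyt X
    obtain ⟨m₀, hm⟩ := hS y hy hyne hyt
    have hP : ∀ j : ℕ, Po (y (m₀ + j)) = Po (y m₀) - j := by
      intro j
      induction j with
      | zero => simp
      | succ j ih =>
        have h1 := (hm (m₀ + j) (Nat.le_add_right _ _)).2
        rw [← Nat.add_assoc, h1, hO.Po_map _ (hm (m₀ + j) (Nat.le_add_right _ _)).1, ih]
        push_cast
        ring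
    obtain ⟨j, hj⟩ := exists_nat_gt ((Po (y m₀)).re + max R' X)
    have hre : (Po (y (m₀ + j))).re = (Po (y m₀)).re - j := by
      rw [hP j]; simp
    have hlt1 : (Po (y (m₀ + j))).re < -R' := by
      rw [hre]; linarith [le_max_left R' X]
    have hlt2 : (Po (y (m₀ + j))).re < -X := by
      rw [hre]; linarith [le_max_right R' X]
    refine ⟨m₀ + j, Po (y (m₀ + j)), hlt2, ?_⟩
    rw [hEo _ hlt1]
    exact hO.Po_inj (hO.Eo_mem _ hlt1) (hm _ (Nat.le_add_right _ _)).1 (hO.Eo_inv _ hlt1)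
  · -- E_up
    intro ε hε
    obtain ⟨Y, hY⟩ := hup ε hε
    exact ⟨Y, fun w hw => by rw [sub_zero]; exact hY w hw⟩

end Pool.Agent.MAT
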