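import Pool.Agent.MAT.T

/-!
# MAT: the outgoing part of the package (OUTP)

The outgoing part for `f` is the incoming part for `y ↦ y + y² e' (y)`, `e'` from `T_FV`, seen in
the coordinate `-z`.
-/

set_option autoImplicit false

open Polynomial Metric Set Filter Topology

noncomputable section

namespace Pool.Agent.MAT

namespace OUTP_

theorem om_neg (z : ℂ) : omc 1 0 (-z) = -omc 1 0 z := by
  unfold omc
  simp only [one_mul, sub_zero]
  rw [div_neg]

theorem mem_iff (R : ℝ) (z : ℂ) : z ∈ QoutS R ↔ -z ∈ PinS 1 0 R := by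
  unfold QoutS PinS
  simp only [mem_ofPred_eq, om_neg, Complex.neg_re, Complex.neg_im, abs_neg, ne_eq, neg_eq_zero]

theorem mem_iff' (R : ℝ) (z : ℂ) : -z ∈ QoutS R ↔ z ∈ PinS 1 0 R := by
  rw [mem_iff, neg_neg]

/-- points of the outgoing petal are small -/
theorem norm_lt {R : ℝ} (hR : 0 < R) {z : ℂ} (hz : z ∈ QoutS R) : ‖z‖ < 2 / R := by
  obtain ⟨h0, h1⟩ := hz
  have hz0 : 0 < ‖z‖ := norm_pos_iff.2 h0
  have h2 : ‖omc 1 0 z‖ = 1 / ‖z‖ := by
    unfold omc
    rw [one_mul, sub_zero, norm_div, norm_neg, norm_one]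
  have h3 := Complex.abs_re_le_norm (omc 1 0 z)
  have h4 := Complex.abs_im_le_norm (omc 1 0 z)
  have h5 := neg_abs_le (omc 1 0 z).re
  have h6 : R < 2 * (1 / ‖z‖) := by
    rw [← h2]
    linarith
  rw [lt_div_iff₀ hR]
  have h7 : R * ‖z‖ < 2 * (1 / ‖z‖) * ‖z‖ := mul_lt_mul_of_pos_right h6 hz0
  have h8 : 2 * (1 / ‖z‖) * ‖z‖ = 2 := by
    field_simp
  linarith

theorem iter_neg (f₂ : ℂ → ℂ) (z : ℂ) (m : ℕ) :
    (fun x => -(f₂ (-x)))^[m] z = -(f₂^[m] (-z)) := by
  induction m with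
  | zero => simp
  | succ m ih =>
    rw [Function.iterate_succ_apply', Function.iterate_succ_apply', ih, neg_neg]

/-- the outgoing part from the incoming part of the mirrored map -/
theorem out_of_in (f f₂ : ℂ → ℂ) (β : ℂ) (Rp R₀ C : ℝ) (Fi Ei : ℂ → ℂ)
    (K : InP f₂ (-β) Rp R₀ C Fi Ei) (hinv : ∀ z ∈ QoutS Rp, f (-(f₂ (-z))) = z) :
    OutP f (fun z => -(f₂ (-z))) β Rp (R₀ + Real.pi * ‖β‖) C
      (fun z => -(Fi (-z)) - β * Real.pi * Complex.I)
      (fun w => -(Ei (-w - β * Real.pi * Complex.I))) := by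
  have hpi := Real.pi_pos
  have hmaps : MapsTo (fun z : ℂ => -z) (QoutS Rp) (PinS 1 0 Rp) := by
    intro z hz
    exact (mem_iff Rp z).1 hz
  have hneg : DifferentiableOn ℂ (fun z : ℂ => -z) (QoutS Rp) := by
    fun_prop
  have hre : ∀ w : ℂ, w.re < -(R₀ + Real.pi * ‖β‖) →
      R₀ < (-w - β * Real.pi * Complex.I).re := by
    intro w hw
    have h1 : |(β * Real.pi * Complex.I).re| ≤ Real.pi * ‖β‖ := by
      refine (Complex.abs_re_le_norm _).trans (le_of_eq ?_)
      rw [norm_mul, norm_mul, Complex.norm_I, mul_one, Complex.norm_real, Real.norm_eq_abs,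
        abs_of_pos hpi, mul_comm]
    have h2 := le_abs_self (β * Real.pi * Complex.I).re
    rw [Complex.sub_re, Complex.neg_re]
    linarith
  refine ⟨K.hRp, ?_, K.hC, ?_, ?_, hinv, ?_, ?_, ?_, ?_, ?_, ?_, ?_, ?_, ?_⟩
  · have h1 := K.hR
    have h2 : 0 ≤ Real.pi * ‖β‖ := by positivity
    linarith
  · exact (K.hol.comp hneg hmaps).neg
  · intro z hz
    exact (mem_iff' Rp _).2 (K.map _ (hmaps hz))
  · intro z hz
    have h1 := (K.conv _ (hmaps hz)).neg
    rw [neg_zero] at h1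
    refine h1.congr fun m => ?_
    exact (iter_neg f₂ z m).symm
  · intro z hz m
    have h1 := K.orb _ (hmaps hz) m
    simp only at h1
    rw [iter_neg, om_neg (f₂^[m] (-z)), norm_neg]
    rw [om_neg z, norm_neg] at h1
    exact h1
  · exact ((K.Fi_hol.comp hneg hmaps).neg).sub_const _
  · intro z hz z' hz' h
    simp only at h
    have h1 : Fi (-z) = Fi (-z') := by
      have := congrArg (fun t => -(t + β * Real.pi * Complex.I)) h
      simpa using this
    have h2 := K.Fi_inj (hmaps hz) (hmaps hz') h1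
    exact neg_injective h2
  · intro z hz
    have h1 := K.Fi_map _ (hmaps hz)
    simp only at h1 ⊢
    rw [neg_neg, h1]
    ring
  · intro z hz
    have h1 := K.Fi_asy _ (hmaps hz)
    rw [om_neg z, norm_neg] at h1
    refine le_trans (le_of_eq ?_) h1
    rw [← norm_neg]
    congr 1
    unfold Lin Lout
    ring
  · have h1 : DifferentiableOn ℂ (fun w : ℂ => -w - β * Real.pi * Complex.I)
        {w | w.re < -(R₀ + Real.pi * ‖β‖)} := by
      fun_prop
    exact (K.Ei_hol.comp h1 fun w hw => hre w hw).neg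
  · intro w hw
    exact (mem_iff' Rp _).2 (K.Ei_mem _ (hre w hw))
  · intro w hw
    have h1 := K.Ei_inv _ (hre w hw)
    rw [neg_neg, h1]
    ring

end OUTP_

open OUTP_ in
/-- OUTP -/
theorem p_OUTP (hINP : T_INP) (hFV : T_FV) (hINAB : T_INAB) : T_OUTP := by
  intro f e r X hr he he0 hf
  obtain ⟨e', r₁, r₂, hr₁, h12, h1r, he', he'0, hde', H⟩ := hFV e r hr he he0
  have hr₂ : 0 < r₂ := lt_of_lt_of_le hr₁ h12
  obtain ⟨Rp, R₀, C, Fi, Ei, hX, -, K⟩ := hINP (fun y => y + y ^ 2 * e' y) e' r₂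
    (max X (2 / r₁ + 1)) hr₂ he' he'0 (fun z _ => rfl)
  have hβ : 1 - deriv e' 0 = -(1 - deriv e 0) := by
    rw [hde']
    ring
  rw [hβ] at K
  have hX1 : X ≤ Rp := le_trans (le_max_left _ _) hX
  have hX2 : 2 / r₁ + 1 ≤ Rp := le_trans (le_max_right _ _) hX
  have hRp0 : 0 < Rp := lt_of_lt_of_le one_pos K.hRp
  have hball : ∀ z ∈ QoutS Rp, z ∈ ball (0 : ℂ) r₁ := by
    intro z hz
    rw [mem_ball_zero_iff]
    have h1 := norm_lt hRp0 hz
    refine lt_of_lt_of_le h1 ?_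
    rw [div_le_iff₀ hRp0]
    have h2 : 2 / r₁ ≤ Rp := by linarith
    rw [div_le_iff₀ hr₁] at h2
    linarith
  have hform : ∀ z : ℂ, -((fun y : ℂ => y + y ^ 2 * e' y) (-z)) = z - z ^ 2 * e' (-z) := by
    intro z
    simp only
    ring
  have hinv : ∀ z ∈ QoutS Rp, f (-((fun y : ℂ => y + y ^ 2 * e' y) (-z))) = z := by
    intro z hz
    obtain ⟨⟨h1, h2⟩, -⟩ := H z (hball z hz)
    rw [hform z, hf _ h1]
    exact h2
  refine ⟨fun z => -((fun y : ℂ => y + y ^ 2 * e' y) (-z)), Rp, _, C, _, _, hX1, ?_,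
    out_of_in f _ _ Rp R₀ C Fi Ei K hinv, ?_⟩
  · have h1 : 2 / r ≤ 2 / r₁ := by
      apply div_le_div_of_nonneg_left (by norm_num) hr₁ h1r
    linarith
  · intro y hy hy0 hyl
    obtain ⟨m₁, hm₁⟩ := (hyl.eventually (ball_mem_nhds (0 : ℂ) hr₁)).exists_forall_of_atTop
    have hstep : ∀ m, m₁ ≤ m → y (m + 1) = -((fun y : ℂ => y + y ^ 2 * e' y) (-(y m))) := by
      intro m hm
      have h1 : y (m + 1) ∈ ball (0 : ℂ) r₁ := hm₁ (m + 1) (by omega)
      obtain ⟨-, -, h2⟩ := H _ h1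
      have h3 : y (m + 1) ∈ ball (0 : ℂ) r := ball_subset_ball h1r h1
      rw [← hf _ h3, hy m] at h2
      rw [hform, h2]
    obtain ⟨m₀, hm₀⟩ := hINAB (fun y => y + y ^ 2 * e' y) e' r₂ Rp hr₂ he' he'0
      (fun z _ => rfl) (fun m => -(y (m + m₁)))
      (by
        intro m
        have h1 := hstep (m + m₁) (by omega)
        have h2 : m + 1 + m₁ = m + m₁ + 1 := by ring
        rw [h2, h1, neg_neg])
      (fun m => neg_ne_zero.2 (hy0 _))
      (by
        have h1 := ((tendsto_add_atTop_iff_nat m₁).2 hyl).neg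
        rw [neg_zero] at h1
        exact h1)
    refine ⟨m₀ + m₁, fun m hm => ⟨?_, hstep m (by omega)⟩⟩
    have h1 := hm₀ (m - m₁) (by omega)
    have h2 : m - m₁ + m₁ = m := by omega
    simp only [h2] at h1
    exact (mem_iff Rp _).2 h1

end Pool.Agent.MAT
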