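import Pool.Agent.MAT.T

/-!
# MAT: target PASS (passing through the gate)
-/

set_option autoImplicit false

open Polynomial Metric Set Filter Topology

noncomputable section

namespace Pool.Agent.MAT

namespace PASS_

lemma kap_re (S : ℝ) (k : ℕ) : (kap S k).re = k := by simp [kap]

lemma kap_im (S : ℝ) (k : ℕ) : (kap S k).im = -S := by simp [kap]

lemma kap_nsq (S : ℝ) (k : ℕ) : Complex.normSq (kap S k) = (k : ℝ) ^ 2 + S ^ 2 := by
  rw [Complex.normSq_apply, kap_re, kap_im]; ring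

lemma div_re (S : ℝ) (k : ℕ) (τ : ℂ) :
    (τ / kap S k).re = (k * τ.re - S * τ.im) / ((k : ℝ) ^ 2 + S ^ 2) := by
  rw [Complex.div_re, kap_nsq, kap_re, kap_im]; ring

lemma div_im (S : ℝ) (k : ℕ) (τ : ℂ) :
    (τ / kap S k).im = (S * τ.re + k * τ.im) / ((k : ℝ) ^ 2 + S ^ 2) := by
  rw [Complex.div_im, kap_nsq, kap_re, kap_im]; ring

/-- rough bounds give the strip conditions -/
lemma region {S : ℝ} (hS : 0 < S) {k : ℕ} (hk : 2 * S ≤ k) {τ : ℂ} (h1 : 1 ≤ τ.re)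
    (h2 : 1 ≤ k - τ.re) (h3 : S * |τ.im| ≤ k / 2) (h4 : |τ.im| ≤ k / 2) :
    0 < (τ / kap S k).re ∧ (τ / kap S k).re < 1 ∧ |(τ / kap S k).im| ≤ 1 := by
  have hk0 : 0 < (k : ℝ) := by linarith
  have hden : 0 < (k : ℝ) ^ 2 + S ^ 2 := by positivity
  have hS2 : 0 < S ^ 2 := by positivity
  have e1 : S * τ.im ≤ S * |τ.im| := mul_le_mul_of_nonneg_left (le_abs_self _) hS.le
  have e2 : -(S * |τ.im|) ≤ S * τ.im := by
    have := mul_le_mul_of_nonneg_left (neg_abs_le τ.im) hS.le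
    linarith
  have e3 : (k : ℝ) * 1 ≤ k * τ.re := mul_le_mul_of_nonneg_left h1 hk0.le
  have e4 : (k : ℝ) * 1 ≤ k * (k - τ.re) := mul_le_mul_of_nonneg_left h2 hk0.le
  rw [div_re, div_im]
  refine ⟨div_pos (by linarith) hden, ?_, ?_⟩
  · rw [div_lt_one hden]
    nlinarith
  · rw [abs_div, abs_of_pos hden, div_le_one hden]
    have e5 : |S * τ.re + k * τ.im| ≤ S * τ.re + k * |τ.im| := by
      refine (abs_add_le _ _).trans ?_
      rw [abs_mul, abs_mul, abs_of_pos hS, abs_of_pos hk0, abs_of_pos (by linarith : 0 < τ.re)]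
    have e6 : S * τ.re ≤ S * k := mul_le_mul_of_nonneg_left (by linarith) hS.le
    have e7 : (k : ℝ) * |τ.im| ≤ k * (k / 2) := mul_le_mul_of_nonneg_left h4 hk0.le
    nlinarith

lemma log_lin {B d c : ℝ} (hB : 0 ≤ B) (hd : 0 < d) (hc : 0 < c) :
    B * Real.log d ≤ c * d + B * Real.log ((B + 1) / c) := by
  have hB1 : 0 < B + 1 := by linarith
  have h1 : Real.log (c / (B + 1) * d) ≤ c / (B + 1) * d - 1 :=
    Real.log_le_sub_one_of_pos (by positivity)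
  rw [Real.log_mul (by positivity) hd.ne'] at h1
  have h2 : Real.log ((B + 1) / c) = -Real.log (c / (B + 1)) := by
    rw [← Real.log_inv, inv_div]
  have h3 : B * Real.log d ≤ B * (c / (B + 1) * d + Real.log ((B + 1) / c)) :=
    mul_le_mul_of_nonneg_left (by rw [h2]; linarith) hB
  have h4 : B * (c / (B + 1) * d) ≤ c * d := by
    have : B * (c / (B + 1) * d) = c * d * (B / (B + 1)) := by field_simp
    rw [this]
    have h5 : B / (B + 1) ≤ 1 := by rw [div_le_one hB1]; linarith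
    have : 0 ≤ c * d := by positivity
    nlinarith
  linarith

lemma log_diff (z w : ℂ) : ‖Complex.log z - Complex.log w‖ ≤
    |Real.log ‖z‖ - Real.log ‖w‖| + 2 * Real.pi := by
  refine (Complex.norm_le_abs_re_add_abs_im _).trans ?_
  rw [Complex.sub_re, Complex.sub_im, Complex.log_re, Complex.log_re, Complex.log_im,
    Complex.log_im]
  have h1 := Complex.abs_arg_le_pi z
  have h2 := Complex.abs_arg_le_pi w
  have h4 : |z.arg - w.arg| ≤ |z.arg| + |w.arg| := abs_sub z.arg w.arg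
  linarith

/-- the difference of the logarithms at two points of the strip -/
lemma qdiff {S CQ : ℝ} {k : ℕ} {τ τ₀ : ℂ} {Y : ℝ}
    (h : |Real.log ‖1 - Complex.exp (ell S k * τ)‖ + Real.log k -
      Real.log (min ‖τ‖ ‖τ - kap S k‖)| ≤ CQ)
    (h₀ : |Real.log ‖1 - Complex.exp (ell S k * τ₀)‖ + Real.log k -
      Real.log (min ‖τ₀‖ ‖τ₀ - kap S k‖)| ≤ CQ)
    (h1 : 1 ≤ ‖τ‖) (h2 : 1 ≤ ‖τ - kap S k‖) (h3 : 1 ≤ ‖τ₀‖) (h4 : 1 ≤ ‖τ₀ - kap S k‖)
    (hY : ‖τ₀‖ ≤ Y) :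
    ‖Complex.log (1 - Complex.exp (ell S k * τ)) - Complex.log (1 - Complex.exp (ell S k * τ₀))‖ ≤
      2 * CQ + 2 * Real.pi + Real.log Y + Real.log ‖τ - kap S k‖ := by
  refine (log_diff _ _).trans ?_
  have m1 : 1 ≤ min ‖τ‖ ‖τ - kap S k‖ := le_min h1 h2
  have m2 : 1 ≤ min ‖τ₀‖ ‖τ₀ - kap S k‖ := le_min h3 h4
  have l1 : 0 ≤ Real.log (min ‖τ‖ ‖τ - kap S k‖) := Real.log_nonneg m1
  have l2 : 0 ≤ Real.log (min ‖τ₀‖ ‖τ₀ - kap S k‖) := Real.log_nonneg m2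
  have l3 : Real.log (min ‖τ‖ ‖τ - kap S k‖) ≤ Real.log ‖τ - kap S k‖ :=
    Real.log_le_log (by linarith) (min_le_right _ _)
  have l4 : Real.log (min ‖τ₀‖ ‖τ₀ - kap S k‖) ≤ Real.log Y :=
    Real.log_le_log (by linarith) ((min_le_left _ _).trans hY)
  rw [abs_le] at h h₀
  have : |Real.log ‖1 - Complex.exp (ell S k * τ)‖ - Real.log ‖1 - Complex.exp (ell S k * τ₀)‖| ≤
      2 * CQ + Real.log Y + Real.log ‖τ - kap S k‖ := by
    rw [abs_le]
    constructor <;> linarith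
  linarith

/-- the constants -/
lemma sizes {B A Y S n k x t d θ : ℝ} (hB : 0 ≤ B) (hd : 1 ≤ d)
    (hθ : 0 < θ) (ht : t ≤ A + B * Real.log d)
    (hdt : d ≤ t + Y + (k - n) + S) (hx : x ≤ n + Y + t) :
    d ≤ 2 * (k - n) + 2 * (A + Y + S + B * Real.log ((B + 1) / (1 / 2))) ∧
    (k - n) * (3 / 4) - (A + Y + B * Real.log ((B + 1) / (1 / 8)) +
      (A + Y + S + B * Real.log ((B + 1) / (1 / 2))) / 4) ≤ k - x ∧
    t ≤ θ / 4 * (k - n) + (A + B * Real.log ((B + 1) / (θ / 8)) +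
      θ / 4 * (A + Y + S + B * Real.log ((B + 1) / (1 / 2)))) := by
  have hd0 : 0 < d := by linarith
  have l1 := log_lin hB hd0 (by norm_num : (0 : ℝ) < 1 / 2)
  have l2 := log_lin hB hd0 (by norm_num : (0 : ℝ) < 1 / 8)
  have l3 := log_lin hB hd0 (by positivity : (0 : ℝ) < θ / 8)
  have e1 : d ≤ 2 * (k - n) + 2 * (A + Y + S + B * Real.log ((B + 1) / (1 / 2))) := by linarith
  refine ⟨e1, by linarith, ?_⟩
  have e2 := mul_le_mul_of_nonneg_left e1 (by positivity : (0 : ℝ) ≤ θ / 8)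
  linarith

lemma tele1 {a : ℝ} (ha : 8 ≤ a) : 1 / a ^ 2 ≤ 2 / a - 2 / (a + 7 / 8) := by
  have h0 : 0 < a := by linarith
  have h1 : 2 / a - 2 / (a + 7 / 8) = (7 / 4) / (a * (a + 7 / 8)) := by
    field_simp; ring
  rw [h1, div_le_div_iff₀ (by positivity) (by positivity)]
  nlinarith

lemma tele2 {b : ℝ} (hb : 1 < b) : 4 / b ^ 2 ≤ 4 / (b - 1) - 4 / b := by
  have h0 : 0 < b := by linarith
  have h2 : 0 < b - 1 := by linarith
  have h1 : 4 / (b - 1) - 4 / b = 4 / ((b - 1) * b) := by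
    field_simp; ring
  rw [h1, div_le_div_iff₀ (by positivity) (by positivity)]
  nlinarith

/-- the error after `m` steps -/
def er (D k m : ℝ) : ℝ := m / k ^ 2 + (2 / D - 2 / (D + 7 / 8 * m)) + (4 / (k - m) - 4 / k)

lemma er_step {D k m X W : ℝ} (hD : 8 ≤ D) (hm : 0 ≤ m) (hk : m + 1 < k)
    (hX : D + 7 / 8 * m ≤ X) (hW : (k - m) / 2 ≤ W) :
    (1 / k ^ 2 + 1 / X ^ 2 + 1 / W ^ 2) + er D k m ≤ er D k (m + 1) := by
  have h1 : 1 / X ^ 2 ≤ 1 / (D + 7 / 8 * m) ^ 2 := by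
    apply one_div_le_one_div_of_le (by positivity)
    exact pow_le_pow_left₀ (by positivity) hX 2
  have h2 : 1 / W ^ 2 ≤ 4 / (k - m) ^ 2 := by
    have e : 4 / (k - m) ^ 2 = 1 / ((k - m) / 2) ^ 2 := by
      have : k - m ≠ 0 := by linarith
      field_simp
      norm_num
    rw [e]
    have : 0 < (k - m) / 2 := by linarith
    apply one_div_le_one_div_of_le (by positivity)
    exact pow_le_pow_left₀ this.le hW 2
  have h3 := tele1 (a := D + 7 / 8 * m) (by nlinarith)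
  have h4 := tele2 (b := k - m) (by linarith)
  unfold er
  have e1 : D + 7 / 8 * (m + 1) = D + 7 / 8 * m + 7 / 8 := by ring
  have e2 : k - (m + 1) = k - m - 1 := by ring
  have e3 : (m + 1) / k ^ 2 = m / k ^ 2 + 1 / k ^ 2 := by ring
  rw [e1, e2, e3]
  linarith

lemma er_le {C η D k m M : ℝ} (hC : 0 ≤ C) (hD : 8 ≤ D) (hm : 0 ≤ m) (hM : 1 ≤ M)
    (hk : m + M ≤ k) (h1 : C * (2 / D) ≤ η / 3) (h2 : C * (4 / M) ≤ η / 3)
    (h3 : C * (1 / k) ≤ η / 3) : C * er D k m ≤ η := by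
  have hk0 : 0 < k := by linarith
  have e1 : m / k ^ 2 ≤ 1 / k := by
    rw [div_le_div_iff₀ (by positivity) hk0]
    nlinarith
  have e2 : 0 ≤ 2 / (D + 7 / 8 * m) := by positivity
  have e3 : 4 / (k - m) ≤ 4 / M := by
    apply div_le_div_of_nonneg_left (by norm_num) (by linarith) (by linarith)
  have e4 : 0 ≤ 4 / k := by positivity
  have e5 : er D k m ≤ 1 / k + 2 / D + 4 / M := by unfold er; linarith
  have := mul_le_mul_of_nonneg_left e5 hC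
  linarith

/-- the state after `m` steps -/
def St (S D θ A C : ℝ) (k : ℕ) (ρ τ₀ : ℂ) (m : ℕ) (τ : ℂ) : Prop :=
  D + 7 / 8 * m ≤ τ.re ∧ ((k : ℝ) - m) / 2 ≤ k - τ.re ∧ |τ.im| ≤ θ / 2 * k ∧
    ‖τ - kap S k‖ ≤ 2 * (k - m) + 2 * A ∧
    ‖Omc (ell S k) ρ τ - Omc (ell S k) ρ τ₀ - m‖ ≤ C * er D k m

lemma norm_ge {S D θ A C : ℝ} {k : ℕ} {ρ τ₀ : ℂ} {m : ℕ} {τ : ℂ}
    (h : St S D θ A C k ρ τ₀ m τ) : D + 7 / 8 * m ≤ ‖τ‖ ∧ ((k : ℝ) - m) / 2 ≤ ‖τ - kap S k‖ := by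
  obtain ⟨h1, h2, -, -, -⟩ := h
  refine ⟨h1.trans ((le_abs_self _).trans (Complex.abs_re_le_norm τ)), h2.trans ?_⟩
  have := Complex.abs_re_le_norm (τ - kap S k)
  rw [Complex.sub_re, kap_re] at this
  have h4 := neg_abs_le (τ.re - k)
  linarith

lemma st_region {S D θ A C : ℝ} {k : ℕ} {ρ τ₀ : ℂ} {m : ℕ} {τ : ℂ} (hS : 0 < S)
    (hθ0 : 0 < θ) (hθ1 : θ ≤ 1 / 2) (hθS : S * θ ≤ 1 / 2) (hD : 8 ≤ D) (hk : 2 * S ≤ k)
    (hm : (m : ℝ) + 4 ≤ k) (h : St S D θ A C k ρ τ₀ m τ) :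
    0 < (τ / kap S k).re ∧ (τ / kap S k).re < 1 ∧ |(τ / kap S k).im| ≤ 1 := by
  obtain ⟨h1, h2, h3, -, -⟩ := h
  have hm0 : (0 : ℝ) ≤ m := Nat.cast_nonneg m
  have hk0 : (0 : ℝ) ≤ k := Nat.cast_nonneg k
  refine region hS hk (by linarith) (by linarith) ?_ ?_
  · have e1 : S * |τ.im| ≤ S * (θ / 2 * k) := mul_le_mul_of_nonneg_left h3 hS.le
    have e2 : S * θ * k ≤ 1 / 2 * k := mul_le_mul_of_nonneg_right hθS hk0
    nlinarith
  · have e2 : θ * k ≤ 1 / 2 * k := mul_le_mul_of_nonneg_right hθ1 hk0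
    linarith

/-- one step -/
lemma step {S B C D₀ η CQ D Y θ A A2 A3 A4 : ℝ} {M k m : ℕ} {ρ τ₀ τ τ' : ℂ}
    (hS : 0 < S) (hB : 0 ≤ B) (hC : 0 ≤ C) (hD₀ : D₀ ≤ D)
    (hD : 8 ≤ D) (hθ0 : 0 < θ) (hθ1 : θ ≤ 1 / 2) (hθS : S * θ ≤ 1 / 2)
    (hA : A = B * (2 * CQ + 2 * Real.pi + Real.log Y) + η)
    (hA2 : A2 = A + Y + S + B * Real.log ((B + 1) / (1 / 2)))
    (hA3 : A3 = A + Y + B * Real.log ((B + 1) / (1 / 8)) + A2 / 4)
    (hA4 : A4 = A + B * Real.log ((B + 1) / (θ / 8)) + θ / 4 * A2)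
    (hM4 : (4 : ℝ) ≤ M) (hMD : 2 * D ≤ M) (hM3 : 4 * A3 ≤ M)
    (h1 : C * (2 / D) ≤ η / 3) (h2 : C * (4 / M) ≤ η / 3) (h3 : C * (1 / k) ≤ η / 3)
    (hkS : 2 * S ≤ k) (hk4 : A4 + Y ≤ θ / 4 * k) (hk8 : 1 / 8 ≤ θ / 2 * k)
    (hQ : ∀ τ : ℂ, 0 < (τ / kap S k).re → (τ / kap S k).re < 1 → |(τ / kap S k).im| ≤ 1 →
      1 ≤ ‖τ‖ → 1 ≤ ‖τ - kap S k‖ →
      |Real.log ‖1 - Complex.exp (ell S k * τ)‖ + Real.log k -
        Real.log (min ‖τ‖ ‖τ - kap S k‖)| ≤ CQ)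
    (hρ : ‖ρ‖ ≤ B) (hT : 0 ≤ (τ / kap S k).re → (τ / kap S k).re ≤ 1 → D₀ ≤ ‖τ‖ →
      D₀ ≤ ‖τ - kap S k‖ → ‖τ' - τ - 1‖ ≤ 1 / 8 ∧
      (0 < (τ / kap S k).re → (τ / kap S k).re < 1 → 0 < (τ' / kap S k).re →
        (τ' / kap S k).re < 1 →
        ‖Omc (ell S k) ρ τ' - Omc (ell S k) ρ τ - 1‖ ≤
          C * (1 / (k : ℝ) ^ 2 + 1 / ‖τ‖ ^ 2 + 1 / ‖τ - kap S k‖ ^ 2)))
    (hτ₀ : St S D θ A2 C k ρ τ₀ 0 τ₀) (hY : ‖τ₀‖ ≤ Y) (hmk : (m : ℝ) + 1 + M ≤ k)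
    (hst : St S D θ A2 C k ρ τ₀ m τ) : St S D θ A2 C k ρ τ₀ (m + 1) τ' := by
  have hm0 : (0 : ℝ) ≤ m := Nat.cast_nonneg m
  have hk0 : (0 : ℝ) < k := by linarith
  obtain ⟨n1, n2⟩ := norm_ge hst
  obtain ⟨r1, r2, r3⟩ := st_region hS hθ0 hθ1 hθS hD hkS (by linarith) hst
  obtain ⟨z1, z2, z3⟩ := st_region hS hθ0 hθ1 hθS hD hkS (by push_cast; linarith) hτ₀
  obtain ⟨y1, y2⟩ := norm_ge hτ₀
  push_cast at y1 y2
  obtain ⟨g1, g2, g3, g4, g5⟩ := hst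
  obtain ⟨t1, t2⟩ := hT r1.le r2.le (by linarith) (by linarith)
  have u1 : |τ'.re - τ.re - 1| ≤ 1 / 8 := by
    have := (Complex.abs_re_le_norm (τ' - τ - 1)).trans t1
    rwa [Complex.sub_re, Complex.sub_re, Complex.one_re] at this
  have u2 : |τ'.im - τ.im| ≤ 1 / 8 := by
    have := (Complex.abs_im_le_norm (τ' - τ - 1)).trans t1
    rwa [Complex.sub_im, Complex.sub_im, Complex.one_im, sub_zero] at this
  rw [abs_le] at u1
  have u3 : |τ'.im| ≤ θ * k := by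
    have e : τ'.im = τ.im + (τ'.im - τ.im) := by ring
    have := abs_add_le τ.im (τ'.im - τ.im)
    rw [← e] at this
    linarith
  obtain ⟨w1, w2, w3⟩ := region hS hkS (τ := τ') (by linarith) (by linarith) (by
    have e1 : S * |τ'.im| ≤ S * (θ * k) := mul_le_mul_of_nonneg_left u3 hS.le
    have e2 : S * θ * k ≤ 1 / 2 * k := mul_le_mul_of_nonneg_right hθS hk0.le
    nlinarith) (by
    have e2 : θ * k ≤ 1 / 2 * k := mul_le_mul_of_nonneg_right hθ1 hk0.le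
    linarith)
  have v1 := t2 r1 r2 w1 w2
  have v2 : ‖Omc (ell S k) ρ τ' - Omc (ell S k) ρ τ₀ - ((m + 1 : ℕ) : ℂ)‖ ≤
      C * er D k (m + 1) := by
    have e : Omc (ell S k) ρ τ' - Omc (ell S k) ρ τ₀ - ((m + 1 : ℕ) : ℂ) =
        (Omc (ell S k) ρ τ' - Omc (ell S k) ρ τ - 1) +
        (Omc (ell S k) ρ τ - Omc (ell S k) ρ τ₀ - m) := by push_cast; ring
    rw [e]
    refine (norm_add_le _ _).trans ((add_le_add v1 g5).trans ?_)
    rw [← mul_add]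
    exact mul_le_mul_of_nonneg_left (er_step hD hm0 (by linarith) n1 n2) hC
  have v3 : C * er D k (m + 1) ≤ η :=
    er_le hC hD (by linarith) (by linarith) (by linarith) h1 h2 h3
  have nτ' : 1 ≤ ‖τ'‖ := by
    have := (le_abs_self _).trans (Complex.abs_re_le_norm τ')
    linarith
  have nκ' : 1 ≤ ‖τ' - kap S k‖ := by
    have := Complex.abs_re_le_norm (τ' - kap S k)
    rw [Complex.sub_re, kap_re] at this
    have h4 := neg_abs_le (τ'.re - k)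
    linarith
  have q1 := qdiff (hQ τ' w1 w2 w3 nτ' nκ') (hQ τ₀ z1 z2 z3 (by linarith) (by linarith))
    nτ' nκ' (by linarith) (by linarith) hY
  have t4 : ‖τ' - τ₀ - ((m + 1 : ℕ) : ℂ)‖ ≤ A + B * Real.log ‖τ' - kap S k‖ := by
    have e : τ' - τ₀ - ((m + 1 : ℕ) : ℂ) =
        (Omc (ell S k) ρ τ' - Omc (ell S k) ρ τ₀ - ((m + 1 : ℕ) : ℂ)) +
        ρ * (Complex.log (1 - Complex.exp (ell S k * τ')) -
          Complex.log (1 - Complex.exp (ell S k * τ₀))) := by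
      unfold Omc; ring
    rw [e]
    refine (norm_add_le _ _).trans ?_
    rw [norm_mul]
    have e2 := mul_le_mul hρ q1 (norm_nonneg _) hB
    rw [hA]
    linarith
  have d1 : ‖τ' - kap S k‖ ≤ ‖τ' - τ₀ - ((m + 1 : ℕ) : ℂ)‖ + Y + (k - ((m : ℝ) + 1)) + S := by
    have e : τ' - kap S k = (τ' - τ₀ - ((m + 1 : ℕ) : ℂ)) + τ₀ +
        ((((m : ℝ) + 1 - k : ℝ) : ℂ) + (S : ℂ) * Complex.I) := by
      unfold kap; push_cast; ring
    have e1 : ‖(((m : ℝ) + 1 - k : ℝ) : ℂ)‖ = k - ((m : ℝ) + 1) := by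
      rw [Complex.norm_real, Real.norm_eq_abs, abs_of_nonpos (by linarith)]; ring
    have e2 : ‖(S : ℂ) * Complex.I‖ = S := by
      rw [norm_mul, Complex.norm_I, mul_one, Complex.norm_real, Real.norm_eq_abs, abs_of_pos hS]
    calc ‖τ' - kap S k‖ ≤ ‖(τ' - τ₀ - ((m + 1 : ℕ) : ℂ)) + τ₀‖ +
          ‖(((m : ℝ) + 1 - k : ℝ) : ℂ) + (S : ℂ) * Complex.I‖ := by
          rw [e]; exact norm_add_le _ _
      _ ≤ (‖τ' - τ₀ - ((m + 1 : ℕ) : ℂ)‖ + ‖τ₀‖) +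
          (‖(((m : ℝ) + 1 - k : ℝ) : ℂ)‖ + ‖(S : ℂ) * Complex.I‖) :=
          add_le_add (norm_add_le _ _) (norm_add_le _ _)
      _ ≤ _ := by rw [e1, e2]; linarith
  have x1 : τ'.re ≤ ((m : ℝ) + 1) + Y + ‖τ' - τ₀ - ((m + 1 : ℕ) : ℂ)‖ := by
    have e1 := (le_abs_self _).trans (Complex.abs_re_le_norm (τ' - τ₀ - ((m + 1 : ℕ) : ℂ)))
    have e2 := (le_abs_self _).trans (Complex.abs_re_le_norm τ₀)
    rw [Complex.sub_re, Complex.sub_re, Complex.natCast_re] at e1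
    push_cast at e1 ⊢
    linarith
  obtain ⟨s1, s2, s3⟩ := sizes hB nκ' hθ0 t4 d1 x1
  rw [← hA2] at s1 s2 s3
  rw [← hA3] at s2
  rw [← hA4] at s3
  refine ⟨?_, ?_, ?_, ?_, ?_⟩
  · push_cast; linarith
  · push_cast; linarith
  · have e1 := Complex.abs_im_le_norm (τ' - τ₀ - ((m + 1 : ℕ) : ℂ))
    have e2 := Complex.abs_im_le_norm τ₀
    rw [Complex.sub_im, Complex.sub_im, Complex.natCast_im, sub_zero] at e1
    have e : τ'.im = (τ'.im - τ₀.im) + τ₀.im := by ring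
    have e3 := abs_add_le (τ'.im - τ₀.im) τ₀.im
    rw [← e] at e3
    have e4 : θ / 4 * (k - ((m : ℝ) + 1)) ≤ θ / 4 * k :=
      mul_le_mul_of_nonneg_left (by linarith) (by positivity)
    linarith
  · push_cast
    exact s1
  · push_cast at v2 ⊢
    exact v2

end PASS_

open PASS_ in
theorem p_PASS (hQLOG : T_QLOG) : T_PASS := by
  obtain ⟨CQ, hCQ, hQ⟩ := hQLOG
  intro S B C D₀ η hS hB hC hD₀ hη
  obtain ⟨kQ, hkQ⟩ := hQ S hS
  refine ⟨max D₀ (6 * C / η), le_max_left _ _, fun D Y' hD => ?_⟩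
  have hDD₀ : D₀ ≤ D := (le_max_left _ _).trans hD
  have hD8 : 8 ≤ D := hD₀.trans hDD₀
  have h1 : C * (2 / D) ≤ η / 3 := by
    have e : 6 * C / η ≤ D := (le_max_right _ _).trans hD
    rw [div_le_iff₀ hη] at e
    rw [← mul_div_assoc, div_le_div_iff₀ (by linarith) (by norm_num)]
    linarith
  set Y := max Y' 1 with hY
  have hY1 : 1 ≤ Y := le_max_right _ _
  set θ : ℝ := 1 / (2 * (1 + S)) with hθ
  have hθ0 : 0 < θ := by positivity
  have hθ1 : θ ≤ 1 / 2 := by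
    rw [hθ]
    apply one_div_le_one_div_of_le (by norm_num) (by linarith)
  have hθS : S * θ ≤ 1 / 2 := by
    rw [hθ, mul_one_div, div_le_div_iff₀ (by positivity) (by norm_num)]
    linarith
  set A := B * (2 * CQ + 2 * Real.pi + Real.log Y) + η with hA
  set A2 := A + Y + S + B * Real.log ((B + 1) / (1 / 2)) with hA2
  set A3 := A + Y + B * Real.log ((B + 1) / (1 / 8)) + A2 / 4 with hA3
  set A4 := A + B * Real.log ((B + 1) / (θ / 8)) + θ / 4 * A2 with hA4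
  have hA0 : 0 ≤ A := by
    have := Real.pi_pos
    have := Real.log_nonneg hY1
    positivity
  have hA20 : Y + S ≤ A2 := by
    have : 0 ≤ Real.log ((B + 1) / (1 / 2)) := by
      apply Real.log_nonneg
      rw [le_div_iff₀ (by norm_num)]
      linarith
    have := mul_nonneg hB this
    linarith
  obtain ⟨M₁, hM₁⟩ := exists_nat_ge (max (max (2 * D) (4 * A3)) (max (12 * C / η) 4))
  refine ⟨M₁, fun M hM => ?_⟩
  have hMr : max (max (2 * D) (4 * A3)) (max (12 * C / η) 4) ≤ (M : ℝ) :=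
    hM₁.trans (by exact_mod_cast hM)
  have hMD : 2 * D ≤ M := ((le_max_left _ _).trans (le_max_left _ _)).trans hMr
  have hM3 : 4 * A3 ≤ M := ((le_max_right _ _).trans (le_max_left _ _)).trans hMr
  have hMC : 12 * C / η ≤ M := ((le_max_left _ _).trans (le_max_right _ _)).trans hMr
  have hM4 : (4 : ℝ) ≤ M := ((le_max_right _ _).trans (le_max_right _ _)).trans hMr
  have h2 : C * (4 / M) ≤ η / 3 := by
    rw [div_le_iff₀ hη] at hMC
    rw [← mul_div_assoc, div_le_div_iff₀ (by linarith) (by norm_num)]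
    linarith
  obtain ⟨k₁, hk₁⟩ := exists_nat_ge (2 * S + 2 * Y + |4 * (A4 + Y) / θ| + 2 * Y / θ +
    1 / (4 * θ) + 3 * C / η)
  refine ⟨2 * M + 2 * A2, max (max k₁ kQ) M, fun k hk ρ T hρ hT τ₀ hτ₀ hYτ => ?_⟩
  have hk1 : k₁ ≤ k := ((le_max_left _ _).trans (le_max_left _ _)).trans hk
  have hkQ' : kQ ≤ k := ((le_max_right _ _).trans (le_max_left _ _)).trans hk
  have hkM : M ≤ k := (le_max_right _ _).trans hk
  have hkM' : (M : ℝ) ≤ k := by exact_mod_cast hkM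
  have hkr : 2 * S + 2 * Y + |4 * (A4 + Y) / θ| + 2 * Y / θ +
      1 / (4 * θ) + 3 * C / η ≤ (k : ℝ) := hk₁.trans (by exact_mod_cast hk1)
  have p1 : 0 ≤ |4 * (A4 + Y) / θ| := abs_nonneg _
  have p2 : 0 ≤ 2 * Y / θ := by positivity
  have p3 : 0 ≤ 1 / (4 * θ) := by positivity
  have p4 : 0 ≤ 3 * C / η := by positivity
  have hk0 : (0 : ℝ) < k := by linarith
  have hkS : 2 * S ≤ k := by linarith
  have hkY : 2 * Y ≤ k := by linarith
  have h3 : C * (1 / k) ≤ η / 3 := by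
    have e : 3 * C / η ≤ k := by linarith
    rw [div_le_iff₀ hη] at e
    rw [mul_one_div, div_le_div_iff₀ hk0 (by norm_num)]
    linarith
  have hk4 : A4 + Y ≤ θ / 4 * k := by
    have e : 4 * (A4 + Y) / θ ≤ k := (le_abs_self _).trans (by linarith)
    rw [div_le_iff₀ hθ0] at e
    linarith
  have hkYθ : Y ≤ θ / 2 * k := by
    have e : 2 * Y / θ ≤ k := by linarith
    rw [div_le_iff₀ hθ0] at e
    linarith
  have hk8 : 1 / 8 ≤ θ / 2 * k := by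
    have e : 1 / (4 * θ) ≤ k := by linarith
    rw [div_le_iff₀ (by positivity)] at e
    linarith
  have hYn : ‖τ₀‖ ≤ Y := hYτ.trans (le_max_left _ _)
  have hst0 : St S D θ A2 C k ρ τ₀ 0 τ₀ := by
    refine ⟨?_, ?_, ?_, ?_, ?_⟩
    · push_cast; linarith
    · have e2 := (le_abs_self _).trans (Complex.abs_re_le_norm τ₀)
      push_cast
      linarith
    · exact ((Complex.abs_im_le_norm τ₀).trans hYn).trans hkYθ
    · have e1 : ‖kap S k‖ ≤ k + S := by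
        unfold kap
        refine (norm_sub_le _ _).trans ?_
        rw [norm_mul, Complex.norm_I, mul_one, Complex.norm_real, Real.norm_eq_abs,
          abs_of_pos hS, Complex.norm_natCast]
      have e2 := norm_sub_le τ₀ (kap S k)
      push_cast
      linarith
    · have e : er D k ((0 : ℕ) : ℝ) = 0 := by
        unfold er
        push_cast
        simp
      rw [e]
      simp
  have key : ∀ m : ℕ, m + M ≤ k → St S D θ A2 C k ρ τ₀ m (T^[m] τ₀) := by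
    intro m
    induction m with
    | zero => intro _; exact hst0
    | succ m ih =>
      intro hm
      rw [Function.iterate_succ_apply']
      have hm' : (m : ℝ) + 1 + M ≤ k := by exact_mod_cast hm
      exact step hS hB hC hDD₀ hD8 hθ0 hθ1 hθS hA hA2 hA3 hA4 hM4 hMD hM3 h1 h2 h3 hkS hk4 hk8
        (hkQ k hkQ') hρ (hT (T^[m] τ₀)) hst0 hYn hm' (ih (by omega))
  refine ⟨fun m hm => ?_, ?_⟩
  · have hst := key m hm
    have hm' : (m : ℝ) + M ≤ k := by exact_mod_cast hm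
    have hm0 : (0 : ℝ) ≤ m := Nat.cast_nonneg m
    obtain ⟨n1, n2⟩ := norm_ge hst
    obtain ⟨r1, r2, -⟩ := st_region hS hθ0 hθ1 hθS hD8 hkS (by linarith) hst
    obtain ⟨g1, g2, -, -, g5⟩ := hst
    refine ⟨r1, r2, by linarith, by linarith, by linarith, g5.trans ?_⟩
    exact er_le hC hD8 hm0 (by linarith) hm' h1 h2 h3
  · obtain ⟨-, -, -, g4, -⟩ := key (k - M) (by omega)
    have e : ((k - M : ℕ) : ℝ) = k - M := by
      rw [Nat.cast_sub hkM]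
    rw [e] at g4
    linarith

end Pool.Agent.MAT
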