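import Pool.Agent.MAT.T

/-!
# MAT: PCE
-/

set_option autoImplicit false

open Polynomial Metric Set Filter Topology

noncomputable section

namespace Pool.Agent.MAT

/-- coefficientwise convergence implies locally uniform convergence -/
theorem p_PCE : T_PCE := by
  intro l d Pk P h
  obtain ⟨hd, hP, hc⟩ := h
  rw [Metric.tendstoLocallyUniformlyOn_iff]
  intro ε hε x _
  refine ⟨ball x 1, mem_nhdsWithin_of_mem_nhds (ball_mem_nhds x one_pos), ?_⟩
  have h0 : Tendsto (fun k => ∑ i ∈ Finset.range (d + 1),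
      ‖(Pk k).coeff i - P.coeff i‖ * (‖x‖ + 1) ^ i) l (𝓝 0) := by
    have h1 : (0 : ℝ) = ∑ i ∈ Finset.range (d + 1), 0 * (‖x‖ + 1) ^ i := by simp
    rw [h1]
    refine tendsto_finsetSum _ fun i _ => Tendsto.mul_const _ ?_
    have h2 := ((hc i).sub_const (P.coeff i)).norm
    simpa using h2
  filter_upwards [hd, h0.eventually (gt_mem_nhds hε)] with k hk hk2 y hy
  have hy' : ‖y‖ ≤ ‖x‖ + 1 := by
    have h3 : ‖y - x‖ < 1 := by simpa [dist_eq_norm] using hy
    have h4 : ‖y‖ ≤ ‖x‖ + ‖y - x‖ := by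
      have := norm_add_le x (y - x)
      simpa using this
    linarith
  rw [dist_comm, dist_eq_norm]
  have e1 : (Pk k).eval y = ∑ i ∈ Finset.range (d + 1), (Pk k).coeff i * y ^ i :=
    Polynomial.eval_eq_sum_range' (by omega) y
  have e2 : P.eval y = ∑ i ∈ Finset.range (d + 1), P.coeff i * y ^ i :=
    Polynomial.eval_eq_sum_range' (by omega) y
  rw [e1, e2, ← Finset.sum_sub_distrib]
  refine lt_of_le_of_lt ?_ hk2
  refine (norm_sum_le _ _).trans (Finset.sum_le_sum fun i _ => ?_)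
  rw [← sub_mul, norm_mul, norm_pow]
  exact mul_le_mul_of_nonneg_left (pow_le_pow_left₀ (norm_nonneg _) hy' i) (norm_nonneg _)

end Pool.Agent.MAT
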