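import Pool.Agent.MAT.T

/-!
# MAT: PCR (roots of converging polynomials)
-/

set_option autoImplicit false

open Polynomial Metric Set Filter Topology

noncomputable section

namespace Pool.Agent.MAT

theorem p_PCR (hPCE : T_PCE) (hHUR : T_HUR) : T_PCR := by
  intro l d Pk P z₀ hP hP0 hz ε hε
  have h1 := hPCE l d Pk P hP
  refine hHUR l (fun k z => (Pk k).eval z) (fun z => P.eval z) z₀ 1 one_pos
    (P.differentiable.differentiableOn) (Eventually.of_forall fun k =>
      (Pk k).differentiable.differentiableOn) (h1.mono (subset_univ _)) hz ?_ ε hε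
  intro hev
  apply hP0
  refine Polynomial.eq_zero_of_infinite_isRoot P ?_
  obtain ⟨r, hr, hr2⟩ := Metric.eventually_nhds_iff_ball.1 hev
  refine Set.Infinite.mono (s := ball z₀ r) (fun z hz => hr2 z hz) ?_
  exact infinite_of_mem_nhds z₀ (Metric.ball_mem_nhds z₀ hr)

end Pool.Agent.MAT
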