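import Pool.Agent.MAT.T

/-!
# MAT: PCW (products and derivatives of convergent polynomials)
-/

set_option autoImplicit false

open Polynomial Metric Set Filter Topology

noncomputable section

namespace Pool.Agent.MAT

namespace PCW_

lemma mul {l : Filter ℕ} {d e : ℕ} {Pk Qk : ℕ → ℂ[X]} {P Q : ℂ[X]} (hP : PConv l d Pk P)
    (hQ : PConv l e Qk Q) : PConv l (d + e) (fun k => Pk k * Qk k) (P * Q) := by
  refine ⟨?_, natDegree_mul_le.trans (Nat.add_le_add hP.2.1 hQ.2.1), fun i => ?_⟩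
  · filter_upwards [hP.1, hQ.1] with k h1 h2
    exact natDegree_mul_le.trans (Nat.add_le_add h1 h2)
  · simp only [coeff_mul]
    exact tendsto_finsetSum _ fun x _ => (hP.2.2 x.1).mul (hQ.2.2 x.2)

lemma sub {l : Filter ℕ} {d : ℕ} {Pk Qk : ℕ → ℂ[X]} {P Q : ℂ[X]} (hP : PConv l d Pk P)
    (hQ : PConv l d Qk Q) : PConv l d (fun k => Pk k - Qk k) (P - Q) := by
  refine ⟨?_, (natDegree_sub_le _ _).trans (max_le hP.2.1 hQ.2.1), fun i => ?_⟩
  · filter_upwards [hP.1, hQ.1] with k h1 h2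
    exact (natDegree_sub_le _ _).trans (max_le h1 h2)
  · simp only [coeff_sub]
    exact (hP.2.2 i).sub (hQ.2.2 i)

lemma der {l : Filter ℕ} {d : ℕ} {Pk : ℕ → ℂ[X]} {P : ℂ[X]} (hP : PConv l d Pk P) :
    PConv l d (fun k => derivative (Pk k)) (derivative P) := by
  refine ⟨?_, (natDegree_derivative_le _).trans ((Nat.sub_le _ _).trans hP.2.1), fun i => ?_⟩
  · filter_upwards [hP.1] with k h1
    exact (natDegree_derivative_le _).trans ((Nat.sub_le _ _).trans h1)
  · simp only [coeff_derivative]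
    exact (hP.2.2 (i + 1)).mul_const _

lemma const (l : Filter ℕ) {d : ℕ} (P : ℂ[X]) (h : P.natDegree ≤ d) :
    PConv l d (fun _ => P) P :=
  ⟨Eventually.of_forall fun _ => h, h, fun _ => tendsto_const_nhds⟩

lemma mono {l : Filter ℕ} {d e : ℕ} {Pk : ℕ → ℂ[X]} {P : ℂ[X]} (h : PConv l d Pk P)
    (hde : d ≤ e) : PConv l e Pk P :=
  ⟨h.1.mono fun _ h1 => h1.trans hde, h.2.1.trans hde, h.2.2⟩

end PCW_

open PCW_ in
theorem p_PCW : T_PCW := by
  intro l n Nk Dk N D hN hD
  refine ⟨?_, ?_, der hN⟩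
  · have h1 := mul (der hN) hD
    have h2 := mul hN (der hD)
    have h3 := sub h1 h2
    rw [two_mul]
    exact h3
  · have h1 : PConv l (1 + n) (fun k => X * Dk k) (X * D) :=
      mul (const l X natDegree_X_le) hD
    rw [Nat.add_comm] at h1
    exact sub (mono hN (Nat.le_succ n)) h1

end Pool.Agent.MAT
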