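import Pool.Agent.MAT.T

/-!
# MAT, PER: periodic holomorphic functions on a half plane
-/

set_option autoImplicit false

open Complex Filter Topology Set Metric Function

namespace Pool.Agent.MAT

namespace PER_

lemma tend_xlog : Tendsto (fun z : ℂ => ‖z‖ * |Real.log ‖z‖|) (𝓝[≠] 0) (𝓝 0) := by
  have h1 : Continuous (fun z : ℂ => ‖z‖ * Real.log ‖z‖) :=
    Real.continuous_mul_log.comp continuous_norm
  have h2 := (h1.tendsto 0).abs
  simp only [norm_zero, zero_mul, abs_zero] at h2
  have h3 : (fun z : ℂ => |‖z‖ * Real.log ‖z‖|) = fun z : ℂ => ‖z‖ * |Real.log ‖z‖| := by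
    funext z
    rw [abs_mul, abs_norm]
  rw [h3] at h2
  exact h2.mono_left nhdsWithin_le_nhds

lemma norm_invq (z : ℂ) : ‖Periodic.invQParam 1 z‖ ≤ |Real.log ‖z‖| + Real.pi := by
  unfold Periodic.invQParam
  rw [norm_mul]
  have h1 : ‖((1 : ℝ) : ℂ) / (2 * Real.pi * I)‖ ≤ 1 := by
    rw [norm_div]
    simp only [ofReal_one, norm_one, norm_mul, norm_I, mul_one, norm_real, Real.norm_eq_abs,
      Complex.norm_ofNat, abs_of_pos Real.pi_pos]
    rw [div_le_one (by positivity)]
    have := Real.pi_gt_three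
    linarith
  have h2 : ‖log z‖ ≤ |Real.log ‖z‖| + Real.pi := by
    have h3 := Complex.norm_le_abs_re_add_abs_im (log z)
    rw [Complex.log_re, Complex.log_im] at h3
    have h4 := Complex.abs_arg_le_pi z
    linarith
  have h5 : 0 ≤ ‖log z‖ := norm_nonneg _
  calc ‖((1 : ℝ) : ℂ) / (2 * Real.pi * I)‖ * ‖log z‖ ≤ 1 * ‖log z‖ :=
        mul_le_mul_of_nonneg_right h1 h5
    _ ≤ _ := by rw [one_mul]; exact h2

end PER_

open PER_ in
/-- PER -/
theorem p_PER : T_PER := by
  intro δ Y hd hper hB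
  obtain ⟨B, hB⟩ := hB
  have hopen : IsOpen {w : ℂ | Y < w.im} := isOpen_lt continuous_const Complex.continuous_im
  -- the periodic extension
  set f : ℂ → ℂ := fun w => if Y < w.im then δ w else 0 with hf
  have hfp : Periodic f ((1 : ℝ) : ℂ) := by
    intro w
    have him : (w + ((1 : ℝ) : ℂ)).im = w.im := by simp
    simp only [hf, him]
    by_cases h : Y < w.im
    · rw [if_pos h, if_pos h]
      have := hper w h
      simpa using this
    · rw [if_neg h, if_neg h]
  have hfδ : ∀ w : ℂ, Y < w.im → f w = δ w := fun w hw => by simp only [hf]; rw [if_pos hw]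
  set b : ℂ → ℂ := Periodic.cuspFunction 1 f with hb
  have hbq : ∀ w : ℂ, Y < w.im → b (Periodic.qParam 1 w) = δ w := by
    intro w hw
    rw [hb, Periodic.eq_cuspFunction one_ne_zero hfp, hfδ w hw]
  set R' : ℝ := Real.exp (-2 * Real.pi * Y / 1) with hR'
  have hR'0 : 0 < R' := Real.exp_pos _
  have hinv : ∀ q : ℂ, q ≠ 0 → ‖q‖ < R' → Y < (Periodic.invQParam 1 q).im := by
    intro q hq hqR
    rw [← Periodic.norm_qParam_lt_iff one_pos, Periodic.qParam_right_inv one_ne_zero hq]
    exact hqR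
  have hdiff : DifferentiableOn ℂ b (ball 0 R' \ {0}) := by
    intro q hq
    have hq0 : q ≠ 0 := hq.2
    have hqR : ‖q‖ < R' := by simpa using hq.1
    have hw := hinv q hq0 hqR
    have hfd : DifferentiableAt ℂ f (Periodic.invQParam 1 q) := by
      have h1 : DifferentiableAt ℂ δ (Periodic.invQParam 1 q) :=
        hd.differentiableAt (hopen.mem_nhds hw)
      refine h1.congr_of_eventuallyEq ?_
      filter_upwards [hopen.mem_nhds hw] with w hw'
      exact hfδ w hw'
    have h2 := Periodic.differentiableAt_cuspFunction one_ne_zero hfp hfd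
    rw [Periodic.qParam_right_inv one_ne_zero hq0] at h2
    exact h2.differentiableWithinAt
  have hnhds : ball (0 : ℂ) R' ∈ 𝓝 (0 : ℂ) := ball_mem_nhds 0 hR'0
  -- growth
  set w0 : ℂ := ((Y + 1 : ℝ) : ℂ) * I with hw0
  have hw0im : Y < w0.im := by simp [hw0]
  have hB0 : 0 ≤ B := (norm_nonneg _).trans (hB w0 hw0im)
  have hmv : ∀ w : ℂ, Y < w.im → ‖δ w - δ w0‖ ≤ B * ‖w - w0‖ := by
    intro w hw
    exact (convex_halfSpace_im_gt Y).norm_image_sub_le_of_norm_deriv_le
      (fun x hx => hd.differentiableAt (hopen.mem_nhds hx)) (fun x hx => hB x hx) hw0im hw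
  set C : ℝ := ‖δ w0‖ + B * (Real.pi + ‖w0‖) + ‖b 0‖ with hC
  have hgr : ∀ q : ℂ, q ≠ 0 → ‖q‖ < R' → ‖b q - b 0‖ ≤ C + B * |Real.log ‖q‖| := by
    intro q hq hqR
    have hw := hinv q hq hqR
    have h1 : b q = δ (Periodic.invQParam 1 q) := by
      rw [← hbq _ hw, Periodic.qParam_right_inv one_ne_zero hq]
    have h2 := hmv _ hw
    have h3 := norm_invq q
    have h4 : ‖Periodic.invQParam 1 q - w0‖ ≤ |Real.log ‖q‖| + Real.pi + ‖w0‖ :=
      (norm_sub_le _ _).trans (by linarith)
    have h5 : ‖δ (Periodic.invQParam 1 q)‖ ≤ ‖δ w0‖ + B * (|Real.log ‖q‖| + Real.pi + ‖w0‖) := by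
      have h6 : ‖δ (Periodic.invQParam 1 q)‖ ≤
          ‖δ (Periodic.invQParam 1 q) - δ w0‖ + ‖δ w0‖ := by
        have := norm_add_le (δ (Periodic.invQParam 1 q) - δ w0) (δ w0)
        rwa [sub_add_cancel] at this
      have h7 := h2.trans (mul_le_mul_of_nonneg_left h4 hB0)
      linarith
    calc ‖b q - b 0‖ ≤ ‖b q‖ + ‖b 0‖ := norm_sub_le _ _
      _ ≤ (‖δ w0‖ + B * (|Real.log ‖q‖| + Real.pi + ‖w0‖)) + ‖b 0‖ := by rw [h1]; linarith
      _ = C + B * |Real.log ‖q‖| := by rw [hC]; ring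
  have hlit : (fun z => b z - b 0) =o[𝓝[≠] 0] fun z : ℂ => (z - 0)⁻¹ := by
    rw [Asymptotics.isLittleO_iff_tendsto']
    · have h1 : Tendsto (fun z : ℂ => C * ‖z‖ + B * (‖z‖ * |Real.log ‖z‖|)) (𝓝[≠] 0) (𝓝 0) := by
        have h2 : Tendsto (fun z : ℂ => ‖z‖) (𝓝[≠] 0) (𝓝 0) := by
          have := (continuous_norm (E := ℂ)).tendsto 0
          rw [norm_zero] at this
          exact this.mono_left nhdsWithin_le_nhds
        have h3 := (h2.const_mul C).add (tend_xlog.const_mul B)
        simpa using h3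
      refine squeeze_zero_norm' ?_ h1
      have h4 : ∀ᶠ z : ℂ in 𝓝[≠] 0, ‖z‖ < R' := by
        filter_upwards [nhdsWithin_le_nhds hnhds] with z hz
        simpa using hz
      filter_upwards [h4, self_mem_nhdsWithin] with z hz hz0
      rw [sub_zero, div_inv_eq_mul, norm_mul]
      have h5 := mul_le_mul_of_nonneg_right (hgr z hz0 hz) (norm_nonneg z)
      calc ‖b z - b 0‖ * ‖z‖ ≤ (C + B * |Real.log ‖z‖|) * ‖z‖ := h5
        _ = C * ‖z‖ + B * (‖z‖ * |Real.log ‖z‖|) := by ring
    · filter_upwards [self_mem_nhdsWithin] with z hz h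
      exfalso
      rw [sub_zero, inv_eq_zero] at h
      exact hz h
  have hbd : DifferentiableOn ℂ b (ball 0 R') := by
    have h1 := Complex.differentiableOn_update_limUnder_of_isLittleO hnhds hdiff hlit
    rw [hb, ← Periodic.cuspFunction_zero_eq_limUnder_nhds_ne, Function.update_eq_self] at h1
    exact h1
  have hds : DifferentiableOn ℂ (dslope b 0) (ball 0 R') :=
    (Complex.differentiableOn_dslope hnhds).2 hbd
  refine ⟨b 0, ?_⟩
  intro y M hy hM w hw
  set R : ℝ := Real.exp (-2 * Real.pi * y / 1) with hR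
  have hR0 : 0 < R := Real.exp_pos _
  have hRR' : R < R' := by
    rw [hR, hR']
    apply Real.exp_lt_exp.mpr
    have := Real.pi_pos
    rw [div_one, div_one]
    nlinarith
  have hcl : closedBall (0 : ℂ) R ⊆ ball 0 R' := closedBall_subset_ball hRR'
  have hsph : ∀ q ∈ frontier (ball (0 : ℂ) R), ‖dslope b 0 q‖ ≤ M / R := by
    intro q hq
    rw [frontier_ball _ hR0.ne'] at hq
    have hqn : ‖q‖ = R := by simpa using hq
    have hq0 : q ≠ 0 := by
      intro h
      rw [h, norm_zero] at hqn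
      linarith
    have him : (Periodic.invQParam 1 q).im = y := by
      rw [Periodic.im_invQParam, hqn, hR, Real.log_exp]
      have := Real.pi_pos
      field_simp
    have hbv : b q = δ (Periodic.invQParam 1 q) := by
      rw [← hbq _ (by rw [him]; exact hy), Periodic.qParam_right_inv one_ne_zero hq0]
    have h1 := hM _ him
    rw [dslope_of_ne _ hq0, slope_def_field, sub_zero, norm_div, hqn, hbv]
    exact div_le_div_of_nonneg_right h1 hR0.le
  have hdc : DiffContOnCl ℂ (dslope b 0) (ball 0 R) :=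
    hds.diffContOnCl_ball hcl
  have hall : ∀ q ∈ closedBall (0 : ℂ) R, ‖dslope b 0 q‖ ≤ M / R := by
    intro q hq
    refine Complex.norm_le_of_forall_mem_frontier_norm_le isBounded_ball hdc hsph ?_
    rw [closure_ball _ hR0.ne']
    exact hq
  have hwY : Y < w.im := hy.trans_le hw
  have hq0 : Periodic.qParam 1 w ≠ 0 := Periodic.qParam_ne_zero w
  have hqn : ‖Periodic.qParam 1 w‖ = Real.exp (-2 * Real.pi * w.im / 1) := Periodic.norm_qParam 1 w
  have hqR : ‖Periodic.qParam 1 w‖ ≤ R := by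
    rw [hqn, hR]
    apply Real.exp_le_exp.mpr
    have := Real.pi_pos
    rw [div_one, div_one]
    nlinarith
  have h1 := hall (Periodic.qParam 1 w) (by simpa using hqR)
  rw [dslope_of_ne _ hq0, slope_def_field, sub_zero, norm_div, hbq w hwY] at h1
  have hqpos : 0 < ‖Periodic.qParam 1 w‖ := norm_pos_iff.mpr hq0
  rw [div_le_iff₀ hqpos] at h1
  refine h1.trans (le_of_eq ?_)
  rw [hqn, hR, div_mul_eq_mul_div, mul_div_assoc, ← Real.exp_sub]
  congr 2
  ring

end Pool.Agent.MAT
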