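import Pool.Agent.MAT.T

/-!
# MAT: PKG (the package in general, from NPK by an affine change of coordinate)
-/

set_option autoImplicit false

open Polynomial Metric Set Filter Topology

noncomputable section

namespace Pool.Agent.MAT

namespace PKG_

/-- the affine conjugate of `g` -/
def cj (g : ℂ → ℂ) (p a : ℂ) (y : ℂ) : ℂ := a * (g (p + y / a) - p)

theorem deriv_aff (h : ℂ → ℂ) (p a : ℂ) (y : ℂ) :
    deriv (fun y => h (p + y / a)) y = a⁻¹ * deriv h (p + y / a) := by
  have h1 : (fun y : ℂ => h (p + y / a)) = fun y => (fun x => h (p + x)) (a⁻¹ * y) := by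
    funext y
    simp only [div_eq_mul_inv, mul_comm]
  have h2 := deriv_comp_mul_left a⁻¹ (fun x => h (p + x)) y
  have h3 := deriv_comp_const_add h p (a⁻¹ * y)
  rw [h1, h2, h3, smul_eq_mul, div_eq_mul_inv, mul_comm y]

theorem deriv_cj (g : ℂ → ℂ) (p a : ℂ) (ha : a ≠ 0) :
    deriv (cj g p a) = fun y => deriv g (p + y / a) := by
  funext y
  unfold cj
  rw [deriv_const_mul_field, deriv_sub_const, deriv_aff, ← mul_assoc, mul_inv_cancel₀ ha,
    one_mul]

theorem deriv2_cj (g : ℂ → ℂ) (p a : ℂ) (ha : a ≠ 0) :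
    iteratedDeriv 2 (cj g p a) = fun y => a⁻¹ * iteratedDeriv 2 g (p + y / a) := by
  rw [iteratedDeriv_succ, iteratedDeriv_one, deriv_cj g p a ha]
  funext y
  rw [deriv_aff, iteratedDeriv_succ, iteratedDeriv_one]

theorem deriv3_cj (g : ℂ → ℂ) (p a : ℂ) (ha : a ≠ 0) :
    iteratedDeriv 3 (cj g p a) = fun y => a⁻¹ * (a⁻¹ * iteratedDeriv 3 g (p + y / a)) := by
  rw [iteratedDeriv_succ, deriv2_cj g p a ha]
  funext y
  rw [deriv_const_mul_field, deriv_aff, iteratedDeriv_succ (n := 2)]

theorem cj_zero (g : ℂ → ℂ) (p a : ℂ) (hg : g p = p) : cj g p a 0 = 0 := by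
  simp [cj, hg]

theorem g_eq (g : ℂ → ℂ) (p a : ℂ) (ha : a ≠ 0) (y : ℂ) :
    g (p + y / a) = p + cj g p a y / a := by
  unfold cj
  field_simp
  ring

theorem aff_inv (p a : ℂ) (ha : a ≠ 0) (z : ℂ) : p + a * (z - p) / a = z := by
  field_simp
  ring

theorem cj_T (g : ℂ → ℂ) (p a : ℂ) (ha : a ≠ 0) (z : ℂ) :
    cj g p a (a * (z - p)) = a * (g z - p) := by
  unfold cj
  rw [aff_inv p a ha]

theorem iter_T (g : ℂ → ℂ) (p a : ℂ) (ha : a ≠ 0) (m : ℕ) (z : ℂ) :
    (cj g p a)^[m] (a * (z - p)) = a * (g^[m] z - p) := by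
  induction m generalizing z with
  | zero => rfl
  | succ m ih => rw [Function.iterate_succ_apply, Function.iterate_succ_apply, cj_T g p a ha, ih]

theorem iter_eq (g : ℂ → ℂ) (p a : ℂ) (ha : a ≠ 0) (m : ℕ) (z : ℂ) :
    g^[m] z = p + (cj g p a)^[m] (a * (z - p)) / a := by
  rw [iter_T g p a ha, aff_inv p a ha]

theorem omc_T (p a z : ℂ) : omc 1 0 (a * (z - p)) = omc a p z := by
  simp [omc]

theorem omc_B (p a : ℂ) (ha : a ≠ 0) (y : ℂ) : omc a p (p + y / a) = omc 1 0 y := by
  unfold omc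
  congr 1
  field_simp
  ring

theorem mem_T (p a : ℂ) (ha : a ≠ 0) (R : ℝ) (z : ℂ) :
    z ∈ PinS a p R ↔ a * (z - p) ∈ PinS 1 0 R := by
  unfold PinS
  simp only [Set.mem_ofPred_eq, omc_T, ne_eq, mul_eq_zero, ha, false_or, sub_eq_zero]

theorem mem_B (p a : ℂ) (ha : a ≠ 0) (R : ℝ) (y : ℂ) :
    p + y / a ∈ PinS a p R ↔ y ∈ PinS 1 0 R := by
  rw [mem_T p a ha]
  have : a * (p + y / a - p) = y := by
    field_simp
    ring
  rw [this]

theorem diff_T (p a : ℂ) (s : Set ℂ) : DifferentiableOn ℂ (fun z : ℂ => a * (z - p)) s :=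
  ((differentiableOn_id.sub_const p).const_mul a)

/-- the normal form near the fixed point -/
theorem normal (f : ℂ → ℂ) (hf : AnalyticAt ℂ f 0) (h0 : f 0 = 0) (h1 : deriv f 0 = 1)
    (h2 : iteratedDeriv 2 f 0 = 2) :
    ∃ (e : ℂ → ℂ) (r : ℝ), 0 < r ∧ DifferentiableOn ℂ e (ball 0 r) ∧ e 0 = 1 ∧
      ∀ z ∈ ball (0 : ℂ) r, f z = z + z ^ 2 * e z := by
  obtain ⟨r, hr, hb⟩ := Metric.eventually_nhds_iff_ball.1 hf.eventually_analyticAt
  have hfd : DifferentiableOn ℂ f (ball 0 r) := fun z hz =>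
    (hb z hz).differentiableAt.differentiableWithinAt
  have hnh : ball (0 : ℂ) r ∈ 𝓝 (0 : ℂ) := ball_mem_nhds 0 hr
  have hd1 : DifferentiableOn ℂ (dslope f 0) (ball 0 r) :=
    (Complex.differentiableOn_dslope hnh).2 hfd
  have hd2 : DifferentiableOn ℂ (dslope (dslope f 0) 0) (ball 0 r) :=
    (Complex.differentiableOn_dslope hnh).2 hd1
  have hform : ∀ z : ℂ, f z = z + z ^ 2 * dslope (dslope f 0) 0 z := by
    intro z
    have e1 := sub_smul_dslope f 0 z
    have e2 := sub_smul_dslope (dslope f 0) 0 z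
    rw [dslope_same, h1] at e2
    rw [h0] at e1
    simp only [sub_zero, smul_eq_mul] at e1 e2
    rw [← e1]
    have e3 : dslope f 0 z = 1 + z * dslope (dslope f 0) 0 z := by
      rw [e2]
      ring
    rw [e3]
    ring
  refine ⟨dslope (dslope f 0) 0, r, hr, hd2, ?_, fun z _ => hform z⟩
  set e : ℂ → ℂ := dslope (dslope f 0) 0 with he
  have hea : ∀ z ∈ ball (0 : ℂ) r, DifferentiableAt ℂ e z := fun z hz =>
    hd2.differentiableAt (isOpen_ball.mem_nhds hz)
  have hfe : f = fun z => z + z ^ 2 * e z := funext hform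
  have hde : deriv f =ᶠ[𝓝 0] fun z => 1 + (2 * z * e z + z ^ 2 * deriv e z) := by
    filter_upwards [hnh] with z hz
    have hz1 : HasDerivAt (fun z : ℂ => z + z ^ 2 * e z)
        (1 + (2 * z * e z + z ^ 2 * deriv e z)) z := by
      have h3 : HasDerivAt (fun z : ℂ => z ^ 2) (2 * z) z := by
        simpa using hasDerivAt_pow 2 z
      exact (hasDerivAt_id z).add (h3.mul (hea z hz).hasDerivAt)
    rw [hfe]
    exact hz1.deriv
  have h3 : iteratedDeriv 2 f 0 = deriv (fun z => 1 + (2 * z * e z + z ^ 2 * deriv e z)) 0 := by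
    rw [iteratedDeriv_succ, iteratedDeriv_one]
    exact hde.deriv_eq
  have hdd : DifferentiableAt ℂ (deriv e) 0 := by
    have := (hd2.analyticAt hnh).deriv
    exact this.differentiableAt
  have h4 : HasDerivAt (fun z => 1 + (2 * z * e z + z ^ 2 * deriv e z))
      (2 * e 0) 0 := by
    have a1 : HasDerivAt (fun z : ℂ => 2 * z) 2 0 := by
      simpa using (hasDerivAt_id (0 : ℂ)).const_mul 2
    have a2 : HasDerivAt (fun z : ℂ => z ^ 2) (2 * 0) 0 := by
      simpa using hasDerivAt_pow 2 (0 : ℂ)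
    have a3 := a1.mul (hea 0 (mem_ball_self hr)).hasDerivAt
    have a4 := a2.mul hdd.hasDerivAt
    have a5 := (a3.add a4).const_add (1 : ℂ)
    refine a5.congr_deriv ?_
    simp
  rw [h4.deriv, h2] at h3
  have h5 : (2 : ℂ) * (e 0 - 1) = 0 := by
    rw [mul_sub, ← h3]
    ring
  rcases mul_eq_zero.1 h5 with h6 | h6
  · exact absurd h6 two_ne_zero
  · exact sub_eq_zero.1 h6

/-- transport of a package -/
def trans (g : ℂ → ℂ) (p a : ℂ) (hg : AnalyticAt ℂ g p) (h0 : g p = p) (h1 : deriv g p = 1)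
    (h2 : iteratedDeriv 2 g p = 2 * a) (ha : a ≠ 0) (K : PK (cj g p a) 0 1) : PK g p a where
  β := K.β
  Rp := K.Rp
  R := K.R
  C := K.C
  Fi := fun z => K.Fi (a * (z - p))
  Ei := fun w => p + K.Ei w / a
  E := fun w => p + K.E w / a
  H := K.H
  a_ne := ha
  hRp := K.hRp
  hR := K.hR
  hC := K.hC
  g_an := hg
  g_fix := h0
  g_der := h1
  ha := h2
  hβ := by
    have h := K.hβ
    rw [deriv3_cj g p a ha] at h
    simp only [zero_div, add_zero] at h
    have : iteratedDeriv 3 g p = a ^ 2 * (a⁻¹ * (a⁻¹ * iteratedDeriv 3 g p)) := by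
      field_simp
    rw [this, h]
    ring
  in_hol := by
    have h' : DifferentiableOn ℂ (fun z => cj g p a (a * (z - p))) (PinS a p K.Rp) :=
      K.in_hol.comp (diff_T p a _) (fun z hz => (mem_T p a ha _ z).1 hz)
    have h'' := (h'.div_const a).const_add p
    intro z hz
    have h3 := h'' z hz
    refine h3.congr (fun y _ => ?_) ?_
    · simp only [cj_T _ p a ha, aff_inv p a ha]
    · simp only [cj_T _ p a ha, aff_inv p a ha]
  in_map := by
    intro z hz
    rw [mem_T p a ha] at hz ⊢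
    rw [← cj_T g p a ha]
    exact K.in_map _ hz
  in_conv := by
    intro z hz
    rw [mem_T p a ha] at hz
    have h := K.in_conv _ hz
    have h' := (h.div_const a).const_add p
    rw [zero_div, add_zero] at h'
    refine h'.congr (fun m => ?_)
    rw [← iter_eq g p a ha]
  in_orb := by
    intro z hz m
    rw [mem_T p a ha] at hz
    have h := K.in_orb _ hz m
    rwa [iter_T g p a ha, omc_T, omc_T] at h
  in_abs := by
    intro z hz hne
    have h : Tendsto (fun m : ℕ => (cj g p a)^[m] (a * (z - p))) atTop (𝓝 0) := by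
      have h' := (hz.sub_const p).const_mul a
      rw [sub_self, mul_zero] at h'
      refine h'.congr (fun m => ?_)
      rw [iter_T g p a ha]
    have hne' : ∀ m : ℕ, (cj g p a)^[m] (a * (z - p)) ≠ 0 := by
      intro m
      rw [iter_T g p a ha]
      exact mul_ne_zero ha (sub_ne_zero.2 (hne m))
    obtain ⟨m, hm⟩ := K.in_abs _ h hne'
    refine ⟨m, ?_⟩
    rw [mem_T p a ha, ← iter_T g p a ha]
    exact hm
  Fi_hol := K.Fi_hol.comp (diff_T p a _) (fun z hz => (mem_T p a ha _ z).1 hz)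
  Fi_inj := by
    intro z hz w hw h
    rw [mem_T p a ha] at hz hw
    have h' := K.Fi_inj hz hw h
    have := mul_left_cancel₀ ha h'
    exact sub_left_injective this
  Fi_map := by
    intro z hz
    rw [mem_T p a ha] at hz
    have h := K.Fi_map _ hz
    rw [cj_T g p a ha] at h
    exact h
  Fi_asy := by
    intro z hz
    rw [mem_T p a ha] at hz
    have h := K.Fi_asy _ hz
    rw [omc_T] at h
    exact h
  Ei_hol := (K.Ei_hol.div_const a).const_add p
  Ei_mem := by
    intro w hw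
    rw [mem_B p a ha]
    exact K.Ei_mem w hw
  Ei_inv := by
    intro w hw
    have : a * (p + K.Ei w / a - p) = K.Ei w := by
      field_simp
      ring
    show K.Fi (a * (p + K.Ei w / a - p)) = w
    rw [this]
    exact K.Ei_inv w hw
  E_add := by
    intro w
    show p + K.E (w + 1) / a = g (p + K.E w / a)
    rw [K.E_add, g_eq g p a ha]
  E_hol := (K.E_hol.div_const a).const_add p
  E_inj := by
    intro w hw w' hw' h
    have h1 : K.E w / a = K.E w' / a := add_left_cancel h
    have h2 : K.E w = K.E w' := by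
      rwa [div_left_inj' ha] at h1
    exact K.E_inj hw hw' h2
  E_ne := by
    intro w hw h
    have h1 : K.E w / a = 0 := by
      have : p + K.E w / a = p + 0 := by rw [h, add_zero]
      exact add_left_cancel this
    rcases div_eq_zero_iff.1 h1 with h2 | h2
    · exact K.E_ne w hw h2
    · exact ha h2
  E_loc := by
    intro w hw
    rw [omc_B p a ha]
    exact K.E_loc w hw
  E_asy := by
    intro w hw
    rw [omc_B p a ha]
    exact K.E_asy w hw
  E_conv := by
    intro w
    have h' := ((K.E_conv w).div_const a).const_add p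
    rw [zero_div, add_zero] at h'
    exact h'
  E_surj := by
    intro y hy hne hlim X
    have h1 : ∀ m, cj g p a (a * (y (m + 1) - p)) = a * (y m - p) := by
      intro m
      rw [cj_T g p a ha, hy]
    have h2 : ∀ m, a * (y m - p) ≠ 0 := fun m => mul_ne_zero ha (sub_ne_zero.2 (hne m))
    have h3 : Tendsto (fun m => a * (y m - p)) atTop (𝓝 0) := by
      have h' := (hlim.sub_const p).const_mul a
      rwa [sub_self, mul_zero] at h'
    obtain ⟨m, w, hw, hE⟩ := K.E_surj (fun m => a * (y m - p)) h1 h2 h3 X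
    refine ⟨m, w, hw, ?_⟩
    show p + K.E w / a = y m
    rw [hE]
    exact aff_inv p a ha (y m)
  E_hol2 := (K.E_hol2.div_const a).const_add p
  E_up := by
    intro ε hε
    have hna : 0 < ‖a‖ := norm_pos_iff.2 ha
    obtain ⟨Y, hY⟩ := K.E_up (ε * ‖a‖) (mul_pos hε hna)
    refine ⟨Y, fun w hw => ?_⟩
    have h := hY w hw
    rw [sub_zero] at h
    show ‖p + K.E w / a - p‖ < ε
    rw [add_sub_cancel_left, norm_div, div_lt_iff₀ hna]
    exact h
  H_hol := K.H_hol
  H_add := K.H_add
  H_lim := K.H_lim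
  H_spec := by
    intro w hw
    obtain ⟨m, h1, h2⟩ := K.H_spec w hw
    have h3 : (cj g p a)^[m] (K.E w) = a * (g^[m] (p + K.E w / a) - p) := by
      rw [← iter_T g p a ha]
      congr 1
      field_simp
      ring
    refine ⟨m, ?_, ?_⟩
    · rw [mem_T p a ha, ← h3]
      exact h1
    · show K.Fi (a * (g^[m] (p + K.E w / a) - p)) = K.H w + m
      rw [← h3]
      exact h2

end PKG_

open PKG_ in
/-- PKG -/
theorem p_PKG (hN : T_NPK) : T_PKG := by
  intro g p a hg h0 h1 h2 ha
  have hfa : AnalyticAt ℂ (cj g p a) 0 := by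
    have h3 : AnalyticAt ℂ (fun y : ℂ => p + y / a) 0 := by
      fun_prop
    have h4 : AnalyticAt ℂ (fun y : ℂ => g (p + y / a)) 0 := by
      have h5 : AnalyticAt ℂ g (p + 0 / a) := by simpa using hg
      exact AnalyticAt.comp (f := fun y : ℂ => p + y / a) h5 h3
    exact analyticAt_const.mul (h4.sub analyticAt_const)
  have hf1 : deriv (cj g p a) 0 = 1 := by
    rw [deriv_cj g p a ha]
    simpa using h1
  have hf2 : iteratedDeriv 2 (cj g p a) 0 = 2 := by
    rw [deriv2_cj g p a ha]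
    simp only [zero_div, add_zero]
    rw [h2]
    field_simp
  obtain ⟨e, r, hr, he, he0, hform⟩ := normal (cj g p a) hfa (cj_zero g p a h0) hf1 hf2
  obtain ⟨K⟩ := hN (cj g p a) e r hr he he0 hform
  exact ⟨trans g p a hg h0 h1 h2 ha K⟩

end Pool.Agent.MAT
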