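import Pool.Agent.MAT.T

/-!
# MAT-PKT: transport of a package to the normalised coordinate

With `f y = a (g (p + y / a) - p)`, the affine map `z ↦ a (z - p)` conjugates `g` to `f`.
-/

set_option autoImplicit false

open Polynomial Metric Set Filter Topology

noncomputable section

namespace Pool.Agent.MAT.PKT_

/-- the inverse of the affine change of coordinate -/
lemma back {a : ℂ} (ha : a ≠ 0) (p z : ℂ) : p + a * (z - p) / a = z := by
  rw [mul_div_cancel_left₀ _ ha]; ring

/-- the affine change of coordinate -/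
lemma fwd {a : ℂ} (ha : a ≠ 0) (p y : ℂ) : a * (p + y / a - p) = y := by
  rw [add_sub_cancel_left, mul_div_cancel₀ _ ha]

lemma iter {a : ℂ} (ha : a ≠ 0) (p : ℂ) (g : ℂ → ℂ) (m : ℕ) (y : ℂ) :
    (fun y => a * (g (p + y / a) - p))^[m] y = a * (g^[m] (p + y / a) - p) := by
  induction m with
  | zero => simp only [Function.iterate_zero, id_eq]; exact (fwd ha p y).symm
  | succ m ih =>
    rw [Function.iterate_succ_apply', ih, Function.iterate_succ_apply', back ha]

lemma iter' {a : ℂ} (ha : a ≠ 0) (p : ℂ) (g : ℂ → ℂ) (m : ℕ) (y : ℂ) :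
    p + (fun y => a * (g (p + y / a) - p))^[m] y / a = g^[m] (p + y / a) := by
  rw [iter ha, back ha]

lemma omc_eq {a : ℂ} (ha : a ≠ 0) (p y : ℂ) : omc 1 0 y = omc a p (p + y / a) := by
  unfold omc
  rw [fwd ha, one_mul, sub_zero]

lemma ne_iff {a : ℂ} (ha : a ≠ 0) (p y : ℂ) : p + y / a ≠ p ↔ y ≠ 0 := by
  rw [Ne, Ne, add_eq_left, div_eq_zero_iff]
  simp [ha]

lemma pin_iff {a : ℂ} (ha : a ≠ 0) (p : ℂ) (R : ℝ) (y : ℂ) :
    y ∈ PinS 1 0 R ↔ p + y / a ∈ PinS a p R := by
  unfold PinS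
  rw [mem_ofPred_eq, mem_ofPred_eq, omc_eq ha p y, ne_iff ha]

lemma pin' {a : ℂ} (ha : a ≠ 0) (p : ℂ) (R : ℝ) (z : ℂ) :
    a * (z - p) ∈ PinS 1 0 R ↔ z ∈ PinS a p R := by
  rw [pin_iff ha, back ha]

lemma der {a : ℂ} (p : ℂ) (G : ℂ → ℂ) :
    deriv (fun y => G (p + y / a)) = fun y => deriv G (p + y / a) / a := by
  funext y
  have h1 : (fun y => G (p + y / a)) = fun y => (fun z => G (p + z)) (a⁻¹ * y) := by
    funext y; simp only; rw [div_eq_inv_mul]
  rw [h1, deriv_comp_mul_left a⁻¹ (fun z => G (p + z)) y, deriv_comp_const_add, smul_eq_mul,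
    div_eq_inv_mul, div_eq_inv_mul]

lemma der1 {a : ℂ} (ha : a ≠ 0) (p : ℂ) (g : ℂ → ℂ) :
    deriv (fun y => a * (g (p + y / a) - p)) = fun y => deriv g (p + y / a) := by
  funext y
  rw [deriv_const_mul_field, deriv_sub_const]
  have h := congrFun (der (a := a) p g) y
  rw [h, mul_div_cancel₀ _ ha]

lemma der2 {a : ℂ} (ha : a ≠ 0) (p : ℂ) (g : ℂ → ℂ) :
    iteratedDeriv 2 (fun y => a * (g (p + y / a) - p)) =
      fun y => iteratedDeriv 2 g (p + y / a) / a := by
  rw [iteratedDeriv_succ, iteratedDeriv_one, der1 ha, der, iteratedDeriv_succ, iteratedDeriv_one]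

lemma der3 {a : ℂ} (ha : a ≠ 0) (p : ℂ) (g : ℂ → ℂ) :
    iteratedDeriv 3 (fun y => a * (g (p + y / a) - p)) =
      fun y => iteratedDeriv 3 g (p + y / a) / a / a := by
  rw [iteratedDeriv_succ, der2 ha]
  funext y
  have h1 : (fun y => iteratedDeriv 2 g (p + y / a) / a) =
      fun y => (fun y => iteratedDeriv 2 g (p + y / a)) y / a := rfl
  rw [h1, deriv_div_const, congrFun (der (a := a) p (iteratedDeriv 2 g)) y]
  rw [show (3 : ℕ) = 2 + 1 from rfl, iteratedDeriv_succ (n := 2) (f := g)]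

/-- the package in the normalised coordinate -/
def tr (g : ℂ → ℂ) (p a : ℂ) (K : PK g p a) : PK (fun y => a * (g (p + y / a) - p)) 0 1 where
  β := K.β
  Rp := K.Rp
  R := K.R
  C := K.C
  Fi := fun y => K.Fi (p + y / a)
  Ei := fun w => a * (K.Ei w - p)
  E := fun w => a * (K.E w - p)
  H := K.H
  a_ne := one_ne_zero
  hRp := K.hRp
  hR := K.hR
  hC := K.hC
  g_an := by
    have h1 : AnalyticAt ℂ (fun y : ℂ => p + y / a) 0 := by fun_prop
    have h2 : AnalyticAt ℂ g (p + 0 / a) := by rw [zero_div, add_zero]; exact K.g_an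
    have h3 : AnalyticAt ℂ (fun y : ℂ => g (p + y / a)) 0 :=
      AnalyticAt.comp (g := g) (f := fun y : ℂ => p + y / a) h2 h1
    exact analyticAt_const.mul (h3.sub analyticAt_const)
  g_fix := by simp only [zero_div, add_zero, K.g_fix, sub_self, mul_zero]
  g_der := by rw [der1 K.a_ne]; simp only [zero_div, add_zero, K.g_der]
  ha := by
    rw [der2 K.a_ne]
    simp only [zero_div, add_zero, K.ha]
    rw [mul_div_assoc, div_self K.a_ne]
  hβ := by
    rw [der3 K.a_ne]
    simp only [zero_div, add_zero, K.hβ]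
    have := K.a_ne
    field_simp
  in_hol := by
    have h : DifferentiableOn ℂ (fun y => g (p + y / a)) (PinS 1 0 K.Rp) := by
      refine K.in_hol.comp (f := fun y : ℂ => p + y / a) (by fun_prop) ?_
      intro y hy
      exact (pin_iff K.a_ne p K.Rp y).1 hy
    exact (h.sub_const p).const_mul a
  in_map := by
    intro z hz
    have h := K.in_map _ ((pin_iff K.a_ne p K.Rp z).1 hz)
    exact (pin' K.a_ne p K.Rp _).2 h
  in_conv := by
    intro z hz
    have h := K.in_conv _ ((pin_iff K.a_ne p K.Rp z).1 hz)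
    have h2 := (h.sub_const p).const_mul a
    rw [sub_self, mul_zero] at h2
    refine h2.congr fun m => ?_
    exact (iter K.a_ne p g m z).symm
  in_orb := by
    intro z hz m
    have h := K.in_orb _ ((pin_iff K.a_ne p K.Rp z).1 hz) m
    rw [omc_eq K.a_ne p z, omc_eq K.a_ne p (_^[m] z), iter' K.a_ne]
    exact h
  in_abs := by
    intro z h1 h2
    have h3 : Tendsto (fun m : ℕ => g^[m] (p + z / a)) atTop (𝓝 p) := by
      have h4 := (h1.div_const a).const_add p
      rw [zero_div, add_zero] at h4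
      refine h4.congr fun m => ?_
      exact iter' K.a_ne p g m z
    have h5 : ∀ m : ℕ, g^[m] (p + z / a) ≠ p := by
      intro m
      rw [← iter' K.a_ne p g m z]
      exact (ne_iff K.a_ne p _).2 (h2 m)
    obtain ⟨m, hm⟩ := K.in_abs _ h3 h5
    refine ⟨m, ?_⟩
    rw [pin_iff K.a_ne p, iter' K.a_ne]
    exact hm
  Fi_hol := by
    refine K.Fi_hol.comp (f := fun y : ℂ => p + y / a) (by fun_prop) ?_
    intro y hy
    exact (pin_iff K.a_ne p K.Rp y).1 hy
  Fi_inj := by
    intro y hy z hz h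
    have h1 := K.Fi_inj ((pin_iff K.a_ne p K.Rp y).1 hy) ((pin_iff K.a_ne p K.Rp z).1 hz) h
    rw [← fwd K.a_ne p y, h1, fwd K.a_ne p z]
  Fi_map := by
    intro z hz
    have h := K.Fi_map _ ((pin_iff K.a_ne p K.Rp z).1 hz)
    rw [back K.a_ne]
    exact h
  Fi_asy := by
    intro z hz
    have h := K.Fi_asy _ ((pin_iff K.a_ne p K.Rp z).1 hz)
    rw [omc_eq K.a_ne p z]
    exact h
  Ei_hol := (K.Ei_hol.sub_const p).const_mul a
  Ei_mem := by
    intro w hw
    exact (pin' K.a_ne p K.Rp _).2 (K.Ei_mem w hw)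
  Ei_inv := by
    intro w hw
    rw [back K.a_ne]
    exact K.Ei_inv w hw
  E_add := by
    intro w
    rw [back K.a_ne, K.E_add w]
  E_hol := (K.E_hol.sub_const p).const_mul a
  E_inj := by
    intro w hw w' hw' h
    refine K.E_inj hw hw' ?_
    have h1 : a * (K.E w - p) = a * (K.E w' - p) := h
    rw [← back K.a_ne p (K.E w), h1, back K.a_ne p (K.E w')]
  E_ne := by
    intro w hw
    exact mul_ne_zero K.a_ne (sub_ne_zero.2 (K.E_ne w hw))
  E_loc := by
    intro w hw
    rw [omc_eq K.a_ne p, back K.a_ne]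
    exact K.E_loc w hw
  E_asy := by
    intro w hw
    rw [omc_eq K.a_ne p, back K.a_ne]
    exact K.E_asy w hw
  E_conv := by
    intro w
    have h2 := ((K.E_conv w).sub_const p).const_mul a
    rw [sub_self, mul_zero] at h2
    exact h2
  E_surj := by
    intro y h1 h2 h3 X
    have h4 : Tendsto (fun m => p + y m / a) atTop (𝓝 p) := by
      have h5 := (h3.div_const a).const_add p
      rwa [zero_div, add_zero] at h5
    obtain ⟨m, w, hw, h⟩ := K.E_surj (fun m => p + y m / a)
      (fun m => by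
        have h6 : a * (g (p + y (m + 1) / a) - p) = y m := h1 m
        rw [← h6, back K.a_ne])
      (fun m => (ne_iff K.a_ne p _).2 (h2 m)) h4 X
    refine ⟨m, w, hw, ?_⟩
    rw [h]
    exact fwd K.a_ne p _
  E_hol2 := (K.E_hol2.sub_const p).const_mul a
  E_up := by
    intro ε hε
    have ha : 0 < ‖a‖ := norm_pos_iff.2 K.a_ne
    obtain ⟨Y, hY⟩ := K.E_up (ε / ‖a‖) (by positivity)
    refine ⟨Y, fun w hw => ?_⟩
    have h := hY w hw
    rw [lt_div_iff₀ ha] at h
    rw [sub_zero, norm_mul, mul_comm]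
    exact h
  H_hol := K.H_hol
  H_add := K.H_add
  H_lim := K.H_lim
  H_spec := by
    intro w hw
    obtain ⟨m, h1, h2⟩ := K.H_spec w hw
    refine ⟨m, ?_, ?_⟩
    · rw [pin_iff K.a_ne p, iter' K.a_ne, back K.a_ne]
      exact h1
    · rw [iter' K.a_ne, back K.a_ne]
      exact h2

end Pool.Agent.MAT.PKT_

namespace Pool.Agent.MAT

/-- PKT (transport of a package to the normalised coordinate) -/
theorem p_PKT : T_PKT := by
  intro g p a K
  exact ⟨PKT_.tr g p a K, rfl, rfl, rfl, rfl, fun _ => rfl, fun _ => rfl,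
    fun y => PKT_.pin_iff K.a_ne p K.Rp y⟩

end Pool.Agent.MAT
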