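import Pool.Agent.MAT.P_ZZ

/-! # MAT: QLOG (size of the logarithm in the strip) -/

set_option autoImplicit false

open Polynomial Metric Set Filter Topology

noncomputable section

namespace Pool.Agent.MAT

namespace QLOG_

lemma exp_le (z : ℂ) : ‖Complex.exp z - 1‖ ≤ ‖z‖ * Real.exp ‖z‖ := by
  have h := Complex.norm_exp_sub_sum_le_norm_mul_exp z 1
  simpa using h

/-- upper bound -/
lemma up (t : ℂ) (h0 : 0 < t.re) (h1 : t.re < 1) (h2 : |t.im| ≤ 1) :
    ‖1 - Complex.exp (2 * Real.pi * Complex.I * t)‖ ≤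
      (7 * Real.exp 13) * min ‖t‖ ‖t - 1‖ := by
  have hpi := Real.pi_pos
  have hpi2 := Real.pi_lt_d2
  have him := abs_le.mp h2
  have key : ∀ w : ℂ, |w.re| ≤ 1 → |w.im| ≤ 1 →
      Complex.exp (2 * Real.pi * Complex.I * t) = Complex.exp (2 * Real.pi * Complex.I * w) →
      ‖1 - Complex.exp (2 * Real.pi * Complex.I * t)‖ ≤ (7 * Real.exp 13) * ‖w‖ := by
    intro w hr hi he
    rw [he, norm_sub_rev]
    refine (exp_le _).trans ?_
    have hn : ‖2 * (Real.pi : ℂ) * Complex.I * w‖ = 2 * Real.pi * ‖w‖ := by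
      simp [abs_of_pos hpi]
    rw [hn]
    have hw : ‖w‖ ≤ 2 := by
      have := Complex.norm_le_abs_re_add_abs_im w
      linarith
    have hw0 := norm_nonneg w
    have hE : Real.exp (2 * Real.pi * ‖w‖) ≤ Real.exp 13 := by
      apply Real.exp_le_exp.mpr
      nlinarith
    have hE0 := Real.exp_pos 13
    have h3 : 2 * Real.pi * ‖w‖ ≤ 7 * ‖w‖ := by nlinarith
    calc 2 * Real.pi * ‖w‖ * Real.exp (2 * Real.pi * ‖w‖) ≤ 7 * ‖w‖ * Real.exp 13 :=
          mul_le_mul h3 hE (Real.exp_pos _).le (by positivity)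
      _ = 7 * Real.exp 13 * ‖w‖ := by ring
  have hE0 := Real.exp_pos 13
  have hA := key t (by rw [abs_of_pos h0]; exact h1.le) h2 rfl
  have hB := key (t - 1) (by
      simp only [Complex.sub_re, Complex.one_re]
      rw [abs_le]
      constructor <;> linarith) (by simpa using h2) (by
      have e : 2 * (Real.pi : ℂ) * Complex.I * t =
          2 * Real.pi * Complex.I * (t - 1) + 2 * Real.pi * Complex.I := by ring
      rw [e, Complex.exp_add, Complex.exp_two_pi_mul_I, mul_one])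
  rcases min_choice ‖t‖ ‖t - 1‖ with h | h
  · rw [h]; exact hA
  · rw [h]; exact hB

/-- lower bound -/
lemma low (t : ℂ) (h0 : 0 < t.re) (h1 : t.re < 1) (h2 : |t.im| ≤ 1) :
    min ‖t‖ ‖t - 1‖ / 8 ≤ ‖1 - Complex.exp (2 * Real.pi * Complex.I * t)‖ := by
  have hz := ZZ_low (1 - t) (by simp; linarith) (by simp; linarith)
  have e : Complex.exp (-(2 * Real.pi * Complex.I * (1 - t))) =
      Complex.exp (2 * Real.pi * Complex.I * t) := by
    have e' : -(2 * (Real.pi : ℂ) * Complex.I * (1 - t)) =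
        2 * Real.pi * Complex.I * t - 2 * Real.pi * Complex.I := by ring
    rw [e', Complex.exp_sub, Complex.exp_two_pi_mul_I, div_one]
  rw [e] at hz
  have e2 : ‖(1 - t) - 1‖ = ‖t‖ := by
    have : (1 - t) - 1 = -t := by ring
    rw [this, norm_neg]
  have e3 : ‖1 - t‖ = ‖t - 1‖ := norm_sub_rev _ _
  rw [e2, e3] at hz
  have h3 : ‖t‖ ≤ 2 := by
    have h4 := Complex.norm_le_abs_re_add_abs_im t
    rw [abs_of_pos h0] at h4
    linarith
  have h5 := min_le_left ‖t‖ ‖t - 1‖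
  have h6 := min_le_right ‖t‖ ‖t - 1‖
  have h7 := norm_nonneg t
  have h8 := norm_nonneg (t - 1)
  rcases hz with h | h | h <;> linarith

end QLOG_

open QLOG_ in
theorem p_QLOG : T_QLOG := by
  refine ⟨30, by norm_num, fun S hS => ⟨⌈S⌉₊ + 1, fun k hk τ h0 h1 h2 h3 h4 => ?_⟩⟩
  have hkS : S ≤ k := by
    have h5 : (⌈S⌉₊ : ℝ) ≤ k := by exact_mod_cast (Nat.le_succ _).trans hk
    exact (Nat.le_ceil S).trans h5
  have hk1 : (1 : ℝ) ≤ k := by exact_mod_cast (Nat.le_add_left 1 _).trans hk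
  set κ := kap S k with hκ
  have hκre : κ.re = k := by simp [hκ, kap]
  have hκim : κ.im = -S := by simp [hκ, kap]
  have hκsq : ‖κ‖ ^ 2 = (k : ℝ) ^ 2 + S ^ 2 := by
    rw [← Complex.normSq_eq_norm_sq, Complex.normSq_apply, hκre, hκim]
    ring
  have hκ0 : 0 < ‖κ‖ := by
    have : 0 < ‖κ‖ ^ 2 := by rw [hκsq]; positivity
    by_contra hcon
    have h6 : ‖κ‖ = 0 := le_antisymm (not_lt.mp hcon) (norm_nonneg _)
    rw [h6] at this
    norm_num at this
  have hκne : κ ≠ 0 := norm_pos_iff.mp hκ0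
  have hκlow : (k : ℝ) ≤ ‖κ‖ := by
    have : (k : ℝ) ^ 2 ≤ ‖κ‖ ^ 2 := by rw [hκsq]; nlinarith
    exact le_of_sq_le_sq this hκ0.le
  have hκup : ‖κ‖ ≤ 2 * k := by
    have : ‖κ‖ ^ 2 ≤ (2 * k : ℝ) ^ 2 := by rw [hκsq]; nlinarith
    exact le_of_sq_le_sq this (by positivity)
  set t := τ / κ with ht
  have hτ : τ = κ * t := by rw [ht]; field_simp
  have he : ell S k * τ = 2 * Real.pi * Complex.I * t := by
    have : ell S k = 2 * Real.pi * Complex.I / κ := rfl
    rw [this, ht]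
    ring
  have hn1 : ‖τ‖ = ‖κ‖ * ‖t‖ := by rw [hτ, norm_mul]
  have hn2 : ‖τ - κ‖ = ‖κ‖ * ‖t - 1‖ := by
    rw [hτ, ← norm_mul]
    congr 1
    ring
  have hm : min ‖τ‖ ‖τ - κ‖ = ‖κ‖ * min ‖t‖ ‖t - 1‖ := by
    rw [hn1, hn2, mul_min_of_nonneg _ _ hκ0.le]
  have ht0 : 0 < ‖t‖ := by
    by_contra hcon
    have : ‖t‖ = 0 := le_antisymm (not_lt.mp hcon) (norm_nonneg _)
    rw [hn1, this] at h3
    norm_num at h3
  have ht1 : 0 < ‖t - 1‖ := by
    by_contra hcon
    have : ‖t - 1‖ = 0 := le_antisymm (not_lt.mp hcon) (norm_nonneg _)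
    rw [hn2, this] at h4
    norm_num at h4
  have hmin0 : 0 < min ‖t‖ ‖t - 1‖ := lt_min ht0 ht1
  have hU := up t h0 h1 h2
  have hL := low t h0 h1 h2
  rw [he, hm, Real.log_mul hκ0.ne' hmin0.ne']
  set m := min ‖t‖ ‖t - 1‖ with hmdef
  set N := ‖1 - Complex.exp (2 * Real.pi * Complex.I * t)‖ with hN
  have hN0 : 0 < N := lt_of_lt_of_le (by positivity) hL
  have hk0 : (0 : ℝ) < k := by linarith
  have a1 : Real.log N ≤ Real.log (7 * Real.exp 13) + Real.log m := by
    rw [← Real.log_mul (by positivity) hmin0.ne']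
    exact Real.log_le_log hN0 hU
  have a2 : Real.log m - Real.log 8 ≤ Real.log N := by
    rw [← Real.log_div hmin0.ne' (by norm_num)]
    exact Real.log_le_log (by positivity) hL
  have a3 : Real.log k ≤ Real.log ‖κ‖ := Real.log_le_log hk0 hκlow
  have a4 : Real.log ‖κ‖ ≤ Real.log 2 + Real.log k := by
    rw [← Real.log_mul (by norm_num) hk0.ne']
    exact Real.log_le_log hκ0 hκup
  have a5 : Real.log (7 * Real.exp 13) = Real.log 7 + 13 := by
    rw [Real.log_mul (by norm_num) (Real.exp_pos _).ne', Real.log_exp]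
  have a6 : Real.log 7 ≤ 6 := by
    have := Real.log_le_sub_one_of_pos (show (0 : ℝ) < 7 by norm_num)
    linarith
  have a7 : Real.log 8 ≤ 7 := by
    have := Real.log_le_sub_one_of_pos (show (0 : ℝ) < 8 by norm_num)
    linarith
  have a8 : Real.log 2 ≤ 1 := by
    have := Real.log_le_sub_one_of_pos (show (0 : ℝ) < 2 by norm_num)
    linarith
  rw [abs_le]
  constructor <;> linarith

end Pool.Agent.MAT
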