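import Pool.Agent.MAT.T

/-!
# MAT: constants of the perturbation (RESA)
-/

set_option autoImplicit false

open Polynomial Metric Set Filter Topology

noncomputable section

namespace Pool.Agent.MAT

/-- second order expansion of a bounded holomorphic function -/
lemma RESA_taylor (f : ℂ → ℂ) (s B : ℝ) (hs : 0 < s)
    (hf : DifferentiableOn ℂ f (ball 0 s)) (hb : ∀ z ∈ ball (0 : ℂ) s, ‖f z‖ ≤ B) :
    ‖deriv f 0‖ ≤ 2 * B / s ∧ ∀ p ∈ ball (0 : ℂ) s, ∃ h : ℂ, ‖h‖ ≤ 4 * B / s / s ∧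
      f p = f 0 + p * deriv f 0 + p ^ 2 * h := by
  have h0 : (0 : ℂ) ∈ ball (0 : ℂ) s := mem_ball_self hs
  have hm : MapsTo f (ball 0 s) (closedBall (f 0) (2 * B)) := by
    intro z hz
    rw [mem_closedBall, dist_eq_norm]
    have h1 := hb z hz
    have h2 := hb 0 h0
    linarith [norm_sub_le (f z) (f 0)]
  have hd1 : ∀ z ∈ ball (0 : ℂ) s, ‖dslope f 0 z‖ ≤ 2 * B / s := fun z hz =>
    Complex.norm_dslope_le_div_of_mapsTo_ball hf hm hz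
  have hD1 : DifferentiableOn ℂ (dslope f 0) (ball 0 s) :=
    (Complex.differentiableOn_dslope (ball_mem_nhds 0 hs)).2 hf
  have hm2 : MapsTo (dslope f 0) (ball 0 s) (closedBall (dslope f 0 0) (4 * B / s)) := by
    intro z hz
    rw [mem_closedBall, dist_eq_norm]
    have h1 := hd1 z hz
    have h2 := hd1 0 h0
    have h3 : 4 * B / s = 2 * B / s + 2 * B / s := by ring
    linarith [norm_sub_le (dslope f 0 z) (dslope f 0 0)]
  have hd2 : ∀ z ∈ ball (0 : ℂ) s, ‖dslope (dslope f 0) 0 z‖ ≤ 4 * B / s / s := fun z hz =>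
    Complex.norm_dslope_le_div_of_mapsTo_ball hD1 hm2 hz
  refine ⟨?_, fun p hp => ⟨dslope (dslope f 0) 0 p, hd2 p hp, ?_⟩⟩
  · have h1 := hd1 0 h0
    rwa [dslope_same] at h1
  · have e1 := sub_smul_dslope f 0 p
    have e2 := sub_smul_dslope (dslope f 0) 0 p
    rw [dslope_same] at e2
    simp only [sub_zero, smul_eq_mul] at e1 e2
    have e3 : dslope f 0 p = deriv f 0 + p * dslope (dslope f 0) 0 p := by
      rw [e2]; ring
    rw [e3] at e1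
    linear_combination -e1

/-- the constants for `ek` -/
lemma RESA_const (e : ℂ → ℂ) (r : ℝ) (hr : 0 < r) (he : DifferentiableOn ℂ e (ball 0 r))
    (e0 : e 0 = 1) : ∃ K : ℝ, 1 ≤ K ∧ ∀ (p : ℂ) (ek : ℂ → ℂ) (ε : ℝ),
    DifferentiableOn ℂ ek (ball 0 r) → (∀ z ∈ ball (0 : ℂ) r, ‖ek z - e z‖ ≤ ε) → ε ≤ 1 →
    ‖p‖ < r / 2 → ∃ c h : ℂ, ‖c‖ ≤ K ∧ ‖h‖ ≤ K ∧ ‖c - deriv e 0‖ ≤ K * ε ∧
      ‖ek 0 - 1‖ ≤ ε ∧ ek p = ek 0 + p * c + p ^ 2 * h := by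
  have hcomp : IsCompact (closedBall (0 : ℂ) (r / 2)) := isCompact_closedBall 0 (r / 2)
  have hsub : closedBall (0 : ℂ) (r / 2) ⊆ ball 0 r := closedBall_subset_ball (by linarith)
  obtain ⟨B₀, hB₀⟩ := hcomp.exists_bound_of_continuousOn (he.continuousOn.mono hsub)
  have hB1 : (1 : ℝ) ≤ B₀ := by
    have := hB₀ 0 (mem_closedBall_self (by linarith))
    rwa [e0, norm_one] at this
  set s : ℝ := r / 2 with hs
  have hs0 : 0 < s := by rw [hs]; linarith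
  have hsub2 : ball (0 : ℂ) s ⊆ closedBall 0 (r / 2) := ball_subset_closedBall
  set B : ℝ := B₀ + 1 with hB
  refine ⟨1 + 2 * B / s + 4 * B / s / s + 2 / s, ?_, ?_⟩
  · have h1 : 0 ≤ 2 * B / s := by positivity
    have h2 : 0 ≤ 4 * B / s / s := by positivity
    have h3 : 0 ≤ 2 / s := by positivity
    linarith
  · intro p ek ε hek hε hε1 hp
    have h1 : 0 ≤ 2 * B / s := by positivity
    have h2 : 0 ≤ 4 * B / s / s := by positivity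
    have h3 : 0 ≤ 2 / s := by positivity
    have hbd : ∀ z ∈ ball (0 : ℂ) s, ‖ek z‖ ≤ B := by
      intro z hz
      have a1 := hB₀ z (hsub2 hz)
      have a2 := hε z (hsub (hsub2 hz))
      have a3 : ek z = e z + (ek z - e z) := by ring
      rw [a3]
      linarith [norm_add_le (e z) (ek z - e z)]
    have hek' : DifferentiableOn ℂ ek (ball 0 s) := hek.mono (hsub2.trans hsub)
    obtain ⟨t1, t2⟩ := RESA_taylor ek s B hs0 hek' hbd
    have hp' : p ∈ ball (0 : ℂ) s := by rw [mem_ball_zero_iff]; exact hp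
    obtain ⟨h, t3, t4⟩ := t2 p hp'
    have hε0 : 0 ≤ ε := (norm_nonneg _).trans (hε 0 (mem_ball_self hr))
    have he' : DifferentiableOn ℂ e (ball 0 s) := he.mono (hsub2.trans hsub)
    obtain ⟨t5, -⟩ := RESA_taylor (fun z => ek z - e z) s ε hs0 (hek'.sub he')
      (fun z hz => hε z (hsub (hsub2 hz)))
    have hd : deriv (fun z => ek z - e z) 0 = deriv ek 0 - deriv e 0 := by
      have n0 : ball (0 : ℂ) s ∈ 𝓝 (0 : ℂ) := ball_mem_nhds 0 hs0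
      exact deriv_fun_sub (hek'.differentiableAt n0) (he'.differentiableAt n0)
    refine ⟨deriv ek 0, h, by linarith, by linarith, ?_, ?_, t4⟩
    · rw [← hd]
      have a1 : 2 * ε / s = 2 / s * ε := by ring
      rw [a1] at t5
      have a2 : 0 ≤ (1 + 2 * B / s + 4 * B / s / s) * ε := by positivity
      nlinarith [a2, t5]
    · have a1 := hε 0 (mem_ball_self hr)
      rwa [e0] at a1

/-- the logarithm near `1` -/
lemma RESA_log (z : ℂ) (hz : ‖z‖ ≤ 1 / 2) : ‖Complex.log (1 + z) - z‖ ≤ ‖z‖ ^ 2 := by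
  have h := Complex.norm_log_one_add_sub_self_le (z := z) (by linarith)
  have h1 : (1 - ‖z‖)⁻¹ ≤ 2 := by
    rw [inv_le_comm₀ (by linarith) (by norm_num)]
    linarith
  have h2 : 0 ≤ ‖z‖ ^ 2 := by positivity
  nlinarith [h, h1, h2]

/-- the logarithm of the exponential of a small number -/
lemma RESA_logexp (z : ℂ) (hz : ‖z‖ < 3) : Complex.log (Complex.exp z) = z := by
  have h := Complex.abs_im_le_norm z
  have hpi := Real.pi_gt_three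
  have h1 := abs_le.1 (h.trans hz.le)
  exact Complex.log_exp (by linarith [h1.1]) (by linarith [h1.2])

theorem p_RESA : T_RESA := by
  intro e r hr he e0
  obtain ⟨K, hK, hconst⟩ := RESA_const e r hr he e0
  set d : ℂ := deriv e 0 with hd
  -- constants
  set W : ℝ := 2 * K + 4 with hW
  set C₁ : ℝ := W ^ 2 + K + 3 + 2 * K with hC₁
  set C₂ : ℝ := (2 * K + 8) + 4 * (2 * K + 4) with hC₂
  set C : ℝ := 2 * (C₁ + (1 + ‖d‖) * C₂ + K) + 16 with hC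
  have hd0 : 0 ≤ ‖d‖ := norm_nonneg d
  have hW0 : 6 ≤ W := by rw [hW]; linarith
  have hC₁0 : 0 ≤ C₁ := by rw [hC₁]; positivity
  have hC₂0 : 0 < C₂ := by rw [hC₂]; positivity
  have hC0 : 0 < C := by rw [hC]; positivity
  -- delta
  obtain ⟨δ, hδ0, hδ1, hδ2, hδ3, hδ4⟩ : ∃ δ : ℝ, 0 < δ ∧ δ ≤ 1 / 100 ∧ δ < r / 2 ∧
      (2 * K + 1) * δ ≤ 1 / 2 ∧ C₂ * (2 * δ) ≤ 1 / 2 := by
    refine ⟨min (1 / 100) (min (r / 4) (min (1 / (2 * (2 * K + 1))) (1 / (4 * C₂)))), ?_, ?_, ?_,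
      ?_, ?_⟩
    · have h1 : 0 < 1 / (2 * (2 * K + 1)) := by positivity
      have h2 : 0 < 1 / (4 * C₂) := by positivity
      have h3 : 0 < r / 4 := by positivity
      exact lt_min (by norm_num) (lt_min h3 (lt_min h1 h2))
    · exact min_le_left _ _
    · have h1 : min (1 / 100) (min (r / 4) (min (1 / (2 * (2 * K + 1))) (1 / (4 * C₂)))) ≤ r / 4 :=
        (min_le_right _ _).trans (min_le_left _ _)
      linarith
    · have h1 : min (1 / 100) (min (r / 4) (min (1 / (2 * (2 * K + 1))) (1 / (4 * C₂)))) ≤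
          1 / (2 * (2 * K + 1)) :=
        ((min_le_right _ _).trans (min_le_right _ _)).trans (min_le_left _ _)
      have h2 : 0 < 2 * K + 1 := by linarith
      calc (2 * K + 1) * _ ≤ (2 * K + 1) * (1 / (2 * (2 * K + 1))) :=
            mul_le_mul_of_nonneg_left h1 h2.le
        _ = 1 / 2 := by field_simp
    · have h1 : min (1 / 100) (min (r / 4) (min (1 / (2 * (2 * K + 1))) (1 / (4 * C₂)))) ≤
          1 / (4 * C₂) :=
        ((min_le_right _ _).trans (min_le_right _ _)).trans (min_le_right _ _)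
      calc C₂ * (2 * _) ≤ C₂ * (2 * (1 / (4 * C₂))) :=
            mul_le_mul_of_nonneg_left (by linarith) hC₂0.le
        _ = 1 / 2 := by field_simp; norm_num
  refine ⟨C, δ, hC0, hδ0, ?_⟩
  intro p ℓ ek ε hek hε hεδ hp hℓ hpδ hexp
  have hε0 : 0 ≤ ε := (norm_nonneg _).trans (hε 0 (mem_ball_self hr))
  obtain ⟨c, h, hc, hh, hcd, ha, hb⟩ := hconst p ek ε hek hε (by linarith) (by linarith)
  set a : ℂ := ek 0 with hadef
  set b : ℂ := ek p with hbdef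
  set T : ℝ := ‖p‖ + ε with hT
  have hp0 : 0 < ‖p‖ := norm_pos_iff.2 hp
  have hT0 : 0 < T := by rw [hT]; linarith
  have hT1 : T ≤ 2 * δ := by rw [hT]; linarith
  have hpT : ‖p‖ ≤ T := by rw [hT]; linarith
  have hεT : ε ≤ T := by rw [hT]; linarith
  have hp1 : ‖p‖ ≤ 1 := by linarith
  have hpp : ‖p‖ ^ 2 ≤ ‖p‖ := by nlinarith
  -- size of `a` and `b`
  have ha2 : ‖a‖ ≤ 2 := by
    have e1 : a = (a - 1) + 1 := by ring
    rw [e1]
    have := norm_add_le (a - 1) 1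
    rw [norm_one] at this
    linarith
  have hb1 : ‖b - 1‖ ≤ ε + 2 * K * ‖p‖ := by
    have e1 : b - 1 = (a - 1) + p * c + p ^ 2 * h := by rw [hb]; ring
    rw [e1]
    have h1 := norm_add₃_le (a := a - 1) (b := p * c) (c := p ^ 2 * h)
    rw [norm_mul, norm_mul, norm_pow] at h1
    have h2 : ‖p‖ * ‖c‖ ≤ ‖p‖ * K := mul_le_mul_of_nonneg_left hc hp0.le
    have h3 : ‖p‖ ^ 2 * ‖h‖ ≤ ‖p‖ * K := mul_le_mul hpp hh (norm_nonneg _) hp0.le
    linarith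
  have hb1' : ‖b - 1‖ ≤ (1 + 2 * K) * T := by
    rw [hT]
    nlinarith
  have hb2 : ‖b‖ ≤ 2 := by
    have e1 : b = (b - 1) + 1 := by ring
    rw [e1]
    have h1 := norm_add_le (b - 1) 1
    rw [norm_one] at h1
    have h2 : 2 * K * ‖p‖ ≤ 2 * K * δ := mul_le_mul_of_nonneg_left hpδ (by linarith)
    linarith
  -- `ℓ` and `ℓ'`
  set ℓ' : ℂ := Complex.log (1 + p * b) with hℓ'
  have hlogℓ : Complex.log (1 + -(p * a)) = ℓ := by
    rw [← sub_eq_add_neg, ← hexp]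
    exact RESA_logexp ℓ (by linarith)
  have npa : ‖p * a‖ ≤ 2 * ‖p‖ := by
    rw [norm_mul]; nlinarith
  have npb : ‖p * b‖ ≤ 2 * ‖p‖ := by
    rw [norm_mul]; nlinarith
  have hv1' : ‖ℓ + p * a‖ ≤ 4 * ‖p‖ ^ 2 := by
    have h1 := RESA_log (-(p * a)) (by rw [norm_neg]; linarith)
    rw [hlogℓ, norm_neg, sub_neg_eq_add] at h1
    have h2 : ‖p * a‖ ^ 2 ≤ (2 * ‖p‖) ^ 2 := pow_le_pow_left₀ (norm_nonneg _) npa 2
    linarith
  have hv2' : ‖ℓ' - p * b‖ ≤ 4 * ‖p‖ ^ 2 := by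
    have h1 := RESA_log (p * b) (by linarith)
    have h2 : ‖p * b‖ ^ 2 ≤ (2 * ‖p‖) ^ 2 := pow_le_pow_left₀ (norm_nonneg _) npb 2
    linarith
  have hv1 : ‖ℓ + p‖ ≤ 4 * ‖p‖ ^ 2 + ‖p‖ * ε := by
    have e1 : ℓ + p = (ℓ + p * a) + -(p * (a - 1)) := by ring
    rw [e1]
    have h1 := norm_add_le (ℓ + p * a) (-(p * (a - 1)))
    rw [norm_neg, norm_mul] at h1
    have h2 : ‖p‖ * ‖a - 1‖ ≤ ‖p‖ * ε := mul_le_mul_of_nonneg_left ha hp0.le
    linarith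
  have hv1T : ‖ℓ + p‖ ≤ 4 * ‖p‖ * T := by
    rw [hT]
    have : 0 ≤ ‖p‖ * ε := by positivity
    nlinarith
  have hv2T : ‖ℓ' - p‖ ≤ (2 * K + 4) * ‖p‖ * T := by
    have e1 : ℓ' - p = (ℓ' - p * b) + p * (b - 1) := by ring
    rw [e1]
    have h1 := norm_add_le (ℓ' - p * b) (p * (b - 1))
    rw [norm_mul] at h1
    have h2 : ‖p‖ * ‖b - 1‖ ≤ ‖p‖ * (ε + 2 * K * ‖p‖) := mul_le_mul_of_nonneg_left hb1 hp0.le
    have h3 : 0 ≤ ‖p‖ * ε := by positivity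
    have h4 : 0 ≤ K * (‖p‖ * ε) := by positivity
    have e2 : (2 * K + 4) * ‖p‖ * T =
        2 * K * ‖p‖ ^ 2 + 4 * ‖p‖ ^ 2 + 2 * (K * (‖p‖ * ε)) + 4 * (‖p‖ * ε) := by
      rw [hT]; ring
    have e3 : ‖p‖ * (ε + 2 * K * ‖p‖) = ‖p‖ * ε + 2 * K * ‖p‖ ^ 2 := by ring
    rw [e3] at h2
    rw [e2]
    linarith
  -- the product
  have hA2 : ‖ℓ * ℓ' + p ^ 2‖ ≤ C₂ * (‖p‖ ^ 2 * T) := by
    have e1 : ℓ * ℓ' + p ^ 2 = -(p * (ℓ' - p)) + (ℓ + p) * p + (ℓ + p) * (ℓ' - p) := by ring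
    rw [e1]
    have h1 := norm_add₃_le (a := -(p * (ℓ' - p))) (b := (ℓ + p) * p) (c := (ℓ + p) * (ℓ' - p))
    rw [norm_neg, norm_mul, norm_mul, norm_mul] at h1
    have h2 : ‖p‖ * ‖ℓ' - p‖ ≤ ‖p‖ * ((2 * K + 4) * ‖p‖ * T) :=
      mul_le_mul_of_nonneg_left hv2T hp0.le
    have h3 : ‖ℓ + p‖ * ‖p‖ ≤ 4 * ‖p‖ * T * ‖p‖ := mul_le_mul_of_nonneg_right hv1T hp0.le
    have h4 : ‖ℓ + p‖ * ‖ℓ' - p‖ ≤ (4 * ‖p‖ * T) * ((2 * K + 4) * ‖p‖ * T) :=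
      mul_le_mul hv1T hv2T (norm_nonneg _) (by positivity)
    have h5 : (4 * ‖p‖ * T) * ((2 * K + 4) * ‖p‖ * T) ≤
        4 * (2 * K + 4) * (‖p‖ ^ 2 * T) := by
      have e2 : (4 * ‖p‖ * T) * ((2 * K + 4) * ‖p‖ * T) =
        4 * (2 * K + 4) * (‖p‖ ^ 2 * T) * T := by ring
      rw [e2]
      have h6 : 0 ≤ 4 * (2 * K + 4) * (‖p‖ ^ 2 * T) := by positivity
      exact mul_le_of_le_one_right h6 (by linarith)
    rw [hC₂]
    nlinarith
  have hlow : ‖p‖ ^ 2 / 2 ≤ ‖ℓ * ℓ'‖ := by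
    have h1 : C₂ * (‖p‖ ^ 2 * T) ≤ ‖p‖ ^ 2 / 2 := by
      have e1 : C₂ * (‖p‖ ^ 2 * T) = ‖p‖ ^ 2 * (C₂ * T) := by ring
      have h2 : C₂ * T ≤ 1 / 2 := (mul_le_mul_of_nonneg_left hT1 hC₂0.le).trans hδ4
      rw [e1]
      nlinarith [sq_nonneg ‖p‖]
    have h3 : ‖p‖ ^ 2 ≤ ‖ℓ * ℓ' + p ^ 2‖ + ‖ℓ * ℓ'‖ := by
      have e1 : p ^ 2 = (ℓ * ℓ' + p ^ 2) - ℓ * ℓ' := by ring
      have h4 := norm_sub_le (ℓ * ℓ' + p ^ 2) (ℓ * ℓ')
      rw [← e1, norm_pow] at h4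
      exact h4
    linarith
  have hne : ℓ * ℓ' ≠ 0 := by
    intro h0
    rw [h0, norm_zero] at hlow
    have : 0 < ‖p‖ ^ 2 := by positivity
    linarith
  have hℓne : ℓ ≠ 0 := left_ne_zero_of_mul hne
  have hℓ'ne : ℓ' ≠ 0 := right_ne_zero_of_mul hne
  -- the sum
  set w : ℂ := p ^ 2 * (c + p * h - a * b) with hw
  have hexpL : Complex.exp (ℓ + ℓ') = 1 + w := by
    have h1 : (1 : ℂ) + p * b ≠ 0 := by
      intro h0
      have h2 : p * b = -1 := by linear_combination h0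
      rw [h2, norm_neg, norm_one] at npb
      linarith
    rw [Complex.exp_add, hexp, hℓ', Complex.exp_log h1, hw]
    rw [hb]
    ring
  have hL : ℓ + ℓ' = Complex.log (1 + w) := by
    rw [← hexpL]
    refine (RESA_logexp _ ?_).symm
    have h1 := norm_add_le ℓ ℓ'
    have h2 : ‖ℓ'‖ ≤ ‖ℓ' - p * b‖ + ‖p * b‖ := by
      have h3 := norm_add_le (ℓ' - p * b) (p * b)
      rwa [sub_add_cancel] at h3
    linarith
  have hwn : ‖w‖ ≤ W * ‖p‖ ^ 2 := by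
    rw [hw, norm_mul, norm_pow]
    have h1 : ‖c + p * h - a * b‖ ≤ W := by
      have h2 := norm_sub_le (c + p * h) (a * b)
      have h3 := norm_add_le c (p * h)
      rw [norm_mul] at h2 h3
      have h4 : ‖p‖ * ‖h‖ ≤ 1 * K := mul_le_mul hp1 hh (norm_nonneg _) zero_le_one
      have h5 : ‖a‖ * ‖b‖ ≤ 2 * 2 := mul_le_mul ha2 hb2 (norm_nonneg _) (by norm_num)
      rw [hW]
      linarith
    nlinarith [sq_nonneg ‖p‖]
  have hwh : ‖w‖ ≤ 1 / 2 := by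
    have h1 : W * ‖p‖ ^ 2 ≤ W * δ * ‖p‖ := by
      have : ‖p‖ ^ 2 = ‖p‖ * ‖p‖ := by ring
      rw [this]
      have h2 : W * (‖p‖ * ‖p‖) = (W * ‖p‖) * ‖p‖ := by ring
      rw [h2]
      exact mul_le_mul_of_nonneg_right (mul_le_mul_of_nonneg_left hpδ (by linarith)) hp0.le
    have h3 : W * δ ≤ 1 := by
      rw [hW]
      nlinarith
    have h4 : W * δ * ‖p‖ ≤ 1 * ‖p‖ := mul_le_mul_of_nonneg_right h3 hp0.le
    linarith
  have hA1 : ‖ℓ + ℓ' - p ^ 2 * (c - 1)‖ ≤ C₁ * (‖p‖ ^ 2 * T) := by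
    have e1 : ℓ + ℓ' - p ^ 2 * (c - 1) = (Complex.log (1 + w) - w) +
        p ^ 2 * (p * h + (1 - a * b)) := by
      rw [hL, hw]; ring
    rw [e1]
    have h1 := norm_add_le (Complex.log (1 + w) - w) (p ^ 2 * (p * h + (1 - a * b)))
    have h2 := RESA_log w hwh
    have h3 : ‖w‖ ^ 2 ≤ W ^ 2 * (‖p‖ ^ 2 * T) := by
      have h4 : ‖w‖ ^ 2 ≤ (W * ‖p‖ ^ 2) ^ 2 := pow_le_pow_left₀ (norm_nonneg _) hwn 2
      have h5 : (W * ‖p‖ ^ 2) ^ 2 = W ^ 2 * (‖p‖ ^ 2 * ‖p‖ ^ 2) := by ring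
      have h6 : ‖p‖ ^ 2 * ‖p‖ ^ 2 ≤ ‖p‖ ^ 2 * T :=
        mul_le_mul_of_nonneg_left (hpp.trans hpT) (by positivity)
      have h7 : W ^ 2 * (‖p‖ ^ 2 * ‖p‖ ^ 2) ≤ W ^ 2 * (‖p‖ ^ 2 * T) :=
        mul_le_mul_of_nonneg_left h6 (by positivity)
      linarith
    have h8 : ‖p ^ 2 * (p * h + (1 - a * b))‖ ≤ ‖p‖ ^ 2 * ((K + 3 + 2 * K) * T) := by
      rw [norm_mul, norm_pow]
      refine mul_le_mul_of_nonneg_left ?_ (by positivity)
      have h9 := norm_add_le (p * h) (1 - a * b)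
      rw [norm_mul] at h9
      have h10 : ‖p‖ * ‖h‖ ≤ T * K := mul_le_mul hpT hh (norm_nonneg _) hT0.le
      have h11 : ‖1 - a * b‖ ≤ 2 * T + (1 + 2 * K) * T := by
        have e2 : 1 - a * b = -((a - 1) * b) + -(b - 1) := by ring
        rw [e2]
        have h12 := norm_add_le (-((a - 1) * b)) (-(b - 1))
        rw [norm_neg, norm_neg, norm_mul] at h12
        have h13 : ‖a - 1‖ * ‖b‖ ≤ T * 2 :=
          mul_le_mul (ha.trans hεT) hb2 (norm_nonneg _) hT0.le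
        linarith
      linarith
    rw [hC₁]
    linarith
  -- conclusion
  have hcd' : ‖c - d‖ ≤ K * T := hcd.trans (mul_le_mul_of_nonneg_left hεT (by linarith))
  refine ⟨?_, ?_, hℓ'ne⟩
  · have e1 : rhoc ℓ p ek - (1 - d) =
        ((ℓ + ℓ' - p ^ 2 * (c - 1)) - (1 - d) * (ℓ * ℓ' + p ^ 2) + p ^ 2 * (c - d)) /
          (ℓ * ℓ') := by
      have e2 : rhoc ℓ p ek = 1 / ℓ + 1 / ℓ' := rfl
      rw [e2]
      field_simp
      ring
    rw [e1, norm_div]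
    have hN : ‖(ℓ + ℓ' - p ^ 2 * (c - 1)) - (1 - d) * (ℓ * ℓ' + p ^ 2) + p ^ 2 * (c - d)‖ ≤
        (C₁ + (1 + ‖d‖) * C₂ + K) * (‖p‖ ^ 2 * T) := by
      have h1 := norm_add_le ((ℓ + ℓ' - p ^ 2 * (c - 1)) - (1 - d) * (ℓ * ℓ' + p ^ 2))
        (p ^ 2 * (c - d))
      have h2 := norm_sub_le (ℓ + ℓ' - p ^ 2 * (c - 1)) ((1 - d) * (ℓ * ℓ' + p ^ 2))
      rw [norm_mul (1 - d)] at h2
      rw [norm_mul (p ^ 2), norm_pow] at h1
      have h3 : ‖1 - d‖ ≤ 1 + ‖d‖ := by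
        have := norm_sub_le (1 : ℂ) d
        rwa [norm_one] at this
      have h4 : ‖1 - d‖ * ‖ℓ * ℓ' + p ^ 2‖ ≤ (1 + ‖d‖) * (C₂ * (‖p‖ ^ 2 * T)) :=
        mul_le_mul h3 hA2 (norm_nonneg _) (by linarith)
      have h5 : ‖p‖ ^ 2 * ‖c - d‖ ≤ ‖p‖ ^ 2 * (K * T) :=
        mul_le_mul_of_nonneg_left hcd' (by positivity)
      linarith
    have hpos : 0 < ‖ℓ * ℓ'‖ := norm_pos_iff.2 hne
    rw [div_le_iff₀ hpos]
    have h6 : C * T * (‖p‖ ^ 2 / 2) ≤ C * T * ‖ℓ * ℓ'‖ :=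
      mul_le_mul_of_nonneg_left hlow (by positivity)
    have h7 : (C₁ + (1 + ‖d‖) * C₂ + K) * (‖p‖ ^ 2 * T) ≤ C * T * (‖p‖ ^ 2 / 2) := by
      have e3 : C * T * (‖p‖ ^ 2 / 2) =
          (C₁ + (1 + ‖d‖) * C₂ + K) * (‖p‖ ^ 2 * T) + 8 * (‖p‖ ^ 2 * T) := by
        rw [hC]; ring
      have h8 : 0 ≤ 8 * (‖p‖ ^ 2 * T) := by positivity
      linarith
    linarith
  · have hpl : ‖p‖ ≤ 2 * ‖ℓ‖ := by
      have h1 := norm_sub_le (ℓ + p) ℓ
      rw [add_sub_cancel_left] at h1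
      have h2 : ‖p‖ ^ 2 ≤ ‖p‖ * (1 / 100) := by
        have : ‖p‖ ^ 2 = ‖p‖ * ‖p‖ := by ring
        rw [this]
        exact mul_le_mul_of_nonneg_left (by linarith) hp0.le
      have h3 : ‖p‖ * ε ≤ ‖p‖ * (1 / 100) := mul_le_mul_of_nonneg_left (by linarith) hp0.le
      linarith
    have hl0 : 0 ≤ ‖ℓ‖ := norm_nonneg ℓ
    rw [add_comm p ℓ]
    have h4 : ‖p‖ ^ 2 ≤ (2 * ‖ℓ‖) ^ 2 := pow_le_pow_left₀ hp0.le hpl 2
    have h5 : ‖p‖ * ε ≤ 2 * ‖ℓ‖ * ε := mul_le_mul_of_nonneg_right hpl hε0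
    have h6 : 16 * ‖ℓ‖ * (‖ℓ‖ + ε) ≤ C * ‖ℓ‖ * (‖ℓ‖ + ε) := by
      have h7 : (16 : ℝ) ≤ C := by
        rw [hC]
        have : 0 ≤ 2 * (C₁ + (1 + ‖d‖) * C₂ + K) := by positivity
        linarith
      exact mul_le_mul_of_nonneg_right (mul_le_mul_of_nonneg_right h7 hl0) (by linarith)
    have h8 : 0 ≤ ‖ℓ‖ * ε := by positivity
    nlinarith

end Pool.Agent.MAT
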