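import Pool.Agent.MAT.T

/-!
# MAT: RESB (the error term of the perturbation)
-/

set_option autoImplicit false

open Polynomial Metric Set Filter Topology

noncomputable section

namespace Pool.Agent.MAT

namespace RESB_

/-- `e` is Lipschitz at `0`. -/
lemma lip (e : ℂ → ℂ) (r : ℝ) (hr : 0 < r) (he : DifferentiableOn ℂ e (ball 0 r))
    (he0 : e 0 = 1) : ∃ L r₀ : ℝ, 0 ≤ L ∧ 0 < r₀ ∧ r₀ ≤ r ∧
      ∀ z ∈ ball (0 : ℂ) r₀, ‖e z - 1‖ ≤ L * ‖z‖ := by
  have h0 : DifferentiableAt ℂ e 0 :=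
    he.differentiableAt (isOpen_ball.mem_nhds (mem_ball_self hr))
  obtain ⟨L, hL⟩ := h0.isBigO_sub.bound
  obtain ⟨s, hs, hsb⟩ := Metric.eventually_nhds_iff_ball.mp hL
  refine ⟨|L|, min s r, abs_nonneg L, lt_min hs hr, min_le_right _ _, fun z hz => ?_⟩
  have h1 := hsb z (ball_subset_ball (min_le_left _ _) hz)
  rw [he0, sub_zero] at h1
  exact h1.trans (mul_le_mul_of_nonneg_right (le_abs_self L) (norm_nonneg z))

/-- the logarithm is Lipschitz -/
lemma log_lip (x y : ℂ) (hx : ‖x‖ ≤ 1 / 2) (hy : ‖y‖ ≤ 1 / 2) :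
    ‖Complex.log (1 + x) - Complex.log (1 + y)‖ ≤ 2 * ‖x - y‖ := by
  have hs : ∀ t ∈ closedBall (0 : ℂ) (1 / 2), (1 + t) ∈ Complex.slitPlane := by
    intro t ht
    rw [mem_closedBall, dist_zero_right] at ht
    refine Complex.mem_slitPlane_of_norm_lt_one (lt_of_le_of_lt ht (by norm_num))
  have hd : ∀ t ∈ closedBall (0 : ℂ) (1 / 2),
      HasDerivWithinAt (fun t : ℂ => Complex.log (1 + t)) (1 / (1 + t))
        (closedBall (0 : ℂ) (1 / 2)) t := by
    intro t ht
    exact (((hasDerivAt_id t).const_add (1 : ℂ)).clog (hs t ht)).hasDerivWithinAt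
  have hb : ∀ t ∈ closedBall (0 : ℂ) (1 / 2), ‖1 / (1 + t)‖ ≤ 2 := by
    intro t ht
    rw [mem_closedBall, dist_zero_right] at ht
    have h1 : (1 : ℝ) / 2 ≤ ‖1 + t‖ := by
      have h2 : ‖(1 : ℂ)‖ ≤ ‖1 + t‖ + ‖t‖ := by
        have := norm_sub_le (1 + t) t
        simpa using this
      rw [norm_one] at h2
      linarith
    rw [norm_div, norm_one, div_le_iff₀ (by linarith)]
    linarith
  have := (convex_closedBall (0 : ℂ) (1 / 2)).norm_image_sub_le_of_norm_hasDerivWithin_le hd hb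
    (show y ∈ closedBall (0 : ℂ) (1 / 2) by simpa using hy)
    (show x ∈ closedBall (0 : ℂ) (1 / 2) by simpa using hx)
  exact this

/-- two zeros -/
lemma two_zeros (F : ℂ → ℂ) (p : ℂ) (s M : ℝ) (hs : 0 < s) (_hM : 0 ≤ M)
    (hF : DifferentiableOn ℂ F (ball 0 (2 * s))) (hb : ∀ z ∈ ball (0 : ℂ) (2 * s), ‖F z‖ ≤ M)
    (hF0 : F 0 = 0) (hFp : F p = 0) (hp0 : p ≠ 0) (hp : ‖p‖ ≤ s / 2) (z : ℂ)
    (hz : z ∈ ball (0 : ℂ) s) : ‖F z‖ ≤ ((M + 1) / (2 * s) + 1) / (3 / 2 * s) * ‖z‖ * ‖z - p‖ := by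
  have hs2 : 0 < 2 * s := by linarith
  set F1 : ℂ → ℂ := dslope F 0 with hF1
  have hd1 : DifferentiableOn ℂ F1 (ball 0 (2 * s)) :=
    (Complex.differentiableOn_dslope (isOpen_ball.mem_nhds (mem_ball_self hs2))).2 hF
  have hb1 : ∀ w ∈ ball (0 : ℂ) (2 * s), ‖F1 w‖ ≤ (M + 1) / (2 * s) := by
    intro w hw
    refine Complex.norm_dslope_le_div_of_mapsTo_ball hF (fun y hy => ?_) hw
    rw [hF0, mem_closedBall, dist_zero_right]
    exact (hb y hy).trans (by linarith)
  have hmul1 : ∀ w, F w = w * F1 w := by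
    intro w
    have := sub_smul_dslope F 0 w
    rw [hF0, sub_zero, sub_zero, smul_eq_mul] at this
    exact this.symm
  have hF1p : F1 p = 0 := by
    have := hmul1 p
    rw [hFp] at this
    rcases mul_eq_zero.mp this.symm with h | h
    · exact absurd h hp0
    · exact h
  have hsub : ball p (3 / 2 * s) ⊆ ball (0 : ℂ) (2 * s) := by
    intro w hw
    rw [mem_ball, dist_eq_norm] at hw
    rw [mem_ball, dist_zero_right]
    have : ‖w‖ ≤ ‖w - p‖ + ‖p‖ := by
      have := norm_add_le (w - p) p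
      rwa [sub_add_cancel] at this
    linarith
  have hzp : z ∈ ball p (3 / 2 * s) := by
    rw [mem_ball, dist_zero_right] at hz
    rw [mem_ball, dist_eq_norm]
    have := norm_sub_le z p
    linarith
  have hb2 : ‖dslope F1 p z‖ ≤ ((M + 1) / (2 * s) + 1) / (3 / 2 * s) := by
    refine Complex.norm_dslope_le_div_of_mapsTo_ball (hd1.mono hsub) (fun y hy => ?_) hzp
    rw [hF1p, mem_closedBall, dist_zero_right]
    exact (hb1 y (hsub hy)).trans (by linarith)
  have hmul2 : F1 z = (z - p) * dslope F1 p z := by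
    have := sub_smul_dslope F1 p z
    rw [hF1p, sub_zero, smul_eq_mul] at this
    exact this.symm
  rw [hmul1 z, hmul2, norm_mul, norm_mul]
  have h1 : 0 ≤ ‖z‖ * ‖z - p‖ := by positivity
  calc ‖z‖ * (‖z - p‖ * ‖dslope F1 p z‖) = ‖dslope F1 p z‖ * (‖z‖ * ‖z - p‖) := by ring
    _ ≤ ((M + 1) / (2 * s) + 1) / (3 / 2 * s) * (‖z‖ * ‖z - p‖) :=
        mul_le_mul_of_nonneg_right hb2 h1
    _ = _ := by ring

end RESB_

open RESB_ in
/-- RESB -/
theorem p_RESB (hRESA : T_RESA) : T_RESB := by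
  intro e r hr he he0
  obtain ⟨L, r₀, hL, hr₀, hr₀r, hlip⟩ := lip e r hr he he0
  obtain ⟨CA, δA, hCA, hδA, hA⟩ := hRESA e r hr he he0
  set s : ℝ := min (r₀ / 2) (min (1 / 16) (1 / (8 * (L + 1)))) with hs
  have hs0 : 0 < s := by
    rw [hs]; refine lt_min (by linarith) (lt_min (by norm_num) (by positivity))
  have hs1 : s ≤ r₀ / 2 := min_le_left _ _
  have hs2 : s ≤ 1 / 16 := (min_le_right _ _).trans (min_le_left _ _)
  have hs3 : s ≤ 1 / (8 * (L + 1)) := (min_le_right _ _).trans (min_le_right _ _)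
  have hs4 : L * (2 * s) ≤ 1 / 4 := by
    have h1 : (L + 1) * s ≤ 1 / 8 := by
      rw [le_div_iff₀ (by positivity)] at hs3
      nlinarith
    nlinarith
  set δ : ℝ := min δA (min (1 / 16) (min (s / 2) (1 / (8 * (CA + 1))))) with hδ
  have hδ0 : 0 < δ := by
    rw [hδ]; refine lt_min hδA (lt_min (by norm_num) (lt_min (by linarith) (by positivity)))
  have hδ1 : δ ≤ δA := min_le_left _ _
  have hδ2 : δ ≤ 1 / 16 := (min_le_right _ _).trans (min_le_left _ _)
  have hδ3 : δ ≤ s / 2 := (min_le_right _ _).trans ((min_le_right _ _).trans (min_le_left _ _))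
  have hδ4' : δ ≤ 1 / (8 * (CA + 1)) :=
    (min_le_right _ _).trans ((min_le_right _ _).trans (min_le_right _ _))
  have hδ4 : CA * δ ≤ 1 / 8 := by
    have h1 : (CA + 1) * δ ≤ 1 / 8 := by
      rw [le_div_iff₀ (by positivity)] at hδ4'
      nlinarith
    nlinarith
  set M : ℝ := 9 + ‖1 - deriv e 0‖ with hM
  have hM0 : 0 ≤ M := by positivity
  set C : ℝ := ((M + 1) / (2 * s) + 1) / (3 / 2 * s) + (L + 4) with hC
  have hC1 : 0 < ((M + 1) / (2 * s) + 1) / (3 / 2 * s) := by positivity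
  refine ⟨C, δ, s, by positivity, hδ0, hs0, by linarith, ?_⟩
  intro p ℓ ek ε hek hεb hε hp0 hℓ hp hexp
  have hε0 : 0 ≤ ε := (norm_nonneg _).trans (hεb 0 (mem_ball_self hr))
  obtain ⟨hA1, hA2, hA3⟩ := hA p ℓ ek ε hek hεb (hε.trans hδ1) hp0 (hℓ.trans hδ1) (hp.trans hδ1) hexp
  -- sizes of ek
  have h2s : ball (0 : ℂ) (2 * s) ⊆ ball 0 r₀ := ball_subset_ball (by linarith)
  have h2sr : ball (0 : ℂ) (2 * s) ⊆ ball 0 r := ball_subset_ball (by linarith)
  have hek1 : ∀ z ∈ ball (0 : ℂ) (2 * s), ‖ek z - 1‖ ≤ ε + L * ‖z‖ := by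
    intro z hz
    have h1 := hεb z (h2sr hz)
    have h2 := hlip z (h2s hz)
    have h3 : ek z - 1 = (ek z - e z) + (e z - 1) := by ring
    rw [h3]
    exact (norm_add_le _ _).trans (add_le_add h1 h2)
  have hek2 : ∀ z ∈ ball (0 : ℂ) (2 * s), ‖ek z‖ ≤ 3 / 2 := by
    intro z hz
    have h1 := hek1 z hz
    rw [mem_ball, dist_zero_right] at hz
    have h2 : L * ‖z‖ ≤ L * (2 * s) := mul_le_mul_of_nonneg_left hz.le hL
    have h3 : ‖ek z‖ ≤ ‖ek z - 1‖ + ‖(1 : ℂ)‖ := by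
      have := norm_add_le (ek z - 1) 1
      rwa [sub_add_cancel] at this
    rw [norm_one] at h3
    linarith
  have hx : ∀ z ∈ ball (0 : ℂ) (2 * s), ‖z * ek z‖ ≤ 1 / 2 := by
    intro z hz
    have h1 := hek2 z hz
    rw [mem_ball, dist_zero_right] at hz
    rw [norm_mul]
    nlinarith [norm_nonneg z, norm_nonneg (ek z)]
  have hy : ∀ z ∈ ball (0 : ℂ) (2 * s), ‖(z - p) * ek z‖ ≤ 1 / 2 := by
    intro z hz
    have h1 := hek2 z hz
    rw [mem_ball, dist_zero_right] at hz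
    rw [norm_mul]
    have h2 := norm_sub_le z p
    have h3 : ‖z - p‖ ≤ 3 / 16 := by linarith
    nlinarith [norm_nonneg (z - p), norm_nonneg (ek z)]
  have hv : ∀ z ∈ ball (0 : ℂ) (2 * s), ‖Complex.log (1 + z * ek z)‖ ≤ 4 * ‖z‖ := by
    intro z hz
    have h1 := Complex.norm_log_one_add_half_le_self (hx z hz)
    have h2 := hek2 z hz
    rw [norm_mul] at h1
    nlinarith [norm_nonneg z, norm_nonneg (ek z)]
  -- the nonvanishing of ℓ
  have h02 : (0 : ℂ) ∈ ball (0 : ℂ) (2 * s) := mem_ball_self (by linarith)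
  have hℓ0 : ℓ ≠ 0 := by
    intro h
    rw [h, Complex.exp_zero] at hexp
    have h1 : p * ek 0 = 0 := by linear_combination hexp
    rcases mul_eq_zero.mp h1 with h | h
    · exact hp0 h
    · have h2 := hek1 0 h02
      rw [h, norm_zero, mul_zero, add_zero, zero_sub, norm_neg, norm_one] at h2
      linarith
  have hℓpos : 0 < ‖ℓ‖ := norm_pos_iff.mpr hℓ0
  have hpℓ : ‖p‖ ≤ 2 * ‖ℓ‖ := by
    have h1 : ‖p‖ ≤ ‖p + ℓ‖ + ‖ℓ‖ := by
      have := norm_sub_le (p + ℓ) ℓ
      rwa [add_sub_cancel_right] at this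
    have h2 : CA * ‖ℓ‖ * (‖ℓ‖ + ε) ≤ ‖ℓ‖ := by
      have h3 : CA * (‖ℓ‖ + ε) ≤ 1 := by
        have : CA * (‖ℓ‖ + ε) ≤ CA * (δ + δ) := mul_le_mul_of_nonneg_left (by linarith) hCA.le
        nlinarith
      nlinarith
    linarith
  have hρ : ‖rhoc ℓ p ek‖ ≤ ‖1 - deriv e 0‖ + 1 := by
    have h1 : ‖rhoc ℓ p ek‖ ≤ ‖rhoc ℓ p ek - (1 - deriv e 0)‖ + ‖1 - deriv e 0‖ := by
      have := norm_add_le (rhoc ℓ p ek - (1 - deriv e 0)) (1 - deriv e 0)
      rwa [sub_add_cancel] at this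
    have h2 : CA * (‖p‖ + ε) ≤ CA * (δ + δ) := mul_le_mul_of_nonneg_left (by linarith) hCA.le
    nlinarith
  -- the remainder
  set F : ℂ → ℂ := fun z => Complex.log (1 + (z - p) * ek z) / ℓ +
    Complex.log (1 + z * ek z) / Complex.log (1 + p * ek p) - 1 with hF
  have hpm : p ∈ ball (0 : ℂ) (2 * s) := by
    rw [mem_ball, dist_zero_right]; linarith
  have hekd : DifferentiableOn ℂ ek (ball 0 (2 * s)) := hek.mono h2sr
  have hFd : DifferentiableOn ℂ F (ball 0 (2 * s)) := by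
    have h1 : DifferentiableOn ℂ (fun z => Complex.log (1 + (z - p) * ek z)) (ball 0 (2 * s)) := by
      refine DifferentiableOn.clog ?_ (fun z hz => ?_)
      · exact (((differentiableOn_id.sub_const p).mul hekd).const_add 1)
      · exact Complex.mem_slitPlane_of_norm_lt_one (lt_of_le_of_lt (hy z hz) (by norm_num))
    have h2 : DifferentiableOn ℂ (fun z => Complex.log (1 + z * ek z)) (ball 0 (2 * s)) := by
      refine DifferentiableOn.clog ?_ (fun z hz => ?_)
      · exact ((differentiableOn_id.mul hekd).const_add 1)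
      · exact Complex.mem_slitPlane_of_norm_lt_one (lt_of_le_of_lt (hx z hz) (by norm_num))
    exact ((h1.div_const ℓ).add (h2.div_const _)).sub_const 1
  have hFb : ∀ z ∈ ball (0 : ℂ) (2 * s), ‖F z‖ ≤ M := by
    intro z hz
    have h1 : F z = (Complex.log (1 + (z - p) * ek z) - Complex.log (1 + z * ek z)) / ℓ +
        rhoc ℓ p ek * Complex.log (1 + z * ek z) - 1 := by
      simp only [hF, rhoc]
      ring
    have h2 : ‖Complex.log (1 + (z - p) * ek z) - Complex.log (1 + z * ek z)‖ ≤ 6 * ‖ℓ‖ := by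
      refine (log_lip _ _ (hy z hz) (hx z hz)).trans ?_
      have h3 : (z - p) * ek z - z * ek z = -(p * ek z) := by ring
      rw [h3, norm_neg, norm_mul]
      have h4 := hek2 z hz
      nlinarith [norm_nonneg p, norm_nonneg (ek z)]
    have h3 : ‖(Complex.log (1 + (z - p) * ek z) - Complex.log (1 + z * ek z)) / ℓ‖ ≤ 6 := by
      rw [norm_div, div_le_iff₀ hℓpos]
      exact h2
    have h4 : ‖rhoc ℓ p ek * Complex.log (1 + z * ek z)‖ ≤ ‖1 - deriv e 0‖ + 1 := by
      rw [norm_mul]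
      have h5 := hv z hz
      rw [mem_ball, dist_zero_right] at hz
      have h6 : ‖Complex.log (1 + z * ek z)‖ ≤ 1 := by linarith
      have h7 := norm_nonneg (1 - deriv e 0)
      nlinarith [norm_nonneg (rhoc ℓ p ek), norm_nonneg (Complex.log (1 + z * ek z))]
    rw [h1]
    have h5 := norm_sub_le ((Complex.log (1 + (z - p) * ek z) - Complex.log (1 + z * ek z)) / ℓ +
        rhoc ℓ p ek * Complex.log (1 + z * ek z)) 1
    have h6 := norm_add_le ((Complex.log (1 + (z - p) * ek z) - Complex.log (1 + z * ek z)) / ℓ)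
        (rhoc ℓ p ek * Complex.log (1 + z * ek z))
    rw [norm_one] at h5
    rw [hM]
    linarith
  have hF0 : F 0 = 0 := by
    have h1 : (1 : ℂ) + (0 - p) * ek 0 = Complex.exp ℓ := by rw [hexp]; ring
    have him : |ℓ.im| ≤ 1 / 16 := (Complex.abs_im_le_norm ℓ).trans (by linarith)
    have h2 : Complex.log (Complex.exp ℓ) = ℓ := by
      refine Complex.log_exp ?_ ?_
      · have := (abs_le.mp him).1
        have := Real.pi_gt_three
        linarith
      · have := (abs_le.mp him).2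
        have := Real.pi_gt_three
        linarith
    simp only [hF]
    rw [h1, h2, div_self hℓ0, zero_mul, add_zero, Complex.log_one, zero_div]
    ring
  have hFp : F p = 0 := by
    simp only [hF]
    rw [sub_self, zero_mul, add_zero, Complex.log_one, zero_div, div_self hA3]
    ring
  intro z hz
  have hz2 : z ∈ ball (0 : ℂ) (2 * s) := ball_subset_ball (by linarith) hz
  refine ⟨hx z hz2, hy z hz2, hv z hz2, ?_, ?_⟩
  · have h1 : ‖Complex.log (1 + z * ek z) - z * ek z‖ ≤ 9 / 4 * ‖z‖ ^ 2 := by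
      have h2 := Complex.norm_log_one_add_sub_self_le
        (lt_of_le_of_lt (hx z hz2) (by norm_num : (1 : ℝ) / 2 < 1))
      have h3 : (1 - ‖z * ek z‖)⁻¹ ≤ 2 := by
        have h4 := hx z hz2
        rw [inv_le_comm₀ (by linarith) (by norm_num)]
        linarith
      have h5 : ‖z * ek z‖ ≤ 3 / 2 * ‖z‖ := by
        rw [norm_mul]
        nlinarith [norm_nonneg z, hek2 z hz2]
      have h6 : ‖z * ek z‖ ^ 2 ≤ (3 / 2 * ‖z‖) ^ 2 :=
        pow_le_pow_left₀ (norm_nonneg _) h5 2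
      have h7 : ‖z * ek z‖ ^ 2 * (1 - ‖z * ek z‖)⁻¹ / 2 ≤ ‖z * ek z‖ ^ 2 := by
        nlinarith [sq_nonneg ‖z * ek z‖]
      calc _ ≤ _ := h2
        _ ≤ _ := h7
        _ ≤ _ := h6
        _ = _ := by ring
    have h2 : ‖z * ek z - z‖ ≤ ‖z‖ * (ε + L * ‖z‖) := by
      have h3 : z * ek z - z = z * (ek z - 1) := by ring
      rw [h3, norm_mul]
      exact mul_le_mul_of_nonneg_left (hek1 z hz2) (norm_nonneg z)
    have h3 : Complex.log (1 + z * ek z) - z =
        (Complex.log (1 + z * ek z) - z * ek z) + (z * ek z - z) := by ring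
    rw [h3]
    refine (norm_add_le _ _).trans ?_
    have h4 : (L + 4) * (‖z‖ ^ 2 + ε * ‖z‖) ≤ C * (‖z‖ ^ 2 + ε * ‖z‖) := by
      refine mul_le_mul_of_nonneg_right ?_ (by positivity)
      rw [hC]; linarith
    refine le_trans ?_ h4
    nlinarith [norm_nonneg z, sq_nonneg ‖z‖, mul_nonneg hε0 (norm_nonneg z),
      mul_nonneg hL (mul_nonneg hε0 (norm_nonneg z))]
  · have h1 := two_zeros F p s M hs0 hM0 hFd hFb hF0 hFp hp0 (hp.trans hδ3) z hz
    refine h1.trans ?_
    have h2 : ((M + 1) / (2 * s) + 1) / (3 / 2 * s) ≤ C := by rw [hC]; linarith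
    exact mul_le_mul_of_nonneg_right (mul_le_mul_of_nonneg_right h2 (norm_nonneg _))
      (norm_nonneg _)

end Pool.Agent.MAT
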