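import Pool.Agent.MAT.TP

/-!
# MAT: one step in the `τ`-plane (STEP)
-/

set_option autoImplicit false

open Polynomial Metric Set Filter Topology

noncomputable section

namespace Pool.Agent.MAT

namespace STEP_

/-- the algebra of one step -/
theorem alg (ℓ p a τ z T : ℂ) (hs : Complex.exp (-(ℓ * τ)) ≠ 1)
    (hz : z = Zc ℓ p τ) (h1 : 1 + z * a ≠ 0) (h2 : 1 + (z - p) * a ≠ 0) (hℓ : ℓ ≠ 0)
    (hT : T = τ + (Complex.log (1 + (z - p) * a) - Complex.log (1 + z * a)) / ℓ) :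
    Zc ℓ p T = z + z * (z - p) * a ∧
      (1 - Complex.exp (ℓ * T)) * (1 + z * a) = 1 - Complex.exp (ℓ * τ) ∧
      1 - Complex.exp (ℓ * τ) ≠ 0 ∧ 1 - Complex.exp (ℓ * T) ≠ 0 := by
  obtain ⟨s, hsd⟩ : ∃ s, s = Complex.exp (-(ℓ * τ)) := ⟨_, rfl⟩
  have hs0 : s ≠ 0 := by rw [hsd]; exact Complex.exp_ne_zero _
  have hs1 : 1 - s ≠ 0 := by
    rw [hsd]
    exact sub_ne_zero.2 (Ne.symm hs)
  have hz1 : z * (1 - s) = p := by
    rw [hz, Zc, ← hsd]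
    field_simp
  have hzs : z * s = z - p := by linear_combination -hz1
  -- the exponential of `- ℓ T`
  have hET : Complex.exp (-(ℓ * T)) = s * (1 + z * a) / (1 + (z - p) * a) := by
    have e1 : -(ℓ * T) = -(ℓ * τ) + Complex.log (1 + z * a) -
        Complex.log (1 + (z - p) * a) := by
      rw [hT]
      field_simp
      ring
    rw [e1, Complex.exp_sub, Complex.exp_add, Complex.exp_log h1, Complex.exp_log h2, ← hsd]
  have hET1 : 1 - Complex.exp (-(ℓ * T)) = (1 - s) / (1 + (z - p) * a) := by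
    rw [hET, eq_div_iff h2, sub_mul, div_mul_cancel₀ _ h2, one_mul]
    linear_combination (-a) * hzs
  have hEt : Complex.exp (ℓ * τ) = 1 / s := by
    rw [hsd, Complex.exp_neg, one_div, inv_inv]
  have hETT : Complex.exp (ℓ * T) = (1 + (z - p) * a) / (s * (1 + z * a)) := by
    have e2 : Complex.exp (ℓ * T) = (Complex.exp (-(ℓ * T)))⁻¹ := by
      rw [← Complex.exp_neg, neg_neg]
    rw [e2, hET, inv_div]
  have h3 : 1 - Complex.exp (ℓ * τ) ≠ 0 := by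
    rw [hEt]
    intro h
    apply hs1
    field_simp at h
    linear_combination -h
  have h4 : (1 - Complex.exp (ℓ * T)) * (1 + z * a) = 1 - Complex.exp (ℓ * τ) := by
    rw [hETT, hEt]
    field_simp
    linear_combination a * hzs
  refine ⟨?_, h4, h3, ?_⟩
  · rw [Zc, hET1, div_div_eq_mul_div, div_eq_iff hs1]
    linear_combination (-(1 + (z - p) * a)) * hz1
  · intro h
    rw [h, zero_mul] at h4
    exact h3 h4.symm

/-- the size of `ell` -/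
theorem norm_ell (S : ℝ) (k : ℕ) (hk : 0 < (k : ℝ)) : ‖ell S k‖ ≤ 7 / k := by
  have h1 : (k : ℝ) ≤ ‖(k : ℂ) - S * Complex.I‖ := by
    have h := Complex.abs_re_le_norm ((k : ℂ) - S * Complex.I)
    have h2 : ((k : ℂ) - S * Complex.I).re = k := by simp
    rw [h2, abs_of_pos hk] at h
    exact h
  have h3 : ‖(2 * Real.pi * Complex.I : ℂ)‖ = 2 * Real.pi := by
    rw [norm_mul, norm_mul, Complex.norm_I, mul_one, Complex.norm_real, Real.norm_eq_abs,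
      abs_of_pos Real.pi_pos]
    simp
  rw [ell, norm_div, h3]
  have h4 : 2 * Real.pi ≤ 7 := by
    have := Real.pi_lt_d2
    linarith
  calc 2 * Real.pi / ‖(k : ℂ) - S * Complex.I‖ ≤ 2 * Real.pi / k :=
        div_le_div_of_nonneg_left (by positivity) hk h1
    _ ≤ 7 / k := div_le_div_of_nonneg_right h4 hk.le

theorem ell_ne (S : ℝ) (k : ℕ) (hk : 0 < (k : ℝ)) : ell S k ≠ 0 := by
  rw [ell]
  refine div_ne_zero ?_ ?_
  · have : (Real.pi : ℂ) ≠ 0 := by exact_mod_cast Real.pi_ne_zero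
    exact mul_ne_zero (mul_ne_zero two_ne_zero this) Complex.I_ne_zero
  · intro h
    have h2 : ((k : ℂ) - S * Complex.I).re = k := by simp
    rw [h, Complex.zero_re] at h2
    exact hk.ne h2

/-- a small nonzero number has exponential different from one -/
theorem exp_ne_one {x : ℂ} (h0 : x ≠ 0) (h1 : ‖x‖ < 1) : Complex.exp x ≠ 1 := by
  intro h
  rw [Complex.exp_eq_one_iff] at h
  obtain ⟨m, hm⟩ := h
  have hpi := Real.pi_gt_three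
  have h2 : ‖x‖ = |(m : ℝ)| * (2 * Real.pi) := by
    rw [hm, norm_mul, norm_mul, norm_mul, Complex.norm_I, mul_one, Complex.norm_real,
      Real.norm_eq_abs, abs_of_pos Real.pi_pos, Complex.norm_intCast]
    simp
  by_cases hm0 : m = 0
  · apply h0
    rw [hm, hm0]
    simp
  · have h3 : (1 : ℝ) ≤ |(m : ℝ)| := by
      exact_mod_cast Int.one_le_abs hm0
    rw [h2] at h1
    nlinarith

/-- the whole step for one `k` -/
theorem one (ℓ p a τ z T ρ ℓ' : ℂ) (CB CZ CL Cp Bρ X kk M : ℝ) (r₁ : ℝ) (τκ : ℂ)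
    (hk : 0 < kk) (hp : ‖p‖ ≤ Cp / kk) (hCB : 0 < CB) (hCZ : 0 < CZ)
    (hCp : 0 ≤ Cp) (hBρ : 0 ≤ Bρ) (hr₁ : 0 < r₁) (hCL : 0 < CL)
    (hX : X = 1 / kk + 1 / ‖τ‖ + 1 / ‖τκ‖)
    (hM : M = 1 + 2 * (Cp * CZ) / r₁ + 16 * (CB * (Cp * CZ) ^ 2 + 4 * Bρ * (Cp * CZ)) +
      2 * (CL + 4 * (Cp * CZ)))
    (hXM : X * M ≤ 1)
    (hs : Complex.exp (-(ℓ * τ)) ≠ 1)
    (hz1 : ‖1 / (1 - Complex.exp (-(ℓ * τ)))‖ ≤ CZ * (1 + kk / ‖τ‖ + kk / ‖τκ‖))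
    (hz2 : ‖Complex.exp (-(ℓ * τ)) / (1 - Complex.exp (-(ℓ * τ)))‖ ≤
      CZ * (1 + kk / ‖τ‖ + kk / ‖τκ‖))
    (hz : z = Zc ℓ p τ) (hℓ : ℓ ≠ 0)
    (hT : T = τ + (Complex.log (1 + (z - p) * a) - Complex.log (1 + z * a)) / ℓ)
    (hρ : ρ = 1 / ℓ + 1 / ℓ') (hρB : ‖ρ‖ ≤ Bρ)
    (hRB : ‖z‖ < r₁ → ‖z * a‖ ≤ 1 / 2 ∧ ‖(z - p) * a‖ ≤ 1 / 2 ∧
      ‖Complex.log (1 + z * a)‖ ≤ 4 * ‖z‖ ∧
      ‖Complex.log (1 + (z - p) * a) / ℓ + Complex.log (1 + z * a) / ℓ' - 1‖ ≤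
        CB * ‖z‖ * ‖z - p‖) :
    ‖z‖ < r₁ ∧ Zc ℓ p T = z + z * (z - p) * a ∧ ‖T - τ - 1‖ ≤ 1 / 8 ∧
    (‖Complex.log (1 - Complex.exp (ℓ * T)) - Complex.log (1 - Complex.exp (ℓ * τ))‖ ≤ CL * X →
      ‖Omc ℓ ρ T - Omc ℓ ρ τ - 1‖ ≤
        3 * (CB * (Cp * CZ) ^ 2) * (1 / kk ^ 2 + 1 / ‖τ‖ ^ 2 + 1 / ‖τκ‖ ^ 2)) := by
  obtain ⟨A, hA⟩ : ∃ A, A = Cp * CZ := ⟨_, rfl⟩
  rw [← hA] at hM ⊢
  have hA0 : 0 ≤ A := by rw [hA]; positivity
  have hX0 : 0 < X := by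
    rw [hX]; positivity
  have hM1 : 1 ≤ M := by
    rw [hM]
    have : 0 ≤ 2 * A / r₁ + 16 * (CB * A ^ 2 + 4 * Bρ * A) + 2 * (CL + 4 * A) := by positivity
    linarith
  have hX1 : X ≤ 1 := by
    nlinarith
  have hkX : Cp / kk * (CZ * (1 + kk / ‖τ‖ + kk / ‖τκ‖)) = A * X := by
    rw [hA, hX]
    field_simp
  -- size of `z` and `z - p`
  have hze : z = p * (1 / (1 - Complex.exp (-(ℓ * τ)))) := by
    rw [hz, Zc]; ring
  have h1s : 1 - Complex.exp (-(ℓ * τ)) ≠ 0 := sub_ne_zero.2 (Ne.symm hs)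
  have hzpe : z - p = p * (Complex.exp (-(ℓ * τ)) / (1 - Complex.exp (-(ℓ * τ)))) := by
    rw [hz, Zc]
    field_simp
    ring
  have hzn : ‖z‖ ≤ A * X := by
    rw [hze, norm_mul, ← hkX]
    exact mul_le_mul hp hz1 (norm_nonneg _) (by positivity)
  have hzpn : ‖z - p‖ ≤ A * X := by
    rw [hzpe, norm_mul, ← hkX]
    exact mul_le_mul hp hz2 (norm_nonneg _) (by positivity)
  have hXM' : X * (2 * A / r₁) + X * (16 * (CB * A ^ 2 + 4 * Bρ * A)) +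
      X * (2 * (CL + 4 * A)) + X ≤ 1 := by
    rw [hM] at hXM
    nlinarith [hXM]
  have hp1 : 0 ≤ X * (2 * A / r₁) := by positivity
  have hp2 : 0 ≤ X * (16 * (CB * A ^ 2 + 4 * Bρ * A)) := by positivity
  have hp3 : 0 ≤ X * (2 * (CL + 4 * A)) := by positivity
  have hzr : ‖z‖ < r₁ := by
    have h1 : X * (2 * A / r₁) ≤ 1 := by linarith
    have h2 : A * X * 2 ≤ r₁ := by
      have h3 : X * (2 * A / r₁) = A * X * 2 / r₁ := by ring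
      rw [h3, div_le_one hr₁] at h1
      exact h1
    by_cases hzz : ‖z‖ = 0
    · rw [hzz]; exact hr₁
    · have : 0 < ‖z‖ := lt_of_le_of_ne (norm_nonneg _) (Ne.symm hzz)
      linarith
  obtain ⟨hza, hzpa, hv, hR⟩ := hRB hzr
  have hne1 : 1 + z * a ≠ 0 := by
    intro h
    have : z * a = -1 := by linear_combination h
    rw [this, norm_neg, norm_one] at hza
    norm_num at hza
  have hne2 : 1 + (z - p) * a ≠ 0 := by
    intro h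
    have : (z - p) * a = -1 := by linear_combination h
    rw [this, norm_neg, norm_one] at hzpa
    norm_num at hzpa
  obtain ⟨ha1, ha2, ha3, ha4⟩ := alg ℓ p a τ z T hs hz hne1 hne2 hℓ hT
  obtain ⟨v, hvd⟩ : ∃ v, v = Complex.log (1 + z * a) := ⟨_, rfl⟩
  obtain ⟨u, hud⟩ : ∃ u, u = Complex.log (1 + (z - p) * a) := ⟨_, rfl⟩
  rw [← hvd, ← hud] at hT hR
  rw [← hvd] at hv
  have hTe : T - τ - 1 = (u / ℓ + v / ℓ' - 1) - ρ * v := by
    rw [hT, hρ]; ring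
  have hRn : ‖u / ℓ + v / ℓ' - 1‖ ≤ CB * A ^ 2 * X ^ 2 := by
    refine le_trans hR ?_
    calc CB * ‖z‖ * ‖z - p‖ ≤ CB * (A * X) * (A * X) := by
          apply mul_le_mul (mul_le_mul_of_nonneg_left hzn hCB.le) hzpn (norm_nonneg _)
          positivity
      _ = CB * A ^ 2 * X ^ 2 := by ring
  have hvn : ‖v‖ ≤ 4 * (A * X) := by linarith
  have hX2 : X ^ 2 ≤ X := by nlinarith
  refine ⟨hzr, ha1, ?_, ?_⟩
  · rw [hTe]
    have h1 : ‖ρ * v‖ ≤ Bρ * (4 * (A * X)) := by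
      rw [norm_mul]
      exact mul_le_mul hρB hvn (norm_nonneg _) hBρ
    have h2 : CB * A ^ 2 * X ^ 2 ≤ CB * A ^ 2 * X :=
      mul_le_mul_of_nonneg_left hX2 (by positivity)
    have h3 : X * (16 * (CB * A ^ 2 + 4 * Bρ * A)) ≤ 1 := by linarith
    calc ‖(u / ℓ + v / ℓ' - 1) - ρ * v‖ ≤ ‖u / ℓ + v / ℓ' - 1‖ + ‖ρ * v‖ := norm_sub_le _ _
      _ ≤ CB * A ^ 2 * X + Bρ * (4 * (A * X)) := by linarith
      _ ≤ 1 / 8 := by nlinarith
  · intro hLL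
    -- no branch jump
    have hexp : Complex.exp (Complex.log (1 - Complex.exp (ℓ * T)) -
        Complex.log (1 - Complex.exp (ℓ * τ)) + v) = 1 := by
      rw [Complex.exp_add, Complex.exp_sub, Complex.exp_log ha4, Complex.exp_log ha3, hvd,
        Complex.exp_log hne1, ← ha2]
      have : (1 - Complex.exp (ℓ * T)) * (1 + z * a) ≠ 0 := mul_ne_zero ha4 hne1
      field_simp
    have hsm : ‖Complex.log (1 - Complex.exp (ℓ * T)) -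
        Complex.log (1 - Complex.exp (ℓ * τ)) + v‖ < 1 := by
      have h1 : X * (2 * (CL + 4 * A)) ≤ 1 := by linarith
      calc ‖Complex.log (1 - Complex.exp (ℓ * T)) -
          Complex.log (1 - Complex.exp (ℓ * τ)) + v‖ ≤ CL * X + 4 * (A * X) := by
            refine le_trans (norm_add_le _ _) ?_
            linarith
        _ < 1 := by nlinarith
    have hzero : Complex.log (1 - Complex.exp (ℓ * T)) -
        Complex.log (1 - Complex.exp (ℓ * τ)) + v = 0 := by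
      by_contra hne
      exact exp_ne_one hne hsm hexp
    have hO : Omc ℓ ρ T - Omc ℓ ρ τ - 1 = u / ℓ + v / ℓ' - 1 := by
      rw [Omc, Omc]
      linear_combination hTe - ρ * hzero
    rw [hO]
    refine le_trans hRn ?_
    have hsq : X ^ 2 ≤ 3 * (1 / kk ^ 2 + 1 / ‖τ‖ ^ 2 + 1 / ‖τκ‖ ^ 2) := by
      rw [hX]
      have e1 : 1 / kk ^ 2 = (1 / kk) ^ 2 := by rw [div_pow, one_pow]
      have e2 : 1 / ‖τ‖ ^ 2 = (1 / ‖τ‖) ^ 2 := by rw [div_pow, one_pow]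
      have e3 : 1 / ‖τκ‖ ^ 2 = (1 / ‖τκ‖) ^ 2 := by rw [div_pow, one_pow]
      rw [e1, e2, e3]
      nlinarith [sq_nonneg (1 / kk - 1 / ‖τ‖), sq_nonneg (1 / kk - 1 / ‖τκ‖),
        sq_nonneg (1 / ‖τ‖ - 1 / ‖τκ‖)]
    calc CB * A ^ 2 * X ^ 2 ≤ CB * A ^ 2 * (3 * (1 / kk ^ 2 + 1 / ‖τ‖ ^ 2 + 1 / ‖τκ‖ ^ 2)) :=
          mul_le_mul_of_nonneg_left hsq (by positivity)
      _ = 3 * (CB * A ^ 2) * (1 / kk ^ 2 + 1 / ‖τ‖ ^ 2 + 1 / ‖τκ‖ ^ 2) := by ring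

end STEP_

theorem p_STEP (hRA : T_RESA) (hRB : T_RESB) (hZZ : T_ZZ) (hLSQ : T_LSQ) : T_STEP := by
  intro e r S l ek pk hPD
  obtain ⟨CA, δA, hCA, hδA, hA⟩ := hRA e r hPD.hr hPD.e_hol hPD.e_zero
  obtain ⟨CB, δB, r₁, hCB, hδB, hr₁, hr₁r, hB⟩ := hRB e r hPD.hr hPD.e_hol hPD.e_zero
  obtain ⟨CZ, hCZ, hZ⟩ := hZZ
  obtain ⟨k₁, hk₁⟩ := hZ S hPD.hS
  obtain ⟨CL, hCL, hL⟩ := hLSQ
  obtain ⟨k₂, hk₂⟩ := hL S hPD.hS
  obtain ⟨δ, hδd⟩ : ∃ δ, δ = min δA δB := ⟨_, rfl⟩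
  have hδ : 0 < δ := by rw [hδd]; exact lt_min hδA hδB
  have hδ1 : δ ≤ δA := by rw [hδd]; exact min_le_left _ _
  have hδ2 : δ ≤ δB := by rw [hδd]; exact min_le_right _ _
  obtain ⟨Cp, hCpd⟩ : ∃ Cp, Cp = 7 * (1 + 2 * CA * δ) := ⟨_, rfl⟩
  have hCp : 0 ≤ Cp := by rw [hCpd]; positivity
  obtain ⟨Bρ, hBd⟩ : ∃ Bρ, Bρ = ‖1 - deriv e 0‖ + CA * (δ + δ) := ⟨_, rfl⟩
  have hBρ : 0 ≤ Bρ := by rw [hBd]; positivity
  obtain ⟨M, hM⟩ : ∃ M, M = 1 + 2 * (Cp * CZ) / r₁ +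
      16 * (CB * (Cp * CZ) ^ 2 + 4 * Bρ * (Cp * CZ)) + 2 * (CL + 4 * (Cp * CZ)) := ⟨_, rfl⟩
  have hM1 : 1 ≤ M := by
    rw [hM]
    have : 0 ≤ 2 * (Cp * CZ) / r₁ + 16 * (CB * (Cp * CZ) ^ 2 + 4 * Bρ * (Cp * CZ)) +
      2 * (CL + 4 * (Cp * CZ)) := by positivity
    linarith
  obtain ⟨D₀, hD₀⟩ : ∃ D₀, D₀ = 8 + 3 * M := ⟨_, rfl⟩
  refine ⟨D₀, 3 * (CB * (Cp * CZ) ^ 2), fun k τ => τ +
    (Complex.log (1 + (Zc (ell S k) (pk k) τ - pk k) * ek k (Zc (ell S k) (pk k) τ)) -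
      Complex.log (1 + Zc (ell S k) (pk k) τ * ek k (Zc (ell S k) (pk k) τ))) / ell S k,
    by rw [hD₀]; linarith, by positivity, ?_⟩
  have ev1 : ∀ᶠ k in l, k₁ ≤ k := hPD.hl (eventually_ge_atTop k₁)
  have ev2 : ∀ᶠ k in l, k₂ ≤ k := hPD.hl (eventually_ge_atTop k₂)
  have ev3 : ∀ᶠ k : ℕ in l, D₀ ≤ (k : ℝ) :=
    hPD.hl (tendsto_natCast_atTop_atTop.eventually_ge_atTop D₀)
  have ev4 : ∀ᶠ k : ℕ in l, 7 / δ ≤ (k : ℝ) :=
    hPD.hl (tendsto_natCast_atTop_atTop.eventually_ge_atTop (7 / δ))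
  have ev5 : ∀ᶠ k in l, ∀ z ∈ ball (0 : ℂ) r, ‖ek k z - e z‖ ≤ δ := by
    have h := Metric.tendstoUniformlyOn_iff.1 hPD.ek_lim δ hδ
    filter_upwards [h] with k hk z hz
    have := hk z hz
    rw [dist_comm, dist_eq_norm] at this
    exact this.le
  have ev6 : ∀ᶠ k in l, ‖pk k‖ ≤ δ := by
    have h := Metric.tendsto_nhds.1 hPD.pk_lim δ hδ
    filter_upwards [h] with k hk
    rw [dist_zero_right] at hk
    exact hk.le
  filter_upwards [ev1, ev2, ev3, ev4, ev5, ev6, hPD.ek_hol, hPD.mult] with k h1 h2 h3 h4 h5 h6 h7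
    h8
  intro τ hre0 hre1 hτ hτκ
  have hkD : 8 ≤ (k : ℝ) := by rw [hD₀] at h3; linarith
  have hk0 : 0 < (k : ℝ) := by linarith
  have hℓn : ‖ell S k‖ ≤ 7 / k := STEP_.norm_ell S k hk0
  have hℓ0 : ell S k ≠ 0 := STEP_.ell_ne S k hk0
  have hℓδ : ‖ell S k‖ ≤ δ := by
    refine le_trans hℓn ?_
    rw [div_le_iff₀ hk0]
    rw [div_le_iff₀ hδ] at h4
    linarith
  have hℓ1 : ‖ell S k‖ < 1 := by
    refine lt_of_le_of_lt hℓn ?_
    rw [div_lt_one hk0]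
    linarith
  have hexp : Complex.exp (ell S k) = 1 - pk k * ek k 0 := h8.symm
  have hp0 : pk k ≠ 0 := by
    intro h
    rw [h, zero_mul, sub_zero] at hexp
    exact STEP_.exp_ne_one hℓ0 hℓ1 hexp
  obtain ⟨hA1, hA2, -⟩ := hA (pk k) (ell S k) (ek k) δ h7 h5 hδ1 hp0 (hℓδ.trans hδ1)
    (h6.trans hδ1) hexp
  have hB' := hB (pk k) (ell S k) (ek k) δ h7 h5 hδ2 hp0 (hℓδ.trans hδ2) (h6.trans hδ2) hexp
  have hpn : ‖pk k‖ ≤ Cp / k := by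
    have e1 : ‖pk k‖ ≤ ‖pk k + ell S k‖ + ‖ell S k‖ := by
      have := norm_sub_le (pk k + ell S k) (ell S k)
      rwa [add_sub_cancel_right] at this
    have e2 : CA * ‖ell S k‖ * (‖ell S k‖ + δ) ≤ CA * ‖ell S k‖ * (δ + δ) :=
      mul_le_mul_of_nonneg_left (by linarith) (by positivity)
    have e3 : ‖pk k‖ ≤ ‖ell S k‖ * (1 + 2 * CA * δ) := by
      have : ‖ell S k‖ * (1 + 2 * CA * δ) = CA * ‖ell S k‖ * (δ + δ) + ‖ell S k‖ := by ring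
      rw [this]
      linarith
    refine le_trans e3 ?_
    have e4 : Cp / k = 7 / k * (1 + 2 * CA * δ) := by rw [hCpd]; ring
    rw [e4]
    exact mul_le_mul_of_nonneg_right hℓn (by positivity)
  have hρB : ‖rhoc (ell S k) (pk k) (ek k)‖ ≤ Bρ := by
    have e1 := norm_add_le (rhoc (ell S k) (pk k) (ek k) - (1 - deriv e 0)) (1 - deriv e 0)
    rw [sub_add_cancel] at e1
    have e2 : CA * (‖pk k‖ + δ) ≤ CA * (δ + δ) :=
      mul_le_mul_of_nonneg_left (by linarith) hCA.le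
    rw [hBd]
    linarith
  have hτ0 : τ ≠ 0 := by
    intro h
    rw [h, norm_zero, hD₀] at hτ
    linarith
  have hτκ0 : τ ≠ kap S k := by
    intro h
    rw [h, sub_self, norm_zero, hD₀] at hτκ
    linarith
  obtain ⟨hz0, hz1, hz2⟩ := hk₁ k h1 τ hre0 hre1 hτ0 hτκ0
  have hD0 : 0 < D₀ := by rw [hD₀]; linarith
  have hτp : 0 < ‖τ‖ := lt_of_lt_of_le hD0 hτ
  have hτκp : 0 < ‖τ - kap S k‖ := lt_of_lt_of_le hD0 hτκ
  have hXM : (1 / (k : ℝ) + 1 / ‖τ‖ + 1 / ‖τ - kap S k‖) * M ≤ 1 := by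
    have e1 : 1 / (k : ℝ) ≤ 1 / D₀ := one_div_le_one_div_of_le hD0 h3
    have e2 : 1 / ‖τ‖ ≤ 1 / D₀ := one_div_le_one_div_of_le hD0 hτ
    have e3 : 1 / ‖τ - kap S k‖ ≤ 1 / D₀ := one_div_le_one_div_of_le hD0 hτκ
    calc (1 / (k : ℝ) + 1 / ‖τ‖ + 1 / ‖τ - kap S k‖) * M ≤ (3 / D₀) * M := by
          apply mul_le_mul_of_nonneg_right _ (by linarith)
          have : 3 / D₀ = 1 / D₀ + 1 / D₀ + 1 / D₀ := by ring
          linarith
      _ = 3 * M / D₀ := by ring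
      _ ≤ 1 := by
          rw [div_le_one hD0, hD₀]
          linarith
  have hone := STEP_.one (ell S k) (pk k) (ek k (Zc (ell S k) (pk k) τ)) τ
    (Zc (ell S k) (pk k) τ) _ (rhoc (ell S k) (pk k) (ek k))
    (Complex.log (1 + pk k * ek k (pk k))) CB CZ CL Cp Bρ _ k M r₁ (τ - kap S k)
    hk0 hpn hCB hCZ hCp hBρ hr₁ hCL rfl hM hXM hz0 hz1 hz2 rfl hℓ0 rfl rfl hρB (by
      intro hzr
      obtain ⟨b1, b2, b3, -, b5⟩ := hB' (Zc (ell S k) (pk k) τ)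
        (by rw [mem_ball_zero_iff]; exact hzr)
      exact ⟨b1, b2, b3, b5⟩)
  obtain ⟨o1, o2, o3, o4⟩ := hone
  refine ⟨?_, o2, o3, ?_⟩
  · rw [mem_ball_zero_iff]
    exact lt_of_lt_of_le o1 hr₁r
  · intro hr1 hr2 hr3 hr4
    refine o4 ?_
    refine hk₂ k h2 τ _ hr1 hr2 hr3 hr4 ?_ ?_ ?_
    · have e1 := norm_add_le (τ + (Complex.log (1 + (Zc (ell S k) (pk k) τ - pk k) *
        ek k (Zc (ell S k) (pk k) τ)) - Complex.log (1 + Zc (ell S k) (pk k) τ *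
        ek k (Zc (ell S k) (pk k) τ))) / ell S k - τ - 1) 1
      rw [sub_add_cancel, norm_one] at e1
      linarith
    · rw [hD₀] at hτ; linarith
    · rw [hD₀] at hτκ; linarith

end Pool.Agent.MAT
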