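import Pool.Agent.MAT.T

/-!
# MAT: UPI (the altitude increases)
-/

set_option autoImplicit false

open Polynomial Metric Set Filter Topology

noncomputable section

namespace Pool.Agent.MAT

namespace UPI_

theorem ell_eq (S : ℝ) (k : ℕ) (hk : 0 < k) :
    ell S k = ((2 * Real.pi / k : ℝ) : ℂ) *
      (-((S * k / ((k : ℝ) ^ 2 + S ^ 2) : ℝ) : ℂ) +
        (((k : ℝ) ^ 2 / ((k : ℝ) ^ 2 + S ^ 2) : ℝ) : ℂ) * Complex.I) := by
  have hk' : (0 : ℝ) < k := by exact_mod_cast hk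
  have hd : ((k : ℝ) ^ 2 + S ^ 2) ≠ 0 := by positivity
  have hd' : ((k : ℂ) ^ 2 + (S : ℂ) ^ 2) ≠ 0 := by exact_mod_cast hd
  have hk0 : (k : ℂ) ≠ 0 := by exact_mod_cast hk'.ne'
  have hne : (k : ℂ) - S * Complex.I ≠ 0 := by
    intro h
    have := congrArg Complex.re h
    simp at this
    omega
  unfold ell
  rw [div_eq_iff hne]
  push_cast
  field_simp
  have hI : Complex.I ^ 2 = -1 := Complex.I_sq
  linear_combination (S : ℂ) * (k : ℂ) * hI

theorem ell_norm (S : ℝ) (k : ℕ) (hk : 0 < k) : ‖ell S k‖ ≤ 2 * Real.pi / k := by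
  have hk' : (0 : ℝ) < k := by exact_mod_cast hk
  unfold ell
  rw [norm_div]
  have h1 : ‖(2 * Real.pi * Complex.I : ℂ)‖ = 2 * Real.pi := by
    rw [norm_mul, norm_mul, Complex.norm_I, Complex.norm_real, Real.norm_eq_abs,
      abs_of_pos Real.pi_pos]
    simp
  rw [h1]
  have h2 : (k : ℝ) ≤ ‖(k : ℂ) - S * Complex.I‖ := by
    have := Complex.abs_re_le_norm ((k : ℂ) - S * Complex.I)
    simp at this
    exact this
  exact div_le_div_of_nonneg_left (by positivity) hk' h2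

theorem ell_sub (S : ℝ) (k : ℕ) (hk : 0 < k) (hS : 0 ≤ S) :
    ‖ell S k - 2 * Real.pi * Complex.I / k‖ ≤ 2 * Real.pi / k * (S / k) := by
  have hk' : (0 : ℝ) < k := by exact_mod_cast hk
  have hk0 : (k : ℂ) ≠ 0 := by exact_mod_cast hk'.ne'
  have hne : (k : ℂ) - S * Complex.I ≠ 0 := by
    intro h
    have := congrArg Complex.re h
    simp at this
    omega
  have h1 : ell S k - 2 * Real.pi * Complex.I / k = ell S k * (S * Complex.I / k) := by
    unfold ell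
    rw [div_sub_div _ _ hne hk0, div_mul_div_comm]
    congr 1
    ring
  rw [h1, norm_mul]
  have h2 : ‖(S * Complex.I / k : ℂ)‖ = S / k := by
    rw [norm_div, norm_mul, Complex.norm_I, Complex.norm_real, Real.norm_eq_abs,
      abs_of_nonneg hS]
    simp
  rw [h2]
  exact mul_le_mul_of_nonneg_right (ell_norm S k hk) (by positivity)

/-- the argument is additive as long as it stays in the principal range -/
theorem arg_step {w v : ℂ} (hw : w ≠ 0) (h1 : -Real.pi < w.arg - v.im)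
    (h2 : w.arg - v.im ≤ Real.pi) : (w * Complex.exp (-v)).arg = w.arg - v.im := by
  have h3 : w * Complex.exp (-v) = Complex.exp (Complex.log w - v) := by
    rw [sub_eq_add_neg, Complex.exp_add, Complex.exp_log hw]
  have h4 : (Complex.log w - v).im = w.arg - v.im := by
    rw [Complex.sub_im, Complex.log_im]
  have h5 : Complex.log (w * Complex.exp (-v)) = Complex.log w - v := by
    rw [h3, Complex.log_exp (by rw [h4]; exact h1) (by rw [h4]; exact h2)]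
  rw [← Complex.log_im, h5, h4]

theorem arg_ball {w : ℂ} (hw : ‖1 - w‖ < 1) : |w.arg| < Real.pi / 2 := by
  rw [Complex.abs_arg_lt_pi_div_two_iff]
  left
  have := Complex.abs_re_le_norm (1 - w)
  rw [Complex.sub_re, Complex.one_re] at this
  have := (abs_le.mp this).2
  linarith

/-- the increment of the altitude -/
theorem incr {s1 c1 b : ℝ} {R ρ v : ℂ} (hs : 0 ≤ s1) (hc0 : 0 ≤ c1) (hc1 : c1 ≤ 1) :
    s1 * (1 - ‖R‖ - ‖ρ * v‖) - ‖R‖ - ‖ρ - b‖ * ‖v‖ - (1 - c1) * (|b| * ‖v‖) ≤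
      s1 * (1 + (R - ρ * v).re) + c1 * (R - ρ * v).im + b * v.im := by
  have h1 : -‖R‖ ≤ R.re := (abs_le.mp (Complex.abs_re_le_norm R)).1
  have h2 : (ρ * v).re ≤ ‖ρ * v‖ := (abs_le.mp (Complex.abs_re_le_norm _)).2
  have h3 : -‖R‖ ≤ R.im := (abs_le.mp (Complex.abs_im_le_norm R)).1
  have h4 : ((ρ - b) * v).im ≤ ‖ρ - b‖ * ‖v‖ := by
    rw [← norm_mul]
    exact (abs_le.mp (Complex.abs_im_le_norm _)).2
  have h5 : -(|b| * ‖v‖) ≤ b * v.im := by
    have h6 : |b * v.im| ≤ |b| * ‖v‖ := by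
      rw [abs_mul]
      exact mul_le_mul_of_nonneg_left (Complex.abs_im_le_norm v) (abs_nonneg b)
    exact (abs_le.mp h6).1
  have h6 : (ρ * v).im = ((ρ - b) * v).im + b * v.im := by
    simp only [Complex.mul_im, Complex.sub_re, Complex.sub_im, Complex.ofReal_re,
      Complex.ofReal_im]
    ring
  have h7 : 0 ≤ ‖ρ - b‖ * ‖v‖ := by positivity
  have h8 : 0 ≤ ‖R‖ := norm_nonneg R
  rw [Complex.sub_re, Complex.sub_im, h6]
  nlinarith [mul_nonneg hs (by linarith : 0 ≤ ‖R‖ + R.re),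
    mul_nonneg hs (by linarith : 0 ≤ ‖ρ * v‖ - (ρ * v).re),
    mul_nonneg hc0 (by linarith : 0 ≤ ‖R‖ + R.im),
    mul_nonneg (by linarith : 0 ≤ 1 - c1) h8,
    mul_nonneg hc0 (by linarith : 0 ≤ ‖ρ - b‖ * ‖v‖ - ((ρ - b) * v).im),
    mul_nonneg (by linarith : 0 ≤ 1 - c1) h7,
    mul_nonneg (by linarith : 0 ≤ 1 - c1) (by linarith : 0 ≤ b * v.im + |b| * ‖v‖)]

/-- the geometric estimate -/
theorem geo {k S Y C2 C3 P0 : ℝ} {p z s : ℂ} (hk : 0 < k) (hS : 0 ≤ S) (hY : 0 < Y)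
    (hC2 : 0 ≤ C2) (hz : z * (1 - s) = p) (hs : 1 + 2 * Real.pi * Y / k ≤ ‖s‖)
    (hp : ‖p‖ ≤ P0 / k)
    (hp' : ‖p + 2 * Real.pi * Complex.I / k‖ ≤ 2 * Real.pi / k * (C3 * (1 + S) / k))
    (h1 : C2 * P0 ^ 2 ≤ 2 * Real.pi ^ 2 * Y) (h2 : 8 * C3 ≤ Y) :
    -Real.pi / k - (1 + S) / (8 * k) ≤ z.im - C2 * ‖z‖ * ‖z - p‖ := by
  have hpi := Real.pi_pos
  have hYk : 0 < 2 * Real.pi * Y / k := by positivity
  have hn1 : 1 < ‖s‖ := by linarith
  have hdge : 2 * Real.pi * Y / k ≤ ‖1 - s‖ := by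
    have := norm_sub_norm_le s 1
    rw [norm_one] at this
    rw [norm_sub_rev]
    linarith
  have hdpos : 0 < ‖1 - s‖ := by linarith
  have hne : (1 : ℂ) - s ≠ 0 := norm_pos_iff.mp hdpos
  have hne' : s - 1 ≠ 0 := by
    intro h
    apply hne
    linear_combination -h
  have hz' : z = p / (1 - s) := by rw [eq_div_iff hne, hz]
  have hzp : z - p = s * z := by rw [← hz]; ring
  -- first piece
  have e1 : z = ((2 * Real.pi / k : ℝ) : ℂ) * (Complex.I * (s - 1)⁻¹) +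
      (p + 2 * Real.pi * Complex.I / k) / (1 - s) := by
    have hk0 : (k : ℂ) ≠ 0 := by exact_mod_cast hk.ne'
    rw [hz']
    push_cast
    field_simp
    ring
  have e2 : ‖(p + 2 * Real.pi * Complex.I / k) / (1 - s)‖ ≤ (1 + S) / (8 * k) := by
    rw [norm_div, div_le_iff₀ hdpos]
    refine hp'.trans ?_
    have h3 : 2 * Real.pi / k * (C3 * (1 + S) / k) =
        (1 + S) / (8 * k) * (2 * Real.pi * (8 * C3) / k) := by
      field_simp
    rw [h3]
    apply mul_le_mul_of_nonneg_left _ (by positivity)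
    refine le_trans ?_ hdge
    gcongr
  have e3 : (Complex.I * (s - 1)⁻¹).im = (s.re - 1) / Complex.normSq (s - 1) := by
    rw [Complex.mul_im, Complex.I_re, Complex.I_im, Complex.inv_re]
    simp
  have e4 : 2 * Real.pi / k * ((s.re - 1) / Complex.normSq (s - 1)) - (1 + S) / (8 * k) ≤
      z.im := by
    have h3 : z.im = 2 * Real.pi / k * ((s.re - 1) / Complex.normSq (s - 1)) +
        ((p + 2 * Real.pi * Complex.I / k) / (1 - s)).im := by
      conv_lhs => rw [e1]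
      rw [Complex.add_im, Complex.im_ofReal_mul, e3]
    have h4 := (abs_le.mp (Complex.abs_im_le_norm
      ((p + 2 * Real.pi * Complex.I / k) / (1 - s)))).1
    linarith
  have hD : Complex.normSq (s - 1) = ‖s‖ ^ 2 - 2 * s.re + 1 := by
    rw [Complex.sq_norm, Complex.normSq_apply, Complex.normSq_apply, Complex.sub_re,
      Complex.sub_im, Complex.one_re, Complex.one_im]
    ring
  have hDpos : 0 < Complex.normSq (s - 1) := Complex.normSq_pos.mpr hne'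
  have e5 : C2 * ‖z‖ * ‖z - p‖ ≤ C2 * P0 ^ 2 * ‖s‖ / (k ^ 2 * Complex.normSq (s - 1)) := by
    rw [hzp, norm_mul, hz', norm_div]
    have h3 : ‖1 - s‖ ^ 2 = Complex.normSq (s - 1) := by
      rw [norm_sub_rev, Complex.sq_norm]
    have h4 : C2 * (‖p‖ / ‖1 - s‖) * (‖s‖ * (‖p‖ / ‖1 - s‖)) =
        C2 * ‖p‖ ^ 2 * ‖s‖ / ‖1 - s‖ ^ 2 := by
      field_simp
    rw [h4, h3, mul_comm (k ^ 2), ← div_div, div_right_comm]
    apply div_le_div_of_nonneg_right _ hDpos.le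
    have h5 : ‖p‖ ^ 2 ≤ P0 ^ 2 / k ^ 2 := by
      rw [← div_pow]
      exact pow_le_pow_left₀ (norm_nonneg p) hp 2
    calc C2 * ‖p‖ ^ 2 * ‖s‖ ≤ C2 * (P0 ^ 2 / k ^ 2) * ‖s‖ := by gcongr
      _ = C2 * P0 ^ 2 * ‖s‖ / k ^ 2 := by ring
  have e6 : 0 ≤ 2 * Real.pi / k * ((s.re - 1) / Complex.normSq (s - 1)) -
      C2 * P0 ^ 2 * ‖s‖ / (k ^ 2 * Complex.normSq (s - 1)) + Real.pi / k := by
    have h3 : 2 * Real.pi / k * ((s.re - 1) / Complex.normSq (s - 1)) -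
      C2 * P0 ^ 2 * ‖s‖ / (k ^ 2 * Complex.normSq (s - 1)) + Real.pi / k =
      (2 * Real.pi * (s.re - 1) - C2 * P0 ^ 2 * ‖s‖ / k + Real.pi * Complex.normSq (s - 1)) /
        (k * Complex.normSq (s - 1)) := by
      field_simp
    rw [h3]
    apply div_nonneg _ (by positivity)
    rw [hD]
    have h4 : C2 * P0 ^ 2 * ‖s‖ / k ≤ Real.pi * (2 * Real.pi * Y / k) * ‖s‖ := by
      have : C2 * P0 ^ 2 * ‖s‖ / k ≤ 2 * Real.pi ^ 2 * Y * ‖s‖ / k := by gcongr
      refine this.trans (le_of_eq ?_)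
      ring
    have h5 : Real.pi * (2 * Real.pi * Y / k) * ‖s‖ ≤ Real.pi * (‖s‖ - 1) * (‖s‖ + 1) := by
      have h6 : 2 * Real.pi * Y / k ≤ ‖s‖ - 1 := by linarith
      have h7 : 0 ≤ ‖s‖ - 1 := by linarith
      calc Real.pi * (2 * Real.pi * Y / k) * ‖s‖ ≤ Real.pi * (‖s‖ - 1) * ‖s‖ := by gcongr
        _ ≤ Real.pi * (‖s‖ - 1) * (‖s‖ + 1) := by
          apply mul_le_mul_of_nonneg_left (by linarith) (by positivity)
    nlinarith
  have e7 : -Real.pi / k = -(Real.pi / k) := by ring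
  rw [e7]
  linarith

end UPI_

open UPI_ in
/-- UPI -/
theorem p_UPI (hRESA : T_RESA) (hRESB : T_RESB) : T_UPI := by
  intro e r B hr he he0 hreal
  obtain ⟨CA, δA, hCA, hδA, hA⟩ := hRESA e r hr he he0
  obtain ⟨CB, δB, r1, hCB, hδB, hr1, hr1r, hB⟩ := hRESB e r hr he he0
  have hpi := Real.pi_pos
  have hpi3 := Real.pi_gt_three
  obtain ⟨B', hB'⟩ : ∃ B' : ℝ, B' = max B 0 := ⟨_, rfl⟩
  have hB'0 : 0 ≤ B' := by rw [hB']; exact le_max_right _ _
  have hBB' : B ≤ B' := by rw [hB']; exact le_max_left _ _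
  obtain ⟨b, hb⟩ : ∃ b : ℝ, b = 1 - (deriv e 0).re := ⟨_, rfl⟩
  have hbc : (1 : ℂ) - deriv e 0 = (b : ℂ) := by
    apply Complex.ext
    · rw [hb]; simp
    · simp [hreal]
  obtain ⟨P0, hP0⟩ : ∃ P0 : ℝ, P0 = 8 * Real.pi := ⟨_, rfl⟩
  have hP0pos : 0 < P0 := by rw [hP0]; positivity
  obtain ⟨Cρ, hCρ⟩ : ∃ x : ℝ, x = CA * (P0 + B') := ⟨_, rfl⟩
  have hCρ0 : 0 ≤ Cρ := by rw [hCρ]; positivity
  obtain ⟨C3, hC3⟩ : ∃ x : ℝ, x = CA * (2 * Real.pi + B') + 1 := ⟨_, rfl⟩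
  have hC30 : 0 ≤ C3 := by rw [hC3]; positivity
  obtain ⟨C1, hC1⟩ : ∃ x : ℝ, x = Cρ + 1 + CB * (P0 + B') := ⟨_, rfl⟩
  have hC10 : 0 ≤ C1 := by rw [hC1]; positivity
  obtain ⟨Y, hY⟩ : ∃ x : ℝ, x = 16 + 5 / r1 + 128 * (|b| + 1) + 64 * CB + 8 * C3 := ⟨_, rfl⟩
  have hb0 := abs_nonneg b
  have h5r : 0 < 5 / r1 := by positivity
  have hY16 : 16 ≤ Y := by rw [hY]; linarith
  have hYr : 5 / r1 ≤ Y := by rw [hY]; linarith
  have hYb : 128 * (|b| + 1) ≤ Y := by rw [hY]; linarith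
  have hYC : 64 * CB ≤ Y := by rw [hY]; linarith
  have hY3 : 8 * C3 ≤ Y := by rw [hY]; linarith
  have hYpos : 0 < Y := by linarith
  refine ⟨4 * (C1 + Real.pi + 2), Y, hYpos, ?_⟩
  intro S hS
  have hSpos : 0 < S := by linarith
  have hev : ∀ᶠ k : ℕ in atTop, 1 ≤ k ∧ 2 * Real.pi / (k : ℝ) < min δA (min δB 1) ∧
      P0 / (k : ℝ) < min δA (min δB (1 / 4)) ∧ B' / (k : ℝ) < min δA (min δB (1 / 2)) ∧
      Cρ / (k : ℝ) < 1 ∧ 2 * S / (k : ℝ) < 1 ∧ S ^ 2 * |b| / (k : ℝ) < 1 := by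
    have ht : ∀ c : ℝ, Tendsto (fun k : ℕ => c / (k : ℝ)) atTop (𝓝 0) :=
      fun c => tendsto_const_div_atTop_nhds_zero_nat c
    filter_upwards [eventually_ge_atTop 1,
      (ht (2 * Real.pi)).eventually_lt_const (show 0 < min δA (min δB 1) by positivity),
      (ht P0).eventually_lt_const (show 0 < min δA (min δB (1 / 4)) by positivity),
      (ht B').eventually_lt_const (show 0 < min δA (min δB (1 / 2)) by positivity),
      (ht Cρ).eventually_lt_const one_pos, (ht (2 * S)).eventually_lt_const one_pos,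
      (ht (S ^ 2 * |b|)).eventually_lt_const one_pos] with k a1 a2 a3 a4 a5 a6 a7
    exact ⟨a1, a2, a3, a4, a5, a6, a7⟩
  obtain ⟨k₀, hk₀⟩ := eventually_atTop.mp hev
  refine ⟨k₀, fun k hk p ek hek hclose hmul z hz hlog => ?_⟩
  obtain ⟨k1, k2, k3, k4, k5, k6, k7⟩ := hk₀ k hk
  have hkpos : 0 < k := k1
  have hkR : (0 : ℝ) < k := by exact_mod_cast hkpos
  rw [lt_min_iff, lt_min_iff] at k2 k3 k4
  obtain ⟨k2a, k2b, k2c⟩ := k2
  obtain ⟨k3a, k3b, k3c⟩ := k3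
  obtain ⟨k4a, k4b, k4c⟩ := k4
  obtain ⟨ℓ, hℓ⟩ : ∃ ℓ : ℂ, ℓ = ell S k := ⟨_, rfl⟩
  have hℓn : ‖ℓ‖ ≤ 2 * Real.pi / k := by rw [hℓ]; exact ell_norm S k hkpos
  obtain ⟨s1, hs1⟩ : ∃ x : ℝ, x = S * k / ((k : ℝ) ^ 2 + S ^ 2) := ⟨_, rfl⟩
  obtain ⟨c1, hc1⟩ : ∃ x : ℝ, x = (k : ℝ) ^ 2 / ((k : ℝ) ^ 2 + S ^ 2) := ⟨_, rfl⟩
  have hℓe : ℓ = ((2 * Real.pi / k : ℝ) : ℂ) * (-(s1 : ℂ) + (c1 : ℂ) * Complex.I) := by
    rw [hℓ, hs1, hc1]; exact ell_eq S k hkpos
  have hs1pos : 0 < s1 := by rw [hs1]; positivity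
  have hc1pos : 0 ≤ c1 := by rw [hc1]; positivity
  have hc1le : c1 ≤ 1 := by
    rw [hc1, div_le_one (by positivity)]
    linarith [sq_nonneg S]
  have hlogpos : 0 < Real.log ‖(z - p) / z‖ := lt_of_lt_of_le (by positivity) hlog
  obtain ⟨ε, hε⟩ : ∃ ε : ℝ, ε = B' / k := ⟨_, rfl⟩
  have hε0 : 0 ≤ ε := by rw [hε]; positivity
  have hclose' : ∀ z ∈ ball (0 : ℂ) r, ‖ek z - e z‖ ≤ ε := by
    intro z hz
    refine (hclose z hz).trans ?_
    rw [hε]
    gcongr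
  have hreℓ : ℓ.re < 0 := by
    have : ℓ.re = -(2 * Real.pi / k * s1) := by
      rw [hℓe, Complex.re_ofReal_mul]
      simp
    rw [this]
    have : 0 < 2 * Real.pi / k * s1 := by positivity
    linarith
  have hexp : ‖Complex.exp ℓ‖ < 1 := by
    rw [Complex.norm_exp]
    rw [← Real.exp_zero]; exact Real.exp_lt_exp.mpr hreℓ
  have hℓ0 : ℓ ≠ 0 := by
    rintro h
    rw [h] at hreℓ
    simp at hreℓ
  have hek0 : 1 / 2 ≤ ‖ek 0‖ := by
    have h1 := hclose' 0 (mem_ball_self hr)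
    rw [he0] at h1
    have h2 : ‖(1 : ℂ)‖ - ‖ek 0‖ ≤ ‖(1 : ℂ) - ek 0‖ := norm_sub_norm_le _ _
    rw [norm_one, norm_sub_rev] at h2
    rw [hε] at h1
    linarith
  have hmul' : p * ek 0 = 1 - Complex.exp ℓ := by rw [hℓ]; linear_combination -hmul
  have hp0 : p ≠ 0 := by
    rintro h
    rw [h, zero_mul] at hmul'
    have : Complex.exp ℓ = 1 := by linear_combination hmul'
    rw [this] at hexp
    simp at hexp
  have hpn : ‖p‖ ≤ P0 / k := by
    have h1 : ‖p‖ * ‖ek 0‖ ≤ 2 * ‖ℓ‖ := by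
      rw [← norm_mul, hmul', norm_sub_rev]
      exact Complex.norm_exp_sub_one_le (hℓn.trans k2c.le)
    have h2 : ‖p‖ ≤ 4 * ‖ℓ‖ := by
      have h3 := mul_le_mul_of_nonneg_left hek0 (norm_nonneg p)
      linarith
    rw [hP0]
    calc ‖p‖ ≤ 4 * ‖ℓ‖ := h2
      _ ≤ 4 * (2 * Real.pi / k) := by gcongr
      _ = 8 * Real.pi / k := by ring
  have hexpℓ : Complex.exp ℓ = 1 - p * ek 0 := by linear_combination hmul'
  obtain ⟨hρ, hpℓ, hℓ'⟩ := hA p ℓ ek ε hek hclose' (by rw [hε]; exact k4a.le) hp0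
    (hℓn.trans k2a.le) (hpn.trans k3a.le) hexpℓ
  have hBz := hB p ℓ ek ε hek hclose' (by rw [hε]; exact k4b.le) hp0
    (hℓn.trans k2b.le) (hpn.trans k3b.le) hexpℓ
  rw [hbc] at hρ
  obtain ⟨ρ, hρe⟩ : ∃ ρ : ℂ, ρ = rhoc ℓ p ek := ⟨_, rfl⟩
  rw [← hρe] at hρ
  have hρ' : ‖ρ - b‖ ≤ Cρ / k := by
    refine hρ.trans ?_
    rw [hCρ, mul_div_assoc, add_div, hε]
    gcongr
  have hρn : ‖ρ‖ ≤ |b| + 1 := by
    have h1 : ‖ρ‖ ≤ ‖(b : ℂ)‖ + ‖ρ - b‖ := by
      have := norm_add_le (b : ℂ) (ρ - b)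
      simpa using this
    rw [Complex.norm_real, Real.norm_eq_abs] at h1
    linarith
  -- the point `s`
  obtain ⟨s, hs⟩ : ∃ s : ℂ, s = (z - p) / z := ⟨_, rfl⟩
  rw [← hs] at hlog hlogpos
  have hs1' : 1 < ‖s‖ := (Real.log_pos_iff (norm_nonneg s)).mp hlogpos
  have hsge : 1 + 2 * Real.pi * Y / k ≤ ‖s‖ := by
    have h1 := (Real.le_log_iff_exp_le (by linarith)).mp hlog
    have h2 := Real.add_one_le_exp (2 * Real.pi * Y / k)
    linarith
  have hzs : z * (1 - s) = p := by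
    rw [hs]; field_simp; ring
  have hzp : z - p = s * z := by rw [← hzs]; ring
  have hs0 : s ≠ 0 := by
    rintro h
    rw [h] at hs1'
    simp at hs1'
    linarith
  have hd : 2 * Real.pi * Y / k ≤ ‖1 - s‖ := by
    have := norm_sub_norm_le s 1
    rw [norm_one] at this
    rw [norm_sub_rev]
    linarith
  have hzn : ‖z‖ ≤ 4 / Y := by
    have h1 : ‖z‖ * ‖1 - s‖ = ‖p‖ := by rw [← norm_mul, hzs]
    have h2 : ‖z‖ * (2 * Real.pi * Y / k) ≤ P0 / k := by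
      calc ‖z‖ * (2 * Real.pi * Y / k) ≤ ‖z‖ * ‖1 - s‖ := by gcongr
        _ = ‖p‖ := h1
        _ ≤ P0 / k := hpn
    rw [hP0] at h2
    rw [le_div_iff₀ hYpos]
    have h3 : ‖z‖ * (2 * Real.pi * Y / k) = (‖z‖ * Y) * (2 * Real.pi / k) := by ring
    have h4 : 8 * Real.pi / k = 4 * (2 * Real.pi / k) := by ring
    rw [h3, h4] at h2
    exact le_of_mul_le_mul_right h2 (by positivity)
  have hz4 : ‖z‖ ≤ 1 / 4 := by
    refine hzn.trans ?_
    rw [div_le_iff₀ hYpos]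
    linarith
  have hzr1 : ‖z‖ < r1 := by
    refine lt_of_le_of_lt hzn ?_
    rw [div_lt_iff₀ hYpos]
    rw [div_le_iff₀ hr1] at hYr
    linarith
  have hzp0 : z - p ≠ 0 := by rw [hzp]; exact mul_ne_zero hs0 hz
  obtain ⟨b1, b2, b3, b4, b5⟩ := hBz z (by rw [mem_ball_zero_iff]; exact hzr1)
  refine ⟨lt_of_lt_of_le hzr1 hr1r, sub_ne_zero.mp hzp0, ?_⟩
  intro z' hz'
  have hne1 : (1 : ℂ) + z * ek z ≠ 0 := by
    intro h
    have : z * ek z = -1 := by linear_combination h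
    rw [this] at b1
    simp at b1
    linarith
  have hne2 : (1 : ℂ) + (z - p) * ek z ≠ 0 := by
    intro h
    have : (z - p) * ek z = -1 := by linear_combination h
    rw [this] at b2
    simp at b2
    linarith
  obtain ⟨v, hv⟩ : ∃ v : ℂ, v = Complex.log (1 + z * ek z) := ⟨_, rfl⟩
  obtain ⟨u, hu⟩ : ∃ u : ℂ, u = Complex.log (1 + (z - p) * ek z) := ⟨_, rfl⟩
  have hev : Complex.exp v = 1 + z * ek z := by rw [hv, Complex.exp_log hne1]
  have heu : Complex.exp u = 1 + (z - p) * ek z := by rw [hu, Complex.exp_log hne2]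
  rw [← hv] at b3 b4 b5
  rw [← hu] at b5
  obtain ⟨R, hR⟩ : ∃ R : ℂ, R = u / ℓ + v / Complex.log (1 + p * ek p) - 1 := ⟨_, rfl⟩
  rw [← hR] at b5
  have hz'e : z' = z * Complex.exp u := by rw [hz', heu]; ring
  have hz'p : z' - p = (z - p) * Complex.exp v := by rw [hz', hev]; ring
  have hz'0 : z' ≠ 0 := by rw [hz'e]; exact mul_ne_zero hz (Complex.exp_ne_zero _)
  have hs' : (z' - p) / z' = s * Complex.exp (v - u) := by
    rw [hz'p, hz'e, Complex.exp_sub, hs]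
    have := Complex.exp_ne_zero u
    field_simp
  have hvu : v - u = -ℓ * (1 + (R - ρ * v)) := by
    rw [hR, hρe]
    unfold rhoc
    field_simp
    ring
  have hlog' : Real.log ‖(z' - p) / z'‖ = Real.log ‖s‖ + (v - u).re := by
    rw [hs', norm_mul, Complex.norm_exp, Real.log_mul (by linarith) (Real.exp_pos _).ne',
      Real.log_exp]
  have hE : k / (2 * Real.pi) * (v - u).re =
      s1 * (1 + (R - ρ * v).re) + c1 * (R - ρ * v).im := by
    have h1 : (v - u).re = 2 * Real.pi / k *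
        (s1 * (1 + (R - ρ * v).re) + c1 * (R - ρ * v).im) := by
      rw [hvu, hℓe]
      rw [show -(((2 * Real.pi / k : ℝ) : ℂ) * (-(s1 : ℂ) + (c1 : ℂ) * Complex.I)) *
        (1 + (R - ρ * v)) = ((2 * Real.pi / k : ℝ) : ℂ) *
        (((s1 : ℂ) - (c1 : ℂ) * Complex.I) * (1 + (R - ρ * v))) by ring, Complex.re_ofReal_mul]
      congr 1
      simp only [Complex.mul_re, Complex.sub_re, Complex.sub_im, Complex.mul_im, Complex.add_re,
        Complex.add_im, Complex.one_re, Complex.one_im, Complex.ofReal_re, Complex.ofReal_im,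
        Complex.I_re, Complex.I_im]
      ring
    rw [h1]
    field_simp
  -- sizes
  have hvn : ‖v‖ ≤ 16 / Y := by
    calc ‖v‖ ≤ 4 * ‖z‖ := b3
      _ ≤ 4 * (4 / Y) := by gcongr
      _ = 16 / Y := by ring
  have hv1 : ‖v‖ ≤ 1 := by
    refine hvn.trans ?_
    rw [div_le_one hYpos]
    exact hY16
  have hρv : ‖ρ * v‖ ≤ 1 / 8 := by
    rw [norm_mul]
    calc ‖ρ‖ * ‖v‖ ≤ (|b| + 1) * (16 / Y) := by gcongr
      _ ≤ 1 / 8 := by
        rw [← mul_div_assoc, div_le_iff₀ hYpos]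
        linarith
  have hzpn : ‖z - p‖ ≤ 1 := by
    have := norm_sub_le z p
    linarith
  have hRn : ‖R‖ ≤ 1 / 8 := by
    calc ‖R‖ ≤ CB * ‖z‖ * ‖z - p‖ := b5
      _ ≤ CB * (4 / Y) * 1 := by gcongr
      _ ≤ 1 / 8 := by
        rw [mul_one, ← mul_div_assoc, div_le_iff₀ hYpos]
        linarith
  have hinc := incr (b := b) (R := R) (ρ := ρ) (v := v) hs1pos.le hc1pos hc1le
  -- the altitude stays positive
  have hpos' : 0 < Real.log ‖(z' - p) / z'‖ := by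
    have h1 : Y ≤ k / (2 * Real.pi) * Real.log ‖s‖ := by
      calc Y = k / (2 * Real.pi) * (2 * Real.pi * Y / k) := by field_simp
        _ ≤ k / (2 * Real.pi) * Real.log ‖s‖ := by gcongr
    have h2 : -1 ≤ k / (2 * Real.pi) * (v - u).re := by
      rw [hE]
      have h3 := (abs_le.mp (Complex.abs_re_le_norm (R - ρ * v))).1
      have h4 := (abs_le.mp (Complex.abs_im_le_norm (R - ρ * v))).1
      have h5 : ‖R - ρ * v‖ ≤ 1 / 4 := (norm_sub_le _ _).trans (by linarith)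
      have h6 : 0 ≤ s1 * (1 + (R - ρ * v).re) := mul_nonneg hs1pos.le (by linarith)
      have h7 : c1 * (-(1 / 4)) ≤ c1 * (R - ρ * v).im :=
        mul_le_mul_of_nonneg_left (by linarith) hc1pos
      linarith
    have h3 : 0 < k / (2 * Real.pi) * Real.log ‖(z' - p) / z'‖ := by
      rw [hlog', mul_add]
      linarith
    exact pos_of_mul_pos_right h3 (by positivity)
  -- the argument
  obtain ⟨w, hw⟩ : ∃ w : ℂ, w = p / (p - z) := ⟨_, rfl⟩
  have hpz : p - z ≠ 0 := by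
    intro h; apply hzp0; linear_combination -h
  have hw0 : w ≠ 0 := by rw [hw]; exact div_ne_zero hp0 hpz
  have hwb : ‖1 - w‖ < 1 := by
    have h1 : 1 - w = 1 / s := by
      rw [hw, hs]; field_simp; ring
    rw [h1, norm_div, norm_one, div_lt_one (by linarith)]
    exact hs1'
  have hargw := arg_ball hwb
  have hvim : |v.im| ≤ 1 := (Complex.abs_im_le_norm v).trans hv1
  have harg' : (p / (p - z')).arg = w.arg - v.im := by
    have h1 : p / (p - z') = w * Complex.exp (-v) := by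
      have h2 : p - z' = (p - z) * Complex.exp v := by linear_combination -hz'p
      rw [h2, hw, Complex.exp_neg, div_mul_eq_div_div]
      rfl
    rw [h1]
    have h3 := abs_lt.mp hargw
    have h4 := abs_le.mp hvim
    apply arg_step hw0 <;> linarith
  refine ⟨hz'0, hpos', ?_, by rw [← hw]; exact hargw.le⟩
  rw [← hw, ← hs, harg', hlog', mul_add]
  have h2b : 2 - (deriv e 0).re = b + 1 := by rw [hb]; ring
  rw [h2b]
  -- final estimate
  have hSk : S / (2 * k) ≤ s1 * (1 - ‖R‖ - ‖ρ * v‖) := by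
    have h1 : 4 / 5 * (S / k) ≤ s1 := by
      rw [hs1, le_div_iff₀ (by positivity)]
      rw [div_lt_one hkR] at k6
      have h2 : S ^ 2 ≤ (k : ℝ) ^ 2 / 4 := by
        have h3 : S ^ 2 ≤ ((k : ℝ) / 2) ^ 2 := pow_le_pow_left₀ hSpos.le (by linarith) 2
        rw [div_pow] at h3
        linarith
      calc 4 / 5 * (S / k) * ((k : ℝ) ^ 2 + S ^ 2) ≤
          4 / 5 * (S / k) * ((k : ℝ) ^ 2 + (k : ℝ) ^ 2 / 4) := by gcongr
        _ = S * k := by field_simp; ring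
    have h3 : 3 / 4 ≤ 1 - ‖R‖ - ‖ρ * v‖ := by linarith
    calc S / (2 * k) = 1 / 2 * (S / k) := by field_simp
      _ ≤ (4 / 5 * (S / k)) * (3 / 4) := by
        have : 0 < S / k := by positivity
        linarith
      _ ≤ s1 * (1 - ‖R‖ - ‖ρ * v‖) := by gcongr
  have hcb : (1 - c1) * (|b| * ‖v‖) ≤ 1 / k := by
    have h1 : 1 - c1 ≤ S ^ 2 / (k : ℝ) ^ 2 := by
      have h2 : 1 - c1 = S ^ 2 / ((k : ℝ) ^ 2 + S ^ 2) := by
        rw [hc1]; field_simp; ring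
      rw [h2]
      exact div_le_div_of_nonneg_left (by positivity) (by positivity) (by linarith [sq_nonneg S])
    calc (1 - c1) * (|b| * ‖v‖) ≤ S ^ 2 / (k : ℝ) ^ 2 * (|b| * 1) := by
          have : 0 ≤ 1 - c1 := by linarith
          gcongr
      _ = (S ^ 2 * |b| / k) * (1 / k) := by field_simp
      _ ≤ 1 * (1 / k) := by gcongr
      _ = 1 / k := one_mul _
  have hρvn : ‖ρ - b‖ * ‖v‖ ≤ Cρ / k := by
    calc ‖ρ - b‖ * ‖v‖ ≤ Cρ / k * 1 := by gcongr
      _ = Cρ / k := mul_one _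
  have hvz : z.im - CB * ‖z‖ * ‖z - p‖ - CB * (P0 + B') / k ≤ v.im := by
    have h1 := (abs_le.mp (Complex.abs_im_le_norm (v - z))).1
    rw [Complex.sub_im] at h1
    have h2 : ‖z‖ ^ 2 ≤ ‖z‖ * ‖z - p‖ + P0 / k := by
      have h3 : ‖z‖ ≤ ‖z - p‖ + ‖p‖ := by
        have := norm_add_le (z - p) p
        simpa using this
      have h4 : ‖z‖ * ‖p‖ ≤ 1 * (P0 / k) := by
        gcongr
        linarith
      calc ‖z‖ ^ 2 = ‖z‖ * ‖z‖ := sq _
        _ ≤ ‖z‖ * (‖z - p‖ + ‖p‖) := mul_le_mul_of_nonneg_left h3 (norm_nonneg z)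
        _ = ‖z‖ * ‖z - p‖ + ‖z‖ * ‖p‖ := mul_add _ _ _
        _ ≤ ‖z‖ * ‖z - p‖ + P0 / k := by linarith
    have h5 : ε * ‖z‖ ≤ B' / k := by
      rw [hε]
      have : B' / k * ‖z‖ ≤ B' / k * 1 := by
        gcongr
        linarith
      linarith
    have h6 : ‖v - z‖ ≤ CB * (‖z‖ * ‖z - p‖ + P0 / k + B' / k) := by
      refine b4.trans ?_
      gcongr
    have h7 : CB * (‖z‖ * ‖z - p‖ + P0 / k + B' / k) =
        CB * ‖z‖ * ‖z - p‖ + CB * (P0 + B') / k := by ring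
    rw [h7] at h6
    linarith
  have hgeo := geo (k := (k : ℝ)) (S := S) (Y := Y) (C2 := 2 * CB) (C3 := C3) (P0 := P0)
    (p := p) (z := z) (s := s) hkR hSpos.le hYpos (by positivity) hzs hsge hpn (by
      have h1 : p + 2 * Real.pi * Complex.I / ((k : ℝ) : ℂ) =
          (p + ℓ) - (ℓ - 2 * Real.pi * Complex.I / k) := by
        push_cast
        ring
      rw [h1]
      refine (norm_sub_le _ _).trans ?_
      have h2 : ‖ℓ - 2 * Real.pi * Complex.I / k‖ ≤ 2 * Real.pi / k * (S / k) := by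
        rw [hℓ]; exact ell_sub S k hkpos hSpos.le
      have h3 : ‖p + ℓ‖ ≤ 2 * Real.pi / k * (CA * (2 * Real.pi + B') / k) := by
        calc ‖p + ℓ‖ ≤ CA * ‖ℓ‖ * (‖ℓ‖ + ε) := hpℓ
          _ ≤ CA * (2 * Real.pi / k) * (2 * Real.pi / k + B' / k) := by
            rw [hε]; gcongr
          _ = 2 * Real.pi / k * (CA * (2 * Real.pi + B') / k) := by ring
      calc ‖p + ℓ‖ + ‖ℓ - 2 * Real.pi * Complex.I / k‖ ≤
          2 * Real.pi / k * (CA * (2 * Real.pi + B') / k) + 2 * Real.pi / k * (S / k) := by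
            linarith
        _ = 2 * Real.pi / k * ((CA * (2 * Real.pi + B') + S) / k) := by ring
        _ ≤ 2 * Real.pi / k * (C3 * (1 + S) / k) := by
          have h4 : CA * (2 * Real.pi + B') + S ≤ C3 * (1 + S) := by
            rw [hC3]
            have : 0 ≤ CA * (2 * Real.pi + B') * S := by positivity
            linarith
          gcongr) (by rw [hP0]; linarith [mul_le_mul_of_nonneg_left hYC (sq_nonneg Real.pi)]) hY3
  have hfin : 1 / (k : ℝ) ≤ S / (2 * k) - C1 / k - Real.pi / k - (1 + S) / (8 * k) := by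
    have h1 : S / (2 * k) - C1 / k - Real.pi / k - (1 + S) / (8 * k) =
        (S / 2 - C1 - Real.pi - (1 + S) / 8) / k := by
      field_simp
    rw [h1]
    gcongr
    linarith
  have e1 : -Real.pi / (k : ℝ) = -(Real.pi / k) := by ring
  have e2 : C1 / (k : ℝ) = Cρ / k + 1 / k + CB * (P0 + B') / k := by rw [hC1]; ring
  rw [e1] at hgeo
  rw [hE]
  rw [e2] at hfin
  linarith

end Pool.Agent.MAT
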