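import Pool.Agent.MAT.T

/-!
# MAT: VEX (gluing of the local extensions)
-/

set_option autoImplicit false

open Polynomial Metric Set Filter Topology

noncomputable section

namespace Pool.Agent.MAT.VEX_

/-- identity theorem: two functions holomorphic on an open convex set that agree on a nonempty
open subset agree -/
theorem eq_of_open {V U : Set ℂ} {f g : ℂ → ℂ} (hV : IsOpen V) (hVc : Convex ℝ V)
    (hU : IsOpen U) (hne : (V ∩ U).Nonempty) (hf : DifferentiableOn ℂ f V)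
    (hg : DifferentiableOn ℂ g V) (h : ∀ x ∈ V, x ∈ U → f x = g x) : EqOn f g V := by
  obtain ⟨z, hzV, hzU⟩ := hne
  have hfa : AnalyticOnNhd ℂ f V := hf.analyticOnNhd hV
  have hga : AnalyticOnNhd ℂ g V := hg.analyticOnNhd hV
  refine hfa.eqOn_of_preconnected_of_eventuallyEq hga hVc.isPreconnected hzV ?_
  filter_upwards [(hV.inter hU).mem_nhds ⟨hzV, hzU⟩] with x hx
  exact h x hx.1 hx.2

theorem glue_aux {U K : Set ℂ} (hU : IsOpen U) (hK : K ⊆ closure U)
    {r r' : ℝ} {f f' χ : ℂ → ℂ} {y y' : ℂ} (hy' : y' ∈ K) (hr : 0 < r) (hr' : 0 < r')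
    (hle : r' ≤ r) (hf : DifferentiableOn ℂ f (ball y r)) (hf' : DifferentiableOn ℂ f' (ball y' r'))
    (h : ∀ x ∈ ball y r, x ∈ U → f x = χ x) (h' : ∀ x ∈ ball y' r', x ∈ U → f' x = χ x)
    {x : ℂ} (hx : x ∈ ball y (r / 3)) (hx' : x ∈ ball y' (r' / 3)) : f x = f' x := by
  have hyy : y' ∈ ball y r := by
    rw [mem_ball] at hx hx' ⊢
    calc dist y' y ≤ dist y' x + dist x y := dist_triangle _ _ _
      _ = dist x y' + dist x y := by rw [dist_comm y' x]
      _ < r' / 3 + r / 3 := add_lt_add hx' hx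
      _ ≤ r := by linarith
  have hV : IsOpen (ball y r ∩ ball y' r') := isOpen_ball.inter isOpen_ball
  have hVc : Convex ℝ (ball y r ∩ ball y' r') := (convex_ball y r).inter (convex_ball y' r')
  have hne : ((ball y r ∩ ball y' r') ∩ U).Nonempty := by
    have h1 := mem_closure_iff.1 (hK hy') _ hV ⟨hyy, mem_ball_self hr'⟩
    exact h1
  have hmem : x ∈ ball y r ∩ ball y' r' :=
    ⟨ball_subset_ball (by linarith) hx, ball_subset_ball (by linarith) hx'⟩
  exact eq_of_open hV hVc hU hne (hf.mono inter_subset_left) (hf'.mono inter_subset_right)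
    (fun z hz hzU => by rw [h z hz.1 hzU, h' z hz.2 hzU]) hmem

theorem glue {U K : Set ℂ} (hU : IsOpen U) (hK : K ⊆ closure U) (hUK : U ⊆ K) (χ : ℂ → ℂ)
    (hloc : ∀ y ∈ K, ∃ (r : ℝ) (f : ℂ → ℂ), 0 < r ∧ DifferentiableOn ℂ f (ball y r) ∧
      ∀ x ∈ ball y r, x ∈ U → f x = χ x) :
    ∃ (W : Set ℂ) (χ' : ℂ → ℂ), IsOpen W ∧ K ⊆ W ∧ DifferentiableOn ℂ χ' W ∧
      ∀ x ∈ U, χ' x = χ x := by
  classical
  choose! r f hr hf hfx using hloc
  have key : ∀ y ∈ K, ∀ y' ∈ K, ∀ x : ℂ, x ∈ ball y (r y / 3) → x ∈ ball y' (r y' / 3) →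
      f y x = f y' x := by
    intro y hy y' hy' x hx hx'
    rcases le_total (r y') (r y) with hle | hle
    · exact glue_aux hU hK hy' (hr y hy) (hr y' hy') hle (hf y hy) (hf y' hy') (hfx y hy)
        (hfx y' hy') hx hx'
    · exact (glue_aux hU hK hy (hr y' hy') (hr y hy) hle (hf y' hy') (hf y hy) (hfx y' hy')
        (hfx y hy) hx' hx).symm
  set W : Set ℂ := ⋃ y ∈ K, ball y (r y / 3) with hW
  have hWmem : ∀ x, x ∈ W ↔ ∃ y ∈ K, x ∈ ball y (r y / 3) := by
    intro x; rw [hW]; simp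
  have hKW : K ⊆ W := fun y hy =>
    (hWmem y).2 ⟨y, hy, mem_ball_self (by have := hr y hy; positivity)⟩
  have hWo : IsOpen W := by
    rw [hW]; exact isOpen_biUnion fun y _ => isOpen_ball
  set χ' : ℂ → ℂ := fun x => if h : x ∈ W then f (((hWmem x).1 h).choose) x else 0 with hχ'
  have hval : ∀ y ∈ K, ∀ x ∈ ball y (r y / 3), χ' x = f y x := by
    intro y hy x hx
    have hxW : x ∈ W := (hWmem x).2 ⟨y, hy, hx⟩
    have hc := ((hWmem x).1 hxW).choose_spec
    rw [hχ']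
    simp only [hxW, dif_pos]
    exact key _ hc.1 y hy x hc.2 hx
  refine ⟨W, χ', hWo, hKW, ?_, ?_⟩
  · intro x hx
    obtain ⟨y, hy, hxy⟩ := (hWmem x).1 hx
    have h1 : DifferentiableAt ℂ (f y) x :=
      (hf y hy).differentiableAt (isOpen_ball.mem_nhds
        (ball_subset_ball (by have := hr y hy; linarith) hxy))
    refine (h1.congr_of_eventuallyEq ?_).differentiableWithinAt
    filter_upwards [isOpen_ball.mem_nhds hxy] with z hz
    exact hval y hy z hz
  · intro x hx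
    have hxK := hUK hx
    have hxb : x ∈ ball x (r x / 3) := mem_ball_self (by have := hr x hxK; positivity)
    rw [hval x hxK x hxb]
    exact hfx x hxK x (mem_ball_self (hr x hxK)) hx

end Pool.Agent.MAT.VEX_

namespace Pool.Agent.MAT

theorem p_VEX (hGEL : T_GEL) (hGNW : T_GNW) (hGBA : T_GBA) : T_VEX := by
  intro n e A N D R ϕ χ p hn he he2 _hA hRad hloc
  obtain ⟨hUo, -, -, hGU, hconv, -, hUK, -, -, -, hGK, h0U, -⟩ := hGBA n e hn he he2
  have hKcl : KG n e = closure (UG n e) := hGNW n e hn he he2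
  have hGd : ∀ v : ℂ, DifferentiableAt ℂ (GG n e) v := fun v =>
    ((hGEL n e hn he he2).2.1 v).differentiableAt
  have hG1 : GG n e 1 = 1 := (hGEL n e hn he he2).1
  have hloc' : ∀ y ∈ KG n e, ∃ (r : ℝ) (f : ℂ → ℂ), 0 < r ∧ DifferentiableOn ℂ f (ball y r) ∧
      ∀ x ∈ ball y r, x ∈ UG n e → f x = χ x := by
    intro y hy
    by_cases hyU : y ∈ UG n e
    · obtain ⟨r, hr, hrU⟩ := Metric.isOpen_iff.1 hUo y hyU
      exact ⟨r, χ, hr, hRad.hol.mono hrU, fun _ _ _ => rfl⟩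
    · exact hloc y hy hyU
  obtain ⟨W, χ', hWo, hKW, hχ'd, hχ'U⟩ := VEX_.glue hUo (le_of_eq hKcl) hUK χ hloc'
  -- local conjugacy
  have hs : ∀ y ∈ KG n e, ∃ s : ℝ, 0 < s ∧ ball y s ⊆ W ∧ (∀ v ∈ ball y s, GG n e v ∈ W) ∧
      ∀ v ∈ ball y s, N.eval (χ' v) = χ' (GG n e v) * D.eval (χ' v) := by
    intro y hy
    have hyW := hKW hy
    have hGyW : GG n e y ∈ W := hKW ((hGK y).2 hy)
    have h1 : ∀ᶠ v in 𝓝 y, GG n e v ∈ W :=
      (hGd y).continuousAt.eventually_mem (hWo.mem_nhds hGyW)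
    have h2 : ∀ᶠ v in 𝓝 y, v ∈ W := hWo.mem_nhds hyW
    obtain ⟨s, hs, hsb⟩ := Metric.eventually_nhds_iff_ball.1 (h1.and h2)
    refine ⟨s, hs, fun v hv => (hsb v hv).2, fun v hv => (hsb v hv).1, ?_⟩
    have hd1 : DifferentiableOn ℂ χ' (ball y s) := hχ'd.mono fun v hv => (hsb v hv).2
    have hd2 : DifferentiableOn ℂ (fun v => χ' (GG n e v)) (ball y s) := by
      intro v hv
      have h3 : DifferentiableAt ℂ χ' (GG n e v) :=
        hχ'd.differentiableAt (hWo.mem_nhds (hsb v hv).1)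
      exact (h3.comp v (hGd v)).differentiableWithinAt
    have hd3 : DifferentiableOn ℂ (fun v => N.eval (χ' v)) (ball y s) :=
      N.differentiable.comp_differentiableOn hd1
    have hd4 : DifferentiableOn ℂ (fun v => χ' (GG n e v) * D.eval (χ' v)) (ball y s) :=
      hd2.mul (D.differentiable.comp_differentiableOn hd1)
    have hne : (ball y s ∩ UG n e).Nonempty := by
      have hyc : y ∈ closure (UG n e) := hKcl ▸ hy
      exact mem_closure_iff.1 hyc _ isOpen_ball (mem_ball_self hs)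
    exact VEX_.eq_of_open isOpen_ball (convex_ball y s) hUo hne hd3 hd4 fun v _ hvU => by
      have h5 : GG n e v ∈ UG n e := (hGU v).2 hvU
      simp only [hχ'U v hvU, hχ'U _ h5]
      exact hRad.conj v hvU
  choose! s hs0 hsW hsG hsc using hs
  have h1K : (1 : ℂ) ∈ KG n e := by
    refine ⟨1, fun m => ?_⟩
    rw [Function.iterate_fixed hG1]
    simp
  refine ⟨W, ⋃ y ∈ KG n e, ball y (s y), χ', ?_⟩
  refine ⟨hWo, isOpen_biUnion fun _ _ => isOpen_ball, ?_, ?_, hχ'd, hχ'U, ?_, ?_, ?_⟩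
  · intro y hy
    exact mem_biUnion hy (mem_ball_self (hs0 y hy))
  · exact iUnion₂_subset fun y hy => hsW y hy
  · intro v hv
    obtain ⟨y, hy, hvy⟩ := mem_iUnion₂.1 hv
    exact hsG y hy v hvy
  · intro v hv
    obtain ⟨y, hy, hvy⟩ := mem_iUnion₂.1 hv
    exact hsc y hy v hvy
  · have hc : ContinuousAt χ' 1 :=
      (hχ'd.differentiableAt (hWo.mem_nhds (hKW h1K))).continuousAt
    have ht := (hconv 0 h0U).1
    have ht1 : Tendsto (fun m : ℕ => χ' ((GG n e)^[m] 0)) atTop (𝓝 (χ' 1)) :=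
      hc.tendsto.comp ht
    have hmU : ∀ m : ℕ, (GG n e)^[m] 0 ∈ UG n e := by
      intro m
      induction m with
      | zero => exact h0U
      | succ k ih =>
        rw [Function.iterate_succ_apply']
        exact (hGU _).2 ih
    have ht2 : Tendsto (fun m : ℕ => χ' ((GG n e)^[m] 0)) atTop (𝓝 p) := by
      refine (hRad.conv 0 h0U).congr fun m => ?_
      rw [hχ'U _ (hmU m)]
    exact tendsto_nhds_unique ht1 ht2

end Pool.Agent.MAT
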