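import Pool.Agent.MAT.T

/-!
# MAT: VFI (the end of the proof)
-/

set_option autoImplicit false

open Polynomial Metric Set Filter Topology

noncomputable section

namespace Pool.Agent.MAT

namespace VFI_

/-- the set of inverses of the values of `ϕ` on a smaller closed disk is closed -/
theorem closedC (ϕ : ℂ → ℂ) (hϕ : DifferentiableOn ℂ ϕ (ball 0 1)) (ε : ℝ) (hε : 0 < ε) :
    IsClosed {z : ℂ | ∃ ζ ∈ closedBall (0 : ℂ) (1 - ε), ϕ ζ * z = 1} := by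
  apply IsSeqClosed.isClosed
  intro z y hz hzy
  choose ζ hζ hζ1 using hz
  obtain ⟨c, hc, s, hs, hsc⟩ := (isCompact_closedBall (0 : ℂ) (1 - ε)).tendsto_subseq hζ
  have hcb : c ∈ ball (0 : ℂ) 1 := by
    have := mem_closedBall_zero_iff.mp hc
    exact mem_ball_zero_iff.mpr (by linarith)
  have hcont : ContinuousAt ϕ c := (hϕ.differentiableAt (isOpen_ball.mem_nhds hcb)).continuousAt
  have h1 : Tendsto (fun k => ϕ (ζ (s k)) * z (s k)) atTop (𝓝 (ϕ c * y)) :=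
    (hcont.tendsto.comp hsc).mul (hzy.comp hs.tendsto_atTop)
  have h2 : Tendsto (fun k => ϕ (ζ (s k)) * z (s k)) atTop (𝓝 1) := by
    have : (fun k => ϕ (ζ (s k)) * z (s k)) = fun _ => (1 : ℂ) := by
      funext k
      exact hζ1 (s k)
    rw [this]
    exact tendsto_const_nhds
  exact ⟨c, hc, tendsto_nhds_unique h1 h2⟩

end VFI_

/-- VFI -/
theorem p_VFI (hVNC : T_VNC) (hANN : T_ANN) (hINVH : T_INVH) (hBLA : T_BLA) : T_VFI := by
  intro n e A N D R ϕ χ χ' φ p W W₁ hn he he2 hA hR hE hG hρ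
  obtain ⟨ρ, hρ0, hρ1, hρ⟩ := hρ
  obtain ⟨hA0, -, -, hAlt, -⟩ := hBLA n A (by omega) hA
  obtain ⟨-, -, -, -, hout⟩ := hVNC n e A N D R ϕ χ χ' p W W₁ hn he he2 hA hR hE
  obtain ⟨hop, h, hh, hhi, -⟩ := hINVH (ball 0 1) ϕ isOpen_ball hR.aside.hol hR.aside.inj
  have hAball : ∀ z ∈ ball (0 : ℂ) 1, A z ∈ ball (0 : ℂ) 1 := by
    intro z hz
    by_cases hz0 : z = 0
    · subst hz0
      rw [hA0]
      exact hz
    · have h1 := hAlt z hz hz0
      have h2 := mem_ball_zero_iff.mp hz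
      exact mem_ball_zero_iff.mpr (by linarith)
  -- the map `η`
  have key : ∀ x : ℂ, x ∈ Out ϕ → h (1 / x) ∈ ball (0 : ℂ) 1 ∧ ϕ (h (1 / x)) * x = 1 := by
    rintro x ⟨ξ, hξ, hξx⟩
    have hx : x ≠ 0 := by
      rintro rfl
      simp at hξx
    have h1 : 1 / x = ϕ ξ := by
      rw [← hξx]
      field_simp
    rw [h1, hhi ξ hξ]
    exact ⟨hξ, hξx⟩
  have key2 : ∀ x ξ : ℂ, ξ ∈ ball (0 : ℂ) 1 → ϕ ξ * x = 1 → h (1 / x) = ξ := by
    intro x ξ hξ hξx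
    have hx : x ≠ 0 := by
      rintro rfl
      simp at hξx
    have h1 : 1 / x = ϕ ξ := by
      rw [← hξx]
      field_simp
    rw [h1, hhi ξ hξ]
  have hne : ∀ x : ℂ, x ∈ Out ϕ → x ≠ 0 := by
    rintro x ⟨ξ, hξ, hξx⟩ rfl
    simp at hξx
  have hW1 : ∀ v ∈ W, DifferentiableAt ℂ χ' v := fun v hv =>
    hE.hol.differentiableAt (hE.opn.mem_nhds hv)
  refine hANN n A (fun ζ => h (1 / χ' (φ ζ))) ρ (by omega) hA hρ0 hρ1 ?_ ?_ ?_ ?_
  · -- holomorphic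
    intro ζ hζ
    apply DifferentiableAt.differentiableWithinAt
    obtain ⟨h1, h2⟩ := hρ ζ hζ.1 hζ.2
    have hζ0 : ζ ≠ 0 := by
      rintro rfl
      have := hζ.1
      rw [norm_zero] at this
      linarith
    have hφ : DifferentiableAt ℂ φ ζ := by
      refine hG.hol.differentiableAt ?_
      exact (isOpen_ball.sdiff isClosed_singleton).mem_nhds
        ⟨mem_ball_zero_iff.mpr hζ.2, hζ0⟩
    have hχ : DifferentiableAt ℂ χ' (φ ζ) := hW1 _ (hE.sub₁ h1)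
    have hx0 := hne _ h2
    have h3 : DifferentiableAt ℂ (fun ζ => 1 / χ' (φ ζ)) ζ :=
      (differentiableAt_const 1).div (hχ.comp ζ hφ) hx0
    have h4 : 1 / χ' (φ ζ) ∈ ϕ '' ball 0 1 := by
      obtain ⟨h5, h6⟩ := key _ h2
      refine ⟨_, h5, ?_⟩
      field_simp
      linear_combination h6
    have h5 : DifferentiableAt ℂ h (1 / χ' (φ ζ)) := hh.differentiableAt (hop.mem_nhds h4)
    exact DifferentiableAt.comp (f := fun ζ => 1 / χ' (φ ζ)) ζ h5 h3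
  · intro ζ h1 h2
    exact mem_ball_zero_iff.mp (key _ (hρ ζ h1 h2).2).1
  · -- equivariance
    intro ζ h1 h2
    have hζn : ‖ζ‖ ^ n ≤ ‖ζ‖ := by
      calc ‖ζ‖ ^ n ≤ ‖ζ‖ ^ 1 := pow_le_pow_of_le_one (norm_nonneg ζ) h2.le (by omega)
        _ = ‖ζ‖ := pow_one _
    have h3 : ρ < ‖ζ‖ := lt_of_lt_of_le h1 hζn
    have h4 : ‖ζ ^ n‖ = ‖ζ‖ ^ n := norm_pow ζ n
    have h5 : ρ < ‖ζ ^ n‖ := by rw [h4]; exact h1
    have h6 : ‖ζ ^ n‖ < 1 := by rw [h4]; linarith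
    obtain ⟨a1, a2⟩ := hρ ζ h3 h2
    obtain ⟨b1, b2⟩ := hρ (ζ ^ n) h5 h6
    have hζ0 : ζ ≠ 0 := by
      rintro rfl
      rw [norm_zero] at h3
      linarith
    have hconj := hG.conj ζ ⟨mem_ball_zero_iff.mpr h2, hζ0⟩
    have hE1 := hE.conj (φ ζ) a1
    rw [hconj] at hE1
    obtain ⟨k1, k2⟩ := key _ a2
    have hA1 := hR.aside.conj _ k1 _ k2
    have hD : D.eval (χ' (φ ζ)) ≠ 0 := by
      intro hD
      rw [hD, mul_zero] at hE1
      obtain ⟨s, t, hst⟩ := hR.deg.cop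
      have := congrArg (Polynomial.eval (χ' (φ ζ))) hst
      rw [Polynomial.eval_add, Polynomial.eval_mul, Polynomial.eval_mul, hD, hE1] at this
      simp at this
    refine key2 _ _ (hAball _ k1) ?_
    have h7 : χ' (φ (ζ ^ n)) * D.eval (χ' (φ ζ)) * ϕ (A (h (1 / χ' (φ ζ)))) =
        D.eval (χ' (φ ζ)) := by
      rw [← hE1]
      exact hA1
    have h8 : (ϕ (A (h (1 / χ' (φ ζ)))) * χ' (φ (ζ ^ n)) - 1) * D.eval (χ' (φ ζ)) = 0 := by
      linear_combination h7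
    rcases mul_eq_zero.mp h8 with h9 | h9
    · exact sub_eq_zero.mp h9
    · exact absurd h9 hD
  · -- properness
    intro ε hε
    have hC := VFI_.closedC ϕ hR.aside.hol ε hε
    have hWo : IsOpen (W ∩ χ' ⁻¹' {z : ℂ | ∃ ζ ∈ closedBall (0 : ℂ) (1 - ε), ϕ ζ * z = 1}ᶜ) :=
      hE.hol.continuousOn.isOpen_inter_preimage hE.opn hC.isOpen_compl
    obtain ⟨ρ', hρ'0, hρ'1, hρ'⟩ := hG.near _ hWo (by
      intro v hv
      refine ⟨hE.sub₁ (hE.sub hv), ?_⟩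
      rintro ⟨ζ, hζ, hζv⟩
      refine hout v hv ⟨ζ, ?_, hζv⟩
      have := mem_closedBall_zero_iff.mp hζ
      exact mem_ball_zero_iff.mpr (by linarith))
    refine ⟨max ρ ρ', max_lt hρ1 hρ'1, ?_⟩
    intro ζ h1 h2
    have h3 : ρ < ‖ζ‖ := lt_of_le_of_lt (le_max_left _ _) h1
    have h4 : ρ' < ‖ζ‖ := lt_of_le_of_lt (le_max_right _ _) h1
    obtain ⟨-, h5⟩ := hρ' ζ h4 h2
    by_contra hcon
    push Not at hcon
    apply h5
    exact ⟨_, mem_closedBall_zero_iff.mpr hcon, (key _ (hρ ζ h3 h2).2).2⟩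

end Pool.Agent.MAT
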