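import Pool.Agent.MAT.T

/-!
# MAT: target VID (the two parametrisations agree at the upper end)
-/

set_option autoImplicit false

open Polynomial Metric Set Filter Topology

noncomputable section

namespace Pool.Agent.MAT

namespace VID_

/-- two holomorphic functions on a half plane which agree along each horizontal orbit from some
moment on are equal -/
theorem eq_of_orbits {Y : ℝ} {X V : ℂ → ℂ} (hX : DifferentiableOn ℂ X {w | Y < w.im})
    (hV : DifferentiableOn ℂ V {w | Y < w.im})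
    (h : ∀ w : ℂ, Y < w.im → ∃ m : ℕ, X (w + m) = V (w + m)) :
    ∀ w : ℂ, Y < w.im → X w = V w := by
  have hopen : IsOpen {w : ℂ | Y < w.im} := isOpen_lt continuous_const Complex.continuous_im
  set w₀ : ℂ := ((Y + 1 : ℝ) : ℂ) * Complex.I with hw₀
  have him : w₀.im = Y + 1 := by simp [hw₀]
  have hline : ∀ (t : ℝ) (m : ℕ), Y < (w₀ + t + m).im := by
    intro t m
    simp [him]
  have hcφ : ∀ m : ℕ, Continuous (fun t : ℝ => w₀ + (t : ℂ) + (m : ℂ)) := fun m =>
    (continuous_const.add Complex.continuous_ofReal).add continuous_const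
  have hcl : ∀ m : ℕ, IsClosed {t : ℝ | X (w₀ + t + m) = V (w₀ + t + m)} := by
    intro m
    refine isClosed_eq ?_ ?_
    · exact hX.continuousOn.comp_continuous (hcφ m) (fun t => hline t m)
    · exact hV.continuousOn.comp_continuous (hcφ m) (fun t => hline t m)
  have hun : (⋃ m : ℕ, {t : ℝ | X (w₀ + t + m) = V (w₀ + t + m)}) = univ := by
    refine eq_univ_of_forall fun t => ?_
    obtain ⟨m, hm⟩ := h (w₀ + t) (by simpa using hline t 0)
    exact mem_iUnion.2 ⟨m, hm⟩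
  obtain ⟨m, t₀, ht₀⟩ := nonempty_interior_of_iUnion_of_closed hcl hun
  have hev : ∀ᶠ t : ℝ in 𝓝[≠] t₀, X (w₀ + t + m) = V (w₀ + t + m) :=
    mem_nhdsWithin_of_mem_nhds (mem_interior_iff_mem_nhds.1 ht₀)
  have hinj : ∀ t : ℝ, t ≠ t₀ → w₀ + (t : ℂ) + (m : ℂ) ≠ w₀ + (t₀ : ℂ) + (m : ℂ) := by
    intro t ht h0
    apply ht
    have h1 : (t : ℂ) = t₀ := by
      have h2 := congrArg (fun z : ℂ => z - w₀ - m) h0
      simpa using h2
    exact_mod_cast h1
  have htend : Tendsto (fun t : ℝ => w₀ + (t : ℂ) + (m : ℂ)) (𝓝[≠] t₀)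
      (𝓝[≠] (w₀ + (t₀ : ℂ) + (m : ℂ))) := by
    refine tendsto_nhdsWithin_iff.2 ⟨((hcφ m).tendsto t₀).mono_left nhdsWithin_le_nhds, ?_⟩
    exact eventually_nhdsWithin_of_forall fun t ht => hinj t ht
  have hfr : ∃ᶠ z in 𝓝[≠] (w₀ + (t₀ : ℂ) + (m : ℂ)), X z = V z :=
    htend.frequently hev.frequently
  have heq : EqOn X V {w : ℂ | Y < w.im} :=
    (hX.analyticOnNhd hopen).eqOn_of_preconnected_of_frequently_eq (hV.analyticOnNhd hopen)
      (convex_halfSpace_im_gt Y).isPreconnected (hline t₀ m) hfr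
  exact fun w hw => heq hw

end VID_

/-- target VID -/
theorem p_VID (hHPB : T_HPB) (hHUS : T_HUS) : T_VID := by
  intro n e A N D R ϕ χ p a κ hn he he' hA hRad K L hKL hH
  obtain ⟨Y₁, hY₁⟩ := hH
  obtain ⟨-, -, -, hEU, -, -, -⟩ := hHUS n e hn he he' K 0
  obtain ⟨-, -, -, -, -, -, -, hK8, -, -⟩ := hHPB _ _ _ K
  obtain ⟨-, -, -, -, hL5, -, -, hL8, -, -⟩ := hHPB _ _ _ L
  set Y : ℝ := max (max K.R (L.R + |κ.im|)) Y₁ with hYdef
  have hYK : K.R ≤ Y := (le_max_left _ _).trans (le_max_left _ _)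
  have hYL : L.R + |κ.im| ≤ Y := (le_max_right _ _).trans (le_max_left _ _)
  have hYY : Y₁ ≤ Y := le_max_right _ _
  have hLim : ∀ w : ℂ, Y < w.im → L.R < (w + κ).im := by
    intro w hw
    have h1 : -|κ.im| ≤ κ.im := neg_abs_le _
    rw [Complex.add_im]
    linarith
  refine ⟨Y, ?_⟩
  have hX : DifferentiableOn ℂ (fun w => χ (K.E w)) {w : ℂ | Y < w.im} := by
    refine hRad.hol.comp (K.E_hol2.mono ?_) ?_
    · intro w hw
      exact lt_of_le_of_lt hYK hw
    · intro w hw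
      exact hEU w (lt_of_le_of_lt hYK hw)
  have hV : DifferentiableOn ℂ (fun w => L.E (w + κ)) {w : ℂ | Y < w.im} := by
    refine L.E_hol2.comp (differentiableOn_id.add_const κ) ?_
    intro w hw
    exact hLim w hw
  -- the functional equations
  have hX1 : ∀ w : ℂ, Y < w.im → χ (K.E (w + 1)) = rf N D (χ (K.E w)) := by
    intro w hw
    have hU : K.E w ∈ UG n e := hEU w (lt_of_le_of_lt hYK hw)
    have hD : D.eval (χ (K.E w)) ≠ 0 := (hRad.aside.back _ (hRad.cross _ hU)).1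
    rw [K.E_add]
    unfold rf
    rw [eq_div_iff hD]
    exact (hRad.conj _ hU).symm
  have hXm : ∀ w : ℂ, Y < w.im → ∀ m : ℕ, χ (K.E (w + m)) = (rf N D)^[m] (χ (K.E w)) := by
    intro w hw m
    induction m with
    | zero => simp
    | succ m ih =>
      have h1 : (w + ((m + 1 : ℕ) : ℂ)) = (w + m) + 1 := by push_cast; ring
      rw [h1, hX1 (w + m) (by simpa using hw), ih, Function.iterate_succ_apply']
  have hVm : ∀ w : ℂ, ∀ m : ℕ, L.E (w + m + κ) = (rf N D)^[m] (L.E (w + κ)) := by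
    intro w m
    induction m with
    | zero => simp
    | succ m ih =>
      have h1 : (w + ((m + 1 : ℕ) : ℂ) + κ) = (w + m + κ) + 1 := by push_cast; ring
      rw [h1, L.E_add, ih, Function.iterate_succ_apply']
  refine VID_.eq_of_orbits hX hV ?_
  intro w hw
  have hU : K.E w ∈ UG n e := hEU w (lt_of_le_of_lt hYK hw)
  have h1 : L.HasPhi (χ (K.E w)) (K.H w + κ) :=
    hKL _ hU _ (hK8 w (lt_of_le_of_lt hYK hw))
  have h2 : L.HasPhi (L.E (w + κ)) (K.H w + κ) := by
    rw [← hY₁ w (lt_of_le_of_lt hYY hw)]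
    exact hL8 _ (hLim w hw)
  obtain ⟨m₀, hm₀⟩ := hL5 _ _ _ h1 h2
  refine ⟨m₀, ?_⟩
  show χ (K.E (w + m₀)) = L.E (w + m₀ + κ)
  rw [hXm w hw m₀, hVm w m₀]
  exact hm₀ m₀ le_rfl

end Pool.Agent.MAT
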