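import Pool.Agent.MAT.T

/-!
# MAT, VLO: local extension of the conjugacy at every point of the boundary of the basin
-/

set_option autoImplicit false

open Polynomial Metric Set Filter Topology

noncomputable section

namespace Pool.Agent.MAT

namespace VLO_

lemma iter_mem {n : ℕ} {e : ℝ} (hG : ∀ v : ℂ, GG n e v ∈ UG n e ↔ v ∈ UG n e) (m : ℕ) (v : ℂ) :
    (GG n e)^[m] v ∈ UG n e ↔ v ∈ UG n e := by
  induction m generalizing v with
  | zero => rfl
  | succ m ih => rw [Function.iterate_succ_apply, ih, hG]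

/-- the iterates have no critical points outside the basin -/
lemma deriv_iter {n : ℕ} {e : ℝ} (he : 0 < e)
    (hd : ∀ v : ℂ, HasDerivAt (GG n e) (v ^ (n - 2) * (v + e) / (1 + e)) v)
    (hG : ∀ v : ℂ, GG n e v ∈ UG n e ↔ v ∈ UG n e) (h0 : 0 ∈ UG n e) (h1 : (-(e : ℂ)) ∈ UG n e)
    (m : ℕ) : ∀ v : ℂ, v ∉ UG n e → ∃ d : ℂ, d ≠ 0 ∧ HasDerivAt ((GG n e)^[m]) d v := by
  induction m with
  | zero => exact fun v _ => ⟨1, one_ne_zero, hasDerivAt_id v⟩
  | succ m ih =>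
    intro v hv
    obtain ⟨d, hd0, hd1⟩ := ih (GG n e v) (by rwa [hG])
    have hv0 : v ≠ 0 := fun h => hv (by rw [h]; exact h0)
    have hve : v + e ≠ 0 := fun h => hv (by rw [eq_neg_of_add_eq_zero_left h]; exact h1)
    have h1e : (1 + e : ℂ) ≠ 0 := by
      have h2 : (1 + e : ℝ) ≠ 0 := by positivity
      exact_mod_cast h2
    refine ⟨d * (v ^ (n - 2) * (v + e) / (1 + e)), ?_, ?_⟩
    · exact mul_ne_zero hd0 (div_ne_zero (mul_ne_zero (pow_ne_zero _ hv0) hve) h1e)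
    · rw [Function.iterate_succ]
      exact hd1.comp v (hd v)

lemma differentiable_iter {n : ℕ} {e : ℝ}
    (hd : ∀ v : ℂ, HasDerivAt (GG n e) (v ^ (n - 2) * (v + e) / (1 + e)) v) (m : ℕ) :
    Differentiable ℂ ((GG n e)^[m]) := by
  have h : Differentiable ℂ (GG n e) := fun v => (hd v).differentiableAt
  exact h.iterate m

lemma chi_iter {n : ℕ} {e : ℝ} {A : ℂ → ℂ} {N D : ℂ[X]} {R : ℝ} {ϕ χ : ℂ → ℂ} {p : ℂ}
    (hR : Rad n e A N D R ϕ χ p) (hG : ∀ v : ℂ, GG n e v ∈ UG n e ↔ v ∈ UG n e) (m : ℕ) :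
    ∀ v ∈ UG n e, (rf N D)^[m] (χ v) = χ ((GG n e)^[m] v) := by
  induction m with
  | zero => exact fun v _ => rfl
  | succ m ih =>
    intro v hv
    have h1 : rf N D (χ v) = χ (GG n e v) := by
      have h2 := (hR.aside.back (χ v) (hR.cross v hv)).1
      unfold rf
      rw [hR.conj v hv]
      field_simp
    rw [Function.iterate_succ_apply, h1, ih _ ((hG v).2 hv), ← Function.iterate_succ_apply]

lemma rf_an {A : ℂ → ℂ} {N D : ℂ[X]} {R : ℝ} {ϕ : ℂ → ℂ} (hA : ASide A N D R ϕ) (m : ℕ) :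
    ∀ z : ℂ, z ∉ Out ϕ → AnalyticAt ℂ ((rf N D)^[m]) z := by
  induction m with
  | zero => exact fun z _ => analyticAt_id
  | succ m ih =>
    intro z hz
    obtain ⟨h1, h2⟩ := hA.back z hz
    have h3 : AnalyticAt ℂ (rf N D) z := by
      unfold rf
      exact (AnalyticOnNhd.eval_polynomial N z (mem_univ z)).div
        (AnalyticOnNhd.eval_polynomial D z (mem_univ z)) h1
    rw [Function.iterate_succ]
    exact (ih _ h2).comp h3

end VLO_

open VLO_ in
/-- VLO -/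
theorem p_VLO (hGEL : T_GEL) (hGBA : T_GBA) (hGNW : T_GNW) (hGPR : T_GPR) (hGTA : T_GTA)
    (hLAB : T_LAB) (hINVH : T_INVH) : T_VLO := by
  intro n e A N D R ϕ χ p a κ hn he he2 hA hR K L hKL y hyK hyU
  obtain ⟨X, hX⟩ := hKL
  obtain ⟨-, -, -, hGU, -, -, -, -, -, -, -, h0U, heU⟩ := hGBA n e hn he he2
  obtain ⟨-, hGd, -⟩ := hGEL n e hn he he2
  obtain ⟨M, y', hy', hMy⟩ := hGPR n e hn he he2 y hyU
  obtain ⟨-, τ, X1, Y1, -, -, hτ, hτ1, -, -⟩ := hGTA n e hn he he2 K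
  obtain ⟨hOo, -⟩ := hLAB n A N D R ϕ (by omega) hA hR.deg hR.aside
  have hy'1 : y' ∈ Hs 1 := by
    show 0 < 1 * y'.im
    rw [one_mul]; exact hy'
  -- the backward orbit
  have hYmem : ∀ m : ℕ, τ^[m] y' ∈ Hs 1 := by
    intro m
    induction m with
    | zero => exact hy'1
    | succ m ih =>
      rw [Function.iterate_succ_apply']
      exact (hτ _ ih).1
  have hYG : ∀ m : ℕ, GG n e (τ^[m + 1] y') = τ^[m] y' := by
    intro m
    rw [Function.iterate_succ_apply']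
    exact (hτ _ (hYmem m)).2
  have hYG' : ∀ m : ℕ, (GG n e)^[m] (τ^[m] y') = y' := by
    intro m
    induction m with
    | zero => rfl
    | succ m ih => rw [Function.iterate_succ_apply, hYG, ih]
  have hYne : ∀ m : ℕ, τ^[m] y' ≠ 1 := by
    intro m h
    have h1 : 0 < 1 * (τ^[m] y').im := hYmem m
    rw [h] at h1
    simp at h1
  set X' : ℝ := |X| + |K.R| + |L.R| + |κ.re| + 1 with hX'
  obtain ⟨m, w0, hw0, hE0⟩ := K.E_surj (fun m => τ^[m] y') hYG hYne (hτ1 y' hy'1) X'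
  have hXK : ∀ w : ℂ, w.re < -X' → w.re < -X ∧ w.re < -K.R ∧ (w + κ).re < -L.R := by
    intro w hw
    rw [Complex.add_re]
    have b1 := abs_nonneg X
    have b2 := abs_nonneg K.R
    have b3 := abs_nonneg L.R
    have b4 := abs_nonneg κ.re
    have c1 := le_abs_self X
    have c2 := le_abs_self K.R
    have c3 := le_abs_self L.R
    have c4 := le_abs_self κ.re
    refine ⟨?_, ?_, ?_⟩ <;> linarith
  set M' := M + m with hM'
  let Θ : ℂ → ℂ := fun w => (GG n e)^[M'] (K.E w)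
  have hΘ0 : Θ w0 = y := by
    show (GG n e)^[M'] (K.E w0) = y
    rw [hE0, hM', Function.iterate_add_apply, hYG' m, hMy]
  have hEU : K.E w0 ∉ UG n e := by
    intro h
    apply hyU
    rw [← hΘ0]
    exact (iter_mem hGU M' _).2 h
  -- regularity of `K.E`
  have hop : IsOpen {w : ℂ | w.re < -K.R} := isOpen_lt Complex.continuous_re continuous_const
  have hopX : IsOpen {w : ℂ | w.re < -X'} := isOpen_lt Complex.continuous_re continuous_const
  have hKd : ∀ w : ℂ, w.re < -K.R → DifferentiableAt ℂ K.E w := fun w hw =>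
    K.E_hol.differentiableAt (hop.mem_nhds hw)
  have hKan : AnalyticAt ℂ K.E w0 := K.E_hol.analyticAt (hop.mem_nhds (hXK w0 hw0).2.1)
  obtain ⟨-, hE, -, -, hEne⟩ := hINVH _ K.E hop K.E_hol K.E_inj
  have hKne : deriv K.E w0 ≠ 0 := hEne w0 (hXK w0 hw0).2.1
  obtain ⟨d, hd0, hd1⟩ := deriv_iter he hGd hGU h0U heU M' (K.E w0) hEU
  have hΘan : AnalyticAt ℂ Θ w0 := by
    have h1 : AnalyticAt ℂ ((GG n e)^[M']) (K.E w0) := (differentiable_iter hGd M').analyticAt _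
    exact h1.comp hKan
  have hΘd : HasDerivAt Θ (d * deriv K.E w0) w0 := hd1.comp w0 hKan.differentiableAt.hasDerivAt
  have hΘne : deriv Θ w0 ≠ 0 := by
    rw [hΘd.deriv]; exact mul_ne_zero hd0 hKne
  have hinj : ∀ᶠ w in 𝓝 w0, (hΘan.hasStrictDerivAt.localInverse Θ (deriv Θ w0) w0 hΘne) (Θ w) = w :=
    (hΘan.hasStrictDerivAt.hasStrictFDerivAt_equiv hΘne).eventually_left_inverse
  have hH : ∀ᶠ w in 𝓝 w0, K.E w ∈ Hs 1 := by
    have h1 : IsOpen (Hs 1) := isOpen_lt continuous_const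
      (continuous_const.mul Complex.continuous_im)
    refine hKan.continuousAt.eventually (h1.mem_nhds ?_)
    rw [hE0]; exact hYmem m
  obtain ⟨s, hs, hs'⟩ := Metric.eventually_nhds_iff_ball.1
    (hinj.and (hH.and (hopX.mem_nhds hw0)))
  have hΘdiff : DifferentiableOn ℂ Θ (ball w0 s) := fun w hw =>
    ((differentiable_iter hGd M' _).comp w
      (hKd w (hXK w (hs' w hw).2.2).2.1)).differentiableWithinAt
  have hΘinj : InjOn Θ (ball w0 s) := by
    intro w hw w' hw' hww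
    rw [← (hs' w hw).1, ← (hs' w' hw').1, hww]
  obtain ⟨hVo, h, hhd, hhl, -⟩ := hINVH _ Θ isOpen_ball hΘdiff hΘinj
  have hyV : y ∈ Θ '' ball w0 s := ⟨w0, mem_ball_self hs, hΘ0⟩
  have hhy : h y = w0 := by rw [← hΘ0]; exact hhl w0 (mem_ball_self hs)
  have hhV : ∀ x ∈ Θ '' ball w0 s, h x ∈ ball w0 s ∧ Θ (h x) = x := by
    rintro x ⟨w, hw, rfl⟩
    rw [hhl w hw]
    exact ⟨hw, rfl⟩
  have hhc : ContinuousAt h y := (hhd.differentiableAt (hVo.mem_nhds hyV)).continuousAt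
  -- regularity of `L.E`
  have hopL : IsOpen {w : ℂ | w.re < -L.R} := isOpen_lt Complex.continuous_re continuous_const
  have hLd : ∀ w : ℂ, w.re < -L.R → DifferentiableAt ℂ L.E w := fun w hw =>
    L.E_hol.differentiableAt (hopL.mem_nhds hw)
  let q : ℂ → ℂ := fun x => L.E (h x + κ)
  have hqd : ∀ x ∈ Θ '' ball w0 s, DifferentiableAt ℂ q x := by
    intro x hx
    have h1 : DifferentiableAt ℂ h x := hhd.differentiableAt (hVo.mem_nhds hx)
    have h2 : DifferentiableAt ℂ L.E (h x + κ) :=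
      hLd _ (hXK _ (hs' _ (hhV x hx).1).2.2).2.2
    exact h2.comp x (h1.add_const κ)
  have hqU : ∀ x ∈ Θ '' ball w0 s, x ∈ UG n e → K.E (h x) ∈ UG n e ∧ q x = χ (K.E (h x)) := by
    intro x hx hxU
    have h1 := hhV x hx
    have h2 : K.E (h x) ∈ UG n e := by
      refine (iter_mem hGU M' _).1 ?_
      show Θ (h x) ∈ UG n e
      rw [h1.2]; exact hxU
    have h3 := hs' _ h1.1
    exact ⟨h2, (hX _ (hXK _ h3.2.2).1 h2 h3.2.1).symm⟩
  have hq0 : q y ∉ Out ϕ := by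
    intro hcon
    have h1 : ∀ᶠ x in 𝓝 y, q x ∈ Out ϕ :=
      (hqd y hyV).continuousAt.eventually (hOo.mem_nhds hcon)
    have h2 : y ∈ closure (UG n e) := by rw [← hGNW n e hn he he2]; exact hyK
    have h3 := mem_closure_iff_frequently.1 h2
    obtain ⟨x, hx1, hx2, hx3⟩ := (h3.and_eventually (h1.and (hVo.mem_nhds hyV))).exists
    obtain ⟨h4, h5⟩ := hqU x hx3 hx1
    rw [h5] at hx2
    exact hR.cross _ h4 hx2
  have hgd : ∀ᶠ z in 𝓝 (q y), AnalyticAt ℂ ((rf N D)^[M']) z :=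
    (rf_an hR.aside M' _ hq0).eventually_analyticAt
  obtain ⟨r, hr, hr'⟩ := Metric.eventually_nhds_iff_ball.1
    (((hqd y hyV).continuousAt.eventually hgd).and (hVo.mem_nhds hyV))
  refine ⟨r, fun x => (rf N D)^[M'] (q x), hr, ?_, ?_⟩
  · intro x hx
    obtain ⟨h1, h2⟩ := hr' x hx
    exact (h1.differentiableAt.comp x (hqd x h2)).differentiableWithinAt
  · intro x hx hxU
    obtain ⟨h1, h2⟩ := hr' x hx
    obtain ⟨h3, h4⟩ := hqU x h2 hxU
    show (rf N D)^[M'] (q x) = χ x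
    rw [h4, chi_iter hR hGU M' _ h3]
    congr 1
    exact (hhV x h2).2

end Pool.Agent.MAT
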