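import Pool.Agent.MAT.T

/-!
# MAT: VMA (points outside the filled Julia set are mapped into the outer component)
-/

set_option autoImplicit false

open Polynomial Metric Set Filter Topology

noncomputable section

namespace Pool.Agent.MAT

namespace VMA_

/-- a round annulus -/
def An (ρ : ℝ) : Set ℂ := {ζ | ρ < ‖ζ‖ ∧ ‖ζ‖ < 1}

lemma An_open (ρ : ℝ) : IsOpen (An ρ) :=
  (isOpen_lt continuous_const continuous_norm).inter (isOpen_lt continuous_norm continuous_const)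

lemma An_preconnected {ρ : ℝ} (hρ : 0 < ρ) : IsPreconnected (An ρ) := by
  have himg : An ρ = (fun x : ℝ × ℝ => (x.1 : ℂ) * Complex.exp (x.2 * Complex.I)) ''
      (Ioo ρ 1 ×ˢ univ) := by
    ext ζ
    constructor
    · rintro ⟨h1, h2⟩
      exact ⟨(‖ζ‖, ζ.arg), ⟨⟨h1, h2⟩, mem_univ _⟩, Complex.norm_mul_exp_arg_mul_I ζ⟩
    · rintro ⟨⟨r, θ⟩, ⟨⟨h1, h2⟩, -⟩, rfl⟩
      have hr : 0 < r := hρ.trans h1
      have : ‖((r : ℂ) * Complex.exp (θ * Complex.I))‖ = r := by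
        rw [norm_mul, Complex.norm_exp_ofReal_mul_I, mul_one, Complex.norm_real,
          Real.norm_of_nonneg hr.le]
      show ρ < ‖((r : ℂ) * Complex.exp (θ * Complex.I))‖ ∧
        ‖((r : ℂ) * Complex.exp (θ * Complex.I))‖ < 1
      rw [this]
      exact ⟨h1, h2⟩
  rw [himg]
  refine IsPreconnected.image ?_ _ (by fun_prop)
  exact (isPreconnected_Ioo).prod isPreconnected_univ

end VMA_

open VMA_ in
theorem p_VMA (hGBA : T_GBA) (hVNO : T_VNO) (hVOU : T_VOU) (hVNC : T_VNC) (hLAB : T_LAB) :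
    T_VMA := by
  intro n e A N D R ϕ χ χ' φ p W W₁ hn he he' hA hRad hExd hGS hPK
  obtain ⟨-, -, -, -, -, ⟨RK, hRK⟩, hUK, -, -, hKc, -, h0U, -⟩ := hGBA n e hn he he'
  obtain ⟨hnc, -, -, hcl, hKO⟩ := hVNC n e A N D R ϕ χ χ' p W W₁ hn he he' hA hRad hExd
  obtain ⟨hfr, hfrne⟩ := hVOU n e A N D R ϕ χ p hn he he' hA hRad
  have hOo : IsOpen (Out ϕ) := (hLAB n A N D R ϕ (by omega) hA hRad.deg hRad.aside).1
  obtain ⟨ρ, hρ0, hρ1, hρ⟩ := hVNO n e A N D R ϕ χ χ' φ p W W₁ hn he he' hA hRad hExd hGS hPK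
  refine ⟨ρ, hρ0, hρ1, ?_⟩
  have himg : φ '' (ball 0 1 \ {0}) = (KG n e)ᶜ := hGS.img
  have hKW : KG n e ⊆ W := hExd.sub.trans hExd.sub₁
  have hAb : An ρ ⊆ ball 0 1 \ {0} := by
    rintro ζ ⟨h1, h2⟩
    refine ⟨by simpa [mem_ball_zero_iff] using h2, ?_⟩
    intro h
    rw [mem_singleton_iff] at h
    rw [h, norm_zero] at h1
    linarith
  have hb0 : IsOpen (ball (0 : ℂ) 1 \ {0}) := isOpen_ball.sdiff isClosed_singleton
  -- neighbourhoods of the filled Julia set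
  have hO : ∀ y ∈ KG n e, ∀ᶠ v in 𝓝 y, v ∈ KG n e ∨ ∃ ζ ∈ An ρ, φ ζ = v := by
    intro y hy
    have hp : ∀ᶠ ζ in 𝓝[≠] (0 : ℂ), ‖y‖ + 1 < ‖φ ζ‖ := hGS.pole.eventually_gt_atTop _
    rw [eventually_nhdsWithin_iff, Metric.eventually_nhds_iff] at hp
    obtain ⟨δ, hδ, hp⟩ := hp
    have hcomp : IsCompact {ζ : ℂ | δ ≤ ‖ζ‖ ∧ ‖ζ‖ ≤ ρ} := by
      refine (isCompact_closedBall (0 : ℂ) ρ).of_isClosed_subset ?_ ?_
      · exact (isClosed_le continuous_const continuous_norm).inter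
          (isClosed_le continuous_norm continuous_const)
      · rintro ζ ⟨-, h⟩
        rwa [mem_closedBall_zero_iff]
    have hsub : {ζ : ℂ | δ ≤ ‖ζ‖ ∧ ‖ζ‖ ≤ ρ} ⊆ ball 0 1 \ {0} := by
      rintro ζ ⟨h1, h2⟩
      refine ⟨by rw [mem_ball_zero_iff]; linarith, ?_⟩
      intro h
      rw [mem_singleton_iff] at h
      rw [h, norm_zero] at h1
      linarith
    have hK' : IsCompact (φ '' {ζ : ℂ | δ ≤ ‖ζ‖ ∧ ‖ζ‖ ≤ ρ}) :=
      hcomp.image_of_continuousOn (hGS.hol.continuousOn.mono hsub)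
    have hyK' : y ∉ φ '' {ζ : ℂ | δ ≤ ‖ζ‖ ∧ ‖ζ‖ ≤ ρ} := by
      intro h
      have : y ∈ φ '' (ball 0 1 \ {0}) := image_mono hsub h
      rw [himg] at this
      exact this hy
    filter_upwards [hK'.isClosed.isOpen_compl.mem_nhds hyK', ball_mem_nhds y one_pos] with v
      hv1 hv2
    by_cases hvK : v ∈ KG n e
    · exact Or.inl hvK
    right
    have hvm : v ∈ φ '' (ball 0 1 \ {0}) := by rw [himg]; exact hvK
    obtain ⟨ζ, hζ, rfl⟩ := hvm
    have hζ1 : ‖ζ‖ < 1 := by simpa [mem_ball_zero_iff] using hζ.1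
    by_cases hζρ : ρ < ‖ζ‖
    · exact ⟨ζ, ⟨hζρ, hζ1⟩, rfl⟩
    exfalso
    push Not at hζρ
    by_cases hζδ : δ ≤ ‖ζ‖
    · exact hv1 ⟨ζ, ⟨hζδ, hζρ⟩, rfl⟩
    push Not at hζδ
    have h1 := hp (by simpa [dist_zero_right] using hζδ) hζ.2
    rw [mem_ball, dist_eq_norm] at hv2
    have h2 : ‖φ ζ‖ ≤ ‖y‖ + ‖φ ζ - y‖ := by
      calc ‖φ ζ‖ = ‖y + (φ ζ - y)‖ := by ring_nf
        _ ≤ _ := norm_add_le _ _
    linarith
  -- the composition on the annulus
  have hφW : ∀ ζ ∈ An ρ, φ ζ ∈ W := fun ζ hζ => hExd.sub₁ (hρ ζ hζ.1 hζ.2).1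
  have hcomp : DifferentiableOn ℂ (fun ζ => χ' (φ ζ)) (An ρ) :=
    hExd.hol.comp (hGS.hol.mono hAb) hφW
  have han : AnalyticOnNhd ℂ (fun ζ => χ' (φ ζ)) (An ρ) := hcomp.analyticOnNhd (An_open ρ)
  have hVpre : IsPreconnected ((fun ζ => χ' (φ ζ)) '' An ρ) :=
    (An_preconnected hρ0).image _ hcomp.continuousOn
  have hVopen : IsOpen ((fun ζ => χ' (φ ζ)) '' An ρ) := by
    rcases han.is_constant_or_isOpen (An_preconnected hρ0) with ⟨w, hw⟩ | h
    · exfalso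
      -- a boundary point of the filled Julia set
      obtain ⟨y, hy⟩ : (frontier (KG n e)).Nonempty := by
        rw [nonempty_iff_ne_empty]
        intro h
        rw [← isClopen_iff_frontier_eq_empty] at h
        rcases isClopen_iff.1 h with h1 | h1
        · exact (h1 ▸ (hUK h0U) : (0 : ℂ) ∈ (∅ : Set ℂ))
        · have h2 := hRK ((|RK| + 1 : ℝ) : ℂ) (by rw [h1]; exact mem_univ _)
          rw [Complex.norm_real, Real.norm_of_nonneg (by positivity)] at h2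
          have := le_abs_self RK
          linarith
      have hyK : y ∈ KG n e := hKc.frontier_subset hy
      obtain ⟨r, hr, hrs⟩ := Metric.eventually_nhds_iff_ball.1
        ((hO y hyK).and (hExd.opn.mem_nhds (hKW hyK)))
      have hyc : y ∈ closure (KG n e)ᶜ := by
        rw [frontier_eq_closure_inter_closure] at hy
        exact hy.2
      obtain ⟨v, hv1, hv2⟩ := Metric.mem_closure_iff.1 hyc r hr
      have hvb : v ∈ ball y r := by rw [mem_ball, dist_comm]; exact hv2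
      have hev : ∀ᶠ v' in 𝓝 v, χ' v' = w := by
        filter_upwards [isOpen_ball.mem_nhds hvb, hKc.isOpen_compl.mem_nhds hv1] with v' h1 h2
        rcases (hrs v' h1).1 with h3 | ⟨ζ, hζ, rfl⟩
        · exact absurd h3 h2
        · exact hw ζ hζ
      have hanb : AnalyticOnNhd ℂ χ' (ball y r) :=
        (hExd.hol.mono fun v' hv' => (hrs v' hv').2).analyticOnNhd isOpen_ball
      have heq := hanb.eqOn_of_preconnected_of_eventuallyEq (analyticOnNhd_const (v := w))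
        (convex_ball y r).isPreconnected hvb hev
      apply hnc y hyK w
      filter_upwards [ball_mem_nhds y hr] with v' hv'
      exact heq hv'
    · exact h _ Subset.rfl (An_open ρ)
  have hVd : Disjoint ((fun ζ => χ' (φ ζ)) '' An ρ) (closure (χ '' UG n e)) := by
    refine Disjoint.closure_right ?_ hVopen
    rw [disjoint_left]
    rintro v ⟨ζ, hζ, rfl⟩ h
    exact (hρ ζ hζ.1 hζ.2).2 h
  have hVsub : (fun ζ => χ' (φ ζ)) '' An ρ ⊆ Out ϕ ∪ (closure (Out ϕ))ᶜ := by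
    intro v hv
    by_cases h : v ∈ closure (Out ϕ)
    · left
      by_contra h2
      have : v ∈ frontier (Out ϕ) := by
        rw [hOo.frontier_eq]
        exact ⟨h, h2⟩
      exact disjoint_left.1 hVd hv (hfr this)
    · exact Or.inr h
  have hmeet : ((fun ζ => χ' (φ ζ)) '' An ρ ∩ Out ϕ).Nonempty := by
    obtain ⟨y₁, hy₁⟩ := hfrne
    have h1 : y₁ ∈ χ' '' KG n e := by rw [hcl]; exact hfr hy₁
    obtain ⟨y, hyK, rfl⟩ := h1
    have hany : AnalyticAt ℂ χ' y := hExd.hol.analyticAt (hExd.opn.mem_nhds (hKW hyK))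
    rcases hany.eventually_constant_or_nhds_le_map_nhds with h | h
    · exact absurd h (hnc y hyK _)
    · have h2 : χ' '' {v | v ∈ KG n e ∨ ∃ ζ ∈ An ρ, φ ζ = v} ∈ 𝓝 (χ' y) :=
        h (image_mem_map (hO y hyK))
      have h3 : χ' y ∈ closure (Out ϕ) := frontier_subset_closure hy₁
      obtain ⟨x, ⟨v, hv, rfl⟩, hx2⟩ := mem_closure_iff_nhds.1 h3 _ h2
      rcases hv with hv | ⟨ζ, hζ, rfl⟩
      · exact absurd hx2 (hKO v hv)
      · exact ⟨_, ⟨ζ, hζ, rfl⟩, hx2⟩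
  have hfinal : (fun ζ => χ' (φ ζ)) '' An ρ ⊆ Out ϕ :=
    IsPreconnected.subset_left_of_subset_union hOo isClosed_closure.isOpen_compl
      (disjoint_compl_right.mono_left subset_closure) hVsub hmeet hVpre
  intro ζ hζ1 hζ2
  exact ⟨(hρ ζ hζ1 hζ2).1, hfinal ⟨ζ, ⟨hζ1, hζ2⟩, rfl⟩⟩

end Pool.Agent.MAT
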