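import Pool.Agent.MAT.T

/-!
# MAT-VNC: the extension is nowhere locally constant on the filled Julia set of `G`, injective
near `1`, and its image of the filled Julia set is the closure of the image of the basin
-/

set_option autoImplicit false

open Polynomial Metric Set Filter Topology

noncomputable section

namespace Pool.Agent.MAT.VNC_

lemma rf_an {N D : ℂ[X]} {z : ℂ} (h : D.eval z ≠ 0) : AnalyticAt ℂ (rf N D) z := by
  unfold rf
  have h1 : AnalyticAt ℂ (fun z => N.eval z) z := AnalyticOnNhd.eval_polynomial N z (mem_univ z)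
  have h2 : AnalyticAt ℂ (fun z => D.eval z) z := AnalyticOnNhd.eval_polynomial D z (mem_univ z)
  exact h1.div h2 h

lemma rf_deriv {N D : ℂ[X]} {z : ℂ} (h : D.eval z ≠ 0) :
    deriv (rf N D) z = (wr N D).eval z / D.eval z ^ 2 := by
  have h1 : HasDerivAt (rf N D) ((N.derivative.eval z * D.eval z -
      N.eval z * D.derivative.eval z) / D.eval z ^ 2) z :=
    (N.hasDerivAt z).div (D.hasDerivAt z) h
  rw [h1.deriv]
  unfold wr
  rw [eval_sub, eval_mul, eval_mul]

lemma inj_near {f : ℂ → ℂ} {y : ℂ} (hf : AnalyticAt ℂ f y) (h : deriv f y ≠ 0) :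
    ∃ r : ℝ, 0 < r ∧ InjOn f (ball y r) := by
  have h1 : HasStrictDerivAt f (deriv f y) y := hf.hasStrictDerivAt
  have h2 := (HasStrictFDerivAt.eventually_left_inverse
    (f := f) (a := y) (f' := ContinuousLinearEquiv.unitsEquivAut ℂ (Units.mk0 _ h))
    (by exact h1.hasStrictFDerivAt_equiv h))
  obtain ⟨r, hr, hs⟩ := Metric.eventually_nhds_iff_ball.1 h2
  refine ⟨r, hr, fun a ha b hb hab => ?_⟩
  rw [← hs a ha, ← hs b hb, hab]

/-- an injective function is not locally constant near a point of the closure of an open set -/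
lemma not_const {χ χ' : ℂ → ℂ} {U : Set ℂ} (hU : IsOpen U) (hinj : InjOn χ U)
    (hext : ∀ v ∈ U, χ' v = χ v) {y : ℂ} (hy : y ∈ closure U) (c : ℂ) :
    ¬ ∀ᶠ v in 𝓝 y, χ' v = c := by
  intro h
  obtain ⟨O, hO, hOo, hyO⟩ := _root_.eventually_nhds_iff.1 h
  obtain ⟨a, haO, haU⟩ := mem_closure_iff.1 hy O hOo hyO
  obtain ⟨δ, hδ, hb⟩ := Metric.isOpen_iff.1 (hOo.inter hU) a ⟨haO, haU⟩
  have hb' : a + (δ / 2 : ℝ) ∈ ball a δ := by
    rw [mem_ball, dist_eq_norm, add_sub_cancel_left, Complex.norm_real, Real.norm_eq_abs,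
      abs_of_pos (by positivity)]
    linarith
  obtain ⟨h1, h2⟩ := hb hb'
  have h3 : χ a = χ (a + (δ / 2 : ℝ)) := by
    rw [← hext a haU, ← hext _ h2, hO a haO, hO _ h1]
  have h4 := hinj haU h2 h3
  have h5 : ((δ / 2 : ℝ) : ℂ) = 0 := by
    have := congrArg (fun x => x - a) h4
    simpa using this.symm
  rw [Complex.ofReal_eq_zero] at h5
  linarith

end Pool.Agent.MAT.VNC_

namespace Pool.Agent.MAT

open VNC_ in
/-- VNC (the extension is nowhere locally constant on the filled Julia set) -/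
theorem p_VNC (hVO2 : T_VO2) (hGNW : T_GNW) (hGBA : T_GBA) (hGEL : T_GEL) (hLAB : T_LAB) :
    T_VNC := by
  intro n e A N D R ϕ χ χ' p W W₁ hn he he2 hA hR hE
  have hKU := hGNW n e hn he he2
  obtain ⟨hUo, -, -, -, -, ⟨B, hB⟩, hUK, -, -, hKc, -, -, -⟩ := hGBA n e hn he he2
  obtain ⟨hG1, hGd, -, -, hG2, -, hcA, -, -, -, -⟩ := hGEL n e hn he he2
  obtain ⟨hOut, -⟩ := hLAB n A N D R ϕ (by omega) hA hR.deg hR.aside
  have hKW : KG n e ⊆ W := hE.sub.trans hE.sub₁
  have hK : IsCompact (KG n e) := by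
    refine Metric.isCompact_of_isClosed_isBounded hKc ?_
    refine (isBounded_closedBall (x := (0 : ℂ)) (r := B)).subset ?_
    intro v hv
    rw [mem_closedBall_zero_iff]
    exact hB v hv
  have han : ∀ y ∈ W, AnalyticAt ℂ χ' y := fun y hy =>
    hE.hol.analyticAt (hE.opn.mem_nhds hy)
  have h1K : (1 : ℂ) ∈ KG n e := by
    refine ⟨1, fun m => ?_⟩
    rw [Function.iterate_fixed hG1 m, norm_one]
  have hnc : ∀ y ∈ KG n e, ∀ c : ℂ, ¬ ∀ᶠ v in 𝓝 y, χ' v = c := by
    intro y hy c
    rw [hKU] at hy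
    exact not_const hUo hR.inj hE.ext hy c
  have himg : χ' '' UG n e = χ '' UG n e := image_congr hE.ext
  have hcl : χ' '' KG n e = closure (χ '' UG n e) := by
    apply Subset.antisymm
    · rw [hKU, ← himg]
      refine ContinuousOn.image_closure ?_
      rw [← hKU]
      exact hE.hol.continuousOn.mono hKW
    · refine closure_minimal ?_ (hK.image_of_continuousOn
        (hE.hol.continuousOn.mono hKW)).isClosed
      rw [← himg]
      exact image_mono hUK
  refine ⟨hnc, ?_, ?_, hcl, ?_⟩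
  · -- injective near `1`
    have h1W : (1 : ℂ) ∈ W := hKW h1K
    have hχ1 : AnalyticAt ℂ χ' 1 := han 1 h1W
    refine inj_near hχ1 ?_
    refine hVO2 (GG n e) (rf N D) χ' 1 p ?_ hG1 ?_ ?_ (rf_an hR.denp) ?_ ?_ hR.nondeg hχ1
      hE.one ?_ (hnc 1 h1K p)
    · have hd : Differentiable ℂ (GG n e) := fun v => (hGd v).differentiableAt
      exact hd.analyticAt 1
    · have h1e : (1 : ℂ) + e ≠ 0 := by
        intro h0
        have h3 := congrArg Complex.re h0
        simp at h3
        linarith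
      rw [(hGd 1).deriv, one_pow, one_mul, div_self h1e]
    · rw [hG2]
      have : (cA n e : ℂ) ≠ 0 := by exact_mod_cast hcA.ne'
      exact mul_ne_zero two_ne_zero this
    · unfold rf
      rw [hR.fixp, mul_div_cancel_right₀ _ hR.denp]
    · rw [rf_deriv hR.denp, hR.mult, div_self (pow_ne_zero 2 hR.denp)]
    · have h1W1 : (1 : ℂ) ∈ W₁ := hE.sub h1K
      have hD : ∀ᶠ v in 𝓝 (1 : ℂ), D.eval (χ' v) ≠ 0 := by
        have hc : ContinuousAt (fun v => D.eval (χ' v)) 1 :=
          (D.continuous.continuousAt).comp hχ1.continuousAt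
        refine hc.eventually_ne ?_
        rw [hE.one]
        exact hR.denp
      filter_upwards [hD, hE.opn₁.mem_nhds h1W1] with v hv hv1
      unfold rf
      rw [hE.conj v hv1, mul_div_cancel_right₀ _ hv]
  · -- finitely many preimages of `p`
    by_contra hinf
    obtain ⟨y, hy, hacc⟩ := Set.Infinite.exists_accPt_of_subset_isCompact hinf hK
      (fun y hy => hy.1)
    have h1 : ∃ᶠ v in 𝓝[≠] y, χ' v = p := by
      rw [accPt_iff_frequently_nhdsNE] at hacc
      exact hacc.mono fun v hv => hv.2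
    have h2 : ∀ᶠ v in 𝓝 y, χ' v = p := by
      have h3 := (han y (hKW hy)).frequently_eq_iff_eventually_eq
        (analyticAt_const (v := p))
      exact h3.1 h1
    exact hnc y hy p h2
  · intro v hv
    have h1 : χ' v ∈ closure (χ '' UG n e) := by
      rw [← hcl]
      exact mem_image_of_mem _ hv
    have h2 : closure (χ '' UG n e) ⊆ (Out ϕ)ᶜ := by
      refine closure_minimal ?_ hOut.isClosed_compl
      rintro _ ⟨v, hv, rfl⟩
      exact hR.cross v hv
    exact h2 h1

end Pool.Agent.MAT
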