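import Pool.Agent.MAT.T

/-!
# MAT: VNO (no point outside the filled Julia set is mapped into the inner component)
-/

set_option autoImplicit false

open Polynomial Metric Set Filter Topology

noncomputable section

namespace Pool.Agent.MAT

namespace VNO_

/-- a uniformly bounded family of holomorphic maps is equi-Lipschitz at a point -/
lemma lip {f : ℂ → ℂ} {y : ℂ} {r B : ℝ} (hr : 0 < r) (hf : DifferentiableOn ℂ f (ball y r))
    (hB : ∀ x ∈ ball y r, ‖f x‖ ≤ B) {x : ℂ} (hx : x ∈ ball y r) :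
    dist (f x) (f y) ≤ (2 * B + 1) / r * dist x y := by
  have hyb : y ∈ ball y r := mem_ball_self hr
  have hB0 : 0 ≤ B := le_trans (norm_nonneg _) (hB y hyb)
  refine Complex.dist_le_div_mul_dist_of_mapsTo_ball hf ?_ hx
  intro z hz
  rw [mem_closedBall, dist_eq_norm]
  calc ‖f z - f y‖ ≤ ‖f z‖ + ‖f y‖ := norm_sub_le _ _
    _ ≤ B + B := add_le_add (hB z hz) (hB y hyb)
    _ ≤ 2 * B + 1 := by linarith

lemma G_diff {n : ℕ} {e : ℝ} (hGEL : T_GEL) (hn : 3 ≤ n) (he : 0 < e) (he' : e ≤ 1 / 2) :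
    Differentiable ℂ (GG n e) := fun v => ((hGEL n e hn he he').2.1 v).differentiableAt

lemma Gi_diff {n : ℕ} {e : ℝ} (hGEL : T_GEL) (hn : 3 ≤ n) (he : 0 < e) (he' : e ≤ 1 / 2)
    (i : ℕ) : Differentiable ℂ ((GG n e)^[i]) := by
  induction i with
  | zero => simp
  | succ i ih =>
    rw [Function.iterate_succ']
    exact (G_diff hGEL hn he he').comp ih

/-- iterates fix the fixed point, are analytic there, and have derivative one -/
lemma iter_germ {g : ℂ → ℂ} {p : ℂ} (hg : AnalyticAt ℂ g p) (hgp : g p = p)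
    (hd : deriv g p = 1) (i : ℕ) :
    AnalyticAt ℂ (g^[i]) p ∧ g^[i] p = p ∧ deriv (g^[i]) p = 1 := by
  induction i with
  | zero => exact ⟨analyticAt_id, rfl, by simp⟩
  | succ i ih =>
    obtain ⟨h1, h2, h3⟩ := ih
    rw [Function.iterate_succ']
    refine ⟨?_, ?_, ?_⟩
    · exact AnalyticAt.comp (by rw [h2]; exact hg) h1
    · simp [h2, hgp]
    · rw [deriv_comp p (by rw [h2]; exact hg.differentiableAt) h1.differentiableAt, h2, hd, h3,
        one_mul]

end VNO_

open VNO_ in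
theorem p_VNO (hGEL : T_GEL) (hGBA : T_GBA) (hGPR : T_GPR) (hGTA : T_GTA) (hGRP : T_GRP)
    (hVOR : T_VOR) (hVNC : T_VNC) : T_VNO := by
  intro n e A N D R ϕ χ χ' φ p W W₁ hn he he' hA hRad hExd hGS hPK
  obtain ⟨K⟩ := hPK
  obtain ⟨hUo, -, -, hUinv, hUconv, ⟨RK, hRK⟩, hUK, h1U, -, hKc, hKinv, -, -⟩ :=
    hGBA n e hn he he'
  obtain ⟨hG1, hGd, -⟩ := hGEL n e hn he he'
  obtain ⟨hnc, ⟨r1, hr1, hinj1⟩, hfin, -, -⟩ :=
    hVNC n e A N D R ϕ χ χ' p W W₁ hn he he' hA hRad hExd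
  obtain ⟨ρ, hρ0, hρ1, hρ⟩ := hGS.near W₁ hExd.opn₁ hExd.sub
  refine ⟨ρ, hρ0, hρ1, ?_⟩
  intro ζ₀ hζ₀ hζ₀1
  refine ⟨hρ ζ₀ hζ₀ hζ₀1, ?_⟩
  rintro ⟨x₀, hx₀, hx₀χ⟩
  have hζ₀m : ζ₀ ∈ ball (0 : ℂ) 1 \ {0} := by
    refine ⟨by simpa [mem_ball_zero_iff] using hζ₀1, ?_⟩
    intro h
    rw [mem_singleton_iff] at h
    rw [h, norm_zero] at hζ₀
    linarith
  have himg : φ '' (ball 0 1 \ {0}) = (KG n e)ᶜ := hGS.img
  have hz0K : φ ζ₀ ∉ KG n e := by
    have : φ ζ₀ ∈ φ '' (ball 0 1 \ {0}) := mem_image_of_mem _ hζ₀m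
    rw [himg] at this
    exact this
  obtain ⟨M, y', hy'im, hy'⟩ := hGPR n e hn he he' (φ ζ₀) (fun h => hz0K (hUK h))
  obtain ⟨-, τ, X₁, Y₁, -, -, hτ, hτ1, -, -⟩ := hGTA n e hn he he' K
  have hy'H : y' ∈ Hs 1 := by simpa [Hs] using hy'im
  have hτH : ∀ j : ℕ, τ^[j] y' ∈ Hs 1 := by
    intro j
    induction j with
    | zero => exact hy'H
    | succ j ih =>
      rw [Function.iterate_succ_apply']
      exact (hτ _ ih).1
  -- the backward orbit outside the filled Julia set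
  obtain ⟨z, hzdef⟩ : ∃ z : ℕ → ℂ, ∀ i, z i = if i ≤ M then (GG n e)^[M - i] y'
      else τ^[i - M] y' := ⟨_, fun i => rfl⟩
  have hz0 : z 0 = φ ζ₀ := by rw [hzdef]; simp [hy']
  have hzM : ∀ i, M ≤ i → z i = τ^[i - M] y' := by
    intro i hi
    rw [hzdef]
    split_ifs with h
    · have : i = M := le_antisymm h hi
      subst this
      simp
    · rfl
  have hzG : ∀ i, GG n e (z (i + 1)) = z i := by
    intro i
    by_cases h : i + 1 ≤ M
    · rw [hzdef, hzdef, if_pos h, if_pos (by omega), ← Function.iterate_succ_apply' (GG n e)]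
      congr 2
      omega
    · rw [hzM (i + 1) (by omega), hzM i (by omega)]
      have : i + 1 - M = (i - M) + 1 := by omega
      rw [this, Function.iterate_succ_apply']
      exact (hτ _ (hτH _)).2
  have hz1 : Tendsto z atTop (𝓝 1) := by
    have h := hτ1 y' hy'H
    have h2 : Tendsto (fun i : ℕ => τ^[i - M] y') atTop (𝓝 1) :=
      h.comp (tendsto_sub_atTop_nat M)
    refine h2.congr' ?_
    filter_upwards [eventually_ge_atTop M] with i hi
    exact (hzM i hi).symm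
  have hzK : ∀ i, z i ∉ KG n e := by
    intro i
    induction i with
    | zero => rw [hz0]; exact hz0K
    | succ i ih =>
      intro h
      apply ih
      rw [← hzG i]
      exact (hKinv _).2 h
  -- they stay in `W₁`
  have hzW : ∀ i, ∃ ζ : ℂ, ζ ∈ ball (0 : ℂ) 1 \ {0} ∧ φ ζ = z i ∧ ρ < ‖ζ‖ := by
    intro i
    induction i with
    | zero => exact ⟨ζ₀, hζ₀m, hz0.symm, hζ₀⟩
    | succ i ih =>
      obtain ⟨ζi, hζi, hφi, hρi⟩ := ih
      have hm : z (i + 1) ∈ φ '' (ball 0 1 \ {0}) := by rw [himg]; exact hzK (i + 1)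
      obtain ⟨ζ', hζ', hφ'⟩ := hm
      refine ⟨ζ', hζ', hφ', ?_⟩
      have hζ'1 : ‖ζ'‖ < 1 := by simpa [mem_ball_zero_iff] using hζ'.1
      have hζ'0 : ζ' ≠ 0 := hζ'.2
      have hpow : ζ' ^ n ∈ ball (0 : ℂ) 1 \ {0} := by
        refine ⟨?_, pow_ne_zero _ hζ'0⟩
        rw [mem_ball_zero_iff, norm_pow]
        exact pow_lt_one₀ (norm_nonneg _) hζ'1 (by omega)
      have heq : ζ' ^ n = ζi := by
        apply hGS.inj hpow hζi
        rw [← hGS.conj ζ' hζ', hφ', hzG i, hφi]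
      have h1 : ‖ζi‖ = ‖ζ'‖ ^ n := by rw [← heq, norm_pow]
      have h2 : ‖ζ'‖ ^ n ≤ ‖ζ'‖ := pow_le_of_le_one (norm_nonneg _) hζ'1.le (by omega)
      linarith
  have hzW1 : ∀ i, z i ∈ W₁ := by
    intro i
    obtain ⟨ζ, hζ, hφζ, hρζ⟩ := hzW i
    rw [← hφζ]
    exact hρ ζ hρζ (by simpa [mem_ball_zero_iff] using hζ.1)
  -- the backward orbit in the basin
  have hstep : ∀ (i : ℕ) (x : {x : ℂ // x ∈ UG n e ∧ χ x = χ' (z i)}),
      ∃ x' : {x : ℂ // x ∈ UG n e ∧ χ x = χ' (z (i + 1))}, GG n e x'.1 = x.1 := by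
    rintro i ⟨x, hxU, hxχ⟩
    have hc := hExd.conj (z (i + 1)) (hzW1 (i + 1))
    rw [hzG i, ← hxχ] at hc
    obtain ⟨v', hv'U, hv'G, hv'χ⟩ := hRad.back x hxU _ hc
    exact ⟨⟨v', hv'U, hv'χ⟩, hv'G⟩
  choose nx hnx using hstep
  let xs : (i : ℕ) → {x : ℂ // x ∈ UG n e ∧ χ x = χ' (z i)} := fun i =>
    Nat.rec (motive := fun i => {x : ℂ // x ∈ UG n e ∧ χ x = χ' (z i)})
      ⟨x₀, hx₀, by rw [hx₀χ, hz0]⟩ (fun i x => nx i x) i
  obtain ⟨x, hx⟩ : ∃ x : ℕ → ℂ, ∀ i, x i = (xs i).1 := ⟨_, fun i => rfl⟩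
  have hxU : ∀ i, x i ∈ UG n e := fun i => by rw [hx]; exact (xs i).2.1
  have hxχ : ∀ i, χ (x i) = χ' (z i) := fun i => by rw [hx]; exact (xs i).2.2
  have hxG : ∀ i, GG n e (x (i + 1)) = x i := fun i => by
    rw [hx, hx]; exact hnx i (xs i)
  have hxGi : ∀ i, (GG n e)^[i] (x i) = x 0 := by
    intro i
    induction i with
    | zero => rfl
    | succ i ih => rw [Function.iterate_succ_apply, hxG i, ih]
  -- accumulation points
  have h1K : (1 : ℂ) ∈ KG n e := by
    refine ⟨1, fun m => ?_⟩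
    have : (GG n e)^[m] 1 = 1 := by
      induction m with
      | zero => rfl
      | succ m ih => rw [Function.iterate_succ_apply', ih, hG1]
    rw [this, norm_one]
  have hKW : KG n e ⊆ W := hExd.sub.trans hExd.sub₁
  have hcont : ∀ y ∈ KG n e, ContinuousAt χ' y := fun y hy =>
    (hExd.hol.differentiableAt (hExd.opn.mem_nhds (hKW hy))).continuousAt
  have hχ'z : Tendsto (fun i => χ' (z i)) atTop (𝓝 p) := by
    have h := (hcont 1 h1K).tendsto.comp hz1
    rwa [hExd.one] at h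
  have hxK : ∀ i, x i ∈ KG n e := fun i => hUK (hxU i)
  have hKcomp : IsCompact (KG n e) := by
    refine (isCompact_closedBall (0 : ℂ) RK).of_isClosed_subset hKc ?_
    intro v hv
    rw [mem_closedBall_zero_iff]
    exact hRK v hv
  set Acc : Set ℂ := {y | MapClusterPt y atTop x} with hAcc
  have hAccK : ∀ y ∈ Acc, y ∈ KG n e := by
    intro y hy
    obtain ⟨u, hu, hux⟩ := mapClusterPt_iff_ultrafilter.1 hy
    exact hKc.mem_of_tendsto hux (Eventually.of_forall hxK)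
  have hAccU : ∀ y ∈ Acc, y ∉ UG n e := by
    intro y hy hyU
    obtain ⟨u, hu, hux⟩ := mapClusterPt_iff_ultrafilter.1 hy
    obtain ⟨r, hr, hrU⟩ := Metric.isOpen_iff.1 hUo y hyU
    have hb : ∀ i : ℕ, ∀ v ∈ ball y r, ‖(GG n e)^[i] v‖ ≤ RK := by
      intro i v hv
      apply hRK
      have : ∀ i : ℕ, (GG n e)^[i] v ∈ KG n e := by
        intro i
        induction i with
        | zero => exact hUK (hrU hv)
        | succ i ih => rw [Function.iterate_succ_apply']; exact (hKinv _).2 ih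
      exact this i
    have hlim : Tendsto (fun i => (GG n e)^[i] (x i)) (u : Filter ℕ) (𝓝 1) := by
      have hy1 : Tendsto (fun i => (GG n e)^[i] y) (u : Filter ℕ) (𝓝 1) :=
        (hUconv y hyU).1.mono_left hu
      have hd : Tendsto (fun i => dist ((GG n e)^[i] (x i)) ((GG n e)^[i] y)) (u : Filter ℕ)
          (𝓝 0) := by
        have h0 : Tendsto (fun i => (2 * RK + 1) / r * dist (x i) y) (u : Filter ℕ) (𝓝 0) := by
          have := (tendsto_iff_dist_tendsto_zero.1 hux).const_mul ((2 * RK + 1) / r)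
          simpa using this
        refine squeeze_zero' (Eventually.of_forall fun i => dist_nonneg) ?_ h0
        filter_upwards [hux (ball_mem_nhds y hr)] with i hi
        exact lip hr (Gi_diff hGEL hn he he' i).differentiableOn (hb i) hi
      exact tendsto_of_tendsto_of_dist hy1 (by simpa [dist_comm] using hd)
    have hx01 : x 0 = 1 := by
      refine tendsto_nhds_unique ?_ hlim
      refine Tendsto.congr (fun i => (hxGi i).symm) tendsto_const_nhds
    exact h1U (hx01 ▸ hxU 0)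
  have hAccp : ∀ y ∈ Acc, χ' y = p := by
    intro y hy
    obtain ⟨u, hu, hux⟩ := mapClusterPt_iff_ultrafilter.1 hy
    have h1 : Tendsto (fun i => χ' (x i)) (u : Filter ℕ) (𝓝 (χ' y)) :=
      (hcont y (hAccK y hy)).tendsto.comp hux
    have h2 : Tendsto (fun i => χ' (x i)) (u : Filter ℕ) (𝓝 p) := by
      refine (hχ'z.mono_left hu).congr (fun i => ?_)
      rw [hExd.ext _ (hxU i), hxχ i]
    exact tendsto_nhds_unique h1 h2
  have hAccfin : Acc.Finite := hfin.subset fun y hy => ⟨hAccK y hy, hAccp y hy⟩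
  have hAcc1 : (1 : ℂ) ∉ Acc := by
    intro h1
    obtain ⟨u, hu, hux⟩ := mapClusterPt_iff_ultrafilter.1 h1
    have hzu : Tendsto z (u : Filter ℕ) (𝓝 1) := hz1.mono_left hu
    have hu1 : ∀ᶠ i in (u : Filter ℕ), x i ∈ ball 1 r1 := hux (ball_mem_nhds 1 hr1)
    have hu2 : ∀ᶠ i in (u : Filter ℕ), z i ∈ ball 1 r1 := hzu (ball_mem_nhds 1 hr1)
    obtain ⟨i, hi1, hi2⟩ := (hu1.and hu2).exists
    have : x i = z i := by
      apply hinj1 hi1 hi2
      rw [hExd.ext _ (hxU i), hxχ i]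
    exact hzK i (this ▸ hxK i)
  have hAccG : ∀ y ∈ Acc, GG n e y ∈ Acc := by
    intro y hy
    obtain ⟨u, hu, hux⟩ := mapClusterPt_iff_ultrafilter.1 hy
    have h1 : Tendsto (fun i => GG n e (x i)) (u : Filter ℕ) (𝓝 (GG n e y)) :=
      ((G_diff hGEL hn he he').continuous.continuousAt).tendsto.comp hux
    have h2 : Tendsto (fun i => x (i - 1)) (u : Filter ℕ) (𝓝 (GG n e y)) := by
      refine h1.congr' ?_
      have h1le : ∀ᶠ i in (u : Filter ℕ), 1 ≤ i := hu (eventually_ge_atTop 1)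
      filter_upwards [h1le] with i hi
      obtain ⟨j, rfl⟩ : ∃ j, i = j + 1 := ⟨i - 1, by omega⟩
      rw [hxG j]
      rfl
    have h3 : Tendsto (fun i : ℕ => i - 1) (u : Filter ℕ) atTop :=
      (tendsto_sub_atTop_nat 1).mono_left hu
    have h4 : MapClusterPt (GG n e y) (u : Filter ℕ) (x ∘ fun i => i - 1) :=
      Tendsto.mapClusterPt h2
    exact h4.of_comp h3
  have hAccne : Acc.Nonempty := by
    obtain ⟨y, -, hy⟩ := hKcomp.exists_mapClusterPt (f := atTop) (u := x)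
      (le_principal_iff.2 (mem_map.2 (Eventually.of_forall hxK)))
    exact ⟨y, hy⟩
  -- a periodic accumulation point
  obtain ⟨a, ha⟩ := hAccne
  have hAi : ∀ y ∈ Acc, ∀ i : ℕ, (GG n e)^[i] y ∈ Acc := by
    intro y hy i
    induction i with
    | zero => exact hy
    | succ i ih => rw [Function.iterate_succ_apply']; exact hAccG _ ih
  have hper : ∃ (y : ℂ) (Nn : ℕ), y ∈ Acc ∧ 1 ≤ Nn ∧ (GG n e)^[Nn] y = y := by
    have hni : ¬ Function.Injective (fun i : ℕ => (⟨(GG n e)^[i] a, hAi a ha i⟩ : Acc)) := by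
      intro hinj
      have : Finite Acc := hAccfin
      have := Finite.of_injective _ hinj
      exact not_finite ℕ
    rw [Function.Injective] at hni
    push Not at hni
    obtain ⟨i, j, hij, hne⟩ := hni
    have hij' : (GG n e)^[i] a = (GG n e)^[j] a := congrArg Subtype.val hij
    rcases lt_or_gt_of_ne hne with h | h
    · refine ⟨(GG n e)^[i] a, j - i, hAi a ha i, by omega, ?_⟩
      rw [← Function.iterate_add_apply, hij']
      congr 2
      omega
    · refine ⟨(GG n e)^[j] a, i - j, hAi a ha j, by omega, ?_⟩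
      rw [← Function.iterate_add_apply, ← hij']
      congr 2
      omega
  obtain ⟨y, Nn, hyA, hNn, hyper⟩ := hper
  have hy1 : y ≠ 1 := fun h => hAcc1 (h ▸ hyA)
  have hrep := hGRP n e hn he he' y Nn (hAccK y hyA) (hAccU y hyA) hy1 hNn hyper
  -- the germ of `g` at `p`
  have hDp := hRad.denp
  have hgan : AnalyticAt ℂ (rf N D) p := by
    have h1 : AnalyticAt ℂ (fun z => N.eval z) p := by
      exact (N.differentiable.analyticAt p)
    have h2 : AnalyticAt ℂ (fun z => D.eval z) p := by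
      exact (D.differentiable.analyticAt p)
    exact h1.div h2 hDp
  have hgp : rf N D p = p := by
    rw [rf, hRad.fixp, mul_div_assoc, div_self hDp, mul_one]
  have hgd : deriv (rf N D) p = 1 := by
    have h1 : HasDerivAt (rf N D) (((derivative N).eval p * D.eval p -
        N.eval p * (derivative D).eval p) / (D.eval p) ^ 2) p :=
      (N.hasDerivAt p).div (D.hasDerivAt p) hDp
    rw [h1.deriv]
    have h2 := hRad.mult
    rw [wr, eval_sub, eval_mul, eval_mul] at h2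
    rw [h2, div_self (pow_ne_zero 2 hDp)]
  obtain ⟨hgNan, hgNp, hgNd⟩ := iter_germ hgan hgp hgd Nn
  -- semiconjugacy near `y`
  have hsemi1 : ∀ y₁ ∈ Acc, ∀ᶠ v in 𝓝 y₁, χ' (GG n e v) = rf N D (χ' v) := by
    intro y₁ hy₁
    have hc := hcont y₁ (hAccK y₁ hy₁)
    have hDc : ContinuousAt (fun v => D.eval (χ' v)) y₁ :=
      (D.continuous.continuousAt).comp hc
    have hDne : ∀ᶠ v in 𝓝 y₁, D.eval (χ' v) ≠ 0 := by
      apply hDc.eventually_ne
      show D.eval (χ' y₁) ≠ 0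
      rw [hAccp y₁ hy₁]
      exact hDp
    filter_upwards [hDne, hExd.opn₁.mem_nhds (hExd.sub (hAccK y₁ hy₁))] with v hv1 hv2
    rw [rf, hExd.conj v hv2, mul_div_assoc, div_self hv1, mul_one]
  have hsemi : ∀ i : ℕ, ∀ᶠ v in 𝓝 y, χ' ((GG n e)^[i] v) = (rf N D)^[i] (χ' v) := by
    intro i
    induction i with
    | zero => exact Eventually.of_forall fun v => rfl
    | succ i ih =>
      have hci : ContinuousAt ((GG n e)^[i]) y :=
        (Gi_diff hGEL hn he he' i).continuous.continuousAt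
      have h2 := hci.tendsto.eventually (hsemi1 _ (hAi y hyA i))
      filter_upwards [ih, h2] with v hv1 hv2
      rw [Function.iterate_succ_apply', Function.iterate_succ_apply', hv2, hv1]
  have hχan : AnalyticAt ℂ χ' y :=
    hExd.hol.analyticAt (hExd.opn.mem_nhds (hKW (hAccK y hyA)))
  obtain ⟨d, hd1, hd⟩ := hVOR ((GG n e)^[Nn]) ((rf N D)^[Nn]) χ' y p
    (deriv ((GG n e)^[Nn]) y) ((Gi_diff hGEL hn he he' Nn).analyticAt y) hyper rfl hgNan hgNp
    hgNd hχan (hAccp y hyA) (hsemi Nn) (hnc y (hAccK y hyA) p)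
  have h1 : 1 < ‖deriv ((GG n e)^[Nn]) y ^ d‖ := by
    rw [norm_pow]
    exact one_lt_pow₀ hrep (by omega)
  rw [hd, norm_one] at h1
  exact lt_irrefl _ h1

end Pool.Agent.MAT
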