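import Pool.Agent.MAT.T

/-!
# MAT: a semiconjugacy of simple parabolic germs is locally injective (VO2)
-/

set_option autoImplicit false

open Polynomial Metric Set Filter Topology

noncomputable section

namespace Pool.Agent.MAT

namespace VO2_

/-- division by `v - y` -/
theorem fac {f : ℂ → ℂ} {y : ℂ} (hf : AnalyticAt ℂ f y) :
    ∃ q : ℂ → ℂ, AnalyticAt ℂ q y ∧ q y = deriv f y ∧ ∀ v, f v = f y + (v - y) * q v := by
  obtain ⟨p, hp⟩ := hf
  refine ⟨dslope f y, ⟨_, hp.has_fpower_series_dslope_fslope⟩, dslope_same f y, fun v => ?_⟩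
  have h := sub_smul_dslope f y v
  rw [smul_eq_mul] at h
  rw [h]
  ring

/-- division by `(v - y) ^ 2` -/
theorem fac2 {f : ℂ → ℂ} {y : ℂ} (hf : AnalyticAt ℂ f y) (h0 : f y = y) (h1 : deriv f y = 1) :
    ∃ a : ℂ → ℂ, AnalyticAt ℂ a y ∧ (∀ v, f v = y + (v - y) * (1 + (v - y) * a v)) := by
  obtain ⟨q, hq, hq1, hq2⟩ := fac hf
  obtain ⟨a, ha, -, ha2⟩ := fac hq
  refine ⟨a, ha, fun v => ?_⟩
  rw [hq2 v, ha2 v, hq1, h1, h0]

theorem second {f a : ℂ → ℂ} {y : ℂ} (ha : AnalyticAt ℂ a y)
    (h : ∀ v, f v = y + (v - y) * (1 + (v - y) * a v)) : iteratedDeriv 2 f y = 2 * a y := by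
  have hf : f = fun v => y + (v - y) * (1 + (v - y) * a v) := funext h
  have e1 : ∀ᶠ v in 𝓝 y, deriv f v =
      (1 + (v - y) * a v) + (v - y) * (a v + (v - y) * deriv a v) := by
    filter_upwards [ha.eventually_analyticAt] with v hv
    have hd : HasDerivAt a (deriv a v) v := hv.differentiableAt.hasDerivAt
    have hs : HasDerivAt (fun v : ℂ => v - y) 1 v := (hasDerivAt_id v).sub_const y
    have h2 := ((hs.mul ((hs.mul hd).const_add 1)).const_add y)
    rw [hf]
    refine (h2.congr_deriv ?_).deriv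
    simp only [Pi.mul_apply]
    ring
  have e2 : iteratedDeriv 2 f y = deriv (deriv f) y := by
    rw [iteratedDeriv_succ, iteratedDeriv_one]
  rw [e2, Filter.EventuallyEq.deriv_eq e1]
  have hd : HasDerivAt a (deriv a y) y := ha.differentiableAt.hasDerivAt
  have hd2 : HasDerivAt (deriv a) (deriv (deriv a) y) y :=
    ha.deriv.differentiableAt.hasDerivAt
  have hs : HasDerivAt (fun v : ℂ => v - y) 1 y := (hasDerivAt_id y).sub_const y
  have h3 := ((hs.mul hd).const_add 1).add (hs.mul (hd.add (hs.mul hd2)))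
  refine (h3.congr_deriv ?_).deriv
  simp only [Pi.add_apply, Pi.mul_apply, sub_self]
  ring

end VO2_

open VO2_ in
/-- VO2 -/
theorem p_VO2 : T_VO2 := by
  intro F g θ y p hF hFy hF1 hF2 hg hgp hg1 _ hθ hθy hconj hne
  -- order of `θ - p`
  have hθp : AnalyticAt ℂ (fun v => θ v - p) y := hθ.sub analyticAt_const
  have hne' : ¬ ∀ᶠ v in 𝓝 y, θ v - p = 0 := by
    intro h
    apply hne
    filter_upwards [h] with v hv
    exact sub_eq_zero.1 hv
  obtain ⟨d, h, hh, hh0, hθe⟩ := hθp.exists_eventuallyEq_pow_smul_nonzero_iff.2 hne'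
  have hθe' : ∀ᶠ v in 𝓝 y, θ v = p + (v - y) ^ d * h v := by
    filter_upwards [hθe] with v hv
    rw [smul_eq_mul] at hv
    rw [← hv]
    ring
  have hd0 : d ≠ 0 := by
    intro hd
    have h1 := hθe'.self_of_nhds
    rw [hθy, hd, pow_zero, one_mul] at h1
    apply hh0
    linear_combination -h1
  obtain ⟨a, ha, haF⟩ := fac2 hF hFy hF1
  obtain ⟨b, hb, hbg⟩ := fac2 hg hgp hg1
  have ha0 : a y ≠ 0 := by
    intro h0
    apply hF2
    rw [second ha haF, h0, mul_zero]
  have hs : HasDerivAt (fun v : ℂ => v - y) 1 y := (hasDerivAt_id y).sub_const y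
  have hhd : HasDerivAt h (deriv h y) y := hh.differentiableAt.hasDerivAt
  have hFd : HasDerivAt F 1 y := hF1 ▸ hF.differentiableAt.hasDerivAt
  have hFc : Tendsto F (𝓝 y) (𝓝 y) := by
    have := hF.continuousAt.tendsto
    rwa [hFy] at this
  -- `d = 1`
  have hd1 : d = 1 := by
    by_contra hd1
    have hd2 : 2 ≤ d := by omega
    have key : ∀ᶠ v in 𝓝 y, (1 + (v - y) * a v) ^ d * h (F v) =
        h v * (1 + (v - y) ^ d * (h v * b (θ v))) := by
      filter_upwards [hθe', hFc.eventually hθe', hconj] with v h1 h2 h3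
      by_cases hv : v = y
      · rw [hv, hFy, sub_self, zero_mul, add_zero, one_pow, one_mul, zero_pow hd0, zero_mul,
          add_zero, mul_one]
      · have hv' : (v - y) ^ d ≠ 0 := pow_ne_zero _ (sub_ne_zero.2 hv)
        have h4 : F v - y = (v - y) * (1 + (v - y) * a v) := by rw [haF v]; ring
        have h5 := hbg (θ v)
        rw [h2, h4, h5, show θ v - p = (v - y) ^ d * h v by rw [h1]; ring] at h3
        have h6 : (v - y) ^ d * ((1 + (v - y) * a v) ^ d * h (F v)) =
            (v - y) ^ d * (h v * (1 + (v - y) ^ d * (h v * b (θ v)))) := by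
          have h7 : ((v - y) * (1 + (v - y) * a v)) ^ d * h (F v) =
              (v - y) ^ d * h v * (1 + (v - y) ^ d * h v * b (θ v)) := by
            linear_combination h3
          rw [mul_pow] at h7
          linear_combination h7
        exact mul_left_cancel₀ hv' h6
    have had : HasDerivAt a (deriv a y) y := ha.differentiableAt.hasDerivAt
    have hθd : HasDerivAt θ (deriv θ y) y := hθ.differentiableAt.hasDerivAt
    have hbd : HasDerivAt b (deriv b p) (θ y) := by
      rw [hθy]
      exact hb.differentiableAt.hasDerivAt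
    have hhF : HasDerivAt h (deriv h y) (F y) := by
      rw [hFy]
      exact hhd
    have L1 : HasDerivAt (fun v => (1 + (v - y) * a v) ^ d * h (F v))
        ((d : ℂ) * a y * h y + deriv h y) y := by
      have l1 := (((hs.mul had).const_add 1).pow d).mul (hhF.comp y hFd)
      refine l1.congr_deriv ?_
      simp [hFy]
    have R1 : HasDerivAt (fun v => h v * (1 + (v - y) ^ d * (h v * b (θ v)))) (deriv h y) y := by
      have l2 := hhd.mul (((hs.pow d).mul (hhd.mul (hbd.comp y hθd))).const_add 1)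
      refine l2.congr_deriv ?_
      have e1 : (0 : ℂ) ^ (d - 1) = 0 := zero_pow (by omega)
      simp [zero_pow hd0, e1]
    have h8 : (d : ℂ) * a y * h y + deriv h y = deriv h y := by
      rw [← L1.deriv, ← R1.deriv]
      exact Filter.EventuallyEq.deriv_eq key
    have h9 : (d : ℂ) * a y * h y = 0 := by linear_combination h8
    have h10 : (d : ℂ) ≠ 0 := Nat.cast_ne_zero.2 hd0
    exact mul_ne_zero (mul_ne_zero h10 ha0) hh0 h9
  subst hd1
  have h11 : HasDerivAt (fun v => p + (v - y) ^ 1 * h v) (h y) y := by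
    have := ((hs.pow 1).mul hhd).const_add p
    refine this.congr_deriv ?_
    simp
  have h12 : deriv θ y = h y := by
    rw [Filter.EventuallyEq.deriv_eq hθe']
    exact h11.deriv
  rw [h12]
  exact hh0

end Pool.Agent.MAT
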