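import Pool.Agent.MAT.T

/-!
# MAT: VOR, orders of a semiconjugacy to a germ with multiplier one
-/

set_option autoImplicit false

open Polynomial Metric Set Filter Topology

namespace Pool.Agent.MAT

theorem p_VOR : T_VOR := by
  intro F g θ y p lam hF hFy hF' hg hgp hg' hθ hθy hconj hne
  have hθ0 : AnalyticAt ℂ (fun v => θ v - p) y := hθ.sub analyticAt_const
  have hne0 : ¬ ∀ᶠ v in 𝓝 y, (fun v => θ v - p) v = 0 := by
    intro h
    exact hne (h.mono fun v hv => sub_eq_zero.1 hv)
  obtain ⟨d, h, hh, hhy, heq⟩ := hθ0.exists_eventuallyEq_pow_smul_nonzero_iff.2 hne0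
  have hd : 1 ≤ d := by
    rcases Nat.eq_zero_or_pos d with h0 | h0
    · exfalso
      have h1 := heq.self_of_nhds
      rw [h0, pow_zero, one_smul] at h1
      apply hhy
      rw [← h1]
      simp [hθy]
    · exact h0
  refine ⟨d, hd, ?_⟩
  have hFc : ContinuousAt F y := hF.continuousAt
  have hFt : Tendsto F (𝓝 y) (𝓝 y) := by
    have h1 := hFc.tendsto
    rwa [hFy] at h1
  have hθt : Tendsto θ (𝓝 y) (𝓝 p) := by
    have h1 := hθ.continuousAt.tendsto
    rwa [hθy] at h1
  -- the two continuous quotients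
  have ha : ContinuousAt (dslope F y) y := continuousAt_dslope_same.2 hF.differentiableAt
  have hb : ContinuousAt (dslope g p) p := continuousAt_dslope_same.2 hg.differentiableAt
  have hlim1 : Tendsto (fun v => dslope F y v ^ d * h (F v)) (𝓝[≠] y) (𝓝 (lam ^ d * h y)) := by
    have h1 : Tendsto (dslope F y) (𝓝 y) (𝓝 lam) := by
      have h2 := ha.tendsto
      rwa [dslope_same, hF'] at h2
    have h3 : Tendsto (fun v => h (F v)) (𝓝 y) (𝓝 (h y)) := hh.continuousAt.tendsto.comp hFt
    exact ((h1.pow d).mul h3).mono_left nhdsWithin_le_nhds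
  have hlim2 : Tendsto (fun v => h v * dslope g p (θ v)) (𝓝[≠] y) (𝓝 (h y * 1)) := by
    have h1 : Tendsto (dslope g p) (𝓝 p) (𝓝 1) := by
      have h2 := hb.tendsto
      rwa [dslope_same, hg'] at h2
    exact (hh.continuousAt.tendsto.mul (h1.comp hθt)).mono_left nhdsWithin_le_nhds
  have hev : ∀ᶠ v in 𝓝[≠] y, dslope F y v ^ d * h (F v) = h v * dslope g p (θ v) := by
    have e1 : ∀ᶠ v in 𝓝 y, θ (F v) - p = (F v - y) ^ d • h (F v) := hFt.eventually heq
    have e2 : ∀ᶠ v in 𝓝[≠] y, v ≠ y := self_mem_nhdsWithin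
    filter_upwards [nhdsWithin_le_nhds e1, nhdsWithin_le_nhds heq, nhdsWithin_le_nhds hconj, e2]
      with v h1 h2 h3 h4
    have h5 : F v - y = (v - y) * dslope F y v := by
      have := sub_smul_dslope F y v
      rw [hFy, smul_eq_mul] at this
      exact this.symm
    have h6 : g (θ v) - p = (θ v - p) * dslope g p (θ v) := by
      have := sub_smul_dslope g p (θ v)
      rw [hgp, smul_eq_mul] at this
      exact this.symm
    have h7 : θ v - p = (v - y) ^ d * h v := h2
    rw [h3, h6, h7, h5, smul_eq_mul, mul_pow, mul_assoc, mul_assoc] at h1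
    exact (mul_left_cancel₀ (pow_ne_zero d (sub_ne_zero.2 h4)) h1).symm
  have hfin := tendsto_nhds_unique (hlim1.congr' hev) hlim2
  rw [mul_one] at hfin
  exact mul_right_cancel₀ hhy (by rw [hfin, one_mul])

end Pool.Agent.MAT
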