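import Pool.Agent.MAT.T

/-!
# MAT, target VOU: the boundary of the outer component
-/

set_option autoImplicit false

open Polynomial Metric Set Filter Topology

noncomputable section

namespace Pool.Agent.MAT

namespace VOU_

theorem ev_rev (n : ℕ) (Q : ℂ[X]) (hQ : Q.natDegree ≤ n) (t : ℂ) (ht : t ≠ 0) :
    (reflect n Q).eval t = t ^ n * Q.eval t⁻¹ := by
  have : Invertible (t⁻¹) := invertibleOfNonzero (inv_ne_zero ht)
  have h := eval₂_reflect_mul_pow (RingHom.id ℂ) t⁻¹ n Q hQ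
  have h1 : (⅟(t⁻¹) : ℂ) = t := by simp [invOf_eq_inv]
  rw [h1] at h
  have h2 : (reflect n Q).eval t * t⁻¹ ^ n = Q.eval t⁻¹ := h
  rw [← h2, inv_pow]
  field_simp

/-- the denominator in the coordinate `t = 1 / (z - c)` -/
def Dh (n : ℕ) (c : ℂ) (D : ℂ[X]) : ℂ[X] := reflect n (D.comp (X + C c))

theorem comp_deg (c : ℂ) (P : ℂ[X]) : (P.comp (X + C c)).natDegree = P.natDegree := by
  rw [natDegree_comp, natDegree_X_add_C, mul_one]

theorem Dh_ev (n : ℕ) (c : ℂ) (D : ℂ[X]) (hD : D.natDegree ≤ n) (t : ℂ) (ht : t ≠ 0) :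
    (Dh n c D).eval t = t ^ n * D.eval (t⁻¹ + c) := by
  rw [Dh, ev_rev n _ (by rw [comp_deg]; exact hD) t ht, eval_comp, eval_add, eval_X, eval_C]

theorem Dh_zero (n : ℕ) (c : ℂ) (D : ℂ[X]) :
    (Dh n c D).eval 0 = (D.comp (X + C c)).coeff n := by
  rw [← coeff_zero_eq_eval_zero, Dh, coeff_reflect, revAt_le (Nat.zero_le n), Nat.sub_zero]

/-- the rational map in the coordinate `t` -/
def gh (n : ℕ) (c : ℂ) (N D : ℂ[X]) (t : ℂ) : ℂ :=
  (Dh n c D).eval t / (Dh n c (N - C c * D)).eval t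

theorem deg_sub {n : ℕ} {N D : ℂ[X]} (h : NDeg n N D) (c : ℂ) :
    (N - C c * D).Monic ∧ (N - C c * D).natDegree = n := by
  have h1 : (C c * D).degree < N.degree := by
    apply degree_lt_degree
    rw [h.deg]
    exact (natDegree_C_mul_le c D).trans_lt h.dden
  refine ⟨h.monic.sub_of_left h1, ?_⟩
  rw [natDegree_sub_eq_left_of_natDegree_lt, h.deg]
  rw [h.deg]
  exact (natDegree_C_mul_le c D).trans_lt h.dden

theorem gh_ev {n : ℕ} {N D : ℂ[X]} (h : NDeg n N D) (c t : ℂ) (ht : t ≠ 0) :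
    gh n c N D t = D.eval (t⁻¹ + c) / (N.eval (t⁻¹ + c) - c * D.eval (t⁻¹ + c)) := by
  rw [gh, Dh_ev n c D h.dden.le t ht, Dh_ev n c (N - C c * D) (deg_sub h c).2.le t ht,
    mul_div_mul_left _ _ (pow_ne_zero n ht), eval_sub, eval_mul, eval_C]

theorem num_zero {n : ℕ} {N D : ℂ[X]} (h : NDeg n N D) (c : ℂ) : (Dh n c D).eval 0 = 0 := by
  rw [Dh_zero]
  exact coeff_eq_zero_of_natDegree_lt (by rw [comp_deg]; exact h.dden)

theorem den_zero {n : ℕ} {N D : ℂ[X]} (h : NDeg n N D) (c : ℂ) :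
    (Dh n c (N - C c * D)).eval 0 = 1 := by
  rw [Dh_zero]
  have h1 : ((N - C c * D).comp (X + C c)).Monic := (deg_sub h c).1.comp_X_add_C c
  have h2 : ((N - C c * D).comp (X + C c)).natDegree = n := by rw [comp_deg, (deg_sub h c).2]
  have h3 := h1.coeff_natDegree
  rw [h2] at h3
  exact h3

theorem gh_zero {n : ℕ} {N D : ℂ[X]} (h : NDeg n N D) (c : ℂ) : gh n c N D 0 = 0 := by
  rw [gh, num_zero h, zero_div]

/-- points whose image in the sphere is not in `V` -/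
def Good (V : Set ℂ) (c t : ℂ) : Prop := t = 0 ∨ (t ≠ 0 ∧ t⁻¹ + c ∉ V)

theorem good_step {n : ℕ} {N D : ℂ[X]} (h : NDeg n N D) {V : Set ℂ} {c : ℂ} (hc : c ∈ V)
    (hback : ∀ v ∈ V, ∀ z, N.eval z = v * D.eval z → z ∈ V) (t : ℂ) (ht : Good V c t) :
    (Dh n c (N - C c * D)).eval t ≠ 0 ∧ Good V c (gh n c N D t) := by
  rcases ht with rfl | ⟨ht0, htV⟩
  · exact ⟨by rw [den_zero h]; exact one_ne_zero, Or.inl (gh_zero h c)⟩
  · have h1 : N.eval (t⁻¹ + c) - c * D.eval (t⁻¹ + c) ≠ 0 := by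
      intro h1
      exact htV (hback c hc _ (sub_eq_zero.1 h1))
    refine ⟨?_, ?_⟩
    · rw [Dh_ev n c (N - C c * D) (deg_sub h c).2.le t ht0, eval_sub, eval_mul, eval_C]
      exact mul_ne_zero (pow_ne_zero n ht0) h1
    · rw [gh_ev h c t ht0]
      by_cases hD : D.eval (t⁻¹ + c) = 0
      · exact Or.inl (by rw [hD, zero_div])
      · refine Or.inr ⟨div_ne_zero hD h1, ?_⟩
        have h2 : (D.eval (t⁻¹ + c) / (N.eval (t⁻¹ + c) - c * D.eval (t⁻¹ + c)))⁻¹ + c =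
            N.eval (t⁻¹ + c) / D.eval (t⁻¹ + c) := by
          generalize t⁻¹ + c = z at hD h1
          rw [inv_div, div_add' _ _ _ hD]
          congr 1
          ring
        rw [h2]
        intro h3
        exact htV (hback _ h3 _ (by rw [div_mul_cancel₀ _ hD]))

theorem good_norm {V : Set ℂ} {c : ℂ} {r : ℝ} (hr : 0 < r) (hb : ball c r ⊆ V) (t : ℂ)
    (ht : Good V c t) : ‖t‖ ≤ 1 / r := by
  rcases ht with rfl | ⟨ht0, htV⟩
  · rw [norm_zero]
    positivity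
  · have h1 : t⁻¹ + c ∉ ball c r := fun h => htV (hb h)
    rw [mem_ball, dist_eq_norm, add_sub_cancel_right, norm_inv, not_lt] at h1
    rw [le_div_iff₀ hr]
    have h2 : 0 < ‖t‖ := norm_pos_iff.2 ht0
    calc ‖t‖ * r ≤ ‖t‖ * ‖t‖⁻¹ := by gcongr
      _ = 1 := mul_inv_cancel₀ h2.ne'

/-- the maps `F_m` -/
def FF (n : ℕ) (c : ℂ) (N D : ℂ[X]) (m : ℕ) (z : ℂ) : ℂ := (gh n c N D)^[m] (z - c)⁻¹

theorem FF_zero (n : ℕ) (c : ℂ) (N D : ℂ[X]) (z : ℂ) : FF n c N D 0 z = (z - c)⁻¹ := rfl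

theorem FF_succ (n : ℕ) (c : ℂ) (N D : ℂ[X]) (m : ℕ) (z : ℂ) :
    FF n c N D (m + 1) z = gh n c N D (FF n c N D m z) := by
  rw [FF, Function.iterate_succ_apply', FF]

theorem FF_good {n : ℕ} {N D : ℂ[X]} (h : NDeg n N D) {V : Set ℂ} {c : ℂ} (hc : c ∈ V)
    (hback : ∀ v ∈ V, ∀ z, N.eval z = v * D.eval z → z ∈ V) (z : ℂ) (hz : z ∉ V) (m : ℕ) :
    Good V c (FF n c N D m z) := by
  induction m with
  | zero =>
    have hzc : z - c ≠ 0 := by
      intro h1
      rw [sub_eq_zero] at h1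
      exact hz (h1 ▸ hc)
    refine Or.inr ⟨inv_ne_zero hzc, ?_⟩
    rw [FF_zero, inv_inv, sub_add_cancel]
    exact hz
  | succ m ih =>
    rw [FF_succ]
    exact (good_step h hc hback _ ih).2

theorem FF_diff {n : ℕ} {N D : ℂ[X]} (h : NDeg n N D) {V : Set ℂ} {c : ℂ} (hc : c ∈ V)
    (hback : ∀ v ∈ V, ∀ z, N.eval z = v * D.eval z → z ∈ V) (b : Set ℂ) (hb : Disjoint b V)
    (m : ℕ) : DifferentiableOn ℂ (FF n c N D m) b := by
  have hbV : ∀ z ∈ b, z ∉ V := fun z hz hzV => hb.le_bot ⟨hz, hzV⟩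
  induction m with
  | zero =>
    refine DifferentiableOn.inv (by fun_prop) fun z hz h1 => ?_
    rw [sub_eq_zero] at h1
    exact hbV z hz (h1 ▸ hc)
  | succ m ih =>
    have h1 : FF n c N D (m + 1) = fun z => (Dh n c D).eval (FF n c N D m z) /
        (Dh n c (N - C c * D)).eval (FF n c N D m z) := by
      funext z
      rw [FF_succ, gh]
    rw [h1]
    refine DifferentiableOn.div ?_ ?_ fun z hz => ?_
    · exact (Polynomial.differentiable _).comp_differentiableOn ih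
    · exact (Polynomial.differentiable _).comp_differentiableOn ih
    · exact (good_step h hc hback _ (FF_good h hc hback z (hbV z hz) m)).1

/-- in the outer component -/
theorem FF_out {n : ℕ} {A : ℂ → ℂ} {N D : ℂ[X]} {R : ℝ} {ϕ : ℂ → ℂ} (h : NDeg n N D)
    (hA : ASide A N D R ϕ) (hA0 : A 0 = 0) (hAb : ∀ ζ ∈ ball (0 : ℂ) 1, A ζ ∈ ball (0 : ℂ) 1)
    {V : Set ℂ} {c : ℂ} (hc : c ∈ V)
    (hback : ∀ v ∈ V, ∀ z, N.eval z = v * D.eval z → z ∈ V) (z ζ : ℂ) (hz : z ∉ V)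
    (hζ : ζ ∈ ball (0 : ℂ) 1) (hζz : ϕ ζ * z = 1) (m : ℕ) :
    A^[m] ζ ∈ ball (0 : ℂ) 1 ∧
      FF n c N D m z * (1 - c * ϕ (A^[m] ζ)) = ϕ (A^[m] ζ) := by
  induction m with
  | zero =>
    refine ⟨hζ, ?_⟩
    rw [FF_zero, Function.iterate_zero, id]
    have hzc : z - c ≠ 0 := by
      intro h1
      rw [sub_eq_zero] at h1
      exact hz (h1 ▸ hc)
    have h1 : 1 - c * ϕ ζ = ϕ ζ * (z - c) := by rw [← hζz]; ring
    rw [h1, mul_comm, mul_assoc, mul_inv_cancel₀ hzc, mul_one]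
  | succ m ih =>
    obtain ⟨ih1, ih2⟩ := ih
    rw [Function.iterate_succ_apply']
    refine ⟨hAb _ ih1, ?_⟩
    rw [FF_succ]
    by_cases hϕ : ϕ (A^[m] ζ) = 0
    · have h1 : A^[m] ζ = 0 := hA.inj ih1 (mem_ball_self one_pos) (by rw [hϕ, hA.zero])
      rw [hϕ, mul_zero, sub_zero, mul_one] at ih2
      rw [ih2, gh_zero h, h1, hA0, hA.zero, zero_mul]
    · have hF0 : FF n c N D m z ≠ 0 := by
        intro h1
        rw [h1, zero_mul] at ih2
        exact hϕ ih2.symm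
      have hinv : (FF n c N D m z)⁻¹ + c = (ϕ (A^[m] ζ))⁻¹ := by
        have h1 : (FF n c N D m z)⁻¹ * ϕ (A^[m] ζ) = 1 - c * ϕ (A^[m] ζ) := by
          rw [← ih2, ← mul_assoc, inv_mul_cancel₀ hF0, one_mul]
          rw [ih2]
        field_simp
        field_simp at h1
        linear_combination h1
      have hcj := hA.conj (A^[m] ζ) ih1 ((FF n c N D m z)⁻¹ + c)
        (by rw [hinv, mul_inv_cancel₀ hϕ])
      have hg := good_step h hc hback _ (FF_good h hc hback z hz m)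
      have hne := hg.1
      rw [Dh_ev n c (N - C c * D) (deg_sub h c).2.le _ hF0, eval_sub, eval_mul, eval_C] at hne
      have hne2 := right_ne_zero_of_mul hne
      rw [gh_ev h c _ hF0, div_mul_eq_mul_div, div_eq_iff hne2]
      rw [← hcj]
      ring

/-- at a point outside the outer component -/
theorem FF_in {n : ℕ} {N D : ℂ[X]} (h : NDeg n N D) {V : Set ℂ} {c : ℂ} (hc : c ∈ V)
    (hback : ∀ v ∈ V, ∀ z, N.eval z = v * D.eval z → z ∈ V) (z : ℂ) (hz : z ∉ V)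
    (hD : ∀ m : ℕ, D.eval ((rf N D)^[m] z) ≠ 0) (m : ℕ) :
    FF n c N D m z ≠ 0 ∧ (FF n c N D m z)⁻¹ + c = (rf N D)^[m] z := by
  induction m with
  | zero =>
    have hzc : z - c ≠ 0 := by
      intro h1
      rw [sub_eq_zero] at h1
      exact hz (h1 ▸ hc)
    rw [FF_zero, inv_inv, sub_add_cancel]
    exact ⟨inv_ne_zero hzc, rfl⟩
  | succ m ih =>
    obtain ⟨ih1, ih2⟩ := ih
    have hg := good_step h hc hback _ (FF_good h hc hback z hz m)
    have hne := hg.1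
    rw [Dh_ev n c (N - C c * D) (deg_sub h c).2.le _ ih1, eval_sub, eval_mul, eval_C] at hne
    have hne2 := right_ne_zero_of_mul hne
    rw [FF_succ, gh_ev h c _ ih1, ih2, Function.iterate_succ_apply']
    rw [ih2] at hne2
    refine ⟨div_ne_zero (hD m) hne2, ?_⟩
    have hDm := hD m
    rw [inv_div, rf, div_add' _ _ _ hDm]
    congr 1
    ring

end VOU_

open VOU_ in
/-- VOU -/
theorem p_VOU (hUL : T_UL) (hLAB : T_LAB) (hBLA : T_BLA) : T_VOU := by
  intro n e A N D R ϕ χ p hn he he2 hA hrad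
  obtain ⟨hOo, h0O, hOR, hOit, -, -, hOD⟩ := hLAB n A N D R ϕ (by omega) hA hrad.deg hrad.aside
  obtain ⟨hA0, hAd, -, hAlt, -, hAconv, -, -, -⟩ := hBLA n A (by omega) hA
  have hAb : ∀ ζ ∈ ball (0 : ℂ) 1, A ζ ∈ ball (0 : ℂ) 1 := by
    intro ζ hζ
    by_cases h0 : ζ = 0
    · rw [h0, hA0]
      exact mem_ball_self one_pos
    · rw [mem_ball_zero_iff] at hζ ⊢
      exact (hAlt ζ (by rwa [mem_ball_zero_iff]) h0).trans hζ
  refine ⟨?_, ?_⟩
  · intro z₀ hz₀
    by_contra hcl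
    -- the open set `χ (UG)`
    have hGcont : Continuous (GG n e) := by
      unfold GG
      fun_prop
    have hUo : IsOpen (UG n e) := by
      have : UG n e = ⋃ m : ℕ, (fun v => (GG n e)^[m] v) ⁻¹' (ball (0 : ℂ) 1) := by
        ext v
        simp [UG]
      rw [this]
      exact isOpen_iUnion fun m => isOpen_ball.preimage (hGcont.iterate m)
    have h0U : (0 : ℂ) ∈ UG n e := ⟨0, by simp⟩
    set V : Set ℂ := χ '' UG n e with hV
    set c : ℂ := χ 0 with hcdef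
    have hcV : c ∈ V := mem_image_of_mem χ h0U
    have hback : ∀ v ∈ V, ∀ z, N.eval z = v * D.eval z → z ∈ V := by
      rintro _ ⟨v, hv, rfl⟩ z hz
      obtain ⟨v', hv', -, h2⟩ := hrad.back v hv z hz
      exact ⟨v', hv', h2⟩
    -- a ball around `c` in `V`
    have hball : ∃ r : ℝ, 0 < r ∧ ball c r ⊆ V := by
      obtain ⟨s, hs, hsU⟩ := Metric.isOpen_iff.1 hUo 0 h0U
      have han : AnalyticOnNhd ℂ χ (ball 0 s) :=
        (hrad.hol.mono hsU).analyticOnNhd isOpen_ball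
      rcases han.is_constant_or_isOpen (convex_ball 0 s).isPreconnected with ⟨w, hw⟩ | ho
      · exfalso
        have h1 : χ 0 = w := hw 0 (mem_ball_self hs)
        have h2m : ((s / 2 : ℝ) : ℂ) ∈ ball (0 : ℂ) s := by
          rw [mem_ball_zero_iff, Complex.norm_real, Real.norm_eq_abs, abs_of_pos (by linarith)]
          linarith
        have h2 : χ ((s / 2 : ℝ) : ℂ) = w := hw _ h2m
        have h3 := hrad.inj h0U (hsU h2m) (h1.trans h2.symm)
        have h4 : (s / 2 : ℝ) = 0 := by exact_mod_cast h3.symm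
        linarith
      · have h1 : IsOpen (χ '' ball 0 s) := ho _ Subset.rfl isOpen_ball
        obtain ⟨r, hr, hrV⟩ := Metric.isOpen_iff.1 h1 c (mem_image_of_mem χ (mem_ball_self hs))
        exact ⟨r, hr, hrV.trans (image_mono hsU)⟩
    obtain ⟨r, hr, hrV⟩ := hball
    -- the ball `b`
    have hb : ∃ s : ℝ, 0 < s ∧ Disjoint (ball z₀ s) V := by
      have h1 : (closure V)ᶜ ∈ 𝓝 z₀ := isClosed_closure.isOpen_compl.mem_nhds hcl
      obtain ⟨s, hs, hsb⟩ := Metric.mem_nhds_iff.1 h1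
      exact ⟨s, hs, disjoint_left.2 fun z hz hzV => hsb hz (subset_closure hzV)⟩
    obtain ⟨s, hs, hsd⟩ := hb
    have hbV : ∀ z ∈ ball z₀ s, z ∉ V := fun z hz hzV => hsd.le_bot ⟨hz, hzV⟩
    -- the limit
    obtain ⟨F, hF, hFl⟩ := hUL (Ultrafilter.of (atTop : Filter ℕ)) (ball z₀ s)
      (fun m => FF n c N D m) isOpen_ball (by
        intro x hx
        obtain ⟨ρ, hρ, hρs⟩ := Metric.isOpen_iff.1 isOpen_ball x hx
        refine ⟨ρ, 1 / r, hρ, hρs, Eventually.of_forall fun m => ⟨?_, ?_⟩⟩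
        · exact (FF_diff hrad.deg hcV hback _ hsd m).mono hρs
        · intro y hy
          exact good_norm hr hrV _ (FF_good hrad.deg hcV hback y (hbV y (hρs hy)) m))
    have hule : (Ultrafilter.of (atTop : Filter ℕ) : Filter ℕ) ≤ atTop := Ultrafilter.of_le _
    have hpt : ∀ z ∈ ball z₀ s, Tendsto (fun m => FF n c N D m z)
        (Ultrafilter.of (atTop : Filter ℕ)) (𝓝 (F z)) := fun z hz => hFl.tendsto_at hz
    -- `F = 0` in the outer component
    have hFout : ∀ z ∈ ball z₀ s ∩ Out ϕ, F z = 0 := by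
      rintro z ⟨hz, ζ, hζ, hζz⟩
      have h1 := FF_out hrad.deg hrad.aside hA0 hAb hcV hback z ζ (hbV z hz) hζ hζz
      have h2 : Tendsto (fun m : ℕ => ϕ (A^[m] ζ)) atTop (𝓝 0) := by
        have h3 := (hrad.aside.hol.continuousOn.continuousAt
          (isOpen_ball.mem_nhds (mem_ball_self one_pos))).tendsto.comp (hAconv ζ hζ)
        rw [hrad.aside.zero] at h3
        exact h3
      have h2u := h2.mono_left hule
      have h3 : Tendsto (fun m : ℕ => FF n c N D m z * (1 - c * ϕ (A^[m] ζ)))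
          (Ultrafilter.of (atTop : Filter ℕ)) (𝓝 (F z * (1 - c * 0))) :=
        (hpt z hz).mul (tendsto_const_nhds.sub (tendsto_const_nhds.mul h2u))
      have h4 : F z * (1 - c * 0) = 0 := by
        refine tendsto_nhds_unique h3 (h2u.congr fun m => (h1 m).2.symm)
      simpa using h4
    -- `F = 0` in the ball
    have hz₀cl : z₀ ∈ closure (Out ϕ) := frontier_subset_closure hz₀
    have hz₀O : z₀ ∉ Out ϕ := by
      rw [hOo.frontier_eq] at hz₀
      exact hz₀.2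
    obtain ⟨z₁, hz₁b, hz₁O⟩ := _root_.mem_closure_iff.1 hz₀cl (ball z₀ s) isOpen_ball
      (mem_ball_self hs)
    have hFan : AnalyticOnNhd ℂ F (ball z₀ s) := hF.analyticOnNhd isOpen_ball
    have hFz : EqOn F 0 (ball z₀ s) := by
      refine hFan.eqOn_zero_of_preconnected_of_eventuallyEq_zero
        (convex_ball z₀ s).isPreconnected hz₁b ?_
      filter_upwards [(isOpen_ball.inter hOo).mem_nhds ⟨hz₁b, hz₁O⟩] with z hz
      exact hFout z hz
    -- contradiction at `z₀`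
    have hDm : ∀ m : ℕ, D.eval ((rf N D)^[m] z₀) ≠ 0 := fun m h =>
      hOit z₀ hz₀O m (hOD _ h)
    have hin := FF_in hrad.deg hcV hback z₀ (hbV z₀ (mem_ball_self hs)) hDm
    have hlow : ∀ m : ℕ, 1 / (R + ‖c‖) ≤ ‖FF n c N D m z₀‖ := by
      intro m
      obtain ⟨h1, h2⟩ := hin m
      have h3 : ‖(rf N D)^[m] z₀‖ < R := hOR _ (hOit z₀ hz₀O m)
      have h4 : (FF n c N D m z₀)⁻¹ = (rf N D)^[m] z₀ - c := by rw [← h2]; ring
      have h5 : ‖(FF n c N D m z₀)⁻¹‖ ≤ R + ‖c‖ := by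
        rw [h4]
        exact (norm_sub_le _ _).trans (by linarith)
      rw [norm_inv] at h5
      have h6 : 0 < ‖FF n c N D m z₀‖ := norm_pos_iff.2 h1
      rw [one_div]
      have h7 := inv_anti₀ (inv_pos.2 h6) h5
      rw [inv_inv] at h7
      exact h7
    have hlim : Tendsto (fun m => ‖FF n c N D m z₀‖) (Ultrafilter.of (atTop : Filter ℕ))
        (𝓝 ‖F z₀‖) := (hpt z₀ (mem_ball_self hs)).norm
    have h1 : 1 / (R + ‖c‖) ≤ ‖F z₀‖ := ge_of_tendsto' hlim hlow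
    rw [hFz (mem_ball_self hs)] at h1
    simp only [Pi.zero_apply, norm_zero] at h1
    have hR := hrad.aside.hR
    have h2 : 0 < 1 / (R + ‖c‖) := by positivity
    linarith
  · rw [nonempty_frontier_iff]
    refine ⟨⟨(R : ℂ), hrad.aside.esc _ ?_⟩, fun h => h0O (h ▸ mem_univ _)⟩
    rw [Complex.norm_real]
    exact le_abs_self R

end Pool.Agent.MAT
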