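import Pool.Agent.MAT.T

/-!
# MAT: XAS (the `A`-side of a mating)
-/

set_option autoImplicit false

open Polynomial Metric Set Filter Topology

noncomputable section

namespace Pool.Agent.MAT

/-- the coordinate `1 / φ` -/
def XAS_phi (φ : ℂ → ℂ) (ζ : ℂ) : ℂ := if ζ = 0 then 0 else (φ ζ)⁻¹

lemma XAS_zero (φ : ℂ → ℂ) : XAS_phi φ 0 = 0 := if_pos rfl

lemma XAS_ne {φ : ℂ → ℂ} {ζ : ℂ} (h : ζ ≠ 0) : XAS_phi φ ζ = (φ ζ)⁻¹ := if_neg h

/-- a Blaschke product maps the closed disk to itself -/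
lemma XAS_map (hBLA : T_BLA) {n : ℕ} {B : ℂ → ℂ} (hn : 2 ≤ n) (hB : IsBlaschke n B) {w : ℂ}
    (hw : w ∈ closedBall (0 : ℂ) 1) : B w ∈ closedBall (0 : ℂ) 1 := by
  obtain ⟨h0, _, _, hlt, hs, _⟩ := hBLA n B hn hB
  rw [mem_closedBall_zero_iff] at hw ⊢
  rcases hw.lt_or_eq with h | h
  · by_cases hw0 : w = 0
    · rw [hw0, h0, norm_zero]
      exact zero_le_one
    · exact ((hlt w (mem_ball_zero_iff.2 h) hw0).trans h).le
  · exact ((hs w (mem_closedBall_zero_iff.2 hw)).2 h).le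

theorem p_XAS (hBLA : T_BLA) : T_XAS := by
  intro n A B a b N D φ ψ hn hA hB hND hM
  have hA' := hBLA n A hn hA.1
  have hne : ∀ ζ ∈ ball (0 : ℂ) 1, ζ ≠ 0 → φ ζ ≠ 0 := by
    intro ζ hζ hζ0 h
    have ha : ‖a‖ = 1 := hA.2.1
    have ha0 : a ≠ 0 := by
      intro h0
      rw [h0, norm_zero] at ha
      exact zero_ne_one ha
    have haM : a ∈ closedBall (0 : ℂ) 1 \ {0} := ⟨mem_closedBall_zero_iff.2 ha.le, ha0⟩
    have hζM : ζ ∈ closedBall (0 : ℂ) 1 \ {0} := ⟨ball_subset_closedBall hζ, hζ0⟩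
    have e : ζ = a := hM.φ_inj hζM haM (by rw [h, hM.mark.1])
    rw [mem_ball_zero_iff, e, ha] at hζ
    exact lt_irrefl _ hζ
  -- the set `Out`
  have hOut : ∀ z : ℂ, z ∈ Out (XAS_phi φ) ↔ ∃ ζ ∈ ball (0 : ℂ) 1, ζ ≠ 0 ∧ φ ζ = z := by
    intro z
    constructor
    · rintro ⟨ζ, hζ, h⟩
      have hζ0 : ζ ≠ 0 := by
        rintro rfl
        rw [XAS_zero, zero_mul] at h
        exact zero_ne_one h
      refine ⟨ζ, hζ, hζ0, ?_⟩
      rw [XAS_ne hζ0] at h
      exact (inv_mul_eq_one₀ (hne ζ hζ hζ0)).1 h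
    · rintro ⟨ζ, hζ, hζ0, h⟩
      refine ⟨ζ, hζ, ?_⟩
      rw [XAS_ne hζ0, ← h]
      exact inv_mul_cancel₀ (hne ζ hζ hζ0)
  have hchar : ∀ z : ℂ, z ∉ Out (XAS_phi φ) ↔ ∃ w ∈ closedBall (0 : ℂ) 1, ψ w = z := by
    intro z
    constructor
    · intro hz
      rcases hM.cover z with ⟨w, hw, h⟩ | h
      · rcases (mem_closedBall_zero_iff.1 hw.1).lt_or_eq with h1 | h1
        · exact absurd ((hOut z).2 ⟨w, mem_ball_zero_iff.2 h1, hw.2, h⟩) hz
        · have : z ∈ ψ '' sphere 0 1 := by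
            rw [← hM.circ]
            exact ⟨w, mem_sphere_zero_iff_norm.2 h1, h⟩
          obtain ⟨w', hw', h'⟩ := this
          exact ⟨w', sphere_subset_closedBall hw', h'⟩
      · exact h
    · rintro ⟨w, hw, h⟩ hz
      obtain ⟨ζ, hζ, hζ0, hφ⟩ := (hOut z).1 hz
      have := (hM.sep ζ ⟨ball_subset_closedBall hζ, hζ0⟩ w hw (by rw [hφ, h])).1
      rw [mem_ball_zero_iff, this] at hζ
      exact lt_irrefl _ hζ
  -- the bound
  have hcomp : IsCompact (ψ '' closedBall (0 : ℂ) 1) :=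
    (isCompact_closedBall (0 : ℂ) 1).image_of_continuousOn hM.ψ_cont
  obtain ⟨R₀, hR₀⟩ := hcomp.isBounded.exists_norm_le
  -- differentiability
  have hhol : DifferentiableOn ℂ (XAS_phi φ) (ball 0 1) := by
    apply (Complex.differentiableOn_compl_singleton_and_continuousAt_iff
      (c := (0 : ℂ)) (ball_mem_nhds (0 : ℂ) one_pos)).1
    constructor
    · refine (DifferentiableOn.inv hM.φ_hol (fun ζ hζ => hne ζ hζ.1 hζ.2)).congr ?_
      intro ζ hζ
      exact XAS_ne hζ.2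
    · rw [continuousAt_iff_punctured_nhds, XAS_zero]
      have h1 : Tendsto (fun ζ => (φ ζ)⁻¹) (𝓝[≠] 0) (𝓝 0) := by
        rw [tendsto_zero_iff_norm_tendsto_zero]
        refine (tendsto_inv_atTop_zero.comp hM.φ_pole).congr (fun ζ => ?_)
        simp
      refine h1.congr' ?_
      filter_upwards [self_mem_nhdsWithin] with ζ hζ
      exact (XAS_ne hζ).symm
  refine ⟨XAS_phi φ, max 1 (R₀ + 1), ?_, ?_, hchar⟩
  · refine ⟨le_max_left _ _, hhol, ?_, XAS_zero φ, ?_, ?_, ?_⟩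
    · intro ζ hζ ζ' hζ' h
      by_cases h0 : ζ = 0
      · by_cases h0' : ζ' = 0
        · rw [h0, h0']
        · exfalso
          rw [h0, XAS_zero, XAS_ne h0'] at h
          exact inv_ne_zero (hne ζ' hζ' h0') h.symm
      · by_cases h0' : ζ' = 0
        · exfalso
          rw [h0', XAS_zero, XAS_ne h0] at h
          exact inv_ne_zero (hne ζ hζ h0) h
        · rw [XAS_ne h0, XAS_ne h0'] at h
          exact hM.φ_inj ⟨ball_subset_closedBall hζ, h0⟩ ⟨ball_subset_closedBall hζ', h0'⟩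
            (inv_injective h)
    · intro ζ hζ z h
      have hζ0 : ζ ≠ 0 := by
        rintro rfl
        rw [XAS_zero, zero_mul] at h
        exact zero_ne_one h
      rw [XAS_ne hζ0] at h
      have hz : φ ζ = z := (inv_mul_eq_one₀ (hne ζ hζ hζ0)).1 h
      rw [← hz]
      have hζM : ζ ∈ closedBall (0 : ℂ) 1 \ {0} := ⟨ball_subset_closedBall hζ, hζ0⟩
      by_cases hA0 : A ζ = 0
      · rw [hA0, XAS_zero, mul_zero, hM.φ_conj_zero ζ hζM hA0]
      · have hAb : A ζ ∈ ball (0 : ℂ) 1 := by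
          rw [mem_ball_zero_iff]
          exact (hA'.2.2.2.1 ζ hζ hζ0).trans (mem_ball_zero_iff.1 hζ)
        have hAn := hne _ hAb hA0
        rw [XAS_ne hA0, hM.φ_conj ζ hζM hA0]
        field_simp
    · intro z hz
      by_contra hcon
      obtain ⟨w, hw, h⟩ := (hchar z).1 hcon
      have h1 := hR₀ z ⟨w, hw, h⟩
      have h2 := le_max_right 1 (R₀ + 1)
      linarith
    · intro z hz
      obtain ⟨w, hw, h⟩ := (hchar z).1 hz
      have hc := hM.ψ_conj w hw
      rw [h] at hc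
      have hD : D.eval z ≠ 0 := by
        intro hD
        rw [hD, mul_zero] at hc
        obtain ⟨u, v, huv⟩ := hND.cop
        have := congrArg (fun p => Polynomial.eval z p) huv
        simp only [eval_add, eval_mul, eval_one, hc, hD, mul_zero, add_zero] at this
        exact zero_ne_one this
      refine ⟨hD, ?_⟩
      rw [hchar]
      refine ⟨B w, XAS_map hBLA hn hB.1 hw, ?_⟩
      unfold rf
      rw [hc, mul_div_assoc, div_self hD, mul_one]
  · intro ζ hζ hζ0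
    rw [XAS_ne hζ0]
    exact inv_mul_cancel₀ (hne ζ hζ hζ0)

end Pool.Agent.MAT
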