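import Pool.Agent.MAT.T

/-! MAT: XCA -/

set_option autoImplicit false

open Polynomial Metric Set Filter Topology

noncomputable section

namespace Pool.Agent.MAT

theorem p_XCA (hBLA : T_BLA) (hINVH : T_INVH) : T_XCA := by
  intro n A N D R ϕ hn hA hND hAs ζ hζ z hz hw
  obtain ⟨hA0, hAd, -, hAlt, -⟩ := hBLA n A hn hA
  have hAζ : A ζ ∈ ball (0 : ℂ) 1 := by
    rcases eq_or_ne ζ 0 with h0 | h0
    · rw [h0, hA0]; simp
    · have h1 := hAlt ζ hζ h0
      rw [mem_ball_zero_iff] at hζ ⊢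
      linarith
  have hϕ0 : ϕ ζ ≠ 0 := by
    intro h
    rw [h, zero_mul] at hz
    exact zero_ne_one hz
  have hzeq : z = (ϕ ζ)⁻¹ := by
    field_simp
    rw [mul_comm]; exact hz
  have hϕd : DifferentiableAt ℂ ϕ ζ :=
    (hAs.hol ζ hζ).differentiableAt (isOpen_ball.mem_nhds hζ)
  have hϕd' : DifferentiableAt ℂ ϕ (A ζ) :=
    (hAs.hol (A ζ) hAζ).differentiableAt (isOpen_ball.mem_nhds hAζ)
  have hAdζ : DifferentiableAt ℂ A ζ := (hAd ζ hζ).differentiableAt (isOpen_ball.mem_nhds hζ)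
  have hϕ' : deriv ϕ (A ζ) ≠ 0 := by
    obtain ⟨-, h, -, -, h3⟩ := hINVH (ball 0 1) ϕ isOpen_ball hAs.hol hAs.inj
    exact h3 _ hAζ
  -- the relation
  have hrel := hAs.conj ζ hζ z hz
  have hNz : N.eval z ≠ 0 := by
    intro h
    rw [h, zero_mul] at hrel
    obtain ⟨u, v, huv⟩ := hND.cop
    have h2 := congrArg (fun P : ℂ[X] => P.eval z) huv
    simp only [eval_add, eval_mul, h, ← hrel, eval_one] at h2
    simp at h2
  have hev : ∀ᶠ x in 𝓝 ζ, N.eval (ϕ x)⁻¹ * ϕ (A x) = D.eval (ϕ x)⁻¹ := by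
    have h1 : ∀ᶠ x in 𝓝 ζ, ϕ x ≠ 0 := hϕd.continuousAt.eventually_ne hϕ0
    filter_upwards [h1, isOpen_ball.mem_nhds hζ] with x hx hxb
    exact hAs.conj x hxb _ (mul_inv_cancel₀ hx)
  have hs : HasDerivAt (fun x => (ϕ x)⁻¹) (-(deriv ϕ ζ) / (ϕ ζ) ^ 2) ζ :=
    hϕd.hasDerivAt.inv hϕ0
  set s' : ℂ := -(deriv ϕ ζ) / (ϕ ζ) ^ 2 with hs'
  have hN : HasDerivAt (fun x => N.eval (ϕ x)⁻¹) ((derivative N).eval (ϕ ζ)⁻¹ * s') ζ :=
    (N.hasDerivAt _).comp ζ hs
  have hD : HasDerivAt (fun x => D.eval (ϕ x)⁻¹) ((derivative D).eval (ϕ ζ)⁻¹ * s') ζ :=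
    (D.hasDerivAt _).comp ζ hs
  have hc : HasDerivAt (fun x => ϕ (A x)) (deriv ϕ (A ζ) * deriv A ζ) ζ :=
    HasDerivAt.comp ζ hϕd'.hasDerivAt hAdζ.hasDerivAt
  have hL := hN.mul hc
  have hL' : HasDerivAt (fun x => D.eval (ϕ x)⁻¹)
      ((derivative N).eval (ϕ ζ)⁻¹ * s' * ϕ (A ζ) +
        N.eval (ϕ ζ)⁻¹ * (deriv ϕ (A ζ) * deriv A ζ)) ζ := by
    refine hL.congr_of_eventuallyEq ?_
    filter_upwards [hev] with x hx
    simp only [Pi.mul_apply]
    exact hx.symm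
  have huniq := hL'.unique hD
  rw [← hzeq] at huniq
  have hw' : (derivative N).eval z * D.eval z - N.eval z * (derivative D).eval z = 0 := by
    have := hw
    simp only [wr, eval_sub, eval_mul] at this
    exact this
  have hfin : N.eval z * (N.eval z * (deriv ϕ (A ζ) * deriv A ζ)) = 0 := by
    have h3 : N.eval z * ((derivative N).eval z * s' * ϕ (A ζ) +
        N.eval z * (deriv ϕ (A ζ) * deriv A ζ)) = N.eval z * ((derivative D).eval z * s') := by
      rw [huniq]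
    have h4 : N.eval z * ((derivative N).eval z * s' * ϕ (A ζ)) =
        (derivative N).eval z * s' * D.eval z := by
      rw [← hrel]; ring
    linear_combination h3 - h4 - s' * hw'
  rcases mul_eq_zero.1 hfin with h | h
  · exact absurd h hNz
  rcases mul_eq_zero.1 h with h | h
  · exact absurd h hNz
  rcases mul_eq_zero.1 h with h | h
  · exact absurd h hϕ'
  · exact h

end Pool.Agent.MAT
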