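import Pool.Agent.MAT.TX
import Pool.Agent.PLim.PHIp

/-!
# MAT, XCO: the multiplier at infinity
-/

set_option autoImplicit false

open Polynomial Metric Set Filter Topology

noncomputable section

namespace Pool.Agent.MAT

namespace XCO_

/-- evaluation of a reflected polynomial -/
lemma eval_reflect {m : ℕ} {P : ℂ[X]} (hP : P.natDegree ≤ m) {w z : ℂ} (hwz : w * z = 1) :
    (reflect m P).eval w = w ^ m * P.eval z := by
  have hz : z ≠ 0 := right_ne_zero_of_mul_eq_one hwz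
  have hw : w = z⁻¹ := eq_inv_of_mul_eq_one_left hwz
  letI : Invertible z := invertibleOfNonzero hz
  have h := eval₂_reflect_mul_pow (RingHom.id ℂ) z m P hP
  rw [invOf_eq_inv, ← hw, eval₂_id, eval₂_id] at h
  rw [← h, mul_left_comm, ← mul_pow, hwz, one_pow, mul_one]

lemma eval_reflect_zero (m : ℕ) (P : ℂ[X]) : (reflect m P).eval 0 = P.coeff m := by
  rw [← coeff_zero_eq_eval_zero, coeff_reflect, revAt_le (Nat.zero_le m), Nat.sub_zero]

/-- a Blaschke product is differentiable at zero and vanishes there -/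
lemma blaschke_zero {n : ℕ} {A : ℂ → ℂ} (hA : IsBlaschke n A) :
    DifferentiableAt ℂ A 0 ∧ A 0 = 0 := by
  obtain ⟨c, α, hc, hα, ⟨i0, hi0⟩, hform⟩ := hA
  constructor
  · have hev : A =ᶠ[𝓝 0] fun z => c * ∏ i, (z - α i) / (1 - (starRingEnd ℂ) (α i) * z) := by
      filter_upwards [closedBall_mem_nhds (0 : ℂ) one_pos] with z hz
      exact hform z hz
    refine DifferentiableAt.congr_of_eventuallyEq ?_ hev
    refine DifferentiableAt.const_mul ?_ c
    refine DifferentiableAt.fun_finsetProd fun i _ => ?_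
    refine DifferentiableAt.div (by fun_prop) (by fun_prop) ?_
    simp
  · rw [hform 0 (mem_closedBall_self zero_le_one)]
    have : ∏ i, ((0 : ℂ) - α i) / (1 - (starRingEnd ℂ) (α i) * 0) = 0 :=
      Finset.prod_eq_zero (Finset.mem_univ i0) (by rw [hi0]; simp)
    rw [this, mul_zero]

end XCO_

open XCO_ in
theorem p_XCO : T_XCO := by
  intro n A N D R ϕ hn hA hND hside
  obtain ⟨hAd, hA0⟩ := blaschke_zero hA
  have hb0 : ball (0 : ℂ) 1 ∈ 𝓝 (0 : ℂ) := ball_mem_nhds 0 one_pos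
  have hϕd : DifferentiableAt ℂ ϕ 0 := hside.hol.differentiableAt hb0
  have hϕ' : deriv ϕ 0 ≠ 0 :=
    Pool.Agent.PLim.PHIp_.deriv_ne_zero_of_injOn (hside.hol.analyticAt hb0) hb0 hside.inj
  set P : ℂ[X] := reflect n N with hP
  set Q : ℂ[X] := reflect (n - 1) D with hQ
  have hP0 : P.eval 0 = 1 := by
    rw [hP, eval_reflect_zero]
    have h := hND.monic.coeff_natDegree
    rwa [hND.deg] at h
  have hQ0 : Q.eval 0 = D.coeff (n - 1) := eval_reflect_zero _ _
  -- the identity near zero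
  have hkey : ∀ᶠ ζ in 𝓝 (0 : ℂ), P.eval (ϕ ζ) * ϕ (A ζ) = ϕ ζ * Q.eval (ϕ ζ) := by
    filter_upwards [hb0] with ζ hζ
    rcases eq_or_ne ζ 0 with h | h
    · rw [h, hA0, hside.zero, zero_mul, mul_zero]
    · have hne : ϕ ζ ≠ 0 := by
        intro h2
        apply h
        exact hside.inj hζ (mem_ball_self one_pos) (h2.trans hside.zero.symm)
      have hz : ϕ ζ * (ϕ ζ)⁻¹ = 1 := mul_inv_cancel₀ hne
      have h3 := hside.conj ζ hζ (ϕ ζ)⁻¹ hz
      have h4 : D.natDegree ≤ n - 1 := by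
        have := hND.dden
        omega
      rw [hP, hQ, eval_reflect hND.deg.le hz, eval_reflect h4 hz, mul_assoc, h3, ← mul_assoc,
        ← pow_succ']
      congr 2
      omega
  have hA0d : HasDerivAt A (deriv A 0) 0 := hAd.hasDerivAt
  have h1 : HasDerivAt ϕ (deriv ϕ 0) (A 0) := by
    rw [hA0]
    exact hϕd.hasDerivAt
  have h2 : HasDerivAt (fun ζ => ϕ (A ζ)) (deriv ϕ 0 * deriv A 0) 0 := h1.comp 0 hA0d
  have h3 : HasDerivAt (fun ζ => P.eval (ϕ ζ)) ((derivative P).eval (ϕ 0) * deriv ϕ 0) 0 :=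
    (P.hasDerivAt (ϕ 0)).comp 0 hϕd.hasDerivAt
  have h4 : HasDerivAt (fun ζ => Q.eval (ϕ ζ)) ((derivative Q).eval (ϕ 0) * deriv ϕ 0) 0 :=
    (Q.hasDerivAt (ϕ 0)).comp 0 hϕd.hasDerivAt
  have h5 := h3.mul h2
  have h6 := hϕd.hasDerivAt.mul h4
  have h7 := h6.congr_of_eventuallyEq (f₁ := (fun ζ => P.eval (ϕ ζ)) * fun ζ => ϕ (A ζ)) hkey
  have h8 := h5.unique h7
  rw [hA0, hside.zero, mul_zero, zero_add, hP0, one_mul, zero_mul, add_zero, hQ0] at h8
  exact mul_left_cancel₀ hϕ' h8.symm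

end Pool.Agent.MAT
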