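import Pool.Agent.MAT.T

/-!
# MAT: XGS
-/

set_option autoImplicit false

open Polynomial Metric Set Filter Topology

noncomputable section

namespace Pool.Agent.MAT

/-- the Riemann map of the complement of the filled Julia set -/
theorem p_XGS (hLAM : T_LAM) (hLGS : T_LGS) (hXPC : T_XPC) (hXND : T_XND) (hXPW : T_XPW) :
    T_XGS := by
  intro n e R x₀ p x ϕ' hn he he2 hX hp hx hev
  have hu : ((hyperfilter ℕ : Ultrafilter ℕ) : Filter ℕ) ≤ atTop := Nat.hyperfilter_le_atTop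
  have hA : IsBlaschke n (fun z : ℂ => z ^ n) := (hXPW n (by omega)).1
  have hND := hXND n x₀ (by omega)
  obtain ⟨hcN, hcD⟩ := hXPC n (hyperfilter ℕ : Ultrafilter ℕ) x x₀ (by omega)
    (hx.mono_left hu)
  have hev' := hev.filter_mono hu
  obtain ⟨ϕ, -, h2⟩ := hLAM n (fun z : ℂ => z ^ n) (hyperfilter ℕ) (fun k => (x k).num)
    (fun k => (x k).den) x₀.num x₀.den R ϕ' (fun k => -(p k)) (-1) (by omega) hA hND.1
    (hev'.mono fun k h => h.1) hcN hcD (hev'.mono fun k h => h.2) ((hp.mono_left hu).neg)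
    (by norm_num)
  exact ⟨_, hLGS n e x₀ (2 * R) ϕ hn he he2 hX h2⟩

end Pool.Agent.MAT
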