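import Pool.Agent.MAT.T

/-!
# MAT: XHY (membership in `HypPoly`; from GEL)
-/

set_option autoImplicit false

open Polynomial Metric Set Filter Topology

noncomputable section

namespace Pool.Agent.MAT

namespace XHY_

/-- translation of the orbit -/
theorem iter (n : ℕ) (e : ℝ) (μ p : ℂ) (f : ℂ → ℂ) (hf : ∀ z, f z = GF n e μ (p + z) - p)
    (m : ℕ) (z : ℂ) : f^[m] z = (GF n e μ)^[m] (p + z) - p := by
  induction m generalizing z with
  | zero => simp
  | succ m ih =>
    rw [Function.iterate_succ_apply, Function.iterate_succ_apply, ih, hf]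
    congr 2
    ring

end XHY_

open XHY_ in
theorem p_XHY (hGEL : T_GEL) : T_XHY := by
  intro n e μ p x hn he he2 hμ hμ1 hp hfix hXR h0 h1
  obtain ⟨hG1, hGd, -⟩ := hGEL n e hn he he2
  obtain ⟨hden, hden0, hrf⟩ := hXR
  have hn2 : n - 2 ≠ 0 := by omega
  have he1 : (1 : ℂ) + (e : ℂ) ≠ 0 := by
    have : ((1 + e : ℝ) : ℂ) ≠ 0 := by
      rw [Complex.ofReal_ne_zero]; linarith
    simpa using this
  set f : ℂ → ℂ := fun z => x.num.eval z / x.den.eval z with hf
  have hff : ∀ z, f z = GF n e μ (p + z) - p := fun z => hrf z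
  have hGF1 : GF n e μ 1 = 1 := by
    unfold GF; rw [hG1]; ring
  -- the derivative
  have hfd : ∀ z : ℂ, HasDerivAt f (μ * ((p + z) ^ (n - 2) * (p + z + e) / (1 + e))) z := by
    intro z
    have d1 : HasDerivAt (fun z : ℂ => p + z) 1 z := (hasDerivAt_id z).const_add p
    have d2 : HasDerivAt (fun z : ℂ => GG n e (p + z))
        (((p + z) ^ (n - 2) * (p + z + e) / (1 + e)) * 1) z :=
      HasDerivAt.comp (h₂ := GG n e) (h := fun z : ℂ => p + z) z (hGd (p + z)) d1
    have d3 : HasDerivAt (fun z : ℂ => 1 + μ * (GG n e (p + z) - 1) - p)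
        (μ * (((p + z) ^ (n - 2) * (p + z + e) / (1 + e)) * 1)) z :=
      (((d2.sub_const 1).const_mul μ).const_add 1).sub_const p
    rw [mul_one] at d3
    have e1 : f = fun z : ℂ => 1 + μ * (GG n e (p + z) - 1) - p := by
      funext z
      rw [hff]; rfl
    rw [e1]
    exact d3
  refine ⟨x, rfl, hden, 1 - p, sub_ne_zero.2 (Ne.symm hp), ?_, ?_, ?_⟩
  · have : f (1 - p) = 1 - p := by
      rw [hff]
      have e1 : p + (1 - p) = 1 := by ring
      rw [e1, hGF1]
    exact this
  · have : deriv f (1 - p) = μ := by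
      rw [(hfd (1 - p)).deriv]
      have e1 : p + (1 - p) = 1 := by ring
      rw [e1, one_pow, one_mul, div_self he1, mul_one]
    change ‖deriv f (1 - p)‖ < 1
    rw [this]; exact hμ1
  · intro c hc
    change deriv f c = 0 at hc
    rw [(hfd c).deriv] at hc
    change c ∈ connectedComponentIn
      {v : ℂ | Tendsto (fun m : ℕ => f^[m] v) atTop (𝓝 (1 - p))} (1 - p)
    -- the component translates
    have hBas1 : (1 : ℂ) ∈ Bas n e μ := by
      have hit : ∀ m : ℕ, (GF n e μ)^[m] 1 = 1 := fun m => Function.iterate_fixed hGF1 m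
      show Tendsto (fun m : ℕ => (GF n e μ)^[m] 1) atTop (𝓝 1)
      simp only [hit]
      exact tendsto_const_nhds
    have hsub : (fun z : ℂ => z - p) '' connectedComponentIn (Bas n e μ) 1 ⊆
        connectedComponentIn
          {v : ℂ | Tendsto (fun m : ℕ => f^[m] v) atTop (𝓝 (1 - p))} (1 - p) := by
      apply IsPreconnected.subset_connectedComponentIn
      · exact isPreconnected_connectedComponentIn.image _ (by fun_prop)
      · exact ⟨1, mem_connectedComponentIn hBas1, rfl⟩
      · rintro _ ⟨v, hv, rfl⟩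
        have hv' : Tendsto (fun m : ℕ => (GF n e μ)^[m] v) atTop (𝓝 1) :=
          connectedComponentIn_subset _ _ hv
        show Tendsto (fun m : ℕ => f^[m] (v - p)) atTop (𝓝 (1 - p))
        have e1 : ∀ m : ℕ, f^[m] (v - p) = (GF n e μ)^[m] v - p := by
          intro m
          rw [iter n e μ p f hff]
          congr 2
          ring
        simp only [e1]
        exact hv'.sub_const p
    have hpc : p + c ∈ connectedComponentIn (Bas n e μ) 1 := by
      have h2 : (p + c) ^ (n - 2) * (p + c + e) / (1 + e) = 0 :=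
        (mul_eq_zero.1 hc).resolve_left hμ
      have h3 : (p + c) ^ (n - 2) * (p + c + e) = 0 :=
        (div_eq_zero_iff.1 h2).resolve_right he1
      rcases mul_eq_zero.1 h3 with h4 | h4
      · have h5 : p + c = 0 := pow_eq_zero_iff hn2 |>.1 h4
        rw [h5]; exact h0
      · have h5 : p + c = -(e : ℂ) := eq_neg_of_add_eq_zero_left h4
        rw [h5]; exact h1
    exact hsub ⟨p + c, hpc, by simp⟩

end Pool.Agent.MAT
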