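import Pool.Agent.MAT.T

/-!
# MAT: XJC (no critical points on the common boundary)
-/

set_option autoImplicit false

open Polynomial Metric Set Filter Topology

noncomputable section

namespace Pool.Agent.MAT

theorem p_XJC (hBLA : T_BLA) (hBLC : T_BLC) : T_XJC := by
  intro n A B a b N D φ ψ hn _hA hB hND hM w hw
  obtain ⟨-, -, -, -, hcirc, -⟩ := hBLA n B hn hB.1
  have hwc : w ∈ closedBall (0 : ℂ) 1 := by simp [hw]
  have hBw : ‖B w‖ = 1 := (hcirc w hwc).2 hw
  obtain ⟨w', hinj, hw'⟩ := hBLC n B hn hB.1 (B w) hBw
  set w0 : ℂ := ψ (B w) with hw0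
  set P : ℂ[X] := N - C w0 * D with hP
  have hdeg : (C w0 * D).degree < N.degree := by
    rw [Polynomial.degree_eq_natDegree hND.monic.ne_zero, hND.deg]
    refine lt_of_le_of_lt (b := D.degree) (by rw [Polynomial.degree_mul]; by_cases hw00 : w0 = 0
                                              · simp [hw00]
                                              · simp [degree_C hw00]) ?_
    by_cases hD : D = 0
    · simp [hD]
    · rw [Polynomial.degree_eq_natDegree hD]
      exact_mod_cast hND.dden
  have hPm : P.Monic := hND.monic.sub_of_left hdeg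
  have hPd : P.natDegree = n := by
    rw [hP, natDegree_eq_of_degree_eq (degree_sub_eq_left_of_degree_lt hdeg), hND.deg]
  have hP0 : P ≠ 0 := hPm.ne_zero
  have hroot : ∀ v ∈ closedBall (0 : ℂ) 1, B v = B w → P.IsRoot (ψ v) := by
    intro v hv hBv
    have h1 := hM.ψ_conj v hv
    rw [IsRoot.def, hP]
    simp only [eval_sub, eval_mul, eval_C]
    rw [h1, hBv, sub_self]
  have hinj' : Function.Injective (fun i : Fin n => ψ (w' i)) := by
    intro i j hij
    apply hinj
    refine hM.ψ_inj ?_ ?_ hij
    · simp [(hw' i).1]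
    · simp [(hw' j).1]
  have hcard : n ≤ P.roots.toFinset.card := by
    have h1 : Finset.univ.image (fun i : Fin n => ψ (w' i)) ⊆ P.roots.toFinset := by
      intro z hz
      obtain ⟨i, -, rfl⟩ := Finset.mem_image.1 hz
      rw [Multiset.mem_toFinset, mem_roots hP0]
      exact hroot _ (by simp [(hw' i).1]) (hw' i).2
    have h2 := Finset.card_le_card h1
    rwa [Finset.card_image_of_injective _ hinj', Finset.card_univ, Fintype.card_fin] at h2
  have hnodup : P.roots.Nodup := by
    rw [← Multiset.toFinset_card_eq_card_iff_nodup]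
    refine le_antisymm (Multiset.toFinset_card_le _) ?_
    exact (card_roots' P).trans (hPd.le.trans hcard)
  have hder : (derivative P).eval (ψ w) ≠ 0 := by
    intro h0
    have h1 : 1 < P.rootMultiplicity (ψ w) :=
      (one_lt_rootMultiplicity_iff_isRoot hP0).2 ⟨hroot w hwc rfl, h0⟩
    have h2 : P.roots.count (ψ w) ≤ 1 := Multiset.nodup_iff_count_le_one.1 hnodup _
    rw [count_roots] at h2
    omega
  have hNw : N.eval (ψ w) = w0 * D.eval (ψ w) := hM.ψ_conj w hwc
  have hDw : D.eval (ψ w) ≠ 0 := by
    intro h0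
    obtain ⟨s, t, hst⟩ := hND.cop
    have h1 := congrArg (Polynomial.eval (ψ w)) hst
    rw [eval_add, eval_mul, eval_mul, hNw, h0] at h1
    simp at h1
  intro h0
  rw [wr, eval_sub, eval_mul, eval_mul, hNw] at h0
  have h1 : D.eval (ψ w) * (derivative P).eval (ψ w) = 0 := by
    rw [hP]
    simp only [derivative_sub, derivative_mul, derivative_C, zero_mul, zero_add, eval_sub,
      eval_mul, eval_C]
    linear_combination h0
  rcases mul_eq_zero.1 h1 with h2 | h2
  · exact hDw h2
  · exact hder h2

end Pool.Agent.MAT
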