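import Pool.Agent.MAT.TX

/-!
# MAT: sequences lift through the quotient map (XLI)
-/

set_option autoImplicit false

open Polynomial Metric Set Filter Topology

noncomputable section

namespace Pool.Agent.MAT

namespace XLI_

theorem top_eq (n : ℕ) : (inferInstance : TopologicalSpace (RatMap n)) =
    (instTopologicalSpaceSubtype : TopologicalSpace
      {x : (Fin n → ℂ) × (Fin n → ℂ) //
        (numP n x.1).eval 0 = 0 ∧ IsCoprime (numP n x.1) (denP n x.2)}) := rfl

theorem cont_val (n : ℕ) : Continuous (fun x : RatMap n => x.1) := continuous_subtype_val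

theorem fct (n : ℕ) : FirstCountableTopology (RatMap n) :=
  inferInstanceAs (FirstCountableTopology {x : (Fin n → ℂ) × (Fin n → ℂ) //
        (numP n x.1).eval 0 = 0 ∧ IsCoprime (numP n x.1) (denP n x.2)})

theorem cont_mk {X : Type} [TopologicalSpace X] {n : ℕ} (f : X → RatMap n)
    (hf : Continuous fun x => (f x).1) : Continuous f := by
  exact continuous_induced_rng.2 hf

theorem num_scale (n : ℕ) (c : ℂ) (hc : c ≠ 0) (u : Fin n → ℂ) :
    numP n (fun i => c ^ (n - (i : ℕ)) * u i) = C (c ^ n) * (numP n u).comp (C c⁻¹ * X) := by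
  apply Polynomial.funext
  intro z
  simp only [numP, eval_add, eval_pow, eval_X, eval_finsetSum, eval_mul, eval_C, eval_comp]
  rw [mul_add, Finset.mul_sum]
  congr 1
  · rw [mul_pow, ← mul_assoc, ← mul_pow, mul_inv_cancel₀ hc, one_pow, one_mul]
  · refine Finset.sum_congr rfl fun i _ => ?_
    have h1 : c ^ n = c ^ (n - (i : ℕ)) * c ^ (i : ℕ) := by
      rw [← pow_add, Nat.sub_add_cancel i.2.le]
    have h2 : c ^ (i : ℕ) * (c⁻¹) ^ (i : ℕ) = 1 := by
      rw [← mul_pow, mul_inv_cancel₀ hc, one_pow]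
    rw [h1, mul_pow]
    linear_combination (-(c ^ (n - (i : ℕ)) * u i * z ^ (i : ℕ))) * h2

theorem den_scale (n : ℕ) (c : ℂ) (hc : c ≠ 0) (v : Fin n → ℂ) :
    denP n (fun i => c ^ (n - 1 - (i : ℕ)) * v i) =
      C (c ^ (n - 1)) * (denP n v).comp (C c⁻¹ * X) := by
  apply Polynomial.funext
  intro z
  simp only [denP, eval_pow, eval_X, eval_finsetSum, eval_mul, eval_C, eval_comp]
  rw [Finset.mul_sum]
  refine Finset.sum_congr rfl fun i _ => ?_
  have h1 : c ^ (n - 1) = c ^ (n - 1 - (i : ℕ)) * c ^ (i : ℕ) := by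
    rw [← pow_add, Nat.sub_add_cancel (Nat.le_sub_one_of_lt i.2)]
  have h2 : c ^ (i : ℕ) * (c⁻¹) ^ (i : ℕ) = 1 := by
    rw [← mul_pow, mul_inv_cancel₀ hc, one_pow]
  rw [h1, mul_pow]
  linear_combination (-(c ^ (n - 1 - (i : ℕ)) * v i * z ^ (i : ℕ))) * h2

/-- the scaled map -/
def scale {n : ℕ} (c : ℂ) (hc : c ≠ 0) (x : RatMap n) : RatMap n :=
  ⟨(fun i => c ^ (n - (i : ℕ)) * x.1.1 i, fun i => c ^ (n - 1 - (i : ℕ)) * x.1.2 i), by
    refine ⟨?_, ?_⟩
    · change (numP n (fun i => c ^ (n - (i : ℕ)) * x.1.1 i)).eval 0 = 0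
      rw [num_scale n c hc, eval_mul, eval_comp]
      simp [x.2.1]
    · change IsCoprime (numP n (fun i => c ^ (n - (i : ℕ)) * x.1.1 i))
        (denP n (fun i => c ^ (n - 1 - (i : ℕ)) * x.1.2 i))
      rw [num_scale n c hc, den_scale n c hc]
      have h1 : IsCoprime ((numP n x.1.1).comp (C c⁻¹ * X)) ((denP n x.1.2).comp (C c⁻¹ * X)) :=
        IsCoprime.map x.2.2 (Polynomial.compRingHom (C c⁻¹ * X))
      have hu1 : IsUnit (C (c ^ n) : ℂ[X]) := isUnit_C.2 (pow_ne_zero n hc).isUnit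
      have hu2 : IsUnit (C (c ^ (n - 1)) : ℂ[X]) := isUnit_C.2 (pow_ne_zero (n - 1) hc).isUnit
      rw [isCoprime_mul_unit_left_left hu1, isCoprime_mul_unit_left_right hu2]
      exact h1⟩

theorem scale_by {n : ℕ} (c : ℂ) (hc : c ≠ 0) (x : RatMap n) : ScaleBy c x (scale c hc x) :=
  ⟨hc, fun _ => rfl, fun _ => rfl⟩

theorem cls_scale {n : ℕ} (c : ℂ) (hc : c ≠ 0) (x : RatMap n) : cls (scale c hc x) = cls x :=
  Quotient.sound ((modSetoid n).symm ⟨c, scale_by c hc x⟩)

theorem cont_scale {n : ℕ} (c : ℂ) (hc : c ≠ 0) : Continuous (scale (n := n) c hc) := by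
  apply cont_mk
  change Continuous fun x : RatMap n =>
    ((fun i : Fin n => c ^ (n - (i : ℕ)) * x.1.1 i, fun i : Fin n =>
      c ^ (n - 1 - (i : ℕ)) * x.1.2 i) : (Fin n → ℂ) × (Fin n → ℂ))
  have h := cont_val n
  refine Continuous.prodMk ?_ ?_
  · refine continuous_pi fun i => continuous_const.mul ?_
    exact (continuous_apply i).comp (continuous_fst.comp h)
  · refine continuous_pi fun i => continuous_const.mul ?_
    exact (continuous_apply i).comp (continuous_snd.comp h)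

theorem open_cls (n : ℕ) : IsOpenMap (cls (n := n)) := by
  intro U hU
  have h0 : IsOpen ((cls (n := n)) ⁻¹' (cls '' U)) := by
    rw [isOpen_iff_mem_nhds]
    rintro x ⟨y, hyU, hyx⟩
    have hr : ∃ c : ℂ, ScaleBy c x y := (modSetoid n).symm (Quotient.exact hyx)
    obtain ⟨c, hc, h1, h2⟩ := hr
    have hy : scale c hc x = y := by
      apply Subtype.ext
      apply Prod.ext
      · funext i
        exact (h1 i).symm
      · funext i
        exact (h2 i).symm
    have hpre : scale c hc ⁻¹' U ∈ 𝓝 x := by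
      apply (hU.preimage (cont_scale c hc)).mem_nhds
      rw [mem_preimage, hy]
      exact hyU
    filter_upwards [hpre] with x' hx'
    exact ⟨scale c hc x', hx', cls_scale c hc x'⟩
  exact isOpen_coinduced.2 h0

/-- lifting of sequences -/
theorem lift {X Y : Type} [TopologicalSpace X] [TopologicalSpace Y] [FirstCountableTopology X]
    (π : X → Y) (hπ : IsOpenMap π) (hs : Function.Surjective π) (x₀ : X) (q : ℕ → Y)
    (hq : Tendsto q atTop (𝓝 (π x₀))) :
    ∃ y : ℕ → X, (∀ k, π (y k) = q k) ∧ Tendsto y atTop (𝓝 x₀) := by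
  classical
  obtain ⟨U, hU⟩ := (𝓝 x₀).exists_antitone_basis
  have hev : ∀ j, ∀ᶠ k in atTop, ∃ y ∈ U j, π y = q k := by
    intro j
    have h1 : π '' U j ∈ 𝓝 (π x₀) := hπ.image_mem_nhds (hU.1.mem_of_mem trivial)
    exact hq.eventually h1
  obtain ⟨P, hP⟩ : ∃ P : ℕ → ℕ → Prop, P = fun k j => ∃ y ∈ U j, π y = q k := ⟨_, rfl⟩
  have hch : ∀ k, ∃ y : X, π y = q k ∧ ∀ m, m ≤ k → P k m → y ∈ U m := by
    intro k
    by_cases hk : ∃ m, m ≤ k ∧ P k m
    · obtain ⟨m, hm, hPm⟩ := hk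
      have h1 : P k (Nat.findGreatest (P k) k) := Nat.findGreatest_spec hm hPm
      rw [hP] at h1
      obtain ⟨y, hyU, hy⟩ := h1
      refine ⟨y, hy, fun m' hm' hPm' => ?_⟩
      have h2 : m' ≤ Nat.findGreatest (P k) k := Nat.le_findGreatest hm' hPm'
      rw [hP] at h2
      exact hU.antitone h2 hyU
    · obtain ⟨y, hy⟩ := hs (q k)
      exact ⟨y, hy, fun m hm hPm => absurd ⟨m, hm, hPm⟩ hk⟩
  choose y hy1 hy2 using hch
  refine ⟨y, hy1, ?_⟩
  rw [hU.1.tendsto_right_iff]
  intro m _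
  filter_upwards [hev m, eventually_ge_atTop m] with k hk hmk
  refine hy2 k m hmk ?_
  rw [hP]
  exact hk

end XLI_

theorem p_XLI : T_XLI := by
  intro n y₀ q hq
  have := XLI_.fct n
  exact XLI_.lift cls (XLI_.open_cls n) Quotient.mk_surjective y₀ q hq

end Pool.Agent.MAT
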