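import Pool.Agent.MAT.T

/-! MAT: XPA -/

set_option autoImplicit false

open Polynomial Metric Set Filter Topology

noncomputable section

namespace Pool.Agent.MAT

theorem p_XPA (hBLA : T_BLA) (hINVH : T_INVH) (hLAB : T_LAB) (hXAS : T_XAS) (hXRE : T_XRE)
    (hXJC : T_XJC) (hXCA : T_XCA) (hXPO : T_XPO) (hGEL : T_GEL) : T_XPA := by
  intro n e ρ μ p A B a b N₀ D₀ N D φ₀ ψ₀ φ ψ hn he he2 hμ0 hμ1 hp hA hB hND₀ hD₀ hrf hM₀ hND hM
    h0 hme hρ hN0
  have hn2 : 2 ≤ n := by omega
  obtain ⟨g1, g2, -⟩ := hGEL n e hn he he2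
  obtain ⟨hB0, hBd, hBc, hBlt, hBeq, hBt, -⟩ := hBLA n B hn2 hB.1
  obtain ⟨ϕ, R, hAs, hϕφ, hOut⟩ := hXAS n A B a b N D φ ψ hn2 hA hB hND hM
  obtain ⟨-, -, -, -, hOpre, -, -⟩ := hLAB n A N D R ϕ hn2 hA.1 hND hAs
  have hbas := hXPO n e μ p B b N₀ D₀ φ₀ ψ₀ hn he he2 hμ0 hμ1 hp hB hND₀ hD₀ hrf hM₀
  obtain ⟨hopen0, h₀, hh₀d, hh₀inv, hψ₀'⟩ := hINVH (ball 0 1) ψ₀ isOpen_ball hM₀.ψ_hol
    (hM₀.ψ_inj.mono ball_subset_closedBall)
  obtain ⟨-, -, -, -, hψ'⟩ := hINVH (ball 0 1) ψ isOpen_ball hM.ψ_hol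
    (hM.ψ_inj.mono ball_subset_closedBall)
  -- B preserves the ball
  have hBball : ∀ w ∈ ball (0 : ℂ) 1, B w ∈ ball (0 : ℂ) 1 := by
    intro w hw
    rcases eq_or_ne w 0 with h0 | h0
    · rw [h0, hB0]; simp
    · have h1 := hBlt w hw h0
      rw [mem_ball_zero_iff] at hw ⊢
      linarith
  set χ : ℂ → ℂ := fun v => ψ (h₀ (v - p)) with hχ
  have hχψ : ∀ w ∈ ball (0 : ℂ) 1, χ (p + ψ₀ w) = ψ w := by
    intro w hw
    simp only [hχ, add_sub_cancel_left]
    rw [hh₀inv w hw]
  have hF : ∀ w ∈ closedBall (0 : ℂ) 1, GF n e μ (p + ψ₀ w) = p + ψ₀ (B w) := by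
    intro w hw
    have h1 := hrf (ψ₀ w)
    have h2 := hM₀.ψ_conj w hw
    have h3 : rf N₀ D₀ (ψ₀ w) = ψ₀ (B w) := by
      unfold rf
      rw [h2, mul_div_assoc, div_self (hD₀ _), mul_one]
    rw [h3] at h1
    rw [h1]; ring
  have hnotOut : ∀ w ∈ closedBall (0 : ℂ) 1, ψ w ∉ Out ϕ := fun w hw => (hOut _).2 ⟨w, hw, rfl⟩
  have hDψ : ∀ w ∈ closedBall (0 : ℂ) 1, D.eval (ψ w) ≠ 0 := fun w hw =>
    (hAs.back _ (hnotOut w hw)).1
  have hBasEq : Bas n e μ = (fun v : ℂ => v - p) ⁻¹' (ψ₀ '' ball 0 1) := by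
    ext v
    rw [hbas v, mem_preimage, mem_image]
    constructor
    · rintro ⟨w, hw, rfl⟩; exact ⟨w, hw, by ring⟩
    · rintro ⟨w, hw, hw2⟩; exact ⟨w, hw, by rw [hw2]; ring⟩
  have hcont : Continuous (fun v : ℂ => v - p) := by fun_prop
  refine ⟨R, ϕ, χ, ⟨hND, hAs, ?_, h0, hme, ?_, ?_, ?_, ?_, ?_, ?_, hN0, ?_⟩⟩
  · -- open
    rw [hBasEq]
    exact hopen0.preimage hcont
  · -- holomorphic
    intro v hv
    obtain ⟨w, hw, hwv⟩ := (hbas v).1 hv
    have h1 : v - p = ψ₀ w := by rw [← hwv]; ring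
    have h2 : DifferentiableAt ℂ h₀ (v - p) := by
      rw [h1]
      exact (hh₀d (ψ₀ w) ⟨w, hw, rfl⟩).differentiableAt (hopen0.mem_nhds ⟨w, hw, rfl⟩)
    have h3 : DifferentiableAt ℂ ψ (h₀ (v - p)) := by
      rw [h1, hh₀inv w hw]
      exact (hM.ψ_hol w hw).differentiableAt (isOpen_ball.mem_nhds hw)
    have h4 : DifferentiableAt ℂ (fun v : ℂ => v - p) v := by fun_prop
    have h5 : DifferentiableAt ℂ (fun v : ℂ => h₀ (v - p)) v := DifferentiableAt.comp v h2 h4
    exact (DifferentiableAt.comp v h3 h5).differentiableWithinAt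
  · -- injective
    intro v hv v' hv' hvv
    obtain ⟨w, hw, rfl⟩ := (hbas v).1 hv
    obtain ⟨w', hw', rfl⟩ := (hbas v').1 hv'
    rw [hχψ w hw, hχψ w' hw'] at hvv
    rw [hM.ψ_inj (ball_subset_closedBall hw) (ball_subset_closedBall hw') hvv]
  · -- conjugacy
    intro v hv
    obtain ⟨w, hw, rfl⟩ := (hbas v).1 hv
    rw [hχψ w hw, hF w (ball_subset_closedBall hw), hχψ (B w) (hBball w hw)]
    exact hM.ψ_conj w (ball_subset_closedBall hw)
  · -- backward invariance
    intro v hv z hz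
    obtain ⟨w, hw, rfl⟩ := (hbas v).1 hv
    rw [hχψ w hw] at hz
    have h1 : z ∉ Out ϕ := hOpre z (ψ w) (hnotOut w (ball_subset_closedBall hw)) hz
    obtain ⟨w', hw', rfl⟩ := (hOut z).1 h1
    have h2 := hM.ψ_conj w' hw'
    have h3 : ψ (B w') = ψ w := by
      have h4 : ψ (B w') * D.eval (ψ w') = ψ w * D.eval (ψ w') := by rw [← h2, hz]
      exact mul_right_cancel₀ (hDψ w' hw') h4
    have hw'b : w' ∈ ball (0 : ℂ) 1 := by
      rcases eq_or_lt_of_le (mem_closedBall_zero_iff.1 hw') with h5 | h5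
      · exfalso
        have h6 : ‖B w'‖ = 1 := (hBeq w' hw').2 h5
        have h7 : B w' ∈ closedBall (0 : ℂ) 1 := mem_closedBall_zero_iff.2 h6.le
        have h8 := hM.ψ_inj h7 (ball_subset_closedBall hw) h3
        rw [h8] at h6
        rw [mem_ball_zero_iff] at hw
        linarith
      · exact mem_ball_zero_iff.2 h5
    have h9 : B w' = w := hM.ψ_inj (ball_subset_closedBall (hBball w' hw'b))
      (ball_subset_closedBall hw) h3
    refine ⟨p + ψ₀ w', (hbas _).2 ⟨w', hw'b, rfl⟩, ?_, hχψ w' hw'b⟩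
    rw [hF w' hw', h9]
  · -- the images do not meet
    intro v hv
    obtain ⟨w, hw, rfl⟩ := (hbas v).1 hv
    rw [hχψ w hw]
    exact hnotOut w (ball_subset_closedBall hw)
  · -- critical points
    intro z hz
    by_cases hzO : z ∈ Out ϕ
    · left
      obtain ⟨ζ, hζ, hζz⟩ := hzO
      exact ⟨ζ, hρ ζ hζ (hXCA n A N D R ϕ hn2 hA.1 hND hAs ζ hζ z hζz hz), hζz⟩
    · right
      obtain ⟨w, hw, rfl⟩ := (hOut z).1 hzO
      have hwb : w ∈ ball (0 : ℂ) 1 := by
        rcases eq_or_lt_of_le (mem_closedBall_zero_iff.1 hw) with h5 | h5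
        · exact absurd hz (hXJC n A B a b N D φ ψ hn2 hA hB hND hM w h5)
        · exact mem_ball_zero_iff.2 h5
      have hBw := hBball w hwb
      have hψd : DifferentiableAt ℂ ψ w :=
        (hM.ψ_hol w hwb).differentiableAt (isOpen_ball.mem_nhds hwb)
      have hψd' : DifferentiableAt ℂ ψ (B w) :=
        (hM.ψ_hol _ hBw).differentiableAt (isOpen_ball.mem_nhds hBw)
      have hBdw : DifferentiableAt ℂ B w := (hBd w hwb).differentiableAt (isOpen_ball.mem_nhds hwb)
      have hψ₀d : DifferentiableAt ℂ ψ₀ w :=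
        (hM₀.ψ_hol w hwb).differentiableAt (isOpen_ball.mem_nhds hwb)
      have hψ₀d' : DifferentiableAt ℂ ψ₀ (B w) :=
        (hM₀.ψ_hol _ hBw).differentiableAt (isOpen_ball.mem_nhds hBw)
      -- derivative of the relation for ψ
      have hN : HasDerivAt (fun x => N.eval (ψ x)) ((derivative N).eval (ψ w) * deriv ψ w) w :=
        (N.hasDerivAt _).comp w hψd.hasDerivAt
      have hD : HasDerivAt (fun x => D.eval (ψ x)) ((derivative D).eval (ψ w) * deriv ψ w) w :=
        (D.hasDerivAt _).comp w hψd.hasDerivAt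
      have hc : HasDerivAt (fun x => ψ (B x)) (deriv ψ (B w) * deriv B w) w :=
        HasDerivAt.comp w hψd'.hasDerivAt hBdw.hasDerivAt
      have hL := hc.mul hD
      have hL' : HasDerivAt (fun x => N.eval (ψ x))
          (deriv ψ (B w) * deriv B w * D.eval (ψ w) +
            ψ (B w) * ((derivative D).eval (ψ w) * deriv ψ w)) w := by
        refine hL.congr_of_eventuallyEq ?_
        filter_upwards [isOpen_ball.mem_nhds hwb] with x hx
        simp only [Pi.mul_apply]
        exact hM.ψ_conj x (ball_subset_closedBall hx)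
      have huniq := hL'.unique hN
      have hrel := hM.ψ_conj w hw
      have hw' : (derivative N).eval (ψ w) * D.eval (ψ w) -
          N.eval (ψ w) * (derivative D).eval (ψ w) = 0 := by
        have := hz
        simp only [wr, eval_sub, eval_mul] at this
        exact this
      have hfin : D.eval (ψ w) * (D.eval (ψ w) * (deriv ψ (B w) * deriv B w)) = 0 := by
        linear_combination D.eval (ψ w) * huniq + deriv ψ w * hw' + (derivative D).eval (ψ w) * deriv ψ w * hrel
      have hDw := hDψ w hw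
      have hB' : deriv B w = 0 := by
        rcases mul_eq_zero.1 hfin with h | h
        · exact absurd h hDw
        rcases mul_eq_zero.1 h with h | h
        · exact absurd h hDw
        rcases mul_eq_zero.1 h with h | h
        · exact absurd h (hψ' _ hBw)
        · exact h
      -- derivative of the relation for ψ₀
      set v : ℂ := p + ψ₀ w with hv
      have hGF : HasDerivAt (GF n e μ) (μ * (v ^ (n - 2) * (v + e) / (1 + e))) v :=
        (((g2 v).sub_const 1).const_mul μ).const_add 1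
      have h1 : HasDerivAt (fun x => GF n e μ (p + ψ₀ x))
          (μ * (v ^ (n - 2) * (v + e) / (1 + e)) * deriv ψ₀ w) w := by
        have h2 : HasDerivAt (fun x => p + ψ₀ x) (deriv ψ₀ w) w := hψ₀d.hasDerivAt.const_add p
        have h2' := hGF.comp w h2
        exact h2'
      have h3 : HasDerivAt (fun x => p + ψ₀ (B x)) (deriv ψ₀ (B w) * deriv B w) w :=
        (HasDerivAt.comp w hψ₀d'.hasDerivAt hBdw.hasDerivAt).const_add p
      have h4 : HasDerivAt (fun x => GF n e μ (p + ψ₀ x)) (deriv ψ₀ (B w) * deriv B w) w := by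
        refine h3.congr_of_eventuallyEq ?_
        filter_upwards [isOpen_ball.mem_nhds hwb] with x hx
        exact hF x (ball_subset_closedBall hx)
      have h5 := h1.unique h4
      rw [hB', mul_zero] at h5
      have h6 : μ * (v ^ (n - 2) * (v + e) / (1 + e)) = 0 := by
        rcases mul_eq_zero.1 h5 with h | h
        · exact h
        · exact absurd h (hψ₀' w hwb)
      have h7 : v ^ (n - 2) * (v + e) / (1 + e) = 0 := by
        rcases mul_eq_zero.1 h6 with h | h
        · exact absurd h hμ0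
        · exact h
      have hne : (1 + (e : ℂ)) ≠ 0 := by
        have : (1 : ℝ) + e ≠ 0 := by linarith
        exact_mod_cast this
      have h8 : v ^ (n - 2) * (v + e) = 0 := by
        rcases div_eq_zero_iff.1 h7 with h | h
        · exact h
        · exact absurd h hne
      have hz2 : ψ w = χ v := (hχψ w hwb).symm
      rcases mul_eq_zero.1 h8 with h | h
      · left
        have hv0 : v = 0 := pow_eq_zero_iff (by omega) |>.1 h
        rw [hz2, hv0]
      · right
        have hv0 : v = -(e : ℂ) := eq_neg_of_add_eq_zero_left h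
        rw [hz2, hv0]
  · exact hXRE n A B a b N D φ ψ hn2 hA hB hND hM

end Pool.Agent.MAT
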