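import Pool.Agent.MAT.T

/-!
# MAT: XPC
-/

set_option autoImplicit false

open Polynomial Metric Set Filter Topology

noncomputable section

namespace Pool.Agent.MAT

namespace XPC_

theorem cont_val (n : ℕ) : Continuous (fun x : RatMap n => x.1) := by
  exact continuous_subtype_val

theorem coeff_num (n : ℕ) (u : Fin n → ℂ) (j : ℕ) :
    (numP n u).coeff j = (X ^ n : ℂ[X]).coeff j + ∑ i : Fin n, u i * (X ^ (i : ℕ) : ℂ[X]).coeff j := by
  simp only [numP, coeff_add, finsetSum_coeff, coeff_C_mul]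

theorem coeff_den (n : ℕ) (u : Fin n → ℂ) (j : ℕ) :
    (denP n u).coeff j = ∑ i : Fin n, u i * (X ^ (i : ℕ) : ℂ[X]).coeff j := by
  simp only [denP, finsetSum_coeff, coeff_C_mul]

theorem deg_den (n : ℕ) (u : Fin n → ℂ) : (denP n u).natDegree ≤ n := by
  refine natDegree_sum_le_of_forall_le _ _ fun i _ => ?_
  exact (natDegree_C_mul_X_pow_le _ _).trans i.2.le

theorem deg_num (n : ℕ) (u : Fin n → ℂ) : (numP n u).natDegree ≤ n := by
  refine natDegree_add_le_of_degree_le ?_ (deg_den n u)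
  simp

theorem tends (n : ℕ) (l : Filter ℕ) (f : ℕ → Fin n → ℂ) (g : Fin n → ℂ)
    (h : Tendsto f l (𝓝 g)) (c : Fin n → ℂ) (b : ℂ) :
    Tendsto (fun k => b + ∑ i : Fin n, f k i * c i) l (𝓝 (b + ∑ i : Fin n, g i * c i)) := by
  refine Tendsto.const_add _ (tendsto_finsetSum _ fun i _ => Tendsto.mul_const _ ?_)
  exact (tendsto_pi_nhds.mp h) i

end XPC_

open XPC_ in
/-- convergence in `RatMap` is coefficientwise convergence -/
theorem p_XPC : T_XPC := by
  intro n l y y₀ hn hy
  have h0 : Tendsto (fun k => (y k).1) l (𝓝 y₀.1) :=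
    ((cont_val n).tendsto y₀).comp hy
  have h1 : Tendsto (fun k => (y k).1.1) l (𝓝 y₀.1.1) := (continuous_fst.tendsto _).comp h0
  have h2 : Tendsto (fun k => (y k).1.2) l (𝓝 y₀.1.2) := (continuous_snd.tendsto _).comp h0
  refine ⟨⟨Eventually.of_forall fun k => deg_num n _, deg_num n _, fun j => ?_⟩,
    ⟨Eventually.of_forall fun k => deg_den n _, deg_den n _, fun j => ?_⟩⟩
  · simp only [RatMap.num, coeff_num]
    exact tends n l _ _ h1 _ _
  · simp only [RatMap.den, coeff_den]
    have := tends n l _ _ h2 (fun i : Fin n => (X ^ (i : ℕ) : ℂ[X]).coeff j) 0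
    simpa using this

end Pool.Agent.MAT
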