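import Pool.Agent.MAT.T

/-! MAT: XPO -/

set_option autoImplicit false

open Polynomial Metric Set Filter Topology

noncomputable section

namespace Pool.Agent.MAT

namespace XPO_

/-- an attracting fixed point attracts a neighbourhood -/
theorem attr {f : ℂ → ℂ} {z₁ μ : ℂ} (hf : HasDerivAt f μ z₁) (hfix : f z₁ = z₁) (hμ : ‖μ‖ < 1) :
    ∃ r : ℝ, 0 < r ∧ ∀ z ∈ ball z₁ r, Tendsto (fun m : ℕ => f^[m] z) atTop (𝓝 z₁) := by
  obtain ⟨c, hc1, hc2⟩ := exists_between hμ
  have hc0 : 0 ≤ c := (norm_nonneg μ).trans hc1.le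
  have h1 : ∀ᶠ z in 𝓝 z₁, ‖f z - f z₁ - (z - z₁) * μ‖ ≤ (c - ‖μ‖) * ‖z - z₁‖ := by
    have h2 := hf.isLittleO.def (sub_pos.2 hc1)
    filter_upwards [h2] with z hz
    simpa [mul_comm] using hz
  have h3 : ∀ᶠ z in 𝓝 z₁, ‖f z - z₁‖ ≤ c * ‖z - z₁‖ := by
    filter_upwards [h1] with z hz
    rw [hfix] at hz
    have h4 : f z - z₁ = (f z - z₁ - (z - z₁) * μ) + (z - z₁) * μ := by ring
    calc ‖f z - z₁‖ ≤ ‖f z - z₁ - (z - z₁) * μ‖ + ‖(z - z₁) * μ‖ := by
          conv_lhs => rw [h4]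
          exact norm_add_le _ _
      _ ≤ (c - ‖μ‖) * ‖z - z₁‖ + ‖z - z₁‖ * ‖μ‖ := by
          rw [norm_mul]; exact add_le_add_left hz _
      _ = c * ‖z - z₁‖ := by ring
  obtain ⟨r, hr, hball⟩ := Metric.eventually_nhds_iff_ball.1 h3
  refine ⟨r, hr, fun z hz => ?_⟩
  have h5 : ∀ m : ℕ, ‖f^[m] z - z₁‖ ≤ c ^ m * ‖z - z₁‖ := by
    intro m
    induction m with
    | zero => simp
    | succ m ih =>
      rw [Function.iterate_succ_apply']
      have h6 : f^[m] z ∈ ball z₁ r := by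
        rw [mem_ball, dist_eq_norm] at hz ⊢
        calc ‖f^[m] z - z₁‖ ≤ c ^ m * ‖z - z₁‖ := ih
          _ ≤ 1 * ‖z - z₁‖ := by
            gcongr
            exact pow_le_one₀ hc0 hc2.le
          _ < r := by rw [one_mul]; exact hz
      calc ‖f (f^[m] z) - z₁‖ ≤ c * ‖f^[m] z - z₁‖ := hball _ h6
        _ ≤ c * (c ^ m * ‖z - z₁‖) := by gcongr
        _ = c ^ (m + 1) * ‖z - z₁‖ := by ring
  rw [tendsto_iff_norm_sub_tendsto_zero]
  have h7 : Tendsto (fun m : ℕ => c ^ m * ‖z - z₁‖) atTop (𝓝 0) := by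
    simpa using (tendsto_pow_atTop_nhds_zero_of_lt_one hc0 hc2).mul_const ‖z - z₁‖
  exact squeeze_zero (fun _ => norm_nonneg _) h5 h7

end XPO_

open XPO_ in
theorem p_XPO (hBLA : T_BLA) (hXAS : T_XAS) (hLAB : T_LAB) (hGEL : T_GEL) (hXPW : T_XPW) :
    T_XPO := by
  intro n e μ p B b N D φ ψ hn he he2 hμ0 hμ1 hp hB hND hD0 hrf hM
  have hn2 : 2 ≤ n := by omega
  obtain ⟨g1, g2, -⟩ := hGEL n e hn he he2
  obtain ⟨hB0, hBd, hBc, hBlt, hBeq, hBt, -⟩ := hBLA n B hn2 hB.1
  obtain ⟨ϕ, R, hAs, hϕφ, hOut⟩ := hXAS n (fun z => z ^ n) B 1 b N D φ ψ hn2 (hXPW n hn2) hB hND hM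
  obtain ⟨hOo, -, -, -, -, hesc, -⟩ := hLAB n (fun z => z ^ n) N D R ϕ hn2 (hXPW n hn2).1 hND hAs
  set f : ℂ → ℂ := rf N D with hf
  -- conjugacy with GF
  have hfm : ∀ (m : ℕ) (z : ℂ), f^[m] z = (GF n e μ)^[m] (p + z) - p := by
    intro m
    induction m with
    | zero => intro z; simp
    | succ m ih =>
      intro z
      rw [Function.iterate_succ_apply, Function.iterate_succ_apply, ih, hrf]
      congr 2
      ring
  have hbasiff : ∀ v : ℂ, v ∈ Bas n e μ ↔ Tendsto (fun m : ℕ => f^[m] (v - p)) atTop (𝓝 (1 - p)) := by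
    intro v
    have h1 : (fun m : ℕ => f^[m] (v - p)) = fun m : ℕ => (GF n e μ)^[m] v - p := by
      funext m
      rw [hfm, add_sub_cancel]
    rw [h1]
    constructor
    · intro h; exact Tendsto.sub_const h p
    · intro h
      have h2 := h.add_const p
      change Tendsto (fun m : ℕ => (GF n e μ)^[m] v) atTop (𝓝 1)
      simpa using h2
  -- the fixed point
  have hF1 : GF n e μ 1 = 1 := by simp [GF, g1]
  have hfix : f (1 - p) = 1 - p := by
    rw [hrf, add_sub_cancel, hF1]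
  have hder : HasDerivAt f μ (1 - p) := by
    have h1 : f = fun z => GF n e μ (p + z) - p := by funext z; exact hrf z
    rw [h1]
    have h2 : HasDerivAt (GG n e) 1 1 := by
      have h3 := g2 1
      have h4 : ((1 : ℂ)) ^ (n - 2) * (1 + e) / (1 + e) = 1 := by
        rw [one_pow, one_mul, div_self]
        have : (1 : ℝ) + e ≠ 0 := by linarith
        exact_mod_cast this
      rwa [h4] at h3
    have h5 : HasDerivAt (GF n e μ) μ (p + (1 - p)) := by
      rw [add_sub_cancel]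
      have h6 : HasDerivAt (fun v => 1 + μ * (GG n e v - 1)) (μ * 1) 1 :=
        ((h2.sub_const 1).const_mul μ).const_add 1
      rw [mul_one] at h6
      exact h6
    have h7 : HasDerivAt (fun z => GF n e μ (p + z)) μ (1 - p) := by
      have h8 := h5.comp (1 - p) ((hasDerivAt_id (1 - p)).const_add p)
      rw [mul_one] at h8
      exact h8
    exact h7.sub_const p
  obtain ⟨r, hr, hattr⟩ := attr hder hfix hμ1
  -- points of the outside escape
  have hnot : ∀ z : ℂ, Tendsto (fun m : ℕ => f^[m] z) atTop (𝓝 (1 - p)) → z ∉ Out ϕ := by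
    intro z hz hzO
    have h1 := hesc z hzO fun m => hD0 _
    have h2 : Tendsto (fun m : ℕ => ‖f^[m] z‖) atTop (𝓝 ‖1 - p‖) := hz.norm
    exact not_tendsto_nhds_of_tendsto_atTop h1 _ h2
  have hfixt : ∀ m : ℕ, f^[m] (1 - p) = 1 - p := fun m => Function.iterate_fixed hfix m
  have hfixnot : (1 - p) ∉ Out ϕ := by
    apply hnot
    simp only [hfixt]
    exact tendsto_const_nhds
  obtain ⟨w₁, hw₁, hψw₁⟩ := (hOut _).1 hfixnot
  -- B preserves the closed ball
  have hBball : ∀ w ∈ ball (0 : ℂ) 1, B w ∈ ball (0 : ℂ) 1 := by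
    intro w hw
    rcases eq_or_ne w 0 with h0 | h0
    · rw [h0, hB0]; simp
    · have h1 := hBlt w hw h0
      rw [mem_ball_zero_iff] at hw ⊢
      linarith
  have hBcb : ∀ w ∈ closedBall (0 : ℂ) 1, B w ∈ closedBall (0 : ℂ) 1 := by
    intro w hw
    rcases eq_or_lt_of_le (mem_closedBall_zero_iff.1 hw) with h0 | h0
    · rw [mem_closedBall_zero_iff, (hBeq w hw).2 h0]
    · exact ball_subset_closedBall (hBball w (mem_ball_zero_iff.2 h0))
  have hBcbm : ∀ (m : ℕ), ∀ w ∈ closedBall (0 : ℂ) 1, B^[m] w ∈ closedBall (0 : ℂ) 1 := by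
    intro m
    induction m with
    | zero => intro w hw; simpa using hw
    | succ m ih => intro w hw; rw [Function.iterate_succ_apply]; exact ih _ (hBcb w hw)
  have hBballm : ∀ (m : ℕ), ∀ w ∈ ball (0 : ℂ) 1, B^[m] w ∈ ball (0 : ℂ) 1 := by
    intro m
    induction m with
    | zero => intro w hw; simpa using hw
    | succ m ih => intro w hw; rw [Function.iterate_succ_apply]; exact ih _ (hBball w hw)
  have hψc : ∀ w ∈ closedBall (0 : ℂ) 1, f (ψ w) = ψ (B w) := by
    intro w hw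
    have h1 := hM.ψ_conj w hw
    rw [hf]
    unfold rf
    rw [h1, mul_div_assoc, div_self (hD0 _), mul_one]
  have hψm : ∀ (m : ℕ), ∀ w ∈ closedBall (0 : ℂ) 1, f^[m] (ψ w) = ψ (B^[m] w) := by
    intro m
    induction m with
    | zero => intro w hw; rfl
    | succ m ih =>
      intro w hw
      rw [Function.iterate_succ_apply, Function.iterate_succ_apply, hψc w hw, ih _ (hBcb w hw)]
  -- orbits in the ball
  have hψ0 : ContinuousAt ψ 0 :=
    hM.ψ_cont.continuousAt (closedBall_mem_nhds _ one_pos)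
  have hball : ∀ w ∈ ball (0 : ℂ) 1, Tendsto (fun m : ℕ => f^[m] (ψ w)) atTop (𝓝 (ψ 0)) := by
    intro w hw
    have h1 : (fun m : ℕ => f^[m] (ψ w)) = fun m : ℕ => ψ (B^[m] w) := by
      funext m; exact hψm m w (ball_subset_closedBall hw)
    rw [h1]
    exact hψ0.tendsto.comp (hBt w hw)
  -- the fixed point is inside
  have hw₁' : w₁ ∈ ball (0 : ℂ) 1 := by
    rcases eq_or_lt_of_le (mem_closedBall_zero_iff.1 hw₁) with h0 | h0
    · exfalso
      have h1 : (1 - p) ∈ φ '' sphere 0 1 := by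
        rw [hM.circ, ← hψw₁]
        exact ⟨w₁, mem_sphere_zero_iff_norm.2 h0, rfl⟩
      obtain ⟨ζ, hζ, hφζ⟩ := h1
      have hζ1 : ‖ζ‖ = 1 := mem_sphere_zero_iff_norm.1 hζ
      have hζ0 : ζ ≠ 0 := by
        intro h; rw [h, norm_zero] at hζ1; exact zero_ne_one hζ1
      -- the radial segment
      have hmem : ∀ t : ℝ, 0 < t → t < 1 → (t : ℂ) * ζ ∈ ball (0 : ℂ) 1 ∧ (t : ℂ) * ζ ≠ 0 := by
        intro t ht0 ht1
        constructor
        · rw [mem_ball_zero_iff, norm_mul, hζ1, mul_one, Complex.norm_real, Real.norm_eq_abs,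
            abs_of_pos ht0]
          exact ht1
        · exact mul_ne_zero (by exact_mod_cast ht0.ne') hζ0
      have hcont : Tendsto (fun t : ℝ => φ ((t : ℂ) * ζ)) (𝓝[Ioo 0 1] (1 : ℝ)) (𝓝 (φ ζ)) := by
        have h2 : ContinuousWithinAt φ (closedBall 0 1 \ {0}) ζ :=
          hM.φ_cont ζ ⟨mem_closedBall_zero_iff.2 hζ1.le, by simpa using hζ0⟩
        have h3 : Tendsto (fun t : ℝ => (t : ℂ) * ζ) (𝓝[Ioo 0 1] (1 : ℝ))
            (𝓝[closedBall 0 1 \ {0}] ζ) := by
          rw [tendsto_nhdsWithin_iff]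
          constructor
          · have h4 : Tendsto (fun t : ℝ => (t : ℂ) * ζ) (𝓝 (1 : ℝ)) (𝓝 (((1 : ℝ) : ℂ) * ζ)) :=
              (Complex.continuous_ofReal.tendsto 1).mul_const ζ
            simp only [Complex.ofReal_one, one_mul] at h4
            exact h4.mono_left nhdsWithin_le_nhds
          · filter_upwards [self_mem_nhdsWithin] with t ht
            obtain ⟨h5, h6⟩ := hmem t ht.1 ht.2
            exact ⟨ball_subset_closedBall h5, by simpa using h6⟩
        exact h2.tendsto.comp h3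
      have hne : (𝓝[Ioo 0 1] (1 : ℝ)).NeBot := by
        rw [← mem_closure_iff_nhdsWithin_neBot, closure_Ioo zero_ne_one]
        simp
      have hev : ∀ᶠ t : ℝ in 𝓝[Ioo 0 1] (1 : ℝ), φ ((t : ℂ) * ζ) ∈ ball (1 - p) r := by
        rw [hφζ] at hcont
        exact hcont (ball_mem_nhds _ hr)
      obtain ⟨t, ht1, ht2⟩ := (hev.and self_mem_nhdsWithin).exists
      obtain ⟨h5, h6⟩ := hmem t ht2.1 ht2.2
      exact hnot _ (hattr _ ht1) ⟨_, h5, hϕφ _ h5 h6⟩
    · exact mem_ball_zero_iff.2 h0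
  have hψz : ψ 0 = 1 - p := by
    have h1 := hball w₁ hw₁'
    rw [hψw₁] at h1
    simp only [hfixt] at h1
    exact (tendsto_nhds_unique h1 tendsto_const_nhds)
  intro v
  constructor
  · intro hv
    have hv' := (hbasiff v).1 hv
    obtain ⟨w, hw, hψw⟩ := (hOut _).1 (hnot _ hv')
    refine ⟨w, ?_, by rw [hψw]; ring⟩
    rcases eq_or_lt_of_le (mem_closedBall_zero_iff.1 hw) with h0 | h0
    · exfalso
      have hsph : ∀ m : ℕ, B^[m] w ∈ sphere (0 : ℂ) 1 := by
        intro m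
        induction m with
        | zero => simpa using h0
        | succ m ih =>
          rw [Function.iterate_succ_apply', mem_sphere_zero_iff_norm]
          have h1 := mem_sphere_zero_iff_norm.1 ih
          exact (hBeq _ (mem_closedBall_zero_iff.2 h1.le)).2 h1
      obtain ⟨w', hw', ks, hks, hlim⟩ := (isCompact_sphere (0 : ℂ) 1).tendsto_subseq hsph
      have hw'1 : ‖w'‖ = 1 := mem_sphere_zero_iff_norm.1 hw'
      have hcb : w' ∈ closedBall (0 : ℂ) 1 := mem_closedBall_zero_iff.2 hw'1.le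
      have h2 : Tendsto (fun j : ℕ => ψ (B^[ks j] w)) atTop (𝓝 (ψ w')) := by
        have h3 : Tendsto (fun j : ℕ => B^[ks j] w) atTop (𝓝[closedBall 0 1] w') := by
          rw [tendsto_nhdsWithin_iff]
          exact ⟨hlim, Eventually.of_forall fun j => sphere_subset_closedBall (hsph _)⟩
        exact (hM.ψ_cont w' hcb).tendsto.comp h3
      have h4 : Tendsto (fun j : ℕ => ψ (B^[ks j] w)) atTop (𝓝 (1 - p)) := by
        have h5 : (fun j : ℕ => ψ (B^[ks j] w)) = fun j : ℕ => f^[ks j] (v - p) := by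
          funext j
          rw [← hψm _ w hw, hψw]
        rw [h5]
        exact hv'.comp hks.tendsto_atTop
      have h6 := tendsto_nhds_unique h2 h4
      rw [← hψz] at h6
      have h7 := hM.ψ_inj hcb (mem_closedBall_self zero_le_one) h6
      rw [h7, norm_zero] at hw'1
      exact zero_ne_one hw'1
    · exact mem_ball_zero_iff.2 h0
  · rintro ⟨w, hw, rfl⟩
    rw [hbasiff, add_sub_cancel_left]
    have h1 := hball w hw
    rwa [hψz] at h1

end Pool.Agent.MAT
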