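import Pool.Agent.MAT.T

/-!
# MAT: XPW, `z ↦ z ^ n` is a marked Blaschke product
-/

set_option autoImplicit false

open Polynomial Metric Set Filter Topology

noncomputable section

namespace Pool.Agent.MAT

theorem p_XPW : T_XPW := by
  intro n hn
  refine ⟨⟨1, fun _ => 0, by simp, fun _ => by simp, ⟨⟨0, by omega⟩, rfl⟩, fun z _ => ?_⟩,
    by simp, by simp⟩
  simp

end Pool.Agent.MAT
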