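import Pool.Agent.MAT.T

/-!
# MAT, job XRE: the marked point `0` is not attracting
-/

set_option autoImplicit false

open Polynomial Metric Set Filter Topology

noncomputable section

namespace Pool.Agent.MAT

namespace XRE_

/-- an attracting fixed point at `0` has small discs which are mapped into themselves -/
theorem local_disc (N D : ℂ[X]) (hN : N.eval 0 = 0) (hD : D.eval 0 ≠ 0)
    (hl : ‖(derivative N).eval 0 / D.eval 0‖ < 1) :
    ∃ r : ℝ, 0 < r ∧ ∀ z : ℂ, ‖z‖ < r → D.eval z ≠ 0 ∧ ‖N.eval z / D.eval z‖ ≤ ‖z‖ := by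
  have hg : HasDerivAt (fun z => N.eval z / D.eval z) ((derivative N).eval 0 / D.eval 0) 0 := by
    have h := (N.hasDerivAt 0).div (D.hasDerivAt 0) hD
    have h2 : (eval 0 (derivative N) * eval 0 D - eval 0 N * eval 0 (derivative D)) /
        eval 0 D ^ 2 = (derivative N).eval 0 / D.eval 0 := by
      rw [hN]
      field_simp
      ring
    rw [h2] at h
    exact h
  have h1 := hg.isLittleO.def (sub_pos.2 hl)
  have h2 : ∀ᶠ z in 𝓝 (0 : ℂ), D.eval z ≠ 0 :=
    (D.continuous.tendsto 0).eventually_ne hD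
  obtain ⟨r, hr, hr2⟩ := Metric.eventually_nhds_iff.1 (h1.and h2)
  refine ⟨r, hr, fun z hz => ?_⟩
  obtain ⟨h3, h4⟩ := hr2 (y := z) (by rwa [dist_zero_right])
  refine ⟨h4, ?_⟩
  simp only [hN, zero_div, sub_zero, smul_eq_mul] at h3
  have h5 : ‖N.eval z / D.eval z‖ ≤
      ‖N.eval z / D.eval z - z * ((derivative N).eval 0 / D.eval 0)‖ +
        ‖z * ((derivative N).eval 0 / D.eval 0)‖ := by
    have := norm_add_le (N.eval z / D.eval z - z * ((derivative N).eval 0 / D.eval 0))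
      (z * ((derivative N).eval 0 / D.eval 0))
    rwa [sub_add_cancel] at this
  rw [norm_mul] at h5
  nlinarith [norm_nonneg z, norm_nonneg ((derivative N).eval 0 / D.eval 0)]

end XRE_

theorem p_XRE (hBLA : T_BLA) : T_XRE := by
  intro n A B a b N D φ ψ hn hA hB hND hM
  by_contra hlt
  rw [not_le] at hlt
  obtain ⟨hA0, -, -, hAlt, -, hAit, -⟩ := hBLA n A hn hA.1
  have hbc : b ∈ closedBall (0 : ℂ) 1 := by
    rw [mem_closedBall_zero_iff]; exact hB.2.1.le
  have hN0 : N.eval 0 = 0 := by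
    have h := hM.ψ_conj b hbc
    rw [hM.mark.2, hB.2.2, hM.mark.2, zero_mul] at h
    exact h
  have hD0 : D.eval 0 ≠ 0 := by
    intro h0
    obtain ⟨u, v, huv⟩ := hND.cop
    have := congrArg (Polynomial.eval 0) huv
    rw [eval_add, eval_mul, eval_mul, hN0, h0, mul_zero, mul_zero, add_zero, eval_one] at this
    exact zero_ne_one this
  obtain ⟨r, hr, hrr⟩ := XRE_.local_disc N D hN0 hD0 hlt
  -- a point `ζ` of the open disc close to `a` with `φ ζ` small
  have ha1 : a ∈ closedBall (0 : ℂ) 1 \ {0} := by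
    refine ⟨by rw [mem_closedBall_zero_iff]; exact hA.2.1.le, ?_⟩
    intro h
    have h1 := hA.2.1
    rw [h, norm_zero] at h1
    exact zero_ne_one h1
  have hcont := hM.φ_cont a ha1
  have hcl : a ∈ closure (ball (0 : ℂ) 1 \ {0}) := by
    have : (fun t : ℝ => (t : ℂ) * a) 1 ∈ closure (ball (0 : ℂ) 1 \ {0}) := by
      have ht : Tendsto (fun t : ℝ => (t : ℂ) * a) (𝓝[<] 1) (𝓝 ((fun t : ℝ => (t : ℂ) * a) 1)) := by
        have hc : Continuous (fun t : ℝ => (t : ℂ) * a) := by fun_prop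
        exact (hc.tendsto 1).mono_left nhdsWithin_le_nhds
      refine mem_closure_of_tendsto ht ?_
      have h1 : ∀ᶠ t : ℝ in 𝓝[<] 1, 0 < t :=
        nhdsWithin_le_nhds (lt_mem_nhds (by norm_num : (0 : ℝ) < 1))
      filter_upwards [h1, self_mem_nhdsWithin] with t ht0 ht1
      refine ⟨?_, ?_⟩
      · rw [mem_ball_zero_iff, norm_mul, hA.2.1, mul_one, Complex.norm_real, Real.norm_eq_abs,
          abs_of_pos ht0]
        exact ht1
      · intro h
        rcases mul_eq_zero.1 (show (t : ℂ) * a = 0 from h) with h | h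
        · exact ht0.ne' (by exact_mod_cast h)
        · exact ha1.2 h
    simpa using this
  have hsub : ball (0 : ℂ) 1 \ {0} ⊆ closedBall (0 : ℂ) 1 \ {0} :=
    fun z hz => ⟨ball_subset_closedBall hz.1, hz.2⟩
  have htd : Tendsto φ (𝓝[ball (0 : ℂ) 1 \ {0}] a) (𝓝 0) := by
    have := hcont.mono hsub
    rw [ContinuousWithinAt, hM.mark.1] at this
    exact this
  haveI : (𝓝[ball (0 : ℂ) 1 \ {0}] a).NeBot := mem_closure_iff_nhdsWithin_neBot.1 hcl
  obtain ⟨ζ, hζ1, hζ2⟩ := ((htd.eventually (ball_mem_nhds 0 hr)).and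
    self_mem_nhdsWithin).exists
  -- the orbit of `ζ`
  have horb : ∀ m : ℕ, A^[m] ζ ∈ ball (0 : ℂ) 1 ∧ A^[m] ζ ≠ 0 ∧ ‖φ (A^[m] ζ)‖ < r := by
    intro m
    induction m with
    | zero => exact ⟨hζ2.1, hζ2.2, by simpa using hζ1⟩
    | succ m ih =>
      obtain ⟨h1, h2, h3⟩ := ih
      rw [Function.iterate_succ_apply']
      obtain ⟨h4, h5⟩ := hrr _ h3
      have hne : A (A^[m] ζ) ≠ 0 := by
        intro h0
        exact h4 (hM.φ_conj_zero _ (hsub ⟨h1, h2⟩) h0)
      have hc := hM.φ_conj _ (hsub ⟨h1, h2⟩) hne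
      refine ⟨?_, hne, ?_⟩
      · rw [mem_ball_zero_iff] at h1 ⊢
        exact (hAlt _ (by rwa [mem_ball_zero_iff]) h2).trans h1
      · have : φ (A (A^[m] ζ)) = N.eval (φ (A^[m] ζ)) / D.eval (φ (A^[m] ζ)) := by
          rw [eq_div_iff h4, ← hc]
        rw [this]
        exact h5.trans_lt h3
  have hlim : Tendsto (fun m : ℕ => A^[m] ζ) atTop (𝓝[≠] 0) :=
    tendsto_nhdsWithin_iff.2 ⟨hAit ζ hζ2.1, Eventually.of_forall fun m => (horb m).2.1⟩
  obtain ⟨m, hm⟩ := ((hM.φ_pole.comp hlim).eventually_ge_atTop r).exists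
  exact absurd (horb m).2.2 (not_lt.2 hm)

end Pool.Agent.MAT
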