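import Pool.Agent.MAT.T

/-!
# MAT: XRS, a mating for one representative gives one for every other representative
-/

set_option autoImplicit false

open Polynomial Metric Set Filter Topology

noncomputable section

namespace Pool.Agent.MAT

namespace XRS_

lemma num_eval {n : ℕ} {c : ℂ} {x y : RatMap n} (h : ScaleBy c x y) (z : ℂ) :
    y.num.eval (c * z) = c ^ n * x.num.eval z := by
  obtain ⟨-, h1, -⟩ := h
  unfold RatMap.num numP
  simp only [eval_add, eval_pow, eval_X, eval_finsetSum, eval_mul, eval_C, mul_add,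
    Finset.mul_sum]
  congr 1
  · rw [mul_pow]
  · refine Finset.sum_congr rfl fun i _ => ?_
    have h2 : c ^ n = c ^ (n - (i : ℕ)) * c ^ (i : ℕ) := by
      rw [← pow_add, Nat.sub_add_cancel i.2.le]
    rw [h1 i, h2, mul_pow]
    ring

lemma den_eval {n : ℕ} {c : ℂ} {x y : RatMap n} (h : ScaleBy c x y) (z : ℂ) :
    y.den.eval (c * z) = c ^ (n - 1) * x.den.eval z := by
  obtain ⟨-, -, h1⟩ := h
  unfold RatMap.den denP
  simp only [eval_pow, eval_X, eval_finsetSum, eval_mul, eval_C, Finset.mul_sum]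
  refine Finset.sum_congr rfl fun i _ => ?_
  have hi := i.2
  have h2 : c ^ (n - 1) = c ^ (n - 1 - (i : ℕ)) * c ^ (i : ℕ) := by
    rw [← pow_add, Nat.sub_add_cancel (by omega)]
  rw [h1 i, h2, mul_pow]
  ring

end XRS_

open XRS_ in
theorem p_XRS : T_XRS := by
  intro n A B a b x y φ ψ hn hxy hM
  obtain ⟨c, hc⟩ : ∃ c : ℂ, ScaleBy c x y := Quotient.exact hxy
  have hc0 := hc.1
  have hcn : c ^ n = c * c ^ (n - 1) := by
    rw [← pow_succ', Nat.sub_add_cancel hn]
  refine ⟨fun z => c * φ z, fun z => c * ψ z, ?_⟩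
  refine
    { φ_cont := continuousOn_const.mul hM.φ_cont
      φ_hol := hM.φ_hol.const_mul c
      φ_inj := fun z hz w hw h => hM.φ_inj hz hw (mul_left_cancel₀ hc0 h)
      φ_pole := ?_
      ψ_cont := continuousOn_const.mul hM.ψ_cont
      ψ_hol := hM.ψ_hol.const_mul c
      ψ_inj := fun z hz w hw h => hM.ψ_inj hz hw (mul_left_cancel₀ hc0 h)
      cover := ?_
      sep := fun z hz w hw h => hM.sep z hz w hw (mul_left_cancel₀ hc0 h)
      circ := ?_
      φ_conj := ?_
      φ_conj_zero := ?_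
      ψ_conj := ?_
      mark := ⟨by rw [hM.mark.1, mul_zero], by rw [hM.mark.2, mul_zero]⟩ }
  · simp only [norm_mul]
    exact hM.φ_pole.const_mul_atTop (norm_pos_iff.mpr hc0)
  · intro z
    have hz : c * (z / c) = z := mul_div_cancel₀ z hc0
    rcases hM.cover (z / c) with ⟨w, hw, h⟩ | ⟨w, hw, h⟩
    · exact Or.inl ⟨w, hw, by rw [h, hz]⟩
    · exact Or.inr ⟨w, hw, by rw [h, hz]⟩
  · have h1 : (fun z => c * φ z) '' sphere 0 1 = (fun v => c * v) '' (φ '' sphere 0 1) := by
      rw [image_image]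
    have h2 : (fun z => c * ψ z) '' sphere 0 1 = (fun v => c * v) '' (ψ '' sphere 0 1) := by
      rw [image_image]
    rw [h1, h2, hM.circ]
  · intro z hz hA
    rw [num_eval hc, den_eval hc, hM.φ_conj z hz hA, hcn]
    ring
  · intro z hz hA
    rw [den_eval hc, hM.φ_conj_zero z hz hA, mul_zero]
  · intro w hw
    rw [num_eval hc, den_eval hc, hM.ψ_conj w hw, hcn]
    ring

end Pool.Agent.MAT
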