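import Pool.Agent.MAT.T

/-! MAT: XSE -/

set_option autoImplicit false

open Polynomial Metric Set Filter Topology

noncomputable section

namespace Pool.Agent.MAT

namespace XSE_

theorem numP_coeff {n : ℕ} (u : Fin n → ℂ) (i : Fin n) : (numP n u).coeff i = u i := by
  unfold numP
  rw [coeff_add, coeff_X_pow, if_neg (by have := i.2; omega), zero_add, finsetSum_coeff]
  rw [Finset.sum_eq_single i]
  · rw [coeff_C_mul, coeff_X_pow, if_pos rfl, mul_one]
  · intro b _ hb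
    rw [coeff_C_mul, coeff_X_pow, if_neg (fun h => hb (Fin.ext h.symm)), mul_zero]
  · intro h; exact absurd (Finset.mem_univ i) h

theorem numP_coeff_n {n : ℕ} (u : Fin n → ℂ) : (numP n u).coeff n = 1 := by
  unfold numP
  rw [coeff_add, coeff_X_pow, if_pos rfl, finsetSum_coeff, Finset.sum_eq_zero, add_zero]
  intro b _
  rw [coeff_C_mul, coeff_X_pow, if_neg (by have := b.2; omega), mul_zero]

/-- coefficients of the numerator -/
def U (n : ℕ) (e : ℝ) (μ p : ℂ) (i : Fin n) : ℂ :=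
  p ^ (n - (i : ℕ)) * (n.choose i : ℂ) +
    (n : ℂ) * e / ((n : ℂ) - 1) * (p ^ (n - 1 - (i : ℕ)) * ((n - 1).choose i : ℂ)) +
    if (i : ℕ) = 0 then (n : ℂ) * (1 + e) * (1 - p) / μ - 1 - (n : ℂ) * e / ((n : ℂ) - 1) else 0

/-- coefficients of the denominator -/
def V (n : ℕ) (e : ℝ) (μ : ℂ) (i : Fin n) : ℂ :=
  if (i : ℕ) = 0 then (n : ℂ) * (1 + e) / μ else 0

theorem eval_U {n : ℕ} (hn : 3 ≤ n) (e : ℝ) (μ p z : ℂ) :
    (numP n (U n e μ p)).eval z = ((p + z) ^ n - 1) +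
      (n : ℂ) * e / ((n : ℂ) - 1) * ((p + z) ^ (n - 1) - 1) +
      (n : ℂ) * (1 + e) * (1 - p) / μ := by
  obtain ⟨m, rfl⟩ : ∃ m, n = m + 1 := ⟨n - 1, by omega⟩
  unfold numP
  rw [eval_add, eval_pow, eval_X, eval_finsetSum]
  simp only [eval_mul, eval_C, eval_pow, eval_X]
  have h1 : (p + z) ^ (m + 1) = z ^ (m + 1) +
      ∑ i : Fin (m + 1), p ^ (m + 1 - (i : ℕ)) * ((m + 1).choose i : ℂ) * z ^ (i : ℕ) := by
    rw [add_comm p z, add_pow, Finset.sum_range_succ]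
    rw [Fin.sum_univ_eq_sum_range
      (fun i => p ^ (m + 1 - i) * ((m + 1).choose i : ℂ) * z ^ i) (m + 1)]
    simp only [Nat.sub_self, pow_zero, mul_one, Nat.choose_self, Nat.cast_one]
    rw [add_comm]
    congr 1
    refine Finset.sum_congr rfl fun i _ => ?_
    ring
  have h2 : (p + z) ^ m =
      ∑ i : Fin (m + 1), p ^ (m - (i : ℕ)) * (m.choose i : ℂ) * z ^ (i : ℕ) := by
    rw [add_comm p z, add_pow]
    rw [Fin.sum_univ_eq_sum_range (fun i => p ^ (m - i) * (m.choose i : ℂ) * z ^ i) (m + 1)]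
    refine Finset.sum_congr rfl fun i _ => ?_
    ring
  have h3 : ∑ i : Fin (m + 1), (if (i : ℕ) = 0 then ((m + 1 : ℕ) : ℂ) * (1 + e) * (1 - p) / μ - 1 -
      ((m + 1 : ℕ) : ℂ) * e / (((m + 1 : ℕ) : ℂ) - 1) else 0) * z ^ (i : ℕ) =
      ((m + 1 : ℕ) : ℂ) * (1 + e) * (1 - p) / μ - 1 -
      ((m + 1 : ℕ) : ℂ) * e / (((m + 1 : ℕ) : ℂ) - 1) := by
    rw [Finset.sum_eq_single (0 : Fin (m + 1))]
    · simp
    · intro b _ hb
      rw [if_neg (fun h => hb (Fin.ext (by simpa using h))), zero_mul]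
    · intro h; exact absurd (Finset.mem_univ _) h
  have h4 : ∑ i : Fin (m + 1), U (m + 1) e μ p i * z ^ (i : ℕ) =
      (∑ i : Fin (m + 1), p ^ (m + 1 - (i : ℕ)) * ((m + 1).choose i : ℂ) * z ^ (i : ℕ)) +
      ((m + 1 : ℕ) : ℂ) * e / (((m + 1 : ℕ) : ℂ) - 1) *
        (∑ i : Fin (m + 1), p ^ (m - (i : ℕ)) * (m.choose i : ℂ) * z ^ (i : ℕ)) +
      ∑ i : Fin (m + 1), (if (i : ℕ) = 0 then ((m + 1 : ℕ) : ℂ) * (1 + e) * (1 - p) / μ - 1 -
      ((m + 1 : ℕ) : ℂ) * e / (((m + 1 : ℕ) : ℂ) - 1) else 0) * z ^ (i : ℕ) := by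
    rw [Finset.mul_sum, ← Finset.sum_add_distrib, ← Finset.sum_add_distrib]
    refine Finset.sum_congr rfl fun i _ => ?_
    simp only [U, Nat.add_sub_cancel]
    ring
  rw [h4, h3, ← h2, h1]
  simp only [Nat.add_sub_cancel]
  ring

theorem denP_V {n : ℕ} (hn : 3 ≤ n) (e : ℝ) (μ : ℂ) :
    denP n (V n e μ) = C ((n : ℂ) * (1 + e) / μ) := by
  unfold denP
  rw [Finset.sum_eq_single (⟨0, by omega⟩ : Fin n)]
  · simp [V]
  · intro b _ hb
    have : (b : ℕ) ≠ 0 := fun h => hb (Fin.ext h)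
    simp [V, this]
  · intro h; exact absurd (Finset.mem_univ _) h

theorem eval_GF {n : ℕ} (hn : 3 ≤ n) {e : ℝ} (he : 0 < e) {μ : ℂ} (hμ : μ ≠ 0) (p z : ℂ) :
    (numP n (U n e μ p)).eval z = (n : ℂ) * (1 + e) / μ * (GF n e μ (p + z) - p) := by
  rw [eval_U hn]
  have h1 : (n : ℂ) ≠ 0 := by exact_mod_cast (by omega : n ≠ 0)
  have h2 : (n : ℂ) - 1 ≠ 0 := by
    intro h
    have : (n : ℂ) = ((1 : ℕ) : ℂ) := by rw [Nat.cast_one]; linear_combination h
    have : n = 1 := by exact_mod_cast this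
    omega
  have h3 : (1 : ℂ) + e ≠ 0 := by
    have : (1 : ℝ) + e ≠ 0 := by linarith
    exact_mod_cast this
  unfold GF GG
  field_simp
  ring

theorem exists_x {n : ℕ} (hn : 3 ≤ n) {e : ℝ} (he : 0 < e) {μ p : ℂ} (hμ : μ ≠ 0)
    (hp : GF n e μ p = p) :
    (numP n (U n e μ p)).eval 0 = 0 ∧ IsCoprime (numP n (U n e μ p)) (denP n (V n e μ)) := by
  constructor
  · rw [eval_GF hn he hμ, add_zero, hp, sub_self, mul_zero]
  · rw [denP_V hn]
    have h1 : (n : ℂ) * (1 + e) / μ ≠ 0 := by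
      have h1 : (n : ℂ) ≠ 0 := by exact_mod_cast (by omega : n ≠ 0)
      have h3 : (1 : ℂ) + e ≠ 0 := by
        have : (1 : ℝ) + e ≠ 0 := by linarith
        exact_mod_cast this
      positivity
    refine ⟨0, C ((n : ℂ) * (1 + e) / μ)⁻¹, ?_⟩
    rw [zero_mul, zero_add, ← C_mul, inv_mul_cancel₀ h1, C_1]

theorem xr_mk {n : ℕ} (hn : 3 ≤ n) {e : ℝ} (he : 0 < e) {μ p : ℂ} (hμ : μ ≠ 0)
    (hp : GF n e μ p = p) :
    XR n e μ p (⟨(U n e μ p, V n e μ), exists_x hn he hμ hp⟩ : RatMap n) := by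
  have h1 : (n : ℂ) * (1 + e) / μ ≠ 0 := by
    have h1 : (n : ℂ) ≠ 0 := by exact_mod_cast (by omega : n ≠ 0)
    have h3 : (1 : ℂ) + e ≠ 0 := by
      have : (1 : ℝ) + e ≠ 0 := by linarith
      exact_mod_cast this
    positivity
  refine ⟨fun i hi => ?_, fun z => ?_, fun z => ?_⟩
  · simp [V, hi]
  · change (denP n (V n e μ)).eval z ≠ 0
    rw [denP_V hn, eval_C]; exact h1
  · change (numP n (U n e μ p)).eval z / (denP n (V n e μ)).eval z = _
    rw [denP_V hn, eval_C, eval_GF hn he hμ, mul_div_assoc, mul_comm, div_mul_cancel₀ _ h1]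

theorem GF_one (n : ℕ) (e : ℝ) : GF n e 1 1 = 1 := by
  simp [GF, GG]

theorem uniq {n : ℕ} (hn : 3 ≤ n) {e : ℝ} (he : 0 < e) (x : RatMap n) (hx : XR n e 1 1 x) :
    x.1.1 = U n e 1 1 ∧ x.1.2 = V n e 1 := by
  obtain ⟨h1, h2, h3⟩ := hx
  set d : ℂ := x.1.2 ⟨0, by omega⟩ with hd
  have hden : x.den = C d := by
    unfold RatMap.den denP
    rw [Finset.sum_eq_single (⟨0, by omega⟩ : Fin n)]
    · simp [hd]
    · intro b _ hb
      have : (b : ℕ) ≠ 0 := fun h => hb (Fin.ext h)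
      rw [h1 b this]; simp
    · intro h; exact absurd (Finset.mem_univ _) h
  have hd0 : d ≠ 0 := by
    have := h2 0
    rwa [hden, eval_C] at this
  have hc : (n : ℂ) * (1 + e) ≠ 0 := by
    have h1 : (n : ℂ) ≠ 0 := by exact_mod_cast (by omega : n ≠ 0)
    have h3 : (1 : ℂ) + e ≠ 0 := by
      have : (1 : ℝ) + e ≠ 0 := by linarith
      exact_mod_cast this
    positivity
  have hpol : x.num = C (d / ((n : ℂ) * (1 + e))) * numP n (U n e 1 1) := by
    refine Polynomial.funext fun z => ?_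
    have h4 := h3 z
    unfold rf at h4
    rw [hden, eval_C, div_eq_iff hd0] at h4
    rw [h4, eval_mul, eval_C, eval_GF hn he one_ne_zero, div_one, ← mul_assoc,
      div_mul_cancel₀ _ hc, mul_comm]
  have hlead : d / ((n : ℂ) * (1 + e)) = 1 := by
    have h5 := congrArg (fun P : ℂ[X] => P.coeff n) hpol
    simp only [coeff_C_mul, numP_coeff_n, mul_one] at h5
    rw [← h5]
    exact numP_coeff_n x.1.1
  have hnum : x.num = numP n (U n e 1 1) := by
    rw [hpol, hlead, C_1, one_mul]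
  constructor
  · funext i
    have h6 := congrArg (fun P : ℂ[X] => P.coeff i) hnum
    simp only [numP_coeff] at h6
    rw [← h6]
    exact (numP_coeff x.1.1 i).symm
  · funext i
    by_cases hi : (i : ℕ) = 0
    · have : i = ⟨0, by omega⟩ := Fin.ext hi
      rw [this, ← hd]
      have h7 : d = (n : ℂ) * (1 + e) := by
        rwa [div_eq_one_iff_eq hc] at hlead
      simp [V, h7]
    · rw [h1 i hi]; simp [V, hi]

theorem tend_U {n : ℕ} (e : ℝ) {μ p : ℕ → ℂ} (hμ : Tendsto μ atTop (𝓝 1))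
    (hp : Tendsto p atTop (𝓝 1)) :
    Tendsto (fun k => U n e (μ k) (p k)) atTop (𝓝 (U n e 1 1)) := by
  rw [tendsto_pi_nhds]
  intro i
  unfold U
  refine Tendsto.add (Tendsto.add ((hp.pow _).mul_const _)
    (((hp.pow _).mul_const _).const_mul _)) ?_
  by_cases hi : (i : ℕ) = 0
  · simp only [hi, if_true]
    have h1 : Tendsto (fun k => (n : ℂ) * (1 + e) * (1 - p k) / μ k) atTop
        (𝓝 ((n : ℂ) * (1 + e) * (1 - 1) / 1)) :=
      ((tendsto_const_nhds.sub hp).const_mul _).div hμ one_ne_zero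
    exact (h1.sub_const _).sub_const _
  · simp only [hi, if_false]
    exact tendsto_const_nhds

theorem tend_V {n : ℕ} (e : ℝ) {μ : ℕ → ℂ} (hμ : Tendsto μ atTop (𝓝 1)) :
    Tendsto (fun k => V n e (μ k)) atTop (𝓝 (V n e 1)) := by
  rw [tendsto_pi_nhds]
  intro i
  unfold V
  by_cases hi : (i : ℕ) = 0
  · simp only [hi, if_true]
    exact tendsto_const_nhds.div hμ one_ne_zero
  · simp only [hi, if_false]
    exact tendsto_const_nhds

end XSE_

open XSE_ in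
theorem p_XSE : T_XSE := by
  intro n e hn he he2
  refine ⟨⟨_, xr_mk hn he one_ne_zero (GF_one n e)⟩, ?_⟩
  intro x₀ hx₀ μ p hμ hp hev
  classical
  let x : ℕ → RatMap n := fun k =>
    if h : μ k ≠ 0 ∧ GF n e (μ k) (p k) = p k then
      ⟨(U n e (μ k) (p k), V n e (μ k)), exists_x hn he h.1 h.2⟩ else x₀
  have hxk : ∀ k, μ k ≠ 0 ∧ GF n e (μ k) (p k) = p k →
      (x k).1 = (U n e (μ k) (p k), V n e (μ k)) ∧ XR n e (μ k) (p k) (x k) := by
    intro k hk
    have : x k = ⟨(U n e (μ k) (p k), V n e (μ k)), exists_x hn he hk.1 hk.2⟩ := by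
      simp only [x, dif_pos hk]
    rw [this]
    exact ⟨rfl, xr_mk hn he hk.1 hk.2⟩
  refine ⟨x, ?_, ?_⟩
  · obtain ⟨hu1, hu2⟩ := uniq hn he x₀ hx₀
    have h1 : Tendsto (fun k => (x k).1) atTop (𝓝 x₀.1) := by
      have h2 : Tendsto (fun k => (U n e (μ k) (p k), V n e (μ k))) atTop (𝓝 x₀.1) := by
        have h3 : x₀.1 = (U n e 1 1, V n e 1) := Prod.ext hu1 hu2
        rw [h3]
        exact (tend_U e hμ hp).prodMk_nhds (tend_V e hμ)
      refine h2.congr' ?_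
      filter_upwards [hev] with k hk
      exact ((hxk k hk).1).symm
    exact tendsto_subtype_rng.2 h1
  · filter_upwards [hev] with k hk
    exact (hxk k hk).2

end Pool.Agent.MAT
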