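import Pool.Agent.MAT.T

/-!
# MAT, job XSQ: the data along a sequence
-/

set_option autoImplicit false

open Polynomial Metric Set Filter Topology

noncomputable section

namespace Pool.Agent.MAT

namespace XSQ_

/-- the radius in a pair may be changed together with the `A`-side -/
theorem pair_radius {n : ℕ} {e ρ R R' : ℝ} {A : ℂ → ℂ} {μ : ℂ} {N D : ℂ[X]} {ϕ χ : ℂ → ℂ}
    (h : Pair n e A ρ μ N D R ϕ χ) (ha : ASide A N D R' ϕ) : Pair n e A ρ μ N D R' ϕ χ :=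
  ⟨h.deg, ha, h.opn, h.mem0, h.meme, h.hol, h.inj, h.conj, h.back, h.cross, h.crit, h.zero,
    h.rep⟩

theorem continuous_cls (n : ℕ) : Continuous (cls : RatMap n → Moduli n) :=
  continuous_quotient_mk'

end XSQ_

theorem p_XSQ (hND : T_XND) (hPW : T_XPW) (hRS : T_XRS) (hAS : T_XAS) (hUR : T_XUR)
    (hPO : T_XPO) (hPA : T_XPA) (hPC : T_XPC) (hLI : T_XLI) (hSE : T_XSE) (hHY : T_XHY) :
    T_XSQ := by
  intro n e ρ A a Ψ x₀ y₀ μ p hn he he2 hA hρ hHyp hx₀ hy₀ hμ hp hev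
  have hn1 : 1 ≤ n := by omega
  have hn2 : 2 ≤ n := by omega
  obtain ⟨-, hSE2⟩ := hSE n e hn he he2
  obtain ⟨x, hx, hxr⟩ := hSE2 x₀ hx₀ μ p hμ hp
    (hev.mono fun k h => ⟨h.1, h.2.2.2.1⟩)
  have hhyp : ∀ᶠ k in atTop, cls (x k) ∈ HypPoly n := by
    filter_upwards [hev, hxr] with k h1 h2
    exact hHY n e (μ k) (p k) (x k) hn he he2 h1.1 h1.2.1 h1.2.2.1 h1.2.2.2.1 h2
      h1.2.2.2.2.1 h1.2.2.2.2.2
  have hcl : Tendsto (fun k => cls (x k)) atTop (𝓝 (cls x₀)) :=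
    ((XSQ_.continuous_cls n).tendsto x₀).comp hx
  have hmem0 : cls x₀ ∈ closure (HypPoly n) ∩ PolyClass n :=
    ⟨mem_closure_of_tendsto hcl hhyp, x₀, rfl, hx₀.1⟩
  have hmem : ∀ᶠ k in atTop, cls (x k) ∈ closure (HypPoly n) ∩ PolyClass n := by
    filter_upwards [hhyp, hxr] with k h1 h2
    exact ⟨subset_closure h1, x k, rfl, h2.1⟩
  have hq : Tendsto (fun k => Ψ (cls (x k))) atTop (𝓝 (cls y₀)) := by
    rw [hy₀]
    exact (hHyp.1 (cls x₀) hmem0).tendsto.comp (tendsto_nhdsWithin_iff.2 ⟨hcl, hmem⟩)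
  obtain ⟨y, hyq, hy⟩ := hLI n y₀ (fun k => Ψ (cls (x k))) hq
  obtain ⟨hyN, hyD⟩ := hPC n atTop y y₀ hn1 hy
  obtain ⟨hxN, hxD⟩ := hPC n atTop x x₀ hn1 hx
  have key : ∀ᶠ k in atTop, ∃ t : ℝ × (ℂ → ℂ) × (ℂ → ℂ) × ℝ × (ℂ → ℂ),
      Pair n e A ρ (μ k) (y k).num (y k).den t.1 t.2.1 t.2.2.1 ∧
      ASide (fun z => z ^ n) (x k).num (x k).den t.2.2.2.1 t.2.2.2.2 ∧
      (-(p k)) ∉ Out t.2.2.2.2 := by
    filter_upwards [hev, hxr, hhyp] with k h1 h2 h3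
    obtain ⟨h1a, h1b, h1c, h1d, h1e, h1f⟩ := h1
    obtain ⟨B, b, hB, ⟨x', hx', φ₀', ψ₀', hM0'⟩, ⟨y', hy', φ', ψ', hM'⟩⟩ := hHyp.2 _ h3
    obtain ⟨φ₀, ψ₀, hM0⟩ := hRS n _ B 1 b x' (x k) φ₀' ψ₀' hn1 hx' hM0'
    obtain ⟨φ, ψ, hM⟩ := hRS n A B a b y' (y k) φ' ψ' hn1 (hy'.trans (hyq k).symm) hM'
    have hNDx := hND n (x k) hn1
    have hNDy := hND n (y k) hn1
    have h0 : (0 : ℂ) ∈ Bas n e (μ k) := connectedComponentIn_subset _ _ h1e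
    have he' : (-(e : ℂ)) ∈ Bas n e (μ k) := connectedComponentIn_subset _ _ h1f
    obtain ⟨R, ϕ, χ, hpair⟩ := hPA n e ρ (μ k) (p k) A B a b (x k).num (x k).den (y k).num
      (y k).den φ₀ ψ₀ φ ψ hn he he2 h1a h1b h1c hA hB hNDx.1 h2.2.1 h2.2.2 hM0 hNDy.1 hM h0 he'
      hρ hNDy.2
    obtain ⟨ϕ₁, R₁, hA1, -, hO⟩ := hAS n _ B 1 b (x k).num (x k).den φ₀ ψ₀ hn2 (hPW n hn2) hB
      hNDx.1 hM0
    refine ⟨(R, ϕ, χ, R₁, ϕ₁), hpair, hA1, ?_⟩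
    obtain ⟨w, hw, hw2⟩ := (hPO n e (μ k) (p k) B b (x k).num (x k).den φ₀ ψ₀ hn he he2 h1a h1b
      h1c hB hNDx.1 h2.2.1 h2.2.2 hM0 0).1 h0
    exact (hO _).2 ⟨w, ball_subset_closedBall hw, eq_neg_of_add_eq_zero_right hw2⟩
  obtain ⟨t, ht⟩ := key.choice
  obtain ⟨R1, hR1⟩ := hUR n A atTop (fun k => (y k).num) (fun k => (y k).den) y₀.num y₀.den
    (fun k => (t k).2.1) hn2 hA.1 hyN hyD
    (ht.mono fun k h => ⟨h.1.deg, _, h.1.aside⟩)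
  obtain ⟨R2, hR2⟩ := hUR n (fun z => z ^ n) atTop (fun k => (x k).num) (fun k => (x k).den)
    x₀.num x₀.den (fun k => (t k).2.2.2.2) hn2 (hPW n hn2).1 hxN hxD
    (ht.mono fun k h => ⟨(hND n (x k) hn1).1, _, h.2.1⟩)
  refine ⟨max R1 R2, fun k => (y k).num, fun k => (y k).den, fun k => (t k).2.1,
    fun k => (t k).2.2.1, x, fun k => (t k).2.2.2.2, hyN, hyD, hx, ?_⟩
  filter_upwards [ht, hR1, hR2] with k h1 h2 h3
  exact ⟨XSQ_.pair_radius h1.1 (h2 _ (le_max_left _ _)), h3 _ (le_max_right _ _), h1.2.2⟩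

end Pool.Agent.MAT
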