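import Pool.Agent.MAT.T

/-! # MAT: ZZ (size of `Z_k`) -/

set_option autoImplicit false

open Polynomial Metric Set Filter Topology

noncomputable section

namespace Pool.Agent.MAT

/-- the square of the norm -/
lemma ZZ_sq (t : ℂ) : ‖1 - Complex.exp (-(2 * Real.pi * Complex.I * t))‖ ^ 2 =
    (1 - Real.exp (2 * Real.pi * t.im)) ^ 2 +
      4 * Real.exp (2 * Real.pi * t.im) * Real.sin (Real.pi * t.re) ^ 2 := by
  rw [← Complex.normSq_eq_norm_sq, Complex.normSq_apply]
  have h1 : (-(2 * Real.pi * Complex.I * t)).re = 2 * Real.pi * t.im := by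
    simp
  have h2 : (-(2 * Real.pi * Complex.I * t)).im = -(2 * (Real.pi * t.re)) := by
    simp
    ring
  have hre : (1 - Complex.exp (-(2 * Real.pi * Complex.I * t))).re =
      1 - Real.exp (2 * Real.pi * t.im) * Real.cos (2 * (Real.pi * t.re)) := by
    rw [Complex.sub_re, Complex.one_re, Complex.exp_re, h1, h2, Real.cos_neg]
  have him : (1 - Complex.exp (-(2 * Real.pi * Complex.I * t))).im =
      Real.exp (2 * Real.pi * t.im) * Real.sin (2 * (Real.pi * t.re)) := by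
    rw [Complex.sub_im, Complex.one_im, Complex.exp_im, h1, h2, Real.sin_neg]
    ring
  rw [hre, him, Real.sin_two_mul, Real.cos_two_mul]
  have h3 := Real.sin_sq_add_cos_sq (Real.pi * t.re)
  set r := Real.exp (2 * Real.pi * t.im)
  set s := Real.sin (Real.pi * t.re)
  set c := Real.cos (Real.pi * t.re)
  have hc : c ^ 2 = 1 - s ^ 2 := by linarith
  have e1 : (1 - r * (2 * c ^ 2 - 1)) * (1 - r * (2 * c ^ 2 - 1)) + r * (2 * s * c) * (r * (2 * s * c))
      = (1 - r * (2 * c ^ 2 - 1)) ^ 2 + 4 * r ^ 2 * s ^ 2 * c ^ 2 := by ring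
  rw [e1, hc]
  ring

/-- lower bound -/
lemma ZZ_low (t : ℂ) (h0 : 0 ≤ t.re) (h1 : t.re ≤ 1) :
    1 / 4 ≤ ‖1 - Complex.exp (-(2 * Real.pi * Complex.I * t))‖ ∨
    ‖t‖ / 2 ≤ ‖1 - Complex.exp (-(2 * Real.pi * Complex.I * t))‖ ∨
    ‖t - 1‖ / 2 ≤ ‖1 - Complex.exp (-(2 * Real.pi * Complex.I * t))‖ := by
  have hsq := ZZ_sq t
  set N := ‖1 - Complex.exp (-(2 * Real.pi * Complex.I * t))‖ with hN
  have hN0 : 0 ≤ N := norm_nonneg _
  set r := Real.exp (2 * Real.pi * t.im) with hr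
  set s := Real.sin (Real.pi * t.re) with hs
  have hr0 : 0 < r := Real.exp_pos _
  have hpi := Real.pi_gt_three
  have hpi4 := Real.pi_lt_d2
  by_cases hb : t.im < -(1 / 10)
  · left
    -- r ≤ 3 / 4
    have h2 : 0.6 ≤ -(2 * Real.pi * t.im) := by nlinarith
    have h3 : 1 + -(2 * Real.pi * t.im) ≤ Real.exp (-(2 * Real.pi * t.im)) := by
      have := Real.add_one_le_exp (-(2 * Real.pi * t.im))
      linarith
    rw [Real.exp_neg] at h3
    have h4 : r * r⁻¹ = 1 := mul_inv_cancel₀ hr0.ne'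
    have h5 : r ≤ 3 / 4 := by
      by_contra hcon
      push Not at hcon
      have h6 : 1.6 ≤ r⁻¹ := by rw [hr]; linarith
      nlinarith
    have h7 : (1 / 4 : ℝ) ^ 2 ≤ N ^ 2 := by
      rw [hsq]
      have : 0 ≤ 4 * r * s ^ 2 := by positivity
      nlinarith
    exact le_of_sq_le_sq h7 hN0
  · push Not at hb
    -- r ≥ 1 / 4
    have hr4 : 1 / 4 ≤ r := by
      have h3 : 2 * Real.pi * t.im + 1 ≤ r := Real.add_one_le_exp _
      nlinarith
    -- |1 - r| ≥ |im t| / 2
    have hr1 : (t.im / 2) ^ 2 ≤ (1 - r) ^ 2 := by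
      rcases le_or_gt 0 t.im with h | h
      · have h3 : 2 * Real.pi * t.im + 1 ≤ r := Real.add_one_le_exp _
        have h4 : t.im / 2 ≤ r - 1 := by nlinarith
        have h5 : 0 ≤ t.im / 2 := by linarith
        have h6 : (1 - r) ^ 2 = (r - 1) ^ 2 := by ring
        rw [h6]
        exact pow_le_pow_left₀ h5 h4 2
      · have h3 : 1 + -(2 * Real.pi * t.im) ≤ Real.exp (-(2 * Real.pi * t.im)) := by
          have := Real.add_one_le_exp (-(2 * Real.pi * t.im))
          linarith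
        rw [Real.exp_neg] at h3
        have h4 : r * r⁻¹ = 1 := mul_inv_cancel₀ hr0.ne'
        have h5 : r * (1 + -(2 * Real.pi * t.im)) ≤ 1 := by
          calc r * (1 + -(2 * Real.pi * t.im)) ≤ r * r⁻¹ :=
                mul_le_mul_of_nonneg_left h3 hr0.le
            _ = 1 := h4
        have h7 : 0 ≤ -(2 * Real.pi * t.im) := by nlinarith
        have h8 : 1 / 4 * -(2 * Real.pi * t.im) ≤ r * -(2 * Real.pi * t.im) :=
          mul_le_mul_of_nonneg_right hr4 h7
        have h6 : -(t.im) / 2 ≤ 1 - r := by nlinarith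
        have h9 : 0 ≤ -(t.im) / 2 := by linarith
        have h10 : (t.im / 2) ^ 2 = (-(t.im) / 2) ^ 2 := by ring
        rw [h10]
        exact pow_le_pow_left₀ h9 h6 2
    -- sin
    rcases le_total t.re (1 / 2) with ha | ha
    · right; left
      have hs1 : 2 * t.re ≤ s := by
        have := Real.mul_le_sin (x := Real.pi * t.re) (by positivity) (by nlinarith)
        have e : 2 / Real.pi * (Real.pi * t.re) = 2 * t.re := by
          field_simp
        rw [e] at this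
        exact this
      have h7 : (‖t‖ / 2) ^ 2 ≤ N ^ 2 := by
        rw [hsq, div_pow, ← Complex.normSq_eq_norm_sq, Complex.normSq_apply]
        have h8 : (2 * t.re) ^ 2 ≤ s ^ 2 := by nlinarith
        have h9 : s ^ 2 ≤ 4 * r * s ^ 2 := by nlinarith [sq_nonneg s]
        nlinarith
      exact le_of_sq_le_sq h7 hN0
    · right; right
      have hs1 : 2 * (1 - t.re) ≤ s := by
        have := Real.mul_le_sin (x := Real.pi * (1 - t.re))
          (mul_nonneg Real.pi_pos.le (by linarith)) (by nlinarith)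
        have e : 2 / Real.pi * (Real.pi * (1 - t.re)) = 2 * (1 - t.re) := by
          field_simp
        rw [e] at this
        have e2 : Real.sin (Real.pi * (1 - t.re)) = s := by
          rw [hs, ← Real.sin_pi_sub]
          congr 1
          ring
        rw [e2] at this
        exact this
      have h7 : (‖t - 1‖ / 2) ^ 2 ≤ N ^ 2 := by
        rw [hsq, div_pow, ← Complex.normSq_eq_norm_sq, Complex.normSq_apply]
        simp only [Complex.sub_re, Complex.one_re, Complex.sub_im, Complex.one_im, sub_zero]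
        have h8 : (2 * (1 - t.re)) ^ 2 ≤ s ^ 2 := by nlinarith
        have h9 : s ^ 2 ≤ 4 * r * s ^ 2 := by nlinarith [sq_nonneg s]
        nlinarith
      exact le_of_sq_le_sq h7 hN0

/-- the bound in the `t`-plane -/
lemma ZZ_core (t : ℂ) (h0 : 0 ≤ t.re) (h1 : t.re ≤ 1) (ht0 : t ≠ 0) (ht1 : t ≠ 1) :
    Complex.exp (-(2 * Real.pi * Complex.I * t)) ≠ 1 ∧
    ‖1 / (1 - Complex.exp (-(2 * Real.pi * Complex.I * t)))‖ ≤
      4 * (1 + 1 / ‖t‖ + 1 / ‖t - 1‖) := by
  have hlow := ZZ_low t h0 h1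
  have ht0' : 0 < ‖t‖ := norm_pos_iff.2 ht0
  have ht1' : 0 < ‖t - 1‖ := norm_pos_iff.2 (sub_ne_zero.2 ht1)
  have hpos : 0 < ‖1 - Complex.exp (-(2 * Real.pi * Complex.I * t))‖ := by
    rcases hlow with h | h | h
    · linarith
    · linarith
    · linarith
  refine ⟨fun h => ?_, ?_⟩
  · rw [h] at hpos
    simp at hpos
  · rw [norm_div, norm_one, div_le_iff₀ hpos]
    set N := ‖1 - Complex.exp (-(2 * Real.pi * Complex.I * t))‖
    have i0 : 0 < 1 / ‖t‖ := by positivity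
    have i1 : 0 < 1 / ‖t - 1‖ := by positivity
    rcases hlow with h | h | h
    · nlinarith [mul_pos i0 hpos, mul_pos i1 hpos]
    · have h2 : 1 / 2 ≤ 1 / ‖t‖ * N := by
        calc (1 : ℝ) / 2 = 1 / ‖t‖ * (‖t‖ / 2) := by field_simp
          _ ≤ 1 / ‖t‖ * N := mul_le_mul_of_nonneg_left h i0.le
      nlinarith [mul_pos i1 hpos]
    · have h2 : 1 / 2 ≤ 1 / ‖t - 1‖ * N := by
        calc (1 : ℝ) / 2 = 1 / ‖t - 1‖ * (‖t - 1‖ / 2) := by field_simp
          _ ≤ 1 / ‖t - 1‖ * N := mul_le_mul_of_nonneg_left h i1.le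
      nlinarith [mul_pos i0 hpos]

/-- ZZ -/
theorem p_ZZ : T_ZZ := by
  refine ⟨8, by norm_num, fun S hS => ⟨⌈S⌉₊ + 1, fun k hk τ h0 h1 hτ0 hτ1 => ?_⟩⟩
  have hkS : S ≤ (k : ℝ) := by
    have h2 : ((⌈S⌉₊ + 1 : ℕ) : ℝ) ≤ k := by exact_mod_cast hk
    have h3 := Nat.le_ceil S
    push_cast at h2
    linarith
  have hk0 : 0 < (k : ℝ) := lt_of_lt_of_le hS hkS
  have hre : (kap S k).re = k := by simp [kap]
  have him : (kap S k).im = -S := by simp [kap]
  have hκ : kap S k ≠ 0 := by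
    intro h
    rw [h] at hre
    simp at hre
    linarith
  have hκn : ‖kap S k‖ ≤ 2 * k := by
    have h2 : ‖kap S k‖ ^ 2 = (k : ℝ) ^ 2 + S ^ 2 := by
      rw [← Complex.normSq_eq_norm_sq, Complex.normSq_apply, hre, him]
      ring
    refine le_of_sq_le_sq ?_ (by positivity)
    rw [h2]
    nlinarith
  have hell : ell S k = 2 * Real.pi * Complex.I / kap S k := rfl
  set t := τ / kap S k with ht
  have hmul : ell S k * τ = 2 * Real.pi * Complex.I * t := by
    rw [hell, ht]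
    field_simp
  have ht0 : t ≠ 0 := div_ne_zero hτ0 hκ
  have ht1 : t ≠ 1 := by
    intro h
    rw [ht, div_eq_one_iff_eq hκ] at h
    exact hτ1 h
  have hκp : 0 < ‖kap S k‖ := norm_pos_iff.2 hκ
  have hb0 : 1 / ‖t‖ ≤ 2 * (k / ‖τ‖) := by
    rw [ht, norm_div, one_div_div, ← mul_div_assoc]
    gcongr
  have hb1 : 1 / ‖t - 1‖ ≤ 2 * (k / ‖τ - kap S k‖) := by
    have e : t - 1 = (τ - kap S k) / kap S k := by
      rw [ht]
      field_simp
    rw [e, norm_div, one_div_div, ← mul_div_assoc]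
    gcongr
  have hp0 : 0 ≤ (k : ℝ) / ‖τ‖ := by positivity
  have hp1 : 0 ≤ (k : ℝ) / ‖τ - kap S k‖ := by positivity
  rw [hmul]
  obtain ⟨c1, c2⟩ := ZZ_core t h0 h1 ht0 ht1
  refine ⟨c1, c2.trans (by linarith), ?_⟩
  -- the second quantity, by `t ↦ 1 - t`
  have d0 : 0 ≤ (1 - t).re := by simp only [Complex.sub_re, Complex.one_re]; linarith
  have d1 : (1 - t).re ≤ 1 := by simp only [Complex.sub_re, Complex.one_re]; linarith
  obtain ⟨c3, c4⟩ := ZZ_core (1 - t) d0 d1 (sub_ne_zero.2 (Ne.symm ht1))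
    (by intro h; apply ht0; linear_combination -h)
  have e3 : Complex.exp (-(2 * Real.pi * Complex.I * (1 - t))) =
      (Complex.exp (-(2 * Real.pi * Complex.I * t)))⁻¹ := by
    have e4 : -(2 * (Real.pi : ℂ) * Complex.I * (1 - t)) =
        -(-(2 * Real.pi * Complex.I * t)) - 2 * Real.pi * Complex.I := by ring
    rw [e4, Complex.exp_sub, Complex.exp_two_pi_mul_I, div_one, Complex.exp_neg]
  rw [e3] at c3 c4
  have hne : Complex.exp (-(2 * Real.pi * Complex.I * t)) ≠ 0 := Complex.exp_ne_zero _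
  set E := Complex.exp (-(2 * Real.pi * Complex.I * t)) with hE
  have e5 : ‖E / (1 - E)‖ = ‖1 / (1 - E⁻¹)‖ := by
    have h1E : (1 : ℂ) - E ≠ 0 := sub_ne_zero.2 (Ne.symm c1)
    have h2E : (1 : ℂ) - E⁻¹ ≠ 0 := sub_ne_zero.2 (Ne.symm c3)
    have : E / (1 - E) = -(1 / (1 - E⁻¹)) := by
      rw [div_eq_iff h1E, neg_mul, div_mul_eq_mul_div, one_mul, eq_neg_iff_add_eq_zero]
      rw [← mul_right_inj' h2E]
      rw [mul_add, mul_zero, mul_div_cancel₀ _ h2E]
      field_simp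
      ring
    rw [this, norm_neg]
  rw [e5]
  refine c4.trans ?_
  have e6 : ‖(1 - t : ℂ)‖ = ‖t - 1‖ := norm_sub_rev _ _
  have e7 : ‖(1 - t - 1 : ℂ)‖ = ‖t‖ := by
    rw [show (1 - t - 1 : ℂ) = -t by ring, norm_neg]
  rw [e6, e7]
  linarith

end Pool.Agent.MAT
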