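import Pool.Agent.MAT.Main
import Pool.Agent.MAT.P_UL
import Pool.Agent.MAT.P_HUR
import Pool.Agent.MAT.P_HINJ
import Pool.Agent.MAT.P_ROOT
import Pool.Agent.MAT.P_PCE
import Pool.Agent.MAT.P_PCW
import Pool.Agent.MAT.P_PCR
import Pool.Agent.MAT.P_INVH
import Pool.Agent.MAT.P_GROW
import Pool.Agent.MAT.P_COMP
import Pool.Agent.MAT.P_ANN
import Pool.Agent.MAT.P_BLA
import Pool.Agent.MAT.P_BLC
import Pool.Agent.MAT.P_PER
import Pool.Agent.MAT.P_UC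
import Pool.Agent.MAT.P_HC
import Pool.Agent.MAT.P_FEST
import Pool.Agent.MAT.P_FORB
import Pool.Agent.MAT.P_FINC
import Pool.Agent.MAT.P_FINJ
import Pool.Agent.MAT.P_FSUR
import Pool.Agent.MAT.P_FV
import Pool.Agent.MAT.P_INP
import Pool.Agent.MAT.P_OUTP
import Pool.Agent.MAT.P_INAB
import Pool.Agent.MAT.P_EUNI
import Pool.Agent.MAT.P_HORN
import Pool.Agent.MAT.P_NPK
import Pool.Agent.MAT.P_PKG
import Pool.Agent.MAT.P_PKT
import Pool.Agent.MAT.P_HPB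
import Pool.Agent.MAT.P_HPH
import Pool.Agent.MAT.P_RESA
import Pool.Agent.MAT.P_RESB
import Pool.Agent.MAT.P_ZZ
import Pool.Agent.MAT.P_QLOG
import Pool.Agent.MAT.P_LSQ
import Pool.Agent.MAT.P_STEP
import Pool.Agent.MAT.P_PASS
import Pool.Agent.MAT.P_COOR
import Pool.Agent.MAT.P_LTN
import Pool.Agent.MAT.P_FACT
import Pool.Agent.MAT.P_LTM
import Pool.Agent.MAT.P_LTF
import Pool.Agent.MAT.P_UPI
import Pool.Agent.MAT.P_GEL
import Pool.Agent.MAT.P_GQ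
import Pool.Agent.MAT.P_GBA
import Pool.Agent.MAT.P_GAB
import Pool.Agent.MAT.P_GRE
import Pool.Agent.MAT.P_GBR
import Pool.Agent.MAT.P_GSH
import Pool.Agent.MAT.P_GNW
import Pool.Agent.MAT.P_GUH
import Pool.Agent.MAT.P_GPR
import Pool.Agent.MAT.P_GEN
import Pool.Agent.MAT.P_GTA
import Pool.Agent.MAT.P_GRP
import Pool.Agent.MAT.P_GIR
import Pool.Agent.MAT.P_GIU
import Pool.Agent.MAT.P_GRA
import Pool.Agent.MAT.P_GRM
import Pool.Agent.MAT.P_GBS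
import Pool.Agent.MAT.P_GNF
import Pool.Agent.MAT.P_GFP
import Pool.Agent.MAT.P_GUP
import Pool.Agent.MAT.P_GAT
import Pool.Agent.MAT.P_GHC
import Pool.Agent.MAT.P_LAB
import Pool.Agent.MAT.P_LAL
import Pool.Agent.MAT.P_LAM
import Pool.Agent.MAT.P_LYR
import Pool.Agent.MAT.P_LPM
import Pool.Agent.MAT.P_LRP
import Pool.Agent.MAT.P_LRC
import Pool.Agent.MAT.P_CSE
import Pool.Agent.MAT.P_CRA
import Pool.Agent.MAT.P_CLI
import Pool.Agent.MAT.P_CPA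
import Pool.Agent.MAT.P_LDI
import Pool.Agent.MAT.P_LRA
import Pool.Agent.MAT.P_LGS
import Pool.Agent.MAT.P_HKA
import Pool.Agent.MAT.P_HUS
import Pool.Agent.MAT.P_HOA
import Pool.Agent.MAT.P_HOQ
import Pool.Agent.MAT.P_HOX
import Pool.Agent.MAT.P_HOC
import Pool.Agent.MAT.P_HOI
import Pool.Agent.MAT.P_HOM
import Pool.Agent.MAT.P_HOT
import Pool.Agent.MAT.P_HOE
import Pool.Agent.MAT.P_HRE
import Pool.Agent.MAT.P_VID
import Pool.Agent.MAT.P_VCL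
import Pool.Agent.MAT.P_VLO
import Pool.Agent.MAT.P_VEX
import Pool.Agent.MAT.P_VOR
import Pool.Agent.MAT.P_VO2
import Pool.Agent.MAT.P_VNC
import Pool.Agent.MAT.P_VNO
import Pool.Agent.MAT.P_VOU
import Pool.Agent.MAT.P_VMA
import Pool.Agent.MAT.P_VFI
import Pool.Agent.MAT.P_XND
import Pool.Agent.MAT.P_XPW
import Pool.Agent.MAT.P_XRS
import Pool.Agent.MAT.P_XAS
import Pool.Agent.MAT.P_XCO
import Pool.Agent.MAT.P_XRE
import Pool.Agent.MAT.P_XUR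
import Pool.Agent.MAT.P_XJC
import Pool.Agent.MAT.P_XCA
import Pool.Agent.MAT.P_XPO
import Pool.Agent.MAT.P_XPA
import Pool.Agent.MAT.P_XPC
import Pool.Agent.MAT.P_XLI
import Pool.Agent.MAT.P_XSE
import Pool.Agent.MAT.P_XHY
import Pool.Agent.MAT.P_XSQ
import Pool.Agent.MAT.P_XGS

/-!
# MAT: all targets, from the jobs
-/

set_option autoImplicit false

namespace Pool.Agent.MAT

theorem a_UL : T_UL := p_UL

theorem a_HUR : T_HUR := p_HUR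

theorem a_HINJ : T_HINJ := p_HINJ a_HUR

theorem a_ROOT : T_ROOT := p_ROOT

theorem a_PCE : T_PCE := p_PCE

theorem a_PCW : T_PCW := p_PCW

theorem a_PCR : T_PCR := p_PCR a_PCE a_HUR

theorem a_INVH : T_INVH := p_INVH

theorem a_GROW : T_GROW := p_GROW

theorem a_COMP : T_COMP := p_COMP

theorem a_BLA : T_BLA := p_BLA

theorem a_ANN : T_ANN := p_ANN a_BLA

theorem a_BLC : T_BLC := p_BLC

theorem a_PER : T_PER := p_PER

theorem a_UC : T_UC := p_UC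

theorem a_HC : T_HC := p_HC a_PER a_UC

theorem a_FEST : T_FEST := p_FEST

theorem a_FORB : T_FORB := p_FORB

theorem a_FINC : T_FINC := p_FINC a_FORB

theorem a_FINJ : T_FINJ := p_FINJ a_FORB

theorem a_FSUR : T_FSUR := p_FSUR a_INVH

theorem a_FV : T_FV := p_FV

theorem a_INP : T_INP := p_INP a_FEST a_FORB a_FINC a_FINJ a_FSUR

theorem a_INAB : T_INAB := p_INAB

theorem a_OUTP : T_OUTP := p_OUTP a_INP a_FV a_INAB

theorem a_EUNI : T_EUNI := p_EUNI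

theorem a_HORN : T_HORN := p_HORN

theorem a_NPK : T_NPK := p_NPK a_INP a_OUTP a_INAB a_HORN

theorem a_PKG : T_PKG := p_PKG a_NPK

theorem a_PKT : T_PKT := p_PKT

theorem a_HPB : T_HPB := p_HPB

theorem a_HPH : T_HPH := p_HPH

theorem a_RESA : T_RESA := p_RESA

theorem a_RESB : T_RESB := p_RESB a_RESA

theorem a_ZZ : T_ZZ := p_ZZ

theorem a_QLOG : T_QLOG := p_QLOG

theorem a_LSQ : T_LSQ := p_LSQ a_ZZ

theorem a_STEP : T_STEP := p_STEP a_RESA a_RESB a_ZZ a_LSQ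

theorem a_PASS : T_PASS := p_PASS a_QLOG

theorem a_COOR : T_COOR := p_COOR a_RESA

theorem a_LTN : T_LTN := p_LTN a_STEP a_PASS a_COOR a_OUTP a_EUNI

theorem a_FACT : T_FACT := p_FACT

theorem a_LTM : T_LTM := p_LTM a_LTN a_FACT a_PKT

theorem a_LTF : T_LTF := p_LTF a_LTM

theorem a_UPI : T_UPI := p_UPI a_RESA a_RESB

theorem a_GEL : T_GEL := p_GEL

theorem a_GQ : T_GQ := p_GQ

theorem a_GBA : T_GBA := p_GBA a_GEL a_GQ a_COMP

theorem a_GAB : T_GAB := p_GAB a_GEL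

theorem a_GRE : T_GRE := p_GRE a_GEL a_GBA

theorem a_GBR : T_GBR := p_GBR a_GEL a_ROOT

theorem a_GSH : T_GSH := p_GSH a_GEL a_UL a_HUR

theorem a_GNW : T_GNW := p_GNW a_GEL a_GBA a_GAB a_GRE a_GBR a_GSH

theorem a_GUH : T_GUH := p_GUH a_GBA

theorem a_GPR : T_GPR := p_GPR a_GEL a_GBA

theorem a_GEN : T_GEN := p_GEN

theorem a_GTA : T_GTA := p_GTA a_GEL a_GBR a_GSH a_GEN

theorem a_GRP : T_GRP := p_GRP a_GEL a_GRE a_GBR a_GSH

theorem a_GIR : T_GIR := p_GIR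

theorem a_GIU : T_GIU := p_GIU a_GEL a_GBA a_HPB

theorem a_GRA : T_GRA := p_GRA

theorem a_GRM : T_GRM := p_GRM

theorem a_GBS : T_GBS := p_GBS a_GEL a_GQ

theorem a_GNF : T_GNF := p_GNF a_GQ

theorem a_GFP : T_GFP := p_GFP a_GQ

theorem a_GUP : T_GUP := p_GUP a_GNF a_UPI

theorem a_GAT : T_GAT := p_GAT a_GEL a_GQ a_GFP a_GUP a_LTM a_GTA

theorem a_HUS : T_HUS := p_HUS a_HPB a_HPH a_GBA a_GAB

theorem a_GHC : T_GHC := p_GHC a_GAT a_HUS a_GBA a_GEL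

theorem a_LAB : T_LAB := p_LAB a_BLA a_INVH

theorem a_LAL : T_LAL := p_LAL a_UL a_HINJ a_INVH a_GROW a_BLA a_PCE

theorem a_LAM : T_LAM := p_LAM a_LAL a_BLA a_HUR a_PCE

theorem a_LYR : T_LYR := p_LYR a_PCR

theorem a_LPM : T_LPM := p_LPM

theorem a_LRP : T_LRP := p_LRP a_UL a_HINJ a_HUR a_PCE a_PCW a_PCR a_LAM a_LYR a_LPM a_GBS a_GBA a_GEL

theorem a_LRC : T_LRC := p_LRC a_UL a_LAB a_GRM a_GBA

theorem a_CSE : T_CSE := p_CSE

theorem a_CRA : T_CRA := p_CRA a_CSE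

theorem a_CLI : T_CLI := p_CLI a_ROOT a_LAB

theorem a_CPA : T_CPA := p_CPA a_CSE a_CRA a_CLI a_LAB

theorem a_LDI : T_LDI := p_LDI a_GRA a_LAB a_GBA

theorem a_LRA : T_LRA := p_LRA a_LRC a_CPA a_LDI a_GBA

theorem a_XND : T_XND := p_XND

theorem a_XPW : T_XPW := p_XPW

theorem a_LGS : T_LGS := p_LGS a_LAB a_INVH a_XND a_XPW

theorem a_HKA : T_HKA := p_HKA a_HPB a_HPH a_GBA a_GAB a_LAB

theorem a_HOA : T_HOA := p_HOA a_UL a_PCE a_PCW a_LPM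

theorem a_HOQ : T_HOQ := p_HOQ a_LPM a_PCE a_PCW

theorem a_HOX : T_HOX := p_HOX a_PCE

theorem a_HOC : T_HOC := p_HOC a_LAB

theorem a_HOI : T_HOI := p_HOI a_HINJ a_HPB a_HUS

theorem a_HOM : T_HOM := p_HOM a_UL a_HINJ a_HPB a_HUS a_GBA a_LAB

theorem a_HOT : T_HOT := p_HOT a_HOM a_HPB a_HPH a_HUS

theorem a_HOE : T_HOE := p_HOE a_LTF a_HOQ a_HOX a_HUS a_LPM a_GEL

theorem a_HRE : T_HRE := p_HRE a_HC a_HOA a_HOC a_HOI a_HOT a_HOE a_HUS a_HPB a_GHC a_GIU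

theorem a_VID : T_VID := p_VID a_HPB a_HUS

theorem a_VCL : T_VCL := p_VCL a_GTA a_GUH a_GBA a_HUS

theorem a_VLO : T_VLO := p_VLO a_GEL a_GBA a_GNW a_GPR a_GTA a_LAB a_INVH

theorem a_VEX : T_VEX := p_VEX a_GEL a_GNW a_GBA

theorem a_VOR : T_VOR := p_VOR

theorem a_VO2 : T_VO2 := p_VO2

theorem a_VNC : T_VNC := p_VNC a_VO2 a_GNW a_GBA a_GEL a_LAB

theorem a_VNO : T_VNO := p_VNO a_GEL a_GBA a_GPR a_GTA a_GRP a_VOR a_VNC

theorem a_VOU : T_VOU := p_VOU a_UL a_LAB a_BLA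

theorem a_VMA : T_VMA := p_VMA a_GBA a_VNO a_VOU a_VNC a_LAB

theorem a_VFI : T_VFI := p_VFI a_VNC a_ANN a_INVH a_BLA

theorem a_XRS : T_XRS := p_XRS

theorem a_XAS : T_XAS := p_XAS a_BLA

theorem a_XCO : T_XCO := p_XCO

theorem a_XRE : T_XRE := p_XRE a_BLA

theorem a_XUR : T_XUR := p_XUR a_BLA a_XCO

theorem a_XJC : T_XJC := p_XJC a_BLA a_BLC

theorem a_XCA : T_XCA := p_XCA a_BLA a_INVH

theorem a_XPO : T_XPO := p_XPO a_BLA a_XAS a_LAB a_GEL a_XPW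

theorem a_XPA : T_XPA := p_XPA a_BLA a_INVH a_LAB a_XAS a_XRE a_XJC a_XCA a_XPO a_GEL

theorem a_XPC : T_XPC := p_XPC

theorem a_XLI : T_XLI := p_XLI

theorem a_XSE : T_XSE := p_XSE

theorem a_XHY : T_XHY := p_XHY a_GEL

theorem a_XSQ : T_XSQ := p_XSQ a_XND a_XPW a_XRS a_XAS a_XUR a_XPO a_XPA a_XPC a_XLI a_XSE a_XHY

theorem a_XGS : T_XGS := p_XGS a_LAM a_LGS a_XPC a_XND a_XPW

/-- the main theorem of the project -/
theorem final (n : ℕ) (A : ℂ → ℂ) (a : ℂ) (hn : 3 ≤ n) (hA : Marked n A a)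
    (hrot : ¬ ∃ ω : ℂ, ‖ω‖ = 1 ∧ ∀ z ∈ Metric.ball (0 : ℂ) 1, A (ω * z) = ω * z ^ n) :
    ¬ ∃ Ψ : Moduli n → Moduli n, Hyp n A a Ψ :=
  main a_GIR a_PKG a_GEL a_XSE a_GFP a_GBS a_GHC a_BLA a_XSQ a_XGS a_LRP a_LRA a_HKA a_HRE a_VID
    a_VCL a_VLO a_VEX a_VMA a_VFI a_XND n A a hn hA hrot

end Pool.Agent.MAT
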