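import Pool.Agent.MAT.Defs

/-!
# MAT: internal definitions for the proof (see Blueprint.lean.txt)
-/

set_option autoImplicit false

open Polynomial Metric Set Filter Topology

noncomputable section

namespace Pool.Agent.MAT

/-! ### rational maps -/

/-- the rational function `N / D` -/
def rf (N D : ℂ[X]) (z : ℂ) : ℂ := N.eval z / D.eval z

/-- the numerator of the derivative of `N / D` -/
def wr (N D : ℂ[X]) : ℂ[X] := derivative N * D - N * derivative D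

/-- normal form: `N` monic of degree `n`, `deg D < n`, coprime -/
structure NDeg (n : ℕ) (N D : ℂ[X]) : Prop where
  monic : N.Monic
  deg : N.natDegree = n
  dden : D.natDegree < n
  cop : IsCoprime N D

/-- coefficientwise convergence of polynomials of degree `≤ d` -/
def PConv (l : Filter ℕ) (d : ℕ) (Pk : ℕ → ℂ[X]) (P : ℂ[X]) : Prop :=
  (∀ᶠ k in l, (Pk k).natDegree ≤ d) ∧ P.natDegree ≤ d ∧
    ∀ i : ℕ, Tendsto (fun k => (Pk k).coeff i) l (𝓝 (P.coeff i))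

/-- the open set `1 / ϕ(disk)` (without `∞`) -/
def Out (ϕ : ℂ → ℂ) : Set ℂ := {z | ∃ ζ ∈ ball (0 : ℂ) 1, ϕ ζ * z = 1}

/-- the `A`-side of a mating: `ϕ = 1 / φ` -/
structure ASide (A : ℂ → ℂ) (N D : ℂ[X]) (R : ℝ) (ϕ : ℂ → ℂ) : Prop where
  hR : 1 ≤ R
  hol : DifferentiableOn ℂ ϕ (ball 0 1)
  inj : InjOn ϕ (ball 0 1)
  zero : ϕ 0 = 0
  conj : ∀ ζ ∈ ball (0 : ℂ) 1, ∀ z, ϕ ζ * z = 1 → N.eval z * ϕ (A ζ) = D.eval z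
  esc : ∀ z, R ≤ ‖z‖ → z ∈ Out ϕ
  back : ∀ z, z ∉ Out ϕ → D.eval z ≠ 0 ∧ rf N D z ∉ Out ϕ

/-! ### the explicit polynomials -/

/-- the polynomial `G`, with a parabolic fixed point at `1` and critical points `0`, `-e` -/
def GG (n : ℕ) (e : ℝ) (v : ℂ) : ℂ :=
  1 + ((v ^ n - 1) / n + e * (v ^ (n - 1) - 1) / ((n : ℂ) - 1)) / (1 + e)

/-- the perturbation `F_μ` with multiplier `μ` at `1` -/
def GF (n : ℕ) (e : ℝ) (μ : ℂ) (v : ℂ) : ℂ := 1 + μ * (GG n e v - 1)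

/-- half of the second derivative of `G` at `1` -/
def cA (n : ℕ) (e : ℝ) : ℝ := (((n : ℝ) - 2) * (1 + e) + 1) / (2 * (1 + e))

/-- the parabolic basin of `1` for `G` -/
def UG (n : ℕ) (e : ℝ) : Set ℂ := {v | ∃ m : ℕ, ‖(GG n e)^[m] v‖ < 1}

/-- the filled Julia set of `G` -/
def KG (n : ℕ) (e : ℝ) : Set ℂ := {v | ∃ R : ℝ, ∀ m : ℕ, ‖(GG n e)^[m] v‖ ≤ R}

/-- the basin of `1` for `F_μ` -/
def Bas (n : ℕ) (e : ℝ) (μ : ℂ) : Set ℂ :=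
  {v | Tendsto (fun m : ℕ => (GF n e μ)^[m] v) atTop (𝓝 1)}

/-- the horocyclic multipliers are `exp (ell S k)` -/
def ell (S : ℝ) (k : ℕ) : ℂ := 2 * Real.pi * Complex.I / ((k : ℂ) - S * Complex.I)

/-- a pair of mating data for the polynomial `F_μ` and the rational map `N / D` -/
structure Pair (n : ℕ) (e : ℝ) (A : ℂ → ℂ) (ρ : ℝ) (μ : ℂ) (N D : ℂ[X]) (R : ℝ)
    (ϕ χ : ℂ → ℂ) : Prop where
  deg : NDeg n N D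
  aside : ASide A N D R ϕ
  opn : IsOpen (Bas n e μ)
  mem0 : (0 : ℂ) ∈ Bas n e μ
  meme : (-(e : ℂ)) ∈ Bas n e μ
  hol : DifferentiableOn ℂ χ (Bas n e μ)
  inj : InjOn χ (Bas n e μ)
  conj : ∀ v ∈ Bas n e μ, N.eval (χ v) = χ (GF n e μ v) * D.eval (χ v)
  back : ∀ v ∈ Bas n e μ, ∀ z, N.eval z = χ v * D.eval z →
    ∃ v' ∈ Bas n e μ, GF n e μ v' = v ∧ χ v' = z
  cross : ∀ v ∈ Bas n e μ, χ v ∉ Out ϕ
  crit : ∀ z, (wr N D).eval z = 0 → (∃ ζ, ‖ζ‖ ≤ ρ ∧ ϕ ζ * z = 1) ∨ z = χ 0 ∨ z = χ (-(e : ℂ))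
  zero : N.eval 0 = 0
  rep : 1 ≤ ‖(derivative N).eval 0 / D.eval 0‖

/-- what the radial limit gives at first: `χ` may still be constant -/
structure RadPre (n : ℕ) (e : ℝ) (A : ℂ → ℂ) (N D : ℂ[X]) (R : ℝ) (ϕ χ : ℂ → ℂ) (q : ℂ) :
    Prop where
  deg : NDeg n N D
  aside : ASide A N D R ϕ
  hol : DifferentiableOn ℂ χ (UG n e)
  dich : InjOn χ (UG n e) ∨ ∀ v ∈ UG n e, ∀ w ∈ UG n e, χ v = χ w
  conj : ∀ v ∈ UG n e, N.eval (χ v) = χ (GG n e v) * D.eval (χ v)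
  back : InjOn χ (UG n e) → ∀ v ∈ UG n e, ∀ z, N.eval z = χ v * D.eval z →
    ∃ v' ∈ UG n e, GG n e v' = v ∧ χ v' = z
  cross : ∀ v ∈ UG n e, χ v ∉ Out ϕ
  crit : ∀ z, (wr N D).eval z = 0 → z ∈ Out ϕ ∨ z = χ 0 ∨ z = χ (-(e : ℂ))
  crit0 : (wr N D).eval (χ 0) = 0
  fixq : N.eval q = q * D.eval q
  mulq : (wr N D).eval q = D.eval q ^ 2

/-- the limit of the pairs along the radial sequence -/
structure Rad (n : ℕ) (e : ℝ) (A : ℂ → ℂ) (N D : ℂ[X]) (R : ℝ) (ϕ χ : ℂ → ℂ) (p : ℂ) :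
    Prop where
  deg : NDeg n N D
  aside : ASide A N D R ϕ
  hol : DifferentiableOn ℂ χ (UG n e)
  inj : InjOn χ (UG n e)
  conj : ∀ v ∈ UG n e, N.eval (χ v) = χ (GG n e v) * D.eval (χ v)
  back : ∀ v ∈ UG n e, ∀ z, N.eval z = χ v * D.eval z →
    ∃ v' ∈ UG n e, GG n e v' = v ∧ χ v' = z
  cross : ∀ v ∈ UG n e, χ v ∉ Out ϕ
  crit : ∀ z, (wr N D).eval z = 0 → z ∈ Out ϕ ∨ z = χ 0 ∨ z = χ (-(e : ℂ))
  conv : ∀ v ∈ UG n e, Tendsto (fun m : ℕ => χ ((GG n e)^[m] v)) atTop (𝓝 p)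
  fixp : N.eval p = p * D.eval p
  denp : D.eval p ≠ 0
  mult : (wr N D).eval p = D.eval p ^ 2
  nondeg : iteratedDeriv 2 (rf N D) p ≠ 0
  uniq : ∀ q : ℂ, N.eval q = q * D.eval q → (wr N D).eval q = D.eval q ^ 2 → q = p

/-! ### parabolic fixed points -/

/-- the coordinate `ω = - 1 / (a (z - p))` -/
def omc (a p z : ℂ) : ℂ := -1 / (a * (z - p))

/-- the approximate incoming Fatou coordinate -/
def Lin (β ω : ℂ) : ℂ := ω - β * Complex.log ω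

/-- the approximate outgoing Fatou coordinate -/
def Lout (β ω : ℂ) : ℂ := ω - β * (Complex.log (-ω) + Real.pi * Complex.I)

/-- the incoming petal -/
def PinS (a p : ℂ) (R : ℝ) : Set ℂ := {z | z ≠ p ∧ R < (omc a p z).re + |(omc a p z).im|}

/-- Fatou coordinates and the upper horn map of a parabolic fixed point `p` of `g`,
`g'' (p) = 2 a ≠ 0`.  `Fi` is the incoming coordinate on the petal `PinS a p Rp`, `Ei` its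
inverse on a right half plane, `E` the inverse of the outgoing coordinate (extended by
`E (w + 1) = g (E w)`), `H` the horn map at the upper end. -/
structure PK (g : ℂ → ℂ) (p a : ℂ) where
  β : ℂ
  Rp : ℝ
  R : ℝ
  C : ℝ
  Fi : ℂ → ℂ
  Ei : ℂ → ℂ
  E : ℂ → ℂ
  H : ℂ → ℂ
  a_ne : a ≠ 0
  hRp : 1 ≤ Rp
  hR : Rp ≤ R
  hC : 0 ≤ C
  g_an : AnalyticAt ℂ g p
  g_fix : g p = p
  g_der : deriv g p = 1
  ha : iteratedDeriv 2 g p = 2 * a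
  hβ : iteratedDeriv 3 g p = 6 * a ^ 2 * (1 - β)
  in_hol : DifferentiableOn ℂ g (PinS a p Rp)
  in_map : ∀ z ∈ PinS a p Rp, g z ∈ PinS a p Rp
  in_conv : ∀ z ∈ PinS a p Rp, Tendsto (fun m : ℕ => g^[m] z) atTop (𝓝 p)
  in_orb : ∀ z ∈ PinS a p Rp, ∀ m : ℕ, ‖omc a p z‖ ≤ 4 * ‖omc a p (g^[m] z)‖
  in_abs : ∀ z, Tendsto (fun m : ℕ => g^[m] z) atTop (𝓝 p) → (∀ m : ℕ, g^[m] z ≠ p) →
    ∃ m : ℕ, g^[m] z ∈ PinS a p Rp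
  Fi_hol : DifferentiableOn ℂ Fi (PinS a p Rp)
  Fi_inj : InjOn Fi (PinS a p Rp)
  Fi_map : ∀ z ∈ PinS a p Rp, Fi (g z) = Fi z + 1
  Fi_asy : ∀ z ∈ PinS a p Rp, ‖Fi z - Lin β (omc a p z)‖ ≤ C / ‖omc a p z‖
  Ei_hol : DifferentiableOn ℂ Ei {w | R < w.re}
  Ei_mem : ∀ w : ℂ, R < w.re → Ei w ∈ PinS a p Rp
  Ei_inv : ∀ w : ℂ, R < w.re → Fi (Ei w) = w
  E_add : ∀ w : ℂ, E (w + 1) = g (E w)
  E_hol : DifferentiableOn ℂ E {w | w.re < -R}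
  E_inj : InjOn E {w | w.re < -R}
  E_ne : ∀ w : ℂ, w.re < -R → E w ≠ p
  E_loc : ∀ w : ℂ, w.re < -R → 1 < -(omc a p (E w)).re + |(omc a p (E w)).im|
  E_asy : ∀ w : ℂ, w.re < -R → ‖Lout β (omc a p (E w)) - w‖ ≤ C / ‖omc a p (E w)‖
  E_conv : ∀ w : ℂ, Tendsto (fun m : ℕ => E (w - m)) atTop (𝓝 p)
  E_surj : ∀ y : ℕ → ℂ, (∀ m, g (y (m + 1)) = y m) → (∀ m, y m ≠ p) →
    Tendsto y atTop (𝓝 p) → ∀ X : ℝ, ∃ (m : ℕ) (w : ℂ), w.re < -X ∧ E w = y m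
  E_hol2 : DifferentiableOn ℂ E {w | R < w.im}
  E_up : ∀ ε : ℝ, 0 < ε → ∃ Y : ℝ, ∀ w : ℂ, Y < w.im → ‖E w - p‖ < ε
  H_hol : DifferentiableOn ℂ H {w | R < w.im}
  H_add : ∀ w : ℂ, R < w.im → H (w + 1) = H w + 1
  H_lim : ∀ ε : ℝ, 0 < ε → ∃ Y : ℝ, ∀ w : ℂ, Y < w.im → ‖H w - w‖ < ε
  H_spec : ∀ w : ℂ, R < w.im → ∃ m : ℕ, g^[m] (E w) ∈ PinS a p Rp ∧
    Fi (g^[m] (E w)) = H w + m

/-- `x` has incoming Fatou coordinate `w` -/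
def PK.HasPhi {g : ℂ → ℂ} {p a : ℂ} (K : PK g p a) (x w : ℂ) : Prop :=
  ∃ m : ℕ, g^[m] x ∈ PinS a p K.Rp ∧ K.Fi (g^[m] x) = w + m

/-- the part of the basin of `G` with Fatou coordinate above height `-C₁` -/
def US {n : ℕ} {e : ℝ} (K : PK (GG n e) 1 (cA n e)) (C₁ : ℝ) : Set ℂ :=
  {x | x ∈ UG n e ∧ ∃ w : ℂ, K.HasPhi x w ∧ -C₁ < w.im}

/-- incoming part of the package in the normalised case -/
structure InP (f : ℂ → ℂ) (β : ℂ) (Rp R C : ℝ) (Fi Ei : ℂ → ℂ) : Prop where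
  hRp : 1 ≤ Rp
  hR : Rp ≤ R
  hC : 0 ≤ C
  hol : DifferentiableOn ℂ f (PinS 1 0 Rp)
  map : ∀ z ∈ PinS 1 0 Rp, f z ∈ PinS 1 0 Rp
  conv : ∀ z ∈ PinS 1 0 Rp, Tendsto (fun m : ℕ => f^[m] z) atTop (𝓝 0)
  orb : ∀ z ∈ PinS 1 0 Rp, ∀ m : ℕ, ‖omc 1 0 z‖ ≤ 4 * ‖omc 1 0 (f^[m] z)‖
  Fi_hol : DifferentiableOn ℂ Fi (PinS 1 0 Rp)
  Fi_inj : InjOn Fi (PinS 1 0 Rp)
  Fi_map : ∀ z ∈ PinS 1 0 Rp, Fi (f z) = Fi z + 1
  Fi_asy : ∀ z ∈ PinS 1 0 Rp, ‖Fi z - Lin β (omc 1 0 z)‖ ≤ C / ‖omc 1 0 z‖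
  Ei_hol : DifferentiableOn ℂ Ei {w | R < w.re}
  Ei_mem : ∀ w : ℂ, R < w.re → Ei w ∈ PinS 1 0 Rp
  Ei_inv : ∀ w : ℂ, R < w.re → Fi (Ei w) = w

/-- the outgoing petal in the normalised case -/
def QoutS (R : ℝ) : Set ℂ := {z | z ≠ 0 ∧ R < -(omc 1 0 z).re + |(omc 1 0 z).im|}

/-- outgoing part of the package in the normalised case; `h` is the local inverse of `f` -/
structure OutP (f h : ℂ → ℂ) (β : ℂ) (Rp R C : ℝ) (Po Eo : ℂ → ℂ) : Prop where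
  hRp : 1 ≤ Rp
  hR : Rp ≤ R
  hC : 0 ≤ C
  hol : DifferentiableOn ℂ h (QoutS Rp)
  map : ∀ z ∈ QoutS Rp, h z ∈ QoutS Rp
  inv : ∀ z ∈ QoutS Rp, f (h z) = z
  conv : ∀ z ∈ QoutS Rp, Tendsto (fun m : ℕ => h^[m] z) atTop (𝓝 0)
  orb : ∀ z ∈ QoutS Rp, ∀ m : ℕ, ‖omc 1 0 z‖ ≤ 4 * ‖omc 1 0 (h^[m] z)‖
  Po_hol : DifferentiableOn ℂ Po (QoutS Rp)
  Po_inj : InjOn Po (QoutS Rp)
  Po_map : ∀ z ∈ QoutS Rp, Po (h z) = Po z - 1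
  Po_asy : ∀ z ∈ QoutS Rp, ‖Po z - Lout β (omc 1 0 z)‖ ≤ C / ‖omc 1 0 z‖
  Eo_hol : DifferentiableOn ℂ Eo {w | w.re < -R}
  Eo_mem : ∀ w : ℂ, w.re < -R → Eo w ∈ QoutS Rp
  Eo_inv : ∀ w : ℂ, w.re < -R → Po (Eo w) = w

/-- perturbation of a normalised parabolic germ `z + z² e(z)`: `z + z (z - p_k) e_k(z)` with
multiplier `exp (ell S k)` at `0` -/
structure PD (l : Filter ℕ) (S r : ℝ) (e : ℂ → ℂ) (ek : ℕ → ℂ → ℂ) (pk : ℕ → ℂ) : Prop where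
  hl : l ≤ atTop
  hS : 0 < S
  hr : 0 < r
  e_hol : DifferentiableOn ℂ e (ball 0 r)
  e_zero : e 0 = 1
  ek_hol : ∀ᶠ k in l, DifferentiableOn ℂ (ek k) (ball 0 r)
  ek_lim : TendstoUniformlyOn ek e l (ball 0 r)
  pk_lim : Tendsto pk l (𝓝 0)
  mult : ∀ᶠ k in l, 1 - pk k * ek k 0 = Complex.exp (ell S k)

/-- maps of the `ω`-plane close to the translation by one -/
structure PF (F : ℂ → ℂ) (β : ℂ) (R₀ C₀ : ℝ) : Prop where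
  hR : 1 ≤ R₀
  hC : 0 ≤ C₀
  hol : DifferentiableOn ℂ F {ω | R₀ < ‖ω‖}
  est : ∀ ω : ℂ, R₀ < ‖ω‖ → ‖F ω - ω - 1 - β / ω‖ ≤ C₀ / ‖ω‖ ^ 2

/-- the forward invariant region of the `ω`-plane -/
def PR (R : ℝ) : Set ℂ := {ω | R < ω.re + |ω.im|}

/-- continuous convergence at a point -/
def CC (l : Filter ℕ) (gk : ℕ → ℂ → ℂ) (g : ℂ → ℂ) (y : ℂ) : Prop :=
  ∀ yk : ℕ → ℂ, Tendsto yk l (𝓝 y) → Tendsto (fun k => gk k (yk k)) l (𝓝 (g y))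

/-- the half planes -/
def Hs (σ : ℝ) : Set ℂ := {z | 0 < σ * z.im}

/-- `x` is the normal form of `F_μ` with marked fixed point `p` -/
def XR (n : ℕ) (e : ℝ) (μ p : ℂ) (x : RatMap n) : Prop :=
  (∀ i : Fin n, (i : ℕ) ≠ 0 → x.1.2 i = 0) ∧ (∀ z, x.den.eval z ≠ 0) ∧
    ∀ z, rf x.num x.den z = GF n e μ (p + z) - p

/-- `ρ_k = 1 / ℓ + 1 / ℓ'` -/
def rhoc (ℓ p : ℂ) (e : ℂ → ℂ) : ℂ := 1 / ℓ + 1 / Complex.log (1 + p * e p)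

/-- `z = Z_k (τ) = p / (1 - exp (- ℓ τ))` -/
def Zc (ℓ p τ : ℂ) : ℂ := p / (1 - Complex.exp (-(ℓ * τ)))

/-- `Ω_k (τ) = τ - ρ log (1 - exp (ℓ τ))` -/
def Omc (ℓ ρ τ : ℂ) : ℂ := τ - ρ * Complex.log (1 - Complex.exp (ℓ * τ))

/-- `κ = k - i S` -/
def kap (S : ℝ) (k : ℕ) : ℂ := (k : ℂ) - S * Complex.I

/-- the situation along a horocyclic sequence -/
structure HorD (n : ℕ) (e : ℝ) (A : ℂ → ℂ) (ρ : ℝ) (N D : ℂ[X]) (R S : ℝ) (u : Ultrafilter ℕ)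
    (Nk Dk : ℕ → ℂ[X]) (ϕk χk : ℕ → ℂ → ℂ) : Prop where
  hu : (u : Filter ℕ) ≤ atTop
  hS : 0 < S
  pair : ∀ᶠ k in (u : Filter ℕ),
    Pair n e A ρ (Complex.exp (ell S k)) (Nk k) (Dk k) R (ϕk k) (χk k)
  cN : PConv (u : Filter ℕ) n Nk N
  cD : PConv (u : Filter ℕ) n Dk D

/-- the sector in the attracting direction `ε` at `p`, with half opening angle `π / (8 ν)` -/
def Sect (p ε : ℂ) (ν : ℕ) (r : ℝ) : Set ℂ :=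
  {z | ∃ t : ℂ, z = p + ε * t ∧ t ≠ 0 ∧ ‖t‖ < r ∧ |Complex.arg t| < Real.pi / (8 * ν)}

/-- the Riemann map of the complement of the filled Julia set of `G` -/
structure GSide (n : ℕ) (e : ℝ) (φ : ℂ → ℂ) : Prop where
  hol : DifferentiableOn ℂ φ (ball 0 1 \ {0})
  inj : InjOn φ (ball 0 1 \ {0})
  conj : ∀ ζ ∈ ball (0 : ℂ) 1 \ {0}, GG n e (φ ζ) = φ (ζ ^ n)
  img : φ '' (ball 0 1 \ {0}) = (KG n e)ᶜ
  pole : Tendsto (fun ζ => ‖φ ζ‖) (𝓝[≠] 0) atTop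
  near : ∀ W : Set ℂ, IsOpen W → KG n e ⊆ W →
    ∃ ρ : ℝ, 0 < ρ ∧ ρ < 1 ∧ ∀ ζ : ℂ, ρ < ‖ζ‖ → ‖ζ‖ < 1 → φ ζ ∈ W

/-- an extension of `χ` to a neighbourhood of the filled Julia set of `G` -/
structure Exd (n : ℕ) (e : ℝ) (N D : ℂ[X]) (χ : ℂ → ℂ) (p : ℂ) (W W₁ : Set ℂ) (χ' : ℂ → ℂ) :
    Prop where
  opn : IsOpen W
  opn₁ : IsOpen W₁
  sub : KG n e ⊆ W₁
  sub₁ : W₁ ⊆ W
  hol : DifferentiableOn ℂ χ' W
  ext : ∀ v ∈ UG n e, χ' v = χ v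
  map : ∀ v ∈ W₁, GG n e v ∈ W
  conj : ∀ v ∈ W₁, N.eval (χ' v) = χ' (GG n e v) * D.eval (χ' v)
  one : χ' 1 = p

end Pool.Agent.MAT
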