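import Mathlib

/-!
# Matings of Blaschke products: the objects of the question

`RatMap n`: rational maps of degree `n` fixing `0` and `∞`, in the normal form `N / D` with
`N` monic of degree `n`, `N(0) = 0`, `deg D < n`, `N` and `D` coprime.  Every triple `(f, p, q)`
with `f` of degree `n` and fixed points `p ≠ q` is Möbius conjugate to exactly one class of such
maps under the scalings `z ↦ c z`, with `p = 0` and `q = ∞`.
-/

set_option autoImplicit false

open Polynomial Metric Set Filter Topology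

noncomputable section

namespace Pool.Agent.MAT

/-- The monic polynomial `X ^ n + ∑ i < n, u i * X ^ i`. -/
def numP (n : ℕ) (u : Fin n → ℂ) : ℂ[X] := X ^ n + ∑ i : Fin n, C (u i) * X ^ (i : ℕ)

/-- The polynomial `∑ i < n, v i * X ^ i`. -/
def denP (n : ℕ) (v : Fin n → ℂ) : ℂ[X] := ∑ i : Fin n, C (v i) * X ^ (i : ℕ)

/-- Rational maps `N / D` of degree `n` with the marked fixed points `p = 0` and `q = ∞`:
`N` monic of degree `n`, `N(0) = 0`, `deg D < n`, and `N`, `D` coprime.  The topology is that of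
the coefficients. -/
def RatMap (n : ℕ) : Type :=
  {x : (Fin n → ℂ) × (Fin n → ℂ) //
    (numP n x.1).eval 0 = 0 ∧ IsCoprime (numP n x.1) (denP n x.2)}

instance (n : ℕ) : TopologicalSpace (RatMap n) := by unfold RatMap; infer_instance

/-- the numerator of a map -/
def RatMap.num {n : ℕ} (x : RatMap n) : ℂ[X] := numP n x.1.1

/-- the denominator of a map -/
def RatMap.den {n : ℕ} (x : RatMap n) : ℂ[X] := denP n x.1.2

/-- `y` is the conjugate of `x` by the scaling `z ↦ c z`: `f_y (c z) = c f_x (z)`. -/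
def ScaleBy {n : ℕ} (c : ℂ) (x y : RatMap n) : Prop :=
  c ≠ 0 ∧ (∀ i : Fin n, y.1.1 i = c ^ (n - (i : ℕ)) * x.1.1 i) ∧
    ∀ i : Fin n, y.1.2 i = c ^ (n - 1 - (i : ℕ)) * x.1.2 i

/-- Möbius conjugacy fixing the two marked points, as an equivalence relation. -/
def modSetoid (n : ℕ) : Setoid (RatMap n) where
  r x y := ∃ c : ℂ, ScaleBy c x y
  iseqv := by
    refine ⟨fun x => ⟨1, one_ne_zero, fun i => by simp, fun i => by simp⟩, ?_, ?_⟩
    · rintro x y ⟨c, hc, h1, h2⟩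
      refine ⟨c⁻¹, inv_ne_zero hc, fun i => ?_, fun i => ?_⟩
      · rw [h1 i, ← mul_assoc, ← mul_pow, inv_mul_cancel₀ hc, one_pow, one_mul]
      · rw [h2 i, ← mul_assoc, ← mul_pow, inv_mul_cancel₀ hc, one_pow, one_mul]
    · rintro x y z ⟨c, hc, h1, h2⟩ ⟨d, hd, h3, h4⟩
      refine ⟨d * c, mul_ne_zero hd hc, fun i => ?_, fun i => ?_⟩
      · rw [h3 i, h1 i, mul_pow, mul_assoc]
      · rw [h4 i, h2 i, mul_pow, mul_assoc]

/-- The moduli space of degree `n` rational maps with two marked fixed points `p ≠ q`,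
with the quotient topology. -/
def Moduli (n : ℕ) : Type := Quotient (modSetoid n)

instance (n : ℕ) : TopologicalSpace (Moduli n) := by unfold Moduli; infer_instance

/-- the class of a map -/
def cls {n : ℕ} (x : RatMap n) : Moduli n := Quotient.mk (modSetoid n) x

/-- The classes of polynomials with `q = ∞`: the denominator is a constant. -/
def PolyClass (n : ℕ) : Set (Moduli n) :=
  {q | ∃ x : RatMap n, cls x = q ∧ ∀ i : Fin n, (i : ℕ) ≠ 0 → x.1.2 i = 0}

/-- Polynomials (with the marked fixed point `p = 0`) which have an attracting fixed point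
`z₀ ≠ p` whose immediate basin contains all finite critical points. -/
def HypPoly (n : ℕ) : Set (Moduli n) :=
  {q | ∃ x : RatMap n, cls x = q ∧ (∀ i : Fin n, (i : ℕ) ≠ 0 → x.1.2 i = 0) ∧
    ∃ z₀ : ℂ, z₀ ≠ 0 ∧ x.num.eval z₀ / x.den.eval z₀ = z₀ ∧
      ‖deriv (fun z => x.num.eval z / x.den.eval z) z₀‖ < 1 ∧
      ∀ c : ℂ, deriv (fun z => x.num.eval z / x.den.eval z) c = 0 →
        c ∈ connectedComponentIn
          {v : ℂ | Tendsto (fun m : ℕ => (fun z => x.num.eval z / x.den.eval z)^[m] v)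
            atTop (𝓝 z₀)} z₀}

/-- A Blaschke product of degree `n` with `A 0 = 0`, as a map of the closed unit disk. -/
def IsBlaschke (n : ℕ) (A : ℂ → ℂ) : Prop :=
  ∃ (c : ℂ) (α : Fin n → ℂ), ‖c‖ = 1 ∧ (∀ i, ‖α i‖ < 1) ∧ (∃ i, α i = 0) ∧
    ∀ z ∈ closedBall (0 : ℂ) 1,
      A z = c * ∏ i, (z - α i) / (1 - (starRingEnd ℂ) (α i) * z)

/-- A marked Blaschke product: a Blaschke product with a marked fixed point on the circle. -/
def Marked (n : ℕ) (A : ℂ → ℂ) (a : ℂ) : Prop := IsBlaschke n A ∧ ‖a‖ = 1 ∧ A a = a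

/-- The rational map `N / D` (with `p = 0`, `q = ∞`) is the mating of `(A, a)` and `(B, b)`:
`φ` and `ψ` embed two closed disks in the sphere (`φ 0 = ∞`), holomorphically inside, their
images cover the sphere and meet exactly along the images of the unit circle, they conjugate
`A` and `B` to `N / D`, and `a` and `b` go to the marked point `p = 0`. -/
structure IsMating (A : ℂ → ℂ) (a : ℂ) (B : ℂ → ℂ) (b : ℂ) (N D : ℂ[X]) (φ ψ : ℂ → ℂ) :
    Prop where
  φ_cont : ContinuousOn φ (closedBall 0 1 \ {0})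
  φ_hol : DifferentiableOn ℂ φ (ball 0 1 \ {0})
  φ_inj : InjOn φ (closedBall 0 1 \ {0})
  φ_pole : Tendsto (fun z => ‖φ z‖) (𝓝[≠] 0) atTop
  ψ_cont : ContinuousOn ψ (closedBall 0 1)
  ψ_hol : DifferentiableOn ℂ ψ (ball 0 1)
  ψ_inj : InjOn ψ (closedBall 0 1)
  cover : ∀ z : ℂ, (∃ w ∈ closedBall (0 : ℂ) 1 \ {0}, φ w = z) ∨
    ∃ w ∈ closedBall (0 : ℂ) 1, ψ w = z
  sep : ∀ z ∈ closedBall (0 : ℂ) 1 \ {0}, ∀ w ∈ closedBall (0 : ℂ) 1, φ z = ψ w →
    ‖z‖ = 1 ∧ ‖w‖ = 1
  circ : φ '' sphere 0 1 = ψ '' sphere 0 1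
  φ_conj : ∀ z ∈ closedBall (0 : ℂ) 1 \ {0}, A z ≠ 0 →
    N.eval (φ z) = φ (A z) * D.eval (φ z)
  φ_conj_zero : ∀ z ∈ closedBall (0 : ℂ) 1 \ {0}, A z = 0 → D.eval (φ z) = 0
  ψ_conj : ∀ w ∈ closedBall (0 : ℂ) 1, N.eval (ψ w) = ψ (B w) * D.eval (ψ w)
  mark : φ a = 0 ∧ ψ b = 0

/-- The class `q` of `(f, p, q)` is that of the mating of `(A, a)` and `(B, b)`. -/
def Mates (n : ℕ) (A : ℂ → ℂ) (a : ℂ) (B : ℂ → ℂ) (b : ℂ) (q : Moduli n) : Prop :=
  ∃ x : RatMap n, cls x = q ∧ ∃ φ ψ : ℂ → ℂ, IsMating A a B b x.num x.den φ ψ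

end Pool.Agent.MAT
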