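import Pool.Agent.MAT.Core

/-!
# MAT: targets G (the explicit polynomials)
-/

set_option autoImplicit false

open Polynomial Metric Set Filter Topology

noncomputable section

namespace Pool.Agent.MAT

/-- GEL (elementary facts on `G`) -/
def T_GEL : Prop := ∀ (n : ℕ) (e : ℝ), 3 ≤ n → 0 < e → e ≤ 1 / 2 →
  GG n e 1 = 1 ∧
  (∀ v : ℂ, HasDerivAt (GG n e) (v ^ (n - 2) * (v + e) / (1 + e)) v) ∧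
  (∀ v : ℂ, GG n e ((starRingEnd ℂ) v) = (starRingEnd ℂ) (GG n e v)) ∧
  (∀ v : ℂ, ‖v‖ ≤ 1 → v ≠ 1 → ‖GG n e v‖ < 1) ∧
  iteratedDeriv 2 (GG n e) 1 = 2 * (cA n e : ℂ) ∧ (iteratedDeriv 3 (GG n e) 1).im = 0 ∧
  0 < cA n e ∧
  (∃ P : ℂ[X], P.natDegree = n ∧ (∀ v, P.eval v = GG n e v) ∧
    P.coeff n = 1 / ((n : ℂ) * (1 + e)) ∧
    P.coeff (n - 1) = e / (((n : ℂ) - 1) * (1 + e)) ∧ P.coeff (n - 2) = 0) ∧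
  (∃ R : ℝ, 2 ≤ R ∧ ∀ v : ℂ, R ≤ ‖v‖ → 2 * ‖v‖ ≤ ‖GG n e v‖) ∧
  (∀ v : ℂ, GG n e v = GG n e 0 → v = 0 ∨ v = -(e * n / (n - 1) : ℝ)) ∧
  ‖GG n e 0‖ < 1

/-- GQ (the quotient `(1 - G) / (1 - v)`) -/
def T_GQ : Prop := ∀ (n : ℕ) (e : ℝ), 3 ≤ n → 0 < e → e ≤ 1 / 2 →
  ∃ Q : ℂ[X], (∀ v : ℂ, 1 - GG n e v = (1 - v) * Q.eval v) ∧ Q.eval 1 = 1 ∧
    (derivative Q).eval 1 = (cA n e : ℂ) ∧ (∀ i, (Q.coeff i).im = 0) ∧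
    (∀ v : ℂ, ‖v‖ ≤ 1 → ‖Q.eval v‖ ≤ 1) ∧ ∀ v : ℂ, ‖v‖ ≤ 1 → v ≠ 1 → ‖Q.eval v‖ < 1

/-- GBA (the parabolic basin; from GEL, GQ, COMP) -/
def T_GBA : Prop := ∀ (n : ℕ) (e : ℝ), 3 ≤ n → 0 < e → e ≤ 1 / 2 →
  IsOpen (UG n e) ∧ IsPreconnected (UG n e) ∧ ball (0 : ℂ) 1 ⊆ UG n e ∧
  (∀ v : ℂ, GG n e v ∈ UG n e ↔ v ∈ UG n e) ∧
  (∀ v ∈ UG n e, Tendsto (fun m : ℕ => (GG n e)^[m] v) atTop (𝓝 1) ∧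
    ∀ m : ℕ, (GG n e)^[m] v ≠ 1) ∧
  (∃ R : ℝ, ∀ v ∈ KG n e, ‖v‖ ≤ R) ∧ UG n e ⊆ KG n e ∧ (1 : ℂ) ∉ UG n e ∧
  (∀ v : ℂ, v ∈ UG n e → (starRingEnd ℂ) v ∈ UG n e) ∧ IsClosed (KG n e) ∧
  (∀ v : ℂ, GG n e v ∈ KG n e ↔ v ∈ KG n e) ∧ 0 ∈ UG n e ∧ (-(e : ℂ)) ∈ UG n e

/-- GAB (orbits converging to the parabolic point; from GEL) -/
def T_GAB : Prop := ∀ (n : ℕ) (e : ℝ), 3 ≤ n → 0 < e → e ≤ 1 / 2 → ∀ v : ℂ,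
  Tendsto (fun m : ℕ => (GG n e)^[m] v) atTop (𝓝 1) → (∀ m : ℕ, (GG n e)^[m] v ≠ 1) →
  v ∈ UG n e

/-- GRE (real points; from GEL, GQ, GBA) -/
def T_GRE : Prop := ∀ (n : ℕ) (e : ℝ), 3 ≤ n → 0 < e → e ≤ 1 / 2 → ∀ y : ℝ,
  (y : ℂ) ∈ KG n e → (y : ℂ) ∉ UG n e →
  1 ≤ |y| ∧ ((y : ℂ) = 1 ∨ GG n e y = 1 ∨ (GG n e y = y ∧ 1 < ‖deriv (GG n e) y‖)) ∧
    (y : ℂ) ∈ closure (UG n e)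

/-- GBR (inverse branches on half planes; from GEL, ROOT) -/
def T_GBR : Prop := ∀ (n : ℕ) (e : ℝ), 3 ≤ n → 0 < e → e ≤ 1 / 2 → ∀ σ : ℝ, σ ≠ 0 →
  ∀ (m : ℕ) (x y : ℂ), x ∈ Hs σ → (GG n e)^[m] y = x →
  ∃ h : ℂ → ℂ, DifferentiableOn ℂ h (Hs σ) ∧ h x = y ∧
    (∀ z ∈ Hs σ, (GG n e)^[m] (h z) = z) ∧ ∀ z ∈ Hs σ, 0 < (h z).im * y.im

/-- GSH (inverse branches shrink; from GEL, UL, HUR) -/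
def T_GSH : Prop := ∀ (n : ℕ) (e : ℝ), 3 ≤ n → 0 < e → e ≤ 1 / 2 → ∀ (σ : ℝ) (u : Ultrafilter ℕ)
  (m : ℕ → ℕ) (h : ℕ → ℂ → ℂ), σ ≠ 0 → Tendsto m (u : Filter ℕ) atTop →
  (∀ᶠ i in (u : Filter ℕ), DifferentiableOn ℂ (h i) (Hs σ) ∧
    ∀ z ∈ Hs σ, (GG n e)^[m i] (h i z) = z) →
  ∃ c : ℂ, TendstoLocallyUniformlyOn h (fun _ => c) (u : Filter ℕ) (Hs σ)

/-- GNW (no other Fatou components; from GEL, GBA, GAB, GRE, GBR, GSH) -/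
def T_GNW : Prop := ∀ (n : ℕ) (e : ℝ), 3 ≤ n → 0 < e → e ≤ 1 / 2 →
  KG n e = closure (UG n e)

/-- GUH (the upper half of the basin is connected; from GBA) -/
def T_GUH : Prop := ∀ (n : ℕ) (e : ℝ), 3 ≤ n → 0 < e → e ≤ 1 / 2 →
  IsPreconnected (UG n e ∩ Hs 1)

/-- GPR (preimages in the upper half plane; from GEL, GBA) -/
def T_GPR : Prop := ∀ (n : ℕ) (e : ℝ), 3 ≤ n → 0 < e → e ≤ 1 / 2 → ∀ y : ℂ,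
  y ∉ UG n e → ∃ (M : ℕ) (y' : ℂ), 0 < y'.im ∧ (GG n e)^[M] y' = y

/-- GEN (`K.E w → 1` as `Re w → -∞`; any package) -/
def T_GEN : Prop := ∀ (g : ℂ → ℂ) (p a : ℂ) (K : PK g p a) (ε : ℝ), 0 < ε →
  ∃ X : ℝ, K.R ≤ X ∧ ∀ w : ℂ, w.re < -X → ‖K.E w - p‖ < ε

/-- GTA (the inverse branch at the parabolic point; from GEL, GBR, GSH, GEN) -/
def T_GTA : Prop := ∀ (n : ℕ) (e : ℝ), 3 ≤ n → 0 < e → e ≤ 1 / 2 →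
  ∀ K : PK (GG n e) 1 (cA n e), K.β.im = 0 ∧ ∃ (τ : ℂ → ℂ) (X₁ Y₁ : ℝ), K.R ≤ X₁ ∧
    DifferentiableOn ℂ τ (Hs 1) ∧ (∀ z ∈ Hs 1, τ z ∈ Hs 1 ∧ GG n e (τ z) = z) ∧
    (∀ z ∈ Hs 1, Tendsto (fun m : ℕ => τ^[m] z) atTop (𝓝 1)) ∧
    (∀ w : ℂ, w.re < -X₁ → K.E w ∈ Hs 1 → K.E (w - 1) ∈ Hs 1 ∧ τ (K.E w) = K.E (w - 1)) ∧
    ∀ w : ℂ, w.re < -X₁ → Y₁ < w.im → K.E w ∈ Hs 1

/-- GRP (periodic points are repelling; from GEL, GBA, GRE, GBR, GSH) -/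
def T_GRP : Prop := ∀ (n : ℕ) (e : ℝ), 3 ≤ n → 0 < e → e ≤ 1 / 2 → ∀ (y : ℂ) (N : ℕ),
  y ∈ KG n e → y ∉ UG n e → y ≠ 1 → 1 ≤ N → (GG n e)^[N] y = y →
  1 < ‖deriv ((GG n e)^[N]) y‖

/-- GIR (the difference of the critical orbits is irrational for some `e`; from GEL, GQ) -/
def T_GIR : Prop := ∀ n : ℕ, 3 ≤ n → ∃ (e u : ℝ), 0 < e ∧ e ≤ 1 / 2 ∧ Irrational u ∧
  Tendsto (fun m : ℕ => omc (cA n e) 1 ((GG n e)^[m] 0) -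
    omc (cA n e) 1 ((GG n e)^[m] (-(e : ℂ)))) atTop (𝓝 (u : ℂ))

/-- GIU (consequence for the Fatou coordinates; from HPB, GIR) -/
def T_GIU : Prop := ∀ (n : ℕ) (e u : ℝ), 3 ≤ n → 0 < e → e ≤ 1 / 2 →
  Tendsto (fun m : ℕ => omc (cA n e) 1 ((GG n e)^[m] 0) -
    omc (cA n e) 1 ((GG n e)^[m] (-(e : ℂ)))) atTop (𝓝 (u : ℂ)) →
  ∀ K : PK (GG n e) 1 (cA n e), ∃ w₁ w₂ : ℝ, K.HasPhi 0 w₁ ∧ K.HasPhi (-(e : ℂ)) w₂ ∧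
    w₁ - w₂ = u

/-- GRA (speed of the critical orbits; from GEL, GQ) -/
def T_GRA : Prop := ∀ (n : ℕ) (e : ℝ), 3 ≤ n → 0 < e → e ≤ 1 / 2 → ∃ C : ℝ, 0 < C ∧
  ∀ m : ℕ, 1 ≤ m → ∃ x y : ℝ, (GG n e)^[m] 0 = x ∧ (GG n e)^[m] (-(e : ℂ)) = y ∧
    0 < x ∧ x < 1 ∧ 0 < y ∧ y < 1 ∧ (m : ℝ) ≤ C / (1 - x) ∧ (m : ℝ) ≤ C / (1 - y) ∧
    |1 / (1 - x) - 1 / (1 - y)| ≤ C

/-- GRM (real orbits move slowly; from GEL, GQ) -/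
def T_GRM : Prop := ∀ (n : ℕ) (e : ℝ), 3 ≤ n → 0 < e → e ≤ 1 / 2 → ∀ v : ℝ, 0 ≤ v → v < 1 →
  ∃ x : ℕ → ℝ, (∀ m, (GG n e)^[m] (v : ℂ) = x m) ∧ (∀ m, 0 ≤ x m ∧ x m < 1) ∧
    Tendsto (fun m => (x (m + 1) - x m) / (1 - x (m + 1))) atTop (𝓝 0)

/-- GBS (the radial perturbations; from GQ, GBA) -/
def T_GBS : Prop := ∀ (n : ℕ) (e : ℝ), 3 ≤ n → 0 < e → e ≤ 1 / 2 →
  (∀ μ : ℝ, 0 < μ → μ < 1 → ball (0 : ℂ) 1 ⊆ Bas n e μ ∧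
    0 ∈ connectedComponentIn (Bas n e μ) 1 ∧ (-(e : ℂ)) ∈ connectedComponentIn (Bas n e μ) 1) ∧
  ∀ x ∈ UG n e, ∃ r : ℝ, 0 < r ∧ ball x r ⊆ UG n e ∧
    ∀ᶠ k : ℕ in atTop, ball x r ⊆ Bas n e ((1 - 1 / ((k : ℝ) + 2) : ℝ) : ℂ)

/-- GNF (normal form of the perturbations at `1`; from GQ) -/
def T_GNF : Prop := ∀ (n : ℕ) (e : ℝ), 3 ≤ n → 0 < e → e ≤ 1 / 2 →
  ∃ (ε : ℂ → ℂ) (r B δ : ℝ), 0 < r ∧ 0 < B ∧ 0 < δ ∧ DifferentiableOn ℂ ε (ball 0 r) ∧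
    ε 0 = 1 ∧ (deriv ε 0).im = 0 ∧
    ∀ μ p : ℂ, μ ≠ 0 → GF n e μ p = p → p ≠ 1 → ‖p - 1‖ < δ →
    ∃ ek : ℂ → ℂ, DifferentiableOn ℂ ek (ball 0 r) ∧
      (∀ y ∈ ball (0 : ℂ) r, ‖ek y - ε y‖ ≤ B * ‖p - 1‖) ∧
      (∀ y ∈ ball (0 : ℂ) r, (cA n e : ℂ) * (GF n e μ (1 + y / cA n e) - 1) =
        y + y * (y - cA n e * (p - 1)) * ek y) ∧
      1 - cA n e * (p - 1) * ek 0 = μ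

/-- GFP (the second fixed point; from GQ) -/
def T_GFP : Prop := ∀ (n : ℕ) (e : ℝ), 3 ≤ n → 0 < e → e ≤ 1 / 2 → ∀ μ : ℕ → ℂ,
  Tendsto μ atTop (𝓝 1) → (∀ k, μ k ≠ 1) → ∃ p : ℕ → ℂ, Tendsto p atTop (𝓝 1) ∧
    ∀ᶠ k in atTop, p k ≠ 1 ∧ GF n e (μ k) (p k) = p k

/-- GUP (high points are attracted; from GNF, UPI) -/
def T_GUP : Prop := ∀ (n : ℕ) (e : ℝ), 3 ≤ n → 0 < e → e ≤ 1 / 2 → ∃ S₀ Y : ℝ, 0 < Y ∧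
  ∀ S : ℝ, S₀ ≤ S → ∀ p : ℕ → ℂ, Tendsto p atTop (𝓝 1) →
  (∀ᶠ k : ℕ in atTop, p k ≠ 1 ∧ GF n e (Complex.exp (ell S k)) (p k) = p k) →
  ∀ᶠ k : ℕ in atTop, ∀ v : ℂ, v ≠ 1 → 2 * Real.pi * Y / k ≤ Real.log ‖(v - p k) / (v - 1)‖ →
    v ∈ Bas n e (Complex.exp (ell S k))

/-- GAT (points of large height are attracted; from GFP, GUP, LTM, GTA) -/
def T_GAT : Prop := ∀ (n : ℕ) (e : ℝ), 3 ≤ n → 0 < e → e ≤ 1 / 2 →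
  ∀ (K : PK (GG n e) 1 (cA n e)) (C₁ : ℝ), ∃ S₀ : ℝ, 0 < S₀ ∧ ∀ S : ℝ, S₀ ≤ S →
  ∀ (l : Filter ℕ) (xk : ℕ → ℂ) (x : ℂ), l ≤ atTop → Tendsto xk l (𝓝 x) → x ∈ US K C₁ →
  ∀ᶠ k in l, xk k ∈ Bas n e (Complex.exp (ell S k))

/-- GHC (the horocyclic perturbations; from GAT) -/
def T_GHC : Prop := ∀ (n : ℕ) (e : ℝ), 3 ≤ n → 0 < e → e ≤ 1 / 2 →
  ∀ (K : PK (GG n e) 1 (cA n e)) (C₁ : ℝ), ∃ S₀ : ℝ, 0 < S₀ ∧ ∀ S : ℝ, S₀ ≤ S →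
  (∀ x ∈ US K C₁, ∃ r : ℝ, 0 < r ∧ ball x r ⊆ US K C₁ ∧
    ∀ᶠ k : ℕ in atTop, ball x r ⊆ Bas n e (Complex.exp (ell S k))) ∧
  ∀ᶠ k : ℕ in atTop, 0 ∈ connectedComponentIn (Bas n e (Complex.exp (ell S k))) 1 ∧
    (-(e : ℂ)) ∈ connectedComponentIn (Bas n e (Complex.exp (ell S k))) 1

end Pool.Agent.MAT
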