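import Pool.Agent.MAT.Core

/-!
# MAT: targets H (limits along the horocyclic sequences)
-/

set_option autoImplicit false

open Polynomial Metric Set Filter Topology

noncomputable section

namespace Pool.Agent.MAT

/-- HKA (`χ` respects the Fatou coordinates; from HPB, HPH, GBA, GAB, LAB, `PLim.p_KOEB`) -/
def T_HKA : Prop := ∀ (n : ℕ) (e : ℝ) (A : ℂ → ℂ) (N D : ℂ[X]) (R : ℝ) (ϕ χ : ℂ → ℂ) (p a : ℂ),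
  3 ≤ n → 0 < e → e ≤ 1 / 2 → IsBlaschke n A → Rad n e A N D R ϕ χ p →
  ∀ (K : PK (GG n e) 1 (cA n e)) (L : PK (rf N D) p a), ∃ κ : ℂ, ∀ x ∈ UG n e, ∀ w : ℂ,
    K.HasPhi x w → L.HasPhi (χ x) (w + κ)

/-- HUS (the sets `US`; from HPB, HPH, GBA, GAB) -/
def T_HUS : Prop := ∀ (n : ℕ) (e : ℝ), 3 ≤ n → 0 < e → e ≤ 1 / 2 →
  ∀ (K : PK (GG n e) 1 (cA n e)) (C₁ : ℝ), IsOpen (US K C₁) ∧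
    (∀ x ∈ US K C₁, GG n e x ∈ US K C₁) ∧
    (∀ w : ℂ, K.R < w.re → -C₁ < w.im → K.Ei w ∈ US K C₁) ∧
    (∀ w : ℂ, K.R < w.im → K.E w ∈ UG n e) ∧
    (∀ w : ℂ, K.R < w.im → -C₁ < (K.H w).im → K.E w ∈ US K C₁) ∧
    (∀ x ∈ UG n e, ∃ w : ℂ, K.HasPhi x w) ∧ ∀ x w : ℂ, K.HasPhi x w → x ∈ UG n e

/-- HOA (the limit of the conjugacies; from UL, PCE, LAB, LPM, GBA) -/
def T_HOA : Prop := ∀ (n : ℕ) (e : ℝ) (A : ℂ → ℂ) (ρ R S : ℝ) (N D : ℂ[X]) (u : Ultrafilter ℕ)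
  (Nk Dk : ℕ → ℂ[X]) (ϕk χk : ℕ → ℂ → ℂ) (U : Set ℂ), 3 ≤ n → 0 < e → e ≤ 1 / 2 →
  IsBlaschke n A → NDeg n N D → HorD n e A ρ N D R S u Nk Dk ϕk χk → IsOpen U →
  (∀ x ∈ U, GG n e x ∈ U) → (∀ x ∈ U, ∃ r : ℝ, 0 < r ∧ ball x r ⊆ U ∧
    ∀ᶠ k : ℕ in atTop, ball x r ⊆ Bas n e (Complex.exp (ell S k))) →
  ∃ χS : ℂ → ℂ, DifferentiableOn ℂ χS U ∧
    TendstoLocallyUniformlyOn χk χS (u : Filter ℕ) U ∧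
    (∀ x ∈ U, D.eval (χS x) ≠ 0 ∧ N.eval (χS x) = χS (GG n e x) * D.eval (χS x)) ∧
    ((0 : ℂ) ∈ U → (wr N D).eval (χS 0) = 0) ∧
    ((-(e : ℂ)) ∈ U → (wr N D).eval (χS (-(e : ℂ))) = 0) ∧ ∀ x ∈ U, ‖χS x‖ ≤ R

/-- HOQ (the attracting fixed points converge to `p`; from LPM, PCE, PCW, LAB) -/
def T_HOQ : Prop := ∀ (n : ℕ) (e : ℝ) (A : ℂ → ℂ) (ρ R R' S : ℝ) (N D : ℂ[X])
  (u : Ultrafilter ℕ) (Nk Dk : ℕ → ℂ[X]) (ϕk χk : ℕ → ℂ → ℂ) (ϕ χ : ℂ → ℂ) (p : ℂ), 3 ≤ n →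
  0 < e → e ≤ 1 / 2 → IsBlaschke n A → Rad n e A N D R' ϕ χ p →
  HorD n e A ρ N D R S u Nk Dk ϕk χk →
  Tendsto (fun k => χk k 1) (u : Filter ℕ) (𝓝 p) ∧
  ∀ᶠ k in (u : Filter ℕ), rf (Nk k) (Dk k) (χk k 1) = χk k 1 ∧
    deriv (rf (Nk k) (Dk k)) (χk k 1) = Complex.exp (ell S k)

/-- HOX (local uniform convergence of the rational maps; from PCE) -/
def T_HOX : Prop := ∀ (N D : ℂ[X]),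
  (∀ (n : ℕ) (l : Filter ℕ) (Nk Dk : ℕ → ℂ[X]), PConv l n Nk N → PConv l n Dk D →
    ∀ y : ℂ, D.eval y ≠ 0 → CC l (fun k => rf (Nk k) (Dk k)) (rf N D) y) ∧
  ∀ p : ℂ, D.eval p ≠ 0 → ∃ r : ℝ, 0 < r ∧ DifferentiableOn ℂ (rf N D) (ball p r) ∧
    ∀ (n : ℕ) (l : Filter ℕ) (Nk Dk : ℕ → ℂ[X]), PConv l n Nk N → PConv l n Dk D →
      (∀ᶠ k in l, DifferentiableOn ℂ (rf (Nk k) (Dk k)) (ball p r)) ∧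
      TendstoUniformlyOn (fun k => rf (Nk k) (Dk k)) (rf N D) l (ball p r)

/-- HOC (the limit avoids the outer component; from LAB) -/
def T_HOC : Prop := ∀ (n : ℕ) (e : ℝ) (A : ℂ → ℂ) (N D : ℂ[X]) (R R' : ℝ) (ϕ χ χS : ℂ → ℂ)
  (p : ℂ) (U : Set ℂ), 3 ≤ n → 0 < e → e ≤ 1 / 2 → IsBlaschke n A →
  Rad n e A N D R' ϕ χ p → (∀ x ∈ U, GG n e x ∈ U) →
  (∀ x ∈ U, D.eval (χS x) ≠ 0 ∧ N.eval (χS x) = χS (GG n e x) * D.eval (χS x)) →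
  (∀ x ∈ U, ‖χS x‖ ≤ R) →
  (∀ x ∈ U, χS x ∉ Out ϕ) ∧
  ((0 : ℂ) ∈ U → (wr N D).eval (χS 0) = 0 → χS 0 = χ 0 ∨ χS 0 = χ (-(e : ℂ))) ∧
  ((-(e : ℂ)) ∈ U → (wr N D).eval (χS (-(e : ℂ))) = 0 →
    χS (-(e : ℂ)) = χ 0 ∨ χS (-(e : ℂ)) = χ (-(e : ℂ)))

/-- HOI (the limit is injective or constant on the incoming side; from HINJ, HPB, HUS) -/
def T_HOI : Prop := ∀ (n : ℕ) (e : ℝ), 3 ≤ n → 0 < e → e ≤ 1 / 2 →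
  ∀ (K : PK (GG n e) 1 (cA n e)) (C₁ S : ℝ) (u : Ultrafilter ℕ) (χk : ℕ → ℂ → ℂ)
  (χS : ℂ → ℂ), (u : Filter ℕ) ≤ atTop →
  (∀ x ∈ US K C₁, ∃ r : ℝ, 0 < r ∧ ball x r ⊆ US K C₁ ∧
    ∀ᶠ k : ℕ in atTop, ball x r ⊆ Bas n e (Complex.exp (ell S k))) →
  (∀ᶠ k : ℕ in (u : Filter ℕ), DifferentiableOn ℂ (χk k) (Bas n e (Complex.exp (ell S k))) ∧
    InjOn (χk k) (Bas n e (Complex.exp (ell S k)))) →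
  DifferentiableOn ℂ χS (US K C₁) → TendstoLocallyUniformlyOn χk χS (u : Filter ℕ) (US K C₁) →
  InjOn (fun w => χS (K.Ei w)) {w | K.R < w.re ∧ -C₁ < w.im} ∨
    ∀ w : ℂ, K.R < w.re → -C₁ < w.im → ∀ w' : ℂ, K.R < w'.re → -C₁ < w'.im →
      χS (K.Ei w) = χS (K.Ei w')

/-- what the limit along a horocyclic sequence gives -/
structure HorL (n : ℕ) (e : ℝ) (N D : ℂ[X]) (R : ℝ) (χ : ℂ → ℂ)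
    (K : PK (GG n e) 1 (cA n e)) (C₁ : ℝ) (χS : ℂ → ℂ) : Prop where
  hol : DifferentiableOn ℂ χS (US K C₁)
  conj : ∀ x ∈ US K C₁, D.eval (χS x) ≠ 0 ∧ N.eval (χS x) = χS (GG n e x) * D.eval (χS x)
  bdd : ∀ x ∈ US K C₁, ‖χS x‖ ≤ R
  dich : InjOn (fun w => χS (K.Ei w)) {w | K.R < w.re ∧ -C₁ < w.im} ∨
    ∀ w : ℂ, K.R < w.re → -C₁ < w.im → ∀ w' : ℂ, K.R < w'.re → -C₁ < w'.im →
      χS (K.Ei w) = χS (K.Ei w')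
  crit0 : χS 0 = χ 0 ∨ χS 0 = χ (-(e : ℂ))
  crite : χS (-(e : ℂ)) = χ 0 ∨ χS (-(e : ℂ)) = χ (-(e : ℂ))

/-- HOM (convergence to `p`; from UL, HINJ, HPB, HUS, GBA, LAB) -/
def T_HOM : Prop := ∀ (n : ℕ) (e : ℝ) (A : ℂ → ℂ) (N D : ℂ[X]) (R R' C₁ : ℝ)
  (ϕ χ χS : ℂ → ℂ) (p : ℂ), 3 ≤ n → 0 < e → e ≤ 1 / 2 → IsBlaschke n A →
  Rad n e A N D R' ϕ χ p → 0 < C₁ → ∀ K : PK (GG n e) 1 (cA n e),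
  (∃ w₁ : ℝ, K.HasPhi 0 w₁) → HorL n e N D R χ K C₁ χS →
  InjOn (fun w => χS (K.Ei w)) {w | K.R < w.re ∧ -C₁ < w.im} ∧
  ∀ w : ℂ, -C₁ < w.im → Tendsto (fun m : ℕ => χS (K.Ei (w + m))) atTop (𝓝 p)

/-- HOT (the map `τ` between the cylinders; from HOM, HPB, HPH, HUS, HKA) -/
def T_HOT : Prop := ∀ (n : ℕ) (e : ℝ) (A : ℂ → ℂ) (N D : ℂ[X]) (R R' C₁ : ℝ)
  (ϕ χ χS : ℂ → ℂ) (p a κ : ℂ) (w₁ w₂ : ℝ), 3 ≤ n → 0 < e → e ≤ 1 / 2 → IsBlaschke n A →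
  Rad n e A N D R' ϕ χ p → 0 < C₁ → ∀ (K : PK (GG n e) 1 (cA n e)) (L : PK (rf N D) p a),
  K.HasPhi 0 w₁ → K.HasPhi (-(e : ℂ)) w₂ → w₁ ≠ w₂ →
  (∀ x ∈ UG n e, ∀ w : ℂ, K.HasPhi x w → L.HasPhi (χ x) (w + κ)) →
  HorL n e N D R χ K C₁ χS →
  ∃ τ : ℂ → ℂ, DifferentiableOn ℂ τ {w | -C₁ < w.im} ∧ InjOn τ {w | -C₁ < w.im} ∧
    (∀ w : ℂ, -C₁ < w.im → τ (w + 1) = τ w + 1) ∧
    ((τ w₁ = w₁ ∧ τ w₂ = w₂) ∨ (τ w₁ = w₂ ∧ τ w₂ = w₁)) ∧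
    ∀ x w : ℂ, -C₁ < w.im → K.HasPhi x w → L.HasPhi (χS x) (τ w + κ)

/-- HOE (the limit of the passage is respected; from LTF, HOQ, HOX, HPB, HUS, LPM) -/
def T_HOE : Prop := ∀ (n : ℕ) (e : ℝ) (A : ℂ → ℂ) (N D : ℂ[X]) (R' : ℝ) (ϕ χ : ℂ → ℂ)
  (p a : ℂ), 3 ≤ n → 0 < e → e ≤ 1 / 2 → IsBlaschke n A → Rad n e A N D R' ϕ χ p →
  ∀ (K : PK (GG n e) 1 (cA n e)) (L : PK (rf N D) p a), ∃ Y : ℝ,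
  ∀ (ρ R S C₁ : ℝ) (u : Ultrafilter ℕ) (Nk Dk : ℕ → ℂ[X]) (ϕk χk : ℕ → ℂ → ℂ) (χS : ℂ → ℂ),
  HorD n e A ρ N D R S u Nk Dk ϕk χk →
  (∀ x ∈ US K C₁, ∃ r : ℝ, 0 < r ∧ ball x r ⊆ US K C₁ ∧
    ∀ᶠ k : ℕ in atTop, ball x r ⊆ Bas n e (Complex.exp (ell S k))) →
  TendstoLocallyUniformlyOn χk χS (u : Filter ℕ) (US K C₁) → DifferentiableOn ℂ χS (US K C₁) →
  (∀ x ∈ US K C₁, D.eval (χS x) ≠ 0 ∧ N.eval (χS x) = χS (GG n e x) * D.eval (χS x)) →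
  ∀ x w w' : ℂ, x ∈ US K C₁ → K.HasPhi x w → L.HasPhi (χS x) w' → Y < w.im + S →
    Y < w'.im + S → K.E (w + S * Complex.I) ∈ US K C₁ →
    χS (K.E (w + S * Complex.I)) = L.E (w' + S * Complex.I)

/-- HRE (the relation between the horn maps; from HC, HOA, HOC, HOI, HOT, HOE, HUS, HPB, GHC,
GBA, GIU) -/
def T_HRE : Prop := ∀ (n : ℕ) (e u : ℝ) (A : ℂ → ℂ) (N D : ℂ[X]) (R' ρ : ℝ) (ϕ χ : ℂ → ℂ)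
  (p a κ : ℂ), 3 ≤ n → 0 < e → e ≤ 1 / 2 → IsBlaschke n A → Rad n e A N D R' ϕ χ p →
  Irrational u → Tendsto (fun m : ℕ => omc (cA n e) 1 ((GG n e)^[m] 0) -
    omc (cA n e) 1 ((GG n e)^[m] (-(e : ℂ)))) atTop (𝓝 (u : ℂ)) →
  ∀ (K : PK (GG n e) 1 (cA n e)) (L : PK (rf N D) p a),
  (∀ x ∈ UG n e, ∀ w : ℂ, K.HasPhi x w → L.HasPhi (χ x) (w + κ)) →
  (∃ S₀ : ℝ, ∀ S : ℝ, S₀ ≤ S → ∃ (v : Ultrafilter ℕ) (Nk Dk : ℕ → ℂ[X]) (ϕk χk : ℕ → ℂ → ℂ)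
    (R'' : ℝ), HorD n e A ρ N D R'' S v Nk Dk ϕk χk) →
  ∃ Y : ℝ, ∀ w : ℂ, Y < w.im → L.H (w + κ) = K.H w + κ

end Pool.Agent.MAT
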