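import Pool.Agent.MAT.Core

/-!
# MAT: targets P (parabolic fixed points and their perturbations)
-/

set_option autoImplicit false

open Polynomial Metric Set Filter Topology

noncomputable section

namespace Pool.Agent.MAT

/-- FEST (the map in the `ω`-plane) -/
def T_FEST : Prop := ∀ (e : ℂ → ℂ) (r : ℝ), 0 < r → DifferentiableOn ℂ e (ball 0 r) → e 0 = 1 →
  ∃ R₀ C₀ : ℝ, PF (fun ω => -1 / ((-1 / ω) + (-1 / ω) ^ 2 * e (-1 / ω))) (1 - deriv e 0) R₀ C₀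

/-- FORB (orbits in the `ω`-plane) -/
def T_FORB : Prop := ∀ (F : ℂ → ℂ) (β : ℂ) (R₀ C₀ : ℝ), PF F β R₀ C₀ →
  ∃ R₁ : ℝ, 2 * R₀ ≤ R₁ ∧ ∀ R : ℝ, R₁ ≤ R → ∀ ω ∈ PR R, R₀ < ‖ω‖ ∧ F ω ∈ PR R ∧
    ∀ m : ℕ, ‖F^[m] ω - (ω + m)‖ ≤ m / 16 ∧ ‖ω‖ + m ≤ 4 * ‖F^[m] ω‖

/-- FINC (incoming Fatou coordinate in the `ω`-plane; from FORB) -/
def T_FINC : Prop := ∀ (F : ℂ → ℂ) (β : ℂ) (R₀ C₀ : ℝ), PF F β R₀ C₀ →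
  ∃ (R₁ C : ℝ) (Φ : ℂ → ℂ), 2 * R₀ ≤ R₁ ∧ 0 ≤ C ∧ DifferentiableOn ℂ Φ (PR R₁) ∧
    ∀ ω ∈ PR R₁, Φ (F ω) = Φ ω + 1 ∧ ‖Φ ω - Lin β ω‖ ≤ C / ‖ω‖

/-- FINJ (injectivity, from FORB) -/
def T_FINJ : Prop := ∀ (F : ℂ → ℂ) (β : ℂ) (R₀ C₀ : ℝ), PF F β R₀ C₀ → ∀ (R₁ C : ℝ)
  (Φ : ℂ → ℂ), 2 * R₀ ≤ R₁ → 0 ≤ C → DifferentiableOn ℂ Φ (PR R₁) →
  (∀ ω ∈ PR R₁, Φ (F ω) = Φ ω + 1 ∧ ‖Φ ω - Lin β ω‖ ≤ C / ‖ω‖) →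
  ∃ R₂ : ℝ, R₁ ≤ R₂ ∧ InjOn F {ω | R₂ < ‖ω‖} ∧ InjOn Φ (PR R₂)

/-- FSUR (inverse of the coordinate on a right half plane) -/
def T_FSUR : Prop := ∀ (β : ℂ) (R₁ C : ℝ) (Φ : ℂ → ℂ), 1 ≤ R₁ → 0 ≤ C →
  DifferentiableOn ℂ Φ (PR R₁) → InjOn Φ (PR R₁) → (∀ ω ∈ PR R₁, ‖Φ ω - Lin β ω‖ ≤ C / ‖ω‖) →
  ∃ (R₂ : ℝ) (Ψ : ℂ → ℂ), R₁ ≤ R₂ ∧ DifferentiableOn ℂ Ψ {w | R₂ < w.re} ∧
    ∀ w : ℂ, R₂ < w.re → Ψ w ∈ PR R₁ ∧ Φ (Ψ w) = w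

/-- FV (the local inverse, mirrored) -/
def T_FV : Prop := ∀ (e : ℂ → ℂ) (r : ℝ), 0 < r → DifferentiableOn ℂ e (ball 0 r) → e 0 = 1 →
  ∃ (e' : ℂ → ℂ) (r₁ r₂ : ℝ), 0 < r₁ ∧ r₁ ≤ r₂ ∧ r₁ ≤ r ∧
    DifferentiableOn ℂ e' (ball 0 r₂) ∧ e' 0 = 1 ∧ deriv e' 0 = 2 - deriv e 0 ∧
    ∀ z ∈ ball (0 : ℂ) r₁,
      (z - z ^ 2 * e' (-z) ∈ ball (0 : ℂ) r ∧
        (z - z ^ 2 * e' (-z)) + (z - z ^ 2 * e' (-z)) ^ 2 * e (z - z ^ 2 * e' (-z)) = z) ∧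
      (z + z ^ 2 * e z ∈ ball (0 : ℂ) r₂ ∧
        (z + z ^ 2 * e z) - (z + z ^ 2 * e z) ^ 2 * e' (-(z + z ^ 2 * e z)) = z)

/-- INP (incoming part; from FEST, FORB, FINC, FINJ, FSUR) -/
def T_INP : Prop := ∀ (f e : ℂ → ℂ) (r X : ℝ), 0 < r → DifferentiableOn ℂ e (ball 0 r) →
  e 0 = 1 → (∀ z ∈ ball (0 : ℂ) r, f z = z + z ^ 2 * e z) →
  ∃ (Rp R C : ℝ) (Fi Ei : ℂ → ℂ), X ≤ Rp ∧ 2 / r < Rp ∧ InP f (1 - deriv e 0) Rp R C Fi Ei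

/-- OUTP (outgoing part; from INP, FV and INAB) -/
def T_OUTP : Prop := ∀ (f e : ℂ → ℂ) (r X : ℝ), 0 < r → DifferentiableOn ℂ e (ball 0 r) →
  e 0 = 1 → (∀ z ∈ ball (0 : ℂ) r, f z = z + z ^ 2 * e z) →
  ∃ (h : ℂ → ℂ) (Rp R C : ℝ) (Po Eo : ℂ → ℂ), X ≤ Rp ∧ 2 / r < Rp ∧
    OutP f h (1 - deriv e 0) Rp R C Po Eo ∧
    ∀ y : ℕ → ℂ, (∀ m, f (y (m + 1)) = y m) → (∀ m, y m ≠ 0) → Tendsto y atTop (𝓝 0) →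
      ∃ m₀ : ℕ, ∀ m, m₀ ≤ m → y m ∈ QoutS Rp ∧ y (m + 1) = h (y m)

/-- INAB (absorption by the petal) -/
def T_INAB : Prop := ∀ (f e : ℂ → ℂ) (r Rp : ℝ), 0 < r → DifferentiableOn ℂ e (ball 0 r) →
  e 0 = 1 → (∀ z ∈ ball (0 : ℂ) r, f z = z + z ^ 2 * e z) →
  ∀ y : ℕ → ℂ, (∀ m, y (m + 1) = f (y m)) → (∀ m, y m ≠ 0) → Tendsto y atTop (𝓝 0) →
    ∃ m₀ : ℕ, ∀ m, m₀ ≤ m → y m ∈ PinS 1 0 Rp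

/-- EUNI (uniqueness of the outgoing parametrisation) -/
def T_EUNI : Prop := ∀ (f h e : ℂ → ℂ) (r : ℝ) (K : PK f 0 1) (Rp R C : ℝ) (Po Eo : ℂ → ℂ),
  0 < r → DifferentiableOn ℂ e (ball 0 r) → e 0 = 1 →
  (∀ z ∈ ball (0 : ℂ) r, f z = z + z ^ 2 * e z) →
  OutP f h (1 - deriv e 0) Rp R C Po Eo →
  K.β = 1 - deriv e 0 ∧ ∀ w : ℂ, w.re < -R → K.E w = Eo w

/-- HORN (the upper horn map; from the incoming and the outgoing parts) -/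
def T_HORN : Prop := ∀ (f h : ℂ → ℂ) (β : ℂ) (Rp R C Rp' R' C' : ℝ) (Fi Ei Po Eo : ℂ → ℂ),
  InP f β Rp R C Fi Ei → OutP f h β Rp' R' C' Po Eo →
  ∃ (R₂ : ℝ) (E H : ℂ → ℂ), R ≤ R₂ ∧ R' ≤ R₂ ∧ (∀ w : ℂ, E (w + 1) = f (E w)) ∧
    (∀ w : ℂ, w.re < -R' → E w = Eo w) ∧ DifferentiableOn ℂ E {w | R₂ < w.im} ∧
    (∀ ε : ℝ, 0 < ε → ∃ Y : ℝ, ∀ w : ℂ, Y < w.im → ‖E w‖ < ε) ∧
    (∀ w : ℂ, Tendsto (fun m : ℕ => E (w - m)) atTop (𝓝 0)) ∧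
    DifferentiableOn ℂ H {w | R₂ < w.im} ∧ (∀ w : ℂ, R₂ < w.im → H (w + 1) = H w + 1) ∧
    (∀ ε : ℝ, 0 < ε → ∃ Y : ℝ, ∀ w : ℂ, Y < w.im → ‖H w - w‖ < ε) ∧
    ∀ w : ℂ, R₂ < w.im → ∃ m : ℕ, f^[m] (E w) ∈ PinS 1 0 Rp ∧ Fi (f^[m] (E w)) = H w + m

/-- NPK (the package, normalised; from INP, OUTP, INAB, HORN) -/
def T_NPK : Prop := ∀ (f e : ℂ → ℂ) (r : ℝ), 0 < r → DifferentiableOn ℂ e (ball 0 r) →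
  e 0 = 1 → (∀ z ∈ ball (0 : ℂ) r, f z = z + z ^ 2 * e z) → Nonempty (PK f 0 1)

/-- PKG (the package in general; from NPK by an affine change of coordinate) -/
def T_PKG : Prop := ∀ (g : ℂ → ℂ) (p a : ℂ), AnalyticAt ℂ g p → g p = p → deriv g p = 1 →
  iteratedDeriv 2 g p = 2 * a → a ≠ 0 → Nonempty (PK g p a)

/-- PKT (transport of a package to the normalised coordinate) -/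
def T_PKT : Prop := ∀ (g : ℂ → ℂ) (p a : ℂ) (K : PK g p a),
  ∃ K' : PK (fun y => a * (g (p + y / a) - p)) 0 1, K'.β = K.β ∧ K'.Rp = K.Rp ∧ K'.R = K.R ∧
    K'.C = K.C ∧ (∀ y, K'.Fi y = K.Fi (p + y / a)) ∧ (∀ w, K'.E w = a * (K.E w - p)) ∧
    ∀ y : ℂ, y ∈ PinS 1 0 K'.Rp ↔ p + y / a ∈ PinS a p K.Rp

/-- HPB (basic facts on `HasPhi`) -/
def T_HPB : Prop := ∀ (g : ℂ → ℂ) (p a : ℂ) (K : PK g p a),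
  (∀ x w w' : ℂ, K.HasPhi x w → K.HasPhi x w' → w = w') ∧
  (∀ x w : ℂ, K.HasPhi (g x) (w + 1) ↔ K.HasPhi x w) ∧
  (∀ x : ℂ, Tendsto (fun m : ℕ => g^[m] x) atTop (𝓝 p) → (∀ m : ℕ, g^[m] x ≠ p) →
    ∃ w : ℂ, K.HasPhi x w) ∧
  (∀ x w : ℂ, K.HasPhi x w → Tendsto (fun m : ℕ => g^[m] x) atTop (𝓝 p) ∧
    (∀ m : ℕ, g^[m] x ≠ p) ∧
    Tendsto (fun m : ℕ => Lin K.β (omc a p (g^[m] x)) - m) atTop (𝓝 w)) ∧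
  (∀ x y w : ℂ, K.HasPhi x w → K.HasPhi y w → ∃ m₀ : ℕ, ∀ m, m₀ ≤ m → g^[m] x = g^[m] y) ∧
  (∀ w : ℂ, K.R < w.re → K.HasPhi (K.Ei w) w) ∧
  (∀ w : ℂ, K.R < w.re → K.Ei (w + 1) = g (K.Ei w)) ∧
  (∀ w : ℂ, K.R < w.im → K.HasPhi (K.E w) (K.H w)) ∧
  (∀ x w : ℂ, K.HasPhi x w → ∃ m₀ : ℕ, ∀ m, m₀ ≤ m → K.R < w.re + m ∧
    g^[m] x = K.Ei (w + m)) ∧
  InjOn K.Ei {w | K.R < w.re}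

/-- HPH (the coordinate is holomorphic and open) -/
def T_HPH : Prop := ∀ (g : ℂ → ℂ) (p a : ℂ) (K : PK g p a) (U : Set ℂ) (Φ : ℂ → ℂ),
  IsOpen U → DifferentiableOn ℂ g U → MapsTo g U U → (∀ x ∈ U, K.HasPhi x (Φ x)) →
  DifferentiableOn ℂ Φ U

/-- RESA (constants of the perturbation) -/
def T_RESA : Prop := ∀ (e : ℂ → ℂ) (r : ℝ), 0 < r → DifferentiableOn ℂ e (ball 0 r) →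
  e 0 = 1 → ∃ C δ : ℝ, 0 < C ∧ 0 < δ ∧ ∀ (p ℓ : ℂ) (ek : ℂ → ℂ) (ε : ℝ),
    DifferentiableOn ℂ ek (ball 0 r) → (∀ z ∈ ball (0 : ℂ) r, ‖ek z - e z‖ ≤ ε) → ε ≤ δ →
    p ≠ 0 → ‖ℓ‖ ≤ δ → ‖p‖ ≤ δ → Complex.exp ℓ = 1 - p * ek 0 →
    ‖rhoc ℓ p ek - (1 - deriv e 0)‖ ≤ C * (‖p‖ + ε) ∧ ‖p + ℓ‖ ≤ C * ‖ℓ‖ * (‖ℓ‖ + ε) ∧
    Complex.log (1 + p * ek p) ≠ 0

/-- RESB (the error term; from RESA) -/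
def T_RESB : Prop := ∀ (e : ℂ → ℂ) (r : ℝ), 0 < r → DifferentiableOn ℂ e (ball 0 r) →
  e 0 = 1 → ∃ C δ r₁ : ℝ, 0 < C ∧ 0 < δ ∧ 0 < r₁ ∧ r₁ ≤ r ∧
    ∀ (p ℓ : ℂ) (ek : ℂ → ℂ) (ε : ℝ),
    DifferentiableOn ℂ ek (ball 0 r) → (∀ z ∈ ball (0 : ℂ) r, ‖ek z - e z‖ ≤ ε) → ε ≤ δ →
    p ≠ 0 → ‖ℓ‖ ≤ δ → ‖p‖ ≤ δ → Complex.exp ℓ = 1 - p * ek 0 →
    ∀ z ∈ ball (0 : ℂ) r₁, ‖z * ek z‖ ≤ 1 / 2 ∧ ‖(z - p) * ek z‖ ≤ 1 / 2 ∧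
      ‖Complex.log (1 + z * ek z)‖ ≤ 4 * ‖z‖ ∧
      ‖Complex.log (1 + z * ek z) - z‖ ≤ C * (‖z‖ ^ 2 + ε * ‖z‖) ∧
      ‖Complex.log (1 + (z - p) * ek z) / ℓ +
        Complex.log (1 + z * ek z) / Complex.log (1 + p * ek p) - 1‖ ≤ C * ‖z‖ * ‖z - p‖

/-- ZZ (size of `Z_k`) -/
def T_ZZ : Prop := ∃ C : ℝ, 0 < C ∧ ∀ S : ℝ, 0 < S → ∃ k₀ : ℕ, ∀ k : ℕ, k₀ ≤ k → ∀ τ : ℂ,
  0 ≤ (τ / kap S k).re → (τ / kap S k).re ≤ 1 → τ ≠ 0 → τ ≠ kap S k →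
  Complex.exp (-(ell S k * τ)) ≠ 1 ∧
  ‖1 / (1 - Complex.exp (-(ell S k * τ)))‖ ≤ C * (1 + k / ‖τ‖ + k / ‖τ - kap S k‖) ∧
  ‖Complex.exp (-(ell S k * τ)) / (1 - Complex.exp (-(ell S k * τ)))‖ ≤
    C * (1 + k / ‖τ‖ + k / ‖τ - kap S k‖)

/-- QLOG (size of the logarithm in the strip) -/
def T_QLOG : Prop := ∃ C : ℝ, 0 < C ∧ ∀ S : ℝ, 0 < S → ∃ k₀ : ℕ, ∀ k : ℕ, k₀ ≤ k → ∀ τ : ℂ,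
  0 < (τ / kap S k).re → (τ / kap S k).re < 1 → |(τ / kap S k).im| ≤ 1 →
  1 ≤ ‖τ‖ → 1 ≤ ‖τ - kap S k‖ →
  |Real.log ‖1 - Complex.exp (ell S k * τ)‖ + Real.log k -
    Real.log (min ‖τ‖ ‖τ - kap S k‖)| ≤ C

/-- LSQ (no branch jump of the logarithm in the strip) -/
def T_LSQ : Prop := ∃ C : ℝ, 0 < C ∧ ∀ S : ℝ, 0 < S → ∃ k₀ : ℕ, ∀ k : ℕ, k₀ ≤ k → ∀ τ τ' : ℂ,
  0 < (τ / kap S k).re → (τ / kap S k).re < 1 → 0 < (τ' / kap S k).re →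
  (τ' / kap S k).re < 1 → ‖τ' - τ‖ ≤ 2 → 8 ≤ ‖τ‖ → 8 ≤ ‖τ - kap S k‖ →
  ‖Complex.log (1 - Complex.exp (ell S k * τ')) - Complex.log (1 - Complex.exp (ell S k * τ))‖ ≤
    C * (1 / k + 1 / ‖τ‖ + 1 / ‖τ - kap S k‖)

/-- STEP (one step in the `τ`-plane; from RESA, RESB, ZZ, LSQ) -/
def T_STEP : Prop := ∀ (e : ℂ → ℂ) (r S : ℝ) (l : Filter ℕ) (ek : ℕ → ℂ → ℂ) (pk : ℕ → ℂ),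
  PD l S r e ek pk → ∃ (D₀ C : ℝ) (T : ℕ → ℂ → ℂ), 8 ≤ D₀ ∧ 0 ≤ C ∧ ∀ᶠ k in l, ∀ τ : ℂ,
    0 ≤ (τ / kap S k).re → (τ / kap S k).re ≤ 1 → D₀ ≤ ‖τ‖ → D₀ ≤ ‖τ - kap S k‖ →
    Zc (ell S k) (pk k) τ ∈ ball (0 : ℂ) r ∧
    Zc (ell S k) (pk k) (T k τ) = Zc (ell S k) (pk k) τ +
      Zc (ell S k) (pk k) τ * (Zc (ell S k) (pk k) τ - pk k) *
        ek k (Zc (ell S k) (pk k) τ) ∧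
    ‖T k τ - τ - 1‖ ≤ 1 / 8 ∧
    (0 < (τ / kap S k).re → (τ / kap S k).re < 1 → 0 < (T k τ / kap S k).re →
      (T k τ / kap S k).re < 1 →
      ‖Omc (ell S k) (rhoc (ell S k) (pk k) (ek k)) (T k τ) -
        Omc (ell S k) (rhoc (ell S k) (pk k) (ek k)) τ - 1‖ ≤
        C * (1 / (k : ℝ) ^ 2 + 1 / ‖τ‖ ^ 2 + 1 / ‖τ - kap S k‖ ^ 2))

/-- PASS (passing through the gate; from QLOG) -/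
def T_PASS : Prop := ∀ (S B C D₀ η : ℝ), 0 < S → 0 ≤ B → 0 ≤ C → 8 ≤ D₀ → 0 < η →
  ∃ D₁ : ℝ, D₀ ≤ D₁ ∧ ∀ D Y : ℝ, D₁ ≤ D → ∃ M₁ : ℕ, ∀ M : ℕ, M₁ ≤ M → ∃ (Y' : ℝ) (k₀ : ℕ),
  ∀ k : ℕ, k₀ ≤ k → ∀ (ρ : ℂ) (T : ℂ → ℂ), ‖ρ‖ ≤ B →
  (∀ τ : ℂ, 0 ≤ (τ / kap S k).re → (τ / kap S k).re ≤ 1 → D₀ ≤ ‖τ‖ → D₀ ≤ ‖τ - kap S k‖ →
    ‖T τ - τ - 1‖ ≤ 1 / 8 ∧
    (0 < (τ / kap S k).re → (τ / kap S k).re < 1 → 0 < (T τ / kap S k).re →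
      (T τ / kap S k).re < 1 →
      ‖Omc (ell S k) ρ (T τ) - Omc (ell S k) ρ τ - 1‖ ≤
        C * (1 / (k : ℝ) ^ 2 + 1 / ‖τ‖ ^ 2 + 1 / ‖τ - kap S k‖ ^ 2))) →
  ∀ τ₀ : ℂ, D ≤ τ₀.re → ‖τ₀‖ ≤ Y →
    (∀ m : ℕ, m + M ≤ k → 0 < (T^[m] τ₀ / kap S k).re ∧ (T^[m] τ₀ / kap S k).re < 1 ∧
      D₀ ≤ ‖T^[m] τ₀‖ ∧ D₀ ≤ ‖T^[m] τ₀ - kap S k‖ ∧ D ≤ k - (T^[m] τ₀).re ∧
      ‖Omc (ell S k) ρ (T^[m] τ₀) - Omc (ell S k) ρ τ₀ - m‖ ≤ η) ∧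
    ‖T^[k - M] τ₀ - kap S k‖ ≤ Y'

/-- COOR (the coordinate `τ` and its limit; from RESA) -/
def T_COOR : Prop := ∀ (e : ℂ → ℂ) (r S : ℝ) (l : Filter ℕ) (ek : ℕ → ℂ → ℂ) (pk : ℕ → ℂ),
  PD l S r e ek pk →
  (∀ (zk : ℕ → ℂ) (z : ℂ), Tendsto zk l (𝓝 z) → z ≠ 0 → ∃ τk : ℕ → ℂ,
    (∀ᶠ k in l, Zc (ell S k) (pk k) (τk k) = zk k) ∧ Tendsto τk l (𝓝 (-1 / z))) ∧
  (∀ (τk : ℕ → ℂ) (τ : ℂ), Tendsto τk l (𝓝 τ) → τ ≠ 0 →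
    Tendsto (fun k => Zc (ell S k) (pk k) (τk k)) l (𝓝 (-1 / τ)) ∧
    ∀ᶠ k in l, Zc (ell S k) (pk k) (τk k + kap S k) = Zc (ell S k) (pk k) (τk k)) ∧
  (∀ (τk : ℕ → ℂ) (τ : ℂ), Tendsto τk l (𝓝 τ) → -(Complex.I * τ) ∈ Complex.slitPlane →
    Tendsto (fun k => Omc (ell S k) (rhoc (ell S k) (pk k) (ek k)) (τk k) +
        rhoc (ell S k) (pk k) (ek k) * Real.log (2 * Real.pi / k)) l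
      (𝓝 (τ - (1 - deriv e 0) * Complex.log (-(Complex.I * τ)))) ∧
    ∀ᶠ k in l, Omc (ell S k) (rhoc (ell S k) (pk k) (ek k)) (τk k + kap S k) =
      Omc (ell S k) (rhoc (ell S k) (pk k) (ek k)) (τk k) + kap S k) ∧
  ∃ B : ℝ, ∀ᶠ k in l, ‖rhoc (ell S k) (pk k) (ek k)‖ ≤ B

/-- LTN (the limit of the passage, normalised; from STEP, PASS, COOR, OUTP, EUNI) -/
def T_LTN : Prop := ∀ (f e : ℂ → ℂ) (r : ℝ) (K : PK f 0 1),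
  (∀ z ∈ ball (0 : ℂ) r, f z = z + z ^ 2 * e z) →
  ∀ (S : ℝ) (l : Filter ℕ) (ek : ℕ → ℂ → ℂ) (pk : ℕ → ℂ), PD l S r e ek pk →
  ∀ fk : ℕ → ℂ → ℂ, (∀ᶠ k in l, ∀ z ∈ ball (0 : ℂ) r, fk k z = z + z * (z - pk k) * ek k z) →
  ∀ (xk : ℕ → ℂ) (x w : ℂ), Tendsto xk l (𝓝 x) → (∀ m : ℕ, ‖f^[m] x‖ < r) →
  x ∈ PinS 1 0 K.Rp → K.Fi x = w →
  ∃ M₀ : ℕ, ∀ M : ℕ, M₀ ≤ M →
    Tendsto (fun k => (fk k)^[k - M] (xk k)) l (𝓝 (K.E (w + S * Complex.I - M)))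

/-- FACT (factorisation of the perturbed germs; from HUR) -/
def T_FACT : Prop := ∀ (S r : ℝ) (l : Filter ℕ) (f e : ℂ → ℂ) (fk : ℕ → ℂ → ℂ), l ≤ atTop →
  0 < S → 0 < r → DifferentiableOn ℂ e (ball 0 r) → e 0 = 1 →
  (∀ z ∈ ball (0 : ℂ) r, f z = z + z ^ 2 * e z) →
  (∀ᶠ k in l, DifferentiableOn ℂ (fk k) (ball 0 r)) → TendstoUniformlyOn fk f l (ball 0 r) →
  (∀ᶠ k in l, fk k 0 = 0 ∧ deriv (fk k) 0 = Complex.exp (ell S k)) →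
  ∃ (r' : ℝ) (ek : ℕ → ℂ → ℂ) (pk : ℕ → ℂ), r' ≤ r ∧ PD l S r' e ek pk ∧
    ∀ᶠ k in l, ∀ z ∈ ball (0 : ℂ) r', fk k z = z + z * (z - pk k) * ek k z

/-- LTM (the limit of the passage, general; from LTN, FACT, PKT) -/
def T_LTM : Prop := ∀ (g : ℂ → ℂ) (p a : ℂ) (K : PK g p a) (r : ℝ), 0 < r →
  DifferentiableOn ℂ g (ball p r) → ∀ (S : ℝ) (l : Filter ℕ) (gk : ℕ → ℂ → ℂ)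
  (qk xk : ℕ → ℂ) (x w : ℂ), l ≤ atTop → 0 < S →
  (∀ᶠ k in l, DifferentiableOn ℂ (gk k) (ball p r)) → TendstoUniformlyOn gk g l (ball p r) →
  (∀ᶠ k in l, gk k (qk k) = qk k ∧ deriv (gk k) (qk k) = Complex.exp (ell S k)) →
  Tendsto qk l (𝓝 p) → Tendsto xk l (𝓝 x) → (∀ m : ℕ, CC l gk g (g^[m] x)) →
  K.HasPhi x w → ∃ M₀ : ℕ, ∀ M : ℕ, M₀ ≤ M →
    Tendsto (fun k => (gk k)^[k - M] (xk k)) l (𝓝 (K.E (w + S * Complex.I - M)))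

/-- LTF (the full passage; from LTM) -/
def T_LTF : Prop := ∀ (g : ℂ → ℂ) (p a : ℂ) (K : PK g p a) (r : ℝ), 0 < r →
  DifferentiableOn ℂ g (ball p r) → ∃ Y : ℝ, ∀ (S : ℝ) (l : Filter ℕ) (gk : ℕ → ℂ → ℂ)
  (qk xk : ℕ → ℂ) (x w : ℂ), l ≤ atTop → 0 < S →
  (∀ᶠ k in l, DifferentiableOn ℂ (gk k) (ball p r)) → TendstoUniformlyOn gk g l (ball p r) →
  (∀ᶠ k in l, gk k (qk k) = qk k ∧ deriv (gk k) (qk k) = Complex.exp (ell S k)) →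
  Tendsto qk l (𝓝 p) → Tendsto xk l (𝓝 x) → (∀ m : ℕ, CC l gk g (g^[m] x)) →
  K.HasPhi x w → Y < w.im + S →
  Tendsto (fun k => (gk k)^[k] (xk k)) l (𝓝 (K.E (w + S * Complex.I)))

/-- UPI (the altitude increases; from RESA, RESB) -/
def T_UPI : Prop := ∀ (e : ℂ → ℂ) (r B : ℝ), 0 < r → DifferentiableOn ℂ e (ball 0 r) →
  e 0 = 1 → (deriv e 0).im = 0 → ∃ S₀ Y : ℝ, 0 < Y ∧ ∀ S : ℝ, S₀ ≤ S → ∃ k₀ : ℕ, ∀ k : ℕ,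
  k₀ ≤ k → ∀ (p : ℂ) (ek : ℂ → ℂ), DifferentiableOn ℂ ek (ball 0 r) →
  (∀ z ∈ ball (0 : ℂ) r, ‖ek z - e z‖ ≤ B / k) → 1 - p * ek 0 = Complex.exp (ell S k) →
  ∀ z : ℂ, z ≠ 0 → 2 * Real.pi * Y / k ≤ Real.log ‖(z - p) / z‖ → ‖z‖ < r ∧ z ≠ p ∧
    ∀ z' : ℂ, z' = z + z * (z - p) * ek z → z' ≠ 0 ∧ 0 < Real.log ‖(z' - p) / z'‖ ∧
    k / (2 * Real.pi) * Real.log ‖(z - p) / z‖ -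
        (2 - (deriv e 0).re) * Complex.arg (p / (p - z)) + 1 / k ≤
      k / (2 * Real.pi) * Real.log ‖(z' - p) / z'‖ -
        (2 - (deriv e 0).re) * Complex.arg (p / (p - z')) ∧
    |Complex.arg (p / (p - z))| ≤ Real.pi / 2

end Pool.Agent.MAT
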