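import Pool.Agent.MAT.Core

/-!
# MAT: targets V (extension of the conjugacy and the end of the proof)
-/

set_option autoImplicit false

open Polynomial Metric Set Filter Topology

noncomputable section

namespace Pool.Agent.MAT

/-- VID (the two parametrisations agree at the upper end; from HPB, HUS, GBA) -/
def T_VID : Prop := ∀ (n : ℕ) (e : ℝ) (A : ℂ → ℂ) (N D : ℂ[X]) (R : ℝ) (ϕ χ : ℂ → ℂ)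
  (p a κ : ℂ), 3 ≤ n → 0 < e → e ≤ 1 / 2 → IsBlaschke n A → Rad n e A N D R ϕ χ p →
  ∀ (K : PK (GG n e) 1 (cA n e)) (L : PK (rf N D) p a),
  (∀ x ∈ UG n e, ∀ w : ℂ, K.HasPhi x w → L.HasPhi (χ x) (w + κ)) →
  (∃ Y : ℝ, ∀ w : ℂ, Y < w.im → L.H (w + κ) = K.H w + κ) →
  ∃ Y : ℝ, ∀ w : ℂ, Y < w.im → χ (K.E w) = L.E (w + κ)

/-- VCL (the two parametrisations agree on the upper half of the basin; from VID's conclusion,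
GTA, GUH, GBA, GEN, HUS) -/
def T_VCL : Prop := ∀ (n : ℕ) (e : ℝ) (A : ℂ → ℂ) (N D : ℂ[X]) (R : ℝ) (ϕ χ : ℂ → ℂ)
  (p a κ : ℂ), 3 ≤ n → 0 < e → e ≤ 1 / 2 → IsBlaschke n A → Rad n e A N D R ϕ χ p →
  ∀ (K : PK (GG n e) 1 (cA n e)) (L : PK (rf N D) p a),
  (∃ Y : ℝ, ∀ w : ℂ, Y < w.im → χ (K.E w) = L.E (w + κ)) →
  ∃ X : ℝ, ∀ w : ℂ, w.re < -X → K.E w ∈ UG n e → K.E w ∈ Hs 1 → χ (K.E w) = L.E (w + κ)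

/-- VLO (local extension at every point of the boundary of the basin; from GPR, GTA, GBA, LAB,
GNW, INVH) -/
def T_VLO : Prop := ∀ (n : ℕ) (e : ℝ) (A : ℂ → ℂ) (N D : ℂ[X]) (R : ℝ) (ϕ χ : ℂ → ℂ)
  (p a κ : ℂ), 3 ≤ n → 0 < e → e ≤ 1 / 2 → IsBlaschke n A → Rad n e A N D R ϕ χ p →
  ∀ (K : PK (GG n e) 1 (cA n e)) (L : PK (rf N D) p a),
  (∃ X : ℝ, ∀ w : ℂ, w.re < -X → K.E w ∈ UG n e → K.E w ∈ Hs 1 → χ (K.E w) = L.E (w + κ)) →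
  ∀ y ∈ KG n e, y ∉ UG n e → ∃ (r : ℝ) (f : ℂ → ℂ), 0 < r ∧ DifferentiableOn ℂ f (ball y r) ∧
    ∀ x ∈ ball y r, x ∈ UG n e → f x = χ x

/-- VEX (gluing; from GNW, GBA) -/
def T_VEX : Prop := ∀ (n : ℕ) (e : ℝ) (A : ℂ → ℂ) (N D : ℂ[X]) (R : ℝ) (ϕ χ : ℂ → ℂ)
  (p : ℂ), 3 ≤ n → 0 < e → e ≤ 1 / 2 → IsBlaschke n A → Rad n e A N D R ϕ χ p →
  (∀ y ∈ KG n e, y ∉ UG n e → ∃ (r : ℝ) (f : ℂ → ℂ), 0 < r ∧ DifferentiableOn ℂ f (ball y r) ∧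
    ∀ x ∈ ball y r, x ∈ UG n e → f x = χ x) →
  ∃ (W W₁ : Set ℂ) (χ' : ℂ → ℂ), Exd n e N D χ p W W₁ χ'

/-- VOR (orders: a semiconjugacy to a germ with multiplier one) -/
def T_VOR : Prop := ∀ (F g θ : ℂ → ℂ) (y p lam : ℂ), AnalyticAt ℂ F y → F y = y →
  deriv F y = lam → AnalyticAt ℂ g p → g p = p → deriv g p = 1 → AnalyticAt ℂ θ y →
  θ y = p → (∀ᶠ v in 𝓝 y, θ (F v) = g (θ v)) → (¬ ∀ᶠ v in 𝓝 y, θ v = p) →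
  ∃ d : ℕ, 1 ≤ d ∧ lam ^ d = 1

/-- VO2 (orders: a semiconjugacy of simple parabolic germs is locally injective) -/
def T_VO2 : Prop := ∀ (F g θ : ℂ → ℂ) (y p : ℂ), AnalyticAt ℂ F y → F y = y →
  deriv F y = 1 → iteratedDeriv 2 F y ≠ 0 → AnalyticAt ℂ g p → g p = p → deriv g p = 1 →
  iteratedDeriv 2 g p ≠ 0 → AnalyticAt ℂ θ y → θ y = p →
  (∀ᶠ v in 𝓝 y, θ (F v) = g (θ v)) → (¬ ∀ᶠ v in 𝓝 y, θ v = p) → deriv θ y ≠ 0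

/-- VNC (the extension is nowhere locally constant on the filled Julia set and injective near
`1`; from VO2, GNW, GBA, GEL) -/
def T_VNC : Prop := ∀ (n : ℕ) (e : ℝ) (A : ℂ → ℂ) (N D : ℂ[X]) (R : ℝ) (ϕ χ χ' : ℂ → ℂ)
  (p : ℂ) (W W₁ : Set ℂ), 3 ≤ n → 0 < e → e ≤ 1 / 2 → IsBlaschke n A →
  Rad n e A N D R ϕ χ p → Exd n e N D χ p W W₁ χ' →
  (∀ y ∈ KG n e, ∀ c : ℂ, ¬ ∀ᶠ v in 𝓝 y, χ' v = c) ∧ (∃ r : ℝ, 0 < r ∧ InjOn χ' (ball 1 r)) ∧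
  {y | y ∈ KG n e ∧ χ' y = p}.Finite ∧ χ' '' KG n e = closure (χ '' UG n e) ∧
  ∀ v ∈ KG n e, χ' v ∉ Out ϕ

/-- VNO (no point outside the filled Julia set is mapped into the inner component; from VOR,
VNC, GPR, GTA, GRP, GBA) -/
def T_VNO : Prop := ∀ (n : ℕ) (e : ℝ) (A : ℂ → ℂ) (N D : ℂ[X]) (R : ℝ) (ϕ χ χ' φ : ℂ → ℂ)
  (p : ℂ) (W W₁ : Set ℂ), 3 ≤ n → 0 < e → e ≤ 1 / 2 → IsBlaschke n A →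
  Rad n e A N D R ϕ χ p → Exd n e N D χ p W W₁ χ' → GSide n e φ →
  Nonempty (PK (GG n e) 1 (cA n e)) →
  ∃ ρ : ℝ, 0 < ρ ∧ ρ < 1 ∧ ∀ ζ : ℂ, ρ < ‖ζ‖ → ‖ζ‖ < 1 → φ ζ ∈ W₁ ∧
    χ' (φ ζ) ∉ χ '' UG n e

/-- VOU (the boundary of the outer component; from UL, LAB) -/
def T_VOU : Prop := ∀ (n : ℕ) (e : ℝ) (A : ℂ → ℂ) (N D : ℂ[X]) (R : ℝ) (ϕ χ : ℂ → ℂ)
  (p : ℂ), 3 ≤ n → 0 < e → e ≤ 1 / 2 → IsBlaschke n A → Rad n e A N D R ϕ χ p →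
  frontier (Out ϕ) ⊆ closure (χ '' UG n e) ∧ (frontier (Out ϕ)).Nonempty

/-- VMA (points outside the filled Julia set are mapped into the outer component; from VNO,
VOU, VNC, LAB) -/
def T_VMA : Prop := ∀ (n : ℕ) (e : ℝ) (A : ℂ → ℂ) (N D : ℂ[X]) (R : ℝ) (ϕ χ χ' φ : ℂ → ℂ)
  (p : ℂ) (W W₁ : Set ℂ), 3 ≤ n → 0 < e → e ≤ 1 / 2 → IsBlaschke n A →
  Rad n e A N D R ϕ χ p → Exd n e N D χ p W W₁ χ' → GSide n e φ →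
  Nonempty (PK (GG n e) 1 (cA n e)) →
  ∃ ρ : ℝ, 0 < ρ ∧ ρ < 1 ∧ ∀ ζ : ℂ, ρ < ‖ζ‖ → ‖ζ‖ < 1 → φ ζ ∈ W₁ ∧ χ' (φ ζ) ∈ Out ϕ

/-- VFI (the end; from VMA, VNC, ANN, INVH, LAB) -/
def T_VFI : Prop := ∀ (n : ℕ) (e : ℝ) (A : ℂ → ℂ) (N D : ℂ[X]) (R : ℝ) (ϕ χ χ' φ : ℂ → ℂ)
  (p : ℂ) (W W₁ : Set ℂ), 3 ≤ n → 0 < e → e ≤ 1 / 2 → IsBlaschke n A →
  Rad n e A N D R ϕ χ p → Exd n e N D χ p W W₁ χ' → GSide n e φ →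
  (∃ ρ : ℝ, 0 < ρ ∧ ρ < 1 ∧ ∀ ζ : ℂ, ρ < ‖ζ‖ → ‖ζ‖ < 1 → φ ζ ∈ W₁ ∧ χ' (φ ζ) ∈ Out ϕ) →
  ∃ κ : ℂ, ‖κ‖ = 1 ∧ ∀ z ∈ ball (0 : ℂ) 1, A (κ * z) = κ * z ^ n

end Pool.Agent.MAT
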