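import Pool.Agent.MAT.Core

/-!
# MAT: targets X (from matings to the analytic data)
-/

set_option autoImplicit false

open Polynomial Metric Set Filter Topology

noncomputable section

namespace Pool.Agent.MAT

/-- XND -/
def T_XND : Prop := ∀ (n : ℕ) (x : RatMap n), 1 ≤ n → NDeg n x.num x.den ∧ x.num.eval 0 = 0

/-- XPW -/
def T_XPW : Prop := ∀ n : ℕ, 2 ≤ n → Marked n (fun z => z ^ n) 1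

/-- XRS (a mating for one representative gives one for every other representative) -/
def T_XRS : Prop := ∀ (n : ℕ) (A B : ℂ → ℂ) (a b : ℂ) (x y : RatMap n) (φ ψ : ℂ → ℂ), 1 ≤ n →
  cls x = cls y → IsMating A a B b x.num x.den φ ψ →
  ∃ φ' ψ' : ℂ → ℂ, IsMating A a B b y.num y.den φ' ψ'

/-- XAS (the `A`-side of a mating; from BLA) -/
def T_XAS : Prop := ∀ (n : ℕ) (A B : ℂ → ℂ) (a b : ℂ) (N D : ℂ[X]) (φ ψ : ℂ → ℂ), 2 ≤ n →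
  Marked n A a → Marked n B b → NDeg n N D → IsMating A a B b N D φ ψ →
  ∃ (ϕ : ℂ → ℂ) (R : ℝ), ASide A N D R ϕ ∧ (∀ ζ ∈ ball (0 : ℂ) 1, ζ ≠ 0 → ϕ ζ * φ ζ = 1) ∧
    ∀ z : ℂ, z ∉ Out ϕ ↔ ∃ w ∈ closedBall (0 : ℂ) 1, ψ w = z

/-- XCO (the multiplier at infinity) -/
def T_XCO : Prop := ∀ (n : ℕ) (A : ℂ → ℂ) (N D : ℂ[X]) (R : ℝ) (ϕ : ℂ → ℂ), 2 ≤ n →
  IsBlaschke n A → NDeg n N D → ASide A N D R ϕ → D.coeff (n - 1) = deriv A 0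

/-- XRE (the marked point `0` is not attracting; from BLA, XAS) -/
def T_XRE : Prop := ∀ (n : ℕ) (A B : ℂ → ℂ) (a b : ℂ) (N D : ℂ[X]) (φ ψ : ℂ → ℂ), 2 ≤ n →
  Marked n A a → Marked n B b → NDeg n N D → IsMating A a B b N D φ ψ →
  1 ≤ ‖(derivative N).eval 0 / D.eval 0‖

/-- XUR (a uniform radius; from BLA, LAB, XCO) -/
def T_XUR : Prop := ∀ (n : ℕ) (A : ℂ → ℂ) (l : Filter ℕ) (Nk Dk : ℕ → ℂ[X]) (N D : ℂ[X])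
  (ϕk : ℕ → ℂ → ℂ), 2 ≤ n → IsBlaschke n A → PConv l n Nk N → PConv l n Dk D →
  (∀ᶠ k in l, NDeg n (Nk k) (Dk k) ∧ ∃ R : ℝ, ASide A (Nk k) (Dk k) R (ϕk k)) →
  ∃ R : ℝ, ∀ᶠ k in l, ∀ R' : ℝ, R ≤ R' → ASide A (Nk k) (Dk k) R' (ϕk k)

/-- XJC (no critical points on the common boundary; from BLA, BLC) -/
def T_XJC : Prop := ∀ (n : ℕ) (A B : ℂ → ℂ) (a b : ℂ) (N D : ℂ[X]) (φ ψ : ℂ → ℂ), 2 ≤ n →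
  Marked n A a → Marked n B b → NDeg n N D → IsMating A a B b N D φ ψ →
  ∀ w : ℂ, ‖w‖ = 1 → (wr N D).eval (ψ w) ≠ 0

/-- XCA (critical points on the `A`-side; from BLA) -/
def T_XCA : Prop := ∀ (n : ℕ) (A : ℂ → ℂ) (N D : ℂ[X]) (R : ℝ) (ϕ : ℂ → ℂ), 2 ≤ n →
  IsBlaschke n A → NDeg n N D → ASide A N D R ϕ → ∀ ζ ∈ ball (0 : ℂ) 1, ∀ z : ℂ,
  ϕ ζ * z = 1 → (wr N D).eval z = 0 → deriv A ζ = 0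

/-- XPO (the other side of a mating with `z ^ n` is the basin; from BLA, XAS) -/
def T_XPO : Prop := ∀ (n : ℕ) (e : ℝ) (μ p : ℂ) (B : ℂ → ℂ) (b : ℂ) (N D : ℂ[X])
  (φ ψ : ℂ → ℂ), 3 ≤ n → 0 < e → e ≤ 1 / 2 → μ ≠ 0 → ‖μ‖ < 1 → p ≠ 1 → Marked n B b →
  NDeg n N D → (∀ z, D.eval z ≠ 0) → (∀ z, rf N D z = GF n e μ (p + z) - p) →
  IsMating (fun z => z ^ n) 1 B b N D φ ψ →
  ∀ v : ℂ, v ∈ Bas n e μ ↔ ∃ w ∈ ball (0 : ℂ) 1, p + ψ w = v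

/-- XPA (the pair; from BLA, INVH, LAB, XAS, XRE, XJC, XCA, XPO, GEL) -/
def T_XPA : Prop := ∀ (n : ℕ) (e ρ : ℝ) (μ p : ℂ) (A B : ℂ → ℂ) (a b : ℂ) (N₀ D₀ N D : ℂ[X])
  (φ₀ ψ₀ φ ψ : ℂ → ℂ), 3 ≤ n → 0 < e → e ≤ 1 / 2 → μ ≠ 0 → ‖μ‖ < 1 → p ≠ 1 → Marked n A a →
  Marked n B b → NDeg n N₀ D₀ → (∀ z, D₀.eval z ≠ 0) →
  (∀ z, rf N₀ D₀ z = GF n e μ (p + z) - p) →
  IsMating (fun z => z ^ n) 1 B b N₀ D₀ φ₀ ψ₀ → NDeg n N D → IsMating A a B b N D φ ψ →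
  (0 : ℂ) ∈ Bas n e μ → (-(e : ℂ)) ∈ Bas n e μ →
  (∀ z ∈ ball (0 : ℂ) 1, deriv A z = 0 → ‖z‖ ≤ ρ) → N.eval 0 = 0 →
  ∃ (R : ℝ) (ϕ χ : ℂ → ℂ), Pair n e A ρ μ N D R ϕ χ

/-- XPC -/
def T_XPC : Prop := ∀ (n : ℕ) (l : Filter ℕ) (y : ℕ → RatMap n) (y₀ : RatMap n), 1 ≤ n →
  Tendsto y l (𝓝 y₀) →
  PConv l n (fun k => (y k).num) y₀.num ∧ PConv l n (fun k => (y k).den) y₀.den

/-- XLI (sequences lift through the quotient map) -/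
def T_XLI : Prop := ∀ (n : ℕ) (y₀ : RatMap n) (q : ℕ → Moduli n),
  Tendsto q atTop (𝓝 (cls y₀)) →
  ∃ y : ℕ → RatMap n, (∀ k, cls (y k) = q k) ∧ Tendsto y atTop (𝓝 y₀)

/-- XSE (the normal forms of the perturbations) -/
def T_XSE : Prop := ∀ (n : ℕ) (e : ℝ), 3 ≤ n → 0 < e → e ≤ 1 / 2 →
  (∃ x₀ : RatMap n, XR n e 1 1 x₀) ∧ ∀ x₀ : RatMap n, XR n e 1 1 x₀ → ∀ μ p : ℕ → ℂ,
  Tendsto μ atTop (𝓝 1) → Tendsto p atTop (𝓝 1) →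
  (∀ᶠ k in atTop, μ k ≠ 0 ∧ GF n e (μ k) (p k) = p k) →
  ∃ x : ℕ → RatMap n, Tendsto x atTop (𝓝 x₀) ∧ ∀ᶠ k in atTop, XR n e (μ k) (p k) (x k)

/-- XHY (membership in `HypPoly`; from GEL) -/
def T_XHY : Prop := ∀ (n : ℕ) (e : ℝ) (μ p : ℂ) (x : RatMap n), 3 ≤ n → 0 < e → e ≤ 1 / 2 →
  μ ≠ 0 → ‖μ‖ < 1 → p ≠ 1 → GF n e μ p = p → XR n e μ p x →
  0 ∈ connectedComponentIn (Bas n e μ) 1 → (-(e : ℂ)) ∈ connectedComponentIn (Bas n e μ) 1 →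
  cls x ∈ HypPoly n

/-- the hypothesis to be refuted -/
def Hyp (n : ℕ) (A : ℂ → ℂ) (a : ℂ) (Ψ : Moduli n → Moduli n) : Prop :=
  ContinuousOn Ψ (closure (HypPoly n) ∩ PolyClass n) ∧
  ∀ q ∈ HypPoly n, ∃ (B : ℂ → ℂ) (b : ℂ), Marked n B b ∧
    Mates n (fun z => z ^ n) 1 B b q ∧ Mates n A a B b (Ψ q)

/-- XSQ (the data along a sequence; from XND, XRS, XUR, XPA, XPC, XLI, XSE, XHY, XAS, XPW) -/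
def T_XSQ : Prop := ∀ (n : ℕ) (e ρ : ℝ) (A : ℂ → ℂ) (a : ℂ) (Ψ : Moduli n → Moduli n)
  (x₀ y₀ : RatMap n) (μ p : ℕ → ℂ), 3 ≤ n → 0 < e → e ≤ 1 / 2 → Marked n A a →
  (∀ z ∈ ball (0 : ℂ) 1, deriv A z = 0 → ‖z‖ ≤ ρ) → Hyp n A a Ψ → XR n e 1 1 x₀ →
  cls y₀ = Ψ (cls x₀) → Tendsto μ atTop (𝓝 1) → Tendsto p atTop (𝓝 1) →
  (∀ᶠ k in atTop, μ k ≠ 0 ∧ ‖μ k‖ < 1 ∧ p k ≠ 1 ∧ GF n e (μ k) (p k) = p k ∧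
    0 ∈ connectedComponentIn (Bas n e (μ k)) 1 ∧
    (-(e : ℂ)) ∈ connectedComponentIn (Bas n e (μ k)) 1) →
  ∃ (R : ℝ) (Nk Dk : ℕ → ℂ[X]) (ϕk χk : ℕ → ℂ → ℂ) (x : ℕ → RatMap n) (ϕ' : ℕ → ℂ → ℂ),
    PConv atTop n Nk y₀.num ∧ PConv atTop n Dk y₀.den ∧ Tendsto x atTop (𝓝 x₀) ∧
    ∀ᶠ k in atTop, Pair n e A ρ (μ k) (Nk k) (Dk k) R (ϕk k) (χk k) ∧
      ASide (fun z => z ^ n) (x k).num (x k).den R (ϕ' k) ∧ (-(p k)) ∉ Out (ϕ' k)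

/-- XGS (the Riemann map of the complement of the filled Julia set; from XSQ's conclusion, LAM,
LGS, XPC, XND, XPW) -/
def T_XGS : Prop := ∀ (n : ℕ) (e R : ℝ) (x₀ : RatMap n) (p : ℕ → ℂ) (x : ℕ → RatMap n)
  (ϕ' : ℕ → ℂ → ℂ), 3 ≤ n → 0 < e → e ≤ 1 / 2 → XR n e 1 1 x₀ → Tendsto p atTop (𝓝 1) →
  Tendsto x atTop (𝓝 x₀) →
  (∀ᶠ k in atTop, ASide (fun z => z ^ n) (x k).num (x k).den R (ϕ' k) ∧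
    (-(p k)) ∉ Out (ϕ' k)) → ∃ φ : ℂ → ℂ, GSide n e φ

end Pool.Agent.MAT
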