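import Pool.Agent.MAT.TA
import Pool.Agent.MAT.TP
import Pool.Agent.MAT.TG
import Pool.Agent.MAT.TL
import Pool.Agent.MAT.TH
import Pool.Agent.MAT.TV
import Pool.Agent.MAT.TX

/-!
# MAT: the composition of the targets
-/

set_option autoImplicit false

open Polynomial Metric Set Filter Topology

noncomputable section

namespace Pool.Agent.MAT

theorem ell_re {S : ℝ} (hS : 0 < S) (k : ℕ) : (ell S k).re < 0 := by
  have h1 : (0 : ℝ) < (k : ℝ) ^ 2 + S ^ 2 := by positivity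
  have h2 : ((k : ℂ) - S * Complex.I) ≠ 0 := by
    intro h
    have := congrArg Complex.im h
    simp at this
    exact hS.ne' this
  have h3 : ell S k = ((-(2 * Real.pi * S) / ((k : ℝ) ^ 2 + S ^ 2) : ℝ) : ℂ) +
      ((2 * Real.pi * k / ((k : ℝ) ^ 2 + S ^ 2) : ℝ) : ℂ) * Complex.I := by
    unfold ell
    rw [div_eq_iff h2]
    have h4 : ((k : ℂ) ^ 2 + (S : ℂ) ^ 2) ≠ 0 := by exact_mod_cast h1.ne'
    push_cast
    field_simp
    ring_nf
    rw [Complex.I_sq]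
    ring
  rw [h3]
  simp only [Complex.add_re, Complex.ofReal_re, Complex.mul_re, Complex.I_re, mul_zero,
    Complex.ofReal_im, Complex.I_im, zero_mul, sub_self, add_zero]
  rw [div_neg_iff]
  right
  exact ⟨by have := Real.pi_pos; nlinarith [mul_pos this hS], h1⟩

theorem norm_exp_ell {S : ℝ} (hS : 0 < S) (k : ℕ) : ‖Complex.exp (ell S k)‖ < 1 := by
  rw [Complex.norm_exp]
  have := Real.exp_lt_exp.2 (ell_re hS k)
  simpa using this

theorem ell_tendsto (S : ℝ) : Tendsto (fun k : ℕ => ell S k) atTop (𝓝 0) := by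
  unfold ell
  have h : Tendsto (fun k : ℕ => ‖(k : ℂ) - S * Complex.I‖) atTop atTop := by
    have h0 : Tendsto (fun k : ℕ => (k : ℝ) - |S|) atTop atTop :=
      tendsto_atTop_add_const_right _ _ tendsto_natCast_atTop_atTop
    refine tendsto_atTop_mono (fun k => ?_) h0
    have := norm_sub_norm_le (k : ℂ) (S * Complex.I)
    simpa using this
  have h2 : Tendsto (fun k : ℕ => ((k : ℂ) - S * Complex.I)⁻¹) atTop (𝓝 0) := by
    rw [tendsto_zero_iff_norm_tendsto_zero]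
    have h3 := h.inv_tendsto_atTop
    refine h3.congr (fun k => ?_)
    simp
  simpa [div_eq_mul_inv] using h2.const_mul (2 * (Real.pi : ℂ) * Complex.I)

theorem main (hGIR : T_GIR) (hPKG : T_PKG) (hGEL : T_GEL) (hXSE : T_XSE) (hGFP : T_GFP)
    (hGBS : T_GBS) (hGHC : T_GHC) (hBLA : T_BLA) (hXSQ : T_XSQ) (hXGS : T_XGS) (hLRP : T_LRP)
    (hLRA : T_LRA) (hHKA : T_HKA) (hHRE : T_HRE) (hVID : T_VID) (hVCL : T_VCL) (hVLO : T_VLO)
    (hVEX : T_VEX) (hVMA : T_VMA) (hVFI : T_VFI) (hXND : T_XND)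
    (n : ℕ) (A : ℂ → ℂ) (a : ℂ) (hn : 3 ≤ n) (hA : Marked n A a)
    (hrot : ¬ ∃ ω : ℂ, ‖ω‖ = 1 ∧ ∀ z ∈ ball (0 : ℂ) 1, A (ω * z) = ω * z ^ n) :
    ¬ ∃ Ψ : Moduli n → Moduli n, Hyp n A a Ψ := by
  rintro ⟨Ψ, hΨ⟩
  obtain ⟨e, u, he0, he1, hu, hulim⟩ := hGIR n hn
  obtain ⟨g1, g2, -, -, g5, -, g7, -⟩ := hGEL n e hn he0 he1
  have h1e : (1 + (e : ℂ)) ≠ 0 := by
    have : (1 + e : ℝ) ≠ 0 := by positivity
    exact_mod_cast this
  have hGd : deriv (GG n e) 1 = 1 := by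
    rw [(g2 1).deriv]; field_simp; simp
  have hGan : AnalyticAt ℂ (GG n e) 1 := by
    have : Differentiable ℂ (GG n e) := fun v => (g2 v).differentiableAt
    exact this.analyticAt 1
  have hcA : (cA n e : ℂ) ≠ 0 := by exact_mod_cast g7.ne'
  obtain ⟨K⟩ := hPKG (GG n e) 1 (cA n e) hGan g1 hGd g5 hcA
  obtain ⟨⟨x₀, hx₀⟩, -⟩ := hXSE n e hn he0 he1
  obtain ⟨y₀, hy₀⟩ : ∃ y₀ : RatMap n, cls y₀ = Ψ (cls x₀) := Quotient.exists_rep _
  have h2n : 2 ≤ n := by omega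
  obtain ⟨-, -, -, -, -, -, -, -, ρ, hρ0, hρ1, hρ⟩ := hBLA n A h2n hA.1
  -- the radial sequence
  have hμ : Tendsto (fun k : ℕ => ((1 - 1 / ((k : ℝ) + 2) : ℝ) : ℂ)) atTop (𝓝 1) := by
    have h0 : Tendsto (fun k : ℕ => (1 - 1 / ((k : ℝ) + 2) : ℝ)) atTop (𝓝 (1 - 0)) := by
      refine tendsto_const_nhds.sub ?_
      have : Tendsto (fun k : ℕ => (k : ℝ) + 2) atTop atTop :=
        tendsto_atTop_add_const_right _ _ tendsto_natCast_atTop_atTop
      refine this.inv_tendsto_atTop.congr (fun k => ?_)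
      simp
    have h1 := (Complex.continuous_ofReal.tendsto _).comp h0
    rw [sub_zero, Complex.ofReal_one] at h1
    exact h1
  have hμr : ∀ k : ℕ, 0 < (1 - 1 / ((k : ℝ) + 2) : ℝ) ∧ (1 - 1 / ((k : ℝ) + 2) : ℝ) < 1 := by
    intro k
    have hk : (0 : ℝ) < (k : ℝ) + 2 := by positivity
    have hk1 : 1 / ((k : ℝ) + 2) < 1 := by
      rw [div_lt_one hk]; have : (0 : ℝ) ≤ k := by positivity
      linarith
    have hk2 : 0 < 1 / ((k : ℝ) + 2) := by positivity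
    constructor <;> linarith
  obtain ⟨p, hp, hpe⟩ := hGFP n e hn he0 he1 _ hμ (fun k h => by
    have := (hμr k).2
    have h' : (1 - 1 / ((k : ℝ) + 2) : ℝ) = 1 := by exact_mod_cast h
    linarith)
  have hrad := (hGBS n e hn he0 he1).1
  obtain ⟨R, Nk, Dk, ϕk, χk, x, ϕ', hN, hD, hx, hev⟩ := hXSQ n e ρ A a Ψ x₀ y₀ _ p hn he0 he1 hA
    hρ hΨ hx₀ hy₀ hμ hp (by
      filter_upwards [hpe] with k hk
      refine ⟨?_, ?_, hk.1, hk.2, (hrad _ (hμr k).1 (hμr k).2).2.1,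
        (hrad _ (hμr k).1 (hμr k).2).2.2⟩
      · exact_mod_cast (hμr k).1.ne'
      · rw [Complex.norm_real, Real.norm_of_nonneg (hμr k).1.le]
        exact (hμr k).2)
  obtain ⟨hND, hN0⟩ := hXND n y₀ (by omega)
  set v₀ : Ultrafilter ℕ := Filter.hyperfilter ℕ with hv₀
  have hv₀le : (v₀ : Filter ℕ) ≤ atTop := Nat.hyperfilter_le_atTop
  have hPC : ∀ {Pk : ℕ → ℂ[X]} {P : ℂ[X]}, PConv atTop n Pk P → PConv (v₀ : Filter ℕ) n Pk P :=
    fun h => ⟨h.1.filter_mono hv₀le, h.2.1, fun i => (h.2.2 i).mono_left hv₀le⟩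
  obtain ⟨φ, hφ⟩ := hXGS n e R x₀ p x ϕ' hn he0 he1 hx₀ hp hx (by
    filter_upwards [hev] with k hk using ⟨hk.2.1, hk.2.2⟩)
  obtain ⟨ϕ, χ, q, hpre⟩ := hLRP n e A ρ R y₀.num y₀.den v₀ Nk Dk ϕk χk hn he0 he1 hA.1 hρ1 hND
    hv₀le (hPC hN) (hPC hD) (by
      filter_upwards [hv₀le hev] with k hk using hk.1)
  obtain ⟨P, hRad⟩ := hLRA n e A y₀.num y₀.den (2 * R) ϕ χ q hn he0 he1 hA.1 hpre
  -- the parabolic package of `g`
  have hDP : y₀.den.eval P ≠ 0 := hRad.denp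
  have hrfan : AnalyticAt ℂ (rf y₀.num y₀.den) P := by
    have h1 : AnalyticAt ℂ (fun z => y₀.num.eval z) P :=
      (y₀.num.differentiable).analyticAt P
    have h2 : AnalyticAt ℂ (fun z => y₀.den.eval z) P :=
      (y₀.den.differentiable).analyticAt P
    exact h1.div h2 hDP
  have hrfix : rf y₀.num y₀.den P = P := by
    unfold rf; rw [hRad.fixp]; field_simp
  have hrfd : deriv (rf y₀.num y₀.den) P = 1 := by
    have h1 : HasDerivAt (rf y₀.num y₀.den)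
        (((derivative y₀.num).eval P * y₀.den.eval P - y₀.num.eval P *
          (derivative y₀.den).eval P) / y₀.den.eval P ^ 2) P :=
      (y₀.num.hasDerivAt P).div (y₀.den.hasDerivAt P) hDP
    rw [h1.deriv]
    have h2 := hRad.mult
    unfold wr at h2
    simp only [eval_sub, eval_mul] at h2
    rw [h2]
    field_simp
  obtain ⟨L⟩ := hPKG (rf y₀.num y₀.den) P (iteratedDeriv 2 (rf y₀.num y₀.den) P / 2) hrfan hrfix
    hrfd (by ring) (by
      have := hRad.nondeg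
      intro h
      apply this
      linear_combination 2 * h)
  obtain ⟨κ, hκ⟩ := hHKA n e A y₀.num y₀.den (2 * R) ϕ χ P _ hn he0 he1 hA.1 hRad K L
  -- the horocyclic sequences
  obtain ⟨S₀, hS₀, hS⟩ := hGHC n e hn he0 he1 K 3
  have hHor := hHRE n e u A y₀.num y₀.den (2 * R) ρ ϕ χ P _ κ hn he0 he1 hA.1 hRad hu hulim K L
    hκ ⟨S₀, fun S hSS => by
      have hSpos : 0 < S := lt_of_lt_of_le hS₀ hSS
      obtain ⟨-, hcc⟩ := hS S hSS
      have hμ' : Tendsto (fun k : ℕ => Complex.exp (ell S k)) atTop (𝓝 1) := by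
        have := (Complex.continuous_exp.tendsto 0).comp (ell_tendsto S)
        rw [Complex.exp_zero] at this
        exact this
      obtain ⟨p', hp', hpe'⟩ := hGFP n e hn he0 he1 _ hμ' (fun k h => by
        have := norm_exp_ell hSpos k
        rw [h] at this
        simp at this)
      obtain ⟨R', Nk', Dk', ϕk', χk', x', ϕ'', hN', hD', hx', hev'⟩ := hXSQ n e ρ A a Ψ x₀ y₀ _
        p' hn he0 he1 hA hρ hΨ hx₀ hy₀ hμ' hp' (by
          filter_upwards [hpe', hcc] with k hk hk'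
          exact ⟨Complex.exp_ne_zero _, norm_exp_ell hSpos k, hk.1, hk.2, hk'.1, hk'.2⟩)
      refine ⟨v₀, Nk', Dk', ϕk', χk', R', hv₀le, hSpos, ?_, hPC hN', hPC hD'⟩
      filter_upwards [hv₀le hev'] with k hk using hk.1⟩
  have h1 := hVID n e A y₀.num y₀.den (2 * R) ϕ χ P _ κ hn he0 he1 hA.1 hRad K L hκ hHor
  have h2 := hVCL n e A y₀.num y₀.den (2 * R) ϕ χ P _ κ hn he0 he1 hA.1 hRad K L h1
  have h3 := hVLO n e A y₀.num y₀.den (2 * R) ϕ χ P _ κ hn he0 he1 hA.1 hRad K L h2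
  obtain ⟨W, W₁, χ', hExd⟩ := hVEX n e A y₀.num y₀.den (2 * R) ϕ χ P hn he0 he1 hA.1 hRad h3
  have h4 := hVMA n e A y₀.num y₀.den (2 * R) ϕ χ χ' φ P W W₁ hn he0 he1 hA.1 hRad hExd hφ ⟨K⟩
  obtain ⟨κ', hκ1, hκ2⟩ := hVFI n e A y₀.num y₀.den (2 * R) ϕ χ χ' φ P W W₁ hn he0 he1 hA.1
    hRad hExd hφ h4
  exact hrot ⟨κ', hκ1, hκ2⟩

end Pool.Agent.MAT
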