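import Pool.Agent.MAT.T

/-!
# MAT-CPA: a parabolic direction attracts a critical point

If no critical point outside `Out ϕ` is attracted in the direction `ε`, then the inverse branches
of the iterates on the balls of CSE exist (CLI), and Cauchy's estimate contradicts CRA.
-/

set_option autoImplicit false

open Polynomial Metric Set Filter Topology

noncomputable section

namespace Pool.Agent.MAT.CPA_

lemma ne_of_sect {p ε : ℂ} {ν : ℕ} {r : ℝ} (hε : ‖ε‖ = 1) {z : ℂ} (hz : z ∈ Sect p ε ν r) :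
    z ≠ p := by
  obtain ⟨t, rfl, ht, -, -⟩ := hz
  have h : ε ≠ 0 := by
    intro h
    rw [h, norm_zero] at hε
    exact zero_ne_one hε
  intro h2
  exact mul_ne_zero h ht (by simpa using h2)

lemma mem_sect {p ε : ℂ} {ν : ℕ} {r : ℝ} (hν : 1 ≤ ν) {t : ℝ} (ht : 0 < t) (htr : t < r) :
    p + ε * t ∈ Sect p ε ν r := by
  have hν' : (0 : ℝ) < ν := by exact_mod_cast hν
  refine ⟨t, rfl, by exact_mod_cast ht.ne', ?_, ?_⟩
  · rw [Complex.norm_real, Real.norm_eq_abs, abs_of_pos ht]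
    exact htr
  · rw [Complex.arg_ofReal_of_nonneg ht.le, abs_zero]
    positivity

lemma rf_diff {N D : ℂ[X]} {z : ℂ} (h : D.eval z ≠ 0) : DifferentiableAt ℂ (rf N D) z := by
  unfold rf
  exact (N.differentiableAt).div (D.differentiableAt) h

lemma iter_diff {N D : ℂ[X]} {z : ℂ} (h : ∀ m : ℕ, D.eval ((rf N D)^[m] z) ≠ 0) (m : ℕ) :
    DifferentiableAt ℂ ((rf N D)^[m]) z := by
  induction m with
  | zero => exact differentiableAt_id
  | succ m ih =>
    rw [Function.iterate_succ']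
    exact (rf_diff (h m)).comp z ih

/-- the derivative of a map with a bounded right inverse -/
lemma deriv_lower {g h : ℂ → ℂ} {y z₀ : ℂ} {δ R : ℝ} (hδ : 0 < δ) (hR : 0 < R)
    (hh : DifferentiableOn ℂ h (ball y δ)) (hy : h y = z₀) (hb : ∀ ζ ∈ ball y δ, ‖h ζ‖ < R)
    (hg : DifferentiableAt ℂ g z₀) (hgh : ∀ ζ ∈ ball y δ, g (h ζ) = ζ) :
    δ / (2 * R) ≤ ‖deriv g z₀‖ := by
  have hya : DifferentiableAt ℂ h y :=
    (hh y (mem_ball_self hδ)).differentiableAt (isOpen_ball.mem_nhds (mem_ball_self hδ))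
  have h1 : HasDerivAt (g ∘ h) (deriv g z₀ * deriv h y) y := by
    refine HasDerivAt.comp y ?_ hya.hasDerivAt
    rw [hy]
    exact hg.hasDerivAt
  have h2 : HasDerivAt (g ∘ h) 1 y := by
    refine (hasDerivAt_id y).congr_of_eventuallyEq ?_
    filter_upwards [isOpen_ball.mem_nhds (mem_ball_self hδ)] with ζ hζ
    exact hgh ζ hζ
  have h3 : deriv g z₀ * deriv h y = 1 := h1.unique h2
  have h4 : ‖deriv h y‖ ≤ R / (δ / 2) := by
    refine Complex.norm_deriv_le_of_forall_mem_sphere_norm_le (by positivity) ?_ ?_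
    · refine DifferentiableOn.diffContOnCl ?_
      rw [closure_ball _ (by positivity)]
      exact hh.mono (closedBall_subset_ball (by linarith))
    · intro z hz
      exact (hb z (sphere_subset_closedBall.trans
        (closedBall_subset_ball (by linarith)) hz)).le
  have h5 : 1 = ‖deriv g z₀‖ * ‖deriv h y‖ := by rw [← norm_mul, h3, norm_one]
  have h6 : 1 ≤ ‖deriv g z₀‖ * (R / (δ / 2)) := by
    rw [h5]
    exact mul_le_mul_of_nonneg_left h4 (norm_nonneg _)
  rw [div_le_iff₀ (by positivity)]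
  have h7 : ‖deriv g z₀‖ * (R / (δ / 2)) * δ = ‖deriv g z₀‖ * (2 * R) := by
    field_simp
  calc δ = 1 * δ := (one_mul δ).symm
    _ ≤ ‖deriv g z₀‖ * (R / (δ / 2)) * δ := mul_le_mul_of_nonneg_right h6 hδ.le
    _ = ‖deriv g z₀‖ * (2 * R) := h7

end Pool.Agent.MAT.CPA_

namespace Pool.Agent.MAT

open CPA_ in
/-- CPA (a parabolic direction attracts a critical point) -/
theorem p_CPA (hCSE : T_CSE) (hCRA : T_CRA) (hCLI : T_CLI) (hLAB : T_LAB) : T_CPA := by
  intro n ν A N D P R ϕ p ε hn hA hND hAS hν hP hPp hDp hε hdir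
  obtain ⟨r, c, hr, hc, hs1, hs2, hs3⟩ := hCSE n ν N D P p ε hND hν hP hPp hDp hε hdir
  obtain ⟨r', hr', hs4⟩ := hCRA n ν N D P p ε hND hν hP hPp hDp hε hdir
  obtain ⟨-, -, hbd, hfw, -, hesc, -⟩ := hLAB n A N D R ϕ hn hA hND hAS
  by_contra hcon
  push Not at hcon
  have hfix : rf N D p = p := by
    have h := congrArg (Polynomial.eval p) hP
    rw [eval_sub, eval_mul, eval_X, eval_mul, eval_pow, eval_sub, eval_X, eval_C, sub_self,
      zero_pow (by omega), zero_mul, sub_eq_zero] at h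
    unfold rf
    rw [h, mul_div_cancel_right₀ _ hDp]
  -- the sector is invariant
  have hinv : ∀ z ∈ Sect p ε ν r, ∀ m : ℕ, (rf N D)^[m] z ∈ Sect p ε ν r := by
    intro z hz m
    induction m with
    | zero => exact hz
    | succ m ih =>
      rw [Function.iterate_succ_apply']
      exact (hs1 _ ih).2
  have hD : ∀ z ∈ Sect p ε ν r, ∀ m : ℕ, D.eval ((rf N D)^[m] z) ≠ 0 :=
    fun z hz m => (hs1 _ (hinv z hz m)).1
  -- the sector is outside `Out ϕ`
  have hout : ∀ z ∈ Sect p ε ν r, z ∉ Out ϕ := by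
    intro z hz hzo
    exact not_tendsto_nhds_of_tendsto_atTop (hesc z hzo (hD z hz)) _ (hs2 z hz).1.norm
  -- no critical orbit enters the sector
  have hcrit : ∀ z, (wr N D).eval z = 0 → z ∉ Out ϕ → ∀ j : ℕ,
      (rf N D)^[j] z ∉ Sect p ε ν r := by
    intro z hz hzo j hj
    have hit : ∀ m : ℕ, (rf N D)^[m] ((rf N D)^[j] z) = (rf N D)^[m + j] z := by
      intro m
      rw [Function.iterate_add_apply]
    refine hcon z hz hzo ?_ ?_ ?_
    · intro m hm
      have h1 : (rf N D)^[j + m] z = p := by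
        rw [Function.iterate_add_apply, hm]
        exact Function.iterate_fixed hfix j
      have h2 := hinv _ hj m
      rw [hit, add_comm, h1] at h2
      exact ne_of_sect hε h2 rfl
    · have h1 := (hs2 _ hj).1
      simp only [hit] at h1
      exact (tendsto_add_atTop_iff_nat j).1 h1
    · have h1 := (hs2 _ hj).2
      simp only [hit] at h1
      exact (tendsto_add_atTop_iff_nat
        (f := fun m => ((rf N D)^[m] z - p) / ‖(rf N D)^[m] z - p‖) j).1 h1
  -- the base point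
  obtain ⟨t, ht, htr, htr'⟩ : ∃ t : ℝ, 0 < t ∧ t < r ∧ t < r' :=
    ⟨min r r' / 2, by positivity, by linarith [min_le_left r r', lt_min hr hr'],
      by linarith [min_le_right r r', lt_min hr hr']⟩
  set y₀ : ℂ := p + ε * t with hy₀
  have hy : y₀ ∈ Sect p ε ν r := mem_sect hν ht htr
  have hy' : y₀ ∈ Sect p ε ν r' := mem_sect hν ht htr'
  obtain ⟨M, hM⟩ := hs3 y₀ hy
  have hR : 0 < R := by linarith [hAS.hR]
  have hlow : ∀ m : ℕ, M ≤ m →
      c / (2 * R) ≤ ‖deriv ((rf N D)^[m]) y₀‖ / ‖(rf N D)^[m] y₀ - p‖ := by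
    intro m hm
    have hpos : 0 < ‖(rf N D)^[m] y₀ - p‖ :=
      norm_pos_iff.2 (sub_ne_zero.2 (ne_of_sect hε (hinv y₀ hy m)))
    obtain ⟨h, h1, h2, h3⟩ := hCLI n A N D R ϕ ((rf N D)^[m] y₀)
      (c * ‖(rf N D)^[m] y₀ - p‖) hn hA hND hAS (by positivity)
      (fun z hz => hout z (hM m hm hz))
      (fun z hz hzo j _ hj => hcrit z hz hzo j (hM m hm hj)) m y₀ (hout y₀ hy) rfl
    have h4 := deriv_lower (g := (rf N D)^[m]) (by positivity) hR h1 h2
      (fun ζ hζ => hbd _ (h3 ζ hζ).1) (iter_diff (hD y₀ hy) m) (fun ζ hζ => (h3 ζ hζ).2)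
    rw [le_div_iff₀ hpos]
    calc c / (2 * R) * ‖(rf N D)^[m] y₀ - p‖ = c * ‖(rf N D)^[m] y₀ - p‖ / (2 * R) := by ring
      _ ≤ _ := h4
  have hlim := hs4 y₀ hy'
  have hev : ∀ᶠ m : ℕ in atTop,
      ‖deriv ((rf N D)^[m]) y₀‖ / ‖(rf N D)^[m] y₀ - p‖ < c / (2 * R) :=
    hlim.eventually (gt_mem_nhds (by positivity))
  obtain ⟨m, hm1, hm2⟩ := (hev.and (eventually_ge_atTop M)).exists
  exact absurd (hlow m hm2) (not_le.2 hm1)

end Pool.Agent.MAT
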