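import Pool.Agent.MAT.TG

/-! MAT, item GBS -/

set_option autoImplicit false

open Polynomial Metric Set Filter Topology

noncomputable section

namespace Pool.Agent.MAT

namespace GBS_

lemma cont_GG (n : ℕ) (e : ℝ) : Continuous (GG n e) := by
  unfold GG
  fun_prop

lemma cont_it (n : ℕ) (e : ℝ) (m : ℕ) :
    Continuous (fun p : ℂ × ℂ => (GF n e p.1)^[m] p.2) := by
  induction m with
  | zero => simpa using continuous_snd
  | succ m ih =>
    simp only [Function.iterate_succ', Function.comp_apply]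
    have h : (fun p : ℂ × ℂ => GF n e p.1 ((GF n e p.1)^[m] p.2)) =
        fun p : ℂ × ℂ => 1 + p.1 * (GG n e ((GF n e p.1)^[m] p.2) - 1) := rfl
    rw [h]
    exact continuous_const.add (continuous_fst.mul (((cont_GG n e).comp ih).sub continuous_const))

lemma GF_one (n : ℕ) (e : ℝ) : GF n e 1 = GG n e := by
  funext v
  simp [GF]

lemma part1 (hGEL : T_GEL) (hGQ : T_GQ) {n : ℕ} {e : ℝ} (hn : 3 ≤ n) (he : 0 < e)
    (he2 : e ≤ 1 / 2) {μ : ℝ} (h0 : 0 < μ) (h1 : μ < 1) :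
    closedBall (0 : ℂ) 1 ⊆ Bas n e μ := by
  obtain ⟨hG1, -, -, hGb, -⟩ := hGEL n e hn he he2
  obtain ⟨Q, hQ, -, -, -, hQb, -⟩ := hGQ n e hn he he2
  have hGb' : ∀ v : ℂ, ‖v‖ ≤ 1 → ‖GG n e v‖ ≤ 1 := by
    intro v hv
    by_cases h : v = 1
    · rw [h, hG1]; simp
    · exact (hGb v hv h).le
  have hF : ∀ v : ℂ, ‖v‖ ≤ 1 → ‖GF n e μ v‖ ≤ 1 := by
    intro v hv
    have e1 : GF n e μ v = ((1 - μ : ℝ) : ℂ) + (μ : ℂ) * GG n e v := by
      simp only [GF]
      push_cast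
      ring
    rw [e1]
    calc ‖((1 - μ : ℝ) : ℂ) + (μ : ℂ) * GG n e v‖
        ≤ ‖((1 - μ : ℝ) : ℂ)‖ + ‖(μ : ℂ) * GG n e v‖ := norm_add_le _ _
      _ = (1 - μ) + μ * ‖GG n e v‖ := by
          rw [norm_mul, Complex.norm_real, Complex.norm_real, Real.norm_eq_abs,
            Real.norm_eq_abs, abs_of_pos h0, abs_of_nonneg (by linarith)]
      _ ≤ (1 - μ) + μ * 1 := by
          have := mul_le_mul_of_nonneg_left (hGb' v hv) h0.le
          linarith
      _ = 1 := by ring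
  have hD : ∀ v : ℂ, ‖v‖ ≤ 1 → ‖1 - GF n e μ v‖ ≤ μ * ‖1 - v‖ := by
    intro v hv
    have e1 : 1 - GF n e μ v = (μ : ℂ) * ((1 - v) * Q.eval v) := by
      rw [← hQ v]
      simp only [GF]
      ring
    rw [e1, norm_mul, norm_mul, Complex.norm_real, Real.norm_eq_abs, abs_of_pos h0]
    have h2 := hQb v hv
    have h3 : ‖1 - v‖ * ‖Q.eval v‖ ≤ ‖1 - v‖ * 1 :=
      mul_le_mul_of_nonneg_left h2 (norm_nonneg _)
    have := mul_le_mul_of_nonneg_left h3 h0.le
    linarith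
  intro v hv
  have hv1 : ‖v‖ ≤ 1 := by simpa using hv
  have hit : ∀ m : ℕ, ‖(GF n e μ)^[m] v‖ ≤ 1 ∧ ‖1 - (GF n e μ)^[m] v‖ ≤ μ ^ m * ‖1 - v‖ := by
    intro m
    induction m with
    | zero => simp [hv1]
    | succ m ih =>
      obtain ⟨ih1, ih2⟩ := ih
      simp only [Function.iterate_succ', Function.comp_apply]
      refine ⟨hF _ ih1, ?_⟩
      calc ‖1 - GF n e μ ((GF n e μ)^[m] v)‖ ≤ μ * ‖1 - (GF n e μ)^[m] v‖ := hD _ ih1
        _ ≤ μ * (μ ^ m * ‖1 - v‖) := mul_le_mul_of_nonneg_left ih2 h0.le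
        _ = μ ^ (m + 1) * ‖1 - v‖ := by ring
  show Tendsto (fun m : ℕ => (GF n e μ)^[m] v) atTop (𝓝 1)
  rw [tendsto_iff_norm_sub_tendsto_zero]
  have ht : Tendsto (fun m : ℕ => μ ^ m * ‖1 - v‖) atTop (𝓝 0) := by
    have := (tendsto_pow_atTop_nhds_zero_of_lt_one h0.le h1).mul_const ‖1 - v‖
    simpa using this
  refine squeeze_zero (fun m => norm_nonneg _) (fun m => ?_) ht
  rw [norm_sub_rev]
  exact (hit m).2

lemma mem_Bas_of_it {n : ℕ} {e : ℝ} {μ v : ℂ} {m : ℕ} (h : (GF n e μ)^[m] v ∈ Bas n e μ) :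
    v ∈ Bas n e μ := by
  have h' : Tendsto (fun j : ℕ => (GF n e μ)^[j] ((GF n e μ)^[m] v)) atTop (𝓝 1) := h
  show Tendsto (fun j : ℕ => (GF n e μ)^[j] v) atTop (𝓝 1)
  rw [← tendsto_add_atTop_iff_nat m]
  refine h'.congr fun j => ?_
  rw [Function.iterate_add_apply]

end GBS_

open GBS_ in
theorem p_GBS (hGEL : T_GEL) (hGQ : T_GQ) : T_GBS := by
  intro n e hn he he2
  constructor
  · intro μ h0 h1
    have hb := part1 hGEL hGQ hn he he2 h0 h1
    have hc : IsPreconnected (closedBall (0 : ℂ) 1) := (convex_closedBall 0 1).isPreconnected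
    have h1m : (1 : ℂ) ∈ closedBall (0 : ℂ) 1 := by simp
    have hsub := hc.subset_connectedComponentIn h1m hb
    refine ⟨ball_subset_closedBall.trans hb, hsub (by simp), hsub ?_⟩
    simp only [mem_closedBall, dist_zero_right, norm_neg, Complex.norm_real, Real.norm_eq_abs]
    rw [abs_of_pos he]
    linarith
  · intro x hx
    obtain ⟨m, hm⟩ := hx
    have hopen : IsOpen {p : ℂ × ℂ | ‖(GF n e p.1)^[m] p.2‖ < 1} :=
      isOpen_lt (cont_it n e m).norm continuous_const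
    have hmem : ((1 : ℂ), x) ∈ {p : ℂ × ℂ | ‖(GF n e p.1)^[m] p.2‖ < 1} := by
      show ‖(GF n e 1)^[m] x‖ < 1
      rw [GF_one]
      exact hm
    obtain ⟨r, hr, hball⟩ := Metric.isOpen_iff.1 hopen _ hmem
    have key : ∀ μ ∈ ball (1 : ℂ) r, ∀ v ∈ ball x r, ‖(GF n e μ)^[m] v‖ < 1 := by
      intro μ hμ v hv
      have : (μ, v) ∈ ball ((1 : ℂ), x) r := by
        rw [← ball_prod_same]
        exact ⟨hμ, hv⟩
      exact hball this
    refine ⟨r, hr, ?_, ?_⟩
    · intro v hv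
      refine ⟨m, ?_⟩
      have := key 1 (mem_ball_self hr) v hv
      rwa [GF_one] at this
    · have hlim : Tendsto (fun k : ℕ => (1 : ℝ) / ((k : ℝ) + 2)) atTop (𝓝 0) := by
        have h := tendsto_one_div_add_atTop_nhds_zero_nat (𝕜 := ℝ)
        have h2 := h.comp (tendsto_add_atTop_nat 1)
        refine h2.congr fun k => ?_
        simp only [Function.comp_apply]
        push_cast
        ring
      filter_upwards [hlim.eventually (gt_mem_nhds hr)] with k hk
      have hk0 : (0 : ℝ) < 1 / ((k : ℝ) + 2) := by positivity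
      have hk1 : (1 : ℝ) / ((k : ℝ) + 2) < 1 := by
        rw [div_lt_one (by positivity)]
        have : (0 : ℝ) ≤ k := Nat.cast_nonneg k
        linarith
      intro v hv
      have hμ : ((1 - 1 / ((k : ℝ) + 2) : ℝ) : ℂ) ∈ ball (1 : ℂ) r := by
        rw [mem_ball, dist_eq_norm]
        have : (((1 - 1 / ((k : ℝ) + 2) : ℝ) : ℂ) - 1) = ((-(1 / ((k : ℝ) + 2)) : ℝ) : ℂ) := by
          push_cast
          ring
        rw [this, Complex.norm_real, Real.norm_eq_abs, abs_neg, abs_of_pos hk0]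
        exact hk
      have h3 := key _ hμ v hv
      refine mem_Bas_of_it (m := m) ?_
      apply part1 hGEL hGQ hn he he2 (μ := 1 - 1 / ((k : ℝ) + 2)) (by linarith) (by linarith)
      simpa using h3.le

end Pool.Agent.MAT
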