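import Pool.Agent.MAT.T

/-!
# MAT, target GQ: the quotient `(1 - G) / (1 - v)`
-/

set_option autoImplicit false

open Polynomial Metric Set Filter Topology

noncomputable section

namespace Pool.Agent.MAT

namespace GQ_

/-- the real polynomial `(1 + X + ... + X ^ (m - 1)) / m` -/
def qr (m : ℕ) : ℝ[X] := C (1 / (m : ℝ)) * ∑ i ∈ Finset.range m, X ^ i

/-- the real form of the quotient -/
def Qr (n : ℕ) (e : ℝ) : ℝ[X] := C (1 / (1 + e)) * (qr n + C e * qr (n - 1))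

/-- the quotient -/
def Q (n : ℕ) (e : ℝ) : ℂ[X] := (Qr n e).map Complex.ofRealHom

/-- values of `q_m` -/
def qv (m : ℕ) (v : ℂ) : ℂ := (1 / (m : ℂ)) * ∑ i ∈ Finset.range m, v ^ i

theorem Q_eval (n : ℕ) (e : ℝ) (v : ℂ) :
    (Q n e).eval v = (1 / (1 + (e : ℂ))) * (qv n v + e * qv (n - 1) v) := by
  unfold Q Qr qr qv
  simp [Polynomial.eval_map, Polynomial.eval₂_finset_sum]

theorem qv_mul (m : ℕ) (hm : m ≠ 0) (v : ℂ) : (1 - v) * qv m v = (1 - v ^ m) / m := by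
  unfold qv
  have h := mul_neg_geom_sum v m
  have hm' : (m : ℂ) ≠ 0 := Nat.cast_ne_zero.2 hm
  rw [← h]
  field_simp

theorem qv_one (m : ℕ) (hm : m ≠ 0) : qv m 1 = 1 := by
  unfold qv
  have hm' : (m : ℂ) ≠ 0 := Nat.cast_ne_zero.2 hm
  simp [hm']

theorem qv_le (m : ℕ) (hm : m ≠ 0) (v : ℂ) (hv : ‖v‖ ≤ 1) : ‖qv m v‖ ≤ 1 := by
  unfold qv
  have hm' : (0 : ℝ) < (m : ℝ) := by
    have : 0 < m := Nat.pos_of_ne_zero hm
    exact_mod_cast this
  rw [norm_mul, norm_div, norm_one, Complex.norm_natCast]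
  have h1 : ‖∑ i ∈ Finset.range m, v ^ i‖ ≤ (m : ℝ) := by
    calc ‖∑ i ∈ Finset.range m, v ^ i‖ ≤ ∑ i ∈ Finset.range m, ‖v ^ i‖ := norm_sum_le _ _
      _ ≤ ∑ i ∈ Finset.range m, (1 : ℝ) := Finset.sum_le_sum fun i _ => by
          rw [norm_pow]
          exact pow_le_one₀ (norm_nonneg _) hv
      _ = m := by simp
  calc 1 / (m : ℝ) * ‖∑ i ∈ Finset.range m, v ^ i‖ ≤ 1 / (m : ℝ) * m := by gcongr
    _ = 1 := by field_simp

theorem one_add_lt (v : ℂ) (hv : ‖v‖ ≤ 1) (h1 : v ≠ 1) : ‖1 + v‖ < 2 := by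
  have hre : v.re < 1 := by
    have hle : v.re ≤ 1 := (Complex.re_le_norm v).trans hv
    rcases lt_or_eq_of_le hle with h | h
    · exact h
    · exfalso
      apply h1
      have h2 : ‖v‖ ^ 2 = v.re * v.re + v.im * v.im := by
        rw [Complex.sq_norm, Complex.normSq_apply]
      have h3 : ‖v‖ ^ 2 ≤ 1 := pow_le_one₀ (norm_nonneg _) hv
      have h4 : v.im * v.im ≤ 0 := by rw [h2, h] at h3; linarith
      have h5 : v.im = 0 := by nlinarith [mul_self_nonneg v.im]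
      apply Complex.ext
      · simpa using h
      · simpa using h5
  have h2 : ‖1 + v‖ ^ 2 < 2 ^ 2 := by
    rw [Complex.sq_norm, Complex.normSq_apply]
    have h3 : ‖v‖ ^ 2 ≤ 1 := pow_le_one₀ (norm_nonneg _) hv
    rw [Complex.sq_norm, Complex.normSq_apply] at h3
    simp only [Complex.add_re, Complex.one_re, Complex.add_im, Complex.one_im]
    nlinarith
  exact lt_of_pow_lt_pow_left₀ 2 (by norm_num) h2

theorem qv_lt (m : ℕ) (hm : 2 ≤ m) (v : ℂ) (hv : ‖v‖ ≤ 1) (h1 : v ≠ 1) : ‖qv m v‖ < 1 := by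
  unfold qv
  have hm' : (0 : ℝ) < (m : ℝ) := by
    have : 0 < m := by omega
    exact_mod_cast this
  rw [norm_mul, norm_div, norm_one, Complex.norm_natCast]
  have h2 : ‖∑ i ∈ Finset.range m, v ^ i‖ < (m : ℝ) := by
    obtain ⟨d, rfl⟩ := Nat.exists_eq_add_of_le hm
    rw [Finset.sum_range_add]
    have h3 : ‖∑ x ∈ Finset.range d, v ^ (2 + x)‖ ≤ (d : ℝ) := by
      calc ‖∑ x ∈ Finset.range d, v ^ (2 + x)‖ ≤ ∑ x ∈ Finset.range d, ‖v ^ (2 + x)‖ :=
            norm_sum_le _ _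
        _ ≤ ∑ x ∈ Finset.range d, (1 : ℝ) := Finset.sum_le_sum fun i _ => by
            rw [norm_pow]
            exact pow_le_one₀ (norm_nonneg _) hv
        _ = d := by simp
    have h4 : ‖∑ x ∈ Finset.range 2, v ^ x‖ < 2 := by
      rw [Finset.sum_range_succ, Finset.sum_range_one, pow_zero, pow_one]
      exact one_add_lt v hv h1
    calc ‖∑ x ∈ Finset.range 2, v ^ x + ∑ x ∈ Finset.range d, v ^ (2 + x)‖
        ≤ ‖∑ x ∈ Finset.range 2, v ^ x‖ + ‖∑ x ∈ Finset.range d, v ^ (2 + x)‖ := norm_add_le _ _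
      _ < 2 + d := by linarith
      _ = ((2 + d : ℕ) : ℝ) := by push_cast; ring
  calc 1 / (m : ℝ) * ‖∑ i ∈ Finset.range m, v ^ i‖ < 1 / (m : ℝ) * m := by gcongr
    _ = 1 := by field_simp

theorem qr_der (m : ℕ) (hm : m ≠ 0) : (derivative (qr m)).eval 1 = ((m : ℝ) - 1) / 2 := by
  have hm' : (m : ℝ) ≠ 0 := Nat.cast_ne_zero.2 hm
  have h : ∀ k : ℕ, (derivative (∑ i ∈ Finset.range k, (X : ℝ[X]) ^ i)).eval 1 =
      (k : ℝ) * (k - 1) / 2 := by
    intro k
    induction k with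
    | zero => simp
    | succ k ih =>
      rw [Finset.sum_range_succ, derivative_add, eval_add, ih, derivative_X_pow]
      simp
      ring
  unfold qr
  rw [derivative_C_mul, eval_C_mul, h]
  field_simp

end GQ_

open GQ_ in
theorem p_GQ : T_GQ := by
  intro n e hn he he2
  have hn1 : n ≠ 0 := by omega
  have hn2 : n - 1 ≠ 0 := by omega
  have hc : ((n - 1 : ℕ) : ℂ) = (n : ℂ) - 1 := by
    rw [Nat.cast_sub (by omega)]
    simp
  have hcr : ((n - 1 : ℕ) : ℝ) = (n : ℝ) - 1 := by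
    rw [Nat.cast_sub (by omega)]
    simp
  have he1 : (1 : ℂ) + (e : ℂ) ≠ 0 := by
    have : (1 : ℝ) + e ≠ 0 := by positivity
    exact_mod_cast this
  have hnorm : ‖(1 : ℂ) / (1 + (e : ℂ))‖ = 1 / (1 + e) := by
    have h : (1 : ℂ) / (1 + (e : ℂ)) = ((1 / (1 + e) : ℝ) : ℂ) := by push_cast; ring
    rw [h, Complex.norm_real, Real.norm_of_nonneg (by positivity)]
  have hnQ : ∀ v : ℂ, ‖(Q n e).eval v‖ ≤ 1 / (1 + e) * (‖qv n v‖ + e * ‖qv (n - 1) v‖) := by
    intro v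
    rw [Q_eval, norm_mul, hnorm]
    have h : ‖qv n v + e * qv (n - 1) v‖ ≤ ‖qv n v‖ + e * ‖qv (n - 1) v‖ := by
      refine (norm_add_le _ _).trans ?_
      rw [norm_mul, Complex.norm_real, Real.norm_of_nonneg he.le]
    gcongr
  refine ⟨Q n e, ?_, ?_, ?_, ?_, ?_, ?_⟩
  · intro v
    rw [Q_eval]
    have h1 := qv_mul n hn1 v
    have h2 := qv_mul (n - 1) hn2 v
    rw [hc] at h2
    calc 1 - GG n e v = (1 / (1 + (e : ℂ))) * ((1 - v ^ n) / n +
          e * ((1 - v ^ (n - 1)) / ((n : ℂ) - 1))) := by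
          unfold GG
          field_simp
          ring
      _ = (1 - v) * (1 / (1 + (e : ℂ)) * (qv n v + e * qv (n - 1) v)) := by
          rw [← h1, ← h2]
          ring
  · rw [Q_eval, qv_one n hn1, qv_one (n - 1) hn2, mul_one]
    field_simp
  · unfold Q
    rw [Polynomial.derivative_map]
    have h1 : (1 : ℂ) = Complex.ofRealHom 1 := by simp
    rw [h1, Polynomial.eval_map_apply]
    have h2 : (derivative (Qr n e)).eval 1 = cA n e := by
      unfold Qr cA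
      rw [derivative_C_mul, eval_C_mul, derivative_add, eval_add, derivative_C_mul, eval_C_mul,
        qr_der n hn1, qr_der (n - 1) hn2, hcr]
      have : (1 : ℝ) + e ≠ 0 := by positivity
      field_simp
      ring
    rw [h2]
    rfl
  · intro i
    unfold Q
    rw [Polynomial.coeff_map]
    exact Complex.ofReal_im _
  · intro v hv
    refine (hnQ v).trans ?_
    have h1 := qv_le n hn1 v hv
    have h2 := qv_le (n - 1) hn2 v hv
    calc 1 / (1 + e) * (‖qv n v‖ + e * ‖qv (n - 1) v‖) ≤ 1 / (1 + e) * (1 + e * 1) := by gcongr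
      _ = 1 := by field_simp
  · intro v hv hv1
    refine (hnQ v).trans_lt ?_
    have h1 := qv_lt n (by omega) v hv hv1
    have h2 := qv_le (n - 1) hn2 v hv
    calc 1 / (1 + e) * (‖qv n v‖ + e * ‖qv (n - 1) v‖) < 1 / (1 + e) * (1 + e * 1) := by
          have : ‖qv n v‖ + e * ‖qv (n - 1) v‖ < 1 + e * 1 := by nlinarith
          gcongr
      _ = 1 := by field_simp

end Pool.Agent.MAT
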