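import Pool.Agent.MAT.T

/-!
# MAT, HPB: basic facts on `HasPhi`
-/

set_option autoImplicit false

open Polynomial Metric Set Filter Topology

noncomputable section

namespace Pool.Agent.MAT

namespace HPB_

variable {g : ℂ → ℂ} {p a : ℂ} (K : PK g p a)

include K in
lemma stay {z : ℂ} (hz : z ∈ PinS a p K.Rp) (j : ℕ) :
    g^[j] z ∈ PinS a p K.Rp ∧ K.Fi (g^[j] z) = K.Fi z + j := by
  induction j with
  | zero => simpa using hz
  | succ j ih =>
    rw [Function.iterate_succ_apply']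
    refine ⟨K.in_map _ ih.1, ?_⟩
    rw [K.Fi_map _ ih.1, ih.2]
    push_cast
    ring

include K in
/-- the coordinate along the orbit -/
lemma later {x w : ℂ} {m : ℕ} (h1 : g^[m] x ∈ PinS a p K.Rp) (h2 : K.Fi (g^[m] x) = w + m)
    (M : ℕ) (hM : m ≤ M) : g^[M] x ∈ PinS a p K.Rp ∧ K.Fi (g^[M] x) = w + M := by
  obtain ⟨j, rfl⟩ := Nat.exists_eq_add_of_le hM
  have h := stay K h1 j
  rw [← Function.iterate_add_apply, Nat.add_comm j m] at h
  refine ⟨h.1, ?_⟩
  rw [h.2, h2]
  push_cast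
  ring

lemma notp (R : ℝ) : p ∉ PinS a p R := fun h => h.1 rfl

include K in
lemma fixp (j : ℕ) : g^[j] p = p := Function.iterate_fixed K.g_fix j

lemma omc_inv (a p z : ℂ) (C : ℝ) : C / ‖omc a p z‖ = C * (‖a‖ * ‖z - p‖) := by
  unfold omc
  rw [norm_div, norm_neg, norm_one, norm_mul, div_div_eq_mul_div, div_one]

include K in
lemma conv {x w : ℂ} (h : K.HasPhi x w) : Tendsto (fun m : ℕ => g^[m] x) atTop (𝓝 p) := by
  obtain ⟨m, h1, h2⟩ := h
  rw [← tendsto_add_atTop_iff_nat m]
  have := K.in_conv _ h1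
  refine this.congr fun j => ?_
  rw [← Function.iterate_add_apply]

end HPB_

theorem p_HPB : T_HPB := by
  intro g p a K
  refine ⟨?_, ?_, ?_, ?_, ?_, ?_, ?_, ?_, ?_, ?_⟩
  · rintro x w w' ⟨m, h1, h2⟩ ⟨m', h1', h2'⟩
    have e1 := (HPB_.later K h1 h2 (max m m') (le_max_left _ _)).2
    have e2 := (HPB_.later K h1' h2' (max m m') (le_max_right _ _)).2
    rw [e1] at e2
    exact add_right_cancel e2
  · intro x w
    constructor
    · rintro ⟨m, h1, h2⟩
      refine ⟨m + 1, ?_, ?_⟩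
      · rw [Function.iterate_succ_apply]
        exact h1
      · rw [Function.iterate_succ_apply, h2]
        push_cast
        ring
    · rintro ⟨m, h1, h2⟩
      have h := HPB_.later K h1 h2 (m + 1) (Nat.le_succ m)
      rw [Function.iterate_succ_apply] at h
      refine ⟨m, h.1, ?_⟩
      rw [h.2]
      push_cast
      ring
  · intro x h1 h2
    obtain ⟨m, hm⟩ := K.in_abs x h1 h2
    exact ⟨K.Fi (g^[m] x) - m, m, hm, by ring⟩
  · intro x w h
    have hc := HPB_.conv K h
    refine ⟨hc, ?_, ?_⟩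
    · obtain ⟨m, h1, h2⟩ := h
      intro j hj
      have h3 := (HPB_.later K h1 h2 (m + j) (Nat.le_add_right _ _)).1
      rw [Function.iterate_add_apply, hj, HPB_.fixp K] at h3
      exact HPB_.notp _ h3
    · obtain ⟨m, h1, h2⟩ := h
      rw [tendsto_iff_norm_sub_tendsto_zero]
      have hb : Tendsto (fun j : ℕ => K.C * (‖a‖ * ‖g^[j] x - p‖)) atTop (𝓝 0) := by
        have h3 := (tendsto_iff_norm_sub_tendsto_zero.1 hc).const_mul ‖a‖
        have h4 := h3.const_mul K.C
        simpa using h4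
      refine squeeze_zero' (Eventually.of_forall fun _ => norm_nonneg _) ?_ hb
      filter_upwards [eventually_ge_atTop m] with j hj
      have h5 := HPB_.later K h1 h2 j hj
      have h6 := K.Fi_asy _ h5.1
      rw [h5.2, HPB_.omc_inv, norm_sub_rev] at h6
      have h7 : Lin K.β (omc a p (g^[j] x)) - j - w = Lin K.β (omc a p (g^[j] x)) - (w + j) := by
        ring
      rw [h7]
      exact h6
  · rintro x y w ⟨m, h1, h2⟩ ⟨m', h1', h2'⟩
    refine ⟨max m m', fun M hM => ?_⟩
    have e1 := HPB_.later K h1 h2 M ((le_max_left _ _).trans hM)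
    have e2 := HPB_.later K h1' h2' M ((le_max_right _ _).trans hM)
    exact K.Fi_inj e1.1 e2.1 (e1.2.trans e2.2.symm)
  · intro w hw
    refine ⟨0, K.Ei_mem w hw, ?_⟩
    simpa using K.Ei_inv w hw
  · intro w hw
    have hw1 : K.R < (w + 1).re := by
      simp only [Complex.add_re, Complex.one_re]
      linarith
    refine K.Fi_inj (K.Ei_mem _ hw1) (K.in_map _ (K.Ei_mem _ hw)) ?_
    rw [K.Ei_inv _ hw1, K.Fi_map _ (K.Ei_mem _ hw), K.Ei_inv _ hw]
  · intro w hw
    exact K.H_spec w hw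
  · rintro x w ⟨m, h1, h2⟩
    obtain ⟨m', hm'⟩ := exists_nat_gt (K.R - w.re)
    refine ⟨max m m', fun M hM => ?_⟩
    have hM' : (m' : ℝ) ≤ M := by exact_mod_cast (le_max_right _ _).trans hM
    have hR : K.R < w.re + M := by linarith
    refine ⟨hR, ?_⟩
    have hR' : K.R < (w + (M : ℂ)).re := by
      simp only [Complex.add_re, Complex.natCast_re]
      exact hR
    have e1 := HPB_.later K h1 h2 M ((le_max_left _ _).trans hM)
    refine K.Fi_inj e1.1 (K.Ei_mem _ hR') ?_
    rw [e1.2, K.Ei_inv _ hR']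
  · intro w hw w' hw' h
    have h1 := K.Ei_inv w hw
    rw [h, K.Ei_inv w' hw'] at h1
    exact h1.symm

end Pool.Agent.MAT
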