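import Pool.Agent.MAT.T
import Pool.Agent.PLim.KOEB

/-! MAT: UC (univalent functions on a half plane commuting with the translation) -/

set_option autoImplicit false

open Polynomial Metric Set Filter Topology

noncomputable section

namespace Pool.Agent.MAT

/-- UC -/
theorem p_UC : T_UC := by
  intro τ Y hd hi hτ w hw
  have hsub : ball w 1 ⊆ {z : ℂ | Y < z.im} := by
    intro z hz
    have h1 : |(z - w).im| ≤ ‖z - w‖ := Complex.abs_im_le_norm _
    have h2 : ‖z - w‖ < 1 := by rwa [mem_ball, dist_eq_norm] at hz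
    have h3 := abs_le.1 (h1.trans h2.le)
    have h4 : |(z - w).im| < 1 := h1.trans_lt h2
    have h5 := (abs_lt.1 h4).1
    rw [Complex.sub_im] at h5
    show Y < z.im
    linarith
  have hwY : Y < w.im := by linarith
  have hw1 : (w + 1) ∈ {z : ℂ | Y < z.im} := by
    show Y < (w + 1).im
    rw [Complex.add_im, Complex.one_im, add_zero]
    exact hwY
  have hne : ∀ z ∈ ball w 1, τ z - τ (w + 1) ≠ 0 := by
    intro z hz h0
    have h1 : z = w + 1 := hi (hsub hz) hw1 (sub_eq_zero.1 h0)
    rw [h1, mem_ball, dist_eq_norm, add_sub_cancel_left, norm_one] at hz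
    exact lt_irrefl _ hz
  have hK := Pool.Agent.PLim.p_KOEB w 1 (fun z => τ z - τ (w + 1)) one_pos
    ((hd.mono hsub).sub_const _)
    (fun x hx y hy hxy => hi (hsub hx) (hsub hy) (sub_left_inj.1 hxy)) hne
  have h2 : deriv (fun z => τ z - τ (w + 1)) w = deriv τ w := deriv_sub_const _
  rw [h2, mul_one, hτ w hwY] at hK
  have h3 : ‖τ w - (τ w + 1)‖ = 1 := by
    rw [sub_add_cancel_left, norm_neg, norm_one]
  calc ‖deriv τ w‖ ≤ 64 * ‖τ w - (τ w + 1)‖ := hK
    _ = 64 := by rw [h3, mul_one]

end Pool.Agent.MAT
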