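import Pool.Agent.MAT.T

/-!
# MAT: proof of `T_VCL`
-/

set_option autoImplicit false

open Polynomial Metric Set Filter Topology

noncomputable section

namespace Pool.Agent.MAT

namespace VCL_

lemma E_iter {g : ℂ → ℂ} {p a : ℂ} (K : PK g p a) (j : ℕ) (w : ℂ) :
    g^[j] (K.E (w - j)) = K.E w := by
  induction j with
  | zero => simp
  | succ j ih =>
    rw [Function.iterate_succ_apply, ← K.E_add]
    have : w - ((j + 1 : ℕ) : ℂ) + 1 = w - j := by push_cast; ring
    rw [this, ih]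

lemma isOpen_Hs (σ : ℝ) : IsOpen (Hs σ) :=
  isOpen_lt continuous_const (continuous_const.mul Complex.continuous_im)

lemma isOpen_reLt (X : ℝ) : IsOpen {w : ℂ | w.re < X} :=
  isOpen_lt Complex.continuous_re continuous_const

end VCL_

open VCL_

theorem p_VCL (hGTA : T_GTA) (hGUH : T_GUH) (hGBA : T_GBA) (hHUS : T_HUS) : T_VCL := by
  intro n e A N D R ϕ χ p a κ hn he he' hA rad K L hup
  obtain ⟨Y, hY⟩ := hup
  obtain ⟨-, τ, X₁, Y₁, hX₁, hτhol, hτ, hτlim, hτE, hEup⟩ := hGTA n e hn he he' K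
  obtain ⟨hUo, -, -, hUinv, -, -, -, -, -, -, -, -, -⟩ := hGBA n e hn he he'
  have hEUG := (hHUS n e hn he he' K 0).2.2.2.1
  have hpre := hGUH n e hn he he'
  -- the conjugacy
  have hA1 : ∀ v ∈ UG n e, rf N D (χ v) = χ (GG n e v) := by
    intro v hv
    have hD := (rad.aside.back _ (rad.cross v hv)).1
    unfold rf
    rw [div_eq_iff hD]
    exact rad.conj v hv
  have hA2 : ∀ (m : ℕ) (v : ℂ), v ∈ UG n e → (rf N D)^[m] (χ v) = χ ((GG n e)^[m] v) ∧
      (GG n e)^[m] v ∈ UG n e := by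
    intro m
    induction m with
    | zero => intro v hv; exact ⟨rfl, hv⟩
    | succ m ih =>
      intro v hv
      rw [Function.iterate_succ_apply', Function.iterate_succ_apply', (ih v hv).1,
        hA1 _ (ih v hv).2]
      exact ⟨rfl, (hUinv _).2 (ih v hv).2⟩
  have hUit : ∀ (m : ℕ) (v : ℂ), (GG n e)^[m] v ∈ UG n e ↔ v ∈ UG n e := by
    intro m
    induction m with
    | zero => intro v; exact Iff.rfl
    | succ m ih =>
      intro v
      rw [Function.iterate_succ_apply, ih, hUinv]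
  -- the inverse branch
  have hτH : ∀ (m : ℕ) (x : ℂ), x ∈ Hs 1 → τ^[m] x ∈ Hs 1 ∧ (GG n e)^[m] (τ^[m] x) = x := by
    intro m
    induction m with
    | zero => intro x hx; exact ⟨hx, rfl⟩
    | succ m ih =>
      intro x hx
      have h1 := ih x hx
      have h2 := hτ _ h1.1
      rw [Function.iterate_succ_apply' τ]
      refine ⟨h2.1, ?_⟩
      rw [Function.iterate_succ_apply, h2.2, h1.2]
  have hτEj : ∀ (j : ℕ) (w : ℂ), w.re < -X₁ → K.E w ∈ Hs 1 →
      K.E (w - j) ∈ Hs 1 ∧ τ^[j] (K.E w) = K.E (w - j) := by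
    intro j
    induction j with
    | zero => intro w _ hw; simpa using hw
    | succ j ih =>
      intro w hw1 hw2
      obtain ⟨h1, h2⟩ := ih w hw1 hw2
      have hre : (w - (j : ℂ)).re < -X₁ := by
        rw [Complex.sub_re, Complex.natCast_re]
        have : (0 : ℝ) ≤ j := Nat.cast_nonneg j
        linarith
      have h3 := hτE (w - j) hre h1
      have h4 : w - (j : ℂ) - 1 = w - ((j + 1 : ℕ) : ℂ) := by push_cast; ring
      rw [h4] at h3
      refine ⟨h3.1, ?_⟩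
      rw [Function.iterate_succ_apply', h2, h3.2]
  have hτcont : ∀ (m : ℕ), ContinuousOn (τ^[m]) (Hs 1) := by
    intro m
    induction m with
    | zero => exact continuousOn_id
    | succ m ih =>
      rw [Function.iterate_succ']
      exact hτhol.continuousOn.comp ih fun x hx => (hτH m x hx).1
  -- the constant
  set X₂ : ℝ := max X₁ (L.R + ‖κ‖) with hX₂
  have hX12 : X₁ ≤ X₂ := le_max_left _ _
  have hXL : L.R + ‖κ‖ ≤ X₂ := le_max_right _ _
  have hsh : ∀ (w : ℂ) (j : ℕ), w.re < -X₂ → (w - (j : ℂ)).re < -X₂ := by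
    intro w j hw
    rw [Complex.sub_re, Complex.natCast_re]
    have : (0 : ℝ) ≤ j := Nat.cast_nonneg j
    linarith
  have hKinj : ∀ w w' : ℂ, w.re < -X₂ → w'.re < -X₂ → K.E w = K.E w' → w = w' := by
    intro w w' h1 h2 h3
    exact K.E_inj (show w.re < -K.R by linarith) (show w'.re < -K.R by linarith) h3
  have hκre : ∀ w : ℂ, w.re < -X₂ → (w + κ).re < -L.R := by
    intro w hw
    have h1 := Complex.abs_re_le_norm κ
    have h2 := le_abs_self κ.re
    rw [Complex.add_re]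
    linarith
  let Z : ℂ → Prop := fun x => ∃ (m : ℕ) (w : ℂ), w.re < -X₂ ∧ K.E w = τ^[m] x ∧
    ∀ j : ℕ, ∀ᶠ w' in 𝓝 (w - (j : ℂ)), χ (K.E w') = L.E (w' + κ)
  -- identity theorem
  have hid : ∀ (w₀ : ℂ) (s : ℝ), (∀ w ∈ ball w₀ s, w.re < -X₂ ∧ K.E w ∈ UG n e) → ∀ (c : ℕ)
      (w₁ : ℂ), w₁ ∈ ball (w₀ - (c : ℂ)) s → (∀ᶠ w' in 𝓝 w₁, χ (K.E w') = L.E (w' + κ)) →
      ∀ w' ∈ ball (w₀ - (c : ℂ)) s, χ (K.E w') = L.E (w' + κ) := by
    intro w₀ s hs c w₁ hw₁ hev
    have hmem : ∀ w ∈ ball (w₀ - (c : ℂ)) s, w.re < -X₂ ∧ K.E w ∈ UG n e := by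
      intro w hw
      have h1 : w + (c : ℂ) ∈ ball w₀ s := by
        rw [mem_ball, dist_eq_norm] at hw ⊢
        have : w + (c : ℂ) - w₀ = w - (w₀ - c) := by ring
        rwa [this]
      have h2 := hs _ h1
      have h3 := hsh _ c h2.1
      have h4 : w + (c : ℂ) - c = w := by ring
      rw [h4] at h3
      refine ⟨h3, ?_⟩
      rw [← hUit c]
      have h5 := E_iter K c (w + c)
      rw [h4] at h5
      rw [h5]
      exact h2.2
    have hd1 : DifferentiableOn ℂ (fun w => χ (K.E w)) (ball (w₀ - (c : ℂ)) s) := by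
      refine rad.hol.comp (K.E_hol.mono fun w hw => ?_) fun w hw => (hmem w hw).2
      have := (hmem w hw).1
      show w.re < -K.R
      linarith
    have hd2 : DifferentiableOn ℂ (fun w => L.E (w + κ)) (ball (w₀ - (c : ℂ)) s) := by
      refine L.E_hol.comp (differentiableOn_id.add_const κ) fun w hw => hκre w (hmem w hw).1
    have ha1 := hd1.analyticOnNhd isOpen_ball
    have ha2 := hd2.analyticOnNhd isOpen_ball
    exact ha1.eqOn_of_preconnected_of_eventuallyEq ha2 (convex_ball _ _).isPreconnected hw₁ hev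
  -- local constancy
  have hloc : ∀ x ∈ UG n e ∩ Hs 1, ∀ᶠ y in 𝓝[UG n e ∩ Hs 1] x, (Z x ↔ Z y) := by
    intro x hx
    have hsurj := K.E_surj (fun m => τ^[m] x) (fun m => by
      show GG n e (τ^[m + 1] x) = τ^[m] x
      rw [Function.iterate_succ_apply']
      exact (hτ _ (hτH m x hx.2).1).2) (fun m h1 => by
      have h2 := (hτH m x hx.2).1
      have h3 : τ^[m] x = 1 := h1
      rw [h3] at h2
      simp [Hs] at h2) (hτlim x hx.2) X₂
    obtain ⟨m₁, w₁, hw₁, hEw₁⟩ := hsurj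
    have hEw₁' : K.E w₁ = τ^[m₁] x := hEw₁
    have hEw₁U : K.E w₁ ∈ UG n e := by
      rw [hEw₁', ← hUit m₁, (hτH m₁ x hx.2).2]
      exact hx.1
    have hdiff : DifferentiableOn ℂ K.E {w : ℂ | w.re < -X₂} :=
      K.E_hol.mono fun w (hw : w.re < -X₂) => show w.re < -K.R by linarith
    have hcontE : ContinuousAt K.E w₁ :=
      (hdiff.continuousOn).continuousAt ((isOpen_reLt _).mem_nhds hw₁)
    have hnh : {w : ℂ | w.re < -X₂ ∧ K.E w ∈ UG n e} ∈ 𝓝 w₁ :=
      inter_mem ((isOpen_reLt _).mem_nhds hw₁) (hcontE.preimage_mem_nhds (hUo.mem_nhds hEw₁U))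
    obtain ⟨s, hs0, hs⟩ := Metric.mem_nhds_iff.1 hnh
    have hanE : AnalyticOnNhd ℂ K.E (ball w₁ s) :=
      (hdiff.mono fun w hw => (hs hw).1).analyticOnNhd isOpen_ball
    have hopen : IsOpen (K.E '' ball w₁ s) := by
      rcases hanE.is_constant_or_isOpen (convex_ball _ _).isPreconnected with h | h
      · exfalso
        obtain ⟨c, hc⟩ := h
        have hm1 : w₁ ∈ ball w₁ s := mem_ball_self hs0
        have hm2 : w₁ + ((s / 2 : ℝ) : ℂ) ∈ ball w₁ s := by
          rw [mem_ball, dist_eq_norm, add_sub_cancel_left, Complex.norm_real, Real.norm_eq_abs,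
            abs_of_pos (by linarith)]
          linarith
        have h3 := hKinj _ _ (hs hm1).1 (hs hm2).1 ((hc _ hm1).trans (hc _ hm2).symm)
        have h4 : ((s / 2 : ℝ) : ℂ) = 0 := by
          have := congrArg (fun t => t - w₁) h3
          simpa using this.symm
        rw [Complex.ofReal_eq_zero] at h4
        linarith
      · exact h _ subset_rfl isOpen_ball
    have hcontτ : ContinuousAt (τ^[m₁]) x :=
      (hτcont m₁).continuousAt ((isOpen_Hs 1).mem_nhds hx.2)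
    have hV : {y | τ^[m₁] y ∈ K.E '' ball w₁ s} ∈ 𝓝 x :=
      hcontτ.preimage_mem_nhds (hopen.mem_nhds ⟨w₁, mem_ball_self hs0, hEw₁'⟩)
    have hkey : ∀ y z : ℂ, y ∈ Hs 1 → z ∈ Hs 1 → τ^[m₁] y ∈ K.E '' ball w₁ s →
        τ^[m₁] z ∈ K.E '' ball w₁ s → Z y → Z z := by
      rintro y z hy hz ⟨wy, hwy, hEy⟩ ⟨wz, hwz, hEz⟩ ⟨m, w, hw, hEw, hj⟩
      have hyH : K.E wy ∈ Hs 1 := by rw [hEy]; exact (hτH m₁ y hy).1
      have hzH : K.E wz ∈ Hs 1 := by rw [hEz]; exact (hτH m₁ z hz).1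
      have hwH : K.E w ∈ Hs 1 := by rw [hEw]; exact (hτH m y hy).1
      have hlt : ∀ v : ℂ, v.re < -X₂ → v.re < -X₁ := fun v hv => by linarith
      have e1 := (hτEj m wy (hlt _ (hs hwy).1) hyH).2
      have e2 := (hτEj m₁ w (hlt _ hw) hwH).2
      have e3 : K.E (wy - m) = K.E (w - m₁) := by
        rw [← e1, ← e2, hEy, hEw, ← Function.iterate_add_apply, ← Function.iterate_add_apply,
          add_comm]
      have e4 := hKinj _ _ (hsh _ m (hs hwy).1) (hsh _ m₁ hw) e3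
      have e5 := (hτEj m wz (hlt _ (hs hwz).1) hzH).2
      refine ⟨m + m₁, wz - m, hsh _ m (hs hwz).1, ?_, fun j => ?_⟩
      · rw [← e5, hEz, ← Function.iterate_add_apply]
      · have hball : ∀ v ∈ ball w₁ s, v - (m : ℂ) - (j : ℂ) ∈
            ball (w₁ - ((m + j : ℕ) : ℂ)) s := by
          intro v hv
          rw [mem_ball, dist_eq_norm] at hv ⊢
          have : v - (m : ℂ) - (j : ℂ) - (w₁ - ((m + j : ℕ) : ℂ)) = v - w₁ := by
            push_cast; ring
          rwa [this]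
        have hev : ∀ᶠ w' in 𝓝 (wy - (m : ℂ) - (j : ℂ)), χ (K.E w') = L.E (w' + κ) := by
          have h6 := hj (m₁ + j)
          have h7 : w - ((m₁ + j : ℕ) : ℂ) = wy - m - j := by
            rw [e4]; push_cast; ring
          rwa [h7] at h6
        have h8 := hid w₁ s (fun v hv => hs hv) (m + j) _ (hball wy hwy) hev
        filter_upwards [isOpen_ball.mem_nhds (hball wz hwz)] with w' hw'
        exact h8 w' hw'
    filter_upwards [mem_nhdsWithin_of_mem_nhds hV, self_mem_nhdsWithin] with y hy hyU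
    have hxV : τ^[m₁] x ∈ K.E '' ball w₁ s := ⟨w₁, mem_ball_self hs0, hEw₁'⟩
    exact ⟨hkey x y hx.2 hyU.2 hxV hy, hkey y x hyU.2 hx.2 hy hxV⟩
  -- a point of `Z`
  set Y₂ : ℝ := max (max Y Y₁) K.R + 1 with hY₂
  have hY1 : Y < Y₂ := by
    have := le_max_left Y Y₁
    have := le_max_left (max Y Y₁) K.R
    linarith
  have hY2 : Y₁ < Y₂ := by
    have := le_max_right Y Y₁
    have := le_max_left (max Y Y₁) K.R
    linarith
  have hY3 : K.R < Y₂ := by
    have := le_max_right (max Y Y₁) K.R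
    linarith
  set w₂ : ℂ := ⟨-X₂ - 1, Y₂⟩ with hw₂
  have hw₂re : w₂.re < -X₂ := by show -X₂ - 1 < -X₂; linarith
  have hx₂ : K.E w₂ ∈ UG n e ∩ Hs 1 :=
    ⟨hEUG w₂ hY3, hEup w₂ (by linarith) hY2⟩
  have hZ₂ : Z (K.E w₂) := by
    refine ⟨0, w₂, hw₂re, rfl, fun j => ?_⟩
    have h1 : Y < (w₂ - (j : ℂ)).im := by
      rw [Complex.sub_im, Complex.natCast_im, sub_zero]
      exact hY1
    have h2 : {w : ℂ | Y < w.im} ∈ 𝓝 (w₂ - (j : ℂ)) :=
      (isOpen_lt continuous_const Complex.continuous_im).mem_nhds h1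
    filter_upwards [h2] with w' hw'
    exact hY w' hw'
  have hall : ∀ x ∈ UG n e ∩ Hs 1, Z x := by
    intro x hx
    have h := hpre.induction₂ (fun x y => (Z x ↔ Z y)) hloc
      (fun x y z _ _ _ h1 h2 => h1.trans h2) (fun x y _ _ h => h.symm) hx₂ hx
    exact h.1 hZ₂
  -- conclusion
  refine ⟨X₂, fun w hw hwU hwH => ?_⟩
  obtain ⟨m, w₀, hw₀, hE₀, hj⟩ := hall (K.E w) ⟨hwU, hwH⟩
  have h1 := (hτEj m w (by linarith) hwH).2
  rw [h1] at hE₀
  have h2 := hKinj _ _ hw₀ (hsh w m hw) hE₀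
  have h3 := (hj 0).self_of_nhds
  rw [h2, Nat.cast_zero, sub_zero] at h3
  have h4 : K.E (w - m) ∈ UG n e := by
    rw [← hUit m, E_iter K m w]
    exact hwU
  have h5 := (hA2 m _ h4).1
  rw [E_iter K m w, h3] at h5
  have h6 : w - (m : ℂ) + κ = (w + κ) - m := by ring
  rw [h6, E_iter L m (w + κ)] at h5
  exact h5.symm

end Pool.Agent.MAT
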