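import Pool.Agent.MAT.T

/-!
# MAT-XUR: a uniform radius
-/

set_option autoImplicit false

open Polynomial Metric Set Filter Topology

noncomputable section

namespace Pool.Agent.MAT

namespace XUR_

theorem sum_bound (P : ℂ[X]) (C : ℝ) (m j : ℕ) (hC : 0 ≤ C)
    (h : ∀ i < m, ‖P.coeff i‖ ≤ C) (hj : ∀ i < m, i ≤ j) (z : ℂ) (hz : 1 ≤ ‖z‖) :
    ‖∑ i ∈ Finset.range m, P.coeff i * z ^ i‖ ≤ m * C * ‖z‖ ^ j := by
  calc ‖∑ i ∈ Finset.range m, P.coeff i * z ^ i‖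
      ≤ ∑ i ∈ Finset.range m, ‖P.coeff i * z ^ i‖ := norm_sum_le _ _
    _ ≤ ∑ i ∈ Finset.range m, C * ‖z‖ ^ j := by
        refine Finset.sum_le_sum fun i hi => ?_
        have hi' := Finset.mem_range.1 hi
        rw [norm_mul, norm_pow]
        exact mul_le_mul (h i hi') (pow_le_pow_right₀ hz (hj i hi')) (by positivity) hC
    _ = m * C * ‖z‖ ^ j := by
        rw [Finset.sum_const, Finset.card_range, nsmul_eq_mul]; ring

/-- growth near infinity -/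
theorem growth (n : ℕ) (hn : 2 ≤ n) (lam C : ℝ) (hl0 : 0 ≤ lam) (hl : lam < 1) (hC : 0 ≤ C) :
    ∃ R q : ℝ, 1 ≤ R ∧ 1 < q ∧ ∀ N D : ℂ[X], N.Monic → N.natDegree = n → D.natDegree < n →
      (∀ i < n, ‖N.coeff i‖ ≤ C) → (∀ i < n - 1, ‖D.coeff i‖ ≤ C) → ‖D.coeff (n - 1)‖ ≤ lam →
      ∀ z : ℂ, R ≤ ‖z‖ → q * ‖z‖ * ‖D.eval z‖ ≤ ‖N.eval z‖ := by
  obtain ⟨j, rfl⟩ : ∃ j, n = j + 2 := ⟨n - 2, by omega⟩
  set R : ℝ := max 1 (4 * (((j + 2 : ℕ) : ℝ) * C) / (1 - lam)) with hR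
  have h1l : 0 < 1 - lam := by linarith
  have h1l' : 0 < 1 + 3 * lam := by linarith
  refine ⟨R, (3 + lam) / (1 + 3 * lam), le_max_left _ _, ?_, ?_⟩
  · rw [one_lt_div h1l']; linarith
  intro N D hN hNd hDd hNc hDc hDl z hz
  have hz1 : 1 ≤ ‖z‖ := (le_max_left _ _).trans hz
  have hz0 : 0 < ‖z‖ := by linarith
  have hz2 : 4 * (((j + 2 : ℕ) : ℝ) * C) ≤ (1 - lam) * ‖z‖ := by
    have h := (le_max_right 1 (4 * (((j + 2 : ℕ) : ℝ) * C) / (1 - lam))).trans hz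
    rwa [div_le_iff₀ h1l, mul_comm ‖z‖] at h
  -- numerator
  have hNe : N.eval z = ∑ i ∈ Finset.range (j + 2), N.coeff i * z ^ i + z ^ (j + 2) := by
    rw [Polynomial.eval_eq_sum_range' (n := j + 2 + 1) (by omega), Finset.sum_range_succ]
    have : N.coeff (j + 2) = 1 := by rw [← hNd]; exact hN.coeff_natDegree
    rw [this, one_mul]
  have hNb : ‖z‖ ^ (j + 2) - ((j + 2 : ℕ) : ℝ) * C * ‖z‖ ^ (j + 1) ≤ ‖N.eval z‖ := by
    have h1 := sum_bound N C (j + 2) (j + 1) hC hNc (fun i hi => by omega) z hz1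
    have h2 : ‖z ^ (j + 2)‖ ≤ ‖N.eval z‖ + ‖∑ i ∈ Finset.range (j + 2), N.coeff i * z ^ i‖ := by
      have : z ^ (j + 2) = N.eval z - ∑ i ∈ Finset.range (j + 2), N.coeff i * z ^ i := by
        rw [hNe]; ring
      rw [this]
      exact norm_sub_le _ _
    rw [norm_pow] at h2
    linarith
  -- denominator
  have hDe : D.eval z = ∑ i ∈ Finset.range (j + 1), D.coeff i * z ^ i +
      D.coeff (j + 1) * z ^ (j + 1) := by
    rw [Polynomial.eval_eq_sum_range' (n := j + 1 + 1) (by omega), Finset.sum_range_succ]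
  have hDb : ‖D.eval z‖ ≤ ((j + 1 : ℕ) : ℝ) * C * ‖z‖ ^ j + lam * ‖z‖ ^ (j + 1) := by
    rw [hDe]
    refine (norm_add_le _ _).trans (add_le_add ?_ ?_)
    · exact sum_bound D C (j + 1) j hC (fun i hi => hDc i (by omega)) (fun i hi => by omega) z hz1
    · rw [norm_mul, norm_pow]
      exact mul_le_mul_of_nonneg_right hDl (by positivity)
  have hD' : ‖z‖ * ‖D.eval z‖ ≤ ((j + 2 : ℕ) : ℝ) * C * ‖z‖ ^ (j + 1) + lam * ‖z‖ ^ (j + 2) := by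
    calc ‖z‖ * ‖D.eval z‖ ≤ ‖z‖ * (((j + 1 : ℕ) : ℝ) * C * ‖z‖ ^ j + lam * ‖z‖ ^ (j + 1)) :=
          mul_le_mul_of_nonneg_left hDb hz0.le
      _ = ((j + 1 : ℕ) : ℝ) * C * ‖z‖ ^ (j + 1) + lam * ‖z‖ ^ (j + 2) := by ring
      _ ≤ _ := by
          gcongr
          omega
  -- comparison
  have hkey : ((j + 2 : ℕ) : ℝ) * C * ‖z‖ ^ (j + 1) ≤ (1 - lam) / 4 * ‖z‖ ^ (j + 2) := by
    have : ‖z‖ ^ (j + 2) = ‖z‖ * ‖z‖ ^ (j + 1) := by ring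
    rw [this]
    have h3 := mul_le_mul_of_nonneg_right hz2 (by positivity : (0 : ℝ) ≤ ‖z‖ ^ (j + 1))
    nlinarith [h3]
  have hA : (3 + lam) / 4 * ‖z‖ ^ (j + 2) ≤ ‖N.eval z‖ := by
    linarith
  have hB : ‖z‖ * ‖D.eval z‖ ≤ (1 + 3 * lam) / 4 * ‖z‖ ^ (j + 2) := by
    linarith
  calc (3 + lam) / (1 + 3 * lam) * ‖z‖ * ‖D.eval z‖
      = (3 + lam) / (1 + 3 * lam) * (‖z‖ * ‖D.eval z‖) := by ring
    _ ≤ (3 + lam) / (1 + 3 * lam) * ((1 + 3 * lam) / 4 * ‖z‖ ^ (j + 2)) := by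
        refine mul_le_mul_of_nonneg_left hB ?_
        exact div_nonneg (by linarith) h1l'.le
    _ = (3 + lam) / 4 * ‖z‖ ^ (j + 2) := by
        field_simp
    _ ≤ ‖N.eval z‖ := hA

/-- points outside of a fixed ball are in `Out` -/
theorem esc_of_growth {A : ℂ → ℂ} {N D : ℂ[X]} {R₀ R q : ℝ} {ϕ : ℂ → ℂ} (hq : 1 < q)
    (hR : 1 ≤ R) (hgr : ∀ z : ℂ, R ≤ ‖z‖ → q * ‖z‖ * ‖D.eval z‖ ≤ ‖N.eval z‖)
    (hS : ASide A N D R₀ ϕ) : ∀ z, R ≤ ‖z‖ → z ∈ Out ϕ := by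
  intro z hz
  by_contra hout
  have hm : ∀ m : ℕ, (rf N D)^[m] z ∉ Out ϕ ∧ q ^ m * ‖z‖ ≤ ‖(rf N D)^[m] z‖ := by
    intro m
    induction m with
    | zero => exact ⟨by simpa using hout, by simp⟩
    | succ m ih =>
      obtain ⟨h1, h2⟩ := ih
      obtain ⟨hD, hg⟩ := hS.back _ h1
      rw [Function.iterate_succ_apply']
      refine ⟨hg, ?_⟩
      have hqm : (1 : ℝ) ≤ q ^ m := one_le_pow₀ hq.le
      have hz0 : 0 ≤ ‖z‖ := norm_nonneg _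
      have h3 : R ≤ ‖(rf N D)^[m] z‖ := by
        refine le_trans ?_ h2
        nlinarith
      have h4 := hgr _ h3
      have hDpos : 0 < ‖D.eval ((rf N D)^[m] z)‖ := norm_pos_iff.2 hD
      rw [rf, norm_div, le_div_iff₀ hDpos]
      refine le_trans ?_ h4
      have h5 : q ^ (m + 1) * ‖z‖ = q * (q ^ m * ‖z‖) := by ring
      rw [h5]
      gcongr
  obtain ⟨m, hm'⟩ := pow_unbounded_of_one_lt R₀ hq
  obtain ⟨h1, h2⟩ := hm m
  apply h1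
  apply hS.esc
  have hqm : (0 : ℝ) < q ^ m := by positivity
  have hz1 : 1 ≤ ‖z‖ := hR.trans hz
  nlinarith

end XUR_

theorem p_XUR (hBLA : T_BLA) (hXCO : T_XCO) : T_XUR := by
  intro n A l Nk Dk N D ϕk hn hA hN hD hk
  obtain ⟨-, -, -, -, -, -, hlam, -⟩ := hBLA n A hn hA
  obtain ⟨hNd, -, hNc⟩ := hN
  obtain ⟨hDd, -, hDc⟩ := hD
  have hbd : ∀ (Pk : ℕ → ℂ[X]) (P : ℂ[X]),
      (∀ i : ℕ, Tendsto (fun k => (Pk k).coeff i) l (𝓝 (P.coeff i))) →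
      ∃ C : ℝ, 0 ≤ C ∧ ∀ᶠ k in l, ∀ i < n, ‖(Pk k).coeff i‖ ≤ C := by
    intro Pk P hP
    refine ⟨∑ i ∈ Finset.range n, (‖P.coeff i‖ + 1), Finset.sum_nonneg fun i _ => by positivity,
      ?_⟩
    have h1 : ∀ᶠ k in l, ∀ i ∈ Finset.range n, ‖(Pk k).coeff i‖ ≤ ‖P.coeff i‖ + 1 := by
      rw [Filter.eventually_all_finset]
      intro i _
      have h2 := (hP i).norm
      exact h2.eventually (eventually_le_nhds (by linarith))
    filter_upwards [h1] with k hk i hi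
    refine (hk i (Finset.mem_range.2 hi)).trans ?_
    exact Finset.single_le_sum (f := fun i => ‖P.coeff i‖ + 1)
      (fun i _ => by positivity) (Finset.mem_range.2 hi)
  obtain ⟨C₁, hC₁, hb₁⟩ := hbd Nk N hNc
  obtain ⟨C₂, hC₂, hb₂⟩ := hbd Dk D hDc
  obtain ⟨R, q, hR, hq, hgr⟩ := XUR_.growth n hn ‖deriv A 0‖ (max C₁ C₂) (norm_nonneg _) hlam
    (hC₁.trans (le_max_left _ _))
  refine ⟨R, ?_⟩
  filter_upwards [hk, hb₁, hb₂] with k hk1 hk2 hk3 R' hR'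
  obtain ⟨hND, R₀, hS⟩ := hk1
  have hco := hXCO n A (Nk k) (Dk k) R₀ (ϕk k) hn hA hND hS
  have hesc := XUR_.esc_of_growth hq hR
    (hgr (Nk k) (Dk k) hND.monic hND.deg hND.dden (fun i hi => (hk2 i hi).trans (le_max_left _ _))
      (fun i hi => (hk3 i (by omega)).trans (le_max_right _ _)) (by rw [hco])) hS
  exact ⟨hR.trans hR', hS.hol, hS.inj, hS.zero, hS.conj,
    fun z hz => hesc z (hR'.trans hz), hS.back⟩

end Pool.Agent.MAT
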