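import Pool.Agent.MAT.TA
import Pool.Agent.MAT.TP
import Pool.Agent.MAT.TG
import Pool.Agent.MAT.TL
import Pool.Agent.MAT.TH
import Pool.Agent.MAT.TV
import Pool.Agent.MAT.TX

/-! MAT: all targets -/
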