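import Pool.Agent.MAT.Core

/-!
# MAT: targets A (general analysis)
-/

set_option autoImplicit false

open Polynomial Metric Set Filter Topology

noncomputable section

namespace Pool.Agent.MAT

/-- UL (Montel, along an ultrafilter) -/
def T_UL : Prop := ∀ (u : Ultrafilter ℕ) (U : Set ℂ) (f : ℕ → ℂ → ℂ), IsOpen U →
  (∀ x ∈ U, ∃ r C : ℝ, 0 < r ∧ ball x r ⊆ U ∧ ∀ᶠ k in (u : Filter ℕ),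
    DifferentiableOn ℂ (f k) (ball x r) ∧ ∀ y ∈ ball x r, ‖f k y‖ ≤ C) →
  ∃ g : ℂ → ℂ, DifferentiableOn ℂ g U ∧ TendstoLocallyUniformlyOn f g (u : Filter ℕ) U

/-- HUR (Hurwitz) -/
def T_HUR : Prop := ∀ (l : Filter ℕ) (f : ℕ → ℂ → ℂ) (g : ℂ → ℂ) (x : ℂ) (r : ℝ), 0 < r →
  DifferentiableOn ℂ g (ball x r) → (∀ᶠ k in l, DifferentiableOn ℂ (f k) (ball x r)) →
  TendstoLocallyUniformlyOn f g l (ball x r) → g x = 0 → (¬ ∀ᶠ z in 𝓝 x, g z = 0) →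
  ∀ ε : ℝ, 0 < ε → ∀ᶠ k in l, ∃ z ∈ ball x ε, f k z = 0

/-- HINJ (limits of injective maps; from HUR) -/
def T_HINJ : Prop := ∀ (l : Filter ℕ) (f : ℕ → ℂ → ℂ) (g : ℂ → ℂ) (U : Set ℂ), l.NeBot →
  IsOpen U → IsPreconnected U → DifferentiableOn ℂ g U → TendstoLocallyUniformlyOn f g l U →
  (∀ a ∈ U, ∀ b ∈ U, ∃ r : ℝ, 0 < r ∧ ∀ᶠ k in l, DifferentiableOn ℂ (f k) (ball b r) ∧
    InjOn (f k) (insert a (ball b r))) →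
  InjOn g U ∨ ∀ a ∈ U, ∀ b ∈ U, g a = g b

/-- ROOT (holomorphic branches of the roots of `N(z) = f(ζ) D(z)` over a convex set) -/
def T_ROOT : Prop := ∀ (n : ℕ) (N D : ℂ[X]) (V : Set ℂ) (f : ℂ → ℂ) (c z₀ : ℂ), 1 ≤ n →
  N.Monic → N.natDegree = n → D.natDegree < n → IsOpen V → Convex ℝ V → c ∈ V →
  DifferentiableOn ℂ f V → N.eval z₀ = f c * D.eval z₀ →
  (∀ ζ ∈ V, ∀ z, N.eval z = f ζ * D.eval z →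
    (derivative N).eval z - f ζ * (derivative D).eval z ≠ 0) →
  ∃ h : ℂ → ℂ, DifferentiableOn ℂ h V ∧ h c = z₀ ∧ ∀ ζ ∈ V, N.eval (h ζ) = f ζ * D.eval (h ζ)

/-- PCE (coefficientwise convergence implies locally uniform convergence) -/
def T_PCE : Prop := ∀ (l : Filter ℕ) (d : ℕ) (Pk : ℕ → ℂ[X]) (P : ℂ[X]), PConv l d Pk P →
  TendstoLocallyUniformlyOn (fun k z => (Pk k).eval z) (fun z => P.eval z) l univ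

/-- PCW (products and derivatives) -/
def T_PCW : Prop := ∀ (l : Filter ℕ) (n : ℕ) (Nk Dk : ℕ → ℂ[X]) (N D : ℂ[X]),
  PConv l n Nk N → PConv l n Dk D →
  PConv l (2 * n) (fun k => wr (Nk k) (Dk k)) (wr N D) ∧
  PConv l (n + 1) (fun k => Nk k - X * Dk k) (N - X * D) ∧
  PConv l n (fun k => derivative (Nk k)) (derivative N)

/-- PCR (roots; from HUR and PCE) -/
def T_PCR : Prop := ∀ (l : Filter ℕ) (d : ℕ) (Pk : ℕ → ℂ[X]) (P : ℂ[X]) (z₀ : ℂ),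
  PConv l d Pk P → P ≠ 0 → P.eval z₀ = 0 →
  ∀ ε : ℝ, 0 < ε → ∀ᶠ k in l, ∃ z ∈ ball z₀ ε, (Pk k).eval z = 0

/-- INVH (inverse of an injective holomorphic function) -/
def T_INVH : Prop := ∀ (V : Set ℂ) (f : ℂ → ℂ), IsOpen V → DifferentiableOn ℂ f V → InjOn f V →
  IsOpen (f '' V) ∧ ∃ h : ℂ → ℂ, DifferentiableOn ℂ h (f '' V) ∧ (∀ z ∈ V, h (f z) = z) ∧
    ∀ z ∈ V, deriv f z ≠ 0

/-- GROW (growth of nonvanishing univalent functions; from `PLim.p_KOEB`) -/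
def T_GROW : Prop := ∀ g : ℂ → ℂ, DifferentiableOn ℂ g (ball 0 1) → InjOn g (ball 0 1) →
  (∀ z ∈ ball (0 : ℂ) 1, g z ≠ 0) → ∀ z ∈ ball (0 : ℂ) 1, ‖g z‖ * (1 - ‖z‖) ^ 64 ≤ ‖g 0‖

/-- COMP (components of preimages under a polynomial map onto) -/
def T_COMP : Prop := ∀ (P : ℂ[X]), 1 ≤ P.natDegree → ∀ W : Set ℂ, IsOpen W → IsPreconnected W →
  ∀ x : ℂ, P.eval x ∈ W →
    (fun z => P.eval z) '' connectedComponentIn {z | P.eval z ∈ W} x = W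

/-- ANN (the end of the proof: an equivariant map of annuli is `κ ζ ^ d`) -/
def T_ANN : Prop := ∀ (n : ℕ) (A η : ℂ → ℂ) (ρ : ℝ), 2 ≤ n → IsBlaschke n A → 0 < ρ → ρ < 1 →
  DifferentiableOn ℂ η {ζ | ρ < ‖ζ‖ ∧ ‖ζ‖ < 1} →
  (∀ ζ : ℂ, ρ < ‖ζ‖ → ‖ζ‖ < 1 → ‖η ζ‖ < 1) →
  (∀ ζ : ℂ, ρ < ‖ζ‖ ^ n → ‖ζ‖ < 1 → η (ζ ^ n) = A (η ζ)) →
  (∀ ε : ℝ, 0 < ε → ∃ ρ' : ℝ, ρ' < 1 ∧ ∀ ζ : ℂ, ρ' < ‖ζ‖ → ‖ζ‖ < 1 → 1 - ε < ‖η ζ‖) →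
  ∃ κ : ℂ, ‖κ‖ = 1 ∧ ∀ z ∈ ball (0 : ℂ) 1, A (κ * z) = κ * z ^ n

/-- BLA (Blaschke products) -/
def T_BLA : Prop := ∀ (n : ℕ) (A : ℂ → ℂ), 2 ≤ n → IsBlaschke n A →
  A 0 = 0 ∧ DifferentiableOn ℂ A (ball 0 1) ∧ ContinuousOn A (closedBall 0 1) ∧
  (∀ z ∈ ball (0 : ℂ) 1, z ≠ 0 → ‖A z‖ < ‖z‖) ∧
  (∀ z ∈ closedBall (0 : ℂ) 1, ‖A z‖ = 1 ↔ ‖z‖ = 1) ∧
  (∀ z ∈ ball (0 : ℂ) 1, Tendsto (fun m : ℕ => A^[m] z) atTop (𝓝 0)) ∧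
  ‖deriv A 0‖ < 1 ∧
  (∀ r : ℝ, r < 1 → ∃ r' : ℝ, r' < 1 ∧ ∀ z ∈ ball (0 : ℂ) 1, ‖A z‖ ≤ r → ‖z‖ ≤ r') ∧
  ∃ ρ : ℝ, 0 < ρ ∧ ρ < 1 ∧ ∀ z ∈ ball (0 : ℂ) 1, deriv A z = 0 → ‖z‖ ≤ ρ

/-- BLC (a Blaschke product takes each value of the circle `n` times on the circle) -/
def T_BLC : Prop := ∀ (n : ℕ) (A : ℂ → ℂ), 2 ≤ n → IsBlaschke n A → ∀ b : ℂ, ‖b‖ = 1 →
  ∃ w : Fin n → ℂ, Function.Injective w ∧ ∀ i, ‖w i‖ = 1 ∧ A (w i) = b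

/-- PER (periodic holomorphic functions on a half plane) -/
def T_PER : Prop := ∀ (δ : ℂ → ℂ) (Y : ℝ), DifferentiableOn ℂ δ {w | Y < w.im} →
  (∀ w : ℂ, Y < w.im → δ (w + 1) = δ w) →
  (∃ B : ℝ, ∀ w : ℂ, Y < w.im → ‖deriv δ w‖ ≤ B) →
  ∃ c₀ : ℂ, ∀ (y M : ℝ), Y < y → (∀ w : ℂ, w.im = y → ‖δ w - c₀‖ ≤ M) →
    ∀ w : ℂ, y ≤ w.im → ‖δ w - c₀‖ ≤ M * Real.exp (-(2 * Real.pi * (w.im - y)))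

/-- UC (univalent functions on a half plane commuting with the translation;
from `PLim.p_KOEB`) -/
def T_UC : Prop := ∀ (τ : ℂ → ℂ) (Y : ℝ), DifferentiableOn ℂ τ {w | Y < w.im} →
  InjOn τ {w | Y < w.im} → (∀ w : ℂ, Y < w.im → τ (w + 1) = τ w + 1) →
  ∀ w : ℂ, Y + 1 ≤ w.im → ‖deriv τ w‖ ≤ 64

/-- HC (the two horn maps agree; from PER, UC) -/
def T_HC : Prop := ∀ (HG HA : ℂ → ℂ) (Y₀ : ℝ) (w₁ w₂ : ℝ),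
  DifferentiableOn ℂ HG {w | Y₀ < w.im} → DifferentiableOn ℂ HA {w | Y₀ < w.im} →
  (∀ w : ℂ, Y₀ < w.im → HG (w + 1) = HG w + 1) → (∀ w : ℂ, Y₀ < w.im → HA (w + 1) = HA w + 1) →
  (∀ ε : ℝ, 0 < ε → ∃ Y : ℝ, ∀ w : ℂ, Y < w.im → ‖HG w - w‖ < ε) →
  (∀ ε : ℝ, 0 < ε → ∃ Y : ℝ, ∀ w : ℂ, Y < w.im → ‖HA w - w‖ < ε) →
  Irrational (w₁ - w₂) →
  (∃ S₀ : ℝ, ∀ S : ℝ, S₀ ≤ S → ∃ τ : ℂ → ℂ, DifferentiableOn ℂ τ {w | -3 < w.im} ∧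
    InjOn τ {w | -3 < w.im} ∧ (∀ w : ℂ, -3 < w.im → τ (w + 1) = τ w + 1) ∧
    ((τ w₁ = w₁ ∧ τ w₂ = w₂) ∨ (τ w₁ = w₂ ∧ τ w₂ = w₁)) ∧
    ∀ w : ℂ, -3 < w.im → Y₀ < w.im + S → Y₀ < (τ w).im + S →
      -3 < (HG (w + S * Complex.I)).im →
      τ (HG (w + S * Complex.I)) = HA (τ w + S * Complex.I)) →
  ∃ Y₁ : ℝ, Y₀ ≤ Y₁ ∧ ∀ w : ℂ, Y₁ < w.im → HG w = HA w

end Pool.Agent.MAT
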